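import Mathlib

/-! Duplication and addition formulas for the first coordinate on a Weierstrass curve, and the
approximate parallelogram law for the naive height. -/

open Height WeierstrassCurve WeierstrassCurve.Affine

namespace Pool.Agent.Lib.MP_696deb_nt

section
variable {K : Type*} [Field K] {W : WeierstrassCurve K}

/-- The first coordinate of a point, zero at infinity. -/
def xco : W.toAffine.Point → K
  | .zero => 0
  | .some x _ _ => x

/-- The second coordinate of a point, zero at infinity. -/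
def yco : W.toAffine.Point → K
  | .zero => 0
  | .some _ y _ => y

@[simp] lemma xco_zero : xco (0 : W.toAffine.Point) = 0 := rfl
@[simp] lemma yco_zero : yco (0 : W.toAffine.Point) = 0 := rfl
@[simp] lemma xco_some {x y : K} (h : W.toAffine.Nonsingular x y) : xco (.some x y h) = x := rfl
@[simp] lemma yco_some {x y : K} (h : W.toAffine.Nonsingular x y) : yco (.some x y h) = y := rfl

@[simp] lemma xco_neg (P : W.toAffine.Point) : xco (-P) = xco P := by
  rcases P with _ | ⟨x, y, h⟩ <;> rfl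

variable (W) in
/-- Numerator of the duplication formula. -/
def dup1 (x : K) : K := x ^ 4 - W.b₄ * x ^ 2 - 2 * W.b₆ * x - W.b₈

variable (W) in
/-- Denominator of the duplication formula. -/
def dup2 (x : K) : K := 4 * x ^ 3 + W.b₂ * x ^ 2 + 2 * W.b₄ * x + W.b₆

lemma dup2_eq {x y : K} (h : W.toAffine.Nonsingular x y) :
    dup2 W x = (2 * y + W.a₁ * x + W.a₃) ^ 2 := by
  have heq := (equation_iff x y).mp h.1
  simp only [dup2, b₂, b₄, b₆]
  simp only [toAffine] at heq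
  linear_combination (-4) * heq

lemma dup_ne [W.IsElliptic] {x : K} (h2 : dup2 W x = 0) : dup1 W x ≠ 0 := by
  intro h1
  apply addSubMap_ne_zero W (x := ![x * x, x + x, 1]) (by simp)
  ext i
  simp only [dup1, dup2] at h1 h2
  fin_cases i <;> simp [addSubMap]
  · linear_combination h1
  · linear_combination h2
  · ring

open Classical in
/-- The scaling factor of the duplication map. -/
noncomputable def dupc : W.toAffine.Point → K
  | .zero => 1
  | .some x _ _ => if dup2 W x = 0 then dup1 W x else dup2 W x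

@[simp] lemma dupc_zero : dupc (0 : W.toAffine.Point) = 1 := rfl

open Classical in
lemma dupc_some {x y : K} (h : W.toAffine.Nonsingular x y) :
    dupc (.some x y h) = if dup2 W x = 0 then dup1 W x else dup2 W x := rfl

lemma dupc_ne [W.IsElliptic] (P : W.toAffine.Point) : dupc P ≠ 0 := by
  rcases P with _ | ⟨x, y, h⟩
  · exact one_ne_zero
  · rw [dupc_some]
    split_ifs with h2
    · exact dup_ne h2
    · exact h2

variable [DecidableEq K]

lemma two_nsmul_eq_zero {x y : K} (h : W.toAffine.Nonsingular x y) (h2 : dup2 W x = 0) :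
    2 • (Point.some x y h : W.toAffine.Point) = 0 := by
  rw [dup2_eq h] at h2
  rw [two_nsmul, Point.add_self_of_Y_eq]
  simp only [negY, toAffine]
  linear_combination pow_eq_zero_iff two_ne_zero |>.mp h2

lemma two_nsmul_some {x y : K} (h : W.toAffine.Nonsingular x y) (h2 : dup2 W x ≠ 0) :
    ∃ y', ∃ h' : W.toAffine.Nonsingular (dup1 W x / dup2 W x) y',
      2 • (Point.some x y h : W.toAffine.Point) = .some _ _ h' := by
  have heq := (equation_iff x y).mp h.1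
  have hy' : 2 * y + W.a₁ * x + W.a₃ ≠ 0 := fun h0 => h2 (by rw [dup2_eq h, h0]; ring)
  have hy : y ≠ W.toAffine.negY x y := fun h0 => hy' (by
    simp only [negY, toAffine] at h0; linear_combination h0)
  have hy'' : y - W.toAffine.negY x y = 2 * y + W.a₁ * x + W.a₃ := by
    simp only [negY, toAffine]; ring
  have hx : W.toAffine.addX x x (W.toAffine.slope x x y y) = dup1 W x / dup2 W x := by
    have hl : W.toAffine.slope x x y y * (2 * y + W.a₁ * x + W.a₃) =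
        3 * x ^ 2 + 2 * W.a₂ * x + W.a₄ - W.a₁ * y := by
      rw [slope_of_Y_ne rfl hy, hy'', div_mul_cancel₀ _ hy']
    rw [eq_div_iff h2, dup2_eq h]
    generalize W.toAffine.slope x x y y = l at hl ⊢
    simp only [toAffine] at heq
    simp only [dup1, b₄, b₆, b₈, addX, toAffine]
    linear_combination (-(W.a₁ ^ 2 + 4 * W.a₂ + 8 * x)) * heq +
      (l * (2 * y + W.a₁ * x + W.a₃) + (3 * x ^ 2 + 2 * W.a₂ * x + W.a₄ - W.a₁ * y) +
        W.a₁ * (2 * y + W.a₁ * x + W.a₃)) * hl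
  rw [two_nsmul, Point.add_self_of_Y_ne hy]
  refine ⟨_, hx ▸ nonsingular_add h h fun hxy => hy hxy.2, ?_⟩
  simp only [Point.some.injEq, and_true]
  exact hx

lemma xco_two_nsmul {x y : K} (h : W.toAffine.Nonsingular x y) :
    xco (2 • (Point.some x y h : W.toAffine.Point)) = dup1 W x / dup2 W x := by
  by_cases h2 : dup2 W x = 0
  · rw [two_nsmul_eq_zero h h2, h2, div_zero, xco_zero]
  · obtain ⟨y', h', e⟩ := two_nsmul_some h h2
    rw [e, xco_some]

lemma abv_dupc (v : AbsoluteValue K ℝ) {x y : K} (h : W.toAffine.Nonsingular x y) :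
    v (dupc (.some x y h)) * max 1 (v (xco (2 • (Point.some x y h : W.toAffine.Point)))) =
      max (v (dup1 W x)) (v (dup2 W x)) := by
  rw [xco_two_nsmul, dupc_some]
  split_ifs with h2
  · simp [h2]
  · have : 0 < v (dup2 W x) := v.pos h2
    rw [map_div₀, mul_max_of_nonneg _ _ this.le, mul_one, mul_div_cancel₀ _ this.ne', max_comm]

/-- The first coordinates of the sum and the difference of two points. -/
lemma add_sub_some {x₁ y₁ x₂ y₂ : K} (h₁ : W.toAffine.Nonsingular x₁ y₁)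
    (h₂ : W.toAffine.Nonsingular x₂ y₂) (hx : x₁ ≠ x₂) :
    ∃ u v u' v', ∃ (h : W.toAffine.Nonsingular u v) (h' : W.toAffine.Nonsingular u' v'),
      Point.some _ _ h₁ + Point.some _ _ h₂ = (Point.some _ _ h : W.toAffine.Point) ∧
      Point.some _ _ h₁ - Point.some _ _ h₂ = (Point.some _ _ h' : W.toAffine.Point) ∧
      u * u' * (x₁ - x₂) ^ 2 =
        (x₁ * x₂) ^ 2 - W.b₄ * (x₁ * x₂) - W.b₆ * (x₁ + x₂) - W.b₈ ∧
      (u + u') * (x₁ - x₂) ^ 2 =
        2 * (x₁ + x₂) * (x₁ * x₂) + W.b₂ * (x₁ * x₂) + W.b₄ * (x₁ + x₂) + W.b₆ := by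
  have e₁ := (equation_iff _ _).mp h₁.1
  have e₂ := (equation_iff _ _).mp h₂.1
  have hd : x₁ - x₂ ≠ 0 := sub_ne_zero.mpr hx
  refine ⟨_, _, _, _, _, _, Point.add_of_X_ne hx,
    by rw [sub_eq_add_neg, Point.neg_some, Point.add_of_X_ne hx], ?_, ?_⟩
  all_goals
    have l1 : W.toAffine.slope x₁ x₂ y₁ y₂ * (x₁ - x₂) = y₁ - y₂ := by
      rw [slope_of_X_ne hx, div_mul_cancel₀ _ hd]
    have l2 : W.toAffine.slope x₁ x₂ y₁ (W.toAffine.negY x₂ y₂) * (x₁ - x₂) =
        y₁ + y₂ + W.a₁ * x₂ + W.a₃ := by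
      rw [slope_of_X_ne hx, div_mul_cancel₀ _ hd]; simp only [negY, toAffine]; ring
    generalize W.toAffine.slope x₁ x₂ y₁ y₂ = l at l1 ⊢
    generalize W.toAffine.slope x₁ x₂ y₁ (W.toAffine.negY x₂ y₂) = m at l2 ⊢
    simp only [toAffine] at e₁ e₂
    simp only [b₂, b₄, b₆, b₈, addX, toAffine]
    have k1 : (l ^ 2 + W.a₁ * l - W.a₂ - x₁ - x₂) * (x₁ - x₂) ^ 2 = (y₁ - y₂) ^ 2 +
        W.a₁ * (y₁ - y₂) * (x₁ - x₂) - (W.a₂ + x₁ + x₂) * (x₁ - x₂) ^ 2 := by
      rw [← l1]; ring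
    have k2 : (m ^ 2 + W.a₁ * m - W.a₂ - x₁ - x₂) * (x₁ - x₂) ^ 2 =
        (y₁ + y₂ + W.a₁ * x₂ + W.a₃) ^ 2 + W.a₁ * (y₁ + y₂ + W.a₁ * x₂ + W.a₃) * (x₁ - x₂) -
          (W.a₂ + x₁ + x₂) * (x₁ - x₂) ^ 2 := by
      rw [← l2]; ring
    generalize l ^ 2 + W.a₁ * l - W.a₂ - x₁ - x₂ = u at k1 ⊢
    generalize m ^ 2 + W.a₁ * m - W.a₂ - x₁ - x₂ = u' at k2 ⊢
  · apply mul_left_cancel₀ (pow_ne_zero 2 hd)
    rw [show (x₁ - x₂) ^ 2 * (u * u' * (x₁ - x₂) ^ 2) =
      (u * (x₁ - x₂) ^ 2) * (u' * (x₁ - x₂) ^ 2) by ring, k1, k2]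
    linear_combination (W.a₁ ^ 2 * x₁ * x₂ - W.a₁ ^ 2 * x₂ ^ 2 + W.a₁ * W.a₃ * x₁ -
      W.a₁ * W.a₃ * x₂ + W.a₁ * x₁ * y₁ - 2 * W.a₁ * x₂ * y₂ + 4 * W.a₂ * x₁ * x₂ -
      W.a₂ * x₁ ^ 2 - 2 * W.a₂ * x₂ ^ 2 + 2 * x₁ * x₂ ^ 2 + 2 * x₁ ^ 2 * x₂ - x₁ ^ 3 -
      2 * x₂ ^ 3 + W.a₃ * y₁ - 2 * W.a₃ * y₂ + W.a₄ * x₁ + y₁ ^ 2 - 2 * y₂ ^ 2 + W.a₆) * e₁ +
      (W.a₁ ^ 2 * x₁ * x₂ - W.a₁ ^ 2 * x₁ ^ 2 - W.a₁ * W.a₃ * x₁ + W.a₁ * W.a₃ * x₂ +
      W.a₁ * x₂ * y₂ + 4 * W.a₂ * x₁ * x₂ - 4 * W.a₂ * x₁ ^ 2 - W.a₂ * x₂ ^ 2 +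
      2 * x₁ * x₂ ^ 2 + 2 * x₁ ^ 2 * x₂ - 4 * x₁ ^ 3 - x₂ ^ 3 + W.a₃ * y₂ - 2 * W.a₄ * x₁ +
      W.a₄ * x₂ + y₂ ^ 2 - W.a₆) * e₂
  · linear_combination k1 + k2 + 2 * e₁ + 2 * e₂

/-- The map `addSubMap` computes the sum and the difference. -/
lemma addSubMap_sym2x [W.IsElliptic] (P Q : W.toAffine.Point) : ∃ c : K, c ≠ 0 ∧
    (fun i => (addSubMap W i).eval (P.sym2x Q)) = c • (P + Q).sym2x (P - Q) := by
  have key : ∀ P : W.toAffine.Point,
      (fun i => (addSubMap W i).eval (P.sym2x P)) = dupc P • (2 • P).sym2x 0 := by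
    rintro (_ | ⟨x, y, h⟩)
    · ext i
      fin_cases i <;> simp [addSubMap, ← Point.zero_def]
    · by_cases h2 : dup2 W x = 0
      · rw [two_nsmul_eq_zero h h2, dupc_some, if_pos h2]
        ext i
        simp only [dup1, dup2] at h2 ⊢
        fin_cases i <;> simp [addSubMap]
        · ring
        · linear_combination h2
        · ring
      · obtain ⟨y', h', e⟩ := two_nsmul_some h h2
        rw [e, dupc_some, if_neg h2]
        ext i
        fin_cases i <;> simp [addSubMap]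
        · rw [mul_div_cancel₀ _ h2, dup1]; ring
        · rw [dup2]; ring
        · ring
  by_cases hPQ : P = Q ∨ P = -Q
  · rcases hPQ with rfl | rfl
    · exact ⟨_, dupc_ne P, by rw [key, sub_self, two_nsmul]⟩
    · refine ⟨_, dupc_ne Q, ?_⟩
      rw [Point.sym2x_neg_left, key, neg_add_cancel, Point.sym2x_comm, two_nsmul,
        show -Q - Q = -(Q + Q) by abel, Point.sym2x_neg_right]
  rcases P with _ | ⟨x₁, y₁, h₁⟩
  · refine ⟨1, one_ne_zero, ?_⟩
    rw [← Point.zero_def, zero_add, zero_sub, Point.sym2x_neg_right]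
    rcases Q with _ | ⟨x₂, y₂, h₂⟩
    · exact absurd (.inl rfl) hPQ
    · ext i
      fin_cases i <;> simp [addSubMap] <;> ring
  rcases Q with _ | ⟨x₂, y₂, h₂⟩
  · refine ⟨1, one_ne_zero, ?_⟩
    rw [← Point.zero_def, add_zero, sub_zero]
    ext i
    fin_cases i <;> simp [addSubMap] <;> ring
  have hx : x₁ ≠ x₂ := fun e => hPQ (Point.X_eq_iff.mp e)
  obtain ⟨u, v, u', v', h, h', e, e', k1, k2⟩ := add_sub_some h₁ h₂ hx
  refine ⟨_, pow_ne_zero 2 (sub_ne_zero.mpr hx), ?_⟩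
  rw [e, e']
  ext i
  fin_cases i <;> simp [addSubMap]
  · linear_combination -k1
  · linear_combination -k2
  · ring

omit [DecidableEq K] in
lemma logHeight_xRep [AdmissibleAbsValues K] (P : W.toAffine.Point) :
    logHeight P.xRep = logHeight₁ (xco P) := by
  rcases P with _ | ⟨x, y, h⟩
  · rw [← Point.zero_def, Point.xRep_zero, logHeight_swap, ← logHeight₁_eq_logHeight, xco_zero]
  · rw [Point.xRep_some, xco_some, logHeight₁_eq_logHeight]

variable (W) in
/-- The approximate parallelogram law. -/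
theorem approx_parallelogram [W.IsElliptic] [AdmissibleAbsValues K] : ∃ C : ℝ,
    ∀ P Q : W.toAffine.Point, |logHeight₁ (xco (P + Q)) + logHeight₁ (xco (P - Q)) -
      2 * (logHeight₁ (xco P) + logHeight₁ (xco Q))| ≤ C := by
  obtain ⟨C1, h1⟩ := abs_logHeight_addSubMap_sub_two_mul_logHeight_le W
  obtain ⟨C2, h2⟩ := abs_logHeight_sym2_sub_le K
  have h3 : ∀ P Q : W.toAffine.Point,
      |logHeight (P.sym2x Q) - (logHeight₁ (xco P) + logHeight₁ (xco Q))| ≤ C2 := fun P Q => by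
    have hrep : ∀ P : W.toAffine.Point, ![P.xRep 0, P.xRep 1] = P.xRep := fun P => by
      ext i; fin_cases i <;> rfl
    have := h2 (a := P.xRep 0) (b := P.xRep 1) (c := Q.xRep 0) (d := Q.xRep 1)
      (by rw [hrep]; exact P.xRep_ne_zero) (by rw [hrep]; exact Q.xRep_ne_zero)
    rw [hrep, hrep, logHeight_xRep, logHeight_xRep] at this
    convert this using 3
    rcases P with _ | ⟨x, y, h⟩ <;> rcases Q with _ | ⟨x', y', h'⟩ <;>
      simp [← Point.zero_def]
  refine ⟨C1 + 3 * C2, fun P Q => ?_⟩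
  obtain ⟨c, hc, e⟩ := addSubMap_sym2x P Q
  have h4 := h1 (P.sym2x Q)
  rw [e, logHeight_smul_eq_logHeight _ hc] at h4
  have h5 := h3 P Q
  have h6 := h3 (P + Q) (P - Q)
  rw [abs_le] at h4 h5 h6 ⊢
  constructor <;> linarith [h4.1, h4.2, h5.1, h5.2, h6.1, h6.2]

end

end Pool.Agent.Lib.MP_696deb_nt
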