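import Pool.Agent.Lib.MP_696deb_nt.Redei
import Pool.Agent.Lib.MP_696deb_nt.NeronDup

/-! Complete two-descent in the rank one case, and finite generation. -/

set_option autoImplicit false

open Height WeierstrassCurve WeierstrassCurve.Affine

namespace Pool.Agent.Lib.MP_696deb_nt

namespace RankOne

/-- A finitely generated group covered by two cosets of the doubles modulo torsion has rank at
most one. -/
theorem finrank_le_one {G : Type*} [AddCommGroup G] [Module.Finite ℤ G] (Bad : G → Prop)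
    (h1 : ∀ P, ¬ Bad P → ∃ T R : G, 2 • T = 0 ∧ P = T + 2 • R)
    (h2 : ∀ P Q, Bad P → Bad Q → ¬ Bad (P + Q)) : Module.finrank ℤ G ≤ 1 := by
  classical
  set S := Submodule.torsion ℤ G with hS
  rw [← finrank_quotient_eq_of_le_torsion (M' := S) le_rfl]
  by_contra hlt
  have hlt' : 1 < Module.finrank ℤ (G ⧸ S) := not_le.mp hlt
  let b := Module.finBasis ℤ (G ⧸ S)
  let i0 : Fin (Module.finrank ℤ (G ⧸ S)) := ⟨0, by omega⟩
  let i1 : Fin (Module.finrank ℤ (G ⧸ S)) := ⟨1, hlt'⟩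
  have hne : i0 ≠ i1 := by simp [i0, i1, Fin.ext_iff]
  have key : ∀ P : G, ¬ Bad P → ∀ i, Even (b.repr (S.mkQ P) i) := by
    intro P hP i
    obtain ⟨T, R, hT, rfl⟩ := h1 P hP
    have hT0 : S.mkQ T = 0 := by
      rw [Submodule.mkQ_apply, Submodule.Quotient.mk_eq_zero]
      exact ⟨⟨2, mem_nonZeroDivisors_of_ne_zero two_ne_zero⟩, by
        simpa [← natCast_zsmul] using hT⟩
    rw [map_add, hT0, zero_add, two_nsmul, map_add, map_add, Finsupp.add_apply]
    exact ⟨_, rfl⟩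
  obtain ⟨P, hP⟩ := S.mkQ_surjective (b i0)
  obtain ⟨Q, hQ⟩ := S.mkQ_surjective (b i1)
  have bP : Bad P := by
    by_contra h
    have := key P h i0
    rw [hP] at this
    simp at this
  have bQ : Bad Q := by
    by_contra h
    have := key Q h i1
    rw [hQ] at this
    simp at this
  have := key _ (h2 P Q bP bQ) i0
  rw [map_add, hP, hQ] at this
  simp [hne.symm] at this

theorem one_le_finrank {G : Type*} [AddCommGroup G] [Module.Finite ℤ G] {P : G}
    (hP : ¬ IsOfFinAddOrder P) : 1 ≤ Module.finrank ℤ G := by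
  by_contra h
  have h0 : Module.finrank ℤ G = 0 := by omega
  obtain ⟨⟨m, hm⟩, e⟩ := (Module.finrank_eq_zero_iff_isTorsion.mp h0) (x := P)
  exact hP (isOfFinAddOrder_iff_zsmul_eq_zero.mpr ⟨m, nonZeroDivisors.ne_zero hm, e⟩)

/-- The theorem of Mordell from the weak form with two cosets. -/
theorem finite_of_two_cosets {K : Type*} [Field K] [NumberField K] [DecidableEq K]
    (W : WeierstrassCurve K) [W.IsElliptic] (Bad : W.toAffine.Point → Prop)
    (h1 : ∀ P, ¬ Bad P → ∃ T R : W.toAffine.Point, 2 • T = 0 ∧ P = T + 2 • R)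
    (h2 : ∀ P Q, Bad P → Bad Q → ¬ Bad (P + Q)) : Module.Finite ℤ W.toAffine.Point := by
  classical
  obtain ⟨c, hc⟩ := naiveHeight_two_nsmul W
  obtain ⟨C, hC⟩ := approx_parallelogram W
  have hT : Finite {x : W.toAffine.Point | IsOfFinAddOrder x} :=
    AddCommGroup.finite_torsion_of_descent (n := 2) (b := 4) (by norm_num) hc
  obtain ⟨P0, hP0⟩ : ∃ P0 : W.toAffine.Point, ∀ P, Bad P → ¬ Bad (P + P0) := by
    by_cases h : ∃ P0, Bad P0
    · obtain ⟨P0, h⟩ := h
      exact ⟨P0, fun P hP => h2 P P0 hP h⟩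
    · exact ⟨0, fun P hP => absurd ⟨P, hP⟩ h⟩
  have hfin : (nsmulAddMonoidHom (α := W.toAffine.Point) 2).range.FiniteIndex := by
    have : Finite (W.toAffine.Point ⧸ (nsmulAddMonoidHom (α := W.toAffine.Point) 2).range) := by
      refine Finite.of_surjective
        (fun t : {x : W.toAffine.Point | IsOfFinAddOrder x} × Bool =>
          (QuotientAddGroup.mk (if t.2 then t.1.1 - P0 else t.1.1) :
            W.toAffine.Point ⧸ (nsmulAddMonoidHom (α := W.toAffine.Point) 2).range)) ?_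
      intro x
      obtain ⟨P, rfl⟩ := QuotientAddGroup.mk_surjective x
      by_cases hb : Bad P
      · obtain ⟨T, R, hT, e⟩ := h1 _ (hP0 P hb)
        refine ⟨(⟨T, isOfFinAddOrder_iff_nsmul_eq_zero.mpr ⟨2, two_pos, hT⟩⟩, true), ?_⟩
        refine QuotientAddGroup.eq.mpr ⟨R, ?_⟩
        simp only [if_true, nsmulAddMonoidHom_apply]
        rw [eq_sub_of_add_eq e]; abel
      · obtain ⟨T, R, hT, e⟩ := h1 _ hb
        refine ⟨(⟨T, isOfFinAddOrder_iff_nsmul_eq_zero.mpr ⟨2, two_pos, hT⟩⟩, false), ?_⟩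
        refine QuotientAddGroup.eq.mpr ⟨R, ?_⟩
        simp only [Bool.false_eq_true, if_false, nsmulAddMonoidHom_apply]
        rw [e]; abel
    exact AddSubgroup.finiteIndex_of_finite_quotient
  have e : naiveHeight W = fun P => logHeight₁ (xco P) := funext fun P => logHeight_xRep P
  rw [Module.Finite.iff_addGroup_fg]
  refine AddCommGroup.fg_of_descent' (h := naiveHeight W) (C := C) hfin
    (fun P => logHeight_nonneg _) ?_
  rw [e]; exact hC

/-- The descent map is multiplicative. -/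
theorem collinear {K : Type*} [Field K] [DecidableEq K] {W : WeierstrassCurve K} {e1 e2 e3 : K}
    (h : Split W e1 e2 e3) {x1 y1 x2 y2 x3 y3 : K} (h1 : W.toAffine.Nonsingular x1 y1)
    (h2 : W.toAffine.Nonsingular x2 y2) (h3 : W.toAffine.Nonsingular x3 y3)
    (e : Point.some x1 y1 h1 + Point.some x2 y2 h2 = Point.some x3 y3 h3) :
    IsSquare ((x1 - e1) * (x2 - e1) * (x3 - e1)) := by
  have hxy : ¬ (x1 = x2 ∧ y1 = W.toAffine.negY x2 y2) := by
    rintro ⟨a, b⟩
    rw [Point.add_of_Y_eq a b] at e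
    exact Point.some_ne_zero _ e.symm
  rw [Point.add_some hxy] at e
  have hx := (Point.some.inj e).1
  have hp := addPolynomial_slope h1.1 h2.1 hxy
  rw [hx, addPolynomial_eq] at hp
  have := congrArg (Polynomial.eval e1) hp
  simp only [Cubic.toPoly, toAffine, h.a1, h.a2, h.a3, h.a4, h.a6, Polynomial.eval_neg,
    Polynomial.eval_add, Polynomial.eval_mul, Polynomial.eval_C, Polynomial.eval_pow,
    Polynomial.eval_X, Polynomial.eval_sub] at this
  refine ⟨W.toAffine.slope x1 x2 y1 y2 * (e1 - x1) + y1, ?_⟩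
  simp only [toAffine]
  linear_combination -this

theorem val_odd {p : ℕ} [hp : Fact p.Prime] {x : ℚ} {M U d t w : ℤ} (hw : w ≠ 0) (ht : t ≠ 0)
    (hx : x * w ^ 2 = M) (hd : Squarefree d) (hpd : (p : ℤ) ∣ d) (hU : ¬ (p : ℤ) ∣ U)
    (h : d * t ^ 2 = M * U) : Odd (padicValRat p x) := by
  have hd0 := hd.ne_zero
  have hMU : M * U ≠ 0 := h ▸ mul_ne_zero hd0 (pow_ne_zero _ ht)
  have hM : M ≠ 0 := left_ne_zero_of_mul hMU
  have hU0 : U ≠ 0 := right_ne_zero_of_mul hMU
  have hx0 : x ≠ 0 := by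
    rintro rfl
    apply hM
    exact_mod_cast (by simpa using hx.symm : (M : ℚ) = 0)
  have hw' : (w : ℚ) ≠ 0 := by exact_mod_cast hw
  have e1 := congrArg (padicValRat p) hx
  rw [padicValRat.mul hx0 (pow_ne_zero _ hw'), padicValRat.pow, padicValRat.of_int,
    padicValRat.of_int] at e1
  have e2 := congrArg (padicValInt p) h
  rw [padicValInt.mul hd0 (pow_ne_zero _ ht), padicValInt.mul hM hU0,
    padicValInt.eq_zero_of_not_dvd hU, pow_two, padicValInt.mul ht ht] at e2
  have e3 : padicValInt p d = 1 := by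
    have a1 : 1 ≤ padicValInt p d := by
      rcases (padicValInt_dvd_iff 1 d).mp (by simpa using hpd) with h | h
      · exact absurd h hd0
      · exact h
    have a2 : ¬ 2 ≤ padicValInt p d := fun h2 =>
      (Nat.prime_iff_prime_int.mp hp.out).not_isUnit
        (hd p (by rw [← pow_two]; exact (padicValInt_dvd_iff 2 d).mpr (Or.inr h2)))
    omega
  refine ⟨(padicValInt p t : ℤ) - padicValInt p w, ?_⟩
  push_cast at e1
  omega

theorem cast_ne {p : ℕ} (hp : p.Prime) {n : ℤ} (hpn : (p : ℤ) ∣ n) (h4 : n % 4 = 3)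
    (h3 : n % 3 = 2) (h5 : n % 5 ≠ 0) :
    ((2 : ℤ) : ZMod p) ≠ 0 ∧ ((3 : ℤ) : ZMod p) ≠ 0 ∧ ((5 : ℤ) : ZMod p) ≠ 0 := by
  simp only [Ne, ZMod.intCast_zmod_eq_zero_iff_dvd]
  refine ⟨fun h => ?_, fun h => ?_, fun h => ?_⟩
  · obtain rfl : p = 2 := prime_dvd_small hp (k := 1) Nat.prime_two (by simpa using h)
    omega
  · obtain rfl : p = 3 := prime_dvd_small hp (k := 1) Nat.prime_three (by simpa using h)
    omega
  · obtain rfl : p = 5 := prime_dvd_small hp (k := 1) Nat.prime_five (by simpa using h)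
    omega

variable {n : ℤ}

theorem first_coord (hn : Squarefree n) (h4 : n % 4 = 3) (h3 : n % 3 = 2)
    (h5 : n % 5 ≠ 0) (hA : CondA n) {x y : ℚ} (hy : y ≠ 0)
    (h : y ^ 2 = x * (x + 9 * n) * (x + 25 * n)) (hv : ¬ Odd (padicValRat 5 x)) :
    IsSquare x ∨ IsSquare (x * (-n)) := by
  obtain ⟨d, s, w, t, hd, hs, hw, hc, hx, he⟩ :=
    exists_torsor (A := -9 * n) (B := -25 * n) (x := x) hy (by rw [h]; push_cast; ring)
  have : Fact (Nat.Prime 3) := ⟨Nat.prime_three⟩
  have : Fact (Nat.Prime 5) := ⟨Nat.prime_five⟩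
  have n3 : ¬ ((3 : ℕ) : ℤ) ∣ d := local_nonsplit (a' := -1) hd (by norm_num) (by decide)
    (not_isSquare_three (by omega)) hc he
  have n5 : ¬ ((5 : ℕ) : ℤ) ∣ d := fun h5d =>
    hv (val_odd (M := d * s ^ 2) (U := 1) hw hs (by rw [hx]; push_cast; ring) hd h5d
      (by norm_num) (by ring))
  have hdn : d ∣ n := by
    refine dvd_of_squarefree_of_primes hd hn.ne_zero fun p hp hpd => ?_
    have := Fact.mk hp
    rcases local_support hpd hc he with h' | h' | h'
    · exact h'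
    · obtain rfl : p = 3 := prime_dvd_small hp (k := 2) Nat.prime_three (by
        simpa using (Int.dvd_neg.mpr h'))
      exact absurd hpd n3
    · obtain rfl : p = 5 := prime_dvd_small hp (k := 2) Nat.prime_five (by
        simpa using (Int.dvd_neg.mpr h'))
      exact absurd hpd n5
  obtain ⟨d'', hd''⟩ := hdn
  have hdd : d * (-d'') = -n := by rw [hd'']; ring
  have hodd : d % 2 = 1 := by
    by_contra h0
    have : (2 : ℤ) ∣ n := hd'' ▸ Dvd.dvd.mul_right (by omega) _
    omega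
  have hd4 := local_two_first h4 hodd hc he
  have hw' : (w : ℚ) ≠ 0 := by exact_mod_cast hw
  have key : d = 1 ∨ -d'' = 1 := by
    refine hA d (-d'') hdd hd4 (fun p hp hpd => ?_) (fun p hp hpd => ?_)
    · have := Fact.mk hp
      have hpn : (p : ℤ) ∣ n := hd'' ▸ Dvd.dvd.mul_left (Int.dvd_neg.mp hpd) _
      obtain ⟨-, c3, c5⟩ := cast_ne hp hpn h4 h3 h5
      refine local_unit (c := 15) hn hpn (not_dvd_of_squarefree_mul hp (hd'' ▸ hn)
        (Int.dvd_neg.mp hpd)) (by norm_num) ?_ hc he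
      have : ((15 : ℤ) : ZMod p) = ((3 : ℤ) : ZMod p) * ((5 : ℤ) : ZMod p) := by push_cast; norm_num
      rw [this]; exact mul_ne_zero c3 c5
    · have := Fact.mk hp
      have hpn : (p : ℤ) ∣ n := hd'' ▸ Dvd.dvd.mul_right hpd _
      obtain ⟨-, c3, c5⟩ := cast_ne hp hpn h4 h3 h5
      exact local_ram (α := 3) (β := 5) (ε := -1) hd hn hpd (by rw [hdd]; ring) (by norm_num)
        (by norm_num) (by norm_num) c3 c5 hc he
  rcases key with h1 | h1
  · left
    refine ⟨s / w, ?_⟩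
    rw [h1] at hx
    field_simp
    push_cast at hx
    linear_combination hx
  · right
    have : d = -n := by rw [← hdd, h1, mul_one]
    rw [this] at hx
    refine ⟨n * s / w, ?_⟩
    field_simp
    push_cast at hx
    linear_combination (-(n : ℚ)) * hx

theorem third_coord (hn : Squarefree n) (h0 : 0 < n) (h4 : n % 4 = 3) (h3 : n % 3 = 2)
    (h5 : n % 5 ≠ 0) (hB : CondB n) {x y : ℚ} (hy : y ≠ 0)
    (h : y ^ 2 = x * (x + 9 * n) * (x + 25 * n)) (hv : ¬ Odd (padicValRat 5 x)) :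
    IsSquare (x + 25 * n) ∨ IsSquare ((x + 25 * n) * n) := by
  obtain ⟨d, s, w, t, hd, hs, hw, hc, hx, he⟩ :=
    exists_torsor (A := 25 * n) (B := 16 * n) (x := x + 25 * n) hy (by rw [h]; push_cast; ring)
  have : Fact (Nat.Prime 5) := ⟨Nat.prime_five⟩
  have hw' : (w : ℚ) ≠ 0 := by exact_mod_cast hw
  have n2 : ¬ (2 : ℤ) ∣ d := local_two_third h4 hd hc he
  have n5 : ¬ ((5 : ℕ) : ℤ) ∣ d := fun h5d => by
    have hP := Nat.prime_iff_prime_int.mp Nat.prime_five
    have hw5 : ¬ ((5 : ℕ) : ℤ) ∣ w := fun h' =>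
      hP.not_isUnit (hc.isUnit_of_dvd' (h5d.mul_right s) h')
    have e1 : x * w ^ 2 = ((d * s ^ 2 - 25 * n * w ^ 2 : ℤ) : ℚ) := by
      push_cast; linear_combination hx
    have e2 : (x + 9 * n) * w ^ 2 = ((d * s ^ 2 - 16 * n * w ^ 2 : ℤ) : ℚ) := by
      push_cast; linear_combination hx
    have ht : t ≠ 0 := by
      rintro rfl
      have : ((d * s ^ 2 - 25 * n * w ^ 2 : ℤ) : ℚ) * ((d * s ^ 2 - 16 * n * w ^ 2 : ℤ) : ℚ) = 0 := by
        exact_mod_cast (by simpa using he.symm)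
      rw [← e1, ← e2] at this
      apply mul_ne_zero (pow_ne_zero 2 hy) (pow_ne_zero 4 hw')
      rw [h]; linear_combination (x + 25 * n) * this
    refine hv (val_odd hw ht e1 hd h5d (fun h' => ?_) he)
    have h1 : ((5 : ℕ) : ℤ) ∣ 16 * n * w ^ 2 := by
      have := dvd_sub (h5d.mul_right (s ^ 2)) h'
      simpa using this
    rcases hP.dvd_or_dvd h1 with h2 | h2
    · rcases hP.dvd_or_dvd h2 with h2 | h2
      · norm_num at h2
      · omega
    · exact hw5 (hP.dvd_of_dvd_pow h2)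
  have hdn : d ∣ n := by
    refine dvd_of_squarefree_of_primes hd hn.ne_zero fun p hp hpd => ?_
    have := Fact.mk hp
    rcases local_support hpd hc he with h' | h' | h'
    · exact h'
    · obtain rfl : p = 5 := prime_dvd_small hp (k := 2) Nat.prime_five (by simpa using h')
      exact absurd hpd n5
    · obtain rfl : p = 2 := prime_dvd_small hp (k := 4) Nat.prime_two (by simpa using h')
      exact absurd hpd n2
  obtain ⟨d', hd'⟩ := hdn
  have hpos := local_real_third h0 hd.ne_zero hw he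
  have key : d = 1 ∨ d' = 1 := by
    refine hB d d' hd'.symm hpos (fun p hp hpd => ?_) (fun p hp hpd => ?_)
    · have := Fact.mk hp
      have hpn : (p : ℤ) ∣ n := hd' ▸ Dvd.dvd.mul_left hpd _
      obtain ⟨c2, -, c5⟩ := cast_ne hp hpn h4 h3 h5
      refine local_unit (c := 20) hn hpn (not_dvd_of_squarefree_mul hp (hd' ▸ hn) hpd)
        (by norm_num) ?_ hc he
      have : ((20 : ℤ) : ZMod p) = ((2 : ℤ) : ZMod p) * ((2 : ℤ) : ZMod p) * ((5 : ℤ) : ZMod p) := by
        push_cast; norm_num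
      rw [this]; exact mul_ne_zero (mul_ne_zero c2 c2) c5
    · have := Fact.mk hp
      have hpn : (p : ℤ) ∣ n := hd' ▸ Dvd.dvd.mul_right hpd _
      obtain ⟨c2, -, c5⟩ := cast_ne hp hpn h4 h3 h5
      refine local_ram (α := 5) (β := 4) (ε := 1) hd hn hpd (by rw [hd']; ring) (by norm_num)
        (by norm_num) (by norm_num) c5 ?_ hc he
      have : ((4 : ℤ) : ZMod p) = ((2 : ℤ) : ZMod p) * ((2 : ℤ) : ZMod p) := by
        push_cast; norm_num
      rw [this]; exact mul_ne_zero c2 c2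
  rcases key with h1 | h1
  · left
    refine ⟨s / w, ?_⟩
    rw [h1] at hx
    field_simp
    push_cast at hx
    linear_combination hx
  · right
    have : d = n := by rw [hd', h1, mul_one]
    rw [this] at hx
    refine ⟨n * s / w, ?_⟩
    field_simp
    linear_combination hx

theorem torsionClass (hn : Squarefree n) (h0 : 0 < n) (h4 : n % 4 = 3) (h3 : n % 3 = 2)
    (h5 : n % 5 ≠ 0) (hA : CondA n) (hB : CondB n) {X Y : ℚ} (hY : Y ≠ 0)
    (hE : Y ^ 2 = (X - -102 * ((-n : ℤ) : ℚ)) * (X - -21 * ((-n : ℤ) : ℚ)) *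
      (X - 123 * ((-n : ℤ) : ℚ)))
    (hv : ¬ Odd (padicValRat 5 (X - -102 * ((-n : ℤ) : ℚ)))) :
    TorsionClass (-102 * ((-n : ℤ) : ℚ)) (-21 * ((-n : ℤ) : ℚ)) (123 * ((-n : ℤ) : ℚ)) X := by
  have hn' : (n : ℚ) ≠ 0 := by exact_mod_cast h0.ne'
  set x : ℚ := (X - 102 * n) / 9 with hx
  have hX : X = 9 * x + 102 * n := by rw [hx]; ring
  have hy : Y / 27 ≠ 0 := div_ne_zero hY (by norm_num)
  have hE' : (Y / 27) ^ 2 = x * (x + 9 * n) * (x + 25 * n) := by
    rw [hX] at hE; push_cast at hE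
    linear_combination (1 / 729 : ℚ) * hE
  have hx1 : x ≠ 0 := by
    intro h; apply pow_ne_zero 2 hy; rw [hE', h]; ring
  have hx3 : x + 25 * n ≠ 0 := by
    intro h; apply pow_ne_zero 2 hy; rw [hE', h]; ring
  have hv' : ¬ Odd (padicValRat 5 x) := by
    have : Fact (Nat.Prime 5) := ⟨Nat.prime_five⟩
    have e : X - -102 * ((-n : ℤ) : ℚ) = 3 ^ 2 * x := by rw [hX]; push_cast; ring
    rw [e, padicValRat.mul (by norm_num) hx1, padicValRat.pow] at hv
    intro ⟨k, hk⟩
    exact hv ⟨k + padicValRat 5 3, by rw [hk]; push_cast; ring⟩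
  have mid : ∀ a b : ℚ, IsSquare (x * a) → IsSquare ((x + 25 * n) * b) →
      IsSquare ((x + 9 * n) * (a * b)) := by
    rintro a b ⟨r, hr⟩ ⟨s, hs⟩
    refine Split.isSquare_of_mul (mul_ne_zero hx1 hx3) rfl ⟨Y / 27 * r * s, ?_⟩
    have : Y / 27 * r * s * (Y / 27 * r * s) = (Y / 27) ^ 2 * (r * r) * (s * s) := by ring
    rw [this, hE', ← hr, ← hs]; ring
  rw [hX]
  push_cast
  rcases first_coord hn h4 h3 h5 hA hy hE' hv' with s1 | s1 <;>
  rcases third_coord hn h0 h4 h3 h5 hB hy hE' hv' with s3 | s3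
  · exact Or.inl ⟨isSquare_scale (c := 3) (mid 1 1 (by simpa) (by simpa)) (by ring),
      isSquare_scale (c := 3) s3 (by ring)⟩
  · exact Or.inr (Or.inl ⟨isSquare_scale (c := 27) (mid 1 n (by simpa) s3) (by ring),
      isSquare_scale (c := 45) s3 (by ring)⟩)
  · exact Or.inr (Or.inr (Or.inr ⟨isSquare_scale (c := 36) (mid (-n) 1 s1 (by simpa)) (by ring),
      isSquare_scale (c := 45) s1 (by ring)⟩))
  · exact Or.inr (Or.inr (Or.inl ⟨isSquare_scale (c := 27) s1 (by ring),
      isSquare_scale (c := 36) s3 (by ring)⟩))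

theorem half_of_class {K : Type*} [Field K] [DecidableEq K]
    {W : WeierstrassCurve K} {e1 e2 e3 : K} (h : Split W e1 e2 e3) {x y : K}
    (hP : W.toAffine.Nonsingular x y) (hy : y ≠ 0) (H : TorsionClass e1 e2 e3 x) :
    ∃ T R : W.toAffine.Point, 2 • T = 0 ∧ Point.some x y hP = T + 2 • R := by
  rcases H with ⟨s2, s3⟩ | ⟨s2, s3⟩ | ⟨s2, s3⟩ | ⟨s2, s3⟩
  · have s1 := h.third_square hP hy (a := 1) (b := 1) (by simpa) (by simpa)
    obtain ⟨R, hR⟩ := h.exists_half hP (by simpa using s1) s2 s3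
    exact ⟨0, R, by simp, by simpa⟩
  · obtain ⟨R, hR⟩ := h.exists_half_T hP hy s2 s3
    exact ⟨_, R, h.two_nsmul_T, hR⟩
  · obtain ⟨R, hR⟩ := h.swap12.exists_half_T hP hy s2 s3
    exact ⟨_, R, h.swap12.two_nsmul_T, hR⟩
  · obtain ⟨R, hR⟩ := h.swap13.exists_half_T hP hy s2 s3
    exact ⟨_, R, h.swap13.two_nsmul_T, hR⟩

/-- Points whose first descent coordinate has odd valuation at five. -/
def Bad {W : WeierstrassCurve ℚ} (e : ℚ) : W.toAffine.Point → Prop
  | .zero => False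
  | .some x _ _ => Odd (padicValRat 5 (x - e))

theorem bad_add {W : WeierstrassCurve ℚ} {e1 e2 e3 : ℚ} (h : Split W e1 e2 e3)
    (P Q : W.toAffine.Point) (hP : Bad e1 P) (hQ : Bad e1 Q) : ¬ Bad e1 (P + Q) := by
  have : Fact (Nat.Prime 5) := ⟨Nat.prime_five⟩
  rcases P with _ | ⟨x1, y1, h1⟩
  · exact hP.elim
  rcases Q with _ | ⟨x2, y2, h2⟩
  · exact hQ.elim
  rcases e : Point.some x1 y1 h1 + Point.some x2 y2 h2 with _ | ⟨x3, y3, h3⟩
  · exact id
  intro hR
  have ne : ∀ x : ℚ, Odd (padicValRat 5 x) → x ≠ 0 := by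
    rintro x hx rfl
    simp at hx
  obtain ⟨r, hr⟩ := collinear h h1 h2 h3 e
  have n1 := ne _ hP
  have n2 := ne _ hQ
  have n3 := ne _ hR
  have hr0 : r ≠ 0 := by
    rintro rfl
    exact mul_ne_zero (mul_ne_zero n1 n2) n3 (by simpa using hr)
  have := congrArg (padicValRat 5) hr
  rw [padicValRat.mul (mul_ne_zero n1 n2) n3, padicValRat.mul n1 n2, padicValRat.mul hr0 hr0] at this
  obtain ⟨a, ha⟩ := hP
  obtain ⟨b, hb⟩ := hQ
  obtain ⟨c, hc⟩ := hR
  omega

end RankOne

open RankOne in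
/-- The theorem of Mordell and the bound one for the rank, from the Redei condition, when three is
a square modulo the twisting parameter in the sense `N % 3 = 2`. -/
theorem finite_and_finrank_le {N : ℕ} (hN : Squarefree N) (h4 : N % 4 = 3) (h3 : N % 3 = 2)
    (h5 : N % 5 ≠ 0) (hB : CondB N) :
    Module.Finite ℤ (twist15 (-(N : ℤ))).toAffine.Point ∧
      Module.finrank ℤ (twist15 (-(N : ℤ))).toAffine.Point ≤ 1 := by
  have hS := split_twist15 (D := -(N : ℤ)) (by omega)
  have := hS.isElliptic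
  have h1 : ∀ P : (twist15 (-(N : ℤ))).toAffine.Point, ¬ Bad (-102 * ((-(N : ℤ) : ℤ) : ℚ)) P →
      ∃ T R : (twist15 (-(N : ℤ))).toAffine.Point, 2 • T = 0 ∧ P = T + 2 • R := by
    rintro (_ | ⟨x, y, hP⟩) hb
    · exact ⟨0, 0, by simp, by simp [← Point.zero_def]⟩
    by_cases hy : y = 0
    · subst hy
      exact ⟨_, 0, hS.two_nsmul_of_y_eq_zero hP, by simp⟩
    exact half_of_class hS hP hy (torsionClass (Int.squarefree_natCast.mpr hN) (by omega)
      (by omega) (by omega) (by omega) ((condA_iff_condB hN h4).mpr hB) hB hy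
      ((hS.nonsingular_iff x y).mp hP) hb)
  have hf := finite_of_two_cosets _ _ h1 (bad_add hS)
  exact ⟨hf, finrank_le_one _ h1 (bad_add hS)⟩

/-- Rank one from the Redei condition and a point of infinite order. -/
theorem finrank_twist15_eq_one {N : ℕ} (hN : Squarefree N) (h4 : N % 4 = 3) (h3 : N % 3 = 2)
    (h5 : N % 5 ≠ 0) (hB : CondB N) {P : (twist15 (-(N : ℤ))).toAffine.Point}
    (hP : ¬ IsOfFinAddOrder P) : Module.finrank ℤ (twist15 (-(N : ℤ))).toAffine.Point = 1 := by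
  obtain ⟨hf, hle⟩ := finite_and_finrank_le hN h4 h3 h5 hB
  exact le_antisymm hle (RankOne.one_le_finrank hP)

end Pool.Agent.Lib.MP_696deb_nt
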