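import Mathlib

set_option autoImplicit false

open Finset Matrix NumberTheorySymbols

namespace Pool.Agent.Lib.MP_696deb_nt

/-- Admissible absolute discriminants: `-n` is an odd fundamental discriminant prime to `15`. -/
structure Good (n : ℕ) : Prop where
  sqf : Squarefree n
  mod4 : n % 4 = 3
  cop : Nat.Coprime n 15

/-- The Hilbert symbol `(k, -n)_p` at a prime `p` dividing `n` exactly once. -/
def hil (n p : ℕ) (k : ℤ) : ℤ :=
  J(k / (p : ℤ) ^ padicValInt p k | p) * J(((n / p : ℕ) : ℤ) | p) ^ padicValInt p k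

/-- Product of Hilbert symbols over a set of primes. -/
def hilS (n : ℕ) (S : Finset ℕ) (k : ℤ) : ℤ := ∏ p ∈ S, hil n p k

/-- The number of ideals of norm `k` in the quadratic field of discriminant `-n`. -/
def rr (n k : ℕ) : ℤ := ∑ e ∈ k.divisors, J((e : ℤ) | n)

/-- The local factors at the ramified primes. -/
def epsP (n M : ℕ) : ℤ :=
  ∏ p ∈ n.primeFactors.filter (· ∣ M), (1 + J(-15 | p) * hil n p M)

/-- The convolution sum in the formula of Gross type. -/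
def Sig (n m : ℕ) (S : Finset ℕ) : ℤ :=
  ∑ q ∈ (Icc 1 (m * n) ×ˢ Icc 1 (m * n)).filter (fun q : ℕ × ℕ => 3 * q.1 + 5 * q.2 = m * n),
    hilS n S q.2 * rr n q.1 * rr n q.2 * epsP n (q.1 * q.2)

abbrev V3 := Fin 3 → ℤ
abbrev M3 := Matrix (Fin 3) (Fin 3) ℤ
abbrev SL3 := Matrix.SpecialLinearGroup (Fin 3) ℤ

/-- Gram matrices of positive ternary quadratic forms of half-discriminant `15`. -/
structure IsTQ (G : M3) : Prop where
  symm : Gᵀ = G
  even : ∀ i, Even (G i i)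
  det : G.det = 30
  pos : ∀ v : V3, v ≠ 0 → 0 < v ⬝ᵥ (G *ᵥ v)

/-- The action of `SL₃(ℤ)` on Gram matrices. Vectors transform by `x ↦ g *ᵥ x`. -/
def actG (g : SL3) (G : M3) : M3 := (g : M3) * G * (g : M3)ᵀ

/-- The dual bilinear form. -/
def bil (G : M3) (x y : V3) : ℤ := x ⬝ᵥ (G.adjugate *ᵥ y)

def G1 : M3 := !![2, 0, 0; 0, 4, -1; 0, -1, 4]
def G2 : M3 := !![2, -1, 0; -1, 2, 0; 0, 0, 10]
def G3 : M3 := !![2, 0, 0; 0, 2, -1; 0, -1, 8]

/-- The vectors of dual norm `n` (in a box that is large enough for `G1, G2, G3`). -/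
noncomputable def XX (G : M3) (n : ℕ) : Finset V3 :=
  (Fintype.piFinset fun _ : Fin 3 => Icc (-(n : ℤ)) n).filter fun x => bil G x x = n

/-- The number of pairs of vectors with given Gram matrix. -/
noncomputable def cnt (G : M3) (n n2 : ℕ) (t : ℤ) : ℕ :=
  ((XX G n ×ˢ XX G n2).filter fun q => bil G q.1 q.2 = t).card

/-- Twelve times the weighted number of special points of discriminant `-n`. -/
noncomputable def pts (n : ℕ) : ℕ := 3 * (XX G1 n).card + (XX G2 n).card + 3 * (XX G3 n).card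

theorem bil_G1 (x y : V3) : bil G1 x y =
    15 * x 0 * y 0 + 8 * x 1 * y 1 + 2 * (x 1 * y 2 + x 2 * y 1) + 8 * x 2 * y 2 := by
  simp [bil, G1, Matrix.adjugate_fin_three, Matrix.mulVec, dotProduct, Fin.sum_univ_three]
  ring

theorem bil_G2 (x y : V3) : bil G2 x y =
    20 * x 0 * y 0 + 10 * (x 0 * y 1 + x 1 * y 0) + 20 * x 1 * y 1 + 3 * x 2 * y 2 := by
  simp [bil, G2, Matrix.adjugate_fin_three, Matrix.mulVec, dotProduct, Fin.sum_univ_three]
  ring

theorem bil_G3 (x y : V3) : bil G3 x y =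
    15 * x 0 * y 0 + 16 * x 1 * y 1 + 2 * (x 1 * y 2 + x 2 * y 1) + 4 * x 2 * y 2 := by
  simp [bil, G3, Matrix.adjugate_fin_three, Matrix.mulVec, dotProduct, Fin.sum_univ_three]
  ring

theorem mem_Icc_of_sq_le {a n : ℤ} (h : a ^ 2 ≤ n) : a ∈ Icc (-n) n := by
  rw [mem_Icc]
  constructor <;> nlinarith [sq_nonneg (a - 1), sq_nonneg (a + 1), sq_nonneg a]

theorem mem_XX_of {G : M3} (hG : ∀ x : V3, ∀ i, x i ^ 2 ≤ bil G x x) {n : ℕ} {x : V3} :
    x ∈ XX G n ↔ bil G x x = n := by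
  rw [XX, mem_filter, Fintype.mem_piFinset]
  exact ⟨fun h => h.2, fun h => ⟨fun i => mem_Icc_of_sq_le (h ▸ hG x i), h⟩⟩

theorem mem_XX1 {n : ℕ} {x : V3} : x ∈ XX G1 n ↔ bil G1 x x = n :=
  mem_XX_of fun x i => by
    rw [bil_G1]
    fin_cases i <;> simp <;>
      nlinarith [sq_nonneg (x 0), sq_nonneg (x 1), sq_nonneg (x 2), sq_nonneg (x 1 + x 2)]

theorem mem_XX2 {n : ℕ} {x : V3} : x ∈ XX G2 n ↔ bil G2 x x = n :=
  mem_XX_of fun x i => by
    rw [bil_G2]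
    fin_cases i <;> simp <;>
      nlinarith [sq_nonneg (x 0), sq_nonneg (x 1), sq_nonneg (x 2), sq_nonneg (x 0 + x 1)]

theorem mem_XX3 {n : ℕ} {x : V3} : x ∈ XX G3 n ↔ bil G3 x x = n :=
  mem_XX_of fun x i => by
    rw [bil_G3]
    fin_cases i <;> simp <;>
      nlinarith [sq_nonneg (x 0), sq_nonneg (x 1), sq_nonneg (x 2), sq_nonneg (x 1 + x 2)]

theorem actG_one (G : M3) : actG 1 G = G := by simp [actG]

theorem actG_mul (g h : SL3) (G : M3) : actG (g * h) G = actG g (actG h G) := by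
  simp [actG, Matrix.mul_assoc]

theorem bil_act (g : SL3) (G : M3) (x y : V3) :
    bil (actG g G) ((g : M3) *ᵥ x) ((g : M3) *ᵥ y) = bil G x y := by
  have h1 : (g : M3).adjugate * (g : M3) = 1 := by rw [adjugate_mul, g.det_coe, one_smul]
  have h2 : (g : M3)ᵀ * ((g : M3)ᵀ).adjugate = 1 := by
    rw [mul_adjugate, det_transpose, g.det_coe, one_smul]
  unfold bil actG
  rw [adjugate_mul_distrib, adjugate_mul_distrib, mulVec_mulVec, ← vecMul_transpose,
    ← dotProduct_mulVec, mulVec_mulVec]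
  congr 2
  rw [← Matrix.mul_assoc, ← Matrix.mul_assoc, h2, Matrix.one_mul, Matrix.mul_assoc, h1,
    Matrix.mul_one]

theorem IsTQ.act {G : M3} (hG : IsTQ G) (g : SL3) : IsTQ (actG g G) where
  symm := by simp [actG, hG.symm, Matrix.mul_assoc]
  even i := by
    have h01 : G 1 0 = G 0 1 := by simpa using congr_fun (congr_fun hG.symm 0) 1
    have h02 : G 2 0 = G 0 2 := by simpa using congr_fun (congr_fun hG.symm 0) 2
    have h12 : G 2 1 = G 1 2 := by simpa using congr_fun (congr_fun hG.symm 1) 2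
    obtain ⟨a, ha⟩ := hG.even 0
    obtain ⟨b, hb⟩ := hG.even 1
    obtain ⟨c, hc⟩ := hG.even 2
    refine ⟨a * g i 0 ^ 2 + b * g i 1 ^ 2 + c * g i 2 ^ 2 + G 0 1 * g i 0 * g i 1 +
      G 0 2 * g i 0 * g i 2 + G 1 2 * g i 1 * g i 2, ?_⟩
    simp only [actG, Matrix.mul_apply, Fin.sum_univ_three, transpose_apply, h01, h02, h12, ha, hb,
      hc]
    ring
  det := by simp [actG, hG.det]
  pos v hv := by
    have h : (g : M3)ᵀ *ᵥ v ≠ 0 := fun h0 => hv (by
      have h2 : ((g : M3)ᵀ).adjugate * (g : M3)ᵀ = 1 := by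
        rw [adjugate_mul, det_transpose, g.det_coe, one_smul]
      rw [← one_mulVec v, ← h2, ← mulVec_mulVec, h0, mulVec_zero])
    have := hG.pos _ h
    rwa [actG, Matrix.mul_assoc, ← mulVec_mulVec, dotProduct_mulVec, ← mulVec_transpose,
      ← mulVec_mulVec]

section hil

variable {n p : ℕ}

theorem hil_zero (hp : p.Prime) : hil n p 0 = 0 := by
  simp [hil, jacobiSym.zero_left hp.one_lt]

theorem hil_of_not_dvd (hp : p.Prime) {k : ℤ} (hk : ¬ (p : ℤ) ∣ k) : hil n p k = J(k | p) := by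
  have := Fact.mk hp
  simp [hil, padicValInt.eq_zero_of_not_dvd hk]

theorem hil_pow_mul (hp : p.Prime) (v : ℕ) {k : ℤ} (hk : ¬ (p : ℤ) ∣ k) :
    hil n p (p ^ v * k) = J(k | p) * J(((n / p : ℕ) : ℤ) | p) ^ v := by
  have := Fact.mk hp
  have hk0 : k ≠ 0 := by rintro rfl; exact hk (dvd_zero _)
  have hp0 : (p : ℤ) ^ v ≠ 0 := pow_ne_zero _ (by exact_mod_cast hp.ne_zero)
  have hv : padicValInt p (p ^ v * k) = v := by
    rw [padicValInt.mul hp0 hk0, padicValInt.eq_zero_of_not_dvd hk, add_zero]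
    simp [padicValInt]
  rw [hil, hv, Int.mul_ediv_cancel_left _ hp0]

theorem exists_pow_mul (hp : p.Prime) {k : ℤ} (hk : k ≠ 0) :
    ∃ (v : ℕ) (k' : ℤ), ¬ (p : ℤ) ∣ k' ∧ k = p ^ v * k' := by
  have hf : FiniteMultiplicity (p : ℤ) k :=
    Int.finiteMultiplicity_iff.mpr ⟨by simpa using hp.ne_one, hk⟩
  obtain ⟨c, hc, hc'⟩ := hf.exists_eq_pow_mul_and_not_dvd
  exact ⟨_, c, hc', hc⟩

theorem hil_mul (hp : p.Prime) (k l : ℤ) : hil n p (k * l) = hil n p k * hil n p l := by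
  rcases eq_or_ne k 0 with rfl | hk
  · simp [hil_zero hp]
  rcases eq_or_ne l 0 with rfl | hl
  · simp [hil_zero hp]
  obtain ⟨v, k', hk', rfl⟩ := exists_pow_mul hp hk
  obtain ⟨w, l', hl', rfl⟩ := exists_pow_mul hp hl
  have hkl : ¬ (p : ℤ) ∣ k' * l' := fun h =>
    ((Nat.prime_iff_prime_int.mp hp).dvd_or_dvd h).elim hk' hl'
  rw [show (p : ℤ) ^ v * k' * (p ^ w * l') = p ^ (v + w) * (k' * l') by ring, hil_pow_mul hp _ hkl,
    hil_pow_mul hp _ hk', hil_pow_mul hp _ hl', jacobiSym.mul_left]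
  ring

theorem hil_one (hp : p.Prime) : hil n p 1 = 1 := by
  rw [hil_of_not_dvd hp (by exact_mod_cast hp.not_dvd_one)]; simp

theorem hil_self (hp : p.Prime) : hil n p p = J(((n / p : ℕ) : ℤ) | p) := by
  have := hil_pow_mul (n := n) hp 1 (k := 1) (by exact_mod_cast hp.not_dvd_one)
  simpa using this

theorem hil_pow (hp : p.Prime) (k : ℤ) (e : ℕ) : hil n p (k ^ e) = hil n p k ^ e := by
  induction e with
  | zero => simp [hil_one hp]
  | succ e ih => rw [pow_succ, hil_mul hp, ih, pow_succ]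

theorem jac_sq (hp : p.Prime) {k : ℤ} (hk : ¬ (p : ℤ) ∣ k) : J(k | p) ^ 2 = 1 :=
  jacobiSym.sq_one (by
    rw [← Int.isCoprime_iff_gcd_eq_one]
    exact ((Nat.prime_iff_prime_int.mp hp).coprime_iff_not_dvd.mpr hk).symm)

theorem not_dvd_div (hn : Squarefree n) (hp : p.Prime) (hpn : p ∣ n) :
    ¬ (p : ℤ) ∣ ((n / p : ℕ) : ℤ) := by
  obtain ⟨m, rfl⟩ := hpn
  rw [Nat.mul_div_cancel_left _ hp.pos, Int.natCast_dvd_natCast]
  intro h
  exact hp.not_isUnit (hn p (Nat.mul_dvd_mul_left p h))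

theorem hil_sq (hn : Squarefree n) (hp : p.Prime) (hpn : p ∣ n) {k : ℤ} (hk : k ≠ 0) :
    hil n p k ^ 2 = 1 := by
  obtain ⟨v, k', hk', rfl⟩ := exists_pow_mul hp hk
  rw [hil_pow_mul hp _ hk', mul_pow, jac_sq hp hk', ← pow_mul, mul_comm v, pow_mul,
    jac_sq hp (not_dvd_div hn hp hpn)]
  simp

theorem hil_of_sq (hn : Squarefree n) (hp : p.Prime) (hpn : p ∣ n) {k : ℤ} (hk : k ≠ 0) :
    hil n p (k ^ 2) = 1 := by rw [hil_pow hp, hil_sq hn hp hpn hk]

theorem hil_norm_aux (hn : Squarefree n) (hp : p.Prime) (hpn : p ∣ n) {u v : ℤ}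
    (h : ¬ ((p : ℤ) ∣ u ∧ (p : ℤ) ∣ v)) : hil n p (u ^ 2 + n * v ^ 2) = 1 := by
  have hp' := Nat.prime_iff_prime_int.mp hp
  have hnd := not_dvd_div hn hp hpn
  obtain ⟨m, rfl⟩ := hpn
  rw [Nat.mul_div_cancel_left _ hp.pos] at hnd
  by_cases hu : (p : ℤ) ∣ u
  · have hv : ¬ (p : ℤ) ∣ v := fun hv => h ⟨hu, hv⟩
    obtain ⟨u, rfl⟩ := hu
    have h1 : ¬ (p : ℤ) ∣ m * v ^ 2 + p * u ^ 2 := fun h1 => by
      rcases hp'.dvd_or_dvd ((dvd_add_left (dvd_mul_right _ _)).mp h1) with h2 | h2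
      · exact hnd h2
      · exact hv (hp'.dvd_of_dvd_pow h2)
    rw [show ((p : ℤ) * u) ^ 2 + ((p * m : ℕ) : ℤ) * v ^ 2 = p ^ 1 * (m * v ^ 2 + p * u ^ 2) by
      push_cast; ring, hil_pow_mul hp _ h1, Nat.mul_div_cancel_left _ hp.pos,
      jacobiSym.mod_left, Int.add_mul_emod_self_left, ← jacobiSym.mod_left, jacobiSym.mul_left,
      jacobiSym.pow_left, jac_sq hp hv, mul_one, pow_one, ← sq, jac_sq hp hnd]
  · have h1 : ¬ (p : ℤ) ∣ u ^ 2 + p * (m * v ^ 2) := fun h1 =>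
      hu (hp'.dvd_of_dvd_pow ((dvd_add_left (dvd_mul_right _ _)).mp h1))
    rw [show u ^ 2 + ((p * m : ℕ) : ℤ) * v ^ 2 = u ^ 2 + p * (m * v ^ 2) by push_cast; ring,
      hil_of_not_dvd hp h1, jacobiSym.mod_left, Int.add_mul_emod_self_left, ← jacobiSym.mod_left,
      jacobiSym.pow_left, jac_sq hp hu]

/-- Norms from the quadratic field have trivial Hilbert symbol. -/
theorem hil_norm (hn : Squarefree n) (hp : p.Prime) (hpn : p ∣ n) {u v : ℤ}
    (h : u ^ 2 + n * v ^ 2 ≠ 0) : hil n p (u ^ 2 + n * v ^ 2) = 1 := by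
  have hg : 0 < Int.gcd u v := Int.gcd_pos_iff.mpr (by
    by_contra hc
    push Not at hc
    exact h (by simp [hc.1, hc.2]))
  obtain ⟨g, u', v', hg0, hc, rfl, rfl⟩ := Int.exists_gcd_one' hg
  rw [show (u' * g) ^ 2 + n * (v' * g) ^ 2 = (g : ℤ) ^ 2 * (u' ^ 2 + n * v' ^ 2) by ring,
    hil_mul hp, hil_of_sq hn hp hpn (by exact_mod_cast hg0.ne'), one_mul]
  refine hil_norm_aux hn hp hpn fun h2 => ?_
  have := Int.dvd_coe_gcd h2.1 h2.2
  rw [hc] at this
  exact hp.not_dvd_one (by exact_mod_cast this)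

/-- If a product is a nonzero norm up to a square, the two symbols agree. -/
theorem hil_eq_of_norm (hn : Squarefree n) (hp : p.Prime) (hpn : p ∣ n) {k l c u v : ℤ}
    (hk : k ≠ 0) (hl : l ≠ 0) (hc : c ≠ 0) (h : c ^ 2 * (k * l) = u ^ 2 + n * v ^ 2) :
    hil n p k = hil n p l := by
  have h1 := hil_norm hn hp hpn (u := u) (v := v)
    (by rw [← h]; exact mul_ne_zero (pow_ne_zero _ hc) (mul_ne_zero hk hl))
  rw [← h, hil_mul hp, hil_of_sq hn hp hpn hc, one_mul, hil_mul hp] at h1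
  have h2 := hil_sq hn hp hpn hl
  calc hil n p k = hil n p k * hil n p l ^ 2 := by rw [h2, mul_one]
    _ = hil n p l := by rw [sq, ← mul_assoc, h1, one_mul]

theorem hilS_mul {S : Finset ℕ} (hS : ∀ p ∈ S, p.Prime) (k l : ℤ) :
    hilS n S (k * l) = hilS n S k * hilS n S l := by
  unfold hilS
  rw [← prod_mul_distrib]
  exact prod_congr rfl fun p hp => hil_mul (hS p hp) k l

end hil

end Pool.Agent.Lib.MP_696deb_nt
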