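import Pool.Agent.Lib.MP_696deb_nt.Torsor

set_option autoImplicit false

namespace Pool.Agent.Lib.MP_696deb_nt

/-- No non-trivial decomposition `-n = d d'` of the second kind in the sense of Redei. -/
def CondA (n : ℤ) : Prop :=
  ∀ d d' : ℤ, d * d' = -n → d % 4 = 1 →
    (∀ p : ℕ, p.Prime → (p : ℤ) ∣ d' → IsSquare (d : ZMod p)) →
    (∀ p : ℕ, p.Prime → (p : ℤ) ∣ d → IsSquare (d' : ZMod p)) → d = 1 ∨ d' = 1

/-- No non-trivial ambiguous ideal lies in the principal genus. -/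
def CondB (n : ℤ) : Prop :=
  ∀ d d' : ℤ, d * d' = n → 0 < d →
    (∀ p : ℕ, p.Prime → (p : ℤ) ∣ d' → IsSquare (d : ZMod p)) →
    (∀ p : ℕ, p.Prime → (p : ℤ) ∣ d → IsSquare (d' : ZMod p)) → d = 1 ∨ d' = 1

theorem dvd_of_squarefree_of_primes {d n : ℤ} (hd : Squarefree d) (hn : n ≠ 0)
    (h : ∀ p : ℕ, p.Prime → (p : ℤ) ∣ d → (p : ℤ) ∣ n) : d ∣ n := by
  rw [← Int.natAbs_dvd_natAbs]
  have hd' : Squarefree d.natAbs := Int.squarefree_natAbs.mpr hd
  rw [← Nat.prod_primeFactors_of_squarefree hd',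
    Nat.prod_primeFactors_dvd_iff (Int.natAbs_ne_zero.mpr hn)]
  intro p hp
  rw [Nat.mem_primeFactors] at hp ⊢
  refine ⟨hp.1, ?_, Int.natAbs_ne_zero.mpr hn⟩
  have := h p hp.1 (Int.natCast_dvd.mpr hp.2.1)
  exact Int.natCast_dvd.mp this

theorem not_dvd_of_squarefree_mul {d d' : ℤ} {p : ℕ} (hp : p.Prime) (h : Squarefree (d * d'))
    (h1 : (p : ℤ) ∣ d') : ¬ (p : ℤ) ∣ d := fun h2 =>
  (Nat.prime_iff_prime_int.mp hp).not_isUnit (h p (mul_dvd_mul h2 h1))

theorem prime_dvd_small {p : ℕ} (hp : p.Prime) {q k : ℕ} (hq : q.Prime)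
    (h : (p : ℤ) ∣ (q : ℤ) ^ k) : p = q := by
  have : p ∣ q ^ k := by exact_mod_cast h
  exact (Nat.prime_dvd_prime_iff_eq hp hq).mp (hp.dvd_of_dvd_pow this)

theorem cast_ne_zero_of_dvd {p : ℕ} (hp : p.Prime) {n : ℤ} (hpn : (p : ℤ) ∣ n) (h4 : n % 4 = 3)
    (h3 : n % 3 = 2) (h5 : n % 5 = 2 ∨ n % 5 = 3) :
    ((2 : ℤ) : ZMod p) ≠ 0 ∧ ((3 : ℤ) : ZMod p) ≠ 0 ∧ ((5 : ℤ) : ZMod p) ≠ 0 := by
  simp only [Ne, ZMod.intCast_zmod_eq_zero_iff_dvd]
  refine ⟨fun h => ?_, fun h => ?_, fun h => ?_⟩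
  · obtain rfl : p = 2 := prime_dvd_small hp (k := 1) Nat.prime_two (by simpa using h)
    omega
  · obtain rfl : p = 3 := prime_dvd_small hp (k := 1) Nat.prime_three (by simpa using h)
    omega
  · obtain rfl : p = 5 := prime_dvd_small hp (k := 1) Nat.prime_five (by simpa using h)
    omega

theorem not_isSquare_three {z : ℤ} (h : z % 3 = 2) : ¬ IsSquare (z : ZMod 3) := by
  obtain ⟨m, rfl⟩ : ∃ m, z = 3 * m + 2 := ⟨z / 3, by omega⟩
  push_cast
  generalize (m : ZMod 3) = m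
  revert m; decide

theorem not_isSquare_five {z : ℤ} (h : z % 5 = 2 ∨ z % 5 = 3) : ¬ IsSquare (z : ZMod 5) := by
  rcases h with h | h
  · obtain ⟨m, rfl⟩ : ∃ m, z = 5 * m + 2 := ⟨z / 5, by omega⟩
    push_cast
    generalize (m : ZMod 5) = m
    revert m; decide
  · obtain ⟨m, rfl⟩ : ∃ m, z = 5 * m + 3 := ⟨z / 5, by omega⟩
    push_cast
    generalize (m : ZMod 5) = m
    revert m; decide

variable {n : ℤ}

/-- First coordinate of the descent map. -/
theorem first_coord (hn : Squarefree n) (h4 : n % 4 = 3) (h3 : n % 3 = 2)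
    (h5 : n % 5 = 2 ∨ n % 5 = 3) (hA : CondA n) {x y : ℚ} (hy : y ≠ 0)
    (h : y ^ 2 = x * (x + 9 * n) * (x + 25 * n)) : IsSquare x ∨ IsSquare (x * (-n)) := by
  obtain ⟨d, s, w, t, hd, hs, hw, hc, hx, he⟩ :=
    exists_torsor (A := -9 * n) (B := -25 * n) (x := x) hy (by rw [h]; push_cast; ring)
  have : Fact (Nat.Prime 3) := ⟨Nat.prime_three⟩
  have : Fact (Nat.Prime 5) := ⟨Nat.prime_five⟩
  have n3 : ¬ ((3 : ℕ) : ℤ) ∣ d := local_nonsplit (a' := -1) hd (by norm_num) (by decide)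
    (not_isSquare_three (by omega)) hc he
  have n5 : ¬ ((5 : ℕ) : ℤ) ∣ d := local_nonsplit (a := -25) (b := -9) (a' := -1) (n := n) (t := t) hd
    (by norm_num) (by simp) (not_isSquare_five (by omega)) hc (by rw [he]; ring)
  have hdn : d ∣ n := by
    refine dvd_of_squarefree_of_primes hd hn.ne_zero fun p hp hpd => ?_
    have := Fact.mk hp
    rcases local_support hpd hc he with h' | h' | h'
    · exact h'
    · obtain rfl : p = 3 := prime_dvd_small hp (k := 2) Nat.prime_three (by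
        simpa using (Int.dvd_neg.mpr h'))
      exact absurd hpd n3
    · obtain rfl : p = 5 := prime_dvd_small hp (k := 2) Nat.prime_five (by
        simpa using (Int.dvd_neg.mpr h'))
      exact absurd hpd n5
  obtain ⟨d'', hd''⟩ := hdn
  have hdd : d * (-d'') = -n := by rw [hd'']; ring
  have hodd : d % 2 = 1 := by
    by_contra h0
    have : (2 : ℤ) ∣ n := hd'' ▸ Dvd.dvd.mul_right (by omega) _
    omega
  have hd4 := local_two_first h4 hodd hc he
  have hw' : (w : ℚ) ≠ 0 := by exact_mod_cast hw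
  have key : d = 1 ∨ -d'' = 1 := by
    refine hA d (-d'') hdd hd4 (fun p hp hpd => ?_) (fun p hp hpd => ?_)
    · have := Fact.mk hp
      have hpn : (p : ℤ) ∣ n := hd'' ▸ Dvd.dvd.mul_left (Int.dvd_neg.mp hpd) _
      obtain ⟨-, c3, c5⟩ := cast_ne_zero_of_dvd hp hpn h4 h3 h5
      refine local_unit (c := 15) hn hpn (not_dvd_of_squarefree_mul hp (hd'' ▸ hn)
        (Int.dvd_neg.mp hpd)) (by norm_num) ?_ hc he
      have : ((15 : ℤ) : ZMod p) = ((3 : ℤ) : ZMod p) * ((5 : ℤ) : ZMod p) := by push_cast; norm_num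
      rw [this]; exact mul_ne_zero c3 c5
    · have := Fact.mk hp
      have hpn : (p : ℤ) ∣ n := hd'' ▸ Dvd.dvd.mul_right hpd _
      obtain ⟨-, c3, c5⟩ := cast_ne_zero_of_dvd hp hpn h4 h3 h5
      exact local_ram (α := 3) (β := 5) (ε := -1) hd hn hpd (by rw [hdd]; ring) (by norm_num)
        (by norm_num) (by norm_num) c3 c5 hc he
  rcases key with h1 | h1
  · left
    refine ⟨s / w, ?_⟩
    rw [h1] at hx
    field_simp
    push_cast at hx
    linear_combination hx
  · right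
    have : d = -n := by rw [← hdd, h1, mul_one]
    rw [this] at hx
    refine ⟨n * s / w, ?_⟩
    field_simp
    push_cast at hx
    linear_combination (-(n : ℚ)) * hx

/-- Third coordinate of the descent map. -/
theorem third_coord (hn : Squarefree n) (h0 : 0 < n) (h4 : n % 4 = 3) (h3 : n % 3 = 2)
    (h5 : n % 5 = 2 ∨ n % 5 = 3) (hB : CondB n) {x y : ℚ} (hy : y ≠ 0)
    (h : y ^ 2 = x * (x + 9 * n) * (x + 25 * n)) :
    IsSquare (x + 25 * n) ∨ IsSquare ((x + 25 * n) * n) := by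
  obtain ⟨d, s, w, t, hd, hs, hw, hc, hx, he⟩ :=
    exists_torsor (A := 25 * n) (B := 16 * n) (x := x + 25 * n) hy (by rw [h]; push_cast; ring)
  have : Fact (Nat.Prime 5) := ⟨Nat.prime_five⟩
  have n2 : ¬ (2 : ℤ) ∣ d := local_two_third h4 hd hc he
  have n5 : ¬ ((5 : ℕ) : ℤ) ∣ d := local_nonsplit (a' := 1) hd
    (by norm_num) (by simp) (not_isSquare_five (by omega)) hc he
  have hdn : d ∣ n := by
    refine dvd_of_squarefree_of_primes hd hn.ne_zero fun p hp hpd => ?_
    have := Fact.mk hp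
    rcases local_support hpd hc he with h' | h' | h'
    · exact h'
    · obtain rfl : p = 5 := prime_dvd_small hp (k := 2) Nat.prime_five (by simpa using h')
      exact absurd hpd n5
    · obtain rfl : p = 2 := prime_dvd_small hp (k := 4) Nat.prime_two (by simpa using h')
      exact absurd hpd n2
  obtain ⟨d', hd'⟩ := hdn
  have hpos := local_real_third h0 hd.ne_zero hw he
  have hw' : (w : ℚ) ≠ 0 := by exact_mod_cast hw
  have key : d = 1 ∨ d' = 1 := by
    refine hB d d' hd'.symm hpos (fun p hp hpd => ?_) (fun p hp hpd => ?_)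
    · have := Fact.mk hp
      have hpn : (p : ℤ) ∣ n := hd' ▸ Dvd.dvd.mul_left hpd _
      obtain ⟨c2, -, c5⟩ := cast_ne_zero_of_dvd hp hpn h4 h3 h5
      refine local_unit (c := 20) hn hpn (not_dvd_of_squarefree_mul hp (hd' ▸ hn) hpd)
        (by norm_num) ?_ hc he
      have : ((20 : ℤ) : ZMod p) = ((2 : ℤ) : ZMod p) * ((2 : ℤ) : ZMod p) * ((5 : ℤ) : ZMod p) := by
        push_cast; norm_num
      rw [this]; exact mul_ne_zero (mul_ne_zero c2 c2) c5
    · have := Fact.mk hp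
      have hpn : (p : ℤ) ∣ n := hd' ▸ Dvd.dvd.mul_right hpd _
      obtain ⟨c2, -, c5⟩ := cast_ne_zero_of_dvd hp hpn h4 h3 h5
      refine local_ram (α := 5) (β := 4) (ε := 1) hd hn hpd (by rw [hd']; ring) (by norm_num)
        (by norm_num) (by norm_num) c5 ?_ hc he
      have : ((4 : ℤ) : ZMod p) = ((2 : ℤ) : ZMod p) * ((2 : ℤ) : ZMod p) := by
        push_cast; norm_num
      rw [this]; exact mul_ne_zero c2 c2
  rcases key with h1 | h1
  · left
    refine ⟨s / w, ?_⟩
    rw [h1] at hx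
    field_simp
    push_cast at hx
    linear_combination hx
  · right
    have : d = n := by rw [hd', h1, mul_one]
    rw [this] at hx
    refine ⟨n * s / w, ?_⟩
    field_simp
    push_cast at hx
    linear_combination hx

theorem isSquare_scale {K : Type*} [Field K] {a b c : K} (h : IsSquare a) (e : b = a * c ^ 2) :
    IsSquare b := by
  obtain ⟨r, rfl⟩ := h
  exact ⟨r * c, by rw [e]; ring⟩

/-- The short Weierstrass model of the quadratic twist of `X_0(15)` by `D`. -/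
def twist15 (D : ℤ) : WeierstrassCurve ℚ :=
  { a₁ := 0, a₂ := 0, a₃ := 0, a₄ := ((-12987 * D ^ 2 : ℤ) : ℚ), a₆ := ((-263466 * D ^ 3 : ℤ) : ℚ) }

theorem split_twist15 {D : ℤ} (hD : D ≠ 0) :
    Split (twist15 D) (-102 * D) (-21 * D) (123 * D) := by
  have : (D : ℚ) ≠ 0 := by exact_mod_cast hD
  refine ⟨rfl, rfl, ?_, ?_, ?_, ?_, ?_, ?_, two_ne_zero⟩
  · simp only [twist15]; ring
  · simp only [twist15]; push_cast; ring
  · simp only [twist15]; push_cast; ring
  · intro h; apply this; linear_combination (-1 / 81 : ℚ) * h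
  · intro h; apply this; linear_combination (-1 / 225 : ℚ) * h
  · intro h; apply this; linear_combination (-1 / 144 : ℚ) * h

/-- Rank zero from the two Redei conditions. -/
theorem finite_twist15 (hn : Squarefree n) (h0 : 0 < n) (h4 : n % 4 = 3) (h3 : n % 3 = 2)
    (h5 : n % 5 = 2 ∨ n % 5 = 3) (hA : CondA n) (hB : CondB n) :
    Finite (twist15 (-n)).toAffine.Point := by
  have hS := split_twist15 (D := -n) (by omega)
  refine hS.finite_point fun X Y hY hE => ?_
  have hn' : (n : ℚ) ≠ 0 := by exact_mod_cast h0.ne'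
  set x : ℚ := (X - 102 * n) / 9 with hx
  have hX : X = 9 * x + 102 * n := by rw [hx]; ring
  have hy : Y / 27 ≠ 0 := div_ne_zero hY (by norm_num)
  have hE' : (Y / 27) ^ 2 = x * (x + 9 * n) * (x + 25 * n) := by
    rw [hX] at hE; push_cast at hE
    linear_combination (1 / 729 : ℚ) * hE
  have hx1 : x ≠ 0 := by
    intro h; apply pow_ne_zero 2 hy; rw [hE', h]; ring
  have hx3 : x + 25 * n ≠ 0 := by
    intro h; apply pow_ne_zero 2 hy; rw [hE', h]; ring
  have mid : ∀ a b : ℚ, IsSquare (x * a) → IsSquare ((x + 25 * n) * b) →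
      IsSquare ((x + 9 * n) * (a * b)) := by
    rintro a b ⟨r, hr⟩ ⟨s, hs⟩
    refine Split.isSquare_of_mul (mul_ne_zero hx1 hx3) rfl ⟨Y / 27 * r * s, ?_⟩
    have : Y / 27 * r * s * (Y / 27 * r * s) = (Y / 27) ^ 2 * (r * r) * (s * s) := by ring
    rw [this, hE', ← hr, ← hs]; ring
  rw [hX]
  push_cast
  rcases first_coord hn h4 h3 h5 hA hy hE' with s1 | s1 <;>
  rcases third_coord hn h0 h4 h3 h5 hB hy hE' with s3 | s3
  · exact Or.inl ⟨isSquare_scale (c := 3) (mid 1 1 (by simpa) (by simpa)) (by ring),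
      isSquare_scale (c := 3) s3 (by ring)⟩
  · exact Or.inr (Or.inl ⟨isSquare_scale (c := 27) (mid 1 n (by simpa) s3) (by ring),
      isSquare_scale (c := 45) s3 (by ring)⟩)
  · exact Or.inr (Or.inr (Or.inr ⟨isSquare_scale (c := 36) (mid (-n) 1 s1 (by simpa)) (by ring),
      isSquare_scale (c := 45) s1 (by ring)⟩))
  · exact Or.inr (Or.inr (Or.inl ⟨isSquare_scale (c := 27) s1 (by ring),
      isSquare_scale (c := 36) s3 (by ring)⟩))

end Pool.Agent.Lib.MP_696deb_nt
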