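import Pool.Agent.Lib.MP_696deb_nt.Twist

/-! Automorphisms of the field of complex numbers. -/

set_option autoImplicit false

open Cardinal Polynomial NumberTheorySymbols

namespace Pool.Agent.Lib.MP_696deb_nt.Gal

theorem exists_iso {R L : Type} [CommRing R] [IsDomain R] [Countable R] [Field L]
    [IsAlgClosed L] (hL : #L = 𝔠) (f : R →+* ℂ) (g : R →+* L) (hf : Function.Injective f)
    (hg : Function.Injective g) : ∃ e : ℂ ≃+* L, ∀ r, e (f r) = g r := by
  let := f.toAlgebra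
  let := g.toAlgebra
  have : FaithfulSMul R ℂ := (faithfulSMul_iff_algebraMap_injective R ℂ).2 hf
  have : FaithfulSMul R L := (faithfulSMul_iff_algebraMap_injective R L).2 hg
  obtain ⟨s, hs⟩ := exists_isTranscendenceBasis R ℂ
  obtain ⟨t, ht⟩ := exists_isTranscendenceBasis R L
  have h1 := IsAlgClosed.cardinal_eq_cardinal_transcendence_basis_of_aleph0_lt _ hs
    mk_le_aleph0 (by rw [mk_complex]; exact aleph0_lt_continuum)
  have h2 := IsAlgClosed.cardinal_eq_cardinal_transcendence_basis_of_aleph0_lt _ ht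
    mk_le_aleph0 (by rw [hL]; exact aleph0_lt_continuum)
  simp only [lift_id, mk_complex, hL] at h1 h2
  obtain ⟨e0⟩ := Cardinal.eq.1 (h1.symm.trans h2)
  let := IsAlgClosed.isAlgClosure_of_transcendence_basis _ hs
  let := IsAlgClosed.isAlgClosure_of_transcendence_basis _ ht
  let e1 := (hs.1.aevalEquiv.symm.trans (MvPolynomial.renameEquiv R e0)).trans ht.1.aevalEquiv
  refine ⟨IsAlgClosure.equivOfEquiv ℂ L e1.toRingEquiv, fun r => ?_⟩
  have h3 := IsAlgClosure.equivOfEquiv_algebraMap ℂ L e1.toRingEquiv (algebraMap R _ r)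
  rw [show e1.toRingEquiv (algebraMap R _ r) = algebraMap R _ r from e1.commutes r] at h3
  exact h3

theorem exists_aut {R : Type} [CommRing R] [IsDomain R] [Countable R] (f g : R →+* ℂ)
    (hf : Function.Injective f) (hg : Function.Injective g) :
    ∃ σ : ℂ ≃+* ℂ, ∀ r, σ (f r) = g r := exists_iso mk_complex f g hf hg

lemma countable_poly (K : Type) [CommRing K] [Countable K] : Countable K[X] :=
  mk_le_aleph0_iff.1 (Polynomial.cardinalMk_le_max.trans (max_le mk_le_aleph0 le_rfl))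

variable {K : Type} [Field K] [Countable K] [Algebra K ℂ]

theorem exists_aut_transc {a b : ℂ} (ha : Transcendental K a) (hb : Transcendental K b) :
    ∃ σ : ℂ ≃+* ℂ, σ a = b ∧ ∀ x : K, σ (algebraMap K ℂ x) = algebraMap K ℂ x := by
  have := countable_poly K
  obtain ⟨σ, h⟩ := exists_aut (aeval a : K[X] →ₐ[K] ℂ).toRingHom (aeval b : K[X] →ₐ[K] ℂ).toRingHom
    (transcendental_iff_injective.1 ha) (transcendental_iff_injective.1 hb)
  exact ⟨σ, by simpa using h X, fun x => by simpa using h (C x)⟩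

theorem exists_aut_root {f : K[X]} (hf : Irreducible f) {a b : ℂ} (ha : aeval a f = 0)
    (hb : aeval b f = 0) :
    ∃ σ : ℂ ≃+* ℂ, σ a = b ∧ ∀ x : K, σ (algebraMap K ℂ x) = algebraMap K ℂ x := by
  have := countable_poly K
  have := Fact.mk hf
  have : Countable (AdjoinRoot f) := AdjoinRoot.mk_surjective.countable
  obtain ⟨σ, h⟩ := exists_aut (AdjoinRoot.lift (algebraMap K ℂ) a ha)
    (AdjoinRoot.lift (algebraMap K ℂ) b hb) (RingHom.injective _) (RingHom.injective _)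
  exact ⟨σ, by simpa using h (AdjoinRoot.root f), fun x => by simpa using h (AdjoinRoot.of f x)⟩

omit [Countable K] in
lemma transc_add {a : ℂ} (ha : Transcendental K a) (n : ℕ) : Transcendental K (a + n) := fun h =>
  ha (by simpa using h.sub (isAlgebraic_natCast n))

/-- Numbers with finitely many conjugates are algebraic. -/
theorem isAlgebraic_of_finite {a : ℂ} {S : Set ℂ} (hS : S.Finite) (h : ∀ σ : ℂ ≃+* ℂ,
    (∀ x : K, σ (algebraMap K ℂ x) = algebraMap K ℂ x) → σ a ∈ S) : IsAlgebraic K a := by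
  by_contra ha
  refine Set.infinite_of_injective_forall_mem (f := fun n : ℕ => a + n)
    (fun m n e => by simpa using e) (fun n => ?_) hS
  obtain ⟨σ, h1, h2⟩ := exists_aut_transc ha (transc_add ha n)
  exact h1 ▸ h σ h2

/-- The fixed field of the automorphisms over `K` is `K`. -/
theorem mem_range_of_fixed {a : ℂ} (h : ∀ σ : ℂ ≃+* ℂ,
    (∀ x : K, σ (algebraMap K ℂ x) = algebraMap K ℂ x) → σ a = a) :
    a ∈ (algebraMap K ℂ).range := by
  have ha := (isAlgebraic_of_finite (K := K) (Set.finite_singleton a) h).isIntegral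
  have : CharZero K := RingHom.charZero (algebraMap K ℂ)
  have hs := (minpoly.irreducible ha).separable
  rw [← minpoly.natDegree_eq_one_iff, ← card_rootSet_eq_natDegree hs (IsAlgClosed.splits (k := ℂ) _),
    Fintype.card_eq_one_iff]
  refine ⟨⟨a, mem_rootSet.mpr ⟨minpoly.ne_zero ha, minpoly.aeval _ _⟩⟩, fun b => Subtype.ext ?_⟩
  obtain ⟨σ, h1, h2⟩ := exists_aut_root (minpoly.irreducible ha) (minpoly.aeval K a)
    (mem_rootSet.mp b.2).2
  exact h1.symm.trans (h σ h2)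

/-- The cyclotomic character is surjective. -/
theorem exists_aut_zeta {N : ℕ} (hN : 0 < N) {a : ℤ} (ha : IsCoprime a N) :
    ∃ σ : ℂ ≃+* ℂ, ∀ ζ : ℂ, ζ ^ N = 1 → σ ζ = ζ ^ a := by
  have : NeZero N := ⟨hN.ne'⟩
  have h0 := Complex.isPrimitiveRoot_exp N hN.ne'
  have h1 := h0.zpow_of_gcd_eq_one a (Int.isCoprime_iff_gcd_eq_one.mp ha)
  have key : ∀ {x : ℂ}, IsPrimitiveRoot x N → aeval x (cyclotomic N ℚ) = 0 := fun hx => by
    rw [aeval_def, eval₂_eq_eval_map, map_cyclotomic]; exact hx.isRoot_cyclotomic hN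
  obtain ⟨σ, h, -⟩ := exists_aut_root (cyclotomic.irreducible_rat hN) (key h0) (key h1)
  refine ⟨σ, fun ζ hζ => ?_⟩
  obtain ⟨i, -, rfl⟩ := h0.eq_pow_of_pow_eq_one hζ
  rw [map_pow, h, ← zpow_natCast, ← zpow_mul, mul_comm a, zpow_mul, zpow_natCast]

/-- Every automorphism raises the roots of unity to a power. -/
theorem exists_pow_zeta (σ : ℂ ≃+* ℂ) {N : ℕ} (hN : 0 < N) :
    ∃ a : ℤ, IsCoprime a N ∧ ∀ ζ : ℂ, ζ ^ N = 1 → σ ζ = ζ ^ a := by
  have : NeZero N := ⟨hN.ne'⟩
  have h0 := Complex.isPrimitiveRoot_exp N hN.ne'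
  obtain ⟨i, -, hi, e⟩ := h0.isPrimitiveRoot_iff.mp (h0.map_of_injective σ.injective)
  refine ⟨i, Nat.isCoprime_iff_coprime.mpr hi, fun ζ hζ => ?_⟩
  obtain ⟨j, -, rfl⟩ := h0.eq_pow_of_pow_eq_one hζ
  rw [map_pow, ← e, zpow_natCast, ← pow_mul, mul_comm i, pow_mul]

lemma gs_sq {N : ℕ} [NeZero N] (hN : Odd N) (hsq : Squarefree N) :
    gs (1 : ZMod N) ^ 2 = J(-1 | N) * N := by
  have h2 : ∑ m : ZMod N, gs m * ZMod.stdAddChar (-m) = N := by
    simp only [gs, Finset.sum_mul]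
    rw [Finset.sum_comm]
    have h3 : ∀ k m : ZMod N, jc k * ZMod.stdAddChar (k * m) * ZMod.stdAddChar (-m) =
        jc k * ZMod.stdAddChar (m * (k - 1)) := fun k m => by
      rw [mul_assoc, ← AddChar.map_add_eq_mul]
      congr 2
      ring
    simp only [h3, ← Finset.mul_sum, AddChar.sum_mulShift _ (ZMod.isPrimitive_stdAddChar N),
      sub_eq_zero]
    rw [Finset.sum_eq_single 1 (fun k _ hk => by simp [hk]) (by simp)]
    have h4 : jc (1 : ZMod N) = 1 := by simpa using jc_int (N := N) 1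
    simp [h4]
  have h3 : ∑ m : ZMod N, gs m * ZMod.stdAddChar (-m) = gs (1 : ZMod N) * gs ((-1 : ℤ) : ZMod N) := by
    rw [gs.eq_def ((-1 : ℤ) : ZMod N), Finset.mul_sum]
    refine Finset.sum_congr rfl fun m _ => ?_
    obtain ⟨m, rfl⟩ := ZMod.intCast_surjective m
    rw [gs_eq hN hsq, jc_int]
    simp only [Int.cast_neg, Int.cast_one, mul_neg, mul_one]
    ring
  have h4 := congr_arg (Int.cast : ℤ → ℂ) (jacobiSym.sq_one (a := -1) (b := N) (by simp))
  rw [h3, gs_eq hN hsq] at h2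
  push_cast at h4
  linear_combination (J(-1 | N) : ℂ) * h2 - gs (1 : ZMod N) ^ 2 * h4

/-- The action on quadratic subfields of cyclotomic fields. -/
theorem aut_sqrt {N : ℕ} (hN : Odd N) (hsq : Squarefree N) {σ : ℂ ≃+* ℂ} {a : ℤ}
    (h : ∀ ζ : ℂ, ζ ^ N = 1 → σ ζ = ζ ^ a) {x : ℂ} (hx : x ^ 2 = J(-1 | N) * N) :
    σ x = J(a | N) * x := by
  have : NeZero N := ⟨hsq.ne_zero⟩
  have h1 : σ (gs (1 : ZMod N)) = J(a | N) * gs (1 : ZMod N) := by
    rw [← gs_eq hN hsq, gs, gs, map_sum]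
    refine Finset.sum_congr rfl fun k _ => ?_
    rw [map_mul, jc, map_intCast, h _ (by rw [← AddChar.map_nsmul_eq_pow]; simp),
      ← AddChar.map_zsmul_eq_zpow, zsmul_eq_mul, mul_one, mul_comm k]
  rcases sq_eq_sq_iff_eq_or_eq_neg.mp (hx.trans (gs_sq hN hsq).symm) with rfl | rfl
  · exact h1
  · rw [map_neg, h1, mul_neg]

end Pool.Agent.Lib.MP_696deb_nt.Gal
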