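import Pool.Agent.Lib.MP_696deb_nt.AnDefs

set_option autoImplicit false

open Finset NumberTheorySymbols

namespace Pool.Agent.Lib.MP_696deb_nt

/-- The genus character attached to the primes of `A`, on forms whose discriminant `A` divides. -/
def gch (A : ℕ) (R : Fm) : ℤ :=
  ∏ p ∈ A.primeFactors, if (p : ℤ) ∣ R.1 then J(R.2.2 | p) else J(R.1 | p)

/-- Forms of level fifteen with discriminant `e` and orientation `β`. -/
def Fam (e β : ℤ) (R : Fm) : Prop := 15 ∣ R.1 ∧ fdisc R = e ∧ 30 ∣ R.2.1 - β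

instance (e β : ℤ) (R : Fm) : Decidable (Fam e β R) := by unfold Fam; infer_instance

/-- The genus character as a weight on a family. -/
def wG (A : ℕ) (e β : ℤ) (R : Fm) : ℤ := if Fam e β R then gch A R else 0

/-- The weight of the symmetrized special divisor: orientation `ρ` with sign `1` and
orientation `-ρ` with sign `J(-1 | B)`, on positive forms. -/
def wZ (B : ℕ) (D ρ : ℤ) (Q : Fm) : ℤ :=
  if 0 < Q.1 then wG B D ρ Q + J(-1 | B) * wG B D (-ρ) Q else 0

/-- Complete systems of representatives of the positive forms of a family. -/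
structure FReps (D β : ℤ) (T : Finset Fm) : Prop where
  fam : ∀ Q ∈ T, Fam D β Q
  pos : ∀ Q ∈ T, 0 < Q.1
  ex : ∀ Q, Fam D β Q → 0 < Q.1 → ∃ R ∈ T, FEq R Q
  uniq : ∀ Q ∈ T, ∀ R ∈ T, FEq Q R → Q = R

/-- The Atkin-Lehner involution at three on forms of level fifteen. -/
def fW (R : Fm) : Fm :=
  (12 * R.1 + 30 * R.2.1 + 75 * R.2.2, 4 * R.1 + 11 * R.2.1 + 30 * R.2.2,
    R.1 / 3 + R.2.1 + 3 * R.2.2)

/-- A local character sum at a prime `p` that divides `t`. -/
def sigP (p : ℕ) (t : ℤ) (M : ℕ) : ℤ :=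
  ∑ s ∈ range p, if (p : ℤ) ∣ s ^ 2 - ((t / p) ^ 2 - 60 * (M / p ^ 2 : ℕ)) then
    J(2 * (s - t / p) | p) else 0

/-- The local factors of the closed form of the weighted count of pairs. -/
def lamP (n A : ℕ) (t : ℤ) (M p : ℕ) : ℤ :=
  if p ∣ A then
    if (p : ℤ) ∣ t then J(((n / p : ℕ) : ℤ) | p) * sigP p t M *
      (1 + if p ^ 3 ∣ M then J(15 | p) * hil n p M else 0)
    else J(-2 * t | p)
  else if p ∣ M then 1 + J(15 | p) * hil n p M else 1

/-- The closed form of the weighted count of pairs. -/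
def CF (n A : ℕ) (t : ℤ) (M : ℕ) : ℤ := rr n M * ∏ p ∈ n.primeFactors, lamP n A t M p

/-- The local weight of the lines `k / A` that belong to the factorization `a * e`. -/
def muP (p : ℕ) (t a e : ℤ) : ℤ :=
  if (p : ℤ) ∣ t then
    if (p : ℤ) ∣ a ∧ (p : ℤ) ∣ e then
      ∑ k ∈ range p, if (p : ℤ) ∣ 15 * (a / p) * k ^ 2 - t / p * k + e / p then J((k : ℤ) | p)
        else 0
    else 0
  else J(30 * a * t | p)

/-- The weight of the factorization `a * e`. -/
def muW (A B : ℕ) (t a e : ℤ) : ℤ :=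
  (∏ p ∈ A.primeFactors, muP p t a e) *
    ∏ p ∈ B.primeFactors, if (p : ℤ) ∣ a then J(e | p) else J(15 * a | p)

/-- The twisted period of the newform. -/
noncomputable def perA (A : ℕ) : ℂ := ∑ k ∈ range A, (J((k : ℤ) | A) : ℂ) * ms k A

/-- The image in `ℂ` of a twisted special divisor. -/
noncomputable def hP (B : ℕ) (T : Finset Fm) : ℂ := ∑ Q ∈ T, (gch B Q : ℂ) * Fi (froot Q)

/-- Rational multiples of periods. -/
def Tors (z : ℂ) : Prop := ∃ (N : ℕ) (m n : ℤ), 0 < N ∧ N * z = m * wp + n * wm * Complex.I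

/-- The split family attached to the quadratic character of conductor `A`. -/
def wV (A : ℕ) : Fm → ℤ := wG A (A ^ 2) (11 * A)

/-- Forms with even coefficients. -/
def Ev2 (R : Fm) : Prop := 2 ∣ R.1 ∧ 2 ∣ R.2.1 ∧ 2 ∣ R.2.2

instance (R : Fm) : Decidable (Ev2 R) := by unfold Ev2; infer_instance

/-- The split family of discriminant four and degree zero. -/
def wV2 (R : Fm) : ℤ := if Fam 4 22 R then (if Ev2 R then -1 else 1) else 0

/-- The image of the family of discriminant `d` under `T₂ - 3`. -/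
def wHk (d β : ℤ) (R : Fm) : ℤ :=
  if Fam (4 * d) (2 * β) R then 1 + (if Ev2 R then (if d % 8 = 1 then -2 else -4) else 0) else 0

/-- The integer that measures the imaginary period class of a family of geodesics. -/
noncomputable def th (w : Fm → ℤ) : ℤ := thw w 4 15

/-- The integer that measures the class of a family twisted by a character of conductor `A`. -/
noncomputable def thA (A : ℕ) (w : Fm → ℤ) : ℤ := if A % 4 = 1 then thw w 4 15 else thw w 7 15

/-- Complete systems of representatives, with trivial stabilizers, for the support of a weight. -/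
structure Sys (S : Finset Fm) (m : Fm → ℤ) : Prop where
  inv : ∀ Q R, FEq Q R → m R = m Q
  ex : ∀ R, m R ≠ 0 → ∃ Q ∈ S, FEq Q R
  uniq : ∀ Q ∈ S, ∀ R ∈ S, FEq Q R → Q = R
  free : ∀ Q ∈ S, m Q ≠ 0 → ∀ a b c d : ℤ, a * d - b * (15 * c) = 1 →
    fmap Q a b (15 * c) d = Q → b = 0 ∧ c = 0

/-- The divisors `m` of `d` such that the ambiguous form with values `m` and `-d / m` lies in the
principal genus and `m` is not a square modulo five. -/
def ambN (d : ℕ) : ℕ :=
  #{m ∈ d.divisors | (∀ r ∈ d.primeFactors,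
    J((if r ∣ m then -((d / m : ℕ) : ℤ) else m) | r) = 1) ∧ J((m : ℤ) | 5) = -1}

end Pool.Agent.Lib.MP_696deb_nt
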