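import Pool.Agent.Lib.MP_696deb_nt.AnDefs

set_option autoImplicit false

open Complex Filter Topology Set MeasureTheory
open scoped Real

namespace Pool.Agent.Lib.MP_696deb_nt

section F
variable {a b c d e : ℤ} {z : ℂ} {Q R : Fm} {w : Fm → ℤ} {κ : ℂ}

theorem fdisc_fmap (h : a * d - b * c = 1) (R : Fm) : fdisc (fmap R a b c d) = fdisc R := by
  simp only [fdisc, fmap, fval]
  linear_combination (a * d - b * c + 1) * (R.2.1 ^ 2 - 4 * R.1 * R.2.2) * h

theorem fbil_fmap (h : a * d - b * c = 1) (Q R : Fm) :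
    fbil (fmap Q a b c d) (fmap R a b c d) = fbil Q R := by
  simp only [fbil, fmap, fval]
  linear_combination (a * d - b * c + 1) *
    (Q.2.1 * R.2.1 - 2 * Q.1 * R.2.2 - 2 * Q.2.2 * R.1) * h

theorem fmap_one (R : Fm) : fmap R 1 0 0 1 = R := by
  simp [fmap, fval]

theorem fmap_fmap (R : Fm) (a b c d a' b' c' d' : ℤ) :
    fmap (fmap R a b c d) a' b' c' d' =
      fmap R (a * a' + b * c') (a * b' + b * d') (c * a' + d * c') (c * b' + d * d') := by
  simp only [fmap, fval, Prod.mk.injEq]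
  refine ⟨?_, ?_, ?_⟩ <;> ring

theorem fval_fmap (R : Fm) (a b c d x y : ℤ) :
    fval (fmap R a b c d) x y = fval R (a * x + b * y) (c * x + d * y) := by
  simp only [fmap, fval]
  ring

theorem fmap_inv (h : a * d - b * c = 1) (R : Fm) :
    fmap (fmap R a b c d) d (-b) (-c) a = R := by
  rw [fmap_fmap]
  convert fmap_one R using 2
  · linear_combination h
  · ring
  · ring
  · linear_combination h

theorem fmap_inv' (h : a * d - b * c = 1) (R : Fm) :
    fmap (fmap R d (-b) (-c) a) a b c d = R := by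
  simpa using fmap_inv (a := d) (b := -b) (c := -c) (d := a) (by linear_combination h) R

/-- The action of a unimodular matrix on forms. -/
def fequiv (h : a * d - b * c = 1) : Fm ≃ Fm where
  toFun R := fmap R a b c d
  invFun R := fmap R d (-b) (-c) a
  left_inv := fmap_inv h
  right_inv := fmap_inv' h

theorem FEq.refl (Q : Fm) : FEq Q Q := ⟨1, 0, 0, 1, by norm_num, by simp [fmap_one]⟩

theorem FEq.symm (h : FEq Q R) : FEq R Q := by
  obtain ⟨a, b, c, d, h, rfl⟩ := h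
  exact ⟨d, -b, -c, a, by linear_combination h, by rw [mul_neg, fmap_inv h]⟩

theorem FEq.trans {P : Fm} (h : FEq P Q) (h' : FEq Q R) : FEq P R := by
  obtain ⟨a, b, c, d, h, rfl⟩ := h
  obtain ⟨a', b', c', d', h', rfl⟩ := h'
  refine ⟨a * a' + b * (15 * c'), a * b' + b * d', c * a' + d * c', 15 * c * b' + d * d', ?_, ?_⟩
  · linear_combination (a' * d' - b' * (15 * c')) * h + h'
  · rw [fmap_fmap]
    congr 1
    ring

theorem four_mul_fval (R : Fm) (x y : ℤ) :
    4 * R.1 * fval R x y = (2 * R.1 * x + R.2.1 * y) ^ 2 - y ^ 2 * fdisc R := by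
  simp only [fdisc, fval]
  ring

theorem fmap_pos (h : a * d - b * c = 1) (hD : fdisc Q < 0) (hQ : 0 < Q.1) :
    0 < (fmap Q a b c d).1 := by
  change 0 < fval Q a c
  have h1 := four_mul_fval Q a c
  have h2 : 0 < 4 * Q.1 * fval Q a c := by
    rcases eq_or_ne c 0 with rfl | hc
    · have ha : a ≠ 0 := by rintro rfl; simp at h
      rw [h1]
      have : 2 * Q.1 * a ≠ 0 := mul_ne_zero (by omega) ha
      simpa using this.symm.lt_or_gt.elim (fun h => by positivity) fun _ => by positivity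
    · rw [h1]
      nlinarith [sq_nonneg (2 * Q.1 * a + Q.2.1 * c), sq_pos_of_ne_zero hc]
  exact (pos_iff_pos_of_mul_pos h2).1 (by omega)

theorem FEq.pos (h : FEq Q R) (hD : fdisc Q < 0) (hQ : 0 < Q.1) : 0 < R.1 := by
  obtain ⟨a, b, c, d, h, rfl⟩ := h
  exact fmap_pos h hD hQ

theorem fside_mob (h : a * d - b * c = 1) (hz : 0 < z.im) (R : Fm) :
    fside R (mob a b c d z) = fside (fmap R a b c d) z / normSq (c * z + d) := by
  have h0 : normSq ((c : ℂ) * z + d) ≠ 0 := by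
    rw [Ne, normSq_eq_zero]
    exact den_ne (a := a) (b := b) (by omega) hz
  have h1 : normSq ((c : ℂ) * z + d) = (c * z.re + d) ^ 2 + (c * z.im) ^ 2 := by
    simp [normSq_apply, sq]
  simp only [fside, mob, map_div₀, div_re, fmap, fval]
  generalize normSq ((c : ℂ) * z + d) = N at h0 h1
  simp only [normSq_apply, add_re, add_im, mul_re, mul_im, intCast_re, intCast_im]
  push_cast
  field_simp
  rw [h1]
  ring

theorem froot_eq (Q : Fm) : froot Q =
    ((-Q.2.1 / (2 * Q.1) : ℝ) : ℂ) + ((√(-fdisc Q : ℝ) / (2 * Q.1) : ℝ) : ℂ) * I := by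
  rw [froot]
  push_cast
  ring

theorem re_froot (Q : Fm) : (froot Q).re = -Q.2.1 / (2 * Q.1) := by
  rw [froot_eq, add_re, ofReal_re, mul_I_re, ofReal_im, neg_zero, add_zero]

theorem im_froot (Q : Fm) : (froot Q).im = √(-fdisc Q : ℝ) / (2 * Q.1) := by
  rw [froot_eq, add_im, ofReal_im, mul_I_im, ofReal_re, zero_add]

theorem sqrt_disc_pos (hD : fdisc Q < 0) : 0 < √(-fdisc Q : ℝ) :=
  Real.sqrt_pos.2 (by exact_mod_cast neg_pos.2 hD)

theorem sq_sqrt_disc (hD : fdisc Q < 0) :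
    √(-fdisc Q : ℝ) ^ 2 = 4 * Q.1 * Q.2.2 - (Q.2.1 : ℝ) ^ 2 := by
  rw [Real.sq_sqrt (by exact_mod_cast (neg_pos.2 hD).le), fdisc]
  push_cast
  ring

theorem im_froot_pos (hD : fdisc Q < 0) (hQ : 0 < Q.1) : 0 < (froot Q).im := by
  rw [im_froot]
  have := sqrt_disc_pos hD
  positivity

theorem normSq_froot (hD : fdisc Q < 0) (hQ : 0 < Q.1) : normSq (froot Q) = Q.2.2 / Q.1 := by
  have h1 : (Q.1 : ℝ) ≠ 0 := by positivity
  rw [normSq_apply, re_froot, im_froot]
  field_simp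
  rw [sq_sqrt_disc hD]
  ring

theorem fside_froot (hD : fdisc Q < 0) (hQ : 0 < Q.1) (R : Fm) :
    fside R (froot Q) / (froot Q).im = -fbil Q R / √(-fdisc Q : ℝ) := by
  have h1 : (Q.1 : ℝ) ≠ 0 := by positivity
  have h2 := (sqrt_disc_pos hD).ne'
  rw [fside, normSq_froot hD hQ, re_froot, im_froot, fbil]
  push_cast
  field_simp
  ring

theorem froot_root (hD : fdisc Q < 0) (hQ : 0 < Q.1) :
    (Q.1 : ℂ) * froot Q ^ 2 + Q.2.1 * froot Q + Q.2.2 = 0 := by
  have h1 : (Q.1 : ℂ) ≠ 0 := by exact_mod_cast hQ.ne'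
  have h2 : ((√(-fdisc Q : ℝ) : ℝ) : ℂ) ^ 2 = 4 * Q.1 * Q.2.2 - (Q.2.1 : ℂ) ^ 2 := by
    exact_mod_cast congrArg (fun x : ℝ => (x : ℂ)) (sq_sqrt_disc hD)
  rw [froot]
  field_simp
  linear_combination (-1) * h2 + ((√(-fdisc Q : ℝ) : ℝ) : ℂ) ^ 2 * I_sq

theorem eq_froot (hD : fdisc Q < 0) (hQ : 0 < Q.1) (hz : 0 < z.im)
    (h : (Q.1 : ℂ) * z ^ 2 + Q.2.1 * z + Q.2.2 = 0) : z = froot Q := by
  have h1 := froot_root hD hQ
  have h2 : (z - froot Q) * (Q.1 * (z + froot Q) + Q.2.1) = 0 := by linear_combination h - h1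
  rcases mul_eq_zero.1 h2 with h3 | h3
  · exact sub_eq_zero.1 h3
  · have h4 := congrArg Complex.im h3
    have h5 := im_froot_pos hD hQ
    have h6 : (0 : ℝ) < Q.1 := by exact_mod_cast hQ
    simp only [add_im, mul_im, intCast_re, intCast_im, zero_mul, add_zero, zero_im] at h4
    nlinarith

theorem mob_froot (h : a * d - b * c = 1) (hD : fdisc Q < 0) (hQ : 0 < Q.1) :
    mob a b c d (froot (fmap Q a b c d)) = froot Q := by
  have hD' : fdisc (fmap Q a b c d) < 0 := by rwa [fdisc_fmap h]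
  have hQ' := fmap_pos h hD hQ
  have hz := im_froot_pos hD' hQ'
  have h1 := froot_root hD' hQ'
  generalize froot (fmap Q a b c d) = z at hz h1
  refine eq_froot hD hQ (im_mob_pos (by omega) hz) ?_
  have h0 := den_ne (a := a) (b := b) (c := c) (d := d) (by omega) hz
  simp only [fmap, fval] at h1
  push_cast at h1
  rw [mob]
  obtain ⟨u, hu⟩ : ∃ u, u = (c : ℂ) * z + d := ⟨_, rfl⟩
  rw [← hu] at h0 ⊢
  field_simp
  rw [hu]
  linear_combination h1

theorem froot_inj (hD : fdisc Q < 0) (hQ : 0 < Q.1) (hR : 0 < R.1) (h : fdisc R = fdisc Q)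
    (h' : froot R = froot Q) : R = Q := by
  have h1 : (Q.1 : ℝ) ≠ 0 := by positivity
  have h2 : (R.1 : ℝ) ≠ 0 := by positivity
  have h3 := congrArg Complex.im h'
  have h4 := congrArg Complex.re h'
  have h5 := (sqrt_disc_pos hD).ne'
  rw [im_froot, im_froot, h] at h3
  rw [re_froot, re_froot] at h4
  have e1 : R.1 = Q.1 := by
    field_simp at h3
    exact_mod_cast h3.symm
  rw [e1] at h4
  have e2 : R.2.1 = Q.2.1 := by
    field_simp at h4
    exact_mod_cast neg_injective h4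
  refine Prod.ext e1 (Prod.ext e2 ?_)
  rw [fdisc, fdisc, e1, e2] at h
  exact mul_left_cancel₀ (a := 4 * Q.1) (by omega) (by linarith)

/-- cosh of the hyperbolic distance to the root -/
theorem cosh_froot (hD : fdisc Q < 0) (hQ : 0 < Q.1) (hz : 0 < z.im) :
    1 + normSq (z - froot Q) / (2 * z.im * (froot Q).im) = fside Q z / z.im / √(-fdisc Q : ℝ) := by
  have h1 : (Q.1 : ℝ) ≠ 0 := by positivity
  have h2 := (sqrt_disc_pos hD).ne'
  have h3 := sq_sqrt_disc hD
  simp only [fside, normSq_apply, sub_re, sub_im, re_froot, im_froot]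
  generalize √(-fdisc Q : ℝ) = s at h2 h3
  field_simp
  linear_combination h3

theorem fbil_line (A k : ℤ) (R : Fm) :
    fbil (0, A, -k) R ^ 2 - A ^ 2 * fdisc R = 4 * R.1 * fval R k A := by
  simp only [fbil, fdisc, fval]
  ring

theorem finite_box (e : ℤ) (M : ℝ) :
    {R : Fm | fdisc R = e ∧ R.1 ≠ 0 ∧ |(R.1 : ℝ)| ≤ M ∧ |(R.2.1 : ℝ)| ≤ M}.Finite := by
  obtain ⟨N, hN⟩ := exists_int_gt M
  refine ((Set.finite_Icc (-N) N).prod ((Set.finite_Icc (-N) N).prod
    (Set.finite_Icc (-(N ^ 2 + |e|)) (N ^ 2 + |e|)))).subset ?_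
  rintro ⟨a, b, c⟩ ⟨h1, h2, h3, h4⟩
  simp only [fdisc] at h1 h2 h3 h4
  have h5 : |a| ≤ N := by exact_mod_cast (h3.trans hN.le)
  have h6 : |b| ≤ N := by exact_mod_cast (h4.trans hN.le)
  refine ⟨abs_le.1 h5, abs_le.1 h6, abs_le.1 ?_⟩
  have h7 : b ^ 2 ≤ N ^ 2 := sq_le_sq' (abs_le.1 h6).1 (abs_le.1 h6).2
  have h8 : |4 * a * c| ≤ N ^ 2 + |e| := by
    rw [show 4 * a * c = b ^ 2 - e by linarith]
    exact (abs_sub _ _).trans (by rw [abs_of_nonneg (sq_nonneg b)]; linarith)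
  rw [abs_mul, abs_mul] at h8
  have h9 : 1 ≤ |a| := Int.one_le_abs h2
  rw [show |(4 : ℤ)| = 4 from rfl] at h8
  change |c| ≤ _
  nlinarith [abs_nonneg c]

theorem four_mul_fside (R : Fm) (z : ℂ) :
    4 * R.1 * fside R z = (2 * R.1 * z.re + R.2.1) ^ 2 + 4 * R.1 ^ 2 * z.im ^ 2 - fdisc R := by
  simp only [fside, fdisc, normSq_apply]
  push_cast
  ring

/-- The first two coefficients are controlled by the side function. -/
theorem coef_le (e : ℤ) (hz : 0 < z.im) : ∃ K : ℝ, 0 < K ∧ ∀ R : Fm, fdisc R = e → R.1 ≠ 0 →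
    1 + |(R.1 : ℝ)| ≤ K * (1 + |fside R z|) ∧ 1 + |(R.2.1 : ℝ)| ≤ K * (1 + |fside R z|) := by
  set y := z.im
  set x := z.re
  set K₁ : ℝ := (1 + |(e : ℝ)|) / y ^ 2 with hK₁
  have hK₁0 : 0 < K₁ := by positivity
  refine ⟨1 + K₁ + 2 * |x| * K₁ + (1 + |(e : ℝ)| + 4 * K₁), by positivity, fun R h1 h2 => ?_⟩
  have h3 := four_mul_fside R z
  rw [h1] at h3
  have h4 : (1 : ℝ) ≤ |(R.1 : ℝ)| := by exact_mod_cast Int.one_le_abs h2
  generalize (R.1 : ℝ) = a at h3 h4
  generalize (R.2.1 : ℝ) = b at h3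
  generalize fside R z = f at h3
  have h5 : 4 * a * f ≤ 4 * |a| * |f| := by
    rw [mul_assoc, mul_assoc, ← abs_mul]
    linarith [le_abs_self (a * f)]
  have hf := abs_nonneg f
  have he := abs_nonneg (e : ℝ)
  have he' := le_abs_self (e : ℝ)
  have h6 : |a| ≤ K₁ * (1 + |f|) := by
    rw [hK₁, div_mul_eq_mul_div, le_div_iff₀ (by positivity)]
    have h7 : |a| * (|a| * y ^ 2) ≤ |a| * ((1 + |(e : ℝ)|) * (1 + |f|)) := by
      have : |a| * (|a| * y ^ 2) = a ^ 2 * y ^ 2 := by rw [← mul_assoc, abs_mul_abs_self]; ring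
      rw [this]
      nlinarith [sq_nonneg (2 * a * x + b), mul_nonneg he hf, mul_nonneg (mul_nonneg he hf) (abs_nonneg a)]
    exact le_of_mul_le_mul_left h7 (by linarith)
  have h8 : |2 * a * x + b| ≤ (1 + |(e : ℝ)| + 4 * K₁) * (1 + |f|) := by
    refine abs_le_of_sq_le_sq' ?_ (by positivity) |> abs_le.2
    have h9 : (2 * a * x + b) ^ 2 ≤ |(e : ℝ)| + 4 * (K₁ * (1 + |f|)) * |f| := by
      nlinarith [mul_nonneg (sq_nonneg a) (sq_nonneg y), mul_le_mul_of_nonneg_right h6 hf]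
    refine h9.trans ?_
    have h10 : (1 : ℝ) ≤ 1 + |f| := by linarith
    have h11 : |(e : ℝ)| + 4 * (K₁ * (1 + |f|)) * |f| ≤
        (1 + |(e : ℝ)| + 4 * K₁) * (1 + |f|) ^ 2 := by
      nlinarith [mul_nonneg he hf, mul_nonneg hK₁0.le hf, mul_nonneg he (sq_nonneg |f|)]
    refine h11.trans ?_
    rw [mul_pow]
    refine mul_le_mul_of_nonneg_right ?_ (sq_nonneg _)
    nlinarith
  have h12 : |b| ≤ |2 * a * x + b| + 2 * |x| * |a| := by
    have := abs_sub (2 * a * x + b) (2 * a * x)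
    rw [add_sub_cancel_left, abs_mul, abs_mul, abs_two] at this
    linarith
  have h13 := mul_le_mul_of_nonneg_left h6 (show 0 ≤ 2 * |x| by positivity)
  have h14 : 0 ≤ 2 * |x| * (K₁ * (1 + |f|)) := by positivity
  have h15 : 0 ≤ (1 + |(e : ℝ)| + 4 * K₁) * (1 + |f|) := by positivity
  have h16 : 0 ≤ K₁ * (1 + |f|) := by positivity
  constructor <;> nlinarith

theorem finite_side (e : ℤ) (hz : 0 < z.im) (C : ℝ) :
    {R : Fm | fdisc R = e ∧ R.1 ≠ 0 ∧ |fside R z| ≤ C}.Finite := by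
  obtain ⟨K, hK, H⟩ := coef_le e hz
  refine (finite_box e (K * (1 + C))).subset ?_
  rintro R ⟨h1, h2, h3⟩
  obtain ⟨h4, h5⟩ := H R h1 h2
  have := mul_le_mul_of_nonneg_left (add_le_add_right h3 1) hK.le
  exact ⟨h1, h2, by linarith, by linarith⟩

theorem finite_line (e : ℤ) {A : ℤ} (hA : A ≠ 0) (k : ℤ) (C : ℤ) :
    {R : Fm | fdisc R = e ∧ R.1 ≠ 0 ∧ fval R k A ≠ 0 ∧ |fbil (0, A, -k) R| ≤ C}.Finite := by
  set M : ℤ := C ^ 2 + |A ^ 2 * e| with hM
  refine (finite_box e ((M + (|C| + 2 * |k| * M) : ℤ) : ℝ)).subset ?_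
  rintro R ⟨h1, h2, h3, h4⟩
  have h5 := fbil_line A k R
  rw [h1] at h5
  have hM0 : 0 ≤ M := by positivity
  have h6 : |R.1| ≤ M := by
    have h7 : |4 * R.1 * fval R k A| ≤ M := by
      rw [← h5]
      refine (abs_sub _ _).trans ?_
      rw [abs_of_nonneg (sq_nonneg _)]
      have := sq_le_sq' (abs_le.1 h4).1 (abs_le.1 h4).2
      linarith
    rw [abs_mul, abs_mul] at h7
    rw [show |(4 : ℤ)| = 4 from rfl] at h7
    nlinarith [Int.one_le_abs h3, abs_nonneg R.1]
  have h8 : |R.2.1| ≤ |C| + 2 * |k| * M := by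
    have h9 : A * R.2.1 = fbil (0, A, -k) R - 2 * k * R.1 := by simp only [fbil]; ring
    have h10 := abs_sub (fbil (0, A, -k) R) (2 * k * R.1)
    rw [← h9, abs_mul, abs_mul, abs_mul, abs_two] at h10
    have := mul_le_mul_of_nonneg_left h6 (show 0 ≤ 2 * |k| by positivity)
    nlinarith [Int.one_le_abs hA, abs_nonneg R.2.1, le_abs_self C]
  have h11 : 0 ≤ |C| + 2 * |k| * M := by positivity
  refine ⟨h1, h2, ?_, ?_⟩
  · exact_mod_cast (show |R.1| ≤ M + (|C| + 2 * |k| * M) by linarith)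
  · exact_mod_cast (show |R.2.1| ≤ M + (|C| + 2 * |k| * M) by linarith)

lemma fdivisor_bound {ε : ℝ} (hε : 0 < ε) :
    ∃ C : ℝ, 1 ≤ C ∧ ∀ n : ℕ, n ≠ 0 → (n.divisors.card : ℝ) ≤ C * (n : ℝ) ^ ε := by
  have hl : 0 < Real.log 2 := Real.log_pos (by norm_num)
  set c : ℝ := 1 + 1 / (ε * Real.log 2) with hc
  have hc1 : 1 ≤ c := by rw [hc]; have : 0 < 1 / (ε * Real.log 2) := by positivity
                         linarith
  set L : ℕ := ⌈(2 : ℝ) ^ (1 / ε)⌉₊ with hL
  refine ⟨c ^ L, one_le_pow₀ hc1, fun n hn => ?_⟩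
  have key : ∀ p ∈ n.primeFactors, ((n.factorization p + 1 : ℕ) : ℝ) ≤
      (if p < L then c else 1) * (((p : ℝ) ^ n.factorization p) ^ ε) := by
    intro p hp
    have hp2 : (2 : ℝ) ≤ p := by exact_mod_cast (Nat.prime_of_mem_primeFactors hp).two_le
    set a := n.factorization p
    have ha0 : (0 : ℝ) ≤ a := Nat.cast_nonneg a
    split_ifs with h
    · have h1 : ((2 : ℝ) ^ a) ^ ε ≤ ((p : ℝ) ^ a) ^ ε := by gcongr
      have h2 : 1 + a * (ε * Real.log 2) ≤ ((2 : ℝ) ^ a) ^ ε := by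
        rw [Real.rpow_def_of_pos (by positivity), Real.log_pow]
        have := Real.add_one_le_exp (a * Real.log 2 * ε)
        nlinarith
      have h3 : ((a + 1 : ℕ) : ℝ) ≤ c * (1 + a * (ε * Real.log 2)) := by
        have hx : 0 < ε * Real.log 2 := by positivity
        have : c * (1 + a * (ε * Real.log 2)) =
            1 + a * (ε * Real.log 2) + 1 / (ε * Real.log 2) + a := by rw [hc]; field_simp; ring
        rw [this]; push_cast
        have : 0 < 1 / (ε * Real.log 2) := by positivity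
        nlinarith [mul_nonneg ha0 hx.le]
      exact h3.trans (mul_le_mul_of_nonneg_left (h2.trans h1) (by linarith))
    · have h1 : (2 : ℝ) ^ (1 / ε) ≤ p := by
        have : (L : ℝ) ≤ p := by exact_mod_cast not_lt.mp h
        exact (Nat.le_ceil _).trans this
      have h2 : (2 : ℝ) ≤ (p : ℝ) ^ ε := by
        have := Real.rpow_le_rpow (by positivity) h1 hε.le
        rwa [← Real.rpow_mul (by norm_num), one_div_mul_cancel hε.ne', Real.rpow_one] at this
      have h3 : ((p : ℝ) ^ a) ^ ε = ((p : ℝ) ^ ε) ^ a := by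
        rw [← Real.rpow_natCast, ← Real.rpow_natCast, ← Real.rpow_mul (by positivity),
          ← Real.rpow_mul (by positivity), mul_comm]
      rw [one_mul, h3]
      have h4 : ((a + 1 : ℕ) : ℝ) ≤ 2 ^ a := by exact_mod_cast Nat.lt_two_pow_self
      exact h4.trans (pow_le_pow_left₀ (by norm_num) h2 a)
  rw [Nat.card_divisors hn, Nat.cast_prod]
  refine (Finset.prod_le_prod (fun p _ => by positivity) key).trans ?_
  rw [Finset.prod_mul_distrib, Real.finsetProd_rpow _ _ (fun p _ => by positivity)]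
  have h5 : ∏ p ∈ n.primeFactors, (p : ℝ) ^ n.factorization p = n := by
    have := Nat.prod_factorization_pow_eq_self hn
    rw [Finsupp.prod, Nat.support_factorization] at this
    exact_mod_cast this
  rw [h5]
  refine mul_le_mul_of_nonneg_right ?_ (by positivity)
  rw [← Finset.prod_filter, Finset.prod_const]
  refine pow_le_pow_right₀ hc1 ?_
  calc (n.primeFactors.filter fun p => p < L).card ≤ (Finset.range L).card :=
        Finset.card_le_card fun p hp => Finset.mem_range.mpr (Finset.mem_filter.mp hp).2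
    _ = L := Finset.card_range L

lemma summable_of_injOn {α β : Type*} {f : α → ℝ} {g : β → ℝ} (i : α → β) (hg : Summable g)
    (hg0 : ∀ b, 0 ≤ g b) (hf0 : ∀ a, 0 ≤ f a) (hi : InjOn i (Function.support f))
    (hle : ∀ a, f a ≤ g (i a)) : Summable f := by
  classical
  refine summable_of_sum_le hf0 (c := ∑' b, g b) fun s => ?_
  rw [← Finset.sum_filter_ne_zero]
  refine (Finset.sum_le_sum fun a _ => hle a).trans ?_
  rw [← Finset.sum_image (s := s.filter fun a => f a ≠ 0) (g := i) (f := g) fun x hx y hy =>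
    hi (Finset.mem_filter.1 hx).2 (Finset.mem_filter.1 hy).2]
  exact hg.sum_le_tsum _ fun b _ => hg0 b

lemma summable_one_add {s : ℝ} (hs : s < -1) : Summable fun t : ℤ => (1 + |(t : ℝ)|) ^ s := by
  have h1 : Summable fun n : ℕ => (1 + (n : ℝ)) ^ s := by
    have := (summable_nat_add_iff 1).2 (Real.summable_nat_rpow.2 hs)
    simpa [add_comm] using this
  exact Summable.of_nat_of_neg (by simpa using h1) (by simpa using h1)

lemma summable_dvd {ε : ℝ} (hε : 0 < ε) (n : ℤ) : Summable fun p : ℤ × ℤ =>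
    if p.1 ^ 2 - n ≠ 0 ∧ p.2 ∣ p.1 ^ 2 - n then (1 + |(p.1 : ℝ)|) ^ (-1 - ε) else 0 := by
  classical
  obtain ⟨C, hC, H⟩ := fdivisor_bound (ε := ε / 4) (by positivity)
  let S : ℤ → Finset ℤ := fun m =>
    m.natAbs.divisors.image (fun x : ℕ => (x : ℤ)) ∪ m.natAbs.divisors.image (fun x : ℕ => -(x : ℤ))
  have hS : ∀ t a : ℤ, a ∉ S (t ^ 2 - n) →
      (if t ^ 2 - n ≠ 0 ∧ a ∣ t ^ 2 - n then (1 + |(t : ℝ)|) ^ (-1 - ε) else 0) = 0 := by
    intro t a ha
    rw [if_neg]
    rintro ⟨h1, h2⟩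
    apply ha
    have h3 : a.natAbs ∈ (t ^ 2 - n).natAbs.divisors :=
      Nat.mem_divisors.2 ⟨Int.natAbs_dvd_natAbs.2 h2, Int.natAbs_ne_zero.2 h1⟩
    rcases Int.natAbs_eq a with h | h
    · exact Finset.mem_union_left _ (Finset.mem_image.2 ⟨_, h3, h.symm⟩)
    · exact Finset.mem_union_right _ (Finset.mem_image.2 ⟨_, h3, h.symm⟩)
  rw [summable_prod_of_nonneg fun p => by dsimp only; split_ifs <;> positivity]
  refine ⟨fun t => summable_of_ne_finset_zero (hS t), ?_⟩
  refine Summable.of_nonneg_of_le (fun t => tsum_nonneg fun a => by split_ifs <;> positivity)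
    (fun t => ?_) ((summable_one_add (s := -1 - ε / 2) (by linarith)).mul_left
      (2 * C * (1 + |(n : ℝ)|) ^ (ε / 4)))
  rw [tsum_eq_sum (hS t)]
  rcases eq_or_ne (t ^ 2 - n) 0 with h0 | h0
  · simp only [h0, ne_eq, not_true_eq_false, false_and, if_false, Finset.sum_const_zero]
    positivity
  have h1 : ((S (t ^ 2 - n)).card : ℝ) ≤ 2 * (C * ((t ^ 2 - n).natAbs : ℝ) ^ (ε / 4)) := by
    have h2 : (S (t ^ 2 - n)).card ≤ 2 * (t ^ 2 - n).natAbs.divisors.card := by
      refine (Finset.card_union_le _ _).trans ?_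
      rw [two_mul]
      exact add_le_add Finset.card_image_le Finset.card_image_le
    have h3 := H _ (Int.natAbs_ne_zero.2 h0)
    have h4 : ((S (t ^ 2 - n)).card : ℝ) ≤ 2 * ((t ^ 2 - n).natAbs.divisors.card : ℝ) := by
      exact_mod_cast h2
    linarith
  have h5 : ((t ^ 2 - n).natAbs : ℝ) ≤ (1 + |(n : ℝ)|) * (1 + |(t : ℝ)|) ^ (2 : ℝ) := by
    rw [Nat.cast_natAbs, Real.rpow_two]
    push_cast
    refine (abs_sub _ _).trans ?_
    rw [abs_pow]
    have := abs_nonneg (t : ℝ)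
    have := abs_nonneg (n : ℝ)
    nlinarith [mul_nonneg (abs_nonneg (t : ℝ)) (abs_nonneg (n : ℝ)),
      mul_nonneg (sq_nonneg |(t : ℝ)|) (abs_nonneg (n : ℝ))]
  have h6 := Real.rpow_le_rpow (by positivity) h5 (show 0 ≤ ε / 4 by positivity)
  rw [Real.mul_rpow (by positivity) (by positivity), ← Real.rpow_mul (by positivity)] at h6
  have h7 : (1 + |(t : ℝ)|) ^ (-1 - ε / 2) =
      (1 + |(t : ℝ)|) ^ (2 * (ε / 4)) * (1 + |(t : ℝ)|) ^ (-1 - ε) := by
    rw [← Real.rpow_add (by positivity)]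
    congr 1
    ring
  refine (Finset.sum_le_card_nsmul _ _ ((1 + |(t : ℝ)|) ^ (-1 - ε)) fun a _ => by
    split_ifs
    · exact le_rfl
    · positivity).trans ?_
  rw [nsmul_eq_mul, h7, ← mul_assoc]
  refine mul_le_mul_of_nonneg_right (h1.trans ?_) (by positivity)
  have := mul_le_mul_of_nonneg_left h6 (show 0 ≤ 2 * C by positivity)
  linarith

lemma rpow_le_of_le {K u v s : ℝ} (hK : 0 < K) (hu : 0 < u) (hv : 0 < v) (h : u ≤ K * v)
    (hs : s ≤ 0) : v ^ s ≤ K ^ (-s) * u ^ s := by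
  have h1 := Real.rpow_le_rpow_of_nonpos hu h hs
  rw [Real.mul_rpow hK.le hv.le] at h1
  rw [Real.rpow_neg hK.le, ← div_eq_inv_mul, le_div_iff₀ (by positivity)]
  linarith

theorem summable_side (e : ℤ) (hz : 0 < z.im) {ε : ℝ} (hε : 0 < ε) : Summable fun R : Fm =>
    if fdisc R = e ∧ R.1 ≠ 0 then (1 + |fside R z|) ^ (-1 - ε) else 0 := by
  obtain ⟨K, hK, H⟩ := coef_le e hz
  have h1 : Summable fun b : ℤ => if b ^ 2 - e = 0 then (1 : ℝ) else 0 := by
    refine summable_of_ne_finset_zero (s := Finset.Icc (-e) e) fun b hb => if_neg fun h => hb ?_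
    rw [Finset.mem_Icc]
    constructor <;> nlinarith [sq_nonneg (b - 1), sq_nonneg (b + 1), sq_nonneg b]
  have h2 := h1.mul_of_nonneg (summable_one_add (s := -1 - ε) (by linarith))
    (fun b => by dsimp only; split_ifs <;> positivity) (fun a => by positivity)
  refine summable_of_injOn (fun R => (R.2.1, R.1))
    (((summable_dvd hε e).add h2).mul_left (K ^ (-(-1 - ε))))
    (fun p => by split_ifs <;> positivity) (fun R => by split_ifs <;> positivity) ?_ fun R => ?_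
  · intro R hR R' hR' h
    have h3 : fdisc R = e ∧ R.1 ≠ 0 := by by_contra h'; exact hR (if_neg h')
    have h4 : fdisc R' = e ∧ R'.1 ≠ 0 := by by_contra h'; exact hR' (if_neg h')
    obtain ⟨e1, e2⟩ := Prod.ext_iff.1 h
    dsimp only at e1 e2
    refine Prod.ext e2 (Prod.ext e1 ?_)
    have h5 := h3.1.trans h4.1.symm
    rw [fdisc, fdisc, ← e1, ← e2] at h5
    exact mul_left_cancel₀ (a := 4 * R.1) (mul_ne_zero (by norm_num) h3.2) (by linarith)
  · by_cases h : fdisc R = e ∧ R.1 ≠ 0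
    · obtain ⟨h4, h5⟩ := H R h.1 h.2
      rw [if_pos h]
      dsimp only
      by_cases h6 : R.2.1 ^ 2 - e = 0
      · rw [if_neg fun h' => h'.1 h6, if_pos h6, zero_add, one_mul]
        exact rpow_le_of_le hK (by positivity) (by positivity) h4 (by linarith)
      · rw [if_pos ⟨h6, 4 * R.2.2, by rw [← h.1, fdisc]; ring⟩, if_neg h6, zero_mul, add_zero]
        exact rpow_le_of_le hK (by positivity) (by positivity) h5 (by linarith)
    · rw [if_neg h]
      split_ifs <;> positivity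

theorem summable_line (e : ℤ) {A : ℤ} (hA : A ≠ 0) (k : ℤ) {ε : ℝ} (hε : 0 < ε) :
    Summable fun R : Fm => if fdisc R = e ∧ R.1 ≠ 0 ∧ fval R k A ≠ 0 then
      (1 + |(fbil (0, A, -k) R : ℝ)|) ^ (-1 - ε) else 0 := by
  refine summable_of_injOn (fun R => (fbil (0, A, -k) R, R.1)) (summable_dvd hε (A ^ 2 * e))
    (fun p => by split_ifs <;> positivity) (fun R => by split_ifs <;> positivity) ?_ fun R => ?_
  · intro R hR R' hR' h
    have h3 : fdisc R = e ∧ R.1 ≠ 0 ∧ fval R k A ≠ 0 := by by_contra h'; exact hR (if_neg h')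
    have h4 : fdisc R' = e ∧ R'.1 ≠ 0 ∧ fval R' k A ≠ 0 := by by_contra h'; exact hR' (if_neg h')
    obtain ⟨e1, e2⟩ := Prod.ext_iff.1 h
    simp only [fbil] at e1 e2
    rw [← e2] at e1
    have e3 : R.2.1 = R'.2.1 := mul_left_cancel₀ hA (by linarith)
    refine Prod.ext e2 (Prod.ext e3 ?_)
    have h5 := h3.1.trans h4.1.symm
    rw [fdisc, fdisc, ← e2, ← e3] at h5
    exact mul_left_cancel₀ (a := 4 * R.1) (mul_ne_zero (by norm_num) h3.2.1) (by linarith)
  · by_cases h : fdisc R = e ∧ R.1 ≠ 0 ∧ fval R k A ≠ 0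
    · have h5 := fbil_line A k R
      rw [h.1] at h5
      rw [if_pos h]
      dsimp only
      rw [if_pos]
      rw [h5]
      exact ⟨mul_ne_zero (mul_ne_zero (by norm_num) h.2.1) h.2.2, 4 * fval R k A, by ring⟩
    · rw [if_neg h]
      split_ifs <;> positivity

lemma sign_eq_of_mul_pos {u v : ℝ} (h : 0 < u * v) : Real.sign u = Real.sign v := by
  rcases pos_and_pos_or_neg_and_neg_of_mul_pos h with h | h
  · rw [Real.sign_of_pos h.1, Real.sign_of_pos h.2]
  · rw [Real.sign_of_neg h.1, Real.sign_of_neg h.2]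

/-- locally uniform finiteness -/
theorem finite_above (e : ℤ) (C : ℝ) {δ : ℝ} (hδ : 0 < δ) : {R : Fm | fdisc R = e ∧ R.1 ≠ 0 ∧
    ∃ z : ℂ, |z.re| ≤ C ∧ δ ≤ z.im ∧ Real.sign R.1 ≠ Real.sign (fside R z)}.Finite := by
  set s : ℝ := 1 + |(e : ℝ)| with hs
  refine (finite_box e (s / δ + (s + 2 * (s / δ) * |C|))).subset ?_
  rintro R ⟨h1, h2, z, h3, h4, h5⟩
  have h6 : R.1 * fside R z ≤ 0 := not_lt.1 fun h => h5 (sign_eq_of_mul_pos h)
  have h7 := four_mul_fside R z
  rw [h1] at h7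
  refine ⟨h1, h2, ?_⟩
  generalize (R.1 : ℝ) = a at h6 h7
  generalize (R.2.1 : ℝ) = b at h7
  have he := abs_nonneg (e : ℝ)
  have he' : (e : ℝ) ≤ s ^ 2 := by nlinarith [le_abs_self (e : ℝ)]
  have hs0 : 0 < s := by positivity
  have h8 : |a| ≤ s / δ := by
    rw [le_div_iff₀ hδ]
    refine (mul_le_mul_of_nonneg_left h4 (abs_nonneg a)).trans ?_
    refine le_of_sq_le_sq ?_ hs0.le
    rw [mul_pow, sq_abs]
    nlinarith [sq_nonneg (2 * a * z.re + b), mul_nonneg (sq_nonneg a) (sq_nonneg z.im)]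
  have h9 : |2 * a * z.re + b| ≤ s := by
    refine abs_le_of_sq_le_sq' ?_ hs0.le |> abs_le.2
    nlinarith [mul_nonneg (sq_nonneg a) (sq_nonneg z.im)]
  have h10 : |b| ≤ |2 * a * z.re + b| + 2 * |a| * |z.re| := by
    have := abs_sub (2 * a * z.re + b) (2 * a * z.re)
    rwa [add_sub_cancel_left, abs_mul, abs_mul, abs_two] at this
  have h11 : 2 * |a| * |z.re| ≤ 2 * (s / δ) * |C| :=
    mul_le_mul (by linarith) (h3.trans (le_abs_self C)) (abs_nonneg _) (by positivity)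
  have h12 : 0 ≤ s / δ := by positivity
  have h13 : 0 ≤ 2 * (s / δ) * |C| := by positivity
  constructor <;> linarith

end F

end Pool.Agent.Lib.MP_696deb_nt
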