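import Pool.Agent.Lib.MP_696deb_nt.SymDefs

set_option autoImplicit false

open Finset NumberTheorySymbols

namespace Pool.Agent.Lib.MP_696deb_nt

/-- The arithmetic function attached to a completely multiplicative function. -/
def toAF (f : ℕ →* ℤ) : ArithmeticFunction ℤ := ⟨fun x => if x = 0 then 0 else f x, by simp⟩

theorem toAF_apply (f : ℕ →* ℤ) {x : ℕ} (hx : x ≠ 0) : toAF f x = f x := by simp [toAF, hx]

theorem toAF_mult (f : ℕ →* ℤ) : (toAF f).IsMultiplicative := by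
  refine ⟨by simp [toAF], fun {m n} _ => ?_⟩
  rcases eq_or_ne m 0 with rfl | hm
  · simp
  rcases eq_or_ne n 0 with rfl | hn
  · simp
  rw [toAF_apply _ hm, toAF_apply _ hn, toAF_apply _ (mul_ne_zero hm hn), map_mul]

theorem toAF_mul_apply (f g : ℕ →* ℤ) (k : ℕ) :
    (toAF f * toAF g) k = ∑ x ∈ k.divisorsAntidiagonal, f x.1 * g x.2 := by
  rw [ArithmeticFunction.mul_apply]
  refine sum_congr rfl fun x hx => ?_
  rw [toAF_apply _ (Nat.left_ne_zero_of_mem_divisorsAntidiagonal hx),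
    toAF_apply _ (Nat.right_ne_zero_of_mem_divisorsAntidiagonal hx)]

theorem conv_prime_pow (f g : ℕ →* ℤ) {q : ℕ} (hq : q.Prime) (i : ℕ) :
    (toAF f * toAF g) (q ^ i) = ∑ j ∈ range (i + 1), f q ^ j * g q ^ (i - j) := by
  rw [toAF_mul_apply, Nat.sum_divisorsAntidiagonal fun x y => f x * g y,
    Nat.sum_divisors_prime_pow hq]
  refine sum_congr rfl fun j hj => ?_
  rw [Nat.pow_div (by simpa [Nat.lt_succ_iff] using hj) hq.pos, map_pow, map_pow]

theorem conv_eq (f g f' g' : ℕ →* ℤ)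
    (h : ∀ q : ℕ, q.Prime → (f q = f' q ∧ g q = g' q) ∨ (f q = g' q ∧ g q = f' q)) (k : ℕ) :
    ∑ x ∈ k.divisorsAntidiagonal, f x.1 * g x.2 =
      ∑ x ∈ k.divisorsAntidiagonal, f' x.1 * g' x.2 := by
  rw [← toAF_mul_apply, ← toAF_mul_apply]
  congr 1
  rw [ArithmeticFunction.IsMultiplicative.eq_iff_eq_on_prime_powers _
    ((toAF_mult f).mul (toAF_mult g)) _ ((toAF_mult f').mul (toAF_mult g'))]
  intro q i hq
  rcases h q hq with ⟨h1, h2⟩ | ⟨h1, h2⟩
  · rw [conv_prime_pow _ _ hq, conv_prime_pow _ _ hq, h1, h2]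
  · rw [mul_comm (toAF f'), conv_prime_pow _ _ hq, conv_prime_pow _ _ hq, h1, h2]

theorem jac_prod (a : ℤ) {S : Finset ℕ} (hS : ∀ p ∈ S, p ≠ 0) :
    J(a | ∏ p ∈ S, p) = ∏ p ∈ S, J(a | p) := by
  induction S using Finset.induction_on with
  | empty => simp
  | insert p S hp ih =>
    rw [prod_insert hp, prod_insert hp, jacobiSym.mul_right' _ (hS p (mem_insert_self _ _))
      (prod_ne_zero_iff.mpr fun q hq => hS q (mem_insert_of_mem hq)),
      ih fun q hq => hS q (mem_insert_of_mem hq)]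

theorem jac_eq_prod (a : ℤ) {n : ℕ} (hn : Squarefree n) :
    J(a | n) = ∏ p ∈ n.primeFactors, J(a | p) := by
  conv_lhs => rw [← Nat.prod_primeFactors_of_squarefree hn]
  exact jac_prod a fun p hp => (Nat.prime_of_mem_primeFactors hp).ne_zero

theorem jac_zero_of_dvd {p : ℕ} (hp : p.Prime) {a : ℤ} (h : (p : ℤ) ∣ a) : J(a | p) = 0 := by
  rw [jacobiSym.mod_left, Int.emod_eq_zero_of_dvd h, jacobiSym.zero_left hp.one_lt]

/-- Quadratic reciprocity for a ramified prime. -/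
theorem hil_self_eq {n q : ℕ} (hn : Good n) (hq : q ∈ n.primeFactors) :
    hil n q q = ∏ p ∈ n.primeFactors.erase q, J((q : ℤ) | p) := by
  have hq' := Nat.prime_of_mem_primeFactors hq
  obtain ⟨m, rfl⟩ := Nat.dvd_of_mem_primeFactors hq
  have hm : Squarefree m := hn.sqf.of_mul_right
  have hc : Nat.Coprime q m := Nat.coprime_of_squarefree_mul hn.sqf
  have e : (q * m).primeFactors.erase q = m.primeFactors := by
    rw [hc.primeFactors_mul, hq'.primeFactors, ← insert_eq, erase_insert]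
    intro h
    exact hq'.one_lt.ne' (hc.eq_one_of_dvd (Nat.dvd_of_mem_primeFactors h))
  rw [hil_self hq', Nat.mul_div_cancel_left _ hq'.pos, e, ← jac_eq_prod _ hm]
  have h4 := hn.mod4
  have hodd : Odd (q * m) := Nat.odd_iff.mpr (by omega)
  have ho1 := (Nat.odd_mul.mp hodd).1
  have ho2 := (Nat.odd_mul.mp hodd).2
  by_cases h1 : q % 4 = 1
  · exact (jacobiSym.quadratic_reciprocity_one_mod_four h1 ho2).symm
  · have h2 : m % 4 = 1 := by
      have h3 : q % 4 = 3 := by have := Nat.odd_iff.mp ho1; omega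
      have h5 := Nat.odd_iff.mp ho2
      rw [Nat.mul_mod, h3] at h4
      omega
    exact jacobiSym.quadratic_reciprocity_one_mod_four h2 ho1

def jacHom (T : Finset ℕ) : ℕ →* ℤ where
  toFun x := ∏ p ∈ T, J((x : ℤ) | p)
  map_one' := by simp
  map_mul' x y := by simp [jacobiSym.mul_left, prod_mul_distrib]

def hilHom (n : ℕ) (T : Finset ℕ) (hT : ∀ p ∈ T, p.Prime) : ℕ →* ℤ where
  toFun x := hilS n T x
  map_one' := prod_eq_one fun p hp => by simpa using hil_one (hT p hp)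
  map_mul' x y := by simpa using hilS_mul hT x y

theorem not_dvd_of_prime_ne {p q : ℕ} (hp : p.Prime) (hq : q.Prime) (h : p ≠ q) :
    ¬ (p : ℤ) ∣ (q : ℤ) := fun h1 =>
  h ((Nat.prime_dvd_prime_iff_eq hp hq).mp (Int.natCast_dvd_natCast.mp h1))

theorem prod_jac_sq {T : Finset ℕ} (hT : ∀ p ∈ T, p.Prime) {a : ℤ} (h : ∀ p ∈ T, ¬ (p : ℤ) ∣ a) :
    (∏ p ∈ T, J(a | p)) * ∏ p ∈ T, J(a | p) = 1 := by
  rw [← prod_mul_distrib]
  exact prod_eq_one fun p hp => by rw [← sq, jac_sq (hT p hp) (h p hp)]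

/-- Genus characters are determined by the norm. -/
theorem twisted_conv {n : ℕ} (hn : Good n) {T : Finset ℕ} (hT : T ⊆ n.primeFactors) (k : ℕ) :
    ∑ x ∈ k.divisorsAntidiagonal,
      (∏ p ∈ n.primeFactors \ T, J((x.1 : ℤ) | p)) * ∏ p ∈ T, J((x.2 : ℤ) | p) =
      hilS n T k * rr n k := by
  have hR : ∀ p ∈ n.primeFactors, p.Prime := fun p hp => Nat.prime_of_mem_primeFactors hp
  have hT' : ∀ p ∈ T, p.Prime := fun p hp => hR p (hT hp)
  have h := conv_eq (jacHom (n.primeFactors \ T)) (jacHom T)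
    (hilHom n T hT' * jacHom n.primeFactors) (hilHom n T hT') ?_ k
  · refine h.trans ?_
    rw [rr, ← Nat.sum_divisorsAntidiagonal fun x _ => J((x : ℤ) | n), mul_sum]
    refine sum_congr rfl fun x hx => ?_
    rw [← (Nat.mem_divisorsAntidiagonal.mp hx).1, jac_eq_prod _ hn.sqf, Nat.cast_mul, hilS_mul hT']
    simp only [MonoidHom.mul_apply, hilHom, jacHom, MonoidHom.coe_mk, OneHom.coe_mk]
    ring
  intro q hq
  simp only [MonoidHom.mul_apply, hilHom, jacHom, MonoidHom.coe_mk, OneHom.coe_mk]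
  have hz : ∀ U : Finset ℕ, q ∈ U → ∏ p ∈ U, J((q : ℤ) | p) = 0 := fun U hU =>
    prod_eq_zero hU (jac_zero_of_dvd hq dvd_rfl)
  by_cases hqT : q ∈ T
  · right
    refine ⟨?_, by rw [hz _ hqT, hz _ (hT hqT), mul_zero]⟩
    have e : n.primeFactors.erase q = n.primeFactors \ T ∪ T.erase q := by
      ext p
      simp only [mem_erase, mem_union, mem_sdiff]
      constructor
      · rintro ⟨h1, h2⟩
        by_cases h3 : p ∈ T
        · exact Or.inr ⟨h1, h3⟩
        · exact Or.inl ⟨h2, h3⟩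
      · rintro (⟨h1, h2⟩ | ⟨h1, h2⟩)
        · exact ⟨fun h => h2 (h ▸ hqT), h1⟩
        · exact ⟨h1, hT h2⟩
    have h1 : ∏ p ∈ T.erase q, hil n p q = ∏ p ∈ T.erase q, J((q : ℤ) | p) :=
      prod_congr rfl fun p hp => hil_of_not_dvd (hT' p (mem_of_mem_erase hp))
        (not_dvd_of_prime_ne (hT' p (mem_of_mem_erase hp)) hq (ne_of_mem_erase hp))
    rw [hilS, ← mul_prod_erase _ _ hqT, hil_self_eq hn (hT hqT), e,
      prod_union (sdiff_disjoint.mono_right (erase_subset _ _)), h1, mul_assoc,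
      prod_jac_sq (fun p hp => hT' p (mem_of_mem_erase hp)) fun p hp =>
        not_dvd_of_prime_ne (hT' p (mem_of_mem_erase hp)) hq (ne_of_mem_erase hp), mul_one]
  · left
    have h0 : ∀ p ∈ T, ¬ (p : ℤ) ∣ (q : ℤ) := fun p hp =>
      not_dvd_of_prime_ne (hT' p hp) hq fun h => hqT (h ▸ hp)
    have h1 : hilS n T q = ∏ p ∈ T, J((q : ℤ) | p) :=
      prod_congr rfl fun p hp => hil_of_not_dvd (hT' p hp) (h0 p hp)
    refine ⟨?_, h1.symm⟩
    rw [h1, ← prod_sdiff hT, mul_left_comm, prod_jac_sq hT' h0, mul_one]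

theorem hilS_compl {n : ℕ} (hn : Good n) {T : Finset ℕ} (hT : T ⊆ n.primeFactors) (k : ℕ) :
    hilS n (n.primeFactors \ T) k * rr n k = hilS n T k * rr n k := by
  rw [← twisted_conv hn hT, ← twisted_conv hn sdiff_subset, Finset.sdiff_sdiff_eq_self hT]
  conv_lhs => rw [← Nat.map_swap_divisorsAntidiagonal, sum_map]
  exact sum_congr rfl fun x _ => mul_comm _ _

theorem Sig_compl {n m : ℕ} (hn : Good n) {S : Finset ℕ} (hS : S ⊆ n.primeFactors) :
    Sig n m (n.primeFactors \ S) = Sig n m S := by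
  refine sum_congr rfl fun q _ => ?_
  linear_combination (rr n q.1 * epsP n (q.1 * q.2)) * hilS_compl hn hS q.2

/-- The character value attached to the ratio of two vectors that are proportional modulo `n`. -/
def KK (n : ℕ) (x y z w : ℤ) : ℤ :=
  ∑ k ∈ range n, if (n : ℤ) ∣ x * k - y ∧ (n : ℤ) ∣ z * k - w then J((k : ℤ) | n) else 0

theorem KK_eq_prod {n : ℕ} (hn : Squarefree n) {x y z w : ℤ} (hd : (n : ℤ) ∣ x * w - y * z)
    (h : ∀ p ∈ n.primeFactors, ¬ ((p : ℤ) ∣ x ∧ (p : ℤ) ∣ y ∧ (p : ℤ) ∣ z ∧ (p : ℤ) ∣ w)) :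
    KK n x y z w =
      ∏ p ∈ n.primeFactors, if (p : ℤ) ∣ x then J(z * w | p) else J(x * y | p) := by
  have hn0 : (0 : ℤ) < n := by exact_mod_cast Nat.pos_of_ne_zero hn.ne_zero
  by_cases h1 : ∃ p ∈ n.primeFactors, (p : ℤ) ∣ x ∧ (p : ℤ) ∣ z
  · obtain ⟨p, hp, hx, hz⟩ := h1
    have hpn : (p : ℤ) ∣ n := Int.natCast_dvd_natCast.mpr (Nat.dvd_of_mem_primeFactors hp)
    rw [prod_eq_zero hp (by
      rw [if_pos hx, jac_zero_of_dvd (Nat.prime_of_mem_primeFactors hp) (hz.mul_right _)])]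
    refine sum_eq_zero fun k _ => if_neg fun hk => h p hp ⟨hx, ?_, hz, ?_⟩
    · exact (dvd_sub_right (hx.mul_right _)).mp (hpn.trans hk.1)
    · exact (dvd_sub_right (hz.mul_right _)).mp (hpn.trans hk.2)
  · have hc : IsCoprime ((Int.gcd x z : ℕ) : ℤ) n := by
      rw [Nat.isCoprime_iff_coprime]
      refine Nat.coprime_of_dvd fun p hp h2 h3 => h1 ⟨p, ?_, ?_, ?_⟩
      · exact Nat.mem_primeFactors.mpr ⟨hp, h3, hn.ne_zero⟩
      · exact (Int.natCast_dvd_natCast.mpr h2).trans (Int.gcd_dvd_left _ _)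
      · exact (Int.natCast_dvd_natCast.mpr h2).trans (Int.gcd_dvd_right _ _)
    obtain ⟨u, v, huv⟩ := hc
    rw [Int.gcd_eq_gcd_ab] at huv
    obtain ⟨e, he⟩ := hd
    set i := u * x.gcdA z
    set j := u * x.gcdB z
    have hij : i * x + j * z + v * n = 1 := by rw [← huv]; ring
    have h2 := Int.emod_nonneg (i * y + j * w) hn0.ne'
    have h3 := Int.emod_lt_of_pos (i * y + j * w) hn0
    have h4 := Int.mul_ediv_add_emod (i * y + j * w) n
    obtain ⟨k0, hk0⟩ := Int.eq_ofNat_of_zero_le h2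
    rw [hk0] at h3 h4
    set t := (i * y + j * w) / n
    have h5 : (n : ℤ) ∣ x * k0 - y :=
      ⟨j * e - y * v - x * t, by linear_combination x * h4 + y * hij + j * he⟩
    have h6 : (n : ℤ) ∣ z * k0 - w :=
      ⟨-i * e - w * v - z * t, by linear_combination z * h4 + w * hij - i * he⟩
    rw [KK, sum_eq_single_of_mem k0 (mem_range.mpr (by exact_mod_cast h3)), if_pos ⟨h5, h6⟩,
      jac_eq_prod _ hn]
    · refine prod_congr rfl fun p hp => ?_
      have hp' := Nat.prime_of_mem_primeFactors hp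
      have hpn : (p : ℤ) ∣ n := Int.natCast_dvd_natCast.mpr (Nat.dvd_of_mem_primeFactors hp)
      have key : ∀ a b : ℤ, ¬ (p : ℤ) ∣ a → (p : ℤ) ∣ a * k0 - b → J((k0 : ℤ) | p) = J(a * b | p) := by
        intro a b ha ⟨c, hc⟩
        rw [show a * b = a ^ 2 * k0 + p * (-a * c) by linear_combination -a * hc,
          jacobiSym.mod_left (_ + _), Int.add_mul_emod_self_left, ← jacobiSym.mod_left,
          jacobiSym.mul_left, jacobiSym.pow_left, jac_sq hp' ha, one_mul]
      split_ifs with hx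
      · exact key z w (fun hz => h1 ⟨p, hp, hx, hz⟩) (hpn.trans h6)
      · exact key x y hx (hpn.trans h5)
    · intro k hk hne
      refine if_neg fun ⟨⟨a, ha⟩, ⟨b, hb⟩⟩ => hne ?_
      have h7 : (n : ℤ) ∣ k - k0 :=
        ⟨i * a + j * b + v * k + t, by linear_combination i * ha + j * hb - k * hij - h4⟩
      have h8 : (k : ℤ) < n := by exact_mod_cast mem_range.mp hk
      have := Int.eq_zero_of_abs_lt_dvd h7 (by rw [abs_lt]; omega)
      omega

/-- The sum of a nontrivial quadratic character vanishes. -/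
theorem sum_jac_eq_zero {B : ℕ} (hB : Squarefree B) (hodd : Odd B) (h1 : 1 < B) :
    ∑ k ∈ range B, J((k : ℤ) | B) = 0 := by
  obtain ⟨p, hp, m, rfl⟩ := Nat.exists_prime_and_dvd h1.ne'
  have := Fact.mk hp
  have hc : Nat.Coprime p m := Nat.coprime_of_squarefree_mul hB
  have hm0 : m ≠ 0 := by rintro rfl; simp at h1
  have hp2 : ringChar (ZMod p) ≠ 2 := by
    rw [ZMod.ringChar_zmod_n]
    rintro rfl
    exact absurd (Nat.odd_mul.mp hodd).1 (by decide)
  obtain ⟨b, hb⟩ := quadraticChar_exists_neg_one hp2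
  obtain ⟨a, ha1, ha2⟩ := Nat.chineseRemainder hc b.val 1
  have ha : J((a : ℤ) | p * m) = -1 := by
    rw [jacobiSym.mul_right' _ hp.ne_zero hm0,
      jacobiSym.mod_left' (a₂ := 1) (b := m) (by exact_mod_cast ha2), jacobiSym.one_left, mul_one,
      ← jacobiSym.legendreSym.to_jacobiSym, legendreSym, Int.cast_natCast,
      (ZMod.natCast_eq_natCast_iff _ _ _).mpr ha1, ZMod.natCast_zmod_val, hb]
  have hac : Nat.Coprime a (p * m) := by
    by_contra h
    have : NeZero (p * m) := ⟨by omega⟩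
    rw [jacobiSym.eq_zero_iff_not_coprime.mpr (by rwa [Int.gcd_natCast_natCast])] at ha
    exact absurd ha (by decide)
  generalize p * m = B at *
  have h2 : ∑ k ∈ range B, J(((a * k % B : ℕ) : ℤ) | B) = ∑ k ∈ range B, J((k : ℤ) | B) := by
    refine sum_bij (fun k _ => a * k % B) (fun k _ => mem_range.mpr (Nat.mod_lt _ (by omega)))
      (fun k hk l hl h => ?_) (fun l hl => ?_) fun _ _ => rfl
    · exact Nat.ModEq.eq_of_lt_of_lt (Nat.ModEq.cancel_left_of_coprime hac.symm h)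
        (mem_range.mp hk) (mem_range.mp hl)
    · obtain ⟨c, -, hc⟩ := Nat.exists_mul_mod_eq_one_of_coprime hac h1
      refine ⟨c * l % B, mem_range.mpr (Nat.mod_lt _ (by omega)), ?_⟩
      rw [Nat.mul_mod_mod, ← mul_assoc, Nat.mul_mod, hc, one_mul, Nat.mod_mod,
        Nat.mod_eq_of_lt (mem_range.mp hl)]
  have h3 : ∑ k ∈ range B, J(((a * k % B : ℕ) : ℤ) | B) = -∑ k ∈ range B, J((k : ℤ) | B) := by
    rw [← sum_neg_distrib]
    refine sum_congr rfl fun k _ => ?_
    push_cast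
    rw [← jacobiSym.mod_left, jacobiSym.mul_left, ha, neg_one_mul]
  omega

end Pool.Agent.Lib.MP_696deb_nt
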