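import Mathlib

set_option autoImplicit false

open Finset

namespace Pool.Agent.Lib.MP_696deb_nt.Tern

/-- Chinese remainder theorem for sums of products of periodic functions. -/
theorem crt_sum {R : Type*} [CommSemiring R] {a b : ℕ} (ha : 0 < a) (hb : 0 < b)
    (hab : a.Coprime b) (f g : ℕ → R)
    (hf : ∀ x, f (x % a) = f x) (hg : ∀ x, g (x % b) = g x) :
    ∑ j ∈ range (a * b), f j * g j = (∑ j ∈ range a, f j) * ∑ j ∈ range b, g j := by
  rw [sum_mul_sum, ← sum_product']
  refine sum_nbij' (fun j => (j % a, j % b))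
    (fun q => (Nat.chineseRemainder hab q.1 q.2 : ℕ)) ?_ ?_ ?_ ?_ ?_
  · intro j _
    simp only [mem_product, mem_range]
    exact ⟨Nat.mod_lt _ ha, Nat.mod_lt _ hb⟩
  · intro q _
    simp only [mem_range]
    exact Nat.chineseRemainder_lt_mul hab _ _ ha.ne' hb.ne'
  · intro j hj
    simp only [mem_range] at hj
    have h1 := Nat.chineseRemainder_modEq_unique hab (a := j % a) (b := j % b) (z := j)
      (Nat.mod_modEq _ _).symm (Nat.mod_modEq _ _).symm
    exact (Nat.ModEq.eq_of_lt_of_lt h1 hj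
      (Nat.chineseRemainder_lt_mul hab _ _ ha.ne' hb.ne')).symm
  · intro q hq
    simp only [mem_product, mem_range] at hq
    have h := (Nat.chineseRemainder hab q.1 q.2).2
    ext
    · exact Nat.ModEq.eq_of_lt_of_lt ((Nat.mod_modEq _ _).trans h.1) (Nat.mod_lt _ ha) hq.1
    · exact Nat.ModEq.eq_of_lt_of_lt ((Nat.mod_modEq _ _).trans h.2) (Nat.mod_lt _ hb) hq.2
  · intro j _
    simp only [hf, hg]

/-- The same for a product of distinct primes. -/
theorem crt_prod {R : Type*} [CommSemiring R] (P : Finset ℕ) (hP : ∀ p ∈ P, p.Prime)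
    (f : ℕ → ℕ → R) (hf : ∀ p ∈ P, ∀ x, f p (x % p) = f p x) :
    ∑ j ∈ range (∏ p ∈ P, p), ∏ p ∈ P, f p j = ∏ p ∈ P, ∑ j ∈ range p, f p j := by
  induction P using Finset.induction_on with
  | empty => simp
  | insert q P hq ih =>
    have hP' : ∀ p ∈ P, p.Prime := fun p hp => hP p (mem_insert_of_mem hp)
    have hq' : q.Prime := hP q (mem_insert_self _ _)
    have hpos : 0 < ∏ p ∈ P, p := prod_pos fun p hp => (hP' p hp).pos
    simp only [prod_insert hq]
    rw [crt_sum hq'.pos hpos _ (f q) (fun j => ∏ p ∈ P, f p j) (hf q (mem_insert_self _ _)),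
      ih hP' fun p hp => hf p (mem_insert_of_mem hp)]
    · intro x
      refine prod_congr rfl fun p hp => ?_
      rw [← hf p (mem_insert_of_mem hp), Nat.mod_mod_of_dvd _ (dvd_prod_of_mem _ hp),
        hf p (mem_insert_of_mem hp)]
    · refine Nat.Coprime.prod_right fun p hp => ?_
      exact (Nat.coprime_primes hq' (hP' p hp)).2 fun h => hq (h ▸ hp)

/-- Number of roots of `y ^ 2 + y + d` modulo `c`. -/
def rho (d c : ℕ) : ℤ := ∑ y ∈ range c, if c ∣ y ^ 2 + y + d then 1 else 0

theorem dvd_poly_mod {d c k : ℕ} (hk : k ∣ c) (y : ℕ) :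
    k ∣ (y % c) ^ 2 + y % c + d ↔ k ∣ y ^ 2 + y + d := by
  have h : (y % c) ≡ y [MOD k] := (Nat.mod_modEq y c).of_dvd hk
  exact Nat.ModEq.dvd_iff (((h.pow 2).add h).add_right d) dvd_rfl

theorem rho_mul {d a b : ℕ} (hab : a.Coprime b) : rho d (a * b) = rho d a * rho d b := by
  rcases Nat.eq_zero_or_pos a with rfl | ha
  · simp [rho]
  rcases Nat.eq_zero_or_pos b with rfl | hb
  · simp [rho]
  unfold rho
  rw [← crt_sum ha hb hab]
  · refine sum_congr rfl fun y _ => ?_
    by_cases h1 : a ∣ y ^ 2 + y + d <;> by_cases h2 : b ∣ y ^ 2 + y + d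
    · simp [h1, h2, hab.mul_dvd_of_dvd_of_dvd h1 h2]
    · have : ¬ a * b ∣ y ^ 2 + y + d := fun h => h2 (Dvd.dvd.trans (Dvd.intro_left _ rfl) h)
      simp [h1, h2, this]
    · have : ¬ a * b ∣ y ^ 2 + y + d := fun h => h1 (Dvd.dvd.trans (Dvd.intro _ rfl) h)
      simp [h1, h2, this]
    · have : ¬ a * b ∣ y ^ 2 + y + d := fun h => h1 (Dvd.dvd.trans (Dvd.intro _ rfl) h)
      simp [h1, h2, this]
  · intro x; simp only [dvd_poly_mod dvd_rfl]
  · intro x; simp only [dvd_poly_mod dvd_rfl]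

theorem rho_one (d : ℕ) : rho d 1 = 1 := by simp [rho]

/-- Sum over residues modulo `p` as a sum over `ZMod p`. -/
theorem sum_range_zmod {R : Type*} [AddCommMonoid R] (p : ℕ) [NeZero p] (f : ZMod p → R) :
    ∑ j ∈ range p, f (j : ZMod p) = ∑ x : ZMod p, f x := by
  refine sum_nbij' (fun j => (j : ZMod p)) (fun x => x.val) ?_ ?_ ?_ ?_ ?_
  · intro j _; exact mem_univ _
  · intro x _; exact mem_range.2 (ZMod.val_lt x)
  · intro j hj; exact ZMod.val_cast_of_lt (mem_range.1 hj)
  · intro x _; exact ZMod.natCast_zmod_val x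
  · intro j _; rfl

theorem jacobi_neg_swap {n l : ℕ} (hn : n % 4 = 3) (hl : Odd l) :
    jacobiSym (-(n : ℤ)) l = jacobiSym l n := by
  have hn' : Odd n := by rw [Nat.odd_iff]; omega
  rw [jacobiSym.neg _ hl]
  rcases Nat.odd_mod_four_iff.mp (Nat.odd_iff.mp hl) with h | h
  · rw [ZMod.χ₄_nat_one_mod_four h, one_mul, jacobiSym.quadratic_reciprocity_one_mod_four h hn']
  · rw [ZMod.χ₄_nat_three_mod_four h, jacobiSym.quadratic_reciprocity_three_mod_four h hn]
    ring

theorem rho_prime {n d l : ℕ} (hd : 4 * d = n + 1) (hl : l.Prime) :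
    rho d l = 1 + jacobiSym l n := by
  have hn : n % 4 = 3 := by omega
  have hn' : Odd n := by rw [Nat.odd_iff]; omega
  by_cases h2 : l = 2
  · subst h2
    have e : jacobiSym ((2 : ℕ) : ℤ) n = ZMod.χ₈ n := jacobiSym.at_two hn'
    rw [e, ZMod.χ₈_nat_eq_if_mod_eight]
    simp only [rho, sum_range_succ, range_zero, sum_empty]
    split_ifs <;> omega
  · have := Fact.mk hl
    have hodd : Odd l := hl.odd_of_ne_two h2
    have h2' : (2 : ZMod l) ≠ 0 := by
      have := (ZMod.natCast_eq_zero_iff 2 l).not.2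
        (fun h => h2 ((Nat.prime_dvd_prime_iff_eq hl Nat.prime_two).1 h))
      exact_mod_cast this
    rw [← jacobi_neg_swap hn hodd, ← jacobiSym.legendreSym.to_jacobiSym, add_comm,
      ← legendreSym.card_sqrts l h2 (-(n : ℤ))]
    have e1 : rho d l = ∑ y : ZMod l, if y ^ 2 + y + d = 0 then (1 : ℤ) else 0 := by
      rw [← sum_range_zmod]
      refine sum_congr rfl fun y _ => ?_
      simp only [← ZMod.natCast_eq_zero_iff]
      push_cast; rfl
    have hd' : (4 * d : ZMod l) = n + 1 := by exact_mod_cast congrArg (Nat.cast : ℕ → ZMod l) hd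
    rw [e1, sum_boole]
    congr 1
    refine card_nbij' (fun y => 2 * y + 1) (fun x => (x - 1) / 2) ?_ ?_ ?_ ?_
    · intro y hy
      simp only [coe_filter, mem_univ, true_and, Set.mem_ofPred_eq, Set.coe_toFinset] at hy ⊢
      push_cast
      linear_combination 4 * hy - hd'
    · intro x hx
      simp only [coe_filter, mem_univ, true_and, Set.mem_ofPred_eq, Set.coe_toFinset] at hx ⊢
      push_cast at hx
      field_simp
      linear_combination hx + hd'
    · intro y _; field_simp; ring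
    · intro x _; field_simp; ring

theorem sum_range_mul_split {R : Type*} [AddCommMonoid R] (a b : ℕ) (f : ℕ → R) :
    ∑ y ∈ range (a * b), f y = ∑ y ∈ range a, ∑ u ∈ range b, f (y + a * u) := by
  induction b with
  | zero => simp
  | succ b ih =>
    rw [Nat.mul_succ, sum_range_add, ih, ← sum_add_distrib]
    refine sum_congr rfl fun y _ => ?_
    rw [sum_range_succ, add_comm (a * b)]

theorem rho_pow_succ {n d l a : ℕ} (hd : 4 * d = n + 1) (hl : l.Prime) (hln : ¬ l ∣ n)
    (ha : 0 < a) : rho d (l ^ (a + 1)) = rho d (l ^ a) := by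
  have := Fact.mk hl
  unfold rho
  rw [pow_succ, sum_range_mul_split]
  refine sum_congr rfl fun y _ => ?_
  obtain ⟨b, rfl⟩ : ∃ b, a = b + 1 := ⟨a - 1, by omega⟩
  by_cases h : l ^ (b + 1) ∣ y ^ 2 + y + d
  · obtain ⟨k, hk⟩ := h
    have key : ∀ u : ℕ, (l ^ (b + 1) * l ∣ (y + l ^ (b + 1) * u) ^ 2 + (y + l ^ (b + 1) * u) + d)
        ↔ ((k : ZMod l) + (2 * y + 1) * (u : ZMod l) = 0) := by
      intro u
      have e : (y + l ^ (b + 1) * u) ^ 2 + (y + l ^ (b + 1) * u) + d
          = l ^ (b + 1) * (k + (2 * y + 1) * u + l * (l ^ b * u ^ 2)) := by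
        have : (y + l ^ (b + 1) * u) ^ 2 + (y + l ^ (b + 1) * u) + d
            = (y ^ 2 + y + d) + l ^ (b + 1) * ((2 * y + 1) * u + l * (l ^ b * u ^ 2)) := by ring
        rw [this, hk]; ring
      rw [e, Nat.mul_dvd_mul_iff_left (pow_pos hl.pos _), ← ZMod.natCast_eq_zero_iff]
      push_cast
      simp
    have hu : (2 * y + 1 : ZMod l) ≠ 0 := by
      intro h0
      apply hln
      rw [← ZMod.natCast_eq_zero_iff]
      have h1 : ((y : ZMod l) ^ 2 + y + d) = 0 := by
        have := congrArg (Nat.cast : ℕ → ZMod l) hk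
        push_cast at this
        rw [this]; simp
      have hd' : (4 * d : ZMod l) = n + 1 := by
        exact_mod_cast congrArg (Nat.cast : ℕ → ZMod l) hd
      linear_combination 4 * h1 - hd' - (2 * (y : ZMod l) + 1) * h0
    simp only [key, hk, dvd_mul_right, if_true]
    rw [sum_range_zmod l (fun u => if (k : ZMod l) + (2 * y + 1) * u = 0 then (1 : ℤ) else 0),
      sum_eq_single (-(k : ZMod l) / (2 * y + 1))]
    · rw [if_pos]; field_simp; ring
    · intro u _ hne
      rw [if_neg]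
      intro h0
      apply hne
      field_simp
      linear_combination h0
    · simp
  · rw [if_neg h]
    refine sum_eq_zero fun u _ => if_neg fun h' => h ?_
    have h1 : l ^ (b + 1) ∣ (y + l ^ (b + 1) * u) ^ 2 + (y + l ^ (b + 1) * u) + d :=
      Dvd.dvd.trans (Dvd.intro _ rfl) h'
    have e : (y + l ^ (b + 1) * u) ^ 2 + (y + l ^ (b + 1) * u) + d
        = (y ^ 2 + y + d) + l ^ (b + 1) * ((2 * y + 1) * u + l * (l ^ b * u ^ 2)) := by ring
    rw [e] at h1
    exact (Nat.dvd_add_left (Dvd.intro _ rfl)).1 h1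

theorem not_sq_dvd_poly {n d l y : ℕ} (hd : 4 * d = n + 1) (hn : Squarefree n) (hl : l.Prime)
    (hln : l ∣ n) : ¬ l ^ 2 ∣ y ^ 2 + y + d := by
  intro h
  have e : (2 * y + 1) ^ 2 + n = 4 * (y ^ 2 + y + d) := by nlinarith
  have h1 : l ^ 2 ∣ (2 * y + 1) ^ 2 + n := e ▸ Dvd.dvd.mul_left h 4
  have h2 : l ∣ (2 * y + 1) ^ 2 :=
    (Nat.dvd_add_left hln).1 (Dvd.dvd.trans (Dvd.intro_left l (by ring)) h1)
  have h3 : l ^ 2 ∣ (2 * y + 1) ^ 2 := pow_dvd_pow_of_dvd (hl.dvd_of_dvd_pow h2) 2
  have h4 : l * l ∣ n := by rw [← sq]; exact (Nat.dvd_add_right h3).1 h1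
  exact hl.one_lt.ne' (Nat.isUnit_iff.1 (hn l h4))

theorem rho_pow {n d l : ℕ} (hd : 4 * d = n + 1) (hn : Squarefree n) (hl : l.Prime) (a : ℕ) :
    rho d (l ^ (a + 1)) = jacobiSym l n ^ (a + 1) + jacobiSym l n ^ a := by
  induction a with
  | zero => simp [rho_prime hd hl, add_comm]
  | succ a ih =>
    by_cases hln : l ∣ n
    · have h0 : jacobiSym l n = 0 := by
        rw [jacobiSym.eq_zero_iff]
        refine ⟨hn.ne_zero, ?_⟩
        rw [Int.gcd_natCast_natCast, Nat.gcd_eq_left hln]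
        exact hl.one_lt.ne'
      rw [h0]
      simp only [ne_eq, Nat.add_eq_zero_iff, one_ne_zero, and_false, not_false_eq_true, zero_pow,
        add_zero]
      refine sum_eq_zero fun y _ => if_neg fun h => not_sq_dvd_poly hd hn hl hln (y := y) ?_
      exact Dvd.dvd.trans (pow_dvd_pow l (by omega)) h
    · rw [rho_pow_succ hd hl hln (Nat.succ_pos a), ih]
      have h1 : jacobiSym l n ^ 2 = 1 := by
        apply jacobiSym.sq_one
        rw [Int.gcd_natCast_natCast]
        exact (Nat.Prime.coprime_iff_not_dvd hl).2 hln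
      have : jacobiSym l n ^ (a + 1 + 1) = jacobiSym l n ^ a := by
        rw [add_assoc, pow_add]; simp [h1]
      rw [this, add_comm]

open ArithmeticFunction ArithmeticFunction.zeta in
/-- Number of ideals of given norm: `sum_{e^2 c = M} rho c = sum_{e | M} (e / n)`. -/
theorem sum_rho {n d : ℕ} (hd : 4 * d = n + 1) (hn : Squarefree n) {M : ℕ} (hM : 0 < M) :
    ∑ e ∈ (Icc 1 M).filter (fun e => e ^ 2 ∣ M), rho d (M / e ^ 2)
      = ∑ e ∈ M.divisors, jacobiSym e n := by
  classical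
  let r : ArithmeticFunction ℤ := ⟨rho d, by simp [rho]⟩
  let s : ArithmeticFunction ℤ := ⟨fun k => if k ≠ 0 ∧ IsSquare k then 1 else 0, by simp⟩
  let x : ArithmeticFunction ℤ := ⟨fun k => if k = 0 then 0 else jacobiSym k n, by simp⟩
  have hr : r.IsMultiplicative := ⟨rho_one d, fun h => rho_mul h⟩
  have hs : s.IsMultiplicative := by
    refine ⟨by simp [s], fun {a b} h => ?_⟩
    have hiff : IsSquare (a * b) ↔ IsSquare a ∧ IsSquare b := by
      refine ⟨fun ⟨c, hc⟩ => ⟨?_, ?_⟩, fun h => h.1.mul h.2⟩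
      · obtain ⟨u, hu⟩ := exists_eq_pow_of_mul_eq_pow (a := a) (b := b) (c := c) (k := 2)
          (Nat.isUnit_iff.2 h) (by rw [hc, sq])
        exact ⟨u, by rw [hu, sq]⟩
      · obtain ⟨u, hu⟩ := exists_eq_pow_of_mul_eq_pow (a := b) (b := a) (c := c) (k := 2)
          (Nat.isUnit_iff.2 h.symm) (by rw [mul_comm, hc, sq])
        exact ⟨u, by rw [hu, sq]⟩
    simp only [s, coe_mk, hiff, ne_eq, mul_eq_zero, not_or]
    by_cases h1 : a = 0 <;> by_cases h2 : b = 0 <;> by_cases h3 : IsSquare a <;>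
      by_cases h4 : IsSquare b <;> simp [h1, h2, h3, h4]
  have hx : x.IsMultiplicative := by
    refine ⟨by simp [x], fun {a b} _ => ?_⟩
    simp only [x, coe_mk, mul_eq_zero]
    by_cases h1 : a = 0 <;> by_cases h2 : b = 0 <;> simp [h1, h2, jacobiSym.mul_left]
  have hz : (ζ : ArithmeticFunction ℤ).IsMultiplicative := isMultiplicative_zeta.natCast
  have key : s * r = (ζ : ArithmeticFunction ℤ) * x := by
    rw [IsMultiplicative.eq_iff_eq_on_prime_powers _ (hs.mul hr) _ (hz.mul hx)]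
    intro l i hl
    have hsq : ∀ j : ℕ, s (l ^ j) = if Even j then 1 else 0 := by
      intro j
      have : IsSquare (l ^ j) ↔ Even j := by
        refine ⟨fun ⟨c, hc⟩ => ?_, fun ⟨k, hk⟩ => ⟨l ^ k, by rw [hk, pow_add]⟩⟩
        have hc0 : c ≠ 0 := by rintro rfl; exact (pow_pos hl.pos j).ne' hc
        have := congrArg (fun m => m.factorization l) hc
        simp only [Nat.factorization_mul hc0 hc0, hl.factorization_pow, Finsupp.single_eq_same,
          Finsupp.add_apply] at this
        exact ⟨_, this⟩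
      simp [s, this, hl.ne_zero]
    have e1 : (s * r) (l ^ i) = ∑ j ∈ range (i + 1), (if Even j then 1 else 0) * rho d (l ^ (i - j)) := by
      rw [mul_apply, Nat.sum_divisorsAntidiagonal (fun a b => s a * r b),
        Nat.sum_divisors_prime_pow hl]
      refine sum_congr rfl fun j hj => ?_
      rw [hsq, Nat.pow_div (Nat.lt_succ_iff.1 (mem_range.1 hj)) hl.pos]
      rfl
    have e2 : ((ζ : ArithmeticFunction ℤ) * x) (l ^ i) = ∑ j ∈ range (i + 1), jacobiSym l n ^ j := by
      rw [coe_zeta_mul_apply, Nat.sum_divisors_prime_pow hl]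
      refine sum_congr rfl fun j _ => ?_
      simp [x, hl.ne_zero, jacobiSym.pow_left]
    rw [e1, e2]
    clear e1 e2
    induction i using Nat.twoStepInduction with
    | zero => rw [sum_range_one, sum_range_one]; simp [rho_one]
    | one => simp [sum_range_succ, rho_prime hd hl]
    | more i ih _ =>
      rw [sum_range_succ' _ (i + 2), sum_range_succ' _ (i + 1), sum_range_succ _ (i + 2),
        sum_range_succ _ (i + 1), ← ih, Nat.sub_zero, rho_pow hd hn hl]
      have : ∑ k ∈ range (i + 1), (if Even (k + 1 + 1) then (1 : ℤ) else 0) *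
          rho d (l ^ (i + 2 - (k + 1 + 1))) = ∑ j ∈ range (i + 1),
          (if Even j then (1 : ℤ) else 0) * rho d (l ^ (i - j)) := by
        refine sum_congr rfl fun j _ => ?_
        have h1 : i + 2 - (j + 1 + 1) = i - j := by omega
        have h2 : Even (j + 1 + 1) ↔ Even j := by simp [Nat.even_add_one]
        simp only [h1, h2]
      rw [this]
      simp
      ring
  have h1 := congrArg (fun f : ArithmeticFunction ℤ => f M) key
  simp only [coe_zeta_mul_apply] at h1
  have h2 : ∑ i ∈ M.divisors, x i = ∑ e ∈ M.divisors, jacobiSym e n :=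
    sum_congr rfl fun i hi => by simp [x, (Nat.pos_of_mem_divisors hi).ne']
  rw [← h2, ← h1, mul_apply, Nat.sum_divisorsAntidiagonal (fun a b => s a * r b)]
  have h3 : ∑ i ∈ M.divisors, s i * r (M / i)
      = ∑ i ∈ M.divisors.filter IsSquare, rho d (M / i) := by
    rw [sum_filter]
    refine sum_congr rfl fun i hi => ?_
    simp [s, r, (Nat.pos_of_mem_divisors hi).ne']
  rw [h3]
  refine sum_nbij (fun e => e ^ 2) ?_ ?_ ?_ ?_
  · intro e he
    simp only [mem_filter, mem_Icc, Nat.mem_divisors] at he ⊢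
    exact ⟨⟨he.2, hM.ne'⟩, e, sq e⟩
  · intro a _ b _ h
    exact Nat.pow_left_injective two_ne_zero h
  · intro i hi
    simp only [coe_filter, Nat.mem_divisors, Set.mem_ofPred_eq, Set.mem_image, mem_Icc] at hi ⊢
    obtain ⟨⟨h1, _⟩, e, rfl⟩ := hi
    have h4 := Nat.le_of_dvd hM h1
    have h5 : e ≠ 0 := by rintro rfl; simp at h1; omega
    refine ⟨e, ⟨⟨by omega, by nlinarith [Nat.pos_of_ne_zero h5]⟩, by rwa [sq]⟩, sq e⟩
  · intro e _; rfl

end Pool.Agent.Lib.MP_696deb_nt.Tern
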