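import Pool.Agent.Lib.MP_696deb_nt.HDefs
import Pool.Agent.Lib.MP_696deb_nt.AnForms
import Pool.Agent.Lib.MP_696deb_nt.SymArith
import Pool.Agent.Lib.MP_696deb_nt.TernRho

/-! Arithmetic of Heegner forms. -/

set_option autoImplicit false

open Finset NumberTheorySymbols

namespace Pool.Agent.Lib.MP_696deb_nt

variable {D r r' : ℤ} {Q Q' : Fm} {R : Finset Fm} {n p : ℕ}

lemma IsHg.even (h : IsHg D r Q) : 60 ∣ r ^ 2 - D := by
  obtain ⟨a, ha⟩ := h.lev
  obtain ⟨k, hk⟩ := h.res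
  refine ⟨a * Q.2.2 - k * r - 15 * k ^ 2, ?_⟩
  rw [← h.disc, fdisc, ha, show Q.2.1 = r + 30 * k by omega]
  ring

lemma IsHg.of_feq (h : IsHg D r Q) (hD : D < 0) (e : FEq Q Q') : IsHg D r Q' := by
  refine ⟨?_, e.pos (h.disc ▸ hD) h.pos, ?_, ?_⟩ <;> obtain ⟨a, b, c, d, e, rfl⟩ := e
  · rw [fdisc_fmap e, h.disc]
  · obtain ⟨A, hA⟩ := h.lev
    exact ⟨A * a ^ 2 + Q.2.1 * a * c + 15 * Q.2.2 * c ^ 2, by simp only [fmap, fval, hA]; ring⟩
  · obtain ⟨A, hA⟩ := h.lev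
    obtain ⟨k, hk⟩ := h.res
    exact ⟨A * a * b + Q.2.1 * b * c + Q.2.2 * c * d + k, by
      simp only [fmap, hA]; linear_combination hk + Q.2.1 * e⟩

lemma IsHg.congr (h : IsHg D r Q) (e : 30 ∣ r - r') : IsHg D r' Q :=
  ⟨h.disc, h.pos, h.lev, by simpa using dvd_add h.res e⟩

lemma HReps.congr (h : HReps D r R) (e : 30 ∣ r - r') : HReps D r' R :=
  ⟨fun Q hQ => (h.mem Q hQ).congr e, fun Q hQ => h.ex Q (hQ.congr (dvd_sub_comm.mp e)), h.uniq⟩

lemma pos_c (hD : fdisc Q < 0) (h : 0 < Q.1) : 0 < Q.2.2 := by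
  rw [fdisc] at hD
  nlinarith [sq_nonneg Q.2.1]

namespace Gal

lemma dvd_eq {l a b : ℤ} (h : l ∣ a) (e : b = a) : l ∣ b := e ▸ h

/-- Every form is equivalent to a form adapted to a given split prime. -/
lemma exists_type (Q : Fm) {N l : ℤ} (hl : Prime l) (h2 : ¬ l ∣ 2) (hN : ¬ l ∣ N)
    (h : l ∣ r ^ 2 - fdisc Q) : ∃ a b c d : ℤ, a * d - b * (N * c) = 1 ∧
      l ∣ (fmap Q a b (N * c) d).1 ∧ l ∣ (fmap Q a b (N * c) d).2.1 - r := by
  have key : ∀ x w y z : ℤ, x * z - w * y = 1 → l ∣ 2 * Q.1 * x + (Q.2.1 + r) * y →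
      l ∣ (Q.2.1 - r) * x + 2 * Q.2.2 * y →
      l ∣ (fmap Q x w y z).1 ∧ l ∣ (fmap Q x w y z).2.1 - r := fun x w y z e h1 h3 => by
    refine ⟨(hl.dvd_or_dvd (dvd_eq (dvd_add (h1.mul_right x) (h3.mul_right y)) ?_)).resolve_left h2,
      dvd_eq (dvd_add (h1.mul_right w) (h3.mul_right z)) ?_⟩
    · simp only [fmap, fval]; ring
    · simp only [fmap]; linear_combination r * e
  have gen : ∀ x y : ℤ, ¬ l ∣ x → l ∣ 2 * Q.1 * x + (Q.2.1 + r) * y →
      l ∣ (Q.2.1 - r) * x + 2 * Q.2.2 * y → ∃ a b c d : ℤ, a * d - b * (N * c) = 1 ∧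
      l ∣ (fmap Q a b (N * c) d).1 ∧ l ∣ (fmap Q a b (N * c) d).2.1 - r := fun x y hx h1 h3 => by
    obtain ⟨u, v, e⟩ := hl.coprime_iff_not_dvd.mpr fun k => (hl.dvd_or_dvd k).elim hN hx
    have e' : l ∣ N * (v * y) * x - y := ⟨-(u * y), by linear_combination y * e⟩
    refine ⟨1, 0, v * y, 1, by ring, key _ _ _ _ (by ring)
      ((hl.dvd_or_dvd (b := x) ?_).resolve_right hx) ((hl.dvd_or_dvd (b := x) ?_).resolve_right hx)⟩
    · exact dvd_eq (dvd_add h1 (e'.mul_left (Q.2.1 + r))) (by ring)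
    · exact dvd_eq (dvd_add h3 (e'.mul_left (2 * Q.2.2))) (by ring)
  rw [fdisc] at h
  by_cases h1 : l ∣ Q.2.1 + r
  swap
  · exact gen _ (-(2 * Q.1)) h1 ⟨0, by ring⟩ (dvd_eq h.neg_right (by ring))
  by_cases h3 : l ∣ 2 * Q.2.2
  swap
  · exact gen _ (r - Q.2.1) h3 (dvd_eq h (by ring)) ⟨0, by ring⟩
  obtain ⟨u, v, e⟩ := hl.coprime_iff_not_dvd.mpr hN
  exact ⟨l, -v, 1, u, by linear_combination e, key _ _ _ _ (by linear_combination e)
    (dvd_add (dvd_mul_left _ _) (h1.mul_right _)) (dvd_add (dvd_mul_left _ _) (h3.mul_right _))⟩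

lemma dvd_of_type {l A b c x w y z : ℤ} (hl : Prime l) (h2 : ¬ l ∣ 2) (hb : ¬ l ∣ b)
    (e : x * z - w * y = 1) (hA : l ∣ A) (h1 : l ∣ A * x ^ 2 + b * x * y + c * y ^ 2)
    (h3 : l ∣ 2 * A * x * w + b * (x * z + w * y) + 2 * c * y * z - b) : l ∣ y := by
  by_contra hy
  have k1 : l ∣ b * x + c * y := (hl.dvd_or_dvd (a := y)
    (dvd_eq (dvd_sub h1 (hA.mul_right (x ^ 2))) (by ring))).resolve_left hy
  have k2 : l ∣ b * w + c * z := (hl.dvd_or_dvd ((hl.dvd_or_dvd (a := 2) (b := y * (b * w + c * z))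
    (dvd_eq (dvd_sub h3 (hA.mul_right (2 * x * w)))
      (by linear_combination -b * e))).resolve_left h2)).resolve_left hy
  exact hb (dvd_eq (dvd_sub (k1.mul_right z) (k2.mul_right y)) (by linear_combination -b * e))

lemma prime_five : Prime (5 : ℤ) := Int.prime_iff_natAbs_prime.mpr (by norm_num)

lemma feq_of_fmap (r3 : ¬ 3 ∣ r) (r5 : ¬ 5 ∣ r) {x w y z : ℤ} (e : x * z - w * y = 1)
    (h : IsHg D r Q) (h' : IsHg D r (fmap Q x w y z)) : FEq Q (fmap Q x w y z) := by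
  have k1 := h.lev
  have k2 := h.res
  have k3 := h'.lev
  have k4 := h'.res
  simp only [fmap, fval] at k3 k4
  have h3 := dvd_of_type Int.prime_three (by norm_num) (b := Q.2.1) (c := Q.2.2) (A := Q.1)
    (by omega) e (by omega) (by omega) (by omega)
  have h5 := dvd_of_type prime_five (by norm_num) (b := Q.2.1) (c := Q.2.2) (A := Q.1)
    (by omega) e (by omega) (by omega) (by omega)
  obtain ⟨y, rfl⟩ : 15 ∣ y := by omega
  exact ⟨x, w, y, z, e, rfl⟩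

lemma exists_hg_fmap (hD : D < 0) (hr : 60 ∣ r ^ 2 - D)
    (h : fdisc Q = D) (h0 : 0 < Q.1) :
    ∃ x w y z : ℤ, x * z - w * y = 1 ∧ IsHg D r (fmap Q x w y z) := by
  obtain ⟨a, b, c, d, e, k1, k2⟩ := exists_type (r := r) Q (N := 1) Int.prime_three (by norm_num)
    (by norm_num) (by omega)
  have h1 := (fdisc_fmap e Q).trans h
  have h2 := fmap_pos e (by omega) h0
  obtain ⟨a', b', c', d', e', k3, k4⟩ := exists_type (r := r) (fmap Q a b (1 * c) d) (N := 3)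
    prime_five (by norm_num) (by norm_num) (by omega)
  have h3 := (fdisc_fmap e' _).trans h1
  suffices H : IsHg D r (fmap (fmap Q a b (1 * c) d) a' b' (3 * c') d') from
    ⟨_, _, _, _, by linear_combination (a' * d' - b' * (3 * c')) * e + e',
      fmap_fmap Q a b (1 * c) d a' b' (3 * c') d' ▸ H⟩
  generalize fmap Q a b (1 * c) d = P at *
  refine ⟨h3, fmap_pos e' (by omega) h2, ?_, ?_⟩
  · have : 3 ∣ (fmap P a' b' (3 * c') d').1 := dvd_eq (dvd_add (k1.mul_right (a' ^ 2))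
      (dvd_mul_right 3 (P.2.1 * a' * c' + 3 * P.2.2 * c' ^ 2))) (by simp only [fmap, fval]; ring)
    omega
  · have : 3 ∣ (fmap P a' b' (3 * c') d').2.1 - r := dvd_eq (dvd_add (dvd_add k2
      (k1.mul_right (2 * a' * b'))) (dvd_mul_right 3 (2 * (P.2.1 * b' * c' + P.2.2 * c' * d'))))
      (by simp only [fmap]; linear_combination P.2.1 * e')
    generalize fmap P a' b' (3 * c') d' = P' at *
    have h4 : 2 ∣ P'.2.1 - r := by
      have h5 : 2 ∣ (P'.2.1 - r) * (P'.2.1 - r + 2 * r) := by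
        rw [fdisc, mul_assoc] at h3
        rw [show (P'.2.1 - r) * (P'.2.1 - r + 2 * r) = P'.2.1 ^ 2 - r ^ 2 by ring]
        omega
      rcases Int.prime_two.dvd_or_dvd h5 with k | k <;> omega
    omega

lemma exists_red (hD : fdisc Q = -n) (hn : 0 < n) (h : 0 < Q.1) :
    ∃ a b c d : ℤ, a * d - b * c = 1 ∧ fmap Q a b c d ∈ redForms n := by
  obtain ⟨a, b, c, d, e, k⟩ := exists_reduced (n := n) (by exact_mod_cast hn) Q.1.toNat Q.1 Q.2.1
    Q.2.2 (by omega) h hD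
  exact ⟨a, b, c, d, e, (mem_redForms hn).mpr ⟨(fdisc_fmap e Q).trans hD, k⟩⟩

/-- There are finitely many classes of Heegner forms. -/
theorem exists_hreps (D r : ℤ) (hD : D < 0) : ∃ R, HReps D r R := by
  obtain ⟨n, rfl⟩ : ∃ n : ℕ, D = -n := ⟨(-D).toNat, by omega⟩
  let s : Setoid Fm := ⟨FEq, FEq.refl, FEq.symm, FEq.trans⟩
  have hT : (Quotient.mk s '' {Q | IsHg (-n) r Q}).Finite := by
    refine Set.Finite.subset (((redForms n).finite_toSet.prod
      (Set.finite_univ (α := ZMod 15 × ZMod 15))).biUnion (t := fun k => Quotient.mk s ''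
        {Q | ∃ a b c d : ℤ, a * d - b * c = 1 ∧ k = (fmap Q a b c d, (c : ZMod 15), (d : ZMod 15))})
      fun k _ => Set.Subsingleton.finite ?_) ?_
    · rintro _ ⟨Q, ⟨a, b, c, d, e, rfl⟩, rfl⟩ _ ⟨Q', ⟨a', b', c', d', e', k⟩, rfl⟩
      simp only [Prod.mk.injEq] at k
      obtain ⟨u, hu⟩ := (ZMod.intCast_eq_intCast_iff_dvd_sub _ _ _).mp k.2.1
      obtain ⟨v, hv⟩ := (ZMod.intCast_eq_intCast_iff_dvd_sub _ _ _).mp k.2.2
      push_cast at hu hv
      refine Quotient.sound ⟨a * d' - b * c', b * a' - a * b', c * v - d * u, d * a' - c * b', ?_, ?_⟩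
      · linear_combination (a' * d' - b' * c') * e + e' + (b * a' - a * b') * (c * hv - d * hu)
      · rw [← fmap_inv e' Q', ← k.1, fmap_fmap]
        congr 1
        · ring
        · ring
        · linear_combination c * hv - d * hu
        · ring
    · rintro _ ⟨Q, hQ, rfl⟩
      obtain ⟨a, b, c, d, e, k⟩ := exists_red hQ.disc (by omega) hQ.pos
      exact Set.mem_biUnion (x := (fmap Q a b c d, (c : ZMod 15), (d : ZMod 15))) ⟨k, trivial⟩
        ⟨Q, ⟨a, b, c, d, e, rfl⟩, rfl⟩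
  refine ⟨hT.toFinset.image Quotient.out, fun Q hQ => ?_, fun Q hQ =>
    ⟨_, mem_image_of_mem _ (hT.mem_toFinset.mpr ⟨Q, hQ, rfl⟩), Quotient.mk_out (s := s) Q⟩,
    fun Q hQ Q' hQ' e => ?_⟩
  · obtain ⟨_, h, rfl⟩ := mem_image.mp hQ
    obtain ⟨Q, h1, rfl⟩ := hT.mem_toFinset.mp h
    exact IsHg.of_feq h1 hD (FEq.symm (Quotient.mk_out (s := s) Q))
  · obtain ⟨x, -, rfl⟩ := mem_image.mp hQ
    obtain ⟨y, -, rfl⟩ := mem_image.mp hQ'
    rw [(Quotient.out_equiv_out (s := s)).mp e]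

lemma hil_fval (hn : Squarefree n) (hp : p ∈ n.primeFactors) (hD : fdisc Q = -n) {x y : ℤ}
    (hc : Q.2.2 ≠ 0) (h : fval Q x y ≠ 0) : hil n p (fval Q x y) = hil n p Q.2.2 :=
  hil_eq_of_norm hn (Nat.prime_of_mem_primeFactors hp) (Nat.dvd_of_mem_primeFactors hp) h hc
    two_ne_zero (u := Q.2.1 * x + 2 * Q.2.2 * y) (v := x) (by
      simp only [fdisc, fval] at hD ⊢; linear_combination -x ^ 2 * hD)

lemma hil_fmap (hn : Squarefree n) (hp : p ∈ n.primeFactors) (hD : fdisc Q = -n) (h : 0 < Q.1)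
    {a b c d : ℤ} (e : a * d - b * c = 1) : hil n p (fmap Q a b c d).2.2 = hil n p Q.2.2 := by
  have h0 : fdisc Q < 0 := by have := hn.ne_zero; omega
  exact hil_fval hn hp hD (pos_c h0 h).ne' (pos_c (by rwa [fdisc_fmap e]) (fmap_pos e h0 h)).ne'

lemma hil_feq (hn : Squarefree n) (hp : p ∈ n.primeFactors) (h : IsHg (-n) r Q) (e : FEq Q Q') :
    hil n p Q'.2.2 = hil n p Q.2.2 := by
  obtain ⟨a, b, c, d, e, rfl⟩ := e
  exact hil_fmap hn hp h.disc h.pos e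

lemma hil_a (hn : Squarefree n) (hp : p ∈ n.primeFactors) (hD : fdisc Q = -n) (h : 0 < Q.1) :
    hil n p Q.1 = hil n p Q.2.2 := by
  have h0 : fdisc Q < 0 := by have := hn.ne_zero; omega
  simpa [fval] using hil_fval hn hp hD (x := 1) (y := 0) (pos_c h0 h).ne' (by simpa [fval] using h.ne')

lemma prod_hil_prime (hn : Good n) {q : ℕ} (hq : q.Prime) {b : ℤ} (h : 4 * (q : ℤ) ∣ b ^ 2 + n) :
    hilS n n.primeFactors q = 1 := by
  have hP : ∀ p ∈ n.primeFactors, p.Prime := fun p hp => Nat.prime_of_mem_primeFactors hp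
  have h4 := hn.mod4
  by_cases hqn : q ∈ n.primeFactors
  · have h1 : ∀ p ∈ n.primeFactors.erase q, ¬ (p : ℤ) ∣ (q : ℤ) := fun p hp =>
      not_dvd_of_prime_ne (hP p (mem_of_mem_erase hp)) hq (ne_of_mem_erase hp)
    rw [hilS, ← mul_prod_erase _ _ hqn, hil_self_eq hn hqn, prod_congr rfl fun p hp =>
      hil_of_not_dvd (hP p (mem_of_mem_erase hp)) (h1 p hp),
      prod_jac_sq (fun p hp => hP p (mem_of_mem_erase hp)) h1]
  rw [hilS, prod_congr rfl fun p hp => hil_of_not_dvd (hP p hp)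
    (not_dvd_of_prime_ne (hP p hp) hq fun e => hqn (e ▸ hp)), ← jac_eq_prod _ hn.sqf]
  rcases hq.eq_two_or_odd' with rfl | ho
  · have h8 : n % 8 = 7 := by
      have : b ^ 2 % 8 = 0 ∨ b ^ 2 % 8 = 1 ∨ b ^ 2 % 8 = 4 := by
        rw [sq, Int.mul_emod]
        have : b % 8 = 0 ∨ b % 8 = 1 ∨ b % 8 = 2 ∨ b % 8 = 3 ∨ b % 8 = 4 ∨ b % 8 = 5 ∨ b % 8 = 6 ∨
          b % 8 = 7 := by omega
        rcases this with e | e | e | e | e | e | e | e <;> simp [e]
      omega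
    rw [Nat.cast_ofNat, jacobiSym.at_two (Nat.odd_iff.mpr (by omega)), ZMod.χ₈_nat_eq_if_mod_eight]
    simp only [h8, show n % 2 ≠ 0 by omega, if_false, or_true, if_true]
  have hd := (dvd_mul_left _ _).trans h
  rw [← Tern.jacobi_neg_swap h4 ho, jacobiSym.mod_left' (a₂ := b ^ 2)
    (Int.modEq_iff_dvd.mpr (by simpa using hd)), jacobiSym.pow_left, jac_sq hq fun hb => hqn ?_]
  exact Nat.mem_primeFactors.mpr ⟨hq, Int.natCast_dvd_natCast.mp
    ((dvd_add_right (dvd_pow hb two_ne_zero)).mp hd), hn.sqf.ne_zero⟩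

/-- The product formula. -/
lemma prod_hil (hn : Good n) {b : ℤ} (c : ℕ) (hc : c ≠ 0) (h : 4 * (c : ℤ) ∣ b ^ 2 + n) :
    hilS n n.primeFactors c = 1 := by
  have hP : ∀ p ∈ n.primeFactors, p.Prime := fun p hp => Nat.prime_of_mem_primeFactors hp
  induction c using induction_on_primes with
  | zero => exact absurd rfl hc
  | one => exact prod_eq_one fun p hp => by simpa using hil_one (hP p hp)
  | prime_mul q a hq ih =>
    push_cast at h ⊢
    rw [hilS_mul hP, prod_hil_prime hn hq ((mul_dvd_mul_left _ (dvd_mul_right _ _)).trans h),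
      ih (right_ne_zero_of_mul hc) ((mul_dvd_mul_left _ (dvd_mul_left _ _)).trans h), mul_one]

theorem sgn_hil (hn : Good n) (hD : fdisc Q = -n) (h : 0 < Q.1) :
    Sgn n fun p => hil n p Q.2.2 := by
  have h0 := pos_c (Q := Q) (by have := hn.sqf.ne_zero; omega) h
  refine ⟨fun p hp => sq_eq_one_iff.mp (hil_sq hn.sqf (Nat.prime_of_mem_primeFactors hp)
    (Nat.dvd_of_mem_primeFactors hp) h0.ne'), ?_⟩
  obtain ⟨c, hc⟩ := Int.eq_ofNat_of_zero_le h0.le
  rw [hc]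
  exact prod_hil hn (b := Q.2.1) c (by omega) ⟨Q.1, by
    rw [fdisc, hc] at hD; linear_combination hD⟩

lemma genus_eq (hn : Good n) (hp : p ∈ n.primeFactors) (hD : fdisc Q = -n) (h : 0 < Q.1) :
    genus p Q.1 Q.2.2 = if hil n p Q.2.2 = 1 then 0 else 1 := by
  have hp' := Nat.prime_of_mem_primeFactors hp
  have := Fact.mk hp'
  unfold genus
  by_cases ha : (p : ℤ) ∣ Q.1
  · have := not_dvd_c hp' (Int.squarefree_natCast.mpr hn.sqf)
      (Int.natCast_dvd_natCast.mpr (Nat.dvd_of_mem_primeFactors hp)) hD ha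
    rw [if_pos ha, aleg_eq_legendre this, hil_of_not_dvd hp' this, jacobiSym.legendreSym.to_jacobiSym]
  · rw [if_neg ha, aleg_eq_legendre ha, ← hil_a hn.sqf hp hD h, hil_of_not_dvd hp' ha,
      jacobiSym.legendreSym.to_jacobiSym]

lemma sum_sign {S : Finset ℕ} {ε : ℕ → ℤ} (h : ∀ p ∈ S, ε p = 1 ∨ ε p = -1) :
    ((∑ p ∈ S, if ε p = 1 then 0 else 1 : ZMod 2) = if ∏ p ∈ S, ε p = 1 then 0 else 1) ∧
      (∏ p ∈ S, ε p = 1 ∨ ∏ p ∈ S, ε p = -1) := by
  induction S using Finset.induction_on with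
  | empty => simp
  | insert q S hq ih =>
    obtain ⟨h1, h2⟩ := ih fun p hp => h p (mem_insert_of_mem hp)
    rw [sum_insert hq, prod_insert hq, h1]
    rcases h q (mem_insert_self _ _) with e | e <;> rcases h2 with e' | e' <;> simp [e, e']
    decide

lemma not_dvd_r (hn : Good n) (hr : 60 ∣ r ^ 2 + n) : ¬ 3 ∣ r ∧ ¬ 5 ∣ r := by
  have h3 : ¬ 3 ∣ n := fun h => by simpa using Nat.dvd_gcd h (show 3 ∣ 15 by norm_num) |>.trans hn.cop.dvd
  have h5 : ¬ 5 ∣ n := fun h => by simpa using Nat.dvd_gcd h (show 5 ∣ 15 by norm_num) |>.trans hn.cop.dvd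
  constructor <;> intro h <;> have := dvd_pow h two_ne_zero <;> omega

/-- Under the condition on the class group the genera have odd size. -/
theorem odd_card_gen (hn : Good n) (hB : CondB n) (hr : 60 ∣ r ^ 2 + n) (hR : HReps (-n) r R)
    {ε : ℕ → ℤ} (hε : Sgn n ε) : Odd (gen n R ε).card := by
  obtain ⟨r3, r5⟩ := not_dvd_r hn hr
  have h4 := hn.mod4
  have h3 : 3 < n := by
    by_contra h
    obtain rfl : n = 3 := by omega
    exact absurd hn.cop (by norm_num)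
  have key : ∀ {Q : Fm}, fdisc Q = -n → 0 < Q.1 → ((∀ p ∈ n.primeFactors, genus p Q.1 Q.2.2 =
      if ε p = 1 then 0 else 1) ↔ ∀ p ∈ n.primeFactors, hil n p Q.2.2 = ε p) := fun hD h => by
    refine forall₂_congr fun p hp => ?_
    rw [genus_eq hn hp hD h]
    rcases (sgn_hil hn hD h).1 p hp with e | e <;> rcases hε.1 p hp with e' | e' <;> simp [e, e']
  choose! a b c d e k using fun Q (hQ : Q ∈ R) => exists_red (hR.mem Q hQ).disc (by omega)
    (hR.mem Q hQ).pos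
  convert odd_card_genus hn.sqf h4 h3 hB (fun p => if ε p = 1 then 0 else 1)
    (by rw [(sum_sign hε.1).1, if_pos hε.2]) using 1
  refine card_nbij (fun Q => fmap Q (a Q) (b Q) (c Q) (d Q)) (fun Q hQ => ?_)
    (fun Q hQ Q' hQ' h => ?_) fun f hf => ?_
  · obtain ⟨h1, h2⟩ := mem_filter.mp hQ
    have h5 := hR.mem Q h1
    refine mem_filter.mpr ⟨k Q h1, (key ((fdisc_fmap (e Q h1) Q).trans h5.disc)
      (fmap_pos (e Q h1) (by rw [h5.disc]; omega) h5.pos)).mpr fun p hp => ?_⟩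
    rw [hil_fmap hn.sqf hp h5.disc h5.pos (e Q h1), h2 p hp]
  · replace hQ := (mem_filter.mp hQ).1
    replace hQ' := (mem_filter.mp hQ').1
    have h1 := fmap_inv (e Q' hQ') Q'
    simp only at h
    rw [← h, fmap_fmap] at h1
    refine hR.uniq Q hQ Q' hQ' (h1 ▸ feq_of_fmap r3 r5 ?_ (hR.mem Q hQ) (h1.symm ▸ hR.mem Q' hQ'))
    linear_combination (a Q' * d Q' - b Q' * c Q') * e Q hQ + e Q' hQ'
  · obtain ⟨h1, h2⟩ := mem_filter.mp hf
    obtain ⟨h5, h6⟩ := (mem_redForms (a := f.1) (b := f.2.1) (c := f.2.2) (by omega)).mp h1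
    have h7 : 0 < f.1 := ((abs_nonneg _).trans h6.1).lt_of_ne fun h => by
      have := sq_nonneg f.2.1
      rw [← h, mul_zero, zero_mul] at h5
      omega
    obtain ⟨x, w, y, z, e1, h8⟩ := exists_hg_fmap (D := -n) (by omega) (by simpa using hr) h5 h7
    obtain ⟨Q, hQ, h9⟩ := hR.ex _ h8
    refine ⟨Q, mem_filter.mpr ⟨hQ, fun p hp => ?_⟩, ?_⟩
    · rw [← hil_feq hn.sqf hp (hR.mem Q hQ) h9, hil_fmap hn.sqf hp h5 h7 e1, (key h5 h7).mp h2 p hp]
    obtain ⟨x', w', y', z', e2, h10⟩ := h9.symm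
    have k1 := k Q hQ
    have e3 := e Q hQ
    simp only
    generalize a Q = a, b Q = b, c Q = c, d Q = d at k1 e3 ⊢
    rw [h10, fmap_fmap, fmap_fmap] at k1 ⊢
    obtain ⟨t1, t2, t3, t4⟩ := reduced_rigid (Int.squarefree_natCast.mpr hn.sqf) (by omega)
      (by omega) h5 (by
        linear_combination (x' * z' - w' * (15 * y')) * (a * d - b * c) * e1 +
          (a * d - b * c) * e2 + e3) h6 ((mem_redForms (by omega)).mp k1).2
    rw [t1, t2, ← t3]
    rcases t4 with t4 | t4 <;> simp [t4, fmap, fval]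

/-- Primes with prescribed quadratic residue symbols. -/
lemma exists_prime_sgn (hn : Good n) {ε : ℕ → ℤ} (hε : Sgn n ε) (B : ℕ) :
    ∃ l > B, l.Prime ∧ (∀ p ∈ n.primeFactors, J((l : ℤ) | p) = ε p) ∧ ∃ s : ℤ, (l : ℤ) ∣ s ^ 2 + n := by
  have h4 := hn.mod4
  have hP : ∀ p ∈ n.primeFactors, p.Prime := fun p hp => Nat.prime_of_mem_primeFactors hp
  have h1 : ∀ p ∈ n.primeFactors, ∃ a : ℕ, J((a : ℤ) | p) = ε p := fun p hp => by
    rcases hε.1 p hp with e | e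
    · exact ⟨1, by simp [e]⟩
    have := Fact.mk (hP p hp)
    obtain ⟨a, ha⟩ := FiniteField.exists_nonsquare (F := ZMod p) (by
      rw [ZMod.ringChar_zmod_n]
      rintro rfl
      have := Nat.dvd_of_mem_primeFactors hp
      omega)
    exact ⟨a.val, e ▸ ZMod.nonsquare_iff_jacobiSym_eq_neg_one.mpr (by simpa using ha)⟩
  choose! a ha using h1
  obtain ⟨k, hk⟩ := Nat.chineseRemainderOfFinset a id n.primeFactors
    (fun p hp => (hP p hp).ne_zero) fun p hp q hq e => (Nat.coprime_primes (hP p hp) (hP q hq)).mpr e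
  have h2 : ∀ l : ℕ, l ≡ k [MOD n] → ∀ p ∈ n.primeFactors, J((l : ℤ) | p) = ε p := fun l hl p hp => by
    rw [← ha p hp]
    exact jacobiSym.mod_left' (Int.natCast_modEq_iff.mpr
      ((hl.of_dvd (Nat.dvd_of_mem_primeFactors hp)).trans (hk p hp)))
  have h3 : ∀ l : ℕ, l ≡ k [MOD n] → J((l : ℤ) | n) = 1 := fun l hl => by
    rw [jac_eq_prod _ hn.sqf, prod_congr rfl (h2 l hl), hε.2]
  obtain ⟨l, h5, h6, h7⟩ := Nat.forall_exists_prime_gt_and_modEq (B + 2) hn.sqf.ne_zero (a := k) (by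
    by_contra h
    simpa [h3 k rfl] using (jacobiSym.eq_zero_iff (a := k) (b := n)).mpr ⟨hn.sqf.ne_zero, h⟩)
  have := Fact.mk h6
  obtain ⟨s, hs⟩ := ZMod.isSquare_of_jacobiSym_eq_one ((Tern.jacobi_neg_swap h4
    (h6.odd_of_ne_two (by omega))).trans (h3 l h7))
  obtain ⟨s, rfl⟩ := ZMod.intCast_surjective s
  refine ⟨l, by omega, h6, h2 l h7, s, (ZMod.intCast_zmod_eq_zero_iff_dvd _ _).mp ?_⟩
  push_cast at hs ⊢
  linear_combination -hs

end Gal

end Pool.Agent.Lib.MP_696deb_nt
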