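import Pool.Agent.Lib.MP_696deb_nt.HPair
import Pool.Agent.Lib.MP_696deb_nt.HForms
import Pool.Agent.Lib.MP_696deb_nt.AutC
import Pool.Agent.Lib.MP_696deb_nt.CntDefs

/-! The Galois action on Heegner points. -/

set_option autoImplicit false

open Complex PeriodPair Finset NumberTheorySymbols ComplexConjugate

namespace Pool.Agent.Lib.MP_696deb_nt.Gal

open Unif

variable {σ : ℂ ≃+* ℂ} {D D' r r' ε : ℤ} {Q Q' : Fm} {R R' : Finset Fm} {n p : ℕ}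

theorem feq_iff_pt (hD : D < 0) (hQ : IsHg D r Q) (hQ' : IsHg D r' Q') :
    FEq Q Q' ↔ pt (froot Q) = pt (froot Q') := by
  have h0 : fdisc Q < 0 := hQ.disc ▸ hD
  constructor
  · rintro ⟨a, b, c, d, e, rfl⟩
    rw [← mob_froot e h0 hQ.pos, pt_mob a b c d e (hQ'.im_pos hD)]
  intro h
  obtain ⟨a, b, c, d, e, k⟩ := (pt_eq_iff (hQ'.im_pos hD) (hQ.im_pos hD)).mp h.symm
  have h1 := fdisc_fmap e Q
  have h2 := fmap_pos e h0 hQ.pos
  refine ⟨a, b, c, d, e, froot_inj (h1 ▸ h0) h2 hQ'.pos (by rw [h1, hQ.disc, hQ'.disc]) ?_⟩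
  rw [← mob_adj (by omega : a * d - b * (15 * c) ≠ 0) (hQ'.im_pos hD), ← k,
    ← mob_froot e h0 hQ.pos, mob_adj (by omega) (im_froot_pos (h1 ▸ h0) h2)]

lemma exists_inj (hD : D < 0) (hR : HReps D r R) (hR' : HReps D r' R') {Φ : Pt W15 ℂ → Pt W15 ℂ}
    (hΦ : Function.Injective Φ)
    (h : ∀ Q, IsHg D r Q → ∃ Q', IsHg D r' Q' ∧ Φ (pt (froot Q)) = pt (froot Q')) :
    ∃ β : Fm → Fm, Set.InjOn β R ∧ ∀ Q ∈ R, β Q ∈ R' ∧ Φ (pt (froot Q)) = pt (froot (β Q)) := by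
  have : ∀ Q ∈ R, ∃ Q' ∈ R', Φ (pt (froot Q)) = pt (froot Q') := fun Q hQ => by
    obtain ⟨P, h1, h2⟩ := h Q (hR.mem Q hQ)
    obtain ⟨P', h3, h4⟩ := hR'.ex P h1
    exact ⟨P', h3, h2.trans ((feq_iff_pt hD (hR'.mem _ h3) h1).mp h4).symm⟩
  choose! β h1 h2 using this
  exact ⟨β, fun Q hQ Q' hQ' e => hR.uniq Q hQ Q' hQ' ((feq_iff_pt hD (hR.mem Q hQ)
    (hR.mem Q' hQ')).mpr (hΦ (by rw [h2 Q hQ, h2 Q' hQ', e]))), fun Q hQ => ⟨h1 Q hQ, h2 Q hQ⟩⟩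

lemma pmap_symm {W : WeierstrassCurve ℚ} {P P' : Pt W ℂ} (h : pmap (σ : ℂ →+* ℂ) P = P') :
    pmap (σ.symm : ℂ →+* ℂ) P' = P := by
  rw [← h, pmap_pmap, show (σ.symm : ℂ →+* ℂ).comp (σ : ℂ →+* ℂ) =
    (RingEquiv.refl ℂ : ℂ →+* ℂ) by ext; simp, pmap_refl]

lemma symm_del (hε : ε = 1 ∨ ε = -1) (hσ : σ (del D) = ε * del D) :
    σ.symm (del D) = ε * del D := by
  rw [RingEquiv.symm_apply_eq, map_mul, hσ, map_intCast]
  rcases hε with rfl | rfl <;> simp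

/-- Automorphisms permute the Heegner points. -/
theorem gal_perm (hD : D < 0) (hε : ε = 1 ∨ ε = -1) (hσ : σ (del D) = ε * del D)
    (hR : HReps D r R) (hR' : HReps D (ε * r) R') : ∃ β : Fm → Fm, Set.BijOn β R R' ∧
      ∀ Q ∈ R, pmap (σ : ℂ →+* ℂ) (pt (froot Q)) = pt (froot (β Q)) := by
  obtain ⟨β, h1, h2⟩ := exists_inj hD hR hR' (pmap_injective (σ : ℂ →+* ℂ))
    fun Q hQ => gal_form hD hQ hε hσ
  refine ⟨β, ⟨fun Q hQ => (h2 Q hQ).1, h1, fun Q' hQ' => ?_⟩, fun Q hQ => (h2 Q hQ).2⟩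
  obtain ⟨P, k1, k2⟩ := gal_form hD (hR'.mem Q' hQ') hε (symm_del hε hσ)
  rw [show ε * (ε * r) = r by rcases hε with rfl | rfl <;> ring] at k1
  obtain ⟨Q, hQ, k3⟩ := hR.ex P k1
  refine ⟨Q, hQ, hR'.uniq _ (h2 Q hQ).1 _ hQ' ((feq_iff_pt hD (hR'.mem _ (h2 Q hQ).1)
    (hR'.mem _ hQ')).mpr ?_)⟩
  rw [← (h2 Q hQ).2, (feq_iff_pt hD (hR.mem Q hQ) k1).mp k3]
  exact pmap_symm (σ := σ.symm) k2

/-- Heegner points are algebraic. -/
theorem alg_pt (hD : D < 0) (hQ : IsHg D r Q) : pt (froot Q) ∈ Alg W15 := by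
  obtain ⟨R, hR⟩ := exists_hreps D r hD
  obtain ⟨R', hR'⟩ := exists_hreps D (-1 * r) hD
  have key : ∀ σ : ℂ ≃+* ℂ, ∃ P ∈ R ∪ R', pmap (σ : ℂ →+* ℂ) (pt (froot Q)) = pt (froot P) :=
    fun σ => by
      obtain ⟨ε, hε, hσ⟩ := map_del σ hD
      obtain ⟨P, h1, h2⟩ := gal_form hD hQ hε hσ
      rcases hε with rfl | rfl
      · obtain ⟨P', h3, h4⟩ := hR.ex P (by simpa using h1)
        exact ⟨P', mem_union_left _ h3, h2.trans ((feq_iff_pt hD (hR.mem _ h3) h1).mp h4).symm⟩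
      · obtain ⟨P', h3, h4⟩ := hR'.ex P h1
        exact ⟨P', mem_union_right _ h3, h2.trans ((feq_iff_pt hD (hR'.mem _ h3) h1).mp h4).symm⟩
  constructor
  · refine isAlgebraic_of_finite ((R ∪ R').finite_toSet.image fun P => xco (pt (froot P)))
      fun σ _ => ?_
    obtain ⟨P, h1, h2⟩ := key σ
    exact ⟨P, h1, by simp only [← h2, xco_pmap, RingHom.coe_coe]⟩
  · refine isAlgebraic_of_finite ((R ∪ R').finite_toSet.image fun P => yco (pt (froot P)))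
      fun σ _ => ?_
    obtain ⟨P, h1, h2⟩ := key σ
    exact ⟨P, h1, by simp only [← h2, yco_pmap, RingHom.coe_coe]⟩

/-- The genus character at one prime. -/
def gp (p : ℕ) (Q : Fm) : ℤ := if (p : ℤ) ∣ Q.1 then J(Q.2.2 | p) else J(Q.1 | p)

lemma gch_eq (A : ℕ) (Q : Fm) : gch A Q = ∏ p ∈ A.primeFactors, gp p Q := rfl

lemma jac_of_dvd (hp : p.Prime) (h2 : p ≠ 2) {u v w : ℤ} (hu : ¬ (p : ℤ) ∣ u) (hv : ¬ (p : ℤ) ∣ v)
    (h : (p : ℤ) ∣ w ^ 2 - 4 * u * v) : J(u | p) = J(v | p) := by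
  have hP := Nat.prime_iff_prime_int.mp hp
  have h4 : ¬ (p : ℤ) ∣ 2 := not_dvd_of_prime_ne hp Nat.prime_two h2
  have h5 : ¬ (p : ℤ) ∣ w := fun k => by
    have := (dvd_sub_right (dvd_pow k two_ne_zero)).mp h
    rw [show (4 : ℤ) = 2 * 2 from rfl] at this
    simp only [hP.dvd_mul] at this
    tauto
  have h6 := jacobiSym.mod_left' (Int.modEq_iff_dvd.mpr h)
  rw [jacobiSym.pow_left, jac_sq hp h5, show (4 : ℤ) = 2 ^ 2 from rfl, jacobiSym.mul_left,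
    jacobiSym.mul_left, jacobiSym.pow_left, jac_sq hp h4, one_mul] at h6
  linear_combination J(v | p) * h6 - J(u | p) * jac_sq hp hv

lemma gp_eq (hp : p.Prime) (h2 : p ≠ 2) (hD : (p : ℤ) ∣ fdisc Q) {x y : ℤ}
    (hv : ¬ (p : ℤ) ∣ fval Q x y) : gp p Q = J(fval Q x y | p) := by
  unfold gp
  split_ifs with ha
  · refine jac_of_dvd hp h2 (fun hc => hv ?_) hv (w := Q.2.1 * x + 2 * Q.2.2 * y)
      (dvd_eq (hD.mul_right (x ^ 2)) (by simp only [fdisc, fval]; ring))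
    have hb := (Nat.prime_iff_prime_int.mp hp).dvd_of_dvd_pow
      ((dvd_sub_left (hc.mul_left (4 * Q.1))).mp hD)
    exact dvd_add (dvd_add (ha.mul_right _) ((hb.mul_right _).mul_right _)) (hc.mul_right _)
  · exact jac_of_dvd hp h2 ha hv (w := 2 * Q.1 * x + Q.2.1 * y)
      (dvd_eq (hD.mul_right (y ^ 2)) (by simp only [fdisc, fval]; ring))

lemma gp_eq_hil (hn : Squarefree n) (hp : p ∈ n.primeFactors) (hD : fdisc Q = -n) (h : 0 < Q.1) :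
    gp p Q = hil n p Q.2.2 := by
  have hp' := Nat.prime_of_mem_primeFactors hp
  unfold gp
  split_ifs with ha
  · rw [hil_of_not_dvd hp' (not_dvd_c hp' (Int.squarefree_natCast.mpr hn)
      (Int.natCast_dvd_natCast.mpr (Nat.dvd_of_mem_primeFactors hp)) hD ha)]
  · rw [← hil_a hn hp hD h, hil_of_not_dvd hp' ha]

lemma gal_gp_aux (hD : D < 0) (hQ : IsHg D r Q) (hε : ε = 1 ∨ ε = -1)
    (hσ : σ (del D) = ε * del D) (hQ' : IsHg D (ε * r) Q')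
    (h : pmap (σ : ℂ →+* ℂ) (pt (froot Q)) = pt (froot Q')) (hp : p.Prime) (h30 : ¬ p ∣ 30)
    (hpD : (p : ℤ) ∣ D) {κ : ℤ} (hκ : ∀ ζ : ℂ, ζ ^ p = 1 → σ ζ = ζ ^ κ) (h0 : gp p Q ≠ 0) :
    gp p Q' = J(ε * κ | p) * gp p Q := by
  have hP := Nat.prime_iff_prime_int.mp hp
  have h2 : p ≠ 2 := by rintro rfl; simp at h30
  obtain ⟨x, y, hv⟩ : ∃ x y, ¬ (p : ℤ) ∣ fval Q x (15 * y) := by
    by_cases ha : (p : ℤ) ∣ Q.1
    · refine ⟨0, 1, fun k => ?_⟩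
      simp only [fval, mul_one, mul_zero, zero_mul, zero_add, zero_pow two_ne_zero] at k
      rcases hP.dvd_or_dvd k with k | k
      · exact h0 (by rw [gp, if_pos ha, jac_zero_of_dvd hp k])
      · exact h30 ((Int.natCast_dvd_natCast.mp (hP.dvd_of_dvd_pow k)).mul_left 2)
    · exact ⟨1, 0, by simpa [fval] using ha⟩
  obtain ⟨x', y', k⟩ := gal_val hD hQ hε hσ hQ' h hp hκ x y
  have hκ0 : ¬ (p : ℤ) ∣ κ := by
    rintro ⟨m, rfl⟩
    have h1 := Complex.isPrimitiveRoot_exp p hp.ne_zero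
    have := hκ _ h1.pow_eq_one
    rw [zpow_mul, zpow_natCast, h1.pow_eq_one, one_zpow, map_eq_one_iff _ σ.injective] at this
    exact h1.ne_one hp.one_lt this
  have hv' : ¬ (p : ℤ) ∣ fval Q' x' (15 * y') := fun e => by
    have := (dvd_sub_right e).mp k
    rcases hε with rfl | rfl <;> simp [hP.dvd_mul, hκ0, hv] at this
  rw [gp_eq hp h2 (hQ.disc ▸ hpD) hv, gp_eq hp h2 (hQ'.disc ▸ hpD) hv', ← jacobiSym.mul_left]
  exact jacobiSym.mod_left' (Int.modEq_iff_dvd.mpr k).symm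

/-- The action on the genus characters. -/
theorem gal_gp (hD : D < 0) (hQ : IsHg D r Q) (hε : ε = 1 ∨ ε = -1)
    (hσ : σ (del D) = ε * del D) (hQ' : IsHg D (ε * r) Q')
    (h : pmap (σ : ℂ →+* ℂ) (pt (froot Q)) = pt (froot Q')) (hp : p.Prime) (h30 : ¬ p ∣ 30)
    (hpD : (p : ℤ) ∣ D) {κ : ℤ} (hκ : ∀ ζ : ℂ, ζ ^ p = 1 → σ ζ = ζ ^ κ) :
    gp p Q' = J(ε * κ | p) * gp p Q := by
  by_cases h0 : gp p Q = 0
  · by_contra h1
    rw [h0, mul_zero] at h1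
    obtain ⟨κ', h2, h3⟩ := exists_pow_zeta σ.symm hp.pos
    have := gal_gp_aux hD hQ' hε (symm_del hε hσ) (by
      rwa [show ε * (ε * r) = r by rcases hε with rfl | rfl <;> ring]) (pmap_symm h) hp h30 hpD h3 h1
    rcases mul_eq_zero.mp (this.symm.trans h0) with k | k
    · refine jacobiSym.ne_zero (Int.isCoprime_iff_gcd_eq_one.mp ?_) k
      rcases hε with rfl | rfl <;> simpa [IsCoprime.neg_left_iff] using h2
    · exact h1 k
  · exact gal_gp_aux hD hQ hε hσ hQ' h hp h30 hpD hκ h0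

theorem gal_gch (hD : D < 0) (hQ : IsHg D r Q) (hε : ε = 1 ∨ ε = -1)
    (hσ : σ (del D) = ε * del D) (hQ' : IsHg D (ε * r) Q')
    (h : pmap (σ : ℂ →+* ℂ) (pt (froot Q)) = pt (froot Q')) {A : ℕ} (hA : Squarefree A)
    (h30 : A.Coprime 30) (hAD : (A : ℤ) ∣ D) {κ : ℤ} (hκ : ∀ ζ : ℂ, ζ ^ A = 1 → σ ζ = ζ ^ κ) :
    gch A Q' = J(ε * κ | A) * gch A Q := by
  rw [gch_eq, gch_eq, jac_eq_prod _ hA, ← prod_mul_distrib]
  refine prod_congr rfl fun p hp => ?_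
  have h1 := Nat.dvd_of_mem_primeFactors hp
  have h2 := Nat.prime_of_mem_primeFactors hp
  refine gal_gp hD hQ hε hσ hQ' h h2 (fun k => h2.not_dvd_one (h30 ▸ Nat.dvd_gcd h1 k))
    ((Int.natCast_dvd_natCast.mpr h1).trans hAD) fun ζ e => hκ ζ ?_
  obtain ⟨m, rfl⟩ := h1
  rw [pow_mul, e, one_pow]

lemma _root_.Pool.Agent.Lib.MP_696deb_nt.Good.cop30 (hn : Good n) : n.Coprime 30 :=
  Nat.Coprime.mul_right (k := n) (m := 2) (n := 15)
    (by have := hn.mod4; simp [Nat.odd_iff]; omega) hn.cop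

lemma _root_.Pool.Agent.Lib.MP_696deb_nt.Good.neg (hn : Good n) : -(n : ℤ) < 0 := by
  have := hn.mod4; omega

lemma aut_del (hn : Good n) {κ : ℤ} (hκ : ∀ ζ : ℂ, ζ ^ n = 1 → σ ζ = ζ ^ κ) :
    σ (del (-n)) = J(κ | n) * del (-n) := by
  have h4 := hn.mod4
  have ho : Odd n := Nat.odd_iff.mpr (by omega)
  refine aut_sqrt ho hn.sqf hκ ?_
  rw [del_sq hn.neg, jacobiSym.at_neg_one ho, ZMod.χ₄_nat_three_mod_four h4]
  simp

lemma gal_gen (hn : Good n) (hR : HReps (-n) r R) {κ : ℤ} (hκ : ∀ ζ : ℂ, ζ ^ n = 1 → σ ζ = ζ ^ κ)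
    (hJ : J(κ | n) = 1) : ∃ β : Fm → Fm, Set.InjOn β R ∧ ∀ Q ∈ R, β Q ∈ R ∧
      (∀ p ∈ n.primeFactors, hil n p (β Q).2.2 = J(κ | p) * hil n p Q.2.2) ∧
      pmap (σ : ℂ →+* ℂ) (pt (froot Q)) = pt (froot (β Q)) := by
  have hσ : σ (del (-n)) = (1 : ℤ) * del (-n) := hJ ▸ aut_del hn hκ
  obtain ⟨β, h1, h2⟩ := gal_perm hn.neg (.inl rfl) hσ hR (R' := R) (by simpa using hR)
  refine ⟨β, h1.injOn, fun Q hQ => ⟨h1.mapsTo hQ, fun p hp => ?_, h2 Q hQ⟩⟩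
  have k1 := hR.mem Q hQ
  have k2 := hR.mem _ (h1.mapsTo hQ)
  have k3 := Nat.dvd_of_mem_primeFactors hp
  have k4 := Nat.prime_of_mem_primeFactors hp
  rw [← gp_eq_hil hn.sqf hp k1.disc k1.pos, ← gp_eq_hil hn.sqf hp k2.disc k2.pos,
    gal_gp hn.neg k1 (.inl rfl) hσ (by simpa using k2) (h2 Q hQ) k4
      (fun k => k4.not_dvd_one (hn.cop30 ▸ Nat.dvd_gcd k3 k)) (by simpa [Int.natCast_dvd_natCast] using k3) (κ := κ)
      fun ζ e => hκ ζ (by obtain ⟨m, rfl⟩ := k3; rw [pow_mul, e, one_pow]), one_mul]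

lemma sum_gen {M : Type*} [AddCommMonoid M] {β : Fm → Fm} (h1 : Set.InjOn β R) {η ε ε' : ℕ → ℤ}
    (h2 : ∀ Q ∈ R, β Q ∈ R ∧ ∀ p ∈ n.primeFactors, hil n p (β Q).2.2 = η p * hil n p Q.2.2)
    (hη : ∀ p ∈ n.primeFactors, η p ≠ 0) (hε : ∀ p ∈ n.primeFactors, ε' p = η p * ε p)
    (f : Fm → M) : ∑ Q ∈ gen n R ε, f (β Q) = ∑ Q ∈ gen n R ε', f Q := by
  refine sum_nbij β (fun Q hQ => ?_) (h1.mono (coe_subset.mpr (filter_subset _ _))) (fun Q hQ => ?_) fun _ _ => rfl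
  · obtain ⟨k1, k2⟩ := mem_filter.mp hQ
    exact mem_filter.mpr ⟨(h2 Q k1).1, fun p hp => by rw [(h2 Q k1).2 p hp, k2 p hp, hε p hp]⟩
  · obtain ⟨k1, k2⟩ := mem_filter.mp hQ
    obtain ⟨P, hP, rfl⟩ := Finset.surjOn_of_injOn_of_card_le β (fun Q hQ => (h2 Q hQ).1) h1 le_rfl k1
    exact ⟨P, mem_filter.mpr ⟨hP, fun p hp => mul_left_cancel₀ (hη p hp)
      (by rw [← (h2 P hP).2 p hp, k2 p hp, hε p hp])⟩, rfl⟩

/-- The kernel of the Shimura cover. -/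
noncomputable def C15 : AddSubgroup (Pt W1 ℂ) := L15.lattice.toAddSubgroup.map u1

lemma C15_spec {P : Pt W1 ℂ} (h : P ∈ C15) :
    4 • P = 0 ∧ ∀ σ : ℂ ≃+* ℂ, pmap (σ : ℂ →+* ℂ) P = P := by
  obtain ⟨z, hz, rfl⟩ := h
  exact u1_L15 hz

lemma sub_mem_C15 (hD : D < 0) (hQ : IsHg D r Q) (h : FEq Q Q') :
    u1 (Fi (froot Q)) - u1 (Fi (froot Q')) ∈ C15 := by
  have h1 := hQ.of_feq hD h
  have := (feq_iff_pt hD hQ h1).mp h
  rw [pt_eq_u15 (hQ.im_pos hD), pt_eq_u15 (h1.im_pos hD), u15_eq_iff] at this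
  exact ⟨_, this, map_sub _ _ _⟩

lemma four_pmap {τ τ' : ℂ} (hτ : 0 < τ.im) (hτ' : 0 < τ'.im)
    (h : pmap (σ : ℂ →+* ℂ) (pt τ) = pt τ') :
    pmap (σ : ℂ →+* ℂ) (4 • u1 (Fi τ)) = 4 • u1 (Fi τ') := by
  obtain ⟨z, h1, h2⟩ := u1_of_pt hτ hτ' h
  rw [← h2, smul_add, (u1_L15 h1).1, add_zero, map_nsmul]

theorem four_Zg_mem (hn : Good n) (hR : HReps (-n) r R) (ε : ℕ → ℤ) : 4 • Zg n R ε ∈ Nab W1 := by
  refine ⟨n, hn.cop30, fun σ hσ => ?_⟩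
  obtain ⟨β, h1, h2⟩ := gal_gen hn hR (κ := 1) (by simpa using hσ) (by simp)
  rw [Zg, smul_sum, map_sum, ← sum_gen h1 (η := fun p => J(1 | p)) (ε := ε) (ε' := ε)
    (fun Q hQ => ⟨(h2 Q hQ).1, (h2 Q hQ).2.1⟩) (by simp) (by simp) fun Q => 4 • u1 (Fi (froot Q))]
  refine sum_congr rfl fun Q hQ => ?_
  have := mem_of_mem_filter _ hQ
  exact four_pmap ((hR.mem _ this).im_pos hn.neg) ((hR.mem _ (h2 Q this).1).im_pos hn.neg)
    (h2 Q this).2.2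

/-- The shift of a form by an ideal of norm `l`. -/
def sh (l : ℕ) (Q : Fm) : Fm := (Q.1 / l, Q.2.1, Q.2.2 * l)

lemma sh_spec (hD : D < 0) {l : ℕ} (hl : 0 < l) (hQ : IsHg D r Q) (h : 15 * (l : ℤ) ∣ Q.1) :
    IsHg D r (sh l Q) ∧ froot (sh l Q) = l * froot Q := by
  obtain ⟨a, ha⟩ := h
  have l0 : (0 : ℤ) < l := by exact_mod_cast hl
  have e : Q.1 / l = 15 * a := by
    rw [ha, mul_right_comm, Int.mul_ediv_cancel _ l0.ne']
  have h1 : IsHg D r (sh l Q) := ⟨by rw [← hQ.disc]; simp only [fdisc, sh, e]; rw [ha]; ring,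
    Int.ediv_pos_of_pos_of_dvd hQ.pos l0.le ⟨15 * a, by rw [ha]; ring⟩, ⟨a, e⟩, hQ.res⟩
  refine ⟨h1, (eq_froot (h1.disc ▸ hD) h1.pos
    (by simpa using mul_pos (Nat.cast_pos.mpr hl) (hQ.im_pos hD)) ?_).symm⟩
  have := froot_root (hQ.disc ▸ hD) hQ.pos
  rw [ha] at this
  simp only [sh, e]
  push_cast at this ⊢
  linear_combination l * this

lemma feq_of_sh {l : ℕ} (hl : l.Prime) (h2 : l ≠ 2) (hb : ¬ (l : ℤ) ∣ Q.2.1) (h : (l : ℤ) ∣ Q.1)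
    (h' : (l : ℤ) ∣ Q'.1) (hb' : (l : ℤ) ∣ Q'.2.1 - Q.2.1) (e : FEq (sh l Q) (sh l Q')) :
    FEq Q Q' := by
  obtain ⟨x, w, y, z, e, k⟩ := e
  obtain ⟨a, ha⟩ := h
  obtain ⟨a', ha'⟩ := h'
  have l0 : (l : ℤ) ≠ 0 := by exact_mod_cast hl.ne_zero
  simp only [sh, fmap, fval, ha, ha', Int.mul_ediv_cancel_left _ l0, Prod.mk.injEq] at k
  obtain ⟨k1, k2, k3⟩ := k
  obtain ⟨w, rfl⟩ := dvd_of_type (Nat.prime_iff_prime_int.mp hl)
    (not_dvd_of_prime_ne hl Nat.prime_two h2) hb (x := z) (w := 15 * y) (y := w) (z := x) (c := a)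
    (by linear_combination e) (dvd_mul_left _ Q.2.2) ⟨Q'.2.2, by linear_combination -k3⟩
    (dvd_eq hb' (by linear_combination -k2))
  refine ⟨x, w, l * y, z, by linear_combination e, Prod.ext ?_ (Prod.ext ?_
    (mul_right_cancel₀ l0 ?_))⟩ <;> simp only [fmap, fval, ha, ha']
  · linear_combination l * k1
  · linear_combination k2
  · linear_combination k3

theorem Zg_sub_mem (hn : Good n) (hR : HReps (-n) r R) {ε ε' : ℕ → ℤ} (hε : Sgn n ε)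
    (hε' : Sgn n ε') : Zg n R ε' - Zg n R ε ∈ Nab W1 := by
  have hD := hn.neg
  obtain ⟨l, h0, hl, hJ, s, hs⟩ := exists_prime_sgn hn (ε := fun p => ε' p * ε p)
    ⟨fun p hp => by rcases hε.1 p hp with e | e <;> rcases hε'.1 p hp with e' | e' <;> simp [e, e'],
      by rw [prod_mul_distrib, hε.2, hε'.2, mul_one]⟩ (30 + n)
  have hP := Nat.prime_iff_prime_int.mp hl
  have nd : ∀ k : ℕ, 0 < k → k ≤ 30 + n → ¬ (l : ℤ) ∣ k := fun k h1 h2 h =>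
    absurd (Nat.le_of_dvd h1 (Int.natCast_dvd_natCast.mp h)) (by omega)
  have c30 : IsCoprime (l : ℤ) 30 := hP.coprime_iff_not_dvd.mpr (nd 30 (by omega) (by omega))
  obtain ⟨r, hR, hr⟩ : ∃ r, HReps (-n) r R ∧ (l : ℤ) ∣ r ^ 2 + n := by
    obtain ⟨u, v, e⟩ := c30
    refine ⟨r + 30 * v * (s - r), hR.congr ⟨-(v * (s - r)), by ring⟩, dvd_eq (dvd_add hs
      (dvd_mul_right _ (u * (r - s) * (r + 30 * v * (s - r) + s)))) ?_⟩
    linear_combination (s - r) * (r + 30 * v * (s - r) + s) * e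
  have hlr : ¬ (l : ℤ) ∣ r := fun h =>
    nd n (by omega) (by omega) ((dvd_add_right (dvd_pow h two_ne_zero)).mp hr)
  have : ∀ Q ∈ R, ∃ P, FEq Q P ∧ IsHg (-n) r P ∧ 15 * (l : ℤ) ∣ P.1 ∧ 30 * (l : ℤ) ∣ P.2.1 - r :=
    fun Q hQ => by
      obtain ⟨a, b, c, d, e, k1, k2⟩ := exists_type (r := r) Q (N := 15) hP (nd 2 (by omega) (by omega))
        (nd 15 (by omega) (by omega)) (by simpa [(hR.mem Q hQ).disc] using hr)
      have k3 := (hR.mem Q hQ).of_feq hD ⟨a, b, c, d, e, rfl⟩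
      exact ⟨_, ⟨a, b, c, d, e, rfl⟩, k3, (IsCoprime.of_mul_right_right (y := 2) c30).symm.mul_dvd
        k3.lev k1, c30.symm.mul_dvd k3.res k2⟩
  choose! ψ p1 p2 p3 p4 using this
  have s1 := fun Q hQ => sh_spec hD hl.pos (p2 Q hQ) (p3 Q hQ)
  choose! φ q1 q2 using fun Q hQ => hR.ex _ (s1 Q hQ).1
  have hb : ∀ Q ∈ R, (l : ℤ) ∣ (ψ Q).2.1 - r := fun Q hQ => (dvd_mul_left _ _).trans (p4 Q hQ)
  have i1 : Set.InjOn φ R := fun Q hQ Q' hQ' e => hR.uniq Q hQ Q' hQ' (((p1 Q hQ).trans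
    (feq_of_sh hl (by omega) (fun h => hlr (by simpa using dvd_sub h (hb Q hQ)))
      ((dvd_mul_left _ _).trans (p3 Q hQ)) ((dvd_mul_left _ _).trans (p3 Q' hQ'))
      (by simpa using dvd_sub (hb Q' hQ') (hb Q hQ))
      ((q2 Q hQ).symm.trans (e ▸ q2 Q' hQ')))).trans (p1 Q' hQ').symm)
  let F : Fm → Pt W1 ℂ := fun Q => u1 (Fi (l * froot (ψ Q))) - u1 (Fi (froot (ψ Q)))
  have key : Zg n R ε' - Zg n R ε - ∑ Q ∈ gen n R ε, F Q ∈ C15 := by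
    rw [Zg, Zg, ← sum_gen i1 (η := fun p => ε' p * ε p) (ε := ε) (fun Q hQ => ⟨q1 Q hQ, fun p hp => by
      have h1 := Nat.prime_of_mem_primeFactors hp
      rw [← hil_feq hn.sqf hp (hR.mem _ (q1 Q hQ)) (q2 Q hQ), sh, hil_mul h1,
        hil_feq hn.sqf hp (hR.mem _ hQ) (p1 Q hQ), hil_of_not_dvd h1 (not_dvd_of_prime_ne h1 hl
          (by have := Nat.le_of_mem_primeFactors hp; omega)), hJ p hp, mul_comm]⟩)
      (fun p hp => by rcases hε.1 p hp with e | e <;> rcases hε'.1 p hp with e' | e' <;> simp [e, e'])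
      (fun p hp => by rcases hε.1 p hp with e | e <;> simp [e]), ← sum_sub_distrib, ← sum_sub_distrib]
    refine sum_mem fun Q hQ => ?_
    replace hQ := mem_of_mem_filter _ hQ
    convert sub_mem (sub_mem_C15 hD (hR.mem _ (q1 Q hQ)) (q2 Q hQ))
      (sub_mem_C15 hD (hR.mem _ hQ) (p1 Q hQ)) using 1
    simp only [F, (s1 Q hQ).2]
    abel
  refine ⟨n, hn.cop30, fun σ hσ => ?_⟩
  obtain ⟨β, h1, h2⟩ := gal_gen hn hR (κ := 1) (by simpa using hσ) (by simp)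
  rw [← sub_add_cancel (Zg n R ε' - Zg n R ε) (∑ Q ∈ gen n R ε, F Q), map_add, (C15_spec key).2,
    map_sum, ← sum_gen h1 (η := fun p => J(1 | p)) (ε := ε) (ε' := ε)
    (fun Q hQ => ⟨(h2 Q hQ).1, (h2 Q hQ).2.1⟩) (by simp) (by simp) F, add_right_inj]
  refine sum_congr rfl fun Q hQ => ?_
  replace hQ := mem_of_mem_filter _ hQ
  have h3 := (h2 Q hQ).1
  refine gal_shift hD hl.pos (p2 Q hQ) (p3 Q hQ) (p4 Q hQ) (hP.coprime_iff_not_dvd.mpr hlr).symm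
    (p2 _ h3) (p3 _ h3) (p4 _ h3) (by simpa using aut_del hn (κ := 1) (by simpa using hσ)) ?_
  rw [← (feq_iff_pt hD (hR.mem _ hQ) (p2 _ hQ)).mp (p1 _ hQ),
    ← (feq_iff_pt hD (hR.mem _ h3) (p2 _ h3)).mp (p1 _ h3), (h2 Q hQ).2.2]

/-- The complex conjugate lattice. -/
noncomputable def cjL (L : PeriodPair) : PeriodPair :=
  ⟨conj L.ω₁, conj L.ω₂, LinearIndependent.pair_iff.mpr fun s t h =>
    LinearIndependent.pair_iff.mp L.indep s t (by simpa using congr_arg conj h)⟩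

lemma mem_cjL {L : PeriodPair} {z : ℂ} : conj z ∈ (cjL L).lattice ↔ z ∈ L.lattice := by
  simp only [mem_lattice, cjL]
  exact exists₂_congr fun m n => ⟨fun h => by simpa using congr_arg conj h, by rintro rfl; simp⟩

/-- The bijection between a lattice and its conjugate. -/
noncomputable def cjE (L : PeriodPair) : L.lattice ≃ (cjL L).lattice where
  toFun l := ⟨conj l, mem_cjL.mpr l.2⟩
  invFun l := ⟨conj l, mem_cjL.mp (by simp)⟩
  left_inv _ := by simp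
  right_inv _ := by simp

lemma rel_conj (L : PeriodPair) (z : ℂ) :
    Cj starRingAut L (cjL L) ∧ Rel starRingAut L (cjL L) z (conj z) := by
  have hG : ∀ k, (cjL L).G k = conj (L.G k) := fun k => by
    rw [PeriodPair.G, PeriodPair.G, ← (cjE L).tsum_eq, conj_tsum]
    simp [cjE]
  refine ⟨⟨?_, ?_⟩, Rel.mk' mem_cjL ?_ ?_⟩
  · simp [PeriodPair.g₂, hG]
  · simp [PeriodPair.g₃, hG]
  · change _ = conj _
    rw [weierstrassP, weierstrassP, ← (cjE L).tsum_eq, conj_tsum]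
    simp [cjE]
  · change _ = conj _
    rw [derivWeierstrassP, derivWeierstrassP, ← (cjE L).tsum_eq, map_neg, conj_tsum]
    simp [cjE, map_ofNat]

lemma u1_conj (z : ℂ) : pmap (starRingEnd ℂ) (u1 z) = u1 (conj z) :=
  (rel_iff_pmap (σ := starRingAut) isPer1).mp ((rel_conj L1 z).2.congr_lat
    ((rel_conj L1 z).1.unique (cj_self isPer1 _)))

/-- The form attached to the image of the conjugate point under the Fricke involution. -/
def st (Q : Fm) : Fm := (15 * Q.2.2, Q.2.1, Q.1 / 15)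

lemma st_spec (hD : D < 0) (hQ : IsHg D r Q) :
    IsHg D r (st Q) ∧ Fi (froot (st Q)) = alC 3 - conj (Fi (froot Q)) := by
  obtain ⟨a, ha⟩ := hQ.lev
  have e : Q.1 / 15 = a := by omega
  have h0 := hQ.im_pos hD
  have h1 : IsHg D r (st Q) := ⟨by rw [← hQ.disc]; simp only [fdisc, st, e]; rw [ha]; ring,
    mul_pos (by norm_num) (pos_c (hQ.disc ▸ hD) hQ.pos), dvd_mul_right _ _, hQ.res⟩
  have h2 : 0 < (-conj (froot Q)).im := by simpa using h0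
  refine ⟨h1, ?_⟩
  rw [← eq_froot (h1.disc ▸ hD) h1.pos (al_im_pos 3 h2), Fi_al 3 h2, Fi_conj h0]
  · simp [alS]; ring
  have h3 := congr_arg conj (froot_root (hQ.disc ▸ hD) hQ.pos)
  have h4 : conj (froot Q) ≠ 0 := fun h => by simp [h] at h2
  rw [ha] at h3
  simp only [map_add, map_mul, map_pow, map_intCast, map_zero] at h3
  simp only [st, e, al, alM, mob, Matrix.cons_val]
  push_cast at h3 ⊢
  field_simp
  linear_combination 15 * h3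

lemma pt_st (hD : D < 0) (hQ : IsHg D r Q) :
    u15 (alC 3) - pmap (starRingEnd ℂ) (pt (froot Q)) = pt (froot (st Q)) := by
  rw [pt_eq_u15 (hQ.im_pos hD), pt_eq_u15 ((st_spec hD hQ).1.im_pos hD), (st_spec hD hQ).2, map_sub,
    u15_conj]

lemma exists_st (hD : D < 0) (hR : HReps D r R) :
    ∃ ω : Fm → Fm, Set.InjOn ω R ∧ ∀ Q ∈ R, ω Q ∈ R ∧ FEq (ω Q) (st Q) := by
  obtain ⟨ω, h1, h2⟩ := exists_inj hD hR hR (Φ := fun P => u15 (alC 3) - pmap (starRingEnd ℂ) P)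
    (sub_right_injective.comp (pmap_injective _)) fun Q hQ => ⟨_, (st_spec hD hQ).1, pt_st hD hQ⟩
  exact ⟨ω, h1, fun Q hQ => ⟨(h2 Q hQ).1, (feq_iff_pt hD (hR.mem _ (h2 Q hQ).1)
    (st_spec hD (hR.mem _ hQ)).1).mpr ((h2 Q hQ).2.symm.trans (pt_st hD (hR.mem _ hQ)))⟩⟩

lemma hil_st (hn : Good n) (hp : p ∈ n.primeFactors) (hQ : IsHg (-n) r Q) :
    hil n p Q.2.2 = J(15 | p) * hil n p (st Q).2.2 := by
  have h1 := Nat.prime_of_mem_primeFactors hp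
  obtain ⟨a, ha⟩ := hQ.lev
  rw [← hil_a hn.sqf hp hQ.disc hQ.pos, st, ha, hil_mul h1, Int.mul_ediv_cancel_left _ (by norm_num),
    hil_of_not_dvd h1 (k := 15) fun h => h1.not_dvd_one (hn.cop ▸ Nat.dvd_gcd (Nat.dvd_of_mem_primeFactors hp)
      (Int.natCast_dvd_natCast.mp h))]

theorem conj_Zg (hn : Good n) (hB : CondB n) (hr : 60 ∣ r ^ 2 + n) (hR : HReps (-n) r R)
    {ε : ℕ → ℤ} (hε : Sgn n ε) : ∃ (τ : ℂ ≃+* ℂ) (U : Pt W1 ℂ), 2 • U ≠ 0 ∧ 4 • U = 0 ∧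
      pmap (τ : ℂ →+* ℂ) (4 • Zg n R ε) + 4 • Zg n R ε = U := by
  have hD := hn.neg
  obtain ⟨k, hk⟩ := odd_card_gen hn hB hr hR hε
  obtain ⟨Q₀, h0⟩ : (gen n R ε).Nonempty := card_pos.mp (by omega)
  replace h0 := hR.mem _ (mem_of_mem_filter _ h0)
  have hJ : J(15 | n) = 1 := by
    have h1 := (sgn_hil hn h0.disc h0.pos).2
    rwa [prod_congr rfl fun p hp => hil_st hn hp h0, prod_mul_distrib, (sgn_hil hn
      (st_spec hD h0).1.disc (st_spec hD h0).1.pos).2, mul_one, ← jac_eq_prod _ hn.sqf] at h1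
  obtain ⟨σ, hσ⟩ := exists_aut_zeta (N := n) (by omega) (a := 15)
    (Nat.isCoprime_iff_coprime.mpr hn.cop.symm)
  obtain ⟨β, b1, b2⟩ := gal_gen hn hR hσ hJ
  obtain ⟨ω, o1, o2⟩ := exists_st hD hR
  have h4 := (u1_L15 wp_mem).1
  refine ⟨σ.trans starRingAut, (2 * k + 1) • -u1 wp, fun h => kl.ne ?_, by
    rw [smul_comm, smul_neg, h4, neg_zero, smul_zero], ?_⟩
  · rw [two_mul, map_add, ← two_nsmul, ← neg_eq_zero, ← smul_neg, ← h, smul_smul,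
      show 2 * (2 * k + 1) = k * 4 + 2 by ring, add_smul, mul_smul, smul_neg 4, h4]
    simp
  rw [Zg, smul_sum, map_sum, ← sum_gen (β := ω ∘ β) (η := fun _ => 1) (ε := ε) (ε' := ε)
    (o1.comp b1 fun Q hQ => (b2 Q hQ).1) (fun Q hQ => ⟨(o2 _ (b2 Q hQ).1).1, fun p hp => ?_⟩)
    (by simp) (by simp) fun Q => 4 • u1 (Fi (froot Q)), ← sum_add_distrib, ← hk, ← sum_const]
  · refine sum_congr rfl fun Q hQ => ?_
    replace hQ := mem_of_mem_filter _ hQ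
    have h1 := hR.mem _ (b2 Q hQ).1
    have h2 := (C15_spec (sub_mem_C15 hD (hR.mem _ (o2 _ (b2 Q hQ).1).1) (o2 _ (b2 Q hQ).1).2)).1
    rw [smul_sub, sub_eq_zero, (st_spec hD h1).2, map_sub, smul_sub, ← map_nsmul u1 4 (alC 3),
      alC_three, show 4 • (-(wp : ℂ) / 4) = -wp by simp; ring, map_neg] at h2
    rw [Function.comp, h2, show ((σ.trans starRingAut : ℂ ≃+* ℂ) : ℂ →+* ℂ) =
      (starRingEnd ℂ).comp σ from rfl, ← pmap_pmap,
      four_pmap ((hR.mem _ hQ).im_pos hD) (h1.im_pos hD) (b2 Q hQ).2.2, map_nsmul, u1_conj]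
    abel
  have h1 := Nat.prime_of_mem_primeFactors hp
  have h2 := (b2 Q hQ).2.1 p hp
  rw [hil_st hn hp (hR.mem _ (b2 Q hQ).1), hil_feq hn.sqf hp (hR.mem _ (o2 _ (b2 Q hQ).1).1)
    (o2 _ (b2 Q hQ).1).2] at h2
  exact (mul_left_cancel₀ (jacobiSym.ne_zero (a := 15) (Nat.Coprime.coprime_dvd_right
    (Nat.dvd_of_mem_primeFactors hp) hn.cop.symm)) h2).trans (one_mul _).symm

theorem galData : GalData where
  tors := tors_u1
  reps := exists_hreps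
  sgn _ _ _ hn h := sgn_hil hn h.disc h.pos
  g1 _ _ _ ε _ hn hR h h' := ⟨Zg_sub_mem hn hR h' h, four_Zg_mem hn hR ε⟩
  g2 _ _ _ _ hn hB hr hR h := conj_Zg hn hB hr hR h

lemma exists_rat (hD : D < 0) {x : ℂ} (h : ∀ σ : ℂ ≃+* ℂ, σ (del D) = del D → σ x = x) :
    ∃ a b : ℚ, x = a + b * del D := by
  have h0 : del D ≠ 0 := fun e => by simpa [e] using im_del hD
  have hc : conj (del D) = -del D := by simp [del]
  have key : ∀ σ : ℂ ≃+* ℂ, σ (del D) = del D ∧ σ x = x ∧ σ (conj x) = conj x ∨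
      σ (del D) = -del D ∧ σ x = conj x ∧ σ (conj x) = x := fun σ => by
    obtain ⟨ε, rfl | rfl, hσ⟩ := map_del σ hD
    · refine .inl ⟨by simpa using hσ, h σ (by simpa using hσ), ?_⟩
      simpa using congr_arg conj (h ((starRingAut.trans σ).trans starRingAut) (by
        change conj (σ (conj _)) = _; simp [hc, hσ]))
    · refine .inr ⟨by simpa using hσ, ?_, h (starRingAut.trans σ) (by
        change σ (conj _) = _; simp [hc, hσ])⟩
      simpa using congr_arg conj (h (σ.trans starRingAut) (by change conj (σ _) = _; simp [hc, hσ]))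
  obtain ⟨a, ha⟩ := mem_range_of_fixed (K := ℚ) (a := (x + conj x) / 2) fun σ _ => by
    rcases key σ with k | k <;> simp [k.2.1, k.2.2, map_ofNat, add_comm]
  obtain ⟨b, hb⟩ := mem_range_of_fixed (K := ℚ) (a := (x - conj x) / (2 * del D)) fun σ _ => by
    rcases key σ with k | k <;> simp only [map_div₀, map_sub, map_mul, map_ofNat, k.1, k.2.1, k.2.2]
    rw [mul_neg, div_neg, ← neg_div, neg_sub]
  refine ⟨a, b, ?_⟩
  rw [eq_ratCast] at ha hb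
  rw [ha, hb]
  field_simp
  ring

lemma pmap_sum (hD : D < 0) (hR : HReps D r R) (hσ : σ (del D) = del D) :
    pmap (σ : ℂ →+* ℂ) (∑ Q ∈ R, pt (froot Q)) = ∑ Q ∈ R, pt (froot Q) := by
  obtain ⟨β, h1, h2⟩ := gal_perm hD (.inl rfl) (by simpa using hσ) hR (R' := R) (by simpa using hR)
  rw [map_sum]
  exact sum_nbij β h1.mapsTo h1.injOn h1.surjOn h2

lemma conj_sum (hD : D < 0) (hR : HReps D r R) : pmap (starRingEnd ℂ) (∑ Q ∈ R, pt (froot Q)) =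
    #R • u15 (alC 3) - ∑ Q ∈ R, pt (froot Q) := by
  obtain ⟨ω, h1, h2⟩ := exists_st hD hR
  rw [map_sum, eq_sub_iff_add_eq, ← sum_nbij (t := R) (g := fun Q => pt (froot Q)) ω
    (fun Q hQ => (h2 Q hQ).1) h1 (Finset.surjOn_of_injOn_of_card_le ω (fun Q hQ => (h2 Q hQ).1) h1
      le_rfl) fun _ _ => rfl, ← sum_add_distrib, ← sum_const]
  refine sum_congr rfl fun Q hQ => ?_
  rw [(feq_iff_pt hD (hR.mem _ (h2 Q hQ).1) (st_spec hD (hR.mem _ hQ)).1).mp (h2 Q hQ).2,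
    ← pt_st hD (hR.mem _ hQ), add_sub_cancel]

end Pool.Agent.Lib.MP_696deb_nt.Gal
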