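import Pool.Agent.Lib.MP_696deb_nt.Cusp15

set_option autoImplicit false

open Filter Topology Complex
open scoped Real MatrixGroups

namespace Pool.Agent.Lib.MP_696deb_nt.Unif

/-- Uniqueness for a linear system of analytic differential equations. -/
lemma ode_unique {D D₁ g K : ℂ → ℂ} {z₀ : ℂ} (hD : AnalyticAt ℂ D z₀) (hD₁ : AnalyticAt ℂ D₁ z₀)
    (hg : AnalyticAt ℂ g z₀) (hK : AnalyticAt ℂ K z₀) (h1 : deriv D =ᶠ[𝓝 z₀] g * D₁)
    (h2 : deriv D₁ =ᶠ[𝓝 z₀] K * D) (h3 : D z₀ = 0) (h4 : D₁ z₀ = 0) : ∀ᶠ z in 𝓝 z₀, D z = 0 := by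
  have key : ∀ n : ℕ, n ≤ analyticOrderAt D z₀ ∧ n ≤ analyticOrderAt D₁ z₀ := by
    intro n
    induction n with
    | zero => simp
    | succ n ih =>
      push_cast
      rw [← analyticOrderAt_deriv_ge_iff hD h3, ← analyticOrderAt_deriv_ge_iff hD₁ h4,
        analyticOrderAt_congr h1, analyticOrderAt_congr h2, analyticOrderAt_mul hg hD₁,
        analyticOrderAt_mul hK hD]
      exact ⟨ih.2.trans le_add_self, ih.1.trans le_add_self⟩
  exact analyticOrderAt_eq_top.mp (ENat.eq_top_iff_forall_ge.mpr fun n => (key n).1)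

/-- The identity theorem for meromorphic functions. -/
lemma mero_ext {U : Set ℂ} {A B : ℂ → ℂ} (hU : IsPreconnected U) (hA : MeromorphicOn A U)
    (hB : MeromorphicOn B U) {x y : ℂ} (hx : x ∈ U) (hy : y ∈ U) (h : A =ᶠ[𝓝[≠] x] B) :
    A =ᶠ[𝓝[≠] y] B := by
  by_contra h'
  refine (hA.sub hB).meromorphicOrderAt_ne_top_of_isPreconnected hU hy hx (fun h1 => h' ?_) ?_
  · exact (meromorphicOrderAt_eq_top_iff.mp h1).mono fun z hz => sub_eq_zero.mp hz
  · exact meromorphicOrderAt_eq_top_iff.mpr (h.mono fun z hz => sub_eq_zero.mpr hz)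

variable (L : PeriodPair)

lemma ev_notMem {z : ℂ} (hz : z ∉ L.lattice) : ∀ᶠ w in 𝓝 z, w ∉ L.lattice :=
  L.isClosed_lattice.isOpen_compl.mem_nhds hz

lemma ev_notMem' (z : ℂ) : ∀ᶠ w in 𝓝[≠] z, w ∉ L.lattice := by
  filter_upwards [self_mem_nhdsWithin, mem_nhdsWithin_of_mem_nhds
    (L.compl_lattice_sdiff_singleton_mem_nhds z)] with w hw hw' h
  exact hw' ⟨h, hw⟩

lemma hasDerivAt_P {z : ℂ} (hz : z ∉ L.lattice) :
    HasDerivAt L.weierstrassP (L.derivWeierstrassP z) z := by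
  rw [← L.deriv_weierstrassP]
  exact (L.analyticOnNhd_weierstrassP z hz).differentiableAt.hasDerivAt

lemma order_dP {l : ℂ} (hl : l ∈ L.lattice) : meromorphicOrderAt L.derivWeierstrassP l = (-3 : ℤ) := by
  rw [← L.deriv_weierstrassP]
  exact meromorphicOrderAt_deriv (by norm_num) (by rw [L.order_weierstrassP l hl]; rfl)

lemma ev_dP_ne (z : ℂ) : ∀ᶠ w in 𝓝[≠] z, L.derivWeierstrassP w ≠ 0 := by
  rw [← meromorphicOrderAt_ne_top_iff_eventually_ne_zero (L.meromorphic_derivWeierstrassP z)]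
  refine (L.meromorphic_derivWeierstrassP.meromorphicOn (s := Set.univ)
    ).meromorphicOrderAt_ne_top_of_isPreconnected isPreconnected_univ (x := 0) trivial trivial ?_
  rw [order_dP L L.lattice.zero_mem]
  exact WithTop.coe_ne_top

lemma hasDerivAt_dP {z : ℂ} (hz : z ∉ L.lattice) :
    HasDerivAt L.derivWeierstrassP (6 * L.weierstrassP z ^ 2 - L.g₂ / 2) z := by
  have h1 := L.analyticOnNhd_weierstrassP z hz
  have h2 := L.analyticOnNhd_derivWeierstrassP z hz
  have h3 : deriv L.derivWeierstrassP =ᶠ[𝓝[≠] z] fun w => 6 * L.weierstrassP w ^ 2 - L.g₂ / 2 := by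
    filter_upwards [ev_notMem' L z, ev_dP_ne L z] with w hw hw'
    have k1 := hasDerivAt_P L hw
    have k2 := (L.analyticOnNhd_derivWeierstrassP w hw).differentiableAt.hasDerivAt
    have k3 := ((k2.pow 2).congr_of_eventuallyEq ((ev_notMem L hw).mono fun u hu =>
      (L.derivWeierstrassP_sq u hu).symm)).unique
      ((((k1.pow 3).const_mul 4).sub (k1.const_mul L.g₂)).sub_const L.g₃)
    apply mul_left_cancel₀ hw'
    simp only [Nat.cast_ofNat, Nat.add_one_sub_one, pow_one] at k3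
    linear_combination k3 / 2
  rw [← (h2.deriv.continuousAt.eventuallyEq_nhds_iff_eventuallyEq_nhdsNE
    (by fun_prop : AnalyticAt ℂ (fun w => 6 * L.weierstrassP w ^ 2 - L.g₂ / 2) z).continuousAt
    ).mp h3 |>.eq_of_nhds]
  exact h2.differentiableAt.hasDerivAt

lemma tendsto_P {l : ℂ} (hl : l ∈ L.lattice) :
    Tendsto L.weierstrassP (𝓝[≠] l) (Bornology.cobounded ℂ) :=
  tendsto_cobounded_of_meromorphicOrderAt_neg (by rw [L.order_weierstrassP l hl]; decide)

/-- A solution of the Weierstrass equation is locally the Weierstrass function. -/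
lemma P_comp_local {F A A₁ : ℂ → ℂ} {z₀ : ℂ} (hF : AnalyticAt ℂ F z₀) (hA : AnalyticAt ℂ A z₀)
    (hA₁ : AnalyticAt ℂ A₁ z₀) (h1 : ∀ᶠ z in 𝓝 z₀, deriv A z = deriv F z * A₁ z)
    (h2 : ∀ᶠ z in 𝓝 z₀, deriv A₁ z = deriv F z * (6 * A z ^ 2 - L.g₂ / 2))
    (h0 : F z₀ ∉ L.lattice) (h3 : A z₀ = L.weierstrassP (F z₀))
    (h4 : A₁ z₀ = L.derivWeierstrassP (F z₀)) : ∀ᶠ z in 𝓝 z₀, A z = L.weierstrassP (F z) := by
  have k1 := (L.analyticOnNhd_weierstrassP _ h0).comp hF
  have k2 := (L.analyticOnNhd_derivWeierstrassP _ h0).comp hF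
  have k3 := hF.continuousAt.eventually (ev_notMem L h0)
  refine (ode_unique (g := deriv F) (K := deriv F * (6 * (A + L.weierstrassP ∘ F))) (hA.sub k1)
    (hA₁.sub k2) hF.deriv (hF.deriv.mul (analyticAt_const.mul (hA.add k1))) ?_ ?_
    (sub_eq_zero.mpr h3) (sub_eq_zero.mpr h4)).mono fun z hz => sub_eq_zero.mp hz
  · filter_upwards [h1, k3, hF.eventually_analyticAt, hA.eventually_analyticAt] with z e1 e2 e3 e4
    rw [(e4.differentiableAt.hasDerivAt.sub
      ((hasDerivAt_P L e2).comp z e3.differentiableAt.hasDerivAt)).deriv, e1]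
    simp only [Pi.mul_apply, Pi.sub_apply, Function.comp]
    ring
  · filter_upwards [h2, k3, hF.eventually_analyticAt, hA₁.eventually_analyticAt] with z e1 e2 e3 e4
    rw [(e4.differentiableAt.hasDerivAt.sub
      ((hasDerivAt_dP L e2).comp z e3.differentiableAt.hasDerivAt)).deriv, e1]
    simp only [Pi.mul_apply, Pi.sub_apply, Pi.add_apply, Function.comp, Pi.ofNat_apply]
    ring

/-- The pair of Weierstrass functions is injective modulo the lattice. -/
theorem sub_mem_of_P_eq {u v : ℂ} (hu : u ∉ L.lattice) (hv : v ∉ L.lattice)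
    (h1 : L.weierstrassP u = L.weierstrassP v)
    (h2 : L.derivWeierstrassP u = L.derivWeierstrassP v) : u - v ∈ L.lattice := by
  have k := (by fun_prop : ContinuousAt (fun z : ℂ => z + u) 0).eventually
    (ev_notMem L (by simpa using hu))
  have a1 : AnalyticAt ℂ (fun z => L.weierstrassP (z + u)) 0 :=
    AnalyticAt.comp (f := fun z => z + u) (L.analyticOnNhd_weierstrassP _ (by simpa using hu))
      (by fun_prop)
  have a2 : AnalyticAt ℂ (fun z => L.derivWeierstrassP (z + u)) 0 :=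
    AnalyticAt.comp (f := fun z => z + u) (L.analyticOnNhd_derivWeierstrassP _ (by simpa using hu))
      (by fun_prop)
  have h3 := P_comp_local L (F := fun z => z + v) (z₀ := 0) (by fun_prop) a1 a2
    (k.mono fun z hz => by simpa using ((hasDerivAt_P L hz).comp_add_const z u).deriv)
    (k.mono fun z hz => by simpa using ((hasDerivAt_dP L hz).comp_add_const z u).deriv) (by simpa using hv)
    (by simpa using h1) (by simpa using h2)
  have m : ∀ c : ℂ, MeromorphicOn (fun z => L.weierstrassP (z + c)) Set.univ := fun c z _ =>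
    MeromorphicAt.comp_analyticAt (g := fun z => z + c) (L.meromorphic_weierstrassP _)
      (by fun_prop)
  have h4 := meromorphicOrderAt_congr (mero_ext isPreconnected_univ (m u) (m v) (y := -v) trivial
    trivial (h3.filter_mono nhdsWithin_le_nhds))
  rw [meromorphicOrderAt_fun_comp_add_const_eq_meromorphicOrderAt,
    meromorphicOrderAt_fun_comp_add_const_eq_meromorphicOrderAt, neg_add_cancel,
    L.order_weierstrassP 0 L.lattice.zero_mem, neg_add_eq_sub] at h4
  by_contra h5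
  have := (L.analyticOnNhd_weierstrassP _ h5).meromorphicOrderAt_nonneg
  rw [h4] at this
  exact absurd this (by decide)

lemma exists_P_eq (x : ℂ) : ∃ z ∉ L.lattice, L.weierstrassP z = x := by
  classical
  by_contra! H
  let h : ℂ → ℂ := fun z => if z ∈ L.lattice then 0 else (L.weierstrassP z - x)⁻¹
  have h1 : ∀ z, AnalyticAt ℂ h z := fun z => by
    by_cases hz : z ∈ L.lattice
    · refine .of_meromorphicOrderAt_pos ?_ (if_pos hz)
      rw [← tendsto_zero_iff_meromorphicOrderAt_pos]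
      · refine (tendsto_inv₀_cobounded.comp ((tendsto_sub_const_cobounded x).comp
          (tendsto_P L hz))).congr' ((ev_notMem' L z).mono fun w hw => (if_neg hw).symm)
      · exact ((L.meromorphic_weierstrassP z).sub (MeromorphicAt.const x z)).inv.congr
          ((ev_notMem' L z).mono fun w hw => (if_neg hw).symm)
    · exact (((L.analyticOnNhd_weierstrassP z hz).sub analyticAt_const).inv
        (sub_ne_zero.mpr (H z hz))).congr ((ev_notMem L hz).mono fun w hw => (if_neg hw).symm)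
  have h2 : Differentiable ℂ h := fun z => (h1 z).differentiableAt
  have h3 := h2.apply_eq_apply_of_bounded (IsZLattice.isCompact_range_of_periodic L.lattice _
    h2.continuous fun z w hw => by
      simp only [h, L.lattice.add_mem_iff_left hw, L.weierstrassP_add_coe z ⟨w, hw⟩]).isBounded
    (L.ω₁ / 2) 0
  simp only [h, L.ω₁_div_two_notMem_lattice, L.lattice.zero_mem, if_true, if_false] at h3
  exact inv_ne_zero (sub_ne_zero.mpr (H _ L.ω₁_div_two_notMem_lattice)) h3

/-- Every affine point of the Weierstrass curve is a value of the Weierstrass functions. -/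
theorem exists_P_dP_eq {x y : ℂ} (h : y ^ 2 = 4 * x ^ 3 - L.g₂ * x - L.g₃) :
    ∃ z ∉ L.lattice, L.weierstrassP z = x ∧ L.derivWeierstrassP z = y := by
  obtain ⟨z, hz, rfl⟩ := exists_P_eq L x
  rcases sq_eq_sq_iff_eq_or_eq_neg.mp ((L.derivWeierstrassP_sq z hz).trans h.symm) with h1 | h1
  · exact ⟨z, hz, rfl, h1⟩
  · exact ⟨-z, by simpa using hz, by simp, by simp [h1]⟩

/-- A global solution of the Weierstrass equation is the Weierstrass function. -/
theorem P_comp {U : Set ℂ} (hU : IsOpen U) (hU' : IsPreconnected U) {F A A₁ g : ℂ → ℂ}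
    (hF : ∀ z ∈ U, HasDerivAt F (g z) z) (hg : ∀ z ∈ U, g z ≠ 0)
    (hA : ∀ z ∈ U, HasDerivAt A (g z * A₁ z) z) (hA₁ : ∀ z ∈ U, DifferentiableAt ℂ A₁ z)
    (hE : ∀ z ∈ U, A₁ z ^ 2 = 4 * A z ^ 3 - L.g₂ * A z - L.g₃) {z₀ : ℂ} (h0 : z₀ ∈ U)
    (h1 : A₁ z₀ ≠ 0) : ∃ c, ∀ z ∈ U, F z + c ∉ L.lattice ∧ A z = L.weierstrassP (F z + c) ∧
      A₁ z = L.derivWeierstrassP (F z + c) := by
  have an : ∀ {G : ℂ → ℂ}, (∀ z ∈ U, DifferentiableAt ℂ G z) → AnalyticOnNhd ℂ G U := fun h =>
    DifferentiableOn.analyticOnNhd (fun z hz => (h z hz).differentiableWithinAt) hU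
  have aF := an fun z hz => (hF z hz).differentiableAt
  have aA := an fun z hz => (hA z hz).differentiableAt
  obtain ⟨u, hu, e1, e2⟩ := exists_P_dP_eq L (hE z₀ h0)
  refine ⟨u - F z₀, ?_⟩
  generalize hc : u - F z₀ = c
  obtain rfl : u = F z₀ + c := by rw [← hc]; ring
  have hFc : ∀ z ∈ U, HasDerivAt (fun w => F w + c) (g z) z := fun z hz => (hF z hz).add_const c
  have aFc := an fun z hz => (hFc z hz).differentiableAt
  have h2 := P_comp_local L (aFc z₀ h0) (aA z₀ h0) (an hA₁ z₀ h0)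
    (by filter_upwards [hU.mem_nhds h0] with z hz; rw [(hA z hz).deriv, (hFc z hz).deriv]) (by
      filter_upwards [hU.mem_nhds h0, (hA₁ z₀ h0).continuousAt.eventually_ne h1] with z hz hz'
      have k3 := (((hA₁ z hz).hasDerivAt.pow 2).congr_of_eventuallyEq
        (Filter.mem_of_superset (hU.mem_nhds hz) fun w hw => (hE w hw).symm)).unique
        (((((hA z hz).pow 3).const_mul 4).sub ((hA z hz).const_mul L.g₂)).sub_const L.g₃)
      apply mul_left_cancel₀ hz'
      simp only [Nat.cast_ofNat, Nat.add_one_sub_one, pow_one] at k3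
      rw [(hFc z hz).deriv]
      linear_combination k3 / 2) hu e1.symm e2.symm
  have h3 : ∀ z ∈ U, A =ᶠ[𝓝[≠] z] L.weierstrassP ∘ fun w => F w + c := fun z hz =>
    mero_ext hU' aA.meromorphicOn
      (fun w hw => (L.meromorphic_weierstrassP _).comp_analyticAt (aFc w hw)) h0 hz
      (h2.filter_mono nhdsWithin_le_nhds)
  have h4 : ∀ z ∈ U, F z + c ∉ L.lattice := fun z hz h => by
    have := (aA z hz).meromorphicOrderAt_nonneg
    rw [meromorphicOrderAt_congr (h3 z hz), meromorphicOrderAt_comp_of_deriv_ne_zero (aFc z hz)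
      (by rw [(hFc z hz).deriv]; exact hg z hz), L.order_weierstrassP _ h] at this
    exact absurd this (by decide)
  intro z hz
  have h5 := (hasDerivAt_P L (h4 z hz)).comp z (hFc z hz)
  have h6 := ((hA z hz).continuousAt.eventuallyEq_nhds_iff_eventuallyEq_nhdsNE
    h5.continuousAt).mp (h3 z hz)
  refine ⟨h4 z hz, h6.eq_of_nhds, mul_left_cancel₀ (hg z hz) ?_⟩
  rw [(hA z hz).unique (h5.congr_of_eventuallyEq h6), mul_comm]

lemma lev1_qe {k : ℤ} (f : ModularForm 𝒮ℒ k) :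
    QE (fun z => f (UpperHalfPlane.ofComplex z)) (UpperHalfPlane.qExpansion 1 f) :=
  QE.of_hasSum fun z hz => by
    simpa [q1_eq, UpperHalfPlane.ofComplex_apply_of_im_pos hz] using
      ModularForm.hasSum_qExpansion f (h := 1) one_pos (by simp) ⟨z, hz⟩

lemma lev1_mob {k : ℤ} (f : ModularForm 𝒮ℒ k) {a b c d : ℤ} (h : a * d - b * c = 1) {z : ℂ}
    (hz : 0 < z.im) : f (UpperHalfPlane.ofComplex (mob a b c d z)) =
      (c * z + d) ^ k * f (UpperHalfPlane.ofComplex z) := by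
  let γ : SL(2, ℤ) := ⟨!![a, b; c, d], by simpa [Matrix.det_fin_two] using h⟩
  have h1 := SlashInvariantForm.slash_action_eqn' (Γ := 𝒮ℒ) f
    (γ := Matrix.SpecialLinearGroup.mapGL ℝ γ) ⟨γ, rfl⟩ ⟨z, hz⟩
  have h2 : UpperHalfPlane.ofComplex (mob a b c d z) = γ • (⟨z, hz⟩ : UpperHalfPlane) := by
    rw [← UpperHalfPlane.ofComplex_apply (γ • _), coe_smul_eq_mob]
    rfl
  rw [h2, UpperHalfPlane.ofComplex_apply_of_im_pos hz]
  exact h1.trans (by simp [γ])

lemma E_ne (τ : UpperHalfPlane) : ModularForm.E₄ τ ^ 3 - ModularForm.E₆ τ ^ 2 ≠ 0 := fun h =>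
  ModularForm.discriminant_ne_zero τ (by
    rw [ModularForm.discriminant_eq_E₄_cube_sub_E₆_sq, h, zero_div])

lemma exists_E_rel {x y : ℂ} (h : x ≠ y) :
    ∃ τ : UpperHalfPlane, x * ModularForm.E₄ τ ^ 3 = y * ModularForm.E₆ τ ^ 2 := by
  by_contra! H
  have q4 := lev1_qe ModularForm.E₄
  have q6 := lev1_qe ModularForm.E₆
  have t4 := q4.tendsto
  have t6 := q6.tendsto
  have m4 := fun a b c d h z hz => lev1_mob ModularForm.E₄ (a := a) (b := b) (c := c) (d := d) h
    (z := z) hz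
  have m6 := fun a b c d h z hz => lev1_mob ModularForm.E₆ (a := a) (b := b) (c := c) (d := d) h
    (z := z) hz
  have H' := fun z => sub_ne_zero.mpr (H (UpperHalfPlane.ofComplex z))
  have H'' := fun z => E_ne (UpperHalfPlane.ofComplex z)
  rw [EisensteinSeries.E_qExpansion_coeff_zero _ ⟨2, rfl⟩] at t4
  rw [EisensteinSeries.E_qExpansion_coeff_zero _ ⟨3, rfl⟩] at t6
  set E4 : ℂ → ℂ := fun z => ModularForm.E₄ (UpperHalfPlane.ofComplex z)
  set E6 : ℂ → ℂ := fun z => ModularForm.E₆ (UpperHalfPlane.ofComplex z)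
  let r : ℂ → ℂ := fun z => (E4 z ^ 3 - E6 z ^ 2) / (x * E4 z ^ 3 - y * E6 z ^ 2)
  have h1 : Tendsto r atI (𝓝 0) := by
    simpa [Pi.div_def] using ((t4.pow 3).sub (t6.pow 2)).div
      (((t4.pow 3).const_mul x).sub ((t6.pow 2).const_mul y)) (by simpa [sub_eq_zero] using h)
  have h2 : ∀ a b c d : ℤ, a * d - b * c = 1 → ∀ z : ℂ, 0 < z.im → r (mob a b c d z) = r z :=
    fun a b c d h z hz => by
      have := den_ne (a := a) (b := b) (c := c) (d := d) (by omega) hz
      simp only [r, E4, E6, m4 a b c d h z hz, m6 a b c d h z hz, zpow_ofNat]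
      generalize (c : ℂ) * z + d = w at this
      rw [eq_comm, ← mul_div_mul_left _ _ (pow_ne_zero 12 this)]
      congr 1 <;> ring
  obtain ⟨c, hc⟩ := const_of_inv 1 (h := r) (fun z hz =>
    (((q4.hol z hz).pow 3).sub ((q6.hol z hz).pow 2)).div
      ((((q4.hol z hz).pow 3).const_mul x).sub (((q6.hol z hz).pow 2).const_mul y)) (H' z))
    (fun a b c d h => h2 _ _ _ _ h) fun a b c d h => (Bdd.of_tendsto h1).congr (h2 _ _ _ _ h)
  obtain rfl : c = 0 :=
    tendsto_nhds_unique (tendsto_const_nhds.congr' (ev_pos.mono fun z hz => (hc z hz).symm)) h1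
  exact div_ne_zero (H'' I) (H' I) (hc I (by simp))

/-- The lattice `c (ℤ τ + ℤ)`. -/
def pairOf (τ : UpperHalfPlane) {c : ℂ} (hc : c ≠ 0) : PeriodPair :=
  ⟨c * τ, c, LinearIndependent.pair_iff.mpr fun s t h => by
    have h1 : (s : ℂ) * τ + t = 0 := mul_left_cancel₀ hc
      (by simpa [mul_add, mul_left_comm, mul_comm] using h)
    have h2 : s = 0 := by simpa [τ.im_pos.ne'] using congr_arg Complex.im h1
    exact ⟨h2, by simpa [h2] using h1⟩⟩

lemma G_pairOf (τ : UpperHalfPlane) {c : ℂ} (hc : c ≠ 0) {k : ℕ} (hk : 3 ≤ k) :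
    (pairOf τ hc).G k = (c ^ k)⁻¹ * (2 * riemannZeta k * ModularForm.E hk τ) := by
  have h1 : ModularForm.E hk τ = (1 / 2 : ℂ) * eisensteinSeries (N := 1) 0 k τ := rfl
  rw [h1, show ∀ x y : ℂ, 2 * x * (1 / 2 * y) = x * y from fun x y => by ring,
    ← tsum_eisSummand_eq_riemannZeta_mul_eisensteinSeries hk, ← tsum_mul_left, PeriodPair.G,
    ← (pairOf τ hc).latticeEquivProd.symm.toEquiv.tsum_eq, ← (finTwoArrowEquiv ℤ).tsum_eq]
  refine tsum_congr fun v => ?_
  rw [LinearEquiv.coe_toEquiv, PeriodPair.latticeEquiv_symm_apply]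
  simp only [pairOf, EisensteinSeries.eisSummand, zpow_neg, zpow_natCast, ← mul_inv, ← mul_pow,
    finTwoArrowEquiv_apply]
  congr 2
  change v 0 * (c * τ) + v 1 * c = _
  ring

/-- Every pair of nonzero invariants with nonzero discriminant comes from a lattice. -/
theorem exists_periodPair {g₂ g₃ : ℂ} (h2 : g₂ ≠ 0) (h3 : g₃ ≠ 0) (h : g₂ ^ 3 ≠ 27 * g₃ ^ 2) :
    ∃ L : PeriodPair, L.g₂ = g₂ ∧ L.g₃ = g₃ := by
  obtain ⟨τ, hτ⟩ := exists_E_rel h.symm
  have h4 : ModularForm.E₄ τ ≠ 0 := fun h4 => E_ne τ (by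
    rw [h4] at hτ ⊢
    have := (mul_eq_zero.mp (hτ.symm.trans (by ring))).resolve_left (pow_ne_zero 3 h2)
    rw [this]
    ring)
  have h6 : ModularForm.E₆ τ ≠ 0 := fun h6 => by
    rw [h6] at hτ
    exact mul_ne_zero (mul_ne_zero (by norm_num) (pow_ne_zero 2 h3)) (pow_ne_zero 3 h4)
      (hτ.trans (by ring))
  have hπ : (π : ℂ) ≠ 0 := by exact_mod_cast Real.pi_ne_zero
  obtain ⟨c, hc⟩ := IsAlgClosed.exists_eq_mul_self
    (2 / 9 * π ^ 2 * ModularForm.E₆ τ * g₂ / (ModularForm.E₄ τ * g₃))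
  have hc0 : c ≠ 0 := by
    rintro rfl
    simp [*] at hc
  have z6 : riemannZeta (6 : ℕ) = π ^ 6 / 945 := by
    have := riemannZeta_two_mul_nat (k := 3) (by norm_num)
    norm_num [show bernoulli 6 = 1 / 42 by decide +kernel, Nat.factorial] at this ⊢
    rw [this]
    ring
  refine ⟨pairOf τ hc0, ?_, ?_⟩
  · rw [PeriodPair.g₂, G_pairOf τ hc0 (by norm_num : 3 ≤ 4), Nat.cast_ofNat, riemannZeta_four,
      show c ^ 4 = (c * c) ^ 2 by ring, ← hc]
    field_simp
    linear_combination 180 * hτ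
  · rw [PeriodPair.g₃, G_pairOf τ hc0 (by norm_num : 3 ≤ 6), z6,
      show c ^ 6 = (c * c) ^ 3 by ring, ← hc]
    field_simp
    linear_combination 3780 * hτ

end Pool.Agent.Lib.MP_696deb_nt.Unif
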