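import Pool.Agent.Lib.MP_696deb_nt.JFun
import Pool.Agent.Lib.MP_696deb_nt.UnifP

/-! Points with the same modular invariant are related by an integer matrix. -/

open Complex ModularForm

namespace Pool.Agent.Lib.MP_696deb_nt

lemma lattice_le_of_g_eq {L L' : PeriodPair} (h2 : L'.g₂ = L.g₂) (h3 : L'.g₃ = L.g₃) {l : ℂ}
    (hl : l ∈ L'.lattice) : l ∈ L.lattice := by
  have hc : (L'.lattice : Set ℂ).Countable := by
    have := L'.latticeEquivProd.toEquiv.countable_iff.mpr inferInstance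
    exact Set.countable_coe_iff.mp this
  obtain ⟨z, h0, h1⟩ := ((Unif.ev_notMem' L' 0).and (Unif.ev_dP_ne L' 0)).exists
  obtain ⟨c, h⟩ := Unif.P_comp L L'.isClosed_lattice.isOpen_compl
    (hc.isConnected_compl_of_one_lt_rank (by simp)).isPreconnected (F := id) (g := fun _ => 1)
    (fun z _ => hasDerivAt_id z) (fun _ _ => one_ne_zero)
    (fun z hz => by simpa using Unif.hasDerivAt_P L' hz)
    (fun z hz => (L'.analyticOnNhd_derivWeierstrassP z hz).differentiableAt)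
    (fun z hz => by rw [← h2, ← h3]; exact L'.derivWeierstrassP_sq z hz) h0 h1
  obtain ⟨a1, a2, a3⟩ := h z h0
  obtain ⟨b1, b2, b3⟩ := h (z + l) fun h => h0 (by simpa using L'.lattice.sub_mem h hl)
  simpa using Unif.sub_mem_of_P_eq L b1 a1
    (by rw [← b2, ← a2]; exact L'.weierstrassP_add_coe z ⟨l, hl⟩)
    (by rw [← b3, ← a3]; exact L'.derivWeierstrassP_add_coe z ⟨l, hl⟩)

lemma exists_scale {x y a b t : ℂ} (ht : t ≠ 0) (h1 : x ^ 3 = t * a ^ 3) (h2 : y ^ 2 = t * b ^ 2)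
    (h : a ^ 3 - b ^ 2 ≠ 0) : ∃ c : ℂ, c ≠ 0 ∧ x = c ^ 4 * a ∧ y = c ^ 6 * b := by
  have hx : a ≠ 0 → x ≠ 0 := fun ha hx => by simp [hx, ht, ha] at h1
  have hy : b ≠ 0 → y ≠ 0 := fun hb hy => by simp [hy, ht, hb] at h2
  rcases eq_or_ne a 0 with rfl | ha
  · have hb : b ≠ 0 := by simpa using h
    obtain ⟨c, hc⟩ := IsAlgClosed.exists_pow_nat_eq (y / b) (n := 6) (by norm_num)
    exact ⟨c, fun h0 => by simp [h0, eq_comm, hy hb, hb] at hc, by simpa using h1,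
      by rw [hc, div_mul_cancel₀ _ hb]⟩
  rcases eq_or_ne b 0 with rfl | hb
  · obtain ⟨c, hc⟩ := IsAlgClosed.exists_pow_nat_eq (x / a) (n := 4) (by norm_num)
    exact ⟨c, fun h0 => by simp [h0, eq_comm, hx ha, ha] at hc,
      by rw [hc, div_mul_cancel₀ _ ha], by simpa using h2⟩
  have := hx ha
  have := hy hb
  obtain ⟨c, hc⟩ := IsAlgClosed.exists_pow_nat_eq (y * a / (b * x)) (n := 2) (by norm_num)
  refine ⟨c, fun h0 => by simp [eq_comm, *] at hc, ?_, ?_⟩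
  · rw [show c ^ 4 = (c ^ 2) ^ 2 by ring, hc]
    field_simp
    linear_combination b ^ 2 * h1 - a ^ 3 * h2
  · rw [show c ^ 6 = (c ^ 2) ^ 3 by ring, hc]
    field_simp
    linear_combination b ^ 2 * h1 - a ^ 3 * h2

theorem exists_act_of_jf_eq {τ τ' : ℂ} (hτ : 0 < τ.im) (hτ' : 0 < τ'.im) (h : jf τ' = jf τ) :
    ∃ g : MZ, g.det ≠ 0 ∧ act g τ = τ' := by
  have e1 := discriminant_eq_E₄_cube_sub_E₆_sq ⟨τ, hτ⟩
  have e2 := discriminant_eq_E₄_cube_sub_E₆_sq ⟨τ', hτ'⟩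
  change Dl τ = _ at e1
  change Dl τ' = _ at e2
  have d1 := Dl_ne hτ
  have d2 := Dl_ne hτ'
  rw [jf, jf, E4, E4, UpperHalfPlane.ofComplex_apply_of_im_pos hτ,
    UpperHalfPlane.ofComplex_apply_of_im_pos hτ', div_eq_div_iff d2 d1] at h
  obtain ⟨c, hc, h4, h6⟩ := exists_scale (x := E₄ ⟨τ', hτ'⟩) (y := E₆ ⟨τ', hτ'⟩) (div_ne_zero d2 d1)
    (by field_simp; linear_combination h)
    (by field_simp; linear_combination h + 1728 * Dl τ * e2 - 1728 * Dl τ' * e1)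
    (Unif.E_ne ⟨τ, hτ⟩)
  have hl := fun l => lattice_le_of_g_eq (L := Unif.pairOf ⟨τ, hτ⟩ one_ne_zero)
    (L' := Unif.pairOf ⟨τ', hτ'⟩ hc) (l := l)
    (by simp only [PeriodPair.g₂, Unif.G_pairOf _ _ (by norm_num : 3 ≤ 4), h4]; field_simp)
    (by simp only [PeriodPair.g₃, Unif.G_pairOf _ _ (by norm_num : 3 ≤ 6), h6]; field_simp)
  obtain ⟨a, b, h1⟩ := PeriodPair.mem_lattice.mp (hl _ (PeriodPair.ω₁_mem_lattice _))
  obtain ⟨e, d, h2⟩ := PeriodPair.mem_lattice.mp (hl _ (PeriodPair.ω₂_mem_lattice _))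
  simp only [Unif.pairOf, one_mul, mul_one] at h1 h2
  refine ⟨!![a, b; e, d], fun h0 => ?_, by rw [act_of, mob, h1, h2, mul_div_cancel_left₀ _ hc]⟩
  have h3 : (a : ℂ) * d - b * e = 0 := by simpa [← Int.cast_mul, ← Int.cast_sub] using h0
  have h7 : (d : ℂ) * τ' = b :=
    mul_left_cancel₀ hc (by linear_combination b * h2 - d * h1 + τ * h3)
  have h8 : (e : ℂ) * τ' = a :=
    mul_left_cancel₀ hc (by linear_combination a * h2 - e * h1 - h3)
  have h9 : d = 0 := by simpa [hτ'.ne'] using congr_arg im h7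
  have h10 : e = 0 := by simpa [hτ'.ne'] using congr_arg im h8
  exact hc (by simp [← h2, h9, h10])

end Pool.Agent.Lib.MP_696deb_nt
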