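import Pool.Agent.Lib.MP_696deb_nt.ModPoly
import Pool.Agent.Lib.MP_696deb_nt.JInj

/-! Ordinary points, the canonical isogeny and its contraction property. -/

open PowerSeries Complex

namespace Pool.Agent.Lib.MP_696deb_nt

section sp
variable {ι R R' : Type*} [Fintype ι] [DecidableEq ι] [CommRing R] [CommRing R']

/-- The numerator of a partial fraction expansion. -/
def sp (b a : ι → R) : R := ∑ i, b i * ∏ k ∈ Finset.univ.erase i, a k

lemma sp_perm (b a : ι → R) (σ : Equiv.Perm ι) :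
    sp (fun i => b (σ i)) (fun i => a (σ i)) = sp b a := by
  rw [sp, sp, ← Equiv.sum_comp σ fun i => b i * ∏ k ∈ Finset.univ.erase i, a k]
  exact Finset.sum_congr rfl fun i _ => congr_arg _
    (Finset.prod_equiv σ (by simp) fun _ _ => rfl)

lemma map_sp (f : R →+* R') (b a : ι → R) :
    f (sp b a) = sp (fun i => f (b i)) fun i => f (a i) := by
  simp only [sp, map_sum, map_mul, map_prod]

lemma sp_of_eq_zero (b : ι → R) {a : ι → R} {i : ι} (h : a i = 0) :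
    sp b a = b i * ∏ k ∈ Finset.univ.erase i, a k :=
  Finset.sum_eq_single i (fun l _ hl => by
    rw [Finset.prod_eq_zero (i := i) (by simp [hl.symm]) h, mul_zero]) (by simp)

variable {Γ : Type*} [LinearOrderedCommGroupWithZero Γ] (V : Valuation R Γ)

omit [Fintype ι] [DecidableEq ι] in
lemma val_prod_le {s : Finset ι} {a : ι → R} (ha : ∀ k, V (a k) ≤ 1) : V (∏ k ∈ s, a k) ≤ 1 := by
  rw [map_prod]; exact Finset.prod_le_one' fun k _ => ha k

lemma val_sp_sub {b a : ι → R} (hb : ∀ k, V (b k) ≤ 1) (ha : ∀ k, V (a k) ≤ 1) (i : ι) :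
    V (sp b a - b i * ∏ k ∈ Finset.univ.erase i, a k) ≤ V (a i) := by
  rw [sp, ← Finset.add_sum_erase _ _ (Finset.mem_univ i), add_sub_cancel_left]
  refine V.map_sum_le fun l hl => ?_
  rw [← Finset.mul_prod_erase _ _ (a := i) (by simpa [eq_comm] using hl), map_mul, map_mul]
  exact (mul_le_of_le_one_left' (hb l)).trans (mul_le_of_le_one_right' (val_prod_le V ha))

omit [Fintype ι] in
lemma val_eq_one_of_prod {s : Finset ι} {a : ι → R} (ha : ∀ k, V (a k) ≤ 1)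
    (h : V (∏ k ∈ s, a k) = 1) {k : ι} (hk : k ∈ s) : V (a k) = 1 := by
  rw [← Finset.mul_prod_erase _ _ hk, map_mul] at h
  exact le_antisymm (ha k) (h ▸ mul_le_of_le_one_right' (val_prod_le V ha))

end sp

lemma LE.expand {S : AddSubgroup ℂ} {F : ℂ → ℂ} (h : LE S F) {a : ℕ} (ha : a ≠ 0) :
    LE S fun z => F (a * z) := by
  obtain ⟨n, A, h1, h2⟩ := h
  exact ⟨a * n, _, (h1.expand a ha).congr fun z _ => by rw [q1_nat_mul, ← pow_mul], h2.expand a ha⟩

lemma exists_factor {p : ℕ} (hp : p.Prime) {B : MZ} (h : (p : ℤ) ∣ B.det) :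
    ∃ i M, B = M * rP p i := by
  have := Fact.mk hp
  by_cases h0 : (p : ℤ) ∣ B 0 0 ∧ (p : ℤ) ∣ B 1 0
  · obtain ⟨⟨a, ha⟩, c, hc⟩ := h0
    refine ⟨none, !![a, B 0 1; c, B 1 1], ?_⟩
    ext i j
    fin_cases i <;> fin_cases j <;> simp [rP, ut, Matrix.mul_apply, ha, hc, mul_comm]
  obtain ⟨k, h1, h2⟩ : ∃ k : ZMod p, (B 0 1 : ZMod p) = B 0 0 * k ∧ (B 1 1 : ZMod p) = B 1 0 * k := by
    rw [Matrix.det_fin_two, ← ZMod.intCast_zmod_eq_zero_iff_dvd] at h
    simp only [← ZMod.intCast_zmod_eq_zero_iff_dvd, not_and_or] at h0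
    push_cast at h
    rcases h0 with h0 | h0
    · exact ⟨B 0 1 / B 0 0, by field_simp, by field_simp; linear_combination h⟩
    · exact ⟨B 1 1 / B 1 0, by field_simp; linear_combination -h, by field_simp⟩
  obtain ⟨b, hb⟩ : (p : ℤ) ∣ B 0 1 - B 0 0 * k.val := by
    rw [← ZMod.intCast_zmod_eq_zero_iff_dvd]; simp [h1]
  obtain ⟨d, hd⟩ : (p : ℤ) ∣ B 1 1 - B 1 0 * k.val := by
    rw [← ZMod.intCast_zmod_eq_zero_iff_dvd]; simp [h2]
  refine ⟨some ⟨k.val, k.val_lt⟩, !![B 0 0, b; B 1 0, d], ?_⟩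
  ext i j
  fin_cases i <;> fin_cases j <;> simp [rP, ut, Matrix.mul_apply, -ZMod.natCast_val]
  · linear_combination hb
  · linear_combination hd

variable {Γ : Type*} [LinearOrderedCommGroupWithZero Γ] {V : Valuation ℂ Γ} {p : ℕ} {τ τ' : ℂ}

lemma val_int_eq_one (hp : p.Prime) (hV : V p < 1) {n : ℤ} (hn : ¬ (p : ℤ) ∣ n) : V n = 1 := by
  obtain ⟨a, b, h⟩ := (Nat.prime_iff_prime_int.mp hp).irreducible.coprime_iff_not_dvd.mpr hn
  have h1 : (b : ℂ) * n = 1 - a * p := by rw [eq_sub_iff_add_eq']; exact_mod_cast h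
  have h2 := V.map_one_sub_of_lt (x := a * p) (by
    rw [map_mul]; exact mul_lt_one_of_nonneg_of_lt_one_right (val_int V a) zero_le hV)
  rw [← h1, map_mul] at h2
  exact le_antisymm (val_int V n) (h2 ▸ mul_le_of_le_one_left' (val_int V b))

lemma val_pow_sub_pow_lt (hp : p.Prime) (hV : V p < 1) {x y : ℂ} (hx : V x ≤ 1) (hy : V y ≤ 1)
    (h : V (x - y) < 1) (hne : x ≠ y) : V (x ^ p - y ^ p) < V (x - y) := by
  obtain ⟨r, hr⟩ := exists_add_pow_prime_eq hp (⟨x, hx⟩ - ⟨y, hy⟩ : V.integer) ⟨y, hy⟩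
  have h2 := congr_arg Subtype.val hr
  push_cast at h2
  obtain ⟨k, rfl⟩ : ∃ k, p = k + 2 := ⟨p - 2, by have := hp.two_le; omega⟩
  rw [sub_add_cancel] at h2
  rw [show x ^ (k + 2) - y ^ (k + 2) = ((x - y) ^ (k + 1) + (k + 2 : ℕ) * (y * r)) * (x - y) by
    linear_combination h2, map_mul]
  refine mul_lt_of_lt_one_left (zero_lt_iff.mpr (V.ne_zero_iff.mpr (sub_ne_zero.mpr hne)))
    (V.map_add_lt ?_ ?_)
  · rw [map_pow]; exact pow_lt_one₀ zero_le h k.succ_ne_zero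
  · rw [map_mul, map_mul]
    exact mul_lt_one_of_nonneg_of_lt_one_left zero_le hV (mul_le_one' hy r.2)

lemma LE.val_le {F : ℂ → ℂ} {N : ℕ} (hN : N ≠ 0) (h : (fun z => F (N * z)) ∈ LR V.integer)
    (hF : Inv1 F) (hτ : 0 < τ.im) (hj : V (jf τ) ≤ 1) : V (F τ) ≤ 1 := by
  obtain ⟨P, h1, h2⟩ := (LE.of_comp hN hF.periodic h).exists_poly hF
  rw [h2 τ hτ]
  exact val_eval_le V h1 hj

/-- The quotients of discriminants of the isogenies of degree `p`. -/
noncomputable def ph (p : ℕ) (i : Option (Fin p)) (z : ℂ) : ℂ := phiJ (rP p i) z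

/-- The invariants of the isogenous curves. -/
noncomputable def jj (p : ℕ) (i : Option (Fin p)) (z : ℂ) : ℂ := jf (act (rP p i) z)

lemma rP_pos (hp : p.Prime) (i : Option (Fin p)) : 0 < (rP p i).det := by
  rw [(isReps_rP hp).det]; exact_mod_cast hp.pos

lemma permF_ph (hp : p.Prime) : PermF fun i z => (ph p i z, jj p i z) :=
  (isReps_rP hp).permF (by exact_mod_cast hp.pos)

lemma act_none (z : ℂ) : act (rP p none) z = p * z := by simp [rP, ut, act_of, mob]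

lemma act_some (hp : p.Prime) (k : Fin p) (z : ℂ) :
    act (rP p (some k)) (p * z) = (1 : ℕ) * z + ((((k : ℕ) : ℤ) / p : ℝ) : ℂ) := by
  simpa only [one_mul, rP] using act_ut (a := 1) (b := k) hp.ne_zero z

lemma ph_none (z : ℂ) : ph p none z = p ^ 12 * (Dl (p * z) * (Dl z)⁻¹) := by
  rw [ph, ← act_none, rP, phi_ut one_ne_zero, mul_assoc]

lemma ph_some (hp : p.Prime) (k : Fin p) (z : ℂ) : ph p (some k) (p * z) =
    Dl ((1 : ℕ) * z + ((((k : ℕ) : ℤ) / p : ℝ) : ℂ)) * (Dl (p * z))⁻¹ := by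
  rw [ph, ← act_some hp, rP, phi_ut hp.ne_zero]; simp

lemma LZ.some_mem {F : ℂ → ℂ} (h : LZ F) (hp : p.Prime) (k : ℤ) :
    (fun z => F ((1 : ℕ) * z + ((k / p : ℝ) : ℂ))) ∈ LR V.integer :=
  h.affine_mem V one_ne_zero (val_eq_one_of_pow V hp.ne_zero (q1_div_pow_eq_one k hp.ne_zero))

lemma LZ.sq_mem {F : ℂ → ℂ} (h : LZ F) (hp : p.Prime) :
    (fun z => F (p * (p * z))) ∈ LR V.integer :=
  LE.expand (F := fun z => F (p * z)) (h.expand_mem V hp.ne_zero) hp.ne_zero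

lemma val_prod_ph (hp : p.Prime) (hτ : 0 < τ.im) (hj : V (jf τ) ≤ 1) :
    V (∏ i, ph p i τ) = V p ^ 12 := by
  have h0 : (p : ℂ) ^ 12 ≠ 0 := pow_ne_zero _ (by exact_mod_cast hp.ne_zero)
  have h1 := LE.val_le (V := V) (F := fun z => ((p : ℂ) ^ 12)⁻¹ * ∏ i, ph p i z) hp.ne_zero
    (LE.congr (mul_mem (mul_mem (lz_Dl.sq_mem hp) (lz_Dl_inv.expand_mem V hp.ne_zero))
      (prod_mem (t := Finset.univ) fun (k : Fin p) _ => mul_mem (lz_Dl.some_mem hp (k : ℕ))
        (lz_Dl_inv.expand_mem V hp.ne_zero))) fun z _ => by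
      simp only [Fintype.prod_option, ph_none, ph_some hp, Pi.mul_apply, Finset.prod_apply]
      rw [mul_assoc (_ ^ 12), inv_mul_cancel_left₀ h0])
    ((permF_ph hp).inv1 (fun _ a => ((p : ℂ) ^ 12)⁻¹ * ∏ i, (a i).1) fun _ a σ => by
      rw [Equiv.prod_comp σ fun k => (a k).1]) hτ hj
  have h2 := LE.val_le (V := V) (F := fun z => (p : ℂ) ^ 12 * ∏ i, (ph p i z)⁻¹) hp.ne_zero
    (LE.congr (mul_mem (mul_mem (lz_Dl_inv.sq_mem hp) (lz_Dl.expand_mem V hp.ne_zero))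
      (prod_mem (t := Finset.univ) fun (k : Fin p) _ => mul_mem (lz_Dl_inv.some_mem hp (k : ℕ))
        (lz_Dl.expand_mem V hp.ne_zero))) fun z _ => by
      simp only [Fintype.prod_option, ph_none, ph_some hp, Pi.mul_apply, Finset.prod_apply,
        mul_inv, inv_inv]
      rw [mul_assoc (_ ^ 12)⁻¹, mul_inv_cancel_left₀ h0])
    ((permF_ph hp).inv1 (fun _ a => (p : ℂ) ^ 12 * ∏ i, ((a i).1)⁻¹) fun _ a σ => by
      rw [Equiv.prod_comp σ fun k => ((a k).1)⁻¹]) hτ hj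
  have h3 := V.ne_zero_iff.mpr
    (Finset.prod_ne_zero_iff.mpr fun i (_ : i ∈ Finset.univ) => phi_ne (rP_pos hp i) hτ)
  have h4 := V.ne_zero_iff.mpr h0
  simp only [Finset.prod_inv_distrib, map_mul, map_inv₀] at h1 h2
  rw [← map_pow]
  exact le_antisymm ((inv_mul_le_one₀ (zero_lt_iff.mpr h4)).mp h1)
    ((div_le_one₀ (zero_lt_iff.mpr h3)).mp (by rwa [div_eq_mul_inv]))

variable (V) in
/-- The expansions of the quotients of discriminants. -/
noncomputable def Ph (hp : p.Prime) (i : Option (Fin p)) : LR V.integer :=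
  ⟨fun z => ph p i (p * z), by
    rcases i with _ | k
    · simpa only [mul_one, ph, rP] using phi_ut_mem V (b := 0) hp.ne_zero one_ne_zero
    · simpa only [one_mul, ph, rP] using phi_ut_mem V (b := k) one_ne_zero hp.ne_zero⟩

variable (V) in
/-- The expansions of the differences of the invariants with the Frobenius twist. -/
noncomputable def Jj (hp : p.Prime) (i : Option (Fin p)) : LR V.integer :=
  ⟨fun z => jj p i (p * z) - jf (p * z) ^ p, sub_mem (by
    rcases i with _ | k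
    · simpa only [mul_one, jj, rP] using lz_jf.ut_mem V (b := 0) hp.ne_zero one_ne_zero
    · simpa only [one_mul, jj, rP] using lz_jf.ut_mem V (b := k) one_ne_zero hp.ne_zero)
    (pow_mem (lz_jf.expand_mem V hp.ne_zero) p)⟩

variable (V) in
/-- Evaluation of an expansion. -/
noncomputable def evz (z : ℂ) : LR V.integer →+* ℂ :=
  (Pi.evalRingHom (fun _ => ℂ) z).comp (LR V.integer).subtype

lemma evz_apply (z : ℂ) (F : LR V.integer) : evz V z F = F.1 z := rfl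

variable (V) in
/-- Reduction of an expansion. -/
noncomputable abbrev red : LR V.integer →+* LR V.integer ⧸ LI V := Ideal.Quotient.mk (LI V)

lemma le_of_red {G : LR V.integer} (h : red V G = 0) {F : ℂ → ℂ} (hF : ∀ z, F z = evz V z G) :
    LE (V.ltAddSubgroup 1) F := LE.congr (Ideal.Quotient.eq_zero_iff_mem.mp h) fun z _ => hF z

lemma red_const {x : ℂ} (h : V x < 1) : red V ⟨_, const_mem V h.le⟩ = 0 :=
  Ideal.Quotient.eq_zero_iff_mem.mpr (LE.const h)

lemma red_nat (hV : V p < 1) : (p : LR V.integer ⧸ LI V) = 0 := by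
  rw [← map_natCast (red V)]; exact red_const hV

lemma red_Ph_none (hp : p.Prime) (hV : V p < 1) : red V (Ph V hp none) = 0 := by
  have : Ph V hp none = p ^ 12 *
      ⟨_, mul_mem (lz_Dl.sq_mem hp) (lz_Dl_inv.expand_mem V hp.ne_zero)⟩ :=
    Subtype.ext (funext fun z => ph_none _)
  rw [this, map_mul, map_pow, map_natCast, red_nat hV, zero_pow (by norm_num), zero_mul]

lemma red_Ph_some (hp : p.Prime) (hV : V p < 1) (k l : Fin p) :
    red V (Ph V hp (some k)) = red V (Ph V hp (some l)) := by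
  have h := fun k : Fin p => lz_Dl.affine_sub V one_ne_zero
    (val_root_sub_one V hp hV (q1_div_pow_eq_one (k : ℕ) hp.ne_zero))
  refine Ideal.Quotient.eq.mpr (LE.congr (LE.mul ((h k).add (h l).neg)
    (lz_Dl_inv.expand_mem V hp.ne_zero) fun s hs t ht => ?_) fun z _ => ?_)
  · rw [Valuation.mem_ltAddSubgroup_iff, map_mul]
    exact mul_lt_one_of_nonneg_of_lt_one_left zero_le hs ht
  · change ph p _ _ - ph p _ _ = _
    simp only [ph_some hp, Pi.mul_apply, Pi.add_apply, Pi.neg_apply]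
    ring

lemma red_Jj_none (hp : p.Prime) (hV : V p < 1) : red V (Jj V hp none) = 0 :=
  Ideal.Quotient.eq_zero_iff_mem.mpr (LE.congr ((lz_jf.frob V hp hV).expand hp.ne_zero)
    fun z _ => by simp only [Jj, jj, act_none])

lemma prod_erase_none {R : Type*} [CommRing R] (a : Option (Fin p) → R) :
    ∏ k ∈ Finset.univ.erase none, a k = ∏ k : Fin p, a (some k) := by
  refine (Finset.prod_bij (fun k _ => some k) (by simp) (by simp) ?_ fun _ _ => rfl).symm
  rintro (_ | k) h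
  · simp at h
  · simp

lemma val_ph_le (hp : p.Prime) (hτ : 0 < τ.im) (hj : V (jf τ) ≤ 1) (i : Option (Fin p)) :
    V (ph p i τ) ≤ 1 := (val_isog (rP_pos hp i) hτ hj).1

/-- The Hasse invariant, up to a power. -/
noncomputable def hasse (p : ℕ) (z : ℂ) : ℂ := sp (fun _ => 1) fun i => ph p i z

lemma inv1_sp (hp : p.Prime) (b a : ℂ → ℂ × ℂ → ℂ) :
    Inv1 fun z => sp (fun i => b (jf z) (ph p i z, jj p i z)) fun i => a (jf z) (ph p i z, jj p i z) :=
  (permF_ph hp).inv1 (fun x c => sp (fun i => b x (c i)) fun i => a x (c i)) fun x c σ =>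
    sp_perm (fun i => b x (c i)) (fun i => a x (c i)) σ

lemma inv1_prod (hp : p.Prime) (x : ℂ) : Inv1 fun z => ∏ i, (x - ph p i z) :=
  (permF_ph hp).inv1 (fun _ a => ∏ i, (x - (a i).1)) fun _ a σ => by
    rw [Equiv.prod_comp σ fun k => x - (a k).1]

lemma inv1_hasse (hp : p.Prime) : Inv1 (hasse p) := inv1_sp hp (fun _ _ => 1) fun _ c => c.1

lemma val_hasse (hp : p.Prime) (hV : V p < 1) (hτ : 0 < τ.im) (hj : V (jf τ) ≤ 1)
    {i : Option (Fin p)} (hi : V (ph p i τ) = 1) : V (hasse p τ) = 1 := by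
  set x := ph p i τ with hx
  let c : LR V.integer := ⟨_, const_mem V hi.le⟩
  have h1 : red V (∏ k, (c - Ph V hp k) - c * (c ^ p - sp (fun _ => 1) (Ph V hp))) = 0 := by
    obtain ⟨r, hr⟩ := exists_add_pow_prime_eq hp (red V c - red V (Ph V hp (some ⟨0, hp.pos⟩)))
      (red V (Ph V hp (some ⟨0, hp.pos⟩)))
    simp only [map_sub, map_mul, map_prod, map_pow, map_sp, Fintype.prod_option,
      sp_of_eq_zero _ (a := fun i => red V (Ph V hp i)) (red_Ph_none hp hV), red_Ph_none hp hV,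
      prod_erase_none, fun k => red_Ph_some hp hV k ⟨0, hp.pos⟩, Finset.prod_const, map_one,
      Finset.card_univ, Fintype.card_fin]
    rw [sub_add_cancel, red_nat hV] at hr
    linear_combination (-red V c) * hr
  have h2 := LE.val_lt (F := fun z => ∏ k, (x - ph p k z) - x * (x ^ p - hasse p z)) hp.ne_zero
    (le_of_red h1 fun z => by
      simp only [map_sub, map_mul, map_prod, map_pow, map_sp, map_one]; rfl)
    (fun g hg z hz => by
      have := inv1_prod hp x g hg z hz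
      simp only at this ⊢
      rw [this, inv1_hasse hp g hg z hz]) hτ hj
  rw [Finset.prod_eq_zero (Finset.mem_univ i) (sub_self _), zero_sub, V.map_neg, map_mul, hi,
    one_mul] at h2
  have h3 : V (x ^ p) = 1 := by rw [map_pow, hi, one_pow]
  rw [← sub_sub_cancel (x ^ p) (hasse p τ), V.map_sub_eq_of_lt_left (h3 ▸ h2), h3]

variable (V p) in
/-- The isogeny number `i` is the canonical one. -/
structure Can (τ : ℂ) (i : Option (Fin p)) : Prop where
  pos : 0 < τ.im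
  int : V (jf τ) ≤ 1
  unit : ∀ k, k ≠ i → V (ph p k τ) = 1
  val : V (ph p i τ) = V p ^ 12

variable (V p) in
/-- Ordinary points. -/
def Ord (τ : ℂ) : Prop := ∃ i, Can V p τ i

lemma val_ph_mul (hp : p.Prime) (hτ : 0 < τ.im) (hj : V (jf τ) ≤ 1) (i : Option (Fin p)) :
    V (ph p i τ) * V (∏ k ∈ Finset.univ.erase i, ph p k τ) = V p ^ 12 := by
  rw [← map_mul, Finset.mul_prod_erase _ (fun k => ph p k τ) (Finset.mem_univ i),
    val_prod_ph hp hτ hj]

lemma ord_of_hasse (hp : p.Prime) (hτ : 0 < τ.im) (hj : V (jf τ) ≤ 1)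
    (h : V (hasse p τ) = 1) : Ord V p τ := by
  obtain ⟨i, hi⟩ : ∃ i, V (∏ k ∈ Finset.univ.erase i, ph p k τ) = 1 := by
    by_contra! H
    rw [hasse, sp] at h
    refine h.not_lt (V.map_sum_lt one_ne_zero fun i _ => ?_)
    rw [one_mul]
    exact (val_prod_le V (val_ph_le hp hτ hj)).lt_of_ne (H i)
  exact ⟨i, hτ, hj, fun k hk => val_eq_one_of_prod V (val_ph_le hp hτ hj) hi (by simp [hk]),
    by rw [← val_ph_mul hp hτ hj i, hi, mul_one]⟩

lemma can_of_val (hp : p.Prime) (hτ : 0 < τ.im) (hj : V (jf τ) ≤ 1) {i : Option (Fin p)}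
    (h : V (ph p i τ) = V p ^ 12) : Can V p τ i := by
  have h1 := val_ph_mul hp hτ hj i
  rw [h, mul_eq_left₀ (pow_ne_zero _ (V.ne_zero_iff.mpr (by exact_mod_cast hp.ne_zero)))] at h1
  exact ⟨hτ, hj, fun k hk => val_eq_one_of_prod V (val_ph_le hp hτ hj) h1 (by simp [hk]), h⟩

lemma Ord.exists_unit (hp : p.Prime) (h : Ord V p τ) : ∃ k, V (ph p k τ) = 1 := by
  obtain ⟨_ | i, h⟩ := h
  exacts [⟨some ⟨0, hp.pos⟩, h.unit _ (by simp)⟩, ⟨none, h.unit _ (by simp)⟩]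

lemma Ord.pos (h : Ord V p τ) : 0 < τ.im := h.choose_spec.pos

lemma Ord.int (h : Ord V p τ) : V (jf τ) ≤ 1 := h.choose_spec.int

lemma Ord.of_congr (hp : p.Prime) (hV : V p < 1) (h : Ord V p τ) (hτ' : 0 < τ'.im)
    (hj' : V (jf τ') ≤ 1) (hc : V (jf τ - jf τ') < 1) : Ord V p τ' := by
  obtain ⟨k, hk⟩ := h.exists_unit hp
  have h1 := val_hasse hp hV h.pos h.int hk
  have h2 := (LE.val_sub_le hp.ne_zero (LE.congr (sp (fun _ => 1) (Ph V hp)).2 fun z _ => by
    rw [← evz_apply, map_sp]; rfl) (inv1_hasse hp) h.pos hτ' h.int hj').trans_lt hc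
  refine ord_of_hasse hp hτ' hj' ?_
  rw [← sub_sub_cancel (hasse p τ) (hasse p τ'), V.map_sub_eq_of_lt_left (h1 ▸ h2), h1]

lemma exists_ph (hp : p.Prime) {M : MZ} (hM : M.det = p) (hτ : 0 < τ.im) :
    ∃ i, phiJ M τ = ph p i τ := by
  obtain ⟨i, g, h1, rfl⟩ := (isReps_rP hp).surj M hM
  exact ⟨i, by rw [phi_mul _ (rP_pos hp i) hτ, phi_det_one h1 (act_pos (rP_pos hp i) hτ), one_mul,
    ph]⟩

lemma ord_of_val (hp : p.Prime) (hV : V p < 1) (hτ : 0 < τ.im) (hj : V (jf τ) ≤ 1) {M : MZ}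
    (hM : M.det = p) (h : V (phiJ M τ) = 1 ∨ V (phiJ M τ) = V p ^ 12) : Ord V p τ := by
  obtain ⟨i, hi⟩ := exists_ph hp hM hτ
  rw [hi] at h
  exact h.elim (fun h => ord_of_hasse hp hτ hj (val_hasse hp hV hτ hj h))
    fun h => ⟨i, can_of_val hp hτ hj h⟩

lemma Ord.act_prime (hp : p.Prime) (hV : V p < 1) (h : Ord V p τ) {M : MZ} (hM : M.det = p) :
    Ord V p (act M τ) := by
  have h0 : 0 < M.det := by rw [hM]; exact_mod_cast hp.pos
  have h1 := congr_arg V (phi_adjugate_mul h0 h.pos)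
  obtain ⟨i, hi⟩ := exists_ph hp hM h.pos
  refine ord_of_val hp hV (act_pos h0 h.pos) (val_isog h0 h.pos h.int).2
    ((det_adjugate_two M).trans hM) ?_
  obtain ⟨k, hk⟩ := h
  rw [map_mul, hi, hM, map_pow, Int.cast_natCast] at h1
  by_cases e : i = k
  · rw [e, hk.val, mul_eq_right₀
      (pow_ne_zero _ (V.ne_zero_iff.mpr (by exact_mod_cast hp.ne_zero)))] at h1
    exact Or.inl h1
  · rw [hk.unit i e, mul_one] at h1
    exact Or.inr h1

lemma Ord.act_coprime (hp : p.Prime) (hV : V p < 1) (h : Ord V p τ) {M : MZ} (hM : 0 < M.det)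
    (hc : ¬ (p : ℤ) ∣ M.det) : Ord V p (act M τ) := by
  obtain ⟨k, hk⟩ := h.exists_unit hp
  have hd := (isReps_rP hp).det
  obtain ⟨i, N, h1⟩ := exists_factor hp (B := rP p k * M.adjugate)
    (by rw [Matrix.det_mul, hd]; exact dvd_mul_right _ _)
  have h0 : (p : ℤ) ≠ 0 := by exact_mod_cast hp.ne_zero
  have h2 : N.det = M.det := by
    have := congr_arg Matrix.det h1
    rw [Matrix.det_mul, Matrix.det_mul, hd, hd, det_adjugate_two, mul_comm] at this
    exact (mul_right_cancel₀ h0 this).symm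
  have h3 := phi_mul (rP p k) (N := M.adjugate) (by rwa [det_adjugate_two]) (act_pos hM h.pos)
  have h4 := val_isog hM h.pos h.int
  have h5 := val_int_eq_one hp hV hc
  rw [h1, phi_mul _ (rP_pos hp i) (act_pos hM h.pos), act_adjugate hM.ne' h.pos] at h3
  replace h3 := congr_arg V h3
  rw [map_mul, map_mul, val_phi_eq_one (h2 ▸ hM) (act_pos (rP_pos hp i) (act_pos hM h.pos))
    (val_isog (rP_pos hp i) (act_pos hM h.pos) h4.2).2 (h2 ▸ h5), one_mul,
    val_phi_eq_one (M := M.adjugate) (by rwa [det_adjugate_two]) (act_pos hM h.pos) h4.2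
      (by rwa [det_adjugate_two]), mul_one] at h3
  exact ord_of_val hp hV (act_pos hM h.pos) h4.2 (hd i) (Or.inl (h3.trans hk))

theorem Ord.isog (hp : p.Prime) (hV : V p < 1) (h : Ord V p τ) {M : MZ} (hM : 0 < M.det) :
    Ord V p (act M τ) := by
  generalize hn : M.det.toNat = n
  induction n using Nat.strong_induction_on generalizing M τ with
  | h n ih =>
    by_cases hc : (p : ℤ) ∣ M.det
    · obtain ⟨i, N, rfl⟩ := exists_factor hp hc
      have hd := (isReps_rP hp).det i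
      have h2 : (1 : ℤ) < p := by exact_mod_cast hp.one_lt
      rw [Matrix.det_mul, hd] at hM hn
      have h3 : 0 < N.det := pos_of_mul_pos_left hM (Int.natCast_nonneg p)
      rw [act_mul _ (rP_pos hp i).ne' h.pos]
      exact ih _ (by have := lt_mul_of_one_lt_right h3 h2; omega) (h.act_prime hp hV hd) h3 rfl
    · exact h.act_coprime hp hV hM hc

lemma Can.lt (hV : V p < 1) {i : Option (Fin p)} (h : Can V p τ i) : V (ph p i τ) < 1 :=
  h.val ▸ pow_lt_one₀ zero_le hV (by norm_num)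

lemma Can.val_prod {i : Option (Fin p)} (h : Can V p τ i) {x : ℂ} (hx : V x < 1) :
    V (∏ k ∈ Finset.univ.erase i, (x - ph p k τ)) = 1 := by
  rw [map_prod]
  refine Finset.prod_eq_one fun k hk => ?_
  have := h.unit k (Finset.ne_of_mem_erase hk)
  rw [V.map_sub_eq_of_lt_right (this ▸ hx), this]

lemma contract_aux {T U A B c c' : ℂ} {δ : Γ} (h0 : 0 < δ) (uA : V A = 1)
    (t1 : V (T - c' * B) < δ) (t2 : V (T - c * A) < δ) (t3 : V c' < 1) (u1 : V (U - 1 * B) ≤ δ)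
    (u2 : V (U - 1 * A) < δ) : V (c - c') < δ := by
  rw [← mul_one (V _), ← uA, ← map_mul, show (c - c') * A = T - c' * B - (T - c * A) +
    c' * (U - 1 * A - (U - 1 * B)) by ring]
  refine V.map_add_lt (V.map_sub_lt t1 t2) ?_
  rw [map_mul]
  exact (mul_le_mul_right (V.map_sub_le u2.le u1) _).trans_lt (mul_lt_of_lt_one_left h0 t3)

/-- The canonical isogeny contracts residue discs. -/
theorem Can.contract (hp : p.Prime) (hV : V p < 1) {i i' : Option (Fin p)} (h : Can V p τ i)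
    (h' : Can V p τ' i') (hc : V (jf τ - jf τ') < 1) (hne : jf τ ≠ jf τ') :
    V (jj p i τ - jj p i' τ') < V (jf τ - jf τ') := by
  have hx := h'.lt hV
  have uA := h.val_prod hx
  have uB := h'.val_prod hx
  have e0 : ph p i' τ' - ph p i' τ' = 0 := sub_self _
  generalize hxe : ph p i' τ' = x at hx uA uB
  rw (occs := [1]) [hxe] at e0
  let c : LR V.integer := ⟨_, const_mem V hx.le⟩
  have hn : red V (c - Ph V hp none) = 0 := by
    rw [map_sub, red_const hx, red_Ph_none hp hV, sub_zero]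
  have a1 := LE.val_sub_lt (F := fun z => ∏ k, (x - ph p k z)) hp.ne_zero
    (le_of_red (G := ∏ k, (c - Ph V hp k))
      (by rw [map_prod]; exact Finset.prod_eq_zero (Finset.mem_univ none) hn)
      fun z => by simp only [map_prod, map_sub]; rfl) (inv1_prod hp x) h.pos h'.pos h.int h'.int hne
  simp only [Finset.prod_eq_zero (f := fun k => x - ph p k τ') (Finset.mem_univ i') e0] at a1
  rw [sub_zero, ← Finset.mul_prod_erase _ _ (Finset.mem_univ i), map_mul, uA, mul_one] at a1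
  have hT := le_of_red (G := sp (Jj V hp) fun k => c - Ph V hp k)
    (F := fun z => sp (fun k => jj p k (p * z) - jf (p * z) ^ p) fun k => x - ph p k (p * z))
    (by rw [map_sp, sp_of_eq_zero (i := none) _ hn, red_Jj_none hp hV, zero_mul])
    fun z => by rw [map_sp]; rfl
  have iT : Inv1 fun z => sp (fun k => jj p k z - jf z ^ p) fun k => x - ph p k z :=
    inv1_sp hp (fun y c => c.2 - y ^ p) fun _ c => x - c.1
  have iU : Inv1 fun z => sp (fun _ => 1) fun k => x - ph p k z :=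
    inv1_sp hp (fun _ _ => 1) fun _ c => x - c.1
  have t1 := LE.val_sub_lt (hF := iT) hp.ne_zero hT h.pos h'.pos h.int h'.int hne
  have t3 := LE.val_lt (hF := iT) hp.ne_zero hT h'.pos h'.int
  have u1 := LE.val_sub_le (hF := iU) hp.ne_zero (LE.congr (sp (fun _ => 1) fun k => c - Ph V hp k).2
    fun z _ => by rw [← evz_apply, map_sp]; rfl) h.pos h'.pos h.int h'.int
  have ha : ∀ k, V (x - ph p k τ) ≤ 1 := fun k => V.map_sub_le hx.le (val_ph_le hp h.pos h.int k)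
  have t2 := (val_sp_sub V (b := fun k => jj p k τ - jf τ ^ p) (fun k => V.map_sub_le
    (val_isog (rP_pos hp k) h.pos h.int).2 (by rw [map_pow]; exact pow_le_one' h.int _)) ha i).trans_lt a1
  have u2 := (val_sp_sub V (b := fun _ => 1) (fun _ => V.map_one.le) ha i).trans_lt a1
  simp only [sp_of_eq_zero _ (a := fun k => x - ph p k τ') e0] at t1 t3 u1
  rw [map_mul, uB, mul_one] at t3
  rw [show jj p i τ - jj p i' τ' = (jj p i τ - jf τ ^ p - (jj p i' τ' - jf τ' ^ p)) +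
    (jf τ ^ p - jf τ' ^ p) by ring]
  exact V.map_add_lt (contract_aux (zero_lt_iff.mpr (V.ne_zero_iff.mpr (sub_ne_zero.mpr hne)))
    uA t1 t2 t3 u1 u2) (val_pow_sub_pow_lt hp hV h.int h'.int hc hne)

/-- The point is fixed by a matrix with given determinant and trace. -/
def Fix (m t : ℤ) (τ : ℂ) : Prop := ∃ M : MZ, M.det = m ∧ M.trace = t ∧ act M τ = τ

lemma act_eq_iff {M : MZ} (h : M.det ≠ 0) (hτ : 0 < τ.im) :
    act M τ = τ ↔ M 1 0 * τ ^ 2 + (M 1 1 - M 0 0) * τ - M 0 1 = 0 := by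
  have := den_ne' h hτ
  rw [den] at this
  rw [act, mob, div_eq_iff this]
  constructor <;> intro h <;> linear_combination -h

lemma trace_conj (g M : MZ) : (g * M * g.adjugate).trace = g.det * M.trace := by
  rw [Matrix.trace_mul_comm, ← mul_assoc, Matrix.adjugate_mul, smul_mul_assoc, one_mul,
    Matrix.trace_smul, smul_eq_mul]

lemma Fix.conj {m t : ℤ} (h : Fix m t τ) (hτ : 0 < τ.im) (hm : m ≠ 0) {g : MZ} (hg : g.det ≠ 0)
    (h' : 0 < (act g τ).im) : Fix (g.det ^ 2 * m) (g.det * t) (act g τ) := by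
  obtain ⟨M, rfl, rfl, h⟩ := h
  refine ⟨g * M * g.adjugate, ?_, trace_conj g M, ?_⟩
  · rw [Matrix.det_mul, Matrix.det_mul, det_adjugate_two]; ring
  · rw [act_mul _ (by rwa [det_adjugate_two]) h', act_adjugate hg hτ, act_mul _ hm hτ, h]

lemma Fix.add {m t : ℤ} (h : Fix m t τ) (hτ : 0 < τ.im) (hm : m ≠ 0) (x y : ℤ)
    (h' : x ^ 2 + x * y * t + y ^ 2 * m ≠ 0) : Fix (x ^ 2 + x * y * t + y ^ 2 * m) (2 * x + y * t) τ := by
  obtain ⟨M, rfl, rfl, h⟩ := h
  have e : (!![x + y * M 0 0, y * M 0 1; y * M 1 0, x + y * M 1 1] : MZ).det =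
      x ^ 2 + x * y * M.trace + y ^ 2 * M.det := by
    rw [Matrix.det_fin_two_of, Matrix.trace_fin_two, Matrix.det_fin_two]; ring
  refine ⟨_, e, by rw [Matrix.trace_fin_two_of, Matrix.trace_fin_two]; ring, ?_⟩
  rw [act_eq_iff hm hτ] at h
  rw [act_eq_iff (e ▸ h') hτ]
  simp
  linear_combination y * h

lemma Fix.isSquare {m t m' t' : ℤ} (h : Fix m t τ) (h' : Fix m' t' τ) (hτ : 0 < τ.im) (hm : m ≠ 0)
    (hm' : m' ≠ 0) : IsSquare ((t ^ 2 - 4 * m) * (t' ^ 2 - 4 * m')) := by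
  obtain ⟨M, rfl, rfl, h⟩ := h
  obtain ⟨N, rfl, rfl, h'⟩ := h'
  rw [act_eq_iff hm hτ] at h
  rw [act_eq_iff hm' hτ] at h'
  have h1 : ((N 1 0 * (M 1 1 - M 0 0) - M 1 0 * (N 1 1 - N 0 0) : ℤ) : ℂ) * τ =
      (N 1 0 * M 0 1 - M 1 0 * N 0 1 : ℤ) := by
    push_cast; linear_combination N 1 0 * h - M 1 0 * h'
  generalize hu : N 1 0 * (M 1 1 - M 0 0) - M 1 0 * (N 1 1 - N 0 0) = u at h1
  generalize hw : N 1 0 * M 0 1 - M 1 0 * N 0 1 = w at h1
  obtain rfl : u = 0 := by simpa [hτ.ne'] using congr_arg im h1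
  obtain rfl : w = 0 := by simpa [eq_comm] using h1
  refine ⟨(M 1 1 - M 0 0) * (N 1 1 - N 0 0) + 2 * M 1 0 * N 0 1 + 2 * N 1 0 * M 0 1, ?_⟩
  simp only [Matrix.trace_fin_two, Matrix.det_fin_two]
  linear_combination 4 * (M 1 0 * N 0 1 - N 1 0 * M 0 1) * hw +
    4 * ((M 1 1 - M 0 0) * N 0 1 - (N 1 1 - N 0 0) * M 0 1) * hu

lemma isSquare_of_mul_sq {a d : ℤ} (hd : d ≠ 0) (h : IsSquare (a * d ^ 2)) : IsSquare a := by
  obtain ⟨r, hr⟩ := h
  obtain ⟨s, rfl⟩ : d ∣ r := (Int.pow_dvd_pow_iff two_ne_zero).mp ⟨a, by linear_combination -hr⟩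
  exact ⟨s, mul_right_cancel₀ (pow_ne_zero 2 hd) (by linear_combination hr)⟩

lemma Can.fix (hp : p.Prime) (hV : V p < 1) {i : Option (Fin p)} (h : Can V p τ i) {m t : ℤ}
    (hm : 0 < m) (hc : ¬ (p : ℤ) ∣ m) (hF : Fix m t τ) : Fix m t (act (rP p i) τ) := by
  obtain ⟨M, rfl, rfl, hF⟩ := hF
  have hd := (isReps_rP hp).det
  obtain ⟨k, N, h1⟩ := exists_factor hp (B := rP p i * M)
    (by rw [Matrix.det_mul, hd]; exact dvd_mul_right _ _)
  have h0 : (p : ℤ) ≠ 0 := by exact_mod_cast hp.ne_zero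
  have h2 : N.det = M.det := by
    have := congr_arg Matrix.det h1
    rw [Matrix.det_mul, Matrix.det_mul, hd, hd, mul_comm] at this
    exact (mul_right_cancel₀ h0 this).symm
  have h5 := val_int_eq_one hp hV hc
  have h3 := phi_mul (rP p i) hm h.pos
  rw [h1, phi_mul _ (rP_pos hp k) h.pos, hF] at h3
  replace h3 := congr_arg V h3
  rw [map_mul, map_mul, val_phi_eq_one (h2 ▸ hm) (act_pos (rP_pos hp k) h.pos)
    (val_isog (rP_pos hp k) h.pos h.int).2 (h2 ▸ h5), one_mul,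
    val_phi_eq_one hm h.pos h.int h5, mul_one] at h3
  obtain rfl : k = i := by_contra fun e => (h.lt hV).ne (h3.symm.trans (h.unit k e))
  refine ⟨N, h2, mul_left_cancel₀ h0 ?_,
    by rw [← act_mul _ (rP_pos hp k).ne' h.pos, ← h1, act_mul _ hm.ne' h.pos, hF]⟩
  rw [← hd k, ← trace_conj _ M, h1, mul_assoc, Matrix.mul_adjugate, mul_smul_comm, mul_one,
    Matrix.trace_smul, smul_eq_mul]

lemma den_add_div {E : MZ} (hE : E.det ≠ 0) (hτ : 0 < τ.im) (h : act E τ = τ) :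
    den E τ + E.det / den E τ = E.trace := by
  have := den_ne' hE hτ
  rw [act_eq_iff hE hτ] at h
  field_simp
  rw [Matrix.trace_fin_two, Matrix.det_fin_two, den]
  push_cast
  linear_combination E 1 0 * h

lemma phi_adjugate_of_fixed {E : MZ} (hE : 0 < E.det) (hτ : 0 < τ.im) (h : act E τ = τ) :
    phiJ E.adjugate τ = den E τ ^ 12 := by
  have h1 := phi_adjugate_mul hE hτ
  have := den_ne' hE.ne' hτ
  have h2 : (E.det : ℂ) ≠ 0 := by exact_mod_cast hE.ne'
  rw [h, phi_of_fixed hτ h, div_pow, mul_div_assoc', div_eq_iff (pow_ne_zero _ this), mul_comm] at h1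
  exact mul_left_cancel₀ (pow_ne_zero _ h2) h1

lemma val_eq_one_of_mul {x y : ℂ} (hx : V x ≤ 1) (hy : V y ≤ 1) (h : V (x * y) = 1) :
    V x = 1 ∧ V y = 1 := by
  rw [map_mul] at h
  exact ⟨le_antisymm hx (h ▸ mul_le_of_le_one_right' hy), le_antisymm hy (h ▸ mul_le_of_le_one_left' hx)⟩

lemma val_phi_of_div {M N : MZ} (hM : 0 < M.det) (hN : 0 < N.det) (hτ : 0 < τ.im)
    (hj : V (jf τ) ≤ 1) (h : act (M * N) τ = τ) (hu : V ((M * N).det / den (M * N) τ) = 1) :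
    V (phiJ N τ) = 1 := by
  have h1 := val_isog hN hτ hj
  refine (val_eq_one_of_mul (val_isog hM (act_pos hN hτ) h1.2).1 h1.1 ?_).2
  rw [← phi_mul _ hN hτ, phi_of_fixed hτ h, map_pow, hu, one_pow]

lemma val_phi_of_den {M N : MZ} (hM : 0 < M.det) (hN : 0 < N.det) (hτ : 0 < τ.im)
    (hj : V (jf τ) ≤ 1) (h : act (M * N) τ = τ) (hu : V (den (M * N) τ) = 1) :
    V (phiJ N τ) = V N.det ^ 12 := by
  have hM' : 0 < M.adjugate.det := by rwa [det_adjugate_two]
  have h1 := val_isog hM' hτ hj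
  have h2 := (val_eq_one_of_mul (val_isog (M := N.adjugate) (by rwa [det_adjugate_two])
    (act_pos hM' hτ) h1.2).1 h1.1 (by
      rw [← phi_mul _ hM' hτ, ← Matrix.adjugate_mul_distrib,
        phi_adjugate_of_fixed (by rw [Matrix.det_mul]; positivity) hτ h, map_pow, hu, one_pow])).1
  rw [act_mul _ hN.ne' hτ] at h
  rw [← h, act_adjugate hM.ne' (act_pos hN hτ)] at h2
  rw [← map_pow, ← phi_adjugate_mul hN hτ, map_mul, h2, one_mul]

lemma val_den_or {E : MZ} (hE : 0 < E.det) (hτ : 0 < τ.im) (hj : V (jf τ) ≤ 1) (h : act E τ = τ)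
    (ht : V E.trace = 1) : V (den E τ) = 1 ∨ V (E.det / den E τ) = 1 := by
  have h1 := (val_isog hE hτ hj).1
  have h2 := (val_isog (M := E.adjugate) (by rwa [det_adjugate_two]) hτ hj).1
  rw [phi_of_fixed hτ h, map_pow, pow_le_one_iff (by norm_num)] at h1
  rw [phi_adjugate_of_fixed hE hτ h, map_pow, pow_le_one_iff (by norm_num)] at h2
  by_contra! H
  rw [← den_add_div hE.ne' hτ h] at ht
  exact ht.not_lt (V.map_add_lt (h2.lt_of_ne H.1) (h1.lt_of_ne H.2))

lemma Fix.ord (hp : p.Prime) (hV : V p < 1) {m t : ℤ} (h : Fix m t τ) (hτ : 0 < τ.im)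
    (hj : V (jf τ) ≤ 1) (hm : 0 < m) (h1 : (p : ℤ) ∣ m) (h2 : ¬ (p : ℤ) ∣ t) : Ord V p τ := by
  obtain ⟨E, rfl, rfl, h⟩ := h
  obtain ⟨i, M, rfl⟩ := exists_factor hp h1
  have hN := rP_pos hp i
  have hM : 0 < M.det := by rw [Matrix.det_mul] at hm; exact pos_of_mul_pos_left hm hN.le
  have hd := (isReps_rP hp).det i
  refine ord_of_val hp hV hτ hj hd ?_
  rcases val_den_or hm hτ hj h (val_int_eq_one hp hV h2) with h3 | h3
  · exact Or.inr (by rw [val_phi_of_den hM hN hτ hj h h3, hd, Int.cast_natCast])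
  · exact Or.inl (val_phi_of_div hM hN hτ hj h h3)

/-- Points with complex multiplication by the order of discriminant `D`. -/
def IsCM (D : ℤ) (τ : ℂ) : Prop := 0 < τ.im ∧ D < 0 ∧ ∃ m t, t ^ 2 - 4 * m = D ∧ Fix m t τ

lemma isCM_of_form {a b c : ℤ} (hτ : 0 < τ.im) (hD : b ^ 2 - 4 * a * c < 0)
    (h : a * τ ^ 2 + b * τ + c = 0) : IsCM (b ^ 2 - 4 * a * c) τ := by
  refine ⟨hτ, hD, a * c, b, by ring, !![0, -c; a, b], by simp [mul_comm], by simp, ?_⟩
  rw [act_eq_iff (by simp; constructor <;> rintro rfl <;> nlinarith) hτ]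
  simpa using h

lemma IsCM.isog {D : ℤ} (h : IsCM D τ) {g : MZ} (hg : 0 < g.det) : IsCM (D * g.det ^ 2) (act g τ) := by
  obtain ⟨h1, h2, m, t, rfl, h⟩ := h
  exact ⟨act_pos hg h1, by nlinarith [pow_pos hg 2], _, _, by ring,
    h.conj h1 (by rintro rfl; nlinarith) hg.ne' (act_pos hg h1)⟩

lemma IsCM.exists_fix {D : ℤ} (h : IsCM D τ) (hp : p.Prime) : ∃ m : ℕ, ∃ t : ℤ, ¬ IsSquare m ∧
    ¬ (p : ℤ) ∣ m ∧ t ^ 2 - 4 * m = D * p ^ 2 ∧ Fix m t τ := by
  obtain ⟨h1, h2, m, t, rfl, h⟩ := h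
  have h3 : (1 : ℤ) < p := by exact_mod_cast hp.one_lt
  obtain ⟨x, hx, hc⟩ : ∃ x : ℤ, (4 * m - t ^ 2) * p ^ 2 < 2 * x + p * t ∧ ¬ (p : ℤ) ∣ x := by
    refine ⟨1 + p * ((4 * m - t ^ 2) * p + |t|), ?_, fun h => ?_⟩
    · nlinarith [neg_abs_le t, abs_nonneg t, mul_pos (neg_pos.mpr h2) (pow_pos (one_pos.trans h3) 2)]
    · have := Int.le_of_dvd one_pos ((dvd_add_left (dvd_mul_right _ _)).mp h)
      omega
  have h4 : 0 < (4 * m - t ^ 2) * p ^ 2 := mul_pos (by omega) (by positivity)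
  have h5 : 4 * (x ^ 2 + x * p * t + p ^ 2 * m) = (2 * x + p * t) ^ 2 + (4 * m - t ^ 2) * p ^ 2 := by
    ring
  have h6 : 0 < x ^ 2 + x * p * t + p ^ 2 * m := by nlinarith [sq_nonneg (2 * x + p * t)]
  have h7 := h.add h1 (by rintro rfl; nlinarith) x p h6.ne'
  have h8 : ¬ (p : ℤ) ∣ x ^ 2 + x * p * t + p ^ 2 * m := fun h => hc
    ((Nat.prime_iff_prime_int.mp hp).dvd_of_dvd_pow (n := 2) (by
      simpa using dvd_sub h (⟨x * t + p * m, by ring⟩ : (p : ℤ) ∣ x * p * t + p ^ 2 * m)))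
  lift x ^ 2 + x * p * t + p ^ 2 * m to ℕ using h6.le with n hn
  refine ⟨n, _, ?_, h8, by linear_combination -h5, h7⟩
  rintro ⟨r, rfl⟩
  push_cast at h5
  generalize 2 * x + p * t = u at *
  have h9 : u < 2 * r := by nlinarith
  nlinarith

variable (V) in
lemma Fix.val_jf {m : ℕ} {t : ℤ} (h : Fix m t τ) (hm : ¬ IsSquare m) (hτ : 0 < τ.im) :
    V (jf τ) ≤ 1 := by
  obtain ⟨M, h1, -, h⟩ := h
  exact val_jf_le_one hm hτ h1 (by rw [h])

variable (V) in
theorem IsCM.val_jf {D : ℤ} (h : IsCM D τ) : V (jf τ) ≤ 1 := by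
  obtain ⟨m, t, h1, -, -, h2⟩ := h.exists_fix Nat.prime_two
  exact h2.val_jf V h1 h.1

/-- The prime `p` splits in the quadratic field of discriminant `D`. -/
def SplitAt (p : ℕ) (D : ℤ) : Prop :=
  ∃ f D' x : ℤ, D = f ^ 2 * D' ∧ ¬ (p : ℤ) ∣ D' ∧ 4 * (p : ℤ) ∣ x ^ 2 - D'

theorem IsCM.ord (hp : p.Prime) (hV : V p < 1) {D : ℤ} (h : IsCM D τ) (hs : SplitAt p D) :
    Ord V p τ := by
  obtain ⟨f, D', x, rfl, h1, n, h2⟩ := hs
  obtain ⟨hτ, hD, m, t, e, M, rfl, rfl, h⟩ := h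
  have hf : f ≠ 0 := by rintro rfl; simp at hD
  have hD' : D' < 0 := neg_of_mul_neg_right hD (sq_nonneg f)
  rw [act_eq_iff (by intro h0; rw [h0] at e; nlinarith) hτ] at h
  rw [Matrix.trace_fin_two, Matrix.det_fin_two] at e
  have hc : M 1 0 ≠ 0 := fun h0 => by
    rw [h0] at e; nlinarith [sq_nonneg (M 0 0 - M 1 1)]
  obtain ⟨s, hs, hs'⟩ : ∃ s : ℤ, s ^ 2 = 1 ∧ 0 < s * (M 1 0 * f) := by
    rcases (mul_ne_zero hc hf).lt_or_gt with h | h
    exacts [⟨-1, rfl, by omega⟩, ⟨1, rfl, by omega⟩]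
  let G : MZ := !![2 * s * M 1 0, s * (M 1 1 - M 0 0) + x * f; 0, 2 * f]
  have hG : 0 < G.det := by rw [Matrix.det_fin_two_of]; linarith
  have h6 : (1 : ℤ) * act G τ ^ 2 + (-x : ℤ) * act G τ + (p * n : ℤ) = 0 := by
    have : (f : ℂ) ≠ 0 := by exact_mod_cast hf
    have e1 := congr_arg (Int.cast : ℤ → ℂ) e
    have e2 := congr_arg (Int.cast : ℤ → ℂ) hs
    have e3 := congr_arg (Int.cast : ℤ → ℂ) h2
    simp only [G, act_of, mob]
    push_cast at e1 e2 e3 ⊢
    field_simp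
    linear_combination 4 * s ^ 2 * M 1 0 * h + e1 - f ^ 2 * e3 +
      ((M 1 1 - M 0 0) ^ 2 + 4 * M 0 1 * M 1 0) * e2
  have h3 := isCM_of_form (act_pos hG hτ) (by linarith) h6
  rw [← act_adjugate hG.ne' hτ]
  refine Ord.isog hp hV ?_ (by rwa [det_adjugate_two])
  have h4 := h3.val_jf V
  refine Fix.ord hp hV (m := p * n) (t := -x) ⟨!![0, -(p * n); 1, -x], by simp, by simp, ?_⟩
    h3.1 h4 (by nlinarith) (dvd_mul_right _ _) fun h5 => h1 ?_
  · rw [act_eq_iff (by simp; exact ⟨hp.ne_zero, by rintro rfl; nlinarith⟩) h3.1]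
    simpa using h6
  · rw [show D' = -x * -x - p * (4 * n) by linear_combination -h2]
    exact dvd_sub (h5.mul_left _) (dvd_mul_right _ _)

/-- An ordinary special point is not congruent to a special point of another field. -/
theorem val_jf_sub (hp : p.Prime) (hV : V p < 1) {D D' : ℤ} (h : IsCM D τ) (h' : IsCM D' τ')
    (ho : Ord V p τ) (hD : ¬ IsSquare (D * D')) : V (jf τ - jf τ') = 1 := by
  refine (V.map_sub_le (h.val_jf V) (h'.val_jf V)).eq_of_not_lt fun hlt => hD ?_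
  obtain ⟨m, t, a1, a2, a3, a4⟩ := h.exists_fix hp
  obtain ⟨m', t', b1, b2, b3, b4⟩ := h'.exists_fix hp
  have hm : (0 : ℤ) < m := by
    exact_mod_cast Nat.pos_of_ne_zero (by rintro rfl; exact a1 ⟨0, rfl⟩)
  have hm' : (0 : ℤ) < m' := by
    exact_mod_cast Nat.pos_of_ne_zero (by rintro rfl; exact b1 ⟨0, rfl⟩)
  obtain ⟨_, ⟨σ, σ', ⟨i, hi⟩, ⟨i', hi'⟩, c1, c2, c3, rfl⟩, hmin⟩ := Set.exists_min_image
    {q : ℂ × ℂ | ∃ σ σ', Ord V p σ ∧ Ord V p σ' ∧ Fix m t σ ∧ Fix m' t' σ' ∧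
      V (jf σ - jf σ') < 1 ∧ q = (jf σ, jf σ')} (fun q => V (q.1 - q.2))
    (((finite_jf_fixed a1).prod (finite_jf_fixed b1)).subset (by
      rintro _ ⟨σ, σ', c1, c2, ⟨M, c3, -, c4⟩, ⟨M', c5, -, c6⟩, -, rfl⟩
      exact ⟨⟨σ, c1.pos, rfl, M, c3, c4⟩, σ', c2.pos, rfl, M', c5, c6⟩))
    ⟨_, τ, τ', ho, ho.of_congr hp hV h'.1 (h'.val_jf V) hlt, a4, b4, hlt, rfl⟩
  by_cases e : jf σ = jf σ'
  · obtain ⟨g, g1, rfl⟩ := exists_act_of_jf_eq hi.pos hi'.pos e.symm
    have := (c1.conj hi.pos hm.ne' g1 hi'.pos).isSquare c2 hi'.pos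
      (mul_ne_zero (pow_ne_zero _ g1) hm.ne') hm'.ne'
    refine isSquare_of_mul_sq (d := g.det * p ^ 2)
      (mul_ne_zero g1 (pow_ne_zero _ (by exact_mod_cast hp.ne_zero))) ?_
    convert this using 1
    rw [b3]
    linear_combination (-g.det ^ 2 * D' * p ^ 2) * a3
  · have := hi.contract hp hV hi' c3 e
    have hd := (isReps_rP hp).det
    exact absurd this (hmin _ ⟨_, _, Ord.act_prime hp hV ⟨i, hi⟩ (hd i),
      Ord.act_prime hp hV ⟨i', hi'⟩ (hd i'), hi.fix hp hV hm a2 c1, hi'.fix hp hV hm' b2 c2,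
      this.trans c3, rfl⟩).not_gt

end Pool.Agent.Lib.MP_696deb_nt
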