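import Pool.Agent.Lib.MP_696deb_nt.LExp

/-! The discriminant, the modular invariant and the expansion principle at level one. -/

open PowerSeries Filter Topology Complex ModularForm
open scoped Real MatrixGroups

namespace Pool.Agent.Lib.MP_696deb_nt

/-- Integer matrices of size two. -/
abbrev MZ := Matrix (Fin 2) (Fin 2) ℤ

/-- The action of an integer matrix. -/
noncomputable def act (M : MZ) (z : ℂ) : ℂ := mob (M 0 0) (M 0 1) (M 1 0) (M 1 1) z

/-- The automorphy factor of an integer matrix. -/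
noncomputable def den (M : MZ) (z : ℂ) : ℂ := M 1 0 * z + M 1 1

section
variable {M N : MZ} {z : ℂ}

lemma act_of (a b c d : ℤ) : act !![a, b; c, d] = mob a b c d := rfl

lemma act_pos (h : 0 < M.det) (hz : 0 < z.im) : 0 < (act M z).im :=
  im_mob_pos (by rwa [Matrix.det_fin_two] at h) hz

lemma den_ne' (h : M.det ≠ 0) (hz : 0 < z.im) : den M z ≠ 0 :=
  den_ne (by rwa [Matrix.det_fin_two] at h) hz

lemma act_mul (M : MZ) (h : N.det ≠ 0) (hz : 0 < z.im) : act (M * N) z = act M (act N z) := by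
  rw [act, act, act, mob_mob (by rwa [Matrix.det_fin_two] at h) _ _ _ _ hz]
  simp [Matrix.mul_apply, Fin.sum_univ_two]

lemma den_mul (M : MZ) (h : N.det ≠ 0) (hz : 0 < z.im) :
    den (M * N) z = den M (act N z) * den N z := by
  have := den_ne' h hz
  simp only [den] at this ⊢
  rw [act, mob_den (by rwa [Matrix.det_fin_two] at h) _ _ hz, div_mul_cancel₀ _ this]
  simp [Matrix.mul_apply, Fin.sum_univ_two]

lemma act_smul {n : ℤ} (hn : n ≠ 0) (M : MZ) (z : ℂ) : act (n • M) z = act M z := by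
  simp only [act, Matrix.smul_apply, smul_eq_mul, mob_scale hn]

lemma act_one (z : ℂ) : act 1 z = z := by simp [act, mob]

lemma den_smul (n : ℤ) (M : MZ) (z : ℂ) : den (n • M) z = n * den M z := by
  simp only [den, Matrix.smul_apply, smul_eq_mul]; push_cast; ring

lemma den_one (z : ℂ) : den 1 z = 1 := by simp [den]

lemma hol_act (h : M.det ≠ 0) : Hol (act M) := hol_mob (by rwa [Matrix.det_fin_two] at h)

end

/-- The discriminant. -/
noncomputable def Dl (z : ℂ) : ℂ := η z ^ 24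

lemma Dl_ne {z : ℂ} (hz : 0 < z.im) : Dl z ≠ 0 := pow_ne_zero _ (eta_ne hz)

lemma e12_pow (k : ZMod 12) : e12 k ^ 12 = 1 := by
  rw [e12, ← AddChar.map_nsmul_eq_pow, nsmul_eq_mul, ZMod.natCast_self, zero_mul,
    AddChar.map_zero_eq_one]

lemma Dl_act {g : MZ} (h : g.det = 1) {z : ℂ} (hz : 0 < z.im) :
    Dl (act g z) = den g z ^ 12 * Dl z := by
  have h1 := congr_arg (· ^ 12) (eta2_tr _ _ _ _ (by rwa [Matrix.det_fin_two] at h) z hz)
  simp only [mul_pow, e12_pow, one_mul, eta2, ← pow_mul] at h1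
  exact h1

lemma Dl_eq (z : ℂ) : Dl z = q1 z * eul (q1 z) ^ 24 := by
  rw [Dl, eta_eq, mul_pow, ← Complex.exp_nat_mul, q1]
  congr 2
  push_cast
  ring

/-- The inverse of the series of the discriminant divided by `X`. -/
noncomputable def Dinv : ℤ⟦X⟧ := invOfUnit (P1 ^ 24) 1

lemma P1_mul_Dinv : P1 ^ 24 * Dinv = 1 := mul_invOfUnit _ _ (by simp [cc_P1])

lemma cc_Dinv : constantCoeff Dinv = 1 := by simp [Dinv]

lemma qe_Dl : QE Dl (toC (X * P1 ^ 24)) := by
  rw [map_mul, map_pow, map_X]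
  exact (QE.q.mul (qe_P1.pow 24)).congr fun z _ => Dl_eq z

lemma qe_Dl_inv : QE (fun z => q1 z ^ 1 * (Dl z)⁻¹) (toC Dinv) := by
  refine ((qe_P1.pow 24).inv (fun z hz => pow_ne_zero _ (eul_ne hz))
    (by rw [← map_pow, ← map_mul, P1_mul_Dinv, map_one])).congr fun z _ => ?_
  have := q1_ne z
  rw [Dl_eq]
  field_simp

lemma lz_Dl : LZ Dl := ⟨0, _, qe_Dl.congr fun z _ => by simp⟩

lemma lz_Dl_inv : LZ fun z => (Dl z)⁻¹ := ⟨1, _, qe_Dl_inv⟩

/-- The Eisenstein series of weight four. -/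
noncomputable def E4 (z : ℂ) : ℂ := E₄ (UpperHalfPlane.ofComplex z)

/-- The expansion of the Eisenstein series of weight four. -/
noncomputable def E4s : ℤ⟦X⟧ :=
  PowerSeries.mk fun n => if n = 0 then 1 else 240 * ArithmeticFunction.sigma 3 n

lemma qe_E4 : QE E4 (toC E4s) := QE.of_hasSum fun z hz => by
  have h := ModularForm.hasSum_qExpansion E₄ one_pos one_mem_strictPeriods_SL ⟨z, hz⟩
  rw [E4, UpperHalfPlane.ofComplex_apply_of_im_pos hz]
  convert h using 3 with n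
  · rw [EisensteinSeries.E_qExpansion_coeff _ (by decide), coeff_map, E4s, coeff_mk,
      bernoulli_eq_bernoulli'_of_ne_one (by norm_num), bernoulli'_four]
    split_ifs
    · simp
    · simp; norm_num
  · rw [q1_eq]

lemma E4_act {g : MZ} (h : g.det = 1) {z : ℂ} (hz : 0 < z.im) :
    E4 (act g z) = den g z ^ 4 * E4 z := by
  have h1 := SlashInvariantForm.slash_action_eqn' (Γ := 𝒮ℒ) E₄
    (γ := Matrix.SpecialLinearGroup.mapGL ℝ (⟨g, h⟩ : SL(2, ℤ))) ⟨_, rfl⟩ ⟨z, hz⟩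
  have h2 : (Matrix.SpecialLinearGroup.mapGL ℝ (⟨g, h⟩ : SL(2, ℤ))) •
      (⟨z, hz⟩ : UpperHalfPlane) = ⟨act g z, act_pos (by omega) hz⟩ :=
    UpperHalfPlane.ext (coe_smul_eq_mob (⟨g, h⟩ : SL(2, ℤ)) ⟨z, hz⟩)
  rw [E4, E4, UpperHalfPlane.ofComplex_apply_of_im_pos hz,
    UpperHalfPlane.ofComplex_apply_of_im_pos (act_pos (by omega) hz), ← h2, h1]
  rfl

/-- The modular invariant. -/
noncomputable def jf (z : ℂ) : ℂ := E4 z ^ 3 / Dl z

/-- The expansion of `q j`. -/
noncomputable def Js : ℤ⟦X⟧ := E4s ^ 3 * Dinv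

lemma cc_Js : constantCoeff Js = 1 := by simp [Js, cc_Dinv, E4s]

lemma qe_jf : QE (fun z => q1 z ^ 1 * jf z) (toC Js) := by
  rw [Js, map_mul, map_pow]
  exact ((qe_E4.pow 3).mul qe_Dl_inv).congr fun z _ => by rw [jf]; ring

lemma lz_jf : LZ jf := ⟨1, _, qe_jf⟩

lemma jf_act {g : MZ} (h : g.det = 1) {z : ℂ} (hz : 0 < z.im) : jf (act g z) = jf z := by
  have := den_ne' (M := g) (by omega) hz
  rw [jf, jf, E4_act h hz, Dl_act h hz, mul_pow, ← pow_mul, mul_div_mul_left _ _ (pow_ne_zero _ this)]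

/-- Invariance under the modular group. -/
def Inv1 (F : ℂ → ℂ) : Prop := ∀ g : MZ, g.det = 1 → ∀ z : ℂ, 0 < z.im → F (act g z) = F z

lemma inv1_jf : Inv1 jf := fun _ h _ hz => jf_act h hz

lemma Inv1.periodic {F : ℂ → ℂ} (h : Inv1 F) (z : ℂ) (hz : 0 < z.im) : F (z + 1) = F z := by
  simpa [act_of, mob] using h !![1, 1; 0, 1] (by simp) z hz

lemma Inv1.const {F : ℂ → ℂ} {A : ℂ⟦X⟧} (h : Inv1 F) (hA : QE F A) (z : ℂ) (hz : 0 < z.im) :
    F z = coeff 0 A := by
  obtain ⟨c, hc⟩ := const_of_inv 1 hA.hol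
    (fun a b c d e z hz => h !![a, b; (1 : ℕ) * c, d] (by simpa using e) z hz)
    fun a b c d e => hA.bdd.congr (h !![a, b; c, d] (by simpa using e))
  rw [hc z hz]
  exact tendsto_nhds_unique (tendsto_const_nhds.congr' (ev_pos.mono fun z hz => (hc z hz).symm))
    hA.tendsto

/-- The expansion principle at level one. -/
theorem exists_poly_jf {S : AddSubgroup ℂ} (n : ℕ) {F : ℂ → ℂ} {A : ℂ⟦X⟧} (hF : Inv1 F)
    (hA : QE (fun z => q1 z ^ n * F z) A) (hS : Cf S A) :
    ∃ P : Polynomial ℂ, (∀ k, P.coeff k ∈ S) ∧ P.natDegree ≤ n ∧ P.coeff n = coeff 0 A ∧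
      ∀ z : ℂ, 0 < z.im → F z = P.eval (jf z) := by
  induction n generalizing F A with
  | zero =>
    refine ⟨.C (coeff 0 A), fun k => ?_, by simp, by simp, fun z hz => ?_⟩
    · rw [Polynomial.coeff_C]
      split_ifs
      exacts [hS 0, S.zero_mem]
    · rw [Polynomial.eval_C]
      exact hF.const (hA.congr fun z _ => by simp) z hz
  | succ n ih =>
    obtain ⟨B, hB⟩ : X ∣ A - C (coeff 0 A) * toC (Js ^ (n + 1)) := by
      rw [X_dvd_iff, ← coeff_zero_eq_constantCoeff, map_sub, coeff_C_mul, cc_toC, map_pow, cc_Js]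
      simp
    have h1 := hA.sub ((qe_jf.pow (n + 1)).smul (coeff 0 A))
    rw [← map_pow, hB, ← pow_one X] at h1
    obtain ⟨P, p1, p2, -, p4⟩ := ih (F := fun z => F z - coeff 0 A * jf z ^ (n + 1)) (A := B)
      (fun g hg z hz => by simp only [hF g hg z hz, jf_act hg hz])
      (h1.of_X_pow_mul.congr fun z _ => by have := q1_ne z; field_simp; ring)
      (Cf.of_X_mul (hB ▸ hS.sub (Cf.const_mul_toC (hS 0) _)))
    refine ⟨P + .monomial (n + 1) (coeff 0 A), fun k => ?_, ?_, ?_, fun z hz => ?_⟩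
    · rw [Polynomial.coeff_add, Polynomial.coeff_monomial]
      split_ifs
      exacts [S.add_mem (p1 k) (hS 0), S.add_mem (p1 k) S.zero_mem]
    · exact (Polynomial.natDegree_add_le _ _).trans
        (max_le (by omega) (Polynomial.natDegree_monomial_le _))
    · rw [Polynomial.coeff_add, Polynomial.coeff_eq_zero_of_natDegree_lt (by omega),
        Polynomial.coeff_monomial_same, zero_add]
    · rw [Polynomial.eval_add, Polynomial.eval_monomial, ← p4 z hz, sub_add_cancel]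

theorem LE.exists_poly {S : AddSubgroup ℂ} {F : ℂ → ℂ} (h : LE S F) (hF : Inv1 F) :
    ∃ P : Polynomial ℂ, (∀ k, P.coeff k ∈ S) ∧ ∀ z : ℂ, 0 < z.im → F z = P.eval (jf z) := by
  obtain ⟨n, A, h1, h2⟩ := h
  obtain ⟨P, p1, -, -, p4⟩ := exists_poly_jf n hF h1 h2
  exact ⟨P, p1, p4⟩

/-- The quotient of discriminants attached to an isogeny. -/
noncomputable def phiJ (M : MZ) (z : ℂ) : ℂ :=
  M.det ^ 12 * Dl (act M z) / (den M z ^ 12 * Dl z)

section
variable {M N : MZ} {z : ℂ}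

lemma phi_ne (h : 0 < M.det) (hz : 0 < z.im) : phiJ M z ≠ 0 :=
  div_ne_zero (mul_ne_zero (pow_ne_zero _ (by exact_mod_cast h.ne')) (Dl_ne (act_pos h hz)))
    (mul_ne_zero (pow_ne_zero _ (den_ne' h.ne' hz)) (Dl_ne hz))

lemma phi_mul (M : MZ) (h : 0 < N.det) (hz : 0 < z.im) :
    phiJ (M * N) z = phiJ M (act N z) * phiJ N z := by
  have h1 := Dl_ne (act_pos h hz)
  rw [phiJ, phiJ, phiJ, act_mul M h.ne' hz, den_mul M h.ne' hz, Matrix.det_mul]
  push_cast
  field_simp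

lemma phi_det_one (h : M.det = 1) (hz : 0 < z.im) : phiJ M z = 1 := by
  rw [phiJ, Dl_act h hz, h, Int.cast_one, one_pow, one_mul, div_self]
  exact mul_ne_zero (pow_ne_zero _ (den_ne' (by omega) hz)) (Dl_ne hz)

lemma phi_of_fixed (hz : 0 < z.im) (h : act M z = z) : phiJ M z = (M.det / den M z) ^ 12 := by
  rw [phiJ, h, mul_div_mul_right _ _ (Dl_ne hz), div_pow]

lemma phi_scalar {n : ℤ} (hn : n ≠ 0) (hz : 0 < z.im) : phiJ (n • 1) z = n ^ 12 := by
  have : (n : ℂ) ≠ 0 := by exact_mod_cast hn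
  rw [phi_of_fixed hz (by rw [act_smul hn, act_one]), den_smul, den_one, Matrix.det_smul]
  simp
  field_simp

lemma act_adjugate (h : M.det ≠ 0) (hz : 0 < z.im) : act M.adjugate (act M z) = z := by
  rw [← act_mul _ h hz, Matrix.adjugate_mul, act_smul h, act_one]

lemma det_adjugate_two (M : MZ) : M.adjugate.det = M.det := by simp [Matrix.det_adjugate]

lemma phi_adjugate_mul (h : 0 < M.det) (hz : 0 < z.im) :
    phiJ M.adjugate (act M z) * phiJ M z = M.det ^ 12 := by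
  rw [← phi_mul _ h hz, Matrix.adjugate_mul, phi_scalar h.ne' hz]

end

end Pool.Agent.Lib.MP_696deb_nt
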