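import Pool.Agent.Lib.MP_696deb_nt.QE
import Pool.Agent.Shared.Weier.Add

set_option autoImplicit false

open Filter Topology Complex Pool.Agent.Shared.Weier
open scoped Real

namespace Pool.Agent.Lib.MP_696deb_nt.Klein

/-- The infinite product `∏ (1 - x ^ n w)`. -/
noncomputable def poch (x w : ℂ) : ℂ := ∏' n : ℕ, (1 + -(x ^ n * w))

lemma summable_poch {x : ℂ} (hx : ‖x‖ < 1) (w : ℂ) : Summable fun n : ℕ => ‖-(x ^ n * w)‖ := by
  simpa using (summable_geometric_of_lt_one (norm_nonneg x) hx).mul_right ‖w‖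

lemma poch_step {x : ℂ} (hx : ‖x‖ < 1) (w : ℂ) : poch x w = (1 - w) * poch x (x * w) := by
  have h := tprod_eq_zero_mul' (f := fun n : ℕ => 1 + -(x ^ n * w))
    (by simpa only [pow_succ, mul_assoc] using
      multipliable_one_add_of_summable (summable_poch hx (x * w)))
  simpa only [poch, pow_succ, mul_assoc, pow_zero, one_mul, sub_eq_add_neg] using h

lemma poch_ne {x w : ℂ} (hx : ‖x‖ < 1) (h : ∀ n : ℕ, x ^ n * w ≠ 1) : poch x w ≠ 0 :=
  tprod_one_add_ne_zero_of_summable (fun n h' => h n (by linear_combination -h'))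
    (summable_poch hx w)

lemma poch_zero (x : ℂ) : poch x 0 = 1 := by simp [poch]

lemma differentiableAt_poch {x w : ℂ → ℂ} {s : ℂ} (hx : AnalyticAt ℂ x s) (hw : AnalyticAt ℂ w s)
    (h : ‖x s‖ < 1) : DifferentiableAt ℂ (fun z => poch (x z) (w z)) s := by
  obtain ⟨ρ, h1, h2⟩ := exists_between h
  obtain ⟨U, hU, hU', hs⟩ := mem_nhds_iff.mp (((hx.eventually_analyticAt.and
    hw.eventually_analyticAt).and (hx.continuousAt.norm.eventually_lt_const h1)).and
    (hw.continuousAt.norm.eventually_lt_const (lt_add_one _)))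
  have h0 : 0 ≤ ρ := (norm_nonneg _).trans h1.le
  have hd : ∀ n : ℕ, DifferentiableOn ℂ (fun z => -(x z ^ n * w z)) U := fun n z hz =>
    (((hU hz).1.1.1.pow n).mul (hU hz).1.1.2).neg.differentiableAt.differentiableWithinAt
  have h3 := Summable.hasProdLocallyUniformlyOn_nat_one_add (f := fun n z => -(x z ^ n * w z)) hU'
    ((summable_geometric_of_lt_one h0 h2).mul_right (‖w s‖ + 1))
    (Eventually.of_forall fun n z hz => by
      rw [norm_neg, norm_mul, norm_pow]
      gcongr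
      exacts [(hU hz).1.2.le, (hU hz).2.le]) fun n => (hd n).continuousOn
  exact (h3.differentiableOn (.of_forall fun t => DifferentiableOn.fun_finsetProd
    fun n _ => (hd n).const_add 1) hU').differentiableAt (hU'.mem_nhds hs)

lemma eq_poch {x : ℂ} (hx : ‖x‖ < 1) {G : ℂ → ℂ} (hG : ContinuousAt G 0) (h0 : G 0 = 1)
    (h : ∀ w, G w = (1 - w) * G (x * w)) (w : ℂ) : G w = poch x w := by
  have h1 : ∀ N : ℕ, G w = (∏ n ∈ Finset.range N, (1 + -(x ^ n * w))) * G (x ^ N * w) := by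
    intro N
    induction N with
    | zero => simp
    | succ N ih => rw [ih, h (x ^ N * w), Finset.prod_range_succ, pow_succ']; ring_nf
  have h2 := (multipliable_one_add_of_summable (summable_poch hx w)).hasProd.tendsto_prod_nat.mul
    (hG.tendsto.comp (by
      simpa using (tendsto_pow_atTop_nhds_zero_of_norm_lt_one hx).mul_const w))
  rw [h0, mul_one] at h2
  exact tendsto_nhds_unique (tendsto_const_nhds.congr h1) h2

lemma poch_split {x : ℂ} (hx : ‖x‖ < 1) {m : ℕ} (hm : m ≠ 0) (w : ℂ) :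
    poch x w = ∏ r ∈ Finset.range m, poch (x ^ m) (x ^ r * w) := by
  have hm' : ‖x ^ m‖ < 1 := by rw [norm_pow]; exact pow_lt_one₀ (norm_nonneg _) hx hm
  refine (eq_poch hx (G := fun w => ∏ r ∈ Finset.range m, poch (x ^ m) (x ^ r * w))
    (tendsto_finsetProd _ fun r _ => (differentiableAt_poch analyticAt_const (by fun_prop)
      hm').continuousAt) (by simp [poch_zero]) (fun w => ?_) w).symm
  obtain ⟨m, rfl⟩ := Nat.exists_eq_succ_of_ne_zero hm
  rw [Finset.prod_range_succ', Finset.prod_range_succ, pow_zero, one_mul, poch_step hm' w]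
  simp only [pow_succ, mul_assoc]
  ring

lemma eul_eq_poch (q : ℂ) : eul q = poch q q := by
  simp only [eul, poch, pow_succ, sub_eq_add_neg]

/-- The odd theta function of the lattice spanned by `ω` and `1`. -/
noncomputable def Th (ω z : ℂ) : ℂ := q1 (-z / 2) * poch (q1 ω) (q1 z) * poch (q1 ω) (q1 (ω - z))

lemma analyticAt_q1 (z : ℂ) : AnalyticAt ℂ q1 z := by unfold q1; fun_prop

lemma q1_zero : q1 0 = 1 := by simp [q1]

lemma q1_half : q1 (-1 / 2) = -1 := by
  rw [q1, show 2 * π * I * (-1 / 2) = -(π * I) by ring, exp_neg, exp_pi_mul_I]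
  norm_num

section

variable {ω : ℂ} (hω : 0 < ω.im)

include hω

lemma Th_eq (z : ℂ) : Th ω z =
    (q1 (-z / 2) - q1 (z / 2)) * (poch (q1 ω) (q1 (ω + z)) * poch (q1 ω) (q1 (ω - z))) := by
  have : q1 (z / 2) = q1 (-z / 2) * q1 z := by rw [← q1_add]; congr 1; ring
  rw [Th, poch_step (norm_q1_lt hω) (q1 z), ← q1_add, this]
  ring

lemma Th_neg (z : ℂ) : Th ω (-z) = -Th ω z := by
  rw [Th_eq hω, Th_eq hω, neg_neg, sub_neg_eq_add, ← sub_eq_add_neg]
  ring

omit hω in
lemma Th_add_one (z : ℂ) : Th ω (z + 1) = -Th ω z := by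
  have h1 := q1_int 1
  have h2 := q1_int (-1)
  push_cast at h1 h2
  rw [Th, Th, q1_add z, h1, show ω - (z + 1) = ω - z + -1 by ring, q1_add _ (-1), h2,
    show -(z + 1) / 2 = -z / 2 + -1 / 2 by ring, q1_add, q1_half]
  ring_nf

lemma Th_add_omega (z : ℂ) : Th ω (z + ω) = -q1 (-ω / 2 - z) * Th ω z := by
  rw [neg_mul, ← mul_neg, ← Th_neg hω, Th, Th, show ω - (z + ω) = -z by ring,
    show -(z + ω) / 2 = -ω / 2 - z + - -z / 2 by ring, q1_add, sub_neg_eq_add, add_comm z]
  ring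

lemma differentiable_poch_q1 {g : ℂ → ℂ} (hg : Differentiable ℂ g) :
    Differentiable ℂ fun z => poch (q1 ω) (q1 (g z)) := fun z =>
  differentiableAt_poch analyticAt_const ((analyticAt_q1 _).comp (hg.analyticAt z)) (norm_q1_lt hω)

lemma differentiable_Th : Differentiable ℂ (Th ω) :=
  ((show Differentiable ℂ fun z => q1 (-z / 2) by unfold q1; fun_prop).mul
    (differentiable_poch_q1 hω differentiable_id)).mul (differentiable_poch_q1 hω (by fun_prop))

lemma poch_q1_ne {z : ℂ} (hz : ∀ (m : ℕ) (n : ℤ), m * ω + z ≠ n) : poch (q1 ω) (q1 z) ≠ 0 :=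
  poch_ne (norm_q1_lt hω) fun m h => by
    rw [← q1_nat_mul, ← q1_add, q1, exp_eq_one_iff] at h
    obtain ⟨n, h⟩ := h
    exact hz m n (mul_left_cancel₀ two_pi_I_ne_zero (h.trans (mul_comm _ _)))

lemma Th_ne {z : ℂ} (hz : ∀ m n : ℤ, z ≠ m * ω + n) : Th ω z ≠ 0 :=
  mul_ne_zero (mul_ne_zero (q1_ne _) (poch_q1_ne hω fun m n h =>
    hz (-m) n (by push_cast; linear_combination h))) (poch_q1_ne hω fun m n h =>
      hz (m + 1) (-n) (by push_cast; linear_combination -h))

lemma deriv_Th_ne : deriv (Th ω) 0 ≠ 0 := by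
  have h1 := ((hasDerivAt_q1 _).comp 0 ((hasDerivAt_id (0 : ℂ)).neg.div_const 2)).sub
    ((hasDerivAt_q1 _).comp 0 ((hasDerivAt_id (0 : ℂ)).div_const 2))
  have h2 := h1.mul ((differentiable_poch_q1 hω (g := fun z => ω + z) (by fun_prop)).mul
    (differentiable_poch_q1 hω (g := fun z => ω - z) (by fun_prop)) 0).hasDerivAt
  have h3 : poch (q1 ω) (q1 ω) ≠ 0 := poch_q1_ne hω fun m n h => by
    have := congr_arg im h
    simp only [add_im, mul_im, natCast_re, natCast_im, zero_mul, add_zero, intCast_im] at this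
    nlinarith [mul_nonneg (Nat.cast_nonneg (α := ℝ) m) hω.le]
  rw [funext (Th_eq hω)]
  refine h2.deriv.trans_ne ?_
  simp [q1_zero, h3, neg_div, ← neg_add']

end

/-- Any odd theta function computes the differences of values of the Weierstrass function. -/
theorem wp_sub_of_theta {L : PeriodPair} {Θ : ℂ → ℂ} (hd : Differentiable ℂ Θ)
    (hodd : ∀ z, Θ (-z) = -Θ z) (hne : ∀ z ∉ L.lattice, Θ z ≠ 0) (h0 : deriv Θ 0 ≠ 0)
    (h1 : ∃ a b : ℂ, a ≠ 0 ∧ ∀ z, Θ (z + L.ω₁) = a * cexp (b * z) * Θ z)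
    (h2 : ∃ a b : ℂ, a ≠ 0 ∧ ∀ z, Θ (z + L.ω₂) = a * cexp (b * z) * Θ z)
    {u v : ℂ} (hu : u ∉ L.lattice) (hv : v ∉ L.lattice) :
    deriv Θ 0 ^ 2 * (Θ (u + v) * Θ (u - v)) =
      -((L.weierstrassP u - L.weierstrassP v) * Θ u ^ 2 * Θ v ^ 2) := by
  have hq : ∀ l ∈ L.lattice, ∃ a b : ℂ, a ≠ 0 ∧ ∀ z, Θ (z + l) = a * cexp (b * z) * Θ z := by
    refine fun l hl => lattice_induction
      (P := fun l => ∃ a b : ℂ, a ≠ 0 ∧ ∀ z, Θ (z + l) = a * cexp (b * z) * Θ z) h1 h2
      ⟨1, 0, one_ne_zero, by simp⟩ ?_ ?_ hl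
    · rintro l - l' - ⟨a, b, ha, h⟩ ⟨a', b', ha', h'⟩
      refine ⟨a * a' * cexp (b' * l), b + b', by simp [*], fun z => ?_⟩
      rw [← add_assoc, h', h, add_mul, mul_add, exp_add, exp_add]
      ring
    · rintro l - ⟨a, b, ha, h⟩
      refine ⟨a, -b, ha, fun z => ?_⟩
      rw [show z + -l = -(-z + l) by ring, hodd, h, hodd]
      ring_nf
  have hz : Θ 0 = 0 := by simpa [CharZero.eq_neg_self_iff] using hodd 0
  have hU : ∀ z, Θ z = z * dslope Θ 0 z := fun z => by
    simpa [hz] using (sub_smul_dslope Θ 0 z).symm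
  have hU1 : AnalyticAt ℂ (dslope Θ 0) 0 :=
    ((differentiableOn_dslope univ_mem).mpr hd.differentiableOn).analyticAt univ_mem
  have hU2 : ∀ z, dslope Θ 0 (-z) = dslope Θ 0 z := fun z => by
    rcases eq_or_ne z 0 with rfl | h
    · simp
    · exact mul_left_cancel₀ h (by linear_combination hU (-z) + hU z - hodd z)
  rw [← dslope_same] at h0 ⊢
  generalize dslope Θ 0 = U at hU hU1 hU2 h0
  let h : ℂ → ℂ := fun z => U 0 ^ 2 * (Θ (z + v) * Θ (z - v)) / Θ z ^ 2 + Θ v ^ 2 * L.weierstrassP z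
  let A : ℂ → ℂ := fun z => U 0 ^ 2 * (Θ (z + v) * Θ (z - v)) / U z ^ 2 +
    Θ v ^ 2 * (1 + z ^ 2 * L.weierstrassPExcept 0 z)
  have hA : AnalyticAt ℂ A 0 := by
    have h1 := L.analyticAt_weierstrassPExcept 0
    have h3 : AnalyticAt ℂ (fun z => Θ (z + v)) 0 := (hd.analyticAt _).comp (by fun_prop)
    have h4 : AnalyticAt ℂ (fun z => Θ (z - v)) 0 := (hd.analyticAt _).comp (by fun_prop)
    exact ((analyticAt_const.mul (h3.mul h4)).div (hU1.pow 2) (pow_ne_zero 2 h0)).add (by fun_prop)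
  obtain ⟨c, hc⟩ := tendsto_div_sq hA (by simp [A, hodd]; field_simp; ring)
    (deriv_zero_of_even fun z => by
      simp only [A]
      rw [show -z + v = -(z - v) by ring, show -z - v = -(z + v) by ring, hodd, hodd,
        hU2, L.weierstrassPExcept_neg, neg_zero]
      ring)
  have key : ∀ z ∉ L.lattice, h z = c := fun z hz => by
    refine liouville (fun w hw => ?_) (fun l hl w hw => ?_) (hc.congr' ?_) hz
    · have h2 := (hasDerivAt_wp hw).differentiableAt
      have h3 := hne w hw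
      simp only [h]
      fun_prop (disch := simpa)
    · obtain ⟨a, b, ha, e⟩ := hq l hl
      have h3 := hne w hw
      simp only [h]
      rw [L.weierstrassP_add_coe w ⟨l, hl⟩, add_right_comm w l v, add_sub_right_comm w l v, e, e, e,
        mul_add b, mul_sub b, exp_add, exp_sub]
      field_simp
    · filter_upwards [ev_notMem (L := L) 0] with w hw
      have h1 := ne_zero_of_notMem hw
      have h2 := right_ne_zero_of_mul (hU w ▸ hne w hw)
      simp only [h, A]
      rw [wp_eq, hU w]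
      field_simp
  have h1 := key u hu
  have h2 := key v hv
  simp only [h, sub_self, hz, mul_zero, zero_div, zero_add] at h1 h2
  have h3 := hne u hu
  rw [← h2] at h1
  field_simp at h1
  linear_combination h1

/-- Homogeneity of the Weierstrass function. -/
theorem wp_scale {L L' : PeriodPair} {c : ℂ} (hc : c ≠ 0)
    (h : ∀ z, z ∈ L'.lattice ↔ c * z ∈ L.lattice) (z : ℂ) :
    L'.weierstrassP z = c ^ 2 * L.weierstrassP (c * z) := by
  let e : L'.lattice ≃ L.lattice := (Equiv.mulLeft₀ c hc).subtypeEquiv h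
  refine (L'.hasSum_weierstrassP z).unique ?_
  convert! (e.hasSum_iff.mpr (L.hasSum_weierstrassP (c * z))).mul_left (c ^ 2) using 2 with l
  simp only [e, Function.comp, Equiv.subtypeEquiv_apply, Equiv.mulLeft₀_apply, ← mul_sub, mul_pow,
    one_div, mul_inv]
  field_simp

end Pool.Agent.Lib.MP_696deb_nt.Klein
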