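import Pool.Agent.Lib.MP_696deb_nt.UnifP
import Pool.Agent.Shared.Weier.Unif

/-! Transport of lattices and torsion points under automorphisms of the complex numbers. -/

set_option autoImplicit false

open Complex PeriodPair WeierstrassCurve Filter Topology
open Pool.Agent.Shared.Weier

namespace Pool.Agent.Lib.MP_696deb_nt.Gal

variable {L L' M M' : PeriodPair}

/-- Multiplication by `c` maps the lattice `L` onto the lattice `M`. -/
structure Sc (c : ℂ) (L M : PeriodPair) : Prop where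
  ne : c ≠ 0
  mem : ∀ z, c * z ∈ M.lattice ↔ z ∈ L.lattice

/-- The homothetic lattice. -/
noncomputable def scale (L : PeriodPair) {c : ℂ} (hc : c ≠ 0) : PeriodPair :=
  ⟨c * L.ω₁, c * L.ω₂, LinearIndependent.pair_iff.mpr fun s t h =>
    LinearIndependent.pair_iff.mp L.indep s t (mul_left_cancel₀ hc (by
      simp only [real_smul] at h ⊢; linear_combination h))⟩

lemma sc_scale (L : PeriodPair) {c : ℂ} (hc : c ≠ 0) : Sc c L (scale L hc) := ⟨hc, fun z => by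
  simp only [mem_lattice, scale]
  refine exists₂_congr fun m n => ⟨fun h => mul_left_cancel₀ hc (by linear_combination h), ?_⟩
  rintro rfl; ring⟩

lemma Sc.symm {c : ℂ} (h : Sc c L M) : Sc c⁻¹ M L := ⟨inv_ne_zero h.ne, fun z => by
  rw [← h.mem, mul_inv_cancel_left₀ h.ne]⟩

lemma Sc.trans {c d : ℂ} {N : PeriodPair} (h : Sc c L M) (h' : Sc d M N) : Sc (d * c) L N :=
  ⟨mul_ne_zero h'.ne h.ne, fun z => by rw [mul_assoc, h'.mem, h.mem]⟩

lemma sc_one (h : L.lattice = M.lattice) : Sc 1 L M := ⟨one_ne_zero, fun z => by rw [one_mul, h]⟩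

/-- The bijection of lattices. -/
noncomputable def Sc.equiv {c : ℂ} (h : Sc c L M) : L.lattice ≃ M.lattice where
  toFun l := ⟨c * l, (h.mem _).mpr l.2⟩
  invFun l := ⟨c⁻¹ * l, (h.symm.mem _).mpr l.2⟩
  left_inv _ := Subtype.ext (inv_mul_cancel_left₀ h.ne _)
  right_inv _ := Subtype.ext (mul_inv_cancel_left₀ h.ne _)

lemma Sc.wp {c : ℂ} (h : Sc c L M) (z : ℂ) : ℘[M] (c * z) = c⁻¹ ^ 2 * ℘[L] z := by
  rw [weierstrassP, weierstrassP, ← h.equiv.tsum_eq, ← tsum_mul_left]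
  refine tsum_congr fun l => ?_
  change 1 / (c * z - c * l) ^ 2 - 1 / (c * l) ^ 2 = _
  rw [← mul_sub, mul_pow, mul_pow, one_div, one_div, mul_inv, mul_inv, inv_pow]
  ring

lemma Sc.wp' {c : ℂ} (h : Sc c L M) (z : ℂ) : ℘'[M] (c * z) = c⁻¹ ^ 3 * ℘'[L] z := by
  rw [derivWeierstrassP, derivWeierstrassP, ← h.equiv.tsum_eq, mul_neg, ← tsum_mul_left]
  refine congr_arg _ (tsum_congr fun l => ?_)
  change 2 / (c * z - c * l) ^ 3 = _
  rw [← mul_sub, mul_pow, div_eq_mul_inv, div_eq_mul_inv, mul_inv, inv_pow]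
  ring

lemma Sc.G {c : ℂ} (h : Sc c L M) (k : ℕ) : M.G k = c⁻¹ ^ k * L.G k := by
  rw [PeriodPair.G, PeriodPair.G, ← h.equiv.tsum_eq, ← tsum_mul_left]
  refine tsum_congr fun l => ?_
  change ((c * l) ^ k)⁻¹ = _
  rw [mul_pow, mul_inv, inv_pow]

lemma Sc.g₂ {c : ℂ} (h : Sc c L M) : M.g₂ = c⁻¹ ^ 4 * L.g₂ := by
  rw [PeriodPair.g₂, PeriodPair.g₂, h.G]; ring

lemma Sc.g₃ {c : ℂ} (h : Sc c L M) : M.g₃ = c⁻¹ ^ 6 * L.g₃ := by
  rw [PeriodPair.g₃, PeriodPair.g₃, h.G]; ring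

lemma mem_of_pole {g : ℂ → ℂ} {c : ℂ} (hg : ContinuousAt g 0)
    (h : ∀ᶠ z in 𝓝[≠] 0, ℘[M] (z + c) = ℘[L] z + g z) : c ∈ M.lattice := by
  by_contra hc
  have h1 : ContinuousAt (fun z => ℘[M] (z + c) - g z) 0 :=
    (ContinuousAt.comp (f := fun z => z + c)
      (hasDerivAt_wp (by simpa using hc)).continuousAt (by fun_prop)).sub hg
  refine (Unif.tendsto_P L L.lattice.zero_mem).not_tendsto (Metric.disjoint_nhds_cobounded _).symm
    ((h1.tendsto.mono_left nhdsWithin_le_nhds).congr' ?_)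
  filter_upwards [h] with z hz
  rw [hz, add_sub_cancel_right]

lemma quarter_notMem (L : PeriodPair) : 2 * (L.ω₁ / 4) ∉ L.lattice := by
  rw [show 2 * (L.ω₁ / 4) = L.ω₁ / 2 by ring]; exact L.ω₁_div_two_notMem_lattice

lemma quarter_notMem' (L : PeriodPair) : L.ω₁ / 4 ∉ L.lattice := fun h =>
  quarter_notMem L (by rw [two_mul]; exact add_mem h h)

lemma le_of_g (h2 : M.g₂ = L.g₂) (h3 : M.g₃ = L.g₃) : M.lattice ≤ L.lattice := by
  obtain ⟨c, hc⟩ := Unif.P_comp M (U := (L.lattice : Set ℂ)ᶜ) (F := fun z => z) (A := ℘[L])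
    (A₁ := ℘'[L]) (g := fun _ => 1) isOpen_compl isPreconnected_compl
    (fun z _ => hasDerivAt_id z) (fun _ _ => one_ne_zero)
    (fun z hz => by simpa using hasDerivAt_wp hz) (fun z hz => (hasDerivAt_wp' hz).differentiableAt)
    (fun z hz => by rw [h2, h3]; exact L.derivWeierstrassP_sq z hz) (quarter_notMem' L)
    (mt (wp'_eq_zero_iff (quarter_notMem' L)).mp (quarter_notMem L))
  have h0 : c ∈ M.lattice := mem_of_pole (L := L) (g := fun _ => 0) continuousAt_const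
    ((ev_notMem 0).mono fun z hz => by rw [add_zero, (hc z hz).2.1])
  intro z hz
  by_contra h
  exact (hc z h).1 (add_mem hz h0)

/-- A lattice is determined by its invariants. -/
theorem lattice_eq_of_g (h2 : M.g₂ = L.g₂) (h3 : M.g₃ = L.g₃) : M.lattice = L.lattice :=
  le_antisymm (le_of_g h2 h3) (le_of_g h2.symm h3.symm)

variable {σ : ℂ ≃+* ℂ}

/-- The lattice `L'` is conjugate to `L` under `σ`. -/
structure Cj (σ : ℂ ≃+* ℂ) (L L' : PeriodPair) : Prop where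
  h2 : L'.g₂ = σ L.g₂
  h3 : L'.g₃ = σ L.g₃

theorem exists_cj (σ : ℂ ≃+* ℂ) (L : PeriodPair) : ∃ L', Cj σ L L' := by
  have hd := disc_ne_zero L
  have key : ∀ (k : ℕ) (x : ℂ), 0 < k → x ≠ 0 → ∃ c : ℂ, c ≠ 0 ∧ c⁻¹ ^ k * x = σ x :=
    fun k x hk hx => by
      obtain ⟨c, hc⟩ := IsAlgClosed.exists_pow_nat_eq (σ x / x) hk
      refine ⟨c⁻¹, inv_ne_zero ?_, by rw [inv_inv, hc, div_mul_cancel₀ _ hx]⟩
      rintro rfl
      rw [zero_pow hk.ne', eq_comm, div_eq_zero_iff, map_eq_zero] at hc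
      tauto
  by_cases h2 : L.g₂ = 0
  · obtain ⟨c, hc, h⟩ := key 6 L.g₃ (by norm_num) fun h => hd (by simp [h2, h])
    exact ⟨scale L hc, by rw [(sc_scale L hc).g₂, h2]; simp, by rw [(sc_scale L hc).g₃, h]⟩
  by_cases h3 : L.g₃ = 0
  · obtain ⟨c, hc, h⟩ := key 4 L.g₂ (by norm_num) h2
    exact ⟨scale L hc, by rw [(sc_scale L hc).g₂, h], by rw [(sc_scale L hc).g₃, h3]; simp⟩
  obtain ⟨L', a, b⟩ := Unif.exists_periodPair (g₂ := σ L.g₂) (g₃ := σ L.g₃) (by simpa using h2)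
    (by simpa using h3) fun h => hd (σ.injective (by
      simp only [map_sub, map_mul, map_pow, map_ofNat, map_zero, h, sub_self]))
  exact ⟨L', a, b⟩

lemma Cj.symm (h : Cj σ L L') : Cj σ.symm L' L := ⟨by simp [h.h2], by simp [h.h3]⟩

lemma Cj.of_sc {c : ℂ} (h : Cj σ L L') (h1 : Sc c L M) (h2 : Sc (σ c) L' M') : Cj σ M M' :=
  ⟨by simp [h1.g₂, h2.g₂, h.h2], by simp [h1.g₃, h2.g₃, h.h3]⟩

lemma Cj.unique (h : Cj σ L L') (h' : Cj σ L M') : L'.lattice = M'.lattice :=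
  lattice_eq_of_g (h.h2.trans h'.h2.symm) (h.h3.trans h'.h3.symm)

/-- The point `z'` modulo `L'` is conjugate to the point `z` modulo `L`. -/
def Rel (σ : ℂ ≃+* ℂ) (L L' : PeriodPair) (z z' : ℂ) : Prop :=
  (z ∈ L.lattice ∧ z' ∈ L'.lattice) ∨
    (z ∉ L.lattice ∧ z' ∉ L'.lattice ∧ ℘[L'] z' = σ (℘[L] z) ∧ ℘'[L'] z' = σ (℘'[L] z))

namespace Rel

variable {z z' w w' : ℂ}

lemma mem_iff (h : Rel σ L L' z z') : z' ∈ L'.lattice ↔ z ∈ L.lattice := by
  rcases h with h | h <;> tauto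

lemma wp (h : Rel σ L L' z z') : ℘[L'] z' = σ (℘[L] z) := by
  rcases h with h | h
  · rw [L.weierstrassP_coe ⟨z, h.1⟩, L'.weierstrassP_coe ⟨z', h.2⟩, map_zero]
  · exact h.2.2.1

lemma wp' (h : Rel σ L L' z z') : ℘'[L'] z' = σ (℘'[L] z) := by
  rcases h with h | h
  · rw [L.derivWeierstrassP_coe ⟨z, h.1⟩, L'.derivWeierstrassP_coe ⟨z', h.2⟩, map_zero]
  · exact h.2.2.2

lemma mk' (h0 : z' ∈ L'.lattice ↔ z ∈ L.lattice) (h1 : ℘[L'] z' = σ (℘[L] z))
    (h2 : ℘'[L'] z' = σ (℘'[L] z)) : Rel σ L L' z z' := by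
  by_cases h : z ∈ L.lattice
  · exact .inl ⟨h, h0.mpr h⟩
  · exact .inr ⟨h, mt h0.mp h, h1, h2⟩

lemma symm (h : Rel σ L L' z z') : Rel σ.symm L' L z' z :=
  mk' h.mem_iff.symm (by simp [h.wp]) (by simp [h.wp'])

lemma zero : Rel σ L L' 0 0 := .inl ⟨zero_mem _, zero_mem _⟩

lemma unique (h : Rel σ L L' z z') (h' : Rel σ L L' z w') : z' - w' ∈ L'.lattice := by
  by_cases hz : z ∈ L.lattice
  · exact sub_mem (h.mem_iff.mpr hz) (h'.mem_iff.mpr hz)
  · exact Unif.sub_mem_of_P_eq L' (mt h.mem_iff.mp hz) (mt h'.mem_iff.mp hz)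
      (h.wp.trans h'.wp.symm) (h.wp'.trans h'.wp'.symm)

lemma congr (h : Rel σ L L' z z') (h1 : w - z ∈ L.lattice) (h2 : w' - z' ∈ L'.lattice) :
    Rel σ L L' w w' := by
  obtain ⟨l, hl, rfl⟩ : ∃ l ∈ L.lattice, w = z + l := ⟨_, h1, by ring⟩
  obtain ⟨l', hl', rfl⟩ : ∃ l ∈ L'.lattice, w' = z' + l := ⟨_, h2, by ring⟩
  exact mk' (by rw [Submodule.add_mem_iff_left _ hl, Submodule.add_mem_iff_left _ hl', h.mem_iff])
    (by rw [L.weierstrassP_add_coe z ⟨l, hl⟩, L'.weierstrassP_add_coe z' ⟨l', hl'⟩, h.wp])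
    (by rw [L.derivWeierstrassP_add_coe z ⟨l, hl⟩, L'.derivWeierstrassP_add_coe z' ⟨l', hl'⟩, h.wp'])

lemma of_sc {c : ℂ} (h : Rel σ L L' z z') (h1 : Sc c L M) (h2 : Sc (σ c) L' M') :
    Rel σ M M' (c * z) (σ c * z') :=
  mk' (by rw [h1.mem, h2.mem, h.mem_iff]) (by simp [h1.wp, h2.wp, h.wp])
    (by simp [h1.wp', h2.wp', h.wp'])

end Rel

theorem Cj.exists_rel (h : Cj σ L L') (z : ℂ) : ∃ z', Rel σ L L' z z' := by
  by_cases hz : z ∈ L.lattice
  · exact ⟨0, .inl ⟨hz, zero_mem _⟩⟩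
  obtain ⟨z', h0, h1, h2⟩ := Unif.exists_P_dP_eq L' (x := σ (℘[L] z)) (y := σ (℘'[L] z)) (by
    rw [h.h2, h.h3, ← map_pow, L.derivWeierstrassP_sq z hz]
    simp only [map_sub, map_mul, map_pow, map_ofNat])
  exact ⟨z', .inr ⟨hz, h0, h1, h2⟩⟩

theorem Cj.exists_rel' (h : Cj σ L L') (z' : ℂ) : ∃ z, Rel σ L L' z z' := by
  obtain ⟨z, hz⟩ := h.symm.exists_rel z'
  exact ⟨z, hz.symm⟩

open Affine in
/-- The map on points induced by a field homomorphism. -/
noncomputable def ptMap (f : ℂ →+* ℂ) (W : WeierstrassCurve ℂ) :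
    W.toAffine.Point →+ (W.map f).toAffine.Point where
  toFun P := match P with
    | 0 => 0
    | .some _ _ h => .some _ _ ((W.toAffine.map_nonsingular f.injective ..).mpr h)
  map_zero' := rfl
  map_add' := by
    rintro (_ | ⟨x₁, y₁, h₁⟩) (_ | ⟨x₂, y₂, h₂⟩)
    any_goals rfl
    by_cases hxy : x₁ = x₂ ∧ y₁ = W.toAffine.negY x₂ y₂
    · rw [Point.add_of_Y_eq hxy.left hxy.right,
        Point.add_of_Y_eq (congr_arg _ hxy.left) (by rw [hxy.right, map_negY])]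
    · simpa only [Point.add_some hxy, ← map_addX, ← map_addY, ← map_slope] using!
        (Point.add_some fun h =>
          hxy ⟨f.injective h.1, f.injective (W.toAffine.map_negY f .. ▸ h).2⟩).symm

lemma Cj.isPer (h : Cj σ L L') {W : WeierstrassCurve ℂ} (hW : IsPer L W) :
    IsPer L' (W.map (σ : ℂ →+* ℂ)) :=
  ⟨by simp [hW.h4, h.h2, map_ofNat], by simp [hW.h6, h.h3, map_ofNat]⟩

lemma rel_iff {W : WeierstrassCurve ℂ} (hW : IsPer L W) (hW' : IsPer L' (W.map (σ : ℂ →+* ℂ)))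
    {z z' : ℂ} : Rel σ L L' z z' ↔ ptMap σ W (hW.unif z) = hW'.unif z' := by
  by_cases hz : z ∈ L.lattice
  · rw [hW.unif_eq_zero_iff.mpr hz, map_zero, eq_comm, hW'.unif_eq_zero_iff]
    exact ⟨fun h => h.mem_iff.mpr hz, fun h => .inl ⟨hz, h⟩⟩
  rw [hW.unif_of_notMem hz, eq_comm]
  refine Iff.trans ?_ (hW'.unif_eq_some_iff _).symm
  simp only [ux, uy, map_b₂, map_a₁, map_a₃, RingHom.coe_coe, map_sub, map_div₀, map_mul, map_ofNat]
  constructor
  · intro h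
    rw [h.wp, h.wp']
    exact ⟨mt h.mem_iff.mp hz, rfl, rfl⟩
  · rintro ⟨h0, h1, h2⟩
    have h3 : ℘[L'] z' = σ (℘[L] z) := by linear_combination h1
    exact .inr ⟨hz, h0, h3, by rw [h3] at h2; linear_combination 2 * h2⟩

theorem Cj.add (h : Cj σ L L') {z z' w w' : ℂ} (h1 : Rel σ L L' z z') (h2 : Rel σ L L' w w') :
    Rel σ L L' (z + w) (z' + w') := by
  rw [rel_iff (isPer_shortW L) (h.isPer (isPer_shortW L))] at h1 h2 ⊢
  rw [map_add, map_add, map_add, h1, h2]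

theorem Cj.int_mul (h : Cj σ L L') {z z' : ℂ} (h1 : Rel σ L L' z z') (k : ℤ) :
    Rel σ L L' (k * z) (k * z') := by
  rw [rel_iff (isPer_shortW L) (h.isPer (isPer_shortW L))] at h1 ⊢
  rw [← zsmul_eq_mul, ← zsmul_eq_mul, map_zsmul, map_zsmul, map_zsmul, h1]

theorem Cj.nat_mul (h : Cj σ L L') {z z' : ℂ} (h1 : Rel σ L L' z z') (k : ℕ) :
    Rel σ L L' (k * z) (k * z') := by simpa using h.int_mul h1 k

theorem Cj.neg (h : Cj σ L L') {z z' : ℂ} (h1 : Rel σ L L' z z') : Rel σ L L' (-z) (-z') := by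
  simpa using h.int_mul h1 (-1)

theorem Cj.sub (h : Cj σ L L') {z z' w w' : ℂ} (h1 : Rel σ L L' z z') (h2 : Rel σ L L' w w') :
    Rel σ L L' (z - w) (z' - w') := by
  simpa [sub_eq_add_neg] using h.add h1 (h.neg h2)

lemma exists_mul_mem (h : L.lattice ≤ M.lattice) :
    ∃ N : ℕ, 0 < N ∧ ∀ z ∈ M.lattice, (N : ℂ) * z ∈ L.lattice := by
  obtain ⟨a, b, h1⟩ := mem_lattice.mp (h L.ω₁_mem_lattice)
  obtain ⟨c, d, h2⟩ := mem_lattice.mp (h L.ω₂_mem_lattice)
  have hd : a * d - b * c ≠ 0 := fun h0 => by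
    have h0' : (a : ℂ) * d - b * c = 0 := by exact_mod_cast h0
    have k1 := LinearIndependent.pair_iff.mp L.indep d (-b) (by
      simp only [real_smul]; push_cast; rw [← h1, ← h2]; linear_combination M.ω₁ * h0')
    have k2 := LinearIndependent.pair_iff.mp L.indep (-c) a (by
      simp only [real_smul]; push_cast; rw [← h1, ← h2]; linear_combination M.ω₂ * h0')
    have hb : b = 0 := by simpa using k1.2
    have ha : a = 0 := by simpa using k2.2
    exact ω₁_ne (L := L) (by rw [← h1, ha, hb]; simp)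
  refine ⟨((a * d - b * c) ^ 2).toNat, by have := pow_pos (abs_pos.mpr hd) 2; rw [sq_abs] at this; omega,
    fun z hz => ?_⟩
  obtain ⟨m, n, rfl⟩ := mem_lattice.mp hz
  refine mem_lattice.mpr ⟨(a * d - b * c) * (m * d - n * c), (a * d - b * c) * (n * a - m * b), ?_⟩
  rw [← Int.cast_natCast, Int.toNat_of_nonneg (sq_nonneg _), ← h1, ← h2]
  push_cast
  ring

/-- Representatives of `M` modulo `L`. -/
structure Reps (L M : PeriodPair) (T : Finset ℂ) : Prop where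
  zero : 0 ∈ T
  mem : ∀ t ∈ T, t ∈ M.lattice
  ex : ∀ m ∈ M.lattice, ∃ t ∈ T, m - t ∈ L.lattice
  uniq : ∀ t ∈ T, ∀ t' ∈ T, t - t' ∈ L.lattice → t = t'

lemma exists_reps (h : L.lattice ≤ M.lattice) : ∃ T, Reps L M T := by
  classical
  obtain ⟨N, hN, hN'⟩ := exists_mul_mem h
  let π : ℂ →ₗ[ℤ] ℂ ⧸ L.lattice := L.lattice.mkQ
  let r : ℂ ⧸ L.lattice → ℂ := fun s => if s = 0 then 0 else s.out
  have hr : ∀ s, π (r s) = s := fun s => by
    by_cases hs : s = 0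
    · simp [r, hs]
    · simp only [r, if_neg hs]; exact Quotient.out_eq s
  have hπ : ∀ z w, π z = π w ↔ z - w ∈ L.lattice := fun z w => Submodule.Quotient.eq _
  refine ⟨(Finset.range N ×ˢ Finset.range N).image fun q : ℕ × ℕ => r (π (q.1 * M.ω₁ + q.2 * M.ω₂)),
    Finset.mem_image.mpr ⟨(0, 0), by simp [hN], by simp [r]⟩, ?_, fun m hm => ?_, ?_⟩
  · simp only [Finset.mem_image]
    rintro _ ⟨q, -, rfl⟩
    have := add_mem (h ((hπ _ _).mp (hr (π (q.1 * M.ω₁ + q.2 * M.ω₂)))))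
      (mem_lattice.mpr ⟨q.1, q.2, rfl⟩)
    simpa using this
  · obtain ⟨a, b, rfl⟩ := mem_lattice.mp hm
    have hN0 : (0 : ℤ) < N := by exact_mod_cast hN
    refine ⟨_, Finset.mem_image.mpr ⟨((a % N).toNat, (b % N).toNat), ?_, rfl⟩, ?_⟩
    · have := Int.emod_lt_of_pos a hN0
      have := Int.emod_lt_of_pos b hN0
      simp only [Finset.mem_product, Finset.mem_range]
      omega
    rw [← hπ, hr, hπ]
    convert hN' _ (mem_lattice.mpr ⟨a / N, b / N, rfl⟩) using 1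
    rw [← Int.cast_natCast (a % N).toNat, ← Int.cast_natCast (b % N).toNat,
      Int.toNat_of_nonneg (Int.emod_nonneg _ hN0.ne'),
      Int.toNat_of_nonneg (Int.emod_nonneg _ hN0.ne'), Int.emod_def, Int.emod_def]
    push_cast
    ring
  · simp only [Finset.mem_image]
    rintro _ ⟨q, -, rfl⟩ _ ⟨q', -, rfl⟩ e
    rw [← hπ, hr, hr] at e
    rw [e]

lemma Reps.sum_add {T : Finset ℂ} (hT : Reps L M T) {f : ℂ → ℂ}
    (hf : ∀ z, ∀ l ∈ L.lattice, f (z + l) = f z) {m : ℂ} (hm : m ∈ M.lattice) :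
    ∑ t ∈ T, f (m + t) = ∑ t ∈ T, f t := by
  choose! g hg1 hg2 using hT.ex
  refine Finset.sum_nbij (fun t => g (m + t)) (fun t ht => hg1 _ (add_mem hm (hT.mem t ht)))
    (fun t ht t' ht' e => hT.uniq t ht t' ht' ?_) (fun t ht => ?_) fun t ht => ?_
  · have := sub_mem (hg2 _ (add_mem hm (hT.mem t ht))) (hg2 _ (add_mem hm (hT.mem t' ht')))
    simp only at e
    rw [e] at this
    simpa using this
  · have h1 := sub_mem (hT.mem t ht) hm
    refine ⟨g (t - m), hg1 _ h1, hT.uniq _ (hg1 _ (add_mem hm (hT.mem _ (hg1 _ h1)))) _ ht ?_⟩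
    have := add_mem (hg2 _ h1) (hg2 _ (add_mem hm (hT.mem _ (hg1 _ h1))))
    convert neg_mem this using 1
    ring
  · exact (congr_arg f (by ring)).trans (hf (g (m + t)) _ (hg2 _ (add_mem hm (hT.mem t ht))))

lemma Reps.notMem {T : Finset ℂ} (hT : Reps L M T) {t : ℂ} (ht : t ∈ T.erase 0) : t ∉ L.lattice :=
  fun h => (Finset.mem_erase.mp ht).1
    (hT.uniq t (Finset.mem_erase.mp ht).2 0 hT.zero (by simpa using h))

lemma continuousAt_sum {T : Finset ℂ} (h : ∀ t ∈ T, t ∉ L.lattice) :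
    ContinuousAt (fun z => ∑ t ∈ T, ℘[L] (z + t)) 0 :=
  tendsto_finsetSum _ fun t ht => ContinuousAt.comp (f := fun z => z + t)
    (hasDerivAt_wp (by simpa using h t ht)).continuousAt (by fun_prop)

/-- The formula of Velu. -/
theorem Reps.velu {T : Finset ℂ} (hT : Reps L M T) (h : L.lattice ≤ M.lattice) {z : ℂ}
    (hz : z ∉ M.lattice) : ℘[M] z = ∑ t ∈ T, ℘[L] (z + t) - ∑ t ∈ T.erase 0, ℘[L] t := by
  have hn : ∀ z ∉ M.lattice, ∀ t ∈ T, z + t ∉ L.lattice := fun z hz t ht e =>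
    add_notMem hz (hT.mem t ht) (h e)
  have := liouville (L := M) (f := fun z => ℘[M] z - ∑ t ∈ T, ℘[L] (z + t))
    (c := -∑ t ∈ T.erase 0, ℘[L] t) (fun z hz => (hasDerivAt_wp hz).differentiableAt.sub
      (.fun_sum fun t ht => ((hasDerivAt_wp (hn z hz t ht)).comp_add_const z t).differentiableAt))
    (fun l hl z _ => by
      rw [M.weierstrassP_add_coe z ⟨l, hl⟩, ← hT.sum_add (f := fun t => ℘[L] (z + t))
        (fun w l hl => by rw [← add_assoc, L.weierstrassP_add_coe _ ⟨l, hl⟩]) hl]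
      simp only [add_assoc]) ?_ hz
  · linear_combination this
  have h1 := (((M.analyticAt_weierstrassPExcept 0).continuousAt.sub
    (L.analyticAt_weierstrassPExcept 0).continuousAt).sub
    (continuousAt_sum fun t ht => hT.notMem ht)).tendsto.mono_left (nhdsWithin_le_nhds (s := {0}ᶜ))
  simp only [Pi.sub_apply, weierstrassPExcept_zero, zero_add, sub_self, zero_sub] at h1
  refine h1.congr fun z => ?_
  rw [← Finset.add_sum_erase _ _ hT.zero, add_zero, wp_eq, wp_eq (L := L) z]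
  simp only [Pi.sub_apply]
  ring

theorem Reps.velu' {T : Finset ℂ} (hT : Reps L M T) (h : L.lattice ≤ M.lattice) {z : ℂ}
    (hz : z ∉ M.lattice) : ℘'[M] z = ∑ t ∈ T, ℘'[L] (z + t) :=
  deriv_eq_of_ev (hasDerivAt_wp hz) ((HasDerivAt.fun_sum fun t ht =>
    (hasDerivAt_wp fun e => add_notMem hz (hT.mem t ht) (h e)).comp_add_const z t).sub_const _)
    (Filter.mem_of_superset (isOpen_compl.mem_nhds hz) fun _ hw => hT.velu h hw)

/-- Conjugation is compatible with inclusions of lattices. -/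
theorem Rel.of_le (hL : Cj σ L L') (hM : Cj σ M M') (h : L.lattice ≤ M.lattice) {z z' : ℂ}
    (hz : Rel σ L L' z z') : Rel σ M M' z z' := by
  obtain ⟨T, hT⟩ := exists_reps h
  choose θ hθ using hL.exists_rel
  let U : Set ℂ := {w | ∀ t ∈ T, w + θ t ∉ L'.lattice}
  have hU : ∀ {w w'}, Rel σ L L' w w' → (w' ∈ U ↔ w ∉ M.lattice) := fun {w w'} hw => by
    simp only [U, Set.mem_ofPred_eq]
    refine ⟨fun k hm => ?_, fun k t ht e =>
      add_notMem k (hT.mem t ht) (h ((hL.add hw (hθ t)).mem_iff.mp e))⟩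
    obtain ⟨t, ht, e⟩ := hT.ex _ (neg_mem hm)
    exact k t ht ((hL.add hw (hθ t)).mem_iff.mpr (by convert neg_mem e using 1; ring))
  have e1 : ∀ {w w'}, Rel σ L L' w w' → w' ∈ U →
      ∑ t ∈ T, ℘[L'] (w' + θ t) - ∑ t ∈ T.erase 0, ℘[L'] (θ t) = σ (℘[M] w) ∧
      ∑ t ∈ T, ℘'[L'] (w' + θ t) = σ (℘'[M] w) := fun {w w'} hw hw' => by
    rw [hT.velu h ((hU hw).mp hw'), hT.velu' h ((hU hw).mp hw'), map_sub, map_sum, map_sum,
      map_sum]
    exact ⟨congr_arg₂ _ (Finset.sum_congr rfl fun t _ => (hL.add hw (hθ t)).wp)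
      (Finset.sum_congr rfl fun t _ => (hθ t).wp),
      Finset.sum_congr rfl fun t _ => (hL.add hw (hθ t)).wp'⟩
  have hc : Uᶜ.Countable := by
    refine (T.countable_toSet.biUnion fun t _ =>
      (countable_lattice (L := L')).image fun l => l - θ t).mono fun w hw => ?_
    simp only [U, Set.mem_compl_iff, Set.mem_ofPred_eq, not_forall, not_not] at hw
    obtain ⟨t, ht, hw⟩ := hw
    exact Set.mem_biUnion ht ⟨_, hw, by ring⟩
  have ho : IsOpen U := by
    have : U = ⋂ t ∈ T, (fun w => w + θ t) ⁻¹' (L'.lattice : Set ℂ)ᶜ := by ext; simp [U]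
    rw [this]
    exact isOpen_biInter_finset fun t _ => isOpen_compl.preimage (by fun_prop)
  obtain ⟨c, hc'⟩ := Unif.P_comp M' (U := U) (F := fun z => z)
    (A := fun w => ∑ t ∈ T, ℘[L'] (w + θ t) - ∑ t ∈ T.erase 0, ℘[L'] (θ t))
    (A₁ := fun w => ∑ t ∈ T, ℘'[L'] (w + θ t)) (g := fun _ => 1) ho
    (by simpa using (hc.isConnected_compl_of_one_lt_rank (by simp)).2)
    (fun z _ => hasDerivAt_id z) (fun _ _ => one_ne_zero)
    (fun w hw => by
      simpa using HasDerivAt.fun_sum fun t ht => (hasDerivAt_wp (hw t ht)).comp_add_const w (θ t))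
    (fun w hw => .fun_sum fun t ht =>
      ((hasDerivAt_wp' (hw t ht)).comp_add_const w (θ t)).differentiableAt)
    (fun w' hw' => by
      obtain ⟨w, hw⟩ := hL.exists_rel' w'
      rw [(e1 hw hw').1, (e1 hw hw').2, hM.h2, hM.h3, ← map_pow,
        M.derivWeierstrassP_sq w ((hU hw).mp hw')]
      simp only [map_sub, map_mul, map_pow, map_ofNat])
    ((hU (hθ _)).mpr (quarter_notMem' M)) (by
      rw [(e1 (hθ _) ((hU (hθ _)).mpr (quarter_notMem' M))).2, map_ne_zero]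
      exact mt (wp'_eq_zero_iff (quarter_notMem' M)).mp (quarter_notMem M))
  have h0 : θ 0 ∈ L'.lattice := (hθ 0).mem_iff.mpr (zero_mem _)
  have hn : ∀ t ∈ T.erase 0, θ t ∉ L'.lattice := fun t ht => mt (hθ t).mem_iff.mp (hT.notMem ht)
  have hcm : c ∈ M'.lattice := by
    refine mem_of_pole (L := L') (g := fun w => ∑ t ∈ T.erase 0, ℘[L'] (w + θ t) -
      ∑ t ∈ T.erase 0, ℘[L'] (θ t)) (ContinuousAt.sub ?_ continuousAt_const) ?_
    · exact tendsto_finsetSum _ fun t ht => ContinuousAt.comp (f := fun z => z + θ t)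
        (hasDerivAt_wp (by simpa using hn t ht)).continuousAt (by fun_prop)
    have : ∀ᶠ w in 𝓝[≠] (0 : ℂ), w ∈ U := (Finset.eventually_all T).mpr fun t _ =>
      (tendsto_add_nhdsNE 0 (θ t)).eventually (ev_notMem _)
    filter_upwards [this] with w hw
    rw [← (hc' w hw).2.1, ← Finset.add_sum_erase _ _ hT.zero, L'.weierstrassP_add_coe w ⟨_, h0⟩]
    ring
  have key : ∀ {w w'}, Rel σ L L' w w' → w ∉ M.lattice → Rel σ M M' w w' := fun {w w'} hw hw' => by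
    have k := (hU hw).mpr hw'
    obtain ⟨k1, k2, k3⟩ := hc' w' k
    rw [M'.weierstrassP_add_coe w' ⟨c, hcm⟩] at k2
    rw [M'.derivWeierstrassP_add_coe w' ⟨c, hcm⟩] at k3
    exact .inr ⟨hw', fun e => k1 (add_mem e hcm), k2.symm.trans (e1 hw k).1,
      k3.symm.trans (e1 hw k).2⟩
  by_cases hm : z ∈ M.lattice
  · have := hM.sub (key (hL.add (hθ _) hz) (add_notMem (quarter_notMem' M) hm))
      (key (hθ _) (quarter_notMem' M))
    simpa using this
  · exact key hz hm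

/-- Conjugation is compatible with isogenies. -/
theorem Rel.isog (hL : Cj σ L L') (hM : Cj σ M M') {α : ℂ} (hα : α ≠ 0)
    (h : ∀ z ∈ L.lattice, α * z ∈ M.lattice) {z z' : ℂ} (hz : Rel σ L L' z z') :
    Rel σ M M' (α * z) (σ α * z') := by
  have h1 := sc_scale M (inv_ne_zero hα)
  have h2 := sc_scale M' (c := σ α⁻¹) (by simpa using hα)
  have h3 := (hz.of_le hL (hM.of_sc h1 h2) fun w hw => by
    rw [← h1.symm.mem, inv_inv]; exact h w hw).of_sc h1.symm (M' := M') (by simpa using h2.symm)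
  simpa using h3

theorem Cj.isog_mem (hL : Cj σ L L') (hM : Cj σ M M') {α : ℂ} (hα : α ≠ 0)
    (h : ∀ z ∈ L.lattice, α * z ∈ M.lattice) {z' : ℂ} (hz : z' ∈ L'.lattice) :
    σ α * z' ∈ M'.lattice :=
  (Rel.isog hL hM hα h (.inl ⟨zero_mem _, hz⟩)).mem_iff.mpr (by simp)

end Pool.Agent.Lib.MP_696deb_nt.Gal
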