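import Mathlib

-- part Pool.Agent.Lib.MP_696deb_nt.LogInd
section

/-! The logarithms of the primes are linearly independent over the rationals. -/

namespace Pool.Agent.Lib.MP_696deb_nt

theorem linInd_log : LinearIndependent ℚ fun p : Nat.Primes => Real.log p := by
  rw [← LinearIndependent.iff_fractionRing ℤ ℚ, linearIndependent_iff']
  intro s g h i hi
  have := Fact.mk i.2
  have h0 : ∀ q : Nat.Primes, ((q : ℕ) : ℚ) ≠ 0 := fun q => by exact_mod_cast q.2.ne_zero
  have h1 : ∀ s : Finset Nat.Primes, padicValRat i (∏ q ∈ s, ((q : ℕ) : ℚ) ^ g q) =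
      if i ∈ s then g i else 0 := fun s => by
    induction s using Finset.induction_on with
    | empty => simp
    | insert q s hq ih =>
      rw [Finset.prod_insert hq, padicValRat.mul (zpow_ne_zero _ (h0 q))
        (Finset.prod_ne_zero_iff.mpr fun q _ => zpow_ne_zero _ (h0 q)), ih, padicValRat.zpow]
      by_cases e : i = q
      · subst e
        simp [hq, padicValRat.self i.2.one_lt]
      · have := Fact.mk q.2
        simp [e, padicValNat_primes fun h => e (Subtype.ext h)]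
  have h2 : ∏ q ∈ s, ((q : ℕ) : ℚ) ^ g q = 1 := by
    have h3 := congr_arg Real.exp h
    rw [Real.exp_sum, Real.exp_zero, Finset.prod_congr rfl fun q _ => by
      rw [zsmul_eq_mul, ← Real.log_zpow, Real.exp_log (zpow_pos (by exact_mod_cast q.2.pos) _)]] at h3
    exact Rat.cast_injective (α := ℝ) (by push_cast; exact h3)
  simpa [h2, hi] using (h1 s).symm

/-- The rational span of the logarithms of the primes other than `p`. -/
noncomputable def LogS (p : ℕ) : Submodule ℚ ℝ :=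
  Submodule.span ℚ ((fun q : Nat.Primes => Real.log q) '' {q | q.1 ≠ p})

lemma log_prime_mem {p q : ℕ} (hq : q.Prime) (h : q ≠ p) : Real.log q ∈ LogS p :=
  Submodule.subset_span ⟨⟨q, hq⟩, h, rfl⟩

lemma LogS.rat_mul {p : ℕ} (r : ℚ) {x : ℝ} (h : x ∈ LogS p) : r * x ∈ LogS p :=
  (LogS p).smul_mem r h

lemma LogS.int_mul {p : ℕ} (r : ℤ) {x : ℝ} (h : x ∈ LogS p) : r * x ∈ LogS p := by
  simpa using LogS.rat_mul r h

lemma LogS.of_mul {p : ℕ} {r : ℚ} (hr : r ≠ 0) {x : ℝ} (h : r * x ∈ LogS p) : x ∈ LogS p :=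
  ((LogS p).smul_mem_iff hr).mp h

lemma log_nat_sub_mem (p n : ℕ) : Real.log n - n.factorization p * Real.log p ∈ LogS p := by
  rw [Real.log_nat_eq_sum_factorization, Finsupp.sum, ← Finset.sum_erase_add _ _
    (Finset.mem_insert_self p n.factorization.support) |>.trans (Finset.sum_insert_of_eq_zero_if_notMem
      fun h => by simp [Finsupp.notMem_support_iff.mp h]), add_sub_cancel_right]
  refine Submodule.sum_mem _ fun q hq => ?_
  simp only [Finset.mem_erase, Finset.mem_insert] at hq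
  simpa using LogS.int_mul (n.factorization q)
    (log_prime_mem (Nat.prime_of_mem_primeFactors (hq.2.resolve_left hq.1)) hq.1)

lemma log_int_sub_mem {p : ℕ} (hp : p.Prime) (n : ℤ) :
    Real.log n - padicValInt p n * Real.log p ∈ LogS p := by
  simpa [padicValInt, Nat.factorization_def _ hp] using log_nat_sub_mem p n.natAbs

lemma log_int_mem {p : ℕ} (hp : p.Prime) {n : ℤ} (h : ¬ (p : ℤ) ∣ n) : Real.log n ∈ LogS p := by
  simpa [padicValInt.eq_zero_of_not_dvd h] using log_int_sub_mem hp n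

/-- A sum of logarithms of integers in which the prime `p` cancels. -/
lemma sum_log_mem {p : ℕ} (hp : p.Prime) {ι : Type*} {s : Finset ι} {a : ι → ℚ} {n : ι → ℤ}
    (h : ∑ i ∈ s, a i * padicValInt p (n i) = 0) : ∑ i ∈ s, a i * Real.log (n i) ∈ LogS p := by
  have h1 := Submodule.sum_mem (LogS p) (t := s) fun i _ =>
    LogS.rat_mul (a i) (log_int_sub_mem hp (n i))
  have h2 : ∑ i ∈ s, (a i : ℝ) * padicValInt p (n i) = 0 := by exact_mod_cast h
  simpa only [mul_sub, Finset.sum_sub_distrib, ← mul_assoc, ← Finset.sum_mul, h2, zero_mul,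
    sub_zero] using h1

theorem eq_zero_of_mem_LogS {x : ℝ} (h : ∀ p : ℕ, p.Prime → x ∈ LogS p) : x = 0 := by
  obtain ⟨c, -, rfl⟩ := (Finsupp.mem_span_image_iff_linearCombination _).mp (h 2 Nat.prime_two)
  rw [show c = 0 from Finsupp.ext fun p => ?_, map_zero]
  obtain ⟨c', h1, h2⟩ := (Finsupp.mem_span_image_iff_linearCombination _).mp (h p p.2)
  rw [← linInd_log h2]
  exact (Finsupp.mem_supported' _ _).mp h1 p fun e => e rfl

end Pool.Agent.Lib.MP_696deb_nt
end

-- part Pool.Agent.Lib.MP_696deb_nt.VarChange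
section

/-! Changes of variables, combined with a field homomorphism, induce homomorphisms of the groups
of points. -/

set_option autoImplicit false

open WeierstrassCurve WeierstrassCurve.Affine

namespace Pool.Agent.Lib.MP_696deb_nt

/-- The substitution `x = u^2 x' + r`, `y = u^3 y' + u^2 s x' + t` carries `f W'` to `W`. -/
structure VC {K L : Type*} [Field K] [Field L] (f : K →+* L) (W' : WeierstrassCurve K)
    (W : WeierstrassCurve L) (u r s t : L) : Prop where
  hu : u ≠ 0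
  h1 : u * f W'.a₁ = W.a₁ + 2 * s
  h2 : u ^ 2 * f W'.a₂ = W.a₂ - s * W.a₁ + 3 * r - s ^ 2
  h3 : u ^ 3 * f W'.a₃ = W.a₃ + r * W.a₁ + 2 * t
  h4 : u ^ 4 * f W'.a₄ = W.a₄ - s * W.a₃ + 2 * r * W.a₂ - (t + r * s) * W.a₁ + 3 * r ^ 2 - 2 * s * t
  h6 : u ^ 6 * f W'.a₆ = W.a₆ + r * W.a₄ + r ^ 2 * W.a₂ + r ^ 3 - t * W.a₃ - t ^ 2 - r * t * W.a₁

namespace VC

variable {K L : Type*} [Field K] [Field L] {f : K →+* L} {W' : WeierstrassCurve K}
  {W : WeierstrassCurve L} {u r s t : L}

theorem equation (h : VC f W' W u r s t) (x y : K) :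
    W.toAffine.Equation (u ^ 2 * f x + r) (u ^ 3 * f y + u ^ 2 * s * f x + t) ↔
      W'.toAffine.Equation x y := by
  rw [equation_iff', equation_iff', ← map_eq_zero_iff f f.injective,
    ← mul_eq_zero_iff_left (pow_ne_zero 6 h.hu) (b := f _)]
  simp only [toAffine, map_add, map_sub, map_mul, map_pow]
  apply Eq.congr_left
  linear_combination -(u ^ 5 * f x * f y) * h.h1 - (u ^ 3 * f y) * h.h3 + (u ^ 4 * f x ^ 2) * h.h2 +
    (u ^ 2 * f x) * h.h4 + h.h6

theorem nonsingular (h : VC f W' W u r s t) (x y : K) :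
    W.toAffine.Nonsingular (u ^ 2 * f x + r) (u ^ 3 * f y + u ^ 2 * s * f x + t) ↔
      W'.toAffine.Nonsingular x y := by
  rw [nonsingular_iff', nonsingular_iff', h.equation]
  refine and_congr_right fun _ => ?_
  have e1 : 2 * (u ^ 3 * f y + u ^ 2 * s * f x + t) + W.toAffine.a₁ * (u ^ 2 * f x + r) +
      W.toAffine.a₃ = u ^ 3 * f (2 * y + W'.toAffine.a₁ * x + W'.toAffine.a₃) := by
    simp only [toAffine, map_add, map_mul, map_ofNat]
    linear_combination -(u ^ 2 * f x) * h.h1 - h.h3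
  have e2 : W.toAffine.a₁ * (u ^ 3 * f y + u ^ 2 * s * f x + t) -
      (3 * (u ^ 2 * f x + r) ^ 2 + 2 * W.toAffine.a₂ * (u ^ 2 * f x + r) + W.toAffine.a₄) =
      u ^ 4 * f (W'.toAffine.a₁ * y - (3 * x ^ 2 + 2 * W'.toAffine.a₂ * x + W'.toAffine.a₄)) -
        s * (u ^ 3 * f (2 * y + W'.toAffine.a₁ * x + W'.toAffine.a₃)) := by
    simp only [toAffine, map_add, map_sub, map_mul, map_pow, map_ofNat]
    linear_combination -(u ^ 3 * f y) * h.h1 + (2 * u ^ 2 * f x) * h.h2 + h.h4 +
      (s * u ^ 2 * f x) * h.h1 + s * h.h3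
  rw [e1, e2]
  generalize 2 * y + W'.toAffine.a₁ * x + W'.toAffine.a₃ = b
  generalize W'.toAffine.a₁ * y - (3 * x ^ 2 + 2 * W'.toAffine.a₂ * x + W'.toAffine.a₄) = a
  by_cases hb : b = 0
  · simp [hb, h.hu]
  · simp [hb, h.hu]

theorem negY (h : VC f W' W u r s t) (x y : K) :
    W.toAffine.negY (u ^ 2 * f x + r) (u ^ 3 * f y + u ^ 2 * s * f x + t) =
      u ^ 3 * f (W'.toAffine.negY x y) + u ^ 2 * s * f x + t := by
  simp only [Affine.negY, toAffine, map_sub, map_mul, map_neg]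
  linear_combination (u ^ 2 * f x) * h.h1 + h.h3

theorem X_inj (h : VC f W' W u r s t) {x x' : K} :
    u ^ 2 * f x + r = u ^ 2 * f x' + r ↔ x = x' := by
  rw [add_left_inj, mul_right_inj' (pow_ne_zero 2 h.hu), f.injective.eq_iff]

theorem Y_inj (h : VC f W' W u r s t) {x y y' : K} :
    u ^ 3 * f y + u ^ 2 * s * f x + t = u ^ 3 * f y' + u ^ 2 * s * f x + t ↔ y = y' := by
  rw [add_left_inj, add_left_inj, mul_right_inj' (pow_ne_zero 3 h.hu), f.injective.eq_iff]

variable [DecidableEq K] [DecidableEq L]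

theorem slope (h : VC f W' W u r s t) {x1 y1 x2 y2 : K}
    (hxy : ¬ (x1 = x2 ∧ y1 = W'.toAffine.negY x2 y2)) (h1 : W'.toAffine.Equation x1 y1)
    (h2 : W'.toAffine.Equation x2 y2) :
    W.toAffine.slope (u ^ 2 * f x1 + r) (u ^ 2 * f x2 + r) (u ^ 3 * f y1 + u ^ 2 * s * f x1 + t)
      (u ^ 3 * f y2 + u ^ 2 * s * f x2 + t) = u * f (W'.toAffine.slope x1 x2 y1 y2) + s := by
  have hu := h.hu
  by_cases hx : x1 = x2
  · subst hx
    have hy : y1 ≠ W'.toAffine.negY x1 y2 := fun e => hxy ⟨rfl, e⟩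
    obtain rfl : y1 = y2 := Y_eq_of_Y_ne h1 h2 rfl hy
    have hd : f (y1 - W'.toAffine.negY x1 y1) ≠ 0 := (map_ne_zero f).mpr (sub_ne_zero.mpr hy)
    rw [slope_of_Y_ne rfl hy, slope_of_Y_ne rfl (by rw [h.negY]; exact fun e => hy (h.Y_inj.mp e)),
      h.negY, map_div₀, div_eq_iff (by
        rw [show u ^ 3 * f y1 + u ^ 2 * s * f x1 + t -
          (u ^ 3 * f (W'.toAffine.negY x1 y1) + u ^ 2 * s * f x1 + t) =
          u ^ 3 * f (y1 - W'.toAffine.negY x1 y1) by rw [map_sub]; ring]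
        exact mul_ne_zero (pow_ne_zero _ hu) hd),
      show u ^ 3 * f y1 + u ^ 2 * s * f x1 + t -
          (u ^ 3 * f (W'.toAffine.negY x1 y1) + u ^ 2 * s * f x1 + t) =
          u ^ 3 * f (y1 - W'.toAffine.negY x1 y1) by rw [map_sub]; ring]
    have e : ∀ a b : L, b ≠ 0 → (u * (a / b) + s) * (u ^ 3 * b) = u ^ 4 * a + s * u ^ 3 * b := by
      intro a b hb; field_simp
    rw [e _ _ hd]
    simp only [Affine.negY, toAffine, map_add, map_sub, map_mul, map_pow, map_ofNat, map_neg]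
    linear_combination (u ^ 3 * f y1) * h.h1 - (2 * u ^ 2 * f x1) * h.h2 - h.h4 -
      (s * u ^ 2 * f x1) * h.h1 - s * h.h3
  · have hd : f x1 - f x2 ≠ 0 := sub_ne_zero.mpr fun e => hx (f.injective e)
    rw [slope_of_X_ne hx, slope_of_X_ne (fun e => hx (h.X_inj.mp e)), map_div₀, map_sub, map_sub,
      div_eq_iff (by
        rw [show u ^ 2 * f x1 + r - (u ^ 2 * f x2 + r) = u ^ 2 * (f x1 - f x2) by ring]
        exact mul_ne_zero (pow_ne_zero _ hu) hd)]
    field_simp
    ring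

/-- The map on points. -/
def toFun (h : VC f W' W u r s t) : W'.toAffine.Point → W.toAffine.Point
  | .zero => 0
  | .some x y hP => .some _ _ ((h.nonsingular x y).mpr hP)

theorem toFun_add (h : VC f W' W u r s t) (P Q : W'.toAffine.Point) :
    h.toFun (P + Q) = h.toFun P + h.toFun Q := by
  rcases P with _ | ⟨x1, y1, h1⟩
  · rw [← Point.zero_def, zero_add]; exact (zero_add _).symm
  rcases Q with _ | ⟨x2, y2, h2⟩
  · rw [← Point.zero_def, add_zero]; exact (add_zero _).symm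
  by_cases hxy : x1 = x2 ∧ y1 = W'.toAffine.negY x2 y2
  · rw [Point.add_of_Y_eq hxy.1 hxy.2]
    refine (Point.add_of_Y_eq (by rw [hxy.1]) ?_).symm
    rw [h.negY, hxy.1, hxy.2]
  · have hxy' : ¬ (u ^ 2 * f x1 + r = u ^ 2 * f x2 + r ∧ u ^ 3 * f y1 + u ^ 2 * s * f x1 + t =
        W.toAffine.negY (u ^ 2 * f x2 + r) (u ^ 3 * f y2 + u ^ 2 * s * f x2 + t)) := by
      rintro ⟨a, b⟩
      obtain rfl := h.X_inj.mp a
      rw [h.negY] at b
      exact hxy ⟨rfl, h.Y_inj.mp b⟩
    rw [Point.add_some hxy]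
    refine Eq.trans ?_ (Point.add_some hxy').symm
    have hX : ∀ l : K, W.toAffine.addX (u ^ 2 * f x1 + r) (u ^ 2 * f x2 + r) (u * f l + s) =
        u ^ 2 * f (W'.toAffine.addX x1 x2 l) + r := by
      intro l
      simp only [addX, toAffine, map_add, map_sub, map_mul, map_pow]
      linear_combination -(u * f l) * h.h1 + h.h2
    simp only [toFun, Point.some.injEq, h.slope hxy h1.1 h2.1, hX, true_and]
    rw [addY, addY, hX, ← h.negY]
    congr 1
    simp only [negAddY, hX, map_add, map_sub, map_mul]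
    ring

/-- The homomorphism on points. -/
def hom (h : VC f W' W u r s t) : W'.toAffine.Point →+ W.toAffine.Point :=
  AddMonoidHom.mk' h.toFun h.toFun_add

theorem hom_some (h : VC f W' W u r s t) {x y : K} (hP : W'.toAffine.Nonsingular x y) :
    h.hom (.some x y hP) = .some _ _ ((h.nonsingular x y).mpr hP) := rfl

theorem hom_injective (h : VC f W' W u r s t) : Function.Injective h.hom := by
  rw [injective_iff_map_eq_zero]
  rintro (_ | ⟨x, y, hP⟩) e
  · rfl
  · exact absurd e (Point.some_ne_zero _)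

theorem mem_range (h : VC f W' W u r s t) {X Y : L} (hP : W.toAffine.Nonsingular X Y) {x y : K}
    (hx : X = u ^ 2 * f x + r) (hy : Y = u ^ 3 * f y + u ^ 2 * s * f x + t) :
    ∃ P, h.hom P = .some X Y hP := by
  subst hx hy
  exact ⟨.some x y ((h.nonsingular x y).mp hP), rfl⟩

end VC

end Pool.Agent.Lib.MP_696deb_nt
end
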