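import Pool.Agent.Lib.MP_696deb_nt.ErgMain

set_option autoImplicit false

open Filter Topology Set MeasureTheory UpperHalfPlane Metric
open scoped Real MatrixGroups ENNReal NNReal

namespace Pool.Agent.Lib.MP_696deb_nt

theorem setLIntegral_ball_smul (g : SL(2, ℝ)) (h : ℍ → ℝ≥0∞) (z : ℍ) :
    ∫⁻ w in ball (g • z) 1, h w = ∫⁻ w in ball z 1, h (g • w) := by
  rw [← (measurePreserving_smul g (volume : Measure ℍ)).setLIntegral_comp_preimage_emb
    (measurableEmbedding_const_smul g), Metric.preimage_smul_ball, inv_smul_smul]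

theorem volume_ball_eq (z : ℍ) : volume (ball z 1) = volume (ball I 1) := by
  have := setLIntegral_ball_smul z.toSL2R (fun _ => 1) I
  simpa using this

theorem volume_ball_ne_zero : volume (ball I 1) ≠ 0 := fun h => by
  have h1 : (volume : Measure ℍ) univ = 0 := measure_null_of_locally_null _ fun z _ =>
    ⟨ball z 1, mem_nhdsWithin_of_mem_nhds (ball_mem_nhds z one_pos), (volume_ball_eq z).trans h⟩
  have h2 := integral_akr one_pos I
  rw [Measure.measure_univ_eq_zero.mp h1] at h2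
  simp at h2

theorem lintegral_akr_le {ε : ℝ} (hε : 0 < ε) {h : ℍ → ℝ≥0∞} (hh : Measurable h) {η : ℝ≥0∞}
    (H : ∀ z, ∫⁻ w in ball z 1, h w ≤ η) (z : ℍ) :
    ∫⁻ w, ENNReal.ofReal (akr ε z w) * h w ≤
      ENNReal.ofReal (Real.exp (1 + ε)) * η / volume (ball I 1) := by
  have hm : Measurable fun w => ENNReal.ofReal (akr ε z w) :=
    (continuous_akr_right ε z).measurable.ennreal_ofReal
  have hs : MeasurableSet {p : ℍ × ℍ | dist p.2 p.1 < 1} :=
    (isOpen_lt (continuous_snd.dist continuous_fst) continuous_const).measurableSet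
  rw [ENNReal.le_div_iff_mul_le (Or.inl volume_ball_ne_zero) (Or.inl measure_ball_lt_top.ne),
    ← lintegral_mul_const _ (hm.fun_mul hh)]
  calc ∫⁻ w, ENNReal.ofReal (akr ε z w) * h w * volume (ball I 1)
      ≤ ∫⁻ w, ∫⁻ w', {p : ℍ × ℍ | dist p.2 p.1 < 1}.indicator (fun p =>
        ENNReal.ofReal (Real.exp (1 + ε)) * ENNReal.ofReal (akr ε z p.2) * h p.1) (w, w') := by
        refine lintegral_mono fun w => ?_
        rw [← volume_ball_eq w, ← setLIntegral_const, ← lintegral_indicator measurableSet_ball]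
        refine lintegral_mono fun w' => ?_
        by_cases hw : w' ∈ ball w 1
        · rw [indicator_of_mem hw, indicator_of_mem (show (w, w') ∈
            {p : ℍ × ℍ | dist p.2 p.1 < 1} from hw), ← ENNReal.ofReal_mul (Real.exp_pos _).le]
          refine mul_le_mul_left (ENNReal.ofReal_le_ofReal ?_) _
          have h1 := akr_le hε w w' z
          simp only [akr, dist_comm z] at h1 ⊢
          refine h1.trans (mul_le_mul_of_nonneg_right (Real.exp_le_exp.mpr ?_) ?_)
          · rw [mem_ball, dist_comm] at hw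
            nlinarith
          · exact akr_nonneg hε w' z
        · rw [indicator_of_notMem hw]
          exact zero_le
    _ = ∫⁻ w', ENNReal.ofReal (Real.exp (1 + ε)) * ENNReal.ofReal (akr ε z w') *
        ∫⁻ w in ball w' 1, h w := by
        have hmm : Measurable fun q : ℍ × ℍ => {p : ℍ × ℍ | dist p.2 p.1 < 1}.indicator (fun p =>
            ENNReal.ofReal (Real.exp (1 + ε)) * ENNReal.ofReal (akr ε z p.2) * h p.1) (q.1, q.2) :=
          (((hm.comp measurable_snd).const_mul _).mul (hh.comp measurable_fst)).indicator hs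
        refine (lintegral_lintegral_swap (f := fun w w' => {p : ℍ × ℍ | dist p.2 p.1 < 1}.indicator
          (fun p => ENNReal.ofReal (Real.exp (1 + ε)) * ENNReal.ofReal (akr ε z p.2) * h p.1)
          (w, w')) hmm.aemeasurable).trans (lintegral_congr fun w' => ?_)
        rw [← lintegral_const_mul _ hh, ← lintegral_indicator measurableSet_ball]
        refine lintegral_congr fun w => ?_
        by_cases hw : w ∈ ball w' 1
        · rw [indicator_of_mem hw, indicator_of_mem (show (w, w') ∈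
            {p : ℍ × ℍ | dist p.2 p.1 < 1} from mem_ball'.mp hw)]
        · rw [indicator_of_notMem hw, indicator_of_notMem (show (w, w') ∉
            {p : ℍ × ℍ | dist p.2 p.1 < 1} from fun h => hw (mem_ball'.mpr h))]
    _ ≤ ∫⁻ w', ENNReal.ofReal (Real.exp (1 + ε)) * η * ENNReal.ofReal (akr ε z w') := by
        refine lintegral_mono fun w' => ?_
        rw [mul_right_comm]
        gcongr
        exact H w'
    _ = ENNReal.ofReal (Real.exp (1 + ε)) * η := by
        rw [lintegral_const_mul _ hm, ← ofReal_integral_eq_lintegral_ofReal (integrable_akr hε z)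
          (.of_forall (akr_nonneg hε z)), integral_akr hε, ENNReal.ofReal_one, mul_one]

theorem avg_le_of_ball {h : ℍ → ℝ} (hh : Measurable h) (h0 : ∀ w, 0 ≤ h w) {η : ℝ} (hη : 0 ≤ η)
    (H : ∀ z, ∫⁻ w in ball z 1, ENNReal.ofReal (h w) ≤ ENNReal.ofReal η) {ε : ℝ} (hε : 0 < ε)
    (z : ℍ) : (Integrable fun w => akr ε z w * h w) ∧
      avg ε h z ≤ Real.exp (1 + ε) * η / (volume (ball I 1)).toReal := by
  have h1 := lintegral_akr_le hε hh.ennreal_ofReal H z
  simp only [← ENNReal.ofReal_mul (akr_nonneg hε z _)] at h1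
  have h2 : ∀ᵐ w, 0 ≤ akr ε z w * h w := .of_forall fun w => mul_nonneg (akr_nonneg hε z w) (h0 w)
  have hm := ((continuous_akr_right ε z).measurable.mul hh).aestronglyMeasurable (μ := volume)
  have h3 : ENNReal.ofReal (Real.exp (1 + ε)) * ENNReal.ofReal η / volume (ball I 1) ≠ ⊤ :=
    ENNReal.div_ne_top (ENNReal.mul_ne_top ENNReal.ofReal_ne_top ENNReal.ofReal_ne_top)
      volume_ball_ne_zero
  refine ⟨⟨hm, (hasFiniteIntegral_iff_ofReal h2).mpr (h1.trans_lt h3.lt_top)⟩, ?_⟩
  rw [avg, integral_eq_lintegral_of_nonneg_ae h2 hm]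
  refine (ENNReal.toReal_mono h3 h1).trans_eq ?_
  rw [ENNReal.toReal_div, ENNReal.toReal_mul, ENNReal.toReal_ofReal (Real.exp_pos _).le,
    ENNReal.toReal_ofReal hη]

/-- Invariant functions that are locally integrable and bounded near the cusps. -/
structure Tame (Γ : Subgroup SL(2, ℤ)) (u : ℍ → ℝ) : Prop where
  meas : Measurable u
  inv : ∀ γ ∈ Γ, ∀ z, u (γ • z) = u z
  loc : LocallyIntegrable u volume
  cusp : ∀ g : SL(2, ℤ), ∃ Y C : ℝ, ∀ z : ℍ, |z.re| ≤ 1 → Y ≤ z.im → |u (g • z)| ≤ C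

variable {Γ : Subgroup SL(2, ℤ)} [Γ.FiniteIndex] {u : ℍ → ℝ}

theorem Tame.cusp_unif (hu : Tame Γ u) :
    ∃ Y C : ℝ, ∀ (g : SL(2, ℤ)) (z : ℍ), Y ≤ z.im → |u (g • z)| ≤ C := by
  obtain ⟨G, hG⟩ := exists_reps Γ
  choose Y C h using hu.cusp
  obtain ⟨Y₀, hY⟩ := (G.finite_toSet.image Y).bddAbove
  obtain ⟨C₀, hC⟩ := (G.finite_toSet.image C).bddAbove
  refine ⟨Y₀, C₀, fun g z hz => ?_⟩
  obtain ⟨n, z₀, h1, h2, h3⟩ := exists_T_smul z
  obtain ⟨γ, hγ, r, hr, h4⟩ := hG (g * ModularGroup.T ^ n)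
  rw [h3, smul_smul, h4, mul_smul, hu.inv γ hγ]
  exact (h r z₀ (by linarith) ((hY (mem_image_of_mem _ hr)).trans (h2 ▸ hz))).trans
    (hC (mem_image_of_mem _ hr))

theorem Tame.unif_int (hu : Tame Γ u) {δ : ℝ} (hδ : 0 < δ) : ∃ K : ℝ, 0 ≤ K ∧ ∀ z,
    ∫⁻ w in ball z 1, ENNReal.ofReal (max (|u w| - K) 0) ≤ ENNReal.ofReal δ := by
  obtain ⟨G, hG⟩ := exists_reps Γ
  obtain ⟨Y, C, hC⟩ := hu.cusp_unif
  obtain ⟨R, hR⟩ := (isCompact_box (1 / 2) (Y * Real.exp 1)
    (show (0 : ℝ) < 1 / 2 by norm_num)).isBounded.subset_closedBall I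
  have hm : ∀ K : ℝ, Measurable fun w => ENNReal.ofReal (max (|u w| - K) 0) := fun K =>
    ((hu.meas.abs.sub_const K).max measurable_const).ennreal_ofReal
  have h1 : Tendsto (fun K : ℕ => ∑ r ∈ G, ∫⁻ w in closedBall (r • I) (R + 1),
      ENNReal.ofReal (max (|u w| - K) 0)) atTop (𝓝 (∑ _r ∈ G, 0)) := by
    refine tendsto_finsetSum _ fun r _ => ?_
    have h2 := tendsto_lintegral_of_dominated_convergence
      (μ := volume.restrict (closedBall (r • I) (R + 1)))
      (F := fun (K : ℕ) w => ENNReal.ofReal (max (|u w| - K) 0)) (f := fun _ => 0)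
      (fun w => ‖u w‖ₑ) (fun K => hm K) (fun K => .of_forall fun w => by
        simp only [← ofReal_norm, Real.norm_eq_abs]
        exact ENNReal.ofReal_le_ofReal (max_le (by simp) (abs_nonneg _)))
      (hu.loc.integrableOn_isCompact (isCompact_closedBall _ _)).2.ne (.of_forall fun w => by
        refine tendsto_const_nhds.congr' ?_
        filter_upwards [eventually_ge_atTop ⌈|u w|⌉₊] with K hK
        rw [max_eq_right (sub_nonpos.mpr (Nat.ceil_le.mp hK)), ENNReal.ofReal_zero])
    simpa using h2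
  rw [Finset.sum_const_zero] at h1
  obtain ⟨K, hK, hKC⟩ := ((h1.eventually (eventually_le_nhds (ENNReal.ofReal_pos.mpr hδ))).and
    (eventually_ge_atTop ⌈C⌉₊)).exists
  refine ⟨K, Nat.cast_nonneg _, fun z => ?_⟩
  obtain ⟨g, hg⟩ := ModularGroup.exists_smul_mem_fd z
  obtain ⟨γ, hγ, r, hr, h2⟩ := hG g⁻¹
  have h3 : z = toR γ • r • g • z := by rw [toR_smul, smul_smul γ r, ← h2, inv_smul_smul]
  rw [h3, setLIntegral_ball_smul]
  simp only [toR_smul, hu.inv γ hγ]
  by_cases h4 : (g • z).im ≤ Y * Real.exp 1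
  · refine le_trans (lintegral_mono_set ?_) ((Finset.single_le_sum (f := fun r : SL(2, ℤ) =>
      ∫⁻ w in closedBall (r • I) (R + 1), ENNReal.ofReal (max (|u w| - K) 0))
      (fun _ _ => zero_le) hr).trans hK)
    intro w hw
    have h5 : dist (g • z) I ≤ R := hR ⟨hg.2, by
      nlinarith [ModularGroup.three_le_four_mul_im_sq_of_mem_fd hg, (g • z).im_pos], h4⟩
    rw [← dist_smul_int r] at h5
    rw [mem_ball] at hw
    rw [mem_closedBall]
    linarith [dist_triangle w (r • g • z) (r • I)]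
  · rw [setLIntegral_congr_fun measurableSet_ball (g := fun _ => 0) fun w hw => ?_]
    · simp
    have h5 := hC r (r⁻¹ • w) (by
      have h6 := im_le_im_mul_exp_dist (g • z) (r⁻¹ • w)
      rw [mem_ball, ← dist_smul_int r⁻¹, inv_smul_smul, dist_comm] at hw
      have h7 := mul_le_mul_of_nonneg_left (Real.exp_le_exp.mpr hw.le) (r⁻¹ • w).im_pos.le
      exact le_of_mul_le_mul_right (by linarith) (Real.exp_pos 1))
    rw [smul_inv_smul] at h5
    rw [max_eq_right (sub_nonpos.mpr (h5.trans (Nat.ceil_le.mp hKC))), ENNReal.ofReal_zero]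

theorem Tame.tail (hu : Tame Γ u) {δ : ℝ} (hδ : 0 < δ) : ∃ K : ℝ, 0 ≤ K ∧ ∀ ε : ℝ, 0 < ε → ∀ z,
    (Integrable fun w => akr ε z w * max (|u w| - K) 0) ∧
      (ε ≤ 1 → avg ε (fun w => max (|u w| - K) 0) z ≤ δ) := by
  have hβ : 0 < (volume (ball I 1)).toReal :=
    ENNReal.toReal_pos volume_ball_ne_zero measure_ball_lt_top.ne
  obtain ⟨K, hK, H⟩ := hu.unif_int (δ := δ * (volume (ball I 1)).toReal / Real.exp 2)
    (by positivity)
  refine ⟨K, hK, fun ε hε z => ?_⟩
  obtain ⟨h1, h2⟩ := avg_le_of_ball ((hu.meas.abs.sub_const K).max measurable_const)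
    (fun _ => le_max_right _ _) (by positivity) H hε z
  refine ⟨h1, fun h => h2.trans ?_⟩
  rw [div_le_iff₀ hβ, ← mul_div_assoc, div_le_iff₀ (Real.exp_pos _), mul_comm]
  gcongr
  linarith

theorem Tame.integrable (hu : Tame Γ u) {ε : ℝ} (hε : 0 < ε) (z : ℍ) :
    Integrable fun w => akr ε z w * u w := by
  obtain ⟨K, hK, H⟩ := hu.tail one_pos
  refine ((H ε hε z).1.add ((integrable_akr hε z).mul_const K)).mono'
    ((continuous_akr_right ε z).measurable.mul hu.meas).aestronglyMeasurable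
    (.of_forall fun w => ?_)
  rw [norm_mul, Real.norm_of_nonneg (akr_nonneg hε z w), Pi.add_apply, ← mul_add]
  exact mul_le_mul_of_nonneg_left (sub_le_iff_le_add.mp (le_max_left _ _)) (akr_nonneg hε z w)

theorem Tame.avg_abs_le (hu : Tame Γ u) :
    ∃ C : ℝ, ∀ ε ∈ Ioc (0 : ℝ) 1, ∀ z, avg ε (fun w => |u w|) z ≤ C := by
  obtain ⟨K, hK, H⟩ := hu.tail one_pos
  refine ⟨1 + K, fun ε hε z => ?_⟩
  have h1 := integral_mono_of_nonneg (f := fun w => akr ε z w * |u w|)
    (.of_forall fun w => mul_nonneg (akr_nonneg hε.1 z w) (abs_nonneg _))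
    ((H ε hε.1 z).1.add ((integrable_akr hε.1 z).mul_const K)) (.of_forall fun w => by
      rw [Pi.add_apply, ← mul_add]
      exact mul_le_mul_of_nonneg_left (sub_le_iff_le_add.mp (le_max_left _ _))
        (akr_nonneg hε.1 z w))
  simp only [Pi.add_apply] at h1
  rw [integral_add (H ε hε.1 z).1 ((integrable_akr hε.1 z).mul_const K), integral_mul_const,
    integral_akr hε.1, one_mul] at h1
  exact h1.trans (add_le_add_left ((H ε hε.1 z).2 hε.2) _)

theorem Tame.continuous_avg (hu : Tame Γ u) {ε : ℝ} (hε : 0 < ε) : Continuous (avg ε u) := by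
  refine continuous_iff_continuousAt.mpr fun z => tendsto_iff_dist_tendsto_zero.mpr ?_
  refine squeeze_zero (fun _ => dist_nonneg) (fun z' => (dist_comm _ _).trans_le
    (abs_avg_sub_le hε hu.meas.aestronglyMeasurable (hu.integrable hε z) z')) ?_
  exact Continuous.tendsto' (by fun_prop) _ _ (by simp)

/-- Averages of a tame function are uniformly Lipschitz. -/
theorem Tame.lip (hu : Tame Γ u) : ∃ C : ℝ, ∀ ε ∈ Ioc (0 : ℝ) 1, ∀ z z' : ℍ, dist z z' ≤ 1 →
    |avg ε u z - avg ε u z'| ≤ C * dist z z' := by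
  obtain ⟨C, hC⟩ := hu.avg_abs_le
  refine ⟨2 * Real.exp 2 * C, fun ε hε z z' h => ?_⟩
  refine (abs_avg_sub_le hε.1 hu.meas.aestronglyMeasurable (hu.integrable hε.1 z) z').trans ?_
  have h0 : 0 ≤ dist z z' := dist_nonneg
  have h1 : Real.exp ((1 + ε) * dist z z') - 1 ≤ 2 * Real.exp 2 * dist z z' := by
    have h2 : (1 + ε) * dist z z' ≤ 2 * dist z z' := by nlinarith [hε.2]
    have h3 := Real.add_one_le_exp (-(2 * dist z z'))
    have h4 := Real.exp_le_exp.mpr h2
    have h5 : Real.exp (2 * dist z z') ≤ Real.exp 2 := Real.exp_le_exp.mpr (by linarith)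
    have h6 : Real.exp (2 * dist z z') * Real.exp (-(2 * dist z z')) = 1 := by
      rw [← Real.exp_add, add_neg_cancel, Real.exp_zero]
    nlinarith [mul_le_mul_of_nonneg_left h3 (Real.exp_pos (2 * dist z z')).le,
      mul_le_mul_of_nonneg_left h5 h0]
  rw [mul_right_comm]
  exact mul_le_mul h1 (hC ε hε z) ((abs_nonneg _).trans (abs_avg_le hε.1 u z)) (by positivity)

/-- The ergodic lemma. -/
theorem Tame.tendsto (hu : Tame Γ u) (z z' : ℍ) :
    Tendsto (fun ε => avg ε u z - avg ε u z') (𝓝[>] 0) (𝓝 0) := by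
  rw [Metric.tendsto_nhds]
  intro δ hδ
  obtain ⟨K, hK, H⟩ := hu.tail (δ := δ / 3) (by positivity)
  have hv : Measurable fun w => max (min (u w) K) (-K) + K :=
    ((hu.meas.min measurable_const).max measurable_const).add_const K
  have h0 : ∀ w, 0 ≤ max (min (u w) K) (-K) + K := fun w => by
    linarith [le_max_right (min (u w) K) (-K)]
  have h1 : ∀ w, max (min (u w) K) (-K) + K ≤ 2 * K := fun w => by
    linarith [max_le (min_le_right (u w) K) (show -K ≤ K by linarith)]
  have h2 := tendsto_avg_sub_of_bdd Γ hv h0 h1 (fun γ hγ z => by rw [hu.inv γ hγ]) z z'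
  filter_upwards [Metric.tendsto_nhds.mp h2 (δ / 3) (by positivity), Ioc_mem_nhdsGT one_pos]
    with ε h3 hε
  have h4 : ∀ z, |avg ε u z + K - avg ε (fun w => max (min (u w) K) (-K) + K) z| ≤ δ / 3 :=
    fun z => by
    have h5 := integrable_akr_mul hε.1 z hv.aestronglyMeasurable (C := 2 * K) fun w => by
      rw [abs_of_nonneg (h0 w)]
      exact h1 w
    have h6 : avg ε u z + K - avg ε (fun w => max (min (u w) K) (-K) + K) z =
        avg ε (fun w => u w - max (min (u w) K) (-K)) z := by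
      have h7 := integral_add (hu.integrable hε.1 z) ((integrable_akr hε.1 z).mul_const K)
      rw [integral_mul_const, integral_akr hε.1, one_mul] at h7
      have h8 := integral_sub ((hu.integrable hε.1 z).add ((integrable_akr hε.1 z).mul_const K)) h5
      simp only [Pi.add_apply] at h8
      rw [avg, avg, avg, ← h7, ← h8]
      refine integral_congr_ae (.of_forall fun w => ?_)
      simp only
      ring
    rw [h6]
    refine (abs_avg_le hε.1 _ z).trans (le_trans (le_of_eq ?_) ((H ε hε.1 z).2 hε.2))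
    congr 1
    funext w
    simp only [max_def, min_def]
    split_ifs <;> cases abs_cases (u w) <;> first | linarith | (rw [abs_eq (by linarith)]; first | (left; linarith) | (right; linarith))
  rw [Real.dist_eq, sub_zero, abs_lt] at h3 ⊢
  have h5 := abs_le.mp (h4 z)
  have h6 := abs_le.mp (h4 z')
  constructor <;> linarith [h3.1, h3.2]

theorem Tame.tendsto_sum (hu : Tame Γ u) {ι : Type*} (s : Finset ι) (m : ι → ℝ) (z : ι → ℍ)
    (h : ∑ i ∈ s, m i = 0) : Tendsto (fun ε => ∑ i ∈ s, m i * avg ε u (z i)) (𝓝[>] 0) (𝓝 0) := by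
  have h1 := tendsto_finsetSum s fun i _ => (hu.tendsto (z i) I).const_mul (m i)
  simp only [mul_zero, Finset.sum_const_zero, mul_sub, Finset.sum_sub_distrib, ← Finset.sum_mul, h,
    zero_mul, sub_zero] at h1
  exact h1

end Pool.Agent.Lib.MP_696deb_nt
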