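import Pool.Agent.Lib.MP_696deb_nt.NeronDup

/-! The canonical height: the limit of Tate, the parallelogram law, invariance under extension of
the number field, and the absolute canonical height on complex points. -/

open Height WeierstrassCurve WeierstrassCurve.Affine Filter Topology NumberField

namespace Pool.Agent.Lib.MP_696deb_nt

section abstract
variable {G : Type*} [AddCommGroup G]

/-- The limit of Tate. -/
noncomputable def tate (h : G → ℝ) (P : G) : ℝ :=
  limUnder atTop fun n : ℕ => h (2 ^ n • P) / 4 ^ n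

lemma eq_zero_of_four_pow {a C : ℝ} (h : ∀ n : ℕ, |4 ^ n * a| ≤ C) : a = 0 := by
  by_contra ha
  have h0 : 0 < |a| := abs_pos.mpr ha
  obtain ⟨n, hn⟩ := pow_unbounded_of_one_lt (C / |a|) (by norm_num : (1 : ℝ) < 4)
  have := h n
  rw [abs_mul, abs_of_pos (by positivity)] at this
  rw [div_lt_iff₀ h0] at hn
  linarith

lemma dup_pow {f : G → ℝ} (hf : ∀ P, f (2 • P) = 4 * f P) (n : ℕ) (P : G) :
    f (2 ^ n • P) = 4 ^ n * f P := by
  induction n with
  | zero => simp
  | succ n ih => rw [pow_succ', mul_smul, hf, ih]; ring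

lemma tendsto_of_dup {f h : G → ℝ} {C : ℝ} (hb : ∀ P, |f P - h P| ≤ C)
    (hf : ∀ P, f (2 • P) = 4 * f P) (P : G) :
    Tendsto (fun n : ℕ => h (2 ^ n • P) / 4 ^ n) atTop (𝓝 (f P)) := by
  rw [tendsto_iff_dist_tendsto_zero]
  have h0 : Tendsto (fun n : ℕ => C * (1 / 4 : ℝ) ^ n) atTop (𝓝 0) := by
    have := (tendsto_pow_atTop_nhds_zero_of_lt_one (r := (1 / 4 : ℝ)) (by norm_num)
      (by norm_num)).const_mul C
    rwa [mul_zero] at this
  refine squeeze_zero (fun _ => dist_nonneg) (fun n => ?_) h0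
  have h1 := hb (2 ^ n • P)
  have h4 : (0 : ℝ) < 4 ^ n := by positivity
  rw [dup_pow hf, abs_sub_comm] at h1
  rw [Real.dist_eq, show h (2 ^ n • P) / 4 ^ n - f P = (h (2 ^ n • P) - 4 ^ n * f P) / 4 ^ n by
    field_simp, abs_div, abs_of_pos h4, one_div_pow, mul_one_div]
  gcongr

lemma tate_eq {f h : G → ℝ} {C : ℝ} (hb : ∀ P, |f P - h P| ≤ C)
    (hf : ∀ P, f (2 • P) = 4 * f P) (P : G) : tate h P = f P :=
  (tendsto_of_dup hb hf P).limUnder_eq

lemma exists_dup {h : G → ℝ} {C : ℝ} (hh : ∀ P, |h (2 • P) - 4 * h P| ≤ C) :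
    (∀ P, |tate h P - h P| ≤ C) ∧ ∀ P, tate h (2 • P) = 4 * tate h P := by
  have h1 : ∀ (P : G) (n : ℕ), dist (h (2 ^ n • P) / 4 ^ n) (h (2 ^ (n + 1) • P) / 4 ^ (n + 1)) ≤
      C / 4 * (1 / 4) ^ n := fun P n => by
    have h4 : (0 : ℝ) < 4 ^ (n + 1) := by positivity
    rw [dist_comm, Real.dist_eq, show h (2 ^ (n + 1) • P) / 4 ^ (n + 1) - h (2 ^ n • P) / 4 ^ n =
      (h (2 • 2 ^ n • P) - 4 * h (2 ^ n • P)) / 4 ^ (n + 1) by
        rw [← mul_smul, ← pow_succ']; field_simp; ring, abs_div, abs_of_pos h4,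
      show C / 4 * (1 / 4) ^ n = C / 4 ^ (n + 1) by rw [one_div_pow]; field_simp; ring]
    gcongr
    exact hh _
  have h2 : ∀ P : G, Tendsto (fun n : ℕ => h (2 ^ n • P) / 4 ^ n) atTop (𝓝 (tate h P)) := fun P =>
    (cauchySeq_of_le_geometric (1 / 4) (C / 4) (by norm_num) (h1 P)).tendsto_limUnder
  have hC : 0 ≤ C := (abs_nonneg _).trans (hh 0)
  refine ⟨fun P => ?_, fun P => ?_⟩
  · have := dist_le_of_le_geometric_of_tendsto₀ (1 / 4) (C / 4) (by norm_num) (h1 P) (h2 P)
    simp only [pow_zero, one_smul, div_one, Real.dist_eq] at this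
    rw [abs_sub_comm]
    norm_num at this
    linarith
  · refine tendsto_nhds_unique (h2 _) ?_
    have := ((h2 P).comp (tendsto_add_atTop_nat 1)).const_mul 4
    refine this.congr fun n => ?_
    simp only [Function.comp, ← mul_smul, ← pow_succ]
    field_simp
    ring

lemma parallelogram_of_dup {f h : G → ℝ} {C C' : ℝ} (hb : ∀ P, |f P - h P| ≤ C)
    (hf : ∀ P, f (2 • P) = 4 * f P)
    (hh : ∀ P Q, |h (P + Q) + h (P - Q) - 2 * (h P + h Q)| ≤ C') (P Q : G) :
    f (P + Q) + f (P - Q) = 2 * (f P + f Q) := by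
  rw [← sub_eq_zero]
  refine eq_zero_of_four_pow (C := C' + 6 * C) fun n => ?_
  have e : 4 ^ n * (f (P + Q) + f (P - Q) - 2 * (f P + f Q)) = f (2 ^ n • P + 2 ^ n • Q) +
      f (2 ^ n • P - 2 ^ n • Q) - 2 * (f (2 ^ n • P) + f (2 ^ n • Q)) := by
    rw [← smul_add, ← smul_sub, dup_pow hf, dup_pow hf, dup_pow hf, dup_pow hf]; ring
  rw [e]
  generalize 2 ^ n • P = R
  generalize 2 ^ n • Q = S
  have h1 := abs_le.mp (hb (R + S))
  have h2 := abs_le.mp (hb (R - S))
  have h3 := abs_le.mp (hb R)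
  have h4 := abs_le.mp (hb S)
  have h5 := abs_le.mp (hh R S)
  rw [abs_le]
  constructor <;> linarith [h1.1, h1.2, h2.1, h2.2, h3.1, h3.2, h4.1, h4.2, h5.1, h5.2]

/-- The polar form of a function on a group. -/
def polar (f : G → ℝ) (P Q : G) : ℝ := f (P + Q) - f P - f Q

lemma polar_comm (f : G → ℝ) (P Q : G) : polar f P Q = polar f Q P := by
  rw [polar, polar, add_comm]; ring

lemma polar_add_left {f : G → ℝ} (hf : ∀ P Q, f (P + Q) + f (P - Q) = 2 * (f P + f Q))
    (P R Q : G) : polar f (P + R) Q = polar f P Q + polar f R Q := by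
  have h1 := hf (P + R) Q
  have h2 := hf P (R - Q)
  have h3 := hf (P + Q) R
  have h4 := hf R Q
  rw [show P + (R - Q) = P + R - Q by abel, show P - (R - Q) = P + Q - R by abel] at h2
  rw [show P + Q + R = P + R + Q by abel] at h3
  simp only [polar]
  linarith

end abstract

section invariance

lemma sum_infinitePlace {K : Type*} [Field K] [NumberField K] (g : InfinitePlace K → ℝ) :
    ∑ v : InfinitePlace K, v.mult * g v = ∑ φ : K →+* ℂ, g (InfinitePlace.mk φ) := by
  classical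
  rw [← Finset.sum_fiberwise Finset.univ InfinitePlace.mk]
  refine Finset.sum_congr rfl fun w _ => ?_
  rw [Finset.sum_congr rfl fun φ hφ => congr_arg g (Finset.mem_filter.mp hφ).2, Finset.sum_const,
    InfinitePlace.card_filter_mk_eq, nsmul_eq_mul]

lemma logHeight₁_eq_sum {K : Type*} [Field K] [NumberField K] (x : K) :
    logHeight₁ x = ∑ φ : K →+* ℂ, Real.log (max 1 ‖φ x‖) +
      ∑ᶠ v : FinitePlace K, Real.log (max 1 (v x)) := by
  rw [NumberField.logHeight₁_eq, sum_infinitePlace fun v => Real.posLog (v x)]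
  congr 1
  · exact Finset.sum_congr rfl fun φ _ => by
      rw [InfinitePlace.apply, Real.posLog_eq_log_max_one (norm_nonneg _)]
  · exact finsum_congr fun v => Real.posLog_eq_log_max_one (apply_nonneg _ _)

variable {K L : Type*} [Field K] [NumberField K] [Field L] [NumberField L] [Algebra K L]

lemma sum_embeddings_comp (g : (K →+* ℂ) → ℝ) :
    ∑ ψ : L →+* ℂ, g (ψ.comp (algebraMap K L)) = Module.finrank K L * ∑ φ : K →+* ℂ, g φ := by
  classical
  rw [← Finset.sum_fiberwise Finset.univ fun ψ : L →+* ℂ => ψ.comp (algebraMap K L),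
    Finset.mul_sum]
  refine Finset.sum_congr rfl fun φ _ => ?_
  rw [Finset.sum_congr rfl fun ψ hψ => congr_arg g (Finset.mem_filter.mp hψ).2, Finset.sum_const,
    nsmul_eq_mul]
  congr 2
  let _ : Algebra K ℂ := φ.toAlgebra
  rw [← AlgHom.card K L ℂ]
  refine (Finset.card_nbij AlgHom.toRingHom (fun σ _ => ?_) AlgHom.coe_ringHom_injective.injOn
    fun ψ hψ => ?_).symm
  · simp only [Finset.coe_filter, Finset.mem_univ, true_and, Set.mem_ofPred_eq]
    ext a
    exact σ.commutes a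
  · simp only [Finset.coe_filter, Finset.mem_univ, true_and, Set.mem_ofPred_eq] at hψ
    exact ⟨⟨ψ, fun a => by rw [RingHom.algebraMap_toAlgebra, ← hψ]; rfl⟩, by simp⟩

lemma logHeight_int {K : Type*} [Field K] [NumberField K] {x : Fin 2 → 𝓞 K} (hx : x ≠ 0) :
    logHeight (fun i => (x i : K)) = ∑ φ : K →+* ℂ, Real.log (⨆ i, ‖φ (x i)‖) -
      Real.log (Ideal.span (Set.range x)).absNorm := by
  have hx' : (fun i => (x i : K)) ≠ 0 := fun h => hx (funext fun i => by
    simpa using congrFun h i)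
  have h1 := absNorm_mul_finprod_finitePlace_eq_one hx
  have h2 : ((Ideal.span (Set.range x)).absNorm : ℝ) ≠ 0 := left_ne_zero_of_mul_eq_one h1
  obtain ⟨i₀, hi₀⟩ := Function.ne_iff.mp hx'
  have h3 : ∀ v : InfinitePlace K, 0 < ⨆ i, v (x i) := fun v =>
    (v.pos_iff.mpr hi₀).trans_le (Finite.le_ciSup_of_le i₀ le_rfl)
  rw [logHeight_eq_log_mulHeight, NumberField.mulHeight_eq hx', eq_inv_of_mul_eq_one_right h1,
    Real.log_mul (Finset.prod_ne_zero_iff.mpr fun v _ => pow_ne_zero _ (h3 v).ne')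
      (inv_ne_zero h2), Real.log_inv, Real.log_prod fun v _ => pow_ne_zero _ (h3 v).ne']
  simp only [Real.log_pow]
  rw [sum_infinitePlace (K := K) fun v => Real.log (⨆ i, v (x i))]
  rfl

theorem logHeight₁_algebraMap (x : K) :
    logHeight₁ (algebraMap K L x) = Module.finrank K L * logHeight₁ x := by
  obtain ⟨a, b, hb, rfl⟩ := IsFractionRing.div_surjective (𝓞 K) x
  have hb0 : b ≠ 0 := nonZeroDivisors.ne_zero hb
  have h1 := logHeight_int (x := ![a, b]) (by simp [hb0])
  have h2 := logHeight_int (K := L) (x := fun i => algebraMap (𝓞 K) (𝓞 L) (![a, b] i)) (fun h => by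
    have := congrFun h 1
    simp only [Matrix.cons_val_one, Matrix.cons_val_fin_one, Pi.zero_apply] at this
    exact hb0 (FaithfulSMul.algebraMap_injective (𝓞 K) (𝓞 L) (by rw [this, map_zero])))
  have e1 : (fun i => ((![a, b] i : 𝓞 K) : K)) = ![algebraMap _ K a, algebraMap _ K b] := by
    ext i; fin_cases i <;> rfl
  have e2 : (fun i => ((algebraMap (𝓞 K) (𝓞 L) (![a, b] i) : 𝓞 L) : L)) =
      ![algebraMap K L (algebraMap _ K a), algebraMap K L (algebraMap _ K b)] := by
    ext i; fin_cases i <;> rfl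
  have e3 : Ideal.span (Set.range fun i => algebraMap (𝓞 K) (𝓞 L) (![a, b] i)) =
      (Ideal.span (Set.range ![a, b])).map (algebraMap (𝓞 K) (𝓞 L)) := by
    rw [Ideal.map_span, ← Set.range_comp]; rfl
  rw [map_div₀, logHeight₁_div_eq_logHeight, logHeight₁_div_eq_logHeight, ← e1, ← e2, h1, h2, e3,
    Ideal.absNorm_algebraMap, ← IsFractionRing.finrank_eq (𝓞 K) K (𝓞 L) L, mul_sub,
    ← sum_embeddings_comp (K := K) (L := L) fun φ => Real.log (⨆ i, ‖φ (![a, b] i : 𝓞 K)‖)]
  push_cast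
  rw [Real.log_pow]
  rfl

theorem logHeight₁_ringHom {K L : Type*} [Field K] [NumberField K] [Field L] [NumberField L]
    (f : K →+* L) (x : K) :
    logHeight₁ (f x) / Module.finrank ℚ L = logHeight₁ x / Module.finrank ℚ K := by
  let _ : Algebra K L := f.toAlgebra
  have h1 : (Module.finrank ℚ K : ℝ) ≠ 0 := by exact_mod_cast Module.finrank_pos.ne'
  have h2 : (Module.finrank K L : ℝ) ≠ 0 := by exact_mod_cast Module.finrank_pos.ne'
  rw [← Module.finrank_mul_finrank ℚ K L, show f x = algebraMap K L x from rfl,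
    logHeight₁_algebraMap]
  push_cast
  field_simp

open IntermediateField in
theorem absLogHeight₁_ringHom {K : Type*} [Field K] [NumberField K] (f : K →+* ℂ) (x : K) :
    absLogHeight₁ (f x) = logHeight₁ x / Module.finrank ℚ K := by
  have hx : IsIntegral ℚ x := Algebra.IsIntegral.isIntegral x
  have hf : IsIntegral ℚ (f x) := hx.map f.toRatAlgHom
  have : FiniteDimensional ℚ ℚ⟮f x⟯ := adjoin.finiteDimensional hf
  have : NumberField ℚ⟮f x⟯ := {}
  have : FiniteDimensional ℚ ℚ⟮x⟯ := adjoin.finiteDimensional hx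
  have : NumberField ℚ⟮x⟯ := {}
  let g : ℚ⟮x⟯ →+* ℚ⟮f x⟯ := (f.comp ℚ⟮x⟯.val.toRingHom).codRestrict ℚ⟮f x⟯ fun a => by
    have : ℚ⟮x⟯.map f.toRatAlgHom = ℚ⟮f x⟯ := by rw [adjoin_map]; simp
    rw [← this]
    exact ⟨a, a.2, rfl⟩
  rw [absLogHeight₁, absMulHeight₁, dif_pos hf, Real.log_rpow (mulHeight₁_pos _),
    ← logHeight₁_eq_log_mulHeight₁, ← div_eq_inv_mul,
    show AdjoinSimple.gen ℚ (f x) = g (AdjoinSimple.gen ℚ x) from rfl, logHeight₁_ringHom,
    ← logHeight₁_ringHom ℚ⟮x⟯.val.toRingHom]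
  rfl

end invariance

section absolute
variable {W : WeierstrassCurve ℚ}

instance [W.IsElliptic] (K : Type*) [Field K] [Algebra ℚ K] : (W.baseChange K).IsElliptic :=
  inferInstanceAs (W.map _).IsElliptic

variable (W) in
/-- The group of points over a field of characteristic zero. -/
abbrev Pt (K : Type*) [Field K] [Algebra ℚ K] := (W.baseChange K).toAffine.Point

/-- The map on points induced by a field homomorphism. -/
noncomputable def pmap {K L : Type*} [Field K] [DecidableEq K] [CharZero K] [Field L]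
    [DecidableEq L] [CharZero L] (f : K →+* L) : Pt W K →+ Pt W L :=
  Point.map (W' := W.toAffine) f.toRatAlgHom

section
variable {K L M : Type*} [Field K] [DecidableEq K] [CharZero K] [Field L]
    [DecidableEq L] [CharZero L] [Field M] [DecidableEq M] [CharZero M] (f : K →+* L)

@[simp] lemma xco_pmap (P : Pt W K) : xco (pmap f P) = f (xco P) := by
  rcases P with _ | ⟨x, y, h⟩
  · exact (map_zero f).symm
  · rfl

@[simp] lemma yco_pmap (P : Pt W K) : yco (pmap f P) = f (yco P) := by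
  rcases P with _ | ⟨x, y, h⟩
  · exact (map_zero f).symm
  · rfl

lemma pmap_injective : Function.Injective (pmap (W := W) f) := Point.map_injective _

lemma pmap_pmap (g : L →+* M) (P : Pt W K) : pmap g (pmap f P) = pmap (g.comp f) P := by
  cases P <;> rfl

lemma dupc_pmap (P : Pt W K) : dupc (pmap f P) = f (dupc P) := by
  rcases P with _ | ⟨x, y, h⟩
  · exact (map_one f).symm
  · have h1 : dup1 (W.baseChange L) (f x) = f (dup1 (W.baseChange K) x) := by
      simp [dup1, WeierstrassCurve.baseChange, map_ofNat]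
    have h2 : dup2 (W.baseChange L) (f x) = f (dup2 (W.baseChange K) x) := by
      simp [dup2, WeierstrassCurve.baseChange, map_ofNat]
    refine (dupc_some (x := f x) _).trans ?_
    rw [dupc_some, h1, h2]
    by_cases h0 : dup2 (W.baseChange K) x = 0
    · rw [if_pos h0, if_pos (by rw [h0, map_zero])]
    · rw [if_neg h0, if_neg ((map_ne_zero f).mpr h0)]

end

/-- The absolute canonical height (for the divisor twice the origin). -/
noncomputable def hhat : Pt W ℂ → ℝ := tate fun P => absLogHeight₁ (xco P)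

/-- The height pairing. -/
noncomputable def hpair : Pt W ℂ → Pt W ℂ → ℝ := polar hhat

variable (W) in
/-- The canonical height relative to a number field. -/
noncomputable def hrel (K : Type*) [Field K] [NumberField K] [DecidableEq K] : Pt W K → ℝ :=
  tate fun P => logHeight₁ (xco P)

variable [W.IsElliptic] {K : Type*} [Field K] [NumberField K] [DecidableEq K]

variable (W K) in
lemma hrel_spec : ∃ C : ℝ, (∀ P, |hrel W K P - logHeight₁ (xco P)| ≤ C) ∧
    ∀ P, hrel W K (2 • P) = 4 * hrel W K P := by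
  obtain ⟨C, hC⟩ := approx_parallelogram (W.baseChange K)
  refine ⟨C, exists_dup fun P => ?_⟩
  have := hC P P
  rw [sub_self, xco_zero, logHeight₁_zero, add_zero, ← two_nsmul] at this
  convert this using 2
  ring

lemma hrel_parallelogram (P Q : Pt W K) :
    hrel W K (P + Q) + hrel W K (P - Q) = 2 * (hrel W K P + hrel W K Q) := by
  obtain ⟨C, h1, h2⟩ := hrel_spec W K
  obtain ⟨C', h3⟩ := approx_parallelogram (W.baseChange K)
  exact parallelogram_of_dup h1 h2 h3 P Q

lemma hhat_pmap (f : K →+* ℂ) (P : Pt W K) :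
    hhat (pmap f P) = hrel W K P / Module.finrank ℚ K := by
  obtain ⟨C, h1, h2⟩ := hrel_spec W K
  refine Tendsto.limUnder_eq ?_
  refine ((tendsto_of_dup h1 h2 P).div_const _).congr fun n => ?_
  simp only [← map_nsmul, xco_pmap, absLogHeight₁_ringHom]
  ring

omit [W.IsElliptic] [DecidableEq K] in
lemma finite_height_le (B : ℝ) : {P : Pt W K | logHeight₁ (xco P) ≤ B}.Finite := by
  have h1 : ∀ x : K, {P : Pt W K | xco P = x}.Finite := by
    intro x
    by_cases hx : ∃ y, (W.baseChange K).toAffine.Nonsingular x y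
    · obtain ⟨y, h⟩ := hx
      refine (Set.toFinite {0, Point.some x y h, -Point.some x y h}).subset ?_
      rintro (_ | ⟨x', y', h'⟩) hP
      · exact .inl rfl
      · exact .inr (Point.X_eq_iff.mp hP)
    · refine (Set.finite_singleton 0).subset ?_
      rintro (_ | ⟨x', y', h'⟩) hP
      · rfl
      · exact absurd ⟨y', (show x' = x from hP) ▸ h'⟩ hx
  refine ((finite_setOfPred_logHeight₁_le K B).biUnion fun x _ => h1 x).subset fun P hP => ?_
  simp only [Set.mem_iUnion]
  exact ⟨_, hP, rfl⟩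

lemma isOfFinAddOrder_of_hrel {P : Pt W K} (h : hrel W K P = 0) : IsOfFinAddOrder P := by
  obtain ⟨C, h1, h2⟩ := hrel_spec W K
  have h3 : ∀ n : ℕ, 2 ^ n • P ∈ {P : Pt W K | logHeight₁ (xco P) ≤ C} := fun n => by
    have := abs_le.mp (h1 (2 ^ n • P))
    rw [dup_pow h2, h] at this
    simp only [Set.mem_ofPred_eq]
    linarith [this.1]
  obtain ⟨m, n, hmn, e⟩ := (finite_height_le C).exists_lt_map_eq_of_forall_mem h3
  refine isOfFinAddOrder_iff_nsmul_eq_zero.mpr ⟨2 ^ n - 2 ^ m, ?_, ?_⟩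
  · exact Nat.sub_pos_of_lt (Nat.pow_lt_pow_right one_lt_two hmn)
  · rw [sub_nsmul _ (Nat.pow_le_pow_right two_pos hmn.le), ← e, add_neg_cancel]

variable (W) in
/-- The complex points with algebraic coordinates. -/
def IsAlg (P : Pt W ℂ) : Prop := IsAlgebraic ℚ (xco P) ∧ IsAlgebraic ℚ (yco P)

omit [W.IsElliptic] in
lemma isAlg_pmap (f : K →+* ℂ) (P : Pt W K) : IsAlg W (pmap f P) := by
  constructor
  · rw [xco_pmap]; exact (Algebra.IsAlgebraic.isAlgebraic _).algHom f.toRatAlgHom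
  · rw [yco_pmap]; exact (Algebra.IsAlgebraic.isAlgebraic _).algHom f.toRatAlgHom

omit [W.IsElliptic] in
lemma exists_pmap_eq (H : IntermediateField ℚ ℂ) {P : Pt W ℂ} (hx : xco P ∈ H) (hy : yco P ∈ H) :
    ∃ P' : Pt W H, pmap H.val.toRingHom P' = P := by
  rcases P with _ | ⟨x, y, h⟩
  · exact ⟨0, rfl⟩
  · exact ⟨.some ⟨x, hx⟩ ⟨y, hy⟩
      ((W.toAffine.baseChange_nonsingular (f := H.val) Subtype.val_injective _ _).mp h), rfl⟩

omit [W.IsElliptic] in
/-- Finitely many algebraic points and numbers are defined over one number field. -/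
lemma exists_field {S : Set (Pt W ℂ)} (hS : S.Finite) (h : ∀ P ∈ S, IsAlg W P) {T : Set ℂ}
    (hT : T.Finite) (h' : ∀ a ∈ T, IsAlgebraic ℚ a) :
    ∃ H : IntermediateField ℚ ℂ, FiniteDimensional ℚ H ∧ (∀ a ∈ T, a ∈ H) ∧
      ∀ P ∈ S, ∃ P' : Pt W H, pmap H.val.toRingHom P' = P := by
  have hf : (xco '' S ∪ yco '' S ∪ T).Finite := ((hS.image _).union (hS.image _)).union hT
  have := hf.to_subtype
  refine ⟨IntermediateField.adjoin ℚ (xco '' S ∪ yco '' S ∪ T),
    IntermediateField.finiteDimensional_adjoin ?_,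
    fun a ha => IntermediateField.subset_adjoin _ _ (.inr ha), fun P hP => exists_pmap_eq _
      (IntermediateField.subset_adjoin _ _ (.inl (.inl ⟨P, hP, rfl⟩)))
      (IntermediateField.subset_adjoin _ _ (.inl (.inr ⟨P, hP, rfl⟩)))⟩
  rintro _ ((⟨P, hP, rfl⟩ | ⟨P, hP, rfl⟩) | ha)
  · exact (h P hP).1.isIntegral
  · exact (h P hP).2.isIntegral
  · exact (h' _ ha).isIntegral

omit [W.IsElliptic] in
lemma exists_field₃ {P Q R : Pt W ℂ} (hP : IsAlg W P) (hQ : IsAlg W Q) (hR : IsAlg W R) :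
    ∃ H : IntermediateField ℚ ℂ, ∃ _ : NumberField H, ∃ P' Q' R' : Pt W H,
      pmap H.val.toRingHom P' = P ∧ pmap H.val.toRingHom Q' = Q ∧ pmap H.val.toRingHom R' = R := by
  obtain ⟨H, hH, -, h⟩ := exists_field (S := {P, Q, R}) (Set.toFinite _)
    (by rintro _ (rfl | rfl | rfl) <;> assumption) Set.finite_empty (by simp)
  obtain ⟨P', h1⟩ := h P (by simp)
  obtain ⟨Q', h2⟩ := h Q (by simp)
  obtain ⟨R', h3⟩ := h R (by simp)
  exact ⟨H, {}, P', Q', R', h1, h2, h3⟩

variable (W) in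
/-- The subgroup of algebraic points. -/
noncomputable def Alg : AddSubgroup (Pt W ℂ) where
  carrier := {P | IsAlg W P}
  zero_mem' := ⟨isAlgebraic_zero, isAlgebraic_zero⟩
  add_mem' {P Q} hP hQ := by
    obtain ⟨H, _, P', Q', -, rfl, rfl, -⟩ := exists_field₃ hP hQ hQ
    rw [← map_add]
    exact isAlg_pmap _ _
  neg_mem' {P} hP := by
    obtain ⟨H, _, P', -, -, rfl, -, -⟩ := exists_field₃ hP hP hP
    rw [← map_neg]
    exact isAlg_pmap _ _

omit [W.IsElliptic] in
lemma hpair_comm (P Q : Pt W ℂ) : hpair P Q = hpair Q P := polar_comm _ _ _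

lemma hhat_parallelogram {P Q : Pt W ℂ} (hP : P ∈ Alg W) (hQ : Q ∈ Alg W) :
    hhat (P + Q) + hhat (P - Q) = 2 * (hhat P + hhat Q) := by
  obtain ⟨H, _, P', Q', -, rfl, rfl, -⟩ := exists_field₃ hP hQ hQ
  simp only [← map_add, ← map_sub, hhat_pmap, ← add_div, hrel_parallelogram]
  ring

lemma hpair_add_left {P R Q : Pt W ℂ} (hP : P ∈ Alg W) (hR : R ∈ Alg W) (hQ : Q ∈ Alg W) :
    hpair (P + R) Q = hpair P Q + hpair R Q :=
  polar_add_left (G := Alg W) (f := fun P => hhat P.1)
    (fun P Q => hhat_parallelogram P.2 Q.2) ⟨P, hP⟩ ⟨R, hR⟩ ⟨Q, hQ⟩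

/-- The height pairing as a biadditive map on algebraic points. -/
noncomputable def hbil : Alg W →+ Alg W →+ ℝ :=
  AddMonoidHom.mk' (fun P => AddMonoidHom.mk' (fun Q => hpair P.1 Q.1) fun Q R => by
    simp only [hpair_comm P.1]; exact hpair_add_left Q.2 R.2 P.2) fun P R => by
    ext Q; exact hpair_add_left P.2 R.2 Q.2

lemma hbil_apply (P Q : Alg W) : hbil P Q = hpair P.1 Q.1 := rfl

lemma hhat_zero : hhat (0 : Pt W ℂ) = 0 := by
  have := hhat_parallelogram (Alg W).zero_mem (Alg W).zero_mem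
  rw [add_zero, sub_zero] at this
  linarith

lemma hpair_self {P : Pt W ℂ} (hP : P ∈ Alg W) : hpair P P = 2 * hhat P := by
  have := hhat_parallelogram hP hP
  rw [sub_self, hhat_zero] at this
  rw [hpair, polar]
  linarith

lemma hhat_sub {P Q : Pt W ℂ} (hP : P ∈ Alg W) (hQ : Q ∈ Alg W) :
    hhat (P - Q) = hhat P + hhat Q - hpair P Q := by
  have := hhat_parallelogram hP hQ
  rw [hpair, polar]
  linarith

theorem isOfFinAddOrder_of_hpair {P : Pt W ℂ} (hP : P ∈ Alg W) (h : hpair P P = 0) :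
    IsOfFinAddOrder P := by
  rw [hpair_self hP] at h
  obtain ⟨H, _, P', -, -, rfl, -, -⟩ := exists_field₃ hP hP hP
  have h1 : (Module.finrank ℚ H : ℝ) ≠ 0 := by exact_mod_cast Module.finrank_pos.ne'
  rw [hhat_pmap] at h
  exact AddMonoidHom.isOfFinAddOrder _ (isOfFinAddOrder_of_hrel (by simpa [h1] using h))

theorem hbil_eq_zero_of_isOfFinAddOrder {P : Alg W} (h : IsOfFinAddOrder P) (Q : Alg W) :
    hbil P Q = 0 := by
  obtain ⟨n, hn, e⟩ := isOfFinAddOrder_iff_nsmul_eq_zero.mp h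
  have : n • hbil P Q = 0 := by
    rw [← AddMonoidHom.nsmul_apply, ← map_nsmul, e, map_zero, AddMonoidHom.zero_apply]
  simpa [hn.ne'] using this

/-- The pairing of two divisors of degree zero as a sum of heights of differences. -/
theorem sum_hhat_sub {ι κ : Type*} [Fintype ι] [Fintype κ] (P : ι → Alg W) (Q : κ → Alg W)
    (m : ι → ℤ) (n : κ → ℤ) (hm : ∑ i, m i = 0) (hn : ∑ j, n j = 0) :
    ∑ i, ∑ j, (m i * n j : ℝ) * hhat ((P i).1 - (Q j).1) =
      -hbil (∑ i, m i • P i) (∑ j, n j • Q j) := by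
  have hm' : ∑ i, (m i : ℝ) = 0 := by exact_mod_cast hm
  have hn' : ∑ j, (n j : ℝ) = 0 := by exact_mod_cast hn
  simp only [hhat_sub (P _).2 (Q _).2, map_sum, map_zsmul, AddMonoidHom.finsetSum_apply,
    AddMonoidHom.zsmul_apply, zsmul_eq_mul, hbil_apply, mul_sub, mul_add, Finset.sum_sub_distrib,
    Finset.sum_add_distrib]
  have h1 : ∑ i, ∑ j, (m i * n j : ℝ) * hhat (P i).1 = 0 := Finset.sum_eq_zero fun i _ => by
    rw [← Finset.sum_mul, ← Finset.mul_sum, hn', mul_zero, zero_mul]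
  have h2 : ∑ i, ∑ j, (m i * n j : ℝ) * hhat (Q j).1 = 0 := by
    rw [Finset.sum_comm]
    exact Finset.sum_eq_zero fun j _ => by
      rw [← Finset.sum_mul, ← Finset.sum_mul, hm', zero_mul, zero_mul]
  rw [h1, h2, add_zero, zero_sub, Finset.sum_comm]
  simp only [Finset.mul_sum]
  congr 1
  exact Finset.sum_congr rfl fun j _ => Finset.sum_congr rfl fun i _ => by ring

end absolute

end Pool.Agent.Lib.MP_696deb_nt
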