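import Pool.Agent.Lib.MP_696deb_nt.Param
import Pool.Agent.Lib.MP_696deb_nt.CanHeight

/-! The modular parametrization of the minimal model `Y ^ 2 + X Y = X ^ 3 - 2 X ^ 2 - 9 X` of the
curve of conductor fifteen, as a map from the upper half plane to the complex points. -/

open PowerSeries Complex ModularForm WeierstrassCurve WeierstrassCurve.Affine

namespace Pool.Agent.Lib.MP_696deb_nt

/-- The minimal model. -/
def W15 : WeierstrassCurve ℚ := ⟨1, -2, 0, -9, 0⟩

instance : W15.IsElliptic := ⟨by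
  rw [show W15.Δ = 50625 by norm_num [W15, Δ, b₂, b₄, b₆, b₈]]; exact Ne.isUnit (by norm_num)⟩

section
variable {K : Type*} [Field K] [CharZero K]

@[simp] lemma W15_a₁ : (W15.baseChange K).a₁ = 1 := by simp [W15, WeierstrassCurve.baseChange]
@[simp] lemma W15_a₂ : (W15.baseChange K).a₂ = -2 := by simp [W15, WeierstrassCurve.baseChange]
@[simp] lemma W15_a₃ : (W15.baseChange K).a₃ = 0 := by simp [W15, WeierstrassCurve.baseChange]
@[simp] lemma W15_a₄ : (W15.baseChange K).a₄ = -9 := by simp [W15, WeierstrassCurve.baseChange]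
@[simp] lemma W15_a₆ : (W15.baseChange K).a₆ = 0 := by simp [W15, WeierstrassCurve.baseChange]
@[simp] lemma W15_b₂ : (W15.baseChange K).b₂ = -7 := by
  simp only [b₂, W15_a₁, W15_a₂]; norm_num
@[simp] lemma W15_b₄ : (W15.baseChange K).b₄ = -18 := by
  simp only [b₄, W15_a₁, W15_a₃, W15_a₄]; norm_num
@[simp] lemma W15_b₆ : (W15.baseChange K).b₆ = 0 := by
  simp only [b₆, W15_a₃, W15_a₆]; norm_num
@[simp] lemma W15_b₈ : (W15.baseChange K).b₈ = -81 := by
  simp only [b₈, W15_a₁, W15_a₂, W15_a₃, W15_a₄, W15_a₆]; norm_num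

lemma W15_nonsingular (x y : K) : (W15.baseChange K).toAffine.Nonsingular x y ↔
    y ^ 2 + x * y = x ^ 3 - 2 * x ^ 2 - 9 * x := by
  rw [← equation_iff_nonsingular, equation_iff]
  simp only [toAffine, W15_a₁, W15_a₂, W15_a₃, W15_a₄, W15_a₆]
  constructor <;> intro h <;> linear_combination h

end

/-- The function `2 Y + X`. -/
noncomputable def psi15 (z : ℂ) : ℂ := t15 z * E15 z / f15 z

/-- The second coordinate of the modular parametrization; the first one is `t15`. -/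
noncomputable def Y15 (z : ℂ) : ℂ := (psi15 z - t15 z) / 2

lemma Z15_eq_zero {z : ℂ} (hz : 0 < z.im) : Z15 z = 0 := by
  have hA := qe_A15
  have hB := qe_B15
  have hG := qe_G15
  have hN :=
      ((hA.mul hB).mul (qe_E15.pow 2)).sub ((hG.pow 2).mul ((((QE.ofNat 4).mul (hA.pow 2)).sub
      ((((QE.ofNat 7).mul (QE.q.pow 2)).mul hA).mul hB)).sub
      (((QE.ofNat 36).mul (QE.q.pow 4)).mul (hB.pow 2))))
  rw [show _ - _ = toC N15 by simp only [N15, map_sub, map_mul, map_pow, map_ofNat, map_X],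
    N15_eq_zero, map_zero, ← map_zero (C (R := ℂ))] at hN
  have h3 := hN.eq_of_eq (QE.const 0) hz
  have l1 := eul_ne hz
  have l3 := eul_ne (z := 3 * z) (im_mul_pos hz)
  have l5 := eul_ne (z := 5 * z) (im_mul_pos hz)
  have l15 := eul_ne (z := 15 * z) (im_mul_pos hz)
  have l0 := q1_ne z
  simp only [Z15, t15, etaq_eq (-2) (-1) 1 5 (-5) (by norm_num), f15_eq_q, zpow_neg, zpow_ofNat]
  generalize eul (q1 (3 * z)) = x3, eul (q1 (5 * z)) = x5, eul (q1 (15 * z)) = x15
    at l3 l5 l15 h3 ⊢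
  generalize eul (q1 z) = x1 at l1 h3 ⊢
  field_simp
  apply mul_left_cancel₀ (mul_ne_zero (mul_ne_zero l1 l3) (pow_ne_zero 2 (mul_ne_zero l5 l15)))
  linear_combination h3

lemma psi15_sq {z : ℂ} (hz : 0 < z.im) :
    psi15 z ^ 2 = 4 * t15 z ^ 3 - 7 * t15 z ^ 2 - 36 * t15 z := by
  have h := Z15_eq_zero hz
  have h1 := t15_ne hz
  rw [Z15] at h
  rw [psi15, mul_div_assoc, mul_pow, show (E15 z / f15 z) ^ 2 = 4 * t15 z - 7 - 36 / t15 z by
    linear_combination h]
  field_simp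

lemma psi15_eq (z : ℂ) : psi15 z = 2 * Y15 z + t15 z := by rw [Y15]; ring

lemma eqn15 {z : ℂ} (hz : 0 < z.im) :
    Y15 z ^ 2 + t15 z * Y15 z = t15 z ^ 3 - 2 * t15 z ^ 2 - 9 * t15 z := by
  rw [Y15]; linear_combination (1 / 4 : ℂ) * psi15_sq hz

/-- The modular parametrization. -/
noncomputable def pt (z : ℂ) : Pt W15 ℂ :=
  if hz : 0 < z.im then .some (t15 z) (Y15 z) ((W15_nonsingular _ _).mpr (eqn15 hz)) else 0

lemma pt_eq {z : ℂ} (hz : 0 < z.im) :
    pt z = .some (t15 z) (Y15 z) ((W15_nonsingular _ _).mpr (eqn15 hz)) := dif_pos hz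

lemma xco_pt {z : ℂ} (hz : 0 < z.im) : xco (pt z) = t15 z := by rw [pt_eq hz, xco_some]

lemma yco_pt {z : ℂ} (hz : 0 < z.im) : yco (pt z) = Y15 z := by rw [pt_eq hz, yco_some]

lemma hasDerivAt_t15 {z : ℂ} (hz : 0 < z.im) :
    HasDerivAt t15 (2 * Real.pi * I * f15 z * psi15 z) z := by
  have h := f15_ne hz
  refine (hasDerivAt_etaq (-1) 1 5 (-5) hz).congr_deriv ?_
  rw [psi15, t15, E15]
  field_simp

lemma hol_t15 : Hol t15 := fun _ hz => (hasDerivAt_t15 hz).differentiableAt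

lemma hol_psi15 : Hol psi15 := fun z hz =>
  ((hol_t15 z hz).mul (qe_E15.hol z hz)).div (qe_f15.hol z hz) (f15_ne hz)

lemma hol_Y15 : Hol Y15 := fun z hz => ((hol_psi15 z hz).sub (hol_t15 z hz)).div_const 2

lemma psi15_mob (a b c d : ℤ) (h : a * d - b * (15 * c) = 1) {z : ℂ} (hz : 0 < z.im) :
    psi15 (mob a b (15 * c) d z) = psi15 z := by
  have h1 : sl a b (15 * c) d E15 z = E15 z := sl_logDeriv (κ := 1) (by omega) one_ne_zero
    (fun _ => hasDerivAt_etaq _ _ _ _) (fun _ => hasDerivAt_etaq _ _ _ _) (fun _ => t15_ne)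
    (fun w hw => (t15_mob a b c d h hw).trans (one_mul _).symm) hz
  rw [psi15, psi15, mul_div_assoc, mul_div_assoc, div_mob (by omega) _ _ hz, h1,
    f15_inv a b c d h z hz, t15_mob a b c d h hz]

lemma Y15_mob (a b c d : ℤ) (h : a * d - b * (15 * c) = 1) {z : ℂ} (hz : 0 < z.im) :
    Y15 (mob a b (15 * c) d z) = Y15 z := by
  rw [Y15, Y15, psi15_mob a b c d h hz, t15_mob a b c d h hz]

lemma pt_mob (a b c d : ℤ) (h : a * d - b * (15 * c) = 1) {z : ℂ} (hz : 0 < z.im) :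
    pt (mob a b (15 * c) d z) = pt z := by
  rw [pt_eq hz, pt_eq (im_mob_pos (by omega) hz)]
  simp only [Point.some.injEq]
  exact ⟨t15_mob a b c d h hz, Y15_mob a b c d h hz⟩

end Pool.Agent.Lib.MP_696deb_nt
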