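import Pool.Agent.Lib.MP_696deb_nt.Periods

set_option autoImplicit false

open Filter Topology Complex
open scoped Real MatrixGroups

namespace Pool.Agent.Lib.MP_696deb_nt.Unif

/-- Equivalence of two points under `Γ₀(15)`. -/
def Eqv (z w : ℂ) : Prop :=
  ∃ a b c d : ℤ, a * d - b * (15 * c) = 1 ∧ w = mob a b (15 * c) d z

lemma Eqv.refl (z : ℂ) : Eqv z z := ⟨1, 0, 0, 1, by norm_num, by simp [mob]⟩

lemma Eqv.im_pos {z w : ℂ} (h : Eqv z w) (hz : 0 < z.im) : 0 < w.im := by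
  obtain ⟨a, b, c, d, h, rfl⟩ := h
  exact im_mob_pos (by omega) hz

lemma mob_adj {a b c d : ℤ} (h : a * d - b * c ≠ 0) {z : ℂ} (hz : 0 < z.im) :
    mob d (-b) (-c) a (mob a b c d z) = z := by
  rw [mob_mob h _ _ _ _ hz]
  have := mob_scale h 1 0 0 1 z
  simp only [mob, Int.cast_one, Int.cast_zero, one_mul, zero_mul, add_zero, zero_add, div_one]
    at this ⊢
  convert this using 4 <;> push_cast <;> ring

lemma Eqv.symm {z w : ℂ} (h : Eqv z w) (hz : 0 < z.im) : Eqv w z := by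
  obtain ⟨a, b, c, d, h, rfl⟩ := h
  exact ⟨d, -b, -c, a, by linear_combination h, by
    rw [mul_neg, mob_adj (by omega) hz]⟩

lemma Eqv.trans {z w v : ℂ} (h : Eqv z w) (h' : Eqv w v) (hz : 0 < z.im) : Eqv z v := by
  obtain ⟨a, b, c, d, h, rfl⟩ := h
  obtain ⟨a', b', c', d', h', rfl⟩ := h'
  refine ⟨a' * a + b' * (15 * c), a' * b + b' * d, c' * a + d' * c, 15 * c' * b + d' * d,
    by linear_combination (a' * d' - b' * (15 * c')) * h + h', ?_⟩
  rw [mob_mob (by omega) _ _ _ _ hz]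
  congr 1
  ring

lemma Eqv.add_int (z : ℂ) (k : ℤ) : Eqv z (z + k) := ⟨1, k, 0, 1, by norm_num, by simp [mob]⟩

/-- The Atkin-Lehner matrices; they send infinity to the cusps `∞`, `2 / 5`, `1 / 3`, `0`. -/
def alM : Fin 4 → M4 := ![(1, 0, 0, 1), (6, 1, 15, 3), (5, -2, 15, -5), (0, -1, 15, 0)]

/-- The Atkin-Lehner maps. -/
noncomputable def al (i : Fin 4) : ℂ → ℂ := mob (alM i).1 (alM i).2.1 (alM i).2.2.1 (alM i).2.2.2

/-- The Atkin-Lehner eigenvalues of the newform. -/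
def alS : Fin 4 → ℤ := ![1, 1, -1, -1]

/-- The values of the primitive of the newform at the four cusps. -/
noncomputable def alC (i : Fin 4) : ℂ := ms (alM i).1 (alM i).2.2.1

lemma alM_det : ∀ i, 0 < (alM i).1 * (alM i).2.2.2 - (alM i).2.1 * (alM i).2.2.1 := by decide

lemma al_zero (z : ℂ) : al 0 z = z := by simp [al, alM, mob]

lemma alC_zero : alC 0 = 0 := ms_zero _

lemma al_im_pos (i : Fin 4) {z : ℂ} (hz : 0 < z.im) : 0 < (al i z).im := im_mob_pos (alM_det i) hz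

lemma hol_al (i : Fin 4) : Hol (al i) := hol_mob (alM_det i).ne'

lemma al_surj (i : Fin 4) {τ : ℂ} (hτ : 0 < τ.im) : ∃ z : ℂ, 0 < z.im ∧ al i z = τ := by
  have h := alM_det i
  refine ⟨mob (alM i).2.2.2 (-(alM i).2.1) (-(alM i).2.2.1) (alM i).1 τ,
    im_mob_pos (by linarith) hτ, ?_⟩
  simpa [al] using mob_adj (a := (alM i).2.2.2) (b := -(alM i).2.1) (c := -(alM i).2.2.1)
    (d := (alM i).1) (ne_of_gt (by linarith)) hτ

/-- The action of the Atkin-Lehner maps on the primitive of the newform. -/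
theorem Fi_al (i : Fin 4) {z : ℂ} (hz : 0 < z.im) : Fi (al i z) = alS i * Fi z + alC i := by
  refine Fi_mob (alM_det i) _ (fun w hw => ?_) hz
  fin_cases i
  · simp [alM, alS, sl, mob]
  · simpa [alM, alS] using f15_w3 hw
  · simpa [alM, alS] using f15_w5 hw
  · simpa [alM, alS] using f15_w15 hw

lemma tendsto_Fi_al (i : Fin 4) : Tendsto (fun z => Fi (al i z)) atI (𝓝 (alC i)) :=
  tendsto_Fi_mob (alM_det i)

lemma Fi_Gamma0 {a b c d : ℤ} (h : a * d - b * (15 * c) = 1) {z : ℂ} (hz : 0 < z.im) :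
    Fi (mob a b (15 * c) d z) = Fi z + ms a (15 * c) := by
  simpa using Fi_mob (by omega) 1 (fun w hw => by simpa using f15_inv a b c d h w hw) hz

lemma eqv_of_decomp {a b c d α β γ δ Q k : ℤ} (i : Fin 4) (hQ : 0 < Q)
    (h3 : α * δ - β * (15 * γ) = 1)
    (e1 : α * (alM i).1 + β * (alM i).2.2.1 = Q * a)
    (e2 : α * (alM i).2.1 + β * (alM i).2.2.2 = b - k * a)
    (e3 : 15 * γ * (alM i).1 + δ * (alM i).2.2.1 = Q * c)
    (e4 : 15 * γ * (alM i).2.1 + δ * (alM i).2.2.2 = d - k * c) {z : ℂ} (hz : 0 < z.im) :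
    Eqv (al i ((z + k) / Q)) (mob a b c d z) := by
  have hu : 0 < 1 * Q - k * 0 := by simpa using hQ
  have h4 : (z + k) / Q = mob 1 k 0 Q z := by simp [mob]
  refine ⟨α, β, γ, δ, h3, ?_⟩
  rw [h4, al, mob_mob (alM_det i).ne' _ _ _ _ (im_mob_pos hu hz), e1, e2, e3, e4,
    mob_mob hu.ne' _ _ _ _ hz, ← mob_scale hQ.ne' a b c d]
  congr 1 <;> ring

lemma exists_decomp {a b c d : ℤ} (hd : a * d - b * c = 1) : ∃ (i : Fin 4) (Q k : ℤ),
    0 < Q ∧ Q ≤ 15 ∧ 0 ≤ k ∧ k < 15 ∧ (i = 0 → 15 ∣ c) ∧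
      ∀ z : ℂ, 0 < z.im → Eqv (al i ((z + k) / Q)) (mob a b c d z) := by
  have f3 : ¬ 3 ∣ c → 3 ∣ d - d * c ^ 3 * c := fun hc => by
    rw [show (3 : ℤ) = (3 : ℕ) from rfl, ← ZMod.intCast_zmod_eq_zero_iff_dvd] at hc ⊢
    push_cast
    generalize (c : ZMod 3) = x at hc ⊢
    generalize (d : ZMod 3) = y
    revert x y
    decide
  have f5 : ¬ 5 ∣ c → 5 ∣ d - d * c ^ 3 * c := fun hc => by
    rw [show (5 : ℤ) = (5 : ℕ) from rfl, ← ZMod.intCast_zmod_eq_zero_iff_dvd] at hc ⊢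
    push_cast
    generalize (c : ZMod 5) = x at hc ⊢
    generalize (d : ZMod 5) = y
    revert x y
    decide
  generalize d * c ^ 3 = k at f3 f5
  rw [← Int.emod_add_mul_ediv k 15, add_mul, mul_assoc] at f3 f5
  have k0 := Int.emod_nonneg k (b := 15) (by norm_num)
  have k1 := Int.emod_lt_of_pos k (b := 15) (by norm_num)
  generalize k / 15 * c = l at f3 f5
  generalize k % 15 = k at f3 f5 k0 k1
  by_cases h3 : 3 ∣ c <;> by_cases h5 : 5 ∣ c
  · obtain ⟨c, rfl⟩ : 15 ∣ c := by omega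
    exact ⟨0, 1, 0, by norm_num, by norm_num, by norm_num, by norm_num, fun _ => ⟨c, rfl⟩,
      fun z _ => ⟨a, b, c, d, hd, by simp [al_zero]⟩⟩
  · obtain ⟨c, rfl⟩ := h3
    obtain ⟨e, he⟩ : 5 ∣ d - k * (3 * c) := by have := f5 h5; omega
    exact ⟨2, 5, k, by norm_num, by norm_num, k0, k1, by simp, fun z hz =>
      eqv_of_decomp 2 (α := -5 * a - 3 * (b - k * a))
      (β := 2 * a + (b - k * a)) (γ := -(c + e)) (δ := 6 * c + 5 * e) (by norm_num)
      (by linear_combination hd - a * he) (by simp [alM]; ring) (by simp [alM]; ring)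
      (by simp [alM]; ring) (by simp [alM]; linear_combination -he) hz⟩
  · obtain ⟨c, rfl⟩ := h5
    obtain ⟨e, he⟩ : 3 ∣ d - k * (5 * c) := by have := f3 h3; omega
    exact ⟨1, 3, k, by norm_num, by norm_num, k0, k1, by simp, fun z hz =>
      eqv_of_decomp 1 (α := 3 * a - 5 * (b - k * a))
      (β := 2 * (b - k * a) - a) (γ := c - e) (δ := 6 * e - 5 * c) (by norm_num)
      (by linear_combination hd - a * he) (by simp [alM]; ring) (by simp [alM]; ring)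
      (by simp [alM]; ring) (by simp [alM]; linear_combination -he) hz⟩
  · obtain ⟨e, he⟩ : 15 ∣ d - k * c := by have := f3 h3; have := f5 h5; omega
    exact ⟨3, 15, k, by norm_num, by norm_num, k0, k1, by simp, fun z hz =>
      eqv_of_decomp 3 (α := -(b - k * a)) (β := a) (γ := -e) (δ := c) (by norm_num)
      (by linear_combination hd - a * he) (by simp [alM]; ring) (by simp [alM])
      (by simp [alM]; ring) (by simp [alM]; linear_combination -he) hz⟩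

/-- A Siegel set for `Γ₀(15)`. -/
theorem exists_rep {τ : ℂ} (hτ : 0 < τ.im) :
    ∃ (i : Fin 4) (z : ℂ), |z.re| ≤ 16 ∧ 1 / 30 ≤ z.im ∧ Eqv (al i z) τ := by
  obtain ⟨g, hg⟩ := ModularGroup.exists_smul_mem_fd ⟨τ, hτ⟩
  have h1 := ModularGroup.three_le_four_mul_im_sq_of_mem_fd hg
  have h2 := hg.2
  have h3 := (g • (⟨τ, hτ⟩ : UpperHalfPlane)).im_pos
  have h4 := det_SL g
  rw [← UpperHalfPlane.coe_im, coe_smul_eq_mob] at h1 h3
  rw [← UpperHalfPlane.coe_re, coe_smul_eq_mob] at h2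
  obtain ⟨i, Q, k, q0, q1, k0, k1, -, H⟩ := exists_decomp (a := g 1 1) (b := -g 0 1) (c := -g 1 0)
    (d := g 0 0) (by linear_combination h4)
  have h5 := H _ h3
  rw [mob_adj (by omega) hτ] at h5
  generalize mob (g 0 0) (g 0 1) (g 1 0) (g 1 1) _ = w at h1 h2 h3 h5
  have r0 : (1 : ℝ) ≤ Q := by exact_mod_cast q0
  have r1 : (Q : ℝ) ≤ 15 := by exact_mod_cast q1
  have s0 : (0 : ℝ) ≤ k := by exact_mod_cast k0
  have s1 : (k : ℝ) < 15 := by exact_mod_cast k1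
  refine ⟨i, _, ?_, ?_, h5⟩
  · rw [div_intCast_re, abs_div, abs_of_pos (by linarith : (0 : ℝ) < Q), div_le_iff₀ (by linarith),
      abs_le]
    simp only [add_re, intCast_re]
    constructor <;> linarith [abs_le.mp h2]
  · rw [div_intCast_im, le_div_iff₀ (by linarith)]
    simp only [add_im, intCast_im]
    nlinarith

lemma int_bd {δ M B : ℝ} (hδ : 0 < δ) {z : ℂ} (h1 : δ ≤ z.im) (h2 : ‖z‖ ≤ M) {x y : ℤ}
    (h : ‖x * z + y‖ ≤ B) : |(x : ℝ)| ≤ B / δ ∧ |(y : ℝ)| ≤ B + B / δ * M := by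
  have h3 : |(x : ℝ)| ≤ B / δ := by
    have := (abs_im_le_norm _).trans h
    simp only [add_im, mul_im, intCast_re, intCast_im, zero_mul, add_zero, abs_mul] at this
    rw [le_div_iff₀ hδ]
    exact (mul_le_mul_of_nonneg_left (h1.trans (le_abs_self _)) (abs_nonneg _)).trans this
  refine ⟨h3, ?_⟩
  have h4 := norm_sub_le ((x : ℂ) * z + y) (x * z)
  rw [add_sub_cancel_left, norm_mul, norm_intCast, norm_intCast] at h4
  have h5 := mul_le_mul h3 h2 (norm_nonneg _) ((abs_nonneg _).trans h3)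
  linarith

/-- The modular group acts properly discontinuously. -/
theorem finite_SL {K : Set ℂ} (hK : IsCompact K) (hK' : ∀ z ∈ K, 0 < z.im) :
    {g : M4 | g.1 * g.2.2.2 - g.2.1 * g.2.2.1 = 1 ∧
      ∃ z ∈ K, mob g.1 g.2.1 g.2.2.1 g.2.2.2 z ∈ K}.Finite := by
  obtain ⟨δ, hδ, h1⟩ := hK.exists_forall_le' continuous_im.continuousOn hK'
  obtain ⟨M, h2⟩ := hK.isBounded.exists_norm_le
  obtain ⟨N, hN⟩ := exists_nat_ge (max (max (√(M / δ) / δ) (√(M / δ) + √(M / δ) / δ * M))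
    (max (M * √(M / δ) / δ) (M * √(M / δ) + M * √(M / δ) / δ * M)))
  simp only [max_le_iff] at hN
  refine (Set.finite_Icc ((-N, -N, -N, -N) : M4) (N, N, N, N)).subset ?_
  rintro ⟨a, b, c, d⟩ ⟨h, z, hz, hw⟩
  simp only at h hw
  have h0 := den_ne (a := a) (b := b) (c := c) (d := d) (by omega) (hK' z hz)
  have h3 : ‖c * z + d‖ ≤ √(M / δ) := by
    have h4 := h1 _ hw
    rw [im_mob, h, le_div_iff₀ (by positivity)] at h4
    rw [Real.le_sqrt' (by positivity), le_div_iff₀ hδ]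
    have := (le_abs_self _).trans ((abs_im_le_norm z).trans (h2 z hz))
    push_cast at h4
    linarith
  have h4 : ‖a * z + b‖ ≤ M * √(M / δ) := by
    have h5 := h2 _ hw
    rw [mob, norm_div, div_le_iff₀ (by positivity)] at h5
    exact h5.trans (mul_le_mul_of_nonneg_left h3 ((norm_nonneg _).trans (h2 z hz)))
  have k1 := int_bd hδ (h1 z hz) (h2 z hz) h3
  have k2 := int_bd hδ (h1 z hz) (h2 z hz) h4
  have e : ∀ x : ℤ, |(x : ℝ)| ≤ N → -N ≤ x ∧ x ≤ N := fun x hx => abs_le.mp (by exact_mod_cast hx)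
  have e1 := e _ (k2.1.trans hN.2.1)
  have e2 := e _ (k2.2.trans hN.2.2)
  have e3 := e _ (k1.1.trans hN.1.1)
  have e4 := e _ (k1.2.trans hN.1.2)
  exact ⟨⟨e1.1, e2.1, e3.1, e4.1⟩, e1.2, e2.2, e3.2, e4.2⟩

lemma upper_mem_nhds {z : ℂ} (hz : 0 < z.im) : {w : ℂ | 0 < w.im} ∈ 𝓝 z :=
  (isOpen_lt continuous_const continuous_im).mem_nhds hz

/-- Inequivalent points have inequivalent neighbourhoods. -/
theorem ev_not_eqv {z w : ℂ} (hz : 0 < z.im) (hw : 0 < w.im) (h : ¬ Eqv z w) :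
    ∀ᶠ p in 𝓝 z ×ˢ 𝓝 w, ¬ Eqv p.1 p.2 := by
  obtain ⟨K, k1, k2, k3⟩ := local_compact_nhds (upper_mem_nhds hz)
  obtain ⟨K', l1, l2, l3⟩ := local_compact_nhds (upper_mem_nhds hw)
  have h1 := (finite_SL (k3.union l3) (Set.union_subset k2 l2)).inter_of_left {g | 15 ∣ g.2.2.1}
  have h2 := (eventually_all_finite (l := 𝓝 z ×ˢ 𝓝 w)
      (p := fun g p => mob g.1 g.2.1 g.2.2.1 g.2.2.2 p.1 ≠ p.2) h1).mpr <| by
    rintro ⟨a, b, _, d⟩ ⟨⟨hg, -⟩, c, rfl⟩
    exact (((hol_mob (by simp only at hg; omega) z hz).continuousAt.tendsto.comp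
      tendsto_fst).sub tendsto_snd).eventually_ne
        (sub_ne_zero.mpr fun h' => h ⟨a, b, c, d, hg, h'.symm⟩) |>.mono
      fun p hp => sub_ne_zero.mp hp
  filter_upwards [h2, prod_mem_prod k1 l1]
  rintro p hp ⟨p1, p2⟩ ⟨a, b, c, d, h, e⟩
  exact hp (a, b, 15 * c, d) ⟨⟨h, p.1, Or.inl p1, Or.inr (e ▸ p2)⟩, c, rfl⟩ e.symm

/-- The group `Γ₀(15)` has no elliptic elements. -/
theorem eq_of_mob_eq {a b c d : ℤ} (h : a * d - b * (15 * c) = 1) {z : ℂ} (hz : 0 < z.im)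
    (e : mob a b (15 * c) d z = z) : b = 0 ∧ c = 0 ∧ (a = 1 ∧ d = 1 ∨ a = -1 ∧ d = -1) := by
  have h1 := f15_mob a b c d h hz
  rw [e, eq_comm, mul_eq_right₀ (f15_ne hz), sq_eq_one_iff] at h1
  obtain rfl : c = 0 := by
    rcases h1 with h1 | h1 <;> simpa [hz.ne'] using congr_arg im h1
  have h2 := Int.eq_one_or_neg_one_of_mul_eq_one' (u := a) (v := d) (by simpa using h)
  refine ⟨?_, rfl, h2⟩
  rcases h2 with ⟨rfl, rfl⟩ | ⟨rfl, rfl⟩
  · simpa [mob] using e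
  · simpa [mob, div_neg] using e

end Pool.Agent.Lib.MP_696deb_nt.Unif
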