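import Pool.Agent.Lib.MP_696deb_nt.UnifP
import Pool.Agent.Lib.MP_696deb_nt.UnifG
import Pool.Agent.Lib.MP_696deb_nt.Pt15

set_option autoImplicit false

open PowerSeries Filter Topology Complex
open scoped Real

namespace Pool.Agent.Lib.MP_696deb_nt.Unif

lemma tendsto_etaq (r0 r1 r3 r5 r15 : ℤ) (h : 24 * r0 = r1 + 3 * r3 + 5 * r5 + 15 * r15) :
    Tendsto (fun z => etaq r1 r3 r5 r15 z / q1 z ^ r0) atI (𝓝 1) := by
  have h1 := qe_P1.tendsto
  have h3 := qe_P3.tendsto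
  have h5 := qe_P5.tendsto
  have h15 := qe_P15.tendsto
  simp only [cc_toC, cc_P1, cc_P3, cc_P5, cc_P15, Int.cast_one] at h1 h3 h5 h15
  have := (((h1.zpow₀ r1 (by simp)).mul (h3.zpow₀ r3 (by simp))).mul (h5.zpow₀ r5 (by simp))).mul
    (h15.zpow₀ r15 (by simp))
  simp only [one_zpow, mul_one] at this
  refine this.congr fun z => ?_
  rw [etaq_eq r0 _ _ _ _ h, mul_div_cancel_left₀ _ (zpow_ne_zero _ (q1_ne z))]

lemma tendsto_t15_inv : Tendsto (fun z => (t15 z)⁻¹) atI (𝓝 0) := by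
  have := (tendsto_etaq 2 1 (-1) (-5) 5 (by norm_num)).mul (tendsto_q1.pow 2)
  simp only [t15_inv, zpow_ofNat, div_mul_cancel₀ _ (pow_ne_zero 2 (q1_ne _))] at this
  simpa using this

lemma t15_w3' {z : ℂ} (hz : 0 < z.im) : t15 (al 1 z) = -9 / t15 z := by
  rw [div_eq_mul_inv, ← t15_inv]; exact t15_w3 hz

lemma psi15_w3 {z : ℂ} (hz : 0 < z.im) : psi15 (al 1 z) = 9 * psi15 z / t15 z ^ 2 := by
  have h1 : sl 6 1 15 3 E15 z = Ld 1 (-1) (-5) 5 z := sl_logDeriv (κ := -9) (by norm_num)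
    (by norm_num) (fun _ => hasDerivAt_etaq _ _ _ _) (fun _ => hasDerivAt_etaq _ _ _ _)
    (fun _ => etaq_ne _ _ _ _) (fun w hw => t15_w3 hw) hz
  have h2 : Ld 1 (-1) (-5) 5 z = -E15 z := by simp only [E15, Ld]; push_cast; ring
  have h3 := t15_ne hz
  rw [psi15, psi15, t15_w3' hz, mul_div_assoc]
  change _ * (E15 (mob 6 1 15 3 z) / f15 (mob 6 1 15 3 z)) = _
  rw [div_mob (by norm_num) _ _ hz, h1, f15_w3 hz, h2]
  field_simp

lemma al_two {z : ℂ} (hz : 0 < z.im) : al 2 z = al 1 (al 3 z) := mob_w5 hz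

lemma tendsto_t15_w15 : Tendsto (fun z => t15 (al 3 z)) atI (𝓝 9) := by
  have := (tendsto_etaq 0 (-5) 5 1 (-1) (by norm_num)).const_mul 9
  simp only [zpow_zero, div_one, mul_one] at this
  exact this.congr' (ev_pos.mono fun z hz => (t15_w15 hz).symm)

lemma tendsto_psi15_w15 : Tendsto (fun z => psi15 (al 3 z)) atI (𝓝 (-45)) := by
  have hE := qe_Ld 0 (-5) 5 1 (-1) (by norm_num)
  obtain ⟨S1, k1⟩ := Sg_low
  obtain ⟨S3, k3⟩ := Sg_expand_low 0 (by norm_num)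
  obtain ⟨S5, k5⟩ := Sg_expand_low 2 (by norm_num)
  obtain ⟨S15, k15⟩ := Sg_expand_low 12 (by norm_num)
  rw [show ((0 : ℤ) - (-5 : ℤ) * Sg - 3 * (5 : ℤ) * Sg3 - 5 * (1 : ℤ) * Sg5 - 15 * (-1 : ℤ) * Sg15 :
      ℤ⟦X⟧) = X ^ 1 * (5 + X * (15 + X * (5 * S1 - 15 * S3 - 5 * S5 + 15 * S15))) by
    rw [Sg3, Sg5, Sg15, k3, k5, k15, k1]; push_cast; ring, map_mul, map_pow, map_X] at hE
  have b3 := hE.tendsto_div (B' := toC (P1 * P3 * P5 * P15)) (by simpa [F15] using qe_f15)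
    (by rw [cc_toC]; simp [cc_P1, cc_P3, cc_P5, cc_P15])
  have := tendsto_t15_w15.mul b3.neg
  rw [cc_toC, cc_toC] at this
  norm_num [cc_P1, cc_P3, cc_P5, cc_P15, map_ofNat] at this
  refine (tendsto_neg_iff.mpr this).congr' (ev_pos.mono fun z hz => ?_)
  have h1 : sl 0 (-1) 15 0 E15 z = Ld (-5) 5 1 (-1) z := sl_logDeriv (κ := 9) (by norm_num)
    (by norm_num) (fun _ => hasDerivAt_etaq _ _ _ _) (fun _ => hasDerivAt_etaq _ _ _ _)
    (fun _ => etaq_ne _ _ _ _) (fun w hw => t15_w15 hw) hz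
  simp only [psi15, mul_div_assoc]
  change _ = _ * (E15 (mob 0 (-1) 15 0 z) / f15 (mob 0 (-1) 15 0 z))
  rw [div_mob (by norm_num) _ _ hz, h1, f15_w15 hz]
  simp [div_neg]

/-- The abscissae of the images of the cusps (the value at infinity is a dummy). -/
def alX : Fin 4 → ℤ := ![0, 0, -1, 9]

lemma tendsto_t15_al {i : Fin 4} (hi : i ≠ 0) :
    Tendsto (fun z => t15 (al i z)) atI (𝓝 (alX i)) := by
  fin_cases i
  · exact absurd rfl hi
  · simpa [alX] using (tendsto_t15_inv.const_mul (-9)).congr'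
      (ev_pos.mono fun z hz => (t15_w3' hz).symm)
  · have := (tendsto_const_nhds (x := (-9 : ℂ))).div tendsto_t15_w15 (by norm_num)
    norm_num at this
    simpa [alX] using this.congr' (ev_pos.mono fun z hz => by
      simp only [al_two hz, t15_w3' (al_im_pos 3 hz), Pi.div_apply])
  · simpa [alX] using tendsto_t15_w15

lemma Eqv.t15_eq {z w : ℂ} (h : Eqv z w) (hz : 0 < z.im) : t15 w = t15 z := by
  obtain ⟨a, b, c, d, h, rfl⟩ := h
  exact t15_mob a b c d h hz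

lemma Eqv.psi15_eq {z w : ℂ} (h : Eqv z w) (hz : 0 < z.im) : psi15 w = psi15 z := by
  obtain ⟨a, b, c, d, h, rfl⟩ := h
  exact psi15_mob a b c d h hz

lemma Hol.analyticAt {F : ℂ → ℂ} (hF : Hol F) {z : ℂ} (hz : 0 < z.im) : AnalyticAt ℂ F z :=
  DifferentiableOn.analyticAt (fun w hw => (hF w hw).differentiableWithinAt) (upper_mem_nhds hz)

lemma analyticAt_Fi {z : ℂ} (hz : 0 < z.im) : AnalyticAt ℂ Fi z := Hol.analyticAt qe_Fi.hol hz

lemma deriv_Fi_ne {z : ℂ} (hz : 0 < z.im) : deriv Fi z ≠ 0 := by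
  rw [(hasDerivAt_Fi hz).deriv]
  exact mul_ne_zero two_pi_I (f15_ne hz)

lemma map_Fi_nhds {z : ℂ} (hz : 0 < z.im) : map Fi (𝓝 z) = 𝓝 (Fi z) :=
  (analyticAt_Fi hz).hasStrictDerivAt.map_nhds_eq (deriv_Fi_ne hz)

lemma countable_lattice (L : PeriodPair) : (L.lattice : Set ℂ).Countable :=
  Set.countable_coe_iff.mp (L.latticeEquivProd.toEquiv.countable_iff.mpr inferInstance)

lemma loc_inj (L : PeriodPair) {G : ℂ → ℂ} {x : ℂ} (hG : AnalyticAt ℂ G x) (h : deriv G x ≠ 0) :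
    ∃ V ∈ 𝓝 x, ∀ z ∈ V, ∀ w ∈ V, G z - G w ∈ L.lattice → z = w := by
  have h1 := hG.hasStrictDerivAt.eventually_left_inverse h
  have h2 := (hG.continuousAt.tendsto.comp (tendsto_fst (g := 𝓝 x))).sub
    (hG.continuousAt.tendsto.comp tendsto_snd)
  rw [sub_self] at h2
  obtain ⟨V, hV, hV'⟩ := (eventually_prod_self_iff (r := fun z w => G z - G w ∉ _ \ {0})).mp
    (h2.eventually (L.compl_lattice_sdiff_singleton_mem_nhds 0))
  refine ⟨_, inter_mem hV h1, fun z hz w hw e => ?_⟩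
  have h3 : G z = G w := by
    by_contra h3
    exact hV' z hz.1 w hw.1 ⟨e, sub_ne_zero.mpr h3⟩
  rw [← hz.2, h3, hw.2]

/-- The fibre over `u` is contained in one orbit. -/
def Good (L : PeriodPair) (u : ℂ) : Prop := ∀ z w : ℂ, 0 < z.im → 0 < w.im →
  Fi z - u ∈ L.lattice → Fi w - u ∈ L.lattice → Eqv z w

lemma isOpen_not_good (L : PeriodPair) : IsOpen {u | ¬ Good L u} := by
  refine isOpen_iff_mem_nhds.mpr fun u hu => ?_
  simp only [Good, Set.mem_ofPred_eq, not_forall] at hu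
  obtain ⟨z, w, hz, hw, z1, w1, h⟩ := hu
  obtain ⟨p1, k1, p2, k2, k3⟩ := eventually_prod_iff.mp (ev_not_eqv hz hw h)
  have e : ∀ {z : ℂ} {p : ℂ → Prop}, 0 < z.im → (∀ᶠ x in 𝓝 z, p x) →
      ∀ᶠ v in 𝓝 u, ∃ x, (0 < x.im ∧ p x) ∧ Fi x = v + (Fi z - u) := fun {z p} hz hp => by
    have h1 := image_mem_map (m := Fi) (inter_mem (upper_mem_nhds hz) hp)
    rw [map_Fi_nhds hz] at h1
    exact Tendsto.eventually (f := fun v => v + (Fi z - u))
      (by simpa using (continuous_add_const (Fi z - u)).tendsto u) h1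
  filter_upwards [e hz k1, e hw k2]
  rintro v ⟨x, ⟨x1, x2⟩, x3⟩ ⟨y, ⟨y1, y2⟩, y3⟩ hv
  exact k3 x2 y2 (hv x y x1 y1 (by simpa [x3] using z1) (by simpa [y3] using w1))

section

variable {L : PeriodPair} (h2 : L.g₂ = 481 / 12) (h3 : L.g₃ = 4879 / 216)

include h2 h3

theorem param_of {z : ℂ} (hz : 0 < z.im) : Fi z ∉ L.lattice ∧
    L.weierstrassP (Fi z) = t15 z - 7 / 12 ∧ L.derivWeierstrassP (Fi z) = psi15 z := by
  have hE := qe_E15.tendsto
  rw [cc_toC] at hE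
  obtain ⟨z₀, h0, h1⟩ := (ev_pos.and (hE.eventually_ne (b₂ := 0) (by
    simp [EE15, cc_Sg, cc_Sg3, cc_Sg5, cc_Sg15, map_ofNat]))).exists
  obtain ⟨c, hc⟩ := P_comp L (U := {z | 0 < z.im}) (isOpen_lt continuous_const continuous_im)
    (convex_halfSpace_im_gt 0).isPreconnected (F := Fi) (A := fun z => t15 z - 7 / 12)
    (A₁ := psi15) (fun _ => hasDerivAt_Fi) (fun _ hz => mul_ne_zero two_pi_I (f15_ne hz))
    (fun _ hz => (hasDerivAt_t15 hz).sub_const _) hol_psi15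
    (fun _ hz => by rw [psi15_sq hz, h2, h3]; ring) h0
    (div_ne_zero (mul_ne_zero (t15_ne h0) h1) (f15_ne h0))
  have hcL : c ∈ L.lattice := by
    by_contra h
    have k1 : Tendsto (fun z => L.weierstrassP (Fi z + c)) atI (𝓝 (L.weierstrassP c)) :=
      (hasDerivAt_P L h).continuousAt.tendsto.comp (by simpa using tendsto_Fi.add_const c)
    have k2 := (k1.add_const (7 / 12)).mul tendsto_t15_inv
    rw [mul_zero] at k2
    refine one_ne_zero (tendsto_nhds_unique tendsto_const_nhds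
      (k2.congr' (ev_pos.mono fun w hw => ?_)))
    simp only [← (hc w hw).2.1, sub_add_cancel, mul_inv_cancel₀ (t15_ne hw)]
  obtain ⟨k1, k2, k3⟩ := hc z hz
  exact ⟨fun h => k1 (L.lattice.add_mem h hcL), (k2.trans (L.weierstrassP_add_coe _ ⟨c, hcL⟩)).symm,
    (k3.trans (L.derivWeierstrassP_add_coe _ ⟨c, hcL⟩)).symm⟩

theorem sub_mem_of {z w : ℂ} (hz : 0 < z.im) (hw : 0 < w.im) (e1 : t15 z = t15 w)
    (e2 : psi15 z = psi15 w) : Fi z - Fi w ∈ L.lattice := by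
  obtain ⟨k1, k2, k3⟩ := param_of h2 h3 hz
  obtain ⟨l1, l2, l3⟩ := param_of h2 h3 hw
  exact sub_mem_of_P_eq L k1 l1 (by rw [k2, l2, e1]) (by rw [k3, l3, e2])

theorem Eqv.sub_mem_of {z w : ℂ} (h : Eqv z w) (hz : 0 < z.im) : Fi z - Fi w ∈ L.lattice :=
  Unif.sub_mem_of h2 h3 hz (h.im_pos hz) (h.t15_eq hz).symm (h.psi15_eq hz).symm

theorem alC_notMem_of {i : Fin 4} (hi : i ≠ 0) : alC i ∉ L.lattice := fun h => by
  have k1 := (tendsto_P L h).comp (tendsto_nhdsWithin_iff.mpr ⟨tendsto_Fi_al i,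
    ev_pos.mono fun z hz e => (param_of h2 h3 (al_im_pos i hz)).1 (Set.mem_singleton_iff.mp e ▸ h)⟩)
  exact ((tendsto_t15_al hi).sub_const (7 / 12)).not_tendsto (Metric.disjoint_nhds_cobounded _)
    (k1.congr' (ev_pos.mono fun z hz => (param_of h2 h3 (al_im_pos i hz)).2.1))

theorem Fi_sub_alC_notMem_of (i : Fin 4) {τ : ℂ} (hτ : 0 < τ.im) : Fi τ - alC i ∉ L.lattice := by
  obtain ⟨z, hz, rfl⟩ := al_surj i hτ
  rw [Fi_al i hz, add_sub_cancel_right]
  have := (param_of h2 h3 hz).1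
  fin_cases i <;> simpa [alS] using this

/-- Properness of the parametrization. -/
lemma ev_fibre {u₀ : ℂ} {V : Set ℂ} (hV : IsOpen V)
    (h1 : ∀ τ : ℂ, 0 < τ.im → Fi τ - u₀ ∈ L.lattice → ∃ v ∈ V, 0 < v.im ∧ Eqv v τ)
    (h4 : ∀ i, alC i - u₀ ∈ L.lattice → ∀ᶠ z in atI, al i z ∈ V) :
    ∀ᶠ u in 𝓝 u₀, ∀ τ : ℂ, 0 < τ.im → Fi τ - u ∈ L.lattice → ∃ v ∈ V, 0 < v.im ∧ Eqv v τ := by
  have k1 : ∀ᶠ p in 𝓝 u₀ ×ˢ atI, ∀ i, Fi (al i p.2) - p.1 ∈ L.lattice → al i p.2 ∈ V := by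
    refine eventually_all.mpr fun i => ?_
    by_cases hi : alC i - u₀ ∈ L.lattice
    · exact ((h4 i hi).prod_inr _).mono fun p hp _ => hp
    · exact ((((tendsto_Fi_al i).comp tendsto_snd).sub tendsto_fst).eventually
        (ev_notMem L hi)).mono fun p hp h => absurd h hp
  obtain ⟨p1, k2, p2, k3, k4⟩ := eventually_prod_iff.mp k1
  obtain ⟨T, hT⟩ := eventually_atTop.mp (eventually_comap.mp k3)
  have hW : IsOpen {τ : ℂ | 0 < τ.im ∧ ∃ v ∈ V, 0 < v.im ∧ Eqv v τ} := by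
    refine isOpen_iff_mem_nhds.mpr ?_
    rintro τ ⟨hτ, v, hv, hv', e⟩
    obtain ⟨a, b, c, d, h, rfl⟩ := e.symm hv'
    filter_upwards [upper_mem_nhds hτ, (hol_mob (by omega) τ hτ).continuousAt.preimage_mem_nhds
      (hV.mem_nhds hv)] with w hw hw'
    exact ⟨hw, _, hw', im_mob_pos (by omega) hw, Eqv.symm ⟨a, b, c, d, h, rfl⟩ hw⟩
  have hK : IsCompact (Set.Icc (-16 : ℝ) 16 ×ℂ Set.Icc (1 / 30) T) :=
    isCompact_Icc.reProdIm isCompact_Icc
  have hK' : ∀ z ∈ Set.Icc (-16 : ℝ) 16 ×ℂ Set.Icc (1 / 30) T, 0 < z.im := fun z hz =>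
    lt_of_lt_of_le (by norm_num) hz.2.1
  have hC := (isCompact_iUnion fun i => hK.image_of_continuousOn fun z hz =>
    (hol_al i z (hK' z hz)).continuousAt.continuousWithinAt).diff hW
  have hC' : ∀ τ ∈ (⋃ i, al i '' (Set.Icc (-16 : ℝ) 16 ×ℂ Set.Icc (1 / 30) T)) \
      {τ : ℂ | 0 < τ.im ∧ ∃ v ∈ V, 0 < v.im ∧ Eqv v τ}, 0 < τ.im := by
    rintro _ ⟨⟨_, ⟨i, rfl⟩, z, hz, rfl⟩, -⟩
    exact al_im_pos i (hK' z hz)
  have hS := L.isClosed_lattice.add_left_of_isCompact (hC.image_of_continuousOn (f := Fi)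
    fun z hz => (hasDerivAt_Fi (hC' z hz)).continuousAt.continuousWithinAt)
  filter_upwards [k2, hS.isOpen_compl.mem_nhds (x := u₀) (by
    rintro ⟨_, ⟨τ, hτ, rfl⟩, l, hl, e⟩
    exact hτ.2 ⟨hC' τ hτ, h1 τ (hC' τ hτ) (by simpa [← e] using hl)⟩)] with u hu hu' τ hτ hL
  obtain ⟨i, z, z1, z2, e⟩ := exists_rep hτ
  have hz := al_im_pos i (lt_of_lt_of_le (by norm_num) z2)
  have hL' : Fi (al i z) - u ∈ L.lattice := by
    simpa using L.lattice.add_mem (e.sub_mem_of h2 h3 hz) hL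
  rcases le_total T z.im with h | h
  · exact ⟨_, k4 hu (hT _ h z rfl) i hL', hz, e⟩
  · obtain ⟨-, v, v1, v2, v3⟩ : al i z ∈ {τ : ℂ | 0 < τ.im ∧ ∃ v ∈ V, 0 < v.im ∧ Eqv v τ} := by
      by_contra h'
      exact hu' ⟨_, ⟨_, ⟨Set.mem_iUnion.mpr ⟨i, z, ⟨abs_le.mp z1, z2, h⟩, rfl⟩, h'⟩, rfl⟩, _,
        L.lattice.neg_mem hL', by simp⟩
    exact ⟨v, v1, v2, v3.trans e v2⟩

lemma ev_good {u₀ : ℂ} {V : Set ℂ} (hV : IsOpen V)
    (h0 : ∀ z ∈ V, ∀ w ∈ V, 0 < z.im → 0 < w.im → Fi z - Fi w ∈ L.lattice → Eqv z w)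
    (h1 : ∀ τ : ℂ, 0 < τ.im → Fi τ - u₀ ∈ L.lattice → ∃ v ∈ V, 0 < v.im ∧ Eqv v τ)
    (h4 : ∀ i, alC i - u₀ ∈ L.lattice → ∀ᶠ z in atI, al i z ∈ V) : ∀ᶠ u in 𝓝 u₀, Good L u := by
  filter_upwards [ev_fibre h2 h3 hV h1 h4] with u hu z w hz hw z1 w1
  obtain ⟨z', z2, z3, z4⟩ := hu z hz z1
  obtain ⟨w', w2, w3, w4⟩ := hu w hw w1
  refine ((z4.symm z3).trans (h0 _ z2 _ w2 z3 w3 ?_) hz).trans w4 hz
  convert L.lattice.sub_mem (L.lattice.add_mem (z4.sub_mem_of h2 h3 z3) z1)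
    (L.lattice.add_mem (w4.sub_mem_of h2 h3 w3) w1) using 1
  ring

lemma ev_good_zero : ∀ᶠ u in 𝓝 0, Good L u := by
  obtain ⟨G, hG, hG'⟩ := qe_Fi
  obtain ⟨V, hV, hV'⟩ := loc_inj L hG.hasFPowerSeriesOnBall.analyticAt (by
    rw [hG.deriv.apply_zero]
    simp [coeff_derivative, a15_one])
  obtain ⟨T, hT⟩ := eventually_atTop.mp (eventually_comap.mp (tendsto_q1.eventually hV))
  refine ev_good h2 h3 (V := {z | T < z.im}) (isOpen_lt continuous_const continuous_im)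
    (fun z z1 w w1 hz hw h => ?_)
    (fun τ hτ h => absurd (by simpa using h) (param_of h2 h3 hτ).1) fun i hi => ?_
  · rw [hG' z hz, hG' w hw] at h
    obtain ⟨n, hn⟩ := exp_eq_exp_iff_exists_int.mp
      (hV' _ (hT _ (le_of_lt w1) w rfl) _ (hT _ (le_of_lt z1) z rfl)
        (neg_sub (G (q1 z)) _ ▸ L.lattice.neg_mem h))
    convert Eqv.add_int z n
    apply mul_left_cancel₀ two_pi_I
    linear_combination hn
  · obtain rfl : i = 0 := by
      by_contra h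
      exact alC_notMem_of h2 h3 h (by simpa using hi)
    simp only [al_zero]
    exact tendsto_comap.eventually (eventually_gt_atTop T)

theorem good_of (u : ℂ) : Good L u := by
  have hc : (⋃ i, (fun l => alC i - l) '' L.lattice).Countable :=
    Set.countable_iUnion fun i => (countable_lattice L).image _
  have hd := hc.dense_compl ℂ
  have h4 := (hc.isConnected_compl_of_one_lt_rank (by simp)).isPreconnected
  have h5 := h4.subset_left_of_subset_union isOpen_interior (isOpen_not_good L)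
    (Set.disjoint_left.mpr fun u (h : u ∈ interior {u | Good L u}) h' => h' (interior_subset h))
    (fun u hu => ?_) (hd.inter_nhds_nonempty (interior_mem_nhds.mpr (ev_good_zero h2 h3)))
  · by_contra h
    obtain ⟨v, v1, v2⟩ := hd.inter_open_nonempty _ (isOpen_not_good L) ⟨u, h⟩
    exact v1 (interior_subset (h5 v2))
  · refine (em (Good L u)).imp_left fun h => mem_interior_iff_mem_nhds.mpr ?_
    have h6 : ∀ (V : Set ℂ) (i : Fin 4), alC i - u ∈ L.lattice → ∀ᶠ z in atI, al i z ∈ V :=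
      fun V i hi => (hu (Set.mem_iUnion.mpr ⟨i, _, hi, by simp⟩)).elim
    by_cases hτ : ∃ τ : ℂ, 0 < τ.im ∧ Fi τ - u ∈ L.lattice
    · obtain ⟨τ, τ1, τ2⟩ := hτ
      obtain ⟨V, hV, hV'⟩ := loc_inj L (analyticAt_Fi τ1) (deriv_Fi_ne τ1)
      exact ev_good h2 h3 (V := interior V) isOpen_interior
        (fun z z1 w w1 _ _ e => hV' z (interior_subset z1) w (interior_subset w1) e ▸ Eqv.refl _)
        (fun w w1 w2 => ⟨τ, mem_interior_iff_mem_nhds.mpr hV, τ1, h _ _ τ1 w1 τ2 w2⟩) (h6 _)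
    · exact ev_good h2 h3 isOpen_empty (by simp) (fun w w1 w2 => absurd ⟨w, w1, w2⟩ hτ) (h6 _)

end

/-- The period lattice of the newform of level fifteen. -/
noncomputable def L15 : PeriodPair :=
  ⟨wp, wm * I, LinearIndependent.pair_iff.mpr fun s t h =>
    ⟨by simpa [wp_neg.ne] using congr_arg re h, by simpa [wm_ne] using congr_arg im h⟩⟩

lemma mem_L15 {x : ℂ} : x ∈ L15.lattice ↔ ∃ m n : ℤ, m * wp + n * (wm * I) = x :=
  PeriodPair.mem_lattice

lemma wp_mem : (wp : ℂ) ∈ L15.lattice := L15.ω₁_mem_lattice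

lemma wm_mem : wm * I ∈ L15.lattice := L15.ω₂_mem_lattice

lemma conj_mem {x : ℂ} (h : x ∈ L15.lattice) : (starRingEnd ℂ) x ∈ L15.lattice := by
  obtain ⟨m, n, rfl⟩ := mem_L15.mp h
  exact mem_L15.mpr ⟨m, -n, by simp⟩

theorem ms_mem {a b c d : ℤ} (h : a * d - b * (15 * c) = 1) : ms a (15 * c) ∈ L15.lattice := by
  obtain ⟨m, n, e⟩ := ms_lattice (g := (a, b, 15 * c, d)) ⟨h, dvd_mul_right _ _⟩
  exact mem_L15.mpr ⟨m, n, by rw [e, mul_assoc]⟩

theorem Eqv.sub_mem {z w : ℂ} (h : Eqv z w) (hz : 0 < z.im) : Fi z - Fi w ∈ L15.lattice := by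
  obtain ⟨a, b, c, d, h, rfl⟩ := h
  simpa [Fi_Gamma0 h hz] using ms_mem h

/-- The parametrization is onto the complement of the four cusps. -/
theorem exists_Fi_sub_mem {u : ℂ} (hu : ∀ i, alC i - u ∉ L15.lattice) :
    ∃ τ : ℂ, 0 < τ.im ∧ Fi τ - u ∈ L15.lattice := by
  by_contra! H
  have hd : ∀ z : ℂ, 0 < z.im → HasDerivAt (fun z => L15.weierstrassP (Fi z - u))
      (L15.derivWeierstrassP (Fi z - u) * (2 * π * I * f15 z)) z := fun z hz =>
    HasDerivAt.comp (h := fun z => Fi z - u) z (hasDerivAt_P L15 (H z hz))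
      ((hasDerivAt_Fi hz).sub_const u)
  have hb : ∀ i, Bdd fun z => L15.weierstrassP (Fi (al i z) - u) := fun i => Bdd.of_tendsto
    ((hasDerivAt_P L15 (hu i)).continuousAt.tendsto.comp ((tendsto_Fi_al i).sub_const u))
  obtain ⟨c, hc⟩ := const15 (fun z hz => (hd z hz).differentiableAt)
    (fun a b c d h z hz => by
      rw [Fi_Gamma0 h hz, add_sub_right_comm]
      exact L15.weierstrassP_add_coe _ ⟨_, ms_mem h⟩)
    (by simpa only [al_zero] using hb 0) (hb 1) (hb 2) (hb 3)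
  have h1 : ∀ᶠ w in 𝓝 (Fi I), L15.derivWeierstrassP (w - u) = 0 := by
    rw [← map_Fi_nhds (by simp), eventually_map]
    filter_upwards [upper_mem_nhds (z := I) (by simp)] with z hz
    exact (mul_eq_zero.mp ((hd z hz).unique ((hasDerivAt_const z c).congr_of_eventuallyEq
      (mem_of_superset (upper_mem_nhds hz) hc)))).resolve_right (mul_ne_zero two_pi_I (f15_ne hz))
  have h2 : ∀ᶠ w in 𝓝 (Fi I - u), L15.derivWeierstrassP w = 0 := by
    simpa using Tendsto.eventually (f := fun v => v + u)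
      (by simpa using (continuous_add_const u).tendsto (Fi I - u)) h1
  obtain ⟨w, w1, w2⟩ := ((ev_dP_ne L15 _).and (h2.filter_mono nhdsWithin_le_nhds)).exists
  exact w1 w2

theorem L15_g : L15.g₂ = 481 / 12 ∧ L15.g₃ = 4879 / 216 := by
  obtain ⟨L, h2, h3⟩ := exists_periodPair (g₂ := 481 / 12) (g₃ := 4879 / 216) (by norm_num)
    (by norm_num) (by norm_num)
  have hI : 0 < I.im := by simp
  have h4 : ∀ a b c d : ℤ, a * d - b * (15 * c) = 1 → ms a (15 * c) ∈ L.lattice :=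
    fun a b c d h => by simpa [Fi_Gamma0 h hI] using Eqv.sub_mem_of h2 h3 ⟨a, b, c, d, h, rfl⟩ hI
  have h5 : L15.lattice ≤ L.lattice := fun x hx => by
    obtain ⟨m, n, rfl⟩ := mem_L15.mp hx
    rw [← ms_gp, ← ms_gm, ← zsmul_eq_mul, ← zsmul_eq_mul]
    exact L.lattice.add_mem (L.lattice.smul_mem _ (h4 7 (-1) 1 (-2) (by norm_num)))
      (L.lattice.smul_mem _ (h4 11 (-3) 1 (-4) (by norm_num)))
  have h6 : L15.lattice = L.lattice := le_antisymm h5 fun l hl => by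
    obtain ⟨τ, hτ, e⟩ := exists_Fi_sub_mem (u := Fi I + l) fun i hi =>
      Fi_sub_alC_notMem_of h2 h3 i hI (by
        convert L.lattice.neg_mem (L.lattice.add_mem (h5 hi) hl) using 1
        ring)
    convert L15.lattice.sub_mem ((good_of h2 h3 (Fi I + l) τ I hτ hI (h5 e)
      (by simpa using hl)).sub_mem hτ) e using 1
    ring
  rw [← h2, ← h3]
  simp only [PeriodPair.g₂, PeriodPair.g₃, PeriodPair.G]
  rw [h6]
  exact ⟨rfl, rfl⟩

theorem Fi_notMem {z : ℂ} (hz : 0 < z.im) : Fi z ∉ L15.lattice := (param_of L15_g.1 L15_g.2 hz).1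

/-- The modular parametrization, first coordinate. -/
theorem P_Fi {z : ℂ} (hz : 0 < z.im) : L15.weierstrassP (Fi z) = t15 z - 7 / 12 :=
  (param_of L15_g.1 L15_g.2 hz).2.1

/-- The modular parametrization, second coordinate. -/
theorem dP_Fi {z : ℂ} (hz : 0 < z.im) : L15.derivWeierstrassP (Fi z) = psi15 z :=
  (param_of L15_g.1 L15_g.2 hz).2.2

/-- The modular parametrization is injective. -/
theorem sub_mem_iff {z w : ℂ} (hz : 0 < z.im) (hw : 0 < w.im) :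
    Fi z - Fi w ∈ L15.lattice ↔ Eqv z w :=
  ⟨fun h => good_of L15_g.1 L15_g.2 (Fi w) z w hz hw h (by simp), fun h => h.sub_mem hz⟩

theorem eqv_iff {z w : ℂ} (hz : 0 < z.im) (hw : 0 < w.im) :
    Eqv z w ↔ t15 z = t15 w ∧ psi15 z = psi15 w :=
  ⟨fun h => ⟨(h.t15_eq hz).symm, (h.psi15_eq hz).symm⟩,
    fun h => (sub_mem_iff hz hw).mp (sub_mem_of L15_g.1 L15_g.2 hz hw h.1 h.2)⟩

theorem alC_notMem {i : Fin 4} (hi : i ≠ 0) : alC i ∉ L15.lattice :=
  alC_notMem_of L15_g.1 L15_g.2 hi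

theorem Fi_sub_alC_notMem (i : Fin 4) {τ : ℂ} (hτ : 0 < τ.im) : Fi τ - alC i ∉ L15.lattice :=
  Fi_sub_alC_notMem_of L15_g.1 L15_g.2 i hτ

theorem alC_one : alC 1 = (wp - wm * I) / 2 := by
  have h0 := ms_scale (g := 3) (by norm_num) 2 5
  have h1 := ms_AL3 (a := 2) (b := 1) (c := 1) (d := 1) (x := 2) (y := 5) (by norm_num)
    (by norm_num)
  have h2 := ms_Gamma0 (a := -29) (b := 12) (c := -5) (d := 31) (x := -13) (y := -30)
    (by norm_num) (by norm_num)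
  have h3 := ms_Gamma0 (a := 7) (b := -1) (c := 1) (d := -2) (x := -4) (y := -15)
    (by norm_num) (by norm_num)
  have h4 := ms_Gamma0 (a := 11) (b := -3) (c := 1) (d := -4) (x := -4) (y := -15) (by norm_num)
    (by norm_num)
  norm_num [ms_zero, ms_gm, ms_gp, ms_parab5] at h0 h1 h2 h3 h4
  change ms 6 15 = _
  linear_combination h0 - h1 / 2 + h2 / 2 + h3 / 2 - h4 / 2

theorem alC_three : alC 3 = -wp / 4 := by
  have h0 := ms_scale (g := 15) (by norm_num) 0 1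
  norm_num at h0
  change ms 0 15 = _
  rw [h0, ← ms_gp, ms_seven]
  ring

theorem alC_two : alC 2 = (wp - 2 * (wm * I)) / 4 := by
  have h1 := Fi_al 2 (z := I) (by simp)
  rw [al_two (by simp), Fi_al 1 (al_im_pos 3 (by simp)), Fi_al 3 (by simp), alC_one,
    alC_three] at h1
  simp only [alS, Matrix.cons_val] at h1
  push_cast at h1
  linear_combination -h1

theorem P_alC {i : Fin 4} (hi : i ≠ 0) : L15.weierstrassP (alC i) = alX i - 7 / 12 :=
  tendsto_nhds_unique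
    ((hasDerivAt_P L15 (alC_notMem hi)).continuousAt.tendsto.comp (tendsto_Fi_al i))
    (((tendsto_t15_al hi).sub_const (7 / 12)).congr'
      (ev_pos.mono fun _ hz => (P_Fi (al_im_pos i hz)).symm))

/-- The values of `2 Y + X` at the cusps (the value at infinity is a dummy). -/
def alY : Fin 4 → ℤ := ![0, 0, -5, -45]

theorem dP_alC (i : Fin 4) : L15.derivWeierstrassP (alC i) = alY i := by
  have key : ∀ {i : Fin 4} {y : ℂ}, i ≠ 0 → Tendsto (fun z => psi15 (al i z)) atI (𝓝 y) →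
      L15.derivWeierstrassP (alC i) = y := fun {i y} hi h => tendsto_nhds_unique
    ((hasDerivAt_dP L15 (alC_notMem hi)).continuousAt.tendsto.comp (tendsto_Fi_al i))
    (h.congr' (ev_pos.mono fun _ hz => (dP_Fi (al_im_pos i hz)).symm))
  fin_cases i
  · simp [alC_zero, alY]
  · have := L15.derivWeierstrassP_sq _ (alC_notMem (i := 1) (by simp))
    rw [P_alC (by simp), L15_g.1, L15_g.2] at this
    norm_num [alX] at this
    simpa [alY] using this
  · have := (tendsto_psi15_w15.const_mul 9).div (tendsto_t15_w15.pow 2) (by norm_num)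
    norm_num at this
    simpa [alY] using key (i := 2) (by simp) (this.congr' (ev_pos.mono fun z hz => by
      simp only [al_two hz, psi15_w3 (al_im_pos 3 hz), Pi.div_apply]))
  · simpa [alY] using key (i := 3) (by simp) tendsto_psi15_w15

/-- The value of the primitive at an arbitrary cusp. -/
theorem exists_ms_sub_alC {a b c d : ℤ} (hd : a * d - b * c = 1) :
    ∃ i, (i = 0 → 15 ∣ c) ∧ ms a c - alC i ∈ L15.lattice := by
  obtain ⟨i, Q, k, q0, -, -, -, h, H⟩ := exists_decomp hd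
  refine ⟨i, h, L15.isClosed_lattice.mem_of_tendsto
    ((tendsto_Fi_mob (a := a) (b := b) (c := c) (d := d) (by omega)).sub ((tendsto_Fi_al i).comp
      (tendsto_mob_upper (a := 1) (by simpa using q0) k))) (ev_pos.mono fun z hz => ?_)⟩
  have e : mob 1 k 0 Q z = (z + k) / Q := by simp [mob]
  have := (H z hz).sub_mem (al_im_pos i (e ▸ im_mob_pos (by simpa using q0) hz))
  simpa [e] using L15.lattice.neg_mem this

theorem ms_mem_iff {a b c d : ℤ} (hd : a * d - b * c = 1) : ms a c ∈ L15.lattice ↔ 15 ∣ c := by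
  refine ⟨fun h => ?_, by rintro ⟨c, rfl⟩; exact ms_mem hd⟩
  obtain ⟨i, h1, h2⟩ := exists_ms_sub_alC hd
  by_contra h3
  exact alC_notMem (mt h1 h3) (by simpa using L15.lattice.sub_mem h h2)

/-- Linear relations between translates of the newform pass to the primitive. -/
theorem Fi_sum {ι : Type*} (s : Finset ι) (a b c d : ι → ℤ)
    (h : ∀ i ∈ s, 0 < a i * d i - b i * c i) (ε : ℂ)
    (H : ∀ z : ℂ, 0 < z.im → ∑ i ∈ s, sl (a i) (b i) (c i) (d i) f15 z = ε * f15 z)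
    {z : ℂ} (hz : 0 < z.im) :
    ∑ i ∈ s, Fi (mob (a i) (b i) (c i) (d i) z) = ε * Fi z + ∑ i ∈ s, ms (a i) (c i) := by
  obtain ⟨L, hL⟩ := const_of_deriv
    (G := fun z => ∑ i ∈ s, Fi (mob (a i) (b i) (c i) (d i) z) - ε * Fi z) fun z hz => by
      have := (HasDerivAt.fun_sum (u := s) fun i hi => hasDerivAt_Fi_mob (h i hi) hz).sub
        ((hasDerivAt_Fi hz).const_mul ε)
      convert! this using 1
      rw [← Finset.mul_sum, H z hz]
      ring
  have := (tendsto_finsetSum s fun i hi => tendsto_Fi_mob (h i hi)).sub (tendsto_Fi.const_mul ε)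
  rw [mul_zero, sub_zero] at this
  rw [← tendsto_nhds_unique
    (tendsto_const_nhds.congr' (ev_pos.mono fun z hz => (hL z hz).symm)) this, ← hL z hz]
  ring

/-- The Hecke relation for the primitive at a good prime. -/
theorem Fi_hecke {p : ℕ} (hp : p.Prime) (h15 : ¬ p ∣ 15) {z : ℂ} (hz : 0 < z.im) :
    Fi (p * z) + ∑ j ∈ Finset.range p, Fi ((z + j) / p) = a15 p * Fi z := by
  have : Fact p.Prime := ⟨hp⟩
  have := Fi_sum (Finset.univ : Finset (Option (ZMod p))) (fun i => i.elim p fun _ => 1)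
    (fun i => i.elim 0 fun j => j.val) (fun _ => 0) (fun i => i.elim 1 fun _ => p)
    (by rintro (_ | j) _ <;> simpa using hp.pos) (a15 p) (fun z hz => by
      rw [← Tp_f15 p hz, Tp]
      refine Finset.sum_congr rfl ?_
      rintro (_ | j) _ <;> simp [hT, h15]) hz
  simp only [ms_zero, Finset.sum_const_zero, add_zero, Fintype.sum_option, Option.elim] at this
  rw [← this]
  congr 1
  · simp [mob]
  exact (Finset.sum_nbij' (fun j : ZMod p => j.val) (fun j : ℕ => (j : ZMod p)) (by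
    simp [ZMod.val_lt]) (by simp) (by simp) (fun j hj => ZMod.val_cast_of_lt (by simpa using hj))
    (by simp [mob])).symm

end Pool.Agent.Lib.MP_696deb_nt.Unif
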