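import Pool.Agent.Lib.MP_696deb_nt.Cusp15

set_option autoImplicit false

open PowerSeries Filter Topology Complex MeasureTheory Asymptotics
open scoped Real

namespace Pool.Agent.Lib.MP_696deb_nt

lemma QE.coeff_eq_integral {F : ℂ → ℂ} {A : ℂ⟦X⟧} (h : QE F A) (n : ℕ) {y : ℝ} (hy : 0 < y) :
    coeff n A = ∫ u in (0 : ℝ)..1, 1 / q1 (u + y * I) ^ n * F (u + y * I) := by
  have hper : Function.Periodic ((fun τ : UpperHalfPlane => F τ) ∘ UpperHalfPlane.ofComplex)
      ((1 : ℝ) : ℂ) := by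
    intro w
    by_cases hw : 0 < w.im
    · have : 0 < (w + (1 : ℝ)).im := by simpa using hw
      simp only [Function.comp, UpperHalfPlane.ofComplex_apply_of_im_pos this,
        UpperHalfPlane.ofComplex_apply_of_im_pos hw]
      simpa using h.periodic 1 hw
    · have : (w + (1 : ℝ)).im ≤ 0 := by simpa using hw
      simp only [Function.comp]
      rw [UpperHalfPlane.ofComplex_apply_eq_of_im_nonpos this (not_lt.mp hw)]
  have h1 : QE F (UpperHalfPlane.qExpansion 1 fun τ : UpperHalfPlane => F τ) :=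
    QE.of_hasSum fun z hz => by
      simpa [q1_eq] using
        UpperHalfPlane.hasSum_qExpansion one_pos hper h.hol.mdiff h.bdd.atImInfty ⟨z, hz⟩
  rw [h.unique h1 fun _ _ => rfl, UpperHalfPlane.qExpansion_coeff_eq_intervalIntegral one_pos hper
    h.hol.mdiff h.bdd.atImInfty n hy]
  simp [q1_eq]

/-- Bessel's inequality on a horizontal line. -/
lemma QE.bessel {F : ℂ → ℂ} {A : ℂ⟦X⟧} (h : QE F A) {y M : ℝ} (hy : 0 < y)
    (hM : ∀ u : ℝ, ‖F (u + y * I)‖ ≤ M) (s : Finset ℕ) :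
    ∑ n ∈ s, (‖coeff n A‖ * Real.exp (-2 * π * y * n)) ^ 2 ≤ M ^ 2 := by
  have hc : Continuous fun u : ℝ => F (u + y * I) := by
    rw [continuous_iff_continuousAt]
    intro u
    exact ContinuousAt.comp (f := fun u : ℝ => (u + y * I : ℂ))
      (h.hol _ (by simpa using hy)).continuousAt (by fun_prop)
  have hL2 : MemLp (fun u : ℝ => F (u + y * I)) 2 (volume.restrict (Set.Ioc (0 : ℝ) 1)) :=
    MemLp.of_bound hc.aestronglyMeasurable M (ae_of_all _ hM)
  have h1 := hasSum_sq_fourierCoeffOn zero_lt_one hL2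
  have h2 := sum_le_hasSum (s.map Nat.castEmbedding) (fun _ _ => sq_nonneg _) h1
  rw [Finset.sum_map] at h2
  have h3 : ∫ x in (0 : ℝ)..1, ‖F (x + y * I)‖ ^ 2 ≤ M ^ 2 := by
    have := intervalIntegral.integral_mono zero_le_one (μ := volume)
      ((hc.norm.pow 2).intervalIntegrable 0 1) (intervalIntegrable_const (c := M ^ 2))
      fun u => pow_le_pow_left₀ (norm_nonneg _) (hM u) 2
    simpa using this
  refine le_trans (le_of_eq (Finset.sum_congr rfl fun n _ => ?_)) (h2.trans (by simpa using h3))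
  congr 1
  have h4 : Real.exp (-2 * π * y * n) = ‖q1 (y * I) ^ n‖ := by
    rw [norm_pow, norm_q1, ← Real.exp_nat_mul]
    simp [mul_comm]
  rw [h4, ← norm_mul, h.coeff_eq_integral n hy, fourierCoeffOn_eq_integral,
    ← intervalIntegral.integral_mul_const]
  simp only [sub_zero, div_one, one_smul]
  congr 2 with u
  have h5 := q1_ne (y * I)
  have h6 : fourier (-(Nat.castEmbedding n : ℤ)) (u : AddCircle ((1 : ℝ) - 0)) = 1 / q1 u ^ n := by
    rw [fourier_coe_apply, ← q1_nat_mul, q1, one_div, ← Complex.exp_neg]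
    congr 1
    simp
    ring
  rw [h6, q1_add, mul_pow, smul_eq_mul]
  field_simp

lemma QE.sum_sq_le {F : ℂ → ℂ} {A : ℂ⟦X⟧} (h : QE F A) {C : ℝ}
    (hC : ∀ z : ℂ, 0 < z.im → ‖F z‖ * z.im ≤ C) {N : ℕ} (hN : 0 < N) :
    ∑ n ∈ Finset.Icc 1 N, ‖coeff n A‖ ^ 2 ≤ (Real.exp (2 * π) * C * N) ^ 2 := by
  have hN' : (0 : ℝ) < N := by exact_mod_cast hN
  have h1 := h.bessel (y := (N : ℝ)⁻¹) (M := C * N) (by positivity) (fun u => by
    have := hC (u + ((N : ℝ)⁻¹ : ℝ) * I) (by simpa using hN)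
    simp only [add_im, ofReal_im, mul_im, ofReal_re, I_im, mul_one, I_re, mul_zero, add_zero,
      zero_add] at this
    rwa [← div_eq_mul_inv, div_le_iff₀ hN'] at this) (Finset.Icc 1 N)
  rw [mul_assoc, mul_pow]
  refine le_trans ?_ (mul_le_mul_of_nonneg_left h1 (sq_nonneg _))
  rw [Finset.mul_sum]
  refine Finset.sum_le_sum fun n hn => ?_
  rw [← mul_pow]
  refine pow_le_pow_left₀ (norm_nonneg _) ?_ 2
  rw [mul_left_comm, ← Real.exp_add]
  refine le_mul_of_one_le_right (norm_nonneg _) (Real.one_le_exp ?_)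
  have h2 : (N : ℝ)⁻¹ * n ≤ 1 := by
    rw [inv_mul_le_iff₀ hN', mul_one]
    exact_mod_cast (Finset.mem_Icc.mp hn).2
  nlinarith [Real.pi_pos]

theorem a15_le : ∃ C : ℝ, ∀ n : ℕ, 0 < n → |(a15 n : ℝ)| ≤ C * n := by
  obtain ⟨C, hC⟩ := f15_bd
  refine ⟨|Real.exp (2 * π) * C|, fun n hn => ?_⟩
  have h1 := (Finset.single_le_sum (f := fun k => ‖coeff k (toC F15)‖ ^ 2)
    (fun _ _ => sq_nonneg _) (Finset.mem_Icc.mpr ⟨hn, le_rfl⟩)).trans (qe_f15.sum_sq_le hC hn)
  have h2 := sq_le_sq.mp h1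
  simpa [a15, coeff_map, abs_mul] using h2

theorem a15_summable {s : ℂ} (hs : (3 : ℝ) / 2 < s.re) :
    LSeriesSummable (fun n => (a15 n : ℂ)) s := by
  obtain ⟨C, hC⟩ := f15_bd
  refine LSeriesSummable_of_sum_norm_bigO (r := 3 / 2) ?_ (by norm_num) hs
  refine IsBigO.of_bound |Real.exp (2 * π) * C| ?_
  filter_upwards [eventually_gt_atTop 0] with n hn
  have hn' : (0 : ℝ) < n := by exact_mod_cast hn
  have h1 := (sq_sum_le_card_mul_sum_sq (s := Finset.Icc 1 n)
    (f := fun k => ‖coeff k (toC F15)‖)).trans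
    (mul_le_mul_of_nonneg_left (qe_f15.sum_sq_le hC hn) (Nat.cast_nonneg _))
  have h2 : ((n : ℝ) ^ (3 / 2 : ℝ)) ^ 2 = n ^ 3 := by
    rw [← Real.rpow_natCast, ← Real.rpow_mul hn'.le]
    norm_num
  rw [Real.norm_eq_abs, Real.norm_eq_abs, ← abs_mul, ← sq_le_sq, mul_pow, h2]
  simp only [Nat.card_Icc, Nat.add_sub_cancel, coeff_map] at h1
  convert h1 using 1
  · simp [a15]
  · ring

end Pool.Agent.Lib.MP_696deb_nt
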