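import Pool.Agent.Lib.MP_696deb_nt.TernCount

set_option autoImplicit false

open Finset Matrix NumberTheorySymbols

namespace Pool.Agent.Lib.MP_696deb_nt.Tern

/-- The part of `rr` coming from divisors prime to `l`. -/
def ru (n l k : ℕ) : ℤ := ∑ e ∈ k.divisors.filter (fun e => ¬ l ∣ e), J((e : ℤ) | n)

theorem ru_mul {n l k : ℕ} (hl : l.Prime) : ru n l (l * k) = ru n l k := by
  unfold ru
  refine sum_congr ?_ fun _ _ => rfl
  ext e
  simp only [mem_filter, Nat.mem_divisors, ne_eq, mul_eq_zero, hl.ne_zero, false_or]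
  constructor
  · rintro ⟨⟨h1, h2⟩, h3⟩
    exact ⟨⟨((Nat.Prime.coprime_iff_not_dvd hl).2 h3).symm.dvd_of_dvd_mul_left h1, h2⟩, h3⟩
  · rintro ⟨⟨h1, h2⟩, h3⟩
    exact ⟨⟨h1.mul_left _, h2⟩, h3⟩

theorem rr_prime_mul {n l k : ℕ} (hl : l.Prime) :
    rr n (l * k) = ru n l k + J((l : ℤ) | n) * rr n k := by
  rw [← ru_mul hl, rr, ← sum_filter_not_add_sum_filter _ (fun e => l ∣ e), ru, rr, mul_sum]
  congr 1
  symm
  refine sum_nbij (fun e => l * e) ?_ ?_ ?_ ?_
  · intro e he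
    simp only [mem_filter, Nat.mem_divisors, ne_eq, mul_eq_zero, hl.ne_zero, false_or] at he ⊢
    exact ⟨⟨Nat.mul_dvd_mul_left l he.1, he.2⟩, dvd_mul_right _ _⟩
  · intro a _ b _ h
    exact Nat.eq_of_mul_eq_mul_left hl.pos h
  · intro e he
    simp only [coe_filter, Nat.mem_divisors, ne_eq, mul_eq_zero, hl.ne_zero, false_or,
      Set.mem_ofPred_eq] at he
    obtain ⟨⟨h1, h2⟩, e, rfl⟩ := he
    exact ⟨e, by simpa using ⟨Nat.dvd_of_mul_dvd_mul_left hl.pos h1, h2⟩, rfl⟩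
  · intro e _
    push_cast
    rw [jacobiSym.mul_left]

theorem ru_of_not_dvd {n l k : ℕ} (h : ¬ l ∣ k) : ru n l k = rr n k := by
  unfold ru rr
  rw [filter_true_of_mem (p := fun e => ¬ l ∣ e)
    fun e he h' => h (h'.trans (Nat.dvd_of_mem_divisors he))]

theorem rr_ram {n p k : ℕ} (hn : n ≠ 0) (hp : p.Prime) (hpn : p ∣ n) : rr n (p * k) = rr n k := by
  have h0 : J((p : ℤ) | n) = 0 := by
    rw [jacobiSym.eq_zero_iff]
    refine ⟨hn, ?_⟩
    rw [Int.gcd_natCast_natCast, Nat.gcd_eq_left hpn]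
    exact hp.one_lt.ne'
  rw [rr_prime_mul hp, h0, zero_mul, add_zero]
  by_cases h : p ∣ k
  · obtain ⟨k, rfl⟩ := h
    rw [rr_prime_mul hp, h0, zero_mul, add_zero, ru_mul hp]
  · exact ru_of_not_dvd h

open ArithmeticFunction ArithmeticFunction.zeta in
theorem rr_coprime {n a b : ℕ} (h : a.Coprime b) : rr n (a * b) = rr n a * rr n b := by
  let x : ArithmeticFunction ℤ := ⟨fun k => if k = 0 then 0 else jacobiSym k n, by simp⟩
  have hx : x.IsMultiplicative := by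
    refine ⟨by simp [x], fun {a b} _ => ?_⟩
    simp only [x, coe_mk, mul_eq_zero]
    by_cases h1 : a = 0 <;> by_cases h2 : b = 0 <;> simp [h1, h2, jacobiSym.mul_left]
  have hz : (ζ : ArithmeticFunction ℤ).IsMultiplicative := isMultiplicative_zeta.natCast
  have e : ∀ k, rr n k = ((ζ : ArithmeticFunction ℤ) * x) k := fun k => by
    rw [coe_zeta_mul_apply]
    exact sum_congr rfl fun i hi => by simp [x, (Nat.pos_of_mem_divisors hi).ne']
  rw [e, e, e]
  exact (hz.mul hx).2 h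

theorem rr_mul {n : ℕ} (hn : n ≠ 0) (a b : ℕ) (ha : 0 < a)
    (h : ∀ p, p.Prime → p ∣ a → p ∣ b → p ∣ n) : rr n (a * b) = rr n a * rr n b := by
  induction a using Nat.strong_induction_on with
  | _ a ih =>
    by_cases hab : a.Coprime b
    · exact rr_coprime hab
    · obtain ⟨p, hp, h1, h2⟩ := Nat.Prime.not_coprime_iff_dvd.1 hab
      have hpn := h p hp h1 h2
      obtain ⟨a, rfl⟩ := h1
      have ha' : 0 < a := Nat.pos_of_mul_pos_left ha
      rw [mul_assoc, rr_ram hn hp hpn, rr_ram hn hp hpn,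
        ih a (by nlinarith [hp.one_lt]) ha' fun q hq h1 h2 => h q hq (h1.mul_left _) h2]

theorem rr_two_odd {n a : ℕ} (ha : a % 2 = 1) : rr n (2 * a) = (1 + J(2 | n)) * rr n a := by
  rw [rr_prime_mul Nat.prime_two, ru_of_not_dvd (by omega)]
  push_cast
  ring

theorem rr_four {n k : ℕ} : (1 + J(2 | n)) * rr n (2 * k) = rr n (4 * k) + J(2 | n) * rr n k := by
  rw [show 4 * k = 2 * (2 * k) by ring, rr_prime_mul (k := 2 * k) Nat.prime_two,
    ru_mul Nat.prime_two, add_mul, one_mul]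
  nth_rewrite 1 [rr_prime_mul Nat.prime_two]
  push_cast
  ring

theorem prime_dvd_of {n p a b m : ℕ} (hn : Good n) (hp : p.Prime) (h : 3 * a + 5 * b = m)
    (h1 : p ∣ a) (h2 : p ∣ b) : p ∣ m := by
  have := hn
  have := hp
  exact h ▸ dvd_add (h1.mul_left 3) (h2.mul_left 5)

theorem rr_even {n a b : ℕ} (hn : Good n) (ha : 0 < a) (hb : 0 < b) (h : 3 * a + 5 * b = n) :
    rr n (2 * a) * rr n (2 * b) = rr n (2 * a * (2 * b)) + J(2 | n) * rr n (a * b) := by
  have h4 := hn.mod4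
  have hn0 : n ≠ 0 := by omega
  have key : ∀ a b : ℕ, 0 < a → a % 2 = 1 → (∀ p, p.Prime → p ∣ a → p ∣ b → p ∣ n) →
      rr n (2 * a) * rr n (2 * b) = rr n (2 * a * (2 * b)) + J(2 | n) * rr n (a * b) := by
    intro a b ha ha2 hab
    rw [rr_two_odd ha2, mul_assoc, ← rr_mul hn0 a (2 * b) ha, show a * (2 * b) = 2 * (a * b) by ring,
      rr_four, show 4 * (a * b) = 2 * a * (2 * b) by ring]
    intro p hp h1 h2
    rcases (Nat.Prime.dvd_mul hp).1 h2 with h2 | h2
    · obtain rfl := (Nat.prime_dvd_prime_iff_eq hp Nat.prime_two).1 h2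
      omega
    · exact hab p hp h1 h2
  rcases Nat.mod_two_eq_zero_or_one a with h2 | h2
  · rw [mul_comm, key b a hb (by omega) fun p hp h1 h2 => prime_dvd_of hn hp h h2 h1,
      mul_comm (2 * b), mul_comm b]
  · exact key a b ha h2 fun p hp h1 h2 => prime_dvd_of hn hp h h1 h2

theorem Good.coprime30 {n : ℕ} (hn : Good n) : n.Coprime 30 := by
  have h4 := hn.mod4
  have : n.Coprime (2 * 15) := Nat.Coprime.mul_right
    ((Nat.coprime_two_right).2 (Nat.odd_iff.2 (by omega))) hn.cop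
  exact this

theorem hilS_sq {n : ℕ} (hn : Good n) {S : Finset ℕ} (hS : S ⊆ n.primeFactors) {k : ℤ}
    (hk : k ≠ 0) : hilS n S k ^ 2 = 1 := by
  unfold hilS
  rw [← prod_pow]
  exact prod_eq_one fun p hp => hil_sq hn.sqf (Nat.prime_of_mem_primeFactors (hS hp))
    (Nat.dvd_of_mem_primeFactors (hS hp)) hk

theorem hilS_mul' {n : ℕ} {S : Finset ℕ} (hS : S ⊆ n.primeFactors) (k l : ℤ) :
    hilS n S (k * l) = hilS n S k * hilS n S l :=
  hilS_mul (fun _ hp => Nat.prime_of_mem_primeFactors (hS hp)) k l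

theorem hilS_sq_mul {n : ℕ} (hn : Good n) {S : Finset ℕ} (hS : S ⊆ n.primeFactors) {c : ℤ}
    (hc : c ≠ 0) (k : ℤ) : hilS n S (c ^ 2 * k) = hilS n S k := by
  rw [hilS_mul' hS, sq, hilS_mul' hS, ← sq, hilS_sq hn hS hc, one_mul]

theorem epsP_four {n : ℕ} (hn : Good n) (k : ℕ) : epsP n (4 * k) = epsP n k := by
  unfold epsP
  have h4 := hn.mod4
  refine prod_congr ?_ fun p hp => ?_
  · refine filter_congr fun p hp => ⟨fun h => ?_, fun h => h.mul_left _⟩
    have hp' := Nat.prime_of_mem_primeFactors hp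
    refine ((Nat.Prime.dvd_mul hp').1 h).resolve_left fun h2 => ?_
    obtain rfl := (Nat.prime_dvd_prime_iff_eq hp' Nat.prime_two).1
      (hp'.dvd_of_dvd_pow (show p ∣ 2 ^ 2 from h2))
    have := Nat.dvd_of_mem_primeFactors hp
    omega
  · have hp1 := (mem_filter.1 hp).1
    push_cast
    rw [hil_mul (Nat.prime_of_mem_primeFactors hp1), show (4 : ℤ) = 2 ^ 2 by norm_num,
      hil_of_sq hn.sqf (Nat.prime_of_mem_primeFactors hp1) (Nat.dvd_of_mem_primeFactors hp1)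
        two_ne_zero, one_mul]

/-- The index set of the convolution sums. -/
def QQ (k : ℕ) : Finset (ℕ × ℕ) :=
  (Icc 1 k ×ˢ Icc 1 k).filter (fun q : ℕ × ℕ => 3 * q.1 + 5 * q.2 = k)

theorem mem_QQ {k : ℕ} {q : ℕ × ℕ} : q ∈ QQ k ↔ 0 < q.1 ∧ 0 < q.2 ∧ 3 * q.1 + 5 * q.2 = k := by
  simp only [QQ, mem_filter, mem_product, mem_Icc]
  omega

/-- The convolution sum that the lattice count produces. -/
def Sg (n m : ℕ) (S : Finset ℕ) : ℤ :=
  ∑ q ∈ QQ (m * n), hilS n S q.2 * rr n (q.1 * q.2) * epsP n (q.1 * q.2)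

theorem Sig_one {n : ℕ} (hn : Good n) (S : Finset ℕ) : Sig n 1 S = Sg n 1 S := by
  have h4 := hn.mod4
  refine sum_congr rfl fun q hq => ?_
  obtain ⟨h1, -, h3⟩ := mem_QQ.1 hq
  rw [rr_mul (by omega) q.1 q.2 h1 fun p hp h1 h2 => by
    simpa using prime_dvd_of hn hp h3 h1 h2]
  ring

theorem Sig_two {n : ℕ} (hn : Good n) {S : Finset ℕ} (hS : S ⊆ n.primeFactors) :
    Sig n 2 S = Sg n 2 S + J(2 | n) * hilS n S 2 * Sg n 1 S := by
  have h4 := hn.mod4
  have e : J(2 | n) * hilS n S 2 * Sg n 1 S = ∑ q ∈ QQ (2 * n), if q.1 % 2 = 0 then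
      J(2 | n) * hilS n S q.2 * rr n (q.1 / 2 * (q.2 / 2)) * epsP n (q.1 * q.2) else 0 := by
    rw [← sum_filter, Sg, mul_sum]
    refine sum_nbij' (fun q => (2 * q.1, 2 * q.2)) (fun q => (q.1 / 2, q.2 / 2)) ?_ ?_ ?_ ?_ ?_
    · intro q hq
      simp only [mem_filter, mem_QQ] at hq ⊢
      omega
    · intro q hq
      simp only [mem_filter, mem_QQ] at hq ⊢
      omega
    · intro q _
      simp
    · intro q hq
      simp only [mem_filter, mem_QQ] at hq
      ext <;> simp only <;> omega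
    · intro q _
      simp only [Nat.mul_div_cancel_left _ two_pos]
      rw [show 2 * q.1 * (2 * q.2) = 4 * (q.1 * q.2) by ring, epsP_four hn]
      push_cast
      rw [hilS_mul' hS]
      ring
  rw [e, Sg, ← sum_add_distrib]
  refine sum_congr rfl fun q hq => ?_
  obtain ⟨h1, h2, h3⟩ := mem_QQ.1 hq
  obtain ⟨a, b⟩ := q
  simp only at h1 h2 h3 ⊢
  split_ifs with h
  · obtain ⟨a, rfl⟩ : ∃ c, a = 2 * c := ⟨a / 2, by omega⟩
    obtain ⟨b, rfl⟩ : ∃ c, b = 2 * c := ⟨b / 2, by omega⟩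
    simp only [Nat.mul_div_cancel_left _ two_pos]
    rw [mul_assoc _ (rr n (2 * a)), rr_even hn (by omega) (by omega) (by omega)]
    ring
  · rw [rr_mul (by omega) a b h1 fun p hp h1 h2 => ?_]
    · ring
    · rcases (Nat.Prime.dvd_mul hp).1 (prime_dvd_of hn hp h3 h1 h2) with h5 | h5
      · obtain rfl := (Nat.prime_dvd_prime_iff_eq hp Nat.prime_two).1 h5
        omega
      · exact h5

/-- The weight of a pair of vectors with inner product `t`. -/
def FF (n m : ℕ) (S : Finset ℕ) (t : ℤ) : ℤ :=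
  if (3 : ℤ) ∣ m * n - t ∧ (5 : ℤ) ∣ m * n + t then hilS n S (2 * m * (m * n + t)) else 0

/-- The weighted number of pairs. -/
noncomputable def ZZ (G : M3) (n m : ℕ) (S : Finset ℕ) : ℤ :=
  ∑ x ∈ XX G n, ∑ w ∈ XX G (m ^ 2 * n), FF n m S (bil G x w)

theorem binet {G : M3} (hG : Ev30 G) (a b c : V3) :
    bil G c c * bil G a b - bil G c a * bil G c b
      = 30 * (crossProduct c a ⬝ᵥ (G *ᵥ crossProduct c b)) := by
  obtain ⟨A, B, C, s1, s2, r, rfl⟩ := hG.exists_form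
  rw [← hG.2.2, det_form]
  simp only [bil_form]
  simp [form, cross_apply, dotProduct, mulVec, Fin.sum_univ_three]
  ring

theorem even_form {G : M3} (hG : Ev30 G) (v : V3) : Even (v ⬝ᵥ (G *ᵥ v)) := by
  obtain ⟨A, B, C, s1, s2, r, rfl⟩ := hG.exists_form
  refine ⟨A * v 0 ^ 2 + B * v 1 ^ 2 + C * v 2 ^ 2 + s1 * v 0 * v 1 + s2 * v 0 * v 2
    + r * v 1 * v 2, ?_⟩
  simp [form, dotProduct, mulVec, Fin.sum_univ_three]
  ring

theorem FF_eq_sum {n m : ℕ} (hn : Good n) (hm : m = 1 ∨ m = 2) (S : Finset ℕ) {t Q : ℤ}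
    (hQ : 0 ≤ Q) (h : ((m : ℤ) * n) ^ 2 - t ^ 2 = 60 * Q) :
    FF n m S t = ∑ q ∈ QQ (m * n),
      if t = 5 * q.2 - 3 * q.1 then hilS n S (20 * m * q.2) else 0 := by
  have h3 : n % 3 ≠ 0 := fun h0 => by
    have := Nat.eq_one_of_dvd_coprimes hn.cop (Nat.dvd_of_mod_eq_zero h0) (by norm_num)
    omega
  have h5 : n % 5 ≠ 0 := fun h0 => by
    have := Nat.eq_one_of_dvd_coprimes hn.cop (Nat.dvd_of_mod_eq_zero h0) (by norm_num)
    omega
  unfold FF
  split_ifs with hc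
  · have h2 : (2 : ℤ) ∣ m * n - t := by
      have : Even (((m : ℤ) * n - t) * (m * n + t)) := ⟨30 * Q, by linear_combination h⟩
      rcases Int.even_mul.1 this with ⟨k, hk⟩ | ⟨k, hk⟩ <;> omega
    obtain ⟨a, ha⟩ : (6 : ℤ) ∣ m * n - t := by omega
    obtain ⟨b, hb⟩ : (10 : ℤ) ∣ m * n + t := by omega
    have hab : a * b = Q := by
      have : 60 * (a * b) = 60 * Q := by
        rw [← h]; linear_combination (-(m * n + t)) * ha - 6 * a * hb
      omega
    have ha0 : a ≠ 0 := by rcases hm with rfl | rfl <;> omega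
    have hb0 : b ≠ 0 := by rcases hm with rfl | rfl <;> omega
    have hsum : 0 < 3 * a + 5 * b := by rcases hm with rfl | rfl <;> omega
    have hapos : 0 < a := by
      by_contra h0
      have : a < 0 := by omega
      have : 0 < b := by omega
      nlinarith
    have hbpos : 0 < b := by
      by_contra h0
      have : b < 0 := by omega
      nlinarith
    obtain ⟨a, rfl⟩ := Int.eq_ofNat_of_zero_le hapos.le
    obtain ⟨b, rfl⟩ := Int.eq_ofNat_of_zero_le hbpos.le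
    rw [sum_eq_single (a, b)]
    · rw [if_pos (by simp only; omega), hb]
      congr 1
      ring
    · intro q hq hne
      rw [if_neg]
      intro ht
      apply hne
      obtain ⟨-, -, h6⟩ := mem_QQ.1 hq
      zify at h6
      ext <;> simp only <;> omega
    · intro hq
      exfalso
      apply hq
      rw [mem_QQ]
      zify
      omega
  · symm
    refine sum_eq_zero fun q hq => if_neg fun ht => hc ?_
    obtain ⟨-, -, h6⟩ := mem_QQ.1 hq
    zify at h6
    omega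

theorem ZZ_eq {G : M3} (hG : IsTQ G) (hX : ∀ {k : ℕ} {x : V3}, x ∈ XX G k ↔ bil G x x = k)
    {n m : ℕ} (hn : Good n) (hm : m = 1 ∨ m = 2) (S : Finset ℕ) :
    ZZ G n m S = ∑ q ∈ QQ (m * n),
      (cnt G n (m ^ 2 * n) (5 * q.2 - 3 * q.1) : ℤ) * hilS n S (20 * m * q.2) := by
  have hE : Ev30 G := ⟨hG.symm, hG.even, hG.det⟩
  unfold ZZ cnt
  rw [← sum_product']
  simp only [card_filter, Nat.cast_sum, sum_mul]
  rw [sum_comm]
  refine sum_congr rfl fun v hv => ?_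
  obtain ⟨hx, hw⟩ := mem_product.1 hv
  obtain ⟨Q, hQ⟩ := even_form hE (crossProduct v.1 v.2)
  have h0 : 0 ≤ crossProduct v.1 v.2 ⬝ᵥ (G *ᵥ crossProduct v.1 v.2) := by
    by_cases h : crossProduct v.1 v.2 = 0
    · simp [h]
    · exact (hG.pos _ h).le
  have h1 := binet hE v.2 v.2 v.1
  rw [hX.1 hx, hX.1 hw, hQ] at h1
  rw [FF_eq_sum hn hm S (Q := Q) (by omega) (by push_cast at h1; linear_combination h1)]
  refine sum_congr rfl fun q _ => ?_
  split_ifs <;> simp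

theorem ZZ_sum {n m : ℕ}
    (hn : Good n) (hm : m = 1 ∨ m = 2) {S : Finset ℕ} (hS : S ⊆ n.primeFactors) :
    3 * ZZ G1 n m S + ZZ G2 n m S + 3 * ZZ G3 n m S = 12 * hilS n S (5 * m) * Sg n m S := by
  rw [ZZ_eq isTQ_G1 mem_XX1 hn hm, ZZ_eq isTQ_G2 mem_XX2 hn hm, ZZ_eq isTQ_G3 mem_XX3 hn hm, Sg,
    mul_sum, mul_sum, mul_sum, ← sum_add_distrib, ← sum_add_distrib]
  refine sum_congr rfl fun q hq => ?_
  obtain ⟨h1, h2, h3⟩ := mem_QQ.1 hq
  have h := count (n2 := m ^ 2 * n) (M := q.1 * q.2) (t := 5 * q.2 - 3 * q.1) hn (by positivity) (by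
    zify at h3
    push_cast
    linear_combination (-(m * n : ℤ) - 3 * q.1 - 5 * q.2) * h3)
  push_cast at h
  rw [show (20 * m * q.2 : ℤ) = 2 ^ 2 * (5 * m * q.2) by ring, hilS_sq_mul hn hS two_ne_zero,
    hilS_mul' hS]
  linear_combination (hilS n S (5 * m) * hilS n S q.2) * h

end Pool.Agent.Lib.MP_696deb_nt.Tern
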