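import Pool.Agent.Lib.MP_696deb_nt.IndStab
import Pool.Agent.Lib.MP_696deb_nt.IndBeta
import Pool.Agent.Lib.MP_696deb_nt.AnForms

set_option autoImplicit false

open Finset Matrix NumberTheorySymbols

namespace Pool.Agent.Lib.MP_696deb_nt.Ind

open Tern

theorem wt_field {F : Type*} [Field F] [Fintype F] [DecidableEq F] (h2 : (2 : F) ≠ 0)
    {a b c α β γ : F} (h : b ^ 2 - 4 * a * c = 0) (h' : β ^ 2 - 4 * α * γ = 0)
    (ht : b * β - 2 * a * γ - 2 * c * α ≠ 0) :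
    (if a = 0 then quadraticChar F c else quadraticChar F a) *
      (if α = 0 then quadraticChar F γ else quadraticChar F α) =
      quadraticChar F (-2 * (b * β - 2 * a * γ - 2 * c * α)) := by
  have key : ∀ u : F, quadraticChar F (2 ^ 2 * u) = quadraticChar F u := fun u => by
    rw [map_mul, quadraticChar_sq_one' h2, one_mul]
  split_ifs with h1 h3 h3
  · subst h1 h3
    obtain rfl : b = 0 := by simpa using h
    simp at ht
  · subst h1
    obtain rfl : b = 0 := by simpa using h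
    rw [← map_mul, ← key]
    congr 1
    ring
  · subst h3
    obtain rfl : β = 0 := by simpa using h'
    rw [← map_mul, ← key]
    congr 1
    ring
  · rw [← map_mul]
    exact chi_eq_of_sq (w := a * β - b * α)
      (mul_ne_zero (mul_ne_zero h1 h3) (mul_ne_zero (neg_ne_zero.2 h2) ht))
      (by linear_combination -α ^ 2 * h - a ^ 2 * h')

theorem wt_ndvd {p : ℕ} (hp : p.Prime) (h2 : (2 : ZMod p) ≠ 0) {Q R : Fm}
    (hQ : (p : ℤ) ∣ fdisc Q) (hR : (p : ℤ) ∣ fdisc R) (ht : ¬ (p : ℤ) ∣ fbil Q R) :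
    (if (p : ℤ) ∣ Q.1 then J(Q.2.2 | p) else J(Q.1 | p)) *
      (if (p : ℤ) ∣ R.1 then J(R.2.2 | p) else J(R.1 | p)) = J(-2 * fbil Q R | p) := by
  have := Fact.mk hp
  simp only [← ZMod.intCast_zmod_eq_zero_iff_dvd, fdisc, fbil, jac_eq] at hQ hR ht ⊢
  push_cast at hQ hR ht ⊢
  exact wt_field h2 hQ hR ht

theorem wt_dvd {p : ℕ} (hp : p.Prime) {Q R : Fm} (hQ : (p : ℤ) ∣ fdisc Q)
    (hQ' : ¬ (p : ℤ) * p ∣ fdisc Q) {u : ℤ} (h1 : (p : ℤ) ∣ R.1 - u * Q.1)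
    (h3 : (p : ℤ) ∣ R.2.2 - u * Q.2.2) :
    (if (p : ℤ) ∣ Q.1 then J(Q.2.2 | p) else J(Q.1 | p)) *
      (if (p : ℤ) ∣ R.1 then J(R.2.2 | p) else J(R.1 | p)) = J(u | p) := by
  have hP := Nat.prime_iff_prime_int.1 hp
  have e1 : J(R.1 | p) = J(u | p) * J(Q.1 | p) := by
    rw [← jacobiSym.mul_left]; exact jacobiSym.mod_left' (Int.modEq_iff_dvd.2 h1).symm
  have e3 : J(R.2.2 | p) = J(u | p) * J(Q.2.2 | p) := by
    rw [← jacobiSym.mul_left]; exact jacobiSym.mod_left' (Int.modEq_iff_dvd.2 h3).symm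
  by_cases h : (p : ℤ) ∣ Q.1
  · have h4 : ¬ (p : ℤ) ∣ Q.2.2 := fun h4 => hQ' (by
      have h5 : (p : ℤ) * p ∣ 4 * Q.1 * Q.2.2 := mul_dvd_mul (h.mul_left 4) h4
      have h6 : (p : ℤ) ∣ Q.2.1 := hP.dvd_of_dvd_pow (n := 2) (by
        simpa [fdisc] using hQ.add ((dvd_mul_right _ _).trans h5))
      exact dvd_sub (by rw [sq]; exact mul_dvd_mul h6 h6) h5)
    rw [if_pos h, if_pos (by simpa using h1.add (h.mul_left u)), e3]
    linear_combination J(u | p) * jac_sq hp h4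
  · rw [if_neg h]
    split_ifs with h4
    · have h5 : (p : ℤ) ∣ u := (hP.dvd_or_dvd (by simpa using h4.sub h1)).resolve_right h
      rw [e3, show J(u | p) = 0 by
        rw [jacobiSym.mod_left, Int.emod_eq_zero_of_dvd h5, jacobiSym.zero_left hp.one_lt]]
      ring
    · rw [e1]
      linear_combination J(u | p) * jac_sq hp h

open Classical in
/-- The finite set of parameters of normal forms. -/
noncomputable def canSet (n d M : ℕ) (t : ℤ) : Finset (ℕ × ℕ × ℕ) :=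
  (Icc 1 M ×ˢ range M ×ˢ range n).filter (CanOK n d M t)

theorem mem_canSet {n d M : ℕ} {t : ℤ} (hM : 0 < M) {c : ℕ × ℕ × ℕ} :
    c ∈ canSet n d M t ↔ CanOK n d M t c := by
  classical
  rw [canSet, mem_filter]
  refine ⟨fun h => h.2, fun h => ⟨?_, h⟩⟩
  obtain ⟨h1, h2, h3, -, h5, -, -⟩ := h
  simp only [mem_product, mem_Icc, mem_range]
  have := Nat.le_of_dvd hM h2
  exact ⟨⟨h1, by nlinarith⟩, h3.trans_le (Nat.div_le_self _ _), h5⟩

theorem sum_canSet {n A d M : ℕ} {t n2 : ℤ} (hn : Good n) (hd : 4 * d = n + 1) (hM : 0 < M)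
    (hA : (A : ℤ) ∣ n2) (ht : t ^ 2 - n * n2 = 60 * M) :
    ∑ c ∈ canSet n d M (-t), ∏ p ∈ n.primeFactors, omP A t (canW n M (-t) c 0) p =
      CF n A t M := by
  classical
  rw [canSet, sum_filter, sum_product, CF, rr, ← sum_rho hd hn.sqf hM, sum_filter, sum_mul]
  refine sum_congr rfl fun e he => ?_
  have he0 : 0 < e := (mem_Icc.1 he).1
  by_cases h2 : e ^ 2 ∣ M
  swap
  · rw [if_neg h2, zero_mul]
    exact sum_eq_zero fun q _ => if_neg fun h => h2 h.2.1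
  rw [if_pos h2, sum_product, rho, sum_mul]
  have hm : e ^ 2 * (M / e ^ 2) = M := Nat.mul_div_cancel' h2
  have hm0 : 0 < M / e ^ 2 := Nat.pos_of_mul_pos_left (hm.symm ▸ hM)
  rw [← sum_subset (range_subset_range.2 (Nat.div_le_self M (e ^ 2)))]
  · refine sum_congr rfl fun y hy => ?_
    by_cases h4 : M / e ^ 2 ∣ y ^ 2 + y + d
    swap
    · rw [if_neg h4, zero_mul]
      exact sum_eq_zero fun q _ => if_neg fun h => h4 h.2.2.2.1
    have := beta_count hn hd hm0 he0 h4 hA (t := t) (by rw [hm]; exact ht)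
    rw [hm] at this
    rw [if_pos h4, one_mul, ← this]
    refine sum_congr rfl fun j hj => if_congr ?_ rfl rfl
    exact ⟨fun h => h.2.2.2.2.2, fun h => ⟨he0, h2, mem_range.1 hy, h4, mem_range.1 hj, h⟩⟩
  · intro y _ hy
    exact sum_eq_zero fun q _ => if_neg fun h => hy (mem_range.2 h.2.2.1)

theorem Rel.symm {G G' : M3} {x w x' w' : V3} (h : Rel G x w G' x' w') : Rel G' x' w' G x w := by
  obtain ⟨g, rfl, rfl, rfl⟩ := h
  have h1 : ∀ v : V3, (g⁻¹).1 *ᵥ (g.1 *ᵥ v) = v := fun v => by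
    rw [mulVec_mulVec]
    change (g⁻¹ * g).1 *ᵥ v = v
    simp
  exact ⟨g⁻¹, by rw [← act_act]; simp, h1 x, h1 w⟩

theorem fam_fbil {D ρ e β : ℤ} {Q R : Fm} (hQ : Fam D ρ Q) (hR : Fam e β R) :
    30 ∣ fbil Q R - ρ * β := by
  obtain ⟨⟨a, h1⟩, -, ⟨k, h2⟩⟩ := hQ
  obtain ⟨⟨a', h3⟩, -, ⟨k', h4⟩⟩ := hR
  refine ⟨k * R.2.1 + ρ * k' - a * R.2.2 - Q.2.2 * a', ?_⟩
  rw [fbil, h1, h3]
  linear_combination R.2.1 * h2 + ρ * h4

theorem cop_of_sq {n : ℕ} (hn : Good n) {ρ : ℤ} (h : 60 ∣ ρ ^ 2 + n) : IsCoprime (30 : ℤ) ρ := by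
  obtain ⟨k, hk⟩ := h
  obtain ⟨u, v, huv⟩ := Nat.isCoprime_iff_coprime.2 (Good.coprime30 hn)
  push_cast at huv
  exact ⟨v + 2 * k * u, -u * ρ, by linear_combination huv - u * hk⟩

section main

variable {n A d M : ℕ} {ρ e β t : ℤ} {T : Finset Fm}

theorem inv_frm {x w : V3} (hx : fdisc (frm x) = -n) (hw : fdisc (frm w) = e)
    (h : fbil (frm x) (frm w) = t) : Inv n (-e) (-t) H0 x w :=
  ⟨evM_H0, by rw [bil_H0, fbil_self, hx, neg_neg], by rw [bil_H0, fbil_self, hw],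
    by rw [bil_H0, h]⟩

theorem frm_inv {x w : V3} (h : Inv n (-e) (-t) H0 x w) :
    fdisc (frm x) = -n ∧ fdisc (frm w) = e ∧ fbil (frm x) (frm w) = t := by
  obtain ⟨-, h1, h2, h3⟩ := h
  rw [bil_H0] at h1 h2 h3
  rw [fbil_self] at h1 h2
  exact ⟨by linarith, by linarith, by linarith⟩

/-- Every normal form comes from a pair of forms. -/
theorem exists_pair (hn : Good n) (hd : 4 * d = n + 1) (hρ : 60 ∣ ρ ^ 2 + n)
    (hT : FReps (-n) ρ T) (ht : (-t) ^ 2 - n * -e = 60 * M) (h30 : 30 ∣ t - ρ * β)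
    {c : ℕ × ℕ × ℕ} (hc : CanOK n d M (-t) c) : ∃ x w, frm x ∈ T ∧ Fam e β (frm w) ∧
      fbil (frm x) (frm w) = t ∧ Rel H0 x w (canG n d M c) ![1, 0, 0] (canW n M (-t) c) := by
  have h1 := can_inv hd ht hc
  have hc3 : ρ % 3 ≠ 0 := fun h => by
    obtain ⟨u, v, huv⟩ := cop_of_sq hn hρ
    obtain ⟨k, rfl⟩ := Int.dvd_of_emod_eq_zero h
    have : 3 * (10 * u + v * k) = 1 := by linear_combination huv
    omega
  obtain ⟨g, hg⟩ := iso (cond_of h1.1 (x := ![1, 0, 0]) (by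
    rw [h1.2.1]
    have : ρ ^ 2 % 3 = 1 := by
      have : ρ % 3 = 1 ∨ ρ % 3 = 2 := by omega
      rcases this with h | h <;> simp [pow_two, Int.mul_emod, h]
    omega) ⟨![0, 1, 0], by
      have := hc.2.2.1
      rw [canG, quad_form]
      simp only [cons_val_zero, cons_val_one, Matrix.cons_val]
      omega⟩)
  have r1 : Rel (canG n d M c) ![1, 0, 0] (canW n M (-t) c) H0 _ _ := ⟨g, hg, rfl, rfl⟩
  generalize g.1 *ᵥ ![1, 0, 0] = x at r1
  generalize g.1 *ᵥ canW n M (-t) c = w at r1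
  obtain ⟨g2, hg2, o2⟩ := exists_orient (x := x) (ρ := ρ) (by
    have h2 := (frm_inv (h1.rel r1)).1
    obtain ⟨k, hk⟩ := hρ
    simp only [fdisc, frm] at h2
    exact ⟨x 0 * x 2 - k, by linear_combination h2 - hk⟩)
  have r2 := r1.trans ⟨g2, hg2, rfl, rfl⟩
  generalize g2.1 *ᵥ x = x at r2 o2
  generalize g2.1 *ᵥ w = w at r2
  obtain ⟨g3, hg3, s3, o3⟩ := exists_sign (x := x) fun h => by
    have h2 := (frm_inv (h1.rel r2)).1
    have h3 := hn.mod4
    simp only [fdisc, frm, h] at h2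
    have : (0 : ℤ) < n := by omega
    nlinarith [sq_nonneg (x 1)]
  have r3 := r2.trans ⟨g3, hg3, rfl, rfl⟩
  rw [← o3] at o2
  generalize g3.1 *ᵥ x = x at r3 o2 s3
  generalize g3.1 *ᵥ w = w at r3
  obtain ⟨Q, hQ, hF⟩ := hT.ex (frm x) ⟨dvd_mul_right _ _, (frm_inv (h1.rel r3)).1, o2⟩
    (by simp only [frm]; omega)
  obtain ⟨a, b, c', d', h4, h5⟩ := hF.symm
  have r4 := r3.trans ⟨rhoG a b c' d' h4, rhoG_H0 h4, rfl, rfl⟩
  rw [← frm_rhoG h4] at h5
  generalize (rhoG a b c' d' h4).1 *ᵥ x = x at r4 h5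
  generalize (rhoG a b c' d' h4).1 *ᵥ w = w at r4
  subst h5
  obtain ⟨-, h6, h7⟩ := frm_inv (h1.rel r4)
  refine ⟨x, w, hQ, ⟨dvd_mul_right _ _, h6, ?_⟩, h7, Rel.symm r4⟩
  have h8 := fam_fbil (hT.fam _ hQ) (R := frm w) (β := w 1) ⟨dvd_mul_right _ _, h6, by simp [frm]⟩
  rw [h7] at h8
  refine (cop_of_sq hn hρ).dvd_of_dvd_mul_left ?_
  convert h30.sub h8 using 1
  simp only [frm]
  ring

/-- Two pairs with the same normal form are equal. -/
theorem pair_unique (hn : Good n) (hρ : 60 ∣ ρ ^ 2 + n) (hT : FReps (-n) ρ T) {x w x' w' : V3}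
    (hx : frm x ∈ T) (hx' : frm x' ∈ T) (h : Rel H0 x w H0 x' w') :
    frm x = frm x' ∧ frm w = frm w' := by
  obtain ⟨g, hg, rfl, rfl⟩ := h
  have h1 := hT.fam _ hx
  have h2 := hT.fam _ hx'
  have h3 := hT.pos _ hx
  have h4 := hT.pos _ hx'
  have hD : fdisc (frm x) < 0 := by have := hn.mod4; rw [h1.2.1]; omega
  simp only [frm] at h3 h4
  obtain ⟨a, b, c, d, h5, h6⟩ := stab hg hD (by omega) (by omega)
    (by simpa [frm] using h2.2.2.sub h1.2.2) (by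
      obtain ⟨k, hk⟩ := h1.2.2
      obtain ⟨u, v, huv⟩ := cop_of_sq hn hρ
      simp only [frm] at hk
      exact ⟨2 * u - 2 * k * v, v, by linear_combination huv + v * hk⟩)
  have h7 := hT.uniq _ hx _ hx' ⟨a, b, c, d, h5, h6 x⟩
  exact ⟨h7, by rw [h6, free_neg hD h5 (by rw [← h6, ← h7])]⟩

theorem frm_inj {x y : V3} (h : frm x = frm y) : x = y := by
  simp only [frm, Prod.mk.injEq] at h
  ext i
  fin_cases i
  · simpa using h.1
  · exact h.2.1
  · exact h.2.2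

theorem weight_eq (hn : Good n) (hA : A ∣ n) (hd : 4 * d = n + 1) (he : (A : ℤ) ∣ e)
    (ht : (-t) ^ 2 - n * -e = 60 * M) {c : ℕ × ℕ × ℕ} (hc : CanOK n d M (-t) c) {x w : V3}
    (h : Rel H0 x w (canG n d M c) ![1, 0, 0] (canW n M (-t) c)) :
    gch A (frm x) * gch A (frm w) = ∏ p ∈ n.primeFactors, omP A t (canW n M (-t) c 0) p := by
  obtain ⟨h1, h2, h3⟩ := frm_inv ((can_inv hd ht hc).rel (Rel.symm h))
  simp only [omP]
  rw [← prod_filter, Nat.primeFactors_filter_dvd_of_dvd hn.sqf.ne_zero hA, gch, gch,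
    ← prod_mul_distrib]
  refine prod_congr rfl fun p hp' => ?_
  have hp := Nat.prime_of_mem_primeFactors hp'
  have hpA := Nat.dvd_of_mem_primeFactors hp'
  have hpn := hpA.trans hA
  have h4 : (p : ℤ) ∣ fdisc (frm x) := h1 ▸ (Int.natCast_dvd_natCast.2 hpn).neg_right
  have h5 : (p : ℤ) ∣ e := (Int.natCast_dvd_natCast.2 hpA).trans he
  by_cases h6 : (p : ℤ) ∣ t
  swap
  · rw [if_neg h6, ← h3]
    exact wt_ndvd hp (small_ne_zero (Good.coprime30 hn) hp hpn).1 h4 (h2 ▸ h5) (h3 ▸ h6)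
  rw [if_pos h6]
  have h7 : p ∣ c.1 := dvd_e hn hd hc.2.2.2.1 (t := -t) (n2 := -e)
    (by rw [Nat.mul_div_cancel' hc.2.1]; exact ht) hp hpn h5.neg_right h6.neg_right
  obtain ⟨g, -, rfl, rfl⟩ := Rel.symm h
  have h8 : ∀ i, (p : ℤ) ∣ (g.1 *ᵥ canW n M (-t) c) i -
      canW n M (-t) c 0 * (g.1 *ᵥ ![1, 0, 0]) i := fun i => by
    obtain ⟨k, hk⟩ := h7
    refine ⟨-(g.1 i 2 * k), ?_⟩
    simp only [mulVec_three, canW, cons_val_zero, cons_val_one, Matrix.cons_val, hk]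
    push_cast
    ring
  refine wt_dvd hp h4 (fun h9 => ?_) ?_ (h8 2)
  · rw [h1, dvd_neg] at h9
    exact hp.not_isUnit (hn.sqf p (by exact_mod_cast h9))
  · simpa only [frm, mul_sub, mul_left_comm] using (h8 0).mul_left 15

end main

end Pool.Agent.Lib.MP_696deb_nt.Ind

namespace Pool.Agent.Lib.MP_696deb_nt

open Ind Tern

/-- The closed form of the weighted count of pairs of forms. -/
theorem cntP_eq {n A : ℕ} (hn : Good n) (hA : A ∣ n) {ρ : ℤ} (hρ : 60 ∣ ρ ^ 2 + n)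
    {T : Finset Fm} (hT : FReps (-n) ρ T) {e β t : ℤ} (he : (A : ℤ) ∣ e) {M : ℕ} (hM : 0 < M)
    (ht : t ^ 2 + n * e = 60 * M) :
    cntP T (gch A) (wG A e β) t = if 30 ∣ t - ρ * β then CF n A t M else 0 := by
  classical
  split_ifs with h30
  swap
  · refine sum_eq_zero fun Q hQ => mul_eq_zero_of_right _
      (finsum_eq_zero_of_forall_eq_zero fun R => ?_)
    split_ifs with h
    · exact if_neg fun h1 => h30 (h ▸ fam_fbil (hT.fam Q hQ) h1)
    · rfl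
  obtain ⟨d, hd⟩ : ∃ d, 4 * d = n + 1 := ⟨(n + 1) / 4, by have := hn.mod4; omega⟩
  have ht' : (-t) ^ 2 - n * -e = 60 * M := by linear_combination ht
  rw [← sum_canSet hn hd hM he.neg_right (by linear_combination ht)]
  choose! x w h1 h2 h3 h4 using fun c (hc : c ∈ Ind.canSet n d M (-t)) =>
    exists_pair hn hd hρ hT ht' h30 ((Ind.mem_canSet hM).1 hc)
  set S := Ind.canSet n d M (-t) with hS
  have hsurj : ∀ Q ∈ T, ∀ R, MP_696deb_nt.Fam e β R → fbil Q R = t →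
      ∃ c ∈ S, frm (x c) = Q ∧ frm (w c) = R := fun Q hQ R hR h => by
    obtain ⟨x', rfl⟩ := exists_frm (hT.fam Q hQ).1
    obtain ⟨w', rfl⟩ := exists_frm hR.1
    obtain ⟨c, hc, r⟩ := Ind.exists_can hd hn.sqf hM ht' (inv_frm (hT.fam _ hQ).2.1 hR.2.1 h)
    have hc' := (Ind.mem_canSet hM).2 hc
    exact ⟨c, hc', pair_unique hn hρ hT (h1 c hc') hQ ((h4 c hc').trans (Ind.Rel.symm r))⟩
  have hinj : ∀ c ∈ S, ∀ c' ∈ S, frm (x c) = frm (x c') → frm (w c) = frm (w c') → c = c' :=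
    fun c hc c' hc' e1 e2 => by
      have r := h4 c' hc'
      rw [← frm_inj e1, ← frm_inj e2] at r
      obtain ⟨g, f1, f2, f3⟩ := (Ind.Rel.symm (h4 c hc)).trans r
      exact (Ind.can_unique hd hn.sqf ((Ind.mem_canSet hM).1 hc) ((Ind.mem_canSet hM).1 hc') g f1
        f2 f3).2
  rw [← sum_fiberwise_of_maps_to (s := S) (t := T) (g := fun c => frm (x c)) h1]
  refine sum_congr rfl fun Q hQ => ?_
  rw [finsum_eq_sum_of_support_subset
    (s := (S.filter fun c => frm (x c) = Q).image fun c => frm (w c)), sum_image, mul_sum]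
  · refine sum_congr rfl fun c hc0 => ?_
    obtain ⟨hc, rfl⟩ := mem_filter.1 hc0
    rw [if_pos (h3 c hc), wG, if_pos (h2 c hc)]
    exact Ind.weight_eq hn hA hd he ht' ((Ind.mem_canSet hM).1 hc) (h4 c hc)
  · intro c hc c' hc' h
    obtain ⟨hc, e1⟩ := mem_filter.1 hc
    obtain ⟨hc', e2⟩ := mem_filter.1 hc'
    exact hinj c hc c' hc' (e1.trans e2.symm) h
  · intro R hR
    rw [Function.mem_support] at hR
    have h5 : fbil Q R = t := by by_contra h; exact hR (if_neg h)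
    rw [if_pos h5] at hR
    obtain ⟨c, hc, e1, e2⟩ := hsurj Q hQ R (by by_contra h; exact hR (if_neg h)) h5
    exact mem_coe.2 (mem_image.2 ⟨c, mem_filter.2 ⟨hc, e1⟩, e2⟩)

end Pool.Agent.Lib.MP_696deb_nt
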