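import Pool.Agent.Lib.MP_696deb_nt.Redei

set_option autoImplicit false

open Finset Matrix

namespace Pool.Agent.Lib.MP_696deb_nt

/-- Reduced binary quadratic forms `a x^2 + b x y + c y^2`. -/
def IsReduced3 (a b c : ℤ) : Prop := |b| ≤ a ∧ a ≤ c ∧ (|b| = a ∨ a = c → 0 ≤ b)

instance (a b c : ℤ) : Decidable (IsReduced3 a b c) := by unfold IsReduced3; infer_instance

/-- Every positive definite form is properly equivalent to a reduced form. -/
theorem exists_reduced {n : ℤ} (hn : 0 < n) : ∀ (m : ℕ) (a b c : ℤ), a ≤ m → 0 < a →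
    b ^ 2 - 4 * a * c = -n → ∃ p q r s : ℤ, p * s - q * r = 1 ∧
      IsReduced3 (a * p ^ 2 + b * p * r + c * r ^ 2) (2 * a * p * q + b * (p * s + q * r) + 2 * c * r * s)
        (a * q ^ 2 + b * q * s + c * s ^ 2) := by
  intro m
  induction m with
  | zero => intro a b c h1 h2; omega
  | succ m ih =>
    intro a b c h1 h2 hD
    obtain ⟨k, hk1, hk2⟩ : ∃ k : ℤ, -a < b + 2 * a * k ∧ b + 2 * a * k ≤ a := by
      refine ⟨(a - b) / (2 * a), ?_, ?_⟩
      · have := Int.lt_mul_ediv_self_add (x := a - b) (k := 2 * a) (by omega)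
        linarith
      · have := Int.mul_ediv_self_le (x := a - b) (k := 2 * a) (by omega)
        linarith
    set b' := b + 2 * a * k with hb'
    set c' := a * k ^ 2 + b * k + c with hc'
    have hD' : b' ^ 2 - 4 * a * c' = -n := by rw [hb', hc']; linear_combination hD
    have hc0 : 0 < c' := by
      by_contra h
      have : 0 ≤ a * -c' := mul_nonneg h2.le (by omega)
      nlinarith [sq_nonneg b']
    rcases lt_trichotomy a c' with h | h | h
    · refine ⟨1, k, 0, 1, by ring, ?_⟩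
      have e1 : a * 1 ^ 2 + b * 1 * 0 + c * 0 ^ 2 = a := by ring
      have e2 : 2 * a * 1 * k + b * (1 * 1 + k * 0) + 2 * c * 0 * 1 = b' := by rw [hb']; ring
      have e3 : a * k ^ 2 + b * k * 1 + c * 1 ^ 2 = c' := by rw [hc']; ring
      rw [e1, e2, e3]
      refine ⟨abs_le.mpr ⟨by omega, hk2⟩, h.le, ?_⟩
      rintro (h' | h')
      · rcases abs_cases b' with h'' | h'' <;> omega
      · omega
    · by_cases hb0 : 0 ≤ b'
      · refine ⟨1, k, 0, 1, by ring, ?_⟩
        have e1 : a * 1 ^ 2 + b * 1 * 0 + c * 0 ^ 2 = a := by ring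
        have e2 : 2 * a * 1 * k + b * (1 * 1 + k * 0) + 2 * c * 0 * 1 = b' := by rw [hb']; ring
        have e3 : a * k ^ 2 + b * k * 1 + c * 1 ^ 2 = c' := by rw [hc']; ring
        rw [e1, e2, e3]
        exact ⟨abs_le.mpr ⟨by omega, hk2⟩, h.le, fun _ => hb0⟩
      · refine ⟨k, -1, 1, 0, by ring, ?_⟩
        have e1 : a * k ^ 2 + b * k * 1 + c * 1 ^ 2 = c' := by rw [hc']; ring
        have e2 : 2 * a * k * -1 + b * (k * 0 + -1 * 1) + 2 * c * 1 * 0 = -b' := by rw [hb']; ring
        have e3 : a * (-1) ^ 2 + b * (-1) * 0 + c * 0 ^ 2 = a := by ring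
        rw [e1, e2, e3]
        exact ⟨abs_le.mpr ⟨by omega, by omega⟩, h.ge, fun _ => by omega⟩
    · obtain ⟨p, q, r, s, hdet, hred⟩ := ih c' (-b') a (by omega) hc0 (by linear_combination hD')
      refine ⟨k * p - r, k * q - s, p, q, by linear_combination hdet, ?_⟩
      convert hred using 1 <;> simp only [hb', hc'] <;> ring

theorem reduced_lower {a b c x y : ℤ} (h1 : |b| ≤ a) (h2 : a ≤ c) (hx : x ≠ 0) (hy : y ≠ 0) :
    a - |b| + c ≤ a * x ^ 2 + b * x * y + c * y ^ 2 := by
  have hb := abs_nonneg b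
  have e : -(|b| * |x| * |y|) ≤ b * x * y := by
    rw [← abs_mul, ← abs_mul]; exact neg_abs_le _
  have hx1 : 1 ≤ |x| := Int.one_le_abs hx
  have hy1 : 1 ≤ |y| := Int.one_le_abs hy
  rw [← sq_abs x, ← sq_abs y]
  generalize |x| = X at *
  generalize |y| = Y at *
  generalize |b| = B at *
  have hX : 1 ≤ X ^ 2 := by nlinarith
  have hY : 1 ≤ Y ^ 2 := by nlinarith
  rcases le_total X Y with h | h
  · have : B * X * Y ≤ B * Y ^ 2 := by
      rw [mul_assoc]; exact mul_le_mul_of_nonneg_left (by nlinarith) hb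
    nlinarith [mul_le_mul_of_nonneg_left hX (show 0 ≤ a by omega),
      mul_le_mul_of_nonneg_left hY (show 0 ≤ c - B by omega)]
  · have : B * X * Y ≤ B * X ^ 2 := by
      rw [mul_assoc]; exact mul_le_mul_of_nonneg_left (by nlinarith) hb
    nlinarith [mul_le_mul_of_nonneg_left hX (show 0 ≤ a - B by omega),
      mul_le_mul_of_nonneg_left hY (show 0 ≤ c by omega)]

theorem reduced_min {a b c x y : ℤ} (h1 : |b| ≤ a) (h2 : a ≤ c) (hxy : ¬ (x = 0 ∧ y = 0)) :
    a ≤ a * x ^ 2 + b * x * y + c * y ^ 2 := by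
  have hb := abs_nonneg b
  by_cases hx : x = 0
  · have hy : y ≠ 0 := fun h => hxy ⟨hx, h⟩
    have : 1 ≤ y ^ 2 := by have : 0 < y ^ 2 := by positivity
                           omega
    rw [hx]; nlinarith
  by_cases hy : y = 0
  · have : 1 ≤ x ^ 2 := by have : 0 < x ^ 2 := by positivity
                           omega
    rw [hy]; nlinarith
  have := reduced_lower h1 h2 hx hy
  omega

/-- Two properly equivalent reduced forms are related by plus or minus the identity. -/
theorem reduced_rigid {n a b c p q r s : ℤ} (hsq : Squarefree n) (hodd : n % 2 = 1) (h3 : 3 < n)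
    (hD : b ^ 2 - 4 * a * c = -n) (hdet : p * s - q * r = 1) (h : IsReduced3 a b c)
    (h' : IsReduced3 (a * p ^ 2 + b * p * r + c * r ^ 2)
      (2 * a * p * q + b * (p * s + q * r) + 2 * c * r * s) (a * q ^ 2 + b * q * s + c * s ^ 2)) :
    q = 0 ∧ r = 0 ∧ p = s ∧ (p = 1 ∨ p = -1) := by
  obtain ⟨h1, h2, h4⟩ := h
  obtain ⟨h1', h2', h4'⟩ := h'
  have hb := abs_nonneg b
  have ha0 : 0 < a := by
    by_contra h0
    have : a = 0 := by omega
    have hb0 : b = 0 := by rw [this] at h1; exact abs_nonpos_iff.mp h1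
    rw [this, hb0] at hD; omega
  have no3 : ¬ (|b| = a ∧ a = c) := by
    rintro ⟨e1, e2⟩
    have : n = 3 * (a * a) := by rw [← sq_abs b, e1, ← e2] at hD; linear_combination hD
    have hu := hsq a ⟨3, by rw [this]; ring⟩
    rw [Int.isUnit_iff] at hu
    rcases hu with hu | hu <;> rw [hu] at this <;> omega
  have m1 := reduced_min (x := p) (y := r) h1 h2 (by rintro ⟨rfl, rfl⟩; simp at hdet)
  have m2 := reduced_min (x := s) (y := -r) h1' h2' (by
    rintro ⟨rfl, h0⟩; rw [neg_eq_zero.mp h0] at hdet; simp at hdet)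
  have e : (a * p ^ 2 + b * p * r + c * r ^ 2) * s ^ 2 +
      (2 * a * p * q + b * (p * s + q * r) + 2 * c * r * s) * s * -r +
      (a * q ^ 2 + b * q * s + c * s ^ 2) * (-r) ^ 2 = a := by
    linear_combination (a * (p * s - q * r + 1)) * hdet
  rw [e] at m2
  have ha : a * p ^ 2 + b * p * r + c * r ^ 2 = a := le_antisymm m2 m1
  rw [ha] at h1' h2' h4'
  by_cases hr : r = 0
  · subst hr
    have hps : p * s = 1 := by linear_combination hdet
    rcases Int.eq_one_or_neg_one_of_mul_eq_one' hps with ⟨rfl, rfl⟩ | ⟨rfl, rfl⟩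
    · refine ⟨?_, rfl, rfl, Or.inl rfl⟩
      have e2 : 2 * a * 1 * q + b * (1 * 1 + q * 0) + 2 * c * 0 * 1 = 2 * (a * q) + b := by ring
      rw [e2] at h1' h4'
      have := abs_le.mp h1
      have := abs_le.mp h1'
      by_contra hq
      rcases lt_or_gt_of_ne hq with hq | hq
      · have : a * q ≤ -a := by nlinarith
        have := h4' (Or.inl (by rw [abs_of_nonpos (by omega)]; omega))
        omega
      · have : a ≤ a * q := by nlinarith
        have := h4 (Or.inl (by rw [abs_of_nonpos (by omega)]; omega))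
        omega
    · refine ⟨?_, rfl, rfl, Or.inr rfl⟩
      have e2 : 2 * a * -1 * q + b * (-1 * -1 + q * 0) + 2 * c * 0 * -1 = -2 * (a * q) + b := by
        ring
      rw [e2] at h1' h4'
      have := abs_le.mp h1
      have := abs_le.mp h1'
      by_contra hq
      rcases lt_or_gt_of_ne hq with hq | hq
      · have : a * q ≤ -a := by nlinarith
        have := h4 (Or.inl (by rw [abs_of_nonpos (by omega)]; omega))
        omega
      · have : a ≤ a * q := by nlinarith
        have := h4' (Or.inl (by rw [abs_of_nonpos (by omega)]; omega))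
        omega
  · exfalso
    by_cases hp : p = 0
    · subst hp
      have hr2 : 1 ≤ r ^ 2 := by have : 0 < r ^ 2 := by positivity
                                 omega
      have hac : a = c := by nlinarith
      have hb0 := h4 (Or.inr hac)
      have hqr : q * r = -1 := by linear_combination -hdet
      have hr1 : r ^ 2 = 1 := by
        rcases Int.eq_one_or_neg_one_of_mul_eq_neg_one' hqr with ⟨_, rfl⟩ | ⟨_, rfl⟩ <;> norm_num
      have e2 : 2 * a * 0 * q + b * (0 * s + q * r) + 2 * c * r * s = 2 * (a * (r * s)) - b := by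
        rw [hac]; linear_combination b * hqr
      rw [e2] at h1' h4'
      have := abs_le.mp h1
      have := abs_le.mp h1'
      rcases lt_trichotomy (r * s) 0 with hm | hm | hm
      · have : a * (r * s) ≤ -a := by nlinarith
        omega
      · have hs : s = 0 := (mul_eq_zero.mp hm).resolve_left hr
        have hq1 : q ^ 2 = 1 := by
          rcases Int.eq_one_or_neg_one_of_mul_eq_neg_one' hqr with ⟨rfl, _⟩ | ⟨rfl, _⟩ <;> norm_num
        have := h4' (Or.inr (by rw [hs, hq1]; ring))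
        rw [hm] at this
        have hb00 : b = 0 := by omega
        have : n = 4 * (a * c) := by rw [hb00] at hD; linear_combination hD
        omega
      · have : a ≤ a * (r * s) := by nlinarith
        exact no3 ⟨by rw [abs_of_nonneg hb0]; omega, hac⟩
    · have := reduced_lower h1 h2 hp hr
      exact no3 ⟨by omega, by omega⟩

/-- The genus character at `p` of the form `(a, b, c)`, in additive form. -/
noncomputable def genus (p : ℕ) (a c : ℤ) : ZMod 2 := if (p : ℤ) ∣ a then aleg p c else aleg p a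

theorem aleg_congr {p : ℕ} {u v : ℤ} (h : (p : ℤ) ∣ u - v) : aleg p u = aleg p v := by
  have : (u : ZMod p) = v := ((ZMod.intCast_eq_intCast_iff_dvd_sub v u p).mpr h).symm
  unfold aleg; rw [this]

theorem aleg_sq {p : ℕ} (u : ℤ) : aleg p (u ^ 2) = 0 :=
  aleg_eq_zero_iff.mpr ⟨u, by push_cast; ring⟩

theorem aleg_eq_of_mul_sq {p : ℕ} (hp : p.Prime) (hp2 : p ≠ 2) {u v w : ℤ} (hu : ¬ (p : ℤ) ∣ u)
    (hv : ¬ (p : ℤ) ∣ v) (h : (p : ℤ) ∣ 4 * u * v - w ^ 2) : aleg p u = aleg p v := by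
  have hP := Nat.prime_iff_prime_int.mp hp
  have h4 : ¬ (p : ℤ) ∣ 4 := fun h => hp2 (prime_dvd_small hp (k := 2) Nat.prime_two
    (by simpa using h))
  have h4u : ¬ (p : ℤ) ∣ 4 * u := fun h => (hP.dvd_or_dvd h).elim h4 hu
  have := aleg_congr h
  rw [aleg_sq, aleg_mul hp h4u hv, aleg_mul hp h4 hu, show (4 : ℤ) = 2 ^ 2 by norm_num, aleg_sq,
    zero_add] at this
  exact (CharTwo.add_eq_zero).mp this

theorem not_dvd_c {p : ℕ} (hp : p.Prime) {n a b c : ℤ} (hsq : Squarefree n) (hpn : (p : ℤ) ∣ n)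
    (hD : b ^ 2 - 4 * a * c = -n) (ha : (p : ℤ) ∣ a) : ¬ (p : ℤ) ∣ c := by
  intro hc
  have hP := Nat.prime_iff_prime_int.mp hp
  have hb : (p : ℤ) ∣ b := hP.dvd_of_dvd_pow (n := 2) (by
    have : b ^ 2 = 4 * a * c - n := by linear_combination hD
    rw [this]; exact dvd_sub (hc.mul_left _) hpn)
  apply hP.not_isUnit
  apply hsq
  have : n = 4 * (a * c) - b * b := by linear_combination hD
  rw [this]
  exact dvd_sub ((mul_dvd_mul ha hc).mul_left _) (mul_dvd_mul hb hb)

/-- The genus character is computed by any represented value prime to `p`. -/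
theorem genus_eq_aleg {p : ℕ} (hp : p.Prime) (hp2 : p ≠ 2) {n a b c x y : ℤ} (hsq : Squarefree n)
    (hpn : (p : ℤ) ∣ n) (hD : b ^ 2 - 4 * a * c = -n)
    (hv : ¬ (p : ℤ) ∣ a * x ^ 2 + b * x * y + c * y ^ 2) :
    genus p a c = aleg p (a * x ^ 2 + b * x * y + c * y ^ 2) := by
  unfold genus
  split_ifs with ha
  · refine aleg_eq_of_mul_sq hp hp2 (not_dvd_c hp hsq hpn hD ha) hv (w := b * x + 2 * c * y) ?_
    have : 4 * c * (a * x ^ 2 + b * x * y + c * y ^ 2) - (b * x + 2 * c * y) ^ 2 = n * x ^ 2 := by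
      linear_combination (-x ^ 2) * hD
    rw [this]; exact hpn.mul_right _
  · refine aleg_eq_of_mul_sq hp hp2 ha hv (w := 2 * a * x + b * y) ?_
    have : 4 * a * (a * x ^ 2 + b * x * y + c * y ^ 2) - (2 * a * x + b * y) ^ 2 = n * y ^ 2 := by
      linear_combination (-y ^ 2) * hD
    rw [this]; exact hpn.mul_right _

/-- The finite set of reduced forms of discriminant `-n`. -/
noncomputable def redForms (n : ℕ) : Finset (ℤ × ℤ × ℤ) :=
  (Icc (0 : ℤ) n ×ˢ Icc (-(n : ℤ)) n ×ˢ Icc (0 : ℤ) n).filter fun f =>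
    f.2.1 ^ 2 - 4 * f.1 * f.2.2 = -n ∧ IsReduced3 f.1 f.2.1 f.2.2

theorem mem_redForms {n : ℕ} (hn : 0 < n) {a b c : ℤ} :
    (a, b, c) ∈ redForms n ↔ b ^ 2 - 4 * a * c = -n ∧ IsReduced3 a b c := by
  simp only [redForms, mem_filter, mem_product, mem_Icc, and_iff_right_iff_imp]
  rintro ⟨hD, h1, h2, -⟩
  have hb := abs_nonneg b
  have ha0 : 0 < a := by
    by_contra h0
    have : a = 0 := by omega
    have hb0 : b = 0 := by rw [this] at h1; exact abs_nonpos_iff.mp h1
    rw [this, hb0] at hD; omega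
  have hb2 : b ^ 2 ≤ a * c := by rw [← sq_abs b]; nlinarith
  have hc : c ≤ n := by nlinarith
  have := abs_le.mp h1
  omega

/-- The ambiguous reduced form attached to a factorisation `n = u v` with `u ≤ v`. -/
def amb0 (u v : ℤ) : ℤ × ℤ × ℤ :=
  if 3 * u ≤ v then (u, u, (u + v) / 4) else ((u + v) / 4, (v - u) / 2, (u + v) / 4)

/-- The ambiguous reduced form attached to a factorisation `n = d d'`. -/
def amb (d d' : ℤ) : ℤ × ℤ × ℤ := amb0 (min d d') (max d d')

theorem amb_comm (d d' : ℤ) : amb d d' = amb d' d := by rw [amb, amb, min_comm, max_comm]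

theorem add_emod_four {u v n : ℤ} (h : u * v = n) (h4 : n % 4 = 3) : (u + v) % 4 = 0 := by
  have : (u % 4) * (v % 4) % 4 = 3 := by rw [← Int.mul_emod, h, h4]
  have h1 : u % 4 = 0 ∨ u % 4 = 1 ∨ u % 4 = 2 ∨ u % 4 = 3 := by omega
  have h2 : v % 4 = 0 ∨ v % 4 = 1 ∨ v % 4 = 2 ∨ v % 4 = 3 := by omega
  rcases h1 with h1 | h1 | h1 | h1 <;> rcases h2 with h2 | h2 | h2 | h2 <;>
    rw [h1, h2] at this <;> omega

theorem amb0_spec {N : ℕ} (hsq : Squarefree (N : ℤ)) (h4 : (N : ℤ) % 4 = 3) {u v : ℤ}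
    (h : u * v = N) (hu : 0 < u) (huv : u ≤ v) :
    amb0 u v ∈ redForms N ∧ ((amb0 u v).2.1 = (amb0 u v).1 ∨ (amb0 u v).1 = (amb0 u v).2.2) ∧
      ∀ p : ℕ, p.Prime → (p : ℤ) ∣ N →
        genus p (amb0 u v).1 (amb0 u v).2.2 = if (p : ℤ) ∣ u then aleg p v else aleg p u := by
  obtain ⟨c, hc⟩ : ∃ c, v = 4 * c - u := ⟨(u + v) / 4, by have := add_emod_four h h4; omega⟩
  have e1 : (u + v) / 4 = c := by omega
  have e2 : (v - u) / 2 = 2 * c - u := by omega
  have hp2 : ∀ p : ℕ, (p : ℤ) ∣ N → p ≠ 2 := by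
    rintro p hp rfl; omega
  have hnd : ∀ p : ℕ, p.Prime → (p : ℤ) ∣ u → ¬ (p : ℤ) ∣ v := fun p hp h1 h2 =>
    not_dvd_of_squarefree_mul hp (h ▸ hsq) h2 h1
  unfold amb0
  rw [e1, e2]
  split_ifs with h3
  · have hD : u ^ 2 - 4 * u * c = -N := by rw [← h, hc]; ring
    refine ⟨(mem_redForms (by omega)).mpr ⟨hD, ?_, by omega, fun _ => hu.le⟩, Or.inl rfl, ?_⟩
    · rw [abs_of_pos hu]
    · intro p hp hpN
      split_ifs with hpu
      · have := genus_eq_aleg hp (hp2 p hpN) hsq hpN hD (x := -1) (y := 2) (by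
          have : u * (-1) ^ 2 + u * -1 * 2 + c * 2 ^ 2 = v := by rw [hc]; ring
          rw [this]; exact hnd p hp hpu)
        rw [this]; congr 1; rw [hc]; ring
      · simp [genus, hpu]
  · have hD : (2 * c - u) ^ 2 - 4 * c * c = -N := by rw [← h, hc]; ring
    refine ⟨(mem_redForms (by omega)).mpr ⟨hD, ?_, le_rfl, fun _ => by omega⟩, Or.inr rfl, ?_⟩
    · rw [abs_of_nonneg (by omega)]; omega
    · intro p hp hpN
      split_ifs with hpu
      · have := genus_eq_aleg hp (hp2 p hpN) hsq hpN hD (x := 1) (y := 1) (by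
          have : c * 1 ^ 2 + (2 * c - u) * 1 * 1 + c * 1 ^ 2 = v := by rw [hc]; ring
          rw [this]; exact hnd p hp hpu)
        rw [this]; congr 1; rw [hc]; ring
      · have := genus_eq_aleg hp (hp2 p hpN) hsq hpN hD (x := 1) (y := -1) (by
          have : c * 1 ^ 2 + (2 * c - u) * 1 * -1 + c * (-1) ^ 2 = u := by ring
          rw [this]; exact hpu)
        rw [this]; congr 1; ring

theorem amb_spec {N : ℕ} (hsq : Squarefree (N : ℤ)) (h4 : (N : ℤ) % 4 = 3) {d d' : ℤ}
    (h : d * d' = N) (hd : 0 < d) :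
    amb d d' ∈ redForms N ∧ ((amb d d').2.1 = (amb d d').1 ∨ (amb d d').1 = (amb d d').2.2) ∧
      ∀ p : ℕ, p.Prime → (p : ℤ) ∣ N →
        genus p (amb d d').1 (amb d d').2.2 = if (p : ℤ) ∣ d then aleg p d' else aleg p d := by
  have hd' : 0 < d' := by
    by_contra h0
    have : d * d' ≤ 0 := mul_nonpos_of_nonneg_of_nonpos hd.le (by omega)
    omega
  unfold amb
  rcases le_total d d' with hle | hle
  · rw [min_eq_left hle, max_eq_right hle]; exact amb0_spec hsq h4 h hd hle
  · rw [min_eq_right hle, max_eq_left hle]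
    obtain ⟨a1, a2, a3⟩ := amb0_spec hsq h4 (mul_comm d d' ▸ h) hd' hle
    refine ⟨a1, a2, fun p hp hpN => ?_⟩
    rw [a3 p hp hpN]
    have hP := Nat.prime_iff_prime_int.mp hp
    rcases hP.dvd_or_dvd (h ▸ hpN) with h1 | h1
    · rw [if_pos h1, if_neg fun h2 => not_dvd_of_squarefree_mul hp (h ▸ hsq) h2 h1]
    · rw [if_pos h1, if_neg (not_dvd_of_squarefree_mul hp (h ▸ hsq) h1)]

theorem exists_amb {N : ℕ} (h3 : 3 < N) {a b c : ℤ}
    (hf : (a, b, c) ∈ redForms N) (h : b = a ∨ a = c) :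
    ∃ d d' : ℤ, d * d' = N ∧ 0 < d ∧ (a, b, c) = amb d d' := by
  obtain ⟨hD, h1, h2, h4⟩ := (mem_redForms (by omega)).mp hf
  have hb := abs_nonneg b
  have ha0 : 0 < a := by
    by_contra h0
    have : a = 0 := by omega
    have hb0 : b = 0 := by rw [this] at h1; exact abs_nonpos_iff.mp h1
    rw [this, hb0] at hD; omega
  by_cases hba : b = a
  · subst hba
    refine ⟨b, 4 * c - b, by linear_combination -hD, ha0, ?_⟩
    rw [amb, min_eq_left (by omega), max_eq_right (by omega), amb0, if_pos (by omega)]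
    congr 2; omega
  · obtain rfl : a = c := h.resolve_left hba
    have hb0 := h4 (Or.inr rfl)
    rw [abs_of_nonneg hb0] at h1
    refine ⟨2 * a - b, 2 * a + b, by linear_combination -hD, by omega, ?_⟩
    rw [amb, min_eq_left (by omega), max_eq_right (by omega), amb0, if_neg (by omega)]
    congr 1
    · omega
    · congr 1 <;> omega

theorem exists_mulVec_eq {ι : Type*} [Fintype ι] [DecidableEq ι] [Nonempty ι]
    (M : Matrix ι ι (ZMod 2)) (h1 : Mᵀ *ᵥ 1 = 0) (h : ∀ x, M *ᵥ x = 0 → x = 0 ∨ x = 1)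
    (e : ι → ZMod 2) (he : ∑ i, e i = 0) : ∃ x, M *ᵥ x = e := by
  have := Fact.mk Nat.prime_two
  let σ : (ι → ZMod 2) →ₗ[ZMod 2] ZMod 2 := ∑ i, LinearMap.proj i
  have hσ : ∀ v, σ v = ∑ i, v i := fun v => by simp [σ]
  have hle : LinearMap.range M.mulVecLin ≤ LinearMap.ker σ := by
    rintro _ ⟨x, rfl⟩
    rw [LinearMap.mem_ker, hσ]
    have : ∑ i, (M *ᵥ x) i = (1 : ι → ZMod 2) ⬝ᵥ (M *ᵥ x) := by simp [dotProduct]
    rw [mulVecLin_apply, this, dotProduct_mulVec, ← mulVec_transpose, h1, zero_dotProduct]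
  have e1 := LinearMap.finrank_range_add_finrank_ker M.mulVecLin
  have e2 := LinearMap.finrank_range_add_finrank_ker σ
  have e4 : Module.finrank (ZMod 2) (LinearMap.ker M.mulVecLin) ≤ 1 := by
    have : LinearMap.ker M.mulVecLin ≤ Submodule.span (ZMod 2) {1} := by
      intro y hy
      rcases h y hy with rfl | rfl
      · exact Submodule.zero_mem _
      · exact Submodule.mem_span_singleton_self _
    exact (Submodule.finrank_mono this).trans (finrank_span_le_card ({1} : Set (ι → ZMod 2))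
      |>.trans (by simp))
  have e5 : LinearMap.range σ = ⊤ := by
    rw [LinearMap.range_eq_top]
    intro t
    obtain ⟨i⟩ := ‹Nonempty ι›
    exact ⟨Pi.single i t, by simp [hσ]⟩
  rw [e5, finrank_top, Module.finrank_self] at e2
  have := Submodule.eq_of_le_of_finrank_le hle (by omega)
  have hmem : e ∈ LinearMap.range M.mulVecLin := by
    rw [this, LinearMap.mem_ker, hσ, he]
  exact hmem

theorem eq_of_ind_add_eq_zero {P : Finset ℕ} {T S : Finset P} (h : ind P T + ind P S = 0) :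
    T = S := by
  ext q
  have := congrFun h q
  by_cases h1 : q ∈ T <;> by_cases h2 : q ∈ S <;> simp_all [ind]

theorem eq_compl_of_ind_add_eq_one {P : Finset ℕ} {T S : Finset P} (h : ind P T + ind P S = 1) :
    T = Sᶜ := by
  ext q
  have := congrFun h q
  by_cases h1 : q ∈ T <;> by_cases h2 : q ∈ S <;> simp_all [ind]

/-- Under the Redei condition every genus contains an odd number of classes. -/
theorem odd_card_genus {N : ℕ} (hN : Squarefree N) (h4 : N % 4 = 3) (h3 : 3 < N) (hB : CondB N)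
    (ε : ℕ → ZMod 2) (hε : ∑ p ∈ N.primeFactors, ε p = 0) :
    Odd ((redForms N).filter fun f => ∀ p ∈ N.primeFactors, genus p f.1 f.2.2 = ε p).card := by
  classical
  have hsq : Squarefree (N : ℤ) := Int.squarefree_natCast.mpr hN
  have hP : ∀ p ∈ N.primeFactors, p.Prime := fun p hp => (Nat.mem_primeFactors.mp hp).1
  have hker := (condS_iff hP (f := fun q => (q : ℤ)) (fun q => by simp)).mp ((condB_iff hN).mp hB)
  have : Nonempty N.primeFactors := (Nat.nonempty_primeFactors.mpr (by omega)).coe_sort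
  set G := (redForms N).filter fun f => ∀ p ∈ N.primeFactors, genus p f.1 f.2.2 = ε p with hG
  have hsplit := card_filter_add_card_filter_not (s := G) (fun f => f.2.1 = f.1 ∨ f.1 = f.2.2)
  have hgen : ∀ S : Finset N.primeFactors, ∀ p : N.primeFactors,
      genus p (amb (∏ q ∈ S, ((q : ℕ) : ℤ)) (∏ q ∈ Sᶜ, ((q : ℕ) : ℤ))).1
        (amb (∏ q ∈ S, ((q : ℕ) : ℤ)) (∏ q ∈ Sᶜ, ((q : ℕ) : ℤ))).2.2 =
        (redei N.primeFactors (fun q => (q : ℤ)) *ᵥ ind N.primeFactors S) p := by
    intro S p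
    have hp := Nat.mem_primeFactors.mp p.2
    rw [(amb_spec hsq (by omega) (by rw [prod_mul_prod_compl, prod_coe_primeFactors hN])
      (prod_pos fun q _ => by exact_mod_cast (hP q q.2).pos)).2.2 p hp.1
      (Int.natCast_dvd_natCast.mpr hp.2.1)]
    by_cases hpS : p ∈ S
    · rw [if_pos (dvd_prod_of_mem (fun q : N.primeFactors => ((q : ℕ) : ℤ)) hpS),
        redei_mulVec_ind_mem hP (fun q => by simp) S hpS]
    · rw [if_neg, redei_mulVec_ind_not_mem hP (fun q => by simp) S hpS]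
      intro hd
      obtain ⟨_, hm⟩ := dvd_prod_iff_mem (f := fun q => (q : ℤ)) (fun q => by simp) S hp.1 hd
      exact hpS hm
  have hone : (G.filter fun f => f.2.1 = f.1 ∨ f.1 = f.2.2).card = 1 := by
    obtain ⟨x, hx⟩ := exists_mulVec_eq _ (by rw [redei_transpose hN h4]; exact redei_mulVec_one _ _)
      hker (fun p => ε p) (by rw [sum_coe_sort N.primeFactors ε, hε])
    obtain ⟨S, rfl⟩ := exists_ind x
    rw [card_eq_one]
    refine ⟨amb (∏ q ∈ S, ((q : ℕ) : ℤ)) (∏ q ∈ Sᶜ, ((q : ℕ) : ℤ)), ?_⟩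
    have hS := amb_spec hsq (by omega) (d := ∏ q ∈ S, ((q : ℕ) : ℤ)) (d' := ∏ q ∈ Sᶜ, ((q : ℕ) : ℤ))
      (by rw [prod_mul_prod_compl, prod_coe_primeFactors hN])
      (prod_pos fun q _ => by exact_mod_cast (hP q q.2).pos)
    rw [eq_singleton_iff_unique_mem]
    refine ⟨mem_filter.mpr ⟨mem_filter.mpr ⟨hS.1, fun p hp => ?_⟩, hS.2.1⟩, ?_⟩
    · rw [hgen S ⟨p, hp⟩, hx]
    · rintro ⟨a, b, c⟩ hf
      obtain ⟨hf1, hf2⟩ := mem_filter.mp hf
      obtain ⟨hf3, hf4⟩ := mem_filter.mp hf1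
      obtain ⟨d, d', hdd, hd, e⟩ := exists_amb h3 hf3 hf2
      set T := univ.filter (fun q : N.primeFactors => ((q : ℕ) : ℤ) ∣ d) with hT
      have e1 : d = ∏ q ∈ T, ((q : ℕ) : ℤ) := by
        have := natAbs_eq_prod hN (d := d) ⟨d', hdd.symm⟩
        rw [← Nat.cast_prod, ← this]; omega
      have e2 : d' = ∏ q ∈ Tᶜ, ((q : ℕ) : ℤ) := by
        apply mul_left_cancel₀ hd.ne'
        rw [hdd, ← prod_coe_primeFactors hN]
        conv_rhs => rw [e1]
        exact (prod_mul_prod_compl T _).symm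
      rw [e1, e2] at e
      have hT' : redei N.primeFactors (fun q => (q : ℤ)) *ᵥ ind N.primeFactors T =
          fun p : N.primeFactors => ε p := by
        ext p
        rw [← hgen T p, ← e]; exact hf4 p p.2
      have hsum : redei N.primeFactors (fun q => (q : ℤ)) *ᵥ
          (ind N.primeFactors T + ind N.primeFactors S) = 0 := by
        rw [mulVec_add, hT', hx]; ext p; exact CharTwo.add_self_eq_zero _
      rw [e]
      rcases hker _ hsum with h0 | h0
      · rw [eq_of_ind_add_eq_zero h0]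
      · rw [eq_compl_of_ind_add_eq_one h0, compl_compl, amb_comm]
  have heven : Even (G.filter fun f => ¬ (f.2.1 = f.1 ∨ f.1 = f.2.2)).card := by
    have key : ∀ f ∈ G.filter fun f => ¬ (f.2.1 = f.1 ∨ f.1 = f.2.2),
        (f.1, -f.2.1, f.2.2) ∈ G.filter (fun f => ¬ (f.2.1 = f.1 ∨ f.1 = f.2.2)) ∧ f.2.1 ≠ 0 := by
      rintro ⟨a, b, c⟩ hf
      obtain ⟨hf1, hf2⟩ := mem_filter.mp hf
      obtain ⟨hf3, hf4⟩ := mem_filter.mp hf1
      obtain ⟨hD, h1, h2, h5⟩ := (mem_redForms (by omega)).mp hf3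
      simp only [not_or] at hf2
      have hlt : |b| ≠ a := by
        intro h0
        have := h5 (Or.inl h0)
        rw [abs_of_nonneg this] at h0
        exact hf2.1 h0
      refine ⟨mem_filter.mpr ⟨mem_filter.mpr ⟨(mem_redForms (by omega)).mpr
        ⟨by linear_combination hD, by rwa [abs_neg], h2, ?_⟩, hf4⟩, ?_⟩, ?_⟩
      · rw [abs_neg]; rintro (h0 | h0)
        · exact absurd h0 hlt
        · exact absurd h0 hf2.2
      · simp only [not_or]
        refine ⟨fun h0 => hlt ?_, hf2.2⟩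
        have : b = -a := by omega
        rw [this, abs_neg, abs_of_nonneg ((abs_nonneg b).trans h1)]
      · rintro (rfl : b = 0)
        have : (N : ℤ) = 4 * (a * c) := by linear_combination hD
        omega
    rw [even_iff_two_dvd, ← ZMod.natCast_eq_zero_iff, card_eq_sum_ones]
    push_cast
    refine sum_involution (fun f _ => (f.1, -f.2.1, f.2.2)) (fun _ _ => by decide) ?_
      (fun f hf => (key f hf).1) ?_
    · rintro ⟨a, b, c⟩ hf _ h0
      have := (key _ hf).2
      simp only [Prod.mk.injEq] at h0 this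
      omega
    · rintro ⟨a, b, c⟩ _; simp
  rw [← hsplit, hone]
  exact heven.one_add

end Pool.Agent.Lib.MP_696deb_nt
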