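import Pool.Agent.Lib.MP_696deb_nt.SymOm

set_option autoImplicit false

open Finset NumberTheorySymbols

namespace Pool.Agent.Lib.MP_696deb_nt

section general

variable {w w' : M2 → ℤ} {δ : ℤ} {r s u v : V2}

theorem Phi_congr (h : ∀ X, InX δ X → w X = w' X) : Phi w δ r s u v = Phi w' δ r s u v := by
  refine finsum_congr fun X => ?_
  unfold term
  split_ifs with hX
  · rw [h X hX]
  · rfl

theorem Phi_add_w (hδ : Cop δ) (hr : CC r) (hs : CC s) (hu : CC u) (hv : CC v) :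
    Phi (fun X => w X + w' X) δ r s u v = Phi w δ r s u v + Phi w' δ r s u v := by
  unfold Phi
  rw [← finsum_add_distrib (term_finite w hδ hr hs hu hv) (term_finite w' hδ hr hs hu hv)]
  refine finsum_congr fun X => ?_
  unfold term
  split_ifs <;> ring

theorem Phi_mul_w (c : ℤ) : Phi (fun X => c * w X) δ r s u v = c * Phi w δ r s u v := by
  unfold Phi
  rw [mul_finsum]
  refine finsum_congr fun X => ?_
  unfold term
  split_ifs <;> ring

theorem Phi_sum_w (hδ : Cop δ) (hr : CC r) (hs : CC s) (hu : CC u) (hv : CC v) (I : Finset ℕ)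
    (W : ℕ → M2 → ℤ) :
    Phi (fun X => ∑ i ∈ I, W i X) δ r s u v = ∑ i ∈ I, Phi (W i) δ r s u v := by
  induction I using Finset.induction_on with
  | empty => simp [Phi, term]
  | insert i I hi ih =>
    simp only [sum_insert hi]
    rw [Phi_add_w hδ hr hs hu hv, ih]

theorem Cop.mul {x y : ℤ} (hx : Cop x) (hy : Cop y) : Cop (x * y) :=
  ⟨fun h => (p3.dvd_or_dvd h).elim hx.1 hy.1, fun h => (p5.dvd_or_dvd h).elim hx.2 hy.2⟩

theorem Cop.left {x y : ℤ} (h : Cop (x * y)) : Cop x :=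
  ⟨fun h1 => h.1 (h1.mul_right _), fun h1 => h.2 (h1.mul_right _)⟩

theorem Cop.right {x y : ℤ} (h : Cop (x * y)) : Cop y :=
  ⟨fun h1 => h.1 (h1.mul_left _), fun h1 => h.2 (h1.mul_left _)⟩

theorem Cop.ne_zero {x : ℤ} (h : Cop x) : x ≠ 0 := fun h0 => h.1 (h0 ▸ dvd_zero _)

theorem Cop.dvd3 {x y : ℤ} (h : Cop x) (h1 : 3 ∣ y * x) : 3 ∣ y := (p3.dvd_or_dvd h1).resolve_right h.1

theorem Cop.dvd15 {x y : ℤ} (h : Cop x) (h1 : 15 ∣ y * x) : 15 ∣ y := by
  have h3 : (3 : ℤ) ∣ y := h.dvd3 (Dvd.dvd.trans (by norm_num) h1)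
  have h5 : (5 : ℤ) ∣ y := (p5.dvd_or_dvd (Dvd.dvd.trans (by norm_num) h1)).resolve_right h.2
  omega

theorem inX_mul_upper {p q t : ℤ} (hV : Cop (p * t)) {X : M2} :
    InX (δ * (p * t)) (X.mul ⟨p, q, 0, t⟩) ↔ InX δ X := by
  constructor
  · rintro ⟨h1, h2, h3, h4⟩
    simp only [M2.mul, M2.det, mul_zero, add_zero] at h1 h2 h3 h4
    have h5 := hV.left.dvd15 h3
    refine ⟨mul_right_cancel₀ hV.ne_zero (by simp only [M2.det]; linear_combination h1),
      hV.left.dvd3 h2, h5, hV.right.dvd3 ?_⟩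
    exact (dvd_add_right (Dvd.dvd.mul_right (Dvd.dvd.trans (by norm_num) h5) _)).mp h4
  · intro h
    simpa [M2.det] using h.mul_right (g := ⟨p, q, 0, t⟩) (dvd_zero _)

theorem inX_upper_mul {p q t : ℤ} (hV : Cop (p * t)) {X : M2} :
    InX (δ * (p * t)) (M2.mul ⟨p, q, 0, t⟩ X) ↔ InX δ X := by
  constructor
  · rintro ⟨h1, h2, h3, h4⟩
    simp only [M2.mul, M2.det, zero_mul, zero_add] at h1 h2 h3 h4
    have h5 := hV.right.dvd15 (mul_comm t _ ▸ h3)
    refine ⟨mul_right_cancel₀ hV.ne_zero (by simp only [M2.det]; linear_combination h1),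
      hV.left.dvd3 ?_, h5, hV.right.dvd3 (mul_comm t _ ▸ h4)⟩
    rw [mul_comm]
    exact (dvd_add_left (Dvd.dvd.mul_left (Dvd.dvd.trans (by norm_num) h5) _)).mp h2
  · intro h
    simpa [M2.det] using h.mul_left (g := ⟨p, q, 0, t⟩) (dvd_zero _)

theorem Phi_factor {p q t : ℤ} (hV : Cop (p * t)) (hw : ∀ X, w (X.mul ⟨p, q, 0, t⟩) = w X)
    (R : M2 → Prop) [DecidablePred R] (hR : ∀ M, R M ↔ ∃ X : M2, X.mul ⟨p, q, 0, t⟩ = M) :
    Phi w δ r s (M2.ap ⟨p, q, 0, t⟩ u) (M2.ap ⟨p, q, 0, t⟩ v) =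
      Phi (fun M => if R M then w M else 0) (δ * (p * t)) r s u v := by
  unfold Phi
  rw [finsum_inj (F := term (fun M => if R M then w M else 0) (δ * (p * t)) r s u v)
    (mul_right_inj (V := ⟨p, q, 0, t⟩) (by simpa [M2.det] using hV.ne_zero))
    fun M hM => (hR M).mp (by
      by_contra h
      simp [term, h] at hM)]
  refine finsum_congr fun X => ?_
  simp only [term, inX_mul_upper hV, hw, M2.ap_mul, if_pos ((hR _).mpr ⟨X, rfl⟩)]

end general

theorem cc_e1 : CC (1, 0) := Or.inr (by decide)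
theorem cc_e2 : CC (0, 1) := Or.inl (by decide)
theorem cc_of_cop {b d : ℤ} (h : Cop d) : CC (b, d) := Or.inl h

theorem cop_of_det {a b c d : ℤ} (h : a * d - b * (15 * c) = 1) : Cop d :=
  ⟨fun ⟨k, hk⟩ => by
    have : (3 : ℤ) ∣ 1 := ⟨a * k - 5 * b * c, by rw [← h, hk]; ring⟩
    omega, fun ⟨k, hk⟩ => by
    have : (5 : ℤ) ∣ 1 := ⟨a * k - 3 * b * c, by rw [← h, hk]; ring⟩
    omega⟩

theorem cop_of_coprime {n : ℕ} (h : Nat.Coprime n 15) : Cop n :=
  ⟨fun h1 => absurd ((Nat.Coprime.coprime_dvd_left (Int.natCast_dvd_natCast.mp h1) h)) (by decide),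
    fun h1 => absurd ((Nat.Coprime.coprime_dvd_left (Int.natCast_dvd_natCast.mp h1) h)) (by decide)⟩

theorem om1_mul_right {A : ℕ} {g : M2} (hg : IsCoprime (A : ℤ) g.det) (X : M2) :
    om1 A (X.mul g) = om1 A X := by
  unfold om1 KK
  refine sum_congr rfl fun k _ => if_congr ?_ rfl rfl
  simp only [M2.mul]
  constructor
  · rintro ⟨⟨a, ha⟩, ⟨b, hb⟩⟩
    constructor <;> apply hg.dvd_of_dvd_mul_left <;> simp only [M2.det]
    · exact ⟨a * g.d - b * g.c, by linear_combination g.d * ha - g.c * hb⟩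
    · exact ⟨b * g.a - a * g.b, by linear_combination g.a * hb - g.b * ha⟩
  · rintro ⟨⟨a, ha⟩, ⟨b, hb⟩⟩
    exact ⟨⟨a * g.a + b * g.c, by linear_combination g.a * ha + g.c * hb⟩,
      ⟨a * g.b + b * g.d, by linear_combination g.b * ha + g.d * hb⟩⟩

theorem jac_neg_one {A : ℕ} (h : A % 4 = 3) : J(-1 | A) = -1 := by
  rw [jacobiSym.at_neg_one (Nat.odd_iff.mpr (by omega)), ZMod.χ₄_nat_three_mod_four h]

theorem om1_star {A m : ℕ} (hA : Good A) (hm : m = 1 ∨ m = 2) {X : M2} (hX : InX (m * A) X) :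
    om1 A ⟨X.a, -X.b, -X.c, X.d⟩ = -om1 A X := by
  have hd : (A : ℤ) ∣ X.a * X.d - X.b * X.c := ⟨3 * m, by
    have := hX.1
    simp only [M2.det] at this
    linear_combination this⟩
  simp only [om1]
  rw [KK_eq_prod hA.sqf (by convert hd using 1; ring) fun p hp h =>
      not_all_dvd hA hm hX hp (by simp only [dvd_neg] at h; tauto),
    KK_eq_prod hA.sqf (by convert hd using 1; ring) fun p hp h =>
      not_all_dvd hA hm hX hp (by simp only [dvd_neg] at h; tauto),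
    ← neg_one_mul (∏ p ∈ _, _), ← jac_neg_one hA.mod4, jac_eq_prod _ hA.sqf, ← prod_mul_distrib]
  refine prod_congr rfl fun p _ => ?_
  simp only [dvd_neg]
  split_ifs <;> rw [← jacobiSym.mul_left] <;> congr 1 <;> ring

/-- The symbol attached to the odd quadratic character of conductor `A`. -/
noncomputable def phi (A : ℕ) (δ : ℤ) (u v : V2) : ℤ := Phi (om1 A) δ (1, 0) (0, 1) u v

theorem phi_star {A m : ℕ} (hA : Good A) (hm : m = 1 ∨ m = 2) (u v : V2) :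
    phi A (m * A) (-u.1, u.2) (-v.1, v.2) = phi A (m * A) u v := by
  unfold phi Phi
  rw [finsum_inj (F := term (om1 A) (m * A) (1, 0) (0, 1) (-u.1, u.2) (-v.1, v.2))
    (g := fun X => ⟨X.a, -X.b, -X.c, X.d⟩) (fun X Y h => by
      simp only [M2.mk.injEq, neg_inj] at h
      exact M2.ext h.1 h.2.1 h.2.2.1 h.2.2.2)
    fun X _ => ⟨⟨X.a, -X.b, -X.c, X.d⟩, by simp⟩]
  refine finsum_congr fun X => ?_
  have h1 : InX (m * A) ⟨X.a, -X.b, -X.c, X.d⟩ ↔ InX (m * A) X := by simp [InX, M2.det]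
  have h2 : ∀ u : V2, ori (1, 0) (0, 1) (M2.ap ⟨X.a, -X.b, -X.c, X.d⟩ (-u.1, u.2)) =
      -ori (1, 0) (0, 1) (X.ap u) := fun u => by
    simp only [ori_std, M2.ap]
    rw [show X.a * -u.1 + -X.b * u.2 = -(X.a * u.1 + X.b * u.2) by ring, Int.sign_neg,
      show -X.c * -u.1 + X.d * u.2 = X.c * u.1 + X.d * u.2 by ring, neg_mul]
  simp only [term, h1, h2]
  split_ifs with hX
  · rw [om1_star hA hm hX]; ring
  · rfl

theorem phi_add {A : ℕ} {δ : ℤ} (hδ : Cop δ) {u v t : V2} (hu : CC u) (hv : CC v) (ht : CC t) :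
    phi A δ u v + phi A δ v t = phi A δ u t := Phi_add_right hδ cc_e1 cc_e2 hu hv ht

/-- The homomorphism attached to the symbol. -/
noncomputable def psiH (A : ℕ) (δ : ℤ) (_a b _c d : ℤ) : ℂ := (phi A δ (0, 1) (b, d) : ℤ)

theorem cop_mul {A m : ℕ} (hA : Good A) (hm : m = 1 ∨ m = 2) : Cop (m * A) :=
  Cop.mul (by rcases hm with rfl | rfl <;> constructor <;> decide) (cop_of_coprime hA.cop)

theorem psiH_hom {A m : ℕ} (hA : Good A) (hm : m = 1 ∨ m = 2) :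
    Hom15 (psiH A (m * A)) ∧ psiH A (m * A) 4 1 1 4 = 0 := by
  refine Add15.of_plus (fun a b c d a' b' c' d' h h' => ?_) fun a b c d _ => ?_
  · have h1 : phi A (m * A) (M2.ap ⟨a, b, 15 * c, d⟩ (0, 1)) (M2.ap ⟨a, b, 15 * c, d⟩ (b', d')) =
        phi A (m * A) (0, 1) (b', d') :=
      Phi_inv_right h (dvd_mul_right _ _) (om1_mul_right (by
        rw [show M2.det ⟨a, b, 15 * c, d⟩ = 1 from h]; exact isCoprime_one_right))
    simp only [M2.ap, mul_zero, mul_one, zero_add] at h1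
    unfold psiH
    rw [← h1, ← Int.cast_add, phi_add (cop_mul hA hm) cc_e2 (cc_of_cop (cop_of_det h))
      (cc_of_cop (cop_of_det (a := a * a' + b * (15 * c')) (b := a * b' + b * d')
        (c := c * a' + d * c') (by linear_combination (a' * d' - b' * (15 * c')) * h + h')))]
  · have := phi_star hA hm (0, 1) (b, d)
    simp only [neg_zero] at this
    simp only [psiH, this]

/-- The Hecke operator at two. -/
theorem phi_two {A : ℕ} (hA : Good A) {u v : V2} (hu : CC u) (hv : CC v) :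
    phi A ((2 : ℕ) * A) u v =
      phi A ((1 : ℕ) * A) (M2.ap ⟨1, 0, 0, 2⟩ u) (M2.ap ⟨1, 0, 0, 2⟩ v) +
      phi A ((1 : ℕ) * A) (M2.ap ⟨1, 1, 0, 2⟩ u) (M2.ap ⟨1, 1, 0, 2⟩ v) +
      phi A ((1 : ℕ) * A) (M2.ap ⟨2, 0, 0, 1⟩ u) (M2.ap ⟨2, 0, 0, 1⟩ v) := by
  have h4 := hA.mod4
  have hc : IsCoprime (A : ℤ) 2 := by
    rw [show (2 : ℤ) = (2 : ℕ) from rfl, Nat.isCoprime_iff_coprime, Nat.coprime_two_right]
    exact Nat.odd_iff.mpr (by omega)
  have hδ := cop_mul hA (Or.inr rfl)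
  unfold phi
  rw [Phi_factor (by constructor <;> decide) (om1_mul_right hc) (fun M => 2 ∣ M.b ∧ 2 ∣ M.d)
      fun M => ⟨fun ⟨⟨b, hb⟩, ⟨d, hd⟩⟩ => ⟨⟨M.a, b, M.c, d⟩, by ext <;> simp [M2.mul, hb, hd, mul_comm]⟩,
        by rintro ⟨X, rfl⟩; simp [M2.mul]⟩,
    Phi_factor (by constructor <;> decide) (om1_mul_right hc)
      (fun M => 2 ∣ M.b - M.a ∧ 2 ∣ M.d - M.c)
      fun M => ⟨fun ⟨⟨b, hb⟩, ⟨d, hd⟩⟩ => ⟨⟨M.a, b, M.c, d⟩, by
        ext <;> simp only [M2.mul] <;> omega⟩, by rintro ⟨X, rfl⟩; simp [M2.mul]⟩,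
    Phi_factor (by constructor <;> decide) (om1_mul_right hc) (fun M => 2 ∣ M.a ∧ 2 ∣ M.c)
      fun M => ⟨fun ⟨⟨a, ha⟩, ⟨c, hc⟩⟩ => ⟨⟨a, M.b, c, M.d⟩, by ext <;> simp [M2.mul, ha, hc, mul_comm]⟩,
        by rintro ⟨X, rfl⟩; simp [M2.mul]⟩,
    show (((1 : ℕ) : ℤ) * A * (1 * 2)) = (2 : ℕ) * A by push_cast; ring,
    show (((1 : ℕ) : ℤ) * A * (2 * 1)) = (2 : ℕ) * A by push_cast; ring,
    ← Phi_add_w hδ cc_e1 cc_e2 hu hv, ← Phi_add_w hδ cc_e1 cc_e2 hu hv]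
  refine Phi_congr fun X hX => ?_
  have h := hX.1
  obtain ⟨a, b, c, d⟩ := X
  simp only [M2.det] at h ⊢
  push_cast at h
  obtain ⟨a, rfl | rfl⟩ := Int.even_or_odd' a <;> obtain ⟨b, rfl | rfl⟩ := Int.even_or_odd' b <;>
    obtain ⟨c, rfl | rfl⟩ := Int.even_or_odd' c <;> obtain ⟨d, rfl | rfl⟩ := Int.even_or_odd' d <;>
    first
      | (exfalso; ring_nf at h; omega)
      | (split_ifs <;> omega)

/-- The full intersection sum as a sum of values of the symbol. -/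
theorem sum_phi {A B m : ℕ} (hn : Good (A * B)) (hm : m = 1 ∨ m = 2) :
    ∑ k ∈ range B, J((k : ℤ) | B) * phi A (m * A) (1, 0) (k, B) =
      Phi (fun M => om1 A M * om2 B M) (m * (A * B : ℕ)) (1, 0) (0, 1) (1, 0) (0, 1) := by
  have hB : Cop B := cop_of_coprime (Nat.Coprime.coprime_mul_left hn.cop)
  have hc : IsCoprime (A : ℤ) B := Nat.isCoprime_iff_coprime.mpr
    (Nat.coprime_of_squarefree_mul hn.sqf)
  have h1 : ∀ k : ℕ, phi A (m * A) (1, 0) (k, B) =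
      Phi (fun M => if (B : ℤ) ∣ M.a * k - M.b ∧ (B : ℤ) ∣ M.c * k - M.d then om1 A M else 0)
        (m * (A * B : ℕ)) (1, 0) (0, 1) (1, 0) (0, 1) := fun k => by
    have := Phi_factor (w := om1 A) (δ := m * A) (r := (1, 0)) (s := (0, 1)) (u := (1, 0))
      (v := (0, 1)) (p := 1) (q := k) (t := B) (by simpa using hB)
      (om1_mul_right (by simpa [M2.det] using hc))
      (fun M => (B : ℤ) ∣ M.a * k - M.b ∧ (B : ℤ) ∣ M.c * k - M.d)
      fun M => ⟨fun ⟨⟨b, hb⟩, ⟨d, hd⟩⟩ => ⟨⟨M.a, -b, M.c, -d⟩, by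
        ext <;> simp only [M2.mul] <;> linarith⟩, by rintro ⟨X, rfl⟩; simp [M2.mul]⟩
    simp only [M2.ap, mul_one, mul_zero, add_zero, zero_add, one_mul] at this
    rw [phi, this]
    push_cast
    rw [mul_assoc]
  simp only [h1, ← Phi_mul_w]
  rw [← Phi_sum_w (cop_mul hn hm) cc_e1 cc_e2 cc_e1 cc_e2]
  refine Phi_congr fun X _ => ?_
  rw [om2, KK, mul_sum]
  refine sum_congr rfl fun k _ => ?_
  split_ifs <;> ring

end Pool.Agent.Lib.MP_696deb_nt
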