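import Pool.Agent.Lib.MP_696deb_nt.SymDefs
import Pool.Agent.Lib.MP_696deb_nt.RankZero
import Pool.Agent.Lib.MP_696deb_nt.SymPhi

-- part Pool.Agent.Lib.MP_696deb_nt.GInd
section

set_option autoImplicit false

open Finset NumberTheorySymbols

namespace Pool.Agent.Lib.MP_696deb_nt

namespace GInd

/-- The statement on the number of special points. -/
def PointsSt : Prop := ∀ n : ℕ, Good n →
  ∃ g : ℕ, pts n = 6 * 2 ^ n.primeFactors.card * g ∧ (J(-15 | n) = 1 → CondB n → Odd g)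

/-- The rank one algebra for the algebra ramified at five. -/
def Rank5St : Prop := ∀ n : ℕ, Good n → n % 3 = 2 → (n % 5 = 2 ∨ n % 5 = 3) →
  ∃ (Y : Finset V3) (χ : ℕ → V3 → ℤ) (ι : V3 → V3) (U : Finset ℕ → ℤ),
    (∀ p ∈ n.primeFactors, ∀ y ∈ Y, χ p y = 1 ∨ χ p y = -1) ∧
    (∀ y ∈ Y, ι y ∈ Y ∧ ι (ι y) = y ∧ ι y ≠ y ∧
      ∀ p ∈ n.primeFactors, χ p (ι y) = J(-15 | p) * χ p y) ∧
    (∀ S ⊆ n.primeFactors, 3 * Sig n 1 S = 3 * Psi Y χ S ^ 2 + U S ^ 2 ∧
      Sig n 2 S = 2 * Psi Y χ S ^ 2 + 2 * Psi Y χ S * U S) ∧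
    4 * (3 * (Y.card : ℤ) + U ∅) = pts n

/-- The rank one algebra for the algebra ramified at three. -/
def Rank3St : Prop := ∀ n : ℕ, Good n → n % 3 = 1 → (n % 5 = 1 ∨ n % 5 = 4) →
  ∃ (Y : Finset V3) (χ : ℕ → V3 → ℤ) (U : Finset ℕ → ℤ),
    (∀ p ∈ n.primeFactors, ∀ y ∈ Y, χ p y = 1 ∨ χ p y = -1) ∧
    (∀ S ⊆ n.primeFactors, Sig n 1 S = 4 * (Psi Y χ S * U S) ∧
      Sig n 2 S = 4 * (Psi Y χ S * U S + Psi Y χ S ^ 2 + U S ^ 2) ∧
      (∏ p ∈ S, J(-15 | p) = -1 → Psi Y χ S = 0)) ∧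
    12 * ((Y.card : ℤ) + U ∅) = pts n

/-- The symmetry of the convolution sum under taking complements. -/
def ComplSt : Prop := ∀ n m : ℕ, Good n → ∀ S ⊆ n.primeFactors,
  Sig n m (n.primeFactors \ S) = Sig n m S

theorem jac_prod (a : ℤ) (S : Finset ℕ) (hS : ∀ p ∈ S, p ≠ 0) :
    J(a | ∏ p ∈ S, p) = ∏ p ∈ S, J(a | p) := by
  induction S using Finset.induction_on with
  | empty => simp
  | insert p S hp ih =>
    rw [prod_insert hp, prod_insert hp, jacobiSym.mul_right' a (hS p (mem_insert_self _ _))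
      (prod_ne_zero_iff.mpr fun q hq => hS q (mem_insert_of_mem hq)),
      ih fun q hq => hS q (mem_insert_of_mem hq)]

theorem jac_primeFactors (a : ℤ) {A : ℕ} (hA : Squarefree A) :
    ∏ p ∈ A.primeFactors, J(a | p) = J(a | A) := by
  rw [← jac_prod a _ fun p hp => (Nat.prime_of_mem_primeFactors hp).ne_zero,
    Nat.prod_primeFactors_of_squarefree hA]

theorem jac15_eq {n : ℕ} (hn : n % 2 = 1) : J(-15 | n) = J((n : ℤ) | 15) := by
  have ho : Odd n := Nat.odd_iff.mpr hn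
  have h := jacobiSym.quadratic_reciprocity (a := 15) (b := n) (by decide) ho
  rw [show (-15 : ℤ) = -((15 : ℕ) : ℤ) by norm_num, jacobiSym.neg _ ho, h]
  rcases Nat.odd_mod_four_iff.mp hn with h4 | h4
  · rw [ZMod.χ₄_nat_one_mod_four h4, Even.neg_one_pow, one_mul, one_mul]
    exact (Nat.even_iff.mpr (by omega)).mul_left _
  · rw [ZMod.χ₄_nat_three_mod_four h4, Odd.neg_one_pow]
    · ring
    · exact Odd.mul (by decide) (Nat.odd_iff.mpr (by omega))

theorem jac15_mod {n : ℕ} (hn : n % 2 = 1) : J(-15 | n) = J(((n % 15 : ℕ) : ℤ) | 15) := by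
  rw [jac15_eq hn, jacobiSym.mod_left]; norm_cast

theorem not_dvd_of_cop {n : ℕ} (h : Nat.Coprime n 15) : n % 3 ≠ 0 ∧ n % 5 ≠ 0 := by
  constructor
  · intro h3
    have := Nat.dvd_gcd (Nat.dvd_of_mod_eq_zero h3) (show 3 ∣ 15 by norm_num)
    rw [h] at this; omega
  · intro h5
    have := Nat.dvd_gcd (Nat.dvd_of_mod_eq_zero h5) (show 5 ∣ 15 by norm_num)
    rw [h] at this; omega

theorem jac15_iff {n : ℕ} (hn : n % 2 = 1) (h : Nat.Coprime n 15) : J(-15 | n) = 1 ↔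
    (n % 3 = 2 ∧ (n % 5 = 2 ∨ n % 5 = 3)) ∨ (n % 3 = 1 ∧ (n % 5 = 1 ∨ n % 5 = 4)) := by
  obtain ⟨h3, h5⟩ := not_dvd_of_cop h
  rw [jac15_mod hn]
  rw [← Nat.mod_mod_of_dvd n (show 3 ∣ 15 by norm_num)] at h3 ⊢
  rw [← Nat.mod_mod_of_dvd n (show 5 ∣ 15 by norm_num)] at h5 ⊢
  have : n % 15 < 15 := Nat.mod_lt _ (by norm_num)
  generalize n % 15 = r at *
  interval_cases r <;> first | omega | norm_num

theorem jac15_cases {n : ℕ} (h : Nat.Coprime n 15) : J(-15 | n) = 1 ∨ J(-15 | n) = -1 := by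
  refine jacobiSym.eq_one_or_neg_one ?_
  rw [Int.gcd_comm, show (-15 : ℤ) = -((15 : ℕ) : ℤ) by norm_num, Int.gcd_neg,
    Int.gcd_natCast_natCast]
  exact h

/-- Summing characters over all subsets. -/
theorem sum_Psi (Y : Finset V3) (χ : ℕ → V3 → ℤ) {S R : Finset ℕ} (h : Disjoint S R) :
    ∑ T ∈ R.powerset, Psi Y χ (S ∪ T) =
      ∑ y ∈ Y, (∏ p ∈ S, χ p y) * ∏ p ∈ R, (1 + χ p y) := by
  unfold Psi
  rw [sum_comm]
  refine sum_congr rfl fun y _ => ?_
  rw [prod_one_add, mul_sum]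
  refine sum_congr rfl fun T hT => ?_
  rw [prod_union (h.mono_right (mem_powerset.mp hT))]

theorem dvd_prod_one_add {R : Finset ℕ} {f : ℕ → ℤ} (h : ∀ p ∈ R, f p = 1 ∨ f p = -1) :
    (2 : ℤ) ^ R.card ∣ ∏ p ∈ R, (1 + f p) := by
  rw [← prod_const]
  exact prod_dvd_prod_of_dvd _ _ fun p hp => by rcases h p hp with e | e <;> simp [e]

theorem dvd_sum_of_invol {Y : Finset V3} {ι : V3 → V3} {f : V3 → ℤ} {c : ℤ}
    (hι : ∀ y ∈ Y, ι y ∈ Y ∧ ι (ι y) = y ∧ ι y ≠ y) (hf : ∀ y ∈ Y, f (ι y) = f y)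
    (hc : ∀ y ∈ Y, c ∣ f y) : 2 * c ∣ ∑ y ∈ Y, f y := by
  have key : ∑ y ∈ Y, (Ideal.Quotient.mk (Ideal.span {2 * c}) (f y)) = 0 := by
    refine sum_involution (fun y _ => ι y) (fun y hy => ?_) (fun y hy _ => (hι y hy).2.2)
      (fun y hy => (hι y hy).1) (fun y hy => (hι y hy).2.1)
    rw [hf y hy, ← map_add, Ideal.Quotient.eq_zero_iff_mem, Ideal.mem_span_singleton, ← two_mul]
    exact mul_dvd_mul_left 2 (hc y hy)
  rwa [← map_sum, Ideal.Quotient.eq_zero_iff_mem, Ideal.mem_span_singleton] at key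

theorem sum_eq_zero_of_invol {Y : Finset V3} {ι : V3 → V3} {f : V3 → ℤ}
    (hι : ∀ y ∈ Y, ι y ∈ Y ∧ ι (ι y) = y ∧ ι y ≠ y) (hf : ∀ y ∈ Y, f (ι y) = -f y) :
    ∑ y ∈ Y, f y = 0 :=
  sum_involution (fun y _ => ι y) (fun y hy => by rw [hf y hy, add_neg_cancel])
    (fun y hy _ => (hι y hy).2.2) (fun y hy => (hι y hy).1) (fun y hy => (hι y hy).2.1)

/-- Everything the induction needs to know about one discriminant. -/
structure Pack (aa bb : ℕ → ℤ) (n : ℕ) (Ψ : Finset ℕ → ℤ) : Prop where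
  cong : ∀ S R : Finset ℕ, Disjoint S R → R ⊆ n.primeFactors →
    (2 : ℤ) ^ R.card ∣ ∑ T ∈ R.powerset, Ψ (S ∪ T)
  cong2 : n % 3 = 2 → (∀ p ∈ n.primeFactors, J(-15 | p) = 1) → ∀ S R : Finset ℕ, Disjoint S R →
    S ⊆ n.primeFactors → R ⊆ n.primeFactors → 2 * (2 : ℤ) ^ R.card ∣ ∑ T ∈ R.powerset, Ψ (S ∪ T)
  van : ∀ S ⊆ n.primeFactors, ∏ p ∈ S, J(-15 | p) = -1 → Ψ S = 0
  prod : ∀ A B : ℕ, A * B = n → A % 4 = 3 → 1 < B → ∀ S : Finset ℕ,
    S = A.primeFactors ∨ S = B.primeFactors → ∃ s : ℤ, (s = 1 ∨ s = -1) ∧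
      aa A * bb B = s * 32 * Ψ S ^ 2
  triv : ∃ (g : ℕ) (s c : ℤ), (CondB n → Odd g) ∧ (s = 1 ∨ s = -1) ∧ (n % 3 = 2 → c = 3) ∧
    (n % 3 = 1 → c = 2) ∧ 4 * aa n = s * 8 * (8 * Ψ ∅ - c * 2 ^ n.primeFactors.card * g) ^ 2

theorem compl_eq {A B : ℕ} (h : Squarefree (A * B)) :
    B.primeFactors = (A * B).primeFactors \ A.primeFactors := by
  have hc := Nat.coprime_of_squarefree_mul h
  rw [hc.primeFactors_mul, union_sdiff_cancel_left hc.disjoint_primeFactors]

theorem sig_of_sym {aa bb : ℕ → ℤ} (h : SymData aa bb) (hC : ComplSt) {A B : ℕ}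
    (hn : Good (A * B)) (hA : A % 4 = 3) (hB : 1 < B) {S : Finset ℕ}
    (hS : S = A.primeFactors ∨ S = B.primeFactors) :
    S ⊆ (A * B).primeFactors ∧
    (∃ s : ℤ, (s = 1 ∨ s = -1) ∧ aa A * bb B = s * 8 * Sig (A * B) 1 S) ∧
      Sig (A * B) 2 S = -Sig (A * B) 1 S := by
  have h0 := h.e2 A B hn hA hB
  have hsub : A.primeFactors ⊆ (A * B).primeFactors :=
    Nat.primeFactors_mono (dvd_mul_right _ _) hn.sqf.ne_zero
  rcases hS with rfl | rfl
  · exact ⟨hsub, h0⟩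
  · refine ⟨Nat.primeFactors_mono (dvd_mul_left _ _) hn.sqf.ne_zero, ?_⟩
    rw [compl_eq hn.sqf, hC _ _ hn _ hsub, hC _ _ hn _ hsub]
    exact h0

theorem exists_pack {aa bb : ℕ → ℤ} (h : SymData aa bb) (hP : PointsSt) (h5 : Rank5St)
    (h3 : Rank3St) (hC : ComplSt) {n : ℕ} (hn : Good n) (hJ : J(-15 | n) = 1) :
    ∃ Ψ, Pack aa bb n Ψ := by
  obtain ⟨g, hg, hodd⟩ := hP n hn
  have hg' : (pts n : ℤ) = 6 * 2 ^ n.primeFactors.card * g := by exact_mod_cast hg
  obtain ⟨s, hs, e1⟩ := h.e1 n hn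
  have h2 : n % 2 = 1 := by have := hn.mod4; omega
  rcases (jac15_iff h2 hn.cop).mp hJ with ⟨a3, a5⟩ | ⟨a3, a5⟩
  · obtain ⟨Y, χ, ι, U, hχ, hι, hS, hc⟩ := h5 n hn a3 a5
    have hι' : ∀ y ∈ Y, ι y ∈ Y ∧ ι (ι y) = y ∧ ι y ≠ y := fun y hy =>
      ⟨(hι y hy).1, (hι y hy).2.1, (hι y hy).2.2.1⟩
    refine ⟨Psi Y χ, fun S R hd hR => ?_, fun _ hall S R hd hS' hR => ?_, fun S hS' hv => ?_,
      fun A B hAB hA hB S hS' => ?_, g, -s, 3, hodd hJ, by omega, fun _ => rfl, by omega, ?_⟩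
    · rw [sum_Psi Y χ hd]
      exact dvd_sum fun y hy => (dvd_prod_one_add fun p hp => hχ p (hR hp) y hy).mul_left _
    · rw [sum_Psi Y χ hd]
      refine dvd_sum_of_invol hι' (fun y hy => ?_)
        fun y hy => (dvd_prod_one_add fun p hp => hχ p (hR hp) y hy).mul_left _
      have e : ∀ p ∈ n.primeFactors, χ p (ι y) = χ p y := fun p hp => by
        rw [(hι y hy).2.2.2 p hp, hall p hp, one_mul]
      rw [prod_congr rfl fun p hp => e p (hS' hp),
        prod_congr rfl fun p hp => congrArg (1 + ·) (e p (hR hp))]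
    · refine sum_eq_zero_of_invol hι' fun y hy => ?_
      rw [prod_congr rfl fun p hp => (hι y hy).2.2.2 p (hS' hp), prod_mul_distrib, hv]
      ring
    · subst hAB
      obtain ⟨hsub, ⟨t, ht, e⟩, e'⟩ := sig_of_sym h hC hn hA hB hS'
      obtain ⟨f1, f2⟩ := hS S hsub
      have hU : U S = -3 * Psi Y χ S := by
        have : (3 * Psi Y χ S + U S) ^ 2 = 0 := by linear_combination 3 * e' - f1 - 3 * f2
        have := pow_eq_zero_iff two_ne_zero |>.mp this
        linarith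
      have : Sig (A * B) 1 S = 4 * Psi Y χ S ^ 2 := by
        rw [hU] at f1; linarith
      exact ⟨t, ht, by rw [e, this]; ring⟩
    · obtain ⟨f1, f2⟩ := hS ∅ (empty_subset _)
      have hY : Psi Y χ ∅ = Y.card := by simp [Psi]
      rw [hg', ← hY] at hc
      have hU : 2 * U ∅ = 3 * 2 ^ n.primeFactors.card * g - 6 * Psi Y χ ∅ := by linarith
      rw [e1, f2, f1]
      have : 8 * Psi Y χ ∅ - 3 * 2 ^ n.primeFactors.card * g = 2 * (Psi Y χ ∅ - U ∅) := by
        linarith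
      rw [this]; ring
  · obtain ⟨Y, χ, U, hχ, hS, hc⟩ := h3 n hn a3 a5
    refine ⟨Psi Y χ, fun S R hd hR => ?_, fun h' => by omega, fun S hS' => (hS S hS').2.2,
      fun A B hAB hA hB S hS' => ?_, g, s, 2, hodd hJ, hs, by omega, fun _ => rfl, ?_⟩
    · rw [sum_Psi Y χ hd]
      exact dvd_sum fun y hy => (dvd_prod_one_add fun p hp => hχ p (hR hp) y hy).mul_left _
    · subst hAB
      obtain ⟨hsub, ⟨t, ht, e⟩, e'⟩ := sig_of_sym h hC hn hA hB hS'
      obtain ⟨f1, f2, -⟩ := hS S hsub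
      have hU : U S = -Psi Y χ S := by
        have : 4 * (Psi Y χ S + U S) ^ 2 = 0 := by linear_combination e' - f1 - f2
        have := pow_eq_zero_iff two_ne_zero |>.mp ((mul_eq_zero.mp this).resolve_left (by norm_num))
        linarith
      exact ⟨-t, by omega, by rw [e, f1, hU]; ring⟩
    · obtain ⟨f1, f2, -⟩ := hS ∅ (empty_subset _)
      have hY : Psi Y χ ∅ = Y.card := by simp [Psi]
      rw [hg', ← hY] at hc
      rw [e1, f2, f1]
      have : 8 * Psi Y χ ∅ - 2 * 2 ^ n.primeFactors.card * g = 4 * (Psi Y χ ∅ - U ∅) := by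
        linarith
      rw [this]; ring

theorem dvd_of_sq {r : ℕ} {s x y : ℤ} (hs : s = 1 ∨ s = -1) (e : y = s * 32 * x ^ 2)
    (h : (2 : ℤ) ^ (2 * r + 3) ∣ 4 * y) : (2 : ℤ) ^ r ∣ 4 * x := by
  have h1 : (2 : ℤ) ^ (2 * r + 3) ∣ s * (4 * y) := h.mul_left _
  have h2 : s * (4 * y) = (4 * x) ^ 2 * 8 := by
    rcases hs with rfl | rfl <;> rw [e] <;> ring
  rw [h2, show (2 : ℤ) ^ (2 * r + 3) = (2 ^ r) ^ 2 * 8 by ring] at h1
  exact (Int.pow_dvd_pow_iff two_ne_zero).mp (Int.dvd_of_mul_dvd_mul_right (by norm_num) h1)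

/-- Positive discriminants that occur. -/
structure Pos (B : ℕ) : Prop where
  sqf : Squarefree B
  mod4 : B % 4 = 1
  cop : Nat.Coprime B 15
  one_lt : 1 < B

theorem split_good {A B : ℕ} (hn : Good (A * B)) (hA : A % 4 = 3) (hB : 1 < B) :
    Good A ∧ Pos B := by
  have h4 := hn.mod4
  refine ⟨⟨hn.sqf.of_mul_left, hA, Nat.Coprime.coprime_mul_right hn.cop⟩,
    ⟨hn.sqf.of_mul_right, ?_, Nat.Coprime.coprime_mul_left hn.cop, hB⟩⟩
  rw [Nat.mul_mod, hA] at h4
  have : B % 4 < 4 := Nat.mod_lt _ (by norm_num)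
  generalize B % 4 = b at *
  interval_cases b <;> omega

theorem card_mul {A B : ℕ} (h : Squarefree (A * B)) :
    (A * B).primeFactors.card = A.primeFactors.card + B.primeFactors.card := by
  have hc := Nat.coprime_of_squarefree_mul h
  rw [hc.primeFactors_mul, card_union_of_disjoint hc.disjoint_primeFactors]

variable {aa bb : ℕ → ℤ}

/-- One term of the character sum, from divisibility of the two factors. -/
theorem term_of {A B : ℕ} {Ψ : Finset ℕ → ℤ} (hn : Good (A * B)) (hJ : J(-15 | A * B) = 1)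
    (hΨ : Pack aa bb (A * B) Ψ) (hA : A % 4 = 3) (hB : 1 < B) {S : Finset ℕ}
    (hS : S = A.primeFactors ∨ S = B.primeFactors)
    (h : J(-15 | A) = 1 → J(-15 | B) = 1 →
      (2 : ℤ) ^ (2 * (A * B).primeFactors.card + 3) ∣ 4 * (aa A * bb B)) :
    (2 : ℤ) ^ (A * B).primeFactors.card ∣ 4 * Ψ S := by
  obtain ⟨gA, gB⟩ := split_good hn hA hB
  rw [jacobiSym.mul_right' _ gA.sqf.ne_zero gB.sqf.ne_zero] at hJ
  rcases jac15_cases gA.cop with e | e
  · obtain ⟨s, hs, e'⟩ := hΨ.prod A B rfl hA hB S hS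
    exact dvd_of_sq hs e' (h e (by rwa [e, one_mul] at hJ))
  · have eB : J(-15 | B) = -1 := by rw [e] at hJ; linarith
    have : Ψ S = 0 := by
      rcases hS with rfl | rfl
      · exact hΨ.van _ (Nat.primeFactors_mono (dvd_mul_right _ _) hn.sqf.ne_zero)
          (by rw [jac_primeFactors _ gA.sqf, e])
      · exact hΨ.van _ (Nat.primeFactors_mono (dvd_mul_left _ _) hn.sqf.ne_zero)
          (by rw [jac_primeFactors _ gB.sqf, eB])
    simp [this]

/-- Divisibility claim for negative discriminants. -/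
def NN (aa : ℕ → ℤ) (k : ℕ) : Prop := ∀ A : ℕ, Good A → J(-15 | A) = 1 →
  A.primeFactors.card = k → (2 : ℤ) ^ (2 * k + 1) ∣ aa A

/-- Divisibility claim for positive discriminants. -/
def TT (bb : ℕ → ℤ) (k : ℕ) : Prop := ∀ B : ℕ, Pos B → J(-15 | B) = 1 →
  B.primeFactors.card = k → (2 : ℤ) ^ (2 * k) ∣ bb B

/-- Weak divisibility claim for positive discriminants. -/
def WW (bb : ℕ → ℤ) (k : ℕ) : Prop := ∀ B : ℕ, Pos B → J(-15 | B) = 1 →
  B.primeFactors.card = k → (2 : ℤ) ^ (2 * k) ∣ 4 * bb B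

theorem dvd_of_NT {a b : ℕ} {x y : ℤ} (hx : (2 : ℤ) ^ (2 * a + 1) ∣ x) (hy : (2 : ℤ) ^ (2 * b) ∣ y) :
    (2 : ℤ) ^ (2 * (a + b) + 3) ∣ 4 * (x * y) := by
  rw [show (2 : ℤ) ^ (2 * (a + b) + 3) = 4 * (2 ^ (2 * a + 1) * 2 ^ (2 * b)) by ring]
  exact mul_dvd_mul_left _ (mul_dvd_mul hx hy)

theorem exists_split {n : ℕ} (hn : Good n) {S : Finset ℕ} (hS : S ⊆ n.primeFactors)
    (h0 : S.Nonempty) (h1 : S.card < n.primeFactors.card) :
    ∃ A B : ℕ, A * B = n ∧ A % 4 = 3 ∧ 1 < B ∧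
      ((S = A.primeFactors ∧ n.primeFactors \ S = B.primeFactors) ∨
        (S = B.primeFactors ∧ n.primeFactors \ S = A.primeFactors)) := by
  have hp : ∀ p ∈ n.primeFactors, p.Prime := fun p hp => Nat.prime_of_mem_primeFactors hp
  have e1 : (∏ p ∈ S, p).primeFactors = S := Nat.primeFactors_prod fun p h => hp p (hS h)
  have e2 : (∏ p ∈ n.primeFactors \ S, p).primeFactors = n.primeFactors \ S :=
    Nat.primeFactors_prod fun p h => hp p (mem_sdiff.mp h).1
  have e : (∏ p ∈ n.primeFactors \ S, p) * ∏ p ∈ S, p = n := by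
    rw [prod_sdiff hS, Nat.prod_primeFactors_of_squarefree hn.sqf]
  have l1 : 1 < ∏ p ∈ S, p := by rw [← Nat.nonempty_primeFactors, e1]; exact h0
  have l2 : 1 < ∏ p ∈ n.primeFactors \ S, p := by
    rw [← Nat.nonempty_primeFactors, e2, ← card_pos, card_sdiff_of_subset hS]; omega
  have h4 := hn.mod4
  generalize (∏ p ∈ n.primeFactors \ S, p) = X at *
  generalize (∏ p ∈ S, p) = Y at *
  by_cases hY : Y % 4 = 3
  · exact ⟨Y, X, by rw [mul_comm, e], hY, l2, Or.inl ⟨e1.symm, e2.symm⟩⟩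
  · refine ⟨X, Y, e, ?_, l1, Or.inr ⟨e1.symm, e2.symm⟩⟩
    rw [← e, Nat.mul_mod] at h4
    have : X % 4 < 4 := Nat.mod_lt _ (by norm_num)
    have : Y % 4 < 4 := Nat.mod_lt _ (by norm_num)
    generalize X % 4 = x at *
    generalize Y % 4 = y at *
    interval_cases x <;> interval_cases y <;> omega

/-- A term both of whose parts are covered by the induction hypothesis. -/
theorem term_low {n k : ℕ} {Ψ : Finset ℕ → ℤ} (hn : Good n) (hJ : J(-15 | n) = 1)
    (hΨ : Pack aa bb n Ψ) (ih : ∀ j < k, NN aa j ∧ TT bb j) {S : Finset ℕ}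
    (hS : S ⊆ n.primeFactors) (h0 : S.Nonempty) (h1 : S.card < n.primeFactors.card)
    (h2 : S.card < k) (h3 : n.primeFactors.card < k + S.card) :
    (2 : ℤ) ^ n.primeFactors.card ∣ 4 * Ψ S := by
  obtain ⟨A, B, rfl, hA, hB, h⟩ := exists_split hn hS h0 h1
  obtain ⟨gA, gB⟩ := split_good hn hA hB
  have hc := card_mul hn.sqf
  refine term_of hn hJ hΨ hA hB (h.imp And.left And.left) fun jA jB => ?_
  have : A.primeFactors.card < k ∧ B.primeFactors.card < k := by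
    rcases h with ⟨rfl, -⟩ | ⟨rfl, -⟩ <;> omega
  rw [hc]
  exact dvd_of_NT ((ih _ this.1).1 A gA jA rfl) ((ih _ this.2).2 B gB jB rfl)

theorem dvd_of_sum {S R : Finset ℕ} {Ψ : Finset ℕ → ℤ} {m : ℤ}
    (h : m ∣ 4 * ∑ T ∈ R.powerset, Ψ (S ∪ T))
    (h' : ∀ T ⊆ R, T.Nonempty → m ∣ 4 * Ψ (S ∪ T)) : m ∣ 4 * Ψ S := by
  rw [← add_sum_erase _ _ (empty_mem_powerset R), union_empty, mul_add, mul_sum] at h
  refine (dvd_add_left (dvd_sum fun T hT => ?_)).mp h
  rw [mem_erase, mem_powerset] at hT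
  exact h' T hT.2 (nonempty_iff_ne_empty.mpr hT.1)

theorem good_card_pos {n : ℕ} (hn : Good n) : n.primeFactors.Nonempty := by
  rw [Nat.nonempty_primeFactors]; have := hn.mod4; omega

/-- The trivial character. -/
theorem triv_dvd {n : ℕ} {Ψ : Finset ℕ → ℤ} (hn : Good n) (hJ : J(-15 | n) = 1)
    (hΨ : Pack aa bb n Ψ) (ih : ∀ j < n.primeFactors.card, NN aa j ∧ TT bb j) :
    (2 : ℤ) ^ n.primeFactors.card ∣ 4 * Ψ ∅ := by
  obtain ⟨p, hp⟩ := good_card_pos hn
  have hc := card_erase_add_one hp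
  refine dvd_of_sum (R := n.primeFactors.erase p) ?_ fun T hT h0 => ?_
  · have := hΨ.cong ∅ _ (disjoint_empty_left _) (erase_subset p _)
    rw [← hc, pow_succ']
    exact mul_dvd_mul (by norm_num) this
  · have := card_le_card hT
    have := h0.card_pos
    rw [empty_union]
    exact term_low hn hJ hΨ ih (hT.trans (erase_subset p _)) h0 (by omega) (by omega) (by omega)

/-- All discriminants have a package. -/
def HasPack (aa bb : ℕ → ℤ) : Prop := ∀ n : ℕ, Good n → J(-15 | n) = 1 → ∃ Ψ, Pack aa bb n Ψ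

theorem step_N (H : HasPack aa bb) {k : ℕ} (ih : ∀ j < k, NN aa j ∧ TT bb j) : NN aa k := by
  rintro n hn hJ rfl
  obtain ⟨Ψ, hΨ⟩ := H n hn hJ
  obtain ⟨u, hu⟩ := triv_dvd hn hJ hΨ ih
  obtain ⟨g, s, c, -, -, -, -, e⟩ := hΨ.triv
  refine ⟨s * (2 * u - c * g) ^ 2, ?_⟩
  have : 8 * Ψ ∅ = 2 * (2 ^ n.primeFactors.card * u) := by linarith
  rw [this] at e
  have e' : 4 * aa n = 4 * (2 ^ (2 * n.primeFactors.card + 1) * (s * (2 * u - c * g) ^ 2)) := by
    rw [e]; ring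
  linarith

theorem ne_zero_of (H : HasPack aa bb) {n : ℕ} (hn : Good n) (hJ : J(-15 | n) = 1)
    (h3 : n % 3 = 2) (hB : CondB n) (ih : ∀ j < n.primeFactors.card, NN aa j ∧ TT bb j) :
    ∃ P s : ℤ, Odd P ∧ (s = 1 ∨ s = -1) ∧
      aa n = s * 2 ^ (2 * n.primeFactors.card + 1) * P ^ 2 := by
  obtain ⟨Ψ, hΨ⟩ := H n hn hJ
  obtain ⟨u, hu⟩ := triv_dvd hn hJ hΨ ih
  obtain ⟨g, s, c, hg, hs, hc, -, e⟩ := hΨ.triv
  obtain rfl := hc h3
  refine ⟨2 * u - 3 * g, s, ?_, hs, ?_⟩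
  · exact (even_two_mul u).sub_odd (Odd.mul (by decide) (by exact_mod_cast hg hB))
  have : 8 * Ψ ∅ = 2 * (2 ^ n.primeFactors.card * u) := by linarith
  rw [this] at e
  have e' : 4 * aa n = 4 * (s * 2 ^ (2 * n.primeFactors.card + 1) * (2 * u - 3 * g) ^ 2) := by
    rw [e]; ring
  linarith

theorem condB_prime {l : ℕ} (hl : l.Prime) : CondB l := by
  intro d d' h hd _ _
  have h1 : d.natAbs * d'.natAbs = l := by rw [← Int.natAbs_mul, h]; simp
  have hd' : 0 < d' := by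
    have : (0 : ℤ) < d * d' := by rw [h]; exact_mod_cast hl.pos
    exact (pos_iff_pos_of_mul_pos this).mp hd
  rcases (Nat.dvd_prime hl).mp ⟨_, h1.symm⟩ with e | e
  · left; omega
  · right
    rw [e] at h1
    have := Nat.eq_of_mul_eq_mul_left hl.pos (h1.trans (mul_one l).symm)
    omega

theorem low_one : ∀ j < 1, NN aa j ∧ TT bb j := by
  intro j hj
  obtain rfl : j = 0 := by omega
  refine ⟨fun A hA _ h => ?_, fun B _ _ _ => by simp⟩
  have := (good_card_pos hA).card_pos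
  omega

theorem thirtytwo_dvd (H : HasPack aa bb) {p : ℕ} (hp : p.Prime) (hn : Good p)
    (hJ : J(-15 | p) = 1) (h3 : p % 3 = 1) : (32 : ℤ) ∣ aa p := by
  obtain ⟨Ψ, hΨ⟩ := H p hn hJ
  obtain ⟨g, s, c, -, -, -, hc, e⟩ := hΨ.triv
  obtain rfl := hc h3
  rw [hp.primeFactors, card_singleton] at e
  refine ⟨s * (2 * Ψ ∅ - g) ^ 2, ?_⟩
  have e' : 4 * aa p = 4 * (32 * (s * (2 * Ψ ∅ - g) ^ 2)) := by rw [e]; ring
  linarith

/-- The auxiliary prime. -/
theorem exists_aux (H : HasPack aa bb) {B : ℕ} (hB : Pos B) (hJ : J(-15 | B) = 1) :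
    ∃ (l : ℕ) (Ψ : Finset ℕ → ℤ), l.Prime ∧ l % 60 = 23 ∧ l ∉ B.primeFactors ∧ Good (l * B) ∧
      J(-15 | l * B) = 1 ∧ Pack aa bb (l * B) Ψ ∧
      (l * B).primeFactors = insert l B.primeFactors ∧
      ∀ (j : ℕ) (c : ℤ), (2 : ℤ) ^ j ∣ c * (2 * Ψ {l}) → (2 : ℤ) ^ (2 * j) ∣ c ^ 2 * bb B := by
  obtain ⟨l, hlB, hl, hl60⟩ := Nat.forall_exists_prime_gt_and_modEq B (q := 60) (a := 23)
    (by norm_num) (by norm_num)
  have h60 : l % 60 = 23 := hl60
  have hnd : ¬ l ∣ B := Nat.not_dvd_of_pos_of_lt (by have := hB.one_lt; omega) hlB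
  have hc15 : Nat.Coprime l 15 := by
    rw [Nat.coprime_comm, Nat.Coprime, Nat.gcd_rec, show l % 15 = 8 by omega]; norm_num
  have gl : Good l := ⟨hl.prime.squarefree, by omega, hc15⟩
  have jl : J(-15 | l) = 1 := (jac15_iff (by omega) hc15).mpr (by omega)
  have gn : Good (l * B) := by
    refine ⟨(Nat.squarefree_mul ((Nat.Prime.coprime_iff_not_dvd hl).mpr hnd)).mpr
      ⟨gl.sqf, hB.sqf⟩, ?_, Nat.Coprime.mul_left hc15 hB.cop⟩
    rw [Nat.mul_mod, gl.mod4, hB.mod4]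
  have jn : J(-15 | l * B) = 1 := by
    rw [jacobiSym.mul_right' _ hl.ne_zero hB.sqf.ne_zero, jl, hJ, one_mul]
  obtain ⟨Ψ, hΨ⟩ := H _ gn jn
  refine ⟨l, Ψ, hl, h60, fun h => hnd (Nat.dvd_of_mem_primeFactors h), gn, jn, hΨ, ?_,
    fun j c h => ?_⟩
  · rw [Nat.primeFactors_mul hl.ne_zero hB.sqf.ne_zero, hl.primeFactors, singleton_union]
  · obtain ⟨P, s, hP, hs, e⟩ := ne_zero_of H gl jl (by omega) (condB_prime hl)
      (by rw [hl.primeFactors, card_singleton]; exact low_one)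
    obtain ⟨t, ht, e'⟩ := hΨ.prod l B rfl gl.mod4 hB.one_lt {l} (Or.inl hl.primeFactors.symm)
    rw [hl.primeFactors, card_singleton] at e
    rw [e] at e'
    have e2 : P ^ 2 * (c ^ 2 * bb B) = s * t * (c * (2 * Ψ {l})) ^ 2 := by
      have : P ^ 2 * bb B = s * t * (2 * Ψ {l}) ^ 2 := by
        refine mul_left_cancel₀ (show (8 : ℤ) ≠ 0 by norm_num) ?_
        rcases hs with rfl | rfl
        · linear_combination e'
        · linear_combination -e'
      linear_combination c ^ 2 * this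
    have h1 : (2 : ℤ) ^ (2 * j) ∣ P ^ 2 * (c ^ 2 * bb B) := by
      rw [e2, pow_mul']
      exact (pow_dvd_pow_of_dvd h 2).mul_left _
    refine IsCoprime.dvd_of_dvd_mul_left ?_ h1
    exact IsCoprime.pow (Int.isCoprime_two_left.mpr hP)

theorem exists_two {R : Finset ℕ} (h : 2 ≤ R.card) :
    ∃ R' ⊆ R, R'.card + 2 = R.card := by
  obtain ⟨R', h1, h2⟩ := exists_subset_card_eq (s := R) (n := R.card - 2) (by omega)
  exact ⟨R', h1, by omega⟩

/-- The terms of a sum that omits two primes are covered by the induction hypothesis. -/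
theorem terms_two {l B : ℕ} {Ψ : Finset ℕ → ℤ} (hl : l ∉ B.primeFactors) (gn : Good (l * B))
    (jn : J(-15 | l * B) = 1) (hΨ : Pack aa bb (l * B) Ψ)
    (hpf : (l * B).primeFactors = insert l B.primeFactors)
    (ih : ∀ j < B.primeFactors.card, NN aa j ∧ TT bb j) {T : Finset ℕ} (hT : T ⊆ B.primeFactors)
    (h0 : T.Nonempty) (h2 : T.card + 2 ≤ B.primeFactors.card) :
    (2 : ℤ) ^ (B.primeFactors.card + 1) ∣ 4 * Ψ ({l} ∪ T) := by
  have hc : (l * B).primeFactors.card = B.primeFactors.card + 1 := by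
    rw [hpf, card_insert_of_notMem hl]
  have hc' : ({l} ∪ T).card = T.card + 1 := by
    rw [singleton_union, card_insert_of_notMem fun h => hl (hT h)]
  have := h0.card_pos
  rw [← hc]
  refine term_low gn jn hΨ ih ?_ (by simp) (by omega) (by omega) (by omega)
  rw [hpf, singleton_union]
  exact insert_subset_insert _ hT

theorem step_W (H : HasPack aa bb) {k : ℕ} (hk : 2 ≤ k) (ih : ∀ j < k, NN aa j ∧ TT bb j) :
    WW bb k := by
  rintro B hB hJ rfl
  obtain ⟨l, Ψ, -, -, hl, gn, jn, hΨ, hpf, key⟩ := exists_aux H hB hJ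
  obtain ⟨R, hR, hc⟩ := exists_two hk
  have := key B.primeFactors.card 2 (by
    rw [← mul_assoc, show (2 : ℤ) * 2 = 4 by norm_num]
    refine dvd_of_sum (R := R) ?_ fun T hT h0 => ?_
    · have := hΨ.cong {l} R (disjoint_singleton_left.mpr fun h => hl (hR h))
        (hpf ▸ hR.trans (subset_insert _ _))
      rw [← hc, pow_add, mul_comm]
      exact mul_dvd_mul (by norm_num) this
    · have := card_le_card hT
      exact (pow_dvd_pow _ (by omega)).trans
        (terms_two hl gn jn hΨ hpf ih (hT.trans hR) h0 (by omega)))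
  simpa using this

theorem mod_twelve {S : Finset ℕ} (h : ∀ p ∈ S, p % 12 = 11) :
    (∏ p ∈ S, p) % 12 = 1 ∨ (∏ p ∈ S, p) % 12 = 11 := by
  induction S using Finset.induction_on with
  | empty => simp
  | insert p S hp ih =>
    rw [prod_insert hp, Nat.mul_mod, h p (mem_insert_self _ _)]
    rcases ih fun q hq => h q (mem_insert_of_mem hq) with e | e <;> simp [e]

theorem step_T (H : HasPack aa bb) {k : ℕ} (ih : ∀ j < k, NN aa j ∧ TT bb j) : TT bb k := by
  rintro B hB hJ rfl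
  obtain ⟨l, Ψ, hlp, h60, hl, gn, jn, hΨ, hpf, key⟩ := exists_aux H hB hJ
  have hc : (l * B).primeFactors.card = B.primeFactors.card + 1 := by
    rw [hpf, card_insert_of_notMem hl]
  suffices h : (2 : ℤ) ^ (B.primeFactors.card + 1) ∣ 4 * Ψ {l} by
    have := key B.primeFactors.card 1 (by
      rw [pow_succ', show 4 * Ψ {l} = 2 * (1 * (2 * Ψ {l})) by ring] at h
      exact Int.dvd_of_mul_dvd_mul_left two_ne_zero h)
    simpa using this
  have hodd : ∀ p ∈ B.primeFactors, p % 2 = 1 := fun p hp => by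
    have h1 := Nat.dvd_of_mem_primeFactors hp
    have h2 := hB.mod4
    rcases (Nat.prime_of_mem_primeFactors hp).eq_two_or_odd with rfl | h
    · omega
    · exact h
  have hcop : ∀ p ∈ B.primeFactors, Nat.Coprime p 15 := fun p hp =>
    Nat.Coprime.coprime_dvd_left (Nat.dvd_of_mem_primeFactors hp) hB.cop
  by_cases hex : ∃ p ∈ B.primeFactors, p % 4 = 1 ∨ J(-15 | p) = -1 ∨ p % 3 = 1
  · obtain ⟨p, hp, hcase⟩ := hex
    have hpp := Nat.prime_of_mem_primeFactors hp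
    have hce := card_erase_add_one hp
    refine dvd_of_sum (R := B.primeFactors.erase p) ?_ fun T hT h0 => ?_
    · have := hΨ.cong {l} (B.primeFactors.erase p)
        (disjoint_singleton_left.mpr fun h => hl (mem_of_mem_erase h))
        (hpf ▸ (erase_subset _ _).trans (subset_insert _ _))
      rw [← hce, add_assoc, pow_add, mul_comm]
      exact mul_dvd_mul (by norm_num) this
    have hle := card_le_card hT
    have h0' := h0.card_pos
    by_cases hlt : T.card + 2 ≤ B.primeFactors.card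
    · exact terms_two hl gn jn hΨ hpf ih (hT.trans (erase_subset _ _)) h0 hlt
    obtain rfl : T = B.primeFactors.erase p := eq_of_subset_of_card_le hT (by omega)
    obtain ⟨B', hB'⟩ := Nat.dvd_of_mem_primeFactors hp
    have hn : l * B = p * (l * B') := by rw [hB']; ring
    have hn' : l * B = l * B' * p := by rw [hB']; ring
    have hS : {l} ∪ B.primeFactors.erase p = (l * B').primeFactors := by
      have hne : l ≠ p := fun h => hl (h ▸ hp)
      rw [compl_eq (A := p) (B := l * B') (hn ▸ gn.sqf), ← hn, hpf, hpp.primeFactors, sdiff_singleton_eq_erase,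
        erase_insert_of_ne hne, singleton_union]
    have hcard : (l * B').primeFactors.card = B.primeFactors.card := by
      have := card_mul (hn ▸ gn.sqf)
      rw [← hn, hpp.primeFactors, card_singleton] at this
      omega
    have hone : p.primeFactors.card = 1 := by rw [hpp.primeFactors, card_singleton]
    have hlt1 : 1 < l * B' := by rw [← Nat.nonempty_primeFactors, ← card_pos]; omega
    rw [← hc, hS]
    by_cases h4 : p % 4 = 1
    · have hA : l * B' % 4 = 3 := by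
        have := gn.mod4
        rw [hn', Nat.mul_mod, h4] at this
        omega
      rw [hn'] at gn jn hΨ hc ⊢
      obtain ⟨gA, gB⟩ := split_good gn hA hpp.one_lt
      refine term_of gn jn hΨ hA hpp.one_lt (Or.inl rfl) fun jA jB => ?_
      rw [hc]
      exact dvd_of_NT (step_N H ih _ gA jA hcard) ((ih 1 (by omega)).2 p gB jB hone)
    · have hA : p % 4 = 3 := by have := hodd p hp; omega
      rw [hn] at gn jn hΨ hc ⊢
      obtain ⟨gA, gB⟩ := split_good gn hA hlt1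
      refine term_of gn jn hΨ hA hlt1 (Or.inr rfl) fun jA jB => ?_
      have h3 : p % 3 = 1 := by
        rcases hcase with h | h | h
        · exact absurd h h4
        · rw [jA] at h; omega
        · exact h
      rw [hc, show (2 : ℤ) ^ (2 * (B.primeFactors.card + 1) + 3) =
        32 * 2 ^ (2 * B.primeFactors.card) by ring,
        show 4 * (aa p * bb (l * B')) = aa p * (4 * bb (l * B')) by ring]
      exact mul_dvd_mul (thirtytwo_dvd H hpp gA jA h3)
        (step_W H (by omega) ih _ gB jB hcard)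
  · push Not at hex
    have h12 : ∀ p ∈ B.primeFactors, p % 12 = 11 := fun p hp => by
      have h1 := hodd p hp
      have h2 := hex p hp
      have h3 := (not_dvd_of_cop (hcop p hp)).1
      omega
    have hB12 := mod_twelve h12
    rw [Nat.prod_primeFactors_of_squarefree hB.sqf] at hB12
    have hB4 := hB.mod4
    have hn3 : l * B % 3 = 2 := by
      rw [Nat.mul_mod, show l % 3 = 2 by omega, show B % 3 = 1 by omega]
    have hk : 2 ≤ B.primeFactors.card := by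
      by_contra hlt
      have h1 : 0 < B.primeFactors.card :=
        card_pos.mpr (Nat.nonempty_primeFactors.mpr hB.one_lt)
      obtain ⟨p, hp⟩ := card_eq_one.mp (show B.primeFactors.card = 1 by omega)
      have h2 := Nat.prod_primeFactors_of_squarefree hB.sqf
      have h3 := h12 p (by rw [hp]; exact mem_singleton_self p)
      rw [hp, prod_singleton] at h2
      omega
    have hall : ∀ p ∈ (l * B).primeFactors, J(-15 | p) = 1 := fun p hp => by
      rw [hpf, mem_insert] at hp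
      rcases hp with rfl | hp
      · rw [jac15_mod (by omega), show p % 15 = 8 by omega]; norm_num
      · exact (jac15_cases (hcop p hp)).resolve_right (hex p hp).2.1
    obtain ⟨R, hR, hc2⟩ := exists_two hk
    refine dvd_of_sum (R := R) ?_ fun T hT h0 => ?_
    · have := hΨ.cong2 hn3 hall {l} R (disjoint_singleton_left.mpr fun h => hl (hR h))
        (by rw [hpf]; simp) (hpf ▸ hR.trans (subset_insert _ _))
      rw [← hc2, show (2 : ℤ) ^ (R.card + 2 + 1) = 4 * (2 * 2 ^ R.card) by ring]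
      exact mul_dvd_mul_left _ this
    · have := card_le_card hT
      exact terms_two hl gn jn hΨ hpf ih (hT.trans hR) h0 (by omega)

theorem all_NT (H : HasPack aa bb) (k : ℕ) : NN aa k ∧ TT bb k := by
  induction k using Nat.strong_induction_on with
  | _ k ih => exact ⟨step_N H ih, step_T H ih⟩

/-- The two-adic induction. -/
theorem aa_ne_zero_of (hP : PointsSt) (h5 : Rank5St) (h3 : Rank3St) (hC : ComplSt)
    (h : SymData aa bb) {n : ℕ} (hn : Good n) (a3 : n % 3 = 2) (a5 : n % 5 = 2 ∨ n % 5 = 3)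
    (hB : CondB n) : aa n ≠ 0 := by
  have H : HasPack aa bb := fun n hn hJ => exists_pack h hP h5 h3 hC hn hJ
  have h2 : n % 2 = 1 := by have := hn.mod4; omega
  obtain ⟨P, s, hP, hs, e⟩ := ne_zero_of H hn ((jac15_iff h2 hn.cop).mpr (Or.inl ⟨a3, a5⟩)) a3 hB
    fun j _ => all_NT H j
  rw [e]
  have hP0 : P ≠ 0 := by rintro rfl; exact absurd hP (by decide)
  rcases hs with rfl | rfl <;> positivity

end GInd

end Pool.Agent.Lib.MP_696deb_nt
end

-- part Pool.Agent.Lib.MP_696deb_nt.SymTheta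
section

set_option autoImplicit false

open Finset NumberTheorySymbols

namespace Pool.Agent.Lib.MP_696deb_nt

/-- Intersection with a fixed closed cycle. -/
noncomputable def Th (r s : V2) : ℤ := Phi (fun _ => 1) 1 r s (0, 1) (1, 2)

theorem cop_one : Cop 1 := by constructor <;> decide
theorem cc_half : CC (1, 2) := Or.inl (by decide)

theorem Th_add {r s t : V2} (hr : CC r) (hs : CC s) (ht : CC t) : Th r s + Th s t = Th r t :=
  Phi_add_left cop_one hr hs ht cc_e2 cc_half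

theorem Th_inv {g : M2} (hg : g.det = 1) (hc : 15 ∣ g.c) (r s : V2) :
    Th (g.ap r) (g.ap s) = Th r s := Phi_inv_left hg hc fun _ => rfl

theorem phi_eq_sum_Th {A : ℕ} (hA : Good A) :
    phi A ((1 : ℕ) * A) (0, 1) (1, 2) = ∑ k ∈ range A, J((k : ℤ) | A) * Th (1, 0) (k, A) := by
  have hc := cop_of_coprime hA.cop
  have hA0 : (0 : ℤ) < A := by have := hA.mod4; omega
  have h1 : ∀ k : ℕ, Th (1, 0) (k, A) =
      Phi (fun X => if (A : ℤ) ∣ X.c * k - -X.a ∧ (A : ℤ) ∣ X.d * k - -X.b then 1 else 0)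
        ((1 : ℕ) * A) (1, 0) (0, 1) (0, 1) (1, 2) := fun k => by
    unfold Th Phi
    rw [finsum_inj (F := term (fun X => if (A : ℤ) ∣ X.c * k - -X.a ∧ (A : ℤ) ∣ X.d * k - -X.b
        then 1 else 0) ((1 : ℕ) * A) (1, 0) (0, 1) (0, 1) (1, 2))
      (mul_left_inj (V := ⟨A, -k, 0, 1⟩) (by simpa [M2.det] using hc.ne_zero)) fun X hX => ?_]
    · refine finsum_congr fun Y => ?_
      have h2 : InX ((1 : ℕ) * A) (M2.mul ⟨A, -k, 0, 1⟩ Y) ↔ InX 1 Y := by
        simpa using inX_upper_mul (δ := 1) (p := A) (q := -k) (t := 1) (X := Y) (by simpa using hc)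
      have h3 : ∀ y : V2, ori (1, 0) (0, 1) (M2.ap ⟨A, -k, 0, 1⟩ y) = ori (1, 0) (k, A) y := by
        intro y
        rw [ori_std, ori, show dt (1, 0) ((k : ℤ), (A : ℤ)) = A by simp [dt],
          Int.sign_eq_one_of_pos hA0,
          show dt ((k : ℤ), (A : ℤ)) y = -(A * y.1 + -k * y.2) by simp only [dt]; ring,
          show dt y (1, 0) = -y.2 by simp [dt]]
        simp only [M2.ap, Int.sign_neg, zero_mul, one_mul, zero_add, neg_mul_neg]
      simp only [term, h2, M2.ap_mul, h3]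
      rw [if_pos (show (A : ℤ) ∣ _ ∧ (A : ℤ) ∣ _ from
        ⟨⟨Y.a, by simp only [M2.mul]; ring⟩, ⟨Y.b, by simp only [M2.mul]; ring⟩⟩)]
    · have h4 : (A : ℤ) ∣ X.c * k - -X.a ∧ (A : ℤ) ∣ X.d * k - -X.b := by
        by_contra h
        exact hX (by simp only [term, if_neg h, zero_mul, ite_self])
      obtain ⟨⟨a, ha⟩, ⟨b, hb⟩⟩ := h4
      exact ⟨⟨a, b, X.c, X.d⟩, by ext <;> simp only [M2.mul] <;> linarith⟩
  simp only [h1, ← Phi_mul_w]
  rw [← Phi_sum_w (cop_mul hA (Or.inl rfl)) cc_e1 cc_e2 cc_e2 cc_half]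
  refine Phi_congr fun X _ => ?_
  rw [om1, KK]
  refine sum_congr rfl fun k _ => ?_
  split_ifs <;> ring

theorem no_cross {a b c d : ℤ} (h : 3 * a * (3 * d) - b * (15 * c) = 3 * 1)
    (h1 : (0 < b * (45 * c + 18 * d - 48 * a - 32 * b) ∧ (3 * a + 2 * b) * (9 * d - 16 * b) < 0) ∨
      (b * (45 * c + 18 * d - 48 * a - 32 * b) < 0 ∧ 0 < (3 * a + 2 * b) * (9 * d - 16 * b))) :
    False := by
  have h2 : b * (45 * c + 18 * d - 48 * a - 32 * b) - (3 * a + 2 * b) * (9 * d - 16 * b) = -9 := by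
    linear_combination -3 * h
  rcases h1 with h1 | h1
  · omega
  have h3 : |b * (45 * c + 18 * d - 48 * a - 32 * b)| ≤ 8 := by rw [abs_le]; omega
  have h4 : |(3 * a + 2 * b) * (9 * d - 16 * b)| ≤ 8 := by rw [abs_le]; omega
  have n1 : b ≠ 0 := by rintro rfl; simp at h1
  have n2 : 45 * c + 18 * d - 48 * a - 32 * b ≠ 0 := fun h0 => by simp [h0] at h1
  have n3 : 3 * a + 2 * b ≠ 0 := fun h0 => by simp [h0] at h1
  have n4 : 9 * d - 16 * b ≠ 0 := fun h0 => by simp [h0] at h1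
  obtain ⟨b1, b2⟩ := abs_le_of_mul n2 h3
  obtain ⟨b3, b4⟩ := abs_le_of_mul n1 (mul_comm b _ ▸ h3)
  obtain ⟨b5, b6⟩ := abs_le_of_mul n4 h4
  obtain ⟨b7, b8⟩ := abs_le_of_mul n3 (mul_comm (3 * a + 2 * b) _ ▸ h4)
  have d1 : -16 ≤ d := by omega
  have d2 : d ≤ 16 := by omega
  clear h3 h4 h2
  interval_cases b <;> interval_cases d <;> omega

theorem Th_P : Th (0, 1) (3, 16) = 0 := by
  refine finsum_eq_zero_of_forall_eq_zero fun X => ?_
  unfold term
  split_ifs with hX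
  · have h1 := dt_ne_zero cop_one hX cc_e2 cc_e2
    have h2 := dt_ne_zero cop_one hX cc_e2 cc_half
    have h3 := dt_ne_zero (r := (3, 16)) cop_one hX (Or.inl (by decide)) cc_e2
    have h4 := dt_ne_zero (r := (3, 16)) cop_one hX (Or.inl (by decide)) cc_half
    rw [dt_swap, neg_ne_zero] at h1 h2
    by_contra h
    have h5 := cross_bound h1 h2 h3 h4 fun h0 => h (by
      simp only [ori]; linear_combination (dt (0, 1) (3, 16)).sign * h0)
    obtain ⟨a, b, c, d⟩ := X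
    obtain ⟨h6, ⟨a, rfl⟩, ⟨c, rfl⟩, ⟨d, rfl⟩⟩ := hX
    refine no_cross (a := a) (b := b) (c := c) (d := d) h6 ?_
    simp only [dt, M2.ap] at h5
    convert h5 using 4 <;> ring
  · rfl

/-- The homomorphism attached to the fixed cycle. -/
noncomputable def thH (_a b _c d : ℤ) : ℂ := (Th (0, 1) (b, d) : ℤ)

theorem thH_hom : Hom15 thH where
  add a b c d a' b' c' d' h h' := by
    have h1 := Th_inv (g := ⟨a, b, 15 * c, d⟩) h (dvd_mul_right _ _) (0, 1) (b', d')
    simp only [M2.ap, mul_zero, mul_one, zero_add] at h1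
    unfold thH
    rw [← h1, ← Int.cast_add, Th_add cc_e2 (cc_of_cop (cop_of_det h))
      (cc_of_cop (cop_of_det (a := a * a' + b * (15 * c')) (b := a * b' + b * d')
        (c := c * a' + d * c') (by linear_combination (a' * d' - b' * (15 * c')) * h + h')))]
  hT := by
    have h1 := Th_inv (g := ⟨1, 1, 0, 1⟩) rfl (dvd_zero _) (1, 0) (0, 1)
    simp only [M2.ap, mul_zero, mul_one, zero_add, add_zero] at h1
    have h2 := Th_add cc_e1 cc_e2 (cc_of_cop (b := 1) cop_one)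
    simp only [thH, Int.cast_eq_zero]
    omega
  hL := by simp [thH, Th, Phi_self_left]
  hP := by simp [thH, Th_P]

theorem exists_col {k n : ℕ} (hk : Nat.Coprime k n) (hn : Nat.Coprime n 15) :
    ∃ a c : ℤ, a * n - k * (15 * c) = 1 := by
  obtain ⟨u, v, h⟩ := Nat.isCoprime_iff_coprime.mpr (Nat.Coprime.mul_right hk.symm hn)
  exact ⟨u, -v, by push_cast at h; linear_combination h⟩

theorem jac_eq_zero {k n : ℕ} (hn : n ≠ 0) (hk : ¬ Nat.Coprime k n) : J((k : ℤ) | n) = 0 :=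
  jacobiSym.eq_zero_iff.mpr ⟨hn, by rwa [Int.gcd_natCast_natCast]⟩

/-- The odd character sum of a homomorphism only depends on the second generator. -/
theorem odd_sum {n : ℕ} (hn : Good n) (a c : ℕ → ℤ)
    (hac : ∀ k : ℕ, Nat.Coprime k n → a k * n - k * (15 * c k) = 1) :
    ∃ N : ℂ, ∀ f : ℤ → ℤ → ℤ → ℤ → ℂ, Hom15 f →
      ∑ k ∈ range n, (J((k : ℤ) | n) : ℂ) * f (a k) k (c k) n = N * f 4 1 1 4 := by
  have h4 := hn.mod4
  have hn0 : n ≠ 0 := by omega
  have h1 : ∀ k : ℕ, ∃ b1 b2 : ℤ, Nat.Coprime k n → ∀ f : ℤ → ℤ → ℤ → ℤ → ℂ, Hom15 f →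
      f (a k) k (c k) n = b1 * f 8 1 1 2 + b2 * f 4 1 1 4 := fun k => by
    by_cases hk : Nat.Coprime k n
    · obtain ⟨b1, b2, h⟩ := Hom15.exists_int (hac k hk)
      exact ⟨b1, b2, fun _ => h⟩
    · exact ⟨0, 0, fun h => absurd h hk⟩
  choose b1 b2 hb using h1
  have h2 : ∀ f : ℤ → ℤ → ℤ → ℤ → ℂ, Hom15 f →
      ∑ k ∈ range n, (J((k : ℤ) | n) : ℂ) * f (a k) k (c k) n =
        (∑ k ∈ range n, (J((k : ℤ) | n) : ℂ) * b1 k) * f 8 1 1 2 +
        (∑ k ∈ range n, (J((k : ℤ) | n) : ℂ) * b2 k) * f 4 1 1 4 := fun f hf => by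
    rw [sum_mul, sum_mul, ← sum_add_distrib]
    refine sum_congr rfl fun k _ => ?_
    by_cases hk : Nat.Coprime k n
    · rw [hb k hk f hf]; ring
    · simp [jac_eq_zero hn0 hk]
  refine ⟨∑ k ∈ range n, (J((k : ℤ) | n) : ℂ) * b2 k, fun f hf => ?_⟩
  have h3 := h2 _ hf.star
  have h5 : f 4 (-1) (-1) 4 = -f 4 1 1 4 := Add15.inv hf.add (by norm_num)
  simp only [hf.star_one, h5] at h3
  have h6 : ∑ k ∈ range n, (J((k : ℤ) | n) : ℂ) * f (a k) (-k) (-c k) n =
      -∑ k ∈ range n, (J((k : ℤ) | n) : ℂ) * f (a k) k (c k) n := by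
    have h7 := sum_flip (n := n) fun k : ℕ => (J((k : ℤ) | n) : ℂ) * f (a k) k (c k) n
    rw [sum_range_succ, sum_range_succ, Nat.sub_self, jac_eq_zero hn0 (k := 0) (by simp; omega),
      jac_eq_zero hn0 (k := n) (by simp; omega)] at h7
    simp only [Int.cast_zero, zero_mul, add_zero] at h7
    rw [← h7, ← sum_neg_distrib]
    refine sum_congr rfl fun k hk => ?_
    have hk' := (mem_range.mp hk).le
    have h8 : J(((n - k : ℕ) : ℤ) | n) = -J((k : ℤ) | n) := by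
      rw [jacobiSym.mod_left' (a₂ := -1 * k) (by
        push_cast [hk']
        exact Int.emod_emod_of_dvd _ dvd_rfl ▸ (Int.emod_eq_emod_iff_emod_sub_eq_zero.mpr (by simp))),
        jacobiSym.mul_left, jac_neg_one h4, neg_one_mul]
    by_cases hc : Nat.Coprime k n
    · have h9 := hac (n - k) ((Nat.coprime_self_sub_left hk').mpr hc)
      have h10 := hf.shift (a := a k) (b := -k) (c := -c k) (d := n) (a' := a (n - k))
        (c' := c (n - k)) (by linear_combination hac k hc) (by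
          push_cast [hk'] at h9; linear_combination h9)
      rw [h8, ← h10, show (-k : ℤ) + n = (n - k : ℕ) by push_cast [hk']; ring]
      push_cast; ring
    · simp [h8, jac_eq_zero hn0 hc]
  linear_combination (h2 f hf - h3 + h6) / 2

end Pool.Agent.Lib.MP_696deb_nt
end

-- part Pool.Agent.Lib.MP_696deb_nt.SymMain
section

set_option autoImplicit false

open Finset NumberTheorySymbols

namespace Pool.Agent.Lib.MP_696deb_nt

/-- The closed form of the intersection sum. -/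
def ClosedSt : Prop := ∀ A B m : ℕ, Good (A * B) → A % 4 = 3 → (m = 1 ∨ m = 2) →
  Phi (fun M => om1 A M * om2 B M) ((m : ℤ) * ((A * B : ℕ) : ℤ)) (1, 0) (0, 1) (1, 0) (0, 1) =
    8 * J(-5 | A) * J(-3 | B) * Sig (A * B) m A.primeFactors

theorem Good.left {A B : ℕ} (h : Good (A * B)) (hA : A % 4 = 3) : Good A :=
  ⟨h.sqf.of_mul_left, hA, Nat.Coprime.coprime_mul_right h.cop⟩

theorem jac_pm {a : ℤ} {n : ℕ} (ha : (15 : ℤ) % a = 0) (hn : Nat.Coprime n 15) :
    J(a | n) = 1 ∨ J(a | n) = -1 := by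
  refine jacobiSym.eq_one_or_neg_one (Int.isCoprime_iff_gcd_eq_one.mp ?_)
  exact (Nat.isCoprime_iff_coprime.mpr hn).symm.of_isCoprime_of_dvd_left
    (Int.dvd_of_emod_eq_zero ha)

theorem phi_vals {A : ℕ} (hA : Good A) :
    phi A ((1 : ℕ) * A) (0, 1) (1, 1) = 0 ∧ phi A ((1 : ℕ) * A) (0, 1) (1, 4) = 0 ∧
      phi A ((1 : ℕ) * A) (0, 1) (3, 4) = 0 := by
  obtain ⟨h, h2⟩ := psiH_hom hA (Or.inl rfl)
  have h3 := h.hT
  have h4 := h.shift (a := 4) (b := -1) (c := -1) (d := 4) (a' := -11) (c' := -1) (by norm_num)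
    (by norm_num)
  have h5 := Add15.inv h.add (a := 4) (b := 1) (c := 1) (d := 4) (by norm_num)
  rw [h5, h2, neg_zero] at h4
  simp only [psiH, Int.cast_eq_zero] at h2 h3 h4
  exact ⟨h3, h2, h4⟩

theorem phi_smul {A : ℕ} {δ k l : ℤ} (hk : k ≠ 0) (hl : l ≠ 0) (u v : V2) :
    phi A δ (k * u.1, k * u.2) (l * v.1, l * v.2) = phi A δ u v := Phi_smul hk hl

theorem phi_two_half {A : ℕ} (hA : Good A) :
    phi A ((2 : ℕ) * A) (0, 1) (1, 2) = -phi A ((1 : ℕ) * A) (0, 1) (1, 2) := by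
  obtain ⟨h1, h2, h3⟩ := phi_vals hA
  have h4 := phi_two hA cc_e2 cc_half
  have h5 := phi_smul (A := A) (δ := (1 : ℕ) * A) (k := 2) (l := 1) two_ne_zero one_ne_zero
    (0, 1) (1, 4)
  have h6 := phi_smul (A := A) (δ := (1 : ℕ) * A) (k := 1) (l := 2) one_ne_zero two_ne_zero
    (0, 1) (1, 1)
  have h7 := phi_add (A := A) (cop_mul hA (Or.inl rfl)) cc_e2 cc_half
    (show CC (3, 4) from Or.inl (by decide))
  simp only [M2.ap] at h4
  norm_num at h1 h2 h3 h4 h5 h6 h7 ⊢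
  omega

theorem phi_two_inf {A : ℕ} (hA : Good A) :
    phi A ((2 : ℕ) * A) (1, 0) (0, 1) =
      3 * phi A ((1 : ℕ) * A) (1, 0) (0, 1) + phi A ((1 : ℕ) * A) (0, 1) (1, 2) := by
  have h4 := phi_two hA cc_e1 cc_e2
  have h5 := phi_smul (A := A) (δ := (1 : ℕ) * A) (k := 1) (l := 2) one_ne_zero two_ne_zero
    (1, 0) (0, 1)
  have h6 := phi_smul (A := A) (δ := (1 : ℕ) * A) (k := 2) (l := 1) two_ne_zero one_ne_zero
    (1, 0) (0, 1)
  have h7 := phi_add (A := A) (cop_mul hA (Or.inl rfl)) cc_e1 cc_e2 cc_half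
  simp only [M2.ap] at h4
  norm_num at h4 h5 h6 h7 ⊢
  omega

theorem exists_b1 (k B : ℕ) : ∃ b : ℤ, Nat.Coprime k B → Nat.Coprime B 15 →
    ∀ A m : ℕ, Good A → (m = 1 ∨ m = 2) →
      phi A (m * A) (0, 1) (k, B) = b * phi A (m * A) (0, 1) (1, 2) := by
  by_cases h : Nat.Coprime k B ∧ Nat.Coprime B 15
  · obtain ⟨a, c, hac⟩ := exists_col h.1 h.2
    obtain ⟨b1, b2, hb⟩ := Hom15.exists_int hac
    refine ⟨b1, fun _ _ A m hA hm => ?_⟩
    obtain ⟨h1, h2⟩ := psiH_hom hA hm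
    have h3 := hb _ h1
    rw [h2, mul_zero, add_zero] at h3
    simp only [psiH] at h3
    exact_mod_cast h3
  · exact ⟨0, fun h1 h2 => absurd ⟨h1, h2⟩ h⟩

theorem sum_shift {B : ℕ} (hB : Squarefree B) (hodd : Odd B) (h1 : 1 < B) (x : ℤ) (F G : ℕ → ℤ)
    (h : ∀ k, Nat.Coprime k B → F k = x + G k) :
    ∑ k ∈ range B, J((k : ℤ) | B) * F k = ∑ k ∈ range B, J((k : ℤ) | B) * G k := by
  have h2 : ∑ k ∈ range B, J((k : ℤ) | B) * F k =
      (∑ k ∈ range B, J((k : ℤ) | B)) * x + ∑ k ∈ range B, J((k : ℤ) | B) * G k := by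
    rw [sum_mul, ← sum_add_distrib]
    refine sum_congr rfl fun k _ => ?_
    by_cases hk : Nat.Coprime k B
    · rw [h k hk, mul_add]
    · simp [jac_eq_zero (by omega) hk]
  rw [h2, sum_jac_eq_zero hB hodd h1, zero_mul, zero_add]

theorem symbols_of (hC : ClosedSt) : ∃ aa bb : ℕ → ℤ, SymData aa bb ∧
    ∀ (f : ℤ → ℤ → ℤ → ℤ → ℂ), Hom15 f → f 4 1 1 4 ≠ 0 → ∀ n, Good n → aa n ≠ 0 →
      ∀ a c : ℕ → ℤ, (∀ k : ℕ, Nat.Coprime k n → a k * n - k * (15 * c k) = 1) →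
        ∑ k ∈ range n, (J((k : ℤ) | n) : ℂ) * f (a k) k (c k) n ≠ 0 := by
  choose b1 hb1 using exists_b1
  refine ⟨fun A => phi A ((1 : ℕ) * A) (0, 1) (1, 2),
    fun B => ∑ k ∈ range B, J((k : ℤ) | B) * b1 k B, ⟨fun n hn => ?_, fun A B hn hA4 hB => ?_⟩,
    fun f hf h2 n hn haa a c hac => ?_⟩
  · have hn' : Good (n * 1) := by simpa using hn
    have h1 := (sum_phi hn' (Or.inl rfl)).trans (hC n 1 1 hn' hn.mod4 (Or.inl rfl))
    have h2 := (sum_phi hn' (Or.inr rfl)).trans (hC n 1 2 hn' hn.mod4 (Or.inr rfl))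
    have h3 : ∀ m, Sig n m n.primeFactors = Sig n m ∅ := fun m => by
      simpa using Sig_compl (m := m) hn (empty_subset _)
    simp only [range_one, sum_singleton, jacobiSym.one_right, one_mul, mul_one, h3, Nat.cast_zero,
      Nat.cast_one] at h1 h2
    have h4 := phi_two_inf hn
    simp only [Nat.cast_one, one_mul] at h4 ⊢
    exact ⟨J(-5 | n), jac_pm (by decide) hn.cop, by linear_combination h2 - 3 * h1 - h4⟩
  · have hA := hn.left hA4
    have hB15 : Nat.Coprime B 15 := Nat.Coprime.coprime_mul_left hn.cop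
    have hodd : Odd B := by
      have := hn.mod4
      exact (Nat.odd_mul.mp (Nat.odd_iff.mpr (by omega) : Odd (A * B))).2
    have h1 : ∀ m : ℕ, (m = 1 ∨ m = 2) → 8 * J(-5 | A) * J(-3 | B) * Sig (A * B) m A.primeFactors =
        (∑ k ∈ range B, J((k : ℤ) | B) * b1 k B) * phi A (m * A) (0, 1) (1, 2) := fun m hm => by
      rw [← hC A B m hn hA4 hm, ← sum_phi hn hm, sum_mul]
      simp only [mul_assoc]
      refine sum_shift hn.sqf.of_mul_right hodd hB (phi A (m * A) (1, 0) (0, 1)) _ _ fun k hk => ?_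
      rw [← phi_add (cop_mul hA hm) cc_e1 cc_e2 (cc_of_cop (cop_of_coprime hB15)),
        hb1 k B hk hB15 A m hA hm]
    have h2 := h1 1 (Or.inl rfl)
    have h3 := h1 2 (Or.inr rfl)
    rw [phi_two_half hA] at h3
    have h4 : J(-5 | A) * J(-3 | B) = 1 ∨ J(-5 | A) * J(-3 | B) = -1 := by
      rcases jac_pm (a := -5) (by decide) hA.cop with h | h <;>
        rcases jac_pm (a := -3) (by decide) hB15 with h' | h' <;> simp [h, h']
    refine ⟨⟨_, h4, by linear_combination -h2⟩, ?_⟩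
    have h5 : 8 * (J(-5 | A) * J(-3 | B)) ≠ 0 := by omega
    exact mul_left_cancel₀ h5 (by linear_combination h2 + h3)
  · obtain ⟨N, hN⟩ := odd_sum hn a c hac
    have h4 := hn.mod4
    rw [hN f hf]
    refine mul_ne_zero (fun h0 => haa ?_) h2
    have h1 := hN _ thH_hom
    rw [h0, zero_mul] at h1
    simp only [thH] at h1
    have h3 : ∑ k ∈ range n, J((k : ℤ) | n) * Th (0, 1) (k, n) = 0 := by exact_mod_cast h1
    simp only
    rw [phi_eq_sum_Th hn]
    refine (sum_shift hn.sqf (Nat.odd_iff.mpr (by omega)) (by omega) (Th (1, 0) (0, 1)) _ _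
      fun k _ => ?_).trans h3
    rw [← Th_add cc_e1 cc_e2 (cc_of_cop (cop_of_coprime hn.cop))]

end Pool.Agent.Lib.MP_696deb_nt
end

-- part Pool.Agent.Lib.MP_696deb_nt.SymClosed
section

set_option autoImplicit false

open Finset NumberTheorySymbols

namespace Pool.Agent.Lib.MP_696deb_nt

/-- The local weights of a positive quadruple. -/
def lamW (A B : ℕ) (a b c d : ℤ) : ℤ :=
  (∏ p ∈ A.primeFactors, if (p : ℤ) ∣ c then J(3 * b * d | p) else J(-5 * a * c | p)) *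
    ∏ p ∈ B.primeFactors, if (p : ℤ) ∣ a then J(5 * c * d | p) else J(-3 * a * b | p)

theorem prime_facts {n p : ℕ} (hn : Nat.Coprime n 15) (hp : p ∈ n.primeFactors) :
    p.Prime ∧ ¬ (p : ℤ) ∣ 3 ∧ ¬ (p : ℤ) ∣ 5 := by
  have hp' := Nat.prime_of_mem_primeFactors hp
  have hc := Nat.Coprime.coprime_dvd_left (Nat.dvd_of_mem_primeFactors hp) hn
  have h : ¬ p ∣ 15 := hp'.coprime_iff_not_dvd.mp hc
  exact ⟨hp', fun h1 => h (Dvd.dvd.trans (by exact_mod_cast h1 : p ∣ 3) (by norm_num)),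
    fun h1 => h (Dvd.dvd.trans (by exact_mod_cast h1 : p ∣ 5) (by norm_num))⟩

theorem jac_mul_sq {p : ℕ} (hp : p.Prime) {u : ℤ} (hu : ¬ (p : ℤ) ∣ u) (x : ℤ) :
    J(u ^ 2 * x | p) = J(x | p) := by
  rw [jacobiSym.mul_left, jacobiSym.pow_left, jac_sq hp hu, one_mul]

theorem weight_eq {A B m : ℕ} (hn : Good (A * B)) (hA : A % 4 = 3) (hm : m = 1 ∨ m = 2)
    {a b c d s t : ℤ} (hs : s = 1 ∨ s = -1) (ht : t = 1 ∨ t = -1)
    (h : 3 * (a * d) + 5 * (b * c) = m * (A * B : ℕ)) :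
    om1 A ⟨3 * (s * a), -(t * b), 15 * (t * c), 3 * (s * d)⟩ *
      om2 B ⟨3 * (s * a), -(t * b), 15 * (t * c), 3 * (s * d)⟩ = s * t * lamW A B a b c d := by
  have hs2 : s * s = 1 := by rcases hs with rfl | rfl <;> norm_num
  have ht2 : t * t = 1 := by rcases ht with rfl | rfl <;> norm_num
  have hX : InX (m * (A * B : ℕ)) ⟨3 * (s * a), -(t * b), 15 * (t * c), 3 * (s * d)⟩ :=
    ⟨by simp only [M2.det]; linear_combination 3 * h + 9 * a * d * hs2 + 15 * b * c * ht2,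
      dvd_mul_right _ _, dvd_mul_right _ _, dvd_mul_right _ _⟩
  have h4 := hn.mod4
  have hA0 : A ≠ 0 := by omega
  have hB0 : B ≠ 0 := by rintro rfl; simp at h4
  have hB4 : B % 4 = 1 := by
    rw [Nat.mul_mod, hA] at h4
    omega
  have hsA : A.primeFactors ⊆ (A * B).primeFactors :=
    Nat.primeFactors_mono (dvd_mul_right _ _) (mul_ne_zero hA0 hB0)
  have hsB : B.primeFactors ⊆ (A * B).primeFactors :=
    Nat.primeFactors_mono (dvd_mul_left _ _) (mul_ne_zero hA0 hB0)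
  have hd := hX.1
  simp only [M2.det] at hd
  push_cast at hd
  have hst : s * t = 1 ∨ s * t = -1 := by
    rcases hs with rfl | rfl <;> rcases ht with rfl | rfl <;> norm_num
  have jA : J(s * t | A) = s * t := by
    rcases hst with h | h <;> rw [h]
    exacts [jacobiSym.one_left _, jac_neg_one hA]
  have jB : J(s * t | B) = 1 := by
    rcases hst with h | h <;> rw [h]
    · exact jacobiSym.one_left _
    · rw [jacobiSym.at_neg_one (Nat.odd_iff.mpr (by omega)), ZMod.χ₄_nat_one_mod_four hB4]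
  have us : IsUnit s := IsUnit.of_mul_eq_one _ hs2
  have ut : IsUnit t := IsUnit.of_mul_eq_one _ ht2
  simp only [om1, om2]
  rw [KK_eq_prod hn.sqf.of_mul_left ⟨3 * m * B, by linear_combination hd⟩ fun p hp h =>
      not_all_dvd hn hm hX (hsA hp) (by simp only [dvd_neg] at h ⊢; tauto),
    KK_eq_prod hn.sqf.of_mul_right ⟨3 * m * A, by linear_combination hd⟩ fun p hp h =>
      not_all_dvd hn hm hX (hsB hp) h, lamW, ← mul_assoc (s * t)]
  rw [jac_eq_prod _ hn.sqf.of_mul_left] at jA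
  rw [jac_eq_prod _ hn.sqf.of_mul_right] at jB
  conv_rhs => rw [← jA, ← one_mul (∏ p ∈ B.primeFactors, _), ← jB]
  rw [← prod_mul_distrib, ← prod_mul_distrib]
  congr 1 <;> refine prod_congr rfl fun p hp => ?_
  · obtain ⟨hp', h3, h5⟩ := prime_facts hn.cop (hsA hp)
    have hp2 := Nat.prime_iff_prime_int.mp hp'
    have e : (p : ℤ) ∣ 15 * (t * c) ↔ (p : ℤ) ∣ c := by
      rw [show (15 : ℤ) = 3 * 5 by norm_num, hp2.dvd_mul, hp2.dvd_mul, ut.dvd_mul_left]
      tauto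
    simp only [e]
    split_ifs <;> rw [← jacobiSym.mul_left]
    · congr 1; ring
    · rw [← jac_mul_sq hp' h3 (s * t * _)]
      congr 1; ring
  · obtain ⟨hp', h3, h5⟩ := prime_facts hn.cop (hsB hp)
    have hp2 := Nat.prime_iff_prime_int.mp hp'
    have e : (p : ℤ) ∣ 3 * (s * a) ↔ (p : ℤ) ∣ a := by
      rw [hp2.dvd_mul, us.dvd_mul_left]
      tauto
    simp only [e]
    split_ifs <;> rw [← jacobiSym.mul_left]
    · rw [← jac_mul_sq hp' h3 (s * t * _)]
      congr 1; ring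
    · congr 1; ring

theorem lamW_expand {A B m : ℕ} (hn : Good (A * B)) {a b c d : ℕ}
    (h : 3 * (a * d) + 5 * (b * c) = m * (A * B)) :
    lamW A B a b c d = ∑ T ∈ ((A * B).primeFactors.filter (· ∣ a * d * (b * c))).powerset,
      J(-5 | A) * J(-3 | B) * (∏ p ∈ T, J(-15 | p)) *
      ((∏ p ∈ (A * B).primeFactors \ T, J((a : ℤ) | p)) * ∏ p ∈ T, J((d : ℤ) | p)) *
      ((∏ p ∈ (A * B).primeFactors \ symmDiff A.primeFactors T, J((b : ℤ) | p)) *
        ∏ p ∈ symmDiff A.primeFactors T, J((c : ℤ) | p)) := by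
  have hc : Nat.Coprime A B := Nat.coprime_of_squarefree_mul hn.sqf
  have hR : (A * B).primeFactors = A.primeFactors ∪ B.primeFactors := hc.primeFactors_mul
  have hdisj : Disjoint A.primeFactors B.primeFactors := hc.disjoint_primeFactors
  set R := (A * B).primeFactors with hRdef
  set S := A.primeFactors
  set G := R.filter (· ∣ a * d * (b * c)) with hG
  let l0 : ℕ → ℤ := fun p => if p ∈ S then J(-5 * a * c | p) else J(-3 * a * b | p)
  let l1 : ℕ → ℤ := fun p => if p ∈ S then J(3 * b * d | p) else J(5 * c * d | p)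
  have hloc : ∀ p ∈ R, (p ∈ G → (p : ℤ) ∣ a * d ∧ (p : ℤ) ∣ b * c) ∧
      (p ∉ G → ¬ (p : ℤ) ∣ a ∧ ¬ (p : ℤ) ∣ c) := fun p hp => by
    obtain ⟨hp', h3, h5⟩ := prime_facts hn.cop hp
    have hp2 := Nat.prime_iff_prime_int.mp hp'
    have h1 : (p : ℤ) ∣ 3 * (a * d) + 5 * (b * c) := by
      have := (Nat.dvd_of_mem_primeFactors hp).mul_left m
      rw [← h] at this
      exact_mod_cast this
    simp only [hG, mem_filter, hp, true_and]
    refine ⟨fun h2 => ?_, fun h2 => ⟨fun h6 => h2 ?_, fun h6 => h2 ?_⟩⟩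
    · have h6 : (p : ℤ) ∣ a * d * (b * c) := by exact_mod_cast h2
      rcases hp2.dvd_or_dvd h6 with h7 | h7
      · exact ⟨h7, (hp2.dvd_or_dvd ((dvd_add_right (h7.mul_left 3)).mp h1)).resolve_left h5⟩
      · exact ⟨(hp2.dvd_or_dvd ((dvd_add_left (h7.mul_left 5)).mp h1)).resolve_left h3, h7⟩
    · exact ((Int.natCast_dvd_natCast.mp h6).mul_right _).mul_right _
    · exact ((Int.natCast_dvd_natCast.mp h6).mul_left _).mul_left _
  have h1 : lamW A B a b c d = ∏ p ∈ R, ((if p ∈ G then l1 p else 0) + l0 p) := by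
    rw [lamW, hR, prod_union hdisj]
    congr 1 <;> refine prod_congr rfl fun p hp => ?_
    · have hpR : p ∈ R := hR ▸ mem_union_left _ hp
      have hp' := Nat.prime_of_mem_primeFactors hp
      simp only [l0, l1, if_pos hp]
      split_ifs with h2 h3 h3
      · rw [jac_zero_of_dvd hp' (h2.mul_left _), add_zero]
      · exact absurd h2 ((hloc p hpR).2 h3).2
      · rw [jac_zero_of_dvd hp' (a := 3 * b * d) (((((Nat.prime_iff_prime_int.mp hp').dvd_or_dvd
          ((hloc p hpR).1 h3).2).resolve_right h2).mul_left _).mul_right _), zero_add]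
      · rw [zero_add]
    · have hpR : p ∈ R := hR ▸ mem_union_right _ hp
      have hp' := Nat.prime_of_mem_primeFactors hp
      simp only [l0, l1, if_neg (disjoint_right.mp hdisj hp)]
      split_ifs with h2 h3 h3
      · rw [jac_zero_of_dvd hp' ((h2.mul_left _).mul_right _), add_zero]
      · exact absurd h2 ((hloc p hpR).2 h3).1
      · rw [jac_zero_of_dvd hp' (a := 5 * c * d) ((((Nat.prime_iff_prime_int.mp hp').dvd_or_dvd
          ((hloc p hpR).1 h3).1).resolve_left h2).mul_left _), zero_add]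
      · rw [zero_add]
  have hGR : G ⊆ R := filter_subset _ _
  rw [h1, prod_add, ← sum_subset (powerset_mono.mpr hGR) fun T _ hT => ?_]
  · refine sum_congr rfl fun T hT => ?_
    have hTG := mem_powerset.mp hT
    have hTR := hTG.trans hGR
    have hUR : symmDiff S T ⊆ R := symmDiff_subset_union.trans
      (union_subset (hR ▸ subset_union_left) hTR)
    have split : ∀ (U : Finset ℕ) (f g : ℕ → ℤ), U ⊆ R →
        (∏ p ∈ R \ U, f p) * ∏ p ∈ U, g p = ∏ p ∈ R, if p ∈ U then g p else f p := by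
      intro U f g hU
      rw [prod_ite, filter_mem_eq_inter, inter_eq_right.mpr hU, filter_notMem_eq_sdiff, mul_comm]
    have e1 : J(-5 | A) * J(-3 | B) = ∏ p ∈ R, if p ∈ S then J(-5 | p) else J(-3 | p) := by
      rw [← split S _ _ (hR ▸ subset_union_left), jac_eq_prod _ hn.sqf.of_mul_left,
        jac_eq_prod _ hn.sqf.of_mul_right, hR, union_sdiff_cancel_left hdisj, mul_comm]
    have e2 : ∏ p ∈ T, J(-15 | p) = ∏ p ∈ R, if p ∈ T then J(-15 | p) else 1 := by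
      rw [← split T _ _ hTR, prod_const_one, one_mul]
    rw [mul_comm (∏ p ∈ T, _), split _ _ _ hTR, e1, e2, split _ _ _ hTR, split _ _ _ hUR,
      ← prod_mul_distrib, ← prod_mul_distrib, ← prod_mul_distrib]
    refine prod_congr rfl fun p hp => ?_
    obtain ⟨hp', h3, h5⟩ := prime_facts hn.cop hp
    by_cases hpT : p ∈ T <;> by_cases hpS : p ∈ S <;>
      simp only [l0, l1, hpT, hpS, mem_symmDiff, if_true, if_false, not_true, not_false_iff,
        and_true, and_false, or_false, false_or, or_self, ← jacobiSym.mul_left, mul_one]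
    · rw [if_pos (hTG hpT), ← jac_mul_sq hp' h5]; congr 1; ring
    · rw [if_pos (hTG hpT), ← jac_mul_sq hp' h3]; congr 1; ring
  · obtain ⟨p, hp, hpG⟩ := not_subset.mp (mt mem_powerset.mpr hT)
    rw [prod_eq_zero hp (if_neg hpG), zero_mul]

theorem hilS_symmDiff {n : ℕ} (hn : Squarefree n) {S T : Finset ℕ} (hS : S ⊆ n.primeFactors)
    {k : ℤ} (hk : k ≠ 0) : hilS n (symmDiff S T) k = hilS n S k * hilS n T k := by
  have h1 : ∏ p ∈ S ∩ T, hil n p k * hil n p k = 1 := prod_eq_one fun p hp => by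
    have hp' := hS (mem_of_mem_inter_left hp)
    rw [← sq, hil_sq hn (Nat.prime_of_mem_primeFactors hp') (Nat.dvd_of_mem_primeFactors hp') hk]
  unfold hilS
  rw [symmDiff_def, sup_eq_union, prod_union disjoint_sdiff_sdiff, ← prod_inter_mul_prod_sdiff S T,
    ← prod_inter_mul_prod_sdiff T S, inter_comm T S, mul_mul_mul_comm, ← prod_mul_distrib, h1,
    one_mul]

theorem sum_lamW {A B m m1 m2 : ℕ} (hn : Good (A * B)) (h2 : 0 < m2)
    (h : 3 * m1 + 5 * m2 = m * (A * B)) :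
    ∑ x ∈ m1.divisorsAntidiagonal, ∑ y ∈ m2.divisorsAntidiagonal, lamW A B x.1 y.1 y.2 x.2 =
      J(-5 | A) * J(-3 | B) * (hilS (A * B) A.primeFactors m2 * rr (A * B) m1 * rr (A * B) m2 *
        epsP (A * B) (m1 * m2)) := by
  have h0 : A * B ≠ 0 := hn.sqf.ne_zero
  have hS : A.primeFactors ⊆ (A * B).primeFactors := Nat.primeFactors_mono (dvd_mul_right _ _) h0
  rw [sum_congr rfl fun x hx => sum_congr rfl fun y hy => (lamW_expand (m := m) hn (by
      rw [(Nat.mem_divisorsAntidiagonal.mp hx).1, (Nat.mem_divisorsAntidiagonal.mp hy).1, h])).trans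
    (by rw [(Nat.mem_divisorsAntidiagonal.mp hx).1, (Nat.mem_divisorsAntidiagonal.mp hy).1])]
  simp only [sum_comm (s := m2.divisorsAntidiagonal)]
  rw [sum_comm, epsP, prod_one_add, mul_sum, mul_sum]
  refine sum_congr rfl fun T hT => ?_
  have hTR : T ⊆ (A * B).primeFactors := (mem_powerset.mp hT).trans (filter_subset _ _)
  have hTp : ∀ p ∈ T, p.Prime := fun p hp => Nat.prime_of_mem_primeFactors (hTR hp)
  simp only [← mul_sum, ← sum_mul]
  rw [twisted_conv hn hTR, twisted_conv hn (symmDiff_subset_union.trans (union_subset hS hTR)),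
    hilS_symmDiff hn.sqf hS (by exact_mod_cast h2.ne'), prod_mul_distrib, ← hilS, Nat.cast_mul,
    hilS_mul hTp]
  ring

theorem sign_mul_pos {s : ℤ} (hs : s = 1 ∨ s = -1) {k x : ℤ} (hk : 0 < k) (hx : 0 < x) :
    (k * (s * x)).sign = s := by
  rw [Int.sign_mul, Int.sign_mul, Int.sign_eq_one_of_pos hk, Int.sign_eq_one_of_pos hx]
  rcases hs with rfl | rfl <;> rfl

theorem exists_sign {a d : ℤ} (h : 0 < a * d) :
    ∃ s : ℤ, (s = 1 ∨ s = -1) ∧ ∃ a' d' : ℕ, 0 < a' ∧ 0 < d' ∧ a = s * a' ∧ d = s * d' := by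
  rcases pos_and_pos_or_neg_and_neg_of_mul_pos h with ⟨h1, h2⟩ | ⟨h1, h2⟩
  · exact ⟨1, Or.inl rfl, a.natAbs, d.natAbs, by omega, by omega, by omega, by omega⟩
  · exact ⟨-1, Or.inr rfl, a.natAbs, d.natAbs, by omega, by omega, by omega, by omega⟩

theorem closed_form : ClosedSt := by
  intro A B m hn hA hm
  have hδ := cop_mul hn hm
  have hN : 0 < m * (A * B) := Nat.mul_pos (by omega) (Nat.pos_of_ne_zero hn.sqf.ne_zero)
  set P := (Icc 1 (m * (A * B)) ×ˢ Icc 1 (m * (A * B))).filter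
    (fun q : ℕ × ℕ => 3 * q.1 + 5 * q.2 = m * (A * B)) with hP
  let I := (({1, -1} : Finset ℤ) ×ˢ ({1, -1} : Finset ℤ)) ×ˢ
    P.sigma fun q => q.1.divisorsAntidiagonal ×ˢ q.2.divisorsAntidiagonal
  let g : (ℤ × ℤ) × (Σ _ : ℕ × ℕ, (ℕ × ℕ) × (ℕ × ℕ)) → M2 := fun i =>
    ⟨3 * (i.1.1 * i.2.2.1.1), -(i.1.2 * i.2.2.2.1), 15 * (i.1.2 * i.2.2.2.2),
      3 * (i.1.1 * i.2.2.1.2)⟩
  have hI : ∀ s t m1 m2 a d b c, ((s, t), ⟨(m1, m2), (a, d), (b, c)⟩) ∈ I ↔
      (s = 1 ∨ s = -1) ∧ (t = 1 ∨ t = -1) ∧ 0 < a ∧ 0 < d ∧ 0 < b ∧ 0 < c ∧ a * d = m1 ∧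
        b * c = m2 ∧ 3 * m1 + 5 * m2 = m * (A * B) := by
    intro s t m1 m2 a d b c
    simp only [I, hP, mem_product, mem_insert, mem_singleton, mem_sigma, mem_filter, mem_Icc,
      Nat.mem_divisorsAntidiagonal]
    constructor
    · rintro ⟨⟨h1, h2⟩, ⟨-, h3⟩, ⟨rfl, h4⟩, rfl, h5⟩
      exact ⟨h1, h2, Nat.pos_of_ne_zero (left_ne_zero_of_mul h4),
        Nat.pos_of_ne_zero (right_ne_zero_of_mul h4), Nat.pos_of_ne_zero (left_ne_zero_of_mul h5),
        Nat.pos_of_ne_zero (right_ne_zero_of_mul h5), rfl, rfl, h3⟩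
    · rintro ⟨h1, h2, h3, h4, h5, h6, rfl, rfl, h7⟩
      have := Nat.mul_pos h3 h4
      have := Nat.mul_pos h5 h6
      exact ⟨⟨h1, h2⟩, ⟨⟨⟨by omega, by omega⟩, by omega, by omega⟩, h7⟩, ⟨rfl, by omega⟩, rfl,
        by omega⟩
  have hinj : Set.InjOn g I := by
    rintro ⟨⟨s, t⟩, ⟨m1, m2⟩, ⟨a, d⟩, b, c⟩ h ⟨⟨s', t'⟩, ⟨m1', m2'⟩, ⟨a', d'⟩, b', c'⟩ h' e
    obtain ⟨h1, h2, h3, h4, h5, h6, rfl, rfl, -⟩ := (hI _ _ _ _ _ _ _ _).mp h
    obtain ⟨h1', h2', h3', h4', h5', h6', rfl, rfl, -⟩ := (hI _ _ _ _ _ _ _ _).mp h'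
    simp only [g, M2.mk.injEq] at e
    obtain ⟨rfl, rfl, rfl⟩ : s = s' ∧ a = a' ∧ d = d' := by
      rcases h1 with rfl | rfl <;> rcases h1' with rfl | rfl <;> omega
    obtain ⟨rfl, rfl, rfl⟩ : t = t' ∧ b = b' ∧ c = c' := by
      rcases h2 with rfl | rfl <;> rcases h2' with rfl | rfl <;> omega
    rfl
  unfold Phi
  rw [finsum_eq_sum_of_support_subset _ (s := I.image g) fun X hX => ?_, sum_image hinj,
    sum_congr rfl (g := fun i => 2 * lamW A B i.2.2.1.1 i.2.2.2.1 i.2.2.2.2 i.2.2.1.2) ?_]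
  · rw [sum_product]
    dsimp only
    rw [sum_const, sum_sigma, Sig, ← hP, mul_sum, smul_sum]
    refine sum_congr rfl fun q hq => ?_
    simp only [hP, mem_filter, mem_product, mem_Icc] at hq
    rw [sum_product]
    simp only [← mul_sum]
    rw [sum_lamW hn hq.1.2.1 hq.2, show #(({1, -1} : Finset ℤ) ×ˢ ({1, -1} : Finset ℤ)) = 4 by
      decide, nsmul_eq_mul]
    push_cast; ring
  · rintro ⟨⟨s, t⟩, ⟨m1, m2⟩, ⟨a, d⟩, b, c⟩ h
    obtain ⟨h1, h2, h3, h4, h5, h6, rfl, rfl, h7⟩ := (hI _ _ _ _ _ _ _ _).mp h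
    have hs2 : s * s = 1 := by rcases h1 with rfl | rfl <;> norm_num
    have ht2 : t * t = 1 := by rcases h2 with rfl | rfl <;> norm_num
    have h8 : 3 * ((a : ℤ) * d) + 5 * (b * c) = m * (A * B : ℕ) := by exact_mod_cast h7
    have hX : InX (m * (A * B : ℕ)) ⟨3 * (s * a), -(t * b), 15 * (t * c), 3 * (s * d)⟩ :=
      ⟨by simp only [M2.det]; linear_combination 3 * h8 + 9 * a * d * hs2 + 15 * b * c * ht2,
        dvd_mul_right _ _, dvd_mul_right _ _, dvd_mul_right _ _⟩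
    simp only [term, g, if_pos hX, weight_eq hn hA hm h1 h2 h8, ori_std, M2.ap, mul_one, mul_zero,
      add_zero, zero_add, Int.sign_neg]
    rw [sign_mul_pos h1 (by norm_num) (by exact_mod_cast h3),
      sign_mul_pos h2 (by norm_num) (by exact_mod_cast h6),
      sign_mul_pos h1 (by norm_num) (by exact_mod_cast h4), ← one_mul (t * b),
      sign_mul_pos h2 (by norm_num) (by exact_mod_cast h5)]
    linear_combination 2 * lamW A B a b c d * (t * t * hs2 + ht2)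
  · simp only [Function.mem_support, term, ne_eq, ite_eq_right_iff, Classical.not_imp,
      mul_eq_zero, not_or] at hX
    obtain ⟨hX, -, h⟩ := hX
    have h1 := dt_ne_zero hδ hX cc_e2 cc_e1
    have h2 := dt_ne_zero hδ hX cc_e2 cc_e2
    have h3 := dt_ne_zero hδ hX cc_e1 cc_e1
    have h4 := dt_ne_zero hδ hX cc_e1 cc_e2
    obtain ⟨a, b, c, d⟩ := X
    obtain ⟨h6, ⟨a, rfl⟩, ⟨c, rfl⟩, ⟨d, rfl⟩⟩ := hX
    simp only [ori_std, dt, M2.ap, M2.det, mul_one, mul_zero, add_zero, zero_add, zero_mul, one_mul,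
      zero_sub, sub_zero, neg_ne_zero] at h h1 h2 h3 h4 h6
    have h7 : (0 : ℤ) < m * (A * B : ℕ) := by exact_mod_cast hN
    rcases cross_bound h1 h2 h3 h4 (fun h0 => h (by linear_combination h0)) with h5 | h5
    · obtain ⟨s, hs, a, d, ha, hd, rfl, rfl⟩ := exists_sign (a := a) (d := d) (by linarith)
      obtain ⟨t, ht, b, c, hb, hc, e, rfl⟩ := exists_sign (a := -b) (d := c) (by linarith)
      obtain rfl := neg_eq_iff_eq_neg.mp e
      have hs2 : s * s = 1 := by rcases hs with rfl | rfl <;> norm_num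
      have ht2 : t * t = 1 := by rcases ht with rfl | rfl <;> norm_num
      refine mem_coe.mpr (mem_image.mpr ⟨((s, t), ⟨(a * d, b * c), (a, d), (b, c)⟩),
        (hI _ _ _ _ _ _ _ _).mpr ⟨hs, ht, ha, hd, hb, hc, rfl, rfl, ?_⟩, rfl⟩)
      have h8 : 3 * (3 * ((a : ℤ) * d) + 5 * (b * c)) = 3 * (m * (A * B : ℕ)) := by
        linear_combination h6 - 9 * a * d * hs2 - 15 * b * c * ht2
      exact_mod_cast mul_left_cancel₀ three_ne_zero h8
    · omega

theorem symbols : ∃ aa bb : ℕ → ℤ, SymData aa bb ∧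
    ∀ (f : ℤ → ℤ → ℤ → ℤ → ℂ), Hom15 f → f 4 1 1 4 ≠ 0 → ∀ n, Good n → aa n ≠ 0 →
      ∀ a c : ℕ → ℤ, (∀ k : ℕ, Nat.Coprime k n → a k * n - k * (15 * c k) = 1) →
        ∑ k ∈ range n, (J((k : ℤ) | n) : ℂ) * f (a k) k (c k) n ≠ 0 := symbols_of closed_form

end Pool.Agent.Lib.MP_696deb_nt
end
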