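import Mathlib
import Pool.Agent.Lib.MP_696deb_nt.GDefs

set_option autoImplicit false

open Finset Matrix

namespace Pool.Agent.Lib.MP_696deb_nt

/-- The number of proper isometries from `G` to `H`. -/
noncomputable def kk (G H : M3) : ℕ := Nat.card {g : SL3 // actG g G = H}

theorem isTQ_G1 : IsTQ G1 where
  symm := by decide
  even := by decide
  det := by decide
  pos v hv := by
    have h : v 0 ≠ 0 ∨ v 1 ≠ 0 ∨ v 2 ≠ 0 := by
      by_contra hc
      push Not at hc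
      exact hv (funext fun i => by fin_cases i <;> simp [hc])
    simp [G1, Matrix.mulVec, dotProduct, Fin.sum_univ_three]
    rcases h with h | h | h <;>
      nlinarith [sq_pos_of_ne_zero h, sq_nonneg (v 0), sq_nonneg (v 1), sq_nonneg (v 2),
        sq_nonneg (v 1 - v 2)]

theorem isTQ_G2 : IsTQ G2 where
  symm := by decide
  even := by decide
  det := by decide
  pos v hv := by
    have h : v 0 ≠ 0 ∨ v 1 ≠ 0 ∨ v 2 ≠ 0 := by
      by_contra hc
      push Not at hc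
      exact hv (funext fun i => by fin_cases i <;> simp [hc])
    simp [G2, Matrix.mulVec, dotProduct, Fin.sum_univ_three]
    rcases h with h | h | h <;>
      nlinarith [sq_pos_of_ne_zero h, sq_nonneg (v 0), sq_nonneg (v 1), sq_nonneg (v 2),
        sq_nonneg (v 0 - v 1)]

theorem isTQ_G3 : IsTQ G3 where
  symm := by decide
  even := by decide
  det := by decide
  pos v hv := by
    have h : v 0 ≠ 0 ∨ v 1 ≠ 0 ∨ v 2 ≠ 0 := by
      by_contra hc
      push Not at hc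
      exact hv (funext fun i => by fin_cases i <;> simp [hc])
    simp [G3, Matrix.mulVec, dotProduct, Fin.sum_univ_three]
    rcases h with h | h | h <;>
      nlinarith [sq_pos_of_ne_zero h, sq_nonneg (v 0), sq_nonneg (v 1), sq_nonneg (v 2),
        sq_nonneg (v 1 - v 2)]

/-! ### Reduction -/

/-- An element of `SL₃(ℤ)` from its entries. -/
def mkSL (a b c d e f g h i : ℤ)
    (hd : a * e * i - a * f * h - b * d * i + b * f * g + c * d * h - c * e * g = 1) : SL3 :=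
  ⟨!![a, b, c; d, e, f; g, h, i], by rw [det_fin_three]; simpa using hd⟩

/-- The weighted trace that is minimised. -/
def wt (G : M3) : ℤ := 3 * G 0 0 + 2 * G 1 1 + G 2 2

theorem IsTQ.diag_pos {G : M3} (hG : IsTQ G) (i : Fin 3) : 0 < G i i := by
  have := hG.pos (Pi.single i 1) (by simp)
  simpa using this

theorem exists_min {G : M3} (hG : IsTQ G) :
    ∃ g : SL3, ∀ h : SL3, wt (actG g G) ≤ wt (actG h (actG g G)) := by
  have hpos : ∀ g : SL3, 0 < wt (actG g G) := fun g => by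
    have h := hG.act g
    have := h.diag_pos 0
    have := h.diag_pos 1
    have := h.diag_pos 2
    unfold wt
    omega
  obtain ⟨g, hg⟩ := exists_minimalFor_of_wellFoundedLT (fun _ : SL3 => True)
    (fun g => (wt (actG g G)).toNat) ⟨1, trivial⟩
  refine ⟨g, fun h => ?_⟩
  rw [← actG_mul]
  have h1 := hpos g
  have h2 := hpos (h * g)
  by_contra hc
  have := hg.2 (j := h * g) trivial (by simp only; omega)
  simp only at this
  omega

theorem bound_abc {a b c t s r : ℤ} (ha : 0 < a) (hab : a ≤ b) (hbc : b ≤ c)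
    (ht : |t| ≤ a) (hs : |s| ≤ a) (hr : |r| ≤ b) (h1 : 0 ≤ a + b + s + r + t)
    (h2 : 0 ≤ a + b + s - r - t) (h3 : 0 ≤ a + b - s + r - t) (h4 : 0 ≤ a + b - s - r + t)
    (hd : 4 * a * b * c + r * s * t - a * r ^ 2 - b * s ^ 2 - c * t ^ 2 = 15) :
    a * b * c ≤ 15 := by
  have hb : 0 < b := by omega
  have hc : 0 < c := by omega
  have e1 : c * t ^ 2 ≤ a * b * c := by
    have : t ^ 2 ≤ a ^ 2 := sq_le_sq' (abs_le.mp ht).1 (abs_le.mp ht).2
    nlinarith [mul_le_mul_of_nonneg_left this hc.le, mul_pos ha hc]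
  have hab0 : 0 < a * b := mul_pos ha hb
  have e2 : a * r ^ 2 ≤ a * b * |r| := by
    rw [← sq_abs r]; nlinarith [mul_nonneg ha.le (abs_nonneg r)]
  have e3 : b * s ^ 2 ≤ a * b * |s| := by
    rw [← sq_abs s]; nlinarith [mul_nonneg hb.le (abs_nonneg s)]
  have e4 : |r * s * t| ≤ a * b * |t| := by
    rw [abs_mul, abs_mul]
    have : |r| * |s| ≤ a * b := by
      rw [mul_comm a b]; exact mul_le_mul hr hs (abs_nonneg _) hb.le
    exact mul_le_mul_of_nonneg_right this (abs_nonneg _)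
  have e5 : a * b * (a + b) ≤ 2 * (a * b * c) := by nlinarith
  rcases le_or_gt 0 (r * s * t) with h | h
  · have : a * b * (|r| + |s|) ≤ a * b * (a + b) :=
      mul_le_mul_of_nonneg_left (by omega) hab0.le
    nlinarith
  · have h5 : |r| + |s| + |t| ≤ a + b := by
      rcases lt_trichotomy r 0 with hr0 | hr0 | hr0
      · rcases lt_trichotomy s 0 with hs0 | hs0 | hs0
        · have : t < 0 := by
            by_contra hc; nlinarith [mul_pos_of_neg_of_neg hr0 hs0]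
          rw [abs_of_neg hr0, abs_of_neg hs0, abs_of_neg this]; omega
        · simp [hs0] at h
        · have : 0 < t := by
            by_contra hc; nlinarith [mul_neg_of_neg_of_pos hr0 hs0]
          rw [abs_of_neg hr0, abs_of_pos hs0, abs_of_pos this]; omega
      · simp [hr0] at h
      · rcases lt_trichotomy s 0 with hs0 | hs0 | hs0
        · have : 0 < t := by
            by_contra hc; nlinarith [mul_neg_of_pos_of_neg hr0 hs0]
          rw [abs_of_pos hr0, abs_of_neg hs0, abs_of_pos this]; omega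
        · simp [hs0] at h
        · have : t < 0 := by
            by_contra hc; nlinarith [mul_pos hr0 hs0]
          rw [abs_of_pos hr0, abs_of_pos hs0, abs_of_neg this]; omega
    have : a * b * (|r| + |s| + |t|) ≤ a * b * (a + b) := mul_le_mul_of_nonneg_left h5 hab0.le
    rw [abs_of_neg h] at e4
    nlinarith

theorem reduced_cases {a b c t s r : ℤ} (ha : 0 < a) (hab : a ≤ b) (hbc : b ≤ c)
    (ht : |t| ≤ a) (hs : |s| ≤ a) (hr : |r| ≤ b) (h1 : 0 ≤ a + b + s + r + t)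
    (h2 : 0 ≤ a + b + s - r - t) (h3 : 0 ≤ a + b - s + r - t) (h4 : 0 ≤ a + b - s - r + t)
    (hd : 4 * a * b * c + r * s * t - a * r ^ 2 - b * s ^ 2 - c * t ^ 2 = 15) :
    (a, b, c, t, s, r) ∈ [((1, 1, 4, 0, -1, 0) : ℤ × ℤ × ℤ × ℤ × ℤ × ℤ), (1, 1, 4, 0, 0, -1),
      (1, 1, 4, 0, 0, 1), (1, 1, 4, 0, 1, 0), (1, 1, 5, -1, 0, 0), (1, 1, 5, 1, 0, 0),
      (1, 1, 6, -1, 1, 1), (1, 1, 6, 1, -1, 1), (1, 1, 6, 1, 1, -1), (1, 1, 6, -1, -1, -1),
      (1, 2, 2, 0, 0, -1), (1, 2, 2, 0, 0, 1)] := by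
  have hb := bound_abc ha hab hbc ht hs hr h1 h2 h3 h4 hd
  have hb0 : 0 < b := by omega
  have hc0 : 0 < c := by omega
  have ha2 : a ≤ 2 := by
    by_contra h
    have : 3 * 3 ≤ a * b := by nlinarith
    nlinarith
  have hb3 : b ≤ 3 := by
    by_contra h
    have : 4 * 4 ≤ b * c := by nlinarith
    nlinarith
  have hc : c ≤ 15 := by
    have : 1 ≤ a * b := by nlinarith
    nlinarith
  obtain ⟨ht1, ht2⟩ := abs_le.mp ht
  obtain ⟨hs1, hs2⟩ := abs_le.mp hs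
  obtain ⟨hr1, hr2⟩ := abs_le.mp hr
  clear ht hs hr h1 h2 h3 h4
  interval_cases a <;> interval_cases b <;> interval_cases t <;> interval_cases s <;>
    interval_cases r <;>
    first
    | omega
    | (have : c = 2 ∨ c = 4 ∨ c = 5 ∨ c = 6 := by omega
       rcases this with rfl | rfl | rfl | rfl <;> first | omega | decide)

theorem IsTQ.eq_entries {G : M3} (hG : IsTQ G) :
    G = !![G 0 0, G 0 1, G 0 2; G 0 1, G 1 1, G 1 2; G 0 2, G 1 2, G 2 2] := by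
  have h01 : G 1 0 = G 0 1 := by simpa using congr_fun (congr_fun hG.symm 0) 1
  have h02 : G 2 0 = G 0 2 := by simpa using congr_fun (congr_fun hG.symm 0) 2
  have h12 : G 2 1 = G 1 2 := by simpa using congr_fun (congr_fun hG.symm 1) 2
  ext i j
  fin_cases i <;> fin_cases j <;> simp [h01, h02, h12]

theorem wt_mk (G : M3) (a b c d e f g h i : ℤ) (hd) :
    wt (actG (mkSL a b c d e f g h i hd) G) =
      3 * ((a * G 0 0 + b * G 1 0 + c * G 2 0) * a + (a * G 0 1 + b * G 1 1 + c * G 2 1) * b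
        + (a * G 0 2 + b * G 1 2 + c * G 2 2) * c)
      + 2 * ((d * G 0 0 + e * G 1 0 + f * G 2 0) * d + (d * G 0 1 + e * G 1 1 + f * G 2 1) * e
        + (d * G 0 2 + e * G 1 2 + f * G 2 2) * f)
      + ((g * G 0 0 + h * G 1 0 + i * G 2 0) * g + (g * G 0 1 + h * G 1 1 + i * G 2 1) * h
        + (g * G 0 2 + h * G 1 2 + i * G 2 2) * i) := by
  simp [wt, actG, mkSL, Matrix.mul_apply, Fin.sum_univ_three, Matrix.vecMul, dotProduct]

theorem classify_min {G : M3} (hG : IsTQ G) (hm : ∀ h : SL3, wt G ≤ wt (actG h G)) :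
    ∃ g : SL3, actG g G1 = G ∨ actG g G2 = G ∨ actG g G3 = G := by
  have h01 : G 1 0 = G 0 1 := by simpa using congr_fun (congr_fun hG.symm 0) 1
  have h02 : G 2 0 = G 0 2 := by simpa using congr_fun (congr_fun hG.symm 0) 2
  have h12 : G 2 1 = G 1 2 := by simpa using congr_fun (congr_fun hG.symm 1) 2
  obtain ⟨a, ha⟩ := hG.even 0
  obtain ⟨b, hb⟩ := hG.even 1
  obtain ⟨c, hc⟩ := hG.even 2
  have hd := hG.det
  have hG' := hG.eq_entries
  have p0 := hG.diag_pos 0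
  have m1 := hm (mkSL 0 1 0 1 0 0 0 0 (-1) (by norm_num))
  have m2 := hm (mkSL (-1) 0 0 0 0 1 0 1 0 (by norm_num))
  have m3 := hm (mkSL 1 0 0 1 1 0 0 0 1 (by norm_num))
  have m4 := hm (mkSL 1 0 0 (-1) 1 0 0 0 1 (by norm_num))
  have m5 := hm (mkSL 1 0 0 0 1 0 1 0 1 (by norm_num))
  have m6 := hm (mkSL 1 0 0 0 1 0 (-1) 0 1 (by norm_num))
  have m7 := hm (mkSL 1 0 0 0 1 0 0 1 1 (by norm_num))
  have m8 := hm (mkSL 1 0 0 0 1 0 0 (-1) 1 (by norm_num))
  have m9 := hm (mkSL 1 0 0 0 1 0 1 1 1 (by norm_num))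
  have m10 := hm (mkSL 1 0 0 0 1 0 1 (-1) 1 (by norm_num))
  have m11 := hm (mkSL 1 0 0 0 1 0 (-1) 1 1 (by norm_num))
  have m12 := hm (mkSL 1 0 0 0 1 0 (-1) (-1) 1 (by norm_num))
  rw [wt_mk, wt] at m1 m2 m3 m4 m5 m6 m7 m8 m9 m10 m11 m12
  rw [det_fin_three] at hd
  simp only [h01, h02, h12] at m1 m2 m3 m4 m5 m6 m7 m8 m9 m10 m11 m12 hd
  rw [ha, hb, hc] at m1 m2 m3 m4 m5 m6 m7 m8 m9 m10 m11 m12 hd hG'
  rw [ha] at p0
  generalize G 0 1 = t at *
  generalize G 0 2 = s at *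
  generalize G 1 2 = r at *
  have key := reduced_cases (a := a) (b := b) (c := c) (t := t) (s := s) (r := r) (by omega)
    (by omega) (by omega) (abs_le.mpr ⟨by omega, by omega⟩) (abs_le.mpr ⟨by omega, by omega⟩)
    (abs_le.mpr ⟨by omega, by omega⟩) (by omega) (by omega) (by omega) (by omega) (by linarith)
  rw [hG']
  simp only [List.mem_cons, Prod.mk.injEq, List.not_mem_nil, or_false] at key
  rcases key with h | h | h | h | h | h | h | h | h | h | h | h <;>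
    obtain ⟨rfl, rfl, rfl, rfl, rfl, rfl⟩ := h
  · exact ⟨mkSL 0 (-1) 0 (-1) 0 0 0 0 (-1) (by norm_num), .inr (.inr (by decide))⟩
  · exact ⟨mkSL (-1) 0 0 0 (-1) 0 0 1 1 (by norm_num), .inr (.inr (by decide))⟩
  · exact ⟨mkSL (-1) 0 0 0 (-1) 0 0 0 1 (by norm_num), .inr (.inr (by decide))⟩
  · exact ⟨mkSL 0 (-1) 0 (-1) 0 0 0 (-1) (-1) (by norm_num), .inr (.inr (by decide))⟩
  · exact ⟨mkSL (-1) (-1) 0 0 1 0 0 0 (-1) (by norm_num), .inr (.inl (by decide))⟩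
  · exact ⟨mkSL (-1) (-1) 0 (-1) 0 0 0 0 (-1) (by norm_num), .inr (.inl (by decide))⟩
  · exact ⟨mkSL (-1) (-1) 0 0 1 0 (-1) 0 (-1) (by norm_num), .inr (.inl (by decide))⟩
  · exact ⟨mkSL (-1) (-1) 0 (-1) 0 0 0 1 (-1) (by norm_num), .inr (.inl (by decide))⟩
  · exact ⟨mkSL (-1) (-1) 0 (-1) 0 0 0 (-1) (-1) (by norm_num), .inr (.inl (by decide))⟩
  · exact ⟨mkSL (-1) (-1) 0 0 1 0 1 0 (-1) (by norm_num), .inr (.inl (by decide))⟩
  · exact ⟨mkSL (-1) 0 0 0 0 (-1) 0 (-1) 0 (by norm_num), .inl (by decide)⟩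
  · exact ⟨mkSL (-1) 0 0 0 (-1) 0 0 0 1 (by norm_num), .inl (by decide)⟩

/-- There are three classes of positive ternary forms of half-discriminant `15`. -/
theorem classify {G : M3} (hG : IsTQ G) :
    ∃ g : SL3, actG g G1 = G ∨ actG g G2 = G ∨ actG g G3 = G := by
  obtain ⟨g, hg⟩ := exists_min hG
  obtain ⟨h, hh⟩ := classify_min (hG.act g) hg
  refine ⟨g⁻¹ * h, ?_⟩
  simp only [actG_mul]
  rcases hh with e | e | e <;> simp [e, ← actG_mul, actG_one]

/-! ### Counting isometries -/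

abbrev T3 := ℤ × ℤ × ℤ

/-- The bilinear form of `G` on triples. -/
def bT (G : M3) (u v : T3) : ℤ :=
  (u.1 * G 0 0 + u.2.1 * G 1 0 + u.2.2 * G 2 0) * v.1 +
    (u.1 * G 0 1 + u.2.1 * G 1 1 + u.2.2 * G 2 1) * v.2.1 +
    (u.1 * G 0 2 + u.2.1 * G 1 2 + u.2.2 * G 2 2) * v.2.2

def detT (u v w : T3) : ℤ :=
  u.1 * v.2.1 * w.2.2 - u.1 * v.2.2 * w.2.1 - u.2.1 * v.1 * w.2.2 + u.2.1 * v.2.2 * w.1 +
    u.2.2 * v.1 * w.2.1 - u.2.2 * v.2.1 * w.1

def box : List ℤ := [-2, -1, 0, 1, 2]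

def vecs (G : M3) (n : ℤ) : List T3 :=
  (box ×ˢ box ×ˢ box).filter fun u => decide (bT G u u = n)

def isos (G H : M3) : List (T3 × T3 × T3) :=
  (vecs G (H 0 0) ×ˢ vecs G (H 1 1) ×ˢ vecs G (H 2 2)).filter fun q =>
    decide (bT G q.1 q.2.1 = H 0 1 ∧ bT G q.1 q.2.2 = H 0 2 ∧ bT G q.2.1 q.2.2 = H 1 2 ∧
      detT q.1 q.2.1 q.2.2 = 1)

def rows (g : SL3) : T3 × T3 × T3 :=
  ((g 0 0, g 0 1, g 0 2), (g 1 0, g 1 1, g 1 2), (g 2 0, g 2 1, g 2 2))

theorem rows_inj : Function.Injective rows := fun g h e => by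
  simp only [rows, Prod.mk.injEq] at e
  ext i j
  fin_cases i <;> fin_cases j <;> simp [e]

theorem act_apply (g : SL3) (G : M3) (i j : Fin 3) :
    actG g G i j = bT G (g i 0, g i 1, g i 2) (g j 0, g j 1, g j 2) := by
  simp [actG, bT, Matrix.mul_apply, Fin.sum_univ_three]

theorem mem_box {a : ℤ} (h : a ^ 2 ≤ 8) : a ∈ box := by
  have h1 : -2 ≤ a := by nlinarith
  have h2 : a ≤ 2 := by nlinarith
  interval_cases a <;> decide

theorem image_rows {G H : M3} (hG : IsTQ G) (hH : IsTQ H)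
    (hb : ∀ i u, bT G u u = H i i → u.1 ^ 2 ≤ 8 ∧ u.2.1 ^ 2 ≤ 8 ∧ u.2.2 ^ 2 ≤ 8) :
    rows '' {g : SL3 | actG g G = H} = (isos G H).toFinset := by
  have mp : ∀ {α β : Type} (l : List α) (m : List β) (q : α × β),
      q ∈ l ×ˢ m ↔ q.1 ∈ l ∧ q.2 ∈ m := fun l m q => List.mem_product
  ext q
  simp only [Set.mem_image, Set.mem_ofPred_eq, List.coe_toFinset, isos, vecs, List.mem_filter,
    mp, decide_eq_true_eq]
  constructor
  · rintro ⟨g, hg, rfl⟩
    have e : ∀ i j, bT G (g i 0, g i 1, g i 2) (g j 0, g j 1, g j 2) = H i j := fun i j => by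
      rw [← act_apply, hg]
    have b := fun i => hb i _ (e i i)
    have hd := g.det_coe
    rw [det_fin_three] at hd
    exact ⟨⟨⟨⟨mem_box (b 0).1, mem_box (b 0).2.1, mem_box (b 0).2.2⟩, e 0 0⟩,
      ⟨⟨mem_box (b 1).1, mem_box (b 1).2.1, mem_box (b 1).2.2⟩, e 1 1⟩,
      ⟨⟨mem_box (b 2).1, mem_box (b 2).2.1, mem_box (b 2).2.2⟩, e 2 2⟩⟩, e 0 1, e 0 2, e 1 2, hd⟩
  · obtain ⟨⟨a, b, c⟩, ⟨d, e, f⟩, ⟨g, h, i⟩⟩ := q
    rintro ⟨⟨⟨-, h0⟩, ⟨-, h1⟩, ⟨-, h2⟩⟩, h01, h02, h12, hd⟩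
    refine ⟨mkSL a b c d e f g h i hd, ?_, rfl⟩
    rw [(hG.act _).eq_entries, hH.eq_entries]
    simp only [act_apply]
    simp only at h0 h1 h2 h01 h02 h12
    simp [mkSL, h0, h1, h2, h01, h02, h12]

theorem kk_eq {G H : M3} (hG : IsTQ G) (hH : IsTQ H)
    (hb : ∀ i u, bT G u u = H i i → u.1 ^ 2 ≤ 8 ∧ u.2.1 ^ 2 ≤ 8 ∧ u.2.2 ^ 2 ≤ 8) :
    kk G H = (isos G H).toFinset.card := by
  rw [← Set.ncard_coe_finset, ← image_rows hG hH hb, Set.ncard_image_of_injective _ rows_inj]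
  rfl

theorem finite_of {G H : M3} (hG : IsTQ G) (hH : IsTQ H)
    (hb : ∀ i u, bT G u u = H i i → u.1 ^ 2 ≤ 8 ∧ u.2.1 ^ 2 ≤ 8 ∧ u.2.2 ^ 2 ≤ 8) :
    {g : SL3 | actG g G = H}.Finite :=
  Set.Finite.of_finite_image (by rw [image_rows hG hH hb]; exact finite_toSet _)
    rows_inj.injOn

theorem hb1 (u : T3) (h : bT G1 u u ≤ 10) : u.1 ^ 2 ≤ 8 ∧ u.2.1 ^ 2 ≤ 8 ∧ u.2.2 ^ 2 ≤ 8 := by
  simp [bT, G1] at h
  refine ⟨?_, ?_, ?_⟩ <;>
    nlinarith [sq_nonneg u.1, sq_nonneg u.2.1, sq_nonneg u.2.2, sq_nonneg (u.2.1 - u.2.2)]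

theorem hb2 (u : T3) (h : bT G2 u u ≤ 10) : u.1 ^ 2 ≤ 8 ∧ u.2.1 ^ 2 ≤ 8 ∧ u.2.2 ^ 2 ≤ 8 := by
  simp [bT, G2] at h
  refine ⟨?_, ?_, ?_⟩ <;>
    nlinarith [sq_nonneg u.1, sq_nonneg u.2.1, sq_nonneg u.2.2, sq_nonneg (u.1 - 2 * u.2.1),
      sq_nonneg (2 * u.1 - u.2.1)]

theorem hb3 (u : T3) (h : bT G3 u u ≤ 10) : u.1 ^ 2 ≤ 8 ∧ u.2.1 ^ 2 ≤ 8 ∧ u.2.2 ^ 2 ≤ 8 := by
  simp [bT, G3] at h
  refine ⟨?_, ?_, ?_⟩ <;>
    nlinarith [sq_nonneg u.1, sq_nonneg u.2.1, sq_nonneg u.2.2, sq_nonneg (u.2.1 - u.2.2),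
      sq_nonneg (u.2.1 - 4 * u.2.2)]

theorem dg1 (i : Fin 3) : G1 i i ≤ 10 := by revert i; decide
theorem dg2 (i : Fin 3) : G2 i i ≤ 10 := by revert i; decide
theorem dg3 (i : Fin 3) : G3 i i ≤ 10 := by revert i; decide

theorem kk11 : kk G1 G1 = 4 := by
  rw [kk_eq isTQ_G1 isTQ_G1 fun i u h => hb1 u (h ▸ dg1 i)]; decide +kernel
theorem kk12 : kk G1 G2 = 0 := by
  rw [kk_eq isTQ_G1 isTQ_G2 fun i u h => hb1 u (h ▸ dg2 i)]; decide +kernel
theorem kk13 : kk G1 G3 = 0 := by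
  rw [kk_eq isTQ_G1 isTQ_G3 fun i u h => hb1 u (h ▸ dg3 i)]; decide +kernel
theorem kk21 : kk G2 G1 = 0 := by
  rw [kk_eq isTQ_G2 isTQ_G1 fun i u h => hb2 u (h ▸ dg1 i)]; decide +kernel
theorem kk22 : kk G2 G2 = 12 := by
  rw [kk_eq isTQ_G2 isTQ_G2 fun i u h => hb2 u (h ▸ dg2 i)]; decide +kernel
theorem kk23 : kk G2 G3 = 0 := by
  rw [kk_eq isTQ_G2 isTQ_G3 fun i u h => hb2 u (h ▸ dg3 i)]; decide +kernel
theorem kk31 : kk G3 G1 = 0 := by
  rw [kk_eq isTQ_G3 isTQ_G1 fun i u h => hb3 u (h ▸ dg1 i)]; decide +kernel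
theorem kk32 : kk G3 G2 = 0 := by
  rw [kk_eq isTQ_G3 isTQ_G2 fun i u h => hb3 u (h ▸ dg2 i)]; decide +kernel
theorem kk33 : kk G3 G3 = 4 := by
  rw [kk_eq isTQ_G3 isTQ_G3 fun i u h => hb3 u (h ▸ dg3 i)]; decide +kernel

/-- Isometries onto `H` and onto a transform of `H` correspond. -/
def isoEquiv (G H : M3) (g : SL3) :
    {h : SL3 // actG h G = H} ≃ {h : SL3 // actG h G = actG g H} where
  toFun h := ⟨g * h.1, by rw [actG_mul, h.2]⟩
  invFun h := ⟨g⁻¹ * h.1, by rw [actG_mul, h.2, ← actG_mul, inv_mul_cancel, actG_one]⟩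
  left_inv h := by simp
  right_inv h := by simp

theorem kk_act (G H : M3) (g : SL3) : kk G (actG g H) = kk G H :=
  (Nat.card_congr (isoEquiv G H g)).symm

/-- The mass formula. -/
theorem mass_kk {G : M3} (hG : IsTQ G) : 3 * kk G1 G + kk G2 G + 3 * kk G3 G = 12 := by
  obtain ⟨g, rfl | rfl | rfl⟩ := classify hG <;>
    simp [kk_act, kk11, kk12, kk13, kk21, kk22, kk23, kk31, kk32, kk33]

theorem finite_iso_of {G : M3} (hG : IsTQ G)
    (hb : ∀ u, bT G u u ≤ 10 → u.1 ^ 2 ≤ 8 ∧ u.2.1 ^ 2 ≤ 8 ∧ u.2.2 ^ 2 ≤ 8) {H : M3}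
    (hH : IsTQ H) : Finite {g : SL3 // actG g G = H} := by
  obtain ⟨g, rfl | rfl | rfl⟩ := classify hH
  · have : Finite {h : SL3 // actG h G = G1} :=
      finite_of hG isTQ_G1 fun i u h => hb u (h ▸ dg1 i)
    exact Finite.of_equiv _ (isoEquiv G G1 g)
  · have : Finite {h : SL3 // actG h G = G2} :=
      finite_of hG isTQ_G2 fun i u h => hb u (h ▸ dg2 i)
    exact Finite.of_equiv _ (isoEquiv G G2 g)
  · have : Finite {h : SL3 // actG h G = G3} :=
      finite_of hG isTQ_G3 fun i u h => hb u (h ▸ dg3 i)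
    exact Finite.of_equiv _ (isoEquiv G G3 g)

/-- Two positive forms have only finitely many isometries between them. -/
theorem finite_iso {G H : M3} (hG : IsTQ G) (hH : IsTQ H) : Finite {g : SL3 // actG g G = H} := by
  have key : ∀ (G0 : M3) (k : SL3), Finite {g : SL3 // actG g G0 = H} →
      Finite {g : SL3 // actG g (actG k G0) = H} := fun G0 k _ =>
    Finite.of_injective (β := {g : SL3 // actG g G0 = H})
      (fun g => ⟨g.1 * k, by rw [actG_mul, g.2]⟩) fun a b e => Subtype.ext (by simpa using e)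
  obtain ⟨k, rfl | rfl | rfl⟩ := classify hG
  · exact key _ k (finite_iso_of isTQ_G1 hb1 hH)
  · exact key _ k (finite_iso_of isTQ_G2 hb2 hH)
  · exact key _ k (finite_iso_of isTQ_G3 hb3 hH)

/-! ### Counting structures through normal forms -/

section groupoid

variable {Y R : Type*} [CommRing R] (act : SL3 → Y → Y) (P : M3 → Y → Prop) (F : M3 → Y → R)
  (N : Finset (M3 × Y)) (c : ℕ)

theorem groupoid_one (act_one : ∀ y, act 1 y = y)
    (act_mul : ∀ g h y, act (g * h) y = act g (act h y))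
    (hP : ∀ g G y, IsTQ G → P G y → P (actG g G) (act g y))
    (hF : ∀ g G y, IsTQ G → P G y → F (actG g G) (act g y) = F G y)
    (hN : ∀ q ∈ N, IsTQ q.1 ∧ P q.1 q.2) {G : M3} (hG : IsTQ G)
    (hc : ∀ y, P G y → Nat.card {g : SL3 // (actG g G, act g y) ∈ N} = c)
    (YG : Finset Y) (hY : ∀ y, y ∈ YG ↔ P G y) :
    (c : R) * ∑ y ∈ YG, F G y = ∑ q ∈ N, (kk G q.1 : R) * F q.1 q.2 := by
  classical
  have fin : ∀ q ∈ N, {g : SL3 | actG g G = q.1}.Finite := fun q hq => finite_iso hG (hN q hq).1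
  let A : Finset SL3 := N.attach.biUnion fun q => (fin q.1 q.2).toFinset
  have hA : ∀ g, g ∈ A ↔ ∃ q ∈ N, actG g G = q.1 := fun g => by simp [A]
  have e1 : ∀ y ∈ YG, (c : R) * F G y =
      ∑ g ∈ A, ∑ q ∈ N, if (actG g G, act g y) = q then F q.1 q.2 else 0 := fun y hy => by
    have hy' := (hY y).mp hy
    have : c = (A.filter fun g => (actG g G, act g y) ∈ N).card := by
      rw [← hc y hy', ← Nat.card_eq_finsetCard]
      refine Nat.card_congr (Equiv.subtypeEquivRight fun g => ?_)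
      rw [mem_filter, hA]
      exact ⟨fun h => ⟨⟨_, h, rfl⟩, h⟩, fun h => h.2⟩
    rw [this, card_eq_sum_ones, sum_filter]
    push_cast
    rw [sum_mul]
    refine sum_congr rfl fun g _ => ?_
    rw [sum_ite_eq]
    split_ifs <;> simp [hF g G y hG hy']
  have e2 : ∀ q ∈ N, (kk G q.1 : R) * F q.1 q.2 =
      ∑ g ∈ A, ∑ y ∈ YG, if (actG g G, act g y) = q then F q.1 q.2 else 0 := fun q hq => by
    have : kk G q.1 = (A.filter fun g => actG g G = q.1).card := by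
      rw [kk, ← Nat.card_eq_finsetCard]
      refine Nat.card_congr (Equiv.subtypeEquivRight fun g => ?_)
      rw [mem_filter, hA]
      exact ⟨fun h => ⟨⟨_, hq, h⟩, h⟩, fun h => h.2⟩
    rw [this, card_eq_sum_ones, sum_filter]
    push_cast
    rw [sum_mul]
    refine sum_congr rfl fun g _ => ?_
    by_cases hg : actG g G = q.1
    · have hy : act g⁻¹ q.2 ∈ YG := by
        have := hP g⁻¹ _ _ (hN q hq).1 (hN q hq).2
        rwa [← hg, ← actG_mul, inv_mul_cancel, actG_one, ← hY] at this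
      rw [sum_eq_single_of_mem _ hy]
      · simp [hg, ← act_mul, act_one]
      · intro y _ hne
        rw [if_neg]
        intro h
        apply hne
        rw [← h, ← act_mul, inv_mul_cancel, act_one]
    · rw [if_neg hg, zero_mul, sum_eq_zero]
      intro y _
      rw [if_neg]
      intro h
      exact hg (by rw [← h])
  rw [mul_sum, sum_congr rfl e1, sum_congr rfl e2, sum_comm, sum_comm (s := N)]
  exact sum_congr rfl fun g _ => sum_comm

/-- Weighted count of structures on the three forms, when every structure can be brought to a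
member of the finite set `N` of normal forms in exactly `c` ways. -/
theorem groupoid_w (act_one : ∀ y, act 1 y = y)
    (act_mul : ∀ g h y, act (g * h) y = act g (act h y))
    (hP : ∀ g G y, IsTQ G → P G y → P (actG g G) (act g y))
    (hF : ∀ g G y, IsTQ G → P G y → F (actG g G) (act g y) = F G y)
    (hN : ∀ q ∈ N, IsTQ q.1 ∧ P q.1 q.2)
    (hc : ∀ G y, IsTQ G → P G y → Nat.card {g : SL3 // (actG g G, act g y) ∈ N} = c)
    (Y1 Y2 Y3 : Finset Y) (h1 : ∀ y, y ∈ Y1 ↔ P G1 y) (h2 : ∀ y, y ∈ Y2 ↔ P G2 y)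
    (h3 : ∀ y, y ∈ Y3 ↔ P G3 y) :
    (c : R) * (3 * ∑ y ∈ Y1, F G1 y + ∑ y ∈ Y2, F G2 y + 3 * ∑ y ∈ Y3, F G3 y) =
      12 * ∑ q ∈ N, F q.1 q.2 := by
  have e1 := groupoid_one act P F N c act_one act_mul hP hF hN isTQ_G1
    (fun y => hc _ y isTQ_G1) Y1 h1
  have e2 := groupoid_one act P F N c act_one act_mul hP hF hN isTQ_G2
    (fun y => hc _ y isTQ_G2) Y2 h2
  have e3 := groupoid_one act P F N c act_one act_mul hP hF hN isTQ_G3
    (fun y => hc _ y isTQ_G3) Y3 h3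
  have : (c : R) * (3 * ∑ y ∈ Y1, F G1 y + ∑ y ∈ Y2, F G2 y + 3 * ∑ y ∈ Y3, F G3 y) =
      3 * (c * ∑ y ∈ Y1, F G1 y) + c * ∑ y ∈ Y2, F G2 y + 3 * (c * ∑ y ∈ Y3, F G3 y) := by ring
  rw [this, e1, e2, e3, mul_sum, mul_sum, mul_sum, ← sum_add_distrib, ← sum_add_distrib]
  refine sum_congr rfl fun q hq => ?_
  have h := congrArg (Nat.cast : ℕ → R) (mass_kk (hN q hq).1)
  push_cast at h
  rw [← h]
  ring

/-- The same with unique normal forms. -/
theorem groupoid_unique (act_one : ∀ y, act 1 y = y)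
    (act_mul : ∀ g h y, act (g * h) y = act g (act h y))
    (hP : ∀ g G y, IsTQ G → P G y → P (actG g G) (act g y))
    (hF : ∀ g G y, IsTQ G → P G y → F (actG g G) (act g y) = F G y)
    (hN : ∀ q ∈ N, IsTQ q.1 ∧ P q.1 q.2)
    (hc : ∀ G y, IsTQ G → P G y → ∃! g : SL3, (actG g G, act g y) ∈ N)
    (Y1 Y2 Y3 : Finset Y) (h1 : ∀ y, y ∈ Y1 ↔ P G1 y) (h2 : ∀ y, y ∈ Y2 ↔ P G2 y)
    (h3 : ∀ y, y ∈ Y3 ↔ P G3 y) :
    3 * ∑ y ∈ Y1, F G1 y + ∑ y ∈ Y2, F G2 y + 3 * ∑ y ∈ Y3, F G3 y =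
      12 * ∑ q ∈ N, F q.1 q.2 := by
  have := groupoid_w act P F N 1 act_one act_mul hP hF hN
    (fun G y hG hy => Nat.card_eq_one_iff_exists.mpr (by
      obtain ⟨g, hg, hu⟩ := hc G y hG hy
      exact ⟨⟨g, hg⟩, fun h => Subtype.ext (hu h.1 h.2)⟩)) Y1 Y2 Y3 h1 h2 h3
  simpa using this

end groupoid

/-- Pairs of vectors with given Gram matrix, counted through unique normal forms. -/
theorem cnt_groupoid (n n2 : ℕ) (t : ℤ) (N : Finset (M3 × V3 × V3))
    (hN : ∀ q ∈ N, IsTQ q.1 ∧ bil q.1 q.2.1 q.2.1 = n ∧ bil q.1 q.2.2 q.2.2 = n2 ∧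
      bil q.1 q.2.1 q.2.2 = t)
    (hc : ∀ (G : M3) (x w : V3), IsTQ G → bil G x x = n → bil G w w = n2 → bil G x w = t →
      ∃! g : SL3, (actG g G, (g : M3) *ᵥ x, (g : M3) *ᵥ w) ∈ N) :
    3 * cnt G1 n n2 t + cnt G2 n n2 t + 3 * cnt G3 n n2 t = 12 * N.card := by
  have := groupoid_unique (R := ℤ) (fun (g : SL3) (y : V3 × V3) => ((g : M3) *ᵥ y.1, (g : M3) *ᵥ y.2))
    (fun G y => bil G y.1 y.1 = n ∧ bil G y.2 y.2 = n2 ∧ bil G y.1 y.2 = t) (fun _ _ => 1) N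
    (by simp) (by simp) (fun g G y _ h => by simpa only [bil_act] using h) (by simp) hN
    (fun G y hG h => hc G y.1 y.2 hG h.1 h.2.1 h.2.2)
    ((XX G1 n ×ˢ XX G1 n2).filter fun q => bil G1 q.1 q.2 = t)
    ((XX G2 n ×ˢ XX G2 n2).filter fun q => bil G2 q.1 q.2 = t)
    ((XX G3 n ×ˢ XX G3 n2).filter fun q => bil G3 q.1 q.2 = t)
    (fun y => by simp [mem_XX1, and_assoc]) (fun y => by simp [mem_XX2, and_assoc])
    (fun y => by simp [mem_XX3, and_assoc])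
  simp only [sum_const, nsmul_eq_mul, mul_one] at this
  unfold cnt
  exact_mod_cast this

/-- Vectors of given norm, counted through normal forms reached in exactly `c` ways. -/
theorem pts_groupoid (n c : ℕ) (N : Finset (M3 × V3))
    (hN : ∀ q ∈ N, IsTQ q.1 ∧ bil q.1 q.2 q.2 = n)
    (hc : ∀ (G : M3) (x : V3), IsTQ G → bil G x x = n →
      Nat.card {g : SL3 // (actG g G, (g : M3) *ᵥ x) ∈ N} = c) :
    c * pts n = 12 * N.card := by
  have := groupoid_w (R := ℤ) (fun (g : SL3) (y : V3) => (g : M3) *ᵥ y)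
    (fun G y => bil G y y = n) (fun _ _ => 1) N c
    (by simp) (by simp) (fun g G y _ h => by simpa only [bil_act] using h) (by simp) hN
    hc (XX G1 n) (XX G2 n) (XX G3 n) (fun _ => mem_XX1) (fun _ => mem_XX2) (fun _ => mem_XX3)
  simp only [sum_const, nsmul_eq_mul, mul_one] at this
  unfold pts
  exact_mod_cast this

end Pool.Agent.Lib.MP_696deb_nt
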