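import Pool.Agent.Lib.MP_696deb_nt.TernBeta
import Pool.Agent.Lib.MP_696deb_nt.GDefs

set_option autoImplicit false

open Finset Matrix

namespace Pool.Agent.Lib.MP_696deb_nt.Tern

/-- Hessian matrix of `a k^2 + b y^2 + c z^2 + s1 k y + s2 k z + r y z`. -/
def form (a b c s1 s2 r : ℤ) : M3 := !![2 * a, s1, s2; s1, 2 * b, r; s2, r, 2 * c]

/-- Symmetric, even, of determinant `30`. -/
def Ev30 (G : M3) : Prop := Gᵀ = G ∧ (∀ i, Even (G i i)) ∧ G.det = 30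

theorem Ev30.exists_form {G : M3} (h : Ev30 G) : ∃ a b c s1 s2 r, G = form a b c s1 s2 r := by
  obtain ⟨h1, h2, _⟩ := h
  obtain ⟨a, ha⟩ := h2 0
  obtain ⟨b, hb⟩ := h2 1
  obtain ⟨c, hc⟩ := h2 2
  have hs : ∀ i j, G j i = G i j := fun i j => congrFun (congrFun h1 i) j
  refine ⟨a, b, c, G 0 1, G 0 2, G 1 2, ?_⟩
  ext i j
  fin_cases i <;> fin_cases j <;> simp [form, ha, hb, hc, two_mul, hs 0 1, hs 0 2, hs 1 2]

theorem det_form (a b c s1 s2 r : ℤ) : (form a b c s1 s2 r).det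
    = 2 * (4 * a * b * c + s1 * s2 * r - a * r ^ 2 - b * s2 ^ 2 - c * s1 ^ 2) := by
  simp [form, det_fin_three]; ring

theorem ev30_form {a b c s1 s2 r : ℤ}
    (h : 4 * a * b * c + s1 * s2 * r - a * r ^ 2 - b * s2 ^ 2 - c * s1 ^ 2 = 15) :
    Ev30 (form a b c s1 s2 r) := by
  refine ⟨?_, fun i => ?_, by rw [det_form, h]; norm_num⟩
  · ext i j
    fin_cases i <;> fin_cases j <;> simp [form]
  · fin_cases i <;> simp [form]

theorem bil_form (a b c s1 s2 r : ℤ) (x w : V3) : bil (form a b c s1 s2 r) x w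
    = (4 * b * c - r ^ 2) * x 0 * w 0 + (4 * a * c - s2 ^ 2) * x 1 * w 1
      + (4 * a * b - s1 ^ 2) * x 2 * w 2 + (r * s2 - 2 * c * s1) * (x 0 * w 1 + x 1 * w 0)
      + (s1 * r - 2 * b * s2) * (x 0 * w 2 + x 2 * w 0)
      + (s1 * s2 - 2 * a * r) * (x 1 * w 2 + x 2 * w 1) := by
  simp [bil, form, adjugate_fin_three, dotProduct, mulVec, Fin.sum_univ_three]
  ring

theorem bil_act' (g : SL3) (G : M3) (x w : V3) :
    bil (g.1 * G * g.1ᵀ) (g.1 *ᵥ x) (g.1 *ᵥ w) = bil G x w := bil_act g G x w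

theorem Ev30.act {G : M3} (h : Ev30 G) (g : SL3) : Ev30 (g.1 * G * g.1ᵀ) := by
  obtain ⟨a, b, c, s1, s2, r, rfl⟩ := h.exists_form
  refine ⟨?_, fun i => ?_, ?_⟩
  · rw [transpose_mul, transpose_mul, transpose_transpose, h.1, mul_assoc]
  · refine ⟨a * g.1 i 0 ^ 2 + b * g.1 i 1 ^ 2 + c * g.1 i 2 ^ 2 + s1 * g.1 i 0 * g.1 i 1
      + s2 * g.1 i 0 * g.1 i 2 + r * g.1 i 1 * g.1 i 2, ?_⟩
    simp [form, mul_apply, Fin.sum_univ_three]
    ring
  · rw [det_mul, det_mul, det_transpose, g.2, h.2.2]; norm_num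

/-- Equivalence of triples (form, two vectors of the adjoint lattice). -/
def Rel (G : M3) (x w : V3) (G' : M3) (x' w' : V3) : Prop :=
  ∃ g : SL3, g.1 * G * g.1ᵀ = G' ∧ g.1 *ᵥ x = x' ∧ g.1 *ᵥ w = w'

theorem Rel.trans {G G' G'' : M3} {x w x' w' x'' w'' : V3} (h : Rel G x w G' x' w')
    (h' : Rel G' x' w' G'' x'' w'') : Rel G x w G'' x'' w'' := by
  obtain ⟨g, rfl, rfl, rfl⟩ := h
  obtain ⟨k, rfl, rfl, rfl⟩ := h'
  refine ⟨k * g, ?_, ?_, ?_⟩
  · simp [transpose_mul, mul_assoc]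
  · simp [mulVec_mulVec]
  · simp [mulVec_mulVec]

/-- Invariants of a triple. -/
def Inv (n n2 t : ℤ) (G : M3) (x w : V3) : Prop :=
  Ev30 G ∧ bil G x x = n ∧ bil G w w = n2 ∧ bil G x w = t

theorem Inv.rel {n n2 t : ℤ} {G G' : M3} {x w x' w' : V3} (h : Inv n n2 t G x w)
    (h' : Rel G x w G' x' w') : Inv n n2 t G' x' w' := by
  obtain ⟨g, rfl, rfl, rfl⟩ := h'
  exact ⟨h.1.act g, by rw [bil_act', h.2.1], by rw [bil_act', h.2.2.1],
    by rw [bil_act', h.2.2.2]⟩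

theorem exists_sl2 (a b : ℤ) : ∃ p q r s : ℤ, p * s - q * r = 1 ∧
    p * a + q * b = Int.gcd a b ∧ r * a + s * b = 0 := by
  by_cases h : Int.gcd a b = 0
  · obtain ⟨rfl, rfl⟩ := Int.gcd_eq_zero_iff.1 h
    exact ⟨1, 0, 0, 1, by simp⟩
  · obtain ⟨a', ha⟩ := Int.gcd_dvd_left a b
    obtain ⟨b', hb⟩ := Int.gcd_dvd_right a b
    have e := Int.gcd_eq_gcd_ab a b
    have h0 : (Int.gcd a b : ℤ) ≠ 0 := by exact_mod_cast h
    generalize (Int.gcd a b : ℤ) = d at *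
    refine ⟨Int.gcdA a b, Int.gcdB a b, -b', a', ?_, by linear_combination -e,
      by linear_combination (-b') * ha + a' * hb⟩
    apply mul_left_cancel₀ h0
    linear_combination -e - Int.gcdA a b * ha - Int.gcdB a b * hb

theorem step_one {n : ℕ} (hn : Squarefree n) {G : M3} {x : V3} (w : V3) (hG : Ev30 G)
    (hx : bil G x x = n) : ∃ G' w', Rel G x w G' ![1, 0, 0] w' := by
  obtain ⟨p, q, r, s, h1, h2, h3⟩ := exists_sl2 (x 1) (x 2)
  obtain ⟨p', q', r', s', h1', h2', h3'⟩ := exists_sl2 (x 0) (Int.gcd (x 1) (x 2))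
  have hd : Int.gcd (x 0) (Int.gcd (x 1) (x 2)) = 1 := by
    obtain ⟨a, b, c, s1, s2, r, rfl⟩ := hG.exists_form
    obtain ⟨u0, h0⟩ := Int.gcd_dvd_left (x 0) (Int.gcd (x 1) (x 2))
    obtain ⟨u1, h1⟩ := (Int.gcd_dvd_right (x 0) (Int.gcd (x 1) (x 2))).trans
      (Int.gcd_dvd_left (x 1) (x 2))
    obtain ⟨u2, h2⟩ := (Int.gcd_dvd_right (x 0) (Int.gcd (x 1) (x 2))).trans
      (Int.gcd_dvd_right (x 1) (x 2))
    generalize Int.gcd (x 0) (Int.gcd (x 1) (x 2)) = d at *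
    apply Nat.isUnit_iff.1 (hn d _)
    rw [← Int.natCast_dvd_natCast, ← hx, bil_form, h0, h1, h2]
    refine ⟨bil (form a b c s1 s2 r) ![u0, u1, u2] ![u0, u1, u2], ?_⟩
    rw [bil_form]
    simp
    ring
  rw [hd] at h2'
  let g1 : SL3 := ⟨!![1, 0, 0; 0, p, q; 0, r, s], by simp [det_fin_three, h1]⟩
  let g2 : SL3 := ⟨!![p', q', 0; r', s', 0; 0, 0, 1], by simp [det_fin_three, h1']⟩
  refine ⟨_, _, g2 * g1, rfl, ?_, rfl⟩
  change (g2.1 * g1.1) *ᵥ x = _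
  rw [← mulVec_mulVec]
  have e1 : g1.1 *ᵥ x = ![x 0, Int.gcd (x 1) (x 2), 0] := by
    ext i
    fin_cases i <;> simp [g1, mulVec, dotProduct, Fin.sum_univ_three, h2, h3]
  rw [e1]
  ext i
  fin_cases i
  · simpa [g2, mulVec, dotProduct, Fin.sum_univ_three] using h2'
  · simpa [g2, mulVec, dotProduct, Fin.sum_univ_three] using h3'
  · simp [g2, mulVec, dotProduct, Fin.sum_univ_three]

theorem step_two (G : M3) (w : V3) :
    ∃ G' w0, ∃ e : ℕ, Rel G ![1, 0, 0] w G' ![1, 0, 0] ![w0, 0, -e] := by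
  obtain ⟨p, q, r, s, h1, h2, h3⟩ := exists_sl2 (w 1) (w 2)
  let g : SL3 := ⟨!![1, 0, 0; 0, r, s; 0, -p, -q], by
    simp [det_fin_three]; linear_combination h1⟩
  refine ⟨_, w 0, Int.gcd (w 1) (w 2), g, rfl, ?_, ?_⟩
  · ext i
    fin_cases i <;> simp [g, mulVec, dotProduct, Fin.sum_univ_three]
  · ext i
    fin_cases i
    · simp [g, mulVec, dotProduct, Fin.sum_univ_three]
    · simpa [g, mulVec, dotProduct, Fin.sum_univ_three] using h3
    · simp [g, mulVec, dotProduct, Fin.sum_univ_three]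
      linear_combination -h2

theorem rel_unip (a b c s1 s2 r w0 e u : ℤ) :
    Rel (form a b c s1 s2 r) ![1, 0, 0] ![w0, 0, e]
      (form a b (c + u * r + u ^ 2 * b) s1 (s2 + u * s1) (r + 2 * u * b)) ![1, 0, 0] ![w0, 0, e] := by
  refine ⟨⟨!![1, 0, 0; 0, 1, 0; 0, u, 1], by simp [det_fin_three]⟩, ?_, ?_, ?_⟩
  · ext i j
    fin_cases i <;> fin_cases j <;> simp [form, mul_apply, Fin.sum_univ_three] <;> ring
  · ext i
    fin_cases i <;> simp [mulVec, dotProduct, Fin.sum_univ_three]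
  · ext i
    fin_cases i <;> simp [mulVec, dotProduct, Fin.sum_univ_three]

theorem rel_shear (a b c s1 s2 r u1 u2 : ℤ) (w : V3) :
    Rel (form a b c s1 s2 r) ![1, 0, 0] w
      (form (a + s1 * u1 + s2 * u2 + b * u1 ^ 2 + r * u1 * u2 + c * u2 ^ 2) b c
        (s1 + 2 * b * u1 + r * u2) (s2 + r * u1 + 2 * c * u2) r) ![1, 0, 0]
        ![w 0 + u1 * w 1 + u2 * w 2, w 1, w 2] := by
  refine ⟨⟨!![1, u1, u2; 0, 1, 0; 0, 0, 1], by simp [det_fin_three]⟩, ?_, ?_, ?_⟩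
  · ext i j
    fin_cases i <;> fin_cases j <;> simp [form, mul_apply, Fin.sum_univ_three] <;> ring
  · ext i
    fin_cases i <;> simp [mulVec, dotProduct, Fin.sum_univ_three]
  · ext i
    fin_cases i <;> simp [mulVec, dotProduct, Fin.sum_univ_three]

/-- Every class of `Z^2` modulo the Hessian of a binary form is a multiple of `(1, l)`. -/
theorem exists_shear {n : ℕ} (hn0 : 0 < n) {b c r l N : ℤ} (hn : 4 * b * c - r ^ 2 = n)
    (hN : N = b + r * l + c * l ^ 2) (hcop : IsCoprime (n : ℤ) (2 * N)) (s1 s2 : ℤ) :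
    ∃ j : ℕ, j < n ∧ ∃ u1 u2 : ℤ, s1 + 2 * b * u1 + r * u2 = -(j * l) ∧
      s2 + r * u1 + 2 * c * u2 = j := by
  obtain ⟨α, β, hαβ⟩ := id hcop
  have hn0' : (0 : ℤ) < n := by exact_mod_cast hn0
  set θ := (2 * b + r * l) * s2 - (r + 2 * c * l) * s1 with hθ
  obtain ⟨j, hj⟩ := Int.eq_ofNat_of_zero_le (Int.emod_nonneg (β * θ) hn0'.ne')
  have hjn : (j : ℤ) < n := hj ▸ Int.emod_lt_of_pos _ hn0'
  have e0 : (j : ℤ) = β * θ - n * (β * θ / n) := by rw [← hj, Int.emod_def]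
  have h1 : (n : ℤ) ∣ 2 * N * j - θ :=
    ⟨-α * θ - 2 * N * (β * θ / n), by rw [e0]; linear_combination θ * hαβ⟩
  obtain ⟨k, hk⟩ := h1
  have h2 : (n : ℤ) ∣ 2 * b * (j - s2) + r * (j * l + s1) := by
    apply hcop.dvd_of_dvd_mul_left
    refine ⟨(2 * b + r * l) * k + l * ((j - s2) * l - (j * l + s1)), ?_⟩
    rw [hθ, hN] at hk
    rw [hN]
    linear_combination (2 * b + r * l) * hk + l * ((j - s2) * l - (j * l + s1)) * hn
  have h3 : (n : ℤ) ∣ r * (j - s2) + 2 * c * (j * l + s1) := by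
    apply hcop.dvd_of_dvd_mul_left
    refine ⟨(r + 2 * c * l) * k - ((j - s2) * l - (j * l + s1)), ?_⟩
    rw [hθ, hN] at hk
    rw [hN]
    linear_combination (r + 2 * c * l) * hk - ((j - s2) * l - (j * l + s1)) * hn
  obtain ⟨u2, h2⟩ := h2
  obtain ⟨u1, h3⟩ := h3
  refine ⟨j, by exact_mod_cast hjn, -u1, u2, ?_, ?_⟩
  · apply mul_left_cancel₀ hn0'.ne'
    linear_combination (2 * b) * h3 - r * h2 - (j * l + s1) * hn
  · apply mul_left_cancel₀ hn0'.ne'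
    linear_combination r * h3 - 2 * c * h2 + (j - s2) * hn

theorem shear_unique {n : ℕ} {b c r l N : ℤ} (hn : 4 * b * c - r ^ 2 = n)
    (hN : N = b + r * l + c * l ^ 2) (hcop : IsCoprime (n : ℤ) (2 * N)) {j j' : ℕ} (hj : j < n)
    (hj' : j' < n) {u1 u2 : ℤ} (h1 : -(j * l) + 2 * b * u1 + r * u2 = -(j' * l))
    (h2 : j + r * u1 + 2 * c * u2 = j') : j = j' ∧ u1 = 0 ∧ u2 = 0 := by
  have hn0 : (n : ℤ) ≠ 0 := by omega
  have h3 : (n : ℤ) ∣ j' - j := by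
    apply hcop.dvd_of_dvd_mul_left
    refine ⟨u2 - l * u1, ?_⟩
    rw [hN]
    linear_combination (-(2 * b + r * l)) * h2 + (r + 2 * c * l) * h1 + (u2 - l * u1) * hn
  have h4 : (j' : ℤ) - j = 0 := Int.eq_zero_of_abs_lt_dvd h3 (by rw [abs_lt]; omega)
  have h5 : j = j' := by omega
  subst h5
  refine ⟨rfl, ?_, ?_⟩
  · apply mul_left_cancel₀ hn0
    linear_combination 2 * c * h1 - r * h2 - u1 * hn
  · apply mul_left_cancel₀ hn0
    linear_combination 2 * b * h2 - r * h1 - u2 * hn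

/-- Conditions on the parameters `(e, y, j)` of a normal form. -/
def CanOK (n d M : ℕ) (t : ℤ) (c : ℕ × ℕ × ℕ) : Prop :=
  0 < c.1 ∧ c.1 ^ 2 ∣ M ∧ c.2.1 < M / c.1 ^ 2 ∧ M / c.1 ^ 2 ∣ c.2.1 ^ 2 + c.2.1 + d ∧ c.2.2 < n ∧
    (n : ℤ) ∣ (c.2.2 : ℤ) ^ 2 * nst n d (M / c.1 ^ 2) c.2.1 + 15 ∧
    (n : ℤ) ∣ t - c.1 * c.2.2 * tst n (M / c.1 ^ 2) c.2.1

/-- The form with parameters `(e, y, j)`. -/
def canG (n d M : ℕ) (c : ℕ × ℕ × ℕ) : M3 :=
  form (((c.2.2 : ℤ) ^ 2 * nst n d (M / c.1 ^ 2) c.2.1 + 15) / n) (M / c.1 ^ 2 : ℕ)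
    ((c.2.1 ^ 2 + c.2.1 + d) / (M / c.1 ^ 2) : ℕ) (-(c.2.2 * lam n (M / c.1 ^ 2))) c.2.2
    (2 * c.2.1 + 1)

/-- The second vector with parameters `(e, y, j)`. -/
def canW (n M : ℕ) (t : ℤ) (c : ℕ × ℕ × ℕ) : V3 :=
  ![(t - c.1 * c.2.2 * tst n (M / c.1 ^ 2) c.2.1) / n, 0, -c.1]

theorem coprime_two_nst {n d m y : ℕ} (hd : 4 * d = n + 1) (hn : Squarefree n)
    (hy : m ∣ y ^ 2 + y + d) : IsCoprime (n : ℤ) (2 * (nst n d m y : ℤ)) := by
  refine IsCoprime.mul_right ⟨1, 1 - 2 * (d : ℤ), ?_⟩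
    (Nat.isCoprime_iff_coprime.2 (coprime_nst hd hn hy).symm)
  zify at hd
  linear_combination -hd

theorem disc_eq {n d m y : ℕ} (hd : 4 * d = n + 1) (hy : m ∣ y ^ 2 + y + d) :
    4 * (m : ℤ) * ((y ^ 2 + y + d) / m : ℕ) - (2 * y + 1) ^ 2 = n := by
  have e : m * ((y ^ 2 + y + d) / m) = y ^ 2 + y + d := Nat.mul_div_cancel' hy
  generalize (y ^ 2 + y + d) / m = c at *
  zify at *
  linear_combination 4 * e + hd

theorem nst_cast (n d m y : ℕ) : (nst n d m y : ℤ) = m + (2 * y + 1) * (lam n m : ℤ)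
    + ((y ^ 2 + y + d) / m : ℕ) * (lam n m : ℤ) ^ 2 := by
  unfold nst
  generalize (y ^ 2 + y + d) / m = c
  push_cast
  ring

theorem tst_cast (n m y : ℕ) : (tst n m y : ℤ) = 2 * m + (2 * y + 1) * (lam n m : ℤ) := by
  unfold tst
  push_cast
  ring

theorem pos_form {n a b c s1 s2 r : ℤ} (hb : 0 < b) (hn0 : 0 < n) (hn : 4 * b * c - r ^ 2 = n)
    (h : 4 * a * b * c + s1 * s2 * r - a * r ^ 2 - b * s2 ^ 2 - c * s1 ^ 2 = 15) (v : V3)
    (hv : v ≠ 0) : 0 < v ⬝ᵥ (form a b c s1 s2 r *ᵥ v) := by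
  have e : 2 * b * n * (v ⬝ᵥ (form a b c s1 s2 r *ᵥ v))
      = n * (2 * b * v 1 + r * v 2 + s1 * v 0) ^ 2
        + (n * v 2 - (s1 * r - 2 * b * s2) * v 0) ^ 2 + 60 * b * v 0 ^ 2 := by
    simp [form, dotProduct, mulVec, Fin.sum_univ_three]
    rw [← hn]
    linear_combination (4 * b * v 0 ^ 2) * h
  have hpos : 0 < n * (2 * b * v 1 + r * v 2 + s1 * v 0) ^ 2
        + (n * v 2 - (s1 * r - 2 * b * s2) * v 0) ^ 2 + 60 * b * v 0 ^ 2 := by
    by_cases h0 : v 0 = 0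
    · by_cases h2 : v 2 = 0
      · have h1 : v 1 ≠ 0 := by
          intro h1
          apply hv
          ext i
          fin_cases i <;> simp [h0, h1, h2]
        rw [h0, h2]
        simp only [mul_zero, add_zero, sub_zero]
        positivity
      · rw [h0]
        simp only [mul_zero, add_zero, sub_zero]
        positivity
    · positivity
  rw [← e] at hpos
  exact pos_of_mul_pos_left' hpos (by positivity)
where
  pos_of_mul_pos_left' {x y : ℤ} (h : 0 < x * y) (hx : 0 < x) : 0 < y :=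
    (mul_pos_iff_of_pos_left hx).1 h

theorem can_inv {n d M : ℕ} {n2 t : ℤ} (hd : 4 * d = n + 1) (hM : n * n2 - t ^ 2 = 60 * M)
    {c : ℕ × ℕ × ℕ} (hc : CanOK n d M t c) :
    Inv n n2 t (canG n d M c) ![1, 0, 0] (canW n M t c) ∧
      ∀ v : V3, v ≠ 0 → 0 < v ⬝ᵥ (canG n d M c *ᵥ v) := by
  obtain ⟨e, y, j⟩ := c
  obtain ⟨h1, h2, h3, h4, h5, ⟨a, h6⟩, ⟨w0, h7⟩⟩ := hc
  simp only at h1 h2 h3 h4 h5 h6 h7
  have hn0 : (0 : ℤ) < n := by omega
  have hdisc := disc_eq hd h4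
  have hm : (M : ℤ) = e ^ 2 * (M / e ^ 2 : ℕ) := by exact_mod_cast (Nat.mul_div_cancel' h2).symm
  have hm0 : (0 : ℤ) < (M / e ^ 2 : ℕ) := by omega
  simp only [canG, canW, h6, h7, Int.mul_ediv_cancel_left _ hn0.ne']
  rw [nst_cast] at h6
  rw [tst_cast] at h7
  generalize ((y ^ 2 + y + d) / (M / e ^ 2) : ℕ) = c at *
  generalize (lam n (M / e ^ 2) : ℤ) = l at *
  generalize (M / e ^ 2 : ℕ) = m at *
  have hdet : 4 * a * m * c + -(j * l) * j * (2 * y + 1) - a * (2 * y + 1) ^ 2 - m * (j : ℤ) ^ 2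
      - c * (-(j * l)) ^ 2 = 15 := by linear_combination a * hdisc - h6
  refine ⟨⟨ev30_form hdet, ?_, ?_, ?_⟩, pos_form hm0 hn0 hdisc hdet⟩
  · rw [bil_form]; simpa using hdisc
  · rw [bil_form]
    simp
    apply mul_left_cancel₀ hn0.ne'
    have ht : t = n * w0 + e * j * (2 * m + (2 * y + 1) * l) := by linear_combination h7
    rw [ht, hm] at hM
    linear_combination -hM + (n * w0 ^ 2 - e ^ 2 * (4 * a * m - (j * l) ^ 2)) * hdisc
      + 4 * e ^ 2 * m * hdet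
  · rw [bil_form]
    simp
    linear_combination w0 * hdisc - h7

theorem exists_can {n d M : ℕ} {n2 t : ℤ} (hd : 4 * d = n + 1) (hn : Squarefree n)
    (hM0 : 0 < M) (hM : n * n2 - t ^ 2 = 60 * M) {G : M3} {x w : V3} (h : Inv n n2 t G x w) :
    ∃ c, CanOK n d M t c ∧ Rel G x w (canG n d M c) ![1, 0, 0] (canW n M t c) := by
  have hn0 : (0 : ℤ) < n := by omega
  obtain ⟨G1, w1, r1⟩ := step_one hn w h.1 h.2.1
  obtain ⟨G2, w0, e, r2⟩ := step_two G1 w1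
  have r12 := r1.trans r2
  have h2 := h.rel r12
  obtain ⟨a, b, c, s1, s2, r, rfl⟩ := h2.1.exists_form
  obtain ⟨⟨-, -, hdet⟩, hx, hw, ht⟩ := h2
  rw [det_form] at hdet
  rw [bil_form] at hx hw ht
  simp at hx hw ht
  have hMb : (M : ℤ) = e ^ 2 * b := by
    have : 60 * (M : ℤ) = 60 * (e ^ 2 * b) := by
      rw [← hM, ← hw, ← ht, ← hx]
      linear_combination (2 * e ^ 2 * b) * hdet
    linarith
  have he : 0 < e := by
    rcases Nat.eq_zero_or_pos e with rfl | he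
    · simp at hMb; omega
    · exact he
  have hb : 0 < b := by
    have : (0 : ℤ) < e ^ 2 * b := by omega
    exact (mul_pos_iff_of_pos_left (by positivity)).1 this
  obtain ⟨m, rfl⟩ := Int.eq_ofNat_of_zero_le hb.le
  have hMm : M = e ^ 2 * m := by exact_mod_cast hMb
  have hm : M / e ^ 2 = m := by rw [hMm, Nat.mul_div_cancel_left _ (by positivity)]
  obtain ⟨r', rfl⟩ : ∃ r', r = 2 * r' + 1 := by
    rcases Int.even_or_odd' r with ⟨k, rfl | rfl⟩
    · exfalso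
      have : (n : ℤ) = 4 * (m * c - k ^ 2) := by linear_combination -hx
      omega
    · exact ⟨k, rfl⟩
  obtain ⟨y, hy⟩ := Int.eq_ofNat_of_zero_le (Int.emod_nonneg r' hb.ne')
  have hym : (y : ℤ) < m := hy ▸ Int.emod_lt_of_pos _ hb
  have r3 := rel_unip a m c s1 s2 (2 * r' + 1) w0 (-e) (-(r' / m))
  have e3 : 2 * r' + 1 + 2 * -(r' / m) * m = 2 * y + 1 := by
    rw [← hy, Int.emod_def]; ring
  rw [e3] at r3
  generalize c + -(r' / m) * (2 * r' + 1) + (-(r' / m)) ^ 2 * m = c' at r3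
  generalize s2 + -(r' / m) * s1 = s2' at r3
  have r123 := r12.trans r3
  have h3 := (h.rel r123).2.1
  rw [bil_form] at h3
  simp at h3
  have hc' : (m : ℤ) * c' = y ^ 2 + y + d := by
    zify at hd
    linarith
  have hyd : m ∣ y ^ 2 + y + d := by
    rw [← Int.natCast_dvd_natCast]
    exact ⟨c', by push_cast; exact hc'.symm⟩
  have hc'' : c' = ((y ^ 2 + y + d) / m : ℕ) := by
    apply mul_left_cancel₀ hb.ne'
    rw [hc']
    exact_mod_cast (Nat.mul_div_cancel' hyd).symm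
  obtain ⟨j, hj, u1, u2, hu1, hu2⟩ := exists_shear (n := n) (by omega) h3
    (l := lam n m) (N := nst n d m y) (by rw [nst_cast, hc'']) (coprime_two_nst hd hn hyd) s1 s2'
  have r4 := rel_shear a m c' s1 s2' (2 * y + 1) u1 u2 ![w0, 0, -e]
  rw [hu1, hu2] at r4
  generalize a + s1 * u1 + s2' * u2 + m * u1 ^ 2 + (2 * y + 1) * u1 * u2 + c' * u2 ^ 2 = a' at r4
  simp only [Matrix.cons_val_zero, Matrix.cons_val_one, Matrix.cons_val] at r4
  generalize w0 + u1 * 0 + u2 * -(e : ℤ) = w0' at r4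
  have r1234 := r123.trans r4
  obtain ⟨⟨-, -, hdet4⟩, -, -, ht4⟩ := h.rel r1234
  rw [det_form] at hdet4
  rw [bil_form] at ht4
  simp at ht4
  have ha' : (j : ℤ) ^ 2 * nst n d m y + 15 = n * a' := by
    rw [nst_cast, ← hc'']
    have : 2 * ((j : ℤ) ^ 2 * (m + (2 * y + 1) * (lam n m : ℤ) + c' * (lam n m : ℤ) ^ 2) + 15)
        = 2 * (n * a') := by linear_combination -hdet4 + 2 * a' * h3
    linarith
  have hw' : t - e * j * tst n m y = n * w0' := by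
    rw [tst_cast]
    linear_combination -ht4 + w0' * h3
  refine ⟨(e, y, j), ⟨he, ⟨m, hMm⟩, ?_, ?_, hj, ?_, ?_⟩, ?_⟩
  · simp only [hm]; exact_mod_cast hym
  · simp only [hm]; exact hyd
  · simp only [hm]; exact ⟨a', ha'⟩
  · simp only [hm]; exact ⟨w0', hw'⟩
  · simp only [canG, canW, hm, ha', hw', Int.mul_ediv_cancel_left _ hn0.ne', ← hc'']
    exact r1234

theorem can_unique {n d M : ℕ} {t : ℤ} (hd : 4 * d = n + 1) (hn : Squarefree n)
    {c c' : ℕ × ℕ × ℕ} (hc : CanOK n d M t c) (hc' : CanOK n d M t c') (g : SL3)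
    (hG : g.1 * canG n d M c * g.1ᵀ = canG n d M c') (hx : g.1 *ᵥ ![1, 0, 0] = ![1, 0, 0])
    (hw : g.1 *ᵥ canW n M t c = canW n M t c') : g.1 = 1 ∧ c = c' := by
  obtain ⟨e, y, j⟩ := c
  obtain ⟨e', y', j'⟩ := c'
  obtain ⟨h1, -, h3, h4, h5, -, -⟩ := hc
  obtain ⟨h1', -, h3', -, h5', -, -⟩ := hc'
  simp only at h1 h3 h4 h5 h1' h3' h5'
  obtain ⟨g, hg⟩ := g
  simp only at hG hx hw ⊢
  have x0 := congrFun hx 0
  have x1 := congrFun hx 1
  have x2 := congrFun hx 2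
  have w1 := congrFun hw 1
  have w2 := congrFun hw 2
  simp [mulVec, dotProduct, Fin.sum_univ_three] at x0 x1 x2
  simp [canW, mulVec, dotProduct, Fin.sum_univ_three, x1, x2, h1.ne'] at w1 w2
  rw [det_fin_three, x0, x1, x2, w1] at hg
  have hpos : 0 < g 2 2 := by
    have : (0 : ℤ) < g 2 2 * e := by rw [w2]; exact_mod_cast h1'
    exact (mul_pos_iff_of_pos_right (by exact_mod_cast h1)).1 this
  have g22 : g 2 2 = 1 := Int.eq_one_of_mul_eq_one_left hpos.le (a := g 1 1) (by linarith)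
  have g11 : g 1 1 = 1 := by rw [g22] at hg; linarith
  have hee : e = e' := by rw [g22] at w2; omega
  subst hee
  have G12 := congrFun (congrFun hG 1) 2
  simp [canG, form, mul_apply, Fin.sum_univ_three, x1, x2, w1, g11, g22] at G12
  have hyy : y = y' ∧ g 2 1 = 0 := by
    have h6 : ((M / e ^ 2 : ℕ) : ℤ) ∣ (y' : ℤ) - y := ⟨g 2 1, by push_cast; linarith⟩
    have h7 : (y' : ℤ) - y = 0 := Int.eq_zero_of_abs_lt_dvd h6 (by rw [abs_lt]; omega)
    refine ⟨by omega, ?_⟩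
    have h8 : ((M / e ^ 2 : ℕ) : ℤ) ≠ 0 := by omega
    apply mul_left_cancel₀ h8
    push_cast
    linarith
  obtain ⟨rfl, g21⟩ := hyy
  have G01 := congrFun (congrFun hG 0) 1
  have G02 := congrFun (congrFun hG 0) 2
  simp only [canG, form, mul_apply, Fin.sum_univ_three, transpose_apply, x0, x1, x2, w1, g11, g22,
    g21, of_apply, cons_val', cons_val_zero, cons_val_one, cons_val_fin_one, Matrix.cons_val]
    at G01 G02
  obtain ⟨rfl, g01, g02⟩ := shear_unique (disc_eq hd h4) (nst_cast n d _ y)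
    (coprime_two_nst hd hn h4) h5 h5' (u1 := g 0 1) (u2 := g 0 2) (by linear_combination G01)
    (by linear_combination G02)
  refine ⟨?_, rfl⟩
  ext i k
  fin_cases i <;> fin_cases k <;> simp [*]

end Pool.Agent.Lib.MP_696deb_nt.Tern
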