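import Pool.Agent.Lib.MP_696deb_nt.SqCount
import Pool.Agent.Lib.MP_696deb_nt.Mass
import Pool.Agent.Lib.MP_696deb_nt.TernNormal

set_option autoImplicit false

open Finset Matrix NumberTheorySymbols

namespace Pool.Agent.Lib.MP_696deb_nt

open Tern

/-- Auxiliary second coordinate making the value of a binary form prime to `n`. -/
def ptL (n : ℕ) (b : ℤ) : ℤ := (lam n b.natAbs : ℕ)

/-- A value of the binary form `(b, r, c)` prime to `n`. -/
def ptM (n : ℕ) (b r c : ℤ) : ℤ := b + r * ptL n b + c * ptL n b ^ 2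

theorem not_dvd_ptM {n p : ℕ} (hn : Squarefree n) (hp : p.Prime) (hpn : p ∣ n) {b r c : ℤ}
    (hD : r ^ 2 - 4 * b * c = -n) : ¬ (p : ℤ) ∣ ptM n b r c := by
  have hP := Nat.prime_iff_prime_int.mp hp
  have hpn' : (p : ℤ) ∣ n := Int.natCast_dvd_natCast.mpr hpn
  intro h
  unfold ptM at h
  by_cases hb : (p : ℤ) ∣ b
  · have hc := not_dvd_c hp (Int.squarefree_natCast.mpr hn) hpn' hD hb
    have hr : (p : ℤ) ∣ r := hP.dvd_of_dvd_pow (n := 2) (by
      have : r ^ 2 = 4 * c * b - n := by linear_combination hD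
      rw [this]; exact dvd_sub (hb.mul_left _) hpn')
    have h1 := (dvd_add_right (dvd_add hb (hr.mul_right _))).mp h
    rcases hP.dvd_or_dvd h1 with h2 | h2
    · exact hc h2
    · exact not_dvd_lam hn hp hpn (Int.natCast_dvd.mp hb)
        (Int.natCast_dvd_natCast.mp (hP.dvd_of_dvd_pow h2))
  · have hl : (p : ℤ) ∣ ptL n b :=
      Int.natCast_dvd_natCast.mpr (dvd_lam hp hpn fun h => hb (Int.natCast_dvd.mpr h))
    rw [add_assoc] at h
    exact hb ((dvd_add_left (dvd_add (hl.mul_left _)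
      ((dvd_pow hl two_ne_zero).mul_left _))).mp h)

theorem coprime_ptM {n : ℕ} (hn : Squarefree n) (hodd : n % 2 = 1) {b r c : ℤ}
    (hD : r ^ 2 - 4 * b * c = -n) : IsCoprime (n : ℤ) (2 * ptM n b r c) := by
  refine IsCoprime.mul_right ⟨1, -(n / 2), by omega⟩ ?_
  rw [Int.isCoprime_iff_gcd_eq_one]
  refine Nat.eq_one_iff_not_exists_prime_dvd.mpr fun p hp hd => ?_
  have hd' := Int.natCast_dvd_natCast.mpr hd
  exact not_dvd_ptM hn hp (Int.natCast_dvd_natCast.mp (hd'.trans (Int.gcd_dvd_left _ _))) hD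
    (hd'.trans (Int.gcd_dvd_right _ _))

/-- Parameters of the normal forms of points. -/
noncomputable def ptPar (n : ℕ) : Finset ((ℤ × ℤ × ℤ) × ℕ) :=
  (redForms n ×ˢ range n).filter fun q =>
    (n : ℤ) ∣ ptM n q.1.1 q.1.2.1 q.1.2.2 * (q.2 : ℤ) ^ 2 + 15

/-- The normal form with given parameters. -/
def ptG (n : ℕ) (q : (ℤ × ℤ × ℤ) × ℕ) : M3 :=
  form ((ptM n q.1.1 q.1.2.1 q.1.2.2 * (q.2 : ℤ) ^ 2 + 15) / n) q.1.1 q.1.2.2
    (-(q.2 * ptL n q.1.1)) q.2 q.1.2.1

/-- The set of normal forms of points. -/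
noncomputable def ptN (n : ℕ) : Finset (M3 × V3) := (ptPar n).image fun q => (ptG n q, ![1, 0, 0])

theorem form_inj {a b c s1 s2 r a' b' c' s1' s2' r' : ℤ}
    (h : form a b c s1 s2 r = form a' b' c' s1' s2' r') :
    a = a' ∧ b = b' ∧ c = c' ∧ s1 = s1' ∧ s2 = s2' ∧ r = r' := by
  have h00 := congrFun (congrFun h 0) 0
  have h11 := congrFun (congrFun h 1) 1
  have h22 := congrFun (congrFun h 2) 2
  have h01 := congrFun (congrFun h 0) 1
  have h02 := congrFun (congrFun h 0) 2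
  have h12 := congrFun (congrFun h 1) 2
  simp [form] at h00 h11 h22 h01 h02 h12
  exact ⟨h00, h11, h22, h01, h02, h12⟩

theorem card_ptN (n : ℕ) : (ptN n).card = (ptPar n).card := by
  refine card_image_of_injective _ ?_
  rintro ⟨⟨b, r, c⟩, j⟩ ⟨⟨b', r', c'⟩, j'⟩ h
  obtain ⟨-, h1, h2, -, h3, h4⟩ := form_inj (congrArg Prod.fst h)
  simp only at h1 h2 h3 h4
  have : j = j' := by exact_mod_cast h3
  rw [h1, h2, h4, this]

theorem mem_ptN {n : ℕ} (hn0 : 0 < n) {a b c s1 s2 r : ℤ} {x : V3}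
    (hdet : 4 * a * b * c + s1 * s2 * r - a * r ^ 2 - b * s2 ^ 2 - c * s1 ^ 2 = 15) :
    (form a b c s1 s2 r, x) ∈ ptN n ↔ x = ![1, 0, 0] ∧ (b, r, c) ∈ redForms n ∧
      ∃ j : ℕ, j < n ∧ s1 = -(j * ptL n b) ∧ s2 = j := by
  simp only [ptN, mem_image, Prod.mk.injEq]
  constructor
  · rintro ⟨⟨⟨b', r', c'⟩, j⟩, hq, h1, h2⟩
    obtain ⟨-, rfl, rfl, e1, e2, rfl⟩ := form_inj h1
    simp only [ptPar, mem_filter, mem_product, mem_range] at hq
    exact ⟨h2.symm, hq.1.1, j, hq.1.2, e1.symm, e2.symm⟩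
  · rintro ⟨rfl, hf, j, hj, rfl, rfl⟩
    have hD := ((mem_redForms hn0).mp hf).1
    have e : ptM n b r c * (j : ℤ) ^ 2 + 15 = n * a := by
      unfold ptM; linear_combination -hdet - a * hD
    refine ⟨((b, r, c), j), ?_, ?_, rfl⟩
    · simp only [ptPar, mem_filter, mem_product, mem_range]
      exact ⟨⟨hf, hj⟩, a, e⟩
    · simp only [ptG]
      rw [e, Int.mul_ediv_cancel_left _ (by omega)]

theorem ptN_spec {n : ℕ} (hn0 : 0 < n) {q : M3 × V3} (hq : q ∈ ptN n) :
    ∃ (a b c r : ℤ) (j : ℕ), q = (form a b c (-(j * ptL n b)) j r, ![1, 0, 0]) ∧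
      (b, r, c) ∈ redForms n ∧ j < n ∧
      4 * a * b * c + -(j * ptL n b) * j * r - a * r ^ 2 - b * (j : ℤ) ^ 2 -
        c * (-(j * ptL n b)) ^ 2 = 15 := by
  obtain ⟨⟨⟨b, r, c⟩, j⟩, hq', rfl⟩ := mem_image.mp hq
  simp only [ptPar, mem_filter, mem_product, mem_range] at hq'
  obtain ⟨⟨hf, hj⟩, a, ha⟩ := hq'
  have hD := ((mem_redForms hn0).mp hf).1
  refine ⟨a, b, c, r, j, ?_, hf, hj, ?_⟩
  · unfold ptG
    rw [ha, Int.mul_ediv_cancel_left _ (by omega)]
  · unfold ptM at ha; linear_combination -ha - a * hD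

theorem redForms_pos {n : ℕ} (hn0 : 0 < n) {b r c : ℤ} (hf : (b, r, c) ∈ redForms n) : 0 < b := by
  obtain ⟨hD, h1, -, -⟩ := (mem_redForms hn0).mp hf
  have := abs_nonneg r
  by_contra h0
  have hb : b = 0 := by omega
  have hr : r = 0 := by rw [hb] at h1; exact abs_nonpos_iff.mp h1
  rw [hb, hr] at hD; omega

theorem isTQ_of_mem_ptN {n : ℕ} (hn0 : 0 < n) {q : M3 × V3} (hq : q ∈ ptN n) :
    IsTQ q.1 ∧ bil q.1 q.2 q.2 = n := by
  obtain ⟨a, b, c, r, j, rfl, hf, -, hdet⟩ := ptN_spec hn0 hq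
  have hD := ((mem_redForms hn0).mp hf).1
  have h30 := ev30_form hdet
  refine ⟨⟨h30.1, h30.2.1, h30.2.2, pos_form (n := n) (redForms_pos hn0 hf) (by omega)
    (by linear_combination -hD) hdet⟩, ?_⟩
  rw [bil_form]; simp; linear_combination -hD

/-- Matrices fixing the first basis vector. -/
def fixSL (u1 u2 p q r s : ℤ) (h : p * s - q * r = 1) : SL3 :=
  ⟨!![1, u1, u2; 0, p, q; 0, r, s], by simp [det_fin_three]; linear_combination h⟩

theorem fixSL_mulVec (u1 u2 p q r s : ℤ) (h : p * s - q * r = 1) :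
    (fixSL u1 u2 p q r s h : M3) *ᵥ ![1, 0, 0] = ![1, 0, 0] := by
  ext i
  fin_cases i <;> simp [fixSL, mulVec, dotProduct, Fin.sum_univ_three]

theorem actG_fixSL (u1 u2 p q r s : ℤ) (h : p * s - q * r = 1) (a b c s1 s2 t : ℤ) :
    actG (fixSL u1 u2 p q r s h) (form a b c s1 s2 t) =
      form (a + s1 * u1 + s2 * u2 + b * u1 ^ 2 + t * u1 * u2 + c * u2 ^ 2)
        (b * p ^ 2 + t * p * q + c * q ^ 2) (b * r ^ 2 + t * r * s + c * s ^ 2)
        (p * (s1 + 2 * b * u1 + t * u2) + q * (s2 + t * u1 + 2 * c * u2))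
        (r * (s1 + 2 * b * u1 + t * u2) + s * (s2 + t * u1 + 2 * c * u2))
        (2 * b * p * r + t * (p * s + r * q) + 2 * c * q * s) := by
  ext i j
  fin_cases i <;> fin_cases j <;> simp [actG, fixSL, form, mul_apply, Fin.sum_univ_three] <;> ring

theorem exists_fixSL {g : SL3} (hg : (g : M3) *ᵥ ![1, 0, 0] = ![1, 0, 0]) :
    ∃ u1 u2 p q r s h, g = fixSL u1 u2 p q r s h := by
  have h0 := congrFun hg 0
  have h1 := congrFun hg 1
  have h2 := congrFun hg 2
  simp [mulVec, dotProduct, Fin.sum_univ_three] at h0 h1 h2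
  have hd := g.det_coe
  rw [det_fin_three, h0, h1, h2] at hd
  refine ⟨g 0 1, g 0 2, g 1 1, g 1 2, g 2 1, g 2 2, by linear_combination hd, ?_⟩
  ext i j
  fin_cases i <;> fin_cases j <;> simp [fixSL, h0, h1, h2]

theorem det_of_isTQ {a b c s1 s2 r : ℤ} (h : IsTQ (form a b c s1 s2 r)) :
    4 * a * b * c + s1 * s2 * r - a * r ^ 2 - b * s2 ^ 2 - c * s1 ^ 2 = 15 := by
  have := h.det
  rw [det_form] at this
  omega

theorem SL3_mul_mulVec (g h : SL3) (x : V3) :
    ((g * h : SL3) : M3) *ᵥ x = (g : M3) *ᵥ ((h : M3) *ᵥ x) := by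
  simp [mulVec_mulVec]

theorem exists_normal {n : ℕ} (hn : Good n) {G : M3} {x : V3} (hG : IsTQ G) (hx : bil G x x = n) :
    ∃ g : SL3, (actG g G, (g : M3) *ᵥ x) ∈ ptN n := by
  have h4 := hn.mod4
  obtain ⟨G', w', g1, hg1, hx1, -⟩ := step_one hn.sqf 0 ⟨hG.symm, hG.even, hG.det⟩ hx
  have hG' : IsTQ G' := hg1 ▸ hG.act g1
  have hb' : bil G' ![1, 0, 0] ![1, 0, 0] = n := by rw [← hg1, ← hx1, bil_act', hx]
  obtain ⟨a, b, c, s1, s2, t, rfl⟩ := Ev30.exists_form ⟨hG'.symm, hG'.even, hG'.det⟩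
  have hD : t ^ 2 - 4 * b * c = -n := by
    rw [bil_form] at hb'; simp at hb'; linear_combination -hb'
  have hb : 0 < b := by
    have := hG'.diag_pos 1
    simpa [form] using this
  obtain ⟨p, q, r, s, hdet, hred⟩ := exists_reduced (n := n) (by omega) b.toNat b t c (by omega) hb hD
  have hdet' : p * s - r * q = 1 := by linear_combination hdet
  set b' := b * p ^ 2 + t * p * r + c * r ^ 2 with hb'
  set t' := 2 * b * p * q + t * (p * s + q * r) + 2 * c * r * s with ht'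
  set c' := b * q ^ 2 + t * q * s + c * s ^ 2 with hc'
  have hD' : t' ^ 2 - 4 * b' * c' = -n := by
    rw [hb', ht', hc']
    linear_combination hD + (t ^ 2 - 4 * b * c) * (p * s - q * r + 1) * hdet
  obtain ⟨j, hj, u1, u2, e1, e2⟩ := exists_shear (n := n) (by omega) (b := b') (c := c') (r := t')
    (l := ptL n b') (by linear_combination -hD') rfl (coprime_ptM hn.sqf (by omega) hD')
    (p * s1 + r * s2) (q * s1 + s * s2)
  refine ⟨fixSL u1 u2 1 0 0 1 (by ring) * (fixSL 0 0 p r q s hdet' * g1), ?_⟩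
  have hT := (hG'.act (fixSL 0 0 p r q s hdet')).act (fixSL u1 u2 1 0 0 1 (by ring))
  have hx2 : ((fixSL u1 u2 1 0 0 1 (by ring) * (fixSL 0 0 p r q s hdet' * g1) : SL3) : M3) *ᵥ x =
      ![1, 0, 0] := by
    rw [SL3_mul_mulVec, SL3_mul_mulVec, hx1, fixSL_mulVec, fixSL_mulVec]
  rw [hx2, actG_mul, actG_mul, show actG g1 G = form a b c s1 s2 t from hg1]
  rw [actG_fixSL, actG_fixSL] at hT ⊢
  rw [mem_ptN (by omega) (det_of_isTQ hT)]
  have f1 : (b * p ^ 2 + t * p * r + c * r ^ 2) * 1 ^ 2 +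
      (2 * b * p * q + t * (p * s + q * r) + 2 * c * r * s) * 1 * 0 +
      (b * q ^ 2 + t * q * s + c * s ^ 2) * 0 ^ 2 = b' := by rw [hb']; ring
  have f2 : (b * p ^ 2 + t * p * r + c * r ^ 2) * 0 ^ 2 +
      (2 * b * p * q + t * (p * s + q * r) + 2 * c * r * s) * 0 * 1 +
      (b * q ^ 2 + t * q * s + c * s ^ 2) * 1 ^ 2 = c' := by rw [hc']; ring
  have f3 : 2 * (b * p ^ 2 + t * p * r + c * r ^ 2) * 1 * 0 +
      (2 * b * p * q + t * (p * s + q * r) + 2 * c * r * s) * (1 * 1 + 0 * 0) +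
      2 * (b * q ^ 2 + t * q * s + c * s ^ 2) * 0 * 1 = t' := by rw [ht']; ring
  rw [f1, f2, f3]
  refine ⟨rfl, (mem_redForms (by omega)).mpr ⟨hD', hred⟩, j, hj, ?_, ?_⟩
  · rw [← e1]; ring
  · rw [← e2]; ring

theorem three_lt_of_good {n : ℕ} (hn : Good n) : 3 < n := by
  have h4 := hn.mod4
  have : n ≠ 3 := by rintro rfl; exact absurd hn.cop (by decide)
  omega

theorem card_stab {n : ℕ} (hn : Good n) {q : M3 × V3} (hq : q ∈ ptN n) :
    Nat.card {g : SL3 // (actG g q.1, (g : M3) *ᵥ q.2) ∈ ptN n} = 2 := by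
  have h4 := hn.mod4
  have h3 := three_lt_of_good hn
  have hTQ := (isTQ_of_mem_ptN (by omega) hq).1
  obtain ⟨a, b, c, t, j, rfl, hf, hj, hdet⟩ := ptN_spec (by omega) hq
  obtain ⟨hD, hred⟩ := (mem_redForms (by omega)).mp hf
  have hD4 : 4 * b * c - t ^ 2 = n := by linear_combination -hD
  have hcop := coprime_ptM hn.sqf (by omega) hD
  have hj0 : j ≠ 0 := by
    rintro rfl
    have : (n : ℤ) ∣ 15 := ⟨a, by push_cast at hdet; linear_combination -hdet + a * hD4⟩
    have h1 : n ∣ 15 := by exact_mod_cast this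
    have := Nat.Coprime.eq_one_of_dvd hn.cop h1
    omega
  set l := ptL n b with hl
  let g1 : SL3 := fixSL (2 * c * l + t) (-(t * l) - 2 * b) (-1) 0 0 (-1) (by ring)
  have key : ∀ g : SL3, (actG g (form a b c (-(j * l)) j t), (g : M3) *ᵥ ![1, 0, 0]) ∈ ptN n ↔
      g = 1 ∨ g = g1 := by
    intro g
    constructor
    · intro hg
      have hx : (g : M3) *ᵥ ![1, 0, 0] = ![1, 0, 0] := by
        obtain ⟨_, _, _, _, _, e, -⟩ := ptN_spec (by omega) hg
        exact congrArg Prod.snd e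
      obtain ⟨u1, u2, p, q, r, s, h, rfl⟩ := exists_fixSL hx
      have hT := hTQ.act (fixSL u1 u2 p q r s h)
      simp only at hT
      rw [actG_fixSL] at hT hg
      obtain ⟨-, hf', j', hj', e1, e2⟩ := (mem_ptN (by omega) (det_of_isTQ hT)).mp hg
      obtain ⟨rfl, rfl, rfl, hp⟩ := reduced_rigid (n := n) (p := p) (q := r) (r := q) (s := s)
        (Int.squarefree_natCast.mpr hn.sqf) (by omega) (by omega) hD (by linear_combination h) hred
        ((mem_redForms (by omega)).mp hf').2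
      rcases hp with rfl | rfl
      · left
        have eb : b * 1 ^ 2 + t * 1 * 0 + c * 0 ^ 2 = b := by ring
        rw [eb, ← hl] at e1
        obtain ⟨-, rfl, rfl⟩ := shear_unique (u1 := u1) (u2 := u2) hD4 rfl hcop hj hj'
          (by linear_combination e1) (by linear_combination e2)
        ext i k
        fin_cases i <;> fin_cases k <;> simp [fixSL]
      · right
        have eb : b * (-1) ^ 2 + t * (-1) * 0 + c * 0 ^ 2 = b := by ring
        rw [eb, ← hl] at e1
        have hj'0 : j' ≠ 0 := by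
          rintro rfl
          have := (shear_unique (u1 := u1) (u2 := u2) (j' := 0) hD4 rfl hcop hj (by omega)
            (by push_cast at e1 ⊢; linear_combination -e1)
            (by push_cast at e2 ⊢; linear_combination -e2)).1
          exact hj0 this
        obtain ⟨-, v1, v2⟩ := shear_unique (u1 := u1 - (2 * c * l + t))
          (u2 := u2 - (-(t * l) - 2 * b)) (j' := n - j') hD4 rfl hcop hj (by omega)
          (by rw [Nat.cast_sub hj'.le]; linear_combination -e1 - l * hD4)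
          (by rw [Nat.cast_sub hj'.le]; linear_combination -e2 + hD4)
        obtain rfl : u1 = 2 * c * l + t := by linear_combination v1
        obtain rfl : u2 = -(t * l) - 2 * b := by linear_combination v2
        rfl
    · rintro (rfl | rfl)
      · simpa [actG_one] using hq
      · have hT := hTQ.act g1
        simp only [g1] at hT ⊢
        rw [actG_fixSL] at hT ⊢
        rw [fixSL_mulVec, mem_ptN (by omega) (det_of_isTQ hT)]
        have eb : b * (-1) ^ 2 + t * (-1) * 0 + c * 0 ^ 2 = b := by ring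
        have ec : b * 0 ^ 2 + t * 0 * (-1) + c * (-1) ^ 2 = c := by ring
        have et : 2 * b * (-1) * 0 + t * (-1 * -1 + 0 * 0) + 2 * c * 0 * (-1) = t := by ring
        rw [eb, ec, et]
        refine ⟨rfl, hf, n - j, by omega, ?_, ?_⟩
        · rw [Nat.cast_sub hj.le, ← hl]; linear_combination (-l) * hD4
        · rw [Nat.cast_sub hj.le]; linear_combination hD4
  have hne : (1 : SL3) ≠ g1 := by
    intro h
    have := congrFun (congrFun (congrArg Subtype.val h) 1) 1
    simp [g1, fixSL] at this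
  rw [Nat.card_eq_two_iff]
  refine ⟨⟨1, (key 1).mpr (Or.inl rfl)⟩, ⟨g1, (key g1).mpr (Or.inr rfl)⟩,
    fun h => hne (congrArg Subtype.val h), ?_⟩
  ext ⟨g, hg⟩
  simpa using (key g).mp hg

theorem card_to_normal {n : ℕ} (hn : Good n) (G : M3) (x : V3) (hG : IsTQ G)
    (hx : bil G x x = n) : Nat.card {g : SL3 // (actG g G, (g : M3) *ᵥ x) ∈ ptN n} = 2 := by
  obtain ⟨g0, hg0⟩ := exists_normal hn hG hx
  rw [← card_stab hn hg0]
  refine (Nat.card_congr ((Equiv.mulRight g0).subtypeEquiv fun g => ?_)).symm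
  simp [actG_mul, mulVec_mulVec]

open Classical in
theorem card_ptPar {n : ℕ} (hn : Good n) : (ptPar n).card = 2 ^ n.primeFactors.card *
    ((redForms n).filter fun f =>
      ∀ p ∈ n.primeFactors, genus p f.1 f.2.2 = aleg p (-15)).card := by
  have h4 := hn.mod4
  rw [ptPar, card_filter, sum_product, card_filter, mul_sum]
  refine sum_congr rfl ?_
  rintro ⟨b, r, c⟩ hf
  have hD := ((mem_redForms (by omega)).mp hf).1
  dsimp only
  rw [← card_filter, card_filter_range_eq_sqCount (by omega),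
    sqCount_eq hn.sqf (by omega)
      (fun p hp => not_dvd_ptM hn.sqf (Nat.mem_primeFactors.mp hp).1
        (Nat.mem_primeFactors.mp hp).2.1 hD)
      (fun p hp hd => (Nat.mem_primeFactors.mp hp).1.one_lt.ne'
        (Nat.eq_one_of_dvd_coprimes hn.cop (Nat.mem_primeFactors.mp hp).2.1
          (by exact_mod_cast hd)))]
  have e : ∀ p ∈ n.primeFactors, genus p b c = aleg p (ptM n b r c) := by
    intro p hp
    have hp' := Nat.mem_primeFactors.mp hp
    have hp2 : p ≠ 2 := by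
      rintro rfl
      have := hp'.2.1
      omega
    have e0 : b * 1 ^ 2 + r * 1 * ptL n b + c * ptL n b ^ 2 = ptM n b r c := by unfold ptM; ring
    rw [genus_eq_aleg hp'.1 hp2 (Int.squarefree_natCast.mpr hn.sqf)
      (Int.natCast_dvd_natCast.mpr hp'.2.1) hD (x := 1) (y := ptL n b)
      (by rw [e0]; exact not_dvd_ptM hn.sqf hp'.1 hp'.2.1 hD), e0]
  have : (∀ p ∈ n.primeFactors, aleg p (ptM n b r c) = aleg p (-15)) ↔
      ∀ p ∈ n.primeFactors, genus p b c = aleg p (-15) :=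
    forall₂_congr fun p hp => by rw [e p hp]
  simp only [this]
  split_ifs <;> simp

theorem points {n : ℕ} (hn : Good n) :
    ∃ g : ℕ, pts n = 6 * 2 ^ n.primeFactors.card * g ∧ (J(-15 | n) = 1 → CondB n → Odd g) := by
  classical
  have h4 := hn.mod4
  have h := pts_groupoid n 2 (ptN n) (fun q hq => isTQ_of_mem_ptN (by omega) hq)
    (card_to_normal hn)
  rw [card_ptN, card_ptPar hn] at h
  refine ⟨_, by linarith, fun hJ hB => ?_⟩
  have := odd_card_genus hn.sqf h4 (three_lt_of_good hn) hB (fun p => aleg p (-15))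
    (sum_aleg_eq_zero hn.sqf (fun p hp hd => (Nat.mem_primeFactors.mp hp).1.one_lt.ne'
      (Nat.eq_one_of_dvd_coprimes hn.cop (Nat.mem_primeFactors.mp hp).2.1
        (by exact_mod_cast Int.dvd_neg.mp hd))) hJ)
  convert this

end Pool.Agent.Lib.MP_696deb_nt
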