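import Pool.Agent.Lib.MP_696deb_nt.TernRank
import Pool.Agent.Lib.MP_696deb_nt.TernPoints
import Pool.Agent.Lib.MP_696deb_nt.SymClosed
import Pool.Agent.Lib.MP_696deb_nt.SymArith
import Pool.Agent.Lib.MP_696deb_nt.BinForm
import Pool.Agent.Lib.MP_696deb_nt.CntDefs
import Pool.Agent.Lib.MP_696deb_nt.TernRR
import Pool.Agent.Lib.MP_696deb_nt.AnForms

-- part Pool.Agent.Lib.MP_696deb_nt.GVal
section

/-! Two-adic valuations of the twisted modular symbols. -/

set_option autoImplicit false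

open Finset NumberTheorySymbols

namespace Pool.Agent.Lib.MP_696deb_nt.GVal

open GInd Tern

theorem rep_unique {q : ℕ} (hq : q.Prime) (h3 : q ≠ 3) {c d c' d' : ℤ}
    (h : 3 * c ^ 2 + 5 * d ^ 2 = q) (h' : 3 * c' ^ 2 + 5 * d' ^ 2 = q) :
    c' ^ 2 = c ^ 2 ∧ d' ^ 2 = d ^ 2 := by
  have hp := Nat.prime_iff_prime_int.mp hq
  have hq0 : (0 : ℤ) < q := by exact_mod_cast hq.pos
  have e : 3 * ((c * d' - d * c') * (c * d' + d * c')) = q * (d' ^ 2 - d ^ 2) := by
    linear_combination d' ^ 2 * h - d ^ 2 * h'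
  have key : ∀ m w : ℤ, (q : ℤ) ∣ m → w ^ 2 + 15 * m ^ 2 = q ^ 2 → m = 0 := by
    rintro _ w ⟨k, rfl⟩ hw
    by_contra hk
    have hk0 : k ≠ 0 := by rintro rfl; simp at hk
    have : 0 < k ^ 2 := by positivity
    nlinarith [sq_nonneg w, mul_pos hq0 hq0]
  have h0 : (c * d' - d * c') * (c * d' + d * c') = 0 := by
    rcases hp.dvd_or_dvd ⟨_, e⟩ with h1 | h1
    · exact absurd ((Nat.prime_dvd_prime_iff_eq hq Nat.prime_three).mp (by exact_mod_cast h1)) h3
    rcases hp.dvd_or_dvd h1 with h2 | h2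
    · rw [key _ (3 * c * c' + 5 * d * d') h2 (by rw [sq (q : ℤ)]; nth_rw 1 [← h]; rw [← h']; ring),
        zero_mul]
    · rw [key _ (3 * c * c' - 5 * d * d') h2 (by rw [sq (q : ℤ)]; nth_rw 1 [← h]; rw [← h']; ring),
        mul_zero]
  rw [h0, mul_zero] at e
  have := (mul_eq_zero.mp e.symm).resolve_left hq0.ne'
  constructor <;> linarith

theorem rep_23 {q : ℕ} (hq : q.Prime) (h3 : q ≠ 3) {c d a w : ℤ}
    (h : 3 * c ^ 2 + 5 * d ^ 2 = q) (h' : w ^ 2 + 15 * a ^ 2 = 23 * q) :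
    ∃ c' d' : ℤ, (c' = c ∨ c' = -c) ∧ (d' = d ∨ d' = -d) ∧ w = 3 * c' + 10 * d' := by
  have key : ∀ a : ℤ, w ^ 2 + 15 * a ^ 2 = 23 * q → (23 : ℤ) ∣ w + 10 * a →
      ∃ c' d' : ℤ, (c' = c ∨ c' = -c) ∧ (d' = d ∨ d' = -d) ∧ w = 3 * c' + 10 * d' := by
    rintro a h' ⟨k, hk⟩
    obtain rfl : w = 23 * k - 10 * a := by linarith
    obtain ⟨e1, e2⟩ := rep_unique hq h3 h (c' := k) (d' := 2 * k - a) (by linarith)
    exact ⟨k, 2 * k - a, sq_eq_sq_iff_eq_or_eq_neg.mp e1, sq_eq_sq_iff_eq_or_eq_neg.mp e2, by ring⟩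
  have h23 : Prime (23 : ℤ) := Int.prime_iff_natAbs_prime.mpr (by norm_num)
  rcases h23.dvd_or_dvd (show (23 : ℤ) ∣ (w + 10 * a) * (w + 10 * -a) from
    ⟨q - 5 * a ^ 2, by linear_combination h'⟩) with h1 | h1
  · exact key a h' h1
  · exact key (-a) (by linear_combination h') h1

theorem exists_rep {q : ℕ} (hq : q.Prime) (h2 : q % 2 = 1) (h3 : q % 3 = 2) (hJ : J(-15 | q) = 1) :
    ∃ c d : ℤ, 3 * c ^ 2 + 5 * d ^ 2 = q := by
  have := Fact.mk hq
  obtain ⟨t, ht⟩ := ZMod.isSquare_of_jacobiSym_eq_one hJ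
  obtain ⟨t, rfl⟩ := ZMod.intCast_surjective t
  obtain ⟨b, hb, hb'⟩ : ∃ b : ℤ, b % 2 = 1 ∧ (q : ℤ) ∣ b ^ 2 + 15 := by
    refine ⟨t + q * (t + 1), ?_, (ZMod.intCast_zmod_eq_zero_iff_dvd _ q).mp ?_⟩
    · obtain ⟨k, hk⟩ : ∃ k : ℤ, (q : ℤ) = 2 * k + 1 := ⟨q / 2, by omega⟩
      rw [hk, show t + (2 * k + 1) * (t + 1) = 1 + 2 * (t + k * (t + 1)) by ring]
      omega
    · push_cast at ht ⊢
      rw [ZMod.natCast_self]
      linear_combination -ht
  obtain ⟨c, hc⟩ : (4 * q : ℤ) ∣ b ^ 2 + 15 := by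
    refine IsCoprime.mul_dvd ?_ ?_ hb'
    · exact (Int.isCoprime_two_left.mpr (Int.odd_iff.mpr (by omega))).pow_left (m := 2)
    · obtain ⟨k, rfl⟩ : ∃ k, b = 2 * k + 1 := ⟨b / 2, by omega⟩
      exact ⟨k ^ 2 + k + 4, by ring⟩
  obtain ⟨p, u, r, s, hdet, hred⟩ := exists_reduced (n := 15) (by norm_num) q q b c le_rfl
    (by exact_mod_cast hq.pos) (by linarith)
  have e : (q * p ^ 2 + b * p * r + c * r ^ 2) * s ^ 2 -
      (2 * q * p * u + b * (p * s + u * r) + 2 * c * r * s) * (s * r) +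
      (q * u ^ 2 + b * u * s + c * s ^ 2) * r ^ 2 = q := by
    linear_combination (q * (p * s - u * r + 1)) * hdet
  have hD : (2 * q * p * u + b * (p * s + u * r) + 2 * c * r * s) ^ 2 -
      4 * (q * p ^ 2 + b * p * r + c * r ^ 2) * (q * u ^ 2 + b * u * s + c * s ^ 2) = -15 := by
    linear_combination (p * s - u * r) ^ 2 * hc - 15 * (p * s - u * r + 1) * hdet
  generalize q * p ^ 2 + b * p * r + c * r ^ 2 = A at *
  generalize 2 * q * p * u + b * (p * s + u * r) + 2 * c * r * s = B at *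
  generalize q * u ^ 2 + b * u * s + c * s ^ 2 = C at *
  obtain ⟨h1, h4, h5⟩ := hred
  obtain ⟨l1, l2⟩ := abs_le.mp h1
  have hA : A ≤ 2 := by nlinarith
  have hA0 : 0 ≤ A := by omega
  have hC : (A = 1 ∧ C = 4 ∨ A = 2 ∧ C = 2) ∧ B = 1 := by
    interval_cases A <;> interval_cases B <;> simp at h5 <;> omega
  obtain ⟨⟨rfl, rfl⟩ | ⟨rfl, rfl⟩, rfl⟩ := hC
  · exfalso
    have e1 : (q : ℤ) = (s + r) ^ 2 + 3 * (r ^ 2 - s * r) := by linear_combination -e
    have : (s + r) ^ 2 % 3 = 0 ∨ (s + r) ^ 2 % 3 = 1 := by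
      generalize s + r = k
      rcases (by omega : k % 3 = 0 ∨ k % 3 = 1 ∨ k % 3 = 2) with h | h | h <;>
        simp [pow_two, Int.mul_emod, h]
    omega
  · obtain ⟨⟨x, rfl⟩, y, rfl⟩ := Int.odd_mul.mp (Int.odd_iff.mpr (by omega) : Odd (s * r))
    exact ⟨x + y + 1, x - y, by linear_combination e⟩

/-- The indicator of an orientation class. -/
def ori (d e s w : ℤ) : ℤ := if (3 : ℤ) ∣ d - w ∧ (5 : ℤ) ∣ e - s * w then 1 else 0

theorem PP_mod {q : ℕ} (hq : q.Prime) (h60 : q % 60 = 17 ∨ q % 60 = 53) {e d : ℤ}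
    (h : 3 * (2 * e) ^ 2 + 5 * d ^ 2 = q) {s : ℤ} (hs : s = 1 ∨ s = -1) :
    ∃ k : ℤ, PP (23 * q) ∅ G3 (tw ![4 * e - d, 0, 3 * e + 5 * d]) (XX G3 (23 * q)) tw s =
      2 * (2 * k + 1) := by
  have hc : ∀ x : V3, cc (23 * q) ∅ G3 (tw ![4 * e - d, 0, 3 * e + 5 * d]) (tw x) s =
      ori d e s (x 1 + 2 * x 2) := by
    intro x
    have e0 : bil G3 (tw ![4 * e - d, 0, 3 * e + 5 * d]) (tw x) =
        60 * (4 * e - d) * x 0 + 8 * (3 * e + 5 * d) * (x 1 + 2 * x 2) := by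
      simp [bil_G3, tw]; ring
    have hd : ¬ (3 : ℤ) ∣ d := by
      rintro ⟨k, rfl⟩
      have : (q : ℤ) = 3 * (4 * e ^ 2 + 15 * k ^ 2) := by linear_combination -h
      omega
    have he : ¬ (5 : ℤ) ∣ e := by
      rintro ⟨k, rfl⟩
      have : (q : ℤ) = 5 * (60 * k ^ 2 + d ^ 2) := by linear_combination -h
      omega
    rw [cc, eta, hilS, prod_empty, e0, ori]
    generalize x 1 + 2 * x 2 = w
    refine if_congr (and_congr ?_ ?_) rfl rfl
    · have : 4 * ((23 * q : ℕ) : ℤ) - (60 * (4 * e - d) * x 0 + 8 * (3 * e + 5 * d) * w) =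
          d * (d - w) + 3 * (368 * e ^ 2 + 153 * d ^ 2 - 20 * (4 * e - d) * x 0 - 8 * e * w
            - 13 * d * w) := by
        push_cast; linear_combination -92 * h
      rw [this, dvd_add_left (dvd_mul_right _ _), Int.prime_three.dvd_mul, or_iff_right hd]
    · have : 4 * ((23 * q : ℕ) : ℤ) - s * (60 * (4 * e - d) * x 0 + 8 * (3 * e + 5 * d) * w) =
          e * -(e - s * w) + 5 * (221 * e ^ 2 + 92 * d ^ 2 - 12 * s * (4 * e - d) * x 0
            - 5 * s * e * w - 8 * s * d * w) := by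
        push_cast; linear_combination -92 * h
      have h5 : Prime (5 : ℤ) := Int.prime_iff_natAbs_prime.mpr (by norm_num)
      rw [this, dvd_add_left (dvd_mul_right _ _), h5.dvd_mul, or_iff_right he, dvd_neg]
  have hodd : ∀ x ∈ XX G3 (23 * q), x 0 ≠ 0 := fun x hx => by
    rw [mem_XX3, bil_G3] at hx
    exact odd_first (n := 23 * q) (by omega) (k := 8 * x 1 * x 1 + 2 * x 1 * x 2 + 2 * x 2 * x 2)
      (by linear_combination hx)
  simp only [PP, hc]
  rw [sum_half io (fun x hx => by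
      rw [mem_XX3, bil_G3] at hx ⊢
      simp only [io, Matrix.cons_val]; linear_combination hx)
    (fun x => by simp [v3_eq, io]) (fun x => by simp [io]) hodd _ (fun x _ => by simp [io]),
    ← sum_filter_add_sum_filter_not _ (fun x => x 1 ≠ 0)]
  obtain ⟨k, hk⟩ := dvd_sum_of_invol (c := 1)
    (Y := ((XX G3 (23 * q)).filter fun x => 0 < x 0).filter fun x => x 1 ≠ 0)
    (ι := fun x => ![x 0, -x 1, x 1 + x 2])
    (f := fun x => ori d e s (x 1 + 2 * x 2))
    (fun x hx => by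
      simp only [mem_filter, mem_XX3, bil_G3, Matrix.cons_val, v3_eq] at hx ⊢
      refine ⟨⟨⟨by linear_combination hx.1.1, hx.1.2⟩, by omega⟩, by simp, fun h => ?_⟩
      have := congrFun h 1
      simp only [Matrix.cons_val] at this
      omega)
    (fun x _ => by
      simp only [Matrix.cons_val]
      rw [show -x 1 + 2 * (x 1 + x 2) = x 1 + 2 * x 2 by ring])
    (fun _ _ => one_dvd _)
  refine ⟨k, ?_⟩
  rw [hk, mul_one]
  congr 2
  have hm : ![|4 * s * e - d|, 0, 3 * s * e + 5 * d] ∈ XX G3 (23 * q) := by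
    rw [mem_XX3, bil_G3]
    simp only [Matrix.cons_val]
    rw [mul_assoc 15, abs_mul_abs_self]
    push_cast
    rcases hs with rfl | rfl <;> linear_combination 23 * h
  rw [sum_eq_single_of_mem ![|4 * s * e - d|, 0, 3 * s * e + 5 * d]]
  · simp only [Matrix.cons_val]
    refine if_pos ?_
    rcases hs with rfl | rfl <;> omega
  · have := hodd _ hm
    simp only [mem_filter, hm, Matrix.cons_val] at this ⊢
    exact ⟨⟨trivial, (abs_nonneg _).lt_of_ne' this⟩, by simp⟩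
  · intro x hx hne
    refine if_neg fun hcond => hne ?_
    simp only [mem_filter, mem_XX3, bil_G3, not_not] at hx hm
    obtain ⟨⟨h1, h2⟩, h3⟩ := hx
    simp only [Matrix.cons_val] at hm
    rw [h3] at h1 hcond
    obtain ⟨c', d', hc', hd', hw⟩ := rep_23 hq (by omega) h (a := x 0) (w := 2 * x 2)
      (by push_cast at h1; linear_combination h1)
    have hd : ¬ (3 : ℤ) ∣ d := by
      rintro ⟨k, rfl⟩
      have : (q : ℤ) = 3 * (4 * e ^ 2 + 15 * k ^ 2) := by linear_combination -h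
      omega
    have he : ¬ (5 : ℤ) ∣ e := by
      rintro ⟨k, rfl⟩
      have : (q : ℤ) = 5 * (60 * k ^ 2 + d ^ 2) := by linear_combination -h
      omega
    have h4 : x 2 = 3 * s * e + 5 * d := by
      rcases hs with rfl | rfl <;> omega
    refine v3_ext ?_ h3 h4
    rw [h4] at h1
    exact (sq_eq_sq₀ h2.le (abs_nonneg _)).mp (by linarith)

theorem Sig_mod {q : ℕ} (hq : q.Prime) (h60 : q % 60 = 17 ∨ q % 60 = 53) (hn : Good (23 * q))
    (hJ : J(-15 | q) = 1) : ∃ k : ℤ, Sig (23 * q) 1 ∅ = 4 * (2 * k + 1) := by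
  obtain ⟨c, d, h⟩ := exists_rep hq (by omega) (by omega) hJ
  obtain ⟨e, rfl⟩ : ∃ e, c = 2 * e := by
    obtain ⟨e, rfl | rfl⟩ := Int.even_or_odd' c
    · exact ⟨e, rfl⟩
    · exfalso
      obtain ⟨f, rfl | rfl⟩ := Int.even_or_odd' d
      · have : (q : ℤ) = 4 * (3 * e ^ 2 + 3 * e + 5 * f ^ 2) + 3 := by linear_combination -h
        omega
      · have : (q : ℤ) = 4 * (3 * e ^ 2 + 3 * e + 5 * f ^ 2 + 5 * f + 2) := by
          linear_combination -h
        omega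
  have F1 : Tern.Fam (23 * q) G3 (tw ![4 * e - d, 0, 3 * e + 5 * d]) (XX G3 (23 * q)) tw :=
    mk_fam mem_XX3 (fun _ _ => by simp [bil_G3, tw]; linear_combination 92 * h)
      (fun x => by simp [tw]) fun x => by rw [bil_tw_left, bil_tw_right]; ring
  have e1 := (Sig_eqs hn (empty_subset _)).1
  have h3 : 23 * q % 3 = 1 := by omega
  rw [ZZ, XX_empty_1 h3, sum_empty, ZZ, XX_empty_2 h3, sum_empty,
    (ZZ_one hn (empty_subset _) (G := G3) (u := tw) fun x w => by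
      rw [bil_tw_left, bil_tw_right]; ring).trans (sum_ph hn (empty_subset _) ev30_G3 F1 F1),
    hilS, prod_empty] at e1
  obtain ⟨k, hk⟩ := PP_mod hq h60 h (.inl rfl)
  obtain ⟨l, hl⟩ := PP_mod hq h60 h (.inr rfl)
  rw [hk, hl] at e1
  exact ⟨2 * k * l + k + l, by linarith⟩

variable {aa bb : ℕ → ℤ}

theorem hasPack (h : SymData aa bb) : HasPack aa bb := fun _ hn hJ =>
  exists_pack h (fun _ h => points h) (fun _ h a b => rank5 h a b) (fun _ h a b => rank3 h a b)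
    (fun _ _ h _ hS => Sig_compl h hS) hn hJ

/-- Negative discriminants with `3` split and `5` inert. -/
theorem aa_two (h : SymData aa bb) {n : ℕ} (hn : Good n) (hJ : J(-15 | n) = 1) (h3 : n % 3 = 2) :
    ∃ s P : ℤ, (s = 1 ∨ s = -1) ∧ (CondB n → Odd P) ∧
      aa n = s * 2 ^ (2 * #n.primeFactors + 1) * P ^ 2 := by
  obtain ⟨Ψ, hΨ⟩ := hasPack h n hn hJ
  obtain ⟨u, hu⟩ := triv_dvd hn hJ hΨ fun j _ => all_NT (hasPack h) j
  obtain ⟨g, s, c, hg, hs, hc, -, e⟩ := hΨ.triv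
  obtain rfl := hc h3
  refine ⟨s, 2 * u - 3 * g, hs,
    fun hB => (even_two_mul u).sub_odd (Odd.mul (by decide) (by exact_mod_cast hg hB)), ?_⟩
  rw [show 8 * Ψ ∅ = 2 * (2 ^ #n.primeFactors * u) by linarith] at e
  refine mul_left_cancel₀ (four_ne_zero (α := ℤ)) ?_
  rw [e]; ring

/-- Negative discriminants with `3` inert and `5` split. -/
theorem aa_one (h : SymData aa bb) {n : ℕ} (hn : Good n) (hJ : J(-15 | n) = 1) (h3 : n % 3 = 1) :
    ∃ s P : ℤ, (s = 1 ∨ s = -1) ∧ (n.Prime → Odd P) ∧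
      aa n = s * 2 ^ (2 * #n.primeFactors + 3) * P ^ 2 := by
  obtain ⟨Ψ, hΨ⟩ := hasPack h n hn hJ
  obtain ⟨u, hu⟩ := triv_dvd hn hJ hΨ fun j _ => all_NT (hasPack h) j
  obtain ⟨g, s, c, hg, hs, -, hc, e⟩ := hΨ.triv
  obtain rfl := hc h3
  refine ⟨s, u - g, hs, fun hp => Even.sub_odd ⟨Ψ ∅, ?_⟩ (by exact_mod_cast hg (condB_prime hp)),
    ?_⟩
  · rw [hp.primeFactors, card_singleton] at hu
    linarith
  rw [show 8 * Ψ ∅ = 2 * (2 ^ #n.primeFactors * u) by linarith] at e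
  refine mul_left_cancel₀ (four_ne_zero (α := ℤ)) ?_
  rw [e]; ring

theorem sq_of_mul {P s t b X : ℤ} (hP : Odd P) (hs : s = 1 ∨ s = -1) (ht : t = 1 ∨ t = -1)
    (e : s * 8 * P ^ 2 * b = t * 32 * X ^ 2) :
    ∃ u Q : ℤ, (u = 1 ∨ u = -1) ∧ X = P * Q ∧ b = u * (2 * Q) ^ 2 := by
  have hP0 : P ≠ 0 := by rintro rfl; exact absurd hP (by decide)
  have e1 : (2 * X) ^ 2 = P ^ 2 * (s * t * b) := by
    rcases hs with rfl | rfl <;> rcases ht with rfl | rfl <;> linarith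
  obtain ⟨Q, rfl⟩ := (Int.isCoprime_two_right.mpr hP).dvd_of_dvd_mul_left
    ((Int.pow_dvd_pow_iff two_ne_zero).mp ⟨_, e1⟩)
  refine ⟨s * t, Q, by rcases hs with rfl | rfl <;> rcases ht with rfl | rfl <;> simp, rfl,
    mul_left_cancel₀ (pow_ne_zero 2 hP0) ?_⟩
  rcases hs with rfl | rfl <;> rcases ht with rfl | rfl <;> linarith

/-- Positive discriminants of type `(-, -)` that are prime. -/
theorem bb_prime (h : SymData aa bb) {q : ℕ} (hq : q.Prime) (h60 : q % 60 = 17 ∨ q % 60 = 53) :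
    ∃ s Q : ℤ, (s = 1 ∨ s = -1) ∧ Odd Q ∧ bb q = s * 2 ^ 2 * Q ^ 2 := by
  have h23 : Nat.Prime 23 := by norm_num
  have hc : q.Coprime 15 := by
    rw [Nat.coprime_comm, Nat.Coprime, Nat.gcd_rec]
    rcases h60 with h | h
    · rw [show q % 15 = 2 by omega]; norm_num
    · rw [show q % 15 = 8 by omega]; norm_num
  have hn : Good (23 * q) := ⟨(Nat.squarefree_mul ((Nat.coprime_primes h23 hq).mpr (by omega))).mpr
    ⟨h23.prime.squarefree, hq.prime.squarefree⟩, by omega, Nat.Coprime.mul_left (by norm_num) hc⟩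
  obtain ⟨k, hk⟩ := Sig_mod hq h60 hn ((jac15_iff (by omega) hc).mpr (by omega))
  obtain ⟨s, P, hs, hP, e⟩ := aa_two h (n := 23) ⟨h23.prime.squarefree, by norm_num, by norm_num⟩
    (by norm_num) (by norm_num)
  obtain ⟨Y, χ, U, hχ, hS, -⟩ := rank3 hn (by omega) (by omega)
  obtain ⟨⟨t, ht, e1⟩, e2⟩ := h.e2 23 q hn (by norm_num) hq.one_lt
  rw [h23.primeFactors] at e e1 e2
  have hmem : 23 ∈ (23 * q).primeFactors :=
    Nat.mem_primeFactors.mpr ⟨h23, dvd_mul_right _ _, hn.sqf.ne_zero⟩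
  obtain ⟨f1, f2, -⟩ := hS {23} (singleton_subset_iff.mpr hmem)
  have hU : U {23} = -Psi Y χ {23} := by
    have : 4 * (Psi Y χ {23} + U {23}) ^ 2 = 0 := by linear_combination e2 - f1 - f2
    have := pow_eq_zero_iff two_ne_zero |>.mp ((mul_eq_zero.mp this).resolve_left (by norm_num))
    linarith
  have hodd : Odd (Psi Y χ {23}) := by
    have f3 := (hS ∅ (empty_subset _)).1
    have h1 : Odd (Psi Y χ ∅ * U ∅) := ⟨k, by linarith⟩
    have h2 : Even (Psi Y χ ∅ + Psi Y χ {23}) := by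
      rw [Psi, Psi, ← sum_add_distrib]
      refine even_sum _ fun y hy => ?_
      rw [prod_empty, prod_singleton]
      rcases hχ 23 hmem y hy with e | e <;> rw [e] <;> decide
    exact (Int.even_add'.mp h2).mp (Int.odd_mul.mp h1).1
  obtain ⟨u, Q, hu, e3, e4⟩ := sq_of_mul (b := bb q) (X := Psi Y χ {23}) (t := -t)
    (hP (condB_prime h23)) hs (by omega) (by
      rw [e, f1, hU, card_singleton] at e1
      linear_combination e1)
  exact ⟨u, Q, hu, (Int.odd_mul.mp (e3 ▸ hodd)).2, by rw [e4]; ring⟩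

/-- Positive discriminants. -/
theorem bb_pos (h : SymData aa bb) {B : ℕ} (hB : Pos B) (hJ : J(-15 | B) = 1) :
    ∃ s Q : ℤ, (s = 1 ∨ s = -1) ∧ (B.Prime → B % 3 = 2 → Odd Q) ∧
      bb B = s * 2 ^ (2 * #B.primeFactors) * Q ^ 2 := by
  by_cases hp : B.Prime ∧ B % 3 = 2
  · have h4 := hB.mod4
    have h5 := (jac15_iff (by omega) hB.cop).mp hJ
    obtain ⟨s, Q, hs, hQ, e⟩ := bb_prime h hp.1 (by omega)
    exact ⟨s, Q, hs, fun _ _ => hQ, by rw [e, hp.1.primeFactors, card_singleton]⟩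
  obtain ⟨l, Ψ, hl, h60, -, gn, -, hΨ, -⟩ := exists_aux (hasPack h) hB hJ
  have gl := (split_good gn (by omega) hB.one_lt).1
  obtain ⟨s, P, hs, hP, e⟩ := aa_two h gl ((jac15_iff (by omega) gl.cop).mpr (by omega)) (by omega)
  obtain ⟨t, ht, e'⟩ := hΨ.prod l B rfl gl.mod4 hB.one_lt {l} (Or.inl hl.primeFactors.symm)
  rw [hl.primeFactors, card_singleton] at e
  obtain ⟨u, Q, hu, -, e4⟩ := sq_of_mul (b := bb B) (X := Ψ {l}) (hP (condB_prime hl)) hs ht
    (by rw [← e', e]; ring)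
  have hd := (all_NT (hasPack h) _).2 B hB hJ rfl
  have hd' : ((2 : ℤ) ^ #B.primeFactors) ^ 2 ∣ (2 * Q) ^ 2 := by
    rw [← pow_mul', show (2 * Q) ^ 2 = u * bb B by rcases hu with rfl | rfl <;> linarith]
    exact hd.mul_left u
  obtain ⟨R, hR⟩ := (Int.pow_dvd_pow_iff two_ne_zero).mp hd'
  exact ⟨u, R, hu, fun a b => absurd ⟨a, b⟩ hp, by rw [e4, hR]; ring⟩

end Pool.Agent.Lib.MP_696deb_nt.GVal
end

-- part Pool.Agent.Lib.MP_696deb_nt.PerVal
section

/-! The twisted periods of the newform and their two-adic valuations. -/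

set_option autoImplicit false

open Finset NumberTheorySymbols

namespace Pool.Agent.Lib.MP_696deb_nt

theorem cross_four {a b c d : ℤ} (h : 3 * a * (3 * d) - b * (15 * c) = 3 * 1)
    (h1 : (0 < b * (15 * c + 6 * d - 12 * a - 8 * b) ∧ (3 * a + 2 * b) * (3 * d - 4 * b) < 0) ∨
      (b * (15 * c + 6 * d - 12 * a - 8 * b) < 0 ∧ 0 < (3 * a + 2 * b) * (3 * d - 4 * b))) :
    (a = -1 ∧ b = 2 ∧ c = -1 ∧ d = 3) ∨ (a = 1 ∧ b = -2 ∧ c = 1 ∧ d = -3) := by
  have h2 : b * (15 * c + 6 * d - 12 * a - 8 * b) - (3 * a + 2 * b) * (3 * d - 4 * b) = -3 := by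
    linear_combination -h
  rcases h1 with h1 | h1
  · omega
  have h3 : |b * (15 * c + 6 * d - 12 * a - 8 * b)| ≤ 2 := by rw [abs_le]; omega
  have h4 : |(3 * a + 2 * b) * (3 * d - 4 * b)| ≤ 2 := by rw [abs_le]; omega
  have n1 : b ≠ 0 := by rintro rfl; simp at h1
  have n2 : 15 * c + 6 * d - 12 * a - 8 * b ≠ 0 := fun h0 => by simp [h0] at h1
  have n3 : 3 * a + 2 * b ≠ 0 := fun h0 => by simp [h0] at h1
  have n4 : 3 * d - 4 * b ≠ 0 := fun h0 => by simp [h0] at h1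
  obtain ⟨b1, b2⟩ := abs_le_of_mul n2 h3
  obtain ⟨b3, b4⟩ := abs_le_of_mul n1 (mul_comm b _ ▸ h3)
  obtain ⟨b5, b6⟩ := abs_le_of_mul n4 h4
  obtain ⟨b7, b8⟩ := abs_le_of_mul n3 (mul_comm (3 * a + 2 * b) _ ▸ h4)
  have d1 : -4 ≤ d := by omega
  have d2 : d ≤ 4 := by omega
  clear h3 h4 h2
  interval_cases b <;> interval_cases d <;> omega

theorem Th_four : Th (0, 1) (1, 4) = -4 := by
  rw [Th, Phi, finsum_eq_sum_of_support_subset (s := {⟨-3, 2, -15, 9⟩, ⟨3, -2, 15, -9⟩})]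
  · decide
  intro X hX
  simp only [Function.mem_support, term, ne_eq, ite_eq_right_iff, Classical.not_imp] at hX
  obtain ⟨hX, h⟩ := hX
  have h1 := dt_ne_zero cop_one hX cc_e2 cc_e2
  have h2 := dt_ne_zero cop_one hX cc_e2 cc_half
  have h3 := dt_ne_zero (r := (1, 4)) cop_one hX (Or.inl (by decide)) cc_e2
  have h4 := dt_ne_zero (r := (1, 4)) cop_one hX (Or.inl (by decide)) cc_half
  rw [dt_swap, neg_ne_zero] at h1 h2
  have h5 := cross_bound h1 h2 h3 h4 fun h0 => h (by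
    simp only [ori]; linear_combination (dt (0, 1) (1, 4)).sign * h0)
  obtain ⟨a, b, c, d⟩ := X
  obtain ⟨h6, ⟨a, rfl⟩, ⟨c, rfl⟩, ⟨d, rfl⟩⟩ := hX
  simp only [dt, M2.ap] at h5
  rcases cross_four (a := a) (b := b) (c := c) (d := d) h6 (by convert h5 using 4 <;> ring) with
    ⟨rfl, rfl, rfl, rfl⟩ | ⟨rfl, rfl, rfl, rfl⟩ <;> simp

theorem per_four : per 4 1 1 4 = -(wm * Complex.I) := by
  have h1 := ms_Gamma0 (a := 11) (b := -3) (c := 1) (d := -4) (x := 4) (y := 15) (by norm_num)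
    (by norm_num)
  norm_num [ms_zero, ms_gm] at h1
  rw [per, mul_one]
  linear_combination -h1

theorem per_eight : per 8 1 1 2 = wp := by
  have h1 := ms_conj (-8) 15
  have h2 := ms_add_mul (-8) 15 1
  norm_num [ms_gp] at h1 h2
  rw [per, mul_one, h1, ← h2, Complex.conj_ofReal]

theorem sum_per {n : ℕ} (hn : Squarefree n) (hodd : Odd n) (h1 : 1 < n) {a c : ℕ → ℤ}
    (h : ∀ k : ℕ, Nat.Coprime k n → a k * n - k * (15 * c k) = 1) :
    ∑ k ∈ range n, (J((k : ℤ) | n) : ℂ) * per (a k) k (c k) n = perA n := by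
  have h5 : ∀ k ∈ range n, (J((k : ℤ) | n) : ℂ) * per (a k) k (c k) n =
      J((k : ℤ) | n) * ms k n - ms 0 1 * J((k : ℤ) | n) := fun k _ => by
    by_cases hk : Nat.Coprime k n
    · have := ms_Gamma0 (h k hk) (x := 0) (y := 1) (by norm_num)
      simp only [mul_zero, mul_one, zero_add] at this
      rw [this, per]
      ring
    · simp [jac_eq_zero hn.ne_zero hk]
  rw [sum_congr rfl h5, sum_sub_distrib, ← mul_sum, ← Int.cast_sum, sum_jac_eq_zero hn hodd h1]
  simp [perA]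

theorem conj_perA {n : ℕ} (h1 : 1 < n) : (starRingEnd ℂ) (perA n) = J(-1 | n) * perA n := by
  have h7 := sum_flip (n := n) fun k : ℕ => (J((k : ℤ) | n) : ℂ) * ms k n
  rw [sum_range_succ, sum_range_succ, Nat.sub_self,
    jac_eq_zero (by omega) (k := 0) (by simp; omega),
    jac_eq_zero (by omega) (k := n) (by simp; omega)] at h7
  simp only [Int.cast_zero, zero_mul, add_zero] at h7
  rw [perA, map_sum, ← h7, mul_sum]
  refine sum_congr rfl fun k hk => ?_
  have hk' := (mem_range.mp hk).le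
  have h8 : J((k : ℤ) | n) = J(-1 | n) * J(((n - k : ℕ) : ℤ) | n) := by
    rw [← jacobiSym.mul_left]
    exact jacobiSym.mod_left' (Int.modEq_iff_dvd.mpr ⟨-1, by push_cast [hk']; ring⟩)
  rw [map_mul, map_intCast, ← ms_conj, ← ms_add_mul (-k) n 1, h8,
    show (-k : ℤ) + 1 * n = (n - k : ℕ) by push_cast [hk']; ring]
  push_cast; ring

theorem exists_cols {n : ℕ} (hn : n.Coprime 15) :
    ∃ a c : ℕ → ℤ, ∀ k : ℕ, Nat.Coprime k n → a k * n - k * (15 * c k) = 1 := by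
  have : ∀ k : ℕ, ∃ a c : ℤ, Nat.Coprime k n → a * n - k * (15 * c) = 1 := fun k => by
    by_cases hk : Nat.Coprime k n
    · obtain ⟨a, c, h⟩ := exists_col hk hn
      exact ⟨a, c, fun _ => h⟩
    · exact ⟨0, 0, fun h => absurd h hk⟩
  choose a c h using this
  exact ⟨a, c, h⟩

/-- The imaginary twisted periods. -/
theorem perA_eq_phi {n : ℕ} (hn : Good n) :
    4 * perA n = phi n ((1 : ℕ) * n) (0, 1) (1, 2) * (wm * Complex.I) := by
  have h4 := hn.mod4
  have hodd : Odd n := Nat.odd_iff.mpr (by omega)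
  obtain ⟨a, c, hac⟩ := exists_cols hn.cop
  obtain ⟨N, hN⟩ := odd_sum hn a c hac
  have h1 := hN _ thH_hom
  have h2 := hN _ hom15_per
  rw [sum_per hn.sqf hodd (by omega) hac, per_four] at h2
  simp only [thH, Th_four] at h1
  rw [phi_eq_sum_Th hn, sum_shift hn.sqf hodd (by omega) (Th (1, 0) (0, 1)) _
    (fun k => Th (0, 1) (k, n)) fun k _ => (Th_add cc_e1 cc_e2
      (cc_of_cop (cop_of_coprime hn.cop))).symm, h2]
  push_cast at h1 ⊢
  rw [h1]; ring

/-- The real twisted periods. -/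
theorem exists_bb (B : ℕ) : ∃ b : ℤ, Squarefree B → Odd B → 1 < B → B.Coprime 15 →
    (B % 4 = 1 → perA B = b * wp) ∧ ∀ A m : ℕ, Good A → (m = 1 ∨ m = 2) →
      ∑ k ∈ range B, J((k : ℤ) | B) * phi A (m * A) (1, 0) (k, B) =
        b * phi A (m * A) (0, 1) (1, 2) := by
  by_cases hc : B.Coprime 15
  swap
  · exact ⟨0, fun _ _ _ h => absurd h hc⟩
  obtain ⟨a, c, hac⟩ := exists_cols hc
  have h1 : ∀ k : ℕ, ∃ b1 b2 : ℤ, Nat.Coprime k B → ∀ f : ℤ → ℤ → ℤ → ℤ → ℂ, Hom15 f →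
      f (a k) k (c k) B = b1 * f 8 1 1 2 + b2 * f 4 1 1 4 := fun k => by
    by_cases hk : Nat.Coprime k B
    · obtain ⟨b1, b2, h⟩ := Hom15.exists_int (hac k hk)
      exact ⟨b1, b2, fun _ => h⟩
    · exact ⟨0, 0, fun h => absurd h hk⟩
  choose b1 b2 hb using h1
  refine ⟨∑ k ∈ range B, J((k : ℤ) | B) * b1 k, fun hB hodd h1 _ => ⟨fun h4 => ?_,
    fun A m hA hm => ?_⟩⟩
  · have h2 : perA B = (∑ k ∈ range B, J((k : ℤ) | B) * b1 k : ℤ) * wp -
        (∑ k ∈ range B, J((k : ℤ) | B) * b2 k : ℤ) * (wm * Complex.I) := by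
      rw [← sum_per hB hodd h1 hac]
      push_cast
      rw [sum_mul, sum_mul, ← sum_sub_distrib]
      refine sum_congr rfl fun k _ => ?_
      by_cases hk : Nat.Coprime k B
      · rw [hb k hk _ hom15_per, per_four, per_eight]; ring
      · simp [jac_eq_zero hB.ne_zero hk]
    have h3 := conj_perA h1
    rw [jacobiSym.at_neg_one hodd, ZMod.χ₄_nat_one_mod_four h4, h2] at h3
    simp only [map_sub, map_mul, map_intCast, Complex.conj_ofReal, Complex.conj_I] at h3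
    rw [h2]
    push_cast at h3 ⊢
    linear_combination (-1 / 2 : ℂ) * h3
  · rw [sum_mul]
    simp only [mul_assoc]
    refine sum_shift hB hodd h1 (phi A (m * A) (1, 0) (0, 1)) _ _ fun k hk => ?_
    obtain ⟨h5, h6⟩ := psiH_hom hA hm
    have h7 := hb k hk _ h5
    rw [h6, mul_zero, add_zero] at h7
    simp only [psiH] at h7
    rw [← phi_add (cop_mul hA hm) cc_e1 cc_e2 (cc_of_cop (cop_of_coprime hc))]
    exact congrArg _ (by exact_mod_cast h7)

/-- The symbols of the rank zero theory are the twisted periods. -/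
theorem symbols_per : ∃ aa bb : ℕ → ℤ, SymData aa bb ∧
    (∀ n, Good n → 4 * perA n = aa n * (wm * Complex.I)) ∧
    ∀ B, GInd.Pos B → perA B = bb B * wp := by
  choose bb hb using exists_bb
  refine ⟨fun A => phi A ((1 : ℕ) * A) (0, 1) (1, 2), bb, ⟨fun n hn => ?_,
    fun A B hn hA4 hB => ?_⟩, fun n => perA_eq_phi, fun B hB =>
      (hb B hB.sqf (Nat.odd_iff.mpr (by have := hB.mod4; omega)) hB.one_lt hB.cop).1 hB.mod4⟩
  · have hn' : Good (n * 1) := by simpa using hn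
    have h1 := (sum_phi hn' (Or.inl rfl)).trans (closed_form n 1 1 hn' hn.mod4 (Or.inl rfl))
    have h2 := (sum_phi hn' (Or.inr rfl)).trans (closed_form n 1 2 hn' hn.mod4 (Or.inr rfl))
    have h3 : ∀ m, Sig n m n.primeFactors = Sig n m ∅ := fun m => by
      simpa using Sig_compl (m := m) hn (empty_subset _)
    simp only [range_one, sum_singleton, jacobiSym.one_right, one_mul, mul_one, h3, Nat.cast_zero,
      Nat.cast_one] at h1 h2
    have h4 := phi_two_inf hn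
    simp only [Nat.cast_one, one_mul] at h4 ⊢
    exact ⟨J(-5 | n), jac_pm (by decide) hn.cop, by linear_combination h2 - 3 * h1 - h4⟩
  · have hA := hn.left hA4
    have hB15 : Nat.Coprime B 15 := Nat.Coprime.coprime_mul_left hn.cop
    have hodd : Odd B := by
      have := hn.mod4
      exact (Nat.odd_mul.mp (Nat.odd_iff.mpr (by omega) : Odd (A * B))).2
    have h1 : ∀ m : ℕ, (m = 1 ∨ m = 2) → 8 * J(-5 | A) * J(-3 | B) * Sig (A * B) m A.primeFactors =
        bb B * phi A (m * A) (0, 1) (1, 2) := fun m hm => by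
      rw [← closed_form A B m hn hA4 hm, ← sum_phi hn hm,
        (hb B hn.sqf.of_mul_right hodd hB hB15).2 A m hA hm]
    have h2 := h1 1 (Or.inl rfl)
    have h3 := h1 2 (Or.inr rfl)
    rw [phi_two_half hA] at h3
    have h4 : J(-5 | A) * J(-3 | B) = 1 ∨ J(-5 | A) * J(-3 | B) = -1 := by
      rcases jac_pm (a := -5) (by decide) hA.cop with h | h <;>
        rcases jac_pm (a := -3) (by decide) hB15 with h' | h' <;> simp [h, h']
    refine ⟨⟨_, h4, by linear_combination -h2⟩, ?_⟩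
    have h5 : 8 * (J(-5 | A) * J(-3 | B)) ≠ 0 := by omega
    exact mul_left_cancel₀ h5 (by linear_combination h2 + h3)

theorem perA_pos {A : ℕ} (hA : Squarefree A) (hc : A.Coprime 15) (h4 : A % 4 = 1) (h1 : 1 < A)
    (hJ : J(-15 | A) = 1) : ∃ s Q : ℤ, (s = 1 ∨ s = -1) ∧ (A.Prime → A % 3 = 2 → Odd Q) ∧
      perA A = s * 2 ^ (2 * #A.primeFactors) * Q ^ 2 * wp := by
  obtain ⟨aa, bb, h, -, e⟩ := symbols_per
  obtain ⟨s, Q, hs, hQ, e'⟩ := GVal.bb_pos h ⟨hA, h4, hc, h1⟩ hJ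
  exact ⟨s, Q, hs, hQ, by rw [e A ⟨hA, h4, hc, h1⟩, e']; push_cast; ring⟩

theorem perA_dvd {A : ℕ} (hA : Squarefree A) (hc : A.Coprime 15) (h4 : A % 4 = 1) (h1 : 1 < A)
    (hJ : J(-15 | A) = 1) : ∃ y : ℤ, perA A = 2 ^ (2 * #A.primeFactors) * y * wp := by
  obtain ⟨s, Q, -, -, e⟩ := perA_pos hA hc h4 h1 hJ
  exact ⟨s * Q ^ 2, by rw [e]; push_cast; ring⟩

theorem perA_two {n : ℕ} (hn : Good n) (hJ : J(-15 | n) = 1) (h3 : n % 3 = 2) :
    ∃ s P : ℤ, (s = 1 ∨ s = -1) ∧ (CondB n → Odd P) ∧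
      2 * perA n = s * 2 ^ (2 * #n.primeFactors) * P ^ 2 * (wm * Complex.I) := by
  obtain ⟨aa, bb, h, e, -⟩ := symbols_per
  obtain ⟨s, P, hs, hP, e'⟩ := GVal.aa_two h hn hJ h3
  have := e n hn
  rw [e'] at this
  push_cast at this
  exact ⟨s, P, hs, hP, by linear_combination this / 2⟩

theorem perA_one {n : ℕ} (hn : Good n) (hJ : J(-15 | n) = 1) (h3 : n % 3 = 1) :
    ∃ s P : ℤ, (s = 1 ∨ s = -1) ∧ (n.Prime → Odd P) ∧
      perA n = s * 2 ^ (2 * #n.primeFactors + 1) * P ^ 2 * (wm * Complex.I) := by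
  obtain ⟨aa, bb, h, e, -⟩ := symbols_per
  obtain ⟨s, P, hs, hP, e'⟩ := GVal.aa_one h hn hJ h3
  have := e n hn
  rw [e'] at this
  push_cast at this
  exact ⟨s, P, hs, hP, by linear_combination this / 4⟩

/-- The constant that depends on the type of the discriminant. -/
def cT (A : ℕ) : ℤ := if A % 4 = 1 then 2 else if A % 3 = 2 then 1 else 4

/-- The uniform statement: twice the period is `± cT A * (2 ^ k * P) ^ 2` times the basic period,
and `P` is odd for primes that are not of type `(+, +)`. -/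
theorem perA_val {A : ℕ} (hA : Squarefree A) (hodd : Odd A) (hc : A.Coprime 15) (h1 : 1 < A)
    (hJ : J(-15 | A) = 1) : ∃ s P : ℤ, (s = 1 ∨ s = -1) ∧ (A.Prime → A % 12 ≠ 1 → Odd P) ∧
      2 * perA A = s * cT A * (2 ^ #A.primeFactors * P) ^ 2 *
        if A % 4 = 1 then (wp : ℂ) else wm * Complex.I := by
  have h3 := (GInd.not_dvd_of_cop hc).1
  have h2 := Nat.odd_iff.mp hodd
  unfold cT
  split_ifs with h4 h5
  · obtain ⟨s, P, hs, hP, e⟩ := perA_pos hA hc h4 h1 hJ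
    exact ⟨s, P, hs, fun a b => hP a (by omega), by rw [e]; push_cast; ring⟩
  · obtain ⟨s, P, hs, hP, e⟩ := perA_two ⟨hA, by omega, hc⟩ hJ h5
    exact ⟨s, P, hs, fun a _ => hP (GInd.condB_prime a), by rw [e]; push_cast; ring⟩
  · obtain ⟨s, P, hs, hP, e⟩ := perA_one ⟨hA, by omega, hc⟩ hJ (by omega)
    exact ⟨s, P, hs, fun a _ => hP a, by rw [e]; push_cast; ring⟩

end Pool.Agent.Lib.MP_696deb_nt
end

-- part Pool.Agent.Lib.MP_696deb_nt.CntS3
section

/-! The closed form of the weighted divisor sums. -/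

set_option autoImplicit false

open Finset NumberTheorySymbols

namespace Pool.Agent.Lib.MP_696deb_nt

open Tern

lemma mu_field {F : Type*} [Field F] [Fintype F] [DecidableEq F] (h2 : (2 : F) ≠ 0)
    (h15 : (15 : F) ≠ 0) (a e t : F) :
    (∑ k : F, if 15 * a * k ^ 2 - t * k + e = 0 then quadraticChar F k else 0) =
      (∑ s : F, if s ^ 2 - (t ^ 2 - 60 * (a * e)) = 0 then quadraticChar F (2 * (s - t)) else 0) *
        (quadraticChar F (-15 * a) + if a * e = 0 then quadraticChar F (-e) else 0) := by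
  have h0 : (∑ k : F, quadraticChar F k) = 0 := quadraticChar_sum_zero (by
    intro h
    exact h2 (by simpa [h] using ringChar.Nat.cast_ringChar (R := F)))
  rcases eq_or_ne a 0 with rfl | ha
  · simp only [mul_zero, zero_mul, zero_sub, sub_zero, MulChar.map_zero, zero_add, if_true]
    rcases eq_or_ne t 0 with rfl | ht
    · rcases eq_or_ne e 0 with rfl | he
      · simpa using h0
      · simp [he]
    rw [sum_eq_single (e / t) (fun k _ hk => if_neg fun h => hk (by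
        field_simp; linear_combination -h)) (by simp), if_pos (by field_simp; ring),
      sum_eq_single (-t) (fun s _ hs => ?_) (by simp), if_pos (by ring), ← map_mul,
      show 2 * (-t - t) * -e = (2 * t) ^ 2 * (e / t) by field_simp; ring, map_mul, map_pow,
      quadraticChar_sq_one (mul_ne_zero h2 ht), one_mul]
    split_ifs with h
    · rw [show s = t from (sq_eq_sq_iff_eq_or_eq_neg.mp (sub_eq_zero.mp h)).resolve_right hs]
      simp
    · rfl
  have h30 : (30 : F) * a ≠ 0 := mul_ne_zero (by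
    rw [show (30 : F) = 2 * 15 by norm_num]; exact mul_ne_zero h2 h15) ha
  rw [show (if a * e = 0 then quadraticChar F (-e) else 0) = 0 by
    split_ifs with h
    · rw [(mul_eq_zero.mp h).resolve_left ha]; simp
    · rfl, add_zero, sum_mul, eq_comm,
    ← Equiv.sum_comp (((Equiv.mulLeft₀ _ h30).trans (Equiv.neg F)).trans (Equiv.addLeft t))]
  refine sum_congr rfl fun k _ => Eq.symm ?_
  simp only [Equiv.trans_apply, Equiv.mulLeft₀_apply, Equiv.neg_apply, Equiv.coe_addLeft, ite_mul,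
    zero_mul]
  refine if_congr ⟨fun h => by linear_combination 60 * a * h, fun h =>
    mul_left_cancel₀ (mul_ne_zero h2 h30) (by linear_combination h)⟩ ?_ rfl
  rw [← map_mul, show 2 * (t + -(30 * a * k) - t) * (-15 * a) = (30 * a) ^ 2 * k by ring, map_mul,
    map_pow, quadraticChar_sq_one h30, one_mul]

lemma mu_local {n p : ℕ} (hn : n.Coprime 30) (hp : p ∈ n.primeFactors) (a e t : ℤ) :
    (∑ k ∈ range p, if (p : ℤ) ∣ 15 * a * k ^ 2 - t * k + e then J((k : ℤ) | p) else 0) =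
      (∑ s ∈ range p, if (p : ℤ) ∣ s ^ 2 - (t ^ 2 - 60 * (a * e)) then J(2 * (s - t) | p) else 0) *
        (J(-15 * a | p) + if (p : ℤ) ∣ a * e then J(-e | p) else 0) := by
  have := Fact.mk (Nat.prime_of_mem_primeFactors hp)
  obtain ⟨h2, h3, h5⟩ := small_ne_zero hn this.out (Nat.dvd_of_mem_primeFactors hp)
  have h := mu_field h2 (by rw [show (15 : ZMod p) = 3 * 5 by norm_num]; exact mul_ne_zero h3 h5)
    (a : ZMod p) e t
  rw [← sum_range_zmod, ← sum_range_zmod] at h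
  simpa only [jac_eq, ← ZMod.intCast_zmod_eq_zero_iff_dvd, Int.cast_add, Int.cast_sub,
    Int.cast_mul, Int.cast_pow, Int.cast_neg, Int.cast_ofNat, Int.cast_natCast] using h

/-- The primes at which the local factor has two terms. -/
def GG (A : ℕ) (t M : ℤ) (p : ℕ) : Prop :=
  if p ∣ A then (p : ℤ) ∣ t ∧ (p : ℤ) ^ 3 ∣ M else (p : ℤ) ∣ M

instance (A : ℕ) (t M : ℤ) (p : ℕ) : Decidable (GG A t M p) := by unfold GG; infer_instance

/-- The part of the local factor that does not depend on the factorization. -/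
def alP (n A : ℕ) (t M : ℤ) (p : ℕ) : ℤ :=
  if p ∣ A then
    if (p : ℤ) ∣ t then J(((n / p : ℕ) : ℤ) | p) * ∑ s ∈ range p,
      if (p : ℤ) ∣ s ^ 2 - ((t / p) ^ 2 - 60 * (M / p ^ 2)) then J(2 * (s - t / p) | p) else 0
    else J(-2 * t | p)
  else 1

/-- The product of the primes that divide both `A` and `t`. -/
def gA (A : ℕ) (t : ℤ) : ℕ := ∏ p ∈ A.primeFactors.filter fun p : ℕ => (p : ℤ) ∣ t, p

lemma muW_eq_zero {A B : ℕ} {t a e : ℤ} (h : ¬ ((gA A t : ℤ) ∣ a ∧ (gA A t : ℤ) ∣ e)) :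
    muW A B t a e = 0 := by
  by_contra h0
  have h1 : ∀ p ∈ A.primeFactors.filter fun p : ℕ => (p : ℤ) ∣ t, (p : ℤ) ∣ a ∧ (p : ℤ) ∣ e :=
    fun p hp => by
      by_contra h2
      rw [mem_filter] at hp
      exact prod_ne_zero_iff.mp (left_ne_zero_of_mul h0) p hp.1 (by rw [muP, if_pos hp.2, if_neg h2])
  have h2 : ∀ x : ℤ, (∀ p ∈ A.primeFactors.filter fun p : ℕ => (p : ℤ) ∣ t, (p : ℤ) ∣ x) →
      (gA A t : ℤ) ∣ x := fun x hx => Int.natCast_dvd.mpr (prod_primes_dvd _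
    (fun p hp => (Nat.prime_of_mem_primeFactors (mem_filter.mp hp).1).prime)
    fun p hp => Int.natCast_dvd.mp (hx p hp))
  exact h ⟨h2 a fun p hp => (h1 p hp).1, h2 e fun p hp => (h1 p hp).2⟩

lemma prod_gam {n : ℕ} (hn : Good n) {P : Finset ℕ} (hP : P ⊆ n.primeFactors) :
    ∏ q ∈ n.primeFactors, J(((∏ p ∈ P.erase q, p : ℕ) : ℤ) | q) =
      ∏ p ∈ P, J(((n / p : ℕ) : ℤ) | p) := by
  have h1 : ∀ q, J(((∏ p ∈ P.erase q, p : ℕ) : ℤ) | q) = ∏ p ∈ P.erase q, J((p : ℤ) | q) :=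
    fun q => by
      simpa only [jacHom, MonoidHom.coe_mk, OneHom.coe_mk, prod_singleton] using
        map_prod (jacHom {q}) (fun p => p) (P.erase q)
  simp only [h1]
  rw [prod_comm' (t' := P) (s' := fun p => n.primeFactors.erase p) (by
    intro q p
    simp only [mem_erase]
    tauto)]
  exact prod_congr rfl fun p hp => by
    rw [← hil_self_eq hn (hP hp), hil_self (Nat.prime_of_mem_primeFactors (hP hp))]

lemma muW_expand {A B : ℕ} (hn : Good (A * B)) (t a e : ℤ) :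
    muW A B t (gA A t * a) (gA A t * e) = J(-15 | A) * J(15 | B) *
      (∏ p ∈ (A * B).primeFactors, alP (A * B) A t (gA A t ^ 2 * (a * e)) p) *
      ∏ p ∈ (A * B).primeFactors, (J(a | p) +
        if GG A t (gA A t ^ 2 * (a * e)) p then J(15 | p) * J(e | p) else 0) := by
  have hc : Nat.Coprime A B := Nat.coprime_of_squarefree_mul hn.sqf
  have hR : (A * B).primeFactors = A.primeFactors ∪ B.primeFactors := hc.primeFactors_mul
  have hdisj : Disjoint A.primeFactors B.primeFactors := hc.disjoint_primeFactors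
  set P := A.primeFactors.filter fun p : ℕ => (p : ℤ) ∣ t with hP
  have hP' : P ⊆ (A * B).primeFactors := (filter_subset _ _).trans (hR ▸ subset_union_left)
  have hg : ∀ q ∈ (A * B).primeFactors, ¬ (q : ℤ) ∣ (∏ p ∈ P.erase q, p : ℕ) := fun q hq h => by
    obtain ⟨p, hp, h⟩ := (Nat.prime_of_mem_primeFactors hq).prime.exists_mem_finset_dvd
      (Int.natCast_dvd_natCast.mp h)
    exact ne_of_mem_erase hp ((Nat.prime_dvd_prime_iff_eq (Nat.prime_of_mem_primeFactors hq)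
      (Nat.prime_of_mem_primeFactors (hP' (mem_of_mem_erase hp)))).mp h).symm
  have h1 : (∏ q ∈ (A * B).primeFactors, J(((∏ p ∈ P.erase q, p : ℕ) : ℤ) | q)) *
      ∏ q ∈ (A * B).primeFactors, (if q ∈ P then J(((A * B / q : ℕ) : ℤ) | q) else 1) = 1 := by
    rw [prod_gam hn hP', prod_ite_mem, inter_eq_right.mpr hP', ← prod_mul_distrib]
    refine prod_eq_one fun p hp => ?_
    rw [← sq, jac_sq (Nat.prime_of_mem_primeFactors (hP' hp)) (not_dvd_div hn.sqf
      (Nat.prime_of_mem_primeFactors (hP' hp)) (Nat.dvd_of_mem_primeFactors (hP' hp)))]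
  rw [← mul_one (_ * _ * _ * _), ← h1, jac_eq_prod _ hn.sqf.of_mul_left,
    jac_eq_prod _ hn.sqf.of_mul_right, muW, mul_assoc, mul_assoc, ← prod_mul_distrib,
    ← prod_mul_distrib, ← prod_mul_distrib, hR, prod_union hdisj, mul_mul_mul_comm,
    ← prod_mul_distrib, ← prod_mul_distrib]
  congr 1 <;> refine prod_congr rfl fun p hp => ?_
  · have hpR : p ∈ (A * B).primeFactors := hR ▸ mem_union_left _ hp
    obtain ⟨hp', h3, h5⟩ := prime_facts hn.cop hpR
    have hp2 := Nat.prime_iff_prime_int.mp hp'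
    have hpA := Nat.dvd_of_mem_primeFactors hp
    have k := hg p hpR
    simp only [muP, alP, GG, if_pos hpA]
    by_cases ht : (p : ℤ) ∣ t
    · have hpP : p ∈ P := mem_filter.mpr ⟨hp, ht⟩
      have e1 : (gA A t : ℤ) = p * (∏ p ∈ P.erase p, p : ℕ) := by
        rw [gA, ← hP, ← mul_prod_erase _ _ hpP, Nat.cast_mul]
      have k2 := jac_sq hp' (not_dvd_div hn.sqf hp' (Nat.dvd_of_mem_primeFactors hpR))
      generalize ((∏ p ∈ P.erase p, p : ℕ) : ℤ) = g at e1 k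
      have e2 : (p * g) ^ 2 * (a * e) = p ^ 2 * (g * a * (g * e)) := by ring
      have e3 : (p : ℤ) ^ 3 ∣ p ^ 2 * (g * a * (g * e)) ↔ (p : ℤ) ∣ g * a * (g * e) := by
        rw [pow_succ, mul_dvd_mul_iff_left (pow_ne_zero 2 hp2.ne_zero)]
      simp only [e1, e2, e3, ht, hpP, if_true, true_and, mul_assoc (p : ℤ), dvd_mul_right, and_self,
        Int.mul_ediv_cancel_left _ hp2.ne_zero,
        Int.mul_ediv_cancel_left _ (pow_ne_zero 2 hp2.ne_zero)]
      rw [mu_local (Good.coprime30 hn) hpR]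
      have e4 : J(-15 | p) * J(15 | p) = J(-1 | p) := by
        rw [← jacobiSym.mul_left, ← jac_mul_sq hp' h3 (-1), ← jac_mul_sq hp' h5 (_ * -1)]
        norm_num
      rw [show -(g * e) = -1 * (g * e) by ring]
      simp only [jacobiSym.mul_left, ← e4]
      split_ifs <;> rw [← mul_one (_ * (_ + _)), ← k2] <;> ring
    · have hpP : p ∉ P := fun h => ht (mem_filter.mp h).2
      rw [erase_eq_of_notMem hpP]
      simp only [ht, hpP, if_false, false_and, add_zero, mul_one, ← jacobiSym.mul_left, gA, ← hP]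
      congr 1
      ring
  · have hpR : p ∈ (A * B).primeFactors := hR ▸ mem_union_right _ hp
    obtain ⟨hp', h3, h5⟩ := prime_facts hn.cop hpR
    have hp2 := Nat.prime_iff_prime_int.mp hp'
    have hpA : ¬ p ∣ A := fun h => disjoint_right.mp hdisj hp
      (Nat.mem_primeFactors.mpr ⟨hp', h, left_ne_zero_of_mul hn.sqf.ne_zero⟩)
    have hpP : p ∉ P := fun h => hpA (Nat.dvd_of_mem_primeFactors (mem_filter.mp h).1)
    have k := hg p hpR
    rw [erase_eq_of_notMem hpP] at k ⊢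
    have e4 : J(15 | p) * J(15 | p) = 1 := by
      rw [← jacobiSym.mul_left, ← jacobiSym.one_left p, ← jac_mul_sq hp' h3 1,
        ← jac_mul_sq hp' h5 (_ * 1)]
      norm_num
    simp only [alP, GG, hpA, hpP, if_false, gA, ← hP, hp2.dvd_mul, k, false_or, sq,
      jacobiSym.mul_left]
    by_cases ha : (p : ℤ) ∣ a
    · simp only [ha, true_or, if_true, jac_zero_of_dvd hp' ha]
      linear_combination -J(((∏ p ∈ P, p : ℕ) : ℤ) | p) * J(e | p) * e4
    · simp only [ha, false_or, if_false]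
      split_ifs with he
      · rw [jac_zero_of_dvd hp' he]; ring
      · ring

lemma gA_sq_dvd {A : ℕ} {t M : ℤ} (h15 : A.Coprime 30) (hA : Squarefree A)
    (h : (A : ℤ) ^ 2 ∣ t ^ 2 - 60 * M) : (gA A t : ℤ) ^ 2 ∣ M := by
  have h1 : gA A t ∣ A := by
    conv_rhs => rw [← Nat.prod_primeFactors_of_squarefree hA]
    exact prod_dvd_prod_of_subset _ _ _ (filter_subset _ _)
  have h2 : (gA A t : ℤ) ∣ t := Int.natCast_dvd.mpr (prod_primes_dvd _
    (fun p hp => (Nat.prime_of_mem_primeFactors (mem_filter.mp hp).1).prime)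
    fun p hp => Int.natCast_dvd.mp (mem_filter.mp hp).2)
  have h3 : IsCoprime ((gA A t : ℤ) ^ 2) 60 :=
    (IsCoprime.pow (n := 2) (Nat.isCoprime_iff_coprime.mpr
      (Nat.Coprime.coprime_dvd_left h1 h15))).of_isCoprime_of_dvd_right (by norm_num)
  exact h3.dvd_of_dvd_mul_left ((dvd_sub_right (pow_dvd_pow_of_dvd h2 2)).mp
    ((pow_dvd_pow_of_dvd (Int.natCast_dvd_natCast.mpr h1) 2).trans h))

lemma gA_pos (A : ℕ) (t : ℤ) : 0 < gA A t :=
  prod_pos fun _ hp => (Nat.prime_of_mem_primeFactors (mem_filter.mp hp).1).pos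

lemma sum_scale {g M : ℕ} (hg : 0 < g) (F : ℕ → ℕ → ℤ)
    (hF : ∀ a e, ¬ (g ∣ a ∧ g ∣ e) → F a e = 0) :
    ∑ x ∈ (g ^ 2 * M).divisorsAntidiagonal, F x.1 x.2 =
      ∑ x ∈ M.divisorsAntidiagonal, F (g * x.1) (g * x.2) := by
  symm
  refine sum_of_injOn (fun x => (g * x.1, g * x.2)) (fun x _ y _ h => ?_) (fun x hx => ?_)
    (fun x hx h => hF _ _ ?_) fun _ _ => rfl
  · simp only [Prod.mk.injEq, Nat.mul_right_inj hg.ne'] at h
    exact Prod.ext h.1 h.2
  · obtain ⟨rfl, h⟩ := Nat.mem_divisorsAntidiagonal.mp hx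
    exact Nat.mem_divisorsAntidiagonal.mpr ⟨by ring, mul_ne_zero (pow_ne_zero 2 hg.ne') h⟩
  · obtain ⟨a, e⟩ := x
    rintro ⟨⟨a, rfl⟩, e, rfl⟩
    obtain ⟨h1, h2⟩ := Nat.mem_divisorsAntidiagonal.mp hx
    exact h ⟨(a, e), mem_coe.mpr (Nat.mem_divisorsAntidiagonal.mpr ⟨Nat.eq_of_mul_eq_mul_left
      (pow_pos hg 2) (by rw [← h1]; ring), right_ne_zero_of_mul h2⟩), rfl⟩

lemma sum_twist {n : ℕ} (hn : Good n) (G : ℕ → Prop) [DecidablePred G] (c : ℕ → ℤ) (M : ℕ) :
    ∑ x ∈ M.divisorsAntidiagonal, ∏ p ∈ n.primeFactors,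
      (J((x.1 : ℤ) | p) + if G p then c p * J((x.2 : ℤ) | p) else 0) =
      rr n M * ∏ p ∈ n.primeFactors, (1 + if G p then c p * hil n p M else 0) := by
  rw [prod_one_add]
  simp only [add_comm (J(_ | _)), prod_add, mul_sum]
  rw [sum_comm]
  refine sum_congr rfl fun T hT => ?_
  by_cases h : ∀ p ∈ T, G p
  · simp only [prod_congr rfl fun p hp => if_pos (h p hp), prod_mul_distrib, mul_assoc, ← mul_sum]
    rw [mul_left_comm, mul_comm (rr n M), ← hilS, ← twisted_conv hn (mem_powerset.mp hT)]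
    simp only [mul_comm]
  · push Not at h
    obtain ⟨p, hp, h⟩ := h
    rw [prod_eq_zero hp (if_neg h), mul_zero]
    exact sum_eq_zero fun x _ => by rw [prod_eq_zero hp (if_neg h), zero_mul]

lemma rr_gA {A B : ℕ} (h0 : A * B ≠ 0) (t : ℤ) (M : ℕ) :
    rr (A * B) (gA A t * M) = rr (A * B) M := by
  refine prod_induction _ (fun g => ∀ M, rr (A * B) (g * M) = rr (A * B) M)
    (fun a b ha hb M => by rw [mul_assoc, ha, hb]) (by simp) (fun p hp M => ?_) M
  have h := (mem_filter.mp hp).1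
  exact rr_ram h0 (Nat.prime_of_mem_primeFactors h) ((Nat.dvd_of_mem_primeFactors h).mul_right _)

/-- The closed form of the weighted divisor sum. -/
theorem sum_muW {A B : ℕ} (hn : Good (A * B)) {t : ℤ} {M : ℕ}
    (h : (A : ℤ) ^ 2 ∣ t ^ 2 - 60 * M) :
    ∑ x ∈ M.divisorsAntidiagonal, muW A B t x.1 x.2 = J(-15 | A) * J(15 | B) * CF (A * B) A t M := by
  have h0 := hn.sqf.ne_zero
  have h1 := gA_sq_dvd (Nat.Coprime.coprime_mul_right (Good.coprime30 hn)) hn.sqf.of_mul_left h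
  obtain ⟨M', hM⟩ : gA A t ^ 2 ∣ M := by exact_mod_cast h1
  have hM' : (M : ℤ) = (gA A t : ℤ) ^ 2 * M' := by exact_mod_cast hM
  rcases eq_or_ne M' 0 with rfl | h2
  · simp [hM, CF, rr]
  conv_lhs => rw [hM, sum_scale (gA_pos A t) (fun a e => muW A B t a e)
    fun a e h => muW_eq_zero (by exact_mod_cast h)]
  rw [sum_congr rfl fun x hx => by
    rw [Nat.cast_mul, Nat.cast_mul, muW_expand hn, ← Nat.cast_mul,
      (Nat.mem_divisorsAntidiagonal.mp hx).1, ← hM'], ← mul_sum, sum_twist hn, CF, mul_assoc,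
    mul_left_comm (∏ _ ∈ _, _), ← prod_mul_distrib]
  congr 2
  · rw [hM, sq, mul_assoc, rr_gA h0, rr_gA h0]
  refine prod_congr rfl fun p hp => ?_
  have hp' := Nat.prime_of_mem_primeFactors hp
  have e : hil (A * B) p M' = hil (A * B) p M := by
    rw [hM', hil_mul hp', hil_of_sq hn.sqf hp' (Nat.dvd_of_mem_primeFactors hp)
      (by exact_mod_cast (gA_pos A t).ne'), one_mul]
  simp only [alP, GG, lamP, sigP, e, Int.natCast_div, Nat.cast_pow, ← Int.natCast_dvd_natCast]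
  by_cases h3 : (p : ℤ) ∣ A <;> by_cases h4 : (p : ℤ) ∣ t <;> simp [h3, h4] <;> split_ifs <;> simp

end Pool.Agent.Lib.MP_696deb_nt
end

-- part Pool.Agent.Lib.MP_696deb_nt.CntS2
section

/-! Pairs of a vertical line and a form, counted by factorizations. -/

set_option autoImplicit false

open Finset NumberTheorySymbols

namespace Pool.Agent.Lib.MP_696deb_nt

open Tern

lemma line_gen {K : Type*} [CommRing K] {A B : ℕ} (hA : (A : ℤ) ≠ 0) (hc : IsCoprime (15 : ℤ) A)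
    (hB : ∀ p ∈ B.primeFactors, ¬ (p : ℤ) ∣ 15 ∧ ¬ (p : ℤ) ∣ A) {D β t M : ℤ}
    (hD : (B : ℤ) ∣ D) (hM : 60 * M = t ^ 2 - A ^ 2 * D) (h0 : M ≠ 0) (hβ : 15 ∣ t - A * β)
    (hβ2 : 2 ∣ D - β) (φ : ℤ → ℤ → K) (k : ℤ) :
    ∑ᶠ R : Fm, (if fbil (0, A, -k) R = t then (wG B D β R : K) * φ (R.1 / 15) (fval R k A) else 0) =
      ∑ x ∈ M.divisorsAntidiag,
        if (A : ℤ) ∣ t - 30 * x.1 * k ∧ (A : ℤ) ^ 2 ∣ 15 * x.1 * k ^ 2 - t * k + x.2 then
          ((∏ p ∈ B.primeFactors, if (p : ℤ) ∣ x.1 then J(x.2 | p) else J(15 * x.1 | p) : ℤ) : K) *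
            φ x.1 x.2 else 0 := by
  rw [← sum_filter]
  set s := M.divisorsAntidiag.filter fun x =>
    (A : ℤ) ∣ t - 30 * x.1 * k ∧ (A : ℤ) ^ 2 ∣ 15 * x.1 * k ^ 2 - t * k + x.2 with hs
  let g : ℤ × ℤ → Fm := fun x =>
    (15 * x.1, (t - 30 * x.1 * k) / A, (15 * x.1 * k ^ 2 - t * k + x.2) / A ^ 2)
  rw [finsum_eq_sum_of_support_subset _ (s := s.image g) fun R hR => ?_,
    sum_image fun x hx y hy h => ?_]
  · refine sum_congr rfl ?_
    rintro ⟨a, e⟩ hx
    obtain ⟨h1, ⟨b, hb⟩, c, hc'⟩ := mem_filter.mp hx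
    have h2 : a * e = M := (Int.mem_divisorsAntidiag.mp h1).1
    simp only at hb hc'
    have h3 : g (a, e) = (15 * a, b, c) := by
      simp only [g, hb, hc', Int.mul_ediv_cancel_left _ hA,
        Int.mul_ediv_cancel_left _ (pow_ne_zero 2 hA)]
    have h4 : fval (15 * a, b, c) k A = e := by
      simp only [fval]; linear_combination -k * hb - hc'
    have h5 : fdisc (15 * a, b, c) = D := mul_left_cancel₀ (pow_ne_zero 2 hA) (by
      simp only [fdisc]
      linear_combination -(A * b + t - 30 * a * k) * hb + 60 * a * hc' - 60 * h2 - hM)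
    have h9 : 30 ∣ b - β := by
      have h6 : 15 ∣ b - β := hc.dvd_of_dvd_mul_left (by
        rw [show (A : ℤ) * (b - β) = t - A * β - 15 * (2 * a * k) by linear_combination -hb]
        exact hβ.sub (dvd_mul_right _ _))
      obtain ⟨u, hu⟩ := Int.even_mul_pred_self b
      have h7 : D - b = 2 * (u - 30 * a * c) := by
        simp only [fdisc] at h5; linear_combination hu - h5
      omega
    rw [h3, h4, if_pos (by simp only [fbil]; linear_combination -hb), wG,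
      if_pos ⟨dvd_mul_right _ _, h5, h9⟩, Int.mul_ediv_cancel_left _ (by norm_num), gch]
    congr 2
    refine prod_congr rfl fun p hp => ?_
    have hp' := Nat.prime_of_mem_primeFactors hp
    have hp2 := Nat.prime_iff_prime_int.mp hp'
    have hpB := Nat.dvd_of_mem_primeFactors hp
    have h8 : (p : ℤ) ∣ 15 * a ↔ (p : ℤ) ∣ a := by
      rw [hp2.dvd_mul, or_iff_right (hB p hp).1]
    simp only [h8]
    split_ifs with ha
    · obtain ⟨a, rfl⟩ := ha
      obtain ⟨d, hd⟩ := (Int.natCast_dvd_natCast.mpr hpB).trans hD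
      obtain ⟨b, rfl⟩ := hp2.dvd_of_dvd_pow (n := 2) (show (p : ℤ) ∣ b ^ 2 from
        ⟨d + 60 * a * c, by simp only [fdisc] at h5; linear_combination h5 + hd⟩)
      rw [← jac_mul_sq hp' (hB p hp).2, ← h4]
      exact jacobiSym.mod_left' (Int.ModEq.symm (Int.modEq_iff_dvd.mpr
        ⟨-(15 * a * k ^ 2 + b * k * A), by simp only [fval]; ring⟩))
    · rfl
  · simp only [g, Prod.mk.injEq, mul_right_inj' (show (15 : ℤ) ≠ 0 by norm_num)] at h
    have h1 := (Int.mem_divisorsAntidiag.mp (mem_filter.mp hx).1).1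
    have h2 := (Int.mem_divisorsAntidiag.mp (mem_filter.mp hy).1).1
    exact Prod.ext h.1 (mul_left_cancel₀ (left_ne_zero_of_mul (h1 ▸ h0)) (by rw [h1, h.1, h2]))
  · obtain ⟨_, b, c⟩ := R
    simp only [Function.mem_support, ne_eq, ite_eq_right_iff, Classical.not_imp, wG] at hR
    obtain ⟨h1, h2⟩ := hR
    have h3 : Fam D β _ := by_contra fun h => h2 (by rw [if_neg h]; simp)
    obtain ⟨⟨a, rfl⟩, h4, -⟩ := h3
    simp only [fbil, fdisc] at h1 h4
    have e1 : t - 30 * a * k = A * b := by linear_combination -h1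
    have e2 : 15 * a * k ^ 2 - t * k + fval (15 * a, b, c) k A = A ^ 2 * c := by
      simp only [fval]; linear_combination k * h1
    refine mem_coe.mpr (mem_image.mpr ⟨(a, fval (15 * a, b, c) k A), mem_filter.mpr
      ⟨Int.mem_divisorsAntidiag.mpr ⟨mul_left_cancel₀ (show (60 : ℤ) ≠ 0 by norm_num) ?_, h0⟩,
        ⟨b, e1⟩, c, e2⟩, ?_⟩)
    · linear_combination 60 * a * e2 - hM - A ^ 2 * h4 - (t - 30 * a * k + A * b) * e1
    · simp only [g, e1, e2, Int.mul_ediv_cancel_left _ hA,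
        Int.mul_ediv_cancel_left _ (pow_ne_zero 2 hA)]

lemma line_fix {K : Type*} [CommRing K] {A B : ℕ} (hn : Good (A * B)) {D β t M : ℤ}
    (hD : (B : ℤ) ∣ D) (hM : 60 * M = t ^ 2 - A ^ 2 * D) (h0 : M ≠ 0) (hβ : 30 ∣ t - A * β)
    (φ : ℤ → ℤ → K) (k : ℤ) :
    ∑ᶠ R : Fm, (if fbil (0, A, -k) R = t then (wG B D β R : K) * φ (R.1 / 15) (fval R k A) else 0) =
      ∑ x ∈ M.divisorsAntidiag,
        if (A : ℤ) ∣ t - 30 * x.1 * k ∧ (A : ℤ) ^ 2 ∣ 15 * x.1 * k ^ 2 - t * k + x.2 then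
          ((∏ p ∈ B.primeFactors, if (p : ℤ) ∣ x.1 then J(x.2 | p) else J(15 * x.1 | p) : ℤ) : K) *
            φ x.1 x.2 else 0 := by
  have hc : IsCoprime (30 : ℤ) A :=
    (Nat.isCoprime_iff_coprime.mpr (Nat.Coprime.coprime_mul_right (Good.coprime30 hn))).symm
  refine line_gen (by exact_mod_cast left_ne_zero_of_mul hn.sqf.ne_zero)
    (hc.of_isCoprime_of_dvd_left (by norm_num)) (fun p hp => ?_) hD hM h0
    (Dvd.dvd.trans (by norm_num) hβ) ?_ φ k
  · have hp' := Nat.prime_of_mem_primeFactors hp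
    have hpB := Nat.dvd_of_mem_primeFactors hp
    exact ⟨fun h => hp'.not_dvd_one (hn.cop ▸ Nat.dvd_gcd (hpB.mul_left A) (by exact_mod_cast h)),
      fun h => hp'.not_dvd_one ((Nat.coprime_of_squarefree_mul hn.sqf) ▸
        Nat.dvd_gcd (Int.natCast_dvd_natCast.mp h) hpB)⟩
  · obtain ⟨s, hs⟩ := hβ
    obtain ⟨u, hu⟩ := Int.even_mul_pred_self β
    refine ((hc.of_isCoprime_of_dvd_left (show (2 : ℤ) ∣ 30 by norm_num)).pow_right
      (n := 2)).dvd_of_dvd_mul_left ⟨A ^ 2 * u + 30 * A * β * s + 450 * s ^ 2 - 30 * M, ?_⟩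
    linear_combination hM + (t + A * β + 30 * s) * hs + A ^ 2 * hu

lemma muP_eq {n p : ℕ} (hn : n.Coprime 30) (hp : p ∈ n.primeFactors) {t a e : ℤ}
    (h : (p : ℤ) ^ 2 ∣ t ^ 2 - 60 * (a * e)) :
    (∑ k ∈ range p, if (p : ℤ) ∣ t - 30 * a * k ∧ (p : ℤ) ^ 2 ∣ 15 * a * k ^ 2 - t * k + e then
      J((k : ℤ) | p) else 0) = muP p t a e := by
  have hp' := Nat.prime_of_mem_primeFactors hp
  have hp2 := Nat.prime_iff_prime_int.mp hp'
  have h30 : ¬ (p : ℤ) ∣ 30 := fun h => hp'.not_dvd_one (hn ▸ Nat.dvd_gcd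
    (Nat.dvd_of_mem_primeFactors hp) (by exact_mod_cast h))
  unfold muP
  split_ifs with ht ha
  · obtain ⟨t, rfl⟩ := ht
    obtain ⟨⟨a, rfl⟩, e, rfl⟩ := ha
    simp only [Int.mul_ediv_cancel_left _ hp2.ne_zero]
    refine sum_congr rfl fun k _ => if_congr ?_ rfl rfl
    rw [show 15 * (p * a) * k ^ 2 - p * t * k + p * e = p * (15 * a * (k : ℤ) ^ 2 - t * k + e) by
      ring, sq, mul_dvd_mul_iff_left hp2.ne_zero]
    exact and_iff_right ⟨t - 30 * a * k, by ring⟩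
  · refine sum_eq_zero fun k _ => ?_
    split_ifs with hk
    · rcases hp2.dvd_or_dvd ((dvd_sub_right ht).mp hk.1) with h1 | h1
      · have h2 := (hp2.dvd_or_dvd h1).resolve_left h30
        exact (ha ⟨h2, (dvd_add_right (((h2.mul_left _).mul_right _).sub (ht.mul_right _))).mp
          ((dvd_pow_self _ two_ne_zero).trans hk.2)⟩).elim
      · exact jac_zero_of_dvd hp' h1
    · rfl
  by_cases ha : (p : ℤ) ∣ a
  · rw [jac_zero_of_dvd hp' ((ha.mul_left _).mul_right _)]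
    exact sum_eq_zero fun k _ => if_neg fun hk =>
      ht ((dvd_sub_left ((ha.mul_left _).mul_right _)).mp hk.1)
  have h1 : ¬ (p : ℤ) ∣ 30 * a := fun h => (hp2.dvd_or_dvd h).elim h30 ha
  have := Fact.mk hp'
  have h2 : ∀ k : ℤ, ((p : ℤ) ∣ t - 30 * a * k ∧ (p : ℤ) ^ 2 ∣ 15 * a * k ^ 2 - t * k + e) ↔
      (k : ZMod p) = t / (30 * a : ℤ) := fun k => by
    rw [eq_div_iff ((ZMod.intCast_zmod_eq_zero_iff_dvd _ p).not.mpr h1), ← Int.cast_mul,
      ZMod.intCast_eq_intCast_iff_dvd_sub, mul_comm k]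
    refine and_iff_left_of_imp fun hk => ?_
    refine ((hp2.coprime_iff_not_dvd.mpr h1).pow (n := 2)).dvd_of_dvd_mul_left ?_
    rw [show (30 * a) ^ 2 * (15 * a * k ^ 2 - t * k + e) =
      15 * a * ((t - 30 * a * k) ^ 2 - (t ^ 2 - 60 * (a * e))) by ring]
    exact ((pow_dvd_pow_of_dvd hk 2).sub h).mul_left _
  simp only [h2, jac_eq, Int.cast_natCast]
  rw [sum_range_zmod p fun x => if x = t / (30 * a : ℤ) then quadraticChar (ZMod p) x else 0,
    sum_ite_eq' , if_pos (mem_univ _), Int.cast_mul _ t]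
  have h3 := (ZMod.intCast_zmod_eq_zero_iff_dvd _ p).not.mpr h1
  generalize ((30 * a : ℤ) : ZMod p) = u at h3
  rw [show u * t = u ^ 2 * (t / u) by field_simp, map_mul, map_pow, quadraticChar_sq_one h3,
    one_mul]

lemma sum_line {A : ℕ} (hA : Squarefree A) (h30 : A.Coprime 30) {t a e : ℤ}
    (h : (A : ℤ) ^ 2 ∣ t ^ 2 - 60 * (a * e)) :
    (∑ k ∈ range A, if (A : ℤ) ∣ t - 30 * a * k ∧ (A : ℤ) ^ 2 ∣ 15 * a * k ^ 2 - t * k + e then
      J((k : ℤ) | A) else 0) = ∏ p ∈ A.primeFactors, muP p t a e := by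
  rw [← prod_congr rfl fun p hp => muP_eq h30 hp ((pow_dvd_pow_of_dvd
      (Int.natCast_dvd_natCast.mpr (Nat.dvd_of_mem_primeFactors hp)) 2).trans h),
    ← crt_prod _ (fun p hp => Nat.prime_of_mem_primeFactors hp) _ fun p _ x => ?_,
    Nat.prod_primeFactors_of_squarefree hA]
  · refine sum_congr rfl fun k _ => ?_
    rw [prod_ite_zero, jac_eq_prod _ hA]
    refine if_congr ⟨fun hk p hp => ?_, fun hk => ⟨(sqfree_dvd_iff hA _).mpr fun p hp =>
      (hk p hp).1, ?_⟩⟩ rfl rfl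
    · have := Int.natCast_dvd_natCast.mpr (Nat.dvd_of_mem_primeFactors hp)
      exact ⟨this.trans hk.1, (pow_dvd_pow_of_dvd this 2).trans hk.2⟩
    · rw [← Nat.prod_primeFactors_of_squarefree hA, Nat.cast_prod, ← prod_pow]
      exact prod_dvd_of_coprime (fun p hp q hq hpq => (Nat.isCoprime_iff_coprime.2
        ((Nat.coprime_primes (Nat.prime_of_mem_primeFactors hp)
          (Nat.prime_of_mem_primeFactors hq)).2 hpq)).pow) fun p hp => (hk p hp).2
  · have e1 : (x : ℤ) = (x % p : ℕ) + p * (x / p : ℕ) := by exact_mod_cast (Nat.mod_add_div x p).symm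
    rw [e1, jacobiSym.mod_left (_ + _), Int.add_mul_emod_self_left, ← jacobiSym.mod_left]
    generalize ((x % p : ℕ) : ℤ) = y
    generalize ((x / p : ℕ) : ℤ) = j
    refine if_congr ?_ rfl rfl
    rw [show t - 30 * a * (y + p * j) = t - 30 * a * y - p * (30 * a * j) by ring,
      dvd_sub_left (dvd_mul_right _ _)]
    refine and_congr_right fun ⟨c, hc⟩ => ?_
    rw [show 15 * a * (y + p * j) ^ 2 - t * (y + p * j) + e =
      15 * a * y ^ 2 - t * y + e + p ^ 2 * (15 * a * j ^ 2 - j * c) by linear_combination -p * j * hc,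
      dvd_add_left (dvd_mul_right _ _)]

/-- The normal form of the count of pairs of a line and a form. -/
theorem sum_lines {K : Type*} [CommRing K] {A B : ℕ} (hn : Good (A * B)) {D β t M : ℤ}
    (hD : (B : ℤ) ∣ D) (hM : 60 * M = t ^ 2 - A ^ 2 * D) (h0 : M ≠ 0) (hβ : 30 ∣ t - A * β)
    (φ : ℤ → ℤ → K) :
    ∑ k ∈ range A, (J((k : ℤ) | A) : K) * ∑ᶠ R : Fm, (if fbil (0, A, -(k : ℤ)) R = t then
        (wG B D β R : K) * φ (R.1 / 15) (fval R k A) else 0) =
      ∑ x ∈ M.divisorsAntidiag, (muW A B t x.1 x.2 : K) * φ x.1 x.2 := by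
  simp only [line_fix hn hD hM h0 hβ, mul_sum]
  rw [sum_comm]
  refine sum_congr rfl fun x hx => ?_
  rw [muW, ← sum_line hn.sqf.of_mul_left (Nat.Coprime.coprime_mul_right (Good.coprime30 hn))
    ⟨D, by rw [(Int.mem_divisorsAntidiag.mp hx).1, hM]; ring⟩, Int.cast_mul, Int.cast_sum, mul_assoc,
    sum_mul]
  refine sum_congr rfl fun k _ => ?_
  split_ifs <;> simp

/-- No pairs exist if the orientation does not fit. -/
theorem wG_eq_zero {A k D β t : ℤ} {B : ℕ} (hβ : ¬ 30 ∣ t - A * β) {R : Fm}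
    (h : fbil (0, A, -k) R = t) : wG B D β R = 0 := if_neg fun ⟨⟨a, ha⟩, _, b, hb⟩ => hβ
  ⟨A * b + k * a, by simp only [fbil] at h; linear_combination -h + A * hb + 2 * k * ha⟩

end Pool.Agent.Lib.MP_696deb_nt
end
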