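import Mathlib

set_option autoImplicit false

open Finset

namespace Pool.Agent.Lib.MP_696deb_nt

/-- A number that is a square modulo each prime factor of a squarefree modulus is a square. -/
theorem exists_sq_mod_of_primes (b : ℤ) : ∀ a : ℕ, Squarefree a →
    (∀ p : ℕ, p.Prime → p ∣ a → IsSquare (b : ZMod p)) → ∃ r : ℤ, (a : ℤ) ∣ r ^ 2 - b := by
  intro a
  induction a using induction_on_primes with
  | zero => intro h; exact absurd rfl h.ne_zero
  | one => intro _ _; exact ⟨0, by simp⟩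
  | prime_mul p a hp ih =>
    intro hsq h
    have hcop : Nat.Coprime p a := Nat.coprime_of_squarefree_mul hsq
    obtain ⟨r, hr⟩ := ih hsq.of_mul_right fun q hq hqa => h q hq (hqa.mul_left p)
    obtain ⟨s, hs⟩ := h p hp (Dvd.intro _ rfl)
    obtain ⟨s', rfl⟩ := ZMod.intCast_surjective s
    have hs' : (p : ℤ) ∣ s' ^ 2 - b := by
      rw [← ZMod.intCast_zmod_eq_zero_iff_dvd]; push_cast; rw [hs]; ring
    have hc : IsCoprime (p : ℤ) (a : ℤ) := Nat.isCoprime_iff_coprime.mpr hcop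
    obtain ⟨u, v, huv⟩ := hc
    refine ⟨r * u * p + s' * v * a, ?_⟩
    push_cast
    refine IsCoprime.mul_dvd ⟨u, v, huv⟩ ?_ ?_
    · have : (r * u * p + s' * v * a) ^ 2 - b = (s' ^ 2 - b) +
          p * ((r - s') * u * (r * u * p + s' * v * a + s')) := by
        linear_combination (s' * (r * u * p + s' * v * a + s')) * huv
      rw [this]; exact dvd_add hs' (Dvd.intro _ rfl)
    · have : (r * u * p + s' * v * a) ^ 2 - b = (r ^ 2 - b) +
          a * ((s' - r) * v * (r * u * p + s' * v * a + r)) := by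
        linear_combination (r * (r * u * p + s' * v * a + r)) * huv
      rw [this]; exact dvd_add hr (Dvd.intro _ rfl)

theorem sq_lt_of_abs_le_sqrt {B : ℕ} (hB : Squarefree B) (h1 : 1 < B) {u v : ℕ}
    (hu : u < B.sqrt + 1) (hv : v < B.sqrt + 1) : ((u : ℤ) - v) ^ 2 < B := by
  have h2 : B.sqrt * B.sqrt ≤ B := Nat.sqrt_le B
  have h3 : B.sqrt * B.sqrt ≠ B := by
    intro h
    have := hB B.sqrt ⟨1, by rw [h, mul_one]⟩
    rw [Nat.isUnit_iff] at this
    rw [this] at h; omega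
  have h4 : (B.sqrt : ℤ) * B.sqrt < B := by exact_mod_cast lt_of_le_of_ne h2 h3
  have h5 : |(u : ℤ) - v| ≤ B.sqrt := by rw [abs_le]; constructor <;> omega
  have := sq_le_sq' (abs_le.mp h5).1 (abs_le.mp h5).2
  nlinarith

/-- Legendre's theorem for `a x^2 + b y^2 = z^2`. -/
theorem legendre_conic {A B : ℕ} (hAB : Squarefree (A * B)) (hA : 1 < A) (hB : 1 < B)
    {r s : ℤ} (hr : (A : ℤ) ∣ r ^ 2 - B) (hs : (B : ℤ) ∣ s ^ 2 - A) :
    ∃ x y z : ℤ, IsCoprime x y ∧ A * x ^ 2 + B * y ^ 2 = z ^ 2 := by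
  have : NeZero A := ⟨by omega⟩
  have : NeZero B := ⟨by omega⟩
  have step : ∃ x y z : ℤ, ¬ (x = 0 ∧ y = 0) ∧ A * x ^ 2 + B * y ^ 2 = z ^ 2 := by
    let S := range (B.sqrt + 1) ×ˢ range (A.sqrt + 1) ×ˢ range ((A * B).sqrt + 1)
    let f : ℕ × ℕ × ℕ → ZMod A × ZMod B := fun t =>
      (((t.2.2 - r * t.2.1 : ℤ) : ZMod A), ((t.2.2 - s * t.1 : ℤ) : ZMod B))
    have hcard : (univ : Finset (ZMod A × ZMod B)).card < S.card := by
      simp only [S, card_univ, Fintype.card_prod, ZMod.card, card_product, card_range]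
      have e1 := Nat.lt_succ_sqrt A
      have e2 := Nat.lt_succ_sqrt B
      have e3 := Nat.lt_succ_sqrt (A * B)
      simp only [Nat.succ_eq_add_one] at e1 e2 e3
      apply Nat.mul_self_lt_mul_self_iff.mp
      calc A * B * (A * B) < ((A.sqrt + 1) * (A.sqrt + 1)) * ((B.sqrt + 1) * (B.sqrt + 1)) *
            (((A * B).sqrt + 1) * ((A * B).sqrt + 1)) :=
            Nat.mul_lt_mul'' (Nat.mul_lt_mul'' e1 e2) e3
        _ = _ := by ring
    obtain ⟨⟨x1, y1, z1⟩, h1, ⟨x2, y2, z2⟩, h2, hne, heq⟩ :=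
      exists_ne_map_eq_of_card_lt_of_maps_to hcard (f := f) (fun _ _ => mem_univ _)
    simp only [S, mem_product, mem_range] at h1 h2
    simp only [f, Prod.mk.injEq] at heq
    rw [ZMod.intCast_eq_intCast_iff_dvd_sub, ZMod.intCast_eq_intCast_iff_dvd_sub] at heq
    set x : ℤ := x2 - x1 with hx
    set y : ℤ := y2 - y1 with hy
    set z : ℤ := z2 - z1 with hz
    have bx : x ^ 2 < B := sq_lt_of_abs_le_sqrt hAB.of_mul_right hB h2.1 h1.1
    have by' : y ^ 2 < A := sq_lt_of_abs_le_sqrt hAB.of_mul_left hA h2.2.1 h1.2.1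
    have bz : z ^ 2 < (A * B : ℕ) := sq_lt_of_abs_le_sqrt hAB (by nlinarith) h2.2.2 h1.2.2
    push_cast at bz
    have dA : (A : ℤ) ∣ z - r * y := by convert heq.1 using 1; rw [hz, hy]; ring
    have dB : (B : ℤ) ∣ z - s * x := by convert heq.2 using 1; rw [hz, hx]; ring
    have hc : IsCoprime (A : ℤ) (B : ℤ) :=
      Nat.isCoprime_iff_coprime.mpr (Nat.coprime_of_squarefree_mul hAB)
    have hF : (A : ℤ) * B ∣ A * x ^ 2 + B * y ^ 2 - z ^ 2 := by
      refine hc.mul_dvd ?_ ?_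
      · have : A * x ^ 2 + B * y ^ 2 - z ^ 2 =
            A * x ^ 2 - (r ^ 2 - B) * y ^ 2 - (z - r * y) * (z + r * y) := by ring
        rw [this]
        exact dvd_sub (dvd_sub (Dvd.intro _ rfl) (hr.mul_right _)) (dA.mul_right _)
      · have : A * x ^ 2 + B * y ^ 2 - z ^ 2 =
            B * y ^ 2 - (s ^ 2 - A) * x ^ 2 - (z - s * x) * (z + s * x) := by ring
        rw [this]
        exact dvd_sub (dvd_sub (Dvd.intro _ rfl) (hs.mul_right _)) (dB.mul_right _)
    obtain ⟨k, hk⟩ := hF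
    have hA' : (0 : ℤ) < A := by exact_mod_cast (by omega : 0 < A)
    have hB' : (0 : ℤ) < B := by exact_mod_cast (by omega : 0 < B)
    have hABp : (0 : ℤ) < A * B := by positivity
    have k1 : -1 < k := by
      by_contra h
      have : k ≤ -1 := by omega
      nlinarith [sq_nonneg x, sq_nonneg y, mul_nonneg hA'.le (sq_nonneg x),
        mul_nonneg hB'.le (sq_nonneg y)]
    have k2 : k < 2 := by
      by_contra h
      have : 2 ≤ k := by omega
      nlinarith [sq_nonneg z, mul_lt_mul_of_pos_left bx hA', mul_lt_mul_of_pos_left by' hB']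
    obtain rfl | rfl : k = 0 ∨ k = 1 := by omega
    · refine ⟨x, y, z, ?_, by linear_combination hk⟩
      rintro ⟨hx0, hy0⟩
      have hz0 : z = 0 := by
        rw [hx0, hy0] at hk
        exact pow_eq_zero_iff two_ne_zero |>.mp (by linear_combination -hk)
      apply hne
      simp only [Prod.mk.injEq]
      omega
    · have key : A * (x * z + B * y) ^ 2 + B * (y * z - A * x) ^ 2 = (z ^ 2 + A * B) ^ 2 := by
        linear_combination (z ^ 2 + A * B) * hk
      refine ⟨_, _, _, ?_, key⟩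
      rintro ⟨hx0, hy0⟩
      rw [hx0, hy0] at key
      have : 0 < z ^ 2 + A * B := by positivity
      nlinarith
  obtain ⟨x, y, z, hne, h⟩ := step
  have hg : 0 < Int.gcd x y := Int.gcd_pos_iff.mpr (by tauto)
  obtain ⟨g, x', y', hg0, hcop, rfl, rfl⟩ := Int.exists_gcd_one' hg
  have : (g : ℤ) ∣ z := by
    rw [← Int.pow_dvd_pow_iff two_ne_zero, ← h]
    exact ⟨A * x' ^ 2 + B * y' ^ 2, by ring⟩
  obtain ⟨z', rfl⟩ := this
  refine ⟨x', y', z', Int.isCoprime_iff_gcd_eq_one.mpr hcop, ?_⟩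
  have hg' : (g : ℤ) ≠ 0 := by exact_mod_cast hg0.ne'
  apply mul_left_cancel₀ (pow_ne_zero 2 hg')
  linear_combination h

end Pool.Agent.Lib.MP_696deb_nt
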