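import Pool.Agent.Lib.MP_696deb_nt.Redei
import Pool.Agent.Lib.MP_696deb_nt.Legendre

set_option autoImplicit false

open NumberField Polynomial

namespace Pool.Agent.Lib.MP_696deb_nt

section Quadratic

variable {K : Type*} [Field K] [NumberField K] {δ : K} {n : ℤ}

theorem lin_indep (hn : 0 < n) (hδ : δ ^ 2 = -n) : LinearIndependent ℚ ![(1 : K), δ] := by
  rw [LinearIndependent.pair_iff]
  intro s t h
  simp only [Algebra.smul_def, eq_ratCast, mul_one] at h
  have h1 : ((s ^ 2 + n * t ^ 2 : ℚ) : K) = 0 := by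
    push_cast
    linear_combination ((s : K) - t * δ) * h + (t : K) ^ 2 * hδ
  have h2 : s ^ 2 + n * t ^ 2 = 0 := by exact_mod_cast h1
  have hn' : (0 : ℚ) < n := by exact_mod_cast hn
  have ht : t = 0 := by
    by_contra h0
    have : 0 < n * t ^ 2 := by positivity
    nlinarith [sq_nonneg s]
  subst ht
  exact ⟨by simpa using h2, rfl⟩

theorem exists_basis (hK : Module.finrank ℚ K = 2) (hn : 0 < n) (hδ : δ ^ 2 = -n) :
    ∃ b : Module.Basis (Fin 2) ℚ K, b 0 = 1 ∧ b 1 = δ := by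
  have hli : LinearIndependent ℚ ![(1 : K), δ] := lin_indep hn hδ
  have hc : Fintype.card (Fin 2) = Module.finrank ℚ K := (Fintype.card_fin 2).trans hK.symm
  refine ⟨basisOfLinearIndependentOfCardEqFinrank' _ hli hc, ?_, ?_⟩ <;> simp

theorem exists_coords (hK : Module.finrank ℚ K = 2) (hn : 0 < n) (hδ : δ ^ 2 = -n) (z : K) :
    ∃ r s : ℚ, z = r + s * δ := by
  obtain ⟨b, b0, b1⟩ := exists_basis hK hn hδ
  refine ⟨b.repr z 0, b.repr z 1, ?_⟩
  conv_lhs => rw [← b.sum_repr z]
  simp [b0, b1, Fin.sum_univ_two, Algebra.smul_def]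

theorem exists_conj (hK : Module.finrank ℚ K = 2) (hn : 0 < n) (hδ : δ ^ 2 = -n) :
    ∃ σ : K →+* K, σ δ = -δ := by
  obtain ⟨b, b0, b1⟩ := exists_basis hK hn hδ
  let L : K →ₗ[ℚ] K := b.constr ℚ ![1, -δ]
  have h0 : L 1 = 1 := by
    have := b.constr_basis ℚ ![1, -δ] 0
    rwa [b0] at this
  have h1 : L δ = -δ := by
    have := b.constr_basis ℚ ![1, -δ] 1
    rwa [b1] at this
  have hL : ∀ r s : ℚ, L (r + s * δ) = r - s * δ := by
    intro r s
    have : (r : K) + s * δ = r • (1 : K) + s • δ := by simp [Algebra.smul_def]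
    rw [this, map_add, map_smul, map_smul, h0, h1]
    simp [Algebra.smul_def, sub_eq_add_neg]
  refine ⟨{ toFun := L, map_one' := h0, map_zero' := map_zero L, map_add' := map_add L,
            map_mul' := ?_ }, h1⟩
  intro x y
  obtain ⟨r, s, rfl⟩ := exists_coords hK hn hδ x
  obtain ⟨r', s', rfl⟩ := exists_coords hK hn hδ y
  have : ((r : K) + s * δ) * (r' + s' * δ) =
      ((r * r' - n * s * s' : ℚ) : K) + ((r * s' + s * r' : ℚ) : K) * δ := by
    push_cast; linear_combination ((s : K) * s') * hδ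
  rw [this, hL, hL, hL]
  push_cast; linear_combination (-(s : K) * s') * hδ

theorem int_of_isIntegral {q : ℚ} (h : IsIntegral ℤ (q : K)) : ∃ a : ℤ, q = a := by
  have : IsIntegral ℤ q := (isIntegral_algebraMap_iff (algebraMap ℚ K).injective).mp h
  obtain ⟨a, ha⟩ := IsIntegrallyClosed.isIntegral_iff.mp this
  exact ⟨a, ha.symm⟩

theorem integral_coords (hK : Module.finrank ℚ K = 2) (hn : 0 < n) (hδ : δ ^ 2 = -n) {r s : ℚ}
    (h : IsIntegral ℤ ((r : K) + s * δ)) :
    (∃ a : ℤ, 2 * r = a) ∧ ∃ b : ℤ, r ^ 2 + n * s ^ 2 = b := by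
  obtain ⟨σ, hσ⟩ := exists_conj hK hn hδ
  have h' : IsIntegral ℤ ((r : K) - s * δ) := by
    have := map_isIntegral_int σ h
    simpa [hσ, sub_eq_add_neg] using this
  constructor
  · apply int_of_isIntegral (K := K)
    have e : ((2 * r : ℚ) : K) = (r + s * δ) + (r - s * δ) := by push_cast; ring
    rw [e]; exact h.add h'
  · apply int_of_isIntegral (K := K)
    have e : ((r ^ 2 + n * s ^ 2 : ℚ) : K) = (r + s * δ) * (r - s * δ) := by
      push_cast; linear_combination ((s : K) ^ 2) * hδ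
    rw [e]; exact h.mul h'

theorem int_of_squarefree_mul_sq (hn : Squarefree n) {q : ℚ} {k : ℤ} (h : n * q ^ 2 = k) :
    ∃ a : ℤ, q = a := by
  have h1 : n * q.num ^ 2 = k * (q.den : ℤ) ^ 2 := by
    have : (n : ℚ) * q.num ^ 2 = k * (q.den : ℚ) ^ 2 := by
      rw [← Rat.mul_den_eq_num, ← h]; ring
    exact_mod_cast this
  have hc : IsCoprime ((q.den : ℤ) ^ 2) (q.num ^ 2) := by
    apply IsCoprime.pow
    rw [Int.isCoprime_iff_gcd_eq_one, Int.gcd_comm]; exact q.reduced
  have h2 : (q.den : ℤ) * q.den ∣ n := by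
    rw [← pow_two]
    exact hc.dvd_of_dvd_mul_right ⟨k, by rw [h1]; ring⟩
  have h3 := hn _ h2
  rw [Int.isUnit_iff] at h3
  have h4 : q.den = 1 := by omega
  exact ⟨q.num, ((Rat.den_eq_one_iff q).mp h4).symm⟩

/-- `d` times a unit is not a square when `d` is a proper divisor of `n`. -/
theorem not_sq_unit_mul (hK : Module.finrank ℚ K = 2) (hn : 0 < n) (hδ : δ ^ 2 = -n)
    (hsq : Squarefree n) (hodd : n % 2 = 1) {d d' : ℤ} (hdd : d * d' = n) (hd : 1 < d)
    (hd' : 1 < d') {u v θ : K} (hu : IsIntegral ℤ u) (hv : IsIntegral ℤ v) (huv : u * v = 1)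
    (hθ : θ ^ 2 = d * u) : False := by
  have hθi : IsIntegral ℤ θ := by
    refine IsIntegral.of_pow two_pos ?_
    rw [hθ]; exact (isIntegral_intCast d).mul hu
  obtain ⟨r, s, rfl⟩ := exists_coords hK hn hδ θ
  obtain ⟨⟨T, hT⟩, M, hM⟩ := integral_coords hK hn hδ hθi
  have hdK : (d : K) ≠ 0 := by exact_mod_cast (by omega : d ≠ 0)
  have hdQ : (d : ℚ) ≠ 0 := by exact_mod_cast (by omega : d ≠ 0)
  have hMK : ((r : K) + s * δ) * (r - s * δ) = M := by
    have : ((r ^ 2 + n * s ^ 2 : ℚ) : K) = M := by rw [hM]; simp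
    push_cast at this
    linear_combination this - (s : K) ^ 2 * hδ
  have hM0 : M ≠ 0 := by
    intro h0
    have hn' : (0 : ℚ) < n := by exact_mod_cast hn
    rw [h0] at hM
    have hs : s = 0 := by
      by_contra h1
      have : 0 < n * s ^ 2 := by positivity
      push_cast at hM
      nlinarith [sq_nonneg r]
    have hr : r = 0 := by
      rw [hs] at hM
      exact pow_eq_zero_iff two_ne_zero |>.mp (by simpa using hM)
    rw [hr, hs] at hθ
    have : u = 0 := by
      apply mul_left_cancel₀ hdK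
      rw [← hθ]; simp
    rw [this] at huv; simp at huv
  have hMQ : (M : ℚ) ≠ 0 := by exact_mod_cast hM0
  have hMK0 : (M : K) ≠ 0 := by exact_mod_cast hM0
  have eu : u = (((r ^ 2 - n * s ^ 2) / d : ℚ) : K) + ((2 * r * s / d : ℚ) : K) * δ := by
    push_cast
    field_simp
    linear_combination -hθ + (s : K) ^ 2 * hδ
  have ev : v = ((d * (r ^ 2 - n * s ^ 2) / M ^ 2 : ℚ) : K) +
      ((-(d * (2 * r * s)) / M ^ 2 : ℚ) : K) * δ := by
    push_cast
    field_simp
    have h1 : ((r : K) + s * δ) ^ 2 * v = d := by rw [hθ, mul_assoc, huv, mul_one]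
    linear_combination (-v * (M + (r + s * δ) * (r - s * δ))) * hMK + (r - s * δ) ^ 2 * h1 +
      (d * (s : K) ^ 2) * hδ
  rw [eu] at hu
  rw [ev] at hv
  obtain ⟨-, a, ha⟩ := integral_coords hK hn hδ hu
  obtain ⟨-, b, hb⟩ := integral_coords hK hn hδ hv
  have ha' : (M : ℚ) ^ 2 = a * d ^ 2 := by
    rw [← ha, ← hM]; field_simp; ring
  have hb' : (d : ℚ) ^ 2 = b * M ^ 2 := by
    rw [← hb]; field_simp; rw [← hM]; ring
  have ha'' : M ^ 2 = a * d ^ 2 := by exact_mod_cast ha'
  have hb'' : d ^ 2 = b * M ^ 2 := by exact_mod_cast hb'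
  have hMpos : 0 ≤ M := by
    have hn' : (0 : ℚ) < n := by exact_mod_cast hn
    have : (0 : ℚ) ≤ M := by rw [← hM]; positivity
    exact_mod_cast this
  have hMd : M = d := by
    have : M ^ 2 = d ^ 2 := Int.dvd_antisymm (sq_nonneg _) (sq_nonneg _) ⟨b, by rw [hb'']; ring⟩
      ⟨a, by rw [ha'']; ring⟩
    exact (pow_left_inj₀ hMpos (by omega) two_ne_zero).mp this
  obtain ⟨S, hS⟩ := int_of_squarefree_mul_sq hsq (q := 2 * s) (k := 4 * d - T ^ 2) (by
    push_cast; rw [← hT, ← hMd, ← hM]; ring)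
  have e : T ^ 2 + n * S ^ 2 = 4 * d := by
    have : (T : ℚ) ^ 2 + n * S ^ 2 = 4 * d := by rw [← hT, ← hS, ← hMd, ← hM]; ring
    exact_mod_cast this
  have hdsq : Squarefree d := (hdd ▸ hsq).of_mul_left
  obtain ⟨R, rfl⟩ : d ∣ T := (hdsq.dvd_pow_iff_dvd two_ne_zero).mp
    ⟨4 - d' * S ^ 2, by rw [← hdd] at e; linear_combination e⟩
  have e2 : d * R ^ 2 + d' * S ^ 2 = 4 := by
    apply mul_left_cancel₀ (by omega : d ≠ 0)
    rw [← hdd] at e; linear_combination e
  have o1 : d % 2 = 1 := by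
    by_contra h
    have : (2 : ℤ) ∣ n := hdd ▸ Dvd.dvd.mul_right (by omega) _
    omega
  have o2 : d' % 2 = 1 := by
    by_contra h
    have : (2 : ℤ) ∣ n := hdd ▸ Dvd.dvd.mul_left (by omega) _
    omega
  have odd4 : ∀ e t : ℤ, 1 < e → e % 2 = 1 → e * t ^ 2 ≠ 4 := by
    intro e t h1 h2 h3
    have : e ≤ 4 := Int.le_of_dvd (by norm_num) ⟨_, h3.symm⟩
    obtain rfl : e = 3 := by omega
    omega
  by_cases hR : R = 0
  · exact odd4 d' S hd' o2 (by rw [hR] at e2; linear_combination e2)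
  by_cases hS0 : S = 0
  · exact odd4 d R hd o1 (by rw [hS0] at e2; linear_combination e2)
  have p1 : 0 < R ^ 2 := by positivity
  have p2 : 0 < S ^ 2 := by positivity
  have p3 : d ≤ d * R ^ 2 := le_mul_of_one_le_right (by omega) p1
  have p4 : d' ≤ d' * S ^ 2 := le_mul_of_one_le_right (by omega) p2
  omega

theorem isIntegral_of_quadratic {β : K} {T W : ℤ} (h : β ^ 2 - T * β + W = 0) :
    IsIntegral ℤ β := by
  refine ⟨X ^ 2 - C T * X + C W, ?_, ?_⟩
  · monicity!
  · rw [eval₂_add, eval₂_sub, eval₂_mul, eval₂_C, eval₂_C, eval₂_X_pow, eval₂_X]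
    simpa using h

/-- An element of order four in the class group from a suitable integer `β`. -/
theorem exists_orderOf_four {β β' : K} {T W : ℤ} (hs : β + β' = T) (hp : β * β' = W ^ 4)
    (hW : W ≠ 0) (hc : IsCoprime T W)
    (hns : ∀ u v γ : K, IsIntegral ℤ u → IsIntegral ℤ v → u * v = 1 → β ≠ γ ^ 2 * u) :
    ∃ c : ClassGroup (𝓞 K), orderOf c = 4 := by
  classical
  have i1 : IsIntegral ℤ β := isIntegral_of_quadratic (T := T) (W := W ^ 4) (by
    push_cast; linear_combination (β) * hs - hp)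
  have i2 : IsIntegral ℤ β' := isIntegral_of_quadratic (T := T) (W := W ^ 4) (by
    push_cast; linear_combination (β') * hs - hp)
  let b : 𝓞 K := ⟨β, i1⟩
  let b' : 𝓞 K := ⟨β', i2⟩
  have eb : algebraMap (𝓞 K) K b = β := rfl
  have eb' : algebraMap (𝓞 K) K b' = β' := rfl
  have hs' : b + b' = T := by ext; simpa [eb, eb'] using hs
  have hp' : b * b' = (W : 𝓞 K) ^ 4 := by ext; simpa [eb, eb'] using hp
  have hcop : IsCoprime b b' := by
    obtain ⟨x, y, hxy⟩ := hc.pow_right (n := 4)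
    refine ⟨x + y * b', x, ?_⟩
    have := congrArg (Int.cast : ℤ → 𝓞 K) hxy
    push_cast at this
    linear_combination this + x * hs' + y * hp'
  have hI : IsCoprime (Ideal.span {b}) (Ideal.span {b'}) :=
    (Ideal.isCoprime_span_singleton_iff _ _).mpr hcop
  obtain ⟨I, hI4⟩ := exists_eq_pow_of_mul_eq_pow_of_coprime hI (c := Ideal.span {(W : 𝓞 K)})
    (n := 4) (by rw [Ideal.span_singleton_mul_span_singleton, hp', Ideal.span_singleton_pow])
  have hb0 : b ≠ 0 := by
    intro h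
    rw [h, zero_mul] at hp'
    exact pow_ne_zero 4 (by exact_mod_cast hW) hp'.symm
  have hI0 : I ≠ 0 := by
    rintro rfl
    rw [zero_pow (by norm_num), Ideal.zero_eq_bot, Ideal.span_singleton_eq_bot] at hI4
    exact hb0 hI4
  have hmem : I ∈ nonZeroDivisors (Ideal (𝓞 K)) := mem_nonZeroDivisors_of_ne_zero hI0
  refine ⟨ClassGroup.mk0 ⟨I, hmem⟩, ?_⟩
  have := Fact.mk Nat.prime_two
  refine orderOf_eq_prime_pow (p := 2) (n := 1) ?_ ?_
  · rw [← map_pow]
    intro h
    have h' : ClassGroup.mk0 ⟨I ^ 2, pow_mem hmem 2⟩ = 1 := h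
    rw [ClassGroup.mk0_eq_one_iff] at h'
    obtain ⟨γ, hγ⟩ := h'
    have : Ideal.span {γ ^ 2} = Ideal.span {b} := by
      rw [hI4, ← Ideal.span_singleton_pow, show 4 = 2 * 2 from rfl, pow_mul, hγ]
    obtain ⟨u, hu⟩ := Ideal.span_singleton_eq_span_singleton.mp this
    refine hns (u : 𝓞 K) ((u⁻¹ : (𝓞 K)ˣ) : 𝓞 K) γ (RingOfIntegers.isIntegral_coe _)
      (RingOfIntegers.isIntegral_coe _) ?_ ?_
    · rw [← map_mul]; simp
    · have := congrArg (algebraMap (𝓞 K) K) hu
      rw [eb, map_mul, map_pow] at this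
      exact this.symm
  · rw [← map_pow]
    have h' : ClassGroup.mk0 ⟨I ^ 4, pow_mem hmem 4⟩ = 1 := by
      rw [ClassGroup.mk0_eq_one_iff, ← hI4]
      exact ⟨b, rfl⟩
    exact h'

end Quadratic

/-- Redei-Reichardt: without ideal classes of order four the Redei condition holds. -/
theorem condB_of_no_order_four {K : Type*} [Field K] [NumberField K] {N : ℕ}
    (hK : Module.finrank ℚ K = 2) {δ : K} (hδ : δ ^ 2 = -N) (hN : Squarefree N) (h4 : N % 4 = 3)
    (h : ∀ c : ClassGroup (𝓞 K), orderOf c ≠ 4) : CondB N := by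
  intro d d' hdd hd h1 h2
  by_contra hne
  push Not at hne
  have hd' : 0 < d' := by
    by_contra h0
    have : d * d' ≤ 0 := mul_nonpos_of_nonneg_of_nonpos hd.le (by omega)
    omega
  obtain ⟨A, rfl⟩ := Int.eq_ofNat_of_zero_le hd.le
  obtain ⟨B, rfl⟩ := Int.eq_ofNat_of_zero_le hd'.le
  have hAB : A * B = N := by exact_mod_cast hdd
  have hsq : Squarefree (A * B) := hAB ▸ hN
  obtain ⟨r, hr⟩ := exists_sq_mod_of_primes B A hsq.of_mul_left fun p hp hpA =>
    h2 p hp (Int.natCast_dvd_natCast.mpr hpA)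
  obtain ⟨s, hs⟩ := exists_sq_mod_of_primes A B hsq.of_mul_right fun p hp hpB =>
    h1 p hp (Int.natCast_dvd_natCast.mpr hpB)
  obtain ⟨x, y, z, hxy, he⟩ := legendre_conic hsq (by omega) (by omega) hr hs
  have hδ' : δ ^ 2 = -((N : ℤ) : K) := by simpa using hδ
  have hδ2 : δ ^ 2 = -((A : K) * B) := by rw [hδ, ← hAB]; push_cast; ring
  have hN0 : (0 : ℤ) < N := by omega
  have hA0 : (A : K) ≠ 0 := by exact_mod_cast (by omega : A ≠ 0)
  have hz : z ≠ 0 := by
    rintro rfl
    have hx : x = 0 := by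
      by_contra hx
      have : 0 < A * x ^ 2 := by positivity
      nlinarith [mul_nonneg hd'.le (sq_nonneg y)]
    have hy : y = 0 := by
      by_contra hy
      have : 0 < B * y ^ 2 := by positivity
      nlinarith [mul_nonneg hd.le (sq_nonneg x)]
    rw [hx, hy] at hxy
    exact not_isCoprime_zero_zero hxy
  have hcAB : IsCoprime (A : ℤ) (B : ℤ) :=
    Nat.isCoprime_iff_coprime.mpr (Nat.coprime_of_squarefree_mul hsq)
  have hodd : ∀ p : ℕ, p.Prime → p ≠ 2 → (p : ℤ) ∣ A * x ^ 2 - B * y ^ 2 → (p : ℤ) ∣ z → False := by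
    intro p hp hp2 d1 d2
    have hP := Nat.prime_iff_prime_int.mp hp
    have n2 : ¬ (p : ℤ) ∣ 2 := fun h => hp2 (prime_dvd_small hp (k := 1) Nat.prime_two
      (by simpa using h))
    have d3 : (p : ℤ) * p ∣ A * x ^ 2 + B * y ^ 2 := by
      rw [he, pow_two]; exact mul_dvd_mul d2 d2
    have d4 : (p : ℤ) ∣ A * x ^ 2 + B * y ^ 2 := (Dvd.intro _ rfl).trans d3
    have d5 : (p : ℤ) ∣ A * x ^ 2 := (hP.dvd_or_dvd (a := 2) (by
      convert dvd_add d4 d1 using 1; ring)).resolve_left n2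
    have d6 : (p : ℤ) ∣ B * y ^ 2 := (hP.dvd_or_dvd (a := 2) (by
      convert dvd_sub d4 d1 using 1; ring)).resolve_left n2
    have sqA : Squarefree (A : ℤ) := Int.squarefree_natCast.mpr hsq.of_mul_left
    have sqB : Squarefree (B : ℤ) := Int.squarefree_natCast.mpr hsq.of_mul_right
    have hxy' : (p : ℤ) ∣ x → (p : ℤ) ∣ y → False := fun a b =>
      hP.not_isUnit (hxy.isUnit_of_dvd' a b)
    have fromy : (p : ℤ) ∣ y → False := by
      intro hy
      have : (p : ℤ) * p ∣ A * x ^ 2 := by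
        have := dvd_sub d3 ((mul_dvd_mul hy hy).mul_left B)
        rwa [← pow_two y, add_sub_cancel_right] at this
      exact hxy' (hP.dvd_of_dvd_pow (sqA.dvd_of_squarefree_of_mul_dvd_mul_right this)) hy
    have fromx : (p : ℤ) ∣ x → False := by
      intro hx
      have : (p : ℤ) * p ∣ B * y ^ 2 := by
        have := dvd_sub d3 ((mul_dvd_mul hx hx).mul_left A)
        rwa [← pow_two x, add_sub_cancel_left] at this
      exact hxy' hx (hP.dvd_of_dvd_pow (sqB.dvd_of_squarefree_of_mul_dvd_mul_right this))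
    rcases hP.dvd_or_dvd d5 with a | a
    · rcases hP.dvd_or_dvd d6 with b | b
      · exact hP.not_isUnit (hcAB.isUnit_of_dvd' a b)
      · exact fromy (hP.dvd_of_dvd_pow b)
    · exact fromx (hP.dvd_of_dvd_pow a)
  have cop : ∀ T W : ℤ, (∀ p : ℕ, p.Prime → (p : ℤ) ∣ T → (p : ℤ) ∣ W → False) →
      IsCoprime T W := by
    intro T W hh
    rw [Int.isCoprime_iff_gcd_eq_one]
    exact Nat.eq_one_iff_not_exists_prime_dvd.mpr fun p hp hd =>
      hh p hp ((Int.natCast_dvd_natCast.mpr hd).trans (Int.gcd_dvd_left _ _))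
        ((Int.natCast_dvd_natCast.mpr hd).trans (Int.gcd_dvd_right _ _))
  have heK : (A : K) * x ^ 2 + B * y ^ 2 = z ^ 2 := by exact_mod_cast he
  have main : ∀ (c : K) (T W : ℤ), c ≠ 0 → c ^ 2 * T = 2 * (A * x ^ 2 - B * y ^ 2) → c * W = z →
      IsCoprime T W → False := by
    intro c T W hc hT hW hTW
    have hW0 : W ≠ 0 := by
      rintro rfl
      apply hz
      have : (z : K) = 0 := by rw [← hW]; simp
      exact_mod_cast this
    obtain ⟨cl, hcl⟩ := exists_orderOf_four (K := K)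
      (β := (A * x ^ 2 - B * y ^ 2 + 2 * x * y * δ) / c ^ 2)
      (β' := (A * x ^ 2 - B * y ^ 2 - 2 * x * y * δ) / c ^ 2) (T := T) (W := W)
      (by field_simp; linear_combination -hT)
      (by
        field_simp
        have : (c * W) ^ 4 = ((A : K) * x ^ 2 + B * y ^ 2) ^ 2 := by rw [hW, heK]; ring
        linear_combination -this - (4 * (x : K) ^ 2 * y ^ 2) * hδ2)
      hW0 hTW (by
        intro u v γ hu hv huv hβ
        have hγ : γ ≠ 0 := by
          rintro rfl
          have h0 : (A : K) * x ^ 2 - B * y ^ 2 + 2 * x * y * δ = 0 := by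
            simpa [hc] using hβ
          have : ((z : K) ^ 2) ^ 2 = 0 := by
            rw [← heK]
            linear_combination ((A : K) * x ^ 2 - B * y ^ 2 - 2 * x * y * δ) * h0 +
              (4 * (x : K) ^ 2 * y ^ 2) * hδ2
          apply hz
          exact_mod_cast pow_eq_zero_iff two_ne_zero |>.mp (pow_eq_zero_iff two_ne_zero |>.mp this)
        refine not_sq_unit_mul hK hN0 hδ' (Int.squarefree_natCast.mpr hN) (by omega) hdd
          (by omega) (by omega) hu hv huv (θ := (A * x + y * δ) / (c * γ)) ?_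
        field_simp at hβ ⊢
        push_cast
        linear_combination (A : K) * hβ + (y : K) ^ 2 * hδ2)
    exact h cl hcl
  rcases Int.emod_two_eq_zero_or_one z with hz2 | hz2
  · obtain ⟨W, rfl⟩ : ∃ W, z = 2 * W := ⟨z / 2, by omega⟩
    have oA : A % 2 = 1 := by
      by_contra h0
      have : 2 ∣ N := hAB ▸ Dvd.dvd.mul_right (by omega) _
      omega
    have oB : B % 2 = 1 := by
      by_contra h0
      have : 2 ∣ N := hAB ▸ Dvd.dvd.mul_left (by omega) _
      omega
    have hyo : y % 2 = 1 := by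
      by_contra h0
      obtain ⟨y', rfl⟩ : ∃ y', y = 2 * y' := ⟨y / 2, by omega⟩
      have : (2 : ℤ) ∣ A * x ^ 2 := ⟨2 * W ^ 2 - 2 * B * y' ^ 2, by linear_combination he⟩
      rcases Int.prime_two.dvd_or_dvd this with a | a
      · omega
      · have := hxy.isUnit_of_dvd' (Int.prime_two.dvd_of_dvd_pow a) (Dvd.intro _ rfl)
        rw [Int.isUnit_iff] at this; omega
    refine main 2 (2 * W ^ 2 - B * y ^ 2) W two_ne_zero ?_ (by push_cast; ring) ?_
    · push_cast at heK ⊢; linear_combination (-2 : K) * heK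
    · refine cop _ _ fun p hp a b => ?_
      by_cases hp2 : p = 2
      · subst hp2
        have : (2 : ℤ) ∣ B * y ^ 2 := by
          have := dvd_sub (Dvd.intro (W ^ 2) rfl) a
          push_cast at this
          rwa [sub_sub_cancel] at this
        rcases Int.prime_two.dvd_or_dvd this with a | a
        · omega
        · have := Int.prime_two.dvd_of_dvd_pow a; omega
      · refine hodd p hp hp2 ?_ (b.mul_left 2)
        have e : A * x ^ 2 - B * y ^ 2 = 2 * (2 * W ^ 2 - B * y ^ 2) := by linear_combination he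
        rw [e]; exact a.mul_left 2
  · refine main 1 (2 * (A * x ^ 2 - B * y ^ 2)) z one_ne_zero (by push_cast; ring) (by ring) ?_
    refine cop _ _ fun p hp a b => ?_
    by_cases hp2 : p = 2
    · subst hp2; omega
    · refine hodd p hp hp2 ?_ b
      refine ((Nat.prime_iff_prime_int.mp hp).dvd_or_dvd a).resolve_left fun h => hp2 ?_
      exact prime_dvd_small hp (k := 1) Nat.prime_two (by simpa using h)

/-- Rank zero for the twist of `X_0(15)` by `-N` from the class group of `Q(sqrt(-N))`. -/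
theorem finite_twist15_of_classGroup {K : Type*} [Field K] [NumberField K] {N : ℕ}
    (hK : Module.finrank ℚ K = 2) {δ : K} (hδ : δ ^ 2 = -N) (hN : Squarefree N) (h4 : N % 4 = 3)
    (h3 : N % 3 = 2) (h5 : N % 5 = 2 ∨ N % 5 = 3)
    (h : ∀ c : ClassGroup (𝓞 K), orderOf c ≠ 4) :
    Finite (twist15 (-(N : ℤ))).toAffine.Point :=
  finite_twist15_of_condB hN h4 h3 h5 (condB_of_no_order_four hK hδ hN h4 h)

end Pool.Agent.Lib.MP_696deb_nt
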