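import Pool.Agent.Lib.MP_696deb_nt.Param
import Pool.Agent.Lib.MP_696deb_nt.ClassFour

set_option autoImplicit false

open Complex

namespace Pool.Agent.Lib.MP_696deb_nt

/-- The quadratic character of discriminant `-N`, for `N` congruent to three modulo four. -/
noncomputable def xi (N : ℕ) (n : ℕ) : ℂ := ((jacobiSym (n : ℤ) N : ℤ) : ℂ)

theorem xi_one (N : ℕ) : xi N 1 = 1 := by simp [xi]

theorem xi_mul (N m n : ℕ) : xi N (m * n) = xi N m * xi N n := by
  simp [xi, jacobiSym.mul_left]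

theorem xi_cases (N n : ℕ) : xi N n = 0 ∨ xi N n = 1 ∨ xi N n = -1 := by
  rcases jacobiSym.trichotomy (n : ℤ) N with h | h | h <;> simp [xi, h]

theorem norm_xi_le (N n : ℕ) : ‖xi N n‖ ≤ 1 := by
  rcases xi_cases N n with h | h | h <;> simp [h]

theorem jacobi_eq_quadraticChar {N : ℕ} (h4 : N % 4 = 3) (p : ℕ) [hp : Fact p.Prime]
    (h2 : p ≠ 2) : jacobiSym (p : ℤ) N = quadraticChar (ZMod p) ((-(N : ℤ) : ℤ) : ZMod p) := by
  have hpo : Odd p := hp.out.odd_of_ne_two h2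
  have hNo : Odd N := Nat.odd_iff.mpr (by omega)
  change _ = legendreSym p (-(N : ℤ))
  rw [jacobiSym.legendreSym.to_jacobiSym, jacobiSym.neg _ hpo,
    jacobiSym.quadratic_reciprocity hpo hNo]
  congr 1
  have hN2 : N / 2 % 2 = 1 := by omega
  rcases Nat.odd_mod_four_iff.mp (Nat.odd_iff.mp hpo) with h | h
  · rw [ZMod.χ₄_nat_one_mod_four h]
    have : Even (p / 2 * (N / 2)) := (Nat.even_iff.mpr (by omega)).mul_right _
    exact this.neg_one_pow
  · rw [ZMod.χ₄_nat_three_mod_four h]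
    have : Odd (p / 2 * (N / 2)) := (Nat.odd_iff.mpr (by omega)).mul (Nat.odd_iff.mpr hN2)
    exact this.neg_one_pow

/-- The trace of Frobenius of the short model of the twist. -/
theorem trace_twist {N : ℕ} (h4 : N % 4 = 3) {a b : ℤ} (ha : a = -12987 * (N : ℤ) ^ 2)
    (hb : b = 263466 * (N : ℤ) ^ 3) {p : ℕ} (hp : p.Prime) (h30 : ¬ p ∣ 30) (hN : ¬ p ∣ N) :
    xi N p * a15 p = (p : ℂ) - (Nat.card {q : ZMod p × ZMod p //
      q.2 ^ 2 = q.1 ^ 3 + (a : ZMod p) * q.1 + (b : ZMod p)} : ℂ) := by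
  have := Fact.mk hp
  have h2 : p ≠ 2 := fun h => h30 (h ▸ by norm_num)
  have h3 : (3 : ZMod p) ≠ 0 := fun h =>
    h30 (((ZMod.natCast_eq_zero_iff 3 p).mp (by exact_mod_cast h)).trans (by norm_num))
  have hN' : (N : ZMod p) ≠ 0 := fun h => hN ((ZMod.natCast_eq_zero_iff N p).mp h)
  have hα : (-9 * N : ZMod p) ≠ 0 := by
    have : (-9 * N : ZMod p) = -(3 * 3 * N) := by ring
    rw [this]
    exact neg_ne_zero.mpr (mul_ne_zero (mul_ne_zero h3 h3) hN')
  have key := sub_card_short p h2 (a : ZMod p) (b : ZMod p) (-9 * N) (21 * N)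
    ((27 * N) ^ 2 * -N) hα (fun x => x * (x + 9) * (x - 16))
    (fun x => by rw [ha, hb]; push_cast; ring)
  have h27 : (27 * N : ZMod p) ≠ 0 := by
    have : (27 * N : ZMod p) = 3 * 3 * 3 * N := by ring
    rw [this]
    exact mul_ne_zero (mul_ne_zero (mul_ne_zero h3 h3) h3) hN'
  rw [map_mul, quadraticChar_sq_one' h27, one_mul, ← a15_eq_tr p h30] at key
  have hx := jacobi_eq_quadraticChar h4 p h2
  push_cast at hx
  rw [xi, hx]
  exact_mod_cast key.symm

/-- Assembly of the analytic statement from the non-vanishing of the twisted series at one. -/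
theorem exists_entire_of_ne_zero {N : ℕ} (h4 : N % 4 = 3) {a b : ℤ}
    (ha : a = -12987 * (N : ℤ) ^ 2) (hb : b = 263466 * (N : ℤ) ^ 3)
    (G : ℂ → ℂ) (hG : Differentiable ℂ G)
    (hGL : ∀ s : ℂ, (3 : ℝ) / 2 < s.re → G s = LSeries (fun n => xi N n * a15 n) s)
    (hG1 : G 1 ≠ 0) :
    ∃ F : ℂ → ℂ, Differentiable ℂ F ∧
      (∀ s : ℂ, (3 : ℝ) / 2 < s.re →
        HasProd
          (fun p : ℕ =>
            if p.Prime ∧ ¬ ((p : ℤ) ∣ 2 * (-4 * a ^ 3 - 27 * b ^ 2)) then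
              (1 - ((p : ℂ) - (Nat.card {q : ZMod p × ZMod p //
                  q.2 ^ 2 = q.1 ^ 3 + (a : ZMod p) * q.1 + (b : ZMod p)} : ℂ))
                  * (p : ℂ) ^ (-s) + (p : ℂ) ^ (1 - 2 * s))⁻¹
            else 1)
          (F s)) ∧ F 1 ≠ 0 ∧ analyticOrderAt F 1 = 0 := by
  have hM : 2 * (-4 * a ^ 3 - 27 * b ^ 2) = 2 * (81 * 225 * 144) ^ 2 * (N : ℤ) ^ 6 := by
    rw [ha, hb]; ring
  have hN0 : (N : ℤ) ≠ 0 := by omega
  refine exists_entire_order_zero hecke15 (xi_one N) (xi_mul N)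
    (fun s hs => summable_twist (norm_xi_le N) (a15_summable hs))
    (M := 2 * (-4 * a ^ 3 - 27 * b ^ 2)) (by rw [hM]; positivity) _ (fun p hp hd => ?_)
    (fun p hp hd => ?_) G hG hGL hG1
  · rw [hM] at hd
    have h30 : ¬ p ∣ 30 := fun h => hd (by
      have : (p : ℤ) ∣ 30 := by exact_mod_cast h
      exact (this.trans (by norm_num)).mul_right _)
    have hN : ¬ p ∣ N := fun h => hd (by
      have : (p : ℤ) ∣ N := by exact_mod_cast h
      exact (this.trans (dvd_pow_self _ (by norm_num))).mul_left _)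
    have h15 : ¬ p ∣ 15 := fun h => h30 (h.trans (by norm_num))
    refine ⟨trace_twist h4 ha hb hp h30 hN, ?_, by simp [h15]⟩
    have : Int.gcd (p : ℤ) N = 1 := by
      rw [Int.gcd_natCast_natCast]; exact (Nat.Prime.coprime_iff_not_dvd hp).mpr hN
    rw [xi]
    exact_mod_cast jacobiSym.sq_one this
  · refine loc_one_ne_zero _ _ _ hp.ne_zero ?_
    by_cases hN : p ∣ N
    · left
      have : Int.gcd (p : ℤ) N ≠ 1 := by
        rw [Int.gcd_natCast_natCast]
        exact fun h => (Nat.Prime.coprime_iff_not_dvd hp).mp h hN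
      have : NeZero N := ⟨by omega⟩
      rw [xi, jacobiSym.eq_zero_iff_not_coprime.mpr ‹_›]
      simp
    · rcases xi_cases N p with h | h
      · exact Or.inl h
      refine Or.inr ⟨h, ?_⟩
      rw [hM] at hd
      have hP := Nat.prime_iff_prime_int.mp hp
      have h1 : (p : ℤ) ∣ 2 * (81 * 225 * 144) ^ 2 :=
        (hP.dvd_or_dvd hd).resolve_right fun h' =>
          hN (by exact_mod_cast hP.dvd_of_dvd_pow h')
      have h2 : (p : ℤ) ∣ 30 ^ 16 := h1.trans (by norm_num)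
      have h3 : p ∣ 2 * 3 * 5 := by exact_mod_cast hP.dvd_of_dvd_pow h2
      have : p = 2 ∨ p = 3 ∨ p = 5 := by
        rcases (Nat.Prime.dvd_mul hp).mp h3 with h | h
        · rcases (Nat.Prime.dvd_mul hp).mp h with h | h
          · exact Or.inl ((Nat.prime_dvd_prime_iff_eq hp Nat.prime_two).mp h)
          · exact Or.inr (Or.inl ((Nat.prime_dvd_prime_iff_eq hp Nat.prime_three).mp h))
        · exact Or.inr (Or.inr ((Nat.prime_dvd_prime_iff_eq hp Nat.prime_five).mp h))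
      rcases this with rfl | rfl | rfl
      · norm_num [a15_two]
      · norm_num [a15_three]
      · norm_num [a15_five]

/-- Final assembly: the class group hypothesis gives rank zero, the non-vanishing gives order zero. -/
theorem bsd_of_ne_zero {N : ℕ} (hN : Squarefree N) (h4 : N % 4 = 3) (h3 : N % 3 = 2)
    (h5 : N % 5 = 2 ∨ N % 5 = 3) (hB : CondB N) {a b : ℤ}
    (ha : a = -12987 * (N : ℤ) ^ 2) (hb : b = 263466 * (N : ℤ) ^ 3)
    (G : ℂ → ℂ) (hG : Differentiable ℂ G)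
    (hGL : ∀ s : ℂ, (3 : ℝ) / 2 < s.re → G s = LSeries (fun n => xi N n * a15 n) s)
    (hG1 : G 1 ≠ 0) :
    ∃ F : ℂ → ℂ, Differentiable ℂ F ∧
      (∀ s : ℂ, (3 : ℝ) / 2 < s.re →
        HasProd
          (fun p : ℕ =>
            if p.Prime ∧ ¬ ((p : ℤ) ∣ 2 * (-4 * a ^ 3 - 27 * b ^ 2)) then
              (1 - ((p : ℂ) - (Nat.card {q : ZMod p × ZMod p //
                  q.2 ^ 2 = q.1 ^ 3 + (a : ZMod p) * q.1 + (b : ZMod p)} : ℂ))
                  * (p : ℂ) ^ (-s) + (p : ℂ) ^ (1 - 2 * s))⁻¹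
            else 1)
          (F s)) ∧
      analyticOrderAt F 1 =
        ((Module.finrank ℤ
          (WeierstrassCurve.Affine.Point
            (WeierstrassCurve.toAffine
              ({ a₁ := 0, a₂ := 0, a₃ := 0, a₄ := (a : ℚ), a₆ := (b : ℚ) } :
                WeierstrassCurve ℚ))) : ℕ) : ℕ∞) ∧
      F 1 ≠ 0 ∧
      Finite (WeierstrassCurve.Affine.Point
        (WeierstrassCurve.toAffine
          ({ a₁ := 0, a₂ := 0, a₃ := 0, a₄ := (a : ℚ), a₆ := (b : ℚ) } : WeierstrassCurve ℚ))) := by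
  obtain ⟨F, h1, h2, h3', h4'⟩ := exists_entire_of_ne_zero h4 ha hb G hG hGL hG1
  have hfin := finite_twist15_of_condB hN h4 h3 h5 hB
  have e : twist15 (-(N : ℤ)) =
      ({ a₁ := 0, a₂ := 0, a₃ := 0, a₄ := (a : ℚ), a₆ := (b : ℚ) } : WeierstrassCurve ℚ) := by
    rw [twist15, ha, hb]
    congr 2 <;> ring
  rw [e] at hfin
  refine ⟨F, h1, h2, ?_, h3', hfin⟩
  rw [h4', finrank_eq_zero_of_finite]
  rfl

end Pool.Agent.Lib.MP_696deb_nt
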