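import Pool.Agent.Lib.MP_696deb_nt.GDefs

set_option autoImplicit false

open Finset NumberTheorySymbols

namespace Pool.Agent.Lib.MP_696deb_nt

/-- Character sums over a finite set of vectors. -/
def Psi (Y : Finset V3) (χ : ℕ → V3 → ℤ) (S : Finset ℕ) : ℤ := ∑ y ∈ Y, ∏ p ∈ S, χ p y

/-- What the modular symbol side provides. -/
structure SymData (aa bb : ℕ → ℤ) : Prop where
  e1 : ∀ n, Good n → ∃ s : ℤ, (s = 1 ∨ s = -1) ∧ aa n = s * 8 * (Sig n 2 ∅ - 3 * Sig n 1 ∅)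
  e2 : ∀ A B, Good (A * B) → A % 4 = 3 → 1 < B →
    (∃ s : ℤ, (s = 1 ∨ s = -1) ∧ aa A * bb B = s * 8 * Sig (A * B) 1 A.primeFactors) ∧
    Sig (A * B) 2 A.primeFactors = -Sig (A * B) 1 A.primeFactors

/-- An additive function on `Γ₀(15)` killing the parabolic generators; `f a b c d` is the value
at the matrix `(a, b; 15 c, d)`. -/
structure Hom15 (f : ℤ → ℤ → ℤ → ℤ → ℂ) : Prop where
  add : ∀ a b c d a' b' c' d' : ℤ, a * d - b * (15 * c) = 1 → a' * d' - b' * (15 * c') = 1 →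
    f (a * a' + b * (15 * c')) (a * b' + b * d') (c * a' + d * c') (15 * c * b' + d * d') =
      f a b c d + f a' b' c' d'
  hT : f 1 1 0 1 = 0
  hL : f 1 0 1 1 = 0
  hP : f (-14) 3 (-5) 16 = 0

end Pool.Agent.Lib.MP_696deb_nt
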