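import Pool.Agent.Lib.MP_696deb_nt.Symbol

set_option autoImplicit false

open PowerSeries Filter Topology Complex MeasureTheory Set
open scoped Real

namespace Pool.Agent.Lib.MP_696deb_nt

/-- The additive twist of the series of the newform by the rational number `a / c`. -/
noncomputable def Ladd (a c : ℤ) (s : ℂ) : ℂ :=
  (2 * π) ^ s * (Gamma s)⁻¹ * mellin (fun y : ℝ => f15 (a / c + y * I)) s

lemma Ladd_differentiable (a : ℤ) {c : ℤ} (hc : c ≠ 0) : Differentiable ℂ (Ladd a c) :=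
  ((differentiable_id.const_cpow (Or.inl (by simp))).mul differentiable_one_div_Gamma).mul
    (f15_mellin_differentiable a hc)

lemma Ladd_one (a : ℤ) {c : ℤ} (hc : c ≠ 0) : Ladd a c 1 = ms a c := by
  simp [Ladd, ms, hc, mellin]

lemma hasSum_Ladd (a c : ℤ) {s : ℂ} (hs : (3 : ℝ) / 2 < s.re) :
    LSeriesHasSum (fun n => q1 (a / c) ^ n * a15 n) s (Ladd a c s) := by
  have hπ : (0 : ℝ) < 2 * π := by positivity
  have hq : ‖q1 (a / c)‖ = 1 := by rw [norm_q1, ← cast_div, ofReal_im]; simp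
  have h1 := hasSum_mellin (a := fun n : ℕ => q1 (a / c) ^ n * a15 n) (p := fun n => 2 * π * n)
    (F := fun y : ℝ => f15 (a / c + y * I)) (s := s) (fun n => by
      rcases Nat.eq_zero_or_pos n with rfl | hn
      · simp [a15_zero]
      · exact Or.inr (by positivity)) (by linarith) (fun t ht => by
      have := qe_f15.hasSum (z := a / c + t * I) (by rw [← cast_div]; simpa using ht)
      convert! this using 2 with n
      have h2 : q1 (t * I) ^ n = (Real.exp (-(2 * π * n) * t) : ℝ) := by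
        rw [← q1_nat_mul, q1, ofReal_exp]
        congr 1
        push_cast
        linear_combination 2 * π * n * t * I_sq
      rw [q1_add, mul_pow, h2, coeff_map]
      simp only [a15, eq_intCast]
      ring) (by
      have := (summable_norm_iff.mpr (a15_summable hs)).mul_left ((2 * π) ^ s.re)⁻¹
      convert! this using 2 with n
      rw [LSeries.norm_term_eq]
      split_ifs with hn
      · simp [hn, a15_zero]
      · rw [norm_mul, norm_pow, hq, one_pow, one_mul, Real.mul_rpow hπ.le (Nat.cast_nonneg _)]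
        ring)
  have hG : Gamma s ≠ 0 := Gamma_ne_zero_of_re_pos (by linarith)
  have h2 : ((2 * π : ℝ) : ℂ) ^ s ≠ 0 := by simp
  unfold LSeriesHasSum Ladd
  convert! h1.mul_left ((2 * π) ^ s * (Gamma s)⁻¹) using 2 with n
  rcases eq_or_ne n 0 with rfl | hn
  · simp [a15_zero]
  rw [LSeries.term_of_ne_zero hn, ofReal_mul (2 * π), mul_cpow_ofReal_nonneg hπ.le
    (Nat.cast_nonneg _)]
  push_cast at h2 ⊢
  field_simp

/-- Analytic continuation and central value of the twist by a periodic function. -/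
theorem exists_entire_twist {M : ℕ} (hM : M ≠ 0) (w : ℕ → ℂ) (ξ : ℕ → ℂ)
    (hξ : ∀ n, ξ n = ∑ k ∈ Finset.range M, w k * q1 ((k : ℤ) / (M : ℤ)) ^ n) :
    ∃ G : ℂ → ℂ, Differentiable ℂ G ∧
      (∀ s : ℂ, (3 : ℝ) / 2 < s.re → G s = LSeries (fun n => ξ n * a15 n) s) ∧
      G 1 = ∑ k ∈ Finset.range M, w k * ms k M := by
  have hM' : (M : ℤ) ≠ 0 := by exact_mod_cast hM
  refine ⟨fun s => ∑ k ∈ Finset.range M, w k * Ladd k M s,
    Differentiable.fun_sum fun k _ => (Ladd_differentiable k hM').const_mul _, fun s hs => ?_,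
    by simp only [Ladd_one _ hM']⟩
  refine (LSeriesHasSum.LSeries_eq ?_).symm
  have := hasSum_sum (s := Finset.range M) fun k _ => (hasSum_Ladd k M hs).mul_left (w k)
  unfold LSeriesHasSum
  convert! this using 2 with n
  rcases eq_or_ne n 0 with rfl | hn
  · simp
  simp only [LSeries.term_of_ne_zero hn, hξ, Finset.sum_mul, Finset.sum_div]
  exact Finset.sum_congr rfl fun k _ => by ring

section

variable {N : ℕ} [NeZero N]

/-- The Jacobi symbol as a function on residues. -/
noncomputable def jc (k : ZMod N) : ℂ := (jacobiSym k.val N : ℤ)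

lemma jc_int (m : ℤ) : jc (m : ZMod N) = (jacobiSym m N : ℤ) := by
  rw [jc, ZMod.val_intCast, ← jacobiSym.mod_left]

lemma jc_mul (k l : ZMod N) : jc (k * l) = jc k * jc l := by
  obtain ⟨k, rfl⟩ := ZMod.intCast_surjective k
  obtain ⟨l, rfl⟩ := ZMod.intCast_surjective l
  rw [← Int.cast_mul, jc_int, jc_int, jc_int, jacobiSym.mul_left, Int.cast_mul]

/-- The Gauss sums of the Jacobi symbol. -/
noncomputable def gs (m : ZMod N) : ℂ := ∑ k : ZMod N, jc k * ZMod.stdAddChar (k * m)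

lemma gs_unit {u : ℤ} (hu : u.gcd N = 1) (m : ZMod N) :
    jc (u : ZMod N) * gs ((u : ZMod N) * m) = gs m := by
  have h1 : IsUnit (u : ZMod N) := (ZMod.coe_int_isUnit_iff_isCoprime u N).mpr
    (Int.isCoprime_iff_gcd_eq_one.mpr hu).symm
  rw [gs, gs, Finset.mul_sum, ← (IsUnit.isUnit_iff_mulLeft_bijective.mp h1).sum_comp
    fun k => jc k * ZMod.stdAddChar (k * m)]
  refine Finset.sum_congr rfl fun k _ => ?_
  rw [jc_mul, mul_assoc, mul_left_comm k, mul_assoc]

lemma gs_eq (hN : Odd N) (hsq : Squarefree N) (m : ℤ) :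
    gs (m : ZMod N) = (jacobiSym m N : ℤ) * gs (1 : ZMod N) := by
  by_cases hm : m.gcd N = 1
  · have h1 := gs_unit (N := N) hm 1
    have h2 := congr_arg (Int.cast : ℤ → ℂ) (jacobiSym.sq_one hm)
    rw [mul_one, jc_int] at h1
    push_cast at h2
    linear_combination (jacobiSym m N : ℂ) * h1 - gs (m : ZMod N) * h2
  rw [jacobiSym.eq_zero_iff_not_coprime.mpr hm, Int.cast_zero, zero_mul]
  obtain ⟨p, hp, hpd⟩ := Nat.exists_prime_and_dvd hm
  have : Fact p.Prime := ⟨hp⟩
  obtain ⟨m, rfl⟩ : (p : ℤ) ∣ m := (Int.natCast_dvd_natCast.mpr hpd).trans (Int.gcd_dvd_left _ _)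
  obtain ⟨N', hN'⟩ : p ∣ N := Int.natCast_dvd_natCast.mp
    ((Int.natCast_dvd_natCast.mpr hpd).trans (Int.gcd_dvd_right _ _))
  have hp2 : p ≠ 2 := fun h => by
    rw [hN', h] at hN
    exact Nat.not_even_iff_odd.mpr hN (even_two_mul _)
  have hN0 : N' ≠ 0 := fun h => NeZero.ne N (by rw [hN', h, mul_zero])
  obtain ⟨α, β, hαβ⟩ := Nat.isCoprime_iff_coprime.mpr (Nat.coprime_of_squarefree_mul (hN' ▸ hsq))
  obtain ⟨r, hr⟩ := FiniteField.exists_nonsquare (F := ZMod p) (by rwa [ZMod.ringChar_zmod_n])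
  obtain ⟨r, rfl⟩ := ZMod.intCast_surjective r
  have h1 : jacobiSym (α * p + r * β * N') N = -1 := by
    have e1 : α * p + r * β * N' ≡ r [ZMOD p] :=
      Int.modEq_iff_dvd.mpr ⟨(r - 1) * α, by linear_combination -r * hαβ⟩
    have e2 : α * p + r * β * N' ≡ 1 [ZMOD N'] :=
      Int.modEq_iff_dvd.mpr ⟨(1 - r) * β, by linear_combination -hαβ⟩
    rw [hN', jacobiSym.mul_right' _ hp.ne_zero hN0, jacobiSym.mod_left' e1,
      jacobiSym.mod_left' e2, jacobiSym.one_left, mul_one,
      ZMod.nonsquare_iff_jacobiSym_eq_neg_one.mpr hr]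
  have h2 := gs_unit (N := N) (u := α * p + r * β * N') (by
    by_contra h
    rw [jacobiSym.eq_zero_iff_not_coprime.mpr h] at h1
    exact absurd h1 (by norm_num)) ((p * m : ℤ) : ZMod N)
  have h3 : (((α * p + r * β * N' : ℤ) : ZMod N) * ((p * m : ℤ) : ZMod N)) = (p * m : ℤ) := by
    rw [← Int.cast_mul, ZMod.intCast_eq_intCast_iff_dvd_sub]
    exact ⟨(1 - r) * β * m, by rw [hN']; push_cast; linear_combination -(p * m) * hαβ⟩
  rw [jc_int, h1, h3] at h2
  push_cast at h2 ⊢
  linear_combination (-1 / 2) * h2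

lemma gs_one_ne (hN : Odd N) (hsq : Squarefree N) : gs (1 : ZMod N) ≠ 0 := by
  intro h
  have h1 : ∀ m : ZMod N, gs m = 0 := fun m => by
    obtain ⟨m, rfl⟩ := ZMod.intCast_surjective m
    rw [gs_eq hN hsq, h, mul_zero]
  have h2 : ∑ m : ZMod N, gs m * ZMod.stdAddChar (-m) = N := by
    simp only [gs, Finset.sum_mul]
    rw [Finset.sum_comm]
    have h3 : ∀ k m : ZMod N, jc k * ZMod.stdAddChar (k * m) * ZMod.stdAddChar (-m) =
        jc k * ZMod.stdAddChar (m * (k - 1)) := fun k m => by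
      rw [mul_assoc, ← AddChar.map_add_eq_mul]
      congr 2
      ring
    simp only [h3, ← Finset.mul_sum, AddChar.sum_mulShift _ (ZMod.isPrimitive_stdAddChar N),
      sub_eq_zero]
    rw [Finset.sum_eq_single 1 (fun k _ hk => by simp [hk]) (by simp)]
    have h4 : jc (1 : ZMod N) = 1 := by simpa using jc_int (N := N) 1
    simp [h4]
  simp [h1] at h2
  exact NeZero.ne N (by exact_mod_cast h2.symm)

end

/-- The twist of the newform by a Jacobi symbol: analytic continuation and central value. -/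
theorem exists_entire_jacobi {N : ℕ} (hN : Odd N) (hsq : Squarefree N) :
    ∃ (G : ℂ → ℂ) (τ : ℂ), Differentiable ℂ G ∧
      (∀ s : ℂ, (3 : ℝ) / 2 < s.re →
        G s = LSeries (fun n => ((jacobiSym n N : ℤ) : ℂ) * a15 n) s) ∧
      τ ≠ 0 ∧ τ * G 1 = ∑ k ∈ Finset.range N, ((jacobiSym k N : ℤ) : ℂ) * ms k N := by
  have : NeZero N := ⟨hsq.ne_zero⟩
  have h0 := gs_one_ne hN hsq
  obtain ⟨G, h1, h2, h3⟩ := exists_entire_twist hsq.ne_zero
    (fun k => (gs (1 : ZMod N))⁻¹ * (jacobiSym k N : ℤ)) (fun n => (jacobiSym n N : ℤ)) fun n => by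
      have h4 := gs_eq hN hsq n
      simp only [mul_assoc, ← Finset.mul_sum]
      rw [eq_inv_mul_iff_mul_eq₀ h0, mul_comm, ← h4, gs]
      refine Finset.sum_nbij' (fun j : ZMod N => j.val) (fun j : ℕ => (j : ZMod N)) (by
        simp [ZMod.val_lt]) (by simp) (by simp)
        (fun j hj => ZMod.val_cast_of_lt (by simpa using hj)) fun k _ => ?_
      have := q1_div_pow N (k.val : ℤ) n
      simp only [Int.cast_natCast, ZMod.natCast_zmod_val] at this ⊢
      rw [this, jc]
  refine ⟨G, _, h1, h2, h0, ?_⟩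
  rw [h3, Finset.mul_sum]
  exact Finset.sum_congr rfl fun k _ => by field_simp

end Pool.Agent.Lib.MP_696deb_nt
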