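import Pool.Agent.Lib.MP_696deb_nt.Periods
import Pool.Agent.Lib.MP_696deb_nt.Twist
import Pool.Agent.Lib.MP_696deb_nt.SymDefs
import Pool.Agent.Lib.MP_696deb_nt.Assembly

set_option autoImplicit false

open Complex NumberTheorySymbols

namespace Pool.Agent.Lib.MP_696deb_nt

/-- The period of the newform attached to the matrix `(a, b; 15 c, d)`. -/
noncomputable def per (a _b c _d : ℤ) : ℂ := ms a (15 * c)

theorem hom15_per : Hom15 per where
  add a b c d a' b' c' d' h h' := by
    have := ms_mul4 (a, b, 15 * c, d) (a', b', 15 * c', d') ⟨h, dvd_mul_right _ _⟩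
      ⟨h', dvd_mul_right _ _⟩
    simp only [mul4] at this
    rw [per, per, per, ← this]
    congr 1
    ring
  hT := by simp [per, ms_zero]
  hL := by simpa [per] using ms_parab0
  hP := by
    simpa [per] using ms_Gamma0 (a := -14) (b := 3) (c := -5) (d := 16) (x := 1) (y := 5)
      (by norm_num) (by norm_num)

theorem per_ne_zero : per 4 1 1 4 ≠ 0 := by
  have h1 := ms_Gamma0 (a := 11) (b := -3) (c := 1) (d := -4) (x := 4) (y := 15) (by norm_num)
    (by norm_num)
  norm_num [ms_zero, ms_gm] at h1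
  have h2 : per 4 1 1 4 = -(wm * I) := by
    rw [per, mul_one]
    linear_combination -h1
  rw [h2]
  simp [wm_ne]

lemma sum_jacobi_eq_zero {n : ℕ} (hn : Good n) : ∑ k ∈ Finset.range n, (J((k : ℤ) | n) : ℂ) = 0 := by
  have h4 := hn.mod4
  have : NeZero n := ⟨by omega⟩
  have h1 := gs_eq (N := n) (Nat.odd_iff.mpr (by omega)) hn.sqf 0
  rw [jacobiSym.zero_left (by omega), Int.cast_zero, Int.cast_zero, zero_mul] at h1
  rw [← h1, gs]
  refine (Finset.sum_nbij' (fun j : ZMod n => j.val) (fun j : ℕ => (j : ZMod n)) (by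
    simp [ZMod.val_lt]) (by simp) (by simp)
    (fun j hj => ZMod.val_cast_of_lt (by simpa using hj)) fun k _ => ?_).symm
  simp [jc]

/-- Non-vanishing of the twisted sum of periods gives the non-vanishing of the central value. -/
theorem exists_entire_ne_zero {n : ℕ} (hn : Good n)
    (H : ∀ a c : ℕ → ℤ, (∀ k : ℕ, Nat.Coprime k n → a k * n - k * (15 * c k) = 1) →
      ∑ k ∈ Finset.range n, (J((k : ℤ) | n) : ℂ) * per (a k) k (c k) n ≠ 0) :
    ∃ G : ℂ → ℂ, Differentiable ℂ G ∧
      (∀ s : ℂ, (3 : ℝ) / 2 < s.re → G s = LSeries (fun k => xi n k * a15 k) s) ∧ G 1 ≠ 0 := by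
  have h4 := hn.mod4
  have : NeZero n := ⟨by omega⟩
  obtain ⟨G, τ, h1, h2, -, h3⟩ := exists_entire_jacobi (Nat.odd_iff.mpr (by omega)) hn.sqf
  refine ⟨G, h1, h2, fun h0 => ?_⟩
  have hex : ∀ k : ℕ, ∃ q : ℤ × ℤ, Nat.Coprime k n → q.1 * n - k * (15 * q.2) = 1 := fun k => by
    by_cases hk : Nat.Coprime k n
    · obtain ⟨u, v, h⟩ := Nat.isCoprime_iff_coprime.mpr (Nat.Coprime.mul_right hk.symm hn.cop)
      exact ⟨(u, -v), fun _ => by push_cast at h; linear_combination h⟩
    · exact ⟨0, fun h => absurd h hk⟩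
  choose q hq using hex
  refine H (fun k => (q k).1) (fun k => (q k).2) hq ?_
  rw [h0, mul_zero] at h3
  have h5 : ∀ k ∈ Finset.range n, (J((k : ℤ) | n) : ℂ) * per (q k).1 k (q k).2 n =
      J((k : ℤ) | n) * ms k n - ms 0 1 * J((k : ℤ) | n) := fun k _ => by
    by_cases hk : Nat.Coprime k n
    · have := ms_Gamma0 (hq k hk) (x := 0) (y := 1) (by norm_num)
      simp only [mul_zero, mul_one, zero_add] at this
      rw [this, per]
      ring
    · rw [jacobiSym.eq_zero_iff_not_coprime.mpr (by rwa [Int.gcd_natCast_natCast])]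
      simp
  rw [Finset.sum_congr rfl h5, Finset.sum_sub_distrib, ← h3, ← Finset.mul_sum,
    sum_jacobi_eq_zero hn]
  simp

end Pool.Agent.Lib.MP_696deb_nt
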