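import Pool.Agent.Lib.MP_696deb_nt.TernPhi
import Pool.Agent.Lib.MP_696deb_nt.SymDefs

set_option autoImplicit false

open Finset Matrix NumberTheorySymbols

namespace Pool.Agent.Lib.MP_696deb_nt.Tern

theorem iota_char {n p : ℕ} (hn : Good n) (hp' : p ∈ n.primeFactors) {x u z c : ℤ}
    (hc : c = 1 ∨ c = 2) (h : c * (n - 15 * x ^ 2) = u ^ 2 + 15 * z ^ 2) :
    hil n p (n - 15 * x ^ 2) = J(-15 | p) := by
  have hp := Nat.prime_of_mem_primeFactors hp'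
  have hpn := Nat.dvd_of_mem_primeFactors hp'
  have := Fact.mk hp
  obtain ⟨h2, h3, h5⟩ := small_ne_zero (Good.coprime30 hn) hp hpn
  have h15 : (15 : ZMod p) ≠ 0 := by
    have : (15 : ZMod p) = 3 * 5 := by norm_num
    rw [this]; exact mul_ne_zero h3 h5
  have hn0 : (n : ZMod p) = 0 := (ZMod.natCast_eq_zero_iff n p).2 hpn
  by_cases hx : (p : ℤ) ∣ x
  · obtain ⟨x, rfl⟩ := hx
    have hnd := not_dvd_div hn.sqf hp hpn
    obtain ⟨m, rfl⟩ := hpn
    rw [Nat.mul_div_cancel_left _ hp.pos] at hnd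
    have hm : (m : ZMod p) ≠ 0 := by
      intro h0
      exact hnd (by exact_mod_cast (ZMod.natCast_eq_zero_iff m p).1 h0)
    have e : ((p * m : ℕ) : ℤ) - 15 * (p * x) ^ 2 = p ^ 1 * (m - 15 * p * x ^ 2) := by
      push_cast; ring
    have hk : ¬ (p : ℤ) ∣ m - 15 * p * x ^ 2 := by
      rw [← ZMod.intCast_zmod_eq_zero_iff_dvd]
      push_cast
      simpa using hm
    rw [e] at h ⊢
    rw [hil_pow_mul hp 1 hk, Nat.mul_div_cancel_left _ hp.pos, jac_eq, jac_eq, jac_eq]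
    push_cast
    simp only [CharP.cast_eq_zero, mul_zero, zero_mul, sub_zero, pow_one]
    rw [← sq, quadraticChar_sq_one hm]
    have e1 : (u : ZMod p) ^ 2 + 15 * (z : ZMod p) ^ 2 = 0 := by
      have := congrArg (Int.cast : ℤ → ZMod p) h
      push_cast at this
      simpa using this.symm
    have hz : (z : ZMod p) ≠ 0 := by
      intro h0
      have hu : (u : ZMod p) = 0 := by simpa [h0] using e1
      obtain ⟨z, rfl⟩ := (ZMod.intCast_zmod_eq_zero_iff_dvd z p).1 h0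
      obtain ⟨u, rfl⟩ := (ZMod.intCast_zmod_eq_zero_iff_dvd u p).1 hu
      have e2 : c * (m - 15 * p * x ^ 2) = p * (u ^ 2 + 15 * z ^ 2) := by
        apply mul_left_cancel₀ (show (p : ℤ) ≠ 0 by exact_mod_cast hp.ne_zero)
        linear_combination h
      have e3 := congrArg (Int.cast : ℤ → ZMod p) e2
      push_cast at e3
      rcases hc with rfl | rfl <;> simp [hm, h2] at e3
    have e4 : (-15 : ZMod p) = (u / z) ^ 2 := by
      field_simp
      linear_combination -e1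
    have hu : (u / z : ZMod p) ≠ 0 := by
      intro h0
      rw [h0] at e4
      exact h15 (by linear_combination -e4)
    rw [e4, quadraticChar_sq_one' hu]
  · have hx' : (x : ZMod p) ≠ 0 := (ZMod.intCast_zmod_eq_zero_iff_dvd x p).not.2 hx
    rw [hil_of_not_dvd hp, jac_eq, jac_eq]
    · push_cast
      rw [hn0, show (0 : ZMod p) - 15 * x ^ 2 = -15 * x ^ 2 by ring, map_mul,
        quadraticChar_sq_one' hx', mul_one]
    · rw [← ZMod.intCast_zmod_eq_zero_iff_dvd]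
      push_cast
      simp [hn0, h15, hx']

theorem PP_reindex {n : ℕ} {S : Finset ℕ} {G : M3} {y : V3} {X : Finset V3} {u : V3 → V3}
    (g g' : V3 → V3) (hg : ∀ x ∈ X, g x ∈ X) (hg' : ∀ x ∈ X, g' x ∈ X) (h1 : ∀ x, g' (g x) = x)
    (h2 : ∀ x, g (g' x) = x) (s : ℤ) : PP n S G y X (fun x => u (g x)) s = PP n S G y X u s :=
  sum_reindex g g' hg hg' h1 h2 fun x => cc n S G y (u x) s

theorem exists_base (G : M3) (N : ℤ) : ∃ y : V3, ∀ a, bil G a a = N → bil G y y = N := by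
  by_cases h : ∃ y, bil G y y = N
  · obtain ⟨y, hy⟩ := h
    exact ⟨y, fun _ _ => hy⟩
  · exact ⟨0, fun a ha => absurd ⟨a, ha⟩ h⟩

theorem sum_half {X : Finset V3} (ρ : V3 → V3) (h1 : ∀ x ∈ X, ρ x ∈ X) (h2 : ∀ x, ρ (ρ x) = x)
    (h3 : ∀ x, ρ x 0 = -x 0) (h4 : ∀ x ∈ X, x 0 ≠ 0) (f : V3 → ℤ) (h5 : ∀ x ∈ X, f (ρ x) = f x) :
    ∑ x ∈ X, f x = 2 * ∑ x ∈ X.filter (fun x => 0 < x 0), f x := by
  rw [← sum_filter_add_sum_filter_not X (fun x => 0 < x 0), two_mul]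
  congr 1
  refine sum_nbij' ρ ρ ?_ ?_ (fun x _ => h2 x) (fun x _ => h2 x) ?_
  · intro x hx
    rw [mem_filter] at hx ⊢
    have := h4 x hx.1
    exact ⟨h1 x hx.1, by rw [h3]; omega⟩
  · intro x hx
    rw [mem_filter] at hx ⊢
    exact ⟨h1 x hx.1, by rw [h3]; omega⟩
  · intro x hx
    exact (h5 x (mem_filter.1 hx).1).symm

def io (x : V3) : V3 := ![-x 0, x 1, x 2]
def g51 (x : V3) : V3 := ![-x 0, x 2, x 1]
def g52 (x : V3) : V3 := ![-x 1, -x 0, -x 2]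
def r1 (x : V3) : V3 := ![x 1, -x 0 - x 1, x 2]
def r2 (x : V3) : V3 := ![-x 0 - x 1, x 0, x 2]
def r3 (x : V3) : V3 := ![-x 0, -x 1, x 1 + x 2]

theorem XX_empty_3 {n : ℕ} (h3 : n % 3 = 2) : XX G3 n = ∅ := by
  refine eq_empty_of_forall_notMem fun x hx => ?_
  rw [mem_XX3, bil_G3] at hx
  have e : (n : ℤ) = (x 1 - x 2) ^ 2 + 3 * (5 * x 0 ^ 2 + 5 * x 1 ^ 2 + 2 * x 1 * x 2 + x 2 ^ 2) := by
    linear_combination -hx
  have : (x 1 - x 2) ^ 2 % 3 = 0 ∨ (x 1 - x 2) ^ 2 % 3 = 1 := by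
    generalize x 1 - x 2 = k
    rcases (by omega : k % 3 = 0 ∨ k % 3 = 1 ∨ k % 3 = 2) with h | h | h <;> simp [pow_two, Int.mul_emod, h]
  omega

theorem XX_empty_1 {n : ℕ} (h3 : n % 3 = 1) : XX G1 n = ∅ := by
  refine eq_empty_of_forall_notMem fun x hx => ?_
  rw [mem_XX1, bil_G1] at hx
  have e : (n : ℤ) = -(x 1 + x 2) ^ 2
      + 3 * (5 * x 0 ^ 2 + 3 * x 1 ^ 2 + 2 * x 1 * x 2 + 3 * x 2 ^ 2) := by
    linear_combination -hx
  have : (x 1 + x 2) ^ 2 % 3 = 0 ∨ (x 1 + x 2) ^ 2 % 3 = 1 := by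
    generalize x 1 + x 2 = k
    rcases (by omega : k % 3 = 0 ∨ k % 3 = 1 ∨ k % 3 = 2) with h | h | h <;> simp [pow_two, Int.mul_emod, h]
  omega

theorem XX_empty_2 {n : ℕ} (h3 : n % 3 = 1) : XX G2 n = ∅ := by
  refine eq_empty_of_forall_notMem fun x hx => ?_
  rw [mem_XX2, bil_G2] at hx
  have e : (n : ℤ) = -(x 0 - x 1) ^ 2
      + 3 * (7 * x 0 ^ 2 + 7 * x 1 ^ 2 + 6 * x 0 * x 1 + x 2 ^ 2) := by
    linear_combination -hx
  have : (x 0 - x 1) ^ 2 % 3 = 0 ∨ (x 0 - x 1) ^ 2 % 3 = 1 := by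
    generalize x 0 - x 1 = k
    rcases (by omega : k % 3 = 0 ∨ k % 3 = 1 ∨ k % 3 = 2) with h | h | h <;> simp [pow_two, Int.mul_emod, h]
  omega

theorem bil_tw_left (G : M3) (x w : V3) : bil G (tw x) w = 2 * bil G x w := by
  simp [bil, tw, dotProduct, Fin.sum_univ_three]
  ring

theorem bil_tw_right (G : M3) (x w : V3) : bil G x (tw w) = 2 * bil G x w := by
  have : tw w = (2 : ℤ) • w := by simp [v3_eq, tw]
  rw [this, bil, mulVec_smul, dotProduct_smul, smul_eq_mul, bil]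

theorem neg_mem_XX {G : M3} (hX : ∀ {k : ℕ} {x : V3}, x ∈ XX G k ↔ bil G x x = k) {n : ℕ} :
    ∀ x ∈ XX G n, -x ∈ XX G n := fun x hx => by
  rw [hX] at hx ⊢
  rw [bil_neg_left, bil_neg_right, neg_neg, hx]

theorem mk_fam {G G' : M3} (hX : ∀ {k : ℕ} {x : V3}, x ∈ XX G' k ↔ bil G' x x = k) {n : ℕ}
    {y : V3} (hy : ∀ a, bil G a a = 4 * n → bil G y y = 4 * n) {u : V3 → V3}
    (h1 : ∀ x, u (-x) = -u x) (h2 : ∀ x, bil G (u x) (u x) = 4 * bil G' x x) :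
    Fam n G y (XX G' n) u :=
  ⟨neg_mem_XX hX, h1, fun x hx => by rw [h2, hX.1 hx], fun x hx => hy (u x) (by rw [h2, hX.1 hx])⟩

theorem ZZ_one {n : ℕ} (hn : Good n) {S : Finset ℕ} (hS : S ⊆ n.primeFactors) {G G' : M3}
    {u : V3 → V3} (h : ∀ x w, bil G (u x) (u w) = 4 * bil G' x w) :
    ZZ G' n 1 S = ∑ x ∈ XX G' n, ∑ w ∈ XX G' n, ph n S G (u x) (u w) := by
  unfold ZZ
  rw [one_pow, one_mul]
  refine sum_congr rfl fun x _ => sum_congr rfl fun w _ => ?_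
  rw [FF_one hn hS, FF_two (by rw [h]; ring)]

theorem ZZ_two {n : ℕ} (hn : Good n) {S : Finset ℕ} (hS : S ⊆ n.primeFactors) (G : M3) :
    ZZ G n 2 S + J(2 | n) * ZZ G n 1 S = ∑ x ∈ XX G n,
      (∑ w ∈ XX G (4 * n), FF n 2 S (bil G x w)
        + J(2 | n) * ∑ w ∈ XX G n, FF n 2 S (bil G x (tw w))) := by
  unfold ZZ
  rw [one_pow, one_mul, mul_sum, ← sum_add_distrib]
  refine sum_congr rfl fun x _ => ?_
  simp only [FF_one hn hS, bil_tw_right]
  norm_num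

theorem Sig_eqs {n : ℕ} (hn : Good n) {S : Finset ℕ} (hS : S ⊆ n.primeFactors) :
    12 * hilS n S 5 * Sig n 1 S = 3 * ZZ G1 n 1 S + ZZ G2 n 1 S + 3 * ZZ G3 n 1 S ∧
    12 * (hilS n S 2 * hilS n S 5) * Sig n 2 S = 3 * (ZZ G1 n 2 S + J(2 | n) * ZZ G1 n 1 S)
      + (ZZ G2 n 2 S + J(2 | n) * ZZ G2 n 1 S) + 3 * (ZZ G3 n 2 S + J(2 | n) * ZZ G3 n 1 S) := by
  have h1 := ZZ_sum hn (Or.inl rfl) hS
  have h2 := ZZ_sum hn (Or.inr rfl) hS
  have h3 := hilS_sq hn hS (k := 2) two_ne_zero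
  push_cast at h1 h2
  rw [show (10 : ℤ) = 2 * 5 by norm_num, hilS_mul' hS] at h2
  rw [Sig_one hn, Sig_two hn hS]
  refine ⟨h1.symm, ?_⟩
  linear_combination -h2 - J(2 | n) * h1 + 12 * hilS n S 5 * J(2 | n) * Sg n 1 S * h3

theorem odd_first {n : ℕ} (h4 : n % 4 = 3) {a k : ℤ} (h : 15 * a * a + 2 * k = n) : a ≠ 0 := by
  rintro rfl
  omega

theorem eta_io {n : ℕ} (hn : Good n) {S : Finset ℕ} (hS : S ⊆ n.primeFactors) {G : M3} {x : V3}
    {u z c : ℤ} (hc : c = 1 ∨ c = 2) (h : c * (n - 15 * x 0 ^ 2) = u ^ 2 + 15 * z ^ 2)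
    (h' : bil G x (io x) = n - 30 * x 0 ^ 2) :
    eta n S G (tw x) (tw (io x)) = ∏ p ∈ S, J(-15 | p) := by
  rw [eta, bil_tw_left, bil_tw_right, h',
    show 2 * (4 * (n : ℤ) + 2 * (2 * (n - 30 * x 0 ^ 2))) = 4 ^ 2 * (n - 15 * x 0 ^ 2) by ring,
    hilS_sq_mul hn hS (by norm_num)]
  exact prod_congr rfl fun p hp => iota_char hn (hS hp) hc h

theorem chi_sign {n p : ℕ} (hn : Good n) (hp : p ∈ n.primeFactors) {α : ℤ}
    (h : (3 : ℤ) ∣ 4 * n - α) : hil n p (2 * (4 * n + α)) = 1 ∨ hil n p (2 * (4 * n + α)) = -1 :=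
  sq_eq_one_iff_of_ne_zero' (hil_sq hn.sqf (Nat.prime_of_mem_primeFactors hp)
    (Nat.dvd_of_mem_primeFactors hp) (mul_ne_zero two_ne_zero (ne3 (Good.mod_ne hn).1 h)))
where
  sq_eq_one_iff_of_ne_zero' {a : ℤ} (h : a ^ 2 = 1) : a = 1 ∨ a = -1 := sq_eq_one_iff.1 h

end Pool.Agent.Lib.MP_696deb_nt.Tern

namespace Pool.Agent.Lib.MP_696deb_nt

open Tern

theorem rank5 {n : ℕ} (hn : Good n) (h3 : n % 3 = 2) (_h5 : n % 5 = 2 ∨ n % 5 = 3) :
    ∃ (Y : Finset V3) (χ : ℕ → V3 → ℤ) (ι : V3 → V3) (U : Finset ℕ → ℤ),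
      (∀ p ∈ n.primeFactors, ∀ y ∈ Y, χ p y = 1 ∨ χ p y = -1) ∧
      (∀ y ∈ Y, ι y ∈ Y ∧ ι (ι y) = y ∧ ι y ≠ y ∧
        ∀ p ∈ n.primeFactors, χ p (ι y) = J(-15 | p) * χ p y) ∧
      (∀ S ⊆ n.primeFactors, 3 * Sig n 1 S = 3 * Psi Y χ S ^ 2 + U S ^ 2 ∧
        Sig n 2 S = 2 * Psi Y χ S ^ 2 + 2 * Psi Y χ S * U S) ∧
      4 * (3 * (Y.card : ℤ) + U ∅) = pts n := by
  obtain ⟨y, hy⟩ := exists_base G1 (4 * n)
  have h4 := hn.mod4
  have F1 : Fam n G1 y (XX G1 n) tw := mk_fam mem_XX1 hy (fun x => by simp [v3_eq, tw])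
    fun x => by rw [bil_tw_left, bil_tw_right]; ring
  have Fa : Fam n G1 y (XX G1 n) ua1 := mk_fam mem_XX1 hy
    (fun x => by simp [v3_eq, ua1]; ring) fun x => by simp [bil_G1, ua1]; ring
  have Fb : Fam n G1 y (XX G1 n) ub1 := mk_fam mem_XX1 hy
    (fun x => by simp [v3_eq, ub1]; ring) fun x => by simp [bil_G1, ub1]; ring
  have F2 : Fam n G1 y (XX G2 n) u0 := mk_fam mem_XX2 hy
    (fun x => by simp [v3_eq, u0]; omega) fun x => by simp [bil_G1, bil_G2, u0]; ring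
  have A5 : ∀ S ⊆ n.primeFactors,
      PP n S G1 y (XX G1 n) tw (-1) = hilS n S 5 * PP n S G1 y (XX G1 n) tw 1 := by
    intro S hS
    have m : ∀ x ∈ XX G1 n, g51 x ∈ XX G1 n := fun x hx => by
      rw [mem_XX1, bil_G1] at hx ⊢
      simp [g51]; linear_combination hx
    have i : ∀ x, g51 (g51 x) = x := fun x => by simp [v3_eq, g51]
    have d3 : ∀ x ∈ XX G1 n, (3 : ℤ) ∣ 4 * n - bil G1 (tw x) (tw (g51 x)) := fun x hx => by
      rw [mem_XX1, bil_G1] at hx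
      refine ⟨40 * x 0 ^ 2 + 8 * (x 1 - x 2) ^ 2, ?_⟩
      simp [bil_G1, tw, g51]; linear_combination (-4) * hx
    rw [← PP_reindex g51 g51 m m i i, ← mul_one (-1 : ℤ)]
    refine PP_move hn hS ev30_G1 F1 (fun x hx => F1.norm _ (m x hx)) (Or.inr rfl) (Or.inl rfl)
      d3 (fun x hx => ?_) fun x hx => eta_of_sq hn hS (d3 x hx) (l := 4 * (x 1 + x 2)) ?_
    · rw [mem_XX1, bil_G1] at hx
      refine ⟨8 * (x 1 + x 2) ^ 2, ?_⟩
      simp [bil_G1, tw, g51]; linear_combination (-4) * hx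
    · rw [mem_XX1, bil_G1] at hx
      simp [bil_G1, tw, g51]; linear_combination (-8) * hx
  have B5 : ∀ S ⊆ n.primeFactors,
      PP n S G1 y (XX G2 n) u0 (-1) = hilS n S 5 * PP n S G1 y (XX G2 n) u0 1 := by
    intro S hS
    have m : ∀ x ∈ XX G2 n, g52 x ∈ XX G2 n := fun x hx => by
      rw [mem_XX2, bil_G2] at hx ⊢
      simp [g52]; linear_combination hx
    have i : ∀ x, g52 (g52 x) = x := fun x => by simp [v3_eq, g52]
    have d3 : ∀ x ∈ XX G2 n, (3 : ℤ) ∣ 4 * n - bil G1 (u0 x) (u0 (g52 x)) := fun x hx => by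
      rw [mem_XX2, bil_G2] at hx
      refine ⟨40 * (x 0 + x 1) ^ 2 + 8 * x 2 ^ 2, ?_⟩
      simp [bil_G1, u0, g52]; linear_combination (-4) * hx
    rw [← PP_reindex g52 g52 m m i i, ← mul_one (-1 : ℤ)]
    refine PP_move hn hS ev30_G1 F2 (fun x hx => F2.norm _ (m x hx)) (Or.inr rfl) (Or.inl rfl)
      d3 (fun x hx => ?_) fun x hx => eta_of_sq hn hS (d3 x hx) (l := 4 * (x 0 - x 1)) ?_
    · rw [mem_XX2, bil_G2] at hx
      refine ⟨8 * (x 0 - x 1) ^ 2, ?_⟩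
      simp [bil_G1, u0, g52]; linear_combination (-4) * hx
    · rw [mem_XX2, bil_G2] at hx
      simp [bil_G1, u0, g52]; linear_combination (-8) * hx
  have Aa : ∀ S ⊆ n.primeFactors, ∀ s : ℤ, (s = 1 ∨ s = -1) →
      PP n S G1 y (XX G1 n) ua1 s = hilS n S 2 * PP n S G1 y (XX G1 n) tw s := by
    intro S hS s hs
    have d : ∀ x ∈ XX G1 n, (15 : ℤ) ∣ 4 * n - bil G1 (tw x) (ua1 x) := fun x hx => by
      rw [mem_XX1, bil_G1] at hx
      refine ⟨8 * x 0 ^ 2 + 4 * x 2 ^ 2, ?_⟩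
      simp [bil_G1, tw, ua1]; linear_combination (-4) * hx
    have d3 : ∀ x ∈ XX G1 n, (3 : ℤ) ∣ 4 * n - bil G1 (tw x) (ua1 x) := fun x hx =>
      Dvd.dvd.trans (by norm_num) (d x hx)
    nth_rewrite 1 [← one_mul s]
    refine PP_move hn hS ev30_G1 F1 Fa.norm (Or.inl rfl) hs d3
      (fun x hx => by rw [one_mul]; exact Dvd.dvd.trans (by norm_num) (d x hx))
      fun x hx => eta_of_sq hn hS (d3 x hx) (l := 2 * (4 * x 1 + x 2)) ?_
    rw [mem_XX1, bil_G1] at hx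
    simp [bil_G1, tw, ua1]; linear_combination (-8) * hx
  have Ab : ∀ S ⊆ n.primeFactors, ∀ s : ℤ, (s = 1 ∨ s = -1) →
      PP n S G1 y (XX G1 n) ub1 s = hilS n S 2 * PP n S G1 y (XX G1 n) tw s := by
    intro S hS s hs
    have d : ∀ x ∈ XX G1 n, (15 : ℤ) ∣ 4 * n - bil G1 (tw x) (ub1 x) := fun x hx => by
      rw [mem_XX1, bil_G1] at hx
      refine ⟨8 * x 0 ^ 2 + 4 * x 1 ^ 2, ?_⟩
      simp [bil_G1, tw, ub1]; linear_combination (-4) * hx
    have d3 : ∀ x ∈ XX G1 n, (3 : ℤ) ∣ 4 * n - bil G1 (tw x) (ub1 x) := fun x hx =>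
      Dvd.dvd.trans (by norm_num) (d x hx)
    nth_rewrite 1 [← one_mul s]
    refine PP_move hn hS ev30_G1 F1 Fb.norm (Or.inl rfl) hs d3
      (fun x hx => by rw [one_mul]; exact Dvd.dvd.trans (by norm_num) (d x hx))
      fun x hx => eta_of_sq hn hS (d3 x hx) (l := 2 * (x 1 + 4 * x 2)) ?_
    rw [mem_XX1, bil_G1] at hx
    simp [bil_G1, tw, ub1]; linear_combination (-8) * hx
  have hPsi : ∀ S, Psi ((XX G1 n).filter fun x => (3 : ℤ) ∣ 4 * n - bil G1 y (tw x) ∧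
      (5 : ℤ) ∣ 4 * n - 1 * bil G1 y (tw x)) (fun p x => hil n p (2 * (4 * n + bil G1 y (tw x)))) S
      = PP n S G1 y (XX G1 n) tw 1 := fun S => by
    rw [Psi, sum_filter]; rfl
  refine ⟨(XX G1 n).filter fun x => (3 : ℤ) ∣ 4 * n - bil G1 y (tw x) ∧
      (5 : ℤ) ∣ 4 * n - 1 * bil G1 y (tw x), fun p x => hil n p (2 * (4 * n + bil G1 y (tw x))),
    io, fun S => hilS n S 2 * PP n S G1 y (XX G2 n) u0 1, ?_, ?_, ?_, ?_⟩
  pick_goal 3
  · intro S hS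
    rw [hPsi]
    beta_reduce
    obtain ⟨e1, e2⟩ := Sig_eqs hn hS
    have z3 : ∀ m, ZZ G3 n m S = 0 := fun m => by rw [ZZ, XX_empty_3 h3, sum_empty]
    have z11 : ZZ G1 n 1 S = _ := (ZZ_one hn hS (G := G1) (u := tw) fun x w => by
      rw [bil_tw_left, bil_tw_right]; ring).trans (sum_ph hn hS ev30_G1 F1 F1)
    have z21 : ZZ G2 n 1 S = _ := (ZZ_one hn hS (G := G1) (u := u0) fun x w => by
      simp [bil_G1, bil_G2, u0]; ring).trans (sum_ph hn hS ev30_G1 F2 F2)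
    have z12 := ZZ_two hn hS G1
    simp only [nb1 h4, FF_two (bil_tw_left G1 _ _), sum_add_distrib] at z12
    rw [sum_ph hn hS ev30_G1 F1 Fa, sum_ph hn hS ev30_G1 F1 Fb, sum_ph hn hS ev30_G1 F1 F2] at z12
    have z22 := ZZ_two hn hS G2
    have q0 : ∀ x w, FF n 2 S (bil G2 x (v0 w)) = ph n S G1 (u0 x) (tw w) := fun x w =>
      FF_two (by simp [bil_G1, bil_G2, u0, tw, v0]; ring)
    have q1 : ∀ x w, FF n 2 S (bil G2 x (v1 w)) = ph n S G1 (u0 (r1 x)) (tw w) := fun x w =>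
      FF_two (by simp [bil_G1, bil_G2, u0, tw, v1, r1]; ring)
    have q2 : ∀ x w, FF n 2 S (bil G2 x (v2 w)) = ph n S G1 (u0 (r2 x)) (tw w) := fun x w =>
      FF_two (by simp [bil_G1, bil_G2, u0, tw, v2, r2]; ring)
    have m1 : ∀ x ∈ XX G2 n, r1 x ∈ XX G2 n := fun x hx => by
      rw [mem_XX2, bil_G2] at hx ⊢
      simp [r1]; linear_combination hx
    have m2 : ∀ x ∈ XX G2 n, r2 x ∈ XX G2 n := fun x hx => by
      rw [mem_XX2, bil_G2] at hx ⊢
      simp [r2]; linear_combination hx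
    have i1 : ∀ x, r1 (r2 x) = x := fun x => by simp [v3_eq, r1, r2]
    have i2 : ∀ x, r2 (r1 x) = x := fun x => by simp [v3_eq, r1, r2]; ring
    simp only [nb2 h4, q0, q1, q2, sum_add_distrib] at z22
    rw [sum_reindex r1 r2 m1 m2 i2 i1 fun x => ∑ w ∈ XX G1 n, ph n S G1 (u0 x) (tw w),
      sum_reindex r2 r1 m2 m1 i1 i2 fun x => ∑ w ∈ XX G1 n, ph n S G1 (u0 x) (tw w),
      sum_ph hn hS ev30_G1 F2 F1] at z22
    rw [z12, z22, z3, z3, Aa S hS 1 (Or.inl rfl), Aa S hS (-1) (Or.inr rfl),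
      Ab S hS 1 (Or.inl rfl), Ab S hS (-1) (Or.inr rfl)] at e2
    rw [z11, z21, z3] at e1
    rw [A5 S hS, B5 S hS] at e1 e2
    have s2 := hilS_sq hn hS (k := 2) two_ne_zero
    have s5 := hilS_sq hn hS (k := 5) (by norm_num)
    generalize PP n S G1 y (XX G1 n) tw 1 = A at *
    generalize PP n S G1 y (XX G2 n) u0 1 = B at *
    generalize hilS n S 2 = a at *
    generalize hilS n S 5 = b at *
    rcases sq_eq_one_iff.1 s2 with rfl | rfl <;> rcases sq_eq_one_iff.1 s5 with rfl | rfl <;>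
      constructor <;> linarith
  · intro p hp x hx
    exact chi_sign hn hp (mem_filter.1 hx).2.1
  · intro x hx
    obtain ⟨hx1, hx2⟩ := mem_filter.1 hx
    have hx3 := mem_XX1.1 hx1
    rw [bil_G1] at hx3
    have m : io x ∈ XX G1 n := by
      rw [mem_XX1, bil_G1]
      simp [io]; linear_combination hx3
    have e : bil G1 x (io x) = n - 30 * x 0 ^ 2 := by
      simp [bil_G1, io]; linear_combination hx3
    have mv : ∀ S ⊆ n.primeFactors, cc n S G1 y (tw (io x)) 1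
        = (∏ p ∈ S, J(-15 | p)) * cc n S G1 y (tw x) 1 := fun S hS => by
      rw [← eta_io hn hS (G := G1) (Or.inr rfl) (u := 4 * x 1 + x 2) (z := x 2)
        (by linear_combination (-2) * hx3) e]
      nth_rewrite 1 [← one_mul (1 : ℤ)]
      refine cc_move hn hS ev30_G1 (F1.base x hx1) (F1.norm x hx1) (F1.norm _ m) (Or.inl rfl)
        (Or.inl rfl) ⟨40 * x 0 ^ 2, ?_⟩ ⟨24 * x 0 ^ 2, ?_⟩ <;>
      rw [bil_tw_left, bil_tw_right, e] <;> ring
    have m2 : (3 : ℤ) ∣ 4 * n - bil G1 y (tw (io x)) ∧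
        (5 : ℤ) ∣ 4 * n - 1 * bil G1 y (tw (io x)) := by
      by_contra h0
      have := mv ∅ (empty_subset _)
      rw [cc, cc, if_neg h0, if_pos hx2] at this
      simp [eta, hilS] at this
    refine ⟨mem_filter.2 ⟨m, m2⟩, by simp [v3_eq, io], fun h => ?_, fun p hp => ?_⟩
    · have h0 := congrFun h 0
      have := odd_first h4 (a := x 0) (k := 4 * x 1 * x 1 + 2 * x 1 * x 2 + 4 * x 2 * x 2)
        (by linear_combination hx3)
      simp [io] at h0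
      omega
    · have := mv {p} (singleton_subset_iff.2 hp)
      rw [cc, cc, if_pos m2, if_pos hx2] at this
      simpa [eta, hilS] using this
  · beta_reduce
    have c1 := F1.card hn ev30_G1
    have c2 := F2.card hn ev30_G1
    have c3 := hPsi ∅
    rw [A5 ∅ (empty_subset _)] at c1
    rw [B5 ∅ (empty_subset _)] at c2
    simp only [Psi, prod_empty, sum_const, nsmul_eq_mul, mul_one] at c3
    rw [pts, XX_empty_3 h3, c3]
    simp only [hilS, prod_empty, one_mul] at c1 c2 ⊢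
    push_cast
    rw [c1, c2]
    simp
    ring

theorem rank3 {n : ℕ} (hn : Good n) (h3 : n % 3 = 1) (_h5 : n % 5 = 1 ∨ n % 5 = 4) :
    ∃ (Y : Finset V3) (χ : ℕ → V3 → ℤ) (U : Finset ℕ → ℤ),
      (∀ p ∈ n.primeFactors, ∀ y ∈ Y, χ p y = 1 ∨ χ p y = -1) ∧
      (∀ S ⊆ n.primeFactors, Sig n 1 S = 4 * (Psi Y χ S * U S) ∧
        Sig n 2 S = 4 * (Psi Y χ S * U S + Psi Y χ S ^ 2 + U S ^ 2) ∧
        (∏ p ∈ S, J(-15 | p) = -1 → Psi Y χ S = 0)) ∧
      12 * ((Y.card : ℤ) + U ∅) = pts n := by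
  obtain ⟨y, hy⟩ := exists_base G3 (4 * n)
  have h4 := hn.mod4
  have F1 : Fam n G3 y (XX G3 n) tw := mk_fam mem_XX3 hy (fun x => by simp [v3_eq, tw])
    fun x => by rw [bil_tw_left, bil_tw_right]; ring
  have Fa : Fam n G3 y (XX G3 n) ua3 := mk_fam mem_XX3 hy
    (fun x => by simp [v3_eq, ua3]; ring) fun x => by simp [bil_G3, ua3]; ring
  have Fb : Fam n G3 y (XX G3 n) ub3 := mk_fam mem_XX3 hy
    (fun x => by simp [v3_eq, ub3]; omega) fun x => by simp [bil_G3, ub3]; ring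
  have Fc : Fam n G3 y (XX G3 n) uc3 := mk_fam mem_XX3 hy
    (fun x => by simp [v3_eq, uc3]) fun x => by simp [bil_G3, uc3]; ring
  have Aa : ∀ S ⊆ n.primeFactors, ∀ s : ℤ, (s = 1 ∨ s = -1) →
      PP n S G3 y (XX G3 n) ua3 s = hilS n S 2 * PP n S G3 y (XX G3 n) tw s := by
    intro S hS s hs
    have d : ∀ x ∈ XX G3 n, (15 : ℤ) ∣ 4 * n - bil G3 (tw x) (ua3 x) := fun x hx => by
      rw [mem_XX3, bil_G3] at hx
      refine ⟨4 * x 0 ^ 2 + 4 * x 1 ^ 2, ?_⟩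
      simp [bil_G3, tw, ua3]; linear_combination (-4) * hx
    nth_rewrite 1 [← one_mul s]
    refine PP_move hn hS ev30_G3 F1 Fa.norm (Or.inl rfl) hs
      (fun x hx => Dvd.dvd.trans (by norm_num) (d x hx))
      (fun x hx => by rw [one_mul]; exact Dvd.dvd.trans (by norm_num) (d x hx)) fun x hx => ?_
    have e : 2 * (4 * n + bil G3 (tw x) (ua3 x))
        = 2 ^ 2 * (2 * ((x 1 + 2 * x 2) ^ 2 + n * 1 ^ 2)) := by
      simp [bil_G3, tw, ua3]; ring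
    rw [eta, e, hilS_sq_mul hn hS two_ne_zero, hilS_mul' hS, hilS_norm hn hS, mul_one]
    have : (0 : ℤ) < n := by omega
    positivity
  have Ab : ∀ S ⊆ n.primeFactors, ∀ s : ℤ, (s = 1 ∨ s = -1) →
      PP n S G3 y (XX G3 n) ub3 (-1 * s)
        = hilS n S 2 * hilS n S 5 * PP n S G3 y (XX G3 n) tw s := by
    intro S hS s hs
    have d3 : ∀ x ∈ XX G3 n, (3 : ℤ) ∣ 4 * n - bil G3 (tw x) (ub3 x) := fun x hx => by
      rw [mem_XX3, bil_G3] at hx
      refine ⟨40 * x 0 ^ 2 + 36 * x 1 ^ 2 + 24 * x 1 * x 2 + 4 * x 2 ^ 2, ?_⟩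
      simp [bil_G3, tw, ub3]; linear_combination (-4) * hx
    rw [← hilS_mul' hS]
    refine PP_move hn hS ev30_G3 F1 Fb.norm (Or.inr rfl) hs d3 (fun x hx => ?_)
      fun x hx => eta_of_sq hn hS (d3 x hx) (l := 2 * (x 1 - x 2)) ?_
    · rw [mem_XX3, bil_G3] at hx
      refine ⟨4 * (x 1 - x 2) ^ 2, ?_⟩
      simp [bil_G3, tw, ub3]; linear_combination (-4) * hx
    · rw [mem_XX3, bil_G3] at hx
      simp [bil_G3, tw, ub3]; linear_combination (-8) * hx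
  have Ac : ∀ S ⊆ n.primeFactors, ∀ s : ℤ, (s = 1 ∨ s = -1) →
      PP n S G3 y (XX G3 n) uc3 (-1 * s)
        = hilS n S 2 * hilS n S 5 * PP n S G3 y (XX G3 n) tw s := by
    intro S hS s hs
    have d3 : ∀ x ∈ XX G3 n, (3 : ℤ) ∣ 4 * n - bil G3 (tw x) (uc3 x) := fun x hx => by
      rw [mem_XX3, bil_G3] at hx
      refine ⟨40 * x 0 ^ 2 + 16 * x 1 ^ 2 - 16 * x 1 * x 2 + 4 * x 2 ^ 2, ?_⟩
      simp [bil_G3, tw, uc3]; linear_combination (-4) * hx
    rw [← hilS_mul' hS]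
    refine PP_move hn hS ev30_G3 F1 Fc.norm (Or.inr rfl) hs d3 (fun x hx => ?_)
      fun x hx => eta_of_sq hn hS (d3 x hx) (l := 2 * (2 * x 1 + x 2)) ?_
    · rw [mem_XX3, bil_G3] at hx
      refine ⟨4 * (2 * x 1 + x 2) ^ 2, ?_⟩
      simp [bil_G3, tw, uc3]; linear_combination (-4) * hx
    · rw [mem_XX3, bil_G3] at hx
      simp [bil_G3, tw, uc3]; linear_combination (-8) * hx
  have half : ∀ S ⊆ n.primeFactors, ∀ s : ℤ, (s = 1 ∨ s = -1) → PP n S G3 y (XX G3 n) tw s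
      = 2 * ∑ x ∈ (XX G3 n).filter (fun x => 0 < x 0), cc n S G3 y (tw x) s := by
    intro S hS s hs
    have m : ∀ x ∈ XX G3 n, r3 x ∈ XX G3 n := fun x hx => by
      rw [mem_XX3, bil_G3] at hx ⊢
      simp [r3]; linear_combination hx
    refine sum_half r3 m (fun x => by simp [v3_eq, r3]) (fun x => by simp [r3]) (fun x hx => ?_) _
      fun x hx => ?_
    · rw [mem_XX3, bil_G3] at hx
      exact odd_first h4 (k := 8 * x 1 * x 1 + 2 * x 1 * x 2 + 2 * x 2 * x 2)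
        (by linear_combination hx)
    · have hx3 := mem_XX3.1 hx
      rw [bil_G3] at hx3
      have d : (15 : ℤ) ∣ 4 * n - bil G3 (tw x) (tw (r3 x)) := by
        refine ⟨8 * x 0 ^ 2 + 8 * x 1 ^ 2, ?_⟩
        simp [bil_G3, tw, r3]; linear_combination (-4) * hx3
      have d3 : (3 : ℤ) ∣ 4 * n - bil G3 (tw x) (tw (r3 x)) := Dvd.dvd.trans (by norm_num) d
      nth_rewrite 1 [← one_mul s]
      rw [cc_move hn hS ev30_G3 (F1.base x hx) (F1.norm x hx) (F1.norm _ (m x hx)) (Or.inl rfl) hs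
        d3 (by rw [one_mul]; exact Dvd.dvd.trans (by norm_num) d),
        eta_of_sq hn hS d3 (c := 1 ^ 2 * 1) (l := 4 * (x 1 + 2 * x 2))
          (by simp [bil_G3, tw, r3]; linear_combination (-8) * hx3)]
      have := hilS_sq hn hS (k := 1) one_ne_zero
      rw [sq, ← hilS_mul' hS] at this
      simp only [one_pow, mul_one] at this ⊢
      rw [this, one_mul]
  have hPsi : ∀ S, Psi (((XX G3 n).filter (fun x => 0 < x 0)).filter
      fun x => (3 : ℤ) ∣ 4 * n - bil G3 y (tw x) ∧ (5 : ℤ) ∣ 4 * n - 1 * bil G3 y (tw x))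
      (fun p x => hil n p (2 * (4 * n + bil G3 y (tw x)))) S
      = ∑ x ∈ (XX G3 n).filter (fun x => 0 < x 0), cc n S G3 y (tw x) 1 := fun S => by
    rw [Psi, sum_filter]; rfl
  refine ⟨((XX G3 n).filter (fun x => 0 < x 0)).filter
      fun x => (3 : ℤ) ∣ 4 * n - bil G3 y (tw x) ∧ (5 : ℤ) ∣ 4 * n - 1 * bil G3 y (tw x),
    fun p x => hil n p (2 * (4 * n + bil G3 y (tw x))), fun S => hilS n S 5 *
    ∑ x ∈ (XX G3 n).filter (fun x => 0 < x 0), cc n S G3 y (tw x) (-1), ?_, ?_, ?_⟩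
  pick_goal 2
  · intro S hS
    rw [hPsi]
    beta_reduce
    obtain ⟨e1, e2⟩ := Sig_eqs hn hS
    have z1 : ∀ m, ZZ G1 n m S = 0 := fun m => by rw [ZZ, XX_empty_1 h3, sum_empty]
    have z2 : ∀ m, ZZ G2 n m S = 0 := fun m => by rw [ZZ, XX_empty_2 h3, sum_empty]
    have z31 : ZZ G3 n 1 S = _ := (ZZ_one hn hS (G := G3) (u := tw) fun x w => by
      rw [bil_tw_left, bil_tw_right]; ring).trans (sum_ph hn hS ev30_G3 F1 F1)
    have z32 := ZZ_two hn hS G3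
    simp only [nb3 h4, FF_two (bil_tw_left G3 _ _), sum_add_distrib] at z32
    rw [sum_ph hn hS ev30_G3 F1 Fa, sum_ph hn hS ev30_G3 F1 Fb, sum_ph hn hS ev30_G3 F1 Fc] at z32
    have b1 := Ab S hS 1 (Or.inl rfl)
    have b2 := Ab S hS (-1) (Or.inr rfl)
    have c1 := Ac S hS 1 (Or.inl rfl)
    have c2 := Ac S hS (-1) (Or.inr rfl)
    norm_num at b1 b2 c1 c2
    rw [z32, z1, z1, z2, z2, Aa S hS 1 (Or.inl rfl), Aa S hS (-1) (Or.inr rfl), b1, b2, c1, c2]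
      at e2
    rw [z31, z1, z2] at e1
    have van : PP n S G3 y (XX G3 n) tw 1
        = (∏ p ∈ S, J(-15 | p)) * PP n S G3 y (XX G3 n) tw 1 := by
      have m : ∀ x ∈ XX G3 n, io x ∈ XX G3 n := fun x hx => by
        rw [mem_XX3, bil_G3] at hx ⊢
        simp [io]; linear_combination hx
      have i : ∀ x, io (io x) = x := fun x => by simp [v3_eq, io]
      have e : ∀ x ∈ XX G3 n, bil G3 x (io x) = n - 30 * x 0 ^ 2 := fun x hx => by
        rw [mem_XX3, bil_G3] at hx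
        simp [bil_G3, io]; linear_combination hx
      nth_rewrite 1 [← PP_reindex io io m m i i, ← one_mul (1 : ℤ)]
      refine PP_move hn hS ev30_G3 F1 (fun x hx => F1.norm _ (m x hx)) (Or.inl rfl) (Or.inl rfl)
        (fun x hx => ⟨40 * x 0 ^ 2, ?_⟩) (fun x hx => ⟨24 * x 0 ^ 2, ?_⟩) fun x hx =>
          eta_io hn hS (Or.inl rfl) (u := x 1 + 2 * x 2) (z := x 1) ?_ (e x hx)
      · rw [bil_tw_left, bil_tw_right, e x hx]; ring
      · rw [bil_tw_left, bil_tw_right, e x hx]; ring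
      · rw [mem_XX3, bil_G3] at hx
        linear_combination -hx
    rw [half S hS 1 (Or.inl rfl)] at e1 e2 van
    rw [half S hS (-1) (Or.inr rfl)] at e1 e2
    have s2 := hilS_sq hn hS (k := 2) two_ne_zero
    have s5 := hilS_sq hn hS (k := 5) (by norm_num)
    generalize ∑ x ∈ (XX G3 n).filter (fun x => 0 < x 0), cc n S G3 y (tw x) 1 = A at *
    generalize ∑ x ∈ (XX G3 n).filter (fun x => 0 < x 0), cc n S G3 y (tw x) (-1) = B at *
    generalize hilS n S 2 = a at *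
    generalize hilS n S 5 = b at *
    refine ⟨?_, ?_, fun h => by rw [h] at van; linarith⟩ <;>
    rcases sq_eq_one_iff.1 s2 with rfl | rfl <;> rcases sq_eq_one_iff.1 s5 with rfl | rfl <;>
      linarith
  · intro p hp x hx
    exact chi_sign hn hp (mem_filter.1 hx).2.1
  · beta_reduce
    have c1 := F1.card hn ev30_G3
    have c3 := hPsi ∅
    rw [half ∅ (empty_subset _) 1 (Or.inl rfl), half ∅ (empty_subset _) (-1) (Or.inr rfl)] at c1
    simp only [Psi, prod_empty, sum_const, nsmul_eq_mul, mul_one] at c3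
    rw [pts, XX_empty_1 h3, XX_empty_2 h3, c3]
    simp only [hilS, prod_empty, one_mul]
    push_cast
    rw [c1]
    simp
    ring

end Pool.Agent.Lib.MP_696deb_nt
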