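import Pool.Agent.Lib.MP_696deb_nt.AnDefs
import Pool.Agent.Lib.MP_696deb_nt.TernRank
import Pool.Agent.Lib.MP_696deb_nt.TernPoints
import Pool.Agent.Lib.MP_696deb_nt.SymClosed
import Pool.Agent.Lib.MP_696deb_nt.Per
import Pool.Agent.Lib.MP_696deb_nt.ClassFour
import Pool.Agent.Lib.MP_696deb_nt.CntDefs

-- part Pool.Agent.Lib.MP_696deb_nt.AnMellin
section

set_option autoImplicit false

open Complex Filter Topology Set MeasureTheory Asymptotics
open scoped Real

namespace Pool.Agent.Lib.MP_696deb_nt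

lemma isBigO_id_of_deriv {Φ Φ' : ℝ → ℂ} (hd : ∀ y : ℝ, 0 < y → HasDerivAt Φ (Φ' y) y)
    (h0 : Φ' =O[𝓝[>] 0] fun y : ℝ => y ^ (0 : ℝ)) (hΦ : Tendsto Φ (𝓝[>] 0) (𝓝 0)) :
    Φ =O[𝓝[>] 0] fun y : ℝ => y ^ (-(-1) : ℝ) := by
  obtain ⟨C, hC0, hC⟩ := h0.exists_pos
  obtain ⟨δ, hδ, hC⟩ := mem_nhdsGT_iff_exists_Ioo_subset.mp hC.bound
  refine IsBigO.of_bound C ?_
  filter_upwards [Ioo_mem_nhdsGT hδ] with y hy
  have h1 : Tendsto (fun x => ‖Φ y - Φ x‖) (𝓝[>] 0) (𝓝 ‖Φ y - 0‖) :=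
    (tendsto_const_nhds.sub hΦ).norm
  rw [sub_zero] at h1
  rw [neg_neg, Real.rpow_one, Real.norm_of_nonneg hy.1.le]
  refine le_of_tendsto h1 ?_
  filter_upwards [Ioo_mem_nhdsGT hy.1] with x hx
  have h2 := (convex_Ioo (0 : ℝ) δ).norm_image_sub_le_of_norm_hasDerivWithin_le (f := Φ) (f' := Φ')
    (C := C) (x := x) (y := y) (fun t ht => (hd t ht.1).hasDerivWithinAt)
    (fun t ht => by simpa using hC ht) ⟨hx.1, hx.2.trans hy.2⟩ hy
  refine h2.trans ?_
  rw [Real.norm_of_nonneg (sub_nonneg.mpr hx.2.le)]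
  have := hx.1
  gcongr
  linarith

lemma mellin_ibp {Φ φ : ℝ → ℂ} {c : ℝ} (hc : 0 < c) {K : ℂ}
    (hd : ∀ y : ℝ, 0 < y → HasDerivAt Φ (K * φ y) y) (hφc : LocallyIntegrableOn φ (Ioi 0))
    (hφt : φ =O[atTop] fun y => Real.exp (-c * y)) (hφ0 : φ =O[𝓝[>] 0] fun y : ℝ => y ^ (0 : ℝ))
    (hΦt : Φ =O[atTop] fun y => Real.exp (-c * y)) (hΦ0 : Tendsto Φ (𝓝[>] 0) (𝓝 0)) :
    IntegrableOn (fun y : ℝ => Φ y / y) (Ioi 0) ∧
      ∫ y in Ioi (0 : ℝ), Φ y / y = -K * deriv (mellin φ) 1 := by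
  have hO := isBigO_id_of_deriv hd (hφ0.const_mul_left K) hΦ0
  have hΦc : LocallyIntegrableOn Φ (Ioi 0) :=
    ContinuousOn.locallyIntegrableOn (fun y hy => (hd y hy).continuousAt.continuousWithinAt)
      measurableSet_Ioi
  have h1 : IntegrableOn (fun y : ℝ => Φ y / y) (Ioi 0) := by
    have := mellinConvergent_of_isBigO_rpow_exp (s := 0) hc hΦc hΦt hO (by simp)
    refine (integrableOn_congr_fun (fun y _ => ?_) measurableSet_Ioi).mp this
    simp [cpow_neg_one, div_eq_inv_mul]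
  obtain ⟨h2, h3⟩ := mellin_hasDerivAt_of_isBigO_rpow (s := 1) (a := 2) (b := 0) hφc
    (hφt.trans (isLittleO_exp_neg_mul_rpow_atTop hc _).isBigO) (by simp)
    (by simpa using hφ0) (by simp)
  refine ⟨h1, ?_⟩
  rw [h3.deriv]
  have h4 : IntegrableOn (fun y : ℝ => φ y * (Real.log y : ℂ)) (Ioi 0) := by
    refine (integrableOn_congr_fun (fun y _ => ?_) measurableSet_Ioi).mp h2
    simp [mul_comm]
  have h5 := integral_Ioi_mul_deriv_eq_deriv_mul (a := 0) (u := Φ) (u' := fun y => K * φ y)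
    (v := fun y => (Real.log y : ℂ)) (v' := fun y => ((y : ℂ))⁻¹) (a' := 0) (b' := 0)
    (fun y hy => hd y hy)
    (fun y hy => by simpa using (Real.hasDerivAt_log (ne_of_gt hy)).ofReal_comp)
    (by simpa [Pi.mul_def, div_eq_mul_inv] using h1)
    (by simpa [Pi.mul_def, mul_assoc, IntegrableOn] using h4.const_mul K) ?_ ?_
  · simp only [div_eq_mul_inv]
    rw [h5, mellin]
    simp only [mul_assoc, integral_const_mul, sub_self, cpow_zero, one_smul, real_smul]
    simp [mul_comm]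
  · have h6 : Tendsto (fun y : ℝ => y ^ (-(-1) : ℝ) * ‖(Real.log y : ℂ)‖) (𝓝[>] 0) (𝓝 0) := by
      have := (tendsto_log_mul_rpow_nhdsGT_zero one_pos).norm
      rw [norm_zero] at this
      refine this.congr' ?_
      filter_upwards [self_mem_nhdsWithin] with y hy
      have hy' : (0 : ℝ) < y := hy
      simp [abs_of_pos hy', mul_comm]
    exact (hO.mul (isBigO_refl (fun y : ℝ => (Real.log y : ℂ)) _).norm_right).trans_tendsto h6
  · have h6 : Tendsto (fun y : ℝ => Real.exp (-c * y) * ‖(Real.log y : ℂ)‖) atTop (𝓝 0) := by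
      have h8 := (isLittleO_exp_neg_mul_rpow_atTop hc (-1)).mul_isBigO
        (Real.isLittleO_log_id_atTop.norm_left).isBigO
      refine (isLittleO_one_iff ℝ).mp ((h8.congr_left fun y => by simp).congr' EventuallyEq.rfl ?_)
      filter_upwards [eventually_gt_atTop 0] with y hy
      simp [Real.rpow_neg_one, hy.ne']
    exact (hΦt.mul (isBigO_refl (fun y : ℝ => (Real.log y : ℂ)) _).norm_right).trans_tendsto h6

open PowerSeries in
lemma Fi_isBigO : Fi =O[atI] fun z => Real.exp (-(2 * π) * z.im) := by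
  obtain ⟨B, hB⟩ : X ∣ (PowerSeries.mk fun n => (a15 n : ℂ) / n) := X_dvd_iff.mpr (by simp)
  have h : QE Fi (X ^ 1 * B) := by simpa [hB] using qe_Fi
  have h1 := IsBigO.mul h.of_X_pow_mul.bdd (isBigO_refl q1 atI).norm_right
  refine h1.congr (fun z => ?_) fun z => ?_
  · have := q1_ne z
    field_simp
  · simp [norm_q1]

theorem integral_Fi_line {A : ℤ} (hA : A ≠ 0) {S : Finset ℤ} {χ : ℤ → ℤ}
    (hL : ∑ k ∈ S, χ k * ms k A = 0) :
    IntegrableOn (fun y : ℝ => (∑ k ∈ S, χ k * Fi (k / A + y * I)) / y) (Ioi 0) ∧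
    ∫ y in Ioi (0 : ℝ), (∑ k ∈ S, χ k * Fi (k / A + y * I)) / y =
      deriv (fun s => ∑ k ∈ S, χ k * Ladd k A s) 1 := by
  set φ : ℝ → ℂ := fun y => ∑ k ∈ S, χ k * f15 (k / A + y * I) with hφ
  have hmel : ∀ s, mellin φ s = ∑ k ∈ S, χ k * mellin (fun y : ℝ => f15 (k / A + y * I)) s := by
    intro s
    simp only [mellin, hφ, Finset.smul_sum, ← integral_const_mul]
    rw [integral_finsetSum]
    · exact Finset.sum_congr rfl fun k _ => by simp only [smul_eq_mul, mul_left_comm]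
    · intro k _
      have := (f15_mellinConvergent k hA s).const_mul (χ k : ℂ)
      simpa only [smul_eq_mul, mul_left_comm] using this
  have hdiff : Differentiable ℂ (mellin φ) := by
    rw [funext hmel]
    exact Differentiable.fun_sum fun k _ => (f15_mellin_differentiable k hA).const_mul _
  have hL' : mellin φ 1 = 0 := by
    have h1 : (2 * π : ℂ) * mellin φ 1 = 0 := by
      rw [hmel, Finset.mul_sum, ← hL]
      refine Finset.sum_congr rfl fun k _ => ?_
      rw [← Ladd_one k hA, Ladd]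
      simp [mul_left_comm]
    exact (mul_eq_zero.mp h1).resolve_left (by simp)
  have hsum : (fun s => ∑ k ∈ S, χ k * Ladd k A s) =
      fun s => ((2 * π) ^ s * (Gamma s)⁻¹) * mellin φ s := by
    funext s
    rw [hmel, Finset.mul_sum]
    exact Finset.sum_congr rfl fun k _ => by rw [Ladd]; ring
  have hG : Differentiable ℂ fun s : ℂ => (2 * π : ℂ) ^ s * (Gamma s)⁻¹ :=
    (differentiable_id.const_cpow (Or.inl (by simp))).mul differentiable_one_div_Gamma
  have hder : deriv (fun s => ∑ k ∈ S, χ k * Ladd k A s) 1 = - -(2 * π) * deriv (mellin φ) 1 := by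
    rw [hsum, deriv_fun_mul (hG 1) (hdiff 1), hL']
    simp
  rw [hder]
  refine mellin_ibp (Φ := fun y : ℝ => ∑ k ∈ S, χ k * Fi (k / A + y * I)) (φ := φ)
    (c := 2 * π) (K := -(2 * π)) (by positivity) (fun y hy => ?_) ?_ ?_ ?_ ?_ ?_
  · simp only [hφ, Finset.mul_sum]
    refine HasDerivAt.fun_sum fun k _ => ?_
    have h3 := ((hasDerivAt_Fi (z := k / A + y * I) (by rw [← cast_div]; simpa using hy)).comp
      (y : ℂ) (((hasDerivAt_id (y : ℂ)).mul_const I).const_add (k / A : ℂ))).comp_ofReal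
    refine (h3.const_mul (χ k : ℂ)).congr_deriv ?_
    linear_combination (χ k * 2 * π * f15 (k / A + y * I)) * I_sq
  · refine ContinuousOn.locallyIntegrableOn (continuousOn_finsetSum _ fun k _ y hy => ?_)
      measurableSet_Ioi
    refine (ContinuousAt.continuousWithinAt (continuousAt_const.mul ?_))
    exact ContinuousAt.comp (f := fun y : ℝ => (k / A + y * I : ℂ))
      (qe_f15.hol _ (by rw [← cast_div]; simpa using hy)).continuousAt (by fun_prop)
  · exact IsBigO.fun_sum fun k _ => (cast_div k A ▸ f15_isBigO_top _).const_mul_left _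
  · exact IsBigO.fun_sum fun k _ => (f15_isBigO_zero k hA _).const_mul_left _
  · refine IsBigO.fun_sum fun k _ => IsBigO.const_mul_left ?_ _
    rw [← cast_div]
    exact (Fi_isBigO.comp_tendsto (tendsto_vert _)).congr_right fun y => by simp
  · rw [← hL]
    exact tendsto_finsetSum _ fun k _ => (tendsto_Fi_vert k hA).const_mul _

theorem integral_steps {ι : Type*} (s : Finset ι) (n y₀ : ι → ℝ) (hy : ∀ i ∈ s, 0 < y₀ i)
    (hn : ∑ i ∈ s, n i = 0) :
    IntegrableOn (fun y : ℝ => (∑ i ∈ s, n i * (1 - Real.sign (y ^ 2 - y₀ i)) / 2) / y) (Ioi 0) ∧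
    ∫ y in Ioi (0 : ℝ), (∑ i ∈ s, n i * (1 - Real.sign (y ^ 2 - y₀ i)) / 2) / y =
      ∑ i ∈ s, n i * Real.log (y₀ i) / 2 := by
  obtain ⟨δ, hδ, hδs⟩ : ∃ δ : ℝ, 0 < δ ∧ ∀ i ∈ s, δ < √(y₀ i) := by
    have : ∀ᶠ δ in 𝓝[>] (0 : ℝ), ∀ i ∈ s, δ < √(y₀ i) :=
      (eventually_all_finset s).mpr fun i hi =>
        nhdsWithin_le_nhds (eventually_lt_nhds (Real.sqrt_pos.mpr (hy i hi)))
    obtain ⟨δ, h1, h2⟩ := (this.and self_mem_nhdsWithin).exists
    exact ⟨δ, h2, h1⟩
  have hae : (fun y : ℝ => (∑ i ∈ s, n i * (1 - Real.sign (y ^ 2 - y₀ i)) / 2) / y) =ᵐ[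
      volume.restrict (Ioi 0)]
      fun y => ∑ i ∈ s, n i * (Ioc δ √(y₀ i)).indicator (fun y : ℝ => y⁻¹) y := by
    have h1 : ∀ᵐ y : ℝ, ∀ i ∈ s, y ≠ √(y₀ i) :=
      (ae_ball_iff s.countable_toSet).mpr fun i _ => by simp [ae_iff]
    filter_upwards [ae_restrict_of_ae h1, ae_restrict_mem measurableSet_Ioi] with y h hy0
    have hy0 : (0 : ℝ) < y := hy0
    rcases le_or_gt y δ with h2 | h2
    · have h3 : ∀ i ∈ s, n i * (1 - Real.sign (y ^ 2 - y₀ i)) / 2 = n i := fun i hi => by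
        rw [Real.sign_of_neg (sub_neg.mpr ((Real.lt_sqrt hy0.le).mp (h2.trans_lt (hδs i hi))))]
        ring
      rw [Finset.sum_congr rfl h3, hn, zero_div]
      exact (Finset.sum_eq_zero fun i _ => by
        rw [indicator_of_notMem (fun h => absurd h.1 (not_lt.mpr h2)), mul_zero]).symm
    · rw [Finset.sum_div]
      refine Finset.sum_congr rfl fun i hi => ?_
      rcases lt_or_gt_of_ne (h i hi) with h3 | h3
      · rw [Real.sign_of_neg (sub_neg.mpr ((Real.lt_sqrt hy0.le).mp h3)),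
          indicator_of_mem (show y ∈ Ioc δ √(y₀ i) from ⟨h2, h3.le⟩)]
        ring
      · rw [Real.sign_of_pos (sub_pos.mpr ((Real.sqrt_lt' hy0).mp h3)),
          indicator_of_notMem (fun h => absurd h.2 (not_le.mpr h3))]
        ring
  have hint : ∀ i ∈ s, IntegrableOn (fun y : ℝ => y⁻¹) (Ioc δ √(y₀ i)) := fun i hi =>
    ((continuousOn_inv₀.mono fun y hy' => (hδ.trans_le hy'.1).ne').integrableOn_Icc).mono_set
      Ioc_subset_Icc_self
  have hint' : ∀ i ∈ s, Integrable (fun y => n i * (Ioc δ √(y₀ i)).indicator (fun y : ℝ => y⁻¹) y)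
      (volume.restrict (Ioi 0)) := fun i hi =>
    (((integrable_indicator_iff measurableSet_Ioc).mpr (hint i hi)).const_mul _).restrict
  refine ⟨(integrable_finsetSum _ hint').congr hae.symm, ?_⟩
  rw [integral_congr_ae hae, integral_finsetSum _ hint']
  have h5 : ∀ i ∈ s, ∫ y in Ioi (0 : ℝ), n i * (Ioc δ √(y₀ i)).indicator (fun y : ℝ => y⁻¹) y =
      n i * Real.log (y₀ i) / 2 - n i * Real.log δ := fun i hi => by
    rw [integral_const_mul, setIntegral_indicator measurableSet_Ioc,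
      inter_eq_right.mpr (show Ioc δ √(y₀ i) ⊆ Ioi 0 from fun y hy' => hδ.trans hy'.1),
      ← intervalIntegral.integral_of_le (hδs i hi).le,
      integral_inv_of_pos hδ (hδ.trans (hδs i hi)),
      Real.log_div (hδ.trans (hδs i hi)).ne' hδ.ne', Real.log_sqrt (hy i hi).le]
    ring
  rw [Finset.sum_congr rfl h5, Finset.sum_sub_distrib, ← Finset.sum_mul, hn, zero_mul, sub_zero]

end Pool.Agent.Lib.MP_696deb_nt
end

-- part Pool.Agent.Lib.MP_696deb_nt.Core
section

set_option autoImplicit false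

namespace Pool.Agent.Lib.MP_696deb_nt

theorem core {N : ℕ} (hN : Squarefree N) (h4 : N % 4 = 3) (h3 : N % 3 = 2)
    (h5 : N % 5 = 2 ∨ N % 5 = 3) (hB : CondB N) :
    ∃ G : ℂ → ℂ, Differentiable ℂ G ∧
      (∀ s : ℂ, (3 : ℝ) / 2 < s.re → G s = LSeries (fun k => xi N k * a15 k) s) ∧ G 1 ≠ 0 := by
  have hn : Good N := ⟨hN, h4, by
    rw [show 15 = 3 * 5 from rfl]
    exact Nat.Coprime.mul_right
      ((Nat.coprime_comm.mp ((Nat.Prime.coprime_iff_not_dvd Nat.prime_three).mpr (by omega))))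
      ((Nat.coprime_comm.mp ((Nat.Prime.coprime_iff_not_dvd Nat.prime_five).mpr (by omega))))⟩
  obtain ⟨aa, bb, hS, H⟩ := symbols
  exact exists_entire_ne_zero hn (H per hom15_per per_ne_zero N hn
    (GInd.aa_ne_zero_of (fun _ h => points h) (fun _ h a b => rank5 h a b)
      (fun _ h a b => rank3 h a b) (fun _ _ h _ hS => Sig_compl h hS) hS hn h3 h5 hB))

end Pool.Agent.Lib.MP_696deb_nt
end

-- part Pool.Agent.Lib.MP_696deb_nt.Glue1
section

/-! Assembly of the analytic statement when the twisted series has a simple zero. -/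

set_option autoImplicit false

open Complex Finset NumberTheorySymbols

namespace Pool.Agent.Lib.MP_696deb_nt

theorem sum_Ladd_eq {N : ℕ} (hN : Odd N) (hsq : Squarefree N) : ∃ τ : ℂ, τ ≠ 0 ∧
    ∀ s : ℂ, (3 : ℝ) / 2 < s.re → τ * ∑ k ∈ range N, (J((k : ℤ) | N) : ℂ) * Ladd k N s =
      LSeries (fun n => xi N n * a15 n) s := by
  have : NeZero N := ⟨hsq.ne_zero⟩
  have h0 := gs_one_ne hN hsq
  have hξ : ∀ n : ℕ, xi N n = ∑ k ∈ range N,
      (gs (1 : ZMod N))⁻¹ * (J((k : ℤ) | N) : ℂ) * q1 ((k : ℤ) / (N : ℤ)) ^ n := fun n => by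
    have h4 := gs_eq hN hsq n
    simp only [mul_assoc, ← mul_sum]
    rw [eq_inv_mul_iff_mul_eq₀ h0, mul_comm, xi, ← h4, gs]
    refine sum_nbij' (fun j : ZMod N => j.val) (fun j : ℕ => (j : ZMod N)) (by
      simp [ZMod.val_lt]) (by simp) (by simp)
      (fun j hj => ZMod.val_cast_of_lt (by simpa using hj)) fun k _ => ?_
    have := q1_div_pow N (k.val : ℤ) n
    simp only [Int.cast_natCast, ZMod.natCast_zmod_val] at this ⊢
    rw [this, jc]
  refine ⟨_, inv_ne_zero h0, fun s hs => (LSeriesHasSum.LSeries_eq ?_).symm⟩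
  have := hasSum_sum (s := range N) fun k _ =>
    (hasSum_Ladd k N hs).mul_left ((gs (1 : ZMod N))⁻¹ * (J((k : ℤ) | N) : ℂ))
  unfold LSeriesHasSum
  convert! this using 2 with n
  · rcases eq_or_ne n 0 with rfl | hn
    · simp
    simp only [LSeries.term_of_ne_zero hn, hξ, sum_mul, sum_div]
    exact sum_congr rfl fun k _ => by ring
  · simp only [mul_sum, mul_assoc]

theorem loc_bad {N : ℕ} (h4 : N % 4 = 3) {p : ℕ} (hp : p.Prime)
    (hd : (p : ℤ) ∣ 2 * (81 * 225 * 144) ^ 2 * (N : ℤ) ^ 6) :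
    loc (xi N) a15 (fun p => if p ∣ 15 then 0 else p) p 1 ≠ 0 := by
  refine loc_one_ne_zero _ _ _ hp.ne_zero ?_
  by_cases hN : p ∣ N
  · left
    have : Int.gcd (p : ℤ) N ≠ 1 := by
      rw [Int.gcd_natCast_natCast]
      exact fun h => (Nat.Prime.coprime_iff_not_dvd hp).mp h hN
    have : NeZero N := ⟨by omega⟩
    rw [xi, jacobiSym.eq_zero_iff_not_coprime.mpr ‹_›]
    simp
  rcases xi_cases N p with h | h
  · exact Or.inl h
  refine Or.inr ⟨h, ?_⟩
  have hP := Nat.prime_iff_prime_int.mp hp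
  have h1 : (p : ℤ) ∣ 2 * (81 * 225 * 144) ^ 2 :=
    (hP.dvd_or_dvd hd).resolve_right fun h' => hN (by exact_mod_cast hP.dvd_of_dvd_pow h')
  have h2 : (p : ℤ) ∣ 30 ^ 16 := h1.trans (by norm_num)
  have h3 : p ∣ 2 * 3 * 5 := by exact_mod_cast hP.dvd_of_dvd_pow h2
  rcases (Nat.Prime.dvd_mul hp).mp h3 with h | h
  · rcases (Nat.Prime.dvd_mul hp).mp h with h | h
    · obtain rfl := (Nat.prime_dvd_prime_iff_eq hp Nat.prime_two).mp h
      norm_num [a15_two]
    · obtain rfl := (Nat.prime_dvd_prime_iff_eq hp Nat.prime_three).mp h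
      norm_num [a15_three]
  · obtain rfl := (Nat.prime_dvd_prime_iff_eq hp Nat.prime_five).mp h
    norm_num [a15_five]

/-- A simple zero of the twisted series and rank one give the statement for the twist. -/
theorem bsd_of_deriv {N : ℕ} (hn : Good N) (h0 : perA N = 0)
    (h1 : deriv (fun s => ∑ k ∈ range N, (J((k : ℤ) | N) : ℂ) * Ladd k N s) 1 ≠ 0)
    (hr : Module.finrank ℤ (twist15 (-(N : ℤ))).toAffine.Point = 1) {a b : ℤ}
    (ha : a = -12987 * (N : ℤ) ^ 2) (hb : b = 263466 * (N : ℤ) ^ 3) :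
    ∃ F : ℂ → ℂ, Differentiable ℂ F ∧
      (∀ s : ℂ, (3 : ℝ) / 2 < s.re →
        HasProd
          (fun p : ℕ =>
            if p.Prime ∧ ¬ ((p : ℤ) ∣ 2 * (-4 * a ^ 3 - 27 * b ^ 2)) then
              (1 - ((p : ℂ) - (Nat.card {q : ZMod p × ZMod p //
                  q.2 ^ 2 = q.1 ^ 3 + (a : ZMod p) * q.1 + (b : ZMod p)} : ℂ))
                  * (p : ℂ) ^ (-s) + (p : ℂ) ^ (1 - 2 * s))⁻¹
            else 1)
          (F s)) ∧
      analyticOrderAt F 1 =
        ((Module.finrank ℤ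
          (WeierstrassCurve.Affine.Point
            (WeierstrassCurve.toAffine
              ({ a₁ := 0, a₂ := 0, a₃ := 0, a₄ := (a : ℚ), a₆ := (b : ℚ) } :
                WeierstrassCurve ℚ))) : ℕ) : ℕ∞) ∧
      analyticOrderAt F 1 = 1 := by
  have h4 := hn.mod4
  have hN0 : (N : ℤ) ≠ 0 := by omega
  have hM : 2 * (-4 * a ^ 3 - 27 * b ^ 2) = 2 * (81 * 225 * 144) ^ 2 * (N : ℤ) ^ 6 := by
    rw [ha, hb]; ring
  obtain ⟨τ, hτ, hL⟩ := sum_Ladd_eq (Nat.odd_iff.mpr (by omega)) hn.sqf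
  set H := fun s => ∑ k ∈ range N, (J((k : ℤ) | N) : ℂ) * Ladd k N s with hH
  have dH : Differentiable ℂ H :=
    Differentiable.fun_sum fun k _ => (Ladd_differentiable k hN0).const_mul _
  set P := fun s => ∏ p ∈ (2 * (-4 * a ^ 3 - 27 * b ^ 2)).natAbs.primeFactors,
    loc (xi N) a15 (fun p => if p ∣ 15 then 0 else p) p s with hP
  have dP : Differentiable ℂ P := Differentiable.fun_finsetProd fun p hp =>
    loc_differentiable _ _ _ (Nat.mem_primeFactors.mp hp).1.ne_zero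
  have P1 : P 1 ≠ 0 := prod_ne_zero_iff.mpr fun p hp => loc_bad h4 (Nat.mem_primeFactors.mp hp).1
    (hM ▸ Int.natCast_dvd.mpr (Nat.mem_primeFactors.mp hp).2.1)
  have H1 : H 1 = 0 := by simpa only [hH, Ladd_one _ hN0, perA] using h0
  have dF : Differentiable ℂ fun s => P s * (τ * H s) := dP.mul (dH.const_mul τ)
  have key : analyticOrderAt (fun s => P s * (τ * H s)) 1 = 1 := by
    refine (dF.analyticAt 1).analyticOrderAt_eq_one_of_zero_deriv_ne_zero (by simp [H1]) ?_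
    rw [((dP 1).hasDerivAt.fun_mul ((dH 1).hasDerivAt.const_mul τ)).deriv, H1, mul_zero, mul_zero,
      zero_add]
    exact mul_ne_zero P1 (mul_ne_zero hτ h1)
  have e : twist15 (-(N : ℤ)) =
      ({ a₁ := 0, a₂ := 0, a₃ := 0, a₄ := (a : ℚ), a₆ := (b : ℚ) } : WeierstrassCurve ℚ) := by
    rw [twist15, ha, hb]
    congr 2 <;> ring
  refine ⟨_, dF, fun s hs => ?_, by rw [key, ← e, hr, Nat.cast_one], key⟩
  rw [hL s hs]
  refine hasProd_frozen hecke15 (xi_one N) (xi_mul N)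
    (summable_twist (norm_xi_le N) (a15_summable hs)) (by rw [hM]; positivity) _ fun p hp hd => ?_
  rw [hM] at hd
  have h30 : ¬ p ∣ 30 := fun h => hd (by
    have : (p : ℤ) ∣ 30 := by exact_mod_cast h
    exact (this.trans (by norm_num)).mul_right _)
  have hN : ¬ p ∣ N := fun h => hd (by
    have : (p : ℤ) ∣ N := by exact_mod_cast h
    exact (this.trans (dvd_pow_self _ (by norm_num))).mul_left _)
  have h15 : ¬ p ∣ 15 := fun h => h30 (h.trans (by norm_num))
  refine ⟨trace_twist h4 ha hb hp h30 hN, ?_, by simp [h15]⟩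
  have : Int.gcd (p : ℤ) N = 1 := by
    rw [Int.gcd_natCast_natCast]; exact (Nat.Prime.coprime_iff_not_dvd hp).mpr hN
  rw [xi]
  exact_mod_cast jacobiSym.sq_one this

end Pool.Agent.Lib.MP_696deb_nt
end
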