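import Pool.Agent.Lib.MP_696deb_nt.ThV2
import Pool.Agent.Lib.MP_696deb_nt.Glue1

set_option autoImplicit false

open Filter Topology Set MeasureTheory UpperHalfPlane Metric CongruenceSubgroup
open scoped Real MatrixGroups ENNReal NNReal

namespace Pool.Agent.Lib.MP_696deb_nt

/-- The point `x + i y` of the upper half plane. -/
noncomputable def vpt (x y : ℝ) : ℍ := ofComplex (x + y * Complex.I)

theorem coe_vpt (x : ℝ) {y : ℝ} (hy : 0 < y) : (vpt x y : ℂ) = x + y * Complex.I := by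
  rw [vpt, ofComplex_apply_of_im_pos (by simpa using hy)]

theorem im_vpt (x : ℝ) {y : ℝ} (hy : 0 < y) : (vpt x y).im = y := by
  rw [← coe_im, coe_vpt x hy]
  simp

theorem measurable_vpt (x : ℝ) : Measurable (vpt x) :=
  measurable_ofComplex.comp (by fun_prop)

theorem dist_vpt (x : ℝ) {y : ℝ} (hy : 0 < y) : dist (vpt x y) (vpt 0 y) ≤ |x| / y := by
  refine (dist_le_dist_coe_div_sqrt _ _).trans_eq ?_
  rw [coe_vpt x hy, coe_vpt 0 hy, im_vpt x hy, im_vpt 0 hy, Real.sqrt_mul_self hy.le]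
  simp

theorem line_small {k A : ℤ} (hA : 0 < A) (h15 : IsCoprime A 15) (hk : IsCoprime k A) :
    ∃ x : ℝ, ∃ γ ∈ Gamma0 15, ∀ y : ℝ, 0 < y →
      vpt (k / A) y = γ • ModularGroup.S • vpt x ((A : ℝ) ^ 2 * y)⁻¹ := by
  obtain ⟨u, v, h⟩ := h15.mul_right hk.symm
  refine ⟨-(15 * v) / A, ⟨!![u, k; -(15 * v), A], by
    rw [Matrix.det_fin_two_of]; linear_combination h⟩, ?_, fun y hy => ?_⟩
  · rw [Gamma0_mem, ZMod.intCast_zmod_eq_zero_iff_dvd]
    simp
  · ext1
    rw [smul_smul, coe_smul_eq_mob, coe_vpt _ hy, coe_vpt _ (by positivity), cast_div,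
      ← mob_pth (a := k) (b := -u) (c := A) (d := 15 * v) (by linear_combination h) hA.ne' hy.ne']
    simp [ModularGroup.S, Matrix.mul_apply, Fin.sum_univ_two, pth]

theorem Tame.lip' {Γ : Subgroup SL(2, ℤ)} [Γ.FiniteIndex] {u : ℍ → ℝ} (hu : Tame Γ u) :
    ∃ C : ℝ, 0 ≤ C ∧ ∀ ε ∈ Ioc (0 : ℝ) 1, ∀ z z' : ℍ,
      |avg ε u z - avg ε u z'| ≤ C * dist z z' := by
  obtain ⟨C, hC⟩ := hu.lip
  obtain ⟨B, hB⟩ := hu.avg_abs_le
  refine ⟨|C| + 2 * |B|, by positivity, fun ε hε z z' => ?_⟩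
  have h0 : 0 ≤ dist z z' := dist_nonneg
  rcases le_total (dist z z') 1 with h | h
  · refine (hC ε hε z z' h).trans (mul_le_mul_of_nonneg_right ?_ h0)
    linarith [le_abs_self C, abs_nonneg B]
  · have h1 := (abs_avg_le hε.1 u z).trans ((hB ε hε z).trans (le_abs_self B))
    have h2 := (abs_avg_le hε.1 u z').trans ((hB ε hε z').trans (le_abs_self B))
    nlinarith [abs_sub (avg ε u z) (avg ε u z'), abs_nonneg C, abs_nonneg B]

theorem Tame.tendsto_line {u : ℍ → ℝ} (hu : Tame (Gamma0 15) u) {A : ℤ} (hA : 0 < A)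
    (h15 : IsCoprime A 15) {S : Finset ℤ} {χ : ℤ → ℤ} (hχ : ∑ k ∈ S, χ k = 0)
    (hcop : ∀ k ∈ S, χ k ≠ 0 → IsCoprime k A) :
    Tendsto (fun ε => ∫ y in Ioi (0 : ℝ), (∑ k ∈ S, χ k * avg ε u (vpt (k / A) y)) / y)
      (𝓝[>] 0) (𝓝 0) := by
  obtain ⟨C, hC0, hC⟩ := hu.lip'
  have hχ' : ∑ k ∈ S, (χ k : ℝ) = 0 := by exact_mod_cast hχ
  have h1 : ∀ k ∈ S, ∃ B : ℝ, ∀ ε ∈ Ioc (0 : ℝ) 1, ∀ y : ℝ, 0 < y →
      |χ k * (avg ε u (vpt (k / A) y) - avg ε u (if y ≤ 1 then
        ModularGroup.S • vpt 0 ((A : ℝ) ^ 2 * y)⁻¹ else vpt 0 y)) / y| ≤ B * (1 + y ^ 2)⁻¹ := by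
    intro k hk
    by_cases h0 : χ k = 0
    · exact ⟨0, by simp [h0]⟩
    obtain ⟨x, γ, hγ, h⟩ := line_small hA h15 (hcop k hk h0)
    refine ⟨|(χ k : ℝ)| * (2 * C * (|x| * A ^ 2 + |(k / A : ℝ)|)), fun ε hε y hy => ?_⟩
    rw [mul_div_assoc, abs_mul, mul_assoc, abs_div, abs_of_pos hy]
    refine mul_le_mul_of_nonneg_left ?_ (abs_nonneg _)
    rw [← div_eq_mul_inv, div_le_div_iff₀ hy (by positivity)]
    have h2 := abs_nonneg (k / A : ℝ)
    have h3 : 0 ≤ |x| * (A : ℝ) ^ 2 := by positivity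
    split_ifs with h4
    · have h5 := hC ε hε (ModularGroup.S • vpt x ((A : ℝ) ^ 2 * y)⁻¹)
        (ModularGroup.S • vpt 0 ((A : ℝ) ^ 2 * y)⁻¹)
      have h6 := mul_le_mul_of_nonneg_left
        (dist_vpt x (y := ((A : ℝ) ^ 2 * y)⁻¹) (by positivity)) hC0
      rw [div_inv_eq_mul, ← mul_assoc |x|] at h6
      rw [dist_smul_int] at h5
      rw [h y hy, avg_inv hu.inv _ hγ]
      refine (mul_le_mul (h5.trans h6) (show 1 + y ^ 2 ≤ 2 by nlinarith) (by positivity)
        (by positivity)).trans ?_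
      nlinarith [mul_nonneg (mul_nonneg hC0 h2) hy.le]
    · have h5 := (hC ε hε _ _).trans (mul_le_mul_of_nonneg_left (dist_vpt (k / A) hy) hC0)
      refine (mul_le_mul h5 (show 1 + y ^ 2 ≤ 2 * y * y by nlinarith) (by positivity)
        (by positivity)).trans ?_
      rw [show C * (|(k / A : ℝ)| / y) * (2 * y * y) = 2 * C * |(k / A : ℝ)| * y by field_simp]
      nlinarith [mul_nonneg (mul_nonneg hC0 h3) hy.le]
  choose! B hB using h1
  have h2 := tendsto_integral_filter_of_dominated_convergence (μ := volume.restrict (Ioi (0 : ℝ)))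
    (l := 𝓝[>] (0 : ℝ)) (F := fun ε y => (∑ k ∈ S, χ k * avg ε u (vpt (k / A) y)) / y)
    (f := fun _ => 0) (fun y => (∑ k ∈ S, B k) * (1 + y ^ 2)⁻¹) (by
      filter_upwards [self_mem_nhdsWithin] with ε hε
      exact ((Finset.measurable_fun_sum _ fun k _ => ((hu.continuous_avg hε).measurable.comp
        (measurable_vpt _)).const_mul _).div measurable_id).aestronglyMeasurable) (by
      filter_upwards [Ioc_mem_nhdsGT one_pos] with ε hε
      refine ae_restrict_of_forall_mem measurableSet_Ioi fun y hy => ?_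
      rw [Finset.sum_mul]
      refine le_trans (le_of_eq ?_) ((Finset.abs_sum_le_sum_abs _ _).trans
        (Finset.sum_le_sum fun k hk => hB k hk ε hε y hy))
      simp only [mul_sub, ← Finset.sum_div, Finset.sum_sub_distrib, ← Finset.sum_mul, hχ',
        zero_mul, sub_zero, Real.norm_eq_abs])
    (integrable_inv_one_add_sq.const_mul _).integrableOn (.of_forall fun y => by
      simpa using (hu.tendsto_sum S (fun k => (χ k : ℝ)) (fun k => vpt (k / A) y) hχ').div_const y)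
  simpa using h2

theorem kerE_nonneg {ε x : ℝ} (hε : 0 < ε) (hx : 0 < x) : 0 ≤ kerE ε x := by
  rw [kerE, Real.sign_of_pos hx, one_mul]
  exact div_nonneg (tail_nonneg _ _) (integral_wK_pos hε).le

theorem kerE_sign_mul (ε x : ℝ) {a : ℤ} (ha : a ≠ 0) : kerE ε (a.sign * x) = a.sign * kerE ε x := by
  rcases ha.lt_or_gt with h | h
  · simp [Int.sign_eq_neg_one_of_neg h, kerE_neg]
  · simp [Int.sign_eq_one_of_pos h]

theorem line_term {ε : ℝ} (hε : 0 < ε) {R : Fm} (he : 0 < fdisc R) (ha : R.1 ≠ 0) {A : ℤ}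
    (hA : 0 < A) {k : ℤ} (hv : fval R k A ≠ 0) {f : ℝ → ℝ}
    (hf : f = fun y => kerE ε (fside R (vpt (k / A) y) / (vpt (k / A) y).im / √(fdisc R : ℝ)) / y) :
    IntegrableOn f (Ioi 0) ∧
      ∫ y in Ioi 0, f y = R.1.sign * kerK ε (|(fbil (0, A, -k) R : ℝ)| / (A * √(fdisc R : ℝ))) ∧
      (0 < R.1 * fval R k A →
        ∫ y in Ioi 0, |f y| = kerK ε (|(fbil (0, A, -k) R : ℝ)| / (A * √(fdisc R : ℝ)))) := by
  have hs : 0 < √(fdisc R : ℝ) := Real.sqrt_pos.mpr (by exact_mod_cast he)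
  have hs2 : √(fdisc R : ℝ) ^ 2 = fdisc R := Real.sq_sqrt (by exact_mod_cast he.le)
  have hA' : (0 : ℝ) < A := by exact_mod_cast hA
  have ha' : (0 : ℝ) < |(R.1 : ℝ)| := abs_pos.mpr (by exact_mod_cast ha)
  have hv' : (0 : ℝ) < |(fval R k A : ℝ)| := abs_pos.mpr (by exact_mod_cast hv)
  have h1 : (R.1 : ℝ) = R.1.sign * |(R.1 : ℝ)| := by exact_mod_cast (Int.sign_mul_abs R.1).symm
  have h2 : (fval R k A : ℝ) = (fval R k A).sign * |(fval R k A : ℝ)| := by
    exact_mod_cast (Int.sign_mul_abs _).symm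
  have h3 : (fbil (0, A, -k) R : ℝ) ^ 2 - A ^ 2 * fdisc R = 4 * R.1 * fval R k A := by
    exact_mod_cast fbil_line A k R
  rw [← hs2] at h3
  have hα : 0 < |(R.1 : ℝ)| / √(fdisc R : ℝ) := by positivity
  have hβ : 0 < |(fval R k A : ℝ)| / (A ^ 2 * √(fdisc R : ℝ)) := by positivity
  have h4 : ∀ y ∈ Ioi (0 : ℝ), fside R (vpt (k / A) y) / (vpt (k / A) y).im / √(fdisc R : ℝ) =
      R.1.sign * (|(R.1 : ℝ)| / √(fdisc R : ℝ) * y) +
        (fval R k A).sign * (|(fval R k A : ℝ)| / (A ^ 2 * √(fdisc R : ℝ)) / y) := fun y hy => by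
    have hy0 : y ≠ 0 := ne_of_gt hy
    rw [coe_vpt _ hy, im_vpt _ hy, cast_div, fside_line hA.ne', ← mul_assoc, ← mul_div_assoc,
      ← mul_div_assoc, ← mul_div_assoc, ← h1, ← h2]
    field_simp
  rcases (mul_ne_zero ha hv).lt_or_gt with h | h
  · obtain ⟨h5, h6⟩ := integral_kerE_sub hε hα hβ
    have h7 : EqOn f (fun y => R.1.sign * (kerE ε (|(R.1 : ℝ)| / √(fdisc R : ℝ) * y -
        |(fval R k A : ℝ)| / (A ^ 2 * √(fdisc R : ℝ)) / y) / y)) (Ioi 0) := fun y hy => by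
      simp only [hf]
      rw [h4 y hy, isign_of_mul_neg h, Int.cast_neg, neg_mul, ← sub_eq_add_neg, ← mul_sub,
        kerE_sign_mul _ _ ha, mul_div_assoc]
    refine ⟨(integrableOn_congr_fun h7 measurableSet_Ioi).mpr (h5.const_mul _), ?_,
      fun h' => absurd h h'.not_gt⟩
    rw [setIntegral_congr_fun measurableSet_Ioi h7, integral_const_mul, h6, kerK, if_neg]
    have h8 : (R.1 : ℝ) * fval R k A < 0 := by exact_mod_cast h
    rw [not_lt, div_le_one (by positivity), ← sq_le_sq₀ (abs_nonneg _) (by positivity), sq_abs]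
    nlinarith
  · obtain ⟨h5, h6⟩ := integral_kerE_add hε hα hβ
    have h7 : EqOn f (fun y => R.1.sign * (kerE ε (|(R.1 : ℝ)| / √(fdisc R : ℝ) * y +
        |(fval R k A : ℝ)| / (A ^ 2 * √(fdisc R : ℝ)) / y) / y)) (Ioi 0) := fun y hy => by
      simp only [hf]
      rw [h4 y hy, ← isign_eq_of_mul_pos h, ← mul_add, kerE_sign_mul _ _ ha, mul_div_assoc]
    have h8 : √(1 + 4 * (|(R.1 : ℝ)| / √(fdisc R : ℝ)) *
        (|(fval R k A : ℝ)| / (A ^ 2 * √(fdisc R : ℝ)))) =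
        |(fbil (0, A, -k) R : ℝ)| / (A * √(fdisc R : ℝ)) := by
      have h9 : |(R.1 : ℝ)| * |(fval R k A : ℝ)| = R.1 * fval R k A := by
        rw [← abs_mul]
        exact abs_of_pos (by exact_mod_cast h)
      rw [Real.sqrt_eq_iff_mul_self_eq_of_pos (by
        refine div_pos (abs_pos.mpr fun h0 => ?_) (by positivity)
        rw [h0, mul_assoc, ← h9] at h3
        nlinarith [mul_pos ha' hv', sq_nonneg (A * √(fdisc R : ℝ))])]
      field_simp
      rw [sq_abs]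
      linear_combination h3 - 4 * h9
    rw [h8] at h6
    refine ⟨(integrableOn_congr_fun h7 measurableSet_Ioi).mpr (h5.const_mul _), ?_, fun _ => ?_⟩
    · rw [setIntegral_congr_fun measurableSet_Ioi h7, integral_const_mul, h6]
    · rw [← h6]
      refine setIntegral_congr_fun measurableSet_Ioi fun y hy => ?_
      have hy0 : 0 < y := hy
      rw [h7 hy, abs_mul, ← Int.cast_abs, Int.abs_sign_of_ne_zero ha, Int.cast_one, one_mul,
        abs_of_nonneg (div_nonneg (kerE_nonneg hε (by positivity)) hy0.le)]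

variable {w : Fm → ℤ} {e : ℤ} {κ : ℂ}

theorem Geo.hasSum_line (hw : Geo w e κ) {A : ℤ} (hA : 0 < A) {k : ℤ}
    (hk : ∀ R, w R ≠ 0 → fval R k A ≠ 0) {ε : ℝ} (hε : 0 < ε) :
    IntegrableOn (fun y : ℝ => (psiG w κ (vpt (k / A) y) -
      avg ε (fun v => psiG w κ v) (vpt (k / A) y)) / y) (Ioi 0) ∧
    HasSum (fun t : ℤ => ((∑ᶠ R : Fm, if fbil (0, A, -k) R = t then w R * R.1.sign else 0 : ℤ) : ℝ) *
      kerK ε (|(t : ℝ)| / (A * √(e : ℝ)))) (∫ y in Ioi (0 : ℝ), (psiG w κ (vpt (k / A) y) -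
        avg ε (fun v => psiG w κ v) (vpt (k / A) y)) / y) := by
  have hs : 0 < (A : ℝ) * √(e : ℝ) :=
    mul_pos (by exact_mod_cast hA) (Real.sqrt_pos.mpr (by exact_mod_cast hw.pos))
  have h1 := fun R (h : w R ≠ 0) =>
    line_term hε (hw.disc R h ▸ hw.pos) (hw.ne R h) hA (hk R h) rfl
  obtain ⟨h2, h3⟩ := integrable_of_hasSum (μ := volume.restrict (Ioi (0 : ℝ)))
    (F := fun (R : Fm) (y : ℝ) => (w R : ℝ) *
      (kerE ε (fside R (vpt (k / A) y) / (vpt (k / A) y).im / √(e : ℝ)) / y))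
    (fun R => by
      by_cases h : w R = 0
      · simp [h]
      · exact (hw.disc R h ▸ (h1 R h).1).const_mul _) (by
      obtain ⟨B, hB⟩ := hw.bdd
      obtain ⟨C, hC⟩ := kerK_le hε
      obtain ⟨M, hM⟩ := exists_int_gt (2 * (A * √(e : ℝ)))
      refine ((summable_line e hA.ne' k hε).mul_left
        (B * (|C| * (1 + A * √(e : ℝ)) ^ (1 + ε)))).of_norm_bounded_eventually ?_
      filter_upwards [(finite_line e hA.ne' k M).compl_mem_cofinite] with R hR
      have hB0 : (0 : ℝ) ≤ B := by exact_mod_cast (abs_nonneg _).trans (hB R)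
      by_cases h : w R = 0
      · simp only [h, Int.cast_zero, zero_mul, norm_zero, integral_zero]
        split_ifs <;> positivity
      have h4 : M < |fbil (0, A, -k) R| := not_le.mp fun h5 => hR ⟨hw.disc R h, hw.ne R h, hk R h, h5⟩
      have h5 : 2 * (A * √(e : ℝ)) < |(fbil (0, A, -k) R : ℝ)| := hM.trans (by exact_mod_cast h4)
      have h6 : 0 < R.1 * fval R k A := by
        have h7 : (fbil (0, A, -k) R : ℝ) ^ 2 - A ^ 2 * e = 4 * (R.1 * fval R k A : ℤ) := by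
          rw [← hw.disc R h]
          exact_mod_cast (fbil_line A k R).trans (mul_assoc _ _ _)
        have h8 : √(e : ℝ) ^ 2 = e := Real.sq_sqrt (by exact_mod_cast hw.pos.le)
        have h9 : (0 : ℝ) < (R.1 * fval R k A : ℤ) := by
          rw [← sq_abs] at h7
          nlinarith
        exact_mod_cast h9
      have h7 := (h1 R h).2.2 h6
      rw [hw.disc R h] at h7
      simp only [Real.norm_eq_abs, abs_mul, integral_const_mul]
      rw [h7, abs_abs, abs_of_nonneg (kerK_nonneg _ _), if_pos ⟨hw.disc R h, hw.ne R h, hk R h⟩,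
        mul_assoc]
      refine mul_le_mul (by exact_mod_cast hB R) ((hC _ ((le_div_iff₀ hs).mpr h5.le)).trans ?_)
        (kerK_nonneg _ _) hB0
      rw [mul_assoc]
      refine mul_le_mul (le_abs_self C) ?_ (by positivity) (abs_nonneg C)
      have := rpow_le_of_le (K := 1 + A * √(e : ℝ)) (u := 1 + |(fbil (0, A, -k) R : ℝ)|)
        (v := 1 + |(fbil (0, A, -k) R : ℝ)| / (A * √(e : ℝ))) (s := -1 - ε) (by positivity)
        (by positivity) (by positivity) (by
          rw [add_mul, one_mul, mul_add, mul_div_cancel₀ _ hs.ne']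
          linarith [div_nonneg (abs_nonneg (fbil (0, A, -k) R : ℝ)) hs.le]) (by linarith)
      rwa [show -(-1 - ε) = 1 + ε by ring] at this)
    (G := fun y => (psiG w κ (vpt (k / A) y) - avg ε (fun v => psiG w κ v) (vpt (k / A) y)) / y)
    ((((hw.tame.meas.sub (hw.tame.continuous_avg hε).measurable).comp
      (measurable_vpt _)).div measurable_id).aestronglyMeasurable) (.of_forall fun y => by
      simpa only [mul_div_assoc] using (hw.hasSum_psi hε (vpt (k / A) y)).div_const y)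
  refine ⟨h2, hasSum_fiber (w := fun R => w R * R.1.sign) (φ := fun R => fbil (0, A, -k) R)
    (g := fun t => kerK ε (|(t : ℝ)| / (A * √(e : ℝ)))) ?_ fun t => ?_⟩
  · convert! h3 using 2 with R
    by_cases h : w R = 0
    · simp [h]
    have h4 := (h1 R h).2.1
    rw [hw.disc R h] at h4
    rw [integral_const_mul, h4, Int.cast_mul, mul_assoc]
  · refine (finite_line e hA.ne' k |t|).subset fun R hR => ?_
    have h := left_ne_zero_of_mul hR.1
    exact ⟨hw.disc R h, hw.ne R h, hk R h, by rw [hR.2]⟩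

theorem Geo.integral_psi (hw : Geo w e κ) {A : ℤ} (hA : 0 < A)
    (h15 : IsCoprime A 15) {S : Finset ℤ} {χ : ℤ → ℤ} (hχ : ∑ k ∈ S, χ k = 0)
    (hS : ∀ k ∈ S, ∀ R, w R ≠ 0 → fval R k A ≠ 0) (hL : ∑ k ∈ S, χ k * ms k A = 0) :
    IntegrableOn (fun y : ℝ => (∑ k ∈ S, χ k * psiG w κ (vpt (k / A) y)) / y) (Ioi 0) ∧
    ∫ y in Ioi (0 : ℝ), (∑ k ∈ S, χ k * psiG w κ (vpt (k / A) y)) / y =
      (κ * deriv (fun s => ∑ k ∈ S, χ k * Ladd k A s) 1).re -
        ∑ k ∈ S, χ k * ∑ᶠ R : Fm, if R.1 * fval R k A < 0 then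
          (w R * R.1.sign : ℝ) * (Real.log |(fval R k A : ℝ)| - Real.log |(R.1 : ℝ)|) / 2
          else 0 := by
  have hA' : (0 : ℝ) < A := by exact_mod_cast hA
  choose! s hs hI using fun k (hk : k ∈ S) => hw.Iw_line hA k (hS k hk)
  have h0 : ∑ i ∈ S.sigma s, (χ i.1 * (w i.2 * i.2.1.sign) : ℝ) = 0 := by
    have h1 : ∀ k ∈ S, (thw w k A : ℝ) = 2 * ∑ R ∈ s k, (w R * R.1.sign : ℝ) := fun k hk => by
      rw [thw, finsum_eq_sum_of_support_subset (s := s k) _ fun R hR =>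
        (hs k hk R).mpr (thw_support hw.ne (hS k hk) hR), Int.cast_sum, Finset.mul_sum]
      refine Finset.sum_congr rfl fun R hR => ?_
      rw [isign_of_mul_neg ((hs k hk R).mp hR).2]
      push_cast
      ring
    have h2 : ∑ k ∈ S, (χ k : ℝ) * (κ * ms k A).re = 0 := by
      have := congrArg (fun z => (κ * z).re) hL
      simpa only [Finset.mul_sum, Complex.re_sum, mul_left_comm κ, ← Complex.ofReal_intCast,
        Complex.re_ofReal_mul, mul_zero, Complex.zero_re] using this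
    have h3 : ∑ k ∈ S, (χ k : ℝ) = 0 := by exact_mod_cast hχ
    rw [Finset.sum_sigma, Finset.sum_congr rfl (g := fun k => (χ k : ℝ) * (κ * ms k A).re -
      χ k * ((κ * ms 0 1).re - thw w 0 1 / 2)) fun k hk => ?_, Finset.sum_sub_distrib, h2,
      ← Finset.sum_mul, h3, zero_mul, sub_zero]
    have h4 := hw.cusp_val hA h15 (hS k hk)
    rw [h1 k hk] at h4
    simp only [← Finset.mul_sum]
    linear_combination (-(χ k : ℝ) / 2) * h4
  have hp : ∀ i ∈ S.sigma s, (fval i.2 i.1 A : ℝ) ≠ 0 ∧ (i.2.1 : ℝ) ≠ 0 := fun i hi => by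
    obtain ⟨h1, h2⟩ := Finset.mem_sigma.mp hi
    have h3 := ((hs _ h1 _).mp h2).2.ne
    exact ⟨by exact_mod_cast right_ne_zero_of_mul h3, by exact_mod_cast left_ne_zero_of_mul h3⟩
  obtain ⟨h1, h2⟩ := integral_steps (S.sigma s) (fun i => (χ i.1 * (w i.2 * i.2.1.sign) : ℝ))
    (fun i => |(fval i.2 i.1 A : ℝ)| / (|(i.2.1 : ℝ)| * A ^ 2)) (fun i hi => by
      have := abs_pos.mpr (hp i hi).1
      have := abs_pos.mpr (hp i hi).2
      positivity) h0
  obtain ⟨h3, h4⟩ := integral_Fi_line hA.ne' hL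
  have h5 := (h3.const_mul κ).re
  have h6 : EqOn (fun y : ℝ => (∑ k ∈ S, χ k * psiG w κ (vpt (k / A) y)) / y)
      (fun y : ℝ => RCLike.re (κ * ((∑ k ∈ S, χ k * Fi (k / A + y * Complex.I)) / y)) -
        (∑ i ∈ S.sigma s, (χ i.1 * (w i.2 * i.2.1.sign) : ℝ) * (1 - Real.sign (y ^ 2 -
          |(fval i.2 i.1 A : ℝ)| / (|(i.2.1 : ℝ)| * A ^ 2))) / 2) / y) (Ioi 0) := fun y hy => by
    simp only [RCLike.re_to_complex]
    rw [← mul_div_assoc, Complex.div_ofReal_re, ← sub_div, Finset.sum_sigma, Finset.mul_sum,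
      Complex.re_sum, ← Finset.sum_sub_distrib]
    congr 1
    refine Finset.sum_congr rfl fun k hk => ?_
    rw [coe_vpt _ hy, cast_div, psiG, hI k hk y hy, mul_left_comm κ, ← Complex.ofReal_intCast (χ k),
      Complex.re_ofReal_mul, mul_sub, Finset.mul_sum]
    congr 1
    exact Finset.sum_congr rfl fun R _ => by ring
  refine ⟨(integrableOn_congr_fun h6 measurableSet_Ioi).mpr (h5.sub h1), ?_⟩
  rw [setIntegral_congr_fun measurableSet_Ioi h6, integral_sub h5 h1, h2,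
    integral_re (h3.const_mul κ), integral_const_mul, h4, RCLike.re_to_complex,
    Finset.sum_congr rfl (g := fun i => (χ i.1 * (w i.2 * i.2.1.sign) : ℝ) *
      (Real.log |(fval i.2 i.1 A : ℝ)| - Real.log |(i.2.1 : ℝ)|) / 2 -
      (χ i.1 * (w i.2 * i.2.1.sign) : ℝ) * (Real.log (A ^ 2) / 2)) fun i hi => ?_,
    Finset.sum_sub_distrib, ← Finset.sum_mul, h0, zero_mul, sub_zero, Finset.sum_sigma]
  · congr 1
    refine Finset.sum_congr rfl fun k hk => ?_
    rw [finsum_eq_sum_of_support_subset (s := s k) _ fun R hR => ?_, Finset.mul_sum]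
    · refine Finset.sum_congr rfl fun R hR => ?_
      rw [if_pos ((hs k hk R).mp hR).2]
      ring
    · rw [Function.mem_support, ne_eq, ite_eq_right_iff, Classical.not_imp] at hR
      exact (hs k hk R).mpr ⟨fun h => hR.2 (by simp [h]), hR.1⟩
  · have h7 := abs_ne_zero.mpr (hp i hi).1
    have h8 := abs_ne_zero.mpr (hp i hi).2
    rw [Real.log_div h7 (by positivity), Real.log_mul h8 (by positivity)]
    ring

/-- (B) Vertical lines against geodesics. -/
theorem geo_line (hw : Geo w e κ) {A : ℤ} (hA : 0 < A)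
    (h15 : IsCoprime A 15) {S : Finset ℤ} {χ : ℤ → ℤ} (hχ : ∑ k ∈ S, χ k = 0)
    (hcop : ∀ k ∈ S, χ k ≠ 0 → IsCoprime k A)
    (hS : ∀ k ∈ S, ∀ R, w R ≠ 0 → fval R k A ≠ 0) (hL : ∑ k ∈ S, χ k * ms k A = 0) :
    (∀ ε : ℝ, 0 < ε → Summable fun t : ℕ =>
      ((cntL A S χ w t + cntL A S χ w (-t) : ℤ) : ℝ) * kerK ε (t / (A * √(e : ℝ)))) ∧
    Tendsto (fun ε : ℝ => ∑' t : ℕ,
      ((cntL A S χ w t + cntL A S χ w (-t) : ℤ) : ℝ) * kerK ε (t / (A * √(e : ℝ)))) (𝓝[>] 0)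
      (𝓝 ((κ * deriv (fun s => ∑ k ∈ S, χ k * Ladd k A s) 1).re -
        ∑ k ∈ S, χ k * ∑ᶠ R : Fm, if R.1 * fval R k A < 0 then
          (w R * R.1.sign : ℝ) * (Real.log |(fval R k A : ℝ)| - Real.log |(R.1 : ℝ)|) / 2
          else 0)) := by
  obtain ⟨h1, h2⟩ := hw.integral_psi hA h15 hχ hS hL
  have key : ∀ ε : ℝ, 0 < ε → HasSum (fun t : ℕ =>
      ((cntL A S χ w t + cntL A S χ w (-t) : ℤ) : ℝ) * kerK ε (t / (A * √(e : ℝ))))
      ((∫ y in Ioi (0 : ℝ), (∑ k ∈ S, χ k * psiG w κ (vpt (k / A) y)) / y) - ∫ y in Ioi (0 : ℝ),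
        (∑ k ∈ S, χ k * avg ε (fun v => psiG w κ v) (vpt (k / A) y)) / y) := fun ε hε => by
    have h3 := fun k (hk : k ∈ S) => hw.hasSum_line hA (hS k hk) hε
    have h4 := (hasSum_sum fun k hk => (h3 k hk).2.mul_left (χ k : ℝ)).nat_add_neg
    have h5 := integrable_finsetSum S fun k hk => (h3 k hk).1.const_mul (χ k : ℝ)
    have h6 : ∀ y : ℝ, (∑ k ∈ S, χ k * avg ε (fun v => psiG w κ v) (vpt (k / A) y)) / y =
        (∑ k ∈ S, χ k * psiG w κ (vpt (k / A) y)) / y - ∑ k ∈ S, χ k * ((psiG w κ (vpt (k / A) y) -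
          avg ε (fun v => psiG w κ v) (vpt (k / A) y)) / y) := fun y => by
      simp only [← mul_div_assoc, ← Finset.sum_div, ← sub_div, ← Finset.sum_sub_distrib]
      congr 1
      exact Finset.sum_congr rfl fun k _ => by ring
    simp only [h6]
    rw [integral_sub h1 h5, sub_sub_cancel, integral_finsetSum S fun k hk =>
      (h3 k hk).1.const_mul (χ k : ℝ)]
    convert! h4 using 1
    · funext t
      simp only [cntL, Int.cast_add, Int.cast_sum, Int.cast_mul, add_mul, Finset.sum_mul, mul_assoc,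
        Int.cast_neg, Int.cast_natCast, abs_neg, Nat.abs_cast]
    · simp [integral_const_mul, kerK]
  refine ⟨fun ε hε => (key ε hε).summable, ?_⟩
  have h3 := (hw.tame.tendsto_line hA h15 hχ hcop).const_sub
    (∫ y in Ioi (0 : ℝ), (∑ k ∈ S, χ k * psiG w κ (vpt (k / A) y)) / y)
  rw [sub_zero] at h3
  rw [← h2]
  refine h3.congr' ?_
  filter_upwards [self_mem_nhdsWithin] with ε hε
  rw [(key ε hε).tsum_eq]

end Pool.Agent.Lib.MP_696deb_nt
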