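import Pool.Agent.Lib.MP_696deb_nt.LocalSum

/-! The local height at a nonarchimedean place of multiplicative reduction where two roots of the
two-division polynomial are rational and close. -/

open WeierstrassCurve WeierstrassCurve.Affine

namespace Pool.Agent.Lib.MP_696deb_nt

variable {K : Type*} [Field K] {v : AbsoluteValue K ℝ}

section nonarch
variable (hv : IsNonarchimedean v) {a b : K} {c : ℝ}
include hv

lemma na_add (ha : v a ≤ c) (hb : v b ≤ c) : v (a + b) ≤ c := (hv a b).trans (max_le ha hb)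

lemma na_sub (ha : v a ≤ c) (hb : v b ≤ c) : v (a - b) ≤ c := by
  rw [sub_eq_add_neg]; exact na_add hv ha (by rwa [v.map_neg])

lemma na_add_lt (ha : v a < c) (hb : v b < c) : v (a + b) < c := (hv a b).trans_lt (max_lt ha hb)

lemma na_sub_lt (ha : v a < c) (hb : v b < c) : v (a - b) < c := by
  rw [sub_eq_add_neg]; exact na_add_lt hv ha (by rwa [v.map_neg])

lemma na_add_eq (h : v b < v a) : v (a + b) = v a := hv.add_eq_left_of_lt h

lemma na_sub_eq (h : v b < v a) : v (a - b) = v a := by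
  rw [sub_eq_add_neg]; exact na_add_eq hv (by rwa [v.map_neg])

lemma na_sub_eq' (h : v a < v b) : v (a - b) = v b := by
  rw [v.map_sub]; exact na_sub_eq hv h

lemma na_nat (n : ℕ) [n.AtLeastTwo] : v (OfNat.ofNat n) ≤ 1 := hv.apply_natCast_le_one (n := n)

lemma na_max_add {e : K} (he : v e ≤ 1) : max (v (a + e * b)) (v b) = max (v a) (v b) := by
  have h1 : v (e * b) ≤ v b := by rw [map_mul]; exact mul_le_of_le_one_left (v.nonneg _) he
  refine le_antisymm (max_le (na_add hv (le_max_left _ _) (h1.trans (le_max_right _ _)))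
    (le_max_right _ _)) (max_le ?_ (le_max_right _ _))
  calc v a = v (a + e * b - e * b) := by rw [add_sub_cancel_right]
    _ ≤ _ := na_sub hv (le_max_left _ _) (h1.trans (le_max_right _ _))

lemma na_le_of_add_mul (hc : 0 ≤ c) (h1 : v (a + b) ≤ c) (h2 : v a * v b ≤ c ^ 2) : v a ≤ c := by
  by_contra! h
  have h3 : v b < v a := by nlinarith [v.nonneg b]
  rw [na_add_eq hv h3] at h1
  exact h.not_ge h1

end nonarch

/-- The data of a node with first coordinate `e`. -/
structure Node (v : AbsoluteValue K ℝ) (W : WeierstrassCurve K) (e A β : K) : Prop where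
  na : IsNonarchimedean v
  he : v e ≤ 1
  hA : v A = 1
  hβ0 : 0 < v β
  hβ1 : v β < 1
  h2 : ∀ x, dup2 W x = (x - e) * (4 * (x - e) ^ 2 + A * (x - e) + 4 * β)
  h1 : ∀ x, dup1 W x = ((x - e) ^ 2 - β) ^ 2 + e * dup2 W x
  hs : ∀ x₁ x₂, 2 * (x₁ + x₂) * (x₁ * x₂) + W.b₂ * (x₁ * x₂) + W.b₄ * (x₁ + x₂) + W.b₆ =
    2 * e * (x₁ - x₂) ^ 2 + (2 * ((x₁ - e) * (x₂ - e) + β) * ((x₁ - e) + (x₂ - e)) +
      A * ((x₁ - e) * (x₂ - e)))
  hp : ∀ x₁ x₂, (x₁ * x₂) ^ 2 - W.b₄ * (x₁ * x₂) - W.b₆ * (x₁ + x₂) - W.b₈ =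
    ((x₁ - e) * (x₂ - e) - β) ^ 2 + e ^ 2 * (x₁ - x₂) ^ 2 +
      e * (2 * ((x₁ - e) * (x₂ - e) + β) * ((x₁ - e) + (x₂ - e)) + A * ((x₁ - e) * (x₂ - e)))

variable {W : WeierstrassCurve K}

variable (v) in
/-- The distance to the node, truncated. -/
noncomputable def rho (e β : K) : W.toAffine.Point → ℝ
  | .zero => 1
  | .some x _ _ => max (v β) (min 1 (v (x - e)))

variable (v) in
/-- The local height at a node. -/
noncomputable def nodeLam (e β : K) (P : W.toAffine.Point) : ℝ :=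
  Real.log (max 1 (v (xco P))) +
    Real.log (rho v e β P) * (1 - Real.log (rho v e β P) / (2 * Real.log (v β)))

variable {e A β : K}

@[simp] lemma rho_zero : rho v e β (0 : W.toAffine.Point) = 1 := rfl

lemma rho_some {x y : K} (h : W.toAffine.Nonsingular x y) :
    rho v e β (.some x y h) = max (v β) (min 1 (v (x - e))) := rfl

@[simp] lemma rho_neg (P : W.toAffine.Point) : rho v e β (-P) = rho v e β P := by
  rcases P with _ | ⟨x, y, h⟩ <;> rfl

namespace Node
variable (N : Node v W e A β)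
include N

lemma rho_le (P : W.toAffine.Point) : rho v e β P ≤ 1 := by
  rcases P with _ | ⟨x, y, h⟩
  · exact le_rfl
  · exact max_le N.hβ1.le (min_le_left _ _)

lemma le_rho (P : W.toAffine.Point) : v β ≤ rho v e β P := by
  rcases P with _ | ⟨x, y, h⟩
  · exact N.hβ1.le
  · exact le_max_left _ _

lemma rho_pos (P : W.toAffine.Point) : 0 < rho v e β P := N.hβ0.trans_le (N.le_rho P)

lemma rho_eq_one {x y : K} (h : W.toAffine.Nonsingular x y) :
    rho v e β (.some x y h) = 1 ↔ 1 ≤ v (x - e) := by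
  rw [rho_some]
  refine ⟨fun h1 => ?_, fun h1 => by rw [min_eq_left h1, max_eq_right N.hβ1.le]⟩
  by_contra! h2
  exact (max_lt N.hβ1 (min_lt_of_right_lt h2)).ne h1

lemma max_one (x : K) : max 1 (v x) = max 1 (v (x - e)) := by
  have := na_max_add N.na (a := x - e) (b := 1) N.he
  rwa [mul_one, sub_add_cancel, map_one, max_comm, max_comm (v _)] at this

lemma log_neg : Real.log (v β) < 0 := Real.log_neg N.hβ0 N.hβ1

variable [DecidableEq K]

lemma rho_two_nsmul {x y : K} (h : W.toAffine.Nonsingular x y) :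
    rho v e β (2 • (Point.some x y h : W.toAffine.Point)) = if dup2 W x = 0 then 1 else
      max (v β) (min 1 (v ((x - e) ^ 2 - β) ^ 2 / v (dup2 W x))) := by
  split_ifs with h2
  · rw [two_nsmul_eq_zero h h2, rho_zero]
  · obtain ⟨y', h', e'⟩ := two_nsmul_some h h2
    rw [e', rho_some, ← map_pow, ← map_div₀, N.h1]
    congr 3
    field_simp
    ring

lemma dup_cases {x y : K} (h : W.toAffine.Nonsingular x y) :
    let r := v (x - e)
    let m := max (v (dup1 W x)) (v (dup2 W x))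
    let ρ := rho v e β (2 • (Point.some x y h : W.toAffine.Point))
    (1 ≤ r → m = r ^ 4 ∧ ρ = 1) ∧ (r < 1 → v β ≤ r ^ 2 → m = r ^ 2 ∧ ρ = r ^ 2) ∧
      (v β < r → r ^ 2 < v β → m = r ^ 2 ∧ ρ = v β ^ 2 / r ^ 2) ∧
      (r ≤ v β → m = v β ^ 2 ∧ ρ = 1) := by
  intro r m ρ
  have hv := N.na
  have hb0 := N.hβ0
  have hb1 := N.hβ1
  have hr : 0 ≤ r := v.nonneg _
  have hm : m = max (v ((x - e) ^ 2 - β) ^ 2) (v (dup2 W x)) := by
    simp only [m]; rw [N.h1, na_max_add hv N.he, map_pow]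
  have hρ : ρ = _ := N.rho_two_nsmul h
  have h4 : v 4 ≤ 1 := na_nat hv 4
  have e1 : v (4 * (x - e) ^ 2) ≤ r ^ 2 := by
    rw [map_mul, map_pow]; exact mul_le_of_le_one_left (by positivity) h4
  have e2 : v (A * (x - e)) = r := by rw [map_mul, N.hA, one_mul]
  have e3 : v (4 * β) ≤ v β := by rw [map_mul]; exact mul_le_of_le_one_left hb0.le h4
  have e4 : v ((x - e) ^ 2) = r ^ 2 := map_pow _ _ _
  have key : ∀ n : ℝ, 0 < n → v ((x - e) ^ 2 - β) = n → v (dup2 W x) ≤ n ^ 2 →
      m = n ^ 2 ∧ ρ = 1 := fun n hn h1 h2 => by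
    rw [hm, hρ, h1]
    refine ⟨max_eq_left h2, ?_⟩
    split_ifs with h3
    · rfl
    · rw [min_eq_left ((one_le_div (v.pos h3)).mpr h2), max_eq_right hb1.le]
  have mid : v β < r → r < 1 → v (dup2 W x) = r ^ 2 := fun h1 h2 => by
    rw [N.h2, map_mul, add_right_comm, add_comm, na_add_eq hv, e2, sq]
    rw [e2]
    exact na_add_lt hv (e1.trans_lt (by nlinarith)) (e3.trans_lt h1)
  refine ⟨fun h1 => ?_, fun h1 h2 => ?_, fun h1 h2 => ?_, fun h1 => ?_⟩
  · rw [show r ^ 4 = (r ^ 2) ^ 2 by ring]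
    have h2 : r ≤ r ^ 2 := by nlinarith
    refine key _ (by positivity) (by rw [na_sub_eq hv (by rw [e4]; linarith), e4]) ?_
    rw [N.h2, map_mul]
    have := na_add hv (na_add hv e1 (e2.trans_le h2)) (e3.trans (by linarith : v β ≤ r ^ 2))
    calc _ ≤ r ^ 2 * r ^ 2 := by gcongr
      _ = _ := by ring
  · have h3 : v β < r := by nlinarith
    have h5 := mid h3 h1
    have h6 : v ((x - e) ^ 2 - β) ≤ r ^ 2 := na_sub hv e4.le h2
    have h7 : 0 < r ^ 2 := by linarith
    have h8 : r ^ 2 < 1 := by nlinarith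
    have h9 : v ((x - e) ^ 2 - β) ^ 2 ≤ r ^ 2 * r ^ 2 := by rw [sq]; gcongr
    rw [hm, hρ, if_neg (fun h0 => by rw [h0, map_zero] at h5; linarith), h5]
    refine ⟨max_eq_right (by nlinarith), ?_⟩
    have h10 : v ((x - e) ^ 2 - β) ^ 2 / r ^ 2 ≤ r ^ 2 := by rwa [div_le_iff₀ h7]
    rw [min_eq_right (by linarith)]
    rcases h2.eq_or_lt with h2 | h2
    · rw [max_eq_left (by linarith), h2]
    · rw [na_sub_eq hv (by rwa [e4]), e4, sq (r ^ 2), mul_div_cancel_right₀ _ h7.ne',
        max_eq_right h2.le]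
  · have h3 : r < 1 := by nlinarith
    have h5 := mid h1 h3
    have h7 : 0 < r ^ 2 := by nlinarith
    have h8 : v β ^ 2 ≤ r ^ 2 := by gcongr
    rw [hm, hρ, if_neg (fun h0 => by rw [h0, map_zero] at h5; linarith), h5,
      na_sub_eq' hv (by rwa [e4])]
    refine ⟨max_eq_right h8, ?_⟩
    rw [min_eq_right ((div_le_one h7).mpr h8), max_eq_right]
    rw [le_div_iff₀ h7]
    nlinarith
  · have h2 : r ^ 2 < v β := by nlinarith
    refine key _ hb0 (na_sub_eq' hv (by rwa [e4])) ?_
    rw [N.h2, map_mul, sq (v β)]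
    have := na_add hv (na_add hv (e1.trans h2.le) (e2.trans_le h1)) e3
    gcongr

theorem neronLocal [W.IsElliptic] : NeronLocal (W := W) v (nodeLam v e β) where
  bdd := ⟨-Real.log (v β), fun P => by
    have h1 := N.log_neg
    have h2 : Real.log (rho v e β P) ≤ 0 := Real.log_nonpos (N.rho_pos P).le (N.rho_le P)
    have h3 : Real.log (v β) ≤ Real.log (rho v e β P) := Real.log_le_log N.hβ0 (N.le_rho P)
    rw [nodeLam, add_sub_cancel_left]
    generalize Real.log (rho v e β P) = t at h2 h3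
    generalize Real.log (v β) = L at h1 h3
    have h4 : 0 ≤ t / (2 * L) := div_nonneg_of_nonpos h2 (by linarith)
    have h5 : t / (2 * L) ≤ 1 := by rw [div_le_one_of_neg (by linarith)]; linarith
    rw [abs_le]
    constructor <;> nlinarith⟩
  dup P := by
    rcases P with _ | ⟨x, y, h⟩
    · simp [← Point.zero_def, nodeLam]
    have h0 := congr_arg Real.log (abv_dupc v h)
    rw [Real.log_mul (v.pos (dupc_ne _)).ne' (by positivity)] at h0
    obtain ⟨c1, c2, c3, c4⟩ := N.dup_cases h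
    have hL := N.log_neg.ne
    have hb0 := N.hβ0
    have hb1 := N.hβ1
    rw [nodeLam, nodeLam, xco_some, N.max_one x, rho_some, ← sub_eq_iff_eq_add'.mpr h0.symm]
    rcases le_or_gt 1 (v (x - e)) with h1 | h1
    · obtain ⟨e1, e2⟩ := c1 h1
      rw [e1, e2, max_eq_right h1, min_eq_left h1, max_eq_right hb1.le, Real.log_pow, Real.log_one]
      push_cast
      ring
    rw [max_eq_left h1.le, min_eq_right h1.le, Real.log_one]
    rcases le_or_gt (v (x - e)) (v β) with h2 | h2
    · obtain ⟨e1, e2⟩ := c4 h2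
      rw [e1, e2, max_eq_left h2, Real.log_pow, Real.log_one]
      push_cast
      field_simp
      ring
    rw [max_eq_right h2.le]
    rcases le_or_gt (v β) (v (x - e) ^ 2) with h3 | h3
    · obtain ⟨e1, e2⟩ := c2 h1 h3
      rw [e1, e2, Real.log_pow]
      push_cast
      field_simp
      ring
    · obtain ⟨e1, e2⟩ := c3 h2 h3
      rw [e1, e2, Real.log_div (by positivity) (pow_pos (hb0.trans h2) 2).ne', Real.log_pow,
        Real.log_pow]
      push_cast
      field_simp
      ring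

lemma rho_add_sub {R S : W.toAffine.Point} (hR : rho v e β R ≠ 1) (hS : rho v e β S = 1) :
    rho v e β (R + S) = rho v e β R ∧ rho v e β (R - S) = rho v e β R := by
  rcases S with _ | ⟨x₂, y₂, h₂⟩
  · simp [← Point.zero_def]
  rcases R with _ | ⟨x₁, y₁, h₁⟩
  · exact absurd rfl hR
  rw [Ne, N.rho_eq_one, not_le] at hR
  rw [N.rho_eq_one] at hS
  have hv := N.na
  have hb0 := N.hβ0
  have hb1 := N.hβ1
  have hx : x₁ ≠ x₂ := by rintro rfl; linarith
  obtain ⟨u, w, u', w', h, h', e1, e2, k1, k2⟩ := add_sub_some h₁ h₂ hx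
  rw [N.hp] at k1
  rw [N.hs] at k2
  have k3 : ((u - e) + (u' - e)) * (x₁ - x₂) ^ 2 = 2 * ((x₁ - e) * (x₂ - e) + β) *
      ((x₁ - e) + (x₂ - e)) + A * ((x₁ - e) * (x₂ - e)) := by linear_combination k2
  have k4 : (u - e) * (u' - e) * (x₁ - x₂) ^ 2 = ((x₁ - e) * (x₂ - e) - β) ^ 2 := by
    linear_combination k1 - e * k2
  rw [e1, e2, rho_some, rho_some, rho_some, min_eq_right hR.le]
  rw [show x₁ - x₂ = (x₁ - e) - (x₂ - e) by ring] at k3 k4
  generalize u - e = z at k3 k4 ⊢
  generalize u' - e = z' at k3 k4 ⊢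
  generalize x₁ - e = z₁ at k3 k4 hR ⊢
  generalize x₂ - e = z₂ at k3 k4 hS ⊢
  have hz : v z₁ < v z₂ := hR.trans_le hS
  have h0 := v.nonneg z₁
  replace k3 := congr_arg v k3
  replace k4 := congr_arg v k4
  rw [map_mul, map_pow, na_sub_eq' hv hz] at k3
  rw [map_mul, map_mul, map_pow, map_pow, na_sub_eq' hv hz] at k4
  set m := max (v β) (v z₁) with hm
  have m1 : v β ≤ m := le_max_left _ _
  have m2 : v z₁ ≤ m := le_max_right _ _
  have m3 : m < 1 := max_lt hb1 hR
  have m0 : 0 < m := hb0.trans_le m1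
  have l1 : v (z₁ * z₂) ≤ m * v z₂ := by rw [map_mul]; gcongr
  have l2 : v β ≤ m * v z₂ := by nlinarith
  have l3 : v (z + z') ≤ m := by
    have h2 : v 2 ≤ 1 := na_nat hv 2
    have : v (z + z') * v z₂ ^ 2 ≤ m * v z₂ ^ 2 := by
      rw [k3]
      refine na_add hv ?_ ?_
      · rw [map_mul, map_mul, add_comm z₁, na_add_eq hv hz]
        calc _ ≤ 1 * (m * v z₂) * v z₂ := by gcongr; exact na_add hv l1 l2
          _ = _ := by ring
      · rw [map_mul, N.hA, one_mul]
        exact l1.trans (by gcongr; nlinarith)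
    exact le_of_mul_le_mul_right this (by positivity)
  have l4 : v z * v z' ≤ m ^ 2 := by
    have : v z * v z' * v z₂ ^ 2 ≤ m ^ 2 * v z₂ ^ 2 := by
      rw [k4, ← mul_pow]
      gcongr
      exact na_sub hv l1 l2
    exact le_of_mul_le_mul_right this (by positivity)
  have l5 : v z ≤ m := na_le_of_add_mul hv m0.le l3 l4
  have l6 : v z' ≤ m := na_le_of_add_mul hv m0.le (by rwa [add_comm]) (by rwa [mul_comm])
  rw [min_eq_right (l5.trans m3.le), min_eq_right (l6.trans m3.le)]
  rcases le_or_gt (v z₁) (v β) with h1 | h1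
  · rw [max_eq_left h1] at hm
    rw [hm] at l5 l6 ⊢
    exact ⟨max_eq_left l5, max_eq_left l6⟩
  · rw [max_eq_right h1.le] at hm
    rw [na_sub_eq hv (by rw [map_mul]; nlinarith), map_mul, mul_pow, ← hm] at k4
    have l7 : v z * v z' = m ^ 2 := mul_right_cancel₀ (by positivity) k4
    have l8 : v z = m := le_antisymm l5 (by nlinarith [v.nonneg z])
    have l9 : v z' = m := le_antisymm l6 (by nlinarith [v.nonneg z'])
    rw [l8, l9]
    exact ⟨max_eq_right m1, max_eq_right m1⟩

/-- The local height is constant on the cosets of the identity component other than itself. -/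
theorem nodeLam_add {R S : W.toAffine.Point} (hR : rho v e β R ≠ 1) (hS : rho v e β S = 1) :
    nodeLam v e β (R + S) = nodeLam v e β R := by
  have key : ∀ P : W.toAffine.Point, rho v e β P ≠ 1 → max 1 (v (xco P)) = 1 := by
    rintro (_ | ⟨x, y, h⟩) hP
    · exact absurd rfl hP
    · rw [Ne, N.rho_eq_one, not_le] at hP
      rw [xco_some, N.max_one, max_eq_left hP.le]
  have h := (N.rho_add_sub hR hS).1
  rw [nodeLam, nodeLam, key R hR, key _ (h ▸ hR), h]

/-- Vanishing of the local pairing when one divisor lies in one coset of the identity component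
and the other divisor avoids it. -/
theorem sum_nodeLam {ι : Type*} [Fintype ι] (P : ι → W.toAffine.Point) (m : ι → ℤ)
    (hm : ∑ i, m i = 0) (Q T : W.toAffine.Point) (hP : ∀ i, rho v e β (P i - T) = 1)
    (hQ : rho v e β (Q - T) ≠ 1) : ∑ i, (m i : ℝ) * nodeLam v e β (P i - Q) = 0 := by
  have h1 : ∀ i, nodeLam v e β (P i - Q) = nodeLam v e β (-(Q - T)) := fun i => by
    rw [← N.nodeLam_add (R := -(Q - T)) (by rwa [rho_neg]) (hP i)]
    congr 1
    abel
  have hm' : ∑ i, (m i : ℝ) = 0 := by exact_mod_cast hm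
  simp only [h1]
  rw [← Finset.sum_mul, hm', zero_mul]

end Node

end Pool.Agent.Lib.MP_696deb_nt
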