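import Pool.Agent.Lib.MP_696deb_nt.CanHeight

/-! Local heights and their sum. -/

open Height WeierstrassCurve WeierstrassCurve.Affine NumberField

namespace Pool.Agent.Lib.MP_696deb_nt

/-- The two properties characterizing a local height (for the divisor twice the origin). -/
structure NeronLocal {K : Type*} [Field K] [DecidableEq K] {W : WeierstrassCurve K} (v : K → ℝ)
    (Λ : W.toAffine.Point → ℝ) : Prop where
  bdd : ∃ C : ℝ, ∀ P, |Λ P - Real.log (max 1 (v (xco P)))| ≤ C
  dup : ∀ P, Λ (2 • P) = 4 * Λ P - Real.log (v (dupc P))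

theorem NeronLocal.unique {K : Type*} [Field K] [DecidableEq K] {W : WeierstrassCurve K}
    {v : K → ℝ} {Λ Λ' : W.toAffine.Point → ℝ} (h : NeronLocal v Λ) (h' : NeronLocal v Λ') :
    Λ = Λ' := by
  obtain ⟨C, hC⟩ := h.bdd
  obtain ⟨C', hC'⟩ := h'.bdd
  ext P
  rw [← sub_eq_zero]
  refine eq_zero_of_four_pow (C := C + C') fun n => ?_
  rw [← dup_pow (f := fun P => Λ P - Λ' P) (fun P => by rw [h.dup, h'.dup]; ring)]
  have h1 := abs_le.mp (hC (2 ^ n • P))
  have h2 := abs_le.mp (hC' (2 ^ n • P))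
  rw [abs_le]
  constructor <;> linarith [h1.1, h1.2, h2.1, h2.2]

variable {K : Type*} [Field K] [NumberField K]

lemma sum_log_eq_zero {c : K} (hc : c ≠ 0) :
    ∑ φ : K →+* ℂ, Real.log ‖φ c‖ + ∑ᶠ v : FinitePlace K, Real.log (v c) = 0 := by
  have h := congr_arg Real.log (prod_abs_eq_one hc)
  have h1 : ∀ w : InfinitePlace K, w c ^ w.mult ≠ 0 := fun w =>
    pow_ne_zero _ (w.pos_iff.mpr hc).ne'
  rw [Real.log_mul (Finset.prod_ne_zero_iff.mpr fun w _ => h1 w)
    (right_ne_zero_of_mul_eq_one (prod_abs_eq_one hc)), Real.log_prod fun w _ => h1 w,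
    Real.log_finprod fun v => FinitePlace.pos_iff.mpr hc, Real.log_one] at h
  simp only [Real.log_pow] at h
  rw [sum_infinitePlace fun w => Real.log (w c)] at h
  exact h

lemma finite_log {c : K} (hc : c ≠ 0) :
    (Function.support fun v : FinitePlace K => Real.log (v c)).Finite :=
  (FinitePlace.hasFiniteMulSupport hc).subset fun v hv h => hv (by
    simp only at h ⊢; rw [h, Real.log_one])

lemma finite_log_max (x : K) :
    (Function.support fun v : FinitePlace K => Real.log (max 1 (v x))).Finite := by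
  rcases eq_or_ne x 0 with rfl | hx
  · simp
  · exact (FinitePlace.hasFiniteMulSupport hx).subset fun v hv h => hv (by
      simp only at h ⊢; rw [h, max_self, Real.log_one])

variable [DecidableEq K] {W : WeierstrassCurve ℚ} [W.IsElliptic]

/-- The canonical height is the sum of the local heights. -/
theorem hrel_eq_sum {Λ₀ : Pt W ℂ → ℝ} (h₀ : NeronLocal (fun z : ℂ => ‖z‖) Λ₀)
    {Λ : FinitePlace K → Pt W K → ℝ} (h : ∀ v : FinitePlace K, NeronLocal v (Λ v))
    {S : Finset (FinitePlace K)}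
    (hS : ∀ v ∉ S, ∀ P, Λ v P = Real.log (max 1 (v (xco P)))) (P : Pt W K) :
    hrel W K P = ∑ φ : K →+* ℂ, Λ₀ (pmap φ P) + ∑ᶠ v, Λ v P := by
  obtain ⟨C₀, hC₀⟩ := h₀.bdd
  choose C hC using fun v => (h v).bdd
  have hsub : ∀ P, Function.support (fun v => Λ v P - Real.log (max 1 (v (xco P)))) ⊆ S :=
    fun P v hv => by
      by_contra hv'
      exact hv (by simp only; rw [hS v hv', sub_self])
  have hfin : ∀ P, (Function.support fun v => Λ v P).Finite := fun P =>
    (S.finite_toSet.union (finite_log_max (xco P))).subset fun v hv => by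
      by_cases hv' : v ∈ S
      · exact .inl hv'
      · exact .inr (by rwa [Function.mem_support, ← hS v hv'])
  refine tate_eq (f := fun P => ∑ φ : K →+* ℂ, Λ₀ (pmap φ P) + ∑ᶠ v, Λ v P)
    (C := ∑ _φ : K →+* ℂ, C₀ + ∑ v ∈ S, C v) (fun P => ?_) (fun P => ?_) P
  · rw [logHeight₁_eq_sum, add_sub_add_comm, ← Finset.sum_sub_distrib,
      ← finsum_sub_distrib (hfin P) (finite_log_max _), finsum_eq_sum_of_support_subset _ (hsub P)]
    refine (abs_add_le _ _).trans (add_le_add ((Finset.abs_sum_le_sum_abs _ _).trans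
      (Finset.sum_le_sum fun φ _ => ?_)) ((Finset.abs_sum_le_sum_abs _ _).trans
      (Finset.sum_le_sum fun v _ => hC v P)))
    simpa only [xco_pmap] using hC₀ (pmap φ P)
  · have h4 : (Function.support fun v => 4 * Λ v P).Finite :=
      (hfin P).subset fun v hv h0 => hv (by simp only at h0 ⊢; rw [h0, mul_zero])
    simp only [map_nsmul, h₀.dup, (h _).dup, dupc_pmap]
    rw [finsum_sub_distrib h4 (finite_log (dupc_ne P)), ← mul_finsum, Finset.sum_sub_distrib,
      ← Finset.mul_sum]
    linear_combination -sum_log_eq_zero (dupc_ne P)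

end Pool.Agent.Lib.MP_696deb_nt
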