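import Pool.Agent.Lib.MP_696deb_nt.UnifPt
import Pool.Agent.Lib.MP_696deb_nt.LocalSum

/-! The archimedean local height in terms of the sigma function. -/

open Complex WeierstrassCurve Pool.Agent.Shared.Weier

namespace Pool.Agent.Lib.MP_696deb_nt

open Unif

/-- The Neron function of the period lattice. -/
noncomputable abbrev lam15 : ℂ → ℝ := nerLam (Shared.Weier.sig L15) (eta L15)

lemma lam15_add {z l : ℂ} (hl : l ∈ L15.lattice) (hz : z ∉ L15.lattice) :
    lam15 (z + l) = lam15 z := nerData15.per z l hl hz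

open Classical in
/-- The archimedean local height. -/
noncomputable def lamArch (P : Pt W15 ℂ) : ℝ :=
  if P = 0 then 0 else -2 * lam15 (Function.surjInv u15_surjective P)

lemma lamArch_zero : lamArch 0 = 0 := if_pos rfl

lemma lamArch_u15 {z : ℂ} (hz : z ∉ L15.lattice) : lamArch (u15 z) = -2 * lam15 z := by
  have h := u15_eq_iff.mp (Function.surjInv_eq u15_surjective (u15 z))
  rw [lamArch, if_neg (mt u15_eq_zero_iff.mp hz), ← lam15_add h hz, add_sub_cancel]

lemma u15_of_notMem {z : ℂ} (hz : z ∉ L15.lattice) : ∃ y h,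
    u15 z = .some (L15.weierstrassP z + 7 / 12) y h ∧
      2 * y + (L15.weierstrassP z + 7 / 12) = L15.derivWeierstrassP z := by
  have h := isPer15.nonsingular hz
  have e : ux L15 (W15.baseChange ℂ) z = L15.weierstrassP z + 7 / 12 := by rw [ux, W15_b₂]; ring
  have e' : 2 * uy L15 (W15.baseChange ℂ) z + (L15.weierstrassP z + 7 / 12) =
    L15.derivWeierstrassP z := by rw [uy, e, W15_a₁, W15_a₃]; ring
  rw [e] at h
  exact ⟨_, h, u15_eq_some hz (by ring) e'.symm h, e'⟩

lemma lamArch_bdd : ∃ C : ℝ, ∀ P, |lamArch P - Real.log (max 1 ‖xco P‖)| ≤ C := by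
  obtain ⟨v, hv⟩ : ∃ v, v ∉ L15.lattice := ⟨_, L15.ω₁_div_two_notMem_lattice⟩
  have hs := (differentiable_sig L15).continuous
  let σ := Shared.Weier.sig L15
  let f : ℂ → ℝ := fun z => Real.log (max (‖σ z‖ ^ 2) ‖σ z ^ 2 * (L15.weierstrassP v + 7 / 12) -
    σ (z + v) * σ (z - v) / σ v ^ 2‖) - (z * eta L15 z).re
  have h1 : Continuous f := by
    refine (Continuous.log (by fun_prop) fun z => (lt_max_iff.mpr ?_).ne').sub (by fun_prop)
    by_cases hz : z ∈ L15.lattice
    · right
      have h2 : σ (z + v) ≠ 0 := sig_ne (by rw [add_comm]; exact add_notMem hv hz)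
      have h3 : σ (z - v) ≠ 0 := sig_ne fun h => hv (by simpa using L15.lattice.sub_mem hz h)
      have h4 : σ v ≠ 0 := sig_ne hv
      simp [show σ z = 0 from sig_eq_zero_iff.mpr hz, h2, h3, h4]
    · exact Or.inl (pow_pos (norm_pos_iff.mpr (sig_ne hz)) 2)
  have h2 : ∀ z ∉ L15.lattice,
      f z = Real.log (max 1 ‖L15.weierstrassP z + 7 / 12‖) + 2 * lam15 z := fun z hz => by
    have h3 : σ v ≠ 0 := sig_ne hv
    have h4 : 0 < ‖σ z‖ := norm_pos_iff.mpr (sig_ne hz)
    have h5 : σ z ^ 2 * (L15.weierstrassP v + 7 / 12) - σ (z + v) * σ (z - v) / σ v ^ 2 =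
        σ z ^ 2 * (L15.weierstrassP z + 7 / 12) := by
      simp only [σ] at h3 ⊢
      rw [wp_sub' hz hv]; field_simp; ring
    simp only [f, h5, norm_mul, norm_pow, nerLam]
    nth_rw 1 [← mul_one (‖σ z‖ ^ 2)]
    rw [← mul_max_of_nonneg _ _ (by positivity), Real.log_mul (by positivity) (by positivity),
      Real.log_pow]
    push_cast
    ring
  obtain ⟨C, hC⟩ := (IsZLattice.isCompact_range_of_periodic L15.lattice f h1 fun z l hl =>
    ofReal_injective (eq_of_eq_off (L := L15) (f := fun z => f (z + l)) (g := fun z => f z)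
      (by fun_prop) (by fun_prop) (fun z hz => by
        rw [h2 z hz, h2 _ (add_notMem hz hl), lam15_add hl hz,
          L15.weierstrassP_add_coe z ⟨l, hl⟩]) z)).isBounded.exists_norm_le
  refine ⟨max 0 C, fun P => ?_⟩
  obtain ⟨z, rfl⟩ := u15_surjective P
  by_cases hz : z ∈ L15.lattice
  · simp [u15_eq_zero_iff.mpr hz, lamArch_zero]
  · obtain ⟨y, h, e, -⟩ := u15_of_notMem hz
    have := hC _ ⟨z, rfl⟩
    rw [lamArch_u15 hz, e, xco_some, abs_sub_comm, neg_mul, sub_neg_eq_add, ← h2 z hz]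
    exact this.trans (le_max_right _ _)

lemma lam15_two_mul {z : ℂ} (hz : z ∉ L15.lattice) (h : 2 * z ∉ L15.lattice) :
    lam15 (2 * z) = 4 * lam15 z + Real.log ‖L15.derivWeierstrassP z‖ := by
  have h1 : eta L15 (2 * z) = 2 * eta L15 z := by rw [two_mul, map_add, two_mul]
  rw [lam15, nerLam, nerLam, sig_two_mul hz, h1, norm_mul, norm_neg, norm_pow, Real.log_mul
    (norm_ne_zero_iff.mpr (mt (wp'_eq_zero_iff hz).mp h))
    (pow_ne_zero _ (norm_ne_zero_iff.mpr (sig_ne hz))), Real.log_pow,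
    show 2 * z * (2 * eta L15 z) = (4 : ℝ) * (z * eta L15 z) by push_cast; ring, re_ofReal_mul]
  push_cast
  ring

lemma lam15_half {z : ℂ} (hz : z ∉ L15.lattice) (h : 2 * z ∈ L15.lattice) :
    4 * lam15 z + Real.log ‖3 * L15.weierstrassP z ^ 2 - L15.g₂ / 4‖ = 0 := by
  obtain ⟨e, he, -, h1⟩ := sig_add h
  have h2 := ((((hasDerivAt_id (0 : ℂ)).add_const (2 * z / 2)).const_mul
    (eta L15 (2 * z))).cexp.const_mul e).mul (hasDerivAt_sig_zero L15)
  have h2' : HasDerivAt (Shared.Weier.sig L15) (e * cexp (eta L15 (2 * z) * z)) (2 * z) := by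
    have h3 : HasDerivAt (fun w => Shared.Weier.sig L15 (w + 2 * z))
      (deriv (Shared.Weier.sig L15) (2 * z)) 0 :=
      HasDerivAt.comp_add_const 0 _ (by simpa using (differentiable_sig L15 _).hasDerivAt)
    rw [funext h1] at h3
    have h4 := h3.unique h2
    rw [sig_zero] at h4
    simpa [h4] using (differentiable_sig L15 (2 * z)).hasDerivAt
  have h3 := h2'.comp z ((hasDerivAt_id z).const_mul 2)
  have h4 := h3.unique ((((hasDerivAt_wp' hz).neg).mul ((hasDerivAt_sig hz).pow 4)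
    ).congr_of_eventuallyEq ((isOpen_compl.eventually_mem hz).mono fun w hw => sig_two_mul hw))
  have h5 : ‖e‖ = 1 := by rcases he with rfl | rfl <;> simp
  have h6 : e * cexp (2 * (z * eta L15 z)) =
      -((3 * L15.weierstrassP z ^ 2 - L15.g₂ / 4) * Shared.Weier.sig L15 z ^ 4) := by
    simp only [Pi.neg_apply, (wp'_eq_zero_iff hz).mpr h, Pi.pow_apply] at h4
    rw [show 2 * (z * eta L15 z) = eta L15 (2 * z) * z by rw [two_mul z, map_add]; ring]
    linear_combination h4 / 2
  have h7 := congr_arg (fun w => Real.log ‖w‖) h6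
  have h8 : 3 * L15.weierstrassP z ^ 2 - L15.g₂ / 4 ≠ 0 := fun h0 => by
    rw [h0] at h6
    rcases he with rfl | rfl <;> simp at h6
  simp only [norm_mul, norm_neg, h5, one_mul, norm_exp, Real.log_exp, norm_pow] at h7
  rw [Real.log_mul (norm_ne_zero_iff.mpr h8) (pow_ne_zero _ (norm_ne_zero_iff.mpr (sig_ne hz))),
    Real.log_pow, two_mul, add_re] at h7
  rw [lam15, nerLam]
  push_cast at h7
  linarith

theorem neronLocal_lamArch : NeronLocal (fun z : ℂ => ‖z‖) lamArch where
  bdd := lamArch_bdd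
  dup P := by
    obtain ⟨z, rfl⟩ := u15_surjective P
    by_cases hz : z ∈ L15.lattice
    · simp [u15_eq_zero_iff.mpr hz, lamArch_zero]
    obtain ⟨y, h, e, e'⟩ := u15_of_notMem hz
    have h1 : dup2 (W15.baseChange ℂ) (L15.weierstrassP z + 7 / 12) = L15.derivWeierstrassP z ^ 2 := by
      rw [dup2_eq h, ← e', W15_a₁, W15_a₃]; ring
    rw [← map_nsmul, nsmul_eq_mul, Nat.cast_ofNat, lamArch_u15 hz, e, dupc_some, h1]
    by_cases h2 : 2 * z ∈ L15.lattice
    · have h3 := (wp'_eq_zero_iff hz).mpr h2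
      have h4 : dup1 (W15.baseChange ℂ) (L15.weierstrassP z + 7 / 12) =
          (3 * L15.weierstrassP z ^ 2 - L15.g₂ / 4) ^ 2 := by
        rw [h3, dup2, W15_b₂, W15_b₄, W15_b₆] at h1
        rw [dup1, W15_b₄, W15_b₆, W15_b₈, L15_g.1]
        linear_combination (-(8 * (L15.weierstrassP z + 7 / 12) - 7) / 4) * h1
      rw [u15_eq_zero_iff.mpr h2, lamArch_zero, if_pos (by simp [h3]), h4, norm_pow, Real.log_pow]
      push_cast
      linarith [lam15_half hz h2]
    · rw [lamArch_u15 h2, if_neg (pow_ne_zero _ (mt (wp'_eq_zero_iff hz).mp h2)),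
        lam15_two_mul hz h2, norm_pow, Real.log_pow]
      push_cast
      ring

end Pool.Agent.Lib.MP_696deb_nt
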