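import Pool.Agent.Lib.MP_696deb_nt.Per

set_option autoImplicit false

open Complex Filter Topology Set MeasureTheory
open scoped Real

namespace Pool.Agent.Lib.MP_696deb_nt

/-- Integral binary quadratic forms `a X ^ 2 + b X Y + c Y ^ 2`. -/
abbrev Fm := ℤ × ℤ × ℤ

/-- The discriminant. -/
def fdisc (R : Fm) : ℤ := R.2.1 ^ 2 - 4 * R.1 * R.2.2

/-- The bilinear form of the discriminant. -/
def fbil (Q R : Fm) : ℤ := Q.2.1 * R.2.1 - 2 * Q.1 * R.2.2 - 2 * Q.2.2 * R.1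

/-- The value of a form. -/
def fval (R : Fm) (x y : ℤ) : ℤ := R.1 * x ^ 2 + R.2.1 * x * y + R.2.2 * y ^ 2

/-- The form `R (a X + b Y, c X + d Y)`. -/
def fmap (R : Fm) (a b c d : ℤ) : Fm :=
  (fval R a c, 2 * R.1 * a * b + R.2.1 * (a * d + b * c) + 2 * R.2.2 * c * d, fval R b d)

/-- Equivalence of forms under `Γ₀(15)`. -/
def FEq (Q R : Fm) : Prop := ∃ a b c d : ℤ, a * d - b * (15 * c) = 1 ∧ R = fmap Q a b (15 * c) d

/-- Bounded weights, invariant under `Γ₀(15)`, on the forms of discriminant `e`. -/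
structure Wt (w : Fm → ℤ) (e : ℤ) : Prop where
  disc : ∀ R, w R ≠ 0 → fdisc R = e
  inv : ∀ Q R, FEq Q R → w R = w Q
  bdd : ∃ C : ℤ, ∀ R, |w R| ≤ C

/-- The root of a positive definite form in the upper half plane. -/
noncomputable def froot (Q : Fm) : ℂ := (-Q.2.1 + √(-fdisc Q : ℝ) * I) / (2 * Q.1)

/-- Its sign tells on which side of the geodesic of `R` the point `z` lies. -/
noncomputable def fside (R : Fm) (z : ℂ) : ℝ := R.1 * normSq z + R.2.1 * z.re + R.2.2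

/-- The weighted number of geodesics above `z`. -/
noncomputable def Iw (w : Fm → ℤ) (z : ℂ) : ℝ :=
  (∑ᶠ R : Fm, (w R : ℝ) * (Real.sign R.1 - Real.sign (fside R z))) / 2

/-- Twice the period homomorphism of a weighted family of geodesics. -/
noncomputable def thw (w : Fm → ℤ) (a c : ℤ) : ℤ :=
  ∑ᶠ R : Fm, w R * (R.1.sign - (fval R a c).sign)

/-- A weighted family of geodesics that avoid the cusp at infinity, with class `κ`. -/
structure Geo (w : Fm → ℤ) (e : ℤ) (κ : ℂ) : Prop extends Wt w e where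
  pos : 0 < e
  ne : ∀ R, w R ≠ 0 → R.1 ≠ 0
  cls : ∀ a b c d : ℤ, a * d - b * (15 * c) = 1 → (thw w a (15 * c) : ℝ) = 2 * (κ * per a b c d).re

/-- A finite divisor of degree zero made of special points of discriminant `D`. -/
structure Pts (S : Finset Fm) (m : Fm → ℤ) (D : ℤ) : Prop where
  neg : D < 0
  disc : ∀ Q ∈ S, fdisc Q = D
  pos : ∀ Q ∈ S, 0 < Q.1
  deg : ∑ Q ∈ S, m Q = 0

/-- The weighted number of pairs with given bilinear form. -/
noncomputable def cntP (S : Finset Fm) (m w : Fm → ℤ) (t : ℤ) : ℤ :=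
  ∑ Q ∈ S, m Q * ∑ᶠ R : Fm, if fbil Q R = t then w R else 0

/-- The weighted number of pairs of a vertical line `k / A` and a geodesic. -/
noncomputable def cntL (A : ℤ) (S : Finset ℤ) (χ : ℤ → ℤ) (w : Fm → ℤ) (t : ℤ) : ℤ :=
  ∑ k ∈ S, χ k * ∑ᶠ R : Fm, if fbil (0, A, -k) R = t then w R * R.1.sign else 0

/-- The Green kernel. -/
noncomputable def kerK (ε x : ℝ) : ℝ :=
  if 1 < x then ∫ y in Ioi x, y ^ (-ε) / (y ^ 2 - 1) else 0

/-- The half plane kernel. -/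
noncomputable def kerE (ε x : ℝ) : ℝ :=
  Real.sign x * (∫ y in Ioi |x|, (1 + y ^ 2) ^ (-1 - ε / 2)) / ∫ y : ℝ, (1 + y ^ 2) ^ (-1 - ε / 2)

/-- What is used of the sigma function of a lattice and of the modular parametrization. -/
structure NerData (Λ : AddSubgroup ℂ) (σ : ℂ → ℂ) (η : ℂ →L[ℝ] ℂ) : Prop where
  diff : Differentiable ℂ σ
  zero : ∀ z, σ z = 0 ↔ z ∈ Λ
  simple : ∀ z ∈ Λ, deriv σ z ≠ 0
  per : ∀ z, ∀ l ∈ Λ, z ∉ Λ → Real.log ‖σ (z + l)‖ - ((z + l) * η (z + l)).re / 2 =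
    Real.log ‖σ z‖ - (z * η z).re / 2
  mem : ∀ a b c d : ℤ, a * d - b * (15 * c) = 1 → ms a (15 * c) ∈ Λ
  inj : ∀ z z' : ℂ, 0 < z.im → 0 < z'.im → Fi z - Fi z' ∈ Λ →
    ∃ a b c d : ℤ, a * d - b * (15 * c) = 1 ∧ z = mob a b (15 * c) d z'
  cusp : ∀ z : ℂ, 0 < z.im → ∀ a b c d : ℤ, a * d - b * c = 1 → ms a c - Fi z ∉ Λ

/-- The archimedean Neron function (off the lattice), up to the factor `-2`. -/
noncomputable def nerLam (σ : ℂ → ℂ) (η : ℂ →L[ℝ] ℂ) (z : ℂ) : ℝ :=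
  Real.log ‖σ z‖ - (z * η z).re / 2

/-- The radial density of the averaging operator in the disc model. -/
noncomputable def nuK (ε r : ℝ) : ℝ :=
  ε * ((1 + r ^ 2) / (1 - r ^ 2)) ^ (-1 - ε) * (4 * r / (1 - r ^ 2) ^ 2)

/-- The invariant function of a weighted family of geodesics. -/
noncomputable def psiG (w : Fm → ℤ) (κ : ℂ) (z : ℂ) : ℝ := (κ * Fi z).re - Iw w z

end Pool.Agent.Lib.MP_696deb_nt
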