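import Pool.Agent.Lib.MP_696deb_nt.Unif15
import Pool.Agent.Lib.MP_696deb_nt.AnDefs
import Pool.Agent.Shared.Weier.Unif

set_option autoImplicit false

open Filter Topology Complex WeierstrassCurve Pool.Agent.Shared.Weier
open scoped Real

namespace Pool.Agent.Lib.MP_696deb_nt.Unif

theorem isPer15 : IsPer L15 (W15.baseChange ℂ) := by
  constructor
  · rw [L15_g.1, c₄, W15_b₂, W15_b₄]; norm_num
  · rw [L15_g.2, c₆, W15_b₂, W15_b₄, W15_b₆]; norm_num

/-- The uniformization of the curve of conductor fifteen. -/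
noncomputable def u15 : ℂ →+ Pt W15 ℂ := isPer15.unif

theorem u15_eq_zero_iff {u : ℂ} : u15 u = 0 ↔ u ∈ L15.lattice := isPer15.unif_eq_zero_iff

theorem u15_eq_iff {u v : ℂ} : u15 u = u15 v ↔ u - v ∈ L15.lattice := isPer15.unif_eq_iff

theorem u15_surjective : Function.Surjective u15 := isPer15.unif_surjective

theorem u15_eq_some {u x y : ℂ} (hu : u ∉ L15.lattice) (hx : L15.weierstrassP u = x - 7 / 12)
    (hy : L15.derivWeierstrassP u = 2 * y + x)
    (h : (W15.baseChange ℂ).toAffine.Nonsingular x y) : u15 u = .some x y h := by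
  have h1 : ux L15 (W15.baseChange ℂ) u = x := by rw [ux, hx, W15_b₂]; ring
  exact (isPer15.unif_eq_some_iff h).mpr ⟨hu, h1, by rw [uy, h1, hy, W15_a₁, W15_a₃]; ring⟩

/-- The modular parametrization is the uniformization composed with the primitive. -/
theorem pt_eq_u15 {z : ℂ} (hz : 0 < z.im) : pt z = u15 (Fi z) := by
  rw [pt_eq hz, u15_eq_some (Fi_notMem hz) (P_Fi hz) ((dP_Fi hz).trans (psi15_eq z))]

theorem pt_eq_iff {z w : ℂ} (hz : 0 < z.im) (hw : 0 < w.im) : pt z = pt w ↔ Eqv z w := by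
  rw [pt_eq_u15 hz, pt_eq_u15 hw, u15_eq_iff, sub_mem_iff hz hw]

theorem exists_pt_eq {P : Pt W15 ℂ} (h : ∀ i, P ≠ u15 (alC i)) : ∃ z : ℂ, 0 < z.im ∧ pt z = P := by
  obtain ⟨u, rfl⟩ := u15_surjective P
  obtain ⟨z, hz, e⟩ := exists_Fi_sub_mem (u := u) fun i hi => h i (u15_eq_iff.mpr hi).symm
  exact ⟨z, hz, by rw [pt_eq_u15 hz, u15_eq_iff.mpr e]⟩

theorem pt_ne_alC (i : Fin 4) {z : ℂ} (hz : 0 < z.im) : pt z ≠ u15 (alC i) := fun h =>
  Fi_sub_alC_notMem i hz (u15_eq_iff.mp ((pt_eq_u15 hz).symm.trans h))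

theorem pt_al (i : Fin 4) {z : ℂ} (hz : 0 < z.im) :
    pt (al i z) = alS i • pt z + u15 (alC i) := by
  rw [pt_eq_u15 (al_im_pos i hz), pt_eq_u15 hz, Fi_al i hz, map_add, ← zsmul_eq_mul, map_zsmul]

theorem pt_al_sub (i : Fin 4) {z w : ℂ} (hz : 0 < z.im) (hw : 0 < w.im) :
    pt (al i z) - pt (al i w) = alS i • (pt z - pt w) := by
  rw [pt_al i hz, pt_al i hw, add_sub_add_right_eq_sub, smul_sub]

theorem pt_w3_sub {z w : ℂ} (hz : 0 < z.im) (hw : 0 < w.im) :
    pt (mob 6 1 15 3 z) - pt (mob 6 1 15 3 w) = pt z - pt w := by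
  exact (pt_al_sub 1 hz hw).trans (one_zsmul _)

theorem pt_w5_sub {z w : ℂ} (hz : 0 < z.im) (hw : 0 < w.im) :
    pt (mob 5 (-2) 15 (-5) z) - pt (mob 5 (-2) 15 (-5) w) = -(pt z - pt w) := by
  exact (pt_al_sub 2 hz hw).trans (neg_one_zsmul _)

theorem pt_w15_sub {z w : ℂ} (hz : 0 < z.im) (hw : 0 < w.im) :
    pt (mob 0 (-1) 15 0 z) - pt (mob 0 (-1) 15 0 w) = -(pt z - pt w) := by
  exact (pt_al_sub 3 hz hw).trans (neg_one_zsmul _)

theorem u15_alC_one : u15 (alC 1) = .some 0 0 ((W15_nonsingular _ _).mpr (by norm_num)) :=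
  u15_eq_some (alC_notMem (by simp)) (by simp [P_alC, alX]) (by simp [dP_alC, alY]) _

theorem u15_alC_two : u15 (alC 2) = .some (-1) (-2) ((W15_nonsingular _ _).mpr (by norm_num)) :=
  u15_eq_some (alC_notMem (by simp)) (by simp [P_alC, alX]) (by simp [dP_alC, alY]; norm_num) _

theorem u15_alC_three : u15 (alC 3) = .some 9 (-27) ((W15_nonsingular _ _).mpr (by norm_num)) :=
  u15_eq_some (alC_notMem (by simp)) (by simp [P_alC, alX]) (by simp [dP_alC, alY]; norm_num) _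

theorem four_smul_u15_alC (i : Fin 4) : 4 • u15 (alC i) = 0 := by
  rw [← map_nsmul, u15_eq_zero_iff, mem_L15]
  fin_cases i
  · exact ⟨0, 0, by simp [alC_zero]⟩
  · exact ⟨2, -2, by simp [alC_one]; ring⟩
  · exact ⟨1, -2, by simp [alC_two]; ring⟩
  · exact ⟨-1, 0, by simp [alC_three]; ring⟩

/-- The images of all cusps are killed by four. -/
theorem four_mul_ms_mem (a c : ℤ) : 4 * ms a c ∈ L15.lattice := by
  rcases eq_or_ne c 0 with rfl | hc
  · simp [ms_zero]
  obtain ⟨g, a, b, c, d, hg, rfl, rfl, hd⟩ := exists_SL (a := a) (Or.inr hc)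
  obtain ⟨i, -, h⟩ := exists_ms_sub_alC hd
  rw [ms_scale hg.ne', ← u15_eq_zero_iff, ← Nat.cast_ofNat, ← nsmul_eq_mul, map_nsmul,
    u15_eq_iff.mpr h, four_smul_u15_alC]

/-- Complex conjugation on the lattice. -/
noncomputable def conjL : L15.lattice ≃ L15.lattice :=
  Function.Involutive.toPerm (fun l => ⟨(starRingEnd ℂ) l, conj_mem l.2⟩) fun l => by simp

lemma P_conj (z : ℂ) :
    L15.weierstrassP ((starRingEnd ℂ) z) = (starRingEnd ℂ) (L15.weierstrassP z) := by
  refine (L15.hasSum_weierstrassP _).unique (conjL.hasSum_iff.mp ?_)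
  convert! Complex.hasSum_conj'.mpr (L15.hasSum_weierstrassP z) using 2 with l
  simp [conjL]

lemma dP_conj (z : ℂ) :
    L15.derivWeierstrassP ((starRingEnd ℂ) z) = (starRingEnd ℂ) (L15.derivWeierstrassP z) := by
  refine (L15.hasSum_derivWeierstrassP _).unique (conjL.hasSum_iff.mp ?_)
  convert! Complex.hasSum_conj'.mpr (L15.hasSum_derivWeierstrassP z) using 2 with l
  simp [conjL, map_ofNat]

theorem u15_conj (u : ℂ) : u15 ((starRingEnd ℂ) u) = pmap (starRingEnd ℂ) (u15 u) := by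
  by_cases hu : u ∈ L15.lattice
  · rw [u15_eq_zero_iff.mpr hu, u15_eq_zero_iff.mpr (conj_mem hu), map_zero]
  rw [u15, isPer15.unif_of_notMem hu,
    isPer15.unif_of_notMem fun h => hu (by simpa using conj_mem h)]
  refine IsPer.some_congr ?_ ?_
  · simp [ux, P_conj, map_ofNat]
  · simp [uy, ux, P_conj, dP_conj, map_ofNat]

theorem pt_conj {z : ℂ} (hz : 0 < z.im) :
    pt (-(starRingEnd ℂ) z) = pmap (starRingEnd ℂ) (pt z) := by
  rw [pt_eq_u15 hz, pt_eq_u15 (by simpa using hz), Fi_conj hz, u15_conj]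

theorem pt_hecke {p : ℕ} (hp : p.Prime) (h15 : ¬ p ∣ 15) {z : ℂ} (hz : 0 < z.im) :
    pt (p * z) + ∑ j ∈ Finset.range p, pt ((z + j) / p) = a15 p • pt z := by
  have h0 : (0 : ℝ) < p := by exact_mod_cast hp.pos
  rw [pt_eq_u15 hz, ← map_zsmul, zsmul_eq_mul, ← Fi_hecke hp h15 hz, map_add, map_sum,
    pt_eq_u15 (by simpa using mul_pos h0 hz)]
  congr 1
  exact Finset.sum_congr rfl fun j _ => pt_eq_u15 (by simpa using div_pos hz h0)

theorem nerData15 : NerData L15.lattice.toAddSubgroup (Shared.Weier.sig L15) (eta L15) where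
  diff := differentiable_sig L15
  zero _ := sig_eq_zero_iff
  simple l hl := by
    obtain ⟨e, he, -, h⟩ := sig_add hl
    have h1 := (((((hasDerivAt_id (0 : ℂ)).add_const (l / 2)).const_mul (eta L15 l)).cexp.const_mul
      e).mul (hasDerivAt_sig_zero L15))
    have h2 : HasDerivAt (fun z => Shared.Weier.sig L15 (z + l)) (deriv (Shared.Weier.sig L15) l) 0 :=
      HasDerivAt.comp_add_const 0 l (by simpa using (differentiable_sig L15 l).hasDerivAt)
    rw [funext h] at h2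
    rw [h2.unique h1]
    rcases he with rfl | rfl <;> simp [sig_zero]
  per z l hl hz := by
    obtain ⟨e, he, -, h⟩ := sig_add hl
    have h1 : ‖e‖ = 1 := by rcases he with rfl | rfl <;> simp
    have h2 := re_eta_form (L := L15) z l
    rw [h, norm_mul, norm_mul, h1, one_mul, Real.log_mul (norm_ne_zero_iff.mpr (exp_ne_zero _))
      (norm_ne_zero_iff.mpr (sig_ne hz)), norm_exp, Real.log_exp, map_add]
    simp only [add_re, sub_re, mul_add, add_mul, mul_comm (eta L15 _), div_mul_eq_mul_div,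
      div_ofNat_re] at h2 ⊢
    linarith
  mem _ _ _ _ h := ms_mem h
  inj z z' hz hz' h := ((sub_mem_iff hz hz').mp h).symm hz
  cusp z hz a b c d h h' := by
    obtain ⟨i, -, hi⟩ := exists_ms_sub_alC h
    exact Fi_sub_alC_notMem i hz (by simpa using L15.lattice.sub_mem hi h')

end Pool.Agent.Lib.MP_696deb_nt.Unif
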