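import Pool.Agent.Lib.MP_696deb_nt.LExp
import Pool.Agent.Lib.MP_696deb_nt.Unif15
import Pool.Agent.Lib.MP_696deb_nt.Ordinary
import Pool.Agent.Lib.MP_696deb_nt.LocalNode
import Pool.Agent.Lib.MP_696deb_nt.UnifPt
import Pool.Agent.Lib.MP_696deb_nt.NeronArch
import Pool.Agent.Lib.MP_696deb_nt.AnForms
import Pool.Agent.Lib.MP_696deb_nt.AutC
import Pool.Agent.Lib.MP_696deb_nt.VarChange

-- part Pool.Agent.Lib.MP_696deb_nt.QP15
section

/-! The expansion principle at level fifteen. -/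

open PowerSeries Filter Topology Complex

namespace Pool.Agent.Lib.MP_696deb_nt

open Unif

/-- The expansion of `q ^ 2 * X`. -/
noncomputable def Xs : ℤ⟦X⟧ := A15 * invOfUnit B15 1

lemma cc_Xs : constantCoeff Xs = 1 := by simp [Xs, A15, cc_P3, cc_P5]

lemma qe_t15 : QE (fun z => q1 z ^ 2 * t15 z) (toC Xs) := by
  have hB2 := qe_B15.inv (B := toC (invOfUnit B15 1)) (fun z hz => mul_ne_zero (eul_ne hz)
    (pow_ne_zero _ (eul_ne (im_mul_pos hz))))
    (by rw [← map_mul, mul_invOfUnit _ _ (by simp [B15, cc_P1, cc_P15]), map_one])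
  rw [Xs, map_mul]
  refine (qe_A15.mul hB2).congr fun z hz => ?_
  have l0 := q1_ne z
  simp only [t15, etaq_eq (-2) (-1) 1 5 (-5) (by norm_num), zpow_neg, zpow_ofNat]
  generalize eul (q1 (3 * z)) = x3, eul (q1 (5 * z)) = x5, eul (q1 (15 * z)) = x15
  field_simp

/-- The expansion of `q ^ 3 * (2 Y + X)`. -/
noncomputable def Ps : ℤ⟦X⟧ := Xs * EE15 * invOfUnit G15 1

lemma cc_Ps : constantCoeff Ps = -2 := by
  simp [Ps, cc_Xs, EE15, cc_Sg, cc_Sg3, cc_Sg5, cc_Sg15, map_ofNat]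

lemma qe_psi15 : QE (fun z => q1 z ^ 3 * psi15 z) (toC Ps) := by
  have hG := qe_G15.inv (B := toC (invOfUnit G15 1)) (fun z hz => mul_ne_zero (mul_ne_zero
    (mul_ne_zero (eul_ne hz) (eul_ne (im_mul_pos hz))) (eul_ne (im_mul_pos hz)))
    (eul_ne (im_mul_pos hz)))
    (by rw [← map_mul, mul_invOfUnit _ _ (by simp [G15, cc_P1, cc_P3, cc_P5, cc_P15]), map_one])
  rw [Ps, map_mul, map_mul]
  refine ((qe_t15.mul qe_E15).mul hG).congr fun z hz => ?_
  have l0 := q1_ne z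
  rw [psi15, f15_eq_q]
  field_simp

lemma exists_Ys : ∃ Ys : ℤ⟦X⟧, constantCoeff Ys = -1 ∧
    QE (fun z => q1 z ^ 3 * Y15 z) (toC Ys) := by
  have h1 : Ps ^ 2 = 4 * Xs ^ 3 - 7 * X ^ 2 * Xs ^ 2 - 36 * X ^ 4 * Xs := toC_inj (by
    simp only [map_sub, map_mul, map_pow, map_ofNat, map_X]
    exact (qe_psi15.pow 2).unique ((((QE.ofNat 4).mul (qe_t15.pow 3)).sub
      (((QE.ofNat 7).mul (QE.q.pow 2)).mul (qe_t15.pow 2))).sub
      (((QE.ofNat 36).mul (QE.q.pow 4)).mul qe_t15)) fun z hz => by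
        linear_combination q1 z ^ 6 * psi15_sq hz)
  let ψ : ℤ⟦X⟧ →+* (ZMod 2)⟦X⟧ := PowerSeries.map (Int.castRingHom (ZMod 2))
  have h2 : (2 : (ZMod 2)⟦X⟧) = 0 := by
    rw [← map_ofNat (C (R := ZMod 2)) 2, show (2 : ZMod 2) = 0 from rfl, map_zero]
  have h3 : ψ (Ps - X * Xs) = 0 := pow_eq_zero_iff two_ne_zero |>.mp (by
    have := congr_arg ψ h1
    simp only [map_sub, map_mul, map_pow, map_ofNat] at this ⊢
    linear_combination this + (2 * ψ Xs ^ 3 - 3 * ψ X ^ 2 * ψ Xs ^ 2 - 18 * ψ X ^ 4 * ψ Xs -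
      ψ Ps * ψ X * ψ Xs) * h2)
  have h4 : ∀ k, (2 : ℤ) ∣ coeff k (Ps - X * Xs) := fun k => by
    have := congr_arg (coeff k) h3
    rwa [coeff_map, map_zero, eq_intCast, ZMod.intCast_zmod_eq_zero_iff_dvd] at this
  choose b hb using h4
  have h5 : Ps - X * Xs = C 2 * PowerSeries.mk b := by
    ext k; rw [hb, coeff_C_mul, coeff_mk]
  refine ⟨PowerSeries.mk b, ?_, ?_⟩
  · have := congr_arg constantCoeff h5
    simp only [map_sub, map_mul, cc_Ps, constantCoeff_X, constantCoeff_C] at this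
    omega
  · have h6 := (qe_psi15.sub (QE.q.mul qe_t15)).smul (1 / 2)
    rw [← map_X (Int.castRingHom ℂ), ← map_mul toC, ← map_sub toC, h5, map_mul toC, map_C,
      ← mul_assoc, ← map_mul] at h6
    norm_num at h6
    exact h6.congr fun z _ => by rw [Y15]; ring

lemma tendsto_psi15_al {i : Fin 4} (hi : i ≠ 0) :
    Tendsto (fun z => psi15 (al i z)) atI (𝓝 (alY i)) := by
  rw [← dP_alC]
  exact ((hasDerivAt_dP L15 (alC_notMem hi)).continuousAt.tendsto.comp (tendsto_Fi_al i)).congr'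
    (ev_pos.mono fun _ hz => dP_Fi (al_im_pos i hz))

lemma tendsto_Y15_al {i : Fin 4} (hi : i ≠ 0) :
    Tendsto (fun z => Y15 (al i z)) atI (𝓝 ((alY i - alX i) / 2)) :=
  ((tendsto_psi15_al hi).sub (tendsto_t15_al hi)).div_const 2

/-- Modular functions of level fifteen with a pole of order at most `n` at infinity only. -/
structure M15 (n : ℕ) (F : ℂ → ℂ) (A : ℂ⟦X⟧) : Prop where
  inv : ∀ a b c d : ℤ, a * d - b * (15 * c) = 1 → ∀ z : ℂ, 0 < z.im →
    F (mob a b (15 * c) d z) = F z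
  qe : QE (fun z => q1 z ^ n * F z) A
  bdd : ∀ i : Fin 4, i ≠ 0 → Bdd fun z => F (al i z)

namespace M15
variable {n m : ℕ} {F G : ℂ → ℂ} {A B : ℂ⟦X⟧}

lemma mul (h : M15 n F A) (h' : M15 m G B) : M15 (n + m) (fun z => F z * G z) (A * B) :=
  ⟨fun a b c d e z hz => by simp only [h.inv a b c d e z hz, h'.inv a b c d e z hz],
    (h.qe.mul h'.qe).congr fun z _ => by ring, fun i hi => (h.bdd i hi).mul (h'.bdd i hi)⟩

lemma pow (h : M15 n F A) (k : ℕ) : M15 (n * k) (fun z => F z ^ k) (A ^ k) := by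
  induction k with
  | zero => exact ⟨fun _ _ _ _ _ _ _ => by simp, by simpa using QE.const 1,
      fun _ _ => by simpa using Bdd.const 1⟩
  | succ k ih => simpa only [pow_succ, Nat.mul_succ] using ih.mul h

lemma const (h : M15 0 F A) (z : ℂ) (hz : 0 < z.im) : F z = coeff 0 A := by
  have hA : QE F A := h.qe.congr fun z _ => by simp
  obtain ⟨c, hc⟩ := const15 hA.hol h.inv hA.bdd (h.bdd 1 (by simp)) (h.bdd 2 (by simp))
    (h.bdd 3 (by simp))
  rw [hc z hz]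
  exact tendsto_nhds_unique (tendsto_const_nhds.congr' (ev_pos.mono fun z hz => (hc z hz).symm))
    hA.tendsto

/-- Removal of the leading term. -/
lemma step (h : M15 (n + 1) F A) (h' : M15 (n + 1) G B) {c : ℂ} (hc : coeff 0 A = c * coeff 0 B) :
    ∃ A', M15 n (fun z => F z - c * G z) A' ∧ X * A' = A - C c * B := by
  obtain ⟨A', e⟩ : X ∣ A - C c * B := by
    rw [X_dvd_iff, ← coeff_zero_eq_constantCoeff, map_sub, coeff_C_mul, hc, sub_self]
  have h1 := h.qe.sub (h'.qe.smul c)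
  rw [e, ← pow_one X] at h1
  exact ⟨A', ⟨fun a b c d e z hz => by simp only [h.inv a b c d e z hz, h'.inv a b c d e z hz],
    h1.of_X_pow_mul.congr fun z _ => by have := q1_ne z; field_simp; ring,
    fun i hi => (h.bdd i hi).sub ((Bdd.const c).mul (h'.bdd i hi))⟩, e.symm⟩

lemma exists_poly_of_simple {H : ℂ → ℂ} (hH : M15 1 H B) (hB : coeff 0 B ≠ 0) (h : M15 n F A) :
    ∃ P : Polynomial ℂ, P.natDegree ≤ n ∧ P.coeff n = coeff 0 A / coeff 0 B ^ n ∧
      ∀ z : ℂ, 0 < z.im → F z = P.eval (H z) := by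
  induction n generalizing F A with
  | zero => exact ⟨.C (coeff 0 A), by simp, by simp, fun z hz => by simpa using h.const z hz⟩
  | succ n ih =>
    obtain ⟨A', h1, -⟩ := h.step (by simpa using hH.pow (n + 1))
      (c := coeff 0 A / coeff 0 B ^ (n + 1)) (by
        simp only [coeff_zero_eq_constantCoeff, map_pow] at hB ⊢
        rw [div_mul_cancel₀ _ (pow_ne_zero _ hB)])
    obtain ⟨P, p1, -, p3⟩ := ih h1
    refine ⟨P + .monomial (n + 1) (coeff 0 A / coeff 0 B ^ (n + 1)), ?_, ?_, fun z hz => ?_⟩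
    · exact (Polynomial.natDegree_add_le _ _).trans
        (max_le (by omega) (Polynomial.natDegree_monomial_le _))
    · rw [Polynomial.coeff_add, Polynomial.coeff_eq_zero_of_natDegree_lt (by omega),
        Polynomial.coeff_monomial_same, zero_add]
    · rw [Polynomial.eval_add, Polynomial.eval_monomial, ← p3 z hz, sub_add_cancel]

end M15

lemma m15_t15 : M15 2 t15 (toC Xs) :=
  ⟨fun a b c d h _ hz => t15_mob a b c d h hz, qe_t15,
    fun _ hi => Bdd.of_tendsto (tendsto_t15_al hi)⟩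

lemma m15_psi15 : M15 3 psi15 (toC Ps) :=
  ⟨fun a b c d h _ hz => psi15_mob a b c d h hz, qe_psi15,
    fun _ hi => Bdd.of_tendsto (tendsto_psi15_al hi)⟩

open Polynomial in
/-- There is no function with a single simple pole. -/
theorem M15.no_simple {H : ℂ → ℂ} {B : ℂ⟦X⟧} (hH : M15 1 H B) : PowerSeries.coeff 0 B = 0 := by
  by_contra hB
  obtain ⟨x, x1, x2, x3⟩ := hH.exists_poly_of_simple hB m15_t15
  obtain ⟨c, c1, c2, c3⟩ := hH.exists_poly_of_simple hB m15_psi15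
  have hB' : constantCoeff B ≠ 0 := by simpa using hB
  rw [cc_toC, cc_Xs] at x2
  rw [cc_toC, cc_Ps] at c2
  have h1 : (H '' {z | 0 < z.im}).Infinite := fun hf => by
    obtain ⟨C, hC⟩ := hf.isBounded.exists_norm_le
    refine hB (tendsto_nhds_unique hH.qe.tendsto ?_)
    simp only [pow_one]
    exact tendsto_q1.zero_mul_isBoundedUnder_le
      (isBoundedUnder_of_eventually_le (ev_pos.mono fun z hz => hC _ ⟨z, hz, rfl⟩))
  have h2 : c ^ 2 = 4 * x ^ 3 - 7 * x ^ 2 - 36 * x :=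
    eq_of_infinite_eval_eq _ _ (h1.mono (by
      rintro _ ⟨z, hz, rfl⟩
      simpa [← x3 z hz, ← c3 z hz] using psi15_sq hz))
  have h3 := congr_arg derivative h2
  simp only [derivative_sub, derivative_mul, Polynomial.derivative_pow, derivative_ofNat,
    map_natCast] at h3
  push_cast at h3
  have h4 : c ∣ Polynomial.C (-405000) * derivative x :=
    ⟨(5772 * x - 8246) * c * derivative x + (11250 + 3871 * x - 1924 * x ^ 2) * 2 * derivative c, by
      simp only [map_neg, map_ofNat]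
      linear_combination (-(5772 * x - 8246) * derivative x) * h2 -
        (11250 + 3871 * x - 1924 * x ^ 2) * h3⟩
  have h5 := natDegree_le_of_dvd h4 fun h0 => by
    have := congr_arg (Polynomial.coeff · 1) h0
    simp [Polynomial.coeff_derivative, x2, hB', one_add_one_eq_two] at this
  have h6 := le_natDegree_of_ne_zero (p := c) (n := 3) (by simp [c2, hB'])
  have h7 := (natDegree_C_mul_le (-405000) (derivative x)).trans (natDegree_derivative_le x)
  omega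

/-- The expansion principle at level fifteen. -/
theorem M15.exists_poly {S : AddSubgroup ℂ} {n : ℕ} {F : ℂ → ℂ} {A : ℂ⟦X⟧} (h : M15 n F A)
    (hS : Cf S A) : ∃ P Q : Polynomial ℂ, (∀ k, P.coeff k ∈ S) ∧ (∀ k, Q.coeff k ∈ S) ∧
      (∀ k, n < 2 * k → P.coeff k = 0) ∧ (∀ k, n < 2 * k + 3 → Q.coeff k = 0) ∧
      (∀ k, n = 2 * k → P.coeff k = coeff 0 A) ∧
      ∀ z : ℂ, 0 < z.im → F z = P.eval (t15 z) + Q.eval (t15 z) * Y15 z := by
  obtain ⟨Ys, y1, y2⟩ := exists_Ys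
  have hY : M15 3 Y15 (toC Ys) := ⟨fun a b c d h _ hz => Y15_mob a b c d h hz, y2,
    fun _ hi => Bdd.of_tendsto (tendsto_Y15_al hi)⟩
  have hm : ∀ (k l : ℕ) {c : ℂ}, c ∈ S → (Polynomial.monomial k c).coeff l ∈ S := fun k l c hc => by
    rw [Polynomial.coeff_monomial]
    split_ifs
    exacts [hc, S.zero_mem]
  induction n generalizing F A with
  | zero =>
    refine ⟨.monomial 0 (coeff 0 A), 0, fun k => hm _ _ (hS 0), by simp, fun k hk => ?_, by simp,
      fun k hk => ?_, fun z hz => by simpa using h.const z hz⟩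
    · exact Polynomial.coeff_monomial_of_ne _ (by omega)
    · rw [show k = 0 by omega, Polynomial.coeff_monomial_same]
  | succ n ih =>
    obtain ⟨k, e | e | rfl⟩ : ∃ k, n + 1 = 2 * k ∨ n + 1 = 2 * k + 3 ∨ n = 0 := by
      rcases Nat.even_or_odd' n with ⟨_ | k, rfl | rfl⟩
      exacts [⟨0, by omega⟩, ⟨1, by omega⟩, ⟨k, by omega⟩, ⟨k + 2, by omega⟩]
    · obtain ⟨A', h1, h2⟩ := h.step (e ▸ m15_t15.pow k) (c := coeff 0 A)
        (by rw [← map_pow, cc_toC, map_pow, cc_Xs]; simp)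
      obtain ⟨P, Q, p1, p2, p3, p4, -, p6⟩ := ih h1 (Cf.of_X_mul (by
        rw [h2, ← map_pow]; exact hS.sub (Cf.const_mul_toC (hS 0) _)))
      refine ⟨P + .monomial k (coeff 0 A), Q, fun l => ?_, p2, fun l hl => ?_,
        fun l hl => p4 l (by omega), fun l hl => ?_, fun z hz => ?_⟩
      · rw [Polynomial.coeff_add]; exact S.add_mem (p1 l) (hm _ _ (hS 0))
      · rw [Polynomial.coeff_add, p3 l (by omega), Polynomial.coeff_monomial_of_ne _ (by omega),
          add_zero]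
      · rw [Polynomial.coeff_add, p3 l (by omega), show l = k by omega,
          Polynomial.coeff_monomial_same, zero_add]
      · rw [Polynomial.eval_add, Polynomial.eval_monomial]; linear_combination p6 z hz
    · obtain ⟨A', h1, h2⟩ := h.step (e ▸ (m15_t15.pow k).mul hY) (c := -coeff 0 A)
        (by rw [← map_pow, ← map_mul, cc_toC, map_mul, map_pow, cc_Xs, y1]; simp)
      obtain ⟨P, Q, p1, p2, p3, p4, -, p6⟩ := ih h1 (Cf.of_X_mul (by
        rw [h2, ← map_pow, ← map_mul]; exact hS.sub (Cf.const_mul_toC (S.neg_mem (hS 0)) _)))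
      refine ⟨P, Q + .monomial k (-coeff 0 A), p1, fun l => ?_, fun l hl => p3 l (by omega),
        fun l hl => ?_, fun l hl => by omega, fun z hz => ?_⟩
      · rw [Polynomial.coeff_add]; exact S.add_mem (p2 l) (hm _ _ (S.neg_mem (hS 0)))
      · rw [Polynomial.coeff_add, p4 l (by omega), Polynomial.coeff_monomial_of_ne _ (by omega),
          add_zero]
      · rw [Polynomial.eval_add, Polynomial.eval_monomial]; linear_combination p6 z hz
    · obtain ⟨A', h1, h2⟩ := h.step h (c := 0) (by rw [h.no_simple, zero_mul])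
      obtain ⟨P, Q, p1, p2, p3, p4, -, p6⟩ := ih h1 (Cf.of_X_mul (by simpa [h2] using hS))
      exact ⟨P, Q, p1, p2, fun l hl => p3 l (by omega), fun l hl => p4 l (by omega),
        fun l hl => by omega, fun z hz => by simpa using p6 z hz⟩

end Pool.Agent.Lib.MP_696deb_nt
end

-- part Pool.Agent.Lib.MP_696deb_nt.Level15
section

/-! Integrality and reduction of the points of the modular parametrization. -/

open PowerSeries Filter Topology Complex

namespace Pool.Agent.Lib.MP_696deb_nt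

open Unif

/-- A modular unit which vanishes at the three finite cusps. -/
noncomputable def uu (z : ℂ) : ℂ := Dl z * Dl (3 * z) * Dl (5 * z) / Dl (15 * z) ^ 3

lemma Dl_mob {a b c d : ℤ} (h : a * d - b * c = 1) {z : ℂ} (hz : 0 < z.im) :
    Dl (mob a b c d z) = (c * z + d) ^ 12 * Dl z := Dl_act (g := !![a, b; c, d]) (by simpa using h) hz

lemma jf_mob {a b c d : ℤ} (h : a * d - b * c = 1) {z : ℂ} (hz : 0 < z.im) :
    jf (mob a b c d z) = jf z := jf_act (g := !![a, b; c, d]) (by simpa using h) hz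

lemma uu_mob (a b c d : ℤ) (h : a * d - b * (15 * c) = 1) (z : ℂ) (hz : 0 < z.im) :
    uu (mob a b (15 * c) d z) = uu z := by
  have h3 := mul_mob (m := 3) a b (5 * c) d z
  have h5 := mul_mob (m := 5) a b (3 * c) d z
  have h15 := mul_mob (m := 15) a b c d z
  rw [show 3 * (5 * c) = 15 * c by ring] at h3
  rw [show 5 * (3 * c) = 15 * c by ring] at h5
  have h0 := den_ne (a := a) (b := b) (c := 15 * c) (d := d) (by omega) hz
  push_cast at h3 h5 h15 h0
  rw [uu, uu, h3, h5, h15, Dl_mob h hz, Dl_mob (by linear_combination h) (im_mul_pos hz),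
    Dl_mob (by linear_combination h) (im_mul_pos hz),
    Dl_mob (by linear_combination h) (im_mul_pos hz)]
  push_cast
  rw [show (5 * c * (3 * z) + d : ℂ) = 15 * c * z + d by ring,
    show (3 * c * (5 * z) + d : ℂ) = 15 * c * z + d by ring,
    show (c * (15 * z) + d : ℂ) = 15 * c * z + d by ring]
  field_simp

lemma qe_uu : QE (fun z => q1 z ^ 36 * uu z)
    (toC (P1 ^ 24 * P3 ^ 24 * P5 ^ 24 * expand 15 (by norm_num) Dinv ^ 3)) := by
  simp only [map_mul, map_pow, map_expand]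
  refine ((((qe_P1.pow 24).mul (qe_P3.pow 24)).mul (qe_P5.pow 24)).mul
    ((qe_Dl_inv.expand 15 (by norm_num)).pow 3)).congr fun z _ => ?_
  have h3 := q1_nat_mul 3 z
  have h5 := q1_nat_mul 5 z
  have h15 := q1_nat_mul 15 z
  push_cast at h3 h5 h15 ⊢
  rw [uu, Dl_eq z, Dl_eq (3 * z), Dl_eq (5 * z), h15]
  nth_rw 1 [h3, h5]
  ring

lemma tendsto_Dl_quot {b c d k : ℕ} (hb : b ≠ 0) (hc : c ≠ 0) (hd : d ≠ 0)
    (h : b + c = 3 * d + (k + 1)) :
    Tendsto (fun z => Dl (b * z) * Dl (c * z) / Dl (d * z) ^ 3) atI (𝓝 0) := by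
  have e : ∀ {n : ℕ}, n ≠ 0 → Tendsto (fun z => eul (q1 (n * z)) ^ 24) atI (𝓝 1) := fun hn => by
    have := (qe_P1.expand _ hn).tendsto.pow 24
    rw [← map_expand, cc_toC] at this
    simpa [cc_P1] using this
  have := (tendsto_q1.pow (k + 1)).mul (((e hb).mul (e hc)).div ((e hd).pow 3) (by simp))
  rw [zero_pow k.succ_ne_zero, zero_mul] at this
  refine this.congr fun z => ?_
  have h0 := q1_ne z
  simp only [Dl_eq, Pi.div_apply]
  generalize eul (q1 (b * z)) = x, eul (q1 (c * z)) = y, eul (q1 (d * z)) = w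
  simp only [q1_nat_mul]
  rw [mul_mul_mul_comm, ← pow_add, h, mul_pow, pow_add _ (3 * d), pow_mul']
  field_simp

lemma Dl_al_three {z : ℂ} (hz : 0 < z.im) : Dl (al 3 z) = (15 * z) ^ 12 * Dl (15 * z) ∧
    Dl (15 * al 3 z) = z ^ 12 * Dl z ∧ jf (al 3 z) = jf (15 * z) := by
  have h0 : z ≠ 0 := fun h => by simp [h] at hz
  have e1 : al 3 z = mob 0 (-1) 1 0 (15 * z) := by simp [al, alM, mob]
  have e15 : 15 * al 3 z = mob 0 (-1) 1 0 z := by simp [al, alM, mob]; field_simp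
  rw [e15, e1, Dl_mob (by norm_num) hz, Dl_mob (by norm_num) (im_mul_pos hz),
    jf_mob (by norm_num) (im_mul_pos hz)]
  simp

lemma uu_al {i : Fin 4} (hi : i ≠ 0) : ∃ (a : ℕ) (F : ℂ → ℂ), a ≠ 0 ∧ Tendsto F atI (𝓝 0) ∧
    ∀ z : ℂ, 0 < z.im → jf (al i z) = jf (a * z) ∧ uu (al i z) = Dl (a * z) * F z := by
  fin_cases i
  · exact absurd rfl hi
  · refine ⟨3, _, by norm_num, by simpa using (tendsto_Dl_quot (b := 1) (c := 15) (d := 5) (k := 0)
      (by norm_num) (by norm_num) (by norm_num) rfl).const_mul (3 ^ 24), fun z hz => ?_⟩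
    have h0 : 5 * z + 1 ≠ 0 := by
      simpa using den_ne (a := 6) (b := 1) (c := 5) (d := 1) (by norm_num) hz
    have h1 : 15 * z + 3 = 3 * (5 * z + 1) := by ring
    have e1 : al 1 z = mob 2 1 5 3 (3 * z) := by simp [al, alM, mob]; ring_nf
    have e3 : 3 * al 1 z = mob 6 1 5 1 z := by simp [al, alM, mob, h1]; field_simp
    have e5 : 5 * al 1 z = mob 2 5 1 3 (15 * z) := by simp [al, alM, mob, h1]; field_simp; ring
    have e15 : 15 * al 1 z = mob 6 5 1 1 (5 * z) := by simp [al, alM, mob, h1]; field_simp; ring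
    change jf (al 1 z) = _ ∧ uu (al 1 z) = _
    rw [uu, e15, e5, e3, e1, Dl_mob (by norm_num) hz, Dl_mob (by norm_num) (im_mul_pos hz),
      Dl_mob (by norm_num) (im_mul_pos hz), Dl_mob (by norm_num) (im_mul_pos hz),
      jf_mob (by norm_num) (im_mul_pos hz)]
    push_cast
    refine ⟨rfl, ?_⟩
    rw [show 5 * (3 * z) + 3 = 3 * (5 * z + 1) by ring, one_mul, one_mul, h1]
    field_simp
  · refine ⟨5, _, by norm_num, by simpa using (tendsto_Dl_quot (b := 1) (c := 15) (d := 3) (k := 6)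
      (by norm_num) (by norm_num) (by norm_num) rfl).const_mul (5 ^ 24), fun z hz => ?_⟩
    have h0 : 3 * z + -1 ≠ 0 := by
      simpa using den_ne (a := 5) (b := -2) (c := 3) (d := -1) (by norm_num) hz
    have h1 : 15 * z + -5 = 5 * (3 * z + -1) := by ring
    have e1 : al 2 z = mob 1 (-2) 3 (-5) (5 * z) := by simp [al, alM, mob]; ring_nf
    have e3 : 3 * al 2 z = mob 1 (-6) 1 (-5) (15 * z) := by
      simp [al, alM, mob, h1]; field_simp; ring
    have e5 : 5 * al 2 z = mob 5 (-2) 3 (-1) z := by simp [al, alM, mob, h1]; field_simp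
    have e15 : 15 * al 2 z = mob 5 (-6) 1 (-1) (3 * z) := by
      simp [al, alM, mob, h1]; field_simp; ring
    change jf (al 2 z) = _ ∧ uu (al 2 z) = _
    rw [uu, e15, e5, e3, e1, Dl_mob (by norm_num) hz, Dl_mob (by norm_num) (im_mul_pos hz),
      Dl_mob (by norm_num) (im_mul_pos hz), Dl_mob (by norm_num) (im_mul_pos hz),
      jf_mob (by norm_num) (im_mul_pos hz)]
    push_cast
    refine ⟨rfl, ?_⟩
    rw [show 3 * (5 * z) + -5 = 5 * (3 * z + -1) by ring, one_mul, one_mul, h1]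
    field_simp
  · refine ⟨15, _, by norm_num, by simpa using (tendsto_Dl_quot (b := 5) (c := 3) (d := 1) (k := 4)
      (by norm_num) (by norm_num) (by norm_num) rfl).const_mul (15 ^ 24), fun z hz => ?_⟩
    have h0 : z ≠ 0 := fun h => by simp [h] at hz
    have e3 : 3 * al 3 z = mob 0 (-1) 1 0 (5 * z) := by simp [al, alM, mob]; field_simp; norm_num
    have e5 : 5 * al 3 z = mob 0 (-1) 1 0 (3 * z) := by simp [al, alM, mob]; field_simp; norm_num
    obtain ⟨e1, e15, e0⟩ := Dl_al_three hz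
    change jf (al 3 z) = _ ∧ uu (al 3 z) = _
    rw [uu, e15, e5, e3, e1, e0, Dl_mob (by norm_num) (im_mul_pos hz),
      Dl_mob (by norm_num) (im_mul_pos hz)]
    push_cast
    refine ⟨rfl, ?_⟩
    simp only [one_mul, add_zero]
    field_simp
    ring

lemma tendsto_uu_al {i : Fin 4} (hi : i ≠ 0) : Tendsto (fun z => uu (al i z)) atI (𝓝 0) := by
  obtain ⟨a, F, ha, h1, h2⟩ := uu_al hi
  have := (qe_Dl.expand a ha).tendsto.mul h1
  rw [mul_zero] at this
  exact this.congr' (ev_pos.mono fun z hz => (h2 z hz).2.symm)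

lemma tendsto_jf_uu_al {i : Fin 4} (hi : i ≠ 0) :
    Tendsto (fun z => jf (al i z) * uu (al i z)) atI (𝓝 0) := by
  obtain ⟨a, F, ha, h1, h2⟩ := uu_al hi
  have := ((qe_E4.expand a ha).pow 3).tendsto.mul h1
  rw [mul_zero] at this
  refine this.congr' (ev_pos.mono fun z hz => ?_)
  have h3 : 0 < (a * z).im := by simpa using mul_pos (Nat.cast_pos.mpr ha.bot_lt) hz
  simp only
  rw [(h2 z hz).1, (h2 z hz).2, jf, ← mul_assoc, div_mul_cancel₀ _ (Dl_ne h3)]

variable {Γ : Type*} [LinearOrderedCommGroupWithZero Γ] {V : Valuation ℂ Γ} {τ τ' : ℂ}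

lemma cf_toC (A : ℤ⟦X⟧) : Cf V.integer.toAddSubgroup (toC A) := fun k => by
  rw [coeff_map]; exact val_int V _

lemma val_poly_sub {P Q : Polynomial ℂ} (hP : ∀ k, V (P.coeff k) ≤ 1) (hQ : ∀ k, V (Q.coeff k) ≤ 1)
    {x y x' y' : ℂ} (hx : V x ≤ 1) (hy : V y ≤ 1) (h1 : V (x - x') < 1) (h2 : V (y - y') < 1) :
    V (P.eval x + Q.eval x * y - (P.eval x' + Q.eval x' * y')) < 1 := by
  have hx' : V x' ≤ 1 := by rw [← sub_sub_cancel x x']; exact V.map_sub_le hx h1.le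
  rw [show P.eval x + Q.eval x * y - (P.eval x' + Q.eval x' * y') = P.eval x - P.eval x' +
    ((Q.eval x - Q.eval x') * y + Q.eval x' * (y - y')) by ring]
  refine V.map_add_lt ((val_eval_sub_le V hP hx hx').trans_lt h1) (V.map_add_lt ?_ ?_) <;>
    rw [map_mul]
  · exact (mul_le_of_le_one_right' hy).trans_lt ((val_eval_sub_le V hQ hx hx').trans_lt h1)
  · exact (mul_le_of_le_one_left' (val_eval_le V hQ hx')).trans_lt h2

variable (V) in
lemma exists_uu_poly : ∃ P Q : Polynomial ℂ, (∀ k, V (P.coeff k) ≤ 1) ∧ (∀ k, V (Q.coeff k) ≤ 1) ∧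
    P.natDegree < 19 ∧ Q.natDegree < 17 ∧ P.coeff 18 = 1 ∧
    (∀ i : Fin 4, i ≠ 0 → P.eval (alX i : ℂ) + Q.eval (alX i : ℂ) * ((alY i - alX i) / 2) = 0) ∧
    ∀ z : ℂ, 0 < z.im → uu z = P.eval (t15 z) + Q.eval (t15 z) * Y15 z := by
  obtain ⟨P, Q, p1, p2, p3, p4, p5, p6⟩ := M15.exists_poly
    ⟨uu_mob, qe_uu, fun _ hi => Bdd.of_tendsto (tendsto_uu_al hi)⟩ (cf_toC (V := V) _)
  refine ⟨P, Q, p1, p2, Nat.lt_succ_of_le (Polynomial.natDegree_le_iff_coeff_eq_zero.mpr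
    fun k hk => p3 k (by omega)), Nat.lt_succ_of_le (Polynomial.natDegree_le_iff_coeff_eq_zero.mpr
    fun k hk => p4 k (by omega)), ?_, fun i hi => ?_, p6⟩
  · rw [p5 18 rfl, cc_toC]; simp [cc_P1, cc_P3, cc_P5, cc_Dinv]
  · have h := tendsto_t15_al hi
    exact tendsto_nhds_unique (((P.continuous.tendsto _).comp h).add
      (((Q.continuous.tendsto _).comp h).mul (tendsto_Y15_al hi))) ((tendsto_uu_al hi).congr'
        (ev_pos.mono fun z hz => p6 _ (al_im_pos i hz)))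

variable (V) in
lemma exists_jf_uu_poly : ∃ P Q : Polynomial ℂ, (∀ k, V (P.coeff k) ≤ 1) ∧
    (∀ k, V (Q.coeff k) ≤ 1) ∧
    ∀ z : ℂ, 0 < z.im → jf z * uu z = P.eval (t15 z) + Q.eval (t15 z) * Y15 z := by
  have h := qe_jf.mul qe_uu
  rw [← map_mul] at h
  obtain ⟨P, Q, p1, p2, -, -, -, p6⟩ := M15.exists_poly (n := 37) (F := fun z => jf z * uu z)
    ⟨fun a b c d e z hz => by simp only [uu_mob a b c d e z hz, jf_mob e hz],
      h.congr fun z _ => by ring, fun _ hi => Bdd.of_tendsto (tendsto_jf_uu_al hi)⟩ (cf_toC (V := V) _)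
  exact ⟨P, Q, p1, p2, p6⟩

lemma val_Dl_div {d : ℕ} (hd : d ≠ 0) (hτ : 0 < τ.im) (hj : V (jf τ) ≤ 1) :
    V (jf (d * τ)) ≤ 1 ∧ V (Dl τ / Dl (d * τ)) ≤ 1 ∧ (V d = 1 → V (Dl τ / Dl (d * τ)) = 1) := by
  have h0 : (d : ℂ) ≠ 0 := by exact_mod_cast hd
  have h1 : 0 < (d * τ).im := by simpa using mul_pos (Nat.cast_pos.mpr hd.bot_lt) hτ
  have h2 := (val_isog (M := ut d 0 1) (by simpa [det_ut] using hd.bot_lt) hτ hj).2
  rw [show act (ut d 0 1) τ = d * τ by simp [ut, act_of, mob]] at h2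
  have h3 : phiJ (ut 1 0 d) (d * τ) = Dl τ / Dl (d * τ) := by
    rw [phi_ut hd, show act (ut 1 0 d) (d * τ) = τ by simp [ut, act_of, mob, h0]]
    simp [div_eq_mul_inv]
  have h4 : 0 < (ut 1 0 d).det := by simpa [det_ut] using hd.bot_lt
  rw [← h3]
  exact ⟨h2, (val_isog h4 h1 h2).1, fun h => val_phi_eq_one h4 h1 h2 (by simpa [det_ut] using h)⟩

lemma val_uu (hτ : 0 < τ.im) (hj : V (jf τ) ≤ 1) :
    V (uu τ) ≤ 1 ∧ (V (Dl τ / Dl (15 * τ)) = 1 → V (uu τ) = 1) := by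
  obtain ⟨a1, a2, -⟩ := val_Dl_div (d := 3) (by norm_num) hτ hj
  obtain ⟨b1, b2, -⟩ := val_Dl_div (d := 5) (by norm_num) hτ hj
  obtain ⟨-, c2, -⟩ := val_Dl_div (d := 15) (by norm_num) hτ hj
  push_cast at a1 a2 b1 b2 c2
  obtain ⟨-, a3, -⟩ := val_Dl_div (d := 5) (by norm_num) (im_mul_pos hτ) a1
  obtain ⟨-, b3, -⟩ := val_Dl_div (d := 3) (by norm_num) (im_mul_pos hτ) b1
  push_cast at a3 b3
  rw [show 5 * (3 * τ) = 15 * τ by ring] at a3
  rw [show 3 * (5 * τ) = 15 * τ by ring] at b3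
  rw [show uu τ = Dl τ / Dl (15 * τ) * (Dl (3 * τ) / Dl (15 * τ)) * (Dl (5 * τ) / Dl (15 * τ)) by
    rw [uu]; ring, map_mul, map_mul]
  refine ⟨mul_le_one' (mul_le_one' c2 a3) b3, fun h => ?_⟩
  rw [h, (val_eq_one_of_mul a2 a3 ?_).2, (val_eq_one_of_mul b2 b3 ?_).2, one_mul, one_mul] <;>
    rwa [div_mul_div_cancel₀ (Dl_ne (im_mul_pos hτ))]

lemma val_Y_lt {x y : ℂ} (h : y ^ 2 + x * y = x ^ 3 - 2 * x ^ 2 - 9 * x) {c : Γ} (h1 : 1 ≤ c)
    (hx : V x ≤ c) (hy : c ^ 2 ≤ V y) (hc : c = 1 → 1 < V y) : False := by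
  have h2 : c ^ 3 < V y ^ 2 := by
    rcases h1.eq_or_lt with rfl | h1
    · simpa using one_lt_pow₀ (hc rfl) two_ne_zero
    · exact (pow_lt_pow_right₀ h1 (by norm_num : 3 < 2 * 2)).trans_le
        (pow_mul c 2 2 ▸ pow_le_pow_left₀ zero_le hy 2)
  have h3 : ∀ k ≤ 3, V (x ^ k) < V y ^ 2 := fun k hk => by
    rw [map_pow]
    exact ((pow_le_pow_left₀ zero_le hx k).trans (pow_le_pow_right₀ h1 hk)).trans_lt h2
  have h4 : V x < V y := by
    rcases h1.eq_or_lt with rfl | h1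
    · exact hx.trans_lt (hc rfl)
    · exact hx.trans_lt ((lt_self_pow₀ h1 one_lt_two).trans_le hy)
  have h5 : V (x ^ 3 - 2 * x ^ 2 - 9 * x ^ 1 - x * y) < V y ^ 2 := by
    refine V.map_sub_lt (V.map_sub_lt (V.map_sub_lt (h3 3 le_rfl) ?_) ?_) ?_ <;> rw [map_mul]
    · exact (mul_le_of_le_one_left' (val_nat V 2)).trans_lt (h3 2 (by norm_num))
    · exact (mul_le_of_le_one_left' (val_nat V 9)).trans_lt (h3 1 (by norm_num))
    · rw [sq]; exact mul_lt_mul_of_pos_right h4 (zero_le.trans_lt h4)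
  rw [← map_pow, show x ^ 3 - 2 * x ^ 2 - 9 * x ^ 1 - x * y = y ^ 2 by linear_combination -h] at h5
  exact h5.false

/-- The points with integral invariant are integral. -/
theorem val_t15_le (hτ : 0 < τ.im) (hj : V (jf τ) ≤ 1) : V (t15 τ) ≤ 1 ∧ V (Y15 τ) ≤ 1 := by
  have h1 : V (t15 τ) ≤ 1 := by
    by_contra! hx
    obtain ⟨P, Q, p1, p2, p3, p4, p5, -, p7⟩ := exists_uu_poly V
    have hy := lt_of_not_ge fun h => val_Y_lt (eqn15 hτ) hx.le le_rfl h fun e => (hx.ne' e).elim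
    have h0 := zero_lt_one.trans hx
    have h2 := (val_uu hτ hj).1
    rw [p7 τ hτ, Polynomial.eval_eq_sum_range' p3, Finset.sum_range_succ, p5, one_mul,
      add_right_comm, V.map_add_eq_of_lt_right, map_pow] at h2
    · exact h2.not_gt (one_lt_pow₀ hx (by norm_num))
    rw [map_pow]
    refine V.map_add_lt (V.map_sum_lt (pow_pos h0 _).ne' fun k hk => ?_) ?_
    · rw [map_mul, map_pow]
      exact (mul_le_of_le_one_left' (p1 k)).trans_lt (pow_lt_pow_right₀ hx (Finset.mem_range.mp hk))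
    · rw [map_mul, Polynomial.eval_eq_sum_range' p4, show 18 = 16 + 2 from rfl, pow_add]
      refine mul_lt_mul_of_le_of_lt_of_nonneg_of_pos (V.map_sum_le fun k hk => ?_) hy zero_le
        (pow_pos h0 _)
      rw [map_mul, map_pow]
      exact (mul_le_of_le_one_left' (p2 k)).trans
        (pow_le_pow_right₀ hx.le (Nat.lt_succ_iff.mp (Finset.mem_range.mp hk)))
  exact ⟨h1, le_of_not_gt fun h => val_Y_lt (eqn15 hτ) le_rfl h1 (by simpa using h.le) fun _ => h⟩

/-- The points on the component of infinity do not reduce to a finite cusp. -/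
theorem not_cusp (hτ : 0 < τ.im) (hj : V (jf τ) ≤ 1) (hu : V (uu τ) = 1) {i : Fin 4} (hi : i ≠ 0)
    (h1 : V (t15 τ - alX i) < 1) (h2 : V (Y15 τ - (alY i - alX i) / 2) < 1) : False := by
  obtain ⟨P, Q, p1, p2, -, -, -, p6, p7⟩ := exists_uu_poly V
  have := val_poly_sub p1 p2 (val_t15_le hτ hj).1 (val_t15_le hτ hj).2 h1 h2
  rw [p6 i hi, sub_zero, ← p7 τ hτ] at this
  exact this.ne hu

/-- Congruent points have congruent invariants. -/
theorem val_jf_sub_lt (hτ : 0 < τ.im) (hτ' : 0 < τ'.im) (hj : V (jf τ) ≤ 1) (hj' : V (jf τ') ≤ 1)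
    (hu : V (uu τ) = 1) (h1 : V (t15 τ - t15 τ') < 1) (h2 : V (Y15 τ - Y15 τ') < 1) :
    V (jf τ - jf τ') < 1 := by
  obtain ⟨P, Q, p1, p2, -, -, -, -, p7⟩ := exists_uu_poly V
  obtain ⟨P', Q', q1, q2, q7⟩ := exists_jf_uu_poly V
  have h3 := val_poly_sub p1 p2 (val_t15_le hτ hj).1 (val_t15_le hτ hj).2 h1 h2
  have h4 := val_poly_sub q1 q2 (val_t15_le hτ hj).1 (val_t15_le hτ hj).2 h1 h2
  rw [← p7 τ hτ, ← p7 τ' hτ'] at h3
  rw [← q7 τ hτ, ← q7 τ' hτ'] at h4
  rw [← mul_one (V _), ← hu, ← map_mul, show (jf τ - jf τ') * uu τ = jf τ * uu τ - jf τ' * uu τ' -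
    jf τ' * (uu τ - uu τ') by ring, hu]
  refine V.map_sub_lt h4 ?_
  rw [map_mul]
  exact (mul_le_of_le_one_left' hj').trans_lt h3

end Pool.Agent.Lib.MP_696deb_nt
end

-- part Pool.Agent.Lib.MP_696deb_nt.Local15
section

/-! The nonarchimedean local heights of the curve of conductor fifteen. -/

open WeierstrassCurve WeierstrassCurve.Affine NumberField

namespace Pool.Agent.Lib.MP_696deb_nt

open Unif

section
variable {K : Type*} [Field K] [CharZero K] {v : AbsoluteValue K ℝ} (hv : IsNonarchimedean v)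
include hv

omit [CharZero K] in
lemma na_eq_one {x y : K} (hx : v x < 1) (hy : v y ≤ 1) (a b : ℤ) (h : a * x + b * y = 1) :
    v y = 1 := by
  by_contra h1
  have h2 : ∀ (n : ℤ) {z : K}, v z < 1 → v (n * z) < 1 := fun n z hz => by
    rw [map_mul]
    exact mul_lt_one_of_nonneg_of_lt_one_right hv.apply_intCast_le_one (v.nonneg _) hz
  have := na_add_lt hv (h2 a hx) (h2 b (hy.lt_of_ne h1))
  rw [h, map_one] at this
  exact this.false

lemma node_three (h : v 3 < 1) : Node v (W15.baseChange K) 0 (-7) (-9) where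
  na := hv
  he := by simp
  hA := by rw [v.map_neg]; exact na_eq_one hv h (na_nat hv 7) (-2) 1 (by norm_num)
  hβ0 := v.pos (by norm_num)
  hβ1 := by
    rw [v.map_neg, show (9 : K) = 3 ^ 2 by norm_num, map_pow]
    exact pow_lt_one₀ (v.nonneg _) h two_ne_zero
  h2 x := by simp only [dup2, W15_b₂, W15_b₄, W15_b₆]; ring
  h1 x := by simp only [dup1, W15_b₄, W15_b₆, W15_b₈]; ring
  hs x y := by simp only [W15_b₂, W15_b₄, W15_b₆]; ring
  hp x y := by simp only [W15_b₄, W15_b₆, W15_b₈]; ring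

lemma node_five (h : v 5 < 1) : Node v (W15.baseChange K) 4 41 25 where
  na := hv
  he := na_nat hv 4
  hA := na_eq_one hv h (na_nat hv 41) (-8) 1 (by norm_num)
  hβ0 := v.pos (by norm_num)
  hβ1 := by
    rw [show (25 : K) = 5 ^ 2 by norm_num, map_pow]
    exact pow_lt_one₀ (v.nonneg _) h two_ne_zero
  h2 x := by simp only [dup2, W15_b₂, W15_b₄, W15_b₆]; ring
  h1 x := by simp only [dup1, dup2, W15_b₂, W15_b₄, W15_b₆, W15_b₈]; ring
  hs x y := by simp only [W15_b₂, W15_b₄, W15_b₆]; ring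
  hp x y := by simp only [W15_b₄, W15_b₆, W15_b₈]; ring

omit [CharZero K] hv in
lemma na_mul {a b : K} {r s : ℝ} (ha : v a ≤ r) (hb : v b ≤ s) : v (a * b) ≤ r * s := by
  rw [map_mul]; exact mul_le_mul ha hb (v.nonneg _) ((v.nonneg _).trans ha)

lemma max_dup_good (h3 : v 3 = 1) (h5 : v 5 = 1) (x : K) :
    max (v (dup1 (W15.baseChange K) x)) (v (dup2 (W15.baseChange K) x)) = max 1 (v x) ^ 4 := by
  have e1 : dup1 (W15.baseChange K) x = (x ^ 2 + 9) ^ 2 := by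
    simp only [dup1, W15_b₄, W15_b₆, W15_b₈]; ring
  have e2 : dup2 (W15.baseChange K) x = 4 * x ^ 3 - 7 * x ^ 2 - 36 * x ^ 1 := by
    simp only [dup2, W15_b₂, W15_b₄, W15_b₆]; ring
  have h1 : ∀ k, v (x ^ k) ≤ max 1 (v x) ^ k := fun k => by
    rw [map_pow]; gcongr; exact le_max_right _ _
  have h2 : ∀ (n : ℕ) [n.AtLeastTwo], ∀ k ≤ 4, v (OfNat.ofNat n * x ^ k) ≤ max 1 (v x) ^ 4 :=
    fun n _ k hk => (na_mul (na_nat hv n) (h1 k)).trans
      (by rw [one_mul]; exact pow_le_pow_right₀ (le_max_left _ _) hk)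
  have h4 : v (dup2 (W15.baseChange K) x) ≤ max 1 (v x) ^ 4 :=
    e2 ▸ na_sub hv (na_sub hv (h2 4 3 (by norm_num)) (h2 7 2 (by norm_num))) (h2 36 1 (by norm_num))
  rcases lt_or_ge 1 (v x) with hx | hx
  · rw [max_eq_right hx.le] at h4 ⊢
    have : v (dup1 (W15.baseChange K) x) = v x ^ 4 := by
      rw [e1, map_pow, na_add_eq hv ((na_nat hv 9).trans_lt
        (by rw [map_pow]; exact one_lt_pow₀ hx two_ne_zero)), map_pow, ← pow_mul]
    rw [this, max_eq_left h4]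
  · simp only [max_eq_left hx, one_pow] at h1 h2 h4 ⊢
    have h6 : v (x ^ 2 + 9) ≤ 1 := na_add hv (h1 2) (na_nat hv 9)
    refine le_antisymm (max_le (by rw [e1, map_pow]; exact pow_le_one₀ (v.nonneg _) h6) h4) ?_
    by_contra! h7
    rw [max_lt_iff, e1, map_pow, pow_lt_one_iff_of_nonneg (v.nonneg _) two_ne_zero] at h7
    have h8 : v ((7 + 8 * x ^ 1) * dup2 (W15.baseChange K) x -
        (32 * x ^ 2 - 28 * x ^ 1 - 625) * (x ^ 2 + 9)) < 1 := by
      refine na_sub_lt hv ?_ ?_ <;> rw [map_mul]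
      · exact mul_lt_one_of_nonneg_of_lt_one_right
          (na_add hv (na_nat hv 7) (h2 8 1 (by norm_num))) (v.nonneg _) h7.2
      · exact mul_lt_one_of_nonneg_of_lt_one_right (na_sub hv (na_sub hv (h2 32 2 (by norm_num))
          (h2 28 1 (by norm_num))) (na_nat hv 625)) (v.nonneg _) h7.1
    rw [e2, show (7 + 8 * x ^ 1) * (4 * x ^ 3 - 7 * x ^ 2 - 36 * x ^ 1) -
      (32 * x ^ 2 - 28 * x ^ 1 - 625) * (x ^ 2 + 9) = 3 ^ 2 * 5 ^ 4 by ring, map_mul, map_pow,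
      map_pow, h3, h5] at h8
    simp at h8

variable [DecidableEq K]

lemma neronLocal_good (h3 : v 3 = 1) (h5 : v 5 = 1) :
    NeronLocal v fun P : Pt W15 K => Real.log (max 1 (v (xco P))) where
  bdd := ⟨0, fun P => by simp⟩
  dup P := by
    rcases P with _ | ⟨x, y, h⟩
    · simp [← Point.zero_def]
    have h0 := congr_arg Real.log (abv_dupc v h)
    rw [Real.log_mul (v.pos (dupc_ne _)).ne' (by positivity), max_dup_good hv h3 h5,
      Real.log_pow] at h0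
    rw [xco_some]
    push_cast at h0
    linarith

/-- Integral points whose difference is not integral are congruent. -/
lemma congr_of_xco_sub {x₁ y₁ x₂ y₂ : K} (h₁ : (W15.baseChange K).toAffine.Nonsingular x₁ y₁)
    (h₂ : (W15.baseChange K).toAffine.Nonsingular x₂ y₂) (a₁ : v x₁ ≤ 1) (b₁ : v y₁ ≤ 1)
    (a₂ : v x₂ ≤ 1) (b₂ : v y₂ ≤ 1) (h : 1 < v (xco (Point.some _ _ h₁ - Point.some _ _ h₂))) :
    v (x₁ - x₂) < 1 ∧ v (y₁ - y₂) < 1 := by
  have e₁ := (W15_nonsingular _ _).mp h₁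
  have e₂ := (W15_nonsingular _ _).mp h₂
  have key : ∀ {l c d : K}, 1 < v l → l * c = d → v d ≤ 1 → v c < 1 := fun {l c d} hl e hd => by
    rw [← e, map_mul] at hd
    by_contra! hc
    nlinarith
  by_cases hx : x₁ = x₂
  · subst hx
    refine ⟨by simp, ?_⟩
    rcases Y_eq_of_X_eq h₁.1 h₂.1 rfl with rfl | hy
    · simp
    · subst hy
      rw [sub_eq_add_neg, Point.neg_some, ← two_nsmul, xco_two_nsmul] at h
      by_cases h0 : dup2 (W15.baseChange K) x₁ = 0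
      · simp [h0, not_lt.mpr zero_le_one] at h
      have h1 : v (x₁ ^ 2 + 9) ≤ 1 :=
        na_add hv (by rw [map_pow]; exact pow_le_one₀ (v.nonneg _) a₁) (na_nat hv 9)
      have h2 := key h (div_mul_cancel₀ _ h0) (by
        rw [show dup1 (W15.baseChange K) x₁ = (x₁ ^ 2 + 9) ^ 2 by
          simp only [dup1, W15_b₄, W15_b₆, W15_b₈]; ring, map_pow]
        exact pow_le_one₀ (v.nonneg _) h1)
      rw [dup2_eq h₂, map_pow, pow_lt_one_iff_of_nonneg (v.nonneg _) two_ne_zero] at h2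
      rw [← v.map_neg]
      exact (congr_arg v (by rw [negY]; ring)).trans_lt h2
  rw [sub_eq_add_neg, Point.neg_some, Point.add_of_X_ne hx, xco_some, slope_of_X_ne hx] at h
  simp only [addX, negY, toAffine, W15_a₁, W15_a₂, W15_a₃] at h
  have h1 := div_mul_cancel₀ (y₁ - (-y₂ - 1 * x₂ - 0)) (sub_ne_zero.mpr hx)
  generalize (y₁ - (-y₂ - 1 * x₂ - 0)) / (x₁ - x₂) = l at h h1
  have h2 : 1 < v l := by
    by_contra! hl
    exact h.not_ge (na_sub hv (na_sub hv (na_sub hv (na_add hv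
      (by rw [map_pow]; exact pow_le_one₀ (v.nonneg _) hl) (by rwa [one_mul]))
      (by rw [v.map_neg]; exact na_nat hv 2)) a₁) a₂)
  have h3 : ∀ {a b : K}, v a ≤ 1 → v b ≤ 1 → v (a * b) ≤ 1 := fun ha hb => by
    simpa using na_mul ha hb
  refine ⟨key h2 (d := y₁ + y₂ + x₂) (by linear_combination h1) (na_add hv (na_add hv b₁ b₂) a₂),
    key h2 (d := x₁ * x₁ + x₁ * x₂ + x₂ * x₂ - 2 * (x₁ + x₂) - 9 - y₁)
      (mul_left_cancel₀ (sub_ne_zero.mpr hx) ?_) ?_⟩
  · linear_combination (y₁ - y₂) * h1 + e₁ - e₂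
  · exact na_sub hv (na_sub hv (na_sub hv (na_add hv (na_add hv (h3 a₁ a₁) (h3 a₁ a₂)) (h3 a₂ a₂))
      (h3 (na_nat hv 2) (na_add hv a₁ a₂))) (na_nat hv 9)) b₁

variable (v) in
omit hv in
/-- The local height at a nonarchimedean place. -/
noncomputable def lamF (P : Pt W15 K) : ℝ :=
  if v 3 < 1 then nodeLam v 0 (-9) P else if v 5 < 1 then nodeLam v 4 25 P
  else Real.log (max 1 (v (xco P)))

theorem neronLocal_lamF : NeronLocal v (lamF v) := by
  unfold lamF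
  split_ifs with h3 h5
  exacts [(node_three hv h3).neronLocal, (node_five hv h5).neronLocal,
    neronLocal_good hv ((na_nat hv 3).eq_of_not_lt h3) ((na_nat hv 5).eq_of_not_lt h5)]

omit hv [DecidableEq K] in
lemma lamF_neg (P : Pt W15 K) : lamF v (-P) = lamF v P := by
  simp only [lamF, nodeLam, rho_neg, xco_neg]

omit [CharZero K] [DecidableEq K] in
lemma exists_valuation (f : K →+* ℂ) : ∃ A : ValuationSubring ℂ,
    ∀ x, (A.valuation (f x) ≤ 1 ↔ v x ≤ 1) ∧ (A.valuation (f x) < 1 ↔ v x < 1) := by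
  let R : Subring K :=
    { carrier := {x | v x ≤ 1}
      mul_mem' := fun ha hb => by simpa using na_mul ha hb
      one_mem' := by simp
      add_mem' := na_add hv
      zero_mem' := by simp
      neg_mem' := fun h => by simpa using h }
  let I : Ideal (R.map f) :=
    { carrier := {y | ∃ x, v x < 1 ∧ f x = y}
      add_mem' := by
        rintro a b ⟨x, hx, e⟩ ⟨y, hy, e'⟩
        exact ⟨x + y, na_add_lt hv hx hy, by simp [e, e']⟩
      zero_mem' := ⟨0, by simp, by simp⟩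
      smul_mem' := by
        rintro ⟨_, x, hx, rfl⟩ b ⟨y, hy, e⟩
        exact ⟨x * y, by
          rw [map_mul]; exact mul_lt_one_of_nonneg_of_lt_one_right hx (v.nonneg _) hy,
          by simp [e]⟩ }
  obtain ⟨A, h1, h2⟩ := I.image_subset_nonunits_valuationSubring (by
    rw [Ideal.ne_top_iff_one]
    rintro ⟨x, hx, e⟩
    rw [f.injective (e.trans (map_one f).symm), map_one] at hx
    exact hx.false)
  have a1 : ∀ x, v x ≤ 1 → A.valuation (f x) ≤ 1 := fun x hx =>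
    (A.valuation_le_one_iff _).mpr (h1 ⟨x, hx, rfl⟩)
  have a2 : ∀ x, v x < 1 → A.valuation (f x) < 1 := fun x hx =>
    h2 ⟨⟨f x, x, hx.le, rfl⟩, ⟨x, hx, rfl⟩, rfl⟩
  refine ⟨A, fun x => ⟨⟨fun h => ?_, a1 x⟩, fun h => ?_, a2 x⟩⟩ <;> by_contra! hx
  · have h0 : x ≠ 0 := by rintro rfl; simp [not_lt.mpr zero_le_one] at hx
    have := a2 x⁻¹ (by rw [map_inv₀]; exact inv_lt_one_of_one_lt₀ hx)
    rw [map_inv₀, map_inv₀, inv_lt_one₀ (zero_lt_iff.mpr (by simpa using h0))] at this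
    exact this.not_ge h
  · have h0 : x ≠ 0 := by rintro rfl; simp [not_le.mpr zero_lt_one] at hx
    have := a1 x⁻¹ (by rw [map_inv₀]; exact inv_le_one_of_one_le₀ hx)
    rw [map_inv₀, map_inv₀, inv_le_one₀ (zero_lt_iff.mpr (by simpa using h0))] at this
    exact this.not_gt h

variable {Γ : Type*} [LinearOrderedCommGroupWithZero Γ] {V : Valuation ℂ Γ} {f : K →+* ℂ}
  (hV : ∀ x, (V (f x) ≤ 1 ↔ v x ≤ 1) ∧ (V (f x) < 1 ↔ v x < 1))
include hV

omit hv in
lemma exists_some_of_pmap {P : Pt W15 K} {τ : ℂ} (hτ : 0 < τ.im) (hj : V (jf τ) ≤ 1)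
    (h : pmap f P = pt τ) : ∃ x y h, P = .some x y h ∧ f x = t15 τ ∧ f y = Y15 τ ∧
      v x ≤ 1 ∧ v y ≤ 1 := by
  have h1 := congr_arg xco h
  have h2 := congr_arg yco h
  rw [xco_pmap, xco_pt hτ] at h1
  rw [yco_pmap, yco_pt hτ] at h2
  rcases P with _ | ⟨x, y, h'⟩
  · exact absurd (h1.symm.trans (map_zero f)) (t15_ne hτ)
  · exact ⟨x, y, h', rfl, h1, h2, (hV x).1.mp (h1 ▸ (val_t15_le hτ hj).1 :),
      (hV y).1.mp (h2 ▸ (val_t15_le hτ hj).2 :)⟩

lemma rho_eq_one_of_uu {e A β : K} (N : Node v (W15.baseChange K) e A β) {i : Fin 4} (hi : i ≠ 0)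
    (h2 : v 2 = 1) (h3 : v (e - alX i) < 1) (h4 : v (alY i) < 1) {P : Pt W15 K} {τ : ℂ}
    (hτ : 0 < τ.im) (hj : V (jf τ) ≤ 1) (hu : V (uu τ) = 1) (h : pmap f P = pt τ) :
    rho v e β P = 1 := by
  obtain ⟨x, y, h', rfl, e1, e2, b1, b2⟩ := exists_some_of_pmap hV hτ hj h
  rw [N.rho_eq_one]
  by_contra! h5
  have h6 : v (x - alX i) < 1 := by simpa using na_add_lt hv h5 h3
  have h7 : v (2 * y + x) < 1 := by
    rw [← pow_lt_one_iff_of_nonneg (v.nonneg _) two_ne_zero, ← map_pow,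
      show (2 * y + x) ^ 2 = dup2 (W15.baseChange K) x by rw [dup2_eq h', W15_a₁, W15_a₃]; ring,
      N.h2, map_mul]
    refine mul_lt_one_of_nonneg_of_lt_one_left (v.nonneg _) h5 (na_add hv (na_add hv ?_ ?_) ?_)
    · simpa using na_mul (na_nat hv 4) (show v ((x - e) ^ 2) ≤ 1 by
        rw [map_pow]; exact pow_le_one₀ (v.nonneg _) h5.le)
    · simpa using na_mul N.hA.le h5.le
    · simpa using na_mul (na_nat hv 4) N.hβ1.le
  refine not_cusp hτ hj hu hi (by simpa [e1] using (hV _).2.mpr h6) ?_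
  have h8 : v (y - (alY i - alX i) / 2) < 1 := by
    rw [← one_mul (v _), ← h2, ← map_mul, show 2 * (y - (alY i - alX i) / 2) =
      2 * y + x - alY i - (x - alX i) by ring, h2]
    exact na_sub_lt hv (na_sub_lt hv h7 h4) h6
  simpa [e2, map_ofNat] using (hV _).2.mpr h8

/-- The local height of the difference does not depend on the point of the identity component. -/
theorem exists_lamF_const {Q : Pt W15 K} {τ' : ℂ} (hτ' : 0 < τ'.im) (hj' : V (jf τ') ≤ 1)
    (hQ : pmap f Q = pt τ') : ∃ c : ℝ, (¬ v 3 < 1 → ¬ v 5 < 1 → c = 0) ∧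
      ∀ (P : Pt W15 K) (τ : ℂ), 0 < τ.im → V (jf τ) ≤ 1 → V (uu τ) = 1 → pmap f P = pt τ →
        V (jf τ - jf τ') = 1 → lamF v (P - Q) = c := by
  have h1 : ∀ (P : Pt W15 K) (τ : ℂ), 0 < τ.im → V (jf τ) ≤ 1 → V (uu τ) = 1 → pmap f P = pt τ →
      V (jf τ - jf τ') = 1 → Real.log (max 1 (v (xco (P - Q)))) = 0 := fun P τ hτ hj hu hP h => by
    obtain ⟨x, y, h', rfl, e1, e2, b1, b2⟩ := exists_some_of_pmap hV hτ hj hP
    obtain ⟨x', y', h'', rfl, e3, e4, b3, b4⟩ := exists_some_of_pmap hV hτ' hj' hQ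
    rw [max_eq_left (le_of_not_gt fun h0 => ?_), Real.log_one]
    obtain ⟨c1, c2⟩ := congr_of_xco_sub hv h' h'' b1 b2 b3 b4 h0
    exact h.not_lt (val_jf_sub_lt hτ hτ' hj hj' hu (by simpa [e1, e3] using (hV _).2.mpr c1)
      (by simpa [e2, e4] using (hV _).2.mpr c2))
  have h2 : ∀ {e A β : K}, Node v (W15.baseChange K) e A β → ∀ {i : Fin 4}, i ≠ 0 → v 2 = 1 →
      v (e - alX i) < 1 → v (alY i) < 1 → ∃ c : ℝ, ∀ (P : Pt W15 K) (τ : ℂ), 0 < τ.im →
        V (jf τ) ≤ 1 → V (uu τ) = 1 → pmap f P = pt τ → V (jf τ - jf τ') = 1 →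
          nodeLam v e β (P - Q) = c := fun {e A β} N i hi a1 a2 a3 => by
    by_cases hr : rho v e β Q = 1
    · refine ⟨0, fun P τ hτ hj hu hP h => ?_⟩
      have h3 := rho_eq_one_of_uu hv hV N hi a1 a2 a3 hτ hj hu hP
      have h4 : rho v e β (P - Q) = 1 := by_contra fun h4 => h4 (by
        rw [← (N.rho_add_sub h4 hr).1, sub_add_cancel, h3])
      rw [nodeLam, h1 P τ hτ hj hu hP h, h4, Real.log_one, zero_mul, add_zero]
    · exact ⟨_, fun P τ hτ hj hu hP h => by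
        rw [sub_eq_neg_add, N.nodeLam_add (by rwa [rho_neg])
          (rho_eq_one_of_uu hv hV N hi a1 a2 a3 hτ hj hu hP)]⟩
  unfold lamF
  split_ifs with h3 h5
  · obtain ⟨c, hc⟩ := h2 (node_three hv h3) (i := 1) (by simp)
      (na_eq_one hv h3 (na_nat hv 2) 1 (-1) (by norm_num)) (by simp [alX]) (by simp [alY])
    exact ⟨c, fun h => absurd h3 h, hc⟩
  · obtain ⟨c, hc⟩ := h2 (node_five hv h5) (i := 2) (by simp)
      (na_eq_one hv h5 (na_nat hv 2) 1 (-2) (by norm_num)) (by rwa [show alX 2 = -1 from rfl, show (4 : K) - (-1 : ℤ) = 5 by norm_num])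
      (by simpa [alY] using h5)
    exact ⟨c, fun _ h => absurd h5 h, hc⟩
  · exact ⟨0, fun _ _ => rfl, h1⟩

end

/-- Rational multiples of the logarithm of `p`. -/
def LogQ (p : ℕ) (r : ℝ) : Prop := ∃ q : ℚ, r = q * Real.log p

variable {K : Type*} [Field K] [NumberField K]

lemma exists_prime_below (w : FinitePlace K) : ∃ p : ℕ, p.Prime ∧ w p < 1 ∧
    ∀ x : K, x ≠ 0 → LogQ p (Real.log (w x)) := by
  have : NeZero w.maximalIdeal.asIdeal := ⟨w.maximalIdeal.ne_bot⟩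
  have := w.maximalIdeal.isPrime
  have hp := Nat.absNorm_under_prime w.maximalIdeal.asIdeal
  refine ⟨_, hp, ?_, fun x hx => ?_⟩
  · rw [← w.norm_embedding_eq, ← map_natCast (algebraMap (𝓞 K) K), FinitePlace.norm_lt_one_iff_mem]
    exact Int.absNorm_under_mem _
  · rw [← w.norm_embedding_eq, FinitePlace.norm_embedding', WithZeroMulInt.toNNReal_neg_apply _
      ((Valuation.ne_zero_iff _).mpr hx)]
    generalize Multiplicative.toAdd _ = k
    obtain ⟨n, hn⟩ : ∃ n : ℕ, Ideal.absNorm w.maximalIdeal.asIdeal =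
        Ideal.absNorm (Ideal.under ℤ w.maximalIdeal.asIdeal) ^ n :=
      ⟨_, Ideal.absNorm_eq_pow_inertiaDeg' _ hp⟩
    exact ⟨k * n, by rw [hn]; simp [mul_assoc]⟩

lemma logQ_lamF {v : AbsoluteValue K ℝ} (hv : IsNonarchimedean v) {p : ℕ} (hp : p.Prime)
    (h : ∀ x : K, x ≠ 0 → LogQ p (Real.log (v x))) (P : Pt W15 K) : LogQ p (lamF v P) := by
  have h0 : Real.log p ≠ 0 := (Real.log_pos (by exact_mod_cast hp.one_lt)).ne'
  have h1 : LogQ p (Real.log (max 1 (v (xco P)))) := by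
    rcases le_or_gt (v (xco P)) 1 with h1 | h1
    · exact ⟨0, by simp [max_eq_left h1]⟩
    · rw [max_eq_right h1.le]
      exact h _ (v.pos_iff.mp (one_pos.trans h1))
  have h2 : ∀ {e A β : K}, Node v (W15.baseChange K) e A β → LogQ p (nodeLam v e β P) :=
    fun {e A β} N => by
      obtain ⟨a, ha⟩ := h1
      obtain ⟨b, hb⟩ := h β (v.pos_iff.mp N.hβ0)
      obtain ⟨c, hc⟩ : LogQ p (Real.log (rho v e β P)) := by
        have h3 := N.rho_pos P
        obtain ⟨x, hx⟩ : ∃ x, rho v e β P = v x := by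
          rcases P with _ | ⟨x, y, h'⟩
          · exact ⟨1, v.map_one.symm⟩
          · rw [rho_some]
            rcases max_choice (v β) (min 1 (v (x - e))) with e1 | e1 <;> rw [e1]
            · exact ⟨_, rfl⟩
            · rcases min_choice 1 (v (x - e)) with e2 | e2 <;> rw [e2]
              exacts [⟨1, v.map_one.symm⟩, ⟨_, rfl⟩]
        rw [hx] at h3 ⊢
        exact h x (v.pos_iff.mp h3)
      refine ⟨a + c * (1 - c / (2 * b)), ?_⟩
      rw [nodeLam, ha, hb, hc, ← mul_assoc, mul_div_mul_right _ _ h0]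
      push_cast
      ring
  unfold lamF
  split_ifs with h3 h5
  exacts [h2 (node_three hv h3), h2 (node_five hv h5), h1]

end Pool.Agent.Lib.MP_696deb_nt
end

-- part Pool.Agent.Lib.MP_696deb_nt.HeightMain
section

/-! The height pairing of two divisors of special points: archimedean part and finite part. -/

open WeierstrassCurve WeierstrassCurve.Affine NumberField Pool.Agent.Shared.Weier

namespace Pool.Agent.Lib.MP_696deb_nt

open Unif

lemma IsCM.isSquare {D D' : ℤ} {τ : ℂ} (h : IsCM D τ) (h' : IsCM D' τ) : IsSquare (D * D') := by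
  obtain ⟨h1, h2, m, t, rfl, h⟩ := h
  obtain ⟨-, h3, m', t', rfl, h'⟩ := h'
  exact h.isSquare h' h1 (by rintro rfl; nlinarith) (by rintro rfl; nlinarith)

lemma IsCM.sub_notMem {D D' : ℤ} {τ τ' : ℂ} (h : IsCM D τ) (h' : IsCM D' τ')
    (hD : ¬ IsSquare (D * D')) : Fi τ - Fi τ' ∉ L15.lattice := fun h0 => by
  obtain ⟨a, b, c, d, e, rfl⟩ := (sub_mem_iff h.1 h'.1).mp h0
  have h1 : (!![a, b; 15 * c, d] : MZ).det = 1 := by simpa using e
  have h2 := h.isog (g := !![a, b; 15 * c, d]) (by omega)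
  rw [h1, one_pow, mul_one] at h2
  exact hD (h2.isSquare h')

lemma IsCM.al_three {D : ℤ} {τ : ℂ} (h : IsCM D τ) : IsCM (D * 15 ^ 2) (al 3 τ) := by
  have h1 : (!![0, -1; 15, 0] : MZ).det = 15 := by simp
  exact h1 ▸ h.isog (g := !![0, -1; 15, 0]) (by simp)

section
variable {Γ : Type*} [LinearOrderedCommGroupWithZero Γ] {V : Valuation ℂ Γ} {p : ℕ} {τ : ℂ}

lemma ord_of_Dl (hp : p.Prime) (hV : V p < 1) (h15 : p ∣ 15) (hτ : 0 < τ.im) (hj : V (jf τ) ≤ 1)
    (h : V (Dl τ / Dl (15 * τ)) = 1) : Ord V p τ := by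
  obtain ⟨d, hd⟩ := h15
  have h1 : 0 < (p * τ).im := by simpa using mul_pos (Nat.cast_pos.mpr hp.pos) hτ
  obtain ⟨a1, a2, -⟩ := val_Dl_div hp.ne_zero hτ hj
  obtain ⟨-, a3, -⟩ := val_Dl_div (d := d) (by rintro rfl; omega) h1 a1
  rw [← mul_assoc, ← Nat.cast_mul, mul_comm d, ← hd, Nat.cast_ofNat] at a3
  have h2 := (val_eq_one_of_mul a2 a3 (by rwa [div_mul_div_cancel₀ (Dl_ne h1)])).1
  refine ord_of_val hp hV hτ hj ((isReps_rP hp).det none) (Or.inr ?_)
  rw [← ph, ph_none, ← div_eq_mul_inv, ← inv_div, map_mul, map_pow, map_inv₀, h2, inv_one, mul_one]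

variable {K : Type*} [Field K] [CharZero K] [DecidableEq K] {v : AbsoluteValue K ℝ}
  (hv : IsNonarchimedean v) {f : K →+* ℂ}
  (hV : ∀ x, (V (f x) ≤ 1 ↔ v x ≤ 1) ∧ (V (f x) < 1 ↔ v x < 1))
include hv hV

lemma lamF_eq_zero (hp : p.Prime) (hpV : V p < 1) (h15 : ¬ p ∣ 15) {D D' : ℤ} {τ' : ℂ}
    (h : IsCM D τ) (h' : IsCM D' τ') (hD : ¬ IsSquare (D * D')) (hs : SplitAt p D ∨ SplitAt p D')
    {P Q : Pt W15 K} (hP : pmap f P = pt τ) (hQ : pmap f Q = pt τ') : lamF v (P - Q) = 0 := by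
  have h1 : V (15 : ℕ) = 1 := by
    simpa using val_int_eq_one hp hpV (n := (15 : ℕ)) (mt Int.natCast_dvd_natCast.mp h15)
  have h2 := val_eq_one_of_mul (val_nat V 3) (val_nat V 5) (by rw [← h1]; norm_num)
  obtain ⟨c, c1, c2⟩ := exists_lamF_const hv hV h'.1 (h'.val_jf V) hQ
  rw [c2 P τ h.1 (h.val_jf V) ((val_uu h.1 (h.val_jf V)).2 (by
      simpa using (val_Dl_div (d := 15) (by norm_num) h.1 (h.val_jf V)).2.2 h1)) hP,
    c1 (fun e => h2.1.not_lt (by simpa [map_ofNat] using (hV _).2.mpr e))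
      fun e => h2.2.not_lt (by simpa [map_ofNat] using (hV _).2.mpr e)]
  rcases hs with hs | hs
  · exact val_jf_sub hp hpV h h' (h.ord hp hpV hs) hD
  · rw [V.map_sub_swap]; exact val_jf_sub hp hpV h' h (h'.ord hp hpV hs) (by rwa [mul_comm])

lemma sum_lamF_inf (hp : p.Prime) (hpV : V p < 1) (h15 : p ∣ 15) {ι : Type*} {s : Finset ι}
    {τ : ι → ℂ} {D m : ι → ℤ} {D' : ℤ} {τ' : ℂ} (h : ∀ i, IsCM (D i) (τ i)) (h' : IsCM D' τ')
    (hD : ∀ i, ¬ IsSquare (D i * D')) (hs : ∀ i ∈ s, V (Dl (τ i) / Dl (15 * τ i)) = 1)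
    (hm : ∑ i ∈ s, m i = 0) {P : ι → Pt W15 K} {Q : Pt W15 K} (hP : ∀ i, pmap f (P i) = pt (τ i))
    (hQ : pmap f Q = pt τ') : ∑ i ∈ s, (m i : ℝ) * lamF v (P i - Q) = 0 := by
  obtain ⟨c, -, c2⟩ := exists_lamF_const hv hV h'.1 (h'.val_jf V) hQ
  rw [Finset.sum_congr rfl fun i hi => by
    rw [c2 _ _ (h i).1 ((h i).val_jf V) ((val_uu (h i).1 ((h i).val_jf V)).2 (hs i hi)) (hP i)
      (val_jf_sub hp hpV (h i) h' (ord_of_Dl hp hpV h15 (h i).1 ((h i).val_jf V) (hs i hi)) (hD i))],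
    ← Finset.sum_mul, ← Int.cast_sum, hm, Int.cast_zero, zero_mul]

lemma sum_lamF_block (hp : p.Prime) (hpV : V p < 1) (h15 : p ∣ 15) {ι : Type*} [Fintype ι]
    {s : Finset ι} {τ : ι → ℂ} {D m : ι → ℤ} {D' : ℤ} {τ' : ℂ} (h : ∀ i, IsCM (D i) (τ i))
    (h' : IsCM D' τ') (hD : ∀ i, ¬ IsSquare (D i * D'))
    (hs : ∀ i ∈ s, V (Dl (τ i) / Dl (15 * τ i)) = 1)
    (hs' : ∀ i ∉ s, V (Dl (al 3 (τ i)) / Dl (15 * al 3 (τ i))) = 1) (hm : ∑ i ∈ s, m i = 0)
    (hm' : ∑ i, m i = 0) {P : ι → Pt W15 K} {Q : Pt W15 K} (hP : ∀ i, pmap f (P i) = pt (τ i))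
    (hQ : pmap f Q = pt τ') : ∑ i, (m i : ℝ) * lamF v (P i - Q) = 0 := by
  classical
  let T : Pt W15 K := .some 9 (-27) ((W15_nonsingular _ _).mpr (by norm_num))
  have hT : ∀ {R : Pt W15 K} {z : ℂ}, 0 < z.im → pmap f R = pt z → pmap f (T - R) = pt (al 3 z) :=
    fun {R z} hz e => by
      rw [pt_al 3 hz, u15_alC_three, map_sub, e, show alS 3 = -1 from rfl, neg_one_zsmul,
        neg_add_eq_sub]
      congr 1
      exact IsPer.some_congr (map_ofNat f 9) (by simp [map_ofNat])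
  rw [← Finset.sum_add_sum_compl s, hm, zero_add] at hm'
  have h1 := sum_lamF_inf hv hV hp hpV h15 (fun i => (h i).al_three) h'.al_three
    (fun i e => hD i (isSquare_of_mul_sq (d := 15 ^ 2) (by norm_num) (by convert e using 1; ring)))
    (fun i hi => hs' i (Finset.mem_compl.mp hi)) hm' (fun i => hT (h i).1 (hP i)) (hT h'.1 hQ)
  have e : ∀ i, T - P i - (T - Q) = -(P i - Q) := fun i => by abel
  simp only [e, lamF_neg] at h1
  rw [← Finset.sum_add_sum_compl s, h1, sum_lamF_inf hv hV hp hpV h15 h h' hD hs hm hP hQ, add_zero]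

end

/-- At every place above `p` the parts of the divisor on the two components have degree zero. -/
def Blk (p : ℕ) {ι : Type*} (τ : ι → ℂ) (m : ι → ℤ) : Prop :=
  ∀ A : ValuationSubring ℂ, A.valuation p < 1 → ∃ s : Finset ι,
    (∀ i ∈ s, A.valuation (Dl (τ i) / Dl (15 * τ i)) = 1) ∧
    (∀ i ∉ s, A.valuation (Dl (al 3 (τ i)) / Dl (15 * al 3 (τ i))) = 1) ∧ ∑ i ∈ s, m i = 0

theorem height_main {ι κ : Type*} [Fintype ι] [Fintype κ] {τ : ι → ℂ} {τ' : κ → ℂ} {D m : ι → ℤ}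
    {D' n : κ → ℤ} (h : ∀ i, IsCM (D i) (τ i)) (h' : ∀ j, IsCM (D' j) (τ' j))
    (hD : ∀ i j, ¬ IsSquare (D i * D' j)) (hm : ∑ i, m i = 0) (hn : ∑ j, n j = 0)
    (ha : ∀ i, pt (τ i) ∈ Alg W15) (ha' : ∀ j, pt (τ' j) ∈ Alg W15)
    (hG : ∀ s : ℂ ≃+* ℂ,
      ∑ i, ∑ j, (m i * n j : ℝ) * lamArch (pmap (s : ℂ →+* ℂ) (pt (τ i) - pt (τ' j))) =
      ∑ i, ∑ j, (m i * n j : ℝ) * lamArch (pt (τ i) - pt (τ' j))) {p : ℕ}
    (hs : (¬ p ∣ 15 ∧ ∀ i j, SplitAt p (D i) ∨ SplitAt p (D' j)) ∨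
      (p ∣ 15 ∧ (Blk p τ m ∨ Blk p τ' n))) :
    hpair (∑ i, m i • pt (τ i)) (∑ j, n j • pt (τ' j)) -
      2 * ∑ i, ∑ j, (m i * n j : ℝ) * lam15 (Fi (τ i) - Fi (τ' j)) ∈ LogS p := by
  classical
  obtain ⟨H, hH, -, h1⟩ := exists_field (S := Set.range (fun i => pt (τ i)) ∪
    Set.range fun j => pt (τ' j)) (Set.toFinite _)
    (by rintro _ (⟨i, rfl⟩ | ⟨j, rfl⟩); exacts [ha i, ha' j]) Set.finite_empty (by simp)
  have : NumberField H := {}
  have : Countable H := (Module.finBasis ℚ H).equivFun.toEquiv.countable_iff.mpr inferInstance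
  choose P hP using fun i => h1 (pt (τ i)) (.inl ⟨i, rfl⟩)
  choose Q hQ using fun j => h1 (pt (τ' j)) (.inr ⟨j, rfl⟩)
  have na : ∀ w : FinitePlace H, IsNonarchimedean w.1 := fun w => w.add_le
  have h15 : (Function.mulSupport fun w : FinitePlace H => w 15).Finite :=
    FinitePlace.hasFiniteMulSupport (by norm_num)
  have hS : ∀ w ∉ h15.toFinset, ∀ R, lamF w.1 R = Real.log (max 1 (w (xco R))) := fun w hw R => by
    have h2 : w.1 3 * w.1 5 = 1 := by
      rw [← map_mul, show (3 * 5 : H) = 15 by norm_num]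
      exact not_not.mp (mt h15.mem_toFinset.mpr hw)
    have h3 := na_nat (na w) 3
    have h5 := na_nat (na w) 5
    rw [lamF, if_neg fun h => by nlinarith [w.1.nonneg 3, w.1.nonneg 5],
      if_neg fun h => by nlinarith [w.1.nonneg 3, w.1.nonneg 5]]
    rfl
  have hF : (⋃ i, ⋃ j, Function.support fun w : FinitePlace H => lamF w.1 (P i - Q j)).Finite :=
    Set.finite_iUnion fun i => Set.finite_iUnion fun j =>
      (h15.union (finite_log_max (xco (P i - Q j)))).subset fun w hw => by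
        by_cases hw' : w ∈ h15.toFinset
        · exact .inl (by simpa using hw')
        · exact .inr (by rwa [Function.mem_support, ← hS w hw'])
  choose pr p1 p2 p3 using exists_prime_below (K := H)
  have hd : (Module.finrank ℚ H : ℝ) ≠ 0 := by exact_mod_cast Module.finrank_pos.ne'
  have h2 := sum_hhat_sub (fun i => (⟨_, ha i⟩ : Alg W15)) (fun j => ⟨_, ha' j⟩) m n hm hn
  rw [hbil_apply] at h2
  push_cast at h2
  have h3 : ∀ φ : H →+* ℂ, ∑ i, ∑ j, (m i * n j : ℝ) * lamArch (pmap φ (P i - Q j)) =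
      -2 * ∑ i, ∑ j, (m i * n j : ℝ) * lam15 (Fi (τ i) - Fi (τ' j)) := fun φ => by
    obtain ⟨s, hs⟩ := Gal.exists_aut H.val.toRingHom φ (RingHom.injective _) φ.injective
    rw [show φ = (s : ℂ →+* ℂ).comp H.val.toRingHom from RingHom.ext fun x => (hs x).symm]
    simp only [← pmap_pmap, map_sub (pmap H.val.toRingHom), hP, hQ, hG, Finset.mul_sum]
    refine Finset.sum_congr rfl fun i _ => Finset.sum_congr rfl fun j _ => ?_
    rw [pt_eq_u15 (h i).1, pt_eq_u15 (h' j).1, ← map_sub,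
      lamArch_u15 ((h i).sub_notMem (h' j) (hD i j))]
    ring
  have h4 : ∀ i j, hhat (pt (τ i) - pt (τ' j)) = (∑ φ : H →+* ℂ, lamArch (pmap φ (P i - Q j)) +
      ∑ w ∈ hF.toFinset, lamF w.1 (P i - Q j)) / Module.finrank ℚ H := fun i j => by
    rw [← hP, ← hQ, ← map_sub, hhat_pmap, hrel_eq_sum neronLocal_lamArch
      (fun w => neronLocal_lamF (na w)) hS, finsum_eq_sum_of_support_subset _ (s := hF.toFinset)
        fun w hw => by simpa using ⟨i, j, hw⟩]
  have h5 : ∀ {α : Type} (s : Finset α) (F : α → ι → κ → ℝ), ∑ i, ∑ j, (m i * n j : ℝ) *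
      ∑ a ∈ s, F a i j = ∑ a ∈ s, ∑ i, ∑ j, (m i * n j : ℝ) * F a i j := fun s F => by
    simp only [Finset.mul_sum]
    rw [Finset.sum_congr rfl fun i _ => Finset.sum_comm, Finset.sum_comm]
  simp only [h4, ← mul_div_assoc, ← Finset.sum_div, mul_add, Finset.sum_add_distrib, h5, h3] at h2
  rw [Finset.sum_const, Finset.card_univ, Embeddings.card H ℂ, nsmul_eq_mul, add_div,
    mul_div_cancel_left₀ _ hd, neg_mul, neg_add_eq_iff_eq_add, ← sub_eq_add_neg] at h2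
  refine neg_mem_iff.mp (LogS.of_mul (r := Module.finrank ℚ H) (by exact_mod_cast hd) ?_)
  rw [neg_sub, ← h2, Rat.cast_natCast, mul_div_cancel₀ _ hd]
  refine Submodule.sum_mem _ fun w _ => ?_
  by_cases hw : pr w = p
  swap
  · refine Submodule.sum_mem _ fun i _ => Submodule.sum_mem _ fun j _ => ?_
    obtain ⟨q, hq⟩ := logQ_lamF (na w) (p1 w) (p3 w) (P i - Q j)
    rw [hq, mul_assoc]
    exact LogS.int_mul _ (LogS.int_mul _ (LogS.rat_mul _ (log_prime_mem (p1 w) hw)))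
  subst hw
  obtain ⟨A, hA⟩ := exists_valuation (na w) H.val.toRingHom
  have h6 : A.valuation (pr w) < 1 := by simpa using (hA _).2.mpr (p2 w)
  convert (LogS _).zero_mem using 1
  obtain ⟨hp, hs⟩ | ⟨hp, hs | hs⟩ := hs
  · refine Finset.sum_eq_zero fun i _ => Finset.sum_eq_zero fun j _ => ?_
    rw [lamF_eq_zero (na w) hA (p1 w) h6 hp (h i) (h' j) (hD i j) (hs i j) (hP i) (hQ j), mul_zero]
  · obtain ⟨s, s1, s2, s3⟩ := hs A h6
    rw [Finset.sum_comm]
    refine Finset.sum_eq_zero fun j _ => ?_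
    simp only [mul_comm (m _ : ℝ) (n j), mul_assoc]
    rw [← Finset.mul_sum, sum_lamF_block (na w) hA (p1 w) h6 hp h (h' j) (fun i => hD i j) s1 s2
      s3 hm hP (hQ j), mul_zero]
  · obtain ⟨s, s1, s2, s3⟩ := hs A h6
    refine Finset.sum_eq_zero fun i _ => ?_
    simp only [mul_assoc, ← neg_sub (Q _), lamF_neg]
    rw [← Finset.mul_sum, sum_lamF_block (na w) hA (p1 w) h6 hp h' (h i)
      (fun j => mul_comm (D i) (D' j) ▸ hD i j) s1 s2 s3 hn hQ (hP i), mul_zero]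

lemma isCM_froot {Q : Fm} (hD : fdisc Q < 0) (hQ : 0 < Q.1) : IsCM (fdisc Q) (froot Q) :=
  isCM_of_form (im_froot_pos hD hQ) hD (froot_root hD hQ)

lemma val_froot {Γ : Type*} [LinearOrderedCommGroupWithZero Γ] {V : Valuation ℂ Γ} {p : ℕ}
    (hp : p.Prime) (hV : V p < 1) (h15 : p ∣ 15) {Q : Fm} (hD : fdisc Q < 0) (hQ : 0 < Q.1)
    (hl : 15 ∣ Q.1) (hb : ¬ (p : ℤ) ∣ fdisc Q) :
    (V (Q.2.1 + √(-fdisc Q : ℝ) * Complex.I) = 1 → V (Dl (froot Q) / Dl (15 * froot Q)) = 1) ∧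
    (V (Q.2.1 + √(-fdisc Q : ℝ) * Complex.I) ≠ 1 →
      V (Dl (al 3 (froot Q)) / Dl (15 * al 3 (froot Q))) = 1) := by
  have h := isCM_froot hD hQ
  have h0 := froot_root hD hQ
  have h1 : (Q.1 : ℂ) ≠ 0 := by exact_mod_cast hQ.ne'
  have h2 : V (Q.2.1 + √(-fdisc Q : ℝ) * Complex.I) = V (Q.1 * froot Q + Q.2.1) := by
    have h2 : V (2 : ℤ) = 1 := val_int_eq_one hp hV fun e => by
      obtain rfl := (Nat.prime_dvd_prime_iff_eq hp Nat.prime_two).mp (by exact_mod_cast e)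
      omega
    rw [← one_mul (V (_ * _ + _)), ← h2, ← map_mul, froot]
    congr 1
    push_cast
    field_simp
    ring
  rw [h2]
  obtain ⟨A, b, c⟩ := Q
  obtain ⟨a, rfl : A = _⟩ := hl
  simp only [fdisc] at hD hQ hb h0 ⊢
  generalize froot _ = τ at *
  have e : (!![0, -c; a, b] : MZ) * ut 15 0 1 = !![0, -c; 15 * a, b] := by simp [ut, mul_comm]
  have hM : 0 < (!![0, -c; a, b] : MZ).det := by simp; nlinarith [sq_nonneg b]
  have hN : 0 < (ut 15 0 1).det := by simp [ut]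
  have hf : act (!![0, -c; a, b] * ut 15 0 1) τ = τ := by
    rw [act_eq_iff (by rw [Matrix.det_mul]; positivity) h.1, e]
    simpa using h0
  have hd : den (!![0, -c; a, b] * ut 15 0 1) τ = (15 * a : ℤ) * τ + b := by simp [e, den]
  have h3 : phiJ (ut 15 0 1) τ = 15 ^ 12 * (Dl τ / Dl (15 * τ))⁻¹ := by
    rw [phi_ut one_ne_zero, show act (ut 15 0 1) τ = 15 * τ by simp [ut, act_of, mob], inv_div]
    push_cast
    ring
  refine ⟨fun h4 => ?_, fun h4 => ?_⟩
  · have h5 := val_phi_of_den hM hN h.1 (h.val_jf V) hf (hd ▸ h4)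
    rw [h3, map_mul, map_pow, det_ut, map_inv₀] at h5
    push_cast at h5
    rwa [mul_eq_left₀ (by simp), inv_eq_one] at h5
  · have h5 := val_phi_of_div hM hN h.1 (h.val_jf V) hf ((val_den_or (by
      rw [Matrix.det_mul]; positivity) h.1 (h.val_jf V) hf (val_int_eq_one hp hV fun h5 => hb (by
        rw [e] at h5
        simp only [Matrix.trace_fin_two_of, zero_add] at h5
        exact dvd_sub (dvd_pow h5 two_ne_zero) ((((Int.natCast_dvd_natCast.mpr h15).mul_right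
          a).mul_left 4).mul_right c)))).resolve_left (hd ▸ h4))
    have h6 : τ ≠ 0 := fun e => by simpa [e] using h.1
    rw [(Dl_al_three h.1).1, (Dl_al_three h.1).2.1, ← h5, h3, inv_div, mul_pow, mul_right_comm,
      mul_comm (τ ^ 12), mul_div_mul_right _ _ (pow_ne_zero _ h6), mul_div_assoc]

lemma blk_froot {p : ℕ} (hp : p.Prime) (h15 : p ∣ 15) {S : Finset Fm} {m : Fm → ℤ} {D : ℤ}
    (hS : Pts S m D) (hl : ∀ Q ∈ S, 15 ∣ Q.1) (hD : ¬ (p : ℤ) ∣ D)
    (hm : ∀ r : ℤ, ∑ Q ∈ S with (p : ℤ) ∣ Q.2.1 - r, m Q = 0) :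
    Blk p (fun Q : S => froot Q) fun Q => m Q := fun A hA => by
  classical
  have h := fun Q : S => val_froot hp hA h15 ((hS.disc _ Q.2).trans_lt hS.neg) (hS.pos _ Q.2)
    (hl _ Q.2) (by rwa [hS.disc _ Q.2])
  simp only [fun Q : S => hS.disc _ Q.2] at h
  refine ⟨.filter (fun Q : S => A.valuation (Q.1.2.1 + √(-D : ℝ) * Complex.I) = 1) .univ,
    fun Q hQ => (h Q).1
    (by simpa using hQ), fun Q hQ => (h Q).2 (by simpa using hQ), ?_⟩
  have h1 : ∀ {b r : ℤ}, (p : ℤ) ∣ b - r → A.valuation (r + √(-D : ℝ) * Complex.I) = 1 →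
      A.valuation (b + √(-D : ℝ) * Complex.I) = 1 := fun {b r} ⟨k, hk⟩ e => by
    rw [← e, show (b : ℂ) = p * k + r by exact_mod_cast eq_add_of_sub_eq hk, add_assoc]
    refine A.valuation.map_add_eq_of_lt_right ?_
    rw [e, map_mul]
    exact mul_lt_one_of_nonneg_of_lt_one_left zero_le hA (val_int _ k)
  rw [Finset.sum_filter, Finset.sum_coe_sort S fun Q =>
    if A.valuation (Q.2.1 + √(-D : ℝ) * Complex.I) = 1 then m Q else 0,
    ← Finset.sum_fiberwise_of_maps_to (t := S.image fun Q => Q.2.1 % (p : ℤ))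
      (g := fun Q => Q.2.1 % (p : ℤ))
      fun Q hQ => Finset.mem_image_of_mem _ hQ]
  refine Finset.sum_eq_zero fun r hr => ?_
  obtain ⟨R, -, rfl⟩ := Finset.mem_image.mp hr
  simp only [Int.emod_eq_emod_iff_emod_sub_eq_zero, ← Int.dvd_iff_emod_eq_zero]
  by_cases e : A.valuation (R.2.1 + √(-D : ℝ) * Complex.I) = 1
  · rw [← hm R.2.1]
    exact Finset.sum_congr rfl fun Q hQ => if_pos (h1 (Finset.mem_filter.mp hQ).2 e)
  · exact Finset.sum_eq_zero fun Q hQ =>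
      if_neg fun e' => e (h1 (dvd_sub_comm.mp (Finset.mem_filter.mp hQ).2) e')

/-- The divisor is multiplied by the sign `e s` under the automorphism `s`. -/
def GalEq (S : Finset Fm) (m : Fm → ℤ) (e : (ℂ ≃+* ℂ) → ℤ) : Prop :=
  ∀ (s : ℂ ≃+* ℂ) (g : Pt W15 ℂ → ℝ), ∑ Q ∈ S, m Q * g (pmap (s : ℂ →+* ℂ) (pt (froot Q))) =
    e s * ∑ Q ∈ S, m Q * g (pt (froot Q))

/-- The conditions under which the prime `p` does not contribute to the height pairing. -/
def NoP (p : ℕ) (S : Finset Fm) (m : Fm → ℤ) (D : ℤ) : Prop :=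
  (¬ p ∣ 15 ∧ SplitAt p D) ∨ (p ∣ 15 ∧ ¬ (p : ℤ) ∣ D ∧ (∀ Q ∈ S, 15 ∣ Q.1) ∧
    ∀ r : ℤ, ∑ Q ∈ S with (p : ℤ) ∣ Q.2.1 - r, m Q = 0)

theorem height_forms {S T : Finset Fm} {m w : Fm → ℤ} {D D' : ℤ} (hS : Pts S m D) (hT : Pts T w D')
    (hD : ¬ IsSquare (D * D')) (ha : ∀ Q ∈ S, pt (froot Q) ∈ Alg W15)
    (ha' : ∀ Q ∈ T, pt (froot Q) ∈ Alg W15) {e e' : (ℂ ≃+* ℂ) → ℤ} (hG : GalEq S m e)
    (hG' : GalEq T w e') (he : ∀ s, e s * e' s = 1) {p : ℕ} (hp : p.Prime)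
    (hs : NoP p S m D ∨ NoP p T w D') :
    hpair (u15 (∑ Q ∈ S, m Q * Fi (froot Q))) (u15 (∑ R ∈ T, w R * Fi (froot R))) -
      2 * ∑ Q ∈ S, ∑ R ∈ T, m Q * w R *
        nerLam (Shared.Weier.sig L15) (eta L15) (Fi (froot Q) - Fi (froot R)) ∈ LogS p := by
  have c : ∀ {S : Finset Fm} {m : Fm → ℤ} {D : ℤ}, Pts S m D → ∀ Q : S, IsCM D (froot Q) :=
    fun hS Q => hS.disc _ Q.2 ▸ isCM_froot ((hS.disc _ Q.2).trans_lt hS.neg) (hS.pos _ Q.2)
  have c' : ∀ {S : Finset Fm} {m : Fm → ℤ} {D : ℤ}, Pts S m D →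
      u15 (∑ Q ∈ S, m Q * Fi (froot Q)) = ∑ Q : S, m Q • pt (froot Q) := fun hS => by
    rw [map_sum, ← Finset.sum_coe_sort]
    exact Finset.sum_congr rfl fun Q _ => by rw [pt_eq_u15 (c hS Q).1, ← map_zsmul, zsmul_eq_mul]
  have h := height_main (m := fun Q : S => m Q) (n := fun Q : T => w Q) (c hS) (c hT)
    (fun _ _ => hD) (by rw [Finset.sum_coe_sort S m, hS.deg])
    (by rw [Finset.sum_coe_sort T w, hT.deg]) (fun Q => ha _ Q.2) (fun Q => ha' _ Q.2)
    (fun s => ?_) (p := p) (by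
      rcases hs with (⟨a, b⟩ | ⟨a, b, c, d⟩) | ⟨a, b⟩ | ⟨a, b, c, d⟩
      exacts [.inl ⟨a, fun _ _ => .inl b⟩, .inr ⟨a, .inl (blk_froot hp a hS c b d)⟩,
        .inl ⟨a, fun _ _ => .inr b⟩, .inr ⟨a, .inr (blk_froot hp a hT c b d)⟩])
  · rw [c' hS, c' hT, ← Finset.sum_coe_sort S]
    simp only [← Finset.sum_coe_sort T]
    exact h
  · have h1 : ∀ F : Fm → Fm → ℝ, ∑ Q : S, ∑ R : T, (m Q * w R : ℝ) * F Q R =
        ∑ Q ∈ S, m Q * ∑ R ∈ T, w R * F Q R := fun F => by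
      simp only [mul_assoc, ← Finset.mul_sum]
      rw [← Finset.sum_coe_sort S]
      simp only [← Finset.sum_coe_sort T]
    rw [h1 fun Q R => lamArch (pmap (s : ℂ →+* ℂ) (pt (froot Q) - pt (froot R))),
      h1 fun Q R => lamArch (pt (froot Q) - pt (froot R))]
    simp only [map_sub, fun P => hG' s fun R => lamArch (P - R)]
    rw [hG s fun P => e' s * ∑ R ∈ T, w R * lamArch (P - pt (froot R))]
    simp only [mul_left_comm _ (e' s : ℝ), ← Finset.mul_sum]
    rw [← mul_assoc, ← Int.cast_mul, mul_comm (e' s), he, Int.cast_one, one_mul]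

end Pool.Agent.Lib.MP_696deb_nt
end
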