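import Pool.Agent.Lib.MP_696deb_nt.KleinTors
import Pool.Agent.Lib.MP_696deb_nt.UnifPt
import Pool.Agent.Lib.MP_696deb_nt.GDefs
import Pool.Agent.Lib.MP_696deb_nt.AnDefs
import Pool.Agent.Lib.MP_696deb_nt.BinForm

/-! Heegner forms of level fifteen and the points attached to them. -/

set_option autoImplicit false

open Complex WeierstrassCurve Finset
open Pool.Agent.Shared.Weier

namespace Pool.Agent.Lib.MP_696deb_nt

/-- Heegner forms `[15 a, b, c]` of discriminant `D` with `b ≡ r` modulo `30`. -/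
structure IsHg (D r : ℤ) (Q : Fm) : Prop where
  disc : fdisc Q = D
  pos : 0 < Q.1
  lev : 15 ∣ Q.1
  res : 30 ∣ Q.2.1 - r

/-- A system of representatives of the Heegner forms modulo `Γ₀(15)`. -/
structure HReps (D r : ℤ) (R : Finset Fm) : Prop where
  mem : ∀ Q ∈ R, IsHg D r Q
  ex : ∀ Q, IsHg D r Q → ∃ Q' ∈ R, FEq Q' Q
  uniq : ∀ Q ∈ R, ∀ Q' ∈ R, FEq Q Q' → Q = Q'

/-- The points defined over a cyclotomic field of conductor prime to `30`. -/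
noncomputable def Nab (W : WeierstrassCurve ℚ) : AddSubgroup (Pt W ℂ) where
  carrier := {P | ∃ m : ℕ, m.Coprime 30 ∧
    ∀ σ : ℂ ≃+* ℂ, (∀ ζ : ℂ, ζ ^ m = 1 → σ ζ = ζ) → pmap (σ : ℂ →+* ℂ) P = P}
  zero_mem' := ⟨1, by norm_num, fun _ _ => map_zero _⟩
  add_mem' := by
    rintro P Q ⟨m, hm, h⟩ ⟨m', hm', h'⟩
    refine ⟨m * m', hm.mul_left hm', fun σ hσ => ?_⟩
    rw [map_add, h σ fun ζ e => hσ ζ (by rw [pow_mul, e, one_pow]),
      h' σ fun ζ e => hσ ζ (by rw [mul_comm, pow_mul, e, one_pow])]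
  neg_mem' := by
    rintro P ⟨m, hm, h⟩
    exact ⟨m, hm, fun σ hσ => by rw [map_neg, h σ hσ]⟩

theorem exists_L1 : ∃ L, IsPer L (W1.baseChange ℂ) := by
  obtain ⟨L, h2, h3⟩ := Unif.exists_periodPair (g₂ := 1 / 12) (g₃ := -161 / 216) (by norm_num)
    (by norm_num) (by norm_num)
  refine ⟨L, ?_, ?_⟩ <;> simp only [h2, h3, W1, baseChange, c₄, c₆, b₂, b₄, b₆] <;>
    norm_num

/-- The period lattice of the curve `W1`. -/
noncomputable def L1 : PeriodPair := exists_L1.choose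

theorem isPer1 : IsPer L1 (W1.baseChange ℂ) := exists_L1.choose_spec

/-- The uniformization of the curve `W1`. -/
noncomputable def u1 : ℂ →+ Pt W1 ℂ := isPer1.unif

/-- What is used of the theory of Klein forms. -/
structure Kl : Prop where
  eq : ∃ e : ℤ, (e = 1 ∨ e = -1) ∧ ∀ τ : ℂ, 0 < τ.im → kpt (lat15 τ) τ = u1 (e * Fi τ)
  le : L1.lattice ≤ Unif.L15.lattice
  ne : u1 (2 * wp) ≠ 0

/-- Sign vectors with product one. -/
def Sgn (n : ℕ) (ε : ℕ → ℤ) : Prop :=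
  (∀ p ∈ n.primeFactors, ε p = 1 ∨ ε p = -1) ∧ ∏ p ∈ n.primeFactors, ε p = 1

/-- The forms of a given genus. -/
def gen (n : ℕ) (R : Finset Fm) (ε : ℕ → ℤ) : Finset Fm :=
  R.filter fun Q => ∀ p ∈ n.primeFactors, hil n p Q.2.2 = ε p

/-- The trace of the Heegner points of a given genus. -/
noncomputable def Zg (n : ℕ) (R : Finset Fm) (ε : ℕ → ℤ) : Pt W1 ℂ :=
  ∑ Q ∈ gen n R ε, u1 (Fi (froot Q))

/-- What the induction uses of the Galois action on Heegner points. -/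
structure GalData : Prop where
  tors : ∀ z : ℂ, IsOfFinAddOrder (u1 z) ↔ ∃ M : ℕ, 0 < M ∧ (M : ℂ) * z ∈ Unif.L15.lattice
  reps : ∀ D r : ℤ, D < 0 → ∃ R, HReps D r R
  sgn : ∀ (n : ℕ) (r : ℤ) (Q : Fm), Good n → IsHg (-n) r Q → Sgn n fun p => hil n p Q.2.2
  g1 : ∀ (n : ℕ) (r : ℤ) (R : Finset Fm) (ε ε' : ℕ → ℤ), Good n → HReps (-n) r R → Sgn n ε →
    Sgn n ε' → Zg n R ε - Zg n R ε' ∈ Nab W1 ∧ 4 • Zg n R ε ∈ Nab W1
  g2 : ∀ (n : ℕ) (r : ℤ) (R : Finset Fm) (ε : ℕ → ℤ), Good n → CondB n → 60 ∣ r ^ 2 + n →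
    HReps (-n) r R → Sgn n ε → ∃ (τ : ℂ ≃+* ℂ) (U : Pt W1 ℂ), 2 • U ≠ 0 ∧ 4 • U = 0 ∧
      pmap (τ : ℂ →+* ℂ) (4 • Zg n R ε) + 4 • Zg n R ε = U

end Pool.Agent.Lib.MP_696deb_nt
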