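import Pool.Agent.Lib.MP_696deb_nt.VDefs
import Pool.Agent.Lib.MP_696deb_nt.SymClosed
import Pool.Agent.Lib.MP_696deb_nt.SymArith
import Pool.Agent.Lib.MP_696deb_nt.HDefs
import Pool.Agent.Lib.MP_696deb_nt.AutC

-- part Pool.Agent.Lib.MP_696deb_nt.TYZ
section

/-! The induction on the number of prime factors: the Heegner point has infinite order. -/

set_option autoImplicit false

open Finset NumberTheorySymbols AddCommGroup

namespace Pool.Agent.Lib.MP_696deb_nt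

namespace TYZ

/-- Points divisible by a power of two, up to torsion and odd multiples. -/
noncomputable def HH (j : ℕ) : AddSubgroup (Pt W1 ℂ) where
  carrier := {P | ∃ a : ℤ, Odd a ∧ ∃ R ∈ Nab W1, a • P - (2 : ℤ) ^ j • R ∈ torsion (Pt W1 ℂ)}
  zero_mem' := ⟨1, odd_one, 0, zero_mem _, by simp⟩
  add_mem' := by
    rintro P Q ⟨a, ha, R, hR, h⟩ ⟨b, hb, S, hS, h'⟩
    refine ⟨a * b, ha.mul hb, b • R + a • S, add_mem (zsmul_mem hR _) (zsmul_mem hS _), ?_⟩
    convert add_mem (zsmul_mem h b) (zsmul_mem h' a) using 1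
    module
  neg_mem' := by
    rintro P ⟨a, ha, R, hR, h⟩
    refine ⟨a, ha, -R, neg_mem hR, ?_⟩
    convert neg_mem h using 1
    module

lemma HH_nab (j : ℕ) {R : Pt W1 ℂ} (h : R ∈ Nab W1) : (2 : ℤ) ^ j • R ∈ HH j :=
  ⟨1, odd_one, R, h, by simp⟩

lemma HH_smul (i : ℕ) {j : ℕ} {P : Pt W1 ℂ} (h : P ∈ HH j) : (2 : ℤ) ^ i • P ∈ HH (i + j) := by
  obtain ⟨a, ha, R, hR, h⟩ := h
  refine ⟨a, ha, R, hR, ?_⟩
  convert zsmul_mem h (2 ^ i) using 1
  rw [pow_add]
  module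

lemma HH_tors {j : ℕ} {a : ℤ} (ha : Odd a) {P Q : Pt W1 ℂ} (h : a • P - Q ∈ torsion (Pt W1 ℂ))
    (hQ : Q ∈ HH j) : P ∈ HH j := by
  obtain ⟨b, hb, R, hR, h'⟩ := hQ
  refine ⟨b * a, hb.mul ha, R, hR, ?_⟩
  convert add_mem (zsmul_mem h b) h' using 1
  module

lemma pmap_mem (τ : ℂ ≃+* ℂ) {P : Pt W1 ℂ} (h : P ∈ Nab W1) :
    pmap (τ : ℂ →+* ℂ) P ∈ Nab W1 := by
  obtain ⟨m, hm, h⟩ := h
  refine ⟨m, hm, fun σ hσ => ?_⟩
  conv_rhs => rw [← h (τ.trans (σ.trans τ.symm)) fun ζ e => by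
    simp [hσ (τ ζ) (by rw [← map_pow, e, map_one])]]
  rw [pmap_pmap, pmap_pmap]
  congr 2
  ext z
  simp

lemma sum_HP (n : ℕ) (R : Finset Fm) {S U : Finset ℕ} (h : Disjoint S U) :
    ∑ T ∈ U.powerset, u1 (HP n (S ∪ T) R) =
      ∑ Q ∈ R, (hilS n S Q.2.2 * ∏ p ∈ U, (1 + hil n p Q.2.2)) • u1 (Fi (froot Q)) := by
  simp only [HP, map_sum, ← zsmul_eq_mul, map_zsmul]
  rw [sum_comm]
  refine sum_congr rfl fun Q _ => ?_
  rw [prod_one_add, mul_sum, sum_smul]
  refine sum_congr rfl fun T hT => ?_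
  rw [hilS, prod_union (h.mono_right (mem_powerset.mp hT)), hilS]

lemma prod_one_add_eq {U : Finset ℕ} {ε : ℕ → ℤ} (h : ∀ p ∈ U, ε p = 1 ∨ ε p = -1) :
    ∏ p ∈ U, (1 + ε p) = if ∀ p ∈ U, ε p = 1 then 2 ^ #U else 0 := by
  split_ifs with h1
  · rw [← prod_const]
    exact prod_congr rfl fun p hp => by rw [h1 p hp]; rfl
  · push Not at h1
    obtain ⟨p, hp, h1⟩ := h1
    exact prod_eq_zero hp (by rw [(h p hp).resolve_left h1]; rfl)

lemma jac15 {n : ℕ} {r : ℤ} (hn : Good n) (hr : 60 ∣ r ^ 2 + n) : J(-15 | n) = -1 := by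
  refine (GInd.jac15_cases hn.cop).resolve_left fun h => ?_
  have h4 := hn.mod4
  have h1 := (GInd.jac15_iff (by omega) hn.cop).mp h
  have h3 : r ^ 2 % 3 = 0 ∨ r ^ 2 % 3 = 1 := by
    have : r % 3 = 0 ∨ r % 3 = 1 ∨ r % 3 = 2 := by omega
    rcases this with h | h | h <;> simp [pow_two, Int.mul_emod, h]
  have h5 : r ^ 2 % 5 = 0 ∨ r ^ 2 % 5 = 1 ∨ r ^ 2 % 5 = 4 := by
    have : r % 5 = 0 ∨ r % 5 = 1 ∨ r % 5 = 2 ∨ r % 5 = 3 ∨ r % 5 = 4 := by omega
    rcases this with h | h | h | h | h <;> simp [pow_two, Int.mul_emod, h]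
  omega

lemma exists_even {n : ℕ} (hn : Good n) (hJ : J(-15 | n) = -1) {S : Finset ℕ}
    (hS : S ⊆ n.primeFactors) : ∃ A B : ℕ, A * B = n ∧ J(-15 | B) = -1 ∧
      (A.primeFactors = S ∨ A.primeFactors = n.primeFactors \ S) := by
  have hp : ∀ p ∈ n.primeFactors, p.Prime := fun p hp => Nat.prime_of_mem_primeFactors hp
  have e1 : (∏ p ∈ S, p).primeFactors = S := Nat.primeFactors_prod fun p h => hp p (hS h)
  have e2 : (∏ p ∈ n.primeFactors \ S, p).primeFactors = n.primeFactors \ S :=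
    Nat.primeFactors_prod fun p h => hp p (mem_sdiff.mp h).1
  have e3 : (∏ p ∈ n.primeFactors \ S, p) * ∏ p ∈ S, p = n := by
    rw [prod_sdiff hS, Nat.prod_primeFactors_of_squarefree hn.sqf]
  generalize ∏ p ∈ S, p = A at *
  generalize ∏ p ∈ n.primeFactors \ S, p = B at *
  have h0 := hn.sqf.ne_zero
  have hc := hn.cop
  rw [← e3] at hJ h0 hc
  rw [jacobiSym.mul_right' _ (left_ne_zero_of_mul h0) (right_ne_zero_of_mul h0)] at hJ
  rcases GInd.jac15_cases (Nat.Coprime.coprime_mul_left hc) with h | h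
  · exact ⟨A, B, by rw [mul_comm, e3], by rwa [h, mul_one] at hJ, .inl e1⟩
  · exact ⟨B, A, e3, h, .inr e2⟩

/-- The statement proved by induction. -/
def Claim (n : ℕ) : Prop := ∀ (r : ℤ) (R : Finset Fm), Good n → 60 ∣ r ^ 2 + n → HReps (-n) r R →
  ∀ S ⊆ n.primeFactors, S ≠ ∅ → S ≠ n.primeFactors → 4 • u1 (HP n S R) ∈ HH #n.primeFactors

section

variable (hG : GalData) {n : ℕ} {r : ℤ} {R : Finset Fm} (hn : Good n) (hR : HReps (-n) r R)

include hG hn hR

lemma HP_compl {S : Finset ℕ} (hS : S ⊆ n.primeFactors) :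
    HP n (n.primeFactors \ S) R = HP n S R := by
  refine sum_congr rfl fun Q hQ => ?_
  obtain ⟨h1, h2⟩ := hG.sgn n r Q hn (hR.mem Q hQ)
  have h3 : hilS n S Q.2.2 * hilS n S Q.2.2 = 1 := by
    rw [hilS, ← prod_mul_distrib]
    exact prod_eq_one fun p hp => by rcases h1 p (hS hp) with h | h <;> simp [h]
  rw [← prod_sdiff hS, ← hilS, ← hilS] at h2
  congr 2
  linear_combination hilS n S Q.2.2 * h2 - hilS n (n.primeFactors \ S) Q.2.2 * h3

lemma sum_all {p : ℕ} (hp : p ∈ n.primeFactors) :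
    ∑ T ∈ (n.primeFactors.erase p).powerset, u1 (HP n T R) =
      (2 : ℤ) ^ #(n.primeFactors.erase p) • Zg n R fun _ => 1 := by
  have := sum_HP n R (disjoint_empty_left (n.primeFactors.erase p))
  simp only [empty_union] at this
  rw [this, Zg, gen, sum_filter, smul_sum]
  refine sum_congr rfl fun Q hQ => ?_
  obtain ⟨h1, h2⟩ := hG.sgn n r Q hn (hR.mem Q hQ)
  rw [prod_one_add_eq fun q hq => h1 q (mem_of_mem_erase hq), hilS, prod_empty, one_mul, smul_ite,
    ite_smul, zero_smul, smul_zero]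
  refine if_congr ⟨fun h q hq => ?_, fun h q hq => h q (mem_of_mem_erase hq)⟩ rfl rfl
  by_contra h3
  obtain rfl : q = p := by_contra fun h4 => h3 (h q (mem_erase.mpr ⟨h4, hq⟩))
  rw [← mul_prod_erase _ _ hq, prod_eq_one h, mul_one] at h2
  exact h3 h2

lemma sum_coset {p q : ℕ} (hp : p ∈ n.primeFactors) (hq : q ∈ n.primeFactors.erase p) :
    4 • ∑ T ∈ ((n.primeFactors.erase p).erase q).powerset, u1 (HP n ({q} ∪ T) R) ∈
      HH #n.primeFactors := by
  let ε : ℕ → ℤ := fun l => if l ∈ (n.primeFactors.erase p).erase q then 1 else -1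
  have e1 : ∀ f : ℕ → ℤ, ∏ l ∈ n.primeFactors, f l =
      f p * (f q * ∏ l ∈ (n.primeFactors.erase p).erase q, f l) := fun f => by
    rw [mul_prod_erase _ _ hq, mul_prod_erase _ _ hp]
  have e2 : ∀ P : ℕ → Prop, (∀ l ∈ n.primeFactors, P l) ↔
      P p ∧ P q ∧ ∀ l ∈ (n.primeFactors.erase p).erase q, P l := fun P => by
    conv_lhs => rw [← insert_erase hp, ← insert_erase hq]
    simp only [forall_mem_insert]
  have e3 : ε p = -1 := by simp [ε]
  have e4 : ε q = -1 := by simp [ε]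
  have e5 : ∀ l ∈ (n.primeFactors.erase p).erase q, ε l = 1 := fun l hl => if_pos hl
  have h := (hG.g1 n r R (fun _ => 1) ε hn hR ⟨by simp, by simp⟩
    ⟨fun l _ => by simp only [ε]; split_ifs <;> simp, by rw [e1, e3, e4, prod_eq_one e5]; rfl⟩).1
  convert HH_nab _ h using 1
  rw [sum_HP n R (by simp), Zg, Zg, gen, gen, sum_filter, sum_filter, ← sum_sub_distrib, smul_sum,
    smul_sum, ← card_erase_add_one hp, ← card_erase_add_one hq]
  refine sum_congr rfl fun Q hQ => ?_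
  obtain ⟨h1, h2⟩ := hG.sgn n r Q hn (hR.mem Q hQ)
  rw [prod_one_add_eq fun l hl => h1 l (mem_of_mem_erase (mem_of_mem_erase hl)), hilS,
    prod_singleton]
  have e6 : (∀ l ∈ (n.primeFactors.erase p).erase q, hil n l Q.2.2 = ε l) ↔
      ∀ l ∈ (n.primeFactors.erase p).erase q, hil n l Q.2.2 = 1 :=
    forall₂_congr fun l hl => by rw [e5 l hl]
  simp only [e2, e3, e4, e6]
  by_cases h3 : ∀ l ∈ (n.primeFactors.erase p).erase q, hil n l Q.2.2 = 1
  · rw [e1, prod_eq_one h3] at h2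
    rcases h1 p hp with h4 | h4 <;> rcases h1 q (mem_of_mem_erase hq) with h5 | h5 <;>
      simp only [h4, h5] at h2 ⊢ <;> try omega
    · rw [if_pos h3, if_pos ⟨trivial, trivial, h3⟩, if_neg (by simp)]
      module
    · rw [if_pos h3, if_neg (by simp), if_pos ⟨trivial, trivial, h3⟩]
      module
  · simp only [h3, and_false, if_false, mul_zero, zero_smul, smul_zero, sub_self]

lemma eight_mem (hr : 60 ∣ r ^ 2 + n) (hC : Claim n) : 8 • u1 (HP n ∅ R) ∈ HH #n.primeFactors := by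
  obtain ⟨p, hp⟩ := Nat.nonempty_primeFactors.mpr (show 1 < n by have := hn.mod4; omega)
  have h1 := HH_nab #n.primeFactors
    (hG.g1 n r R (fun _ => 1) (fun _ => 1) hn hR ⟨by simp, by simp⟩ ⟨by simp, by simp⟩).2
  have h2 := sum_all hG hn hR hp
  rw [← add_sum_erase _ _ (empty_mem_powerset _), ← eq_sub_iff_add_eq] at h2
  have h3 : 4 • ∑ T ∈ (n.primeFactors.erase p).powerset.erase ∅, u1 (HP n T R) ∈
      HH #n.primeFactors := by
    rw [smul_sum]
    refine sum_mem fun T hT => ?_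
    have h4 := mem_powerset.mp (mem_of_mem_erase hT)
    exact hC r R hn hr hR T (h4.trans (erase_subset _ _)) (ne_of_mem_erase hT)
      fun h => notMem_erase _ _ (h4 (h ▸ hp))
  convert sub_mem h1 (nsmul_mem h3 2) using 1
  rw [h2, ← card_erase_add_one hp, pow_succ]
  module

end

lemma tors_u1 (hG : GalData) {z : ℂ} (h : Tors z) : u1 z ∈ torsion (Pt W1 ℂ) :=
  (hG.tors z).mpr (tors_iff.mp h)

lemma tors_u1' (hG : GalData) {a b : ℤ} {j : ℕ} {z w : ℂ} (h : Tors (a * z - 2 ^ j * b * w)) :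
    a • u1 z - (2 ^ j * b) • u1 w ∈ torsion (Pt W1 ℂ) := by
  simpa [← map_zsmul] using tors_u1 hG h

lemma step (hG : GalData) (hV : VData) {A B : ℕ} {r : ℤ} {R : Finset Fm} (hn : Good (A * B))
    (hr : 60 ∣ r ^ 2 + (A * B : ℕ)) (hR : HReps (-(A * B : ℕ)) r R) (hJ : J(-15 | B) = -1)
    (hA : A.primeFactors ≠ ∅) (h : (A % 60 = 1 ∨ A % 60 = 49) ∨ 2 ≤ #A.primeFactors)
    (ih : ∀ m : ℕ, #m.primeFactors < #(A * B).primeFactors → Claim m) :
    4 • u1 (HP (A * B) A.primeFactors R) ∈ HH #(A * B).primeFactors := by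
  have hc : ∀ {A : ℕ}, Good (A * B) → #(A * B).primeFactors = #A.primeFactors + #B.primeFactors :=
    fun hn => by
      have := Nat.coprime_of_squarefree_mul hn.sqf
      rw [this.primeFactors_mul, card_union_of_disjoint this.disjoint_primeFactors]
  have h0 := card_pos.mpr (nonempty_iff_ne_empty.mpr hA)
  by_cases h1 : A % 60 = 1 ∨ A % 60 = 49
  · obtain ⟨r', R', a, b, k1, k2, k3, k4⟩ := hV.v1 A B r R hn hr hR hJ
      (Nat.nonempty_primeFactors.mp (nonempty_iff_ne_empty.mpr hA)) h1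
    have hB : Good B := ⟨hn.sqf.of_mul_right, by
      have := hn.mod4
      rw [Nat.mul_mod, show A % 4 = 1 by omega] at this
      omega, Nat.Coprime.coprime_mul_left hn.cop⟩
    have k5 := HH_smul #A.primeFactors (eight_mem hG hB k2 k1 (ih B (by rw [hc hn]; omega)))
    refine HH_tors k3 ?_ (hc hn ▸ zsmul_mem k5 b)
    convert nsmul_mem (tors_u1' hG k4) 4 using 1
    rw [pow_succ]
    module
  · have h2 := h.resolve_left h1
    obtain ⟨q, r', R', a, b, hq, k0, k1, k2, k3, k4⟩ := hV.v2 A B r R hn hr hR hJ h2 h1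
    have e := hc k0
    rw [hq.primeFactors, card_singleton] at e
    have hB : 0 < #B.primeFactors := card_pos.mpr (Nat.nonempty_primeFactors.mpr (by
      by_contra! h3
      interval_cases B <;> simp at hJ))
    have k5 := HH_smul (#A.primeFactors - 1) (ih (q * B) (by rw [hc hn]; omega) r' R' k0 k1 k2 {q}
      (by simp [hq, k0.sqf.ne_zero]) (by simp) fun h => by
        rw [← h, card_singleton] at e; omega)
    rw [show #A.primeFactors - 1 + #(q * B).primeFactors = #(A * B).primeFactors by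
      rw [hc hn]; omega] at k5
    refine HH_tors k3 ?_ (zsmul_mem k5 b)
    convert nsmul_mem (tors_u1' hG k4) 4 using 1
    module

theorem claim (hG : GalData) (hV : VData) (n : ℕ) : Claim n := by
  induction hk : #n.primeFactors using Nat.strong_induction_on generalizing n with
  | _ k ih =>
  subst hk
  intro r R hn hr hR
  have hJ := jac15 hn hr
  have key : ∀ S ⊆ n.primeFactors, S ≠ ∅ → S ≠ n.primeFactors →
      4 • u1 (HP n S R) ∈ HH #n.primeFactors ∨ ∃ p ∈ n.primeFactors, J(-15 | p) = 1 ∧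
        (S = {p} ∨ n.primeFactors \ S = {p}) := fun S hS h0 h1 => by
    obtain ⟨A, B, rfl, hB, hA⟩ := exists_even hn hJ hS
    have h2 : A.primeFactors ≠ ∅ := by
      rcases hA with h | h <;> rw [h]
      exacts [h0, fun h => h1 (hS.antisymm (sdiff_eq_empty_iff_subset.mp h))]
    by_cases h3 : 2 ≤ #A.primeFactors
    · left
      have := step hG hV hn hr hR hB h2 (.inr h3) fun m hm => ih _ hm m rfl
      rcases hA with h | h <;> rw [h] at this
      exacts [this, HP_compl hG hn hR hS ▸ this]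
    · right
      obtain ⟨p, hp⟩ := card_eq_one.mp (show #A.primeFactors = 1 by
        have := card_pos.mpr (nonempty_iff_ne_empty.mpr h2); omega)
      have h4 := hn.sqf.ne_zero
      refine ⟨p, Nat.primeFactors_mono (dvd_mul_right _ _) h4 (hp ▸ mem_singleton_self p), ?_,
        hA.imp (fun h => h.symm.trans hp) fun h => h.symm.trans hp⟩
      rw [jacobiSym.mul_right' _ (left_ne_zero_of_mul h4) (right_ne_zero_of_mul h4), hB,
        jac_eq_prod _ hn.sqf.of_mul_left, hp, prod_singleton] at hJ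
      omega
  intro S hS h0 h1
  refine (key S hS h0 h1).elim id fun ⟨q, hq, hq1, e⟩ => ?_
  obtain ⟨p, hp, hp1⟩ : ∃ p ∈ n.primeFactors, J(-15 | p) ≠ 1 := by
    by_contra! h
    rw [jac_eq_prod _ hn.sqf, prod_eq_one h] at hJ
    omega
  have hq' : q ∈ n.primeFactors.erase p := mem_erase.mpr ⟨fun h => hp1 (h ▸ hq1), hq⟩
  have h2 := sum_coset hG hn hR hp hq'
  rw [← add_sum_erase _ _ (empty_mem_powerset _), smul_add, smul_sum, union_empty,
    AddSubgroup.add_mem_cancel_right _ (sum_mem fun T hT => ?_)] at h2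
  · rcases e with rfl | e
    · exact h2
    · rwa [← e, HP_compl hG hn hR hS] at h2
  have h3 := mem_powerset.mp (mem_of_mem_erase hT)
  have h4 : p ∉ {q} ∪ T := fun h => by
    rcases mem_union.mp h with h | h
    · exact ne_of_mem_erase hq' (mem_singleton.mp h).symm
    · simpa using h3 h
  refine (key _ (union_subset (by simpa using hq)
    (h3.trans ((erase_subset _ _).trans (erase_subset _ _)))) (by simp)
      fun h => h4 (h ▸ hp)).resolve_right ?_
  rintro ⟨l, -, hl, h | h⟩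
  · obtain ⟨t, ht⟩ := nonempty_iff_ne_empty.mpr (ne_of_mem_erase hT)
    have h5 := mem_singleton.mp (h ▸ mem_union_right _ ht)
    have h6 := mem_singleton.mp (h ▸ mem_union_left _ (mem_singleton_self q))
    exact ne_of_mem_erase (h3 ht) (h5.trans h6.symm)
  · exact hp1 (mem_singleton.mp (h ▸ mem_sdiff.mpr ⟨hp, h4⟩) ▸ hl)

lemma exists_odd (hT : ∀ P ∈ Nab W1, ∀ j : ℕ, 2 ^ j • P = 0 → ∃ k : ℤ, P = k • T1)
    {P : Pt W1 ℂ} (h : P ∈ Nab W1) (h' : P ∈ torsion (Pt W1 ℂ)) :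
    ∃ m : ℤ, Odd m ∧ ∃ k : ℤ, m • P = k • T1 := by
  obtain ⟨N, hN, e⟩ := isOfFinAddOrder_iff_nsmul_eq_zero.mp h'
  obtain ⟨j, m, hm, rfl⟩ := Nat.exists_eq_two_pow_mul_odd hN.ne'
  exact ⟨m, by exact_mod_cast hm, by
    simpa using hT (m • P) (nsmul_mem h _) j (by rw [← mul_smul, e])⟩

end TYZ

open TYZ in
/-- The Heegner point has infinite order. -/
theorem not_tors_HP (hG : GalData) (hV : VData)
    (hT : ∀ P ∈ Nab W1, ∀ j : ℕ, 2 ^ j • P = 0 → ∃ k : ℤ, P = k • T1) {n : ℕ} {r : ℤ}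
    {R : Finset Fm} (hn : Good n) (hB : CondB n) (hr : 60 ∣ r ^ 2 + n) (hR : HReps (-n) r R) :
    ¬ Tors (∑ Q ∈ R, Fi (froot Q)) := fun h => by
  obtain ⟨p, hp⟩ := Nat.nonempty_primeFactors.mpr (show 1 < n by have := hn.mod4; omega)
  have h0 : Sgn n fun _ => 1 := ⟨by simp, by simp⟩
  have h1 := (hG.g1 n r R _ _ hn hR h0 h0).2
  obtain ⟨τ, U, u2, u4, hU⟩ := hG.g2 n r R _ hn hB hr hR h0
  have h2 := sum_all hG hn hR hp
  rw [← add_sum_erase _ _ (empty_mem_powerset _)] at h2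
  have h3 : u1 (HP n ∅ R) ∈ torsion (Pt W1 ℂ) := tors_u1 hG (by simpa [HP, hilS] using h)
  obtain ⟨a, ha, P, hP, h4⟩ : ∃ a : ℤ, Odd a ∧ ∃ P ∈ Nab W1,
      a • (4 • Zg n R fun _ => 1) - 2 • P ∈ torsion (Pt W1 ℂ) := by
    obtain ⟨a, ha, P, hP, h4⟩ : 4 • ∑ T ∈ (n.primeFactors.erase p).powerset.erase ∅,
        u1 (HP n T R) ∈ HH #n.primeFactors := by
      rw [smul_sum]
      refine sum_mem fun T hT => ?_
      have h4 := mem_powerset.mp (mem_of_mem_erase hT)
      exact claim hG hV n r R hn hr hR T (h4.trans (erase_subset _ _)) (ne_of_mem_erase hT)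
        fun h => notMem_erase _ _ (h4 (h ▸ hp))
    refine ⟨a, ha, P, hP, IsOfFinAddOrder.of_nsmul (n := 2 ^ #(n.primeFactors.erase p)) ?_
      (by positivity)⟩
    rw [← eq_sub_iff_add_eq'] at h2
    rw [h2, ← card_erase_add_one hp, pow_succ] at h4
    change _ ∈ torsion (Pt W1 ℂ)
    convert add_mem h4 (zsmul_mem h3 (4 * a)) using 1
    rw [← natCast_zsmul]
    push_cast
    module
  generalize (4 • Zg n R fun _ => 1) = Z at *
  have h5 := sub_mem (zsmul_mem h1 a) (nsmul_mem hP 2)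
  obtain ⟨m, hm, i, hi⟩ := exists_odd hT h5 h4
  have h6 : (m * a) • U = 2 • (m • (pmap (τ : ℂ →+* ℂ) P + P) + i • T1) := by
    have := congr_arg (pmap (τ : ℂ →+* ℂ)) hi
    simp only [map_zsmul, map_sub, map_nsmul, pmap_T1] at this
    rw [← hU]
    linear_combination (norm := module) this + hi
  obtain ⟨m', hm', j, hj⟩ := exists_odd hT (P := m • (pmap (τ : ℂ →+* ℂ) P + P) + i • T1)
    (add_mem (zsmul_mem (add_mem (pmap_mem τ hP) hP) _)
      (zsmul_mem (show T1 ∈ Nab W1 from ⟨1, by norm_num, fun σ _ => pmap_T1 _⟩) _))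
    (IsOfFinAddOrder.of_nsmul (n := 2) (h6 ▸ (isOfFinAddOrder_iff_nsmul_eq_zero.mpr
      ⟨4, by norm_num, u4⟩).zsmul) two_ne_zero)
  obtain ⟨c, hc⟩ := hm'.mul (hm.mul ha)
  have h7 : (m' * (m * a)) • U = 2 • j • T1 := by rw [mul_smul, h6, smul_comm, hj]
  rw [hc] at h7
  refine u2 ?_
  linear_combination (norm := module) 2 • h7 - c • u4 + j • four_T1

end Pool.Agent.Lib.MP_696deb_nt
end

-- part Pool.Agent.Lib.MP_696deb_nt.NabTors
section

/-! The two-power torsion of `W1` over cyclotomic fields of conductor prime to `30`. -/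

set_option autoImplicit false

open WeierstrassCurve NumberTheorySymbols

namespace Pool.Agent.Lib.MP_696deb_nt

/-- An automorphism fixing the `m`-th roots of unity and negating a square root of `± p`. -/
theorem exists_aut_neg {m p : ℕ} (hp : p = 3 ∨ p = 5) (hm : m.Coprime 30) :
    ∃ σ : ℂ ≃+* ℂ, (∀ ζ : ℂ, ζ ^ m = 1 → σ ζ = ζ) ∧ ∀ q : ℕ, q = 3 ∨ q = 5 → ∀ x : ℂ,
      x ^ 2 = J(-1 | q) * q → σ x = (if q = p then -1 else 1) * x := by
  have hm0 : m ≠ 0 := by rintro rfl; norm_num at hm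
  have h15 : m.Coprime 15 := hm.coprime_dvd_right (by norm_num)
  obtain ⟨a, ha1, ha2⟩ := Nat.chineseRemainder h15 1 (if p = 3 then 11 else 7)
  have hc : IsCoprime (a : ℤ) ((m * 15 : ℕ) : ℤ) := by
    refine Nat.isCoprime_iff_coprime.mpr (Nat.Coprime.mul_right ?_ ?_)
    · rw [Nat.Coprime, ha1.gcd_eq, Nat.gcd_one_left]
    · rw [Nat.Coprime, ha2.gcd_eq]
      split_ifs <;> norm_num
  obtain ⟨σ, hσ⟩ := Gal.exists_aut_zeta (N := m * 15) (by positivity) hc
  refine ⟨σ, fun ζ hζ => ?_, fun q hq x hx => ?_⟩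
  · rw [hσ ζ (by rw [pow_mul, hζ, one_pow]), zpow_natCast, ← pow_one ζ, ← pow_mul, one_mul]
    exact pow_eq_pow_of_modEq ha1 hζ
  · have hd : q ∣ 15 := by rcases hq with rfl | rfl <;> norm_num
    have h1 := Gal.aut_sqrt (N := q) (by rcases hq with rfl | rfl <;> decide)
      (by rcases hq with rfl | rfl <;> exact (Nat.Prime.prime (by norm_num)).squarefree) (σ := σ) (a := a)
      (fun ζ hζ => hσ ζ (by
        obtain ⟨c, hc⟩ := hd
        rw [mul_comm, hc, mul_assoc, pow_mul, hζ, one_pow])) hx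
    have h2 : J((a : ℤ) | q) = J(((if p = 3 then 11 else 7 : ℕ) : ℤ) | q) :=
      jacobiSym.mod_left' (Int.natCast_modEq_iff.mpr (ha2.of_dvd hd))
    rw [h1, h2]
    rcases hp with rfl | rfl <;> rcases hq with rfl | rfl <;> norm_num

theorem nab_tors {P : Pt W1 ℂ} (h : P ∈ Nab W1) (j : ℕ) (hP : 2 ^ j • P = 0) :
    ∃ k : ℤ, P = k • T1 := by
  obtain ⟨m, hm, h⟩ := h
  obtain ⟨s, hs, ks⟩ := exists_aut_neg (.inl rfl) hm
  obtain ⟨t, ht, kt⟩ := exists_aut_neg (.inr rfl) hm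
  obtain ⟨x, hx⟩ := IsAlgClosed.exists_pow_nat_eq (-3 : ℂ) two_pos
  obtain ⟨y, hy⟩ := IsAlgClosed.exists_pow_nat_eq (5 : ℂ) two_pos
  have e1 := ks 3 (.inl rfl) x (by rw [hx]; norm_num)
  have e2 := ks 5 (.inr rfl) y (by rw [hy]; norm_num)
  have e3 := kt 5 (.inr rfl) y (by rw [hy]; norm_num)
  norm_num at e1 e2 e3
  exact klein_tors (s1 := s) (s2 := s) (s3 := t) (r1 := x * y) (r2 := x) (r3 := y)
    (by rw [mul_pow, hx, hy]; norm_num) (by simp [e1, e2]) hx e1 hy e3 j hP (h s hs) (h s hs)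
    (h t ht)

end Pool.Agent.Lib.MP_696deb_nt
end
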