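import Pool.Agent.Lib.MP_696deb_nt.ThV2
import Pool.Agent.Lib.MP_696deb_nt.HeightMain
import Pool.Agent.Lib.MP_696deb_nt.Heeg
import Pool.Agent.Lib.MP_696deb_nt.CntS2
import Pool.Agent.Lib.MP_696deb_nt.VarChange
import Pool.Agent.Lib.MP_696deb_nt.HForms
import Pool.Agent.Lib.MP_696deb_nt.AnLine
import Pool.Agent.Lib.MP_696deb_nt.NabTors

-- part Pool.Agent.Lib.MP_696deb_nt.AnGreen
section

set_option autoImplicit false

open Filter Topology Set MeasureTheory UpperHalfPlane Metric CongruenceSubgroup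
open scoped Real MatrixGroups ENNReal NNReal

namespace Pool.Agent.Lib.MP_696deb_nt

theorem integrableAt_log (z₀ : ℍ) :
    IntegrableAtFilter (fun z : ℍ => Real.log ‖(z : ℂ) - z₀‖) (𝓝 z₀) volume := by
  have h1 : IntegrableOn (fun z : ℂ => Real.log ‖z‖) (ball 0 1) :=
    integrableOn_ball_of_norm_le_rpow (C := 1) (α := 1) (by simp) (by simp)
      (ae_restrict_of_forall_mem measurableSet_ball fun z hz => by
        rcases (norm_nonneg z).eq_or_lt with h | h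
        · simp [← h]
        have := Real.abs_log_mul_self_lt _ h (mem_ball_zero_iff.mp hz).le
        rw [abs_mul, abs_of_pos h] at this
        rw [Real.rpow_neg_one, ← div_eq_mul_inv, le_div_iff₀ h]
        exact this.le) (measurable_norm.log.aestronglyMeasurable)
  have h2 : IntegrableOn (fun z : ℂ => Real.log ‖z - z₀‖) (ball z₀ 1) := by
    have := ((measurePreserving_sub_right volume (z₀ : ℂ)).integrableOn_comp_preimage
      (measurableEmbedding_subRight _)).mpr h1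
    simpa [Function.comp_def, preimage, ball, dist_eq_norm] using this
  have hs : IsOpen {z : ℍ | dist (z : ℂ) z₀ < 1 ∧ z₀.im / 2 < z.im} :=
    IsOpen.and (isOpen_lt (f := fun z : ℍ => dist (z : ℂ) z₀) (by fun_prop) continuous_const)
      (isOpen_lt continuous_const continuous_im)
  have hm : Measurable fun z : ℍ => Real.log ‖(z : ℂ) - z₀‖ :=
    (Continuous.measurable (by fun_prop)).log
  refine ⟨_, hs.mem_nhds ⟨by simp, half_lt_self z₀.im_pos⟩, ?_⟩
  rw [← integrable_indicator_iff hs.measurableSet, (integral_of_lintegral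
    (ν := volume.restrict {z : ℂ | 0 < z.im}) (ρ := fun z : ℂ => 1 / z.im ^ 2) (by fun_prop)
    (.of_forall fun _ => by positivity) measurable_ofComplex (fun f hf => lintegral_upper hf)
    (hm.indicator hs.measurableSet).aestronglyMeasurable).1]
  refine (((integrable_indicator_iff measurableSet_ball).mpr h2).norm.const_mul
    (1 / (z₀.im / 2) ^ 2)).integrableOn.mono' (Measurable.aestronglyMeasurable
      (Measurable.mul (by fun_prop) ((hm.indicator hs.measurableSet).comp measurable_ofComplex)))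
    (ae_restrict_of_forall_mem (measurableSet_lt measurable_const Complex.measurable_im)
      fun z hz => ?_)
  have h0 := z₀.im_pos
  rw [ofComplex_apply_of_im_pos hz]
  by_cases h : (⟨z, hz⟩ : ℍ) ∈ {z : ℍ | dist (z : ℂ) z₀ < 1 ∧ z₀.im / 2 < z.im}
  · rw [indicator_of_mem h, indicator_of_mem (show z ∈ ball (z₀ : ℂ) 1 from h.1), norm_mul,
      Real.norm_of_nonneg (by positivity)]
    have h3 : z₀.im / 2 ≤ z.im := h.2.le
    gcongr
  · rw [indicator_of_notMem h, mul_zero, norm_zero]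
    positivity

theorem locallyIntegrable_log {f : ℂ → ℂ} (hf : Hol f)
    (h : ∀ z : ℂ, 0 < z.im → f z = 0 → deriv f z ≠ 0) :
    LocallyIntegrable (fun z : ℍ => Real.log ‖f z‖) volume := fun z₀ => by
  have hm : Measurable fun z : ℍ => Real.log ‖f z‖ := hf.continuous_coe.norm.measurable.log
  have key : ∀ g : ℂ → ℂ, ContinuousAt g z₀ → g z₀ ≠ 0 →
      ∃ C, ∀ᶠ z : ℍ in 𝓝 z₀, |Real.log ‖g z‖| ≤ C := fun g hg h0 =>
    ⟨_, ((hg.comp UpperHalfPlane.continuous_coe.continuousAt).norm.log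
      (norm_ne_zero_iff.mpr h0)).abs.eventually (eventually_le_nhds (lt_add_one _))⟩
  obtain ⟨C, hC⟩ : ∃ C, ∀ᶠ z : ℍ in 𝓝 z₀, |Real.log ‖f z‖| ≤ C + |Real.log ‖(z : ℂ) - z₀‖| := by
    by_cases h0 : f z₀ = 0
    · obtain ⟨C, hC⟩ := key (dslope f z₀) (continuousAt_dslope_same.mpr (hf _ z₀.im_pos))
        (by simpa using h _ z₀.im_pos h0)
      refine ⟨C, hC.mono fun z hz => ?_⟩
      have h1 := sub_smul_dslope f (z₀ : ℂ) z
      rw [h0, sub_zero, smul_eq_mul] at h1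
      by_cases h2 : f z = 0
      · simpa [h2] using add_nonneg ((abs_nonneg _).trans hz) (abs_nonneg _)
      rw [← h1] at h2 ⊢
      rw [norm_mul, Real.log_mul (norm_ne_zero_iff.mpr (left_ne_zero_of_mul h2))
        (norm_ne_zero_iff.mpr (right_ne_zero_of_mul h2))]
      linarith [abs_add_le (Real.log ‖(z : ℂ) - z₀‖) (Real.log ‖dslope f z₀ z‖)]
    · obtain ⟨C, hC⟩ := key f (hf _ z₀.im_pos).continuousAt h0
      exact ⟨C, hC.mono fun z hz => hz.trans (le_add_of_nonneg_right (abs_nonneg _))⟩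
  obtain ⟨s, hs, h1⟩ := integrableAt_log z₀
  obtain ⟨r, hr, h2⟩ := Metric.eventually_nhds_iff_ball.mp (hC.and hs)
  refine ⟨ball z₀ r, ball_mem_nhds _ hr, Integrable.mono' (Integrable.add
    (integrableOn_const (C := C) measure_ball_lt_top.ne) (h1.mono_set fun z hz => (h2 z hz).2).abs)
    hm.aestronglyMeasurable (ae_restrict_of_forall_mem measurableSet_ball fun z hz => (h2 z hz).1)⟩

theorem volume_singleton_upper (z : ℍ) : volume ({z} : Set ℍ) = 0 := by
  rw [volume_eq_lintegral, image_singleton]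
  simp

variable {Λ : AddSubgroup ℂ} {σ : ℂ → ℂ} {η : ℂ →L[ℝ] ℂ}

theorem Fi_level {a b c d : ℤ} (h : a * d - b * (15 * c) = 1) {z : ℂ} (hz : 0 < z.im) :
    Fi (mob a b (15 * c) d z) = Fi z + ms a (15 * c) := by
  rw [Fi_mob (a := a) (b := b) (c := 15 * c) (d := d) (by omega) 1
    (fun z hz => by simpa using f15_inv a b c d h z hz) hz, one_mul]

theorem NerData.hol (hN : NerData Λ σ η) (v : ℂ) : Hol fun z => σ (Fi z - v) := fun z hz =>
  (hN.diff _).comp z ((hol_Fi z hz).sub_const v)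

theorem NerData.deriv_ne (hN : NerData Λ σ η) (v : ℂ) (z : ℂ) (hz : 0 < z.im)
    (h : σ (Fi z - v) = 0) : deriv (fun z => σ (Fi z - v)) z ≠ 0 := by
  have := ((hN.diff (Fi z - v)).hasDerivAt.comp z ((hasDerivAt_Fi hz).sub_const v)).deriv
  simp only [Function.comp_def] at this
  rw [this]
  exact mul_ne_zero (hN.simple _ ((hN.zero _).mp h))
    (mul_ne_zero Complex.two_pi_I_ne_zero (f15_ne hz))

theorem NerData.zero_iff (hN : NerData Λ σ η) {R : Fm} (hD : fdisc R < 0) (hR : 0 < R.1) {z : ℂ}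
    (hz : 0 < z.im) : σ (Fi z - Fi (froot R)) = 0 ↔ ∃ R', FEq R R' ∧ z = froot R' := by
  rw [hN.zero]
  constructor
  · intro h
    obtain ⟨a, b, c, d, h1, rfl⟩ := hN.inj _ _ hz (im_froot_pos hD hR) h
    have h2 : d * a - -b * (15 * -c) = 1 := by linear_combination h1
    refine ⟨fmap R d (-b) (15 * -c) a, ⟨d, -b, -c, a, h2, rfl⟩, ?_⟩
    have h3 := mob_froot h1 (Q := fmap R d (-b) (15 * -c) a) (by rwa [fdisc_fmap h2])
      (fmap_pos h2 hD hR)
    rwa [mul_neg, fmap_inv' h1, ← mul_neg] at h3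
  · rintro ⟨_, ⟨a, b, c, d, h1, rfl⟩, rfl⟩
    have h2 := Fi_level h1 hz
    rw [mob_froot h1 hD hR] at h2
    rw [h2, sub_add_cancel_left, neg_mem_iff]
    exact hN.mem a b c d h1

/-- Jensen's formula for one orbit. -/
theorem NerData.jensen (hN : NerData Λ σ η) {R : Fm} (hD : fdisc R < 0) (hR : 0 < R.1)
    (g : SL(2, ℝ)) (h0 : σ (Fi (g • I : ℍ) - Fi (froot R)) ≠ 0) {ρ : ℝ} (hρ : ρ ∈ Ioo (0 : ℝ) 1) :
    CircleIntegrable (fun ζ => Real.log ‖σ (Fi (g • cay ζ : ℍ) - Fi (froot R))‖) 0 ρ ∧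
    Real.circleAverage (fun ζ => Real.log ‖σ (Fi (g • cay ζ : ℍ) - Fi (froot R))‖) 0 ρ =
      (∑ᶠ R' ∈ {R' | FEq R R'}, Real.posLog (ρ / ‖cayInv (g⁻¹ • ofComplex (froot R'))‖)) +
        Real.log ‖σ (Fi (g • I : ℍ) - Fi (froot R))‖ := by
  have hd : ∀ ζ : ℂ, ‖ζ‖ < 1 → AnalyticAt ℂ (fun ζ => σ (Fi (g • cay ζ : ℍ) - Fi (froot R))) ζ :=
    fun ζ hζ => DifferentiableOn.analyticAt (s := ball 0 1) (fun ξ hξ => (DifferentiableAt.comp
      (g := fun z => σ (Fi z - Fi (froot R))) ξ (hN.hol _ _ (im_pos _))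
        (differentiableAt_smul_cay g (by simpa using hξ))).differentiableWithinAt)
      (isOpen_ball.mem_nhds (by simpa using hζ))
  have han : AnalyticOnNhd ℂ (fun ζ => σ (Fi (g • cay ζ : ℍ) - Fi (froot R))) (closedBall 0 |ρ|) :=
    fun ζ hζ => hd ζ (by
      rw [mem_closedBall_zero_iff, abs_of_pos hρ.1] at hζ
      exact hζ.trans_lt hρ.2)
  have hc : ∀ R', FEq R R' → ((ofComplex (froot R') : ℍ) : ℂ) = froot R' := fun R' h => by
    obtain ⟨a, b, c, d, h1, rfl⟩ := h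
    rw [ofComplex_apply_of_im_pos (im_froot_pos (by rwa [fdisc_fmap h1]) (fmap_pos h1 hD hR))]
  refine ⟨(han.mono sphere_subset_closedBall).meromorphicOn.circleIntegrable_log_norm, ?_⟩
  rw [han.circleAverage_log_norm hρ.1.ne' (by simpa only [cay_zero] using h0), cay_zero,
    ← finsum_mem_image (f := fun u : ℂ => Real.posLog (ρ / ‖u‖))
      (g := fun R' => cayInv (g⁻¹ • ofComplex (froot R'))), finsum_mem_def]
  · congr 1
    refine finsum_congr fun u => ?_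
    by_cases hu : u ∈ closedBall (0 : ℂ) |ρ|
    · have h1 : ‖u‖ ≤ ρ := by rwa [mem_closedBall_zero_iff, abs_of_pos hρ.1] at hu
      have h2 := h1.trans_lt hρ.2
      rw [MeromorphicOn.AnalyticOnNhd.divisor_apply han hu]
      by_cases h3 : σ (Fi (g • cay u : ℍ) - Fi (froot R)) = 0
      · obtain ⟨R', h4, h5⟩ := (hN.zero_iff hD hR (im_pos _)).mp h3
        have h6 : u ≠ 0 := by
          rintro rfl
          exact h0 (by simpa only [cay_zero] using h3)
        have h7 := norm_pos_iff.mpr h6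
        rw [(hd u h2).analyticOrderAt_eq_one_of_zero_deriv_ne_zero h3, indicator_of_mem,
          Real.posLog_eq_log (by rw [abs_of_pos (div_pos hρ.1 h7), one_le_div h7]; exact h1)]
        · simp [div_eq_mul_inv]
        · exact ⟨R', h4, by simp only [← h5, ofComplex_apply, inv_smul_smul, cayInv_cay h2]⟩
        · have h8 := (analyticAt_smul (g := (g : GL (Fin 2) ℝ)) (by simp)
            (cay u)).differentiableAt.hasDerivAt
          have h9 := deriv_smul_ne_zero (g := (g : GL (Fin 2) ℝ)) (by simp) (cay u)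
          rw [coe_cay h2] at h8 h9
          have h10 := (HasDerivAt.comp (h := fun ζ => ((g • cay ζ : ℍ) : ℂ)) u
            (hN.hol (Fi (froot R)) _ (g • cay u).im_pos).hasDerivAt
            (h8.comp u (hasDerivAt_cayC h2))).deriv
          simp only [Function.comp_def] at h10
          rw [h10]
          exact mul_ne_zero (hN.deriv_ne _ _ (im_pos _) h3) (mul_ne_zero h9 (div_ne_zero
            (by simp) (pow_ne_zero _ (one_sub_ne h2))))
      · rw [(hd u h2).analyticOrderAt_eq_zero.mpr h3, indicator_of_notMem]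
        · simp
        · rintro ⟨R', h4, rfl⟩
          refine h3 ((hN.zero_iff hD hR (im_pos _)).mpr ⟨R', h4, ?_⟩)
          rw [cay_cayInv, smul_inv_smul, hc R' h4]
    · rw [Function.locallyFinsuppWithin.apply_eq_zero_of_notMem _ hu]
      rw [mem_closedBall_zero_iff, abs_of_pos hρ.1, not_le] at hu
      have h1 : Real.posLog (ρ / ‖u‖) = 0 := by
        rw [Real.posLog_eq_zero_iff, abs_of_pos (div_pos hρ.1 (hρ.1.trans hu)),
          div_le_one (hρ.1.trans hu)]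
        exact hu.le
      simp [indicator, h1]
  · intro R₁ h₁ R₂ h₂ h
    have h1 := congrArg (fun ζ => ((g • cay ζ : ℍ) : ℂ)) h
    simp only [cay_cayInv, smul_inv_smul, hc R₁ h₁, hc R₂ h₂] at h1
    obtain ⟨a, b, c, d, h2, rfl⟩ := h₁
    obtain ⟨a', b', c', d', h3, rfl⟩ := h₂
    exact froot_inj (by rwa [fdisc_fmap h3]) (fmap_pos h3 hD hR) (fmap_pos h2 hD hR)
      (by rw [fdisc_fmap h2, fdisc_fmap h3]) h1

/-- The Green function of a divisor. -/
noncomputable def grn (σ : ℂ → ℂ) (η : ℂ →L[ℝ] ℂ) (T : Finset Fm) (w : Fm → ℤ) (z : ℍ) : ℝ :=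
  ∑ R ∈ T, w R * nerLam σ η (Fi z - Fi (froot R))

/-- The Green function, modified at its poles. -/
noncomputable def grn0 (σ : ℂ → ℂ) (η : ℂ →L[ℝ] ℂ) (T : Finset Fm) (w : Fm → ℤ) (z : ℍ) : ℝ :=
  ∑ R ∈ T, w R * if σ (Fi z - Fi (froot R)) = 0 then 0 else nerLam σ η (Fi z - Fi (froot R))

variable {T : Finset Fm} {w : Fm → ℤ} {D' : ℤ}

theorem NerData.grn_ae (hN : NerData Λ σ η) (hT : Pts T w D') :
    grn σ η T w =ᵐ[volume] grn0 σ η T w := by
  have h : ∀ᵐ z : ℍ, ∀ R : Fm, z ≠ ofComplex (froot R) :=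
    ae_all_iff.mpr fun R => by simpa [ae_iff] using volume_singleton_upper _
  filter_upwards [h] with z hz
  refine Finset.sum_congr rfl fun R hR => ?_
  rw [if_neg]
  rw [hN.zero_iff (hT.disc R hR ▸ hT.neg) (hT.pos R hR) z.im_pos]
  rintro ⟨R', -, h⟩
  exact hz R' (by rw [← h, ofComplex_apply])

theorem NerData.measurable_lam (hN : NerData Λ σ η) (v : ℂ) :
    Measurable fun z : ℍ => nerLam σ η (Fi z - v) := by
  have := hol_Fi.continuous_coe
  exact (hN.hol v).continuous_coe.norm.measurable.log.sub (Continuous.measurable (by fun_prop))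

theorem NerData.tame (hN : NerData Λ σ η) (hT : Pts T w D') : Tame (Gamma0 15) (grn0 σ η T w) := by
  refine ⟨Finset.measurable_fun_sum _ fun R _ => Measurable.const_mul (Measurable.ite
    ((hN.hol _).continuous_coe.measurable (measurableSet_singleton 0)) measurable_const
    (hN.measurable_lam _)) _, fun γ hγ z => ?_, ?_, fun g => ?_⟩
  · obtain ⟨a, b, c, d, h, h2⟩ := exists_mob_of_mem hγ
    refine Finset.sum_congr rfl fun R _ => ?_
    have h3 := hN.mem a b c d h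
    rw [h2, Fi_level h z.im_pos, add_sub_right_comm]
    by_cases h4 : Fi z - Fi (froot R) ∈ Λ
    · rw [if_pos ((hN.zero _).mpr h4), if_pos ((hN.zero _).mpr (Λ.add_mem h4 h3))]
    · rw [if_neg (mt (hN.zero _).mp h4), if_neg fun h5 =>
        h4 ((Λ.add_mem_cancel_right h3).mp ((hN.zero _).mp h5)), nerLam, nerLam, hN.per _ _ h3 h4]
  · refine LocallyIntegrable.congr ?_ (hN.grn_ae hT)
    refine locallyIntegrable_finsetSum T (f := fun R (z : ℍ) =>
      (w R : ℝ) * nerLam σ η (Fi z - Fi (froot R))) fun R _ => ?_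
    have := hol_Fi.continuous_coe
    exact ((locallyIntegrable_log (hN.hol _) (hN.deriv_ne _)).sub
      (Continuous.locallyIntegrable (f := fun z : ℍ =>
        ((Fi z - Fi (froot R)) * η (Fi z - Fi (froot R))).re / 2) (by fun_prop))).smul (w R : ℝ)
  · have h1 : Tendsto (fun z => ∑ R ∈ T, (w R : ℝ) *
        if σ (Fi (mob (g 0 0) (g 0 1) (g 1 0) (g 1 1) z) - Fi (froot R)) = 0 then 0 else
          nerLam σ η (Fi (mob (g 0 0) (g 0 1) (g 1 0) (g 1 1) z) - Fi (froot R))) atI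
        (𝓝 (∑ R ∈ T, w R * nerLam σ η (ms (g 0 0) (g 1 0) - Fi (froot R)))) := by
      refine tendsto_finsetSum _ fun R hR => Tendsto.const_mul _ ?_
      have h2 := (tendsto_Fi_mob (a := g 0 0) (b := g 0 1) (c := g 1 0) (d := g 1 1)
        (by rw [det_SL]; exact one_pos)).sub_const (Fi (froot R))
      have h3 : σ (ms (g 0 0) (g 1 0) - Fi (froot R)) ≠ 0 := fun h => hN.cusp _
        (im_froot_pos (hT.disc R hR ▸ hT.neg) (hT.pos R hR)) _ _ _ _ (det_SL g) ((hN.zero _).mp h)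
      have h4 := hN.diff.continuous
      have h5 : ContinuousAt (nerLam σ η) (ms (g 0 0) (g 1 0) - Fi (froot R)) :=
        (h4.continuousAt.norm.log (norm_ne_zero_iff.mpr h3)).sub (by fun_prop)
      refine (h5.tendsto.comp h2).congr' ?_
      filter_upwards [h2.eventually (h4.continuousAt.eventually_ne h3)] with z hz
      rw [if_neg hz, Function.comp]
    obtain ⟨Y, hY⟩ := eventually_atTop.mp (eventually_comap.mp
      (h1.abs.eventually (eventually_le_nhds (lt_add_one _))))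
    exact ⟨Y, _, fun z _ hz => by rw [grn0, coe_smul_eq_mob]; exact hY _ hz z rfl⟩

theorem grn_eq (σ : ℂ → ℂ) (η : ℂ →L[ℝ] ℂ) (hT : Pts T w D') : ∃ (L : ℂ →L[ℝ] ℝ) (c : ℝ), ∀ z : ℍ,
    grn σ η T w z = ∑ R ∈ T, w R * Real.log ‖σ (Fi z - Fi (froot R))‖ + L (Fi z) + c := by
  refine ⟨∑ R ∈ T, (w R / 2 : ℝ) • Complex.reCLM.comp (ContinuousLinearMap.mul ℝ ℂ
    (η (Fi (froot R))) + (ContinuousLinearMap.mul ℝ ℂ (Fi (froot R))).comp η),
    -∑ R ∈ T, w R * (Fi (froot R) * η (Fi (froot R))).re / 2, fun z => ?_⟩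
  have h : ∑ R ∈ T, (w R : ℝ) * ((Fi z * η (Fi z)).re / 2) = 0 := by
    rw [← Finset.sum_mul, ← Int.cast_sum, hT.deg, Int.cast_zero, zero_mul]
  rw [grn, ← add_zero (∑ R ∈ T, _), ← h, sum_apply, ← sub_eq_add_neg, ← Finset.sum_add_distrib,
    ← Finset.sum_add_distrib, ← Finset.sum_sub_distrib]
  refine Finset.sum_congr rfl fun R _ => ?_
  simp only [nerLam, map_sub, smul_apply, ContinuousLinearMap.comp_apply, add_apply,
    ContinuousLinearMap.mul_apply', Complex.reCLM_apply, smul_eq_mul, Complex.add_re,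
    Complex.mul_re, Complex.sub_re, Complex.sub_im]
  ring

theorem NerData.hasSum_grn (hN : NerData Λ σ η) (hT : Pts T w D') (hw : Wt w D')
    (hex : ∀ R, w R ≠ 0 → ∃ Q ∈ T, FEq Q R) (huniq : ∀ Q ∈ T, ∀ R ∈ T, FEq Q R → Q = R)
    {z : ℍ} (hz : ∀ R, w R ≠ 0 → (z : ℂ) ≠ froot R) {ε : ℝ} (hε : 0 < ε) :
    HasSum (fun R => (w R : ℝ) * kerK ε (fside R z / z.im / √(-D' : ℝ)))
      (avg ε (grn0 σ η T w) z - grn σ η T w z) := by
  classical
  have hD : ∀ R, w R ≠ 0 → fdisc R < 0 := fun R h => hw.disc R h ▸ hT.neg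
  have hp : ∀ R, w R ≠ 0 → 0 < R.1 := fun R h => by
    obtain ⟨Q, hQ, h1⟩ := hex R h
    exact h1.pos (hT.disc Q hQ ▸ hT.neg) (hT.pos Q hQ)
  have hs : 0 < √(-D' : ℝ) := Real.sqrt_pos.mpr (by exact_mod_cast neg_pos.mpr hT.neg)
  obtain ⟨g, rfl⟩ : ∃ g : SL(2, ℝ), g • I = z := ⟨_, toSL2R_smul_I z⟩
  let r : Fm → ℝ := fun R => ‖cayInv (g⁻¹ • ofComplex (froot R))‖
  have hr : ∀ R, w R ≠ 0 → r R ∈ Ioo (0 : ℝ) 1 ∧
      (1 + r R ^ 2) / (1 - r R ^ 2) = fside R (g • I : ℍ) / (g • I).im / √(-D' : ℝ) := fun R h => by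
    have h1 : ((ofComplex (froot R) : ℍ) : ℂ) = froot R := by
      rw [ofComplex_apply_of_im_pos (im_froot_pos (hD R h) (hp R h))]
    refine ⟨⟨norm_pos_iff.mpr fun h2 => hz R h ?_, norm_cayInv_lt _⟩, ?_⟩
    · rw [← h1, ← smul_inv_smul g (ofComplex (froot R)), ← cay_cayInv (g⁻¹ • _), h2, cay_zero]
    · rw [← cosh_dist_cay (norm_cayInv_lt _), cay_cayInv, ← dist_smul g, smul_inv_smul, cosh_dist,
        ← hw.disc R h, ← coe_im, ← cosh_froot (hD R h) (hp R h) (im_pos _), ← coe_im (ofComplex _),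
        h1, dist_eq_norm, Complex.normSq_eq_norm_sq]
  have hfin : ∀ C : ℝ, {R | w R ≠ 0 ∧ fside R (g • I : ℍ) / (g • I).im / √(-D' : ℝ) ≤ C}.Finite :=
    fun C => (finite_side D' (g • I).im_pos (C * √(-D' : ℝ) * (g • I).im)).subset fun R hR => by
      refine ⟨hw.disc R hR.1, (hp R hR.1).ne', ?_⟩
      obtain ⟨h1, h2⟩ := hr R hR.1
      have h3 : 0 < fside R (g • I : ℍ) / (g • I).im / √(-D' : ℝ) := by
        rw [← h2]
        exact div_pos (by positivity) (by nlinarith [h1.1, h1.2])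
      have h4 := hR.2
      rw [div_le_iff₀ hs, div_le_iff₀ (im_pos _)] at h4
      rwa [abs_of_pos ((div_pos_iff_of_pos_right (im_pos _)).mp
        ((div_pos_iff_of_pos_right hs).mp h3))]
  obtain ⟨L, c, hL⟩ := grn_eq σ η hT
  have h1 : ∀ ρ ∈ Ioo (0 : ℝ) 1, HasSum (fun R => (w R : ℝ) * (nuK ε ρ * Real.posLog (ρ / r R)))
      (nuK ε ρ * Real.circleAverage (fun ζ => grn σ η T w (g • cay ζ) - grn σ η T w (g • I)) 0 ρ) := by
    intro ρ hρ
    have h2 : ∀ Q ∈ T, CircleIntegrable (fun ζ => (w Q : ℝ) *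
        Real.log ‖σ (Fi (g • cay ζ : ℍ) - Fi (froot Q))‖) 0 ρ ∧ HasSum
        (fun R => if FEq Q R then (w Q : ℝ) * Real.posLog (ρ / r R) else 0)
        (Real.circleAverage (fun ζ => (w Q : ℝ) *
          Real.log ‖σ (Fi (g • cay ζ : ℍ) - Fi (froot Q))‖) 0 ρ -
            w Q * Real.log ‖σ (Fi (g • I : ℍ) - Fi (froot Q))‖) := fun Q hQ => by
      by_cases h : w Q = 0
      · simp [h, Real.circleAverage_const, hasSum_zero]
      obtain ⟨h3, h4⟩ := hN.jensen (hD Q h) (hp Q h) g (fun h3 => by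
        obtain ⟨R, h4, h5⟩ := (hN.zero_iff (hD Q h) (hp Q h) (im_pos _)).mp h3
        exact hz R (hw.inv Q R h4 ▸ h) h5) hρ
      refine ⟨IntervalIntegrable.const_mul h3 _, ?_⟩
      simp only [← smul_eq_mul (a := (w Q : ℝ))]
      rw [Real.circleAverage_fun_smul, h4, ← smul_sub, add_sub_cancel_right, finsum_mem_def]
      have h5 : Function.HasFiniteSupport
          ({R' | FEq Q R'}.indicator fun R => Real.posLog (ρ / r R)) := by
        refine (hfin ((1 + ρ ^ 2) / (1 - ρ ^ 2))).subset fun R hR => ?_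
        rw [support_indicator] at hR
        have h6 : w R ≠ 0 := hw.inv Q R hR.1 ▸ h
        obtain ⟨h7, h8⟩ := hr R h6
        have h9 : r R ≤ ρ := not_lt.mp fun h9 => hR.2 (by
          rw [Real.posLog_eq_zero_iff, abs_of_pos (div_pos hρ.1 h7.1), div_le_one h7.1]
          exact h9.le)
        have h10 : r R ^ 2 ≤ ρ ^ 2 := pow_le_pow_left₀ h7.1.le h9 2
        refine ⟨h6, h8 ▸ ?_⟩
        gcongr
        nlinarith [hρ.1, hρ.2]
      have h6 := (summable_of_hasFiniteSupport (L := .unconditional _) h5).hasSum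
      rw [tsum_eq_finsum h5] at h6
      convert! h6.const_smul (w Q : ℝ) using 2 with R
      simp [indicator]
    have h3 := circleIntegrable_cay (f := fun z => L (Fi (g • z : ℍ)))
      (L.continuous.comp (hol_Fi.continuous_coe.comp (continuous_const_smul g))) hρ
    have h4 := CircleIntegrable.fun_sum T fun Q hQ => (h2 Q hQ).1
    simp only [hL (g • cay _)]
    rw [Real.circleAverage_fun_sub ((h4.fun_add h3).fun_add (circleIntegrable_const _ _ _))
      (circleIntegrable_const _ _ _), Real.circleAverage_fun_add (h4.fun_add h3)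
      (circleIntegrable_const _ _ _), Real.circleAverage_fun_add h4 h3, circ_hol_clm hol_Fi L g hρ,
      Real.circleAverage_const, Real.circleAverage_const, hL,
      Real.circleAverage_fun_sum fun Q hQ => (h2 Q hQ).1]
    convert! (hasSum_sum fun Q hQ => (h2 Q hQ).2).mul_left (nuK ε ρ) using 2 with R
    · rw [mul_left_comm]
      congr 1
      by_cases h : w R = 0
      · rw [h, Int.cast_zero, zero_mul]
        refine (Finset.sum_eq_zero fun Q _ => ite_eq_right_iff.mpr fun h5 => ?_).symm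
        rw [← hw.inv Q R h5, h, Int.cast_zero, zero_mul]
      obtain ⟨Q, hQ, h5⟩ := hex R h
      rw [Finset.sum_eq_single_of_mem Q hQ fun Q' hQ' h6 => if_neg fun h7 =>
        h6 (huniq Q' hQ' Q hQ (h7.trans h5.symm)), if_pos h5, hw.inv Q R h5]
    · rw [Finset.sum_sub_distrib]
      ring
  have h2 := hasSum_integral_of_summable_integral_norm (μ := volume.restrict (Ioo (0 : ℝ) 1))
    (F := fun R ρ => (w R : ℝ) * (nuK ε ρ * Real.posLog (ρ / r R))) (fun R => by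
      by_cases h : w R = 0
      · simp [h]
      · exact (integral_nuK_posLog hε (hr R h).1).1.const_mul _) (by
      obtain ⟨C, hC⟩ := kerK_le hε
      refine ((hw.summable_side (fun R h => (hp R h).ne') (g • I).im_pos hε
        (mul_pos (g • I).im_pos hs)).mul_left C).of_norm_bounded_eventually ?_
      filter_upwards [(hfin 2).compl_mem_cofinite] with R hR
      by_cases h : w R = 0
      · simp [h]
      have h3 : 2 < fside R (g • I : ℍ) / (g • I).im / √(-D' : ℝ) := not_le.mp fun h4 => hR ⟨h, h4⟩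
      simp only [Real.norm_eq_abs, abs_mul (w R : ℝ), integral_const_mul]
      rw [setIntegral_congr_fun measurableSet_Ioo fun ρ hρ =>
        abs_of_nonneg (mul_nonneg (nuK_nonneg hε hρ) Real.posLog_nonneg),
        (integral_nuK_posLog hε (hr R h).1).2, (hr R h).2, abs_mul, abs_abs,
        abs_of_nonneg (kerK_nonneg _ _), mul_left_comm, ← div_div, abs_of_pos (two_pos.trans h3)]
      exact mul_le_mul_of_nonneg_left (hC _ h3.le) (abs_nonneg _))
  have h3 : Integrable fun v => akr ε (g • I) v * grn σ η T w v :=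
    ((hN.tame hT).integrable hε (g • I)).congr ((hN.grn_ae hT).mono fun v hv => by simp only [hv])
  have hm : Measurable (grn σ η T w) :=
    Finset.measurable_fun_sum _ fun R _ => (hN.measurable_lam _).const_mul _
  have h4 : avg ε (grn0 σ η T w) (g • I) - grn σ η T w (g • I) =
      avg ε (fun v => grn σ η T w v - grn σ η T w (g • I)) (g • I) := by
    simp only [avg, mul_sub]
    rw [integral_sub h3 ((integrable_akr hε _).mul_const _), integral_mul_const, integral_akr hε,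
      one_mul]
    congr 1
    exact integral_congr_ae ((hN.grn_ae hT).mono fun v hv => by simp only [hv])
  rw [h4, avg_smul, avg_polar (u := fun v => grn σ η T w (g • v) - grn σ η T w (g • I))
    ((hm.comp (continuous_const_smul g).measurable).sub_const _).aestronglyMeasurable
    (integrable_akr_smul (u := fun v => grn σ η T w v - grn σ η T w (g • I)) g
      (by simp only [mul_sub]; exact h3.sub ((integrable_akr hε _).mul_const _))),
    setIntegral_congr_fun measurableSet_Ioo fun ρ hρ => (h1 ρ hρ).tsum_eq.symm]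
  convert! h2 using 2 with R
  by_cases h : w R = 0
  · simp [h]
  rw [integral_const_mul, (integral_nuK_posLog hε (hr R h).1).2, (hr R h).2]

/-- (A) Points against points. `T` is a system of representatives for the support of `w`. -/
theorem point_point (hN : NerData Λ σ η)
    {S : Finset Fm} {m : Fm → ℤ} {D : ℤ} (hS : Pts S m D) (hT : Pts T w D') (hw : Wt w D')
    (hex : ∀ R, w R ≠ 0 → ∃ Q ∈ T, FEq Q R) (huniq : ∀ Q ∈ T, ∀ R ∈ T, FEq Q R → Q = R)
    (hne : ∀ Q ∈ S, ∀ R, w R ≠ 0 → fbil Q R ^ 2 ≠ D * D') :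
    (∀ ε : ℝ, 0 < ε → Summable fun t : ℕ => (cntP S m w (-t) : ℝ) * kerK ε (t / √(D * D' : ℝ))) ∧
    Tendsto (fun ε : ℝ => ∑' t : ℕ, (cntP S m w (-t) : ℝ) * kerK ε (t / √(D * D' : ℝ))) (𝓝[>] 0)
      (𝓝 (-∑ Q ∈ S, ∑ R ∈ T, m Q * w R * nerLam σ η (Fi (froot Q) - Fi (froot R)))) := by
  have hD : (0 : ℝ) < -D := by exact_mod_cast neg_pos.mpr hS.neg
  have hD' : (0 : ℝ) < -D' := by exact_mod_cast neg_pos.mpr hT.neg
  have hp : ∀ R, w R ≠ 0 → 0 < R.1 := fun R h => by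
    obtain ⟨Q, hQ, h1⟩ := hex R h
    exact h1.pos (hT.disc Q hQ ▸ hT.neg) (hT.pos Q hQ)
  have hz : ∀ Q ∈ S, ((ofComplex (froot Q) : ℍ) : ℂ) = froot Q := fun Q hQ => by
    rw [ofComplex_apply_of_im_pos (im_froot_pos (hS.disc Q hQ ▸ hS.neg) (hS.pos Q hQ))]
  have hsq : √(D * D' : ℝ) = √(-D : ℝ) * √(-D' : ℝ) := by rw [← Real.sqrt_mul hD.le, neg_mul_neg]
  have hpos : 0 < √(D * D' : ℝ) := hsq ▸ mul_pos (Real.sqrt_pos.mpr hD) (Real.sqrt_pos.mpr hD')
  have key : ∀ ε : ℝ, 0 < ε → HasSum (fun t : ℤ => (cntP S m w t : ℝ) * kerK ε (-t / √(D * D' : ℝ)))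
      (∑ Q ∈ S, m Q * (avg ε (grn0 σ η T w) (ofComplex (froot Q)) -
        grn σ η T w (ofComplex (froot Q)))) := fun ε hε => by
    simp only [cntP, Int.cast_sum, Int.cast_mul, Finset.sum_mul, mul_assoc]
    refine hasSum_sum fun Q hQ => HasSum.mul_left _ (hasSum_fiber
      (g := fun t => kerK ε (-t / √(D * D' : ℝ))) ?_ fun t => ?_)
    · have h0 := fside_froot (hS.disc Q hQ ▸ hS.neg) (hS.pos Q hQ)
      have h1 := hN.hasSum_grn hT hw hex huniq (z := ofComplex (froot Q)) (fun R hR h => by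
        have h2 := cosh_froot (hw.disc R hR ▸ hT.neg) (hp R hR) (ofComplex (froot Q)).im_pos
        rw [hz Q hQ] at h h2
        rw [h0, ← h, sub_self, map_zero, zero_div, add_zero, hS.disc Q hQ, hw.disc R hR, div_div,
          ← hsq, eq_div_iff hpos.ne', one_mul] at h2
        have h3 := congrArg (· ^ 2) h2
        simp only [neg_sq] at h3
        rw [Real.sq_sqrt (by nlinarith)] at h3
        exact hne Q hQ R hR (by exact_mod_cast h3.symm)) hε
      rw [← coe_im, hz Q hQ] at h1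
      convert! h1 using 2 with R
      rw [h0, hS.disc Q hQ, hsq, div_div]
    · have h1 := im_froot_pos (hS.disc Q hQ ▸ hS.neg) (hS.pos Q hQ)
      refine (finite_side D' h1 |-t / √(-fdisc Q : ℝ) * (froot Q).im|).subset fun R hR =>
        ⟨hw.disc R hR.1, (hp R hR.1).ne', ?_⟩
      rw [← hR.2, ← fside_froot (hS.disc Q hQ ▸ hS.neg) (hS.pos Q hQ), div_mul_cancel₀ _ h1.ne']
  have key2 : ∀ ε : ℝ, 0 < ε → HasSum
      (fun t : ℕ => (cntP S m w (-t) : ℝ) * kerK ε (t / √(D * D' : ℝ)))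
      (∑ Q ∈ S, m Q * (avg ε (grn0 σ η T w) (ofComplex (froot Q)) -
        grn σ η T w (ofComplex (froot Q)))) := fun ε hε => by
    convert! (key ε hε).nat_add_neg using 1
    · funext t
      have : kerK ε (-(t : ℝ) / √(D * D' : ℝ)) = 0 := if_neg (not_lt.mpr
        ((div_nonpos_of_nonpos_of_nonneg (by simp) hpos.le).trans zero_le_one))
      simp [this]
    · simp [kerK]
  refine ⟨fun ε hε => (key2 ε hε).summable, ?_⟩
  have h1 := ((hN.tame hT).tendsto_sum S (fun Q => (m Q : ℝ)) (fun Q => ofComplex (froot Q))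
    (by exact_mod_cast hS.deg)).sub_const (∑ Q ∈ S, m Q * grn σ η T w (ofComplex (froot Q)))
  convert h1.congr' ?_ using 2
  · rw [zero_sub, neg_inj]
    refine Finset.sum_congr rfl fun Q hQ => ?_
    simp only [grn, hz Q hQ, Finset.mul_sum, mul_assoc]
  · filter_upwards [self_mem_nhdsWithin] with ε hε
    rw [(key2 ε hε).tsum_eq, ← Finset.sum_sub_distrib]
    simp only [mul_sub]

end Pool.Agent.Lib.MP_696deb_nt
end

-- part Pool.Agent.Lib.MP_696deb_nt.HeightWZ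
section

/-! The height pairing of two twisted Heegner divisors. -/

open Finset NumberTheorySymbols Filter Topology
open scoped ComplexConjugate

namespace Pool.Agent.Lib.MP_696deb_nt

open Unif Gal

variable {B : ℕ} {D ρ D' ρ' ε κ : ℤ} {Q R : Fm} {T T' : Finset Fm} {σ : ℂ ≃+* ℂ}

lemma Adm.cop30 (hB : Adm B) : B.Coprime 30 :=
  Nat.Coprime.mul_right (k := B) (m := 2) (n := 15) (by simpa using hB.odd) hB.cop

theorem FReps.gal_sum {M : Type} [AddCommGroup M] (h : FReps D ρ T) (h' : FReps D (ε * ρ) T')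
    (hB : Adm B) (hd : (B : ℤ) ∣ D) (hD : D < 0) (hε : ε = 1 ∨ ε = -1)
    (hσ : σ (del D) = ε * del D) (hκ : ∀ ζ : ℂ, ζ ^ B = 1 → σ ζ = ζ ^ κ)
    (g : Pt W15 ℂ → M) : ∑ Q ∈ T', gch B Q • g (pt (froot Q)) =
      J(ε * κ | B) • ∑ Q ∈ T, gch B Q • g (pmap (σ : ℂ →+* ℂ) (pt (froot Q))) := by
  obtain ⟨f, f1, f2⟩ := gal_perm hD hε hσ h.hreps h'.hreps
  rw [smul_sum]
  refine (sum_nbij f f1.mapsTo f1.injOn f1.surjOn fun Q hQ => ?_).symm
  rw [gal_gch hD (h.hreps.mem Q hQ) hε hσ (h'.hreps.mem _ (f1.mapsTo hQ)) (f2 Q hQ) hB.sqf hB.cop30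
    hd hκ, f2 Q hQ, mul_smul]

theorem FReps.alg (h : FReps D ρ T) (hD : D < 0) (hQ : Q ∈ symS T) : pt (froot Q) ∈ Alg W15 :=
  (mem_union.mp hQ).elim (fun h1 => alg_pt hD (h.hreps.mem Q h1))
    fun h1 => alg_pt hD (h.cj.1.hreps.mem Q h1)

/-- The quadratic character of conductor `B` on the automorphisms of the complex numbers. -/
noncomputable def chiA (B : ℕ) (σ : ℂ ≃+* ℂ) : ℤ :=
  if h : 0 < B then J((exists_pow_zeta σ h).choose | B) else 1

lemma chiA_spec (hB : 0 < B) (σ : ℂ ≃+* ℂ) :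
    ∃ κ : ℤ, IsCoprime κ B ∧ (∀ ζ : ℂ, ζ ^ B = 1 → σ ζ = ζ ^ κ) ∧ chiA B σ = J(κ | B) :=
  ⟨_, (exists_pow_zeta σ hB).choose_spec.1, (exists_pow_zeta σ hB).choose_spec.2, dif_pos hB⟩

lemma jac_mul_self (h : IsCoprime κ B) : J(κ | B) * J(κ | B) = 1 := by
  rw [← pow_two, jacobiSym.sq_one (Int.isCoprime_iff_gcd_eq_one.mp h)]

theorem FReps.gal_symS {M : Type} [AddCommGroup M] (h : FReps D ρ T) (h15 : ¬ 15 ∣ ρ) (hD : D < 0)
    (hB : Adm B) (hd : (B : ℤ) ∣ D) (σ : ℂ ≃+* ℂ) (g : Pt W15 ℂ → M) :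
    ∑ Q ∈ symS T, wZ B D ρ Q • g (pmap (σ : ℂ →+* ℂ) (pt (froot Q))) =
      chiA B σ • ∑ Q ∈ symS T, wZ B D ρ Q • g (pt (froot Q)) := by
  obtain ⟨κ, hc, hκ, e⟩ := chiA_spec hB.odd.pos σ
  obtain ⟨ε, hε, hσ⟩ := map_del σ hD
  have h1 := h.cj.1
  have h2 := jac_mul_self hc
  have h3 := jac_mul_self (B := B) isCoprime_one_left.neg_left
  rw [sum_symS h h15, sum_symS h h15, e]
  rcases id hε with rfl | rfl
  · rw [h.gal_sum (T' := T) (by simpa using h) hB hd hD hε hσ hκ,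
      h1.gal_sum (T' := T.image MP_696deb_nt.cj) (by simpa using h1) hB hd hD hε hσ hκ]
    simp only [one_mul, smul_add, smul_smul, h2, mul_left_comm J(κ | B), one_smul, mul_one]
  · rw [h1.gal_sum (T' := T) (by simpa using h) hB hd hD hε hσ hκ,
      h.gal_sum (T' := T.image MP_696deb_nt.cj) (by simpa using h1) hB hd hD hε hσ hκ]
    simp only [jacobiSym.mul_left, smul_add, smul_smul, h2, mul_left_comm J(κ | B), one_smul,
      mul_one, ← mul_assoc J(-1 | B), h3]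
    exact add_comm _ _

theorem FReps.galEq (h : FReps D ρ T) (h15 : ¬ 15 ∣ ρ) (hD : D < 0) (hB : Adm B)
    (hd : (B : ℤ) ∣ D) : GalEq (symS T) (wZ B D ρ) (chiA B) := fun σ g => by
  simpa only [zsmul_eq_mul] using h.gal_symS h15 hD hB hd σ g

/-- A nontrivial genus character has total weight zero. -/
theorem FReps.sum_gch (h : FReps D ρ T) (hD : D < 0) (hB : Adm B) (hd : (B : ℤ) ∣ D)
    (hs : J(-15 | B) = -1) (hn : B % 4 = 3 → ¬ IsSquare (-B * D)) : ∑ Q ∈ T, gch B Q = 0 := by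
  have key : ∀ {σ : ℂ ≃+* ℂ} {ε κ : ℤ}, (ε = 1 ∨ ε = -1) → σ (del D) = ε * del D →
      (∀ ζ : ℂ, ζ ^ B = 1 → σ ζ = ζ ^ κ) → J(ε * κ | B) = -1 → ∑ Q ∈ T, gch B Q = 0 := by
    intro σ ε κ hε hσ hκ e
    rcases id hε with rfl | rfl
    · have := h.gal_sum (T' := T) (by simpa using h) hB hd hD hε hσ hκ fun _ => (1 : ℤ)
      simp only [e, smul_eq_mul, mul_one] at this
      omega
    · have := h.gal_sum (by simpa using h.cj.1) hB hd hD hε hσ hκ fun _ => (1 : ℤ)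
      rw [h.cj.2] at this
      simp only [e, smul_eq_mul, mul_one, show ∀ Q, gch B (MP_696deb_nt.cj Q) = gch B Q from
        fun _ => rfl] at this
      omega
  rcases Nat.odd_mod_four_iff.mp (Nat.odd_iff.mp hB.odd) with h4 | h4
  · have hc : IsCoprime (-15 : ℤ) B := (Nat.isCoprime_iff_coprime.mpr hB.cop.symm).neg_left
    obtain ⟨σ, hκ⟩ := exists_aut_zeta hB.odd.pos hc
    obtain ⟨ε, hε, hσ⟩ := map_del σ hD
    refine key hε hσ hκ ?_
    rcases hε with rfl | rfl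
    · rwa [one_mul]
    · rw [jacobiSym.mul_left, hs, jacobiSym.at_neg_one hB.odd, ZMod.χ₄_nat_one_mod_four h4, one_mul]
  have h5 : J(-1 | B) = -1 := by
    rw [jacobiSym.at_neg_one hB.odd, ZMod.χ₄_nat_three_mod_four h4]
  have h6 : del (-B) ^ 2 = J(-1 | B) * B := by rw [del_sq (by omega), h5]; simp
  by_contra h0
  obtain ⟨q, hq⟩ := mem_range_of_fixed (K := ℚ) (a := del (-B) * del D) fun σ _ => by
    obtain ⟨κ, hc, hκ⟩ := exists_pow_zeta σ hB.odd.pos
    obtain ⟨ε, hε, hσ⟩ := map_del σ hD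
    have h7 := (jacobiSym.eq_one_or_neg_one (Int.isCoprime_iff_gcd_eq_one.mp (show
      IsCoprime (ε * κ) B by rcases hε with rfl | rfl <;> simpa [IsCoprime.neg_left_iff] using hc))).resolve_right
      fun e => h0 (key hε hσ hκ e)
    rw [jacobiSym.mul_left, show J(ε | B) = ε by rcases hε with rfl | rfl <;> simp [h5]] at h7
    rw [map_mul, aut_sqrt hB.odd hB.sqf hκ h6, hσ, mul_mul_mul_comm, ← Int.cast_mul, mul_comm _ ε,
      h7, Int.cast_one, one_mul]
  refine hn h4 (Rat.isSquare_intCast_iff.mp ⟨q, Rat.cast_injective (α := ℂ) ?_⟩)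
  rw [eq_ratCast] at hq
  rw [Rat.cast_mul, hq, ← pow_two, mul_pow, del_sq hD, del_sq (by omega)]
  simp

theorem FReps.noP (h : FReps D ρ T) (h15 : ¬ 15 ∣ ρ) {p : ℕ} (hp : p ∣ 15) (hpD : ¬ (p : ℤ) ∣ D)
    (h0 : ∑ Q ∈ T, gch B Q = 0) : NoP p (symS T) (wZ B D ρ) D := by
  refine .inr ⟨hp, hpD, fun Q hQ => (mem_union.mp hQ).elim (fun h1 => (h.fam Q h1).1)
    fun h1 => (h.cj.1.fam Q h1).1, fun r => ?_⟩
  have key : ∀ {ρ : ℤ} {T : Finset Fm}, FReps D ρ T → ∑ Q ∈ T, gch B Q = 0 →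
      ∑ Q ∈ T, gch B Q • (if (p : ℤ) ∣ Q.2.1 - r then 1 else 0 : ℤ) = 0 := fun {ρ T} h h0 => by
    rw [sum_congr rfl fun Q hQ => by rw [if_congr (show (p : ℤ) ∣ Q.2.1 - r ↔ (p : ℤ) ∣ ρ - r from
      by rw [← sub_add_sub_cancel Q.2.1 ρ r, dvd_add_right (((Int.natCast_dvd_natCast.mpr hp).trans
        (by norm_num)).trans (h.fam Q hQ).2.2)]) rfl rfl], ← sum_smul, h0, zero_smul]
  have h1 := sum_symS (B := B) h h15 fun Q => (if (p : ℤ) ∣ Q.2.1 - r then 1 else 0 : ℤ)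
  rw [key h h0, key h.cj.1 (by rw [h.cj.2]; exact h0)] at h1
  simpa [sum_filter] using h1

theorem wZ_wt (hB : Odd B) (hd : (B : ℤ) ∣ D) (hD : D < 0) : Wt (wZ B D ρ) D := by
  have h1 := wt_wG (β := ρ) hB hd
  have h2 := wt_wG (β := -ρ) hB hd
  have h3 : ∀ R, wZ B D ρ R ≠ 0 → fdisc R = D := fun R h => by
    by_contra h4
    simp [wZ, of_not_not (mt (h1.disc R) h4), of_not_not (mt (h2.disc R) h4)] at h
  refine ⟨h3, fun Q R h => ?_, ?_⟩
  · by_cases h4 : fdisc Q = D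
    · have h5 : fdisc R = D := by obtain ⟨a, b, c, d, e, rfl⟩ := h; rwa [fdisc_fmap e]
      rw [wZ, wZ, h1.inv Q R h, h2.inv Q R h, if_congr
        ⟨fun k => h.symm.pos (h5 ▸ hD) k, fun k => h.pos (h4 ▸ hD) k⟩ rfl rfl]
    · rw [of_not_not (mt (h3 Q) h4), of_not_not (mt (h3 R) fun h5 => h4 ?_)]
      obtain ⟨a, b, c, d, e, rfl⟩ := h
      rwa [fdisc_fmap e] at h5
  · obtain ⟨C, hC⟩ := h1.bdd
    obtain ⟨C', hC'⟩ := h2.bdd
    refine ⟨C + C', fun R => ?_⟩
    have := hC R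
    have := hC' R
    unfold wZ
    rcases jacobiSym.trichotomy (-1) B with h | h | h <;> rw [h] <;> split_ifs <;>
      rw [abs_le] at * <;> omega

/-- The image in `ℂ` of the symmetrized twisted divisor. -/
noncomputable def yZ (B : ℕ) (T : Finset Fm) : ℂ := hP B T + J(-1 | B) * conj (hP B T)

theorem FReps.alg_yZ (h : FReps D ρ T) (h15 : ¬ 15 ∣ ρ) (hD : D < 0) (B : ℕ) :
    u15 (yZ B T) ∈ Alg W15 := by
  rw [yZ, ← h.sum_Fi h15 hD, map_sum]
  refine sum_mem fun Q hQ => ?_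
  have h1 := (mem_union.mp hQ).elim (fun h1 => (h.hreps.mem Q h1).im_pos hD)
    fun h1 => (h.cj.1.hreps.mem Q h1).im_pos hD
  rw [← zsmul_eq_mul, map_zsmul, ← pt_eq_u15 h1]
  exact zsmul_mem (h.alg hD hQ) _

/-- The height pairing of two twisted Heegner points is the limit of a count of pairs of forms, up
to logarithms of primes other than `p`. -/
theorem height_wZ (hB : Adm B) (hs : J(-15 | B) = -1) (h : FReps D ρ T) (h15 : ¬ 15 ∣ ρ)
    (hD : D < 0) (hd : (B : ℤ) ∣ D) (h' : FReps D' ρ' T') (h15' : ¬ 15 ∣ ρ') (hD' : D' < 0)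
    (hd' : (B : ℤ) ∣ D') (hn : ¬ IsSquare (D * D')) : ∃ x : ℝ,
    (∀ ε : ℝ, 0 < ε → Summable fun t : ℕ =>
      (cntP (symS T) (wZ B D ρ) (wZ B D' ρ') (-t) : ℝ) * kerK ε (t / √(D * D' : ℝ))) ∧
    Tendsto (fun ε : ℝ => ∑' t : ℕ,
      (cntP (symS T) (wZ B D ρ) (wZ B D' ρ') (-t) : ℝ) * kerK ε (t / √(D * D' : ℝ))) (𝓝[>] 0) (𝓝 x) ∧
    ∀ p : ℕ, p.Prime → NoP p (symS T) (wZ B D ρ) D ∨ NoP p (symS T') (wZ B D' ρ') D' →
      hpair (u15 (yZ B T)) (u15 (yZ B T')) + 2 * x ∈ LogS p := by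
  have hS := h.pts h15 hD hB hd hs
  have hT := h'.pts h15' hD' hB hd' hs
  refine (point_point nerData15 hS hT (wZ_wt hB.odd hd' hD') (fun R hR => ?_) ?_ fun Q _ R _ e =>
    hn ⟨_, e.symm.trans (pow_two _)⟩).elim fun h1 h2 => ⟨_, h1, h2, fun p hp hN => ?_⟩
  rotate_right
  · have := height_forms hS hT hn (fun Q => h.alg hD) (fun Q => h'.alg hD') (h.galEq h15 hD hB hd)
      (h'.galEq h15' hD' hB hd') (fun σ => by
        obtain ⟨κ, hc, -, e⟩ := chiA_spec hB.odd.pos σ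
        rw [e, jac_mul_self hc]) hp hN
    rwa [h.sum_Fi h15 hD, h'.sum_Fi h15' hD', sub_eq_add_neg, ← mul_neg] at this
  · have h0 : 0 < R.1 := by_contra fun k => hR (if_neg k)
    by_cases k : Fam D' ρ' R
    · exact (h'.ex R k h0).imp fun Q e => ⟨mem_union_left _ e.1, e.2⟩
    · refine (h'.cj.1.ex R (by_contra fun k' => hR ?_) h0).imp fun Q e => ⟨mem_union_right _ e.1, e.2⟩
      simp [wZ, wG, k, k']
  · intro Q hQ R hR e
    rcases mem_union.mp hQ with hQ | hQ <;> rcases mem_union.mp hR with hR | hR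
    · exact h'.uniq _ hQ _ hR e
    · exact absurd (h'.cj.1.fam _ hR) ((e.fam (h'.fam _ hQ)).not_neg h15')
    · exact absurd (e.fam (h'.cj.1.fam _ hQ)) ((h'.fam _ hR).not_neg h15')
    · exact h'.cj.1.uniq _ hQ _ hR e

end Pool.Agent.Lib.MP_696deb_nt
end

-- part Pool.Agent.Lib.MP_696deb_nt.GzLog
section

/-! The logarithmic terms that come from the crossings of lines and geodesics. -/

open Finset NumberTheorySymbols

namespace Pool.Agent.Lib.MP_696deb_nt

open Tern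

variable {n p l d : ℕ} {t a e M β : ℤ}

lemma sum_Ico_zero {V : Type*} [AddCommMonoid V] (n : ℕ) (f : ℤ → V) :
    ∑ k ∈ Ico (0 : ℤ) n, f k = ∑ k ∈ range n, f k := by
  rw [Int.Ico_eq_finset_map]; simp

theorem perA_eq_zero (hn : Good n) (h : J(-15 | n) = -1) : perA n = 0 := by
  classical
  have h0 : (0 : ℤ) < n := by have := hn.mod4; omega
  have h15 : IsCoprime (15 : ℤ) n := Nat.isCoprime_iff_coprime.mpr hn.cop.symm
  have ex : ∀ k : ℤ, IsCoprime k n → ∃ j ∈ Ico (0 : ℤ) n, (n : ℤ) ∣ 15 * k * j + 1 := fun k hk => by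
    obtain ⟨u, v, e⟩ := h15.mul_left hk
    refine ⟨-u % n, mem_Ico.mpr ⟨Int.emod_nonneg _ h0.ne', Int.emod_lt_of_pos _ h0⟩,
      v - 15 * k * (-u / n), ?_⟩
    rw [Int.emod_def]; linear_combination -e
  choose! g g1 g2 using ex
  have c : ∀ {k j : ℤ}, (n : ℤ) ∣ 15 * k * j + 1 → IsCoprime j n := fun {k j} ⟨b, hb⟩ =>
    ⟨-15 * k, b, by linear_combination -hb⟩
  have key : ∀ k : ℤ, IsCoprime k n → (J(k | n) : ℂ) * ms k n + J(g k | n) * ms (g k) n = 0 := by
    intro k hk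
    obtain ⟨b, hb⟩ := g2 k hk
    have h1 := ms_AL15 (a := g k) (b := -b) (c := n) (d := -k) (x := k) (y := n)
      (by linear_combination -hb) (.inr h0.ne')
    rw [show 15 * (n : ℤ) * k + 15 * -k * n = 0 by ring, ms_zero, eq_neg_add_iff_add_eq,
      add_zero] at h1
    have h2 : J(-15 | n) * (J(k | n) * J(g k | n)) = 1 := by
      rw [← jacobiSym.mul_left, ← jacobiSym.mul_left, ← jacobiSym.one_left n]
      exact jac_congr ⟨-b, by linear_combination -hb⟩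
    have h3 := jacobiSym.sq_one (Int.isCoprime_iff_gcd_eq_one.mp hk)
    rw [h1, ← add_mul, ← Int.cast_add, show J(k | n) + J(g k | n) = 0 by
      rw [h] at h2; linear_combination -J(k | n) * h2 - J(g k | n) * h3, Int.cast_zero, zero_mul]
  rw [perA, ← sum_Ico_zero n fun k => (J(k | n) : ℂ) * ms k n, ← sum_filter_of_ne
    (p := fun k : ℤ => IsCoprime k n) fun k _ hk => by_contra fun h1 => hk (by
      have : NeZero n := ⟨by omega⟩
      rw [jacobiSym.eq_zero_iff_not_coprime.mpr (mt Int.isCoprime_iff_gcd_eq_one.mpr h1),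
        Int.cast_zero, zero_mul])]
  refine sum_involution (fun k _ => g k) (fun k hk => key k (mem_filter.mp hk).2)
    (fun k hk h1 h2 => h1 ?_) (fun k hk => mem_filter.mpr ⟨g1 k (mem_filter.mp hk).2,
      c (g2 k (mem_filter.mp hk).2)⟩) fun k hk => ?_
  · have := key k (mem_filter.mp hk).2
    rwa [h2, add_self_eq_zero] at this
  · obtain ⟨h1, h2⟩ := mem_filter.mp hk
    have h3 := c (g2 k h2)
    have h4 := (h15.mul_left h3).symm.dvd_of_dvd_mul_left (z := g (g k) - k) (by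
      convert dvd_sub (g2 _ h3) (g2 k h2) using 1; ring)
    have h5 := g1 _ h3
    rw [mem_Ico] at h1 h5
    exact sub_eq_zero.mp (Int.eq_zero_of_abs_lt_dvd h4 (abs_lt.mpr ⟨by omega, by omega⟩))

lemma muP_mul [Fact p.Prime] (t a e : ℤ) : muP p (p * t) (p * a) (p * e) =
    ∑ k : ZMod p, if 15 * a * k ^ 2 - t * k + e = 0 then quadraticChar (ZMod p) k else 0 := by
  have h : (p : ℤ) ≠ 0 := by exact_mod_cast (Fact.out : p.Prime).ne_zero
  rw [muP, if_pos (dvd_mul_right _ _), if_pos ⟨dvd_mul_right _ _, dvd_mul_right _ _⟩,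
    ← sum_range_zmod]
  simp only [Int.mul_ediv_cancel_left _ h, jac_eq, ← ZMod.intCast_zmod_eq_zero_iff_dvd,
    Int.cast_add, Int.cast_sub, Int.cast_mul, Int.cast_pow, Int.cast_ofNat, Int.cast_natCast]

lemma muP_scale (hp : p.Prime) {c : ℤ} (hc : ¬ (p : ℤ) ∣ c) (t a e : ℤ) :
    muP p t (c * a) e = J(c | p) * muP p t a (c * e) := by
  have := Fact.mk hp
  have hP := Nat.prime_iff_prime_int.mp hp
  by_cases ht : (p : ℤ) ∣ t
  swap
  · rw [muP, muP, if_neg ht, if_neg ht, ← jacobiSym.mul_left]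
    congr 1; ring
  by_cases h : (p : ℤ) ∣ a ∧ (p : ℤ) ∣ e
  swap
  · rw [muP, muP, if_pos ht, if_pos ht, if_neg, if_neg, mul_zero] <;> simpa [hP.dvd_mul, hc] using h
  obtain ⟨⟨t, rfl⟩, ⟨a, rfl⟩, e, rfl⟩ := And.intro ht h
  have h0 : (c : ZMod p) ≠ 0 := by rwa [Ne, ZMod.intCast_zmod_eq_zero_iff_dvd]
  rw [mul_left_comm c, mul_left_comm c, muP_mul, muP_mul, mul_sum, jac_eq]
  refine Fintype.sum_equiv (Equiv.mulLeft₀ _ h0) _ _ fun k => ?_
  simp only [Equiv.mulLeft₀_apply, Int.cast_mul, map_mul, mul_ite, mul_zero, ← mul_assoc, ← sq,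
    quadraticChar_sq_one h0, one_mul]
  exact if_congr ((mul_right_inj' h0).symm.trans (Eq.congr (by ring) (by ring))) rfl rfl

lemma muP_swap (hn : n.Coprime 30) (hp : p ∈ n.primeFactors) (h : (p : ℤ) ∣ t ^ 2 - 60 * (a * e)) :
    muP p t e a = J(15 | p) * muP p t a e := by
  have hp' := Nat.prime_of_mem_primeFactors hp
  have := Fact.mk hp'
  have hP := Nat.prime_iff_prime_int.mp hp'
  obtain ⟨h2, h3, h5⟩ := small_ne_zero hn hp' (Nat.dvd_of_mem_primeFactors hp)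
  have h15 : (15 : ZMod p) ≠ 0 := by
    rw [show (15 : ZMod p) = 3 * 5 by norm_num]; exact mul_ne_zero h3 h5
  by_cases ht : (p : ℤ) ∣ t
  swap
  · rw [muP, muP, if_neg ht, if_neg ht, ← jacobiSym.mul_left]
    rw [← ZMod.intCast_zmod_eq_zero_iff_dvd] at h ht
    push_cast at h
    have h1 : (a : ZMod p) * e ≠ 0 := fun h1 => ht (by simpa [h1] using h)
    have h30 : (30 : ZMod p) ≠ 0 := by
      rw [show (30 : ZMod p) = 2 * 15 by norm_num]; exact mul_ne_zero h2 h15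
    refine jac_eq_of_sq hp' (k := 2) (l := 30 * t ^ 2) ?_ ?_ ?_ ?_ <;>
      rw [← ZMod.intCast_zmod_eq_zero_iff_dvd] <;> push_cast
    · exact mul_ne_zero (mul_ne_zero h30 (right_ne_zero_of_mul h1)) ht
    · exact mul_ne_zero h15 (mul_ne_zero (mul_ne_zero h30 (left_ne_zero_of_mul h1)) ht)
    · exact h2
    · linear_combination -900 * (t : ZMod p) ^ 2 * h
  by_cases h : (p : ℤ) ∣ a ∧ (p : ℤ) ∣ e
  swap
  · rw [muP, muP, if_pos ht, if_pos ht, if_neg h, if_neg (mt And.symm h), mul_zero]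
  obtain ⟨⟨t, rfl⟩, ⟨a, rfl⟩, e, rfl⟩ := And.intro ht h
  rw [muP_mul, muP_mul, mul_sum, jac_eq]
  refine Fintype.sum_equiv ((Equiv.mulLeft₀ _ h15).trans (Equiv.inv _)) _ _ fun k => ?_
  rcases eq_or_ne k 0 with rfl | hk
  · simp
  simp only [Equiv.trans_apply, Equiv.mulLeft₀_apply, Equiv.inv_apply, mul_ite, mul_zero,
    Int.cast_ofNat, ← map_mul]
  refine if_congr ((mul_right_inj' (inv_ne_zero (mul_ne_zero h15 (pow_ne_zero 2 hk)))).symm.trans
    (Eq.congr (by field_simp; ring) (by ring))) ?_ rfl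
  rw [show 15 * (15 * k)⁻¹ = k * k⁻¹ ^ 2 by field_simp, map_mul, map_pow,
    quadraticChar_sq_one (inv_ne_zero hk), mul_one]

lemma muW_one (n : ℕ) (t a e : ℤ) : muW n 1 t a e = ∏ p ∈ n.primeFactors, muP p t a e := by
  simp [muW]

lemma muW_scale (hn : Squarefree n) {c : ℤ} (hc : J(c | n) = 1) (t a e : ℤ) :
    muW n 1 t (c * a) e = muW n 1 t a (c * e) := by
  rw [jac_eq_prod _ hn] at hc
  rw [muW_one, muW_one, ← one_mul (∏ p ∈ _, muP p t a _), ← hc, ← prod_mul_distrib]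
  refine prod_congr rfl fun p hp => muP_scale (Nat.prime_of_mem_primeFactors hp) (fun h => ?_) ..
  rw [prod_eq_zero hp (jac_zero_of_dvd (Nat.prime_of_mem_primeFactors hp) h)] at hc
  exact zero_ne_one hc

lemma muW_swap (hn : Good n) (h15 : J(15 | n) = 1) (h : (n : ℤ) ∣ t ^ 2 - 60 * (a * e)) :
    muW n 1 t e a = muW n 1 t a e := by
  rw [muW_one, muW_one, ← one_mul (∏ p ∈ _, muP p t a _), ← h15, jac_eq_prod _ hn.sqf,
    ← prod_mul_distrib]
  exact prod_congr rfl fun p hp => muP_swap (Good.coprime30 hn) hp (dvd_of_mem h hp)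

lemma sum_sign_muW (hn : Good n) (h15 : J(15 | n) = 1) (hM : M < 0)
    (h : (n : ℤ) ∣ t ^ 2 - 60 * M) :
    ∑ x ∈ M.divisorsAntidiag, muW n 1 t x.1 x.2 * x.1.sign = 0 := by
  have key : ∀ x ∈ M.divisorsAntidiag,
      muW n 1 t x.1 x.2 * x.1.sign + muW n 1 t x.swap.1 x.swap.2 * x.swap.1.sign = 0 := by
    rintro ⟨a, e⟩ hx
    obtain ⟨rfl, -⟩ := Int.mem_divisorsAntidiag.mp hx
    simp only [Prod.swap]
    rw [muW_swap hn h15 h, ← mul_add]
    rcases mul_neg_iff.mp hM with ⟨h1, h2⟩ | ⟨h1, h2⟩ <;>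
      simp [Int.sign_eq_one_of_pos, Int.sign_eq_neg_one_of_neg, h1, h2]
  exact sum_involution (fun x _ => x.swap) key (fun x hx h1 h2 => h1 (by
    simpa only [h2, add_self_eq_zero] using key x hx))
    (fun x hx => Int.swap_mem_divisorsAntidiag.mpr hx) fun x _ => rfl

lemma padicValInt_pow_mul (hl : l.Prime) (h : ¬ (l : ℤ) ∣ a) (i : ℕ) :
    padicValInt l (l ^ i * a) = i := by
  have := Fact.mk hl
  rw [padicValInt.mul (pow_ne_zero _ (mod_cast hl.ne_zero)) (by rintro rfl; simp at h),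
    padicValInt.eq_zero_of_not_dvd h, ← Nat.cast_pow, padicValInt.of_nat, padicValNat.prime_pow,
    add_zero]

lemma sum_val_split (hn : Squarefree n) (hl : l.Prime) (hc : J((l : ℤ) | n) = 1) (t M : ℤ) :
    ∑ x ∈ M.divisorsAntidiag, muW n 1 t x.1 x.2 * x.1.sign *
      (padicValInt l x.2 - padicValInt l x.1) = 0 := by
  have h0 : (0 : ℤ) < l := mod_cast hl.pos
  let g : ℤ × ℤ → ℤ × ℤ := fun x => (l ^ padicValInt l x.2 * (x.1 / l ^ padicValInt l x.1),
    l ^ padicValInt l x.1 * (x.2 / l ^ padicValInt l x.2))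
  have hg : ∀ {a e : ℤ} (i j : ℕ), ¬ (l : ℤ) ∣ a → ¬ (l : ℤ) ∣ e →
      g (l ^ i * a, l ^ j * e) = (l ^ j * a, l ^ i * e) := fun i j ha he => by
    simp only [g, padicValInt_pow_mul hl ha, padicValInt_pow_mul hl he,
      Int.mul_ediv_cancel_left _ (pow_ne_zero _ h0.ne')]
  have ex : ∀ x ∈ M.divisorsAntidiag, ∃ (i j : ℕ) (a e : ℤ), ¬ (l : ℤ) ∣ a ∧ ¬ (l : ℤ) ∣ e ∧
      x = (l ^ i * a, l ^ j * e) := by
    rintro ⟨a, e⟩ hx
    obtain ⟨rfl, h⟩ := Int.mem_divisorsAntidiag.mp hx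
    obtain ⟨i, a, ha, rfl⟩ := exists_pow_mul hl (left_ne_zero_of_mul h)
    obtain ⟨j, e, he, rfl⟩ := exists_pow_mul hl (right_ne_zero_of_mul h)
    exact ⟨i, j, a, e, ha, he, rfl⟩
  have h1 : ∀ i : ℕ, J((l : ℤ) ^ i | n) = 1 := fun i => by rw [jacobiSym.pow_left, hc, one_pow]
  have key : ∀ x ∈ M.divisorsAntidiag, muW n 1 t x.1 x.2 * x.1.sign *
      (padicValInt l x.2 - padicValInt l x.1) + muW n 1 t (g x).1 (g x).2 * (g x).1.sign *
      (padicValInt l (g x).2 - padicValInt l (g x).1) = 0 := fun x hx => by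
    obtain ⟨i, j, a, e, ha, he, rfl⟩ := ex x hx
    simp only [hg i j ha he, padicValInt_pow_mul hl ha, padicValInt_pow_mul hl he,
      muW_scale hn (h1 _), Int.sign_mul, Int.sign_eq_one_of_pos (pow_pos h0 _),
      mul_left_comm ((l : ℤ) ^ j)]
    ring
  refine sum_involution (fun x _ => g x) key (fun x hx h1 h2 => h1 (by
    simpa only [h2, add_self_eq_zero] using key x hx)) (fun x hx => ?_) fun x hx => ?_ <;>
    obtain ⟨i, j, a, e, ha, he, rfl⟩ := ex x hx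
  · rw [hg i j ha he]
    rw [Int.mem_divisorsAntidiag] at hx ⊢
    exact ⟨by rw [← hx.1]; ring, hx.2⟩
  · rw [hg i j ha he, hg j i ha he]

lemma val_eq_of_ram (hn : Good n) (hd : Squarefree d) (hl : l.Prime) (h1 : l ∣ n) (h2 : l ∣ d)
    (h : 60 * (a * e) = t ^ 2 - n ^ 2 * d) (h0 : muP l t a e ≠ 0) :
    padicValInt l e = padicValInt l a := by
  have := Fact.mk hl
  have hP := Nat.prime_iff_prime_int.mp hl
  obtain ⟨m, rfl⟩ := h1
  obtain ⟨c, rfl⟩ := h2
  have hl0 : (l : ℤ) ≠ 0 := mod_cast hl.ne_zero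
  have key : ∀ {t a e k : ℤ}, 60 * (a * e) = t ^ 2 - l * k → ¬ (l : ℤ) ∣ t →
      ¬ (l : ℤ) ∣ a ∧ ¬ (l : ℤ) ∣ e := fun {t a e k} h ht => by
    rw [← not_or, ← hP.dvd_mul]
    exact fun h1 => ht (hP.dvd_of_dvd_pow ((dvd_sub_left (dvd_mul_right _ k)).mp (h ▸ h1.mul_left 60)))
  push_cast at h
  by_cases ht : (l : ℤ) ∣ t
  swap
  · obtain ⟨h1, h2⟩ := key (k := l * m ^ 2 * (l * c)) (by rw [h]; ring) ht
    rw [padicValInt.eq_zero_of_not_dvd h1, padicValInt.eq_zero_of_not_dvd h2]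
  obtain ⟨⟨a, rfl⟩, e, rfl⟩ : (l : ℤ) ∣ a ∧ (l : ℤ) ∣ e := by
    by_contra h1
    exact h0 (by rw [muP, if_pos ht, if_neg h1])
  obtain ⟨t, rfl⟩ := ht
  replace h : 60 * (a * e) = t ^ 2 - l * (m ^ 2 * c) :=
    mul_left_cancel₀ (pow_ne_zero 2 hl0) (by linear_combination h)
  by_cases ht : (l : ℤ) ∣ t
  swap
  · obtain ⟨h1, h2⟩ := key h ht
    simpa using (padicValInt_pow_mul hl h2 1).trans (padicValInt_pow_mul hl h1 1).symm
  refine (h0 ?_).elim
  have h3 : ¬ ((l : ℤ) ∣ a ∧ (l : ℤ) ∣ e) := by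
    rintro ⟨⟨a, rfl⟩, e, rfl⟩
    obtain ⟨t, rfl⟩ := ht
    have h4 : (l : ℤ) ∣ m ^ 2 * c := ⟨t ^ 2 - 60 * (a * e), mul_left_cancel₀ hl0 (by
      linear_combination h)⟩
    rcases hP.dvd_or_dvd h4 with h4 | h4
    · exact hl.prime.not_isUnit (hn.sqf l (mul_dvd_mul_left _ (mod_cast hP.dvd_of_dvd_pow h4)))
    · exact hl.prime.not_isUnit (hd l (mul_dvd_mul_left _ (mod_cast h4)))
  obtain ⟨h2, k3, k5⟩ := small_ne_zero (Good.coprime30 hn) hl (dvd_mul_right _ _)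
  have h4 := congr_arg (Int.cast : ℤ → ZMod l) h
  simp only [← ZMod.intCast_zmod_eq_zero_iff_dvd] at ht h3
  simp only [Int.cast_mul, Int.cast_sub, Int.cast_pow, ht, Int.cast_natCast, ZMod.natCast_self,
    zero_mul, show ((60 : ℤ) : ZMod l) = 2 * 2 * 3 * 5 by norm_num, ne_eq, OfNat.ofNat_ne_zero,
    not_false_eq_true, zero_pow, sub_zero, mul_eq_zero, h2, k3, k5, false_or] at h4
  rw [muP_mul]
  refine sum_eq_zero fun k _ => ite_eq_right_iff.mpr fun hk => ?_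
  rw [show (15 : ZMod l) = 3 * 5 by norm_num] at hk
  rcases h4 with h4 | h4
  · exact (h3 ⟨h4, by simpa [h4, ht] using hk⟩).elim
  · have : (a : ZMod l) ≠ 0 := fun h5 => h3 ⟨h5, h4⟩
    obtain rfl : k = 0 := by simpa [h4, ht, k3, k5, this] using hk
    simp

lemma jac_of_split (hn : Good n) (hl : l.Prime) (h : ¬ l ∣ n) {x : ℤ} (hx : 4 * (l : ℤ) ∣ x ^ 2 + n) :
    J((l : ℤ) | n) = 1 := by
  rw [← Gal.prod_hil_prime hn hl hx, jac_eq_prod _ hn.sqf]
  refine prod_congr rfl fun p hp => (hil_of_not_dvd (Nat.prime_of_mem_primeFactors hp) fun e => h ?_).symm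
  rw [← (Nat.prime_dvd_prime_iff_eq (Nat.prime_of_mem_primeFactors hp) hl).mp (mod_cast e)]
  exact Nat.dvd_of_mem_primeFactors hp

lemma not_dvd_of_inert (hn : Good n) (hd : Odd d) (hl : l.Prime) (h : ¬ l ∣ n * d) {x : ℤ}
    (hx : 4 * (l : ℤ) ∣ x ^ 2 + (n * d : ℕ)) (hc : J((l : ℤ) | n) ≠ 1)
    (hM : 60 * M = t ^ 2 - n ^ 2 * d) : ¬ (l : ℤ) ∣ M := by
  rintro ⟨M, rfl⟩
  obtain ⟨k, hk⟩ := hx
  have h1 : ¬ l ∣ n := fun e => h (e.mul_right _)
  obtain ⟨u, v, e⟩ : IsCoprime (4 * (l : ℤ)) (n * d) :=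
    (IsCoprime.pow_left (x := 2) (m := 2) (Int.isCoprime_two_left.mpr
      (mod_cast (Nat.odd_iff.mpr (by have := hn.mod4; omega) : Odd n).mul hd))).mul_left
      (mod_cast hl.coprime_iff_not_dvd.mpr h)
  push_cast at hk
  exact hc (jac_of_split hn hl h1 (x := v * t * x) ⟨v ^ 2 * (15 * M * (4 * l * k - n * d) +
    n ^ 2 * d * k) + n * u * (1 + v * n * d), by
    linear_combination v ^ 2 * t ^ 2 * hk - v ^ 2 * (4 * l * k - n * d) * hM - n * (1 + v * n * d) * e⟩)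

/-- The prime `l` does not occur in the logarithmic terms. -/
theorem log_terms (hn : Good n) (h15 : J(15 | n) = 1) (hd : Squarefree d) (ho : Odd d) (β : ℤ)
    (hl : l.Prime) (hc : J((l : ℤ) | n) = 1 ∨ (l ∣ n ∧ l ∣ d) ∨
      (¬ l ∣ n * d ∧ ∃ x : ℤ, 4 * (l : ℤ) ∣ x ^ 2 + (n * d : ℕ))) :
    (∑ k ∈ Ico (0 : ℤ) n, (J(k | n) : ℝ) * ∑ᶠ R : Fm, if R.1 * fval R k n < 0 then
      (wG 1 d β R * R.1.sign : ℝ) * (Real.log |(fval R k n : ℝ)| - Real.log |(R.1 : ℝ)|) / 2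
      else 0) ∈ LogS l := by
  classical
  have hw := wt_wG (A := 1) (e := d) odd_one (by simp) β
  let φ : ℤ → ℤ → ℝ := fun a e => a.sign * (Real.log e - Real.log a - Real.log 15) / 2
  set T : Finset ℤ := (Icc (-(n ^ 2 * d : ℤ)) (n ^ 2 * d)).filter fun t => t ^ 2 < n ^ 2 * d with hT
  have hTm : ∀ t, t ∈ T ↔ t ^ 2 < n ^ 2 * d := fun t => by
    rw [hT, mem_filter, mem_Icc, and_iff_right_iff_imp, ← abs_le]
    intro h
    have := Int.le_self_sq |t|
    rw [sq_abs] at this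
    linarith
  have h1 : ∀ k : ℤ, (∑ᶠ R : Fm, if R.1 * fval R k n < 0 then (wG 1 d β R * R.1.sign : ℝ) *
      (Real.log |(fval R k n : ℝ)| - Real.log |(R.1 : ℝ)|) / 2 else 0) = ∑ t ∈ T, ∑ᶠ R : Fm,
      if fbil (0, n, -k) R = t then (wG 1 d β R : ℝ) * φ (R.1 / 15) (fval R k n) else 0 := by
    intro k
    have h2 : ∀ R, wG 1 d β R ≠ 0 → (fbil (0, n, -k) R ∈ T ↔ R.1 * fval R k n < 0) := fun R hR => by
      have := fbil_line n k R
      rw [hw.disc R hR] at this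
      rw [hTm]
      constructor <;> intro h <;> linarith
    rw [← finsum_sum_comm _ _ fun t ht => (finite_cross (x := k) (y := n) hw).subset fun R hR => by
      have h3 : fbil (0, n, -k) R = t := by_contra fun h => hR (if_neg h)
      have h4 : wG 1 d β R ≠ 0 := fun h => hR (by simp [h])
      exact ⟨h4, (h2 R h4).mp (h3 ▸ ht)⟩]
    refine finsum_congr fun R => ?_
    rw [sum_ite_eq]
    by_cases h3 : wG 1 d β R = 0
    · simp [h3]
    refine if_ctx_congr (h2 R h3).symm (fun h4 => ?_) fun _ => rfl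
    obtain ⟨a, ha⟩ := (fam_of_wG h3).1
    have h5 : a ≠ 0 := by rintro rfl; simpa [ha] using (h2 R h3).mp h4
    simp only [φ, ha, Int.mul_ediv_cancel_left _ (by norm_num : (15 : ℤ) ≠ 0), Real.log_abs,
      Int.sign_mul, Int.cast_mul, Int.cast_ofNat]
    rw [Real.log_mul (by norm_num) (mod_cast h5), show Int.sign 15 = 1 from rfl]
    push_cast
    ring
  simp only [h1, mul_sum]
  rw [sum_comm]
  refine Submodule.sum_mem _ fun t ht => ?_
  by_cases h2 : 30 ∣ t - n * β ∧ 60 ∣ t ^ 2 - n ^ 2 * d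
  swap
  · convert (LogS l).zero_mem
    refine sum_eq_zero fun k _ => mul_eq_zero_of_right _ (finsum_eq_zero_of_forall_eq_zero fun R =>
      ite_eq_right_iff.mpr fun h3 => mul_eq_zero_of_left (Int.cast_eq_zero.mpr (by_contra fun h4 =>
        h2 ⟨by_contra fun h5 => h4 (wG_eq_zero h5 h3), ?_⟩)) _)
    obtain ⟨⟨a, ha⟩, h5, -⟩ := fam_of_wG h4
    exact ⟨a * fval R k n, by rw [← h3, ← h5, fbil_line, ha]; ring⟩
  obtain ⟨h2, M, hM⟩ := h2
  have h3 : M < 0 := by have := (hTm t).mp ht; omega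
  rw [sum_Ico_zero, sum_lines (B := 1) (by simpa using hn) (by simp) hM.symm h3.ne h2]
  have h4 := sum_sign_muW hn h15 h3 (t := t) ⟨n * d, by linear_combination hM⟩
  have h5 : ∑ x ∈ M.divisorsAntidiag, muW n 1 t x.1 x.2 * x.1.sign *
      (padicValInt l x.2 - padicValInt l x.1) = 0 := by
    by_cases h5 : J((l : ℤ) | n) = 1
    · exact sum_val_split hn.sqf hl h5 t M
    refine sum_eq_zero fun x hx => ?_
    obtain ⟨h6, -⟩ := Int.mem_divisorsAntidiag.mp hx
    rcases hc.resolve_left h5 with ⟨k1, k2⟩ | ⟨k1, y, k2⟩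
    · by_cases h7 : muP l t x.1 x.2 = 0
      · rw [muW_one, prod_eq_zero (Nat.mem_primeFactors.mpr ⟨hl, k1, hn.sqf.ne_zero⟩) h7, zero_mul,
          zero_mul]
      · rw [val_eq_of_ram hn hd hl k1 k2 (h6 ▸ hM.symm) h7, sub_self, mul_zero]
    · have h7 := not_dvd_of_inert hn ho hl k1 k2 h5 hM.symm
      rw [padicValInt.eq_zero_of_not_dvd fun e => h7 (h6 ▸ e.mul_left _),
        padicValInt.eq_zero_of_not_dvd fun e => h7 (h6 ▸ e.mul_right _), sub_self, mul_zero]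
  convert Submodule.sum_mem _ (t := M.divisorsAntidiag) fun x _ => LogS.rat_mul
    ((muW n 1 t x.1 x.2 * x.1.sign : ℤ) / 2) (sub_mem (log_int_sub_mem hl x.2)
      (log_int_sub_mem hl x.1)) using 1
  replace h4 := congr_arg (fun z : ℤ => (z : ℝ) * (Real.log 15 / 2)) h4
  replace h5 := congr_arg (fun z : ℤ => (z : ℝ) * (Real.log l / 2)) h5
  simp only [Int.cast_sum, sum_mul, Int.cast_zero, zero_mul] at h4 h5
  rw [← add_zero (∑ _ ∈ _, _), ← h4, ← add_zero (∑ _ ∈ _, ((_ : ℚ) : ℝ) * _), ← h5, ← sum_add_distrib,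
    ← sum_add_distrib]
  refine sum_congr rfl fun x _ => ?_
  simp only [φ]
  push_cast
  ring

end Pool.Agent.Lib.MP_696deb_nt
end

-- part Pool.Agent.Lib.MP_696deb_nt.Gz
section

/-! If the Heegner point has infinite order, the derivative of the twisted series does not
vanish. -/

open Finset NumberTheorySymbols Filter Topology
open scoped ComplexConjugate

namespace Pool.Agent.Lib.MP_696deb_nt

open Unif

variable {n : ℕ} {ρ : ℤ} {T : Finset Fm}

lemma tors_iff_u15 {z : ℂ} : Tors z ↔ IsOfFinAddOrder (u15 z) := by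
  simp only [tors_iff, isOfFinAddOrder_iff_nsmul_eq_zero, ← map_nsmul, u15_eq_zero_iff, nsmul_eq_mul]

lemma hP_full (hn : Good n) (hT : FReps (-n) ρ T) : hP n T = hP 1 T :=
  sum_congr rfl fun Q hQ => by
    rw [← gch_eq_hilS hn dvd_rfl (hT.fam Q hQ).2.1, hilS,
      (Gal.sgn_hil hn (hT.fam Q hQ).2.1 (hT.pos Q hQ)).2]
    simp [gch]

lemma Good.adm (hn : Good n) : Adm n :=
  ⟨hn.sqf, Nat.odd_iff.mpr (by have := hn.mod4; omega), hn.cop⟩

lemma FReps.tq_yZ {B : ℕ} {D : ℤ} (h : FReps D ρ T) (hD : D < 0) (hB : Adm B) (hd : (B : ℤ) ∣ D)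
    (hs : J(-15 | B) = -1) : tq (yZ B T) = (2 : ℤ) • tq (hP B T) := by
  rw [yZ, map_add, tq_mul, h.tq_conj hD hB hd, smul_smul, mul_neg, ← jacobiSym.mul_left,
    show (-1 * 15 : ℤ) = -15 from rfl, hs, neg_neg, one_smul, two_smul]

/-- The equality of the counts of pairs of points and of pairs of geodesics. -/
def MatchB (n : ℕ) (ρ : ℤ) (T : Finset Fm) : Prop :=
  ∀ (d β : ℤ) (T' : Finset Fm) (t : ℤ), 0 < d → FReps (-n) (-ρ) T' → 0 ≤ t → n ^ 2 * d < t ^ 2 →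
    cntP (T ∪ T') (wZ n (-n) ρ) (wZ n (-(n * d)) (ρ * β)) (-t) =
      cntL n (Ico (0 : ℤ) n) (fun k => J(k | n)) (wG 1 d β) t +
        cntL n (Ico (0 : ℤ) n) (fun k => J(k | n)) (wG 1 d β) (-t)

/-- The proportionality of the twisted Heegner points. -/
def GkzOne (n : ℕ) (ρ : ℤ) (T : Finset Fm) : Prop :=
  ∀ (d β ρ' : ℤ) (T' : Finset Fm), 0 < d → d % 4 = 1 → ¬ IsSquare d → 60 ∣ β ^ 2 - d →
    30 ∣ ρ * β - 11 * ρ' → FReps (-(n * d)) ρ' T' →
    ∃ s : ℤ, (s = 1 ∨ s = -1) ∧ Tors (hP n T' - s * 2 * th (wG 1 d β) * hP 1 T)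

/-- The existence of auxiliary discriminants. -/
def AuxDisc (n : ℕ) : Prop := ∀ l : ℕ, l.Prime →
  ∃ (d : ℕ) (β : ℤ), Squarefree d ∧ d.Coprime 30 ∧ d % 4 = 1 ∧ 1 < d ∧ 60 ∣ β ^ 2 - d ∧
    th (wG 1 d β) ≠ 0 ∧
    (l ∣ n → l ∣ d ∧ (n / l).Coprime d ∧ ∃ x : ℤ, 4 * (l : ℤ) ∣ x ^ 2 + (n / l * (d / l) : ℕ)) ∧
    (¬ l ∣ n → d.Coprime (n * l) ∧ (¬ l ∣ 15 → ∃ x : ℤ, 4 * (l : ℤ) ∣ x ^ 2 + (n * d : ℕ)))

theorem gz (hn : Good n) (hρ : 60 ∣ ρ ^ 2 + n) (hT : FReps (-n) ρ T) (hy : ¬ Tors (hP 1 T))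
    (hB : MatchB n ρ T) (hK : GkzOne n ρ T) (hA : AuxDisc n) :
    deriv (fun s => ∑ k ∈ Ico (0 : ℤ) n, (J(k | n) : ℂ) * Ladd k n s) 1 ≠ 0 := fun h0 => by
  have h4 := hn.mod4
  have hs := TYZ.jac15 hn hρ
  have ha := hn.adm
  have r3 := (Gal.not_dvd_r hn hρ).1
  have h15 : ¬ 15 ∣ ρ := fun h => r3 (by omega)
  have a0 := hT.alg_yZ h15 hn.neg n
  refine hy (tq_eq_zero.mp (tq_cancel two_ne_zero ?_))
  rw [← hP_full hn hT, ← hT.tq_yZ hn.neg ha (by simp) hs, tq_eq_zero, tors_iff_u15]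
  refine isOfFinAddOrder_of_hpair a0 (eq_zero_of_mem_LogS fun l hl => ?_)
  obtain ⟨d, β, d1, d2, d3, d4, d5, d6, d7, d8⟩ := hA l hl
  have hd : (0 : ℤ) < d := by omega
  have hD : -(n * d : ℤ) < 0 := neg_neg_of_pos (mul_pos (by omega) hd)
  have hsq : ¬ IsSquare (d : ℤ) := fun h => by
    obtain ⟨r, rfl⟩ := Int.isSquare_natCast_iff.mp h
    simp [Nat.isUnit_iff.mp (d1 r dvd_rfl)] at d4
  have hsq' : ¬ IsSquare (-(n : ℤ) * -(n * d)) := fun h =>
    hsq (isSquare_of_mul_sq (d := n) (by omega) (by convert h using 1; ring))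
  have h15' : ¬ 15 ∣ ρ * (11 * β) := fun h => by
    have h3 : (3 : ℤ) ∣ β := by
      rcases Int.prime_three.dvd_or_dvd ((show (3 : ℤ) ∣ 15 by norm_num).trans h) with h | h
      exacts [absurd h r3, by omega]
    have := dvd_pow h3 two_ne_zero
    exact absurd (Nat.eq_one_of_dvd_coprimes d2 (by omega) (by norm_num : 3 ∣ 30)) (by norm_num)
  obtain ⟨T', hT'⟩ := Gal.exists_hreps _ (ρ * (11 * β)) hD
  replace hT' := hT'.freps
  obtain ⟨x, -, hx, hh⟩ := height_wZ ha hs hT h15 hn.neg (by simp) hT' h15' hD (by simp) hsq'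
  obtain ⟨κ, hκ⟩ := geo_wG (A := 1) odd_one (by simp) hd hsq (11 * β)
  have hg := (geo_line hκ (A := n) (by omega) (Nat.isCoprime_iff_coprime.mpr hn.cop)
    (S := Ico (0 : ℤ) n) (χ := fun k => J(k | n))
    (by rw [sum_Ico_zero, sum_jac_eq_zero hn.sqf ha.odd (by omega)])
    (fun k _ hk => by
      have : NeZero n := ⟨by omega⟩
      exact Int.isCoprime_iff_gcd_eq_one.mpr (not_not.mp (mt jacobiSym.eq_zero_iff_not_coprime.mpr hk)))
    (fun k _ R hR => fval_ne hsq (hκ.disc R hR) (.inr (by omega)))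
    (by rw [sum_Ico_zero]; exact perA_eq_zero hn hs)).2
  rw [h0, mul_zero, Complex.zero_re, zero_sub] at hg
  obtain rfl := tendsto_nhds_unique hx (hg.congr fun ε => tsum_congr fun t => by
    have e : √((-n : ℤ) * (-(n * d) : ℤ) : ℝ) = (n : ℤ) * √((d : ℤ) : ℝ) := by
      rw [← Real.sqrt_sq (x := (n : ℤ)) (by positivity), ← Real.sqrt_mul (sq_nonneg _)]
      congr 1
      push_cast
      ring
    rw [e]
    by_cases h1 : (n : ℤ) ^ 2 * d < (t : ℤ) ^ 2
    · rw [symS, hB d _ _ t hd hT.cj.1 (by omega) h1]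
    · rw [kerK, if_neg, mul_zero, mul_zero]
      rw [← e, not_lt]
      refine div_le_one_of_le₀ (Real.le_sqrt_of_sq_le ?_) (Real.sqrt_nonneg _)
      exact_mod_cast (not_lt.mp h1).trans_eq (show _ = -(n : ℤ) * -(n * d) by ring))
  have hJ : J(15 | n) = 1 := by
    rw [jac_fifteen hs ha.odd, jacobiSym.at_neg_one ha.odd, ZMod.χ₄_nat_three_mod_four h4, neg_neg]
  have ho : Odd d := Nat.odd_iff.mpr (by omega)
  have hZ := Nat.prime_iff_prime_int.mp hl
  obtain ⟨k1, k2⟩ : NoP l (symS T') (wZ n (-(n * d)) (ρ * (11 * β))) (-(n * d)) ∧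
      (J((l : ℤ) | n) = 1 ∨ (l ∣ n ∧ l ∣ d) ∨
        (¬ l ∣ n * d ∧ ∃ x : ℤ, 4 * (l : ℤ) ∣ x ^ 2 + (n * d : ℕ))) := by
    by_cases h1 : l ∣ n
    · obtain ⟨⟨c, rfl⟩, h3, x, h5⟩ := d7 h1
      obtain ⟨m, rfl⟩ := h1
      rw [Nat.mul_div_cancel_left _ hl.pos] at h3 h5
      rw [Nat.mul_div_cancel_left _ hl.pos] at h5
      refine ⟨.inl ⟨fun h => hl.one_lt.ne' (Nat.eq_one_of_dvd_coprimes hn.cop (dvd_mul_right _ _) h),
        l, -(m * c), x, by push_cast; ring, fun h => ?_, by simpa using h5⟩,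
        .inr (.inl ⟨dvd_mul_right _ _, dvd_mul_right _ _⟩)⟩
      rcases hZ.dvd_or_dvd (dvd_neg.mp h) with h | h
      · exact hl.prime.not_isUnit (hn.sqf l (mul_dvd_mul_left _ (mod_cast h)))
      · exact hl.prime.not_isUnit (d1 l (mul_dvd_mul_left _ (mod_cast h)))
    obtain ⟨h2, h3⟩ := d8 h1
    have h5 : ¬ l ∣ n * d := fun h => (hl.dvd_mul.mp h).elim h1 fun h =>
      hl.one_lt.ne' (Nat.eq_one_of_dvd_coprimes h2 h (dvd_mul_left _ _))
    have h6 : ¬ (l : ℤ) ∣ -(n * d) := by rw [dvd_neg]; exact_mod_cast h5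
    by_cases h7 : l ∣ 15
    · exact ⟨hT'.noP h15' h7 h6 (hT'.sum_gch hD ha (by simp) hs fun _ => hsq'), .inl (jac_of_split
        hn hl h1 ((mul_dvd_mul_left 4 (Int.natCast_dvd_natCast.mpr h7)).trans hρ))⟩
    · obtain ⟨x, h8⟩ := h3 h7
      exact ⟨.inl ⟨h7, 1, _, x, by ring, h6, by simpa using h8⟩, .inr (.inr ⟨h5, x, h8⟩)⟩
  have h1 := add_mem (hh l hl (.inr k1)) (LogS.int_mul 2 (log_terms hn hJ d1 ho (11 * β) hl k2))
  obtain ⟨s, hs', h2⟩ := hK d β _ T' hd (by omega) hsq d5 ⟨-4 * ρ * β, by ring⟩ hT'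
  have h3 : Tors (yZ n T' - (s * 2 * th (wG 1 d β) : ℤ) * yZ n T) := by
    rw [← tq_eq, tq_mul, hT.tq_yZ hn.neg ha (by simp) hs, hT'.tq_yZ hD ha (by simp) hs, smul_comm,
      hP_full hn hT, tq_eq.mpr h2, ← tq_mul (s * 2 * _), Int.cast_mul, Int.cast_mul, Int.cast_ofNat]
  rw [tors_iff_u15, map_sub, ← zsmul_eq_mul, map_zsmul] at h3
  have a1 := hT'.alg_yZ h15' hD n
  have h5 := hbil_eq_zero_of_isOfFinAddOrder (P := ⟨_, a1⟩ - (s * 2 * th (wG 1 d β)) • ⟨_, a0⟩)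
    ((Alg W15).subtype_injective.isOfFinAddOrder_iff.mp h3) ⟨_, a0⟩
  rw [map_sub, map_zsmul, AddMonoidHom.sub_apply, AddMonoidHom.zsmul_apply, hbil_apply, hbil_apply,
    sub_eq_zero, hpair_comm, zsmul_eq_mul] at h5
  refine LogS.of_mul (r := (s * 2 * th (wG 1 d β) : ℤ)) (by
    rcases hs' with rfl | rfl <;> simpa using d6) ?_
  convert h1 using 1
  rw [h5]
  push_cast
  ring

end Pool.Agent.Lib.MP_696deb_nt
end
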