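import Pool.Agent.Lib.MP_696deb_nt.ThV2
import Pool.Agent.Lib.MP_696deb_nt.Gz
import Pool.Agent.Lib.MP_696deb_nt.CntS1
import Pool.Agent.Lib.MP_696deb_nt.CntS2

-- part Pool.Agent.Lib.MP_696deb_nt.CntGch
section

/-! Genus characters, weights, the involution at three and systems of representatives. -/

set_option autoImplicit false

open Finset NumberTheorySymbols

namespace Pool.Agent.Lib.MP_696deb_nt

theorem Fam.fbil {D ρ e β : ℤ} {Q R : Fm} (hQ : Fam D ρ Q) (hR : Fam e β R) :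
    30 ∣ fbil Q R - ρ * β ∧ 60 ∣ fbil Q R ^ 2 - D * e := by
  obtain ⟨⟨a, ha⟩, rfl, k, hk⟩ := hQ
  obtain ⟨⟨a', ha'⟩, rfl, k', hk'⟩ := hR
  refine ⟨⟨k * β + Q.2.1 * k' - a * R.2.2 - Q.2.2 * a', ?_⟩,
    ⟨15 * (a * R.2.2 + Q.2.2 * a') ^ 2 - Q.2.1 * R.2.1 * (a * R.2.2 + Q.2.2 * a') +
      Q.2.1 ^ 2 * a' * R.2.2 + R.2.1 ^ 2 * a * Q.2.2 - 60 * a * Q.2.2 * a' * R.2.2, ?_⟩⟩ <;>
    simp only [MP_696deb_nt.fbil, fdisc, ha, ha']
  · linear_combination β * hk + Q.2.1 * hk'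
  · ring

theorem Fam.feq {e β : ℤ} {Q R : Fm} (hQ : Fam e β Q) (h : FEq Q R) : Fam e β R := h.fam hQ

theorem gch_prime {p : ℕ} (hp : p.Prime) (R : Fm) : gch p R = gl p R := by
  rw [gch_eq, hp.primeFactors, prod_singleton]

theorem gch_prime_val {p : ℕ} (hp : p.Prime) (h2 : p ≠ 2) {R : Fm} (hd : (p : ℤ) ∣ fdisc R)
    {x y : ℤ} (h : ¬ (p : ℤ) ∣ fval R x y) : gch p R = J(fval R x y | p) :=
  (gch_prime hp R).trans (gl_fval hp h2 hd h)

theorem gch_mul {A B : ℕ} (h : A.Coprime B) (R : Fm) : gch (A * B) R = gch A R * gch B R := by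
  rw [gch_eq, h.primeFactors_mul, prod_union h.disjoint_primeFactors, gch_eq, gch_eq]

theorem exists_val_coprime {m : ℕ} (hm : m ≠ 0) {R : Fm} (h : ∀ p : ℕ, p.Prime → p ∣ m →
    ¬ ((p : ℤ) ∣ R.1 ∧ (p : ℤ) ∣ R.2.1 ∧ (p : ℤ) ∣ R.2.2)) :
    ∃ x y : ℤ, IsCoprime x y ∧ ∀ p : ℕ, p.Prime → p ∣ m → ¬ (p : ℤ) ∣ fval R x y := by
  have key : ∀ (P : ℕ → Prop) [DecidablePred P] {p : ℕ}, p.Prime →
      ((p : ℤ) ∣ ∏ q ∈ m.primeFactors.filter P, (q : ℤ) ↔ p ∣ m ∧ P p) := fun P _ p hp => by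
    rw [Prime.dvd_finsetProd_iff (Nat.prime_iff_prime_int.mp hp)]
    refine ⟨fun ⟨q, h1, h2⟩ => ?_, fun h => ⟨p, by simp [h, hp, hm], dvd_rfl⟩⟩
    obtain ⟨h3, h4⟩ := mem_filter.mp h1
    obtain rfl := (Nat.prime_dvd_prime_iff_eq hp (Nat.prime_of_mem_primeFactors h3)).mp
      (Int.natCast_dvd_natCast.mp h2)
    exact ⟨Nat.dvd_of_mem_primeFactors h3, h4⟩
  refine ⟨∏ q ∈ m.primeFactors.filter fun q : ℕ => (q : ℤ) ∣ R.1 ∧ ¬ (q : ℤ) ∣ R.2.2, (q : ℤ),
    ∏ q ∈ m.primeFactors.filter fun q : ℕ => ¬ (q : ℤ) ∣ R.1, (q : ℤ), ?_, fun p hp hpm => ?_⟩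
  · refine Int.isCoprime_iff_gcd_eq_one.mpr (Nat.eq_one_iff_not_exists_prime_dvd.mpr fun p hp k => ?_)
    replace k := Int.natCast_dvd_natCast.mpr k
    exact ((key _ hp).mp (k.trans (Int.gcd_dvd_right _ _))).2
      ((key _ hp).mp (k.trans (Int.gcd_dvd_left _ _))).2.1
  have h1 := key (fun q : ℕ => (q : ℤ) ∣ R.1 ∧ ¬ (q : ℤ) ∣ R.2.2) hp
  have h2 := key (fun q : ℕ => ¬ (q : ℤ) ∣ R.1) hp
  have h3 := h p hp hpm
  have := Fact.mk hp
  simp only [← ZMod.intCast_zmod_eq_zero_iff_dvd, fval, hpm, true_and] at h1 h2 h3 ⊢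
  push_cast at h1 h2 ⊢
  by_cases ha : (R.1 : ZMod p) = 0 <;> by_cases hc : (R.2.2 : ZMod p) = 0 <;> simp_all

theorem gch_full {A : ℕ} (hA : Squarefree A) {R : Fm}
    (h : fdisc R = A ∨ (fdisc R = -A ∧ 0 < R.1)) (h2 : Odd A) : gch A R = 1 := by
  have hd : (A : ℤ) ∣ fdisc R := by rcases h with h | h <;> simp [h]
  have hd' : fdisc R ∣ A := by rcases h with h | h <;> simp [h]
  have ho := Nat.odd_iff.mp h2
  obtain ⟨x, y, ⟨z, w, e⟩, hv⟩ := exists_val_coprime (m := 2 * A) (R := R)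
    (by omega) fun p hp hm ⟨h1, h3, h4⟩ => by
      have h5 : (p : ℤ) * p ∣ A := Dvd.dvd.trans (dvd_sub (by rw [sq]; exact mul_dvd_mul h3 h3)
        (by rw [mul_assoc]; exact (mul_dvd_mul h1 h4).mul_left _)) hd'
      exact hp.not_isUnit (hA p (by exact_mod_cast h5))
  have e' : x * z - -w * y = 1 := by linear_combination e
  have h3 := fdisc_fmap e' R
  have h4 : fdisc R = -A ∧ 0 < R.1 → 0 < (fmap R x (-w) y z).1 := fun k =>
    fmap_pos e' (by omega) k.2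
  change ∀ p : ℕ, _ → _ → ¬ _ ∣ (fmap R x (-w) y z).1 at hv
  rw [← gch_fmap h2 hd e', gch, prod_congr rfl fun p hp => if_neg (hv p
    (Nat.prime_of_mem_primeFactors hp) ((Nat.dvd_of_mem_primeFactors hp).mul_left 2)),
    ← jac_eq_prod _ hA]
  generalize fmap R x (-w) y z = P at *
  have h5 : Odd P.1.natAbs := by have := hv 2 Nat.prime_two (by simp); rw [Nat.odd_iff]; omega
  have h6 : J(fdisc R | P.1.natAbs) = 1 := by
    rw [← h3, jacobiSym.mod_left' (a₂ := P.2.1 ^ 2) (Int.modEq_iff_dvd.mpr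
      (Int.natAbs_dvd.mpr ⟨4 * P.2.2, by rw [fdisc]; ring⟩))]
    refine jacobiSym.sq_one' (Nat.eq_one_iff_not_exists_prime_dvd.mpr fun p hp k => ?_)
    replace k := Int.natCast_dvd_natCast.mpr k
    have k1 := (k.trans (Int.gcd_dvd_right _ _)).trans (Int.natAbs_dvd.mpr dvd_rfl)
    refine hv p hp (Dvd.dvd.mul_left (Int.natCast_dvd_natCast.mp (Dvd.dvd.trans ?_ hd')) 2) k1
    exact h3 ▸ dvd_sub (dvd_pow (k.trans (Int.gcd_dvd_left _ _)) two_ne_zero)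
      ((k1.mul_left _).mul_right _)
  have h7 : fdisc R % 4 = 0 ∨ fdisc R % 4 = 1 := by
    rw [fdisc, mul_assoc, Int.sub_mul_emod_self_left, sq, Int.mul_emod]
    have : R.2.1 % 4 = 0 ∨ R.2.1 % 4 = 1 ∨ R.2.1 % 4 = 2 ∨ R.2.1 % 4 = 3 := by omega
    rcases this with k | k | k | k <;> simp [k]
  rcases h with h | h
  · have h8 : A % 4 = 1 := by omega
    rw [h, jacobiSym.quadratic_reciprocity_one_mod_four h8 h5] at h6
    rcases Int.natAbs_eq P.1 with k | k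
    · rwa [k]
    · rw [k, jacobiSym.neg _ h2, ZMod.χ₄_nat_one_mod_four h8, one_mul, h6]
  · rwa [h.1, Tern.jacobi_neg_swap (by omega) h5, Int.natAbs_of_nonneg (h4 h).le] at h6

theorem gch_swap {A B : ℕ} (hn : Squarefree (A * B)) (h2 : Odd (A * B)) {R : Fm}
    (h : fdisc R = (A * B : ℕ) ∨ (fdisc R = -(A * B : ℕ) ∧ 0 < R.1)) : gch A R = gch B R := by
  have := gch_full hn h h2
  rw [gch_mul (Nat.coprime_of_squarefree_mul hn)] at this
  rcases Int.eq_one_or_neg_one_of_mul_eq_one' this with k | k <;> rw [k.1, k.2]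

theorem hil_eq_gch {n p : ℕ} (hn : Good n) (hp : p ∈ n.primeFactors) {Q : Fm}
    (hd : fdisc Q = -n) : hil n p Q.2.2 = gch p Q := by
  rw [← gch_eq_hilS hn (Nat.dvd_of_mem_primeFactors hp) hd, hilS,
    (Nat.prime_of_mem_primeFactors hp).primeFactors, prod_singleton]

theorem wt_wZ {B : ℕ} (hB : Odd B) {D : ℤ} (hD : D < 0) (he : (B : ℤ) ∣ D) (ρ : ℤ) :
    Wt (wZ B D ρ) D := wZ_wt hB he hD

theorem exists_freps {D : ℤ} (hD : D < 0) (β : ℤ) : ∃ T, FReps D β T :=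
  (Gal.exists_hreps D β hD).imp fun _ h => h.freps

theorem aut_eqs {Q : Fm} {a b c d : ℤ} (h : a * d - b * c = 1) (e : fmap Q a b c d = Q) :
    Q.1 * (a - d) = -(Q.2.1 * c) ∧ Q.1 * b = -(Q.2.2 * c) ∧ Q.2.2 * (a - d) = Q.2.1 * b ∧
      Q.1 ^ 2 * ((a + d) ^ 2 - 4) = fdisc Q * c ^ 2 := by
  obtain ⟨A, B, C⟩ := Q
  simp only [fmap, fval, Prod.mk.injEq] at e
  obtain ⟨e1, e2, e3⟩ := e
  have h1 : 2 * (A * (a - d)) = 2 * -(B * c) := by
    linear_combination 2 * d * e1 - c * e2 - (2 * A * a + B * c) * h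
  have h2 : 2 * (A * b) = 2 * -(C * c) := by
    linear_combination d * e2 - 2 * c * e3 - (2 * A * b + B * d) * h
  have h3 : 2 * (C * (a - d)) = 2 * (B * b) := by
    linear_combination b * e2 - 2 * a * e3 + (B * b + 2 * C * d) * h
  have h4 : A * (a - d) = -(B * c) := by omega
  have h5 : A * b = -(C * c) := by omega
  refine ⟨h4, h5, by dsimp only; omega, ?_⟩
  simp only [fdisc]
  linear_combination (A * (a - d) - B * c) * h4 + 4 * A * c * h5 + 4 * A ^ 2 * h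

theorem free_of_neg {Q : Fm} (hD : fdisc Q < 0) {a b c d : ℤ} (h : a * d - b * (15 * c) = 1)
    (e : fmap Q a b (15 * c) d = Q) : b = 0 ∧ c = 0 := by
  obtain ⟨-, h2, -, h4⟩ := aut_eqs h e
  have h0 : Q.1 ≠ 0 := fun k => by
    rw [fdisc, k] at hD
    nlinarith [sq_nonneg Q.2.1]
  have hc : c = 0 := by
    by_contra hc
    have h5 : (a + d) ^ 2 < 4 := by
      have : 0 < (15 * c) ^ 2 := by positivity
      have : 0 < Q.1 ^ 2 := by positivity
      nlinarith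
    obtain ⟨t, rfl⟩ : ∃ t, d = t - a := ⟨a + d, by ring⟩
    have h6 : t = 0 ∨ t = 1 ∨ t = -1 := by
      have : -2 < t ∧ t < 2 := by constructor <;> nlinarith
      omega
    have h7 := congr_arg (Int.cast : ℤ → ZMod 15) h
    push_cast at h7
    rw [show (15 : ZMod 15) = 0 from rfl, zero_mul, mul_zero, sub_zero] at h7
    generalize (a : ZMod 15) = x at h7
    rcases h6 with rfl | rfl | rfl <;> revert x <;> decide
  exact ⟨by simpa [hc, h0] using h2, hc⟩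

theorem free_of_sq {Q : Fm} {A : ℤ} (hA : A ≠ 0) (hD : fdisc Q = A ^ 2) {a b c d : ℤ}
    (h : a * d - b * c = 1) (e : fmap Q a b c d = Q) : b = 0 ∧ c = 0 := by
  obtain ⟨h1, h2, h3, h4⟩ := aut_eqs h e
  have h0 : Q.1 = 0 → Q.2.1 ≠ 0 := fun k k' => hA (by simpa [fdisc, k, k'] using hD.symm)
  obtain rfl : c = 0 := by
    by_cases k : Q.1 = 0
    · simpa [k, h0 k] using h1
    rw [hD, ← mul_pow] at h4
    obtain ⟨s, hs⟩ := (Int.pow_dvd_pow_iff two_ne_zero).mp ⟨_, h4.symm⟩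
    rw [hs, mul_pow] at h4
    have h5 := mul_left_cancel₀ (pow_ne_zero 2 k) h4
    rw [← sq_abs (a + d), ← sq_abs s] at h5
    have h6 := abs_nonneg s
    have h7 : |s| < |a + d| := by nlinarith [abs_nonneg (a + d)]
    have h8 : |s| ≤ 1 := by nlinarith
    have h9 : |a + d| ≤ 2 := by nlinarith
    obtain rfl : s = 0 := abs_eq_zero.mp (by nlinarith)
    simpa [hA] using hs
  refine ⟨?_, rfl⟩
  by_contra hb
  have h5 : a = d := by
    rcases Int.eq_one_or_neg_one_of_mul_eq_one' (show a * d = 1 by simpa using h) with k | k <;> omega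
  exact h0 (by simpa [hb] using h2) (by simpa [h5, hb] using h3)

theorem sum_finsum_eq {α β V : Type*} [AddCommMonoid V] {S : Finset α} {F : α → β → V}
    {X : Finset (α × β)} (hX : ∀ p ∈ X, p.1 ∈ S) (h : ∀ a ∈ S, ∀ b, F a b ≠ 0 → (a, b) ∈ X) :
    ∑ a ∈ S, ∑ᶠ b, F a b = ∑ p ∈ X, F p.1 p.2 := by
  classical
  rw [sum_congr rfl fun a ha => finsum_eq_sum_of_support_subset (s := X.image Prod.snd) _
    fun b hb => mem_coe.mpr (mem_image_of_mem Prod.snd (h a ha b hb)), ← sum_product']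
  exact (sum_subset (fun p hp => mem_product.mpr ⟨hX p hp, mem_image_of_mem _ hp⟩)
    fun p hp k => not_not.mp (mt (h _ (mem_product.mp hp).1 _) k)).symm

/-- Simultaneous equivalence of pairs of forms. -/
def PEq (p q : Fm × Fm) : Prop := ∃ a b c d : ℤ, a * d - b * (15 * c) = 1 ∧
  q.1 = fmap p.1 a b (15 * c) d ∧ q.2 = fmap p.2 a b (15 * c) d

theorem PEq.symm {p q : Fm × Fm} (h : PEq p q) : PEq q p := by
  obtain ⟨a, b, c, d, h, h1, h2⟩ := h
  exact ⟨d, -b, -c, a, by linear_combination h, by rw [h1, mul_neg, fmap_inv h],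
    by rw [h2, mul_neg, fmap_inv h]⟩

theorem PEq.trans {p q r : Fm × Fm} (h : PEq p q) (h' : PEq q r) : PEq p r := by
  obtain ⟨a, b, c, d, h, h1, h2⟩ := h
  obtain ⟨a', b', c', d', h', h1', h2'⟩ := h'
  refine ⟨a * a' + b * (15 * c'), a * b' + b * d', c * a' + d * c', 15 * c * b' + d * d',
    by linear_combination (a' * d' - b' * (15 * c')) * h + h', ?_, ?_⟩
  · rw [h1', h1, fmap_fmap]; congr 1; ring
  · rw [h2', h2, fmap_fmap]; congr 1; ring

theorem PEq.swap {p q : Fm × Fm} (h : PEq p q) : PEq p.swap q.swap := by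
  obtain ⟨a, b, c, d, h, h1, h2⟩ := h
  exact ⟨a, b, c, d, h, h2, h1⟩

theorem Sys.ex_pair {S : Finset Fm} {m : Fm → ℤ} (hS : Sys S m) {p : Fm × Fm} (h : m p.1 ≠ 0) :
    ∃ q : Fm × Fm, q.1 ∈ S ∧ PEq q p := by
  obtain ⟨Q, hQ, a, b, c, d, e, k⟩ := hS.ex _ h
  exact ⟨(Q, fmap p.2 d (-b) (-(15 * c)) a), hQ, a, b, c, d, e, k, (fmap_inv' e _).symm⟩

theorem Sys.uniq_pair {S : Finset Fm} {m : Fm → ℤ} (hS : Sys S m) {p q : Fm × Fm} (h : m p.1 ≠ 0)
    (hp : p.1 ∈ S) (hq : q.1 ∈ S) (e : PEq p q) : p = q := by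
  obtain ⟨a, b, c, d, e, h1, h2⟩ := e
  have h3 := hS.uniq _ hp _ hq ⟨a, b, c, d, e, h1⟩
  obtain ⟨rfl, rfl⟩ := hS.free _ hp h a b c d e (h1.symm.trans h3.symm)
  refine Prod.ext h3 ?_
  rcases Int.eq_one_or_neg_one_of_mul_eq_one' (show a * d = 1 by simpa using e) with k | k <;>
    simp [h2, k, fmap, fval]

theorem cnt_swap {V : Type*} [AddCommGroup V] {S T : Finset Fm} {m w : Fm → ℤ} (hS : Sys S m)
    (hT : Sys T w) (g : Fm → Fm → V)
    (hg : ∀ Q R a b c d, a * d - b * (15 * c) = 1 →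
      g (fmap Q a b (15 * c) d) (fmap R a b (15 * c) d) = g Q R)
    (h1 : ∀ Q ∈ S, m Q ≠ 0 → {R | w R ≠ 0 ∧ g Q R ≠ 0}.Finite) :
    ∑ Q ∈ S, ∑ᶠ R : Fm, (m Q * w R) • g Q R = ∑ R ∈ T, ∑ᶠ Q : Fm, (m Q * w R) • g Q R := by
  let P : Fm × Fm → Prop := fun p => m p.1 ≠ 0 ∧ w p.2 ≠ 0 ∧ g p.1 p.2 ≠ 0
  have hP : ∀ {p q}, PEq p q → m q.1 = m p.1 ∧ w q.2 = w p.2 ∧ g q.1 q.2 = g p.1 p.2 := by
    rintro p q ⟨a, b, c, d, e, k1, k2⟩
    exact ⟨hS.inv _ _ ⟨a, b, c, d, e, k1⟩, hT.inv _ _ ⟨a, b, c, d, e, k2⟩, by rw [k1, k2, hg _ _ _ _ _ _ e]⟩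
  have hP' : ∀ {p q}, PEq p q → P p → P q := fun e h => by
    simp only [P, (hP e).1, (hP e).2.1, (hP e).2.2]; exact h
  have h0 : ∀ Q R, (m Q * w R) • g Q R ≠ 0 → P (Q, R) := fun Q R h =>
    ⟨fun k => h (by simp [show m Q = 0 from k]), fun k => h (by simp [show w R = 0 from k]),
      fun k => h (by simp [show g Q R = 0 from k])⟩
  have hX : {p : Fm × Fm | p.1 ∈ S ∧ P p}.Finite := by
    refine ((S.filter fun Q => m Q ≠ 0).finite_toSet.biUnion fun Q hQ => (h1 Q (mem_filter.mp hQ).1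
      (mem_filter.mp hQ).2).image (Prod.mk Q)).subset fun p hp => ?_
    exact Set.mem_biUnion (x := p.1) (mem_filter.mpr ⟨hp.1, hp.2.1⟩) ⟨p.2, hp.2.2, rfl⟩
  choose! φ φ1 φ2 using fun (p : Fm × Fm) (hp : P p) => hT.ex_pair (p := p.swap) hp.2.1
  have hb : Set.BijOn φ {p | p.1 ∈ S ∧ P p} {q | q.1 ∈ T ∧ P q.swap} := by
    refine ⟨fun p hp => ⟨φ1 p hp.2, hP' (φ2 p hp.2).swap.symm hp.2⟩, fun p hp q hq e =>
      hS.uniq_pair hp.2.1 hp.1 hq.1 ((φ2 p hp.2).swap.symm.trans (e ▸ (φ2 q hq.2).swap)),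
      fun q hq => ?_⟩
    obtain ⟨p, k1, k2⟩ := hS.ex_pair (p := q.swap) hq.2.1
    have k3 := hP' k2.symm hq.2
    exact ⟨p, ⟨k1, k3⟩, (hT.uniq_pair hq.2.2.1 hq.1 (φ1 p k3)
      (k2.swap.symm.trans (φ2 p k3).symm)).symm⟩
  have hY := hb.image_eq ▸ hX.image φ
  rw [sum_finsum_eq (X := hX.toFinset) (fun p hp => (hX.mem_toFinset.mp hp).1)
      fun Q hQ R h => hX.mem_toFinset.mpr ⟨hQ, h0 Q R h⟩,
    sum_finsum_eq (X := hY.toFinset) (fun p hp => (hY.mem_toFinset.mp hp).1)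
      fun R hR Q h => hY.mem_toFinset.mpr ⟨hR, h0 Q R h⟩]
  refine sum_nbij φ (fun p hp => hY.mem_toFinset.mpr (hb.mapsTo (hX.mem_toFinset.mp hp)))
    (by simpa using hb.injOn) (by simpa using hb.surjOn) fun p hp => ?_
  obtain ⟨k1, k2, k3⟩ := hP (φ2 p (hX.mem_toFinset.mp hp).2).swap
  exact congr_arg₂ _ (congr_arg₂ _ k1 k2) k3

theorem fW_eq (a b c : ℤ) :
    fW (15 * a, b, c) = (15 * (12 * a + 2 * b + 5 * c), 60 * a + 11 * b + 30 * c, 5 * a + b + 3 * c) := by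
  simp only [fW, Prod.mk.injEq]
  omega

theorem fW_disc {R : Fm} (h : 15 ∣ R.1) : fdisc (fW R) = fdisc R := by
  obtain ⟨_, b, c⟩ := R
  obtain ⟨a, rfl⟩ := h
  simp only [fW_eq, fdisc]; ring

theorem fW_lev {R : Fm} (h : 15 ∣ R.1) : 15 ∣ (fW R).1 := by
  simp only [fW]; omega

theorem fW_fam {e β : ℤ} {R : Fm} (h : Fam e β R) : Fam e (11 * β) (fW R) := by
  refine ⟨fW_lev h.1, (fW_disc h.1).trans h.2.1, ?_⟩
  have h1 := h.1
  have h2 := h.2.2
  simp only [fW]; omega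

theorem fval_fW {R : Fm} (h : 15 ∣ R.1) (x y : ℤ) :
    3 * fval (fW R) x y = fval R (6 * x + y) (15 * x + 3 * y) := by
  obtain ⟨_, b, c⟩ := R
  obtain ⟨a, rfl⟩ := h
  simp only [fW_eq, fval]; ring

theorem fW_gch {A : ℕ} (hA : Squarefree A) (hc : A.Coprime 30) {R : Fm} (h : 15 ∣ R.1)
    (hd : (A : ℤ) ∣ fdisc R) : gch A (fW R) = J(3 | A) * gch A R := by
  rw [gch_eq, gch_eq, jac_eq_prod _ hA, ← prod_mul_distrib]
  refine prod_congr rfl fun p hp => ?_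
  have h1 := Nat.prime_of_mem_primeFactors hp
  have h2 : ¬ p ∣ 30 := fun k => h1.not_dvd_one (hc ▸ Nat.dvd_gcd (Nat.dvd_of_mem_primeFactors hp) k)
  have h3 : ¬ (p : ℤ) ∣ 3 := fun k => h2 ((Int.natCast_dvd_natCast.mp k).mul_left 10)
  refine gl_of_vals h1 (by rintro rfl; simp at h2) (dvd_of_mem hd hp)
    (fW_disc h ▸ dvd_of_mem hd hp) h3 (fun x y => ⟨3 * x - y, -15 * x + 6 * y, 0, ?_⟩) fun h0 x y =>
      ((Nat.prime_iff_prime_int.mp h1).dvd_or_dvd (fval_fW h x y ▸ h0 _ _)).resolve_left h3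
  have := fval_fW h (3 * x - y) (-15 * x + 6 * y)
  simp only [fval] at this ⊢
  linarith

theorem fW_fbil {Q R : Fm} (hQ : 15 ∣ Q.1) (hR : 15 ∣ R.1) : fbil (fW Q) (fW R) = fbil Q R := by
  obtain ⟨_, b, c⟩ := Q
  obtain ⟨a, rfl⟩ := hQ
  obtain ⟨_, b', c'⟩ := R
  obtain ⟨a', rfl⟩ := hR
  simp only [fW_eq, fbil]; ring

theorem fW_fW {R : Fm} (h : 15 ∣ R.1) : fW (fW R) = fmap R 17 3 (15 * 3) 8 := by
  obtain ⟨_, b, c⟩ := R
  obtain ⟨a, rfl⟩ := h
  simp only [fW_eq, fmap, fval, Prod.mk.injEq]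
  omega

theorem feq_fW_fW {R : Fm} (h : 15 ∣ R.1) : FEq R (fW (fW R)) := ⟨17, 3, 3, 8, rfl, fW_fW h⟩

theorem fW_fmap {R : Fm} (h : 15 ∣ R.1) {a b c d : ℤ} (e : a * d - b * (15 * c) = 1) :
    fW (fmap R a b (15 * c) d) = fmap (fW R) (6 * a + 15 * b - 30 * c - 5 * d) (a + 3 * b - 5 * c - d)
      (15 * (-2 * a - 5 * b + 12 * c + 2 * d)) (-5 * a - 15 * b + 30 * c + 6 * d) := by
  have _ := e
  obtain ⟨_, B, C⟩ := R
  obtain ⟨A, rfl⟩ := h
  rw [show fmap (15 * A, B, C) a b (15 * c) d = (15 * (A * a ^ 2 + B * a * c + 15 * C * c ^ 2),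
    (fmap (15 * A, B, C) a b (15 * c) d).2) from Prod.ext (by simp only [fmap, fval]; ring) rfl]
  simp only [fW_eq, fmap, fval, Prod.mk.injEq]
  refine ⟨?_, ?_, ?_⟩ <;> ring

theorem FEq.fW {Q R : Fm} (h : FEq Q R) (hQ : 15 ∣ Q.1) : FEq (fW Q) (fW R) := by
  obtain ⟨a, b, c, d, e, rfl⟩ := h
  exact ⟨_, _, _, _, by linear_combination e, fW_fmap hQ e⟩

theorem fW_pos {Q : Fm} (hD : fdisc Q < 0) (h : 15 ∣ Q.1) (h0 : 0 < Q.1) : 0 < (fW Q).1 := by
  have h1 := fval_fW h 1 0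
  have h2 := four_mul_fval Q 6 15
  simp only [fval] at h1 h2
  nlinarith [sq_nonneg (2 * Q.1 * 6 + Q.2.1 * 15)]

theorem fW_freps {D β : ℤ} (hD : D < 0) {T : Finset Fm} (h : FReps D β T) :
    FReps D (11 * β) (T.image fW) := by
  refine ⟨forall_mem_image.mpr fun Q hQ => fW_fam (h.fam Q hQ), forall_mem_image.mpr fun Q hQ =>
    fW_pos ((h.fam Q hQ).2.1 ▸ hD) (h.fam Q hQ).1 (h.pos Q hQ), fun Q h1 h2 => ?_, ?_⟩
  · have h3 := fW_fam h1
    obtain ⟨R, hR, e⟩ := h.ex (fW Q) ⟨h3.1, h3.2.1, by have := h3.2.2; omega⟩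
      (fW_pos (h1.2.1 ▸ hD) h1.1 h2)
    exact ⟨fW R, mem_image_of_mem _ hR, (e.fW (h.fam R hR).1).trans (feq_fW_fW h1.1).symm⟩
  · simp only [forall_mem_image]
    intro Q hQ R hR e
    rw [h.uniq Q hQ R hR (((feq_fW_fW (h.fam Q hQ).1).trans (e.fW (fW_lev (h.fam Q hQ).1))).trans
      (feq_fW_fW (h.fam R hR).1).symm)]

/-- the lines `k / A` represent the split family -/
theorem sys_lines {A : ℕ} (hA : 0 < A) (hc : A.Coprime 15) {m : Fm → ℤ}
    (hm : ∀ Q R, FEq Q R → m R = m Q) (hs : ∀ R, m R ≠ 0 → Fam (A ^ 2) A R) :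
    Sys ((Ico (0 : ℤ) A).image fun k => ((0, A, -k) : Fm)) m := by
  have A0 : (0 : ℤ) < A := by exact_mod_cast hA
  have hc' : IsCoprime (15 : ℤ) (2 * A) :=
    IsCoprime.mul_right (by norm_num) (Nat.isCoprime_iff_coprime.mpr hc.symm)
  refine ⟨hm, fun R hR => ?_, ?_, fun Q hQ h a b c d e k => ?_⟩
  · obtain ⟨⟨a, ha⟩, h2, l, hl⟩ := hs R hR
    rw [fdisc] at h2
    have h3 : R.2.1 + A ≠ 0 := fun k =>
      absurd (hc'.isUnit_of_dvd ⟨-2 * l, by omega⟩) (by decide)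
    obtain ⟨g, x, y, g0, hxy, hx, hy⟩ := Int.exists_gcd_one' (m := R.2.1 + A) (n := -(2 * R.1))
      (Int.gcd_pos_of_ne_zero_left _ h3)
    obtain ⟨z, w, e⟩ := Int.isCoprime_iff_gcd_eq_one.mpr hxy
    have g0' : (g : ℤ) ≠ 0 := by exact_mod_cast g0.ne'
    have k1 : 2 * R.1 * x + (R.2.1 + A) * y = 0 :=
      mul_right_cancel₀ g0' (by linear_combination -2 * R.1 * hx - (R.2.1 + A) * hy)
    have k2 : (R.2.1 - A) * x + 2 * R.2.2 * y = 0 :=
      mul_right_cancel₀ g0' (by linear_combination -(R.2.1 - A) * hx - 2 * R.2.2 * hy + h2)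
    obtain ⟨y, rfl⟩ : 15 ∣ y := hc'.dvd_of_dvd_mul_left ⟨-2 * (a * x + l * y), by
      linear_combination k1 - 2 * x * ha - y * hl⟩
    have e' : x * z - -w * (15 * y) = 1 := by linear_combination e
    set C := fval R (-w) z
    have k3 : fmap R x (-w) (15 * y) z = (0, (A : ℤ), C) := by
      refine Prod.ext (mul_left_cancel₀ two_ne_zero ?_) (Prod.ext ?_ rfl) <;> simp only [fmap, fval]
      · linear_combination x * k1 + 15 * y * k2
      · linear_combination (-w) * k1 + z * k2 + A * e'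
    refine ⟨(0, A, -(-C % A)), mem_image.mpr ⟨_, mem_Ico.mpr
      ⟨Int.emod_nonneg _ A0.ne', Int.emod_lt_of_pos _ A0⟩, rfl⟩, FEq.symm
      (FEq.trans ⟨x, -w, y, z, e', k3.symm⟩ ⟨1, -C / A, 0, 1, by simp, ?_⟩)⟩
    simp only [fmap, fval, Prod.mk.injEq, Int.emod_def]
    refine ⟨?_, ?_, ?_⟩ <;> ring
  · simp only [forall_mem_image, mem_Ico]
    rintro k hk k' hk' ⟨x, w, y, z, e, h⟩
    simp only [fmap, fval, Prod.mk.injEq] at h
    obtain ⟨h1, h2, h3⟩ := h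
    obtain rfl : y = 0 := by
      by_contra hy
      have k1 : A * x = k * (15 * y) := mul_left_cancel₀ hy (by linarith)
      have k2 : A * w = k * z := mul_left_cancel₀ hy (by nlinarith)
      exact A0.ne' (by linear_combination -A * e + z * k1 - 15 * y * k2)
    have h4 : z ^ 2 = 1 := by
      rcases Int.eq_one_or_neg_one_of_mul_eq_one' (show x * z = 1 by simpa using e) with k | k <;>
        simp [k.2]
    have h5 : (A : ℤ) ∣ k - k' := ⟨w * z, by linear_combination h3 - k * h4⟩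
    rw [sub_eq_zero.mp (Int.eq_zero_of_abs_lt_dvd h5 (abs_lt.mpr ⟨by omega, by omega⟩))]
  · have := free_of_sq A0.ne' (hs Q h).2.1 e k
    omega

end Pool.Agent.Lib.MP_696deb_nt
end

-- part Pool.Agent.Lib.MP_696deb_nt.CntMatchB
section

/-! The counts of pairs of points and of pairs of geodesics agree. -/

open Finset NumberTheorySymbols

namespace Pool.Agent.Lib.MP_696deb_nt

variable {n : ℕ} {d ρ β t e : ℤ} {Q R : Fm} {T T' : Finset Fm}

lemma finite_fbil (hD : fdisc Q < 0) (hQ : 0 < Q.1) (he : e < 0) (t : ℤ) :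
    {R : Fm | fdisc R = e ∧ fbil Q R = t}.Finite := by
  have h1 := im_froot_pos hD hQ
  refine (finite_side e h1 |-t / √(-fdisc Q : ℝ) * (froot Q).im|).subset fun R ⟨h2, h3⟩ =>
    ⟨h2, fun h4 => ?_, ?_⟩
  · simp only [fdisc, h4] at h2
    nlinarith [sq_nonneg R.2.1]
  · rw [← h3, ← fside_froot hD hQ, div_mul_cancel₀ _ h1.ne']

lemma pos_of_fbil (hD : fdisc Q < 0) (hQ : 0 < Q.1) (he : fdisc R < 0) (h : fbil Q R ≤ 0) :
    0 < R.1 := by
  by_contra! h1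
  have h2 := fside_froot hD hQ R
  have h3 := four_mul_fside R (froot Q)
  have h4 := im_froot_pos hD hQ
  have h5 : 0 ≤ fside R (froot Q) := by
    rw [div_eq_iff h4.ne'] at h2
    have : (0 : ℝ) ≤ -fbil Q R := by exact_mod_cast neg_nonneg.mpr h
    rw [h2]
    positivity
  have h6 : (R.1 : ℝ) < 0 := by
    refine mod_cast h1.lt_of_ne fun h7 => ?_
    simp only [fdisc, h7] at he
    nlinarith [sq_nonneg R.2.1]
  have h7 : (fdisc R : ℝ) < 0 := mod_cast he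
  nlinarith [sq_nonneg (2 * R.1 * (froot Q).re + R.2.1), mul_pos_of_neg_of_neg h6 h6, mul_pos h4 h4,
    mul_pos (mul_pos_of_neg_of_neg h6 h6) (mul_pos h4 h4)]

lemma cntP_wZ (hn : Good n) {D : ℤ} (hD : D < 0) (hT : FReps D ρ T) (he : e < 0) (ht : t ≤ 0)
    (m : Fm → ℤ) : cntP T m (wZ n e β) t = cntP T m (wG n e β) t - cntP T m (wG n e (-β)) t := by
  rw [cntP, cntP, cntP, ← sum_sub_distrib]
  refine sum_congr rfl fun Q hQ => ?_
  have h1 : fdisc Q < 0 := (hT.fam Q hQ).2.1 ▸ hD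
  have h2 : ∀ β, (Function.support fun R => if fbil Q R = t then wG n e β R else 0).Finite :=
    fun β => (finite_fbil h1 (hT.pos Q hQ) he t).subset fun R hR => by
      have h3 : fbil Q R = t := by_contra fun h => hR (if_neg h)
      exact ⟨(fam_of_wG fun h => hR ((if_pos h3).trans h)).2.1, h3⟩
  rw [← mul_sub, ← finsum_sub_distrib (h2 _) (h2 _)]
  refine congr_arg _ (finsum_congr fun R => ?_)
  split_ifs with h3
  swap
  · rfl
  rw [wZ, jacobiSym.at_neg_one hn.adm.odd, ZMod.χ₄_nat_three_mod_four hn.mod4]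
  split_ifs with h4
  · ring
  have h5 : ∀ β, wG n e β R = 0 := fun β =>
    if_neg fun h : Fam _ _ _ => h4 (pos_of_fbil h1 (hT.pos Q hQ) (h.2.1 ▸ he) (h3 ▸ ht))
  rw [h5, h5, sub_zero]

lemma muW_neg_neg (hn : Good n) (t a e : ℤ) : muW n 1 t (-a) (-e) = -muW n 1 t a e := by
  have h : J(-1 | n) = -1 := by
    rw [jacobiSym.at_neg_one hn.adm.odd, ZMod.χ₄_nat_three_mod_four hn.mod4]
  rw [muW_one, muW_one, ← neg_one_mul (∏ _ ∈ _, _), ← h, jac_eq_prod _ hn.sqf, ← prod_mul_distrib]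
  refine prod_congr rfl fun p hp => ?_
  have h1 := Nat.prime_of_mem_primeFactors hp
  simpa using muP_scale h1 (c := -1) (by rw [dvd_neg]; exact_mod_cast h1.not_dvd_one) t a (-e)

lemma muW_neg_left (n : ℕ) (t a e : ℤ) : muW n 1 (-t) a e = muW n 1 t (-a) (-e) := by
  rw [muW_one, muW_one]
  refine prod_congr rfl fun p hp => ?_
  have := Fact.mk (Nat.prime_of_mem_primeFactors hp)
  by_cases h : (p : ℤ) ∣ t ∧ (p : ℤ) ∣ a ∧ (p : ℤ) ∣ e
  · obtain ⟨⟨t, rfl⟩, ⟨a, rfl⟩, e, rfl⟩ := h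
    simp only [← mul_neg, muP_mul, Int.cast_neg]
    exact sum_congr rfl fun k _ => if_congr (neg_inj.symm.trans (Eq.congr (by ring) neg_zero)) rfl rfl
  · simp only [muP, dvd_neg, mul_neg, neg_mul]
    split_ifs with h1 h2
    exacts [absurd ⟨h1, h2⟩ h, rfl, rfl]

lemma cntL_eq (hn : Good n) (hs : J(-15 | n) = -1) {M : ℕ} (h0 : 0 < M)
    (hM : t ^ 2 - n ^ 2 * d = 60 * M) : cntL n (Ico (0 : ℤ) n) (fun k => J(k | n)) (wG 1 d β) t =
      if 30 ∣ t - n * β then -2 * CF n n t M else 0 := by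
  split_ifs with h
  swap
  · exact sum_eq_zero fun k _ => mul_eq_zero_of_right _ (finsum_eq_zero_of_forall_eq_zero fun R =>
      ite_eq_right_iff.mpr fun h3 => by rw [wG_eq_zero h h3, zero_mul])
  have h1 := sum_lines (K := ℤ) (A := n) (B := 1) (by simpa using hn) (by simp) hM.symm (by omega) h
    fun a _ => a.sign
  have h2 := sum_muW (A := n) (B := 1) (t := t) (M := M) (by simpa using hn) ⟨d, by linarith⟩
  rw [Int.divisorsAntidiag_natCast, sum_disjUnion, sum_map, sum_map, ← sum_add_distrib,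
    sum_congr rfl (g := fun x : ℕ × ℕ => 2 * muW n 1 t x.1 x.2) fun x hx => by
      have : (0 : ℤ) < x.1 := mod_cast Nat.pos_of_mem_divisors
        (Nat.fst_mem_divisors_of_mem_antidiagonal hx)
      simp [muW_neg_neg hn, Int.sign_eq_one_of_pos this, two_mul], ← mul_sum, h2, hs] at h1
  rw [cntL, sum_Ico_zero]
  refine Eq.trans (sum_congr rfl fun k _ => congr_arg _ (finsum_congr fun R => ?_))
    (h1.trans (by simp))
  by_cases h3 : wG 1 d β R = 0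
  · simp [h3]
  obtain ⟨a, ha⟩ := (fam_of_wG h3).1
  simp [ha, Int.sign_mul, show Int.sign 15 = 1 from rfl]

lemma CF_neg (hn : Good n) (hs : J(-15 | n) = -1) {M : ℕ} (h : (n : ℤ) ^ 2 ∣ t ^ 2 - 60 * M) :
    CF n n (-t) M = -CF n n t M := by
  have h1 := sum_muW (A := n) (B := 1) (t := t) (M := M) (by simpa using hn) h
  have h2 := sum_muW (A := n) (B := 1) (t := -t) (M := M) (by simpa using hn) (by simpa using h)
  simp only [muW_neg_left, muW_neg_neg hn, sum_neg_distrib, h1, hs] at h2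
  simpa [neg_eq_iff_eq_neg] using h2.symm

theorem match_B (hn : Good n) (hd : 0 < d) (hρ : 60 ∣ ρ ^ 2 + n) (hT : FReps (-n) ρ T)
    (hT' : FReps (-n) (-ρ) T') (h0 : 0 ≤ t) (ht : n ^ 2 * d < t ^ 2) :
    cntP (T ∪ T') (wZ n (-n) ρ) (wZ n (-(n * d)) (ρ * β)) (-t) =
      cntL n (Ico (0 : ℤ) n) (fun k => J(k | n)) (wG 1 d β) t +
        cntL n (Ico (0 : ℤ) n) (fun k => J(k | n)) (wG 1 d β) (-t) := by
  have hs := TYZ.jac15 hn hρ
  have h15 : ¬ 15 ∣ ρ := fun h => (Gal.not_dvd_r hn hρ).1 (by omega)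
  have hD : -(n * d : ℤ) < 0 := neg_neg_of_pos (mul_pos (by have := hn.mod4; omega) hd)
  have h1 : cntP (T ∪ T') (wZ n (-n) ρ) (wZ n (-(n * d)) (ρ * β)) (-t) =
      cntP T (gch n) (wZ n (-(n * d)) (ρ * β)) (-t) -
        cntP T' (gch n) (wZ n (-(n * d)) (ρ * β)) (-t) := by
    rw [cntP, cntP, cntP, sum_union (disjoint_left.mpr fun Q h1 h2 =>
      (hT.fam Q h1).not_neg h15 (hT'.fam Q h2)), sub_eq_add_neg, ← sum_neg_distrib]
    congr 1 <;> refine sum_congr rfl fun Q hQ => ?_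
    · rw [wZ, if_pos (hT.pos Q hQ), wG, wG, if_pos (hT.fam Q hQ),
        if_neg ((hT.fam Q hQ).not_neg h15), mul_zero, add_zero]
    · rw [wZ, if_pos (hT'.pos Q hQ), wG, wG, if_pos (hT'.fam Q hQ),
        if_neg fun h => h.not_neg h15 (hT'.fam Q hQ), jacobiSym.at_neg_one hn.adm.odd,
        ZMod.χ₄_nat_three_mod_four hn.mod4]
      ring
  rw [h1, cntP_wZ hn hn.neg hT hD (by omega), cntP_wZ hn hn.neg hT' hD (by omega)]
  by_cases h2 : 60 ∣ t ^ 2 - n ^ 2 * d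
  swap
  · have k1 : ∀ {ρ β : ℤ} {T : Finset Fm}, FReps (-n) ρ T →
        cntP T (gch n) (wG n (-(n * d)) β) (-t) = 0 := fun hT => sum_eq_zero fun Q hQ =>
      mul_eq_zero_of_right _ (finsum_eq_zero_of_forall_eq_zero fun R => ite_eq_right_iff.mpr
        fun h3 => if_neg fun h4 => h2 (by
          convert ((hT.fam Q hQ).fbil h4).2 using 1; rw [h3]; ring))
    have k2 : ∀ {s : ℤ}, s ^ 2 = t ^ 2 →
        cntL n (Ico (0 : ℤ) n) (fun k => J(k | n)) (wG 1 d β) s = 0 := fun hs => sum_eq_zero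
      fun k _ => mul_eq_zero_of_right _ (finsum_eq_zero_of_forall_eq_zero fun R =>
        ite_eq_right_iff.mpr fun h3 => mul_eq_zero_of_left (if_neg fun ⟨⟨a, ha⟩, h5, _⟩ =>
          h2 ⟨a * fval R k n, by rw [← hs, ← h3, ← h5, fbil_line, ha]; ring⟩) _)
    rw [k1 hT, k1 hT, k1 hT', k1 hT', k2 rfl, k2 (neg_sq t)]
    rfl
  obtain ⟨M, hM⟩ := h2
  lift M to ℕ using by omega
  have h3 : 0 < M := by omega
  have k1 := fun {ρ β : ℤ} {T : Finset Fm} (hρ : 60 ∣ ρ ^ 2 + n) (hT : FReps (-n) ρ T) =>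
    cntP_eq hn dvd_rfl hρ hT (e := -(n * d)) (β := β) (t := -t) (by simp) h3 (by linarith)
  have hρ' : 60 ∣ (-ρ) ^ 2 + n := by rwa [neg_sq]
  rw [k1 hρ hT, k1 hρ hT, k1 hρ' hT', k1 hρ' hT', cntL_eq hn hs h3 hM,
    cntL_eq hn hs h3 (t := -t) (by rwa [neg_sq]), CF_neg hn hs ⟨d, by linarith⟩]
  obtain ⟨k, hk⟩ := hρ
  have e1 : ρ * (ρ * β) = 30 * (2 * k * β) - n * β := by linear_combination β * hk
  simp only [mul_neg, neg_mul, neg_neg, e1]
  split_ifs <;> omega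

theorem matchB (hn : Good n) (hρ : 60 ∣ ρ ^ 2 + n) (hT : FReps (-n) ρ T) : MatchB n ρ T :=
  fun _ _ _ _ hd hT' h0 ht => match_B hn hd hρ hT hT' h0 ht

end Pool.Agent.Lib.MP_696deb_nt
end

-- part Pool.Agent.Lib.MP_696deb_nt.CntMatchA
section

/-! The counts of pairs of a point and a geodesic agree for a twisted and a split family. -/

set_option autoImplicit false

open Finset NumberTheorySymbols

namespace Pool.Agent.Lib.MP_696deb_nt

variable {A B : ℕ} {D e β γ t : ℤ} {Q R : Fm} {T : Finset Fm}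

lemma fW_inj (hQ : 15 ∣ Q.1) (hR : 15 ∣ R.1) (h : fW Q = fW R) : Q = R :=
  (fequiv (a := 17) (b := 3) (c := 15 * 3) (d := 8) rfl).injective
    ((fW_fW hQ).symm.trans (h ▸ fW_fW hR))

lemma finsum_fWA {V : Type*} [AddCommMonoid V] (f : Fm → V) (hf : ∀ R, ¬ 15 ∣ R.1 → f R = 0) :
    ∑ᶠ R, f R = ∑ᶠ R, if 15 ∣ R.1 then f (fW R) else 0 := by
  rw [← finsum_comp (g := f) (fun R : Fm => if 15 ∣ R.1 then fW R else R) ⟨fun Q R h => ?_, fun R => ?_⟩]
  · exact finsum_congr fun R => by split_ifs with h; exacts [rfl, hf R h]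
  · dsimp only at h
    split_ifs at h with h1 h2 h2
    exacts [fW_inj h1 h2 h, absurd (h ▸ fW_lev h1) h2, absurd (h ▸ fW_lev h2) h1, h]
  by_cases h : 15 ∣ R.1
  · have h1 : 15 ∣ (fmap R 8 (-3) (-(15 * 3)) 17).1 := by simp only [fmap, fval]; norm_num; omega
    exact ⟨_, (if_pos (fW_lev h1)).trans ((fW_fW h1).trans (fmap_inv' rfl R))⟩
  · exact ⟨R, if_neg h⟩

lemma fam_fW_iff (h : 15 ∣ R.1) : Fam e β (fW R) ↔ Fam e (11 * β) R :=
  ⟨fun k => (feq_fW_fW h).symm.fam (fW_fam k), fun k =>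
    ⟨(fW_fam k).1, (fW_fam k).2.1, by have := (fW_fam k).2.2; omega⟩⟩

lemma cntP_fW (hT : FReps D β T) (hA : Squarefree (A * B)) (hc : (A * B).Coprime 30)
    (he : (A : ℤ) ∣ e) (hD : (B : ℤ) ∣ D) : cntP (T.image fW) (gch B) (wG A e γ) t =
      J(3 | A) * J(3 | B) * cntP T (gch B) (wG A e (11 * γ)) t := by
  rw [cntP, cntP, sum_image fun Q hQ R hR => fW_inj (hT.fam Q hQ).1 (hT.fam R hR).1, mul_sum]
  refine sum_congr rfl fun Q hQ => ?_
  have h := hT.fam Q hQ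
  rw [fW_gch hA.of_mul_right hc.coprime_mul_left h.1 (h.2.1 ▸ hD), finsum_fWA _ fun R hR => by
    simp [wG, Fam, hR], mul_comm J(3 | A), mul_assoc, mul_assoc, mul_left_comm J(3 | A),
    mul_finsum _ J(3 | A)]
  refine congr_arg _ (congr_arg _ (finsum_congr fun R => ?_))
  by_cases k : 15 ∣ R.1
  · rw [if_pos k, fW_fbil h.1 k, wG, wG, mul_ite, mul_ite, mul_zero]
    refine if_congr Iff.rfl ?_ rfl
    split_ifs with k1 k2 k2
    · exact fW_gch hA.of_mul_left hc.coprime_mul_right k (k2.2.1 ▸ he)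
    · exact absurd ((fam_fW_iff k).mp k1) k2
    · exact absurd ((fam_fW_iff k).mpr k2) k1
    · rfl
  · simp [wG, Fam, k]

lemma FReps.sys (hT : FReps D β T) (h0 : D < 0) (hB : Odd B) (hD : (B : ℤ) ∣ D) :
    Sys T fun Q => if 0 < Q.1 then wG B D β Q else 0 := by
  refine ⟨fun Q R h => ?_, fun R h => hT.ex R (fam_of_wG (ite_ne_right_iff.mp h).2)
    (ite_ne_right_iff.mp h).1, hT.uniq, fun Q hQ _ a b c d e k =>
      free_of_neg ((hT.fam Q hQ).2.1 ▸ h0) e k⟩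
  rw [(wt_wG hB hD β).inv Q R h]
  by_cases k : Fam D β Q
  · exact if_congr ⟨h.symm.pos ((h.fam k).2.1 ▸ h0), h.pos (k.2.1 ▸ h0)⟩ rfl rfl
  · simp [wG, k]

lemma cntP_lnA (hn : Good (A * B)) (h0 : D < 0) (hD : (B : ℤ) ∣ D) (hT : FReps D β T) {M : ℕ}
    (hM : 60 * (M : ℤ) = t ^ 2 - A ^ 2 * D) (h1 : 0 < M) : cntP T (gch B) (wG A (A ^ 2) A) t =
      if 30 ∣ t - A * β then J(15 | A) * J(15 | B) * CF (A * B) A t M else 0 := by
  have ho := Nat.odd_mul.mp hn.adm.odd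
  have A0 : 0 < A := ho.1.pos
  have hw := wt_wG ho.1 (dvd_pow_self (A : ℤ) two_ne_zero) A
  have := cnt_swap (sys_lines A0 hn.cop.coprime_mul_right hw.inv fun R => fam_of_wG)
    (hT.sys h0 ho.2 hD) (fun L Q => if fbil L Q = t then (1 : ℤ) else 0)
    (fun L Q a b c d e => by rw [fbil_fmap e]) fun L hL _ => by
      obtain ⟨k, -, rfl⟩ := mem_image.mp hL
      refine (finite_line D (A := A) (by omega) k |t|).subset fun R ⟨h2, h3⟩ => ?_
      obtain ⟨h4, h5⟩ := ite_ne_right_iff.mp h2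
      have h6 := (fam_of_wG h5).2.1
      have h7 := (ite_ne_right_iff.mp h3).1
      refine ⟨h6, h4.ne', fun h8 => ?_, h7 ▸ le_rfl⟩
      have := fbil_line A k R
      rw [h8, h7, h6] at this
      omega
  rw [sum_image fun k _ l _ h => by simpa using h] at this
  trans J(-1 | A) * ∑ k ∈ range A, J((k : ℤ) | A) * ∑ᶠ R : Fm, if fbil (0, A, -(k : ℤ)) R = t then
    wG B D β R * (if 0 < R.1 / 15 then 1 else 0) else 0
  · rw [← sum_Ico_zero A fun k => J(k | A) * ∑ᶠ R : Fm, if fbil (0, A, -k) R = t then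
      wG B D β R * (if 0 < R.1 / 15 then 1 else 0) else 0, mul_sum]
    refine Eq.trans (sum_congr rfl fun Q hQ => ?_) (this.symm.trans (sum_congr rfl fun k _ => ?_))
    · rw [mul_finsum]
      refine finsum_congr fun L => ?_
      rw [if_pos (hT.pos Q hQ), wG.eq_1 B, if_pos (hT.fam Q hQ),
        show fbil L Q = fbil Q L by simp only [fbil]; ring]
      simp [mul_comm]
    · rw [← mul_assoc, mul_finsum, wG.eq_1 A, if_pos ⟨by simp, by simp [fdisc], by simp⟩,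
        ← jacobiSym.mul_left, jac_eq_prod _ hn.sqf.of_mul_left]
      refine finsum_congr fun R => ?_
      by_cases h2 : 15 ∣ R.1
      · simp [gch, show 0 < R.1 / 15 ↔ 0 < R.1 by omega, ← ite_and, and_comm]
      · simp [wG, Fam, h2]
  split_ifs with h
  swap
  · exact mul_eq_zero_of_right _ (sum_eq_zero fun k _ => mul_eq_zero_of_right _
      (finsum_eq_zero_of_forall_eq_zero fun R => ite_eq_right_iff.mpr fun h3 => by
        rw [wG_eq_zero h h3, zero_mul]))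
  have h2 := sum_lines (K := ℤ) hn hD hM (by omega) h fun a _ => if 0 < a then 1 else 0
  rw [Int.divisorsAntidiag_natCast, sum_disjUnion, sum_map, sum_map, ← sum_add_distrib,
    sum_congr rfl (g := fun x : ℕ × ℕ => muW A B t x.1 x.2) fun x hx => by
      simp [Nat.pos_of_mem_divisors (Nat.fst_mem_divisors_of_mem_antidiagonal hx)],
    sum_muW hn ⟨D, by linarith⟩] at h2
  simp only [Int.cast_id] at h2
  rw [h2, ← mul_assoc, ← mul_assoc, ← jacobiSym.mul_left]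
  rfl

theorem match_A {A B : ℕ} (hn : Good (A * B)) {x ρ β ρ' : ℤ} (hx : 0 < x)
    (hρ : 60 ∣ ρ ^ 2 + (A * B : ℕ)) (h : 30 ∣ ρ * β - 11 * A * ρ') {T T' : Finset Fm}
    (hT : FReps (-(A * B : ℕ)) ρ T) (hT' : FReps (-(B * x)) ρ' T') (t : ℤ) :
    cntP T (gch A) (wG A (A * x) β) t = J(5 | A * B) * cntP T' (gch B) (wV A) t := by
  have ho := Nat.odd_mul.mp hn.adm.odd
  have A0 := ho.1.pos
  have B0 := ho.2.pos
  have hD : -(B * x : ℤ) < 0 := neg_neg_of_pos (by positivity)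
  by_cases h2 : 60 ∣ t ^ 2 + A ^ 2 * (B * x)
  swap
  · have k : ∀ {D e ρ β : ℤ} {T : Finset Fm} {C : ℕ}, FReps D ρ T → D * e = -(A ^ 2 * (B * x)) →
        cntP T (gch C) (wG A e β) t = 0 := fun hT k => sum_eq_zero fun Q hQ =>
      mul_eq_zero_of_right _ (finsum_eq_zero_of_forall_eq_zero fun R => ite_eq_right_iff.mpr
        fun h3 => if_neg fun h4 => h2 (by simpa [h3, k] using ((hT.fam Q hQ).fbil h4).2))
    rw [k hT (by push_cast; ring), wV, k hT' (by ring), mul_zero]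
  obtain ⟨M, hM⟩ := h2
  have h3 : 0 < t ^ 2 + A ^ 2 * (B * x) := by positivity
  lift M to ℕ using by omega
  have h4 := cntP_lnA hn hD (by simp) (fW_freps hD hT') (t := t) (M := M) (by linarith) (by omega)
  have h5 : J(3 | A * B) ^ 2 = 1 := jacobiSym.sq_one
    (hn.cop.coprime_dvd_right (by norm_num : 3 ∣ 15)).symm
  have h6 : J(5 | A * B) ^ 2 = 1 := jacobiSym.sq_one
    (hn.cop.coprime_dvd_right (by norm_num : 5 ∣ 15)).symm
  rw [cntP_fW hT' hn.sqf hn.cop30 (dvd_pow_self _ two_ne_zero) (by simp),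
    ← jacobiSym.mul_right' _ A0.ne' B0.ne', ← jacobiSym.mul_right' _ A0.ne' B0.ne',
    show (15 : ℤ) = 3 * 5 from rfl, jacobiSym.mul_left] at h4
  rw [cntP_eq hn (dvd_mul_right _ _) hρ hT (dvd_mul_right _ _) (M := M) (by omega)
    (by push_cast; linarith), wV, if_congr (Q := 30 ∣ t - A * (11 * ρ'))
      (by rw [show A * (11 * ρ') = 11 * A * ρ' by ring]; omega) rfl rfl]
  split_ifs at h4 ⊢
  · linear_combination -J(3 | A * B) * J(5 | A * B) * h4 + (J(5 | A * B) *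
      cntP T' (gch B) (wG A (A ^ 2) (11 * A)) t - J(5 | A * B) ^ 2 * CF (A * B) A t M) * h5 -
      CF (A * B) A t M * h6
  · linear_combination -J(3 | A * B) * J(5 | A * B) * h4 + J(5 | A * B) *
      cntP T' (gch B) (wG A (A ^ 2) (11 * A)) t * h5

end Pool.Agent.Lib.MP_696deb_nt
end

-- part Pool.Agent.Lib.MP_696deb_nt.ThV1
section

/-! The class of a split family of geodesics, from the antisymmetry of crossing numbers. -/

set_option autoImplicit false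

open Finset NumberTheorySymbols

namespace Pool.Agent.Lib.MP_696deb_nt

/-- The Jacobian covariant of two forms. -/
def fjac (Q R : Fm) : Fm :=
  (Q.1 * R.2.1 - Q.2.1 * R.1, 2 * (Q.1 * R.2.2 - Q.2.2 * R.1), Q.2.1 * R.2.2 - Q.2.2 * R.2.1)

/-- The signed crossing number of two geodesics. -/
def fcr (Q R : Fm) : ℤ := if fdisc (fjac Q R) < 0 then (fjac Q R).1.sign else 0

theorem fdisc_fjac (Q R : Fm) : fdisc (fjac Q R) = fbil Q R ^ 2 - fdisc Q * fdisc R := by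
  simp only [fdisc, fjac, fbil]; ring

theorem sign_fval {J : Fm} (hD : fdisc J < 0) {x y : ℤ} (h : x ≠ 0 ∨ y ≠ 0) :
    (fval J x y).sign = J.1.sign := by
  refine (isign_eq_of_mul_pos ?_).symm
  have h1 := four_mul_fval J x y
  rcases eq_or_ne y 0 with rfl | hy
  · have h2 : J.1 ≠ 0 := fun k => by
      rw [fdisc, k] at hD
      nlinarith [sq_nonneg J.2.1]
    have h3 := h.resolve_right (by simp)
    rw [show J.1 * fval J x 0 = (J.1 * x) ^ 2 by simp only [fval]; ring]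
    positivity
  · nlinarith [sq_nonneg (2 * J.1 * x + J.2.1 * y), mul_pos (sq_pos_of_ne_zero hy) (neg_pos.2 hD)]

theorem fcr_fmap (Q R : Fm) {a b c d : ℤ} (h : a * d - b * c = 1) :
    fcr (fmap Q a b c d) (fmap R a b c d) = fcr Q R := by
  have h1 : (fjac (fmap Q a b c d) (fmap R a b c d)).1 = fval (fjac Q R) a c := by
    simp only [fjac, fmap, fval]
    linear_combination (a ^ 2 * (Q.1 * R.2.1 - Q.2.1 * R.1) +
      2 * (Q.1 * R.2.2 - Q.2.2 * R.1) * a * c + (Q.2.1 * R.2.2 - Q.2.2 * R.2.1) * c ^ 2) * h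
  rw [fcr, fcr, h1, fdisc_fjac, fbil_fmap h, fdisc_fmap h, fdisc_fmap h, ← fdisc_fjac]
  refine if_ctx_congr Iff.rfl (fun k => sign_fval k ?_) fun _ => rfl
  by_contra! h0
  simp [h0.1, h0.2] at h

theorem fcr_fW {Q R : Fm} (hQ : 15 ∣ Q.1) (hR : 15 ∣ R.1) : fcr (fW Q) (fW R) = fcr Q R := by
  have h1 : 3 * (fjac (fW Q) (fW R)).1 = fval (fjac Q R) 6 15 := by
    obtain ⟨_, b, c⟩ := Q
    obtain ⟨a, rfl⟩ := hQ
    obtain ⟨_, b', c'⟩ := R
    obtain ⟨a', rfl⟩ := hR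
    simp only [fW_eq, fjac, fval]; ring
  rw [fcr, fcr, fdisc_fjac, fW_fbil hQ hR, fW_disc hQ, fW_disc hR, ← fdisc_fjac]
  refine if_ctx_congr Iff.rfl (fun k => ?_) fun _ => rfl
  rw [← sign_fval k (x := 6) (y := 15) (by simp), ← h1, Int.sign_mul]
  exact (one_mul _).symm

theorem fcr_swap (Q R : Fm) : fcr R Q = -fcr Q R := by
  have h1 : fdisc (fjac R Q) = fdisc (fjac Q R) := by simp only [fdisc, fjac]; ring
  have h2 : (fjac R Q).1 = -(fjac Q R).1 := by simp only [fjac]; ring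
  rw [fcr, fcr, h1, h2, Int.sign_neg]
  split_ifs <;> simp

theorem fcr_line {A : ℤ} (hA : 0 < A) (k : ℤ) (R : Fm) :
    fcr (0, A, -k) R = if R.1 * fval R k A < 0 then -R.1.sign else 0 := by
  have h1 : fdisc (fjac (0, A, -k) R) = 4 * (R.1 * fval R k A) := by
    simp only [fdisc, fjac, fval]; ring
  rw [fcr, h1]
  refine if_ctx_congr (by omega) (fun _ => ?_) fun _ => rfl
  simp [fjac, Int.sign_mul, Int.sign_eq_one_of_pos hA]

theorem finsum_fW {f : Fm → ℤ} (hf : ∀ R, f R ≠ 0 → 15 ∣ R.1) :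
    ∑ᶠ R : Fm, (if 15 ∣ R.1 then f (fW R) else 0) = ∑ᶠ R, f R := by
  have h : Set.BijOn fW {R | 15 ∣ R.1} {R | 15 ∣ R.1} := by
    have e : (17 : ℤ) * 8 - 3 * (15 * 3) = 1 := rfl
    refine ⟨fun R => fW_lev, fun Q hQ R hR k => (fequiv e).injective ?_, fun R hR => ?_⟩
    · exact (fW_fW hQ).symm.trans ((congrArg fW k).trans (fW_fW hR))
    · have h1 : 15 ∣ (fmap R 8 (-3) (-(15 * 3)) 17).1 := by
        have : 15 ∣ R.1 := hR
        simp only [fmap, fval]; norm_num; omega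
      exact ⟨_, fW_lev h1, (fW_fW h1).trans (fmap_inv' e R)⟩
  have h1 := finsum_mem_eq_of_bijOn fW h (f := fun R => f (fW R)) (g := f) fun _ _ => rfl
  rw [finsum_mem_def, finsum_mem_def,
    (Set.indicator_eq_self (s := {R : Fm | 15 ∣ R.1})).mpr fun R hR => hf R hR] at h1
  rw [← h1]
  exact finsum_congr fun R => by simp [Set.indicator_apply]

/-- Split families of geodesics with their classes and periods. -/
structure Spl (A : ℕ) (w : Fm → ℤ) (κ u : ℂ) : Prop where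
  pos : 0 < A
  cop : A.Coprime 15
  geo : Geo w (A ^ 2) κ
  fam : ∀ R, w R ≠ 0 → Fam (A ^ 2) (11 * A) R
  zero : ∑ k ∈ Ico (0 : ℤ) A, w (fW (0, A, -k)) = 0
  per : u = ∑ k ∈ Ico (0 : ℤ) A, w (fW (0, A, -k)) * ms k A

namespace Spl

variable {A B : ℕ} {w v : Fm → ℤ} {κ u μ u' : ℂ}

theorem ne (h : Spl A w κ u) {y : ℤ} (h0 : 0 < y) (hy : IsCoprime y 15) (x : ℤ) (R : Fm)
    (hR : w R ≠ 0) : fval R x y ≠ 0 := by
  obtain ⟨g, x, b, y, d, hg, rfl, rfl, hd⟩ := exists_SL (a := x) (Or.inr h0.ne')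
  have h1 : ∀ p : ℕ, p ∣ 15 → 1 < p → ¬ (p : ℤ) ∣ A := fun p hp h1 k =>
    h1.ne' (Nat.eq_one_of_dvd_coprimes h.cop (by exact_mod_cast k) hp)
  rw [show fval R (x * g) (y * g) = g ^ 2 * fval R x y by simp only [fval]; ring]
  exact mul_ne_zero (by positivity) (split_ne (h1 3 (by norm_num) (by norm_num))
    (h1 5 (by norm_num) (by norm_num)) (h.fam R hR) ⟨d, -b, by linear_combination hd⟩
    (Or.inr hy.of_mul_left_left))

theorem thw_eq (h : Spl A w κ u) {y : ℤ} (h0 : 0 < y) (hy : IsCoprime y 15) (x c : ℤ) :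
    c * thw w x y = -2 * ∑ᶠ R, (c * w R) • fcr (0, y, -x) R := by
  have h1 : ∀ R, c * (w R * (R.1.sign - (fval R x y).sign)) =
      -2 * (c * w R) • fcr (0, y, -x) R := fun R => by
    rcases eq_or_ne (w R) 0 with k | k
    · simp [k]
    rw [fcr_line h0, smul_eq_mul]
    split_ifs with k'
    · rw [isign_of_mul_neg k']; ring
    · rw [isign_eq_of_mul_pos (lt_of_le_of_ne (not_lt.1 k')
        (mul_ne_zero (h.geo.ne R k) (h.ne h0 hy x R k)).symm)]
      ring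
  rw [thw, mul_finsum, mul_finsum, finsum_congr h1]

theorem sys (h : Spl A w κ u) : Sys ((Ico (0 : ℤ) A).image fun k => ((0, A, -k) : Fm))
    fun R => if 15 ∣ R.1 then w (fW R) else 0 := by
  refine sys_lines h.pos h.cop (fun Q R e => ?_) fun R hR => ?_
  · have h1 : ∀ {Q R : Fm}, FEq Q R → 15 ∣ Q.1 → 15 ∣ R.1 := fun e k =>
      (e.fam (e := fdisc _) ⟨k, rfl, 0, sub_self _⟩).1
    exact if_ctx_congr ⟨h1 e.symm, h1 e⟩ (fun k => h.geo.inv _ _ (e.fW k)) fun _ => rfl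
  · have h1 : 15 ∣ R.1 := by by_contra k; exact hR (if_neg k)
    obtain ⟨h2, h3, h4⟩ := (feq_fW_fW h1).symm.fam (fW_fam (h.fam _ fun k => hR ((if_pos h1).trans k)))
    exact ⟨h2, h3, by omega⟩

theorem sys' (h : Spl A w κ u) :
    Sys (((Ico (0 : ℤ) A).image fun k => ((0, A, -k) : Fm)).image fW) w := by
  have h1 : ∀ Q ∈ (Ico (0 : ℤ) A).image fun k => ((0, A, -k) : Fm), 15 ∣ Q.1 :=
    forall_mem_image.mpr fun _ _ => dvd_zero _
  refine ⟨h.geo.inv, fun R hR => ?_, forall_mem_image.mpr fun Q hQ => forall_mem_image.mpr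
    fun R hR e => ?_, fun Q _ hQ a b c d e k => ?_⟩
  · have h2 := (h.fam R hR).1
    obtain ⟨Q, hQ, e⟩ := h.sys.ex (fW R) (by
      rwa [if_pos (fW_lev h2), h.geo.inv _ _ (feq_fW_fW h2)])
    exact ⟨_, mem_image_of_mem _ hQ, (e.fW (h1 Q hQ)).trans (feq_fW_fW h2).symm⟩
  · rw [h.sys.uniq Q hQ R hR (((feq_fW_fW (h1 Q hQ)).trans (e.fW (fW_lev (h1 Q hQ)))).trans
      (feq_fW_fW (h1 R hR)).symm)]
  · have := free_of_sq (A := A) (by exact_mod_cast h.pos.ne') (h.fam Q hQ).2.1 e k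
    omega

theorem cop' (h : Spl A w κ u) : IsCoprime (A : ℤ) 15 := Nat.isCoprime_iff_coprime.mpr h.cop

theorem thw_swap (h : Spl A w κ u) (h' : Spl B v μ u') :
    ∑ k ∈ Ico (0 : ℤ) B, v (fW (0, B, -k)) * thw w k B =
      -∑ k ∈ Ico (0 : ℤ) A, w (fW (0, A, -k)) * thw v k A := by
  have A0 : (0 : ℤ) < A := by exact_mod_cast h.pos
  have B0 : (0 : ℤ) < B := by exact_mod_cast h'.pos
  have h1 := cnt_swap h'.sys h.sys' fcr (fun Q R a b c d e => fcr_fmap Q R e)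
    (forall_mem_image.mpr fun k _ _ => (finite_cross h.geo.toWt (x := k) (y := B)).subset
      fun R hR => ⟨hR.1, by_contra fun k => hR.2 (by rw [fcr_line B0, if_neg k])⟩)
  rw [image_image, sum_image fun i _ j _ e => by simpa using e, sum_image fun i _ j _ e => by
    simp only [Function.comp, fW, Prod.mk.injEq] at e; omega] at h1
  simp only [h.thw_eq B0 h'.cop', h'.thw_eq A0 h.cop', ← mul_sum]
  simp only [dvd_zero, if_true] at h1
  rw [h1, ← mul_neg, ← sum_neg_distrib]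
  refine congrArg _ (sum_congr rfl fun k _ => ?_)
  rw [← finsum_neg_distrib, ← finsum_fW fun Q hQ => by_contra fun k => hQ (by simp [k])]
  refine finsum_congr fun Q => ?_
  split_ifs with h2 h3
  · rw [Function.comp, fcr_fW h2 (dvd_zero _), fcr_swap, h'.geo.inv _ _ (feq_fW_fW h2)]
    simp only [smul_eq_mul]; ring
  · exact absurd (fW_lev h2) h3
  · simp [show v Q = 0 from by_contra fun k => h2 (h'.fam Q k).1]

theorem cross (h : Spl A w κ u) (h' : Spl B v μ u') :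
    2 * (κ * u').re = (∑ k ∈ Ico (0 : ℤ) B, v (fW (0, B, -k)) * thw w k B : ℤ) := by
  have B0 : (0 : ℤ) < B := by exact_mod_cast h'.pos
  have h1 : ∑ k ∈ Ico (0 : ℤ) B, (v (fW (0, B, -k)) : ℝ) = 0 := by exact_mod_cast h'.zero
  rw [h'.per, mul_sum, Complex.re_sum, mul_sum, ← sub_eq_zero, Int.cast_sum, ← sum_sub_distrib,
    ← zero_mul (2 * (κ * ms 0 1).re - thw w 0 1), ← h1, sum_mul]
  refine sum_congr rfl fun k _ => ?_
  rw [← h.geo.cusp_val B0 h'.cop' (h.ne B0 h'.cop' k), mul_left_comm κ,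
    ← Complex.ofReal_intCast, Complex.re_ofReal_mul]
  push_cast
  ring

theorem swap (h : Spl A w κ u) (h' : Spl B v μ u') : (κ * u').re = -(μ * u).re := by
  have h1 := h.cross h'
  have h2 := h'.cross h
  rw [h.thw_swap h', Int.cast_neg] at h1
  linarith

end Spl

theorem spl_two {κ : ℂ} (h : Geo wV2 4 κ) : Spl 2 wV2 κ wp := by
  have e : Ico (0 : ℤ) (2 : ℕ) = {0, 1} := by decide
  refine ⟨two_pos, by norm_num, by simpa using h, fun R hR => ?_, by decide, ?_⟩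
  · by_contra k
    exact hR (if_neg (by simpa using k))
  · have h1 := ms_hecke_two 0 1
    have h2 := ms_scale two_ne_zero 0 1
    have h3 : (wp : ℂ) = -4 * ms 0 1 := by rw [wp_eq, ms_zero_one]; simp
    rw [e, sum_pair (by norm_num), show wV2 (fW (0, (2 : ℕ), -0)) = -1 by decide,
      show wV2 (fW (0, (2 : ℕ), -1)) = 1 by decide, h3]
    norm_num at h1 h2 ⊢
    linear_combination -h1 + 2 * h2

theorem spl_wV {A : ℕ} (hA : Adm A) (h1 : 1 < A) : ∃ κ, Spl A (wV A) κ (J(-3 | A) * perA A) := by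
  obtain ⟨κ, h⟩ := exists_geo_wV hA h1
  have h2 : ∀ k : ℤ, wV A (fW (0, A, -k)) = J(-3 | A) * J(k | A) := fun k => by
    have h3 : Fam (A ^ 2) A (0, A, -k) := ⟨dvd_zero _, by simp [fdisc], by simp⟩
    rw [wV, wG, if_pos (fW_fam h3), fW_gch hA.sqf (Nat.Coprime.mul_right
      (Nat.coprime_two_right.mpr hA.odd) hA.cop) (dvd_zero _) (by simp [fdisc, sq]), gch,
      prod_congr rfl fun p _ => if_pos (dvd_zero _), ← jac_eq_prod _ hA.sqf,
      ← jacobiSym.mul_left, ← jacobiSym.mul_left]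
    congr 1; ring
  have h3 : ∀ f : ℤ → ℂ, ∑ k ∈ Ico (0 : ℤ) A, f k = ∑ k ∈ range A, f k := fun f =>
    (sum_nbij' (fun k : ℕ => (k : ℤ)) Int.toNat (by simp) (by simp; omega) (by simp)
      (by simp; omega) (by simp)).symm
  refine ⟨κ, by omega, hA.cop, h, fun R => fam_of_wG, ?_, ?_⟩
  · have := h3 fun k => J(k | A)
    rw [← Int.cast_sum, ← Int.cast_sum, sum_jac_eq_zero hA.sqf hA.odd h1, Int.cast_inj] at this
    simp only [h2, ← mul_sum, this, mul_zero]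
  · simp only [h2, h3, perA, mul_sum, Int.cast_mul, mul_assoc]

theorem geo_wV_of (h2 : ∃ s : ℤ, (s = 1 ∨ s = -1) ∧ Geo wV2 4 (s * Complex.I / wm)) {A : ℕ}
    (hA : Squarefree A) (hc : A.Coprime 30) (h1 : 1 < A) : ∃ s : ℤ, (s = 1 ∨ s = -1) ∧
      Geo (wV A) (A ^ 2) (s * Complex.I * (starRingEnd ℂ) (perA A) / (wp * wm)) := by
  obtain ⟨s, hs, h2⟩ := h2
  replace h2 := spl_two h2
  have a1 : Adm A := ⟨hA, Nat.coprime_two_right.mp (hc.coprime_dvd_right (by norm_num)),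
    hc.coprime_dvd_right (by norm_num)⟩
  have p : Nat.Prime 19 := by norm_num
  obtain ⟨κ, h⟩ := spl_wV a1 h1
  obtain ⟨μ, h'⟩ := spl_wV (A := 19) ⟨p.squarefree, by decide, by norm_num⟩ (by norm_num)
  obtain ⟨t, P, ht, hP, e⟩ := perA_val p.squarefree (by decide) (by norm_num) (by norm_num)
    (by norm_num)
  obtain ⟨y, hy, e'⟩ : ∃ y : ℝ, y ≠ 0 ∧ J(-3 | 19) * perA 19 = y * Complex.I := by
    have h3 : (P : ℝ) ≠ 0 := Int.cast_ne_zero.mpr fun k => by simpa [k] using hP p (by norm_num)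
    have h4 : (t : ℝ) ≠ 0 := by rcases ht with rfl | rfl <;> norm_num
    refine ⟨t * 2 * (2 * P) ^ 2 * wm, by have := wm_ne; positivity, ?_⟩
    rw [p.primeFactors] at e
    norm_num [cT] at e ⊢
    linear_combination e / 2
  have hj : J(-3 | A) = 1 ∨ J(-3 | A) = -1 := jacobiSym.eq_one_or_neg_one (by
    rw [Int.neg_gcd]
    exact (hc.coprime_dvd_right (by norm_num : 3 ∣ 30)).symm)
  refine ⟨s * J(-3 | A), by rcases hs with rfl | rfl <;> rcases hj with k | k <;> simp [k], ?_⟩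
  have k1 := h.swap h2
  have k2 := h'.swap h2
  have k3 := h'.swap h'
  have k4 := h.swap h'
  rw [e'] at k2 k3 k4
  have w1 := wp_neg.ne
  have w2 := wm_ne
  convert h.geo
  have e2 : perA A = J(-3 | A) * (J(-3 | A) * perA A) := by rcases hj with k | k <;> simp [k]
  have e3 : (J(-3 | A) : ℂ) * J(-3 | A) = 1 := by rcases hj with k | k <;> simp [k]
  rw [e2]
  generalize J(-3 | A) * perA A = u at *
  simp only [map_mul, map_intCast]
  rw [show ((s * J(-3 | A) : ℤ) : ℂ) * Complex.I * (J(-3 | A) * (starRingEnd ℂ) u) / (wp * wm) =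
    (s / (wp * wm) : ℝ) * (Complex.I * (starRingEnd ℂ) u) by
      push_cast; linear_combination (s * Complex.I * (starRingEnd ℂ) u / (wp * wm)) * e3]
  rw [show (s : ℂ) * Complex.I / wm = (s / wm : ℝ) * Complex.I by push_cast; ring] at k1 k2
  simp only [Complex.mul_re, Complex.mul_im, Complex.ofReal_re, Complex.ofReal_im, Complex.I_re,
    Complex.I_im] at k1 k2 k3 k4
  have k5 : μ.im = 0 := mul_right_cancel₀ hy (by linarith)
  have k6 : μ.re = s * y / (wp * wm) := by field_simp at k2 ⊢; linarith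
  rw [k5, k6] at k4
  refine Complex.ext ?_ ?_ <;> simp only [Complex.mul_re, Complex.mul_im, Complex.ofReal_re,
    Complex.ofReal_im, Complex.I_re, Complex.I_im, Complex.conj_re, Complex.conj_im]
  · field_simp at k1 ⊢; linarith
  · refine mul_right_cancel₀ hy ?_
    linear_combination k4

end Pool.Agent.Lib.MP_696deb_nt
end

-- part Pool.Agent.Lib.MP_696deb_nt.ThV
section

/-! The class of the split family twisted by a quadratic character. -/

set_option autoImplicit false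

namespace Pool.Agent.Lib.MP_696deb_nt

theorem geo_wV {A : ℕ} (hA : Squarefree A) (hc : A.Coprime 30) (h1 : 1 < A) :
    ∃ s : ℤ, (s = 1 ∨ s = -1) ∧
      Geo (wV A) (A ^ 2) (s * Complex.I * (starRingEnd ℂ) (perA A) / (wp * wm)) :=
  geo_wV_of geo_wV2 hA hc h1

end Pool.Agent.Lib.MP_696deb_nt
end

-- part Pool.Agent.Lib.MP_696deb_nt.Gkz
section

/-! Proportionality of twisted Heegner points and the product formula for split families. -/

set_option autoImplicit false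

open Finset NumberTheorySymbols

namespace Pool.Agent.Lib.MP_696deb_nt

theorem Geo.eleven {w : Fm → ℤ} {e : ℤ} {κ : ℂ} (hw : Geo w e κ) : thw w 11 15 = -thw w 4 15 := by
  have h1 := hw.cls 11 (-3) 1 (-4) (by norm_num)
  have h2 := hw.cls 4 1 1 4 (by norm_num)
  rw [per_four, mul_neg, Complex.neg_re] at h2
  rw [per, mul_one, ms_gm] at h1
  rw [mul_one] at h2
  exact_mod_cast (by linarith : (thw w 11 15 : ℝ) = -thw w 4 15)

theorem Geo.thB_eq {w : Fm → ℤ} {e : ℤ} {κ : ℂ} (hw : Geo w e κ) {A B : ℕ} (h : A * B % 4 = 3) :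
    thB B w = J(-1 | B) * thA A w := by
  have h1 : Odd B := (Nat.odd_mul.mp (Nat.odd_iff.mpr (by omega) : Odd (A * B))).2
  have h2 : A % 4 = 1 ↔ ¬ B % 4 = 1 := by
    rw [Nat.mul_mod] at h
    have h3 := Nat.mod_lt A four_pos
    have h4 := Nat.mod_lt B four_pos
    generalize A % 4 = a at *
    generalize B % 4 = b at *
    interval_cases a <;> interval_cases b <;> simp at h ⊢
  rw [thB, thA, jac_m1 h1, hw.eleven]
  by_cases h3 : B % 4 = 1 <;> simp [h2, h3]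

theorem cntP_congr {T : Finset Fm} {m m' : Fm → ℤ} (h : ∀ Q ∈ T, m Q = m' Q) (w : Fm → ℤ) (t : ℤ) :
    cntP T m w t = cntP T m' w t := sum_congr rfl fun Q hQ => by rw [h Q hQ]

theorem Good.adm_left {A B : ℕ} (hn : Good (A * B)) : Adm A :=
  ⟨hn.sqf.of_mul_left, (Nat.odd_mul.mp hn.adm.odd).1, hn.cop.coprime_mul_right⟩

theorem Good.adm_right {A B : ℕ} (hn : Good (A * B)) : Adm B :=
  ⟨hn.sqf.of_mul_right, (Nat.odd_mul.mp hn.adm.odd).2, hn.cop.coprime_mul_left⟩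

theorem gkz_A {A B : ℕ} (hn : Good (A * B)) (h1 : 1 < A) (hB : J(-15 | B) = -1) {x ρ β ρ' : ℤ}
    (hx : 0 < x) (hs : ¬ IsSquare ((A : ℤ) * x)) (hρ : 60 ∣ ρ ^ 2 + (A * B : ℕ))
    (h : 30 ∣ ρ * β - 11 * A * ρ') {T T' : Finset Fm} (hT : FReps (-(A * B : ℕ)) ρ T)
    (hT' : FReps (-(B * x)) ρ' T') (h15 : ¬ 15 ∣ ρ') : ∃ s : ℤ, (s = 1 ∨ s = -1) ∧
      Tors (thA A (wG A (A * x) β) * hP B T - s * thA A (wV A) * hP B T') := by
  have a := hn.adm_left
  have b := hn.adm_right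
  have r3 := (Gal.not_dvd_r hn hρ).1
  have B0 : (0 : ℤ) < B := by exact_mod_cast b.odd.pos
  obtain ⟨κ, g⟩ := geo_wG a.odd (dvd_mul_right _ x) (mul_pos (by omega) hx) hs β
  obtain ⟨κ', g'⟩ := exists_geo_wV a h1
  have key : ∀ {ρ ρ' : ℤ} {T T' : Finset Fm}, 60 ∣ ρ ^ 2 + (A * B : ℕ) → 30 ∣ ρ * β - 11 * A * ρ' →
      FReps (-(A * B : ℕ)) ρ T → FReps (-(B * x)) ρ' T' → ∀ t, cntP T (gch B) (wG A (A * x) β) t =
        J(5 | A * B) * cntP T' (gch B) (wV A) (1 * t) := fun hρ h hT hT' t => by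
    rw [one_mul, ← match_A hn hx hρ h hT hT']
    exact cntP_congr (fun Q hQ => (gch_swap hn.sqf hn.adm.odd
      (.inr ⟨(hT.fam Q hQ).2.1, hT.pos Q hQ⟩)).symm) _ _
  have h2 := gkz_core b hB hT (by omega) hn.neg (by simp) hT' h15 (neg_neg_of_pos (mul_pos B0 hx))
    (by simp) g g' (by push_cast; ring) (.inl rfl) (key hρ h hT hT')
    (key (by rwa [neg_sq]) ((dvd_neg.mpr h).trans (dvd_of_eq (by ring))) hT.cj.1 hT'.cj.1)
  refine ⟨J(5 | A * B), jacobiSym.eq_one_or_neg_one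
    (hn.cop.coprime_dvd_right (by norm_num : 5 ∣ 15)).symm, ?_⟩
  rw [g.thB_eq hn.mod4, g'.thB_eq hn.mod4, mul_one, mul_left_comm, mul_smul, mul_smul] at h2
  rw [← tq_eq, ← Int.cast_mul, tq_mul, tq_mul, ← sub_eq_zero]
  refine tq_cancel (k := J(-1 | B)) (by rw [jac_m1 b.odd]; split_ifs <;> norm_num) ?_
  rw [smul_sub, h2, sub_self]

/-- The equality of counts behind the relation between Heegner points of different fields. -/
def MatchOne : Prop := ∀ {n : ℕ}, Good n → ∀ {d ρ β ρ' : ℤ}, 0 < d → d % 4 = 1 → 60 ∣ ρ ^ 2 + n →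
  60 ∣ β ^ 2 - d → 30 ∣ ρ * β - 11 * ρ' → ∀ {T T' : Finset Fm}, FReps (-n) ρ T →
  FReps (-(n * d)) ρ' T' → ∀ t : ℤ, cntP T (fun _ => 1) (wHk d β) t = cntP T' (gch n) wV2 t

theorem gkz_one_of (hM : MatchOne) {n : ℕ} (hn : Good n) {d ρ β ρ' : ℤ} (hd : 0 < d) (h4 : d % 4 = 1)
    (hs : ¬ IsSquare d) (hρ : 60 ∣ ρ ^ 2 + n) (hβ : 60 ∣ β ^ 2 - d) (h : 30 ∣ ρ * β - 11 * ρ')
    {T T' : Finset Fm} (hT : FReps (-n) ρ T) (hT' : FReps (-(n * d)) ρ' T') :
    ∃ s : ℤ, (s = 1 ∨ s = -1) ∧ Tors (hP n T' - s * 2 * th (wG 1 d β) * hP 1 T) := by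
  have n4 := hn.mod4
  have hJ := TYZ.jac15 hn hρ
  obtain ⟨r3, r5⟩ := Gal.not_dvd_r hn hρ
  have hD : -(n * d : ℤ) < 0 := neg_neg_of_pos (mul_pos (by omega) hd)
  obtain ⟨κ, g⟩ := geo_wG odd_one (by simp) hd hs β
  refine ⟨-1, .inr rfl, ?_⟩
  rw [← tq_eq, show ((-1 : ℤ) : ℂ) * 2 * th (wG 1 d β) = (-2 * th (wG 1 d β) : ℤ) by simp, tq_mul]
  by_cases h15 : 15 ∣ ρ'
  · have h1 : 15 ∣ β := by
      have := (Int.prime_three.dvd_or_dvd (show 3 ∣ ρ * β by omega)).resolve_left r3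
      have := ((Nat.prime_iff_prime_int.mp Nat.prime_five).dvd_or_dvd
        (show (5 : ℤ) ∣ ρ * β by omega)).resolve_left r5
      omega
    have h2 : ∀ {e β : ℤ} {Q : Fm}, 15 ∣ β → (Fam e (-β) Q ↔ Fam e β Q) := fun h =>
      and_congr_right' (and_congr_right' (by omega))
    have h3 : thw (wG 1 d β) 4 15 = thw (wG 1 d β) 11 15 := by
      rw [thw_comp (w := wG 1 d β) cj (fun Q R e => by rw [← cj_cj Q, e, cj_cj]) (s := 1) (t := 1)
        (x' := -4) (y' := 15) (fun R => ?_) (fun R _ => ⟨_, cj_cj R⟩) (fun R => (one_mul _).symm)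
        fun R => by simp [fval, cj]]
      · have h5 := g.cls' (x := -4) (y := 15) ⟨-4, -1, by norm_num⟩ dvd_rfl
        rw [← ms_add_mul _ _ 1, ← g.cls' ⟨-4, 3, by norm_num⟩ dvd_rfl] at h5
        norm_num at h5 ⊢
        exact h5
      · rw [one_mul]
        exact if_congr ⟨fun k => (h2 h1).mp (by simpa [cj_cj] using k.cj), fun k => (h2 h1).mp k.cj⟩
          rfl rfl
    rw [show th (wG 1 d β) = 0 by have := g.eleven; rw [th]; omega, mul_zero, zero_smul]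
    have h5 := hT'.tq_conj hD hn.adm (by simp)
    have h6 : FReps (-(n * d)) ρ' (T'.image cj) := ⟨fun Q k => (h2 h15).mp (hT'.cj.1.fam Q k),
      hT'.cj.1.pos, fun Q k => hT'.cj.1.ex Q ((h2 h15).mpr k), hT'.cj.1.uniq⟩
    rw [hT'.conj_hP hD, map_sum, sum_congr rfl fun Q _ => map_zsmul tq _ _,
      h6.sum_eq hT' (fun Q => gch n Q • tq (Fi (froot Q))) fun Q R k1 k2 k3 => by
        rw [k3.gch hn.adm.odd (by simp [k1.2.1]), FReps.tq_froot hD k1.2.1 k2 k3],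
      ← tq_hP, jac_fifteen hJ hn.adm.odd, jac_m1 hn.adm.odd, if_neg (by omega)] at h5
    refine tq_cancel two_ne_zero ?_
    rw [two_smul]
    nth_rw 1 [h5]
    simp
  have g' := geo_wHk h4 hβ g hs
  have key : ∀ {ρ ρ' : ℤ} {T T' : Finset Fm}, 60 ∣ ρ ^ 2 + n → 30 ∣ ρ * β - 11 * ρ' →
      FReps (-n) ρ T → FReps (-(n * d)) ρ' T' → ∀ t, cntP T (gch n) (wHk d β) t =
        1 * cntP T' (gch n) wV2 (1 * t) := fun hρ h hT hT' t => by
    rw [one_mul, one_mul, ← hM hn hd h4 hρ hβ h hT hT']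
    exact cntP_congr (fun Q hQ => gch_full hn.sqf
      (.inr ⟨(hT.fam Q hQ).2.1, hT.pos Q hQ⟩) hn.adm.odd) _ _
  have h2 := gkz_core hn.adm hJ hT (by omega) hn.neg (by simp) hT' h15 hD
    (by simp) g' geo_wV2' (by ring) (.inl rfl) (key hρ h hT hT')
    (key (by rwa [neg_sq]) ((dvd_neg.mpr h).trans (dvd_of_eq (by ring))) hT.cj.1 hT'.cj.1)
  have h3 : thw (wHk d β) 4 15 = -4 * th (wG 1 d β) := by
    have h5 := g.cls' (x := 4) (y := 15) ⟨4, -1, by norm_num⟩ dvd_rfl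
    have h6 := g'.cls' (x := 4) (y := 15) ⟨4, -1, by norm_num⟩ dvd_rfl
    rw [mul_assoc, show (-4 : ℂ) = (-4 : ℝ) by simp, Complex.re_ofReal_mul] at h6
    exact_mod_cast (by rw [th]; linarith : (thw (wHk d β) 4 15 : ℝ) = -4 * th (wG 1 d β))
  rw [thB, thB, if_neg (by omega), if_neg (by omega), g'.eleven, geo_wV2'.eleven, thw_wV2, h3,
    hP_full hn hT] at h2
  rw [← sub_eq_zero]
  refine tq_cancel (k := -2) (by norm_num) ?_
  rw [smul_sub, smul_smul, sub_eq_zero]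
  convert h2.symm using 2 <;> ring

/-- The product formula for a split positive discriminant. -/
theorem th_sq {A A' B : ℕ} (hn : Good (A * B)) (hn' : Good (A' * B)) (hc : A.Coprime A')
    (h1 : 1 < A) (h1' : 1 < A') (h4 : A % 4 = A' % 4) (hB : J(-15 | B) = -1) {ρ β : ℤ}
    (hρ : 60 ∣ ρ ^ 2 + (A * B : ℕ)) (hβ : 60 ∣ β ^ 2 - (A * A' : ℕ)) {T : Finset Fm}
    (hT : FReps (-(A * B : ℕ)) ρ T) (hy : ¬ Tors (hP B T)) :
    thA A (wG A (A * A' : ℕ) β) ^ 2 = |thA A (wV A) * thA A (wV A')| := by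
  have a := hn.adm_left
  have a' := hn'.adm_left
  have hq : Squarefree (A * A') := (Nat.squarefree_mul hc).mpr ⟨a.sqf, a'.sqf⟩
  have hs : ¬ IsSquare ((A : ℤ) * A') := fun k => by
    obtain ⟨r, hr⟩ := Int.isSquare_natCast_iff.mp (show IsSquare ((A * A' : ℕ) : ℤ) by simpa using k)
    rw [Nat.isUnit_iff.mp (hq r hr.symm.dvd)] at hr
    nlinarith
  have c : IsCoprime (60 : ℤ) A := Nat.isCoprime_iff_coprime.mpr (Nat.Coprime.mul_left (m := 4)
    (n := 15) (Nat.Coprime.pow_left 2 (Nat.coprime_two_left.mpr a.odd)) a.cop.symm)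
  obtain ⟨u, v, e⟩ := c
  push_cast at hρ hβ
  obtain ⟨i, hi⟩ := hρ
  obtain ⟨j, hj⟩ := hβ
  have h2 : 60 ∣ (11 * v * ρ * β) ^ 2 + (A' * B : ℕ) :=
    ⟨121 * v ^ 2 * (60 * i * j + i * A * A' - j * A * B) - 2 * A' * B +
      121 * A' * B * (2 * u - 60 * u ^ 2), by
      push_cast
      linear_combination 121 * v ^ 2 * β ^ 2 * hi + 121 * v ^ 2 * (60 * i - A * B) * hj -
        121 * A' * B * (v * A + 1 - 60 * u) * e⟩
  obtain ⟨T', hT'⟩ := exists_freps hn'.neg (11 * v * ρ * β)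
  obtain ⟨s, e1, k1⟩ := gkz_A hn h1 hB (x := A') (β := β) (ρ' := 11 * v * ρ * β) (by omega) hs
    ⟨i, by push_cast; exact hi⟩ ⟨ρ * β * (242 * u - 4), by linear_combination -121 * ρ * β * e⟩ hT
    (by simpa [mul_comm] using hT')
    fun k => (Gal.not_dvd_r hn' h2).1 (by omega)
  obtain ⟨s', e2, k2⟩ := gkz_A hn' h1' hB (x := A) (β := β) (ρ' := ρ) (by omega) (by rwa [mul_comm])
    h2 ⟨22 * ρ * (v * j - u * A'), by linear_combination 11 * v * ρ * hj + 11 * ρ * A' * e⟩ hT'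
    (by simpa [mul_comm] using hT)
    fun k => (Gal.not_dvd_r hn ⟨i, by push_cast; exact hi⟩).1 (by omega)
  have h3 : wG A' (A' * A) β = wG A (A * A') β := funext fun R => by
    rw [mul_comm]
    exact if_ctx_congr Iff.rfl (fun k => (gch_swap hq (a.odd.mul a'.odd)
      (.inl (by simpa using k.2.1))).symm) fun _ => rfl
  rw [h3, show thA A' = thA A by funext w; rw [thA, thA, h4]] at k2
  rw [← tq_eq, ← Int.cast_mul, tq_mul, tq_mul] at k1 k2
  push_cast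
  have h5 : thA A (wG A (A * A') β) ^ 2 = s * s' * (thA A (wV A) * thA A (wV A')) := by
    by_contra k
    refine hy (tq_eq_zero.mp (tq_cancel (sub_ne_zero.mpr k) ?_))
    rw [sub_smul, sq, mul_smul, k1, smul_comm, k2, smul_smul, sub_eq_zero]
    congr 1; ring
  rw [← abs_sq, h5, abs_mul]
  rcases e1 with rfl | rfl <;> rcases e2 with rfl | rfl <;> simp

end Pool.Agent.Lib.MP_696deb_nt
end

-- part Pool.Agent.Lib.MP_696deb_nt.CntLines
section

/-! Counts of pairs of a point and a split form, seen from the vertical lines. -/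

set_option autoImplicit false

open Finset NumberTheorySymbols

namespace Pool.Agent.Lib.MP_696deb_nt

theorem M1.fW_inj {Q R : Fm} (hQ : 15 ∣ Q.1) (hR : 15 ∣ R.1) (h : fW Q = fW R) : Q = R := by
  have e : (17 : ℤ) * 8 - 3 * (15 * 3) = 1 := by norm_num
  rw [← fmap_inv e Q, ← fW_fW hQ, h, fW_fW hR, fmap_inv e]

theorem M1.finsum_fW {F G : Fm → ℤ} (hF : ∀ R, F R ≠ 0 → 15 ∣ R.1) (hG : ∀ R, G R ≠ 0 → 15 ∣ R.1)
    (h : ∀ R, 15 ∣ R.1 → G R = F (fW R)) : ∑ᶠ R, G R = ∑ᶠ R, F R := by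
  have k : ∀ {F : Fm → ℤ}, (∀ R, F R ≠ 0 → 15 ∣ R.1) →
      ∑ᶠ R, F R = ∑ᶠ R ∈ {R : Fm | 15 ∣ R.1}, F R := fun {F} hF => by
    rw [← finsum_mem_univ]
    refine finsum_mem_inter_support_eq F _ _ ?_
    ext R
    exact ⟨fun hR => ⟨hF R hR.2, hR.2⟩, fun hR => ⟨trivial, hR.2⟩⟩
  rw [k hF, k hG]
  refine finsum_mem_eq_of_bijOn fW ⟨fun R hR => fW_lev hR, fun Q hQ R hR => M1.fW_inj hQ hR,
    fun R hR => ?_⟩ h
  have e : (17 : ℤ) * 8 - 3 * (15 * 3) = 1 := by norm_num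
  have h1 : 15 ∣ (fmap R 8 (-3) (-(15 * 3)) 17).1 := by
    obtain ⟨a, ha⟩ : 15 ∣ R.1 := hR
    exact ⟨64 * a - 24 * R.2.1 + 135 * R.2.2, by simp only [fmap, fval, ha]; ring⟩
  exact ⟨_, fW_lev h1, by rw [fW_fW h1, fmap_inv' e]⟩

/-- A count of pairs of a point and a split form, seen from the vertical lines. -/
theorem cntP_lines {A B : ℕ} (hA : 0 < A) (hc : A.Coprime 15) (hB : Squarefree B)
    (hB' : B.Coprime 30) {D ρ : ℤ} (hD : D < 0) (hBD : (B : ℤ) ∣ D) {T : Finset Fm}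
    (hT : FReps D ρ T) {u w : Fm → ℤ} (hu : ∀ Q R, FEq Q R → u R = u Q)
    (hs : ∀ R, u R ≠ 0 → Fam (A ^ 2) A R) (hw : ∀ R, w R ≠ 0 → 15 ∣ R.1)
    (hw' : ∀ R, 15 ∣ R.1 → w R = u (fW R)) (t : ℤ) :
    cntP T (gch B) w t = J(3 | B) * ∑ k ∈ Ico (0 : ℤ) A, u (0, A, -k) *
      ∑ᶠ Q : Fm, if fbil (0, A, -k) Q = t ∧ 0 < Q.1 then wG B D (11 * ρ) Q else 0 := by
  have ho : Odd B := (Nat.Coprime.coprime_dvd_right (show 2 ∣ 30 by norm_num) hB').odd_of_right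
  have hT' := fW_freps hD hT
  have A0 : (A : ℤ) ≠ 0 := by exact_mod_cast hA.ne'
  set m : Fm → ℤ := fun Q => if 0 < Q.1 then wG B D (11 * ρ) Q else 0 with hm
  have hm0 : ∀ Q, m Q ≠ 0 → Fam D (11 * ρ) Q ∧ 0 < Q.1 := fun Q h => by
    have h1 : 0 < Q.1 := by_contra fun k => h (if_neg k)
    exact ⟨fam_of_wG fun k => h ((if_pos h1).trans k), h1⟩
  have hS : Sys (T.image fW) m := ⟨fun Q R h => ?_, fun R h => hT'.ex R (hm0 R h).1 (hm0 R h).2,
    hT'.uniq, fun Q hQ _ a b c d e k => free_of_neg ((hT'.fam Q hQ).2.1 ▸ hD) e k⟩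
  swap
  · by_cases h1 : Fam D (11 * ρ) Q
    · have h2 := h.fam h1
      simp only [hm, (wt_wG ho hBD _).inv Q R h]
      exact if_congr ⟨fun k => h.symm.pos (h2.2.1 ▸ hD) k, fun k => h.pos (h1.2.1 ▸ hD) k⟩ rfl rfl
    · simp only [hm, wG, if_neg h1, if_neg fun k => h1 (h.symm.fam k), ite_self]
  have hf : ∀ k : ℤ, {Q | m Q ≠ 0 ∧ fbil (0, A, -k) Q = t}.Finite := fun k => by
    refine (finite_line D A0 k |t|).subset fun Q ⟨h1, h2⟩ => ?_
    obtain ⟨h3, h4⟩ := hm0 Q h1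
    refine ⟨h3.2.1, h4.ne', fun h5 => ?_, h2 ▸ le_rfl⟩
    have := fbil_line A k Q
    rw [h5, h3.2.1] at this
    nlinarith [sq_nonneg (fbil (0, A, -k) Q), mul_pos (pow_pos (lt_of_le_of_ne
      (Int.natCast_nonneg A) A0.symm) 2) (neg_pos.mpr hD)]
  have h1 := cnt_swap (sys_lines hA hc hu hs) hS (fun L Q => if fbil L Q = t then (1 : ℤ) else 0)
    (fun Q R a b c d e => by rw [fbil_fmap e]) (forall_mem_image.mpr fun k _ _ =>
      (hf k).subset fun Q ⟨h1, h2⟩ => ⟨h1, by_contra fun k => h2 (if_neg k)⟩)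
  rw [sum_image fun k _ l _ h => by simpa using h, sum_image fun Q hQ R hR =>
    M1.fW_inj (hT.fam Q hQ).1 (hT.fam R hR).1] at h1
  rw [sum_congr rfl fun k _ => (mul_finsum _ _).trans (finsum_congr fun Q => ?_), h1, cntP, mul_sum]
  · refine sum_congr rfl fun Q hQ => ?_
    have h2 := hT.fam Q hQ
    have h3 : J(3 | B) * m (fW Q) = gch B Q := by
      simp only [hm, wG, if_pos (fW_pos (h2.2.1 ▸ hD) h2.1 (hT.pos Q hQ)), if_pos (fW_fam h2),
        fW_gch hB hB' h2.1 (h2.2.1 ▸ hBD)]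
      rw [← mul_assoc, ← sq, jacobiSym.sq_one, one_mul]
      exact (Nat.Coprime.coprime_dvd_right (show 3 ∣ 30 by norm_num) hB').symm
    rw [← h3, mul_assoc, M1.finsum_fW (F := fun R => if fbil R (fW Q) = t then u R else 0)
      (fun R h => (hs R fun k => h (by simp [k])).1) (fun R h => hw R fun k => h (by simp [k]))
      fun R h => by
        rw [fW_fbil h h2.1, hw' R h, show fbil R Q = fbil Q R by simp only [fbil]; ring]]
    congr 1
    simp only [mul_finsum, smul_eq_mul, mul_ite, mul_one, mul_zero, mul_comm (u _)]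
  · by_cases h1 : fbil (0, A, -k) Q = t <;> by_cases h2 : 0 < Q.1 <;> simp [hm, h1, h2]

end Pool.Agent.Lib.MP_696deb_nt
end
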