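import Pool.Agent.Lib.MP_696deb_nt.HRank
import Pool.Agent.Lib.MP_696deb_nt.CntLines
import Pool.Agent.Lib.MP_696deb_nt.CntS1
import Pool.Agent.Lib.MP_696deb_nt.CntS2
import Pool.Agent.Lib.MP_696deb_nt.NabTors

-- part Pool.Agent.Lib.MP_696deb_nt.G3
section

/-! Two families of Heegner points of infinite order. -/

set_option autoImplicit false

open Complex Finset NumberTheorySymbols

namespace Pool.Agent.Lib.MP_696deb_nt.Gal

open Unif

variable {D r : ℤ} {Q Q' : Fm} {q l : ℕ}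

lemma not_fin {P U : Pt W1 ℂ} (hP : P ∈ Nab W1) {τ : ℂ ≃+* ℂ} (u2 : 2 • U ≠ 0) (u4 : 4 • U = 0)
    (h : pmap (τ : ℂ →+* ℂ) P + P = U) : ¬ IsOfFinAddOrder P := fun k => by
  obtain ⟨m, ⟨j, rfl⟩, i, e⟩ := TYZ.exists_odd (fun _ h => nab_tors h) hP k
  have h1 : (2 * j + 1) • U = (2 * i) • T1 := by
    rw [← h, smul_add, ← map_zsmul, e, map_zsmul, pmap_T1, two_mul i, add_smul]
  refine u2 ?_
  calc 2 • U = 2 • (2 * j + 1) • U - j • 4 • U := by module
    _ = i • 4 • T1 - j • 4 • U := by rw [h1]; module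
    _ = 0 := by rw [four_T1, u4]; simp

theorem not_tors_prime (l : ℕ) (ρ : ℤ) (T : Finset Fm) (hl : l.Prime) (hρ : 60 ∣ ρ ^ 2 + l)
    (hT : FReps (-l) ρ T) : ¬ Tors (hP 1 T) := fun h => by
  have h4 : ρ ^ 2 % 4 = 0 ∨ ρ ^ 2 % 4 = 1 := by
    have : ρ % 4 = 0 ∨ ρ % 4 = 1 ∨ ρ % 4 = 2 ∨ ρ % 4 = 3 := by omega
    rcases this with e | e | e | e <;> simp [pow_two, Int.mul_emod, e]
  have h5 : ρ ^ 2 % 5 ≠ 2 := by
    have : ρ % 5 = 0 ∨ ρ % 5 = 1 ∨ ρ % 5 = 2 ∨ ρ % 5 = 3 ∨ ρ % 5 = 4 := by omega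
    rcases this with e | e | e | e | e <;> simp [pow_two, Int.mul_emod, e]
  have h2 := hl.eq_two_or_odd
  have hn : Good l := ⟨hl.squarefree, by omega, Nat.Coprime.mul_right (m := 3) (n := 5)
    ((Nat.coprime_primes hl Nat.prime_three).mpr (by omega))
    ((Nat.coprime_primes hl Nat.prime_five).mpr (by omega))⟩
  have hR := hT.hreps
  obtain ⟨τ, U, u2, u4, e⟩ := conj_Zg hn (GInd.condB_prime hl) hρ hR (ε := fun _ => 1)
    ⟨by simp, by simp⟩
  refine not_fin (four_Zg_mem hn hR _) u2 u4 e (IsOfFinAddOrder.nsmul ?_)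
  convert (tors_u1 _).mpr (tors_iff.mp h) using 1
  rw [Zg, gen, filter_true_of_mem, hP, map_sum]
  · simp [gch]
  · intro Q hQ
    simpa [hl.primeFactors] using (sgn_hil hn (hR.mem Q hQ).disc (hR.mem Q hQ).pos).2

lemma condB_two (hq : q.Prime) (hl : l.Prime) (hJ : J((q : ℤ) | l) = -1) : CondB (q * l : ℕ) := by
  have hP := Nat.prime_iff_prime_int.mp hl
  have key : ∀ d d' : ℤ, d * d' = (q * l : ℕ) → 0 < d → (l : ℤ) ∣ d' → IsSquare (d : ZMod l) →
      d = 1 := by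
    rintro d _ h h0 ⟨e, rfl⟩ hs
    obtain ⟨d, rfl⟩ := Int.eq_ofNat_of_zero_le h0.le
    rcases (Nat.dvd_prime hq).mp (Int.natCast_dvd_natCast.mp ⟨e, mul_left_cancel₀ hP.ne_zero
      (by push_cast at h; linear_combination -h)⟩ : d ∣ q) with rfl | rfl
    · rfl
    · exact absurd hs (ZMod.nonsquare_of_jacobiSym_eq_neg_one hJ)
  intro d d' h h0 h1 h2
  rcases hP.dvd_or_dvd (a := d) (b := d') ⟨q, by rw [h]; push_cast; ring⟩ with k | k
  · refine .inr (key d' d (by rw [← h, mul_comm]) ((pos_iff_pos_of_mul_pos ?_).mp h0) k (h2 l hl k))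
    exact h ▸ Nat.cast_pos.mpr (mul_pos hq.pos hl.pos)
  · exact .inl (key d d' h h0 k (h1 l hl k))

lemma two_ms (hq : q % 15 = 2 ∨ q % 15 = 8) : 2 • u1 (ms q 15) ≠ 0 := by
  have h1 : ms 2 15 = -wp := by
    have := ms_Gamma0 (a := 2) (b := 1) (c := 1) (d := 8) (by norm_num) (x := -8) (y := 15) (by simp)
    rw [← ms_add_mul (-8) 15 1] at this
    norm_num [ms_zero, ms_gp] at this
    linear_combination -this
  have h2 : ms 8 15 = wp := by
    rw [← ms_add_mul 8 15 (-1), show (8 + -1 * 15 : ℤ) = -7 from rfl, ms_conj, ms_gp, conj_ofReal]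
  have h3 := kl.ne
  rw [two_mul, map_add, ← two_nsmul] at h3
  rw [← ms_add_mul q 15 (-(q / 15))]
  rcases hq with h | h
  · rwa [show (q + -(q / 15) * 15 : ℤ) = 2 by omega, h1, map_neg, smul_neg, neg_ne_zero]
  · rwa [show (q + -(q / 15) * 15 : ℤ) = 8 by omega, h2]

lemma feq_of_sh' (hq : q.Prime) (hb : (q : ℤ) ∣ Q.2.1) (h : (q : ℤ) ∣ Q.1)
    (h' : (q : ℤ) ∣ Q'.1) (h2 : ¬ (q : ℤ) * q ∣ fdisc Q) (e : FEq (sh q Q) (sh q Q')) :
    FEq Q Q' := by
  obtain ⟨x, w, y, z, e, k⟩ := e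
  obtain ⟨a, ha⟩ := h
  obtain ⟨a', ha'⟩ := h'
  obtain ⟨b, hb⟩ := hb
  have hP := Nat.prime_iff_prime_int.mp hq
  simp only [sh, fmap, fval, ha, ha', Int.mul_ediv_cancel_left _ hP.ne_zero, Prod.mk.injEq] at k
  obtain ⟨k1, k2, k3⟩ := k
  obtain ⟨w, rfl⟩ : (q : ℤ) ∣ w := by
    refine hP.dvd_of_dvd_pow (n := 2) ((hP.dvd_or_dvd (a := a) ⟨Q'.2.2 - b * w * z - Q.2.2 * z ^ 2, by
      linear_combination -k3 - w * z * hb⟩).resolve_left fun ⟨c, hc⟩ => h2 ⟨b ^ 2 - 4 * c * Q.2.2, ?_⟩)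
    rw [fdisc, ha, hb, hc]; ring
  refine ⟨x, w, q * y, z, by linear_combination e, Prod.ext ?_ (Prod.ext ?_
    (mul_right_cancel₀ hP.ne_zero ?_))⟩ <;> simp only [fmap, fval, ha, ha']
  · linear_combination q * k1
  · linear_combination k2
  · linear_combination k3

/-- The square of the shift by a ramified prime is a diamond operator. -/
lemma shift_twice (hD : D < 0) (hq : 0 < q) (hr : (q : ℤ) ∣ r) (hQ : IsHg D r Q)
    (h1 : 15 * (q : ℤ) ∣ Q.1) (h2 : 30 * (q : ℤ) ∣ Q.2.1 - r) (hc : IsCoprime (q : ℤ) 15) :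
    ∃ P, FEq (sh q Q) P ∧ 15 * (q : ℤ) ∣ P.1 ∧ 30 * (q : ℤ) ∣ P.2.1 - r ∧
      Fi (q * froot P) - Fi (froot P) + (Fi (q * froot Q) - Fi (froot Q)) = ms q 15 := by
  obtain ⟨b, d, e⟩ := exists_gamma hc
  obtain ⟨s1, s2⟩ := sh_spec hD hq hQ h1
  have f : FEq (sh q Q) _ := ⟨q, b, 1, d, e, rfl⟩
  have i := (s1.of_feq hD f).im_pos hD
  have q0 : (q : ℤ) ≠ 0 := by omega
  refine ⟨_, f, ?_, ?_, ?_⟩
  · obtain ⟨k, hk⟩ := h2
    obtain ⟨s, rfl⟩ := hr
    obtain ⟨a, ha⟩ := s1.lev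
    refine ⟨a * q + Q.2.1 + 15 * Q.2.2, ?_⟩
    simp only [fmap, fval, ha]
    simp only [sh]
    ring
  · obtain ⟨k, hk⟩ := h2
    obtain ⟨s, rfl⟩ := hr
    obtain ⟨a, ha⟩ := s1.lev
    refine ⟨a * b + b * (s + 30 * k) + Q.2.2 * d + k, ?_⟩
    simp only [fmap, fval, ha]
    simp only [sh]
    linear_combination (1 + 30 * b) * hk + Q.2.1 * e
  have k1 := mob_froot e (s1.disc ▸ hD) s1.pos
  generalize froot (fmap (sh q Q) q b (15 * 1) d) = τ at i k1
  have i' : 0 < (q * τ).im := by simpa using mul_pos (Nat.cast_pos.mpr hq) i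
  have k2 : froot Q = mob 1 b (15 * 1) (q * d) (q * τ) := by
    have q0 : (q : ℂ) ≠ 0 := by exact_mod_cast hq.ne'
    have := den_ne (by omega : q * d - b * (15 * 1) ≠ 0) i
    rw [← mul_right_inj' q0, ← s2, ← k1, mob, mob]
    push_cast at this ⊢
    field_simp
  have k3 := Fi_Gamma0 e i
  have k4 := Fi_Gamma0 (a := 1) (b := b) (c := 1) (d := q * d) (by linear_combination e) i'
  rw [← k2, mul_one, ms_parab0] at k4
  rw [k1, s2, mul_one] at k3
  rw [k3, k4]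
  ring

theorem not_tors_two (q l : ℕ) (ρ : ℤ) (T : Finset Fm) (hq : q.Prime) (hl : l.Prime)
    (h60 : q % 60 = 17 ∨ q % 60 = 53) (hn : Good (q * l)) (hJ : J((q : ℤ) | l) = -1)
    (hρ : 60 ∣ ρ ^ 2 + (q * l : ℕ)) (hT : FReps (-(q * l : ℕ)) ρ T) : ¬ Tors (hP l T) := fun h => by
  have hD := hn.neg
  have hne : q ≠ l := by rintro rfl; exact hq.not_isUnit (hn.sqf q dvd_rfl)
  have hF : (q * l).primeFactors = {q, l} := by
    rw [Nat.primeFactors_mul hq.ne_zero hl.ne_zero, hq.primeFactors, hl.primeFactors]; rfl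
  have hl' : l ∈ (q * l).primeFactors := by simp [hF]
  have pq := Nat.prime_iff_prime_int.mp hq
  have nd : ∀ k : ℕ, k ∣ 30 → ¬ (q : ℤ) ∣ k := fun k h1 h => by
    have := Nat.le_of_dvd (by norm_num) ((Int.natCast_dvd_natCast.mp h).trans h1)
    obtain rfl : q = 17 := by omega
    simpa using (Int.natCast_dvd_natCast.mp h).trans h1
  have c30 : IsCoprime (q : ℤ) 30 := pq.coprime_iff_not_dvd.mpr (nd 30 dvd_rfl)
  have c15 : IsCoprime (q : ℤ) 15 := pq.coprime_iff_not_dvd.mpr (nd 15 (by norm_num))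
  have hs : ¬ (q : ℤ) * q ∣ -(q * l : ℕ) := fun k =>
    hq.not_isUnit (hn.sqf q (by exact_mod_cast dvd_neg.mp k))
  have ho := odd_card_gen hn (condB_two hq hl hJ) hρ hT.hreps (ε := fun _ => 1) ⟨by simp, by simp⟩
  have e1 : Sgn (q * l) fun _ => -1 := ⟨by simp, by simp [hF, hne]⟩
  have hη : ∀ p ∈ (q * l).primeFactors, hil (q * l) p q = -1 := by
    have k1 : hil (q * l) l q = -1 := by rwa [hil_of_not_dvd hl (not_dvd_of_prime_ne hl hq hne.symm)]
    have k2 := hil_self_eq hn (q := q) (by simp [hF])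
    rw [hF, erase_insert (by simpa using hne), prod_singleton, hJ] at k2
    simp [hF, k1, k2]
  obtain ⟨r, hR, hr⟩ : ∃ r, HReps (-(q * l : ℕ)) r T ∧ (q : ℤ) ∣ r := by
    obtain ⟨u, v, e⟩ := c30
    exact ⟨ρ * u * q, hT.hreps.congr ⟨ρ * v, by linear_combination -ρ * e⟩, dvd_mul_left _ _⟩
  have : ∀ Q ∈ T, ∃ P, FEq Q P ∧ IsHg (-(q * l : ℕ)) r P ∧ 15 * (q : ℤ) ∣ P.1 ∧
      30 * (q : ℤ) ∣ P.2.1 - r := fun Q hQ => by
    obtain ⟨a, b, c, d, e, k1, k2⟩ := exists_type (r := r) Q (N := 15) pq (nd 2 (by norm_num))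
      (nd 15 (by norm_num)) (dvd_sub (dvd_pow hr two_ne_zero) (by simp [(hR.mem Q hQ).disc]))
    have k3 := (hR.mem Q hQ).of_feq hD ⟨a, b, c, d, e, rfl⟩
    exact ⟨_, ⟨a, b, c, d, e, rfl⟩, k3, c15.symm.mul_dvd k3.lev k1, c30.symm.mul_dvd k3.res k2⟩
  choose! ψ p1 p2 p3 p4 using this
  have s1 := fun Q hQ => sh_spec hD hq.pos (p2 Q hQ) (p3 Q hQ)
  choose! φ q1 q2 using fun Q hQ => hR.ex _ (s1 Q hQ).1
  have hb : ∀ {P : Fm}, 30 * (q : ℤ) ∣ P.2.1 - r → (q : ℤ) ∣ P.2.1 := fun k => by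
    simpa using dvd_add ((dvd_mul_left _ _).trans k) hr
  have i1 : Set.InjOn φ T := fun Q hQ Q' hQ' e => hR.uniq Q hQ Q' hQ' (((p1 Q hQ).trans
    (feq_of_sh' hq (hb (p4 Q hQ)) ((dvd_mul_left _ _).trans (p3 Q hQ))
      ((dvd_mul_left _ _).trans (p3 Q' hQ')) ((p2 Q hQ).disc ▸ hs)
      ((q2 Q hQ).symm.trans (e ▸ q2 Q' hQ')))).trans (p1 Q' hQ').symm)
  have bz : ∀ {P : Fm}, IsHg (-(q * l : ℕ)) r P → 15 * (q : ℤ) ∣ P.1 → 30 * (q : ℤ) ∣ P.2.1 - r →
      ∃ x y z : ℤ, x * r + y * q + z * (15 * P.2.2) = 1 := fun {P} k1 k2 k3 => by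
    obtain ⟨y, z, e⟩ := c15.mul_right (pq.coprime_iff_not_dvd.mpr fun k => hs (k1.disc ▸ dvd_sub
      (by rw [pow_two]; exact mul_dvd_mul (hb k3) (hb k3)) (mul_dvd_mul
        (((dvd_mul_left _ _).trans k2).mul_left _) k)) : IsCoprime (q : ℤ) P.2.2)
    exact ⟨0, y, z, by simpa using e⟩
  let F : Fm → Pt W1 ℂ := fun Q => u1 (Fi (q * froot (ψ Q))) - u1 (Fi (froot (ψ Q)))
  have hφ : ∀ {M : Type} [AddCommMonoid M] (f : Fm → M), ∑ Q ∈ gen (q * l) T fun _ => 1, f (φ Q) =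
      ∑ Q ∈ gen (q * l) T fun _ => -1, f Q := fun f => sum_gen i1 (η := fun _ => -1)
    (fun Q hQ => ⟨q1 Q hQ, fun p hp => by
      rw [← hil_feq hn.sqf hp (hR.mem _ (q1 Q hQ)) (q2 Q hQ), sh,
        hil_mul (Nat.prime_of_mem_primeFactors hp), hil_feq hn.sqf hp (hR.mem _ hQ) (p1 Q hQ),
        hη p hp, mul_comm]⟩) (by simp) (by simp) f
  have key : (Zg (q * l) T fun _ => -1) - (Zg (q * l) T fun _ => 1) -
      ∑ Q ∈ gen (q * l) T fun _ => 1, F Q ∈ C15 := by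
    rw [Zg, Zg, ← hφ, ← sum_sub_distrib, ← sum_sub_distrib]
    refine sum_mem fun Q hQ => ?_
    replace hQ := mem_of_mem_filter _ hQ
    convert sub_mem (sub_mem_C15 hD (hR.mem _ (q1 Q hQ)) (q2 Q hQ))
      (sub_mem_C15 hD (hR.mem _ hQ) (p1 Q hQ)) using 1
    simp only [F, (s1 Q hQ).2]
    abel
  have hZ : (Zg (q * l) T fun _ => 1) - (Zg (q * l) T fun _ => -1) = u1 (hP l T) := by
    rw [Zg, Zg, gen, gen, sum_filter, sum_filter, ← sum_sub_distrib, hP, map_sum]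
    refine sum_congr rfl fun Q hQ => ?_
    obtain ⟨k1, k2⟩ := sgn_hil hn (hR.mem Q hQ).disc (hR.mem Q hQ).pos
    rw [← hil_eq_gch hn hl' (hR.mem Q hQ).disc, ← zsmul_eq_mul, map_zsmul]
    rw [hF, prod_pair hne] at k2
    rcases Int.eq_one_or_neg_one_of_mul_eq_one' k2 with k | k <;> simp [hF, k]
  obtain ⟨κ, -, k1, k2, -⟩ := exists_prime_sgn hn e1 0
  have k3 : J((κ : ℤ) | q * l) = 1 := by rw [jac_eq_prod _ hn.sqf, prod_congr rfl k2, e1.2]
  obtain ⟨σ, hσ⟩ := exists_aut_zeta (N := q * l) (by omega) (a := κ) (Int.isCoprime_iff_gcd_eq_one.mpr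
    (by_contra fun k => by simp [jacobiSym.eq_zero_iff.mpr ⟨hn.sqf.ne_zero, k⟩] at k3))
  obtain ⟨β, b1, b2⟩ := gal_gen hn hR hσ k3
  obtain ⟨j, hj⟩ := ho
  have u4 : 4 • u1 (ms q 15) = 0 := by
    obtain ⟨b, d, e⟩ := exists_gamma c15
    exact (u1_L15 (by simpa using ms_mem e)).1
  refine not_fin (P := ∑ Q ∈ gen (q * l) T fun _ => 1, F Q) (τ := σ) (U := (2 * j + 1) • u1 (ms q 15))
    ?_ (fun k => two_ms (q := q) (by omega) ?_) (by rw [smul_comm, u4, smul_zero]) ?_ ?_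
  · convert sub_mem (Zg_sub_mem hn hR ⟨by simp, by simp⟩ e1 (ε := fun _ => 1))
      (⟨1, by norm_num, fun σ _ => (C15_spec key).2 σ⟩ : _ ∈ Nab W1) using 1
    abel
  · calc 2 • u1 (ms q 15) = 2 • (2 * j + 1) • u1 (ms q 15) - j • 4 • u1 (ms q 15) := by module
      _ = 0 := by rw [k, u4]; simp
  · rw [map_sum, sum_congr rfl (g := fun Q => F (β Q)), sum_gen b1 (η := fun _ => -1) (ε' := fun _ => -1)
      (fun Q hQ => ⟨(b2 Q hQ).1, fun p hp => by rw [(b2 Q hQ).2.1 p hp, k2 p hp]⟩) (by simp) (by simp),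
      ← hφ, ← sum_add_distrib, ← hj, ← sum_const]
    · refine sum_congr rfl fun Q hQ => ?_
      replace hQ := mem_of_mem_filter _ hQ
      have h3 := q1 Q hQ
      obtain ⟨P, t1, t2, t3, t4⟩ := shift_twice hD hq.pos hr (p2 Q hQ) (p3 Q hQ) (p4 Q hQ) c15
      have t5 := (s1 Q hQ).1.of_feq hD t1
      have := gal_shift' (σ := RingEquiv.refl ℂ) hD hq.pos (p2 _ h3) (p3 _ h3) (p4 _ h3)
        (bz (p2 _ h3) (p3 _ h3) (p4 _ h3)) (bz t5 t2 t3) t5 t2 t3 rfl (by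
          rw [pmap_refl]
          exact (feq_iff_pt hD (p2 _ h3) t5).mp (((p1 _ h3).symm.trans (q2 Q hQ)).trans t1))
      rw [pmap_refl] at this
      simp only [F, this, ← t4, map_add, map_sub]
    intro Q hQ
    replace hQ := mem_of_mem_filter _ hQ
    have h3 := (b2 Q hQ).1
    refine gal_shift' hD hq.pos (p2 Q hQ) (p3 Q hQ) (p4 Q hQ) (bz (p2 _ hQ) (p3 _ hQ) (p4 _ hQ))
      (bz (p2 _ h3) (p3 _ h3) (p4 _ h3)) (p2 _ h3) (p3 _ h3) (p4 _ h3)
      (by simpa [k3] using aut_del hn hσ) ?_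
    rw [← (feq_iff_pt hD (hR.mem _ hQ) (p2 _ hQ)).mp (p1 _ hQ),
      ← (feq_iff_pt hD (hR.mem _ h3) (p2 _ h3)).mp (p1 _ h3), (b2 Q hQ).2.2]
  · have t1 := (tors_u1 _).mpr (tors_iff.mp h)
    have t2 := isOfFinAddOrder_iff_nsmul_eq_zero.mpr ⟨4, by norm_num, (C15_spec key).1⟩
    convert (t1.add t2).neg using 1
    rw [← hZ]
    abel

end Pool.Agent.Lib.MP_696deb_nt.Gal
end

-- part Pool.Agent.Lib.MP_696deb_nt.CntMatch1
section

/-! The count of pairs for the Hecke operator at two agrees with the count for the split family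
of discriminant four. -/

set_option autoImplicit false

open Finset NumberTheorySymbols

namespace Pool.Agent.Lib.MP_696deb_nt

open Tern

namespace M1

variable {n : ℕ}

/-- The weight of a factorization. -/
def nu (n : ℕ) (a e : ℤ) : ℤ :=
  ∏ p ∈ n.primeFactors, if (p : ℤ) ∣ a then J(e | p) else J(15 * a | p)

/-- The weighted number of factorizations. -/
def SS (n M : ℕ) : ℤ := ∑ x ∈ M.divisorsAntidiagonal, nu n x.1 x.2

theorem SS_eq (hn : Good n) (t : ℤ) (M : ℕ) : SS n M = J(15 | n) * CF n 1 t M := by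
  simpa [muW, SS, nu] using sum_muW (A := 1) (B := n) (t := t) (M := M) (by simpa using hn) (by simp)

theorem not_two (hn : Good n) {p : ℕ} (hp : p ∈ n.primeFactors) : ¬ (p : ℤ) ∣ 2 := fun h => by
  have h1 : p ∣ 2 := by exact_mod_cast h
  have h2 := (Nat.prime_dvd_prime_iff_eq (Nat.prime_of_mem_primeFactors hp) Nat.prime_two).mp h1
  have h3 := h2 ▸ Nat.dvd_of_mem_primeFactors hp
  have := hn.mod4
  omega

theorem nu_mul (hn : Good n) (i j : ℕ) (h : Even (i + j)) (a e : ℤ) :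
    nu n (2 ^ i * a) (2 ^ j * e) = J(2 | n) ^ i * nu n a e := by
  rw [nu, nu, jac_eq_prod _ hn.sqf, ← prod_pow, ← prod_mul_distrib]
  refine prod_congr rfl fun p hp => ?_
  have hp' := Nat.prime_of_mem_primeFactors hp
  have hp2 := Nat.prime_iff_prime_int.mp hp'
  have h1 : (p : ℤ) ∣ 2 ^ i * a ↔ (p : ℤ) ∣ a := by
    rw [hp2.dvd_mul, or_iff_right fun k => not_two hn hp (hp2.dvd_of_dvd_pow k)]
  simp only [h1]
  split_ifs
  · rw [jacobiSym.mul_left, jacobiSym.pow_left]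
    congr 1
    rcases jacobiSym.eq_one_or_neg_one (a := 2) (b := p) (Int.isCoprime_iff_gcd_eq_one.mp
      ((hp2.coprime_iff_not_dvd).mpr (not_two hn hp)).symm) with k | k <;> rw [k]
    · simp
    · rw [neg_one_pow_eq_pow_mod_two, neg_one_pow_eq_pow_mod_two i,
        show j % 2 = i % 2 by obtain ⟨c, hc⟩ := h; omega]
  · rw [mul_left_comm, jacobiSym.mul_left, jacobiSym.pow_left]

theorem sum_sc {g h M : ℕ} (hg : 0 < g) (hh : 0 < h) (F : ℕ → ℕ → ℤ)
    (hF : ∀ a e, a * e = g * h * M → F a e ≠ 0 → g ∣ a ∧ h ∣ e) :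
    ∑ x ∈ (g * h * M).divisorsAntidiagonal, F x.1 x.2 =
      ∑ x ∈ M.divisorsAntidiagonal, F (g * x.1) (h * x.2) := by
  symm
  refine sum_of_injOn (fun x => (g * x.1, h * x.2)) (fun x _ y _ k => ?_) (fun x hx => ?_)
    (fun x hx k => by_contra fun k' => ?_) fun _ _ => rfl
  · simp only [Prod.mk.injEq, Nat.mul_right_inj hg.ne', Nat.mul_right_inj hh.ne'] at k
    exact Prod.ext k.1 k.2
  · obtain ⟨rfl, k⟩ := Nat.mem_divisorsAntidiagonal.mp hx
    exact Nat.mem_divisorsAntidiagonal.mpr ⟨by ring, mul_ne_zero (mul_pos hg hh).ne' k⟩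
  · obtain ⟨a, e⟩ := x
    obtain ⟨h1, h2⟩ := Nat.mem_divisorsAntidiagonal.mp hx
    obtain ⟨⟨a, rfl⟩, e, rfl⟩ := hF a e h1 k'
    exact k ⟨(a, e), mem_coe.mpr (Nat.mem_divisorsAntidiagonal.mpr ⟨Nat.eq_of_mul_eq_mul_left
      (mul_pos hg hh) (by rw [← h1]; ring), right_ne_zero_of_mul h2⟩), rfl⟩

theorem SS_four (hn : Good n) (M : ℕ) : SS n (4 * M) = J(2 | n) * SS n M +
    ∑ x ∈ M.divisorsAntidiagonal,
      ((if x.1 % 2 = 1 then nu n x.1 x.2 else 0) + if x.2 % 2 = 1 then nu n x.1 x.2 else 0) := by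
  have h1 := sum_sc (M := M) two_pos two_pos (fun a e => if 2 ∣ a ∧ 2 ∣ e then nu n a e else 0)
    fun a e _ h => by_contra fun k => h (if_neg k)
  have h2 := sum_sc (M := M) one_pos four_pos (fun a e => if a % 2 = 1 then nu n a e else 0)
    fun a e h h' => ⟨one_dvd _, Nat.Coprime.dvd_of_dvd_mul_left (k := 4) (n := e) (m := a)
      ((Nat.coprime_two_left.mpr (Nat.odd_iff.mpr (by_contra fun k => h' (if_neg k)))).pow_left 2)
      ⟨M, h⟩⟩
  have h3 := sum_sc (M := M) four_pos one_pos (fun a e => if e % 2 = 1 then nu n a e else 0)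
    fun a e h h' => ⟨Nat.Coprime.dvd_of_dvd_mul_right (k := 4) (n := e) (m := a)
      ((Nat.coprime_two_left.mpr (Nat.odd_iff.mpr (by_contra fun k => h' (if_neg k)))).pow_left 2)
      ⟨M, h⟩, one_dvd _⟩
  have k1 := fun a e => nu_mul hn 1 1 (by decide) a e
  have k2 := fun a e => nu_mul hn 0 2 (by decide) a e
  have k3 := fun a e => nu_mul hn 2 0 (by decide) a e
  have k4 : J(2 | n) ^ 2 = 1 := jacobiSym.sq_one
    (Nat.Coprime.coprime_dvd_right (show 2 ∣ 30 by norm_num) (Good.coprime30 hn)).symm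
  norm_num [k4] at k1 k2 k3
  simp only [dvd_mul_right, and_self, if_true, Nat.cast_mul, Nat.cast_ofNat, one_mul, mul_one,
    k1, k2, k3, Nat.reduceMul] at h1 h2 h3
  rw [sum_add_distrib, SS, SS, mul_sum, ← h1, ← h2, ← h3, ← sum_add_distrib, ← sum_add_distrib]
  refine sum_congr rfl fun x hx => ?_
  have h4 := (Nat.mem_divisorsAntidiagonal.mp hx).1
  have h5 : ¬ (x.1 % 2 = 1 ∧ x.2 % 2 = 1) := fun ⟨a, b⟩ => by
    have := Nat.odd_mul_odd a b
    omega
  split_ifs <;> omega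

theorem SS_inert (hn : Good n) (h : J(2 | n) = -1) (M : ℕ) : SS n (4 * M) = SS n M := by
  have h1 := rr_four (n := n) (k := M)
  rw [SS_eq hn 0, SS_eq hn 0, CF, CF, show rr n (4 * M) = rr n M by rw [h] at h1; linarith]
  congr 2
  refine prod_congr rfl fun p hp => ?_
  have hp' := Nat.prime_of_mem_primeFactors hp
  have h2 : p ∣ 4 * M ↔ p ∣ M := by
    rw [hp'.dvd_mul, or_iff_right fun k => not_two hn hp ?_]
    exact_mod_cast hp'.dvd_of_dvd_pow (n := 2) (m := 2) k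
  simp only [lamP, if_neg hp'.not_dvd_one, h2, Nat.cast_mul, hil_mul hp']
  rw [show ((4 : ℕ) : ℤ) = 2 ^ 2 by norm_num,
    hil_of_sq hn.sqf hp' (Nat.dvd_of_mem_primeFactors hp) two_ne_zero, one_mul]

theorem line_two (hn : Good n) {D β s : ℤ} {N : ℕ} (hD : (n : ℤ) ∣ D) (hN : s ^ 2 - D = 15 * N)
    (h0 : N ≠ 0) (hβ : 15 ∣ s - β) (ho : β % 2 = 1) (k : ℤ) :
    ∑ᶠ Q : Fm, (if fbil (0, 2, -k) Q = 2 * s ∧ 0 < Q.1 then wG n D β Q else 0) =
      ∑ x ∈ N.divisorsAntidiagonal,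
        if (s - 15 * x.1 * k) % 2 = 1 ∧ 4 ∣ x.2 + 15 * x.1 * k ^ 2 - 2 * k * s then nu n x.1 x.2
        else 0 := by
  rw [← sum_filter]
  set S := N.divisorsAntidiagonal.filter fun x =>
    (s - 15 * x.1 * k) % 2 = 1 ∧ 4 ∣ x.2 + 15 * x.1 * k ^ 2 - 2 * k * s with hS
  let g : ℕ × ℕ → Fm := fun x =>
    (15 * x.1, s - 15 * x.1 * k, (x.2 + 15 * x.1 * k ^ 2 - 2 * k * s) / 4)
  rw [finsum_eq_sum_of_support_subset _ (s := S.image g) fun R hR => ?_,
    sum_image fun x hx y hy h => ?_]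
  · refine sum_congr rfl ?_
    rintro ⟨a, e⟩ hx
    obtain ⟨h1, hb, c, hc⟩ := mem_filter.mp hx
    have h2 : (a : ℤ) * e = N := by exact_mod_cast (Nat.mem_divisorsAntidiagonal.mp h1).1
    have h6 : (0 : ℤ) < a := by
      exact_mod_cast Nat.pos_of_mem_divisors (Nat.fst_mem_divisors_of_mem_antidiagonal h1)
    simp only at hb hc
    have h3 : g (a, e) = (15 * (a : ℤ), s - 15 * a * k, c) := by
      simp only [g, hc, Int.mul_ediv_cancel_left _ four_ne_zero]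
    have h5 : fdisc (15 * (a : ℤ), s - 15 * a * k, c) = D := by
      simp only [fdisc]
      linear_combination 15 * a * hc - 15 * h2 + hN
    rw [h3, if_pos ⟨by simp only [fbil]; ring, by positivity⟩, wG,
      if_pos ⟨dvd_mul_right _ _, h5, by
        generalize hz : (a : ℤ) * k = z
        simp only [mul_assoc, hz] at hb ⊢
        omega⟩, gch, nu]
    refine prod_congr rfl fun p hp => ?_
    obtain ⟨hp', h7, h8⟩ := prime_facts hn.cop hp
    have hp2 := Nat.prime_iff_prime_int.mp hp'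
    have h9 : (p : ℤ) ∣ 15 * a ↔ (p : ℤ) ∣ a := by
      rw [show (15 : ℤ) = 3 * 5 by norm_num, hp2.dvd_mul, hp2.dvd_mul]
      tauto
    simp only [h9]
    split_ifs with ha
    · obtain ⟨a', ha⟩ := ha
      obtain ⟨d, hd⟩ := dvd_of_mem hD hp
      obtain ⟨s', hs⟩ := hp2.dvd_of_dvd_pow (n := 2) (show (p : ℤ) ∣ s ^ 2 from
        ⟨d + 15 * a' * e, by linear_combination hN + hd - 15 * h2 + 15 * e * ha⟩)
      rw [← jac_mul_sq hp' (not_two hn hp)]
      exact jac_congr ⟨15 * a' * k ^ 2 - 2 * k * s', by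
        linear_combination -hc + 15 * k ^ 2 * ha - 2 * k * hs⟩
    · rfl
  · simp only [g, Prod.mk.injEq, mul_right_inj' (show (15 : ℤ) ≠ 0 by norm_num), Nat.cast_inj] at h
    have h1 := (Nat.mem_divisorsAntidiagonal.mp (mem_filter.mp hx).1).1
    have h2 := (Nat.mem_divisorsAntidiagonal.mp (mem_filter.mp hy).1).1
    exact Prod.ext h.1 (mul_left_cancel₀ (left_ne_zero_of_mul (h1 ▸ h0)) (by rw [h1, h.1, h2]))
  · obtain ⟨_, b, c⟩ := R
    simp only [Function.mem_support, ne_eq, ite_eq_right_iff, Classical.not_imp] at hR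
    obtain ⟨⟨h1, h5⟩, h2⟩ := hR
    obtain ⟨⟨a, rfl⟩, h4, h6⟩ := fam_of_wG h2
    simp only [fbil, fdisc] at h1 h4 h6
    lift a to ℕ using by omega
    obtain rfl : b = s - 15 * a * k := by linarith
    have h7 : (a : ℤ) * (4 * c - 15 * a * k ^ 2 + 2 * k * s) = N :=
      mul_left_cancel₀ (show (15 : ℤ) ≠ 0 by norm_num) (by linear_combination hN - h4)
    obtain ⟨e, he⟩ := Int.eq_ofNat_of_zero_le (nonneg_of_mul_nonneg_right
      (h7 ▸ Int.natCast_nonneg N) (by omega : (0 : ℤ) < a))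
    have h8 : (e : ℤ) + 15 * a * k ^ 2 - 2 * k * s = 4 * c := by linarith
    refine mem_coe.mpr (mem_image.mpr ⟨(a, e), mem_filter.mpr
      ⟨Nat.mem_divisorsAntidiagonal.mpr ⟨by exact_mod_cast he ▸ h7, h0⟩, by
        clear h2 h7 h8 he h4 h1
        generalize 15 * (a : ℤ) * k = z at h6 ⊢
        omega, c, h8⟩, ?_⟩)
    simp only [g, h8, Int.mul_ediv_cancel_left _ four_ne_zero]

/-- The split family of discriminant four at the cusp at infinity. -/
def wU2 (R : Fm) : ℤ := if Fam 4 2 R then (if Ev2 R then -1 else 1) else 0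

theorem ev2_fmap {R : Fm} (h : Ev2 R) (a b c d : ℤ) : Ev2 (fmap R a b c d) := by
  obtain ⟨⟨x, hx⟩, ⟨y, hy⟩, z, hz⟩ := h
  simp only [Ev2, fmap, fval, hx, hy, hz]
  exact ⟨⟨x * a ^ 2 + y * a * c + z * c ^ 2, by ring⟩,
    ⟨2 * x * a * b + y * (a * d + b * c) + 2 * z * c * d, by ring⟩,
    x * b ^ 2 + y * b * d + z * d ^ 2, by ring⟩

theorem ev2_feq {Q R : Fm} (h : FEq Q R) (h' : Ev2 Q) : Ev2 R := by
  obtain ⟨a, b, c, d, -, rfl⟩ := h
  exact ev2_fmap h' _ _ _ _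

theorem wU2_inv (Q R : Fm) (h : FEq Q R) : wU2 R = wU2 Q :=
  if_congr ⟨h.symm.fam, h.fam⟩ (if_congr ⟨ev2_feq h.symm, ev2_feq h⟩ rfl rfl) rfl

theorem wV2_eq (R : Fm) (h : 15 ∣ R.1) : wV2 R = wU2 (fW R) := by
  have k : ∀ {R : Fm}, Ev2 R → 15 ∣ R.1 → Ev2 (fW R) := fun h h' => by
    simp only [Ev2, fW] at *
    omega
  refine if_congr ⟨fun h1 => ?_, fun h1 => (feq_fW_fW h).symm.fam (fW_fam h1)⟩
    (if_congr ⟨fun h1 => k h1 h, fun h1 => ev2_feq (feq_fW_fW h).symm (k h1 (fW_lev h))⟩ rfl rfl) rfl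
  have h2 := fW_fam h1
  exact ⟨h2.1, h2.2.1, by have := h2.2.2; omega⟩

theorem finite_def {Q : Fm} (hD : fdisc Q < 0) (hQ : 0 < Q.1) (e t : ℤ) :
    {R : Fm | fdisc R = e ∧ fbil Q R = t}.Finite := by
  have h1 := im_froot_pos hD hQ
  refine ((finite_side e h1 |-t / √(-fdisc Q : ℝ) * (froot Q).im|).union
    (((Set.finite_Icc (-|e|) |e|).image fun b => ((0, b, (Q.2.1 * b - t) / (2 * Q.1)) : Fm)))).subset
    fun R ⟨h2, h3⟩ => ?_
  by_cases h4 : R.1 = 0
  · obtain ⟨_, b, c⟩ := R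
    subst h4
    simp only [fdisc, fbil] at h2 h3
    refine Or.inr ⟨b, abs_le.mp ?_, ?_⟩
    · rw [← h2, mul_zero, zero_mul, sub_zero, abs_pow]
      exact Int.le_self_sq _
    · simp only [← h3, show Q.2.1 * b - (Q.2.1 * b - 2 * Q.1 * c - 2 * Q.2.2 * 0) = 2 * Q.1 * c by ring,
        Int.mul_ediv_cancel_left _ (show 2 * Q.1 ≠ 0 by omega)]
  · exact Or.inl ⟨h2, h4, by rw [← h3, ← fside_froot hD hQ, div_mul_cancel₀ _ h1.ne']⟩

theorem cntP_wHk {D ρ d β : ℤ} (hD : D < 0) {T : Finset Fm} (hT : FReps D ρ T) (h4 : d % 4 = 1)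
    (ho : β % 2 = 1) (s : ℤ) : cntP T (fun _ => 1) (wHk d β) (2 * s) =
      cntP T (gch 1) (wG 1 (4 * d) (2 * β)) (2 * s) +
        (if d % 8 = 1 then -2 else -4) * cntP T (gch 1) (wG 1 d β) s := by
  simp only [cntP, mul_sum, ← sum_add_distrib, gch, Nat.primeFactors_one, prod_empty, one_mul]
  refine sum_congr rfl fun Q hQ => ?_
  have hf := finite_def ((hT.fam Q hQ).2.1 ▸ hD) (hT.pos Q hQ) (4 * d) (2 * s)
  let g : Fm → Fm := fun R => (2 * R.1, 2 * R.2.1, 2 * R.2.2)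
  have hg : Function.Injective g := fun R R' h => by
    simp only [g, Prod.ext_iff] at h ⊢
    omega
  let F : Fm → ℤ := fun R => if fbil Q R = 2 * s ∧ Fam (4 * d) (2 * β) R ∧ Ev2 R then 1 else 0
  have h1 : ∑ᶠ R, (if fbil Q R = s then wG 1 d β R else 0) = ∑ᶠ R, F R := by
    rw [← finsum_mem_univ F, finsum_mem_inter_support_eq F _ (Set.range g), finsum_mem_range hg]
    · refine finsum_congr fun R => ?_
      have e1 : fbil Q (g R) = 2 * fbil Q R := by simp only [fbil, g]; ring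
      have e2 : fdisc (g R) = 4 * fdisc R := by simp only [fdisc, g]; ring
      simp only [F, wG, gch, Nat.primeFactors_one, prod_empty, e1, ← ite_and, Fam, e2]
      refine if_congr (and_congr (by omega) ⟨fun h => ⟨by simp only [g]; omega, by simp [Ev2, g]⟩,
        fun ⟨h, _⟩ => ?_⟩) rfl rfl
      have h2 : R.2.1 % 2 = 1 := by
        have h3 : R.2.1 ^ 2 = 4 * (R.1 * R.2.2) + d := by
          have := h.2.1
          simp only [fdisc] at this
          linarith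
        rcases Int.emod_two_eq_zero_or_one R.2.1 with k | k
        · have := Int.even_pow (m := R.2.1) (n := 2)
          simp only [Int.even_iff] at this
          omega
        · exact k
      simp only [g] at h
      omega
    · ext R
      refine ⟨fun h => ⟨?_, h.2⟩, fun h => ⟨trivial, h.2⟩⟩
      obtain ⟨⟨x, hx⟩, ⟨y, hy⟩, z, hz⟩ : Ev2 R := by_contra fun k => h.2 (if_neg fun k' => k k'.2.2)
      exact ⟨(x, y, z), Prod.ext hx.symm (Prod.ext hy.symm hz.symm)⟩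
  rw [h1, mul_finsum, ← finsum_add_distrib (hf.subset fun R hR => ?_) (hf.subset fun R hR => ?_)]
  · refine finsum_congr fun R => ?_
    simp only [F, wHk, wG, gch, Nat.primeFactors_one, prod_empty]
    by_cases k1 : fbil Q R = 2 * s <;> by_cases k2 : Fam (4 * d) (2 * β) R <;>
      by_cases k3 : Ev2 R <;> simp [k1, k2, k3]
  · have h3 : fbil Q R = 2 * s := by_contra fun h => hR (if_neg h)
    exact ⟨(fam_of_wG fun h => hR ((if_pos h3).trans h)).2.1, h3⟩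
  · have h3 : fbil Q R = 2 * s ∧ Fam (4 * d) (2 * β) R ∧ Ev2 R :=
      by_contra fun h => hR (mul_eq_zero_of_right _ (if_neg h))
    exact ⟨h3.2.1.2.1, h3.1⟩

theorem odd_of_sq {x y : ℤ} (h : 60 ∣ x ^ 2 + y) (hy : y % 2 = 1) : x % 2 = 1 := by
  have := Int.even_pow (m := x) (n := 2)
  simp only [Int.even_iff] at this
  omega

theorem sq_mod_eight {s : ℤ} (h : s % 2 = 1) : s ^ 2 % 8 = 1 := by
  obtain ⟨k, rfl⟩ : ∃ k, s = 2 * k + 1 := ⟨s / 2, by omega⟩
  obtain ⟨j, hj⟩ := Int.even_mul_succ_self k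
  rw [show (2 * k + 1) ^ 2 = 1 + 8 * j by linear_combination 4 * hj]
  omega

theorem odd_case (hn : Good n) {d s : ℤ} {M : ℕ} (h4 : d % 4 = 1) (hs : s % 2 = 1)
    (hN : s ^ 2 + n * d = 60 * M) : SS n (4 * M) + (if d % 8 = 1 then -2 else -4) * SS n M =
      (-1 * ∑ x ∈ (4 * M).divisorsAntidiagonal,
        if s % 2 = 1 ∧ 4 ∣ (x.2 : ℤ) then nu n x.1 x.2 else 0) +
      ∑ x ∈ (4 * M).divisorsAntidiagonal,
        if (s - 15 * x.1) % 2 = 1 ∧ 4 ∣ (x.2 : ℤ) + 15 * x.1 - 2 * s then nu n x.1 x.2 else 0 := by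
  have e1 := sum_sc (M := M) one_pos four_pos
    (fun a e => if s % 2 = 1 ∧ 4 ∣ (e : ℤ) then nu n a e else 0) fun a e _ h' =>
      ⟨one_dvd _, by_contra fun k => h' (if_neg (by omega))⟩
  have e2 := sum_sc (M := M) two_pos two_pos
    (fun a e => if (s - 15 * a) % 2 = 1 ∧ 4 ∣ (e : ℤ) + 15 * a - 2 * s then nu n a e else 0)
    fun a e _ h' => by_contra fun k => h' (if_neg (by omega))
  have k2 := fun a e => nu_mul hn 0 2 (by decide) a e
  have k1 := fun a e => nu_mul hn 1 1 (by decide) a e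
  norm_num at k1 k2
  simp only [Nat.reduceMul, one_mul, Nat.cast_mul, Nat.cast_ofNat, k1, k2] at e1 e2
  replace e1 := e1.trans (sum_congr rfl fun x _ => if_pos ⟨hs, dvd_mul_right _ _⟩)
  rw [e1, e2, ← SS]
  have n4 := hn.mod4
  have no : Odd n := Nat.odd_iff.mpr (by omega)
  have s8 := sq_mod_eight hs
  have e3 := SS_four hn M
  have j2 := jacobiSym.at_two no
  rw [ZMod.χ₈_nat_eq_if_mod_eight, if_neg (by omega)] at j2
  have h8 : (n * d : ℤ) % 8 = (n % 8 * (d % 8)) % 8 := Int.mul_emod _ _ _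
  rcases Nat.mod_two_eq_zero_or_one M with hM | hM
  · rw [sum_congr rfl (g := fun x => J(2 | n) * ((if x.1 % 2 = 1 then nu n x.1 x.2 else 0) +
      if x.2 % 2 = 1 then nu n x.1 x.2 else 0)) fun x hx => ?_, ← mul_sum]
    · rcases (by omega : n % 8 = 7 ∨ n % 8 = 3) with k | k
      · rw [show (n : ℤ) % 8 = 7 by omega] at h8
        rw [if_pos (Or.inr k)] at j2
        rw [e3, j2, if_pos (by omega)]
        ring
      · rw [show (n : ℤ) % 8 = 3 by omega] at h8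
        rw [if_neg (by omega)] at j2
        have e4 := SS_inert hn j2 M
        rw [j2] at e3 ⊢
        rw [if_neg (by omega)]
        linarith
    · have h5 : ¬ (x.1 % 2 = 1 ∧ x.2 % 2 = 1) := fun ⟨a, b⟩ => by
        have := Nat.odd_mul_odd a b
        rw [(Nat.mem_divisorsAntidiagonal.mp hx).1] at this
        omega
      split_ifs <;> first | omega | simp
  · have h5 : ∀ x ∈ M.divisorsAntidiagonal, x.1 % 2 = 1 ∧ x.2 % 2 = 1 := fun x hx => by
      simpa only [Nat.odd_iff] using Nat.odd_mul.mp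
        ((Nat.mem_divisorsAntidiagonal.mp hx).1 ▸ Nat.odd_iff.mpr hM)
    rw [sum_congr rfl fun x hx => by rw [if_pos (h5 x hx).1, if_pos (h5 x hx).2], sum_add_distrib,
      ← SS] at e3
    rw [sum_eq_zero fun x hx => if_neg (by have := h5 x hx; omega), e3]
    rcases (by omega : n % 8 = 7 ∨ n % 8 = 3) with k | k
    · rw [show (n : ℤ) % 8 = 7 by omega] at h8
      rw [j2, if_pos (Or.inr k), if_neg (by omega)]
      ring
    · rw [show (n : ℤ) % 8 = 3 by omega] at h8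
      rw [j2, if_neg (by omega), if_pos (by omega)]
      ring

end M1

open M1

theorem match_one {n : ℕ} (hn : Good n) {d ρ β ρ' : ℤ} (hd : 0 < d) (h4 : d % 4 = 1)
    (hρ : 60 ∣ ρ ^ 2 + n) (hβ : 60 ∣ β ^ 2 - d) (h : 30 ∣ ρ * β - 11 * ρ') {T T' : Finset Fm}
    (hT : FReps (-n) ρ T) (hT' : FReps (-(n * d)) ρ' T') (t : ℤ) :
    cntP T (fun _ => 1) (wHk d β) t = cntP T' (gch n) wV2 t := by
  have n4 := hn.mod4
  have no : Odd n := Nat.odd_iff.mpr (by omega)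
  by_cases h30 : 30 ∣ t - ρ * (2 * β)
  swap
  · have k : ∀ {D e r b : ℤ} {T : Finset Fm} {m w : Fm → ℤ}, FReps D r T →
        (∀ R, w R ≠ 0 → Fam e b R) → ¬ 30 ∣ t - r * b → cntP T m w t = 0 :=
      fun hT hw k => sum_eq_zero fun Q hQ => mul_eq_zero_of_right _
        (finsum_eq_zero_of_forall_eq_zero fun R => ite_eq_right_iff.mpr fun h1 =>
          by_contra fun h2 => k (h1 ▸ ((hT.fam Q hQ).fbil (hw R h2)).1))
    rw [k (w := wHk d β) hT (fun R h => by_contra fun k => h (if_neg k)) h30,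
      k (w := wV2) hT' (fun R h => by_contra fun k => h (if_neg k)) fun k => h30 (by
        rw [mul_left_comm]; omega)]
  have o1 : ρ % 2 = 1 := odd_of_sq hρ (by omega)
  have o2 : β % 2 = 1 := odd_of_sq (y := -d) hβ (by omega)
  have o3 : ρ * β % 2 = 1 := by rw [Int.mul_emod, o1, o2]; rfl
  rw [mul_left_comm] at h30
  obtain ⟨s, rfl⟩ : 2 ∣ t := by omega
  have hp : (0 : ℤ) < n * d := mul_pos (by omega) hd
  obtain ⟨N, hN⟩ : 15 ∣ s ^ 2 + n * d := by
    obtain ⟨i, hi⟩ : 15 ∣ s - ρ * β := by omega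
    obtain ⟨j, hj⟩ := hρ
    obtain ⟨l, hl⟩ := hβ
    exact ⟨i * (s + ρ * β) + 4 * j * β ^ 2 - 4 * n * l, by
      linear_combination (s + ρ * β) * hi + β ^ 2 * hj - n * hl⟩
  lift N to ℕ using by nlinarith [sq_nonneg s]
  have N0 : 0 < N := by
    have := sq_nonneg s
    omega
  have j15 : J(15 | n) = 1 := by
    rw [jac_fifteen (TYZ.jac15 hn hρ) no, jac_m1 no, if_neg (by omega), neg_neg]
  have j3 : J(3 | n) = 1 := by
    have r3 := (Gal.not_dvd_r hn hρ).1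
    have : ρ ^ 2 % 3 = 1 := by
      rcases (by omega : ρ % 3 = 1 ∨ ρ % 3 = 2) with e | e <;> rw [pow_two, Int.mul_emod, e] <;> rfl
    have e := jacobiSym.quadratic_reciprocity_three_mod_four (a := 3) (b := n) rfl n4
    rw [jacobiSym.mod_left n, show (n : ℤ) % ((3 : ℕ) : ℤ) = 2 by omega] at e
    exact e.trans (by norm_num)
  have hS : ∀ t M, CF n 1 t M = SS n M := fun t M => by rw [SS_eq hn t, j15, one_mul]
  have l2 := line_two hn (D := -(n * d)) (β := 11 * ρ') (s := s) (N := N) (by simp) (by linarith)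
    N0.ne' (by omega) (by omega)
  have hL := cntP_lines (A := 2) (w := wV2) two_pos (by norm_num) hn.sqf (Good.coprime30 hn) (by omega)
    (by simp) hT' wU2_inv (fun R h => by_contra fun k => h (if_neg k))
    (fun R h => (show Fam 4 22 R from by_contra fun k => h (if_neg k)).1) wV2_eq (2 * s)
  rw [show Ico (0 : ℤ) (2 : ℕ) = {0, 1} from rfl, sum_pair zero_ne_one] at hL
  simp only [Nat.cast_ofNat, l2] at hL
  rw [hL, j3, cntP_wHk hn.neg hT h4 o2, cntP_eq hn (one_dvd n) hρ hT (by simp) N0 (by linarith),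
    if_pos (by rwa [mul_left_comm]), hS, show wU2 (0, 2, -0) = -1 by decide,
    show wU2 (0, 2, -1) = 1 by decide]
  have hnd : (n * d : ℤ) % 4 = 3 := by rw [Int.mul_emod, h4, show (n : ℤ) % 4 = 3 by omega]; rfl
  simp only [mul_zero, sub_zero, add_zero, one_mul, mul_one, one_pow, zero_mul, ne_eq,
    OfNat.ofNat_ne_zero, not_false_eq_true, zero_pow]
  rcases Int.emod_two_eq_zero_or_one s with hs | hs
  · rw [show cntP T (gch 1) (wG 1 d β) s = 0 from sum_eq_zero fun Q hQ => mul_eq_zero_of_right _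
      (finsum_eq_zero_of_forall_eq_zero fun R => ite_eq_right_iff.mpr fun h1 => if_neg fun h2 => by
        have := ((hT.fam Q hQ).fbil h2).1
        omega), sum_eq_zero fun x _ => if_neg (by omega), mul_zero, mul_zero, add_zero, zero_add]
    refine sum_congr rfl fun x hx => (if_pos ?_).symm
    obtain ⟨s, rfl⟩ : 2 ∣ s := by omega
    have h1 : x.1 * x.2 % 4 = 1 := by
      rw [(Nat.mem_divisorsAntidiagonal.mp hx).1]
      rw [mul_pow] at hN
      omega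
    rw [Nat.mul_mod] at h1
    have h2 : x.1 % 4 = x.2 % 4 ∧ x.1 % 2 = 1 := by
      have h3 : x.1 % 4 < 4 := Nat.mod_lt _ four_pos
      have h5 : x.2 % 4 < 4 := Nat.mod_lt _ four_pos
      rw [← Nat.mod_mod_of_dvd x.1 (show 2 ∣ 4 by norm_num)]
      generalize x.1 % 4 = u at *
      generalize x.2 % 4 = v at *
      interval_cases u <;> interval_cases v <;> simp_all
    omega
  have s8 := sq_mod_eight hs
  obtain ⟨M, rfl⟩ : 4 ∣ N := by omega
  have hM : s ^ 2 + n * d = 60 * M := by push_cast at hN; linarith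
  rw [cntP_eq hn (one_dvd n) hρ hT (M := M) (by simp) (by omega) hM,
    if_pos (show 30 ∣ s - ρ * β by omega), hS]
  exact odd_case hn h4 hs hM

end Pool.Agent.Lib.MP_696deb_nt
end
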