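import Mathlib

set_option autoImplicit false

namespace Pool.Agent.Lib.MP_696deb_nt

open Finset Complex

/-- Hecke relations: `c p = p` at good primes and `c p = 0` at primes dividing the level. -/
structure Hecke (a c : ℕ → ℤ) : Prop where
  one : a 1 = 1
  rel : ∀ p : ℕ, p.Prime → ∀ n : ℕ, 0 < n →
    a (p * n) + (if p ∣ n then c p * a (n / p) else 0) = a p * a n

theorem Hecke.of_level15 {a : ℕ → ℤ} (h1 : a 1 = 1)
    (hg : ∀ p : ℕ, p.Prime → ¬ p ∣ 15 → ∀ n : ℕ, 0 < n →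
      a (p * n) + (if p ∣ n then (p : ℤ) * a (n / p) else 0) = a p * a n)
    (h3 : ∀ n, a (3 * n) = -a n) (h5 : ∀ n, a (5 * n) = a n) :
    Hecke a fun p => if p ∣ 15 then 0 else p := by
  refine ⟨h1, fun p hp n hn => ?_⟩
  by_cases h : p ∣ 15
  · have : p = 3 ∨ p = 5 := by
      rcases (Nat.Prime.dvd_mul hp (m := 3) (n := 5)).mp h with h | h
      · exact Or.inl ((Nat.prime_dvd_prime_iff_eq hp Nat.prime_three).mp h)
      · exact Or.inr ((Nat.prime_dvd_prime_iff_eq hp Nat.prime_five).mp h)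
    rcases this with rfl | rfl
    · have := h3 1
      simp only [mul_one, h1] at this
      simp [h3, this]
    · have := h5 1
      simp only [mul_one, h1] at this
      simp [h5, this]
  · simpa [h] using hg p hp h n hn

theorem Hecke.pow_rec {a c : ℕ → ℤ} (h : Hecke a c) {p : ℕ} (hp : p.Prime) (k n : ℕ) (hn : 0 < n) :
    a (p ^ (k + 2) * n) = a p * a (p ^ (k + 1) * n) - c p * a (p ^ k * n) := by
  have := h.rel p hp (p ^ (k + 1) * n) (Nat.mul_pos (pow_pos hp.pos _) hn)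
  rw [if_pos (Dvd.dvd.mul_right (dvd_pow_self p (by omega)) n),
    show p ^ (k + 1) * n / p = p ^ k * n by
      rw [pow_succ', mul_assoc, Nat.mul_div_cancel_left _ hp.pos],
    show p * (p ^ (k + 1) * n) = p ^ (k + 2) * n by ring] at this
  linarith

theorem Hecke.pow_rec' {a c : ℕ → ℤ} (h : Hecke a c) {p : ℕ} (hp : p.Prime) (k : ℕ) :
    a (p ^ (k + 2)) = a p * a (p ^ (k + 1)) - c p * a (p ^ k) := by
  simpa using h.pow_rec hp k 1 one_pos

theorem Hecke.pow_mul {a c : ℕ → ℤ} (h : Hecke a c) {p : ℕ} (hp : p.Prime) {n : ℕ} (hn : 0 < n)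
    (hpn : ¬ p ∣ n) (k : ℕ) : a (p ^ k * n) = a (p ^ k) * a n := by
  induction k using Nat.strong_induction_on with
  | _ k ih =>
    rcases k with _ | _ | k
    · simp [h.one]
    · simpa [hpn] using h.rel p hp n hn
    · rw [h.pow_rec hp k n hn, h.pow_rec' hp k, ih k (by omega), ih (k + 1) (by omega)]
      ring

theorem Hecke.mul_coprime {a c : ℕ → ℤ} (h : Hecke a c) {m n : ℕ} (hm : 0 < m) (hn : 0 < n)
    (hmn : m.Coprime n) : a (m * n) = a m * a n := by
  induction m using Nat.strong_induction_on with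
  | _ m ih =>
    by_cases h1 : m = 1
    · simp [h1, h.one]
    obtain ⟨p, hp, hpm⟩ := Nat.exists_prime_and_dvd h1
    obtain ⟨k, m', hm', rfl⟩ := Nat.exists_eq_pow_mul_and_not_dvd hm.ne' p hp.ne_one
    have hm0 : 0 < m' := Nat.pos_of_mul_pos_left hm
    have hk : k ≠ 0 := by
      rintro rfl
      exact hm' (by simpa using hpm)
    have hpn : ¬ p ∣ n := fun hd => hp.ne_one (Nat.eq_one_of_dvd_coprimes hmn hpm hd)
    have hlt : m' < p ^ k * m' := by
      have := Nat.one_lt_pow hk hp.one_lt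
      nlinarith
    rw [mul_assoc, h.pow_mul hp (Nat.mul_pos hm0 hn) (by
        rw [hp.dvd_mul]; tauto), h.pow_mul hp hm0 hm',
      ih m' hlt hm0 (Nat.Coprime.coprime_mul_left hmn), mul_assoc]

/-- The (inverse of the) local factor at `p` of the series twisted by `ξ`. -/
noncomputable def loc (ξ : ℕ → ℂ) (a c : ℕ → ℤ) (p : ℕ) (s : ℂ) : ℂ :=
  1 - ξ p * a p * (p : ℂ) ^ (-s) + ξ p ^ 2 * c p * ((p : ℂ) ^ (-s)) ^ 2

theorem loc_differentiable (ξ : ℕ → ℂ) (a c : ℕ → ℤ) {p : ℕ} (hp : p ≠ 0) :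
    Differentiable ℂ (loc ξ a c p) := by
  have h : Differentiable ℂ fun s : ℂ => (p : ℂ) ^ (-s) :=
    differentiable_id.neg.const_cpow (Or.inl (by exact_mod_cast hp))
  unfold loc
  fun_prop

theorem loc_one_ne_zero (ξ : ℕ → ℂ) (a c : ℕ → ℤ) {p : ℕ} (hp : p ≠ 0)
    (hξ : ξ p = 0 ∨ ((ξ p = 1 ∨ ξ p = -1) ∧ |a p| * p < p ^ 2 + c p)) : loc ξ a c p 1 ≠ 0 := by
  have hp' : (p : ℂ) ≠ 0 := by exact_mod_cast hp
  rcases hξ with h | ⟨h, hlt⟩
  · simp [loc, h]
  · intro h0
    have hp0 : (0 : ℤ) ≤ p := Int.natCast_nonneg p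
    have h1 := le_abs_self (a p)
    have h2 := neg_abs_le (a p)
    rcases h with h | h
    · have : (((p : ℤ) ^ 2 - a p * p + c p : ℤ) : ℂ) = 0 := by
        simp only [loc, h, cpow_neg_one] at h0
        push_cast
        field_simp at h0
        linear_combination h0
      have := Int.cast_eq_zero.mp this
      nlinarith
    · have : (((p : ℤ) ^ 2 + a p * p + c p : ℤ) : ℂ) = 0 := by
        simp only [loc, h, cpow_neg_one] at h0
        push_cast
        field_simp at h0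
        linear_combination h0
      have := Int.cast_eq_zero.mp this
      nlinarith

theorem summable_twist {ξ : ℕ → ℂ} (hξ : ∀ n, ‖ξ n‖ ≤ 1) {a : ℕ → ℤ} {s : ℂ}
    (h : LSeriesSummable (fun n => (a n : ℂ)) s) : LSeriesSummable (fun n => ξ n * a n) s := by
  refine Summable.of_norm_bounded (summable_norm_iff.mpr h) fun n => LSeries.norm_term_le s ?_
  rw [norm_mul]
  exact mul_le_of_le_one_left (norm_nonneg _) (hξ n)

theorem tsum_rec {b : ℕ → ℂ} (hb : Summable b) (A B : ℂ) (h0 : b 0 = 1) (h1 : b 1 = A)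
    (hrec : ∀ e, b (e + 2) = A * b (e + 1) - B * b e) : (1 - A + B) * ∑' e, b e = 1 := by
  have s1 : Summable fun e => b (e + 1) := (summable_nat_add_iff 1).mpr hb
  have e1 : ∑' e, b e = 1 + ∑' e, b (e + 1) := by rw [hb.tsum_eq_zero_add, h0]
  have e2 : ∑' e, b (e + 1) = A + ∑' e, b (e + 2) := by rw [s1.tsum_eq_zero_add, h1]
  have e3 : ∑' e, b (e + 2) = A * ∑' e, b (e + 1) - B * ∑' e, b e := by
    simp only [hrec]
    rw [(s1.mul_left A).tsum_sub (hb.mul_left B), tsum_mul_left, tsum_mul_left]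
  linear_combination (1 - A) * e1 + e2 + e3

section Euler

variable {a c : ℕ → ℤ} (h : Hecke a c) {ξ : ℕ → ℂ} (hξ1 : ξ 1 = 1)
  (hξ : ∀ m n, ξ (m * n) = ξ m * ξ n) {s : ℂ} (hs : LSeriesSummable (fun n => ξ n * a n) s)

include h hξ1 hξ hs

theorem loc_mul_tsum {p : ℕ} (hp : p.Prime) :
    loc ξ a c p s * ∑' e, LSeries.term (fun n => ξ n * a n) s (p ^ e) = 1 := by
  have hp' : (p : ℂ) ≠ 0 := by exact_mod_cast hp.ne_zero
  have hξp : ∀ e, ξ (p ^ e) = ξ p ^ e := by
    intro e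
    induction e with
    | zero => simpa using hξ1
    | succ e ih => rw [pow_succ, hξ, ih, pow_succ]
  have ht : ∀ e, LSeries.term (fun n => ξ n * a n) s (p ^ e)
      = ξ p ^ e * a (p ^ e) * ((p : ℂ) ^ (-s)) ^ e := by
    intro e
    rw [LSeries.term_of_ne_zero (pow_ne_zero _ hp.ne_zero), hξp, Nat.cast_pow,
      ← Complex.natCast_cpow_natCast_mul, div_eq_mul_inv, ← cpow_neg, ← cpow_nat_mul, mul_neg]
  apply tsum_rec (hs.comp_injective (Nat.pow_right_injective hp.one_lt))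
  · simp [hξ1, h.one]
  · show LSeries.term _ s (p ^ 1) = _
    rw [ht]; simp
  · intro e
    show LSeries.term _ s (p ^ (e + 2)) = _ * LSeries.term _ s (p ^ (e + 1)) -
      _ * LSeries.term _ s (p ^ e)
    rw [ht, ht, ht, h.pow_rec' hp]
    push_cast
    ring

theorem loc_ne_zero {p : ℕ} (hp : p.Prime) : loc ξ a c p s ≠ 0 :=
  left_ne_zero_of_mul_eq_one (loc_mul_tsum h hξ1 hξ hs hp)

/-- The complete Euler product, indexed by all natural numbers. -/
theorem hasProd_loc :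
    HasProd (fun p : ℕ => if p.Prime then (loc ξ a c p s)⁻¹ else 1)
      (LSeries (fun n => ξ n * a n) s) := by
  have := EulerProduct.eulerProduct_hasProd_mulIndicator
    (f := LSeries.term (fun n => ξ n * a n) s) (by simp [hξ1, h.one]) (by
      intro m n hmn
      rcases Nat.eq_zero_or_pos m with rfl | hm
      · simp
      rcases Nat.eq_zero_or_pos n with rfl | hn
      · simp
      rw [LSeries.term_of_ne_zero (Nat.mul_pos hm hn).ne', LSeries.term_of_ne_zero hm.ne',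
        LSeries.term_of_ne_zero hn.ne', hξ, h.mul_coprime hm hn hmn, Nat.cast_mul,
        Complex.natCast_mul_natCast_cpow]
      push_cast
      ring) (summable_norm_iff.mpr hs) (LSeries.term_zero _ _)
  unfold LSeries
  convert this using 1
  funext p
  by_cases hp : p.Prime
  · rw [if_pos hp, Set.mulIndicator_of_mem (by exact hp)]
    exact (eq_inv_of_mul_eq_one_right (loc_mul_tsum h hξ1 hξ hs hp)).symm
  · rw [if_neg hp, Set.mulIndicator_of_notMem (by exact hp)]

/-- The incomplete Euler product: omit the primes dividing `M`. -/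
theorem hasProd_loc_incomplete {M : ℤ} (hM : M ≠ 0) :
    HasProd (fun p : ℕ => if p.Prime ∧ ¬ (p : ℤ) ∣ M then (loc ξ a c p s)⁻¹ else 1)
      ((∏ p ∈ M.natAbs.primeFactors, loc ξ a c p s) * LSeries (fun n => ξ n * a n) s) := by
  classical
  have h1 : HasProd (fun p : ℕ => if p ∈ M.natAbs.primeFactors then loc ξ a c p s else 1)
      (∏ p ∈ M.natAbs.primeFactors, loc ξ a c p s) := by
    have := hasProd_prod_of_ne_finset_one (L := SummationFilter.unconditional ℕ)
      (f := fun p : ℕ => if p ∈ M.natAbs.primeFactors then loc ξ a c p s else 1)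
      (s := M.natAbs.primeFactors) (fun b hb => if_neg hb)
    rwa [prod_congr rfl fun p hp => if_pos hp] at this
  convert h1.mul (hasProd_loc h hξ1 hξ hs) using 1
  funext p
  by_cases hp : p.Prime
  · by_cases hd : (p : ℤ) ∣ M
    · have : p ∈ M.natAbs.primeFactors :=
        Nat.mem_primeFactors.mpr ⟨hp, Int.natCast_dvd.mp hd, Int.natAbs_ne_zero.mpr hM⟩
      rw [if_neg (by tauto), if_pos this, if_pos hp,
        mul_inv_cancel₀ (loc_ne_zero h hξ1 hξ hs hp)]
    · have : p ∉ M.natAbs.primeFactors := fun h' =>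
        hd (Int.natCast_dvd.mpr (Nat.mem_primeFactors.mp h').2.1)
      rw [if_pos ⟨hp, hd⟩, if_neg this, if_pos hp, one_mul]
  · have : p ∉ M.natAbs.primeFactors := fun h' => hp (Nat.mem_primeFactors.mp h').1
    rw [if_neg (by tauto), if_neg this, if_neg hp, one_mul]

/-- The incomplete Euler product in the shape of the frozen statement. -/
theorem hasProd_frozen {M : ℤ} (hM : M ≠ 0) (T : ℕ → ℂ)
    (hT : ∀ p : ℕ, p.Prime → ¬ (p : ℤ) ∣ M → ξ p * a p = T p ∧ ξ p ^ 2 = 1 ∧ c p = p) :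
    HasProd (fun p : ℕ => if p.Prime ∧ ¬ (p : ℤ) ∣ M then
        (1 - T p * (p : ℂ) ^ (-s) + (p : ℂ) ^ (1 - 2 * s))⁻¹ else 1)
      ((∏ p ∈ M.natAbs.primeFactors, loc ξ a c p s) * LSeries (fun n => ξ n * a n) s) := by
  convert hasProd_loc_incomplete h hξ1 hξ hs hM using 1
  funext p
  split_ifs with hp
  · obtain ⟨h1, h2, h3⟩ := hT p hp.1 hp.2
    have hp' : (p : ℂ) ≠ 0 := by exact_mod_cast hp.1.ne_zero
    rw [loc, h1, h2, h3, ← cpow_nat_mul, sub_eq_add_neg 1 (2 * s), cpow_add _ _ hp', cpow_one]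
    congr 3 <;> simp
  · rfl

end Euler

/-- Assembly: if `G` is an entire continuation of the complete twisted series, nonzero at `1`,
then the incomplete product has an entire continuation of order `0` at `1`. -/
theorem exists_entire_order_zero {a c : ℕ → ℤ} (h : Hecke a c) {ξ : ℕ → ℂ} (hξ1 : ξ 1 = 1)
    (hξ : ∀ m n, ξ (m * n) = ξ m * ξ n)
    (hs : ∀ s : ℂ, (3 : ℝ) / 2 < s.re → LSeriesSummable (fun n => ξ n * a n) s)
    {M : ℤ} (hM : M ≠ 0) (T : ℕ → ℂ)
    (hT : ∀ p : ℕ, p.Prime → ¬ (p : ℤ) ∣ M → ξ p * a p = T p ∧ ξ p ^ 2 = 1 ∧ c p = p)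
    (hbad : ∀ p : ℕ, p.Prime → (p : ℤ) ∣ M → loc ξ a c p 1 ≠ 0)
    (G : ℂ → ℂ) (hG : Differentiable ℂ G)
    (hGL : ∀ s : ℂ, (3 : ℝ) / 2 < s.re → G s = LSeries (fun n => ξ n * a n) s)
    (hG1 : G 1 ≠ 0) :
    ∃ F : ℂ → ℂ, Differentiable ℂ F ∧
      (∀ s : ℂ, (3 : ℝ) / 2 < s.re →
        HasProd (fun p : ℕ => if p.Prime ∧ ¬ (p : ℤ) ∣ M then
          (1 - T p * (p : ℂ) ^ (-s) + (p : ℂ) ^ (1 - 2 * s))⁻¹ else 1) (F s)) ∧
      F 1 ≠ 0 ∧ analyticOrderAt F 1 = 0 := by
  have hd : Differentiable ℂ fun s => (∏ p ∈ M.natAbs.primeFactors, loc ξ a c p s) * G s := by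
    refine Differentiable.mul ?_ hG
    exact Differentiable.fun_finsetProd fun p hp =>
      loc_differentiable ξ a c (Nat.mem_primeFactors.mp hp).1.ne_zero
  have h1 : (∏ p ∈ M.natAbs.primeFactors, loc ξ a c p 1) * G 1 ≠ 0 := by
    refine mul_ne_zero (prod_ne_zero_iff.mpr fun p hp => ?_) hG1
    exact hbad p (Nat.mem_primeFactors.mp hp).1
      (Int.natCast_dvd.mpr (Nat.mem_primeFactors.mp hp).2.1)
  refine ⟨_, hd, fun s hs' => ?_, h1, ?_⟩
  · simp only [hGL s hs']
    exact hasProd_frozen h hξ1 hξ (hs s hs') hM T hT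
  · exact (hd.analyticAt 1).analyticOrderAt_eq_zero.mpr h1

end Pool.Agent.Lib.MP_696deb_nt
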