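import Pool.Agent.Lib.MP_696deb_nt.Cusp15
import Pool.Agent.Lib.MP_696deb_nt.Euler

set_option autoImplicit false

open PowerSeries Filter Topology Complex
open scoped Real

namespace Pool.Agent.Lib.MP_696deb_nt

lemma q1_div_pow (N : ℕ) [NeZero N] (j : ℤ) (n : ℕ) :
    q1 (j / N) ^ n = ZMod.stdAddChar ((j : ZMod N) * (n : ZMod N)) := by
  have := ZMod.stdAddChar_coe (N := N) (j * n)
  push_cast at this
  rw [this, ← q1_nat_mul, q1]
  congr 1
  ring

section

variable {p : ℕ} [hp : Fact p.Prime]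

/-- The point of the projective line attached to a vector. -/
def idx (x y : ZMod p) : Option (ZMod p) := if x = 0 then none else some (y / x)

/-- Right action of a matrix on the projective line. -/
def sig (a b c d : ZMod p) : Option (ZMod p) → Option (ZMod p)
  | none => idx c d
  | some j => idx (a + j * c) (b + j * d)

lemma idx_eq {x y x' y' : ZMod p} (h : idx x y = idx x' y') : x * y' = x' * y := by
  unfold idx at h
  split_ifs at h with h1 h2 h2
  · simp [h1, h2]
  · have := Option.some.inj h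
    rw [div_eq_div_iff h1 h2] at this
    linear_combination -this

lemma sig_inj {a b c d : ZMod p} (h : a * d - b * c = 1) : Function.Injective (sig a b c d) := by
  rintro (_ | j) (_ | k) hjk
  · rfl
  · exact absurd (by linear_combination -idx_eq hjk - h : (1 : ZMod p) = 0) one_ne_zero
  · exact absurd (by linear_combination idx_eq hjk - h : (1 : ZMod p) = 0) one_ne_zero
  · congr 1
    linear_combination -idx_eq hjk + (k - j) * h

/-- The summands of the Hecke operator. -/
noncomputable def hT (G : ℂ → ℂ) : Option (ZMod p) → ℂ → ℂ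
  | none => if p ∣ 15 then fun _ => 0 else sl p 0 0 1 G
  | some j => sl 1 j.val 0 p G

lemma hT_step {G : ℂ → ℂ} (hG : Inv15 G) {a b c d : ℤ} (h : a * d - b * (15 * c) = 1)
    (i : Option (ZMod p)) {z : ℂ} (hz : 0 < z.im) :
    sl a b (15 * c) d (hT G i) z = hT G (sig (a : ZMod p) b (15 * c) d i) z := by
  have hp0 : (0 : ℤ) < p := by exact_mod_cast hp.out.pos
  have h' : (a : ZMod p) * d - b * (15 * c) = 1 := by
    exact_mod_cast congr_arg (Int.cast : ℤ → ZMod p) h
  have h15 : p ∣ 15 ↔ (15 : ZMod p) = 0 := by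
    simpa using (ZMod.natCast_eq_zero_iff 15 p).symm
  have hdvd : ∀ x : ℤ, (x : ZMod p) = 0 → ∃ e, x = p * e := fun x hx =>
    (ZMod.intCast_zmod_eq_zero_iff_dvd x p).mp hx
  rcases i with _ | j
  · by_cases hd : p ∣ 15
    · simp [hT, hd, sig, idx, h15.mp hd, sl]
    by_cases hx : (15 * c : ZMod p) = 0
    · obtain ⟨e, he⟩ := hdvd c ((mul_eq_zero.mp hx).resolve_left (mt h15.mpr hd))
      simp only [hT, hd, sig, idx, hx, if_true, if_false]
      exact hG.sl_sl_eq (α := a) (β := p * b) (γ := e) (δ := d) (by omega) (by simpa using hp0)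
        (by linear_combination h + 15 * b * he) (by ring) (by ring)
        (by linear_combination 15 * he) (by ring) hz
    · obtain ⟨e, he⟩ := hdvd (d - 15 * c * ((d / (15 * c) : ZMod p).val : ℤ)) (by
        push_cast
        rw [ZMod.natCast_zmod_val, mul_div_cancel₀ _ hx, sub_self])
      simp only [hT, hd, sig, idx, hx, if_false]
      generalize (((d / (15 * c) : ZMod p).val : ℕ) : ℤ) = k at he ⊢
      exact hG.sl_sl_eq (α := p * a) (β := b - a * k) (γ := c) (δ := e) (by omega)
        (by simpa using hp0) (by linear_combination h - a * he) (by ring) (by ring)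
        (by ring) (by linear_combination he) hz
  · by_cases hx : (a + j * (15 * c) : ZMod p) = 0
    · have hd : ¬ p ∣ 15 := fun hd => by
        rw [h15.mp hd] at hx h'
        exact one_ne_zero (by linear_combination -h' + (d : ZMod p) * hx : (1 : ZMod p) = 0)
      obtain ⟨e, he⟩ := hdvd (a + (j.val : ℤ) * (15 * c)) (by
        push_cast
        rwa [ZMod.natCast_zmod_val])
      simp only [hT, hd, sig, idx, hx, if_true, if_false]
      generalize ((j.val : ℕ) : ℤ) = k at he ⊢
      exact hG.sl_sl_eq (α := e) (β := b + k * d) (γ := c) (δ := p * d) (by omega)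
        (by simpa using hp0) (by linear_combination h - d * he) (by linear_combination he)
        (by ring) (by ring) (by ring) hz
    · obtain ⟨e, he⟩ := hdvd (b + (j.val : ℤ) * d - (a + (j.val : ℤ) * (15 * c)) *
          (((b + j * d) / (a + j * (15 * c)) : ZMod p).val : ℤ)) (by
        push_cast
        rw [ZMod.natCast_zmod_val, ZMod.natCast_zmod_val, mul_div_cancel₀ _ hx, sub_self])
      simp only [hT, sig, idx, hx, if_false]
      generalize ((((b + j * d) / (a + j * (15 * c)) : ZMod p).val : ℕ) : ℤ) = l at he ⊢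
      generalize ((j.val : ℕ) : ℤ) = k at he ⊢
      exact hG.sl_sl_eq (α := a + k * (15 * c)) (β := e) (γ := c * p) (δ := d - 15 * c * l)
        (by omega) (by simpa using hp0) (by linear_combination h + 15 * c * he) (by ring)
        (by linear_combination he) (by ring) (by ring) hz

/-- The Hecke operator at the prime `p` in level fifteen. -/
noncomputable def Tp (p : ℕ) [Fact p.Prime] (G : ℂ → ℂ) (z : ℂ) : ℂ :=
  ∑ i : Option (ZMod p), hT G i z

lemma Inv15.Tp {G : ℂ → ℂ} (hG : Inv15 G) : Inv15 (Tp p G) := fun a b c d h z hz => by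
  have h' : (a : ZMod p) * d - b * (15 * c) = 1 := by
    exact_mod_cast congr_arg (Int.cast : ℤ → ZMod p) h
  have hb := Finite.injective_iff_bijective.mp (sig_inj h')
  rw [Pool.Agent.Lib.MP_696deb_nt.Tp, ← hb.sum_comp]
  simp only [← hT_step hG h _ hz]
  simp only [sl, Pool.Agent.Lib.MP_696deb_nt.Tp, Finset.mul_sum, Finset.sum_div]

lemma S15.Tp {G : ℂ → ℂ} (hG : S15 G) : S15 (Tp p G) := by
  have hp0 : (0 : ℤ) < p := by exact_mod_cast hp.out.pos
  refine ⟨fun z hz => ?_, hG.inv.Tp, ?_⟩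
  · refine DifferentiableAt.fun_sum fun i _ => ?_
    rcases i with _ | j
    · simp only [hT]
      split_ifs
      · exact differentiableAt_const _
      · exact hG.hol.sl (by simpa using hp0) z hz
    · exact hG.hol.sl (by simpa using hp0) z hz
  · obtain ⟨C, hC⟩ := hG.bd
    refine ⟨∑ _i : Option (ZMod p), max C 0, fun z hz => ?_⟩
    refine (mul_le_mul_of_nonneg_right (norm_sum_le _ _) hz.le).trans ?_
    rw [Finset.sum_mul]
    refine Finset.sum_le_sum fun i _ => ?_
    rcases i with _ | j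
    · simp only [hT]
      split_ifs
      · simp
      · exact (bd_sl hC (by simpa using hp0) z hz).trans (le_max_left _ _)
    · exact (bd_sl hC (by simpa using hp0) z hz).trans (le_max_left _ _)

lemma QE.Up {G : ℂ → ℂ} {A : ℂ⟦X⟧} (hG : QE G A) :
    QE (fun z => ∑ j : ZMod p, sl 1 j.val 0 p G z) (PowerSeries.mk fun n => coeff (p * n) A) := by
  have hp0 : (p : ℂ) ≠ 0 := by exact_mod_cast hp.out.ne_zero
  refine QE.of_hasSum fun z hz => ?_
  have h1 : ∀ j : ZMod p, HasSum (fun n => (p : ℂ)⁻¹ * (coeff n A * q1 (z / p) ^ n) *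
      ZMod.stdAddChar (j * (n : ZMod p))) (sl 1 j.val 0 p G z) := fun j => by
    have h2 := (hG.hasSum (im_mob_pos (a := 1) (b := j.val) (c := 0) (d := p)
      (by simpa using hp.out.pos) hz)).mul_left (p : ℂ)⁻¹
    convert! h2 using 1
    · ext n
      have h3 := q1_div_pow p (j.val : ℤ) n
      have h4 : mob 1 j.val 0 p z = z / p + ((j.val : ℤ) : ℂ) / p := by simp [mob, add_div]
      rw [h4, q1_add, mul_pow, h3]
      simp only [Int.cast_natCast, ZMod.natCast_zmod_val]
      ring
    · simp only [sl]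
      push_cast
      simp only [zero_mul, mul_zero, zero_add, sub_zero, one_mul]
      field_simp
  have h2 := hasSum_sum (s := Finset.univ) fun j _ => h1 j
  simp only [← Finset.mul_sum, AddChar.sum_mulShift _ (ZMod.isPrimitive_stdAddChar p)] at h2
  have hinj : Function.Injective fun n : ℕ => p * n := mul_right_injective₀ hp.out.ne_zero
  rw [← hinj.hasSum_iff] at h2
  · convert! h2 using 2 with n
    have h3 : q1 (z / p) ^ (p * n) = q1 z ^ n := by
      rw [pow_mul, ← q1_nat_mul, mul_div_cancel₀ _ hp0]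
    simp only [coeff_mk, Function.comp, h3, Nat.cast_mul, ZMod.natCast_self, zero_mul, if_true,
      ZMod.card]
    field_simp
  · intro n hn
    rw [if_neg, Nat.cast_zero, mul_zero]
    rw [ZMod.natCast_eq_zero_iff]
    rintro ⟨k, rfl⟩
    exact hn ⟨k, rfl⟩

lemma QE.Tp {G : ℂ → ℂ} {A : ℂ⟦X⟧} (hG : QE G A) : QE (Tp p G) (PowerSeries.mk fun n =>
    coeff (p * n) A + if p ∣ n then (if p ∣ 15 then 0 else (p : ℂ)) * coeff (n / p) A else 0) := by
  have h := ((hG.expand p hp.out.ne_zero).smul (if p ∣ 15 then 0 else (p : ℂ))).add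
    (hG.Up (p := p))
  convert h.congr (F' := Pool.Agent.Lib.MP_696deb_nt.Tp p G) fun z _ => ?_ using 1
  · ext n
    simp only [coeff_mk, map_add, coeff_C_mul, coeff_expand, add_comm]
    split_ifs <;> simp
  · rw [Pool.Agent.Lib.MP_696deb_nt.Tp, Fintype.sum_option]
    simp only [hT]
    split_ifs <;> simp [sl, mob]

end

/-- The Hecke relations for the coefficients of the newform of level fifteen. -/
theorem hecke15 : Hecke a15 fun p => if p ∣ 15 then 0 else p := by
  refine ⟨a15_one, fun p hp n _ => ?_⟩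
  have : Fact p.Prime := ⟨hp⟩
  obtain ⟨c, hc⟩ := (s15_f15.Tp (p := p)).eq_mul
  have h1 := (qe_f15.Tp (p := p)).unique (qe_f15.smul c) hc
  have h2 : ∀ n, ((a15 (p * n) + (if p ∣ n then (if p ∣ 15 then 0 else (p : ℤ)) * a15 (n / p)
      else 0) : ℤ) : ℂ) = c * a15 n := fun n => by
    have := congr_arg (coeff n) h1
    simpa [a15, coeff_C_mul, coeff_map] using this
  have h3 : (a15 p : ℂ) = c := by simpa [a15_one, hp.ne_one] using h2 1
  have h4 := h2 n
  rw [← h3] at h4
  exact_mod_cast h4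

lemma P1_low : ∃ R : ℤ⟦X⟧, P1 = 1 - X - X ^ 2 + X ^ 5 * R := by
  have : (X : ℤ⟦X⟧) ^ 5 ∣ P1 - (1 - X - X ^ 2) := by
    rw [X_pow_dvd_iff]
    intro m hm
    have h0 := coeff_pentagonalSeries_pentagonal ℤ 0
    have h1 := coeff_pentagonalSeries_pentagonal ℤ 1
    have h2 := coeff_pentagonalSeries_pentagonal ℤ (-1)
    have h3 : ∀ n : ℕ, n = 3 ∨ n = 4 → coeff n (pentagonalSeries ℤ) = 0 := fun n hn => by
      refine coeff_pentagonalSeries_eq_zero ℤ ?_
      rintro ⟨k, hk⟩
      have := two_mul_natCast_pentagonal k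
      rw [hk] at this
      have h4 : -2 < k := by rcases hn with rfl | rfl <;> push_cast at this <;> nlinarith
      have h5 : k < 2 := by rcases hn with rfl | rfl <;> push_cast at this <;> nlinarith
      interval_cases k <;> omega
    rw [show pentagonal 0 = 0 from rfl] at h0
    rw [show pentagonal 1 = 1 from rfl] at h1
    rw [show pentagonal (-1) = 2 from rfl] at h2
    interval_cases m <;>
      simp [P1, h0, h1, h2, h3, coeff_one, coeff_X, coeff_X_pow, -coeff_zero_eq_constantCoeff]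
  obtain ⟨R, hR⟩ := this
  exact ⟨R, by linear_combination hR⟩

lemma P3_low : ∃ R : ℤ⟦X⟧, P3 = 1 - X ^ 3 + X ^ 5 * R := by
  obtain ⟨R, hR⟩ := P1_low
  refine ⟨-X + X ^ 10 * expand 3 (by norm_num) R, ?_⟩
  rw [P3, hR]
  simp
  ring

lemma P5_low : ∃ R : ℤ⟦X⟧, P5 = 1 + X ^ 5 * R := by
  obtain ⟨R, hR⟩ := P1_low
  refine ⟨-1 - X ^ 5 + X ^ 20 * expand 5 (by norm_num) R, ?_⟩
  rw [P5, hR]
  simp
  ring

lemma P15_low : ∃ R : ℤ⟦X⟧, P15 = 1 + X ^ 5 * R := by
  obtain ⟨R, hR⟩ := P1_low
  refine ⟨-X ^ 10 - X ^ 25 + X ^ 70 * expand 15 (by norm_num) R, ?_⟩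
  rw [P15, hR]
  simp
  ring

lemma F15_low : ∃ R : ℤ⟦X⟧, F15 = X - X ^ 2 - X ^ 3 - X ^ 4 + X ^ 5 + X ^ 6 * R := by
  obtain ⟨R1, h1⟩ := P1_low
  obtain ⟨R3, h3⟩ := P3_low
  obtain ⟨R5, h5⟩ := P5_low
  obtain ⟨R15, h15⟩ := P15_low
  refine ⟨1 + (1 - X - X ^ 2) * R3 + R1 * P3 + R5 * (P1 * P3) + R15 * (P1 * P3 * P5), ?_⟩
  rw [F15]
  linear_combination X * P3 * h1 + X * (1 - X - X ^ 2) * h3 + X * P1 * P3 * h5 +
    X * P1 * P3 * P5 * h15

lemma a15_two : a15 2 = -1 := by
  obtain ⟨R, h⟩ := F15_low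
  simp [a15, h, coeff_X, coeff_X_pow, coeff_X_pow_mul']

lemma a15_three : a15 3 = -1 := by
  obtain ⟨R, h⟩ := F15_low
  simp [a15, h, coeff_X, coeff_X_pow, coeff_X_pow_mul']

lemma a15_five : a15 5 = 1 := by
  obtain ⟨R, h⟩ := F15_low
  simp [a15, h, coeff_X, coeff_X_pow, coeff_X_pow_mul']

end Pool.Agent.Lib.MP_696deb_nt
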