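import Mathlib

set_option autoImplicit false

namespace Pool.Agent.Lib.MP_696deb_nt

open Finset

/-- minus the quadratic character sum of a function on `ZMod p` -/
noncomputable def tr (p : ℕ) [Fact p.Prime] (g : ZMod p → ZMod p) : ℤ :=
  -∑ x : ZMod p, quadraticChar (ZMod p) (g x)

theorem card_eq_sub_tr (p : ℕ) [Fact p.Prime] (hp : p ≠ 2) (g : ZMod p → ZMod p) :
    (Nat.card {q : ZMod p × ZMod p // q.2 ^ 2 = g q.1} : ℤ) = p - tr p g := by
  classical
  have hc : ringChar (ZMod p) ≠ 2 := by rw [ZMod.ringChar_zmod_n]; exact hp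
  have e : {q : ZMod p × ZMod p // q.2 ^ 2 = g q.1} ≃ Σ x : ZMod p, {y : ZMod p // y ^ 2 = g x} :=
    { toFun := fun q => ⟨q.1.1, q.1.2, q.2⟩
      invFun := fun z => ⟨(z.1, z.2.1), z.2.2⟩
      left_inv := fun _ => rfl
      right_inv := fun _ => rfl }
  rw [Nat.card_congr e, Nat.card_eq_fintype_card, Fintype.card_sigma, tr]
  push_cast
  have h : ∀ x : ZMod p, (Fintype.card {y : ZMod p // y ^ 2 = g x} : ℤ)
      = quadraticChar (ZMod p) (g x) + 1 := by
    intro x
    rw [← quadraticChar_card_sqrts hc, Fintype.card_subtype]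
    congr 2
    ext y
    simp
  simp only [h, sum_add_distrib, sum_const, card_univ, ZMod.card]
  ring

theorem tr_mul (p : ℕ) [Fact p.Prime] (c : ZMod p) (g : ZMod p → ZMod p) :
    tr p (fun x => c * g x) = quadraticChar (ZMod p) c * tr p g := by
  simp only [tr, map_mul, ← mul_sum]
  ring

theorem tr_affine (p : ℕ) [Fact p.Prime] {α : ZMod p} (hα : α ≠ 0) (β : ZMod p)
    (g : ZMod p → ZMod p) : tr p (fun x => g (α * x + β)) = tr p g := by
  simp only [tr]
  congr 1
  exact Equiv.sum_comp ((Equiv.mulLeft₀ α hα).trans (Equiv.addRight β))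
    (fun x => quadraticChar (ZMod p) (g x))

theorem sum_pow_zmod (p : ℕ) [Fact p.Prime] (k : ℕ) (hk : k < 2 * (p - 1)) :
    ∑ x : ZMod p, x ^ k = if k = p - 1 then -1 else 0 := by
  classical
  have h2 := (Fact.out : p.Prime).two_le
  rcases Nat.eq_zero_or_pos k with rfl | hk0
  · rw [if_neg (by omega)]
    simp
  have h1 : ∑ x : ZMod p, x ^ k = ∑ x : (ZMod p)ˣ, (x : ZMod p) ^ k := by
    rw [← Finset.sum_erase (s := univ) (a := (0 : ZMod p)) (by simp [hk0.ne'])]
    symm
    apply Finset.sum_bij (fun (x : (ZMod p)ˣ) _ => (x : ZMod p))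
    · intro a _; simp
    · intro a _ b _ h; exact Units.ext h
    · intro b hb
      exact ⟨Units.mk0 b (Finset.mem_erase.mp hb).1, mem_univ _, rfl⟩
    · intro a _; rfl
  have h3 := FiniteField.sum_pow_units (ZMod p) k
  simp only [Units.val_pow_eq_pow_val, ZMod.card] at h3
  rw [h1, h3]
  by_cases h : k = p - 1
  · simp [h]
  · rw [if_neg h, if_neg]
    rintro ⟨c, hc⟩
    rcases c with _ | _ | c
    · omega
    · omega
    · have : (p - 1) * (c + 1 + 1) ≥ (p - 1) * 2 := Nat.mul_le_mul_left _ (by omega)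
      omega

theorem tr_cast (p : ℕ) [Fact p.Prime] (m : ℕ) (hm : p = 2 * m + 1) (g : Polynomial (ZMod p))
    (hg : g.natDegree ≤ 3) :
    ((tr p (fun x => g.eval x) : ℤ) : ZMod p) = (g ^ m).coeff (2 * m) := by
  have h2 := (Fact.out : p.Prime).two_le
  have hc : ringChar (ZMod p) ≠ 2 := by rw [ZMod.ringChar_zmod_n]; omega
  have hd : (g ^ m).natDegree < 3 * m + 1 := by
    have := Polynomial.natDegree_pow_le (p := g) (n := m)
    nlinarith
  simp only [tr]
  push_cast
  have h : ∀ x : ZMod p, ((quadraticChar (ZMod p) (g.eval x) : ℤ) : ZMod p)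
      = ∑ k ∈ range (3 * m + 1), (g ^ m).coeff k * x ^ k := by
    intro x
    rw [quadraticChar_eq_pow_of_char_ne_two' hc, ZMod.card, ← Polynomial.eval_eq_sum_range' hd,
      Polynomial.eval_pow]
    congr 1
    omega
  simp only [h]
  rw [sum_comm]
  simp only [← mul_sum]
  rw [sum_eq_single (2 * m)]
  · rw [sum_pow_zmod p _ (by omega), if_pos (by omega)]; ring
  · intro k hk hk'
    rw [sum_pow_zmod p _ (by have := mem_range.mp hk; omega), if_neg (by omega), mul_zero]
  · intro h; exact absurd (mem_range.mpr (by omega)) h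

theorem homog_pow {F R : Type*} [Field F] [CommRing R] [IsDomain R] [Algebra F R]
    (g : Polynomial F) (hg : g.natDegree ≤ 3) (u s : R) (hs : s ≠ 0) (m : ℕ) :
    (∑ k ∈ range 4, algebraMap F R (g.coeff k) * u ^ k * s ^ (3 - k)) ^ m
      = ∑ k ∈ range (3 * m + 1), algebraMap F R ((g ^ m).coeff k) * u ^ k * s ^ (3 * m - k) := by
  let K := FractionRing R
  have hi : Function.Injective (algebraMap R K) := IsFractionRing.injective R K
  have hs' : algebraMap R K s ≠ 0 := fun h => hs (hi (by simpa using h))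
  have key : ∀ (P : Polynomial F) (n : ℕ), P.natDegree < n + 1 →
      algebraMap R K (∑ k ∈ range (n + 1), algebraMap F R (P.coeff k) * u ^ k * s ^ (n - k))
        = algebraMap R K s ^ n * Polynomial.aeval (algebraMap R K u / algebraMap R K s) P := by
    intro P n hn
    rw [Polynomial.aeval_eq_sum_range' hn, map_sum, mul_sum]
    refine sum_congr rfl fun k hk => ?_
    have hk' : k ≤ n := by have := mem_range.mp hk; omega
    rw [map_mul, map_mul, map_pow, map_pow, Algebra.smul_def, ← IsScalarTower.algebraMap_apply,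
      div_pow, pow_sub₀ _ hs' hk', div_eq_mul_inv, IsScalarTower.algebraMap_apply F R K]
    ring
  have hd : (g ^ m).natDegree < 3 * m + 1 := by
    have := Polynomial.natDegree_pow_le (p := g) (n := m)
    nlinarith
  apply hi
  rw [map_pow, key g 3 (by omega), key _ _ hd, mul_pow, ← pow_mul, map_pow]

open PowerSeries in
/-- The Cartier operator computation. -/
theorem cartier (p : ℕ) [Fact p.Prime] (m : ℕ) (hm : p = 2 * m + 1) (g : Polynomial (ZMod p))
    (hg : g.natDegree ≤ 3) (u v f : (ZMod p)⟦X⟧) (κ : ZMod p) (hκ : κ ≠ 0)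
    (hv0 : constantCoeff v ≠ 0) (hf0 : constantCoeff f = 0)
    (h1 : v ^ 2 = ∑ k ∈ range 4, C (g.coeff k) * u ^ k * (X ^ 2) ^ (3 - k))
    (h2 : X * (X * d⁄dX (ZMod p) u - 2 * u) = C κ * v * f) :
    coeff p f = (g ^ m).coeff (2 * m) * coeff 1 f := by
  have hp2 := (Fact.out : p.Prime).two_le
  have : CharP (ZMod p)⟦X⟧ p := charP_of_injective_ringHom (f := C) C_injective p
  have h3 := homog_pow g hg u (X ^ 2) (pow_ne_zero _ X_ne_zero) m
  have hC : algebraMap (ZMod p) (ZMod p)⟦X⟧ = C := rfl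
  rw [hC, ← h1] at h3
  have h4 : C κ * (v ^ p * f) = ∑ k ∈ range (3 * m + 1), C ((g ^ m).coeff k) *
      (X ^ (6 * m + 1 - 2 * k) * ((X * d⁄dX (ZMod p) u - 2 * u) * u ^ k)) := by
    have : C κ * (v ^ p * f) = (C κ * v * f) * (v ^ 2) ^ m := by
      have hvp : v ^ p = v ^ (2 * m + 1) := congrArg (fun n => v ^ n) hm
      rw [← pow_mul, hvp]
      ring
    rw [this, ← h2, h3, mul_sum]
    refine sum_congr rfl fun k hk => ?_
    have hk' := mem_range.mp hk
    rw [show 6 * m + 1 - 2 * k = 2 * (3 * m - k) + 1 by omega]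
    ring
  have h5 : coeff p (v ^ p * f) = constantCoeff v * coeff p f := by
    conv_lhs => rw [eq_X_mul_shift_add_const v, add_pow_char, mul_pow, add_mul, map_add,
      mul_assoc, ← map_pow, coeff_C_mul, ZMod.pow_card]
    have := coeff_X_pow_mul ((mk fun p => coeff (p + 1) v) ^ p * f) p 0
    rw [zero_add] at this
    rw [this]
    simp [hf0]
  have h6 : ∀ k ∈ range (3 * m + 1), k ≠ 2 * m →
      coeff p (X ^ (6 * m + 1 - 2 * k) * ((X * d⁄dX (ZMod p) u - 2 * u) * u ^ k)) = 0 := by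
    intro k hk hk2
    have hk' := mem_range.mp hk
    have hne : ((k + 1 : ℕ) : ZMod p) ≠ 0 := by
      rw [Ne, ZMod.natCast_eq_zero_iff]
      rintro ⟨c, hc⟩
      rcases c with _ | _ | c
      · omega
      · omega
      · have : p * (c + 1 + 1) ≥ p * 2 := Nat.mul_le_mul_left _ (by omega)
        omega
    obtain ⟨e, he⟩ : ∃ e, 6 * m + 1 - 2 * k = e + 1 := ⟨6 * m - 2 * k, by omega⟩
    have hz : ((e + 1 : ℕ) : (ZMod p)⟦X⟧) = -2 * ((k + 1 : ℕ) : (ZMod p)⟦X⟧) := by
      have : ((e + 1 + 2 * (k + 1) : ℕ) : (ZMod p)⟦X⟧) = 0 := by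
        rw [CharP.cast_eq_zero_iff _ p]
        exact ⟨3, by omega⟩
      push_cast at this ⊢
      linear_combination this
    have hid : C ((k + 1 : ℕ) : ZMod p) *
        (X ^ (e + 1) * ((X * d⁄dX (ZMod p) u - 2 * u) * u ^ k))
        = X * d⁄dX (ZMod p) (X ^ (e + 1) * u ^ (k + 1)) := by
      rw [Derivation.leibniz, derivative_pow, derivative_pow, derivative_X, map_natCast, hz]
      simp only [smul_eq_mul, Nat.add_sub_cancel]
      ring
    have hco := congrArg (coeff p) hid
    rw [coeff_C_mul] at hco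
    obtain ⟨r, hr⟩ : ∃ r, p = r + 1 := ⟨2 * m, hm⟩
    have hz2 : coeff p (X * d⁄dX (ZMod p) (X ^ (e + 1) * u ^ (k + 1))) = 0 := by
      have a1 : ∀ (h : (ZMod p)⟦X⟧) (n : ℕ), n = r + 1 →
          coeff n (X * d⁄dX (ZMod p) h) = coeff (r + 1) h * (r + 1) := by
        intro h n hn
        rw [hn, coeff_succ_X_mul, coeff_derivative]
      rw [a1 _ p hr]
      have : ((r : ZMod p) + 1) = 0 := by
        have := ZMod.natCast_self p
        rw [hr] at this
        exact_mod_cast (by
          have h9 : ((r + 1 : ℕ) : ZMod p) = 0 := by rw [← hr]; exact ZMod.natCast_self p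
          exact h9)
      rw [this, mul_zero]
    rw [hz2] at hco
    rw [he]
    exact (mul_eq_zero.mp hco).resolve_left hne
  have h7 := congrArg (coeff p) h4
  rw [coeff_C_mul, h5, map_sum, sum_eq_single (2 * m)] at h7
  · rw [coeff_C_mul, show 6 * m + 1 - 2 * (2 * m) = p by omega] at h7
    have := coeff_X_pow_mul ((X * d⁄dX (ZMod p) u - 2 * u) * u ^ (2 * m)) p 0
    rw [zero_add] at this
    rw [this] at h7
    have h8 := congrArg (coeff 1) h2
    rw [coeff_succ_X_mul, mul_assoc, coeff_C_mul, coeff_one_mul] at h8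
    have h9 : constantCoeff u * constantCoeff u ^ (2 * m) = constantCoeff u := by
      rw [← pow_succ', ← hm, ZMod.pow_card]
    have h10 : (constantCoeff (2 : (ZMod p)⟦X⟧)) = 2 := map_ofNat _ 2
    simp only [coeff_zero_eq_constantCoeff, map_sub, map_mul, constantCoeff_X, zero_mul, map_pow,
      hf0, mul_zero, h10] at h7 h8
    apply mul_left_cancel₀ (mul_ne_zero hκ hv0)
    linear_combination h7 + (g ^ m).coeff (2 * m) * h8 - 2 * (g ^ m).coeff (2 * m) * h9
  · intro k hk hk'
    rw [coeff_C_mul, h6 k hk hk', mul_zero]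
  · intro h; exact absurd (mem_range.mpr (by omega)) h

/-- trivial bound for a Hecke eigenvalue from the recursion and the bound `a n = O(n)` -/
theorem abs_le_of_rec (p : ℕ) (hp : 1 < p) (a : ℕ → ℤ) (h1 : a 1 = 1)
    (hrec : ∀ k : ℕ, a (p ^ (k + 2)) = a p * a (p ^ (k + 1)) - p * a (p ^ k))
    (C : ℝ) (hC : ∀ n : ℕ, 0 < n → |(a n : ℝ)| ≤ C * n) : |a p| ≤ p + 1 := by
  by_contra hc
  push Not at hc
  have hp0 : (0 : ℤ) ≤ p := Int.natCast_nonneg p
  have step : ∀ k : ℕ, (p + 1) * |a (p ^ k)| ≤ |a (p ^ (k + 1))| := by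
    intro k
    induction k with
    | zero => simp [h1]; omega
    | succ k ih =>
      have e : a p * a (p ^ (k + 1)) = a (p ^ (k + 2)) + p * a (p ^ k) := by rw [hrec]; ring
      have e2 : |a p| * |a (p ^ (k + 1))| ≤ |a (p ^ (k + 2))| + p * |a (p ^ k)| := by
        rw [← abs_mul, e]
        refine (abs_add_le _ _).trans ?_
        rw [abs_mul, abs_of_nonneg hp0]
      have n1 := abs_nonneg (a (p ^ k))
      have n2 := abs_nonneg (a (p ^ (k + 1)))
      nlinarith
  have grow : ∀ k : ℕ, ((p : ℤ) + 1) ^ k ≤ |a (p ^ k)| := by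
    intro k
    induction k with
    | zero => simp [h1]
    | succ k ih =>
      have := step k
      rw [pow_succ]
      nlinarith
  have hpR : (0 : ℝ) < p := by exact_mod_cast (by omega : 0 < p)
  have hb : ∀ k : ℕ, (((p : ℝ) + 1) / p) ^ k ≤ C := by
    intro k
    have h2 := hC (p ^ k) (by positivity)
    have h3 : ((p : ℝ) + 1) ^ k ≤ |(a (p ^ k) : ℝ)| := by exact_mod_cast grow k
    rw [div_pow, div_le_iff₀ (by positivity)]
    push_cast at h2
    linarith
  obtain ⟨k, hk⟩ := pow_unbounded_of_one_lt C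
    (show (1 : ℝ) < ((p : ℝ) + 1) / p by rw [one_lt_div hpR]; linarith)
  exact absurd (hb k) (not_le.mpr hk)

theorem tr_even_bound (p : ℕ) [Fact p.Prime] (hp : p ≠ 2) (e1 e2 e3 : ZMod p)
    (h12 : e1 ≠ e2) (h13 : e1 ≠ e3) (h23 : e2 ≠ e3) :
    Even (tr p fun x => (x - e1) * (x - e2) * (x - e3)) ∧
      |tr p fun x => (x - e1) * (x - e2) * (x - e3)| ≤ p - 3 := by
  classical
  set S : Finset (ZMod p) := univ \ {e1, e2, e3} with hS
  have hcard : (S.card : ℤ) = p - 3 := by
    rw [hS, card_sdiff_of_subset (subset_univ _), card_univ, ZMod.card,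
      card_eq_three.mpr ⟨e1, e2, e3, h12, h13, h23, rfl⟩]
    have := (Fact.out : p.Prime).two_le
    omega
  have hsum : ∑ x : ZMod p, quadraticChar (ZMod p) ((x - e1) * (x - e2) * (x - e3))
      = ∑ x ∈ S, quadraticChar (ZMod p) ((x - e1) * (x - e2) * (x - e3)) := by
    symm
    apply sum_subset (subset_univ _)
    intro x _ hx
    have : x = e1 ∨ x = e2 ∨ x = e3 := by simpa [hS, or_iff_not_imp_left] using hx
    rcases this with rfl | rfl | rfl <;> simp
  have hd : ∀ x ∈ S, quadraticChar (ZMod p) ((x - e1) * (x - e2) * (x - e3)) = 1 ∨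
      quadraticChar (ZMod p) ((x - e1) * (x - e2) * (x - e3)) = -1 := by
    intro x hx
    apply quadraticChar_dichotomy
    simp only [hS, mem_sdiff, mem_univ, mem_insert, mem_singleton, true_and, not_or] at hx
    exact mul_ne_zero (mul_ne_zero (sub_ne_zero.mpr hx.1) (sub_ne_zero.mpr hx.2.1))
      (sub_ne_zero.mpr hx.2.2)
  simp only [tr]
  rw [hsum]
  constructor
  · have h1 : Even (∑ x ∈ S, (quadraticChar (ZMod p) ((x - e1) * (x - e2) * (x - e3)) + 1)) := by
      apply Finset.even_sum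
      intro x hx
      rcases hd x hx with h | h <;> rw [h] <;> decide
    rw [sum_add_distrib, sum_const, nsmul_eq_mul, mul_one, hcard] at h1
    obtain ⟨r, hr⟩ := (Fact.out : p.Prime).odd_of_ne_two hp
    obtain ⟨c, hc⟩ := h1
    refine ⟨r - 1 - c, ?_⟩
    have : (p : ℤ) = 2 * r + 1 := by exact_mod_cast hr
    linarith
  · rw [abs_neg, ← hcard]
    refine (abs_sum_le_sum_abs _ _).trans ?_
    have : ∀ x ∈ S, |quadraticChar (ZMod p) ((x - e1) * (x - e2) * (x - e3))| ≤ 1 := by
      intro x hx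
      rcases hd x hx with h | h <;> rw [h] <;> simp
    simpa using sum_le_card_nsmul _ _ _ this

open PowerSeries in
/-- Main statement: the `p`-th coefficient of `f` is the trace of Frobenius of
`y^2 = (x-e1)(x-e2)(x-e3)`, where `x = u/q^2`, `y = v/q^3`, `q dx/dq = κ y f`. -/
theorem coeff_eq_tr (p : ℕ) [Fact p.Prime] (hp : p ≠ 2) (e1 e2 e3 κ : ℤ) (u v f : ℤ⟦X⟧)
    (h12 : (e1 : ZMod p) ≠ e2) (h13 : (e1 : ZMod p) ≠ e3) (h23 : (e2 : ZMod p) ≠ e3)
    (hκ : (κ : ZMod p) ≠ 0) (hv0 : ((constantCoeff v : ℤ) : ZMod p) ≠ 0)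
    (hf0 : constantCoeff f = 0) (hf1 : coeff 1 f = 1)
    (h1 : v ^ 2 = (u - C e1 * X ^ 2) * (u - C e2 * X ^ 2) * (u - C e3 * X ^ 2))
    (h2 : X * (X * d⁄dX ℤ u - 2 * u) = C κ * v * f)
    (heven : Even (coeff p f)) (hbound : |coeff p f| ≤ p + 1) :
    coeff p f = tr p fun x => (x - e1) * (x - e2) * (x - e3) := by
  obtain ⟨m, hm⟩ := (Fact.out : p.Prime).odd_of_ne_two hp
  let φ : ℤ →+* ZMod p := Int.castRingHom (ZMod p)
  let Q : Cubic (ZMod p) := ⟨1, -((e1 : ZMod p) + e2 + e3),
    (e1 : ZMod p) * e2 + e1 * e3 + e2 * e3, -((e1 : ZMod p) * e2 * e3)⟩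
  let g : Polynomial (ZMod p) := Q.toPoly
  have hg : g.natDegree ≤ 3 := (Cubic.natDegree_of_a_ne_zero (P := Q) one_ne_zero).le
  have hder : ∀ w : ℤ⟦X⟧, map φ (d⁄dX ℤ w) = d⁄dX (ZMod p) (map φ w) := by
    intro w
    ext n
    simp [coeff_derivative]
  have hcar := cartier p m hm g hg (map φ u) (map φ v) (map φ f) κ hκ
    (by rw [← coeff_zero_eq_constantCoeff_apply, coeff_map, coeff_zero_eq_constantCoeff_apply]
        exact hv0)
    (by rw [← coeff_zero_eq_constantCoeff_apply, coeff_map, coeff_zero_eq_constantCoeff_apply, hf0,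
      map_zero])
    (by
      have := congrArg (map φ) h1
      simp only [map_pow, map_mul, map_sub, map_C, map_X] at this
      rw [this]
      simp only [g, sum_range_succ, sum_range_zero, Cubic.coeff_eq_a, Cubic.coeff_eq_b,
        Cubic.coeff_eq_c, Cubic.coeff_eq_d, Q, φ, map_neg, map_mul, map_add, map_one,
        eq_intCast]
      ring)
    (by
      have := congrArg (map φ) h2
      simp only [map_mul, map_sub, map_C, map_X, hder, map_ofNat] at this
      simpa [φ] using this)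
  rw [← tr_cast p m hm g hg, coeff_map, coeff_map, hf1, map_one, mul_one] at hcar
  have hge : (fun x => g.eval x) = fun x : ZMod p => (x - e1) * (x - e2) * (x - e3) := by
    funext x
    simp [g, Q, Cubic.toPoly]
    ring
  rw [hge] at hcar
  obtain ⟨he, hb⟩ := tr_even_bound p hp _ _ _ h12 h13 h23
  set T := tr p fun x : ZMod p => (x - e1) * (x - e2) * (x - e3)
  obtain ⟨c, hc⟩ : (p : ℤ) ∣ T - coeff p f := (ZMod.intCast_eq_intCast_iff_dvd_sub _ _ p).mp hcar
  have hev : Even ((p : ℤ) * c) := hc ▸ he.sub heven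
  have hce : Even c := by
    rcases Int.even_mul.mp hev with h | h
    · exfalso
      obtain ⟨r, hr⟩ := h
      omega
    · exact h
  obtain ⟨d, rfl⟩ := hce
  have hp0 : (0 : ℤ) < p := by omega
  rw [abs_le] at hb hbound
  have hd0 : d = 0 := by
    by_contra hd
    rcases lt_or_gt_of_ne hd with h | h <;> nlinarith
  rw [hd0] at hc
  linarith

/-- Point count of a short Weierstrass model obtained by an affine change and a twist. -/
theorem sub_card_short (p : ℕ) [Fact p.Prime] (hp : p ≠ 2) (A B α β γ : ZMod p) (hα : α ≠ 0)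
    (g : ZMod p → ZMod p)
    (h : ∀ x, (α * x + β) ^ 3 + A * (α * x + β) + B = γ * g x) :
    (p : ℤ) - Nat.card {q : ZMod p × ZMod p // q.2 ^ 2 = q.1 ^ 3 + A * q.1 + B}
      = quadraticChar (ZMod p) γ * tr p g := by
  rw [card_eq_sub_tr p hp (fun x => x ^ 3 + A * x + B), ← tr_mul,
    ← tr_affine p hα β (fun x => x ^ 3 + A * x + B)]
  simp only [h]
  ring

end Pool.Agent.Lib.MP_696deb_nt
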