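import Pool.Agent.Lib.MP_696deb_nt.Hecke
import Pool.Agent.Lib.MP_696deb_nt.Bound
import Pool.Agent.Lib.MP_696deb_nt.Cartier

set_option autoImplicit false

open PowerSeries Filter Topology Complex ModularForm
open scoped Real

namespace Pool.Agent.Lib.MP_696deb_nt

/-- The generating series of the divisor sums. -/
noncomputable def Sg : ℤ⟦X⟧ := PowerSeries.mk fun n => (ArithmeticFunction.sigma 1 n : ℤ)

/-- The normalised logarithmic derivative of the eta function. -/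
noncomputable def Le (z : ℂ) : ℂ := logDeriv η z / (2 * π * I)

lemma two_pi_I : (2 * π * I : ℂ) ≠ 0 := two_pi_I_ne_zero

lemma qe_Le : QE (fun z => 1 / 24 - Le z) (toC Sg) := QE.of_hasSum fun z hz => by
  have h1 := (EisensteinSeries.hasSum_qExpansion_E2 (z := ⟨z, hz⟩)).mul_left (1 / 24)
  have h2 := logDeriv_eta_eq_E2 ⟨z, hz⟩
  have h3 := (hasSum_ite_eq 0 (1 / 24 : ℂ)).sub h1
  have hπ : (π : ℂ) ≠ 0 := by exact_mod_cast Real.pi_ne_zero
  convert! h3 using 1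
  · ext n
    split_ifs with hn
    · simp [hn, Sg, coeff_map]
    · simp [Sg, coeff_map, q1]
      ring
  · rw [Le]
    simp only at h2
    rw [h2]
    field_simp
    ring

lemma hasDerivAt_eta {z : ℂ} (hz : 0 < z.im) : HasDerivAt η (2 * π * I * Le z * η z) z := by
  have h := (hol_eta z hz).hasDerivAt
  rw [Le, logDeriv_apply, mul_div_cancel₀ _ two_pi_I, div_mul_cancel₀ _ (eta_ne hz)]
  exact h

lemma hasDerivAt_eta_zpow (d : ℂ) (r : ℤ) {z : ℂ} (hz : 0 < (d * z).im) :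
    HasDerivAt (fun w => η (d * w) ^ r) (2 * π * I * (d * r * Le (d * z)) * η (d * z) ^ r) z := by
  have h1 := (hasDerivAt_eta hz).comp z ((hasDerivAt_id z).const_mul d)
  have h2 := (hasDerivAt_zpow r (η (d * z)) (Or.inl (eta_ne hz))).comp z h1
  convert! h2 using 1
  rw [zpow_sub_one₀ (eta_ne hz)]
  have := eta_ne hz
  field_simp

/-- Eta quotients of level fifteen. -/
noncomputable def etaq (r1 r3 r5 r15 : ℤ) (z : ℂ) : ℂ :=
  η z ^ r1 * η (3 * z) ^ r3 * η (5 * z) ^ r5 * η (15 * z) ^ r15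

/-- The normalised logarithmic derivative of an eta quotient. -/
noncomputable def Ld (r1 r3 r5 r15 : ℤ) (z : ℂ) : ℂ :=
  r1 * Le z + 3 * r3 * Le (3 * z) + 5 * r5 * Le (5 * z) + 15 * r15 * Le (15 * z)

lemma etaq_ne (r1 r3 r5 r15 : ℤ) {z : ℂ} (hz : 0 < z.im) : etaq r1 r3 r5 r15 z ≠ 0 :=
  mul_ne_zero (mul_ne_zero (mul_ne_zero (zpow_ne_zero _ (eta_ne hz))
    (zpow_ne_zero _ (eta_ne (im_mul_pos hz)))) (zpow_ne_zero _ (eta_ne (im_mul_pos hz))))
    (zpow_ne_zero _ (eta_ne (im_mul_pos hz)))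

lemma hasDerivAt_etaq (r1 r3 r5 r15 : ℤ) {z : ℂ} (hz : 0 < z.im) :
    HasDerivAt (etaq r1 r3 r5 r15) (2 * π * I * Ld r1 r3 r5 r15 z * etaq r1 r3 r5 r15 z) z := by
  have h1 := hasDerivAt_eta_zpow 1 r1 (z := z) (by simpa using hz)
  simp only [one_mul] at h1
  have h := ((h1.mul (hasDerivAt_eta_zpow 3 r3 (im_mul_pos hz))).mul
    (hasDerivAt_eta_zpow 5 r5 (im_mul_pos hz))).mul (hasDerivAt_eta_zpow 15 r15 (im_mul_pos hz))
  convert! h using 1
  simp only [etaq, Ld, Pi.mul_apply]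
  ring

lemma sl_logDeriv {g g' E E' : ℂ → ℂ} {a b c d : ℤ} {κ : ℂ} (h : 0 < a * d - b * c) (hκ : κ ≠ 0)
    (hg : ∀ z : ℂ, 0 < z.im → HasDerivAt g (2 * π * I * E z * g z) z)
    (hg' : ∀ z : ℂ, 0 < z.im → HasDerivAt g' (2 * π * I * E' z * g' z) z)
    (h0 : ∀ z : ℂ, 0 < z.im → g' z ≠ 0)
    (hM : ∀ z : ℂ, 0 < z.im → g (mob a b c d z) = κ * g' z) {z : ℂ} (hz : 0 < z.im) :
    sl a b c d E z = E' z := by
  have h1 := (hg _ (im_mob_pos h hz)).comp z (hasDerivAt_mob h.ne' hz)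
  have h2 : (fun w => κ * g' w) =ᶠ[𝓝 z] g ∘ mob a b c d := by
    filter_upwards [(isOpen_lt continuous_const Complex.continuous_im).mem_nhds hz] with w hw
    exact (hM w hw).symm
  have h3 := (h1.congr_of_eventuallyEq h2).unique ((hg' z hz).const_mul κ)
  rw [hM z hz] at h3
  apply mul_left_cancel₀ (mul_ne_zero (mul_ne_zero two_pi_I hκ) (h0 z hz))
  rw [sl]
  linear_combination h3

/-- A modular function of degree two on the curve of level fifteen. -/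
noncomputable def t15 : ℂ → ℂ := etaq (-1) 1 5 (-5)

lemma t15_eq {z : ℂ} (hz : 0 < z.im) :
    t15 z = f15 z * eta2 (5 * z) ^ 2 / (eta2 z * eta2 (15 * z) ^ 3) := by
  have h1 := eta_ne hz
  have h15 := eta_ne (z := 15 * z) (im_mul_pos hz)
  simp only [t15, etaq, f15_eq, eta2, zpow_neg, zpow_ofNat]
  field_simp

lemma eta2_ne {z : ℂ} (hz : 0 < z.im) : eta2 z ≠ 0 := pow_ne_zero _ (eta_ne hz)

lemma t15_mob (a b c d : ℤ) (h : a * d - b * (15 * c) = 1) {z : ℂ} (hz : 0 < z.im) :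
    t15 (mob a b (15 * c) d z) = t15 z := by
  have h1 := eta2_tr a b (15 * c) d h z hz
  have h5 := eta2_tr a (5 * b) (3 * c) d (by linear_combination h) _ (im_five hz)
  have h15 := eta2_tr a (15 * b) c d (by linear_combination h) (15 * z) (im_mul_pos hz)
  have e5 := mul_mob (m := 5) a b (3 * c) d z
  have e15 := mul_mob (m := 15) a b c d z
  have h4 : ∀ a b c d : ZMod 12, a * d - b * (15 * c) = 1 →
      PsiE a (5 * b) (3 * c) d + PsiE a (5 * b) (3 * c) d = PsiE a b (15 * c) d +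
        (PsiE a (15 * b) c d + PsiE a (15 * b) c d + PsiE a (15 * b) c d) := by decide +kernel
  have h6 := congr_arg e12 (h4 a b c d (by exact_mod_cast congr_arg (Int.cast : ℤ → ZMod 12) h))
  simp only [e12_add] at h6
  rw [show 5 * (3 * c) = 15 * c by ring] at e5
  have hd := den_ne (a := a) (b := b) (by omega : a * d - b * (15 * c) ≠ 0) hz
  push_cast at h1 h5 h15 e5 e15 hd
  rw [t15_eq hz, t15_eq (im_mob_pos (by omega) hz), f15_mob a b c d h hz, e5, e15, h1, h5, h15,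
    show (3 : ℂ) * c * (5 * z) = 15 * c * z by ring, show (c : ℂ) * (15 * z) = 15 * c * z by ring]
  have k1 := e12_ne (PsiE a b (15 * c) d)
  have k15 := e12_ne (PsiE a (15 * b) c d)
  have l1 := eta2_ne hz
  have l15 := eta2_ne (z := 15 * z) (im_mul_pos hz)
  generalize (15 : ℂ) * c * z + d = w at hd ⊢
  rw [div_eq_div_iff (by simp [*]) (by simp [*])]
  linear_combination (w ^ 4 * f15 z * eta2 (5 * z) ^ 2 * eta2 z * eta2 (15 * z) ^ 3) * h6

lemma t15_w3 {z : ℂ} (hz : 0 < z.im) : t15 (mob 6 1 15 3 z) = -9 * etaq 1 (-1) (-5) 5 z := by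
  have h1 := eta2_tr 2 1 5 3 (by norm_num) (3 * z) (im_mul_pos hz)
  have h5 := eta2_tr 2 5 1 3 (by norm_num) (15 * z) (im_mul_pos hz)
  have h15 := eta2_tr 6 5 1 1 (by norm_num) (5 * z) (im_mul_pos hz)
  have hd : 5 * z + 1 ≠ 0 := by
    simpa using den_ne (a := 1) (b := 0) (c := 5) (d := 1) (by norm_num) hz
  have hd' : 15 * z + 3 = 3 * (5 * z + 1) := by ring
  have e1 : mob 6 1 15 3 z = mob 2 1 5 3 (3 * z) := by
    simp only [mob]; push_cast; congr 1 <;> ring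
  have e5 : 5 * mob 6 1 15 3 z = mob 2 5 1 3 (15 * z) := by
    simp only [mob]; push_cast; rw [← mul_div_assoc]; congr 1 <;> ring
  have e15 : 15 * mob 6 1 15 3 z = mob 6 5 1 1 (5 * z) := by
    simp only [mob]; push_cast; rw [hd', one_mul]; field_simp; ring
  have h6 : PsiE 2 5 1 3 + PsiE 2 5 1 3 = 6 + (PsiE 2 1 5 3 +
      (PsiE 6 5 1 1 + PsiE 6 5 1 1 + PsiE 6 5 1 1)) := by decide
  replace h6 := congr_arg e12 h6
  simp only [e12_add, e12_six] at h6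
  rw [t15_eq (im_mob_pos (by norm_num) hz), f15_w3_mob hz, e5, e15, e1, h1, h5, h15]
  push_cast
  rw [show (5 : ℂ) * (3 * z) + 3 = 3 * (5 * z + 1) by ring, one_mul, one_mul, hd']
  have k1 := e12_ne (PsiE 2 1 5 3)
  have k15 := e12_ne (PsiE 6 5 1 1)
  have l1 := eta_ne hz
  have l3 := eta_ne (z := 3 * z) (im_mul_pos hz)
  have l5 := eta_ne (z := 5 * z) (im_mul_pos hz)
  generalize (5 : ℂ) * z + 1 = w at hd ⊢
  simp only [etaq, f15_eq, eta2, zpow_neg, zpow_ofNat]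
  generalize η (3 * z) = x3, η (5 * z) = x5, η (15 * z) = x15 at l3 l5 ⊢
  field_simp
  linear_combination (9 * x15 ^ 5) * h6

lemma t15_w15 {z : ℂ} (hz : 0 < z.im) : t15 (mob 0 (-1) 15 0 z) = 9 * etaq (-5) 5 1 (-1) z := by
  have hz0 : z ≠ 0 := fun h => by simp [h] at hz
  have e1 : mob 0 (-1) 15 0 z = -1 / (15 * z) := by simp [mob]
  have e5 : 5 * (-1 / (15 * z)) = -1 / (3 * z) := by field_simp; norm_num
  have e15 : 15 * (-1 / (15 * z)) = -1 / z := by field_simp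
  rw [t15_eq (im_mob_pos (by norm_num) hz), f15_w15_mob hz, e1, e5, e15, eta2_S hz,
    eta2_S (z := 3 * z) (im_mul_pos hz), eta2_S (z := 15 * z) (im_mul_pos hz)]
  have l1 := eta_ne hz
  have l15 := eta_ne (z := 15 * z) (im_mul_pos hz)
  simp only [etaq, f15_eq, eta2, zpow_neg, zpow_ofNat]
  generalize η (3 * z) = x3, η (5 * z) = x5, η (15 * z) = x15 at l15 ⊢
  field_simp
  linear_combination (-9 * x3 ^ 5 * x5) * I_sq

/-- The logarithmic derivative of `t15`. -/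
noncomputable def E15 : ℂ → ℂ := Ld (-1) 1 5 (-5)

/-- The function whose vanishing is the Weierstrass equation. -/
noncomputable def Z15 (z : ℂ) : ℂ := (E15 z / f15 z) ^ 2 - 4 * t15 z + 7 + 36 / t15 z

lemma t15_ne {z : ℂ} (hz : 0 < z.im) : t15 z ≠ 0 := etaq_ne _ _ _ _ hz

lemma t15_inv (z : ℂ) : etaq 1 (-1) (-5) 5 z = (t15 z)⁻¹ := by
  simp only [t15, etaq, zpow_neg, mul_inv, inv_inv]

lemma Z15_mob (a b c d : ℤ) (h : a * d - b * (15 * c) = 1) (z : ℂ) (hz : 0 < z.im) :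
    Z15 (mob a b (15 * c) d z) = Z15 z := by
  have h1 : sl a b (15 * c) d E15 z = E15 z := sl_logDeriv (κ := 1) (by omega) one_ne_zero
    (fun _ => hasDerivAt_etaq _ _ _ _) (fun _ => hasDerivAt_etaq _ _ _ _) (fun _ => t15_ne)
    (fun w hw => (t15_mob a b c d h hw).trans (one_mul _).symm) hz
  rw [Z15, Z15, div_mob (by omega) _ _ hz, h1, f15_inv a b c d h z hz, t15_mob a b c d h hz]

lemma Z15_w3 {z : ℂ} (hz : 0 < z.im) : Z15 (mob 6 1 15 3 z) = Z15 z := by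
  have h1 : sl 6 1 15 3 E15 z = Ld 1 (-1) (-5) 5 z := sl_logDeriv (κ := -9) (by norm_num)
    (by norm_num) (fun _ => hasDerivAt_etaq _ _ _ _) (fun _ => hasDerivAt_etaq _ _ _ _)
    (fun _ => etaq_ne _ _ _ _) (fun w hw => t15_w3 hw) hz
  have h2 : Ld 1 (-1) (-5) 5 z = -E15 z := by simp only [E15, Ld]; push_cast; ring
  have h3 := t15_ne hz
  rw [Z15, Z15, div_mob (by norm_num) _ _ hz, h1, f15_w3 hz, t15_w3 hz, h2, t15_inv]
  field_simp
  ring

/-- The divisor sum series in `X ^ 3`. -/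
noncomputable def Sg3 : ℤ⟦X⟧ := expand 3 (by norm_num) Sg
/-- The divisor sum series in `X ^ 5`. -/
noncomputable def Sg5 : ℤ⟦X⟧ := expand 5 (by norm_num) Sg
/-- The divisor sum series in `X ^ 15`. -/
noncomputable def Sg15 : ℤ⟦X⟧ := expand 15 (by norm_num) Sg

lemma qe_Ld (r0 r1 r3 r5 r15 : ℤ) (h : 24 * r0 = r1 + 3 * r3 + 5 * r5 + 15 * r15) :
    QE (Ld r1 r3 r5 r15) (toC (r0 - r1 * Sg - 3 * r3 * Sg3 - 5 * r5 * Sg5 -
      15 * r15 * Sg15)) := by
  have h' : (24 * r0 : ℂ) = r1 + 3 * r3 + 5 * r5 + 15 * r15 := by exact_mod_cast h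
  have h1 := (((((QE.const r0).sub (qe_Le.smul r1)).sub
    ((qe_Le.expand 3 (by norm_num)).smul (3 * r3))).sub
    ((qe_Le.expand 5 (by norm_num)).smul (5 * r5))).sub
    ((qe_Le.expand 15 (by norm_num)).smul (15 * r15))).congr (F' := Ld r1 r3 r5 r15)
    fun z _ => by
      simp only [Ld]
      push_cast
      linear_combination (-1 / 24) * h'
  simpa only [map_sub, map_mul, map_intCast, map_ofNat, Sg3, Sg5, Sg15, map_expand] using h1

lemma etaq_eq (r0 r1 r3 r5 r15 : ℤ) (h : 24 * r0 = r1 + 3 * r3 + 5 * r5 + 15 * r15) (z : ℂ) :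
    etaq r1 r3 r5 r15 z = q1 z ^ r0 * (eul (q1 z) ^ r1 * eul (q1 (3 * z)) ^ r3 *
      eul (q1 (5 * z)) ^ r5 * eul (q1 (15 * z)) ^ r15) := by
  have h' : (24 * r0 : ℂ) = r1 + 3 * r3 + 5 * r5 + 15 * r15 := by exact_mod_cast h
  have : q1 z ^ r0 = cexp (2 * π * I * z / 24) ^ r1 * cexp (2 * π * I * (3 * z) / 24) ^ r3 *
      cexp (2 * π * I * (5 * z) / 24) ^ r5 * cexp (2 * π * I * (15 * z) / 24) ^ r15 := by
    simp only [q1, ← Complex.exp_int_mul, ← Complex.exp_add]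
    congr 1
    linear_combination (2 * π * I * z / 24) * h'
  rw [etaq, eta_eq, eta_eq, eta_eq, eta_eq, this]
  simp only [mul_zpow]
  ring

lemma cc_toC (A : ℤ⟦X⟧) : coeff 0 (toC A) = (constantCoeff A : ℤ) := by
  rw [coeff_map]; simp

lemma cc_Sg : constantCoeff Sg = 0 := by simp [Sg]
lemma cc_Sg3 : constantCoeff Sg3 = 0 := by rw [Sg3, constantCoeff_expand, cc_Sg]
lemma cc_Sg5 : constantCoeff Sg5 = 0 := by rw [Sg5, constantCoeff_expand, cc_Sg]
lemma cc_Sg15 : constantCoeff Sg15 = 0 := by rw [Sg15, constantCoeff_expand, cc_Sg]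

lemma bdd_Z15_w15 : Bdd fun z => Z15 (mob 0 (-1) 15 0 z) := by
  have hA : QE (fun z => eul (q1 (3 * z)) ^ 5 * eul (q1 (5 * z))) (X ^ 0 * toC (P3 ^ 5 * P5)) := by
    simpa using (qe_P3.pow 5).mul qe_P5
  have hB : QE (fun z => eul (q1 z) ^ 5 * eul (q1 (15 * z))) (X ^ 0 * toC (P1 ^ 5 * P15)) := by
    simpa using (qe_P1.pow 5).mul qe_P15
  have b1 := hA.bdd_div hB (by rw [cc_toC]; simp [cc_P1, cc_P15])
  have b2 := hB.bdd_div hA (by rw [cc_toC]; simp [cc_P3, cc_P5])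
  have hE := qe_Ld 0 (-5) 5 1 (-1) (by norm_num)
  obtain ⟨R, hR⟩ : (X : ℤ⟦X⟧) ∣ (0 : ℤ) - (-5 : ℤ) * Sg - 3 * (5 : ℤ) * Sg3 -
      5 * (1 : ℤ) * Sg5 - 15 * (-1 : ℤ) * Sg15 := by
    simp [X_dvd_iff, cc_Sg, cc_Sg3, cc_Sg5, cc_Sg15]
  rw [hR] at hE
  have b3 := QE.bdd_div (m := 1) (B := toC R) (B' := toC (P1 * P3 * P5 * P15))
    (by simpa using hE) (by simpa [F15] using qe_f15)
    (by rw [cc_toC]; simp [cc_P1, cc_P3, cc_P5, cc_P15])
  refine ((((b3.mul b3).sub ((Bdd.const 36).mul b1)).add (Bdd.const 7)).add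
    ((Bdd.const 4).mul b2)).congr fun z hz => ?_
  have h1 : sl 0 (-1) 15 0 E15 z = Ld (-5) 5 1 (-1) z := sl_logDeriv (κ := 9) (by norm_num)
    (by norm_num) (fun _ => hasDerivAt_etaq _ _ _ _) (fun _ => hasDerivAt_etaq _ _ _ _)
    (fun _ => etaq_ne _ _ _ _) (fun w hw => t15_w15 hw) hz
  have l1 := eul_ne hz
  have l3 := eul_ne (z := 3 * z) (im_mul_pos hz)
  have l5 := eul_ne (z := 5 * z) (im_mul_pos hz)
  have l15 := eul_ne (z := 15 * z) (im_mul_pos hz)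
  have l0 := f15_ne hz
  rw [Z15, div_mob (by norm_num) _ _ hz, h1, f15_w15 hz, t15_w15 hz,
    etaq_eq 0 _ _ _ _ (by norm_num)]
  simp only [zpow_neg, zpow_ofNat]
  field_simp
  ring

/-- Numerator of `q ^ 2 * t15`. -/
noncomputable def A15 : ℤ⟦X⟧ := P3 * P5 ^ 5
/-- Denominator of `q ^ 2 * t15`. -/
noncomputable def B15 : ℤ⟦X⟧ := P1 * P15 ^ 5
/-- The newform divided by `X`. -/
noncomputable def G15 : ℤ⟦X⟧ := P1 * P3 * P5 * P15
/-- The expansion of `E15`. -/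
noncomputable def EE15 : ℤ⟦X⟧ := -2 + Sg - 3 * Sg3 - 25 * Sg5 + 75 * Sg15
/-- The cleared Weierstrass equation. -/
noncomputable def N15 : ℤ⟦X⟧ := A15 * B15 * EE15 ^ 2 -
  G15 ^ 2 * (4 * A15 ^ 2 - 7 * X ^ 2 * A15 * B15 - 36 * X ^ 4 * B15 ^ 2)

lemma qe_E15 : QE E15 (toC EE15) := by
  have h := qe_Ld (-2) (-1) 1 5 (-5) (by norm_num)
  rwa [show ((-2 : ℤ) - (-1 : ℤ) * Sg - 3 * (1 : ℤ) * Sg3 - 5 * (5 : ℤ) * Sg5 -
    15 * (-5 : ℤ) * Sg15 : ℤ⟦X⟧) = EE15 by rw [EE15]; push_cast; ring] at h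

lemma qe_A15 : QE (fun z => eul (q1 (3 * z)) * eul (q1 (5 * z)) ^ 5) (toC A15) := by
  simpa [A15] using qe_P3.mul (qe_P5.pow 5)

lemma qe_B15 : QE (fun z => eul (q1 z) * eul (q1 (15 * z)) ^ 5) (toC B15) := by
  simpa [B15] using qe_P1.mul (qe_P15.pow 5)

lemma qe_G15 : QE (fun z => eul (q1 z) * eul (q1 (3 * z)) * eul (q1 (5 * z)) * eul (q1 (15 * z)))
    (toC G15) := by
  simpa [G15] using ((qe_P1.mul qe_P3).mul qe_P5).mul qe_P15

lemma Sg_low : ∃ R : ℤ⟦X⟧, Sg = X + 3 * X ^ 2 + X ^ 3 * R := by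
  have : (X : ℤ⟦X⟧) ^ 3 ∣ Sg - (X + C 3 * X ^ 2) := by
    rw [X_pow_dvd_iff]
    intro m hm
    have h2 : ArithmeticFunction.sigma 1 2 = 3 := by decide
    interval_cases m <;> simp [Sg, h2, coeff_X, coeff_X_pow, coeff_C_mul, -eq_intCast]
  obtain ⟨R, hR⟩ := this
  exact ⟨R, by rw [map_ofNat] at hR; linear_combination hR⟩

lemma Sg_expand_low (d : ℕ) (hd : d + 3 ≠ 0) : ∃ R : ℤ⟦X⟧, expand (d + 3) hd Sg = X ^ 3 * R := by
  obtain ⟨R, hR⟩ := X_dvd_iff.mpr cc_Sg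
  exact ⟨X ^ d * expand (d + 3) hd R, by rw [hR, map_mul, expand_X]; ring⟩

lemma N15_low : ∃ R : ℤ⟦X⟧, N15 = X ^ 3 * R := by
  let φ := Ideal.Quotient.mk (Ideal.span {(X : ℤ⟦X⟧) ^ 3})
  have hx : φ X ^ 3 = 0 := by
    rw [← map_pow, Ideal.Quotient.eq_zero_iff_mem]; exact Ideal.mem_span_singleton_self _
  obtain ⟨R1, h1⟩ := P1_low
  obtain ⟨R3, h3⟩ := P3_low
  obtain ⟨R5, h5⟩ := P5_low
  obtain ⟨R15, h15⟩ := P15_low
  obtain ⟨S1, k1⟩ := Sg_low
  obtain ⟨S3, k3⟩ := Sg_expand_low 0 (by norm_num)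
  obtain ⟨S5, k5⟩ := Sg_expand_low 2 (by norm_num)
  obtain ⟨S15, k15⟩ := Sg_expand_low 12 (by norm_num)
  have hx5 : φ X ^ 5 = 0 := by linear_combination φ X ^ 2 * hx
  have e1 : φ P1 = 1 - φ X - φ X ^ 2 := by simp [h1, hx5]
  have e3 : φ P3 = 1 := by simp [h3, hx, hx5]
  have e5 : φ P5 = 1 := by simp [h5, hx5]
  have e15 : φ P15 = 1 := by simp [h15, hx5]
  have f1 : φ Sg = φ X + 3 * φ X ^ 2 := by simp [k1, hx, map_ofNat]
  have f3 : φ Sg3 = 0 := by rw [Sg3, k3]; simp [hx]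
  have f5 : φ Sg5 = 0 := by rw [Sg5, k5]; simp [hx]
  have f15 : φ Sg15 = 0 := by rw [Sg15, k15]; simp [hx]
  have : φ N15 = 0 := by
    simp only [N15, A15, B15, G15, EE15, map_sub, map_add, map_mul, map_pow, map_neg, map_ofNat,
      e1, e3, e5, e15, f1, f3, f5, f15]
    linear_combination (1 - φ X - φ X ^ 2) * (6 + 9 * φ X + 7 * (-2 - φ X + 2 * φ X ^ 2 + φ X ^ 3)
      + 36 * φ X * (1 - φ X - φ X ^ 2) ^ 3) * hx
  exact Ideal.mem_span_singleton.mp (Ideal.Quotient.eq_zero_iff_mem.mp this)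

lemma QE.tendsto_div {F F' : ℂ → ℂ} {m : ℕ} {B B' : ℂ⟦X⟧} (h : QE F (X ^ m * B))
    (h' : QE F' (X ^ m * B')) (h0 : coeff 0 B' ≠ 0) :
    Tendsto (fun z => F z / F' z) atI (𝓝 (coeff 0 B / coeff 0 B')) := by
  refine (h.of_X_pow_mul.tendsto.div h'.of_X_pow_mul.tendsto h0).congr fun z => ?_
  have := q1_ne z
  simp only [Pi.div_apply]
  rw [div_div_div_cancel_right₀ (pow_ne_zero _ this)]

lemma QE.inv {F : ℂ → ℂ} {A B : ℂ⟦X⟧} (h : QE F A) (h0 : ∀ z : ℂ, 0 < z.im → F z ≠ 0)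
    (hAB : A * B = 1) : QE (fun z => (F z)⁻¹) B := by
  have h1 : coeff 0 A ≠ 0 := fun h1 => by
    have := congr_arg constantCoeff hAB
    simp only [coeff_zero_eq_constantCoeff] at h1
    simp [h1] at this
  obtain ⟨B', hB'⟩ := QE.exists_of_periodic (F := fun z => (F z)⁻¹)
    (fun z hz => (h.hol z hz).inv (h0 z hz))
    (fun z hz => by simpa using h.periodic 1 hz) (Bdd.of_tendsto (h.tendsto.inv₀ h1))
  have h2 : A * B' = 1 := by
    simpa using (h.mul hB').unique (QE.const 1) fun z hz => mul_inv_cancel₀ (h0 z hz)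
  rwa [show B = B' by linear_combination B' * hAB - B * h2]

theorem N15_eq_zero : N15 = 0 := by
  have hA := qe_A15
  have hB := qe_B15
  have hG := qe_G15
  have hN :=
      ((hA.mul hB).mul (qe_E15.pow 2)).sub ((hG.pow 2).mul ((((QE.ofNat 4).mul (hA.pow 2)).sub
      ((((QE.ofNat 7).mul (QE.q.pow 2)).mul hA).mul hB)).sub
      (((QE.ofNat 36).mul (QE.q.pow 4)).mul (hB.pow 2))))
  rw [show _ - _ = toC N15 by simp only [N15, map_sub, map_mul, map_pow, map_ofNat, map_X]] at hN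
  have hD := (QE.q.pow 2).mul (((hG.pow 2).mul hA).mul hB)
  rw [← map_pow, ← map_mul, ← map_mul] at hD
  obtain ⟨R, hR⟩ := N15_low
  have hN' := hN
  rw [show toC N15 = X ^ 2 * (X * toC R) by rw [hR, map_mul, map_pow, map_X]; ring] at hN'
  have h1 := hN'.tendsto_div hD
    (by rw [cc_toC]; simp [A15, B15, G15, cc_P1, cc_P3, cc_P5, cc_P15])
  simp only [coeff_zero_X_mul, zero_div] at h1
  have h2 : Tendsto Z15 atI (𝓝 0) := by
    refine h1.congr' (ev_pos.mono fun z hz => ?_)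
    have l1 := eul_ne hz
    have l3 := eul_ne (z := 3 * z) (im_mul_pos hz)
    have l5 := eul_ne (z := 5 * z) (im_mul_pos hz)
    have l15 := eul_ne (z := 15 * z) (im_mul_pos hz)
    have l0 := q1_ne z
    simp only [Z15, t15, etaq_eq (-2) (-1) 1 5 (-5) (by norm_num), f15_eq_q, zpow_neg,
      zpow_ofNat]
    generalize eul (q1 (3 * z)) = x3, eul (q1 (5 * z)) = x5, eul (q1 (15 * z)) = x15
      at l3 l5 l15 ⊢
    field_simp
    ring
  obtain ⟨c, hc⟩ := const15 (h := Z15) (fun z hz => by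
      have k1 := qe_E15.hol z hz
      have k2 := qe_f15.hol z hz
      have k3 : DifferentiableAt ℂ t15 z := (hasDerivAt_etaq _ _ _ _ hz).differentiableAt
      exact ((((k1.div k2 (f15_ne hz)).pow 2).sub (k3.const_mul 4)).add_const 7).add
        ((differentiableAt_const _).div k3 (t15_ne hz)))
    Z15_mob (Bdd.of_tendsto h2) ((Bdd.of_tendsto h2).congr fun z hz => Z15_w3 hz)
    (bdd_Z15_w15.congr fun z hz => by
      rw [mob_w5 hz, Z15_w3 (im_mob_pos (by norm_num) hz)]) bdd_Z15_w15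
  obtain rfl : c = 0 :=
    tendsto_nhds_unique (tendsto_const_nhds.congr' (ev_pos.mono fun z hz => (hc z hz).symm)) h2
  apply toC_inj
  rw [map_zero, ← map_zero (C (R := ℂ))]
  refine hN.unique (QE.const 0) fun z hz => ?_
  have l1 := eul_ne hz
  have l3 := eul_ne (z := 3 * z) (im_mul_pos hz)
  have l5 := eul_ne (z := 5 * z) (im_mul_pos hz)
  have l15 := eul_ne (z := 15 * z) (im_mul_pos hz)
  have l0 := q1_ne z
  have h3 := hc z hz
  simp only [Z15, t15, etaq_eq (-2) (-1) 1 5 (-5) (by norm_num), f15_eq_q, zpow_neg,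
    zpow_ofNat] at h3
  generalize eul (q1 (3 * z)) = x3, eul (q1 (5 * z)) = x5, eul (q1 (15 * z)) = x15
    at l3 l5 l15 h3 ⊢
  field_simp at h3
  linear_combination x3 * x5 ^ 2 * eul (q1 z) * x15 ^ 2 * h3

/-- The modular parametrization of the curve `y ^ 2 = x (x + 9) (x - 16)`. -/
theorem exists_param : ∃ u v : ℤ⟦X⟧, constantCoeff v = -8 ∧
    v ^ 2 = (u - C 0 * X ^ 2) * (u - C (-9) * X ^ 2) * (u - C 16 * X ^ 2) ∧
    X * (X * d⁄dX ℤ u - 2 * u) = C 1 * v * F15 := by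
  have hB : B15 * invOfUnit B15 1 = 1 := mul_invOfUnit _ _ (by simp [B15, cc_P1, cc_P15])
  have hG : G15 * invOfUnit G15 1 = 1 :=
    mul_invOfUnit _ _ (by simp [G15, cc_P1, cc_P3, cc_P5, cc_P15])
  have cB : constantCoeff (invOfUnit B15 1) = 1 := by simp
  have cG : constantCoeff (invOfUnit G15 1) = 1 := by simp
  generalize invOfUnit B15 1 = B' at hB cB
  generalize invOfUnit G15 1 = G' at hG cG
  have hT : QE (fun z => q1 z ^ 2 * t15 z) (toC (A15 * B')) := by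
    have hA := qe_A15
    have hB2 := qe_B15.inv (B := toC B') (fun z hz => mul_ne_zero (eul_ne hz)
      (pow_ne_zero _ (eul_ne (im_mul_pos hz)))) (by rw [← map_mul, hB, map_one])
    rw [map_mul]
    refine (hA.mul hB2).congr fun z hz => ?_
    have l0 := q1_ne z
    simp only [t15, etaq_eq (-2) (-1) 1 5 (-5) (by norm_num), zpow_neg, zpow_ofNat]
    generalize eul (q1 (3 * z)) = x3, eul (q1 (5 * z)) = x5, eul (q1 (15 * z)) = x15
    field_simp
  have hD : X * d⁄dX ℤ (A15 * B') = A15 * B' * (EE15 + 2) := by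
    obtain ⟨F₁, h1, h2⟩ := hT.hasDerivAt
    have h3 := h1.unique (hT.mul (qe_E15.add (QE.ofNat 2))) fun z hz => by
      have h4 := (h2 z hz).unique (((hasDerivAt_q1 z).pow 2).mul (hasDerivAt_etaq _ _ _ _ hz))
      apply mul_left_cancel₀ two_pi_I
      rw [h4]
      simp only [t15, E15, Pi.pow_apply]
      push_cast
      ring
    apply toC_inj
    rw [map_mul toC (A15 * B'), map_add, map_ofNat, ← h3, map_mul, map_X]
    congr 1
    ext n
    rw [coeff_map, coeff_derivative, coeff_derivative, coeff_map]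
    simp
  refine ⟨4 * (A15 * B'), 4 * (A15 * B') * EE15 * G', ?_, ?_, ?_⟩
  · simp [A15, EE15, cB, cG, cc_P3, cc_P5, cc_Sg, cc_Sg3, cc_Sg5, cc_Sg15, map_ofNat]
  · have hN := N15_eq_zero
    rw [N15] at hN
    simp only [map_zero, map_neg, map_ofNat]
    linear_combination 16 * A15 * B' ^ 3 * G' ^ 2 * hN - 16 * ((A15 * B') ^ 2 * EE15 ^ 2 * G' ^ 2 +
      7 * X ^ 2 * (A15 * B') ^ 2 + 36 * X ^ 4 * (A15 * B') * (B15 * B' + 1)) * hB +
      16 * (G15 * G' + 1) * (4 * (A15 * B') ^ 3 - 7 * X ^ 2 * (A15 * B') ^ 2 * (B15 * B') -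
      36 * X ^ 4 * (A15 * B') * (B15 * B') ^ 2) * hG
  · have h1 : d⁄dX ℤ (4 * (A15 * B')) = 4 * d⁄dX ℤ (A15 * B') := by
      rw [show (4 : ℤ⟦X⟧) = C 4 by simp, Derivation.leibniz, derivative_C]
      simp
    rw [h1, map_one, show F15 = X * G15 from rfl]
    linear_combination 4 * X * hD - 4 * X * A15 * B' * EE15 * hG

theorem a15_even {p : ℕ} (hp : p.Prime) (h : ¬ p ∣ 30) : Even (a15 p) := by
  let ψ : ℤ⟦X⟧ →+* (ZMod 2)⟦X⟧ := PowerSeries.map (Int.castRingHom (ZMod 2))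
  have h2 : (2 : (ZMod 2)⟦X⟧) = 0 := by
    rw [← map_ofNat (C (R := ZMod 2)) 2, show (2 : ZMod 2) = 0 from rfl, map_zero]
  have hN := congr_arg ψ N15_eq_zero
  simp only [N15, map_sub, map_mul, map_pow, map_ofNat, map_zero] at hN
  have h3 : ψ (A15 * B15) * (ψ EE15 - ψ F15) ^ 2 = 0 := by
    rw [show F15 = X * G15 from rfl, map_mul, map_mul]
    linear_combination hN + (2 * ψ G15 ^ 2 * ψ A15 ^ 2 - 3 * ψ G15 ^ 2 * ψ X ^ 2 * ψ A15 * ψ B15
      - 18 * ψ G15 ^ 2 * ψ X ^ 4 * ψ B15 ^ 2 - ψ A15 * ψ B15 * ψ EE15 * ψ X * ψ G15) * h2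
  have h4 : ψ (A15 * B15) ≠ 0 := fun h4 => by
    have := congr_arg (coeff 0) h4
    rw [coeff_map] at this
    simp [A15, B15, cc_P1, cc_P3, cc_P5, cc_P15] at this
  have h5 := sub_eq_zero.mp (pow_eq_zero_iff two_ne_zero |>.mp
    ((mul_eq_zero.mp h3).resolve_left h4))
  have h6 := congr_arg (coeff p) h5
  have k : ∀ d : ℕ, d ∣ 30 → d ≠ 1 → ¬ d ∣ p := fun d hd h1 hdp =>
    h (((Nat.dvd_prime hp).mp hdp).resolve_left h1 ▸ hd)
  have h7 : coeff p EE15 = 1 + p := by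
    have e : EE15 = C (-2) + Sg - C 3 * Sg3 - C 25 * Sg5 + C 75 * Sg15 := by simp [EE15]
    rw [e]
    simp only [map_add, map_sub, coeff_C_mul, coeff_C, hp.ne_zero, if_false, Sg3, Sg5, Sg15,
      coeff_expand_of_not_dvd _ _ _ (k 3 (by norm_num) (by norm_num)),
      coeff_expand_of_not_dvd _ _ _ (k 5 (by norm_num) (by norm_num)),
      coeff_expand_of_not_dvd _ _ _ (k 15 (by norm_num) (by norm_num))]
    simp [Sg, ArithmeticFunction.sigma_one_apply, hp.sum_divisors]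
    ring
  rw [coeff_map, coeff_map, h7] at h6
  have h8 : Odd p := hp.odd_of_ne_two fun h' => h (h' ▸ by norm_num)
  rw [← ZMod.intCast_eq_zero_iff_even, a15, ← eq_intCast (Int.castRingHom (ZMod 2)), ← h6,
    eq_intCast, ZMod.intCast_eq_zero_iff_even]
  exact odd_one.add_odd (by exact_mod_cast h8)

/-- Modularity of the curve `y ^ 2 = x (x + 9) (x - 16)` of conductor fifteen. -/
theorem a15_eq_tr (p : ℕ) [hp : Fact p.Prime] (h : ¬ p ∣ 30) :
    a15 p = tr p fun x => x * (x + 9) * (x - 16) := by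
  obtain ⟨u, v, h0, h1, h2⟩ := exists_param
  have k : ∀ n : ℕ, n ∣ 30 ^ 4 → (n : ZMod p) ≠ 0 := fun n hn h' =>
    h (hp.out.dvd_of_dvd_pow (((ZMod.natCast_eq_zero_iff n p).mp h').trans hn))
  obtain ⟨C, hC⟩ := a15_le
  have h15 : ¬ p ∣ 15 := fun h' => h (h'.trans (by norm_num))
  have := coeff_eq_tr p (fun h' => h (h' ▸ by norm_num)) 0 (-9) 16 1 u v F15
    (fun h' => k 9 (by norm_num) (by push_cast at h' ⊢; linear_combination h'))
    (fun h' => k 16 (by norm_num) (by push_cast at h' ⊢; linear_combination -h'))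
    (fun h' => k 25 (by norm_num) (by push_cast at h' ⊢; linear_combination -h'))
    (by simp) (fun h' => k 8 (by norm_num) (by rw [h0] at h'; push_cast at h' ⊢; linear_combination -h'))
    (by simp [F15]) a15_one h1 h2 (a15_even hp.out h)
    (abs_le_of_rec p hp.out.one_lt a15 a15_one
      (fun k => by simpa [h15] using hecke15.pow_rec' hp.out k) C hC)
  simpa [a15] using this

end Pool.Agent.Lib.MP_696deb_nt
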