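import Pool.Agent.Lib.MP_696deb_nt.RankOne
import Pool.Agent.Lib.MP_696deb_nt.VarChange
import Pool.Agent.Lib.MP_696deb_nt.Pt15

/-! A point of infinite order over the imaginary quadratic field, on which complex conjugation
acts by minus one, gives rank one for the twist. -/

set_option autoImplicit false

open WeierstrassCurve WeierstrassCurve.Affine

namespace Pool.Agent.Lib.MP_696deb_nt

theorem vc_twist {D : ℤ} (hD : D ≠ 0) {δ : ℂ} (hδ : δ ^ 2 = D) :
    VC (algebraMap ℚ ℂ) (twist15 D) (W15.baseChange ℂ) (1 / (6 * δ)) (7 / 12) (-1 / 2) (-7 / 24) := by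
  have h0 : δ ≠ 0 := by
    rintro rfl
    exact hD (by exact_mod_cast (by simpa using hδ.symm : (D : ℂ) = 0))
  refine ⟨by simp [h0], ?_, ?_, ?_, ?_, ?_⟩ <;>
    simp only [twist15, W15_a₁, W15_a₂, W15_a₃, W15_a₄, W15_a₆, map_zero, eq_ratCast,
      Rat.cast_intCast]
  · norm_num
  · norm_num
  · norm_num
  · push_cast; rw [← hδ]; field_simp; norm_num
  · push_cast; rw [← hδ]; field_simp; norm_num

theorem finrank_eq_one_of_point {N : ℕ} (hN : Squarefree N) (h4 : N % 4 = 3) (h3 : N % 3 = 2)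
    (h5 : N % 5 ≠ 0) (hB : CondB N) {δ : ℂ} (hδ : δ ^ 2 = -(N : ℂ)) {Q : Pt W15 ℂ}
    (hQ : ¬ IsOfFinAddOrder Q) (hx : ∃ a b : ℚ, xco Q = a + b * δ)
    (hy : ∃ a b : ℚ, yco Q = a + b * δ) (hc : pmap (starRingEnd ℂ) Q = -Q) :
    Module.finrank ℤ (twist15 (-(N : ℤ))).toAffine.Point = 1 := by
  classical
  have hN0 : (N : ℂ) ≠ 0 := by exact_mod_cast hN.ne_zero
  have h0 : δ ≠ 0 := by
    rintro rfl
    exact hN0 (by simpa using hδ.symm)
  have hcδ : (starRingEnd ℂ) δ = -δ := by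
    have h1 : ((starRingEnd ℂ) δ) ^ 2 = δ ^ 2 := by rw [← map_pow, hδ]; simp
    rcases sq_eq_sq_iff_eq_or_eq_neg.mp h1 with h | h
    · exfalso
      have h2 := Complex.conj_eq_iff_re.mp h
      rw [← h2] at hδ
      have h3 : δ.re ^ 2 = -(N : ℝ) := by exact_mod_cast hδ
      have : (0 : ℝ) < N := by exact_mod_cast Nat.pos_of_ne_zero hN.ne_zero
      nlinarith [sq_nonneg δ.re]
    · exact h
  have hv := vc_twist (D := -(N : ℤ)) (by omega) (δ := δ) (by rw [hδ]; push_cast; ring)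
  rcases Q with _ | ⟨X, Y, hP⟩
  · exact absurd IsOfFinAddOrder.zero hQ
  obtain ⟨a, b, ha⟩ := hx
  obtain ⟨c, d, hd⟩ := hy
  have e1 := congrArg xco hc
  have e2 := congrArg yco hc
  rw [xco_pmap, xco_neg] at e1
  rw [yco_pmap, Point.neg_some] at e2
  simp only [xco_some, yco_some, negY, toAffine, W15_a₁, W15_a₃] at ha hd e1 e2
  rw [ha] at e1
  rw [hd, ha] at e2
  simp only [map_add, map_mul, map_ratCast, hcδ] at e1 e2
  obtain ⟨P, hP'⟩ := hv.mem_range hP (x := -36 * N * (a - 7 / 12)) (y := 216 * N ^ 2 * d)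
    (by
      simp only [eq_ratCast]
      push_cast
      rw [ha, div_pow, mul_pow, hδ]
      field_simp
      linear_combination (-(6 : ℂ) * 36) * e1)
    (by
      simp only [eq_ratCast]
      push_cast
      have hN' : (N : ℂ) = -δ ^ 2 := by rw [hδ]; ring
      rw [hd, hN']
      field_simp
      linear_combination (62208 : ℂ) * e2 + (31104 : ℂ) * e1)
  refine finrank_twist15_eq_one hN h4 h3 h5 hB (P := P) fun h => hQ ?_
  rw [← hP']
  exact hv.hom.isOfFinAddOrder h

end Pool.Agent.Lib.MP_696deb_nt
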