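import Pool.Agent.Lib.MP_696deb_nt.Heeg
import Pool.Agent.Lib.MP_696deb_nt.NabTors

import Pool.Agent.Lib.MP_696deb_nt.RankOnePt

/-! The Heegner point has infinite order and the twist has rank one. -/

set_option autoImplicit false

open Complex Finset

namespace Pool.Agent.Lib.MP_696deb_nt.Gal

open Unif

variable {n : ℕ} {r : ℤ} {R : Finset Fm}

theorem not_tors (hV : VData) (hn : Good n) (hB : CondB n) (hr : 60 ∣ r ^ 2 + n)
    (hR : HReps (-n) r R) : ¬ Tors (∑ Q ∈ R, Fi (froot Q)) :=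
  not_tors_HP galData hV (fun _ h => nab_tors h) hn hB hr hR

theorem finrank_eq_one (hn : Good n) (hB : CondB n) (hr : 60 ∣ r ^ 2 + n) (hR : HReps (-n) r R)
    (h : ¬ Tors (∑ Q ∈ R, Fi (froot Q))) :
    Module.finrank ℤ (twist15 (-(n : ℤ))).toAffine.Point = 1 := by
  have hD := hn.neg
  obtain ⟨r3, r5⟩ := not_dvd_r hn hr
  have h3 : n % 3 = 2 := by
    have : r % 3 = 1 ∨ r % 3 = 2 := by omega
    have : r ^ 2 % 3 = 1 := by rcases this with e | e <;> rw [pow_two, Int.mul_emod, e] <;> rfl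
    omega
  have h5 : n % 5 ≠ 0 := fun e => r5 (prime_five.dvd_of_dvd_pow (n := 2) (by omega))
  have hU : ∀ σ : ℂ ≃+* ℂ, pmap (σ : ℂ →+* ℂ) (u15 (alC 3)) = u15 (alC 3) := fun σ => by
    rw [u15_alC_three]
    exact Shared.Weier.IsPer.some_congr (map_ofNat _ _) (by simp [map_ofNat])
  set P := ∑ Q ∈ R, pt (froot Q) with hP
  have hy : ∀ σ : ℂ ≃+* ℂ, σ (del (-n)) = del (-n) →
      pmap (σ : ℂ →+* ℂ) (2 • P - #R • u15 (alC 3)) = 2 • P - #R • u15 (alC 3) := fun σ hσ => by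
    rw [map_sub, map_nsmul, map_nsmul, hU, pmap_sum hD hR hσ]
  refine finrank_eq_one_of_point hn.sqf hn.mod4 h3 h5 hB (δ := del (-n)) (by simpa using del_sq hD)
    (Q := 2 • P - #R • u15 (alC 3)) (fun k => h ?_)
    (exists_rat hD fun σ hσ => by rw [← RingHom.coe_coe, ← xco_pmap, hy σ hσ])
    (exists_rat hD fun σ hσ => by rw [← RingHom.coe_coe, ← yco_pmap, hy σ hσ]) ?_
  · obtain ⟨m, h0, k⟩ := isOfFinAddOrder_iff_nsmul_eq_zero.mp k
    refine tors_iff.mpr ⟨m * 4 * 2, by omega, u15_eq_zero_iff.mp ?_⟩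
    have := congr_arg (4 • ·) k
    simp only [smul_zero, smul_sub, smul_comm 4 m, smul_comm 4 #R, four_smul_u15_alC, sub_zero] at this
    rw [← nsmul_eq_mul, map_nsmul, map_sum, mul_smul, mul_smul, ← this, hP]
    exact congr_arg (m • 4 • 2 • ·) (sum_congr rfl fun Q hQ => (pt_eq_u15 ((hR.mem Q hQ).im_pos hD)).symm)
  · rw [map_sub, map_nsmul, map_nsmul, conj_sum hD hR, show pmap (starRingEnd ℂ) (u15 (alC 3)) = _
      from hU starRingAut]
    abel

end Pool.Agent.Lib.MP_696deb_nt.Gal
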