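import Pool.Agent.Lib.MP_696deb_nt.ThV2

set_option autoImplicit false

open Finset NumberTheorySymbols

namespace Pool.Agent.Lib.MP_696deb_nt

namespace NvP

/-- A potential on the forms of discriminant one modulo fifteen, as a table of bits. -/
def tab : List ℕ := [0x7fc00000000210800000000000000000000002108000000007fc0000,
  0x1000000000000200000000000000000000,
  0x200000000200000000000000000000000000000000000002000,
  0x10800080000004042000000010840000008400021000008400008000,
  0x40040000000000000100008000000801000000000000200008000,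
  0x240000000009000000480000000002400000048000000008008000,
  0x48020000004021000001080010000000210020000002000008000,
  0x40000000000200200100040008000800040000000001000008100,
  0x41000000000040002000200040010008000001000000000008080,
  0x40800000080108000000100021000001080400000080200008000,
  0x240000000240000004800000000024000001200000000008008000,
  0x48000000000001002000000200010000000000000040000008000,
  0x44200000080204200000042100000000840400000020002100000,
  0x1000008000000004,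
  0x8000000000001000000000000000000000000000]

/-- The potential. -/
def aa (a b c : ZMod 15) : ZMod 2 :=
  if (tab.getD a.val 0).testBit (15 * b.val + c.val) then 1 else 0

/-- The family condition modulo fifteen. -/
def fm (a b : ZMod 15) : ZMod 2 := if a = 0 ∧ b = 1 then 1 else 0

/-- The number of steps of the path for which the translated form lies in the family. -/
def ff (a b c : ZMod 15) : ZMod 2 :=
  fm a b + fm (9 * a + 3 * b + c) (-6 * a - b) + fm (a + 3 * b + 9 * c) (7 * a + 7 * b - 6 * c) +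
    fm c (-b - 8 * c)

/-- Nonresidues modulo five. -/
def nr (a : ZMod 15) : ZMod 2 := if a.val % 5 = 2 ∨ a.val % 5 = 3 then 1 else 0

theorem tab_spec : ∀ a b c : ZMod 15, b * b - 4 * a * c = 1 →
    aa (a + b + c) (-b - 2 * c) c = aa a b c ∧ aa a (-b - 2 * a) (a + b + c) = aa a b c ∧
    ff a b c - ff c (-b) a - aa a b c + (ff a (-b) c - ff c (- -b) a - aa a (-b) c) = 0 := by
  decide +kernel

theorem tab_fix : ∀ g a c : ZMod 15,
    (g * g * (a * a - 4 * a * c) = 1 → aa (g * a) (-(g * a)) (g * c) + nr g = nr a) ∧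
    (g * g * (c * c - 4 * a * c) = 1 → aa (g * a) (-(g * c)) (g * c) + nr g = nr (4 * a - c)) := by
  decide +kernel

theorem nr_eq (m : ℤ) : nr m = if J(m | 5) = -1 then 1 else 0 := by
  rw [jacobiSym.mod_left, ← Int.emod_emod_of_dvd m (show ((5 : ℕ) : ℤ) ∣ 15 by norm_num),
    ← jacobiSym.mod_left, ← ZMod.intCast_mod m 15]
  have h1 := Int.emod_nonneg m (show (15 : ℤ) ≠ 0 by norm_num)
  have h2 := Int.emod_lt_of_pos m (show (0 : ℤ) < 15 by norm_num)
  push_cast
  generalize m % 15 = r at *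
  interval_cases r <;> norm_num <;> decide

variable {e β a b c d : ℤ} {w : Fm → ℤ} {R : Fm}

/-- The quarter turn on forms. -/
def sg (R : Fm) : Fm := (R.2.2, -R.2.1, R.1)

theorem sg_eq (R : Fm) : sg R = fmap R 0 (-1) 1 0 := by simp [sg, fmap, fval]

theorem fin0 (e : ℤ) : {R : Fm | fdisc R = e ∧ 0 < R.1 ∧ R.2.2 < 0}.Finite := by
  refine (finite_box e e).subset fun R ⟨h, h1, h2⟩ => ⟨h, h1.ne', ?_, ?_⟩
  · rw [← h, fdisc]
    exact_mod_cast (by rw [abs_of_pos h1]; nlinarith [sq_nonneg R.2.1] :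
      |R.1| ≤ R.2.1 ^ 2 - 4 * R.1 * R.2.2)
  · rw [← h, fdisc]
    exact_mod_cast (by nlinarith [Int.le_self_sq |R.2.1|, sq_abs R.2.1] :
      |R.2.1| ≤ R.2.1 ^ 2 - 4 * R.1 * R.2.2)

/-- The forms whose geodesic crosses the imaginary axis in the positive direction. -/
noncomputable def X0 (e : ℤ) : Finset Fm := (fin0 e).toFinset

theorem mem_X0 : R ∈ X0 e ↔ fdisc R = e ∧ 0 < R.1 ∧ R.2.2 < 0 := Set.Finite.mem_toFinset _

theorem cross (he : ¬ IsSquare e) (hw : ∀ R, w R ≠ 0 → fdisc R = e) :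
    (Function.support fun R => w R * (R.1.sign - R.2.2.sign)).Finite ∧
      ∑ᶠ R, w R * (R.1.sign - R.2.2.sign) = 2 * ∑ R ∈ X0 e, (w R - w (sg R)) := by
  have h : (Function.support fun R => w R * (R.1.sign - R.2.2.sign)) ⊆
      ↑(X0 e ∪ (X0 e).image sg) := fun R hR => by
    have h1 := hw R (left_ne_zero_of_mul hR)
    have h2 : R.1 ≠ 0 := by simpa [fval] using fval_ne he h1 (x := 1) (y := 0) (by simp)
    have h3 : R.2.2 ≠ 0 := by simpa [fval] using fval_ne he h1 (x := 0) (y := 1) (by simp)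
    have h4 : R.1 * R.2.2 < 0 := lt_of_le_of_ne (not_lt.1 fun h =>
      right_ne_zero_of_mul hR (sub_eq_zero.2 (isign_eq_of_mul_pos h))) (mul_ne_zero h2 h3)
    rw [mem_coe, mem_union, mem_X0, mem_image]
    refine (mul_neg_iff.1 h4).imp (fun h => ⟨h1, h⟩) fun h =>
      ⟨sg R, mem_X0.2 ⟨by rw [sg_eq, fdisc_fmap (by norm_num), h1], h.2, h.1⟩, by simp [sg]⟩
  refine ⟨(finite_toSet _).subset h, ?_⟩
  rw [finsum_eq_sum_of_support_subset _ h, sum_union, sum_image, ← sum_add_distrib, mul_sum]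
  · refine sum_congr rfl fun R hR => ?_
    obtain ⟨-, h1, h2⟩ := mem_X0.1 hR
    simp only [sg, Int.sign_eq_one_of_pos h1, Int.sign_eq_neg_one_of_neg h2]
    ring
  · intro Q _ R _ h
    simpa [sg, Prod.ext_iff, and_comm, and_assoc, and_left_comm] using h
  · refine disjoint_left.2 fun R h1 h2 => ?_
    obtain ⟨Q, h3, rfl⟩ := mem_image.1 h2
    exact (mem_X0.1 h1).2.1.not_gt (mem_X0.1 h3).2.2

theorem step (he : ¬ IsSquare e) (hw : ∀ R, w R ≠ 0 → fdisc R = e) (h : a * d - b * c = 1) :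
    (Function.support fun R => w R * ((fval R a c).sign - (fval R b d).sign)).Finite ∧
      ∑ᶠ R, w R * ((fval R a c).sign - (fval R b d).sign) =
        2 * ∑ R ∈ X0 e, (w (fmap R d (-b) (-c) a) - w (fmap (sg R) d (-b) (-c) a)) := by
  obtain ⟨h1, h2⟩ := cross (w := fun R => w (fmap R d (-b) (-c) a)) he fun R hR => by
    rw [← hw _ hR, fdisc_fmap (by linear_combination h)]
  have h3 : (fun R => w R * ((fval R a c).sign - (fval R b d).sign)) =
      (fun R => w (fmap R d (-b) (-c) a) * (R.1.sign - R.2.2.sign)) ∘ fequiv h := funext fun R => by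
    change _ = w (fmap (fmap R a b c d) _ _ _ _) * _
    rw [fmap_inv h]
    rfl
  rw [h3, ← h2]
  exact ⟨h1.preimage (fequiv h).injective.injOn, finsum_comp_equiv (fequiv h)
    (f := fun R => w (fmap R d (-b) (-c) a) * (R.1.sign - R.2.2.sign))⟩

/-- The sum of a weight over the four steps of the path from infinity to `4 / 15`. -/
def ph (w : Fm → ℤ) (R : Fm) : ℤ :=
  w R + w (fmap R 3 (-1) 1 0) + w (fmap R 4 (-1) (-3) 1) + w (fmap R 15 (-4) 4 (-1))

theorem th_eq (he : ¬ IsSquare e) (hw : ∀ R, w R ≠ 0 → fdisc R = e) :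
    th w = 2 * ∑ R ∈ X0 e, (ph w R - ph w (sg R)) := by
  obtain ⟨a1, b1⟩ := step he hw (a := 1) (b := 0) (c := 0) (d := 1) (by norm_num)
  obtain ⟨a2, b2⟩ := step he hw (a := 0) (b := 1) (c := -1) (d := 3) (by norm_num)
  obtain ⟨a3, b3⟩ := step he hw (a := 1) (b := 1) (c := 3) (d := 4) (by norm_num)
  obtain ⟨a4, b4⟩ := step he hw (a := -1) (b := 4) (c := -4) (d := 15) (by norm_num)
  have c2 := Function.HasFiniteSupport.add a1 a2
  have c3 := Function.HasFiniteSupport.add c2 a3
  have h := finsum_add_distrib c3 a4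
  have h' := finsum_add_distrib c2 a3
  simp only [Pi.add_apply] at h h'
  rw [h', finsum_add_distrib a1 a2, b1, b2, b3, b4, ← mul_add, ← mul_add, ← mul_add, ← sum_add_distrib,
    ← sum_add_distrib, ← sum_add_distrib] at h
  refine (finsum_congr fun R => ?_).trans (h.trans (congrArg _ (sum_congr rfl fun R _ => ?_)))
  · simp only [fval]
    ring_nf
  · simp only [ph, neg_zero, neg_neg, fmap_one]
    ring

variable {n : ℕ}

/-- The principal genus. -/
def PG (n : ℕ) (R : Fm) : Prop := ∀ r ∈ n.primeFactors, gl r R = 1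

instance (n : ℕ) (R : Fm) : Decidable (PG n R) := by unfold PG; infer_instance

theorem sum_gch (hn : Squarefree n) (ho : Odd n) (hR : fdisc R = n) :
    ∑ A ∈ n.divisors, gch A R = if PG n R then 2 ^ #n.primeFactors else 0 := by
  have h := (ArithmeticFunction.IsMultiplicative.prodPrimeFactors
    (gl · R)).prodPrimeFactors_one_add_of_squarefree hn
  rw [sum_congr rfl (g := (gch · R)) fun A hA => (ArithmeticFunction.prodPrimeFactors_apply
    (f := (gl · R)) (Nat.pos_of_mem_divisors hA).ne').trans (gch_eq A R).symm, prod_congr rfl (g := fun r => 1 + gl r R) fun r hr => by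
      have := Nat.prime_of_mem_primeFactors hr
      rw [ArithmeticFunction.prodPrimeFactors_apply this.ne_zero, this.primeFactors,
        prod_singleton]] at h
  rw [← h]
  split_ifs with h1
  · rw [prod_congr rfl (g := fun _ => 2) fun r hr => by rw [h1 r hr]; rfl, prod_const]
  simp only [PG, not_forall] at h1
  obtain ⟨r, hr, h1⟩ := h1
  refine prod_eq_zero hr ?_
  have hp := Nat.prime_of_mem_primeFactors hr
  have h2 : gl r R ≠ 0 := fun h0 => by
    have h3 := (gl_zero hp (prime_ne_two ho hr) (hR ▸ dvd_of_mem dvd_rfl hr)).1 h0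
    obtain ⟨x, hx⟩ := h3 1 0
    obtain ⟨y, hy⟩ := h3 0 1
    obtain ⟨z, hz⟩ := h3 1 1
    simp only [fval] at hx hy hz
    refine hp.not_isUnit (hn r (Int.natCast_dvd_natCast.1 ⟨(z - x - y) ^ 2 - 4 * x * y, ?_⟩))
    have hb : R.2.1 = r * (z - x - y) := by linear_combination hz - hx - hy
    rw [← hR, fdisc, hb, show R.1 = r * x by linear_combination hx,
      show R.2.2 = r * y by linear_combination hy]
    push_cast
    ring
  have h3 : gl r R = 0 ∨ gl r R = 1 ∨ gl r R = -1 := by
    unfold gl; split_ifs <;> exact jacobiSym.trichotomy _ _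
  omega

theorem PG.fmap (ho : Odd n) (hR : fdisc R = n) (h : PG n R) (h1 : a * d - b * c = 1) :
    PG n (fmap R a b c d) := fun r hr => by
  have hp := Nat.prime_of_mem_primeFactors hr
  have := gch_fmap (hp.odd_of_ne_two (prime_ne_two ho hr)) (hR ▸ dvd_of_mem dvd_rfl hr) h1
  rw [gch_eq, gch_eq, hp.primeFactors, prod_singleton, prod_singleton] at this
  exact this.trans (h r hr)

theorem ph_wG {A : ℕ} (ho : Odd n) (hA : A ∣ n) (hR : fdisc R = n) :
    ph (wG A n β) R = gch A R * ph (wG 1 n β) R := by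
  have h : ∀ a b c d : ℤ, a * d - b * c = 1 →
      wG A n β (fmap R a b c d) = gch A R * wG 1 n β (fmap R a b c d) := fun a b c d h => by
    rw [wG, wG, gch_fmap (ho.of_dvd_nat hA) (hR ▸ Int.natCast_dvd_natCast.2 hA) h]
    simp [gch]
  have h1 := h 1 0 0 1 (by norm_num)
  rw [fmap_one] at h1
  rw [ph, ph, h1, h _ _ _ _ (by norm_num), h 4 _ _ _ (by norm_num), h 15 _ _ _ (by norm_num)]
  ring

variable {g : ZMod 15}

theorem wG_cast (ho : Odd n) (hβ : Odd β) (hg : g * β = 1) (hR : fdisc R = n) :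
    (wG 1 n β R : ZMod 2) = fm (g * R.1) (g * R.2.1) := by
  have hu : IsUnit g := .of_mul_eq_one _ hg
  have h2 : 2 ∣ R.2.1 - β := by
    have : Odd (R.2.1 ^ 2) := by
      obtain ⟨k, hk⟩ := ho
      exact ⟨k + 2 * R.1 * R.2.2, by rw [fdisc, hk] at hR; push_cast at hR; linarith⟩
    exact ((Int.odd_pow' two_ne_zero).1 this).sub_odd hβ |>.two_dvd
  have h : Fam n β R ↔ g * R.1 = 0 ∧ g * R.2.1 = 1 := by
    rw [← hg, hu.mul_right_eq_zero, hu.mul_right_inj, ← sub_eq_zero (a := (R.2.1 : ZMod 15)),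
      ← Int.cast_sub, ZMod.intCast_zmod_eq_zero_iff_dvd, ZMod.intCast_zmod_eq_zero_iff_dvd, Fam]
    simp only [hR, true_and]
    omega
  simp only [wG, fm, h]
  split_ifs <;> simp [gch]

theorem ph_cast (ho : Odd n) (hβ : Odd β) (hg : g * β = 1) (hR : fdisc R = n) :
    (ph (wG 1 n β) R : ZMod 2) = ff (g * R.1) (g * R.2.1) (g * R.2.2) := by
  have h : ∀ a b c d : ℤ, a * d - b * c = 1 → _ := fun a b c d h =>
    wG_cast ho hβ hg ((fdisc_fmap h R).trans hR)
  have h0 : (15 : ZMod 15) = 0 := rfl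
  simp only [ph, Int.cast_add]
  rw [wG_cast ho hβ hg hR, h _ _ _ _ (by norm_num), h 4 _ _ _ (by norm_num),
    h 15 _ _ _ (by norm_num), ff]
  simp only [fmap, fval]
  push_cast
  refine congrArg₂ _ (congrArg₂ _ (congrArg₂ _ rfl (congrArg₂ fm (by ring) (by ring)))
    (congrArg₂ fm ?_ ?_)) (congrArg₂ fm ?_ ?_)
  · linear_combination g * (R.1 - R.2.1) * h0
  · linear_combination -g * R.1 * h0
  · linear_combination g * (15 * R.1 + 4 * R.2.1 + R.2.2) * h0
  · linear_combination -g * (8 * R.1 + 2 * R.2.1) * h0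

/-- The next form along the river, reflected. -/
def riv (R : Fm) : Fm :=
  if 0 < R.1 + R.2.1 + R.2.2 then (R.1 + R.2.1 + R.2.2, -R.2.1 - 2 * R.2.2, R.2.2)
  else (R.1, -R.2.1 - 2 * R.1, R.1 + R.2.1 + R.2.2)

/-- The principal genus part of the crossing forms. -/
noncomputable def X (n : ℕ) : Finset Fm := {R ∈ X0 n | PG n R}

theorem mem_X : R ∈ X n ↔ (fdisc R = n ∧ 0 < R.1 ∧ R.2.2 < 0) ∧ PG n R := by
  rw [X, mem_filter, mem_X0]

theorem cj_mem (h : R ∈ X n) : cj R ∈ X n := by
  rw [mem_X] at h ⊢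
  exact ⟨⟨by simpa [fdisc, cj] using h.1.1, h.1.2⟩, h.2⟩

theorem riv_mem (ho : Odd n) (he : ¬ IsSquare (n : ℤ)) (h : R ∈ X n) :
    riv R ∈ X n ∧ riv (riv R) = R := by
  obtain ⟨⟨h1, h2, h3⟩, h4⟩ := mem_X.1 h
  obtain ⟨⟨h5, -⟩, h6⟩ := mem_X.1 (cj_mem h)
  have h7 : R.1 + R.2.1 + R.2.2 ≠ 0 := by
    simpa [fval] using fval_ne he h1 (x := 1) (y := 1) (by simp)
  rw [mem_X]
  by_cases h8 : 0 < R.1 + R.2.1 + R.2.2
  · have e1 : riv R = fmap (cj R) 1 0 (-1) 1 := by
      simp [riv, h8, fmap, fval, cj, sub_eq_add_neg]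
    refine ⟨⟨⟨?_, ?_⟩, e1 ▸ h6.fmap ho h5 (by norm_num)⟩, ?_⟩
    · rw [e1, fdisc_fmap (by norm_num), h5]
    · rw [riv, if_pos h8]; exact ⟨h8, h3⟩
    · rw [riv, riv, if_pos h8, if_pos (by simp only; omega)]
      ext <;> simp only <;> ring
  · have e1 : riv R = fmap (cj R) 1 (-1) 0 1 := by
      rw [riv, if_neg h8]
      simp [fmap, fval, cj, sub_eq_add_neg, add_comm]
    refine ⟨⟨⟨?_, ?_⟩, e1 ▸ h6.fmap ho h5 (by norm_num)⟩, ?_⟩
    · rw [e1, fdisc_fmap (by norm_num), h5]
    · rw [riv, if_neg h8]; exact ⟨h2, by simp only; omega⟩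
    · rw [riv, riv, if_neg h8, if_neg (by simp only; omega)]
      ext <;> simp only <;> ring

/-- The ambiguous form with the values `m` and `-l`. -/
def amb (m l : ℤ) : Fm := if m < l then (m, -m, (m - l) / 4) else ((m - l) / 4, l, -l)

theorem amb_spec (hn : Squarefree n) (h4 : n % 4 = 1) (h1 : 1 < n) (hg : g * g * n = 1) {m l : ℕ}
    (h : m * l = n) : (fdisc (amb m l) = n ∧ 0 < (amb m l).1 ∧ (amb m l).2.2 < 0) ∧
      riv (amb m l) = amb m l ∧ (PG n (amb m l) ↔
        ∀ r ∈ n.primeFactors, J((if r ∣ m then -(l : ℤ) else m) | r) = 1) ∧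
      aa (g * (amb m l).1) (g * (amb m l).2.1) (g * (amb m l).2.2) + nr g = nr m := by
  have ho : Odd n := Nat.odd_iff.2 (by omega)
  have hc : m.Coprime l := Nat.coprime_of_squarefree_mul (h ▸ hn)
  have h0 : 0 < m ∧ 0 < l := by
    constructor <;> refine Nat.pos_of_ne_zero fun e => ?_ <;> simp [e] at h <;> omega
  have hne : m ≠ l := by
    rintro rfl
    rw [Nat.coprime_self] at hc
    subst hc
    omega
  obtain ⟨k, hk⟩ : (4 : ℤ) ∣ m - l := by
    rw [← h, Nat.mul_mod] at h4
    have a1 := Nat.mod_lt m (show 0 < 4 by norm_num)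
    have a2 := Nat.mod_lt l (show 0 < 4 by norm_num)
    have : m % 4 = l % 4 := by
      generalize m % 4 = x at *
      generalize l % 4 = y at *
      interval_cases x <;> interval_cases y <;> simp_all
    omega
  have hz : (m : ℤ) * l = n := by exact_mod_cast h
  have hk' : (m : ZMod 15) - l = 4 * k := by exact_mod_cast congrArg (Int.cast : ℤ → ZMod 15) hk
  have hz' : (m : ZMod 15) * l = n := by exact_mod_cast congrArg (Nat.cast : ℕ → ZMod 15) h
  have key : ∀ R : Fm, fdisc R = n → (∃ x y, fval R x y = m) → (∃ x y, fval R x y = -l) →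
      (PG n R ↔ ∀ r ∈ n.primeFactors, J((if r ∣ m then -(l : ℤ) else m) | r) = 1) := by
    rintro R hR ⟨x, y, e1⟩ ⟨x', y', e2⟩
    refine forall₂_congr fun r hr => ?_
    have hp := Nat.prime_of_mem_primeFactors hr
    have := @gl_fval r R hp (prime_ne_two ho hr) (hR ▸ dvd_of_mem dvd_rfl hr)
    split_ifs with h2
    · rw [this (x := x') (y := y'), e2]
      rw [e2, dvd_neg, Int.natCast_dvd_natCast]
      exact fun h3 => hp.one_lt.ne' (Nat.eq_one_of_dvd_coprimes hc h2 h3)
    · rw [this (x := x) (y := y), e1]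
      rwa [e1, Int.natCast_dvd_natCast]
  rw [amb, hk, Int.mul_ediv_cancel_left _ four_ne_zero]
  split_ifs with h2
  · have h3 : fdisc (m, -m, k) = n := by simp only [fdisc]; linear_combination hz + m * hk
    refine ⟨⟨h3, by simp only; omega, by simp only; omega⟩, ?_,
      key _ h3 ⟨1, 0, by simp [fval]⟩ ⟨1, 2, by simp only [fval]; linear_combination -hk⟩, ?_⟩
    · rw [riv, if_neg (by simp only; omega)]
      ext <;> simp only <;> ring
    · simpa using (tab_fix g m k).1 (by linear_combination hg + g * g * hz' + g * g * m * hk')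
  · have h3 : fdisc (k, l, -l) = n := by simp only [fdisc]; linear_combination hz - l * hk
    refine ⟨⟨h3, by simp only; omega, by simp only; omega⟩, ?_,
      key _ h3 ⟨2, 1, by simp only [fval]; linear_combination -hk⟩ ⟨0, 1, by simp [fval]⟩, ?_⟩
    · rw [riv, if_pos (by simp only; omega)]
      ext <;> simp only <;> ring
    · have := (tab_fix g k (-l)).2 (by linear_combination hg + g * g * hz' - g * g * l * hk')
      rw [show 4 * (k : ZMod 15) - -l = m by linear_combination -hk'] at this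
      simpa using this

theorem exists_amb (h : R ∈ X n) (hf : riv R = R) : ∃ m l : ℕ, m * l = n ∧ amb m l = R := by
  obtain ⟨a, b, c⟩ := R
  obtain ⟨⟨h1, h2, h3⟩, -⟩ := mem_X.1 h
  simp only [fdisc] at h1 h2 h3
  rw [riv] at hf
  split_ifs at hf with h4 <;> simp only [Prod.mk.injEq] at hf
  · obtain ⟨m, hm⟩ := Int.eq_ofNat_of_zero_le (show 0 ≤ 4 * a - c by omega)
    obtain ⟨l, hl⟩ := Int.eq_ofNat_of_zero_le (show 0 ≤ -c by omega)
    obtain rfl : b = -c := by omega
    refine ⟨m, l, by zify; rw [← hm, ← hl]; linear_combination h1, ?_⟩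
    rw [amb, if_neg (by omega)]
    ext <;> simp only <;> omega
  · obtain ⟨m, hm⟩ := Int.eq_ofNat_of_zero_le h2.le
    obtain ⟨l, hl⟩ := Int.eq_ofNat_of_zero_le (show 0 ≤ a - 4 * c by omega)
    obtain rfl : b = -a := by omega
    refine ⟨m, l, by zify; rw [← hm, ← hl]; linear_combination h1, ?_⟩
    rw [amb, if_pos (by omega)]
    ext <;> simp only <;> omega

theorem parity (hn : Squarefree n) (h4 : n % 4 = 1) (h1 : 1 < n) (he : ¬ IsSquare (n : ℤ))
    (hg : g * g * n = 1) :
    ∑ R ∈ X n, (ff (g * R.1) (g * R.2.1) (g * R.2.2) -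
      ff (g * (sg R).1) (g * (sg R).2.1) (g * (sg R).2.2)) = ambN n := by
  have ho : Odd n := Nat.odd_iff.2 (by omega)
  have h2 : ∀ x : ZMod 2, x + x = 0 := by decide
  have hs := fun R (hR : R ∈ X n) => tab_spec (g * R.1) (g * R.2.1) (g * R.2.2) (by
    have := congrArg (Int.cast : ℤ → ZMod 15) (mem_X.1 hR).1.1
    rw [fdisc] at this
    push_cast at this
    linear_combination hg + g * g * this)
  let p : Fm → ZMod 2 := fun R => aa (g * R.1) (g * R.2.1) (g * R.2.2) + nr g
  have hp : ∀ R ∈ X n, p (riv R) = p R := fun R hR => by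
    simp only [p, riv]
    split_ifs <;> push_cast <;> congr 1
    · convert (hs R hR).1 using 2 <;> ring
    · convert (hs R hR).2.1 using 2 <;> ring
  rw [← sub_add_cancel (∑ R ∈ X n, _) (∑ R ∈ X n, p R), ← sum_sub_distrib,
    sum_involution (fun R _ => cj R) ?_ ?_ (fun R => cj_mem) fun R _ => cj_cj R, zero_add,
    ← sum_filter_add_sum_filter_not _ fun R => riv R = R,
    sum_involution (s := {R ∈ X n | ¬ riv R = R}) (fun R _ => riv R)
      (fun R hR => by rw [hp R (mem_filter.1 hR).1, h2]) (fun R hR _ => (mem_filter.1 hR).2)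
      (fun R hR => ?_) fun R hR => (riv_mem ho he (mem_filter.1 hR).1).2, add_zero]
  · rw [ambN, ← filter_filter, card_filter, Nat.cast_sum]
    simp only [Nat.cast_ite, Nat.cast_one, Nat.cast_zero]
    have hd : ∀ m ∈ n.divisors, m * (n / m) = n := fun m hm =>
      Nat.mul_div_cancel' (Nat.dvd_of_mem_divisors hm)
    refine (sum_bij (fun (m : ℕ) _ => amb m (n / m : ℕ)) (fun m hm => ?_) (fun m hm m' hm' e => ?_)
      (fun R hR => ?_) fun m hm => ?_).symm
    · obtain ⟨a1, a2, a3, -⟩ := amb_spec hn h4 h1 hg (hd m (mem_filter.1 hm).1)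
      exact mem_filter.2 ⟨mem_X.2 ⟨a1, a3.2 (mem_filter.1 hm).2⟩, a2⟩
    · have a1 := hd m (mem_filter.1 hm).1
      have a2 := hd m' (mem_filter.1 hm').1
      have a3 := (amb_spec hn h4 h1 hg a1).1.2
      generalize n / m = l at *
      generalize n / m' = l' at *
      simp only [amb] at e a3
      split_ifs at e a3 <;> simp only [Prod.mk.injEq] at e a3
      · omega
      · omega
      · omega
      · obtain rfl : l = l' := by omega
        exact Nat.eq_of_mul_eq_mul_right (by omega) (a1.trans a2.symm)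
    · obtain ⟨m, l, a1, rfl⟩ := exists_amb (mem_filter.1 hR).1 (mem_filter.1 hR).2
      have a2 : n / m = l := by
        rw [← a1, Nat.mul_div_cancel_left _ (Nat.pos_of_ne_zero (by rintro rfl; omega))]
      refine ⟨m, mem_filter.2 ⟨Nat.mem_divisors.2 ⟨⟨l, a1.symm⟩, by omega⟩, ?_⟩, by rw [a2]⟩
      rw [a2]
      exact (amb_spec hn h4 h1 hg a1).2.2.1.1 (mem_X.1 (mem_filter.1 hR).1).2
    · have := (amb_spec hn h4 h1 hg (hd m (mem_filter.1 hm).1)).2.2.2
      rw [← Int.cast_natCast (R := ZMod 15) m, nr_eq] at this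
      exact this.symm
  · obtain ⟨a1, a2⟩ := riv_mem ho he (mem_filter.1 hR).1
    exact mem_filter.2 ⟨a1, fun e => (mem_filter.1 hR).2 (e.symm.trans a2)⟩
  · intro R hR
    have := (hs R hR).2.2
    simp only [p, sg, cj, Int.cast_neg, mul_neg]
    linear_combination this - h2 (nr g)
  · intro R hR _ e
    have a1 := (mem_X.1 hR).1.1
    have a2 : R.2.1 = 0 := by
      have := congrArg (·.2.1) e
      simp only [cj] at this
      omega
    rw [fdisc, a2, mul_assoc] at a1
    omega

end NvP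

open NvP

theorem th_sum {d : ℕ} (hd : Squarefree d) (hc : d.Coprime 30) (h4 : d % 4 = 1) (h1 : 1 < d)
    {β : ℤ} (hβ : 60 ∣ β ^ 2 - d) :
    (2 : ℤ) ^ (#d.primeFactors + 2) ∣
      ∑ A ∈ d.divisors, th (wG A d β) - 2 ^ (#d.primeFactors + 1) * ambN d := by
  have ho : Odd d := Nat.odd_iff.2 (by omega)
  have he : ¬ IsSquare (d : ℤ) := by
    rw [Int.isSquare_natCast_iff]
    rintro ⟨r, rfl⟩
    obtain rfl := Nat.isUnit_iff.1 (hd r dvd_rfl)
    omega
  have hb : Odd β := (Int.odd_pow' two_ne_zero).1 (Int.odd_iff.2 (by omega))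
  have hz : (β : ZMod 15) ^ 2 = d := by
    have := (ZMod.intCast_zmod_eq_zero_iff_dvd _ 15).2 (Dvd.dvd.trans (by norm_num) hβ)
    push_cast at this
    exact sub_eq_zero.1 this
  obtain ⟨u, hu⟩ := ((ZMod.isUnit_iff_coprime d 15).2
    (hc.coprime_dvd_right (by norm_num))).exists_left_inv
  have hg : u * β * β = 1 := by linear_combination hu + u * hz
  have h2 : ∑ A ∈ d.divisors, th (wG A d β) = 2 ^ (#d.primeFactors + 1) *
      ∑ R ∈ X d, (ph (wG 1 d β) R - ph (wG 1 d β) (sg R)) := by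
    rw [sum_congr rfl fun A _ => th_eq he fun R h => (fam_of_wG h).2.1, ← mul_sum, sum_comm, pow_succ',
      mul_assoc, X, sum_filter, mul_sum _ _ (2 ^ _)]
    refine congrArg _ (sum_congr rfl fun R hR => ?_)
    have h3 := (mem_X0.1 hR).1
    rw [sum_congr rfl (g := fun A => gch A R * (ph (wG 1 d β) R - ph (wG 1 d β) (sg R)))
      fun A hA => ?_, ← sum_mul, sum_gch hd ho h3]
    · split_ifs <;> simp
    have h5 := Nat.dvd_of_mem_divisors hA
    rw [ph_wG ho h5 h3, ph_wG ho h5 (by rw [sg_eq, fdisc_fmap (by norm_num), h3]), mul_sub, sg_eq,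
      gch_fmap (ho.of_dvd_nat h5) (h3 ▸ Int.natCast_dvd_natCast.2 h5) (by norm_num)]
  rw [h2, ← mul_sub, pow_succ]
  refine mul_dvd_mul_left _ ((ZMod.intCast_zmod_eq_zero_iff_dvd _ 2).1 ?_)
  push_cast
  rw [sub_eq_zero, ← parity hd h4 h1 he (g := u * β) (by
    linear_combination (u * β * β + 1) * hg - (u * β) ^ 2 * hz)]
  refine sum_congr rfl fun R hR => ?_
  have h3 := (mem_X.1 hR).1.1
  rw [ph_cast ho hb hg h3, ph_cast ho hb hg (by rw [sg_eq, fdisc_fmap (by norm_num), h3])]

end Pool.Agent.Lib.MP_696deb_nt
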