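import Pool.Agent.Lib.MP_696deb_nt.RankOne
import Pool.Agent.Lib.MP_696deb_nt.BinForm

-- part Pool.Agent.Lib.MP_696deb_nt.SelDefs
section

/-! The two-Selmer set of a curve with three rational points of order two. -/

set_option autoImplicit false

open WeierstrassCurve NumberTheorySymbols

namespace Pool.Agent.Lib.MP_696deb_nt

/-- No non-trivial ambiguous ideal whose norm is a square modulo five lies in the principal genus. -/
def CondB5 (n : ℤ) : Prop :=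
  ∀ d d' : ℤ, d * d' = n → 0 < d →
    (∀ p : ℕ, p.Prime → (p : ℤ) ∣ d' → IsSquare (d : ZMod p)) →
    (∀ p : ℕ, p.Prime → (p : ℤ) ∣ d → IsSquare (d' : ZMod p)) → J(d | 5) = 1 → d = 1 ∨ d' = 1

theorem CondB.five {n : ℤ} (h : CondB n) : CondB5 n := fun d d' h1 h2 h3 h4 _ => h d d' h1 h2 h3 h4

/-- The two-covering attached to `(b1, b2)` of `y^2 = (x - e1)(x - e2)(x - e3)` has a point over
`K`. -/
def Solv (K : Type) [Field K] (e1 e2 e3 b1 b2 : ℤ) : Prop :=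
  ∃ z0 z1 z2 z3 : K, ¬ (z0 = 0 ∧ z1 = 0 ∧ z2 = 0 ∧ z3 = 0) ∧
    b1 * z1 ^ 2 - b2 * z2 ^ 2 = (e2 - e1) * z0 ^ 2 ∧
    b1 * z1 ^ 2 - b1 * b2 * z3 ^ 2 = (e3 - e1) * z0 ^ 2

/-- The two-Selmer group, as a set of pairs of squarefree integers. -/
def Sel (e1 e2 e3 : ℤ) : Set (ℤ × ℤ) :=
  {b | Squarefree b.1 ∧ Squarefree b.2 ∧ Solv ℝ e1 e2 e3 b.1 b.2 ∧
    ∀ (p : ℕ) [Fact p.Prime], Solv ℚ_[p] e1 e2 e3 b.1 b.2}

open Classical in
/-- The coordinate of the descent map attached to the root `e1`. -/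
noncomputable def dl {K : Type} [Field K] {W : WeierstrassCurve K} (e1 e2 e3 : K) :
    W.toAffine.Point → K
  | .zero => 1
  | .some x _ _ => if x = e1 then (e1 - e2) * (e1 - e3) else x - e1

/-- The curve with the given roots. -/
def Wsp (K : Type) [Field K] (e1 e2 e3 : ℤ) : WeierstrassCurve K :=
  ⟨0, -(e1 + e2 + e3), 0, e1 * e2 + e1 * e3 + e2 * e3, -(e1 * e2 * e3)⟩

/-- The pair `(b1, b2)` is, up to squares, the image of a point over `K`. -/
def Loc (K : Type) [Field K] (e1 e2 e3 b1 b2 : ℤ) : Prop :=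
  ∃ P : (Wsp K e1 e2 e3).toAffine.Point,
    IsSquare (dl (e1 : K) e2 e3 P * b1) ∧ IsSquare (dl (e2 : K) e1 e3 P * b2)

/-- The short model of the twist by `-N` of the curve `y^2 = x (x + 1) (x + 16)`. -/
def tw3 (N : ℕ) : WeierstrassCurve ℚ :=
  { a₁ := 0, a₂ := 0, a₃ := 0, a₄ := ((-6507 * (N : ℤ) ^ 2 : ℤ) : ℚ),
    a₆ := ((-199206 * (N : ℤ) ^ 3 : ℤ) : ℚ) }

theorem tw3_eq (N : ℕ) : tw3 N = Wsp ℚ (-51 * N) (-42 * N) (93 * N) := by
  rw [tw3, Wsp]
  congr 1 <;> push_cast <;> ring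

end Pool.Agent.Lib.MP_696deb_nt
end

-- part Pool.Agent.Lib.MP_696deb_nt.SelLoc
section

/-! The descent map over an arbitrary field, local solubility, and counting Selmer elements. -/

set_option autoImplicit false

open WeierstrassCurve WeierstrassCurve.Affine

namespace Pool.Agent.Lib.MP_696deb_nt

namespace SelA

variable {K : Type} [Field K]

theorem sq_cancel {a b c : K} (ha : a ≠ 0) (h1 : IsSquare (a * b)) (h2 : IsSquare (a * c)) :
    IsSquare (b * c) := by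
  obtain ⟨r, hr⟩ := h1
  obtain ⟨s, hs⟩ := h2
  refine ⟨r * s / a, ?_⟩
  field_simp
  linear_combination (a * c) * hr + r * r * hs

theorem sq_eq {a b : K} (h : IsSquare a) (e : b = a) : IsSquare b := e ▸ h

theorem sq_of_mul {a b : K} (ha : a ≠ 0) (h1 : IsSquare a) (h2 : IsSquare (a * b)) :
    IsSquare b := by
  simpa using sq_cancel ha (b := 1) (by simpa using h1) h2

variable {W : WeierstrassCurve K} {e1 e2 e3 : K}

theorem dl_zero : dl e1 e2 e3 (0 : W.toAffine.Point) = 1 := rfl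

theorem dl_of_ne {x y : K} (hP : W.toAffine.Nonsingular x y) (hx : x ≠ e1) :
    dl e1 e2 e3 (Point.some x y hP) = x - e1 := by
  simp [dl, hx]

theorem dl_of_eq {y : K} (hP : W.toAffine.Nonsingular e1 y) :
    dl e1 e2 e3 (Point.some e1 y hP) = (e1 - e2) * (e1 - e3) := by
  simp [dl]

theorem dl_neg (P : W.toAffine.Point) : dl e1 e2 e3 (-P) = dl e1 e2 e3 P := by
  rcases P with _ | ⟨x, y, hP⟩ <;> rfl

theorem dl_swap (P : W.toAffine.Point) : dl e1 e2 e3 P = dl e1 e3 e2 P := by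
  rcases P with _ | ⟨x, y, hP⟩
  · rfl
  · simp only [dl, mul_comm]

theorem y_eq_zero (h : Split W e1 e2 e3) {y : K} (hP : W.toAffine.Nonsingular e1 y) : y = 0 := by
  have := (h.nonsingular_iff e1 y).mp hP
  rw [sub_self, zero_mul, zero_mul] at this
  exact pow_eq_zero_iff two_ne_zero |>.mp this

theorem eq_T [DecidableEq K] (h : Split W e1 e2 e3) {y : K} (hP : W.toAffine.Nonsingular e1 y) :
    Point.some e1 y hP = h.T := by
  obtain rfl := y_eq_zero h hP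
  rfl

theorem dl_T [DecidableEq K] (h : Split W e1 e2 e3) :
    dl e1 e2 e3 h.T = (e1 - e2) * (e1 - e3) := dl_of_eq _

theorem dl_add_T [DecidableEq K] (h : Split W e1 e2 e3) (P : W.toAffine.Point) :
    IsSquare (dl e1 e2 e3 P * dl e1 e2 e3 h.T * dl e1 e2 e3 (P + h.T)) := by
  rcases P with _ | ⟨x, y, hP⟩
  · rw [← Point.zero_def, zero_add, dl_zero, one_mul]
    exact ⟨_, rfl⟩
  by_cases hx : x = e1
  · subst hx
    rw [eq_T h hP, ← two_nsmul, h.two_nsmul_T, dl_zero, mul_one]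
    exact ⟨_, rfl⟩
  obtain ⟨x', y', hP', e, f1, -⟩ := h.add_T hP hx
  have hx' : x' ≠ e1 := by
    rintro rfl
    rw [sub_self, zero_mul] at f1
    exact mul_ne_zero (sub_ne_zero.mpr h.h12) (sub_ne_zero.mpr h.h13) f1.symm
  rw [e, dl_of_ne hP hx, dl_of_ne hP' hx', dl_T]
  exact ⟨(e1 - e2) * (e1 - e3), by linear_combination (e1 - e2) * (e1 - e3) * f1⟩

end SelA

open SelA

section dl

variable {K : Type} [Field K] [DecidableEq K] {W : WeierstrassCurve K} {e1 e2 e3 : K}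

omit [DecidableEq K] in
theorem dl_ne (h : Split W e1 e2 e3) (P : W.toAffine.Point) : dl e1 e2 e3 P ≠ 0 := by
  rcases P with _ | ⟨x, y, hP⟩
  · exact one_ne_zero
  by_cases hx : x = e1
  · subst hx
    rw [dl_of_eq]
    exact mul_ne_zero (sub_ne_zero.mpr h.h12) (sub_ne_zero.mpr h.h13)
  · rw [dl_of_ne hP hx]
    exact sub_ne_zero.mpr hx

theorem dl_add (h : Split W e1 e2 e3) (P Q : W.toAffine.Point) :
    IsSquare (dl e1 e2 e3 P * dl e1 e2 e3 Q * dl e1 e2 e3 (P + Q)) := by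
  by_cases hQ : Q = h.T
  · rw [hQ]; exact dl_add_T h P
  by_cases hP : P = h.T
  · rw [hP, add_comm, mul_comm (dl e1 e2 e3 h.T)]; exact dl_add_T h Q
  by_cases hR : P + Q = h.T
  · have := dl_add_T h (-Q)
    rw [dl_neg, show -Q + h.T = P by rw [← hR]; abel] at this
    rw [hR]
    convert this using 1
    ring
  rcases P with _ | ⟨x1, y1, h1⟩
  · rw [← Point.zero_def, zero_add, dl_zero, one_mul]
    exact ⟨_, rfl⟩
  rcases Q with _ | ⟨x2, y2, h2⟩
  · rw [← Point.zero_def, add_zero, dl_zero, mul_one]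
    exact ⟨_, rfl⟩
  rcases e : Point.some x1 y1 h1 + Point.some x2 y2 h2 with _ | ⟨x3, y3, h3⟩
  · rw [← Point.zero_def] at e ⊢
    rw [eq_neg_of_add_eq_zero_left e, dl_neg, dl_zero, mul_one]
    exact ⟨_, rfl⟩
  rw [e] at hR
  rw [dl_of_ne h1 (by rintro rfl; exact hP (eq_T h h1)),
    dl_of_ne h2 (by rintro rfl; exact hQ (eq_T h h2)),
    dl_of_ne h3 (by rintro rfl; exact hR (eq_T h h3))]
  exact RankOne.collinear h h1 h2 h3 e

omit [DecidableEq K] in
theorem dl_prod (h : Split W e1 e2 e3) (P : W.toAffine.Point) :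
    IsSquare (dl e1 e2 e3 P * dl e2 e1 e3 P * dl e3 e1 e2 P) := by
  rcases P with _ | ⟨x, y, hP⟩
  · exact ⟨1, by simp [dl]⟩
  by_cases h1 : x = e1
  · subst h1
    rw [dl_of_eq, dl_of_ne hP h.h12, dl_of_ne hP h.h13]
    exact ⟨(x - e2) * (x - e3), by ring⟩
  by_cases h2 : x = e2
  · subst h2
    rw [dl_of_eq, dl_of_ne hP h1, dl_of_ne hP h.h23]
    exact ⟨(x - e1) * (x - e3), by ring⟩
  by_cases h3 : x = e3
  · subst h3
    rw [dl_of_eq, dl_of_ne hP h1, dl_of_ne hP h2]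
    exact ⟨(x - e1) * (x - e2), by ring⟩
  rw [dl_of_ne hP h1, dl_of_ne hP h2, dl_of_ne hP h3, ← (h.nonsingular_iff x y).mp hP]
  exact ⟨y, by ring⟩

theorem half_of_dl (h : Split W e1 e2 e3) (P : W.toAffine.Point) (h1 : IsSquare (dl e1 e2 e3 P))
    (h2 : IsSquare (dl e2 e1 e3 P)) : ∃ R : W.toAffine.Point, P = 2 • R := by
  have h3 : IsSquare (dl e3 e1 e2 P) :=
    sq_of_mul (mul_ne_zero (dl_ne h P) (dl_ne h.swap12 P)) (h1.mul h2) (dl_prod h P)
  rcases P with _ | ⟨x, y, hP⟩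
  · exact ⟨0, by simp [← Point.zero_def]⟩
  have key : ∀ a b c : K, IsSquare (dl a b c (Point.some x y hP)) → IsSquare (x - a) := by
    intro a b c hs
    by_cases hx : x = a
    · rw [hx, sub_self]; exact IsSquare.zero
    · rwa [dl_of_ne hP hx] at hs
  exact h.exists_half hP (key _ _ _ h1) (key _ _ _ h2) (key _ _ _ h3)

theorem SelA.dl_two (h : Split W e1 e2 e3) (R : W.toAffine.Point) :
    IsSquare (dl e1 e2 e3 (2 • R)) := by
  rw [two_nsmul]
  exact sq_of_mul (mul_ne_zero (dl_ne h R) (dl_ne h R)) ⟨_, rfl⟩ (dl_add h R R)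

theorem SelA.half_of_same (h : Split W e1 e2 e3) (P Q : W.toAffine.Point)
    (h1 : IsSquare (dl e1 e2 e3 P * dl e1 e2 e3 Q))
    (h2 : IsSquare (dl e2 e1 e3 P * dl e2 e1 e3 Q)) : ∃ R : W.toAffine.Point, P - Q = 2 • R := by
  have a1 := dl_add h P (-Q)
  have a2 := dl_add h.swap12 P (-Q)
  rw [dl_neg, ← sub_eq_add_neg] at a1 a2
  exact half_of_dl h _ (sq_of_mul (mul_ne_zero (dl_ne h P) (dl_ne h Q)) h1 a1)
    (sq_of_mul (mul_ne_zero (dl_ne h.swap12 P) (dl_ne h.swap12 Q)) h2 a2)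

/-- the four points of order dividing two -/
noncomputable def SelA.tv (h : Split W e1 e2 e3) : Fin 4 → W.toAffine.Point :=
  ![0, h.T, h.swap12.T, h.swap13.T]

theorem SelA.tv_two (h : Split W e1 e2 e3) (a : Fin 4) : 2 • SelA.tv h a = 0 := by
  fin_cases a
  · simp [SelA.tv]
  · exact h.two_nsmul_T
  · exact h.swap12.two_nsmul_T
  · exact h.swap13.two_nsmul_T

omit [DecidableEq K] in
theorem SelA.tv_inj (h : Split W e1 e2 e3) : Function.Injective (SelA.tv h) := by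
  have h12 := h.h12
  have h13 := h.h13
  have h23 := h.h23
  intro a b e
  fin_cases a <;> fin_cases b <;>
    simp_all [SelA.tv, Split.T, (Point.some_ne_zero _).symm, eq_comm]

/-- every pair of classes modulo squares is attained over a finite field -/
theorem SelA.exists_fin [Fintype K] (h : Split W e1 e2 e3) {b1 b2 : K} (n1 : b1 ≠ 0)
    (n2 : b2 ≠ 0) : ∃ P : W.toAffine.Point,
      IsSquare (dl e1 e2 e3 P * b1) ∧ IsSquare (dl e2 e1 e3 P * b2) := by
  classical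
  have hfin : Finite W.toAffine.Point := by
    refine Finite.of_injective (fun P : W.toAffine.Point => match P with
      | .zero => (none : Option (K × K))
      | .some x y _ => some (x, y)) ?_
    rintro (_ | ⟨x, y, hP⟩) (_ | ⟨x', y', hP'⟩) e <;> simp_all
  have hsq : ∀ a b : K, a ≠ 0 → b ≠ 0 → (IsSquare a ↔ IsSquare b) → IsSquare (a * b) := by
    intro a b ha hb e
    by_cases hs : IsSquare a
    · exact hs.mul (e.mp hs)
    · rw [← quadraticChar_one_iff_isSquare (mul_ne_zero ha hb), map_mul,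
        quadraticChar_neg_one_iff_not_isSquare.mpr hs,
        quadraticChar_neg_one_iff_not_isSquare.mpr fun hb => hs (e.mpr hb)]
      norm_num
  let f : W.toAffine.Point →+ W.toAffine.Point := nsmulAddMonoidHom 2
  let δ : W.toAffine.Point ⧸ f.range → Prop × Prop := fun q =>
    (IsSquare (dl e1 e2 e3 q.out), IsSquare (dl e2 e1 e3 q.out))
  have hinj : Function.Injective δ := by
    intro q q' e
    obtain ⟨R, hR⟩ := SelA.half_of_same h q'.out q.out
      (hsq _ _ (dl_ne h _) (dl_ne h _) (iff_of_eq (congrArg Prod.fst e).symm))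
      (hsq _ _ (dl_ne h.swap12 _) (dl_ne h.swap12 _) (iff_of_eq (congrArg Prod.snd e).symm))
    rw [← q.out_eq, ← q'.out_eq]
    exact QuotientAddGroup.eq.mpr ⟨R, by rw [neg_add_eq_sub, hR]; rfl⟩
  have hc : Nat.card (Prop × Prop) ≤ Nat.card (W.toAffine.Point ⧸ f.range) := by
    rw [← AddSubgroup.index_eq_card, AddSubgroup.index_range]
    have := Nat.card_le_card_of_injective
      (fun a : Fin 4 => (⟨SelA.tv h a, SelA.tv_two h a⟩ : f.ker))
      fun a b e => SelA.tv_inj h (congrArg Subtype.val e)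
    simpa using this
  obtain ⟨q, hq⟩ := (hinj.bijective_of_nat_card_le hc).2 (IsSquare b1, IsSquare b2)
  exact ⟨q.out, hsq _ _ (dl_ne h _) n1 (iff_of_eq (congrArg Prod.fst hq)),
    hsq _ _ (dl_ne h.swap12 _) n2 (iff_of_eq (congrArg Prod.snd hq))⟩

end dl

/-- Distinct integers. -/
structure Dis (e1 e2 e3 : ℤ) : Prop where
  h12 : e1 ≠ e2
  h13 : e1 ≠ e3
  h23 : e2 ≠ e3

section loc

variable {K : Type} [Field K] [CharZero K] {e1 e2 e3 b1 b2 c1 c2 : ℤ}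

theorem split_Wsp (h : Dis e1 e2 e3) : Split (Wsp K e1 e2 e3) e1 e2 e3 :=
  ⟨rfl, rfl, rfl, rfl, rfl, by exact_mod_cast h.h12, by exact_mod_cast h.h13,
    by exact_mod_cast h.h23, two_ne_zero⟩

omit [CharZero K] in
theorem loc_one : Loc K e1 e2 e3 1 1 := ⟨0, by simp [dl_zero], by simp [dl_zero]⟩

theorem loc_T1 (h : Dis e1 e2 e3) : Loc K e1 e2 e3 ((e1 - e2) * (e1 - e3)) (e1 - e2) := by
  have hS := split_Wsp (K := K) h
  refine ⟨.some _ _ hS.nonsingular_root, ?_, ?_⟩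
  · rw [dl_of_eq]; push_cast; exact ⟨_, rfl⟩
  · rw [dl_of_ne _ hS.h12]; push_cast; exact ⟨_, rfl⟩

theorem loc_T2 (h : Dis e1 e2 e3) : Loc K e1 e2 e3 (e2 - e1) ((e2 - e1) * (e2 - e3)) := by
  have hS := split_Wsp (K := K) h
  refine ⟨.some _ _ hS.swap12.nonsingular_root, ?_, ?_⟩
  · rw [dl_of_ne _ hS.h12.symm]; push_cast; exact ⟨_, rfl⟩
  · rw [dl_of_eq]; push_cast; exact ⟨_, rfl⟩

theorem loc_pt (h : Dis e1 e2 e3) {x : ℤ} (h1 : x ≠ e1) (h2 : x ≠ e2)
    (hs : IsSquare (((x - e1) * (x - e2) * (x - e3) : ℤ) : K)) :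
    Loc K e1 e2 e3 (x - e1) (x - e2) := by
  have hS := split_Wsp (K := K) h
  obtain ⟨y, hy⟩ := hs
  have hP : (Wsp K e1 e2 e3).toAffine.Nonsingular x y := by
    rw [hS.nonsingular_iff, pow_two, ← hy]; push_cast; rfl
  refine ⟨.some _ _ hP, ?_, ?_⟩
  · rw [dl_of_ne _ (by exact_mod_cast h1)]; push_cast; exact ⟨_, rfl⟩
  · rw [dl_of_ne _ (by exact_mod_cast h2)]; push_cast; exact ⟨_, rfl⟩

theorem loc_T3 (h : Dis e1 e2 e3) : Loc K e1 e2 e3 (e3 - e1) (e3 - e2) :=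
  loc_pt h h.h13.symm h.h23.symm (by simp)

theorem Loc.mul (h : Dis e1 e2 e3) (hb : Loc K e1 e2 e3 b1 b2) (hc : Loc K e1 e2 e3 c1 c2) :
    Loc K e1 e2 e3 (b1 * c1) (b2 * c2) := by
  classical
  have hS := split_Wsp (K := K) h
  obtain ⟨P, p1, p2⟩ := hb
  obtain ⟨Q, q1, q2⟩ := hc
  refine ⟨P + Q, ?_, ?_⟩
  · refine sq_cancel (mul_ne_zero (dl_ne hS P) (dl_ne hS Q)) (dl_add hS P Q) ?_
    exact sq_eq (p1.mul q1) (by push_cast; ring)
  · refine sq_cancel (mul_ne_zero (dl_ne hS.swap12 P) (dl_ne hS.swap12 Q))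
      (dl_add hS.swap12 P Q) ?_
    exact sq_eq (p2.mul q2) (by push_cast; ring)

theorem Loc.congr (hb : Loc K e1 e2 e3 b1 b2) (n1 : b1 ≠ 0) (n2 : b2 ≠ 0)
    (h1 : IsSquare ((b1 * c1 : ℤ) : K)) (h2 : IsSquare ((b2 * c2 : ℤ) : K)) :
    Loc K e1 e2 e3 c1 c2 := by
  obtain ⟨P, p1, p2⟩ := hb
  push_cast at h1 h2
  exact ⟨P, sq_cancel (a := (b1 : K)) (by exact_mod_cast n1) (by rwa [mul_comm]) h1,
    sq_cancel (a := (b2 : K)) (by exact_mod_cast n2) (by rwa [mul_comm]) h2⟩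

theorem Loc.solv (h : Dis e1 e2 e3) (hb : Loc K e1 e2 e3 b1 b2) (n1 : b1 ≠ 0) (n2 : b2 ≠ 0) :
    Solv K e1 e2 e3 b1 b2 := by
  have hS := split_Wsp (K := K) h
  obtain ⟨P, p1, p2⟩ := hb
  have m1 : (b1 : K) ≠ 0 := by exact_mod_cast n1
  have m2 : (b2 : K) ≠ 0 := by exact_mod_cast n2
  have p3 : IsSquare (dl (e3 : K) e1 e2 P * (b1 * b2)) := by
    refine sq_cancel (mul_ne_zero (dl_ne hS P) (dl_ne hS.swap12 P)) (dl_prod hS P) ?_
    exact sq_eq (p1.mul p2) (by ring)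
  have k0 : ∀ a b : K, b ≠ 0 → IsSquare (a * b) → ∃ z, b * z ^ 2 = a := by
    rintro a b hb ⟨r, hr⟩
    refine ⟨r / b, ?_⟩
    field_simp
    linear_combination -hr
  rcases P with _ | ⟨x, y, hP⟩
  · obtain ⟨z1, a1⟩ := k0 _ _ m1 p1
    obtain ⟨z2, a2⟩ := k0 _ _ m2 p2
    obtain ⟨z3, a3⟩ := k0 _ _ (mul_ne_zero m1 m2) p3
    simp only [dl] at a1 a2 a3
    refine ⟨0, z1, z2, z3, fun h0 => ?_, by rw [a1, a2]; ring, by rw [a1, a3]; ring⟩
    rw [h0.2.1] at a1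
    simp at a1
  · have key : ∀ a b c d : K, d ≠ 0 → IsSquare (dl a b c (Point.some x y hP) * d) →
        ∃ z, d * z ^ 2 = x - a := by
      intro a b c d hd hs
      by_cases hx : x = a
      · exact ⟨0, by rw [hx]; ring⟩
      · rw [dl_of_ne hP hx] at hs
        exact k0 _ _ hd hs
    obtain ⟨z1, a1⟩ := key _ _ _ _ m1 p1
    obtain ⟨z2, a2⟩ := key _ _ _ _ m2 p2
    obtain ⟨z3, a3⟩ := key _ _ _ _ (mul_ne_zero m1 m2) p3
    exact ⟨1, z1, z2, z3, fun h0 => one_ne_zero h0.1, by rw [a1, a2]; ring, by rw [a1, a3]; ring⟩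

/-- A rational point gives points over all fields of characteristic zero. -/
theorem Loc.of_rat (h : Dis e1 e2 e3) (hb : Loc ℚ e1 e2 e3 b1 b2) : Loc K e1 e2 e3 b1 b2 := by
  have hS := split_Wsp (K := K) h
  have hQ := split_Wsp (K := ℚ) h
  obtain ⟨P, p1, p2⟩ := hb
  have q1 := p1.map (Rat.castHom K)
  have q2 := p2.map (Rat.castHom K)
  rcases P with _ | ⟨x, y, hP⟩
  · exact ⟨0, by simpa [dl] using q1, by simpa [dl] using q2⟩
  have hP' : (Wsp K e1 e2 e3).toAffine.Nonsingular (x : K) (y : K) := by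
    rw [hS.nonsingular_iff]
    exact_mod_cast (hQ.nonsingular_iff x y).mp hP
  have key : ∀ a b c : ℤ, dl (a : K) b c (Point.some _ _ hP') =
      ((dl (a : ℚ) b c (Point.some x y hP) : ℚ) : K) := by
    intro a b c
    by_cases hx : x = a
    · subst hx
      simp [dl]
    · rw [dl_of_ne hP hx, dl_of_ne hP' (by exact_mod_cast hx)]
      push_cast; rfl
  exact ⟨.some _ _ hP', by rw [key]; simpa using q1, by rw [key]; simpa using q2⟩

end loc

theorem SelA.sq_padic {p : ℕ} [Fact p.Prime] {a r : ℤ}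
    (h : ‖((r ^ 2 - a : ℤ) : ℤ_[p])‖ < ‖((2 * r : ℤ) : ℤ_[p])‖ ^ 2) : IsSquare (a : ℚ_[p]) := by
  obtain ⟨z, hz, -⟩ := hensels_lemma (p := p) (R := ℤ)
    (F := Polynomial.X ^ 2 - Polynomial.C a) (a := (r : ℤ_[p])) (by
      convert h using 3 <;> simp [one_add_one_eq_two, map_ofNat])
  refine ⟨z, ?_⟩
  have h1 : z ^ 2 - (a : ℤ_[p]) = 0 := by simpa using hz
  have h2 := congrArg (fun t : ℤ_[p] => (t : ℚ_[p])) h1
  push_cast at h2
  linear_combination -h2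

theorem sq_padic_odd {p : ℕ} [Fact p.Prime] (h2 : p ≠ 2) {a : ℤ} (ha : ¬ (p : ℤ) ∣ a)
    (h : IsSquare (a : ZMod p)) : IsSquare (a : ℚ_[p]) := by
  have hp : p.Prime := Fact.out
  have hP := Nat.prime_iff_prime_int.mp hp
  obtain ⟨s, hs⟩ := h
  obtain ⟨r, rfl⟩ := ZMod.intCast_surjective s
  have h1 : (p : ℤ) ∣ r ^ 2 - a := by
    rw [← ZMod.intCast_zmod_eq_zero_iff_dvd]
    push_cast
    rw [hs]; ring
  have h3 : ¬ (p : ℤ) ∣ 2 * r := by
    intro h3
    rcases hP.dvd_or_dvd h3 with h4 | h4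
    · exact h2 ((Nat.prime_dvd_prime_iff_eq hp Nat.prime_two).mp (by exact_mod_cast h4))
    · exact ha (by simpa using dvd_sub (dvd_pow h4 two_ne_zero) h1)
  refine SelA.sq_padic (r := r) ?_
  rw [le_antisymm (PadicInt.norm_le_one ((2 * r : ℤ) : ℤ_[p]))
    (not_lt.mp fun h4 => h3 ((PadicInt.norm_int_lt_one_iff_dvd _).mp h4)), one_pow]
  exact (PadicInt.norm_int_lt_one_iff_dvd _).mpr h1

theorem sq_padic_two {a : ℤ} (h : a % 8 = 1) : IsSquare (a : ℚ_[2]) := by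
  refine SelA.sq_padic (r := 1) ?_
  have h1 := (PadicInt.norm_int_le_pow_iff_dvd (p := 2) (k := 1 ^ 2 - a) (n := 3)).mpr
    (by push_cast; omega)
  refine h1.trans_lt ?_
  have h2 : ‖((2 * 1 : ℤ) : ℤ_[2])‖ = ((2 : ℕ) : ℝ)⁻¹ := by
    rw [← PadicInt.norm_p]; norm_num
  rw [h2]
  norm_num

/-- At a prime of good reduction every pair of units comes from a point. -/
theorem loc_good {p : ℕ} [Fact p.Prime] (h2 : p ≠ 2) {e1 e2 e3 b1 b2 : ℤ}
    (h12 : ¬ (p : ℤ) ∣ e1 - e2) (h13 : ¬ (p : ℤ) ∣ e1 - e3) (h23 : ¬ (p : ℤ) ∣ e2 - e3)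
    (h1 : ¬ (p : ℤ) ∣ b1) (h1' : ¬ (p : ℤ) ∣ b2) : Loc ℚ_[p] e1 e2 e3 b1 b2 := by
  have hp : p.Prime := Fact.out
  have hne : ∀ a : ℤ, ¬ (p : ℤ) ∣ a ↔ (a : ZMod p) ≠ 0 := fun a => by
    rw [Ne, ZMod.intCast_zmod_eq_zero_iff_dvd]
  have hsub : ∀ a b : ℤ, ¬ (p : ℤ) ∣ a - b → (a : ZMod p) ≠ b := fun a b h e =>
    (hne _).mp h (by push_cast; rw [e, sub_self])
  have hD : Dis e1 e2 e3 := ⟨fun e => h12 (by simp [e]), fun e => h13 (by simp [e]),
    fun e => h23 (by simp [e])⟩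
  have hS : Split (Wsp (ZMod p) e1 e2 e3) e1 e2 e3 :=
    ⟨rfl, rfl, rfl, rfl, rfl, hsub _ _ h12, hsub _ _ h13, hsub _ _ h23, by
      have := (hne 2).mp fun h4 =>
        h2 ((Nat.prime_dvd_prime_iff_eq hp Nat.prime_two).mp (by exact_mod_cast h4))
      exact_mod_cast this⟩
  obtain ⟨P, p1, p2⟩ := SelA.exists_fin hS ((hne _).mp h1) ((hne _).mp h1')
  have key : ∀ c1 c2 : ℤ, Loc ℚ_[p] e1 e2 e3 c1 c2 →
      dl (e1 : ZMod p) e2 e3 P = c1 → dl (e2 : ZMod p) e1 e3 P = c2 →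
      Loc ℚ_[p] e1 e2 e3 b1 b2 := by
    intro c1 c2 hc a1 a2
    have n1 : (c1 : ZMod p) ≠ 0 := a1 ▸ dl_ne hS P
    have n2 : (c2 : ZMod p) ≠ 0 := a2 ▸ dl_ne hS.swap12 P
    rw [a1] at p1
    rw [a2] at p2
    refine hc.congr (by rintro rfl; simp at n1) (by rintro rfl; simp at n2)
      (sq_padic_odd h2 ((hne _).mpr ?_) (by exact_mod_cast p1))
      (sq_padic_odd h2 ((hne _).mpr ?_) (by exact_mod_cast p2))
    · exact_mod_cast mul_ne_zero n1 ((hne _).mp h1)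
    · exact_mod_cast mul_ne_zero n2 ((hne _).mp h1')
  rcases P with _ | ⟨x, y, hP⟩
  · exact key 1 1 loc_one (by simp [dl]) (by simp [dl])
  by_cases a1 : x = e1
  · subst a1
    exact key _ _ (loc_T1 hD) (by rw [dl_of_eq]; push_cast; rfl)
      (by rw [dl_of_ne _ hS.h12]; push_cast; rfl)
  by_cases a2 : x = e2
  · subst a2
    exact key _ _ (loc_T2 hD) (by rw [dl_of_ne _ a1]; push_cast; rfl)
      (by rw [dl_of_eq]; push_cast; rfl)
  by_cases a3 : x = e3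
  · subst a3
    exact key _ _ (loc_T3 hD) (by rw [dl_of_ne _ a1]; push_cast; rfl)
      (by rw [dl_of_ne _ a2]; push_cast; rfl)
  obtain ⟨x, rfl⟩ := ZMod.intCast_surjective x
  refine key _ _ (loc_pt hD (x := x) (by rintro rfl; exact a1 rfl) (by rintro rfl; exact a2 rfl)
    (sq_padic_odd h2 ((hne _).mpr ?_) ⟨y, ?_⟩)) (by rw [dl_of_ne _ a1]; push_cast; rfl)
      (by rw [dl_of_ne _ a2]; push_cast; rfl)
  · push_cast
    exact mul_ne_zero (mul_ne_zero (sub_ne_zero.mpr a1) (sub_ne_zero.mpr a2)) (sub_ne_zero.mpr a3)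
  · push_cast
    rw [← (hS.nonsingular_iff _ y).mp hP, pow_two]

theorem SelA.exists_sqfree {b : ℤ} (hb : b ≠ 0) :
    ∃ s m : ℤ, Squarefree s ∧ m ≠ 0 ∧ b = s * m ^ 2 := by
  obtain ⟨a, m, e, ha⟩ := Nat.sq_mul_squarefree b.natAbs
  have hm : (m : ℤ) ≠ 0 := by
    rintro h
    obtain rfl : m = 0 := by exact_mod_cast h
    exact hb (Int.natAbs_eq_zero.mp (by simpa using e.symm))
  have e' : (m : ℤ) ^ 2 * a = b.natAbs := by exact_mod_cast e
  rcases Int.natAbs_eq b with h | h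
  · exact ⟨a, m, Int.squarefree_natCast.mpr ha, hm, by rw [h, ← e']; ring⟩
  · refine ⟨-a, m, ?_, hm, by rw [h, ← e']; ring⟩
    rw [← Int.squarefree_natAbs]
    simpa using ha

theorem SelA.sqfree_ne {s : ℤ} (h : Squarefree s) : s ≠ 0 := h.ne_zero

/-- A family of everywhere locally soluble pairs, distinct modulo squares, bounds the size of the
Selmer group from below. -/
theorem card_le_sel {ι : Type} [Fintype ι] {e1 e2 e3 : ℤ} (h : Dis e1 e2 e3) (F : ι → ℤ × ℤ)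
    (h0 : ∀ i, (F i).1 ≠ 0 ∧ (F i).2 ≠ 0) (hr : ∀ i, Loc ℝ e1 e2 e3 (F i).1 (F i).2)
    (hp : ∀ i, ∀ (p : ℕ) [Fact p.Prime], Loc ℚ_[p] e1 e2 e3 (F i).1 (F i).2)
    (hi : ∀ i j, IsSquare ((F i).1 * (F j).1) → IsSquare ((F i).2 * (F j).2) → i = j) :
    (Fintype.card ι : ℕ∞) ≤ (Sel e1 e2 e3).encard := by
  choose s m hs hm e using fun i => SelA.exists_sqfree (h0 i).1
  choose t n ht hn e' using fun i => SelA.exists_sqfree (h0 i).2
  have key : ∀ (K : Type) [Field K] [CharZero K] (i : ι), Loc K e1 e2 e3 (F i).1 (F i).2 →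
      Solv K e1 e2 e3 (s i) (t i) := by
    intro K _ _ i hl
    refine (hl.congr (h0 i).1 (h0 i).2 ⟨s i * m i, ?_⟩ ⟨t i * n i, ?_⟩).solv h (hs i).ne_zero
      (ht i).ne_zero
    · rw [e i]; push_cast; ring
    · rw [e' i]; push_cast; ring
  have := Set.encard_le_encard_of_injOn (s := Set.univ) (t := Sel e1 e2 e3)
    (f := fun i => (s i, t i))
    (fun i _ => ⟨hs i, ht i, key ℝ i (hr i), fun p _ => key _ i (hp i p)⟩) fun i _ j _ hij => by
      obtain ⟨a1, a2⟩ := Prod.mk.inj hij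
      exact hi i j ⟨s i * m i * m j, by rw [e i, e j, ← a1]; ring⟩
        ⟨t i * n i * n j, by rw [e' i, e' j, ← a2]; ring⟩
  rwa [Set.encard_univ, ENat.card_eq_coe_fintype_card] at this

theorem SelA.exists_int {a : ℚ} (ha : a ≠ 0) : ∃ b : ℤ, b ≠ 0 ∧ IsSquare (a * b) := by
  refine ⟨a.num * a.den, mul_ne_zero (Rat.num_ne_zero.mpr ha) (by exact_mod_cast a.den_ne_zero),
    a.num, ?_⟩
  push_cast
  rw [mul_comm (a.num : ℚ), ← mul_assoc, Rat.mul_den_eq_num]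

/-- rational points which are distinct modulo doubles bound the size of the Selmer group -/
theorem card_le_sel_pts {ι : Type} [Fintype ι] {e1 e2 e3 : ℤ} (h : Dis e1 e2 e3)
    (X : ι → (Wsp ℚ e1 e2 e3).toAffine.Point) (hX : ∀ i j R, X i - X j = 2 • R → i = j) :
    (Fintype.card ι : ℕ∞) ≤ (Sel e1 e2 e3).encard := by
  have hS := split_Wsp (K := ℚ) h
  choose b hb hb' using fun i => SelA.exists_int (dl_ne hS (X i))
  choose c hc hc' using fun i => SelA.exists_int (dl_ne hS.swap12 (X i))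
  have hl : ∀ i, Loc ℚ e1 e2 e3 (b i) (c i) := fun i => ⟨X i, hb' i, hc' i⟩
  refine card_le_sel h (fun i => (b i, c i)) (fun i => ⟨hb i, hc i⟩) (fun i => (hl i).of_rat h)
    (fun i p _ => (hl i).of_rat h) fun i j a1 a2 => ?_
  have k : ∀ (u v : ℚ) (b c : ℤ), b ≠ 0 → c ≠ 0 → IsSquare (u * b) → IsSquare (v * c) →
      IsSquare (b * c) → IsSquare (u * v) := by
    intro u v b c hb hc s1 s2 s3
    have s4 : IsSquare ((b : ℚ) * c) := by simpa using s3.map (Int.castRingHom ℚ)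
    refine sq_of_mul (mul_ne_zero (Int.cast_ne_zero.mpr hb) (Int.cast_ne_zero.mpr hc)) s4 ?_
    exact sq_eq (s1.mul s2) (by ring)
  obtain ⟨R, hR⟩ := SelA.half_of_same hS (X i) (X j) (k _ _ _ _ (hb i) (hb j) (hb' i) (hb' j) a1)
    (k _ _ _ _ (hc i) (hc j) (hc' i) (hc' j) a2)
  exact hX i j R hR

theorem SelA.twelve {G : Type} [AddCommGroup G] (t : Fin 4 → G) (h2 : ∀ a, 2 • t a = 0)
    (hi : Function.Injective t) (hz : ∀ T R : G, 2 • T = 0 → T = 2 • R → T = 0) {P Q : G}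
    (hP : ¬ ∃ T R : G, 2 • T = 0 ∧ P = T + 2 • R) (hQ : ¬ ∃ T R : G, 2 • T = 0 ∧ Q = T + 2 • R)
    (hR : ¬ ∃ T R : G, 2 • T = 0 ∧ P + Q = T + 2 • R) (i j : Fin 4 × Fin 3) (R : G)
    (e : t i.1 + ![0, P, Q] i.2 - (t j.1 + ![0, P, Q] j.2) = 2 • R) : i = j := by
  obtain ⟨a, b⟩ := i
  obtain ⟨a', b'⟩ := j
  have hT : 2 • (t a' - t a) = 0 := by rw [nsmul_sub, h2, h2, sub_self]
  have hT' : 2 • (t a - t a') = 0 := by rw [nsmul_sub, h2, h2, sub_self]
  have same : b = b' → (a, b) = (a', b') := by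
    rintro rfl
    rw [hi (sub_eq_zero.mp (hz _ R hT' (by rw [← e]; abel)))]
  fin_cases b <;> fin_cases b'
  · exact same rfl
  · exact (hP ⟨_, -R, hT', by rw [neg_nsmul, ← e]; simp⟩).elim
  · exact (hQ ⟨_, -R, hT', by rw [neg_nsmul, ← e]; simp⟩).elim
  · exact (hP ⟨_, R, hT, by rw [← e]; simp⟩).elim
  · exact same rfl
  · exact (hR ⟨_, R + Q, hT, by rw [nsmul_add, ← e, two_nsmul]; simp; abel⟩).elim
  · exact (hQ ⟨_, R, hT, by rw [← e]; simp⟩).elim
  · exact (hR ⟨_, R + P, hT, by rw [nsmul_add, ← e, two_nsmul]; simp; abel⟩).elim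
  · exact same rfl

/-- The theorem of Mordell and the rank bound from the size of the Selmer group. -/
theorem rank_le_of_sel {N : ℕ} (hN : Squarefree N) (h4 : N % 4 = 3) (h3 : N % 3 = 2)
    (h : (Sel (-51 * N) (-42 * N) (93 * N)).encard ≤ 8) :
    Module.Finite ℤ (tw3 N).toAffine.Point ∧ Module.finrank ℤ (tw3 N).toAffine.Point ≤ 1 := by
  rw [tw3_eq]
  have hD : Dis (-51 * N) (-42 * N) (93 * N) := ⟨by omega, by omega, by omega⟩
  have hS := split_Wsp (K := ℚ) hD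
  have := hS.isElliptic
  have hN0 : (0 : ℚ) < N := by exact_mod_cast (by omega : 0 < N)
  have hz : ∀ T R : (Wsp ℚ (-51 * N) (-42 * N) (93 * N)).toAffine.Point,
      2 • T = 0 → T = 2 • R → T = 0 := by
    rintro (_ | ⟨x, y, hP⟩) R hT e
    · rfl
    exfalso
    have s1 := SelA.dl_two hS R
    have s2 := SelA.dl_two hS.swap12 R
    rw [← e] at s1 s2
    have hy : y = 0 := by
      rw [two_nsmul, add_eq_zero_iff_eq_neg, Point.neg_some] at hT
      have := (Point.some.inj hT).2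
      rw [hS.negY_eq] at this
      linarith
    have := (hS.nonsingular_iff x y).mp hP
    rw [hy, zero_pow two_ne_zero, eq_comm, mul_eq_zero, mul_eq_zero, sub_eq_zero, sub_eq_zero,
      sub_eq_zero] at this
    rcases this with (rfl | rfl) | rfl
    · rw [dl_of_ne _ hS.h12] at s2
      have := s2.nonneg
      push_cast at this
      linarith
    · rw [dl_of_eq] at s2
      have := s2.nonneg
      push_cast at this
      nlinarith
    · rw [dl_of_ne _ hS.h13.symm] at s1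
      have s3 : IsSquare (N : ℚ) :=
        isSquare_scale (c := 1 / 12) s1 (by push_cast; ring)
      obtain ⟨r, hr⟩ := Rat.isSquare_natCast_iff.mp s3
      have : r % 4 = 0 ∨ r % 4 = 1 ∨ r % 4 = 2 ∨ r % 4 = 3 := by omega
      rcases this with a | a | a | a <;> simp [hr, Nat.mul_mod, a] at h4
  let Bad : (Wsp ℚ (-51 * N) (-42 * N) (93 * N)).toAffine.Point → Prop := fun P =>
    ¬ ∃ T R : (Wsp ℚ (-51 * N) (-42 * N) (93 * N)).toAffine.Point, 2 • T = 0 ∧ P = T + 2 • R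
  have h1 : ∀ P, ¬ Bad P → ∃ T R : (Wsp ℚ (-51 * N) (-42 * N) (93 * N)).toAffine.Point,
      2 • T = 0 ∧ P = T + 2 • R := fun P hP => not_not.mp hP
  have h2 : ∀ P Q, Bad P → Bad Q → ¬ Bad (P + Q) := by
    intro P Q hP hQ hR
    have := card_le_sel_pts hD (ι := Fin 4 × Fin 3) (fun i => SelA.tv hS i.1 + ![0, P, Q] i.2)
      (SelA.twelve _ (SelA.tv_two hS) (SelA.tv_inj hS) hz hP hQ hR)
    have h12 := this.trans h
    simp only [Fintype.card_prod, Fintype.card_fin] at h12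
    exact absurd h12 (by decide)
  have hf := RankOne.finite_of_two_cosets _ Bad h1 h2
  exact ⟨hf, RankOne.finrank_le_one Bad h1 h2⟩

end Pool.Agent.Lib.MP_696deb_nt
end

-- part Pool.Agent.Lib.MP_696deb_nt.SelLowA
section

/-! Local solubility for the twist. -/

set_option autoImplicit false

open Finset Matrix NumberTheorySymbols

namespace Pool.Agent.Lib.MP_696deb_nt

namespace SelB

theorem dis {n : ℤ} (hn : n ≠ 0) : Dis (-51 * n) (-42 * n) (93 * n) :=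
  ⟨by omega, by omega, by omega⟩

section gen

variable {K : Type} [Field K] [CharZero K] {n : ℤ}

omit [CharZero K] in
theorem sq_of_eq {b : ℤ} (c : ℤ) (hb : b = c * c) : IsSquare (b : K) :=
  ⟨c, by rw [hb]; push_cast; ring⟩

omit [CharZero K] in
theorem sq_mul {a b : ℤ} (h : IsSquare (a : K)) (c : ℤ) (hb : b = c * c * a) :
    IsSquare (b : K) := by
  obtain ⟨r, hr⟩ := h
  exact ⟨c * r, by rw [hb]; push_cast; rw [hr]; ring⟩

theorem gT1 (hn : n ≠ 0) : Loc K (-51 * n) (-42 * n) (93 * n) 1 (-n) := by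
  refine (loc_T1 (dis hn)).congr ?_ (by omega) (sq_of_eq (36 * n) (by ring))
    (sq_of_eq (3 * n) (by ring))
  exact mul_ne_zero (by omega) (by omega)

theorem gT2 (hn : n ≠ 0) : Loc K (-51 * n) (-42 * n) (93 * n) n (-15) := by
  refine (loc_T2 (dis hn)).congr (by omega) ?_ (sq_of_eq (3 * n) (by ring))
    (sq_of_eq (135 * n) (by ring))
  exact mul_ne_zero (by omega) (by omega)

theorem gT3 (hn : n ≠ 0) : Loc K (-51 * n) (-42 * n) (93 * n) n (15 * n) := by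
  have := (gT1 (K := K) hn).mul (dis hn) (gT2 hn)
  rwa [one_mul, show -n * -15 = 15 * n by ring] at this

theorem gpt (hn : n ≠ 0) (x : ℤ) (h1 : x ≠ 0) (h2 : x - n ≠ 0)
    (hs : IsSquare ((x * (x - n) * (x - 16 * n) : ℤ) : K)) :
    Loc K (-51 * n) (-42 * n) (93 * n) x (x - n) :=
  (loc_pt (x := 9 * x - 51 * n) (dis hn) (by omega) (by omega)
    (sq_mul hs 27 (by ring))).congr (by omega) (by omega) (sq_of_eq (3 * x) (by ring))
    (sq_of_eq (3 * (x - n)) (by ring))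

end gen

theorem sq3 [Fact (Nat.Prime 3)] {a : ℤ} (h : a % 3 = 1) : IsSquare (a : ℚ_[3]) := by
  refine sq_padic_odd (by norm_num) (by push_cast; omega) ?_
  rw [← ZMod.intCast_mod a 3]
  push_cast
  rw [h]
  exact ⟨1, by simp⟩

theorem sq5 [Fact (Nat.Prime 5)] {a : ℤ} (h : a % 5 = 1 ∨ a % 5 = 4) :
    IsSquare (a : ℚ_[5]) := by
  refine sq_padic_odd (by norm_num) (by push_cast; omega) ?_
  rw [← ZMod.intCast_mod a 5]
  push_cast
  rcases h with h | h <;> rw [h]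
  · exact ⟨1, by simp⟩
  · exact ⟨2, by norm_num⟩

theorem unit3 [Fact (Nat.Prime 3)] {n u v : ℤ} (h3 : n % 3 = 2) (hu : u % 3 = 1)
    (hv : v % 3 ≠ 0) : Loc ℚ_[3] (-51 * n) (-42 * n) (93 * n) u v := by
  have hn : n ≠ 0 := by omega
  rcases (by omega : v % 3 = 1 ∨ v % 3 = 2) with h | h
  · exact loc_one.congr one_ne_zero one_ne_zero (sq3 (by omega)) (sq3 (by omega))
  · refine (gpt hn 1 one_ne_zero (by omega) (sq3 ?_)).congr one_ne_zero (by omega)
      (sq3 (by omega)) (sq3 ?_)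
    · have e1 : (1 - n) % 3 = 2 := by omega
      have e2 : (1 - 16 * n) % 3 = 2 := by omega
      rw [one_mul, Int.mul_emod, e1, e2]; rfl
    · have e1 : (1 - n) % 3 = 2 := by omega
      rw [Int.mul_emod, e1, h]; rfl

theorem unif3 [Fact (Nat.Prime 3)] {n u v : ℤ} (h3 : n % 3 = 2) (hu : u % 3 = 2)
    (hv : v % 3 ≠ 0) : Loc ℚ_[3] (-51 * n) (-42 * n) (93 * n) u (3 * v) := by
  have hn : n ≠ 0 := by omega
  have h1 : (n * u) % 3 = 1 := by rw [Int.mul_emod, h3, hu]; rfl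
  refine ((gT2 hn).mul (dis hn) (unit3 (u := n * u) (v := -5 * v) h3 h1 (by omega))).congr
    (mul_ne_zero hn (by omega)) (by omega) (sq_of_eq (n * u) (by ring))
    (sq_of_eq (15 * v) (by ring))

theorem unit5 [Fact (Nat.Prime 5)] {n u v : ℤ} (h5 : n % 5 ≠ 0) (hu : u % 5 = 1 ∨ u % 5 = 4)
    (hv : v % 5 ≠ 0) : Loc ℚ_[5] (-51 * n) (-42 * n) (93 * n) u v := by
  have hn : n ≠ 0 := by omega
  by_cases h : v % 5 = 1 ∨ v % 5 = 4
  · exact loc_one.congr one_ne_zero one_ne_zero (sq5 (by omega)) (sq5 (by omega))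
  have h' : v % 5 = 2 ∨ v % 5 = 3 := by omega
  have key : ∀ w : ℤ, w % 5 = 2 ∨ w % 5 = 3 → IsSquare ((w * v : ℤ) : ℚ_[5]) := by
    intro w hw
    apply sq5
    rw [Int.mul_emod]
    rcases hw with hw | hw <;> rcases h' with h' | h' <;> rw [hw, h'] <;> decide
  rcases (by omega : n % 5 = 1 ∨ n % 5 = 4 ∨ (n % 5 = 2 ∨ n % 5 = 3)) with h1 | h1 | h1
  · refine (gpt hn 4 (by norm_num) (by omega) (sq5 ?_)).congr (by norm_num) (by omega)
      (sq5 (by omega)) (key _ (by omega))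
    have e1 : (4 * (4 - n)) % 5 = 2 := by omega
    have e2 : (4 - 16 * n) % 5 = 3 := by omega
    rw [Int.mul_emod, e1, e2]; decide
  · refine (gpt hn 1 (by norm_num) (by omega) (sq5 ?_)).congr (by norm_num) (by omega)
      (sq5 (by omega)) (key _ (by omega))
    have e1 : (1 * (1 - n)) % 5 = 2 := by omega
    have e2 : (1 - 16 * n) % 5 = 2 := by omega
    rw [Int.mul_emod, e1, e2]; decide
  · exact (gT1 hn).congr one_ne_zero (by omega) (sq5 (by omega)) (key _ (by omega))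

theorem unif5 [Fact (Nat.Prime 5)] {n u v : ℤ} (h5 : n % 5 ≠ 0)
    (hu : (n * u) % 5 = 1 ∨ (n * u) % 5 = 4) (hv : v % 5 ≠ 0) :
    Loc ℚ_[5] (-51 * n) (-42 * n) (93 * n) u (5 * v) := by
  have hn : n ≠ 0 := by omega
  refine ((gT2 hn).mul (dis hn) (unit5 (u := n * u) (v := -3 * v) h5 hu (by omega))).congr
    (mul_ne_zero hn (by omega)) (by omega) (sq_of_eq (n * u) (by ring))
    (sq_of_eq (15 * v) (by ring))

theorem snd2 {n v : ℤ} (h4 : n % 4 = 3) (hv : v % 4 = 1) :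
    Loc ℚ_[2] (-51 * n) (-42 * n) (93 * n) 1 v := by
  have hn : n ≠ 0 := by omega
  rcases (by omega : v % 8 = 1 ∨ v % 8 = 5) with h | h
  · exact loc_one.congr one_ne_zero one_ne_zero (sq_padic_two (by omega)) (sq_padic_two (by omega))
  have key : ∀ w : ℤ, w % 8 = 5 → IsSquare ((w * v : ℤ) : ℚ_[2]) := by
    intro w hw
    apply sq_padic_two
    rw [Int.mul_emod, hw, h]; rfl
  rcases (by omega : n % 8 = 3 ∨ n % 8 = 7) with h1 | h1
  · exact (gT1 hn).congr one_ne_zero (by omega) (sq_padic_two (by omega)) (key _ (by omega))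
  · refine (gpt hn 4 (by norm_num) (by omega) (sq_mul (a := (4 - n) * (1 - 4 * n))
      (sq_padic_two ?_) 4 (by ring))).congr (by norm_num) (by omega)
      (sq_of_eq 2 (by ring)) (key _ (by omega))
    have e1 : (4 - n) % 8 = 5 := by omega
    have e2 : (1 - 4 * n) % 8 = 5 := by omega
    rw [Int.mul_emod, e1, e2]; rfl

theorem fst2 {n u : ℤ} (h4 : n % 4 = 3) (hu : u % 2 = 1) :
    Loc ℚ_[2] (-51 * n) (-42 * n) (93 * n) u 1 := by
  have hn : n ≠ 0 := by omega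
  have t2 : Loc ℚ_[2] (-51 * n) (-42 * n) (93 * n) n 1 :=
    (gT2 hn).congr hn (by norm_num) (sq_of_eq n rfl) (sq_padic_two (by norm_num))
  have t4 : Loc ℚ_[2] (-51 * n) (-42 * n) (93 * n) (n + 4) 1 := by
    refine (gpt hn (n + 4) (by omega) (by omega) (sq_mul (a := (n + 4) * (4 - 15 * n))
      (sq_padic_two ?_) 2 (by ring))).congr (by omega) (by omega)
      (sq_of_eq (n + 4) rfl) (sq_of_eq 2 (by ring))
    rcases (by omega : n % 8 = 3 ∨ n % 8 = 7) with h1 | h1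
    · have e1 : (n + 4) % 8 = 7 := by omega
      have e2 : (4 - 15 * n) % 8 = 7 := by omega
      rw [Int.mul_emod, e1, e2]; rfl
    · have e1 : (n + 4) % 8 = 3 := by omega
      have e2 : (4 - 15 * n) % 8 = 3 := by omega
      rw [Int.mul_emod, e1, e2]; rfl
  have t5 := t2.mul (dis hn) t4
  have key : ∀ w : ℤ, w % 8 = u % 8 → IsSquare ((w * u : ℤ) : ℚ_[2]) := by
    intro w hw
    apply sq_padic_two
    rw [Int.mul_emod, hw]
    rcases (by omega : u % 8 = 1 ∨ u % 8 = 3 ∨ u % 8 = 5 ∨ u % 8 = 7) with h | h | h | h <;>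
      rw [h] <;> rfl
  have e5 : (n * (n + 4)) % 8 = 5 := by
    rcases (by omega : n % 8 = 3 ∨ n % 8 = 7) with h1 | h1
    · have e1 : (n + 4) % 8 = 7 := by omega
      rw [Int.mul_emod, h1, e1]; rfl
    · have e1 : (n + 4) % 8 = 3 := by omega
      rw [Int.mul_emod, h1, e1]; rfl
  rcases (by omega : u % 8 = 1 ∨ u % 8 = 5 ∨ u % 8 = n % 8 ∨ u % 8 = (n + 4) % 8) with
    h | h | h | h
  · exact loc_one.congr one_ne_zero one_ne_zero (key _ (by omega)) (sq_of_eq 1 rfl)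
  · exact t5.congr (by omega) (by norm_num) (key _ (by omega)) (sq_of_eq 1 rfl)
  · exact t2.congr hn one_ne_zero (key _ h.symm) (sq_of_eq 1 rfl)
  · exact t4.congr (by omega) one_ne_zero (key _ h.symm) (sq_of_eq 1 rfl)

theorem emod_ne_of_mul {a b n m : ℤ} (h : a * b = n) (hn : n % m ≠ 0) : a % m ≠ 0 := by
  intro ha
  exact hn (Int.emod_eq_zero_of_dvd (h ▸ (Int.dvd_of_emod_eq_zero ha).mul_right b))

theorem not_dvd_both {p : ℕ} (hp : p.Prime) {a b n : ℤ} (hn : Squarefree n) (h : a * b = n)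
    (ha : (p : ℤ) ∣ a) : ¬ (p : ℤ) ∣ b := fun hb =>
  (Nat.prime_iff_prime_int.mp hp).not_isUnit (hn _ (h ▸ mul_dvd_mul ha hb))

theorem not_dvd_smooth {p : ℕ} (hp : p.Prime) (h2 : p ≠ 2) (h3 : p ≠ 3) (h5 : p ≠ 5) {a : ℤ}
    (ha : a ∣ 30 ^ 4) : ¬ (p : ℤ) ∣ a := by
  intro h
  have h1 : (p : ℤ) ∣ 30 := (Nat.prime_iff_prime_int.mp hp).dvd_of_dvd_pow (h.trans ha)
  have h1' : p ∣ 2 * (3 * 5) := by exact_mod_cast h1
  rcases (Nat.Prime.dvd_mul hp).mp h1' with h | h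
  · exact h2 ((Nat.prime_dvd_prime_iff_eq hp Nat.prime_two).mp h)
  · rcases (Nat.Prime.dvd_mul hp).mp h with h | h
    · exact h3 ((Nat.prime_dvd_prime_iff_eq hp Nat.prime_three).mp h)
    · exact h5 ((Nat.prime_dvd_prime_iff_eq hp Nat.prime_five).mp h)

theorem all3 [Fact (Nat.Prime 3)] {n d e s : ℤ} (h3 : n % 3 = 2)
    (hs : s = 1 ∨ s = -3 ∨ s = 5 ∨ s = -15) (k3 : 3 ∣ s ↔ d % 3 = 2) (d3 : d % 3 ≠ 0)
    (e3 : e % 3 ≠ 0) : Loc ℚ_[3] (-51 * n) (-42 * n) (93 * n) d (s * e) := by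
  rcases hs with rfl | rfl | rfl | rfl
  · have : ¬ d % 3 = 2 := fun h => absurd (k3.mpr h) (by norm_num)
    exact unit3 h3 (by omega) (by omega)
  · rw [show -3 * e = 3 * (-e) by ring]
    exact unif3 h3 (k3.mp (by norm_num)) (by omega)
  · have : ¬ d % 3 = 2 := fun h => absurd (k3.mpr h) (by norm_num)
    exact unit3 h3 (by omega) (by omega)
  · rw [show -15 * e = 3 * (-5 * e) by ring]
    exact unif3 h3 (k3.mp (by norm_num)) (by omega)

theorem all5 [Fact (Nat.Prime 5)] {N : ℕ} {d e s : ℤ} (h5 : N % 5 ≠ 0)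
    (hs : s = 1 ∨ s = -3 ∨ s = 5 ∨ s = -15)
    (k5 : N % 5 = 2 ∨ N % 5 = 3 → (5 ∣ s ↔ d % 5 = 2 ∨ d % 5 = 3))
    (k5' : N % 5 = 1 ∨ N % 5 = 4 → d % 5 = 1 ∨ d % 5 = 4) (d5 : d % 5 ≠ 0)
    (e5 : e % 5 ≠ 0) : Loc ℚ_[5] (-51 * N) (-42 * N) (93 * N) d (s * e) := by
  have h5' : (N : ℤ) % 5 ≠ 0 := by omega
  have hN : (N % 5 = 1 ∨ N % 5 = 4) ∨ (N % 5 = 2 ∨ N % 5 = 3) := by omega
  have key : 5 ∣ s → ((N : ℤ) * d) % 5 = 1 ∨ ((N : ℤ) * d) % 5 = 4 := by
    intro h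
    rw [Int.mul_emod]
    rcases hN with h1 | h1
    · have h1' : (N : ℤ) % 5 = 1 ∨ (N : ℤ) % 5 = 4 := by clear k5 k5' hs; omega
      rcases h1' with h2 | h2 <;> rcases k5' h1 with h6 | h6 <;> rw [h2, h6] <;> decide
    · have h1' : (N : ℤ) % 5 = 2 ∨ (N : ℤ) % 5 = 3 := by clear k5 k5' hs; omega
      rcases h1' with h2 | h2 <;> rcases (k5 h1).mp h with h6 | h6 <;> rw [h2, h6] <;> decide
  have key' : ¬ 5 ∣ s → d % 5 = 1 ∨ d % 5 = 4 := by
    intro h
    rcases hN with h1 | h1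
    · exact k5' h1
    · have := mt (k5 h1).mpr h
      clear k5 k5' hs key
      omega
  clear k5 k5' hN
  rcases hs with rfl | rfl | rfl | rfl
  · exact unit5 h5' (key' (by norm_num)) (by clear key key'; omega)
  · exact unit5 h5' (key' (by norm_num)) (by clear key key'; omega)
  · exact unif5 h5' (key (by norm_num)) e5
  · rw [show -15 * e = 5 * (-3 * e) by ring]
    exact unif5 h5' (key (by norm_num)) (by clear key key'; omega)

end SelB

open SelB in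
/-- Sufficient conditions for solubility at every finite prime. -/
theorem loc_all {N : ℕ} (hN : Squarefree N) (h4 : N % 4 = 3) (h3 : N % 3 = 2) (h5 : N % 5 ≠ 0)
    {d d' e e' s : ℤ} (hd : d * d' = N) (he : e * e' = -N) (he4 : e % 4 = 1)
    (hs : s = 1 ∨ s = -3 ∨ s = 5 ∨ s = -15) (k3 : 3 ∣ s ↔ d % 3 = 2)
    (k5 : N % 5 = 2 ∨ N % 5 = 3 → (5 ∣ s ↔ d % 5 = 2 ∨ d % 5 = 3))
    (k5' : N % 5 = 1 ∨ N % 5 = 4 → d % 5 = 1 ∨ d % 5 = 4)
    (a1 : ∀ p : ℕ, p.Prime → (p : ℤ) ∣ d' → IsSquare (d : ZMod p))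
    (a2 : ∀ p : ℕ, p.Prime → (p : ℤ) ∣ d → IsSquare (d' : ZMod p))
    (a3 : ∀ p : ℕ, p.Prime → (p : ℤ) ∣ e' →
      IsSquare ((s * e * (if (p : ℤ) ∣ d then -15 else 1) : ℤ) : ZMod p))
    (a4 : ∀ p : ℕ, p.Prime → (p : ℤ) ∣ e →
      IsSquare ((s * e' * (if (p : ℤ) ∣ d then -15 else 1) : ℤ) : ZMod p))
    (p : ℕ) [Fact p.Prime] : Loc ℚ_[p] (-51 * N) (-42 * N) (93 * N) d (s * e) := by
  have hp : p.Prime := Fact.out
  have hP := Nat.prime_iff_prime_int.mp hp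
  have hn : (N : ℤ) ≠ 0 := by omega
  have hsq : Squarefree (N : ℤ) := Int.squarefree_natCast.mpr hN
  have hsq' : Squarefree (-(N : ℤ)) := by
    rw [← Int.squarefree_natAbs]; simpa using hN
  have d2 : d % 2 ≠ 0 := emod_ne_of_mul hd (by omega)
  have d3 : d % 3 ≠ 0 := emod_ne_of_mul hd (by omega)
  have d5 : d % 5 ≠ 0 := emod_ne_of_mul hd (by omega)
  have e3 : e % 3 ≠ 0 := emod_ne_of_mul he (by omega)
  have e5 : e % 5 ≠ 0 := emod_ne_of_mul he (by omega)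
  by_cases p2 : p = 2
  · subst p2
    have := (fst2 (n := N) (u := d) (by omega) (by omega)).mul (dis hn)
      (snd2 (v := s * e) (by omega) (by rcases hs with rfl | rfl | rfl | rfl <;> omega))
    rwa [mul_one, one_mul] at this
  by_cases p3 : p = 3
  · subst p3
    exact all3 (by omega) hs k3 d3 e3
  by_cases p5 : p = 5
  · subst p5
    exact all5 h5 hs k5 k5' d5 e5
  have ps : ¬ (p : ℤ) ∣ s := not_dvd_smooth hp p2 p3 p5
    (by rcases hs with rfl | rfl | rfl | rfl <;> norm_num)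
  have p15 : ¬ (p : ℤ) ∣ -15 := not_dvd_smooth hp p2 p3 p5 (by norm_num)
  have p1 : ¬ (p : ℤ) ∣ 1 := not_dvd_smooth hp p2 p3 p5 (by norm_num)
  have nm : ∀ {a b : ℤ}, ¬ (p : ℤ) ∣ a → ¬ (p : ℤ) ∣ b → ¬ (p : ℤ) ∣ a * b :=
    fun ha hb h => (hP.dvd_or_dvd h).elim ha hb
  by_cases pN : (p : ℤ) ∣ N
  · have pd : (p : ℤ) ∣ d ∨ (p : ℤ) ∣ d' := hP.dvd_or_dvd (hd ▸ pN)
    have pe : (p : ℤ) ∣ e ∨ (p : ℤ) ∣ e' := hP.dvd_or_dvd (he ▸ pN.neg_right)
    by_cases hpd : (p : ℤ) ∣ d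
    · have q1 : IsSquare (((N : ℤ) * d : ℤ) : ℚ_[p]) :=
        sq_mul (sq_padic_odd p2 (not_dvd_both hp hsq hd hpd) (a2 p hp hpd)) d
          (by rw [← hd]; ring)
      by_cases hpe : (p : ℤ) ∣ e
      · have := a4 p hp hpe
        rw [if_pos hpd] at this
        refine (gT3 hn).congr hn (by omega) q1 (sq_mul (sq_padic_odd p2
          (nm (nm ps (not_dvd_both hp hsq' he hpe)) p15) this) e ?_)
        linear_combination (15 * s * e) * he
      · have := a3 p hp (pe.resolve_left hpe)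
        rw [if_pos hpd] at this
        exact (gT2 hn).congr hn (by norm_num) q1 (sq_mul (sq_padic_odd p2
          (nm (nm ps hpe) p15) this) 1 (by ring))
    · have q1 : IsSquare ((1 * d : ℤ) : ℚ_[p]) :=
        sq_mul (sq_padic_odd p2 hpd (a1 p hp (pd.resolve_left hpd))) 1 (by ring)
      by_cases hpe : (p : ℤ) ∣ e
      · have := a4 p hp hpe
        rw [if_neg hpd] at this
        refine (gT1 hn).congr one_ne_zero (by omega) q1 (sq_mul (sq_padic_odd p2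
          (nm (nm ps (not_dvd_both hp hsq' he hpe)) p1) this) e ?_)
        linear_combination (-s * e) * he
      · have := a3 p hp (pe.resolve_left hpe)
        rw [if_neg hpd] at this
        exact loc_one.congr one_ne_zero one_ne_zero q1 (sq_mul (sq_padic_odd p2
          (nm (nm ps hpe) p1) this) 1 (by ring))
  · refine loc_good p2 ?_ ?_ ?_ (fun h => pN (hd ▸ h.mul_right d'))
      (nm ps fun h => pN (by simpa using (he ▸ h.mul_right e' : (p : ℤ) ∣ -N)))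
    · rw [show -51 * (N : ℤ) - -42 * N = -9 * N by ring]
      exact nm (not_dvd_smooth hp p2 p3 p5 (by norm_num)) pN
    · rw [show -51 * (N : ℤ) - 93 * N = -144 * N by ring]
      exact nm (not_dvd_smooth hp p2 p3 p5 (by norm_num)) pN
    · rw [show -42 * (N : ℤ) - 93 * N = -135 * N by ring]
      exact nm (not_dvd_smooth hp p2 p3 p5 (by norm_num)) pN

open SelB in
theorem loc_real {N : ℕ} (hN : 0 < N) {b1 b2 : ℤ} (h1 : 0 < b1) (h2 : b2 ≠ 0) :
    Loc ℝ (-51 * N) (-42 * N) (93 * N) b1 b2 := by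
  have hn : (N : ℤ) ≠ 0 := by omega
  have key : ∀ a : ℤ, 0 ≤ a → IsSquare (a : ℝ) := fun a ha =>
    ⟨Real.sqrt a, (Real.mul_self_sqrt (by exact_mod_cast ha)).symm⟩
  rcases lt_or_gt_of_ne h2 with h | h
  · exact (gT1 hn).congr one_ne_zero (by omega) (key _ (by omega))
      (key _ (mul_nonneg_of_nonpos_of_nonpos (by omega) h.le))
  · exact loc_one.congr one_ne_zero one_ne_zero (key _ (by omega)) (key _ (by omega))

end Pool.Agent.Lib.MP_696deb_nt
end
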