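import Pool.Agent.Lib.MP_696deb_nt.TernRank
import Pool.Agent.Lib.MP_696deb_nt.SelLowA
import Pool.Agent.Lib.MP_696deb_nt.CntDefs

-- part Pool.Agent.Lib.MP_696deb_nt.ReOm
section

/-! A character on pairs of vectors that are isotropic modulo a prime. -/

set_option autoImplicit false

open Finset NumberTheorySymbols

namespace Pool.Agent.Lib.MP_696deb_nt

namespace Re

section field

variable {F : Type*} [Field F] [Fintype F] [DecidableEq F]

/-- The character of a pair of isotropic vectors over a finite field. -/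
noncomputable def omF (a b c a' b' c' : F) : ℤ :=
  if 15 * a * a' + 15 * b * b' + c * c' = 0 then quadraticChar F (c * c')
  else quadraticChar F (2 * (15 * a * a' + 15 * b * b' + c * c'))

theorem omF_comm (a b c a' b' c' : F) : omF a b c a' b' c' = omF a' b' c' a b c := by
  unfold omF
  rw [show 15 * a * a' + 15 * b * b' + c * c' = 15 * a' * a + 15 * b' * b + c' * c by ring,
    mul_comm c c']

theorem omF_smul {k : F} (hk : k ≠ 0) (a b c a' b' c' : F) :
    omF a b c (k * a') (k * b') (k * c') = quadraticChar F k * omF a b c a' b' c' := by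
  unfold omF
  rw [show 15 * a * (k * a') + 15 * b * (k * b') + c * (k * c') =
    k * (15 * a * a' + 15 * b * b' + c * c') by ring]
  by_cases h : 15 * a * a' + 15 * b * b' + c * c' = 0
  · rw [if_pos (by rw [h, mul_zero]), if_pos h, ← map_mul]
    congr 1; ring
  · rw [if_neg (mul_ne_zero hk h), if_neg h, ← map_mul]
    congr 1; ring

theorem omF_sq (h2 : (2 : F) ≠ 0) {a b c a' b' c' : F} (hc : c ≠ 0) (hc' : c' ≠ 0) :
    omF a b c a' b' c' ^ 2 = 1 := by
  unfold omF
  split_ifs with h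
  · exact quadraticChar_sq_one (mul_ne_zero hc hc')
  · exact quadraticChar_sq_one (mul_ne_zero h2 h)

omit [Fintype F] [DecidableEq F] in
theorem sq_add_sq (hm : ¬ IsSquare (-1 : F)) {a b : F} (h : a ^ 2 + b ^ 2 = 0) : a = 0 ∧ b = 0 := by
  by_cases hb : b = 0
  · subst hb
    exact ⟨by simpa using h, rfl⟩
  · exact absurd ⟨a / b, by field_simp; linear_combination -h⟩ hm

omit [Fintype F] [DecidableEq F] in
theorem prop_of_orth (hm : ¬ IsSquare (-1 : F)) (h15 : (15 : F) ≠ 0) {a b c a' b' c' : F}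
    (h : 15 * a * a + 15 * b * b + c * c = 0) (h' : 15 * a' * a' + 15 * b' * b' + c' * c' = 0)
    (ho : 15 * a * a' + 15 * b * b' + c * c' = 0) : c * a' = c' * a ∧ c * b' = c' * b := by
  have := sq_add_sq hm (a := c * a' - c' * a) (b := c * b' - c' * b) (mul_left_cancel₀ h15 (by
    linear_combination c ^ 2 * h' + c' ^ 2 * h - 2 * c * c' * ho))
  exact ⟨sub_eq_zero.mp this.1, sub_eq_zero.mp this.2⟩

theorem omF_orth (hm : ¬ IsSquare (-1 : F)) (h15 : (15 : F) ≠ 0) {a b c a' b' c' : F}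
    (hc : c ≠ 0) (hc' : c' ≠ 0)
    (h : 15 * a * a + 15 * b * b + c * c = 0) (h' : 15 * a' * a' + 15 * b' * b' + c' * c' = 0)
    (ho : 15 * a * a' + 15 * b * b' + c * c' = 0) (x y z : F) :
    omF x y z a' b' c' = omF a b c a' b' c' * omF x y z a b c := by
  obtain ⟨e1, e2⟩ := prop_of_orth hm h15 h h' ho
  have hk : c' / c ≠ 0 := div_ne_zero hc' hc
  have := omF_smul hk x y z a b c
  rw [show c' / c * a = a' by field_simp; linear_combination -e1,
    show c' / c * b = b' by field_simp; linear_combination -e2, div_mul_cancel₀ _ hc] at this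
  rw [this, omF.eq_1 a, if_pos ho, show c * c' = c ^ 2 * (c' / c) by field_simp, map_mul,
    quadraticChar_sq_one' hc, one_mul]

theorem omF_cocycle (hm : ¬ IsSquare (-1 : F)) (h2 : (2 : F) ≠ 0) (h15 : (15 : F) ≠ 0)
    {x y z a b c a' b' c' : F} (hz : z ≠ 0) (hc : c ≠ 0) (hc' : c' ≠ 0)
    (h0 : 15 * x * x + 15 * y * y + z * z = 0)
    (h : 15 * a * a + 15 * b * b + c * c = 0) (h' : 15 * a' * a' + 15 * b' * b' + c' * c' = 0) :
    omF a b c a' b' c' = omF x y z a b c * omF x y z a' b' c' := by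
  have s1 := omF_sq h2 (a := x) (b := y) (a' := a) (b' := b) hz hc
  have s2 := omF_sq h2 (a := x) (b := y) (a' := a') (b' := b') hz hc'
  by_cases o1 : 15 * a * a' + 15 * b * b' + c * c' = 0
  · rw [omF_orth hm h15 hc hc' h h' o1 x y z]
    linear_combination (-omF a b c a' b' c') * s1
  by_cases o2 : 15 * x * a + 15 * y * b + z * c = 0
  · rw [omF_comm, omF_orth hm h15 hz hc h0 h o2 a' b' c', omF_comm a' b' c']
  by_cases o3 : 15 * x * a' + 15 * y * b' + z * c' = 0
  · rw [omF_orth hm h15 hz hc' h0 h' o3 a b c, omF_comm a b c, mul_comm]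
  have s3 := omF_sq h2 (a := a) (b := b) (a' := a') (b' := b') hc hc'
  have e : omF a b c a' b' c' * omF x y z a b c * omF x y z a' b' c' = 1 := by
    have e1 : 2 * (15 * a * a' + 15 * b * b' + c * c') * (2 * (15 * x * a + 15 * y * b + z * c)) *
        (2 * (15 * x * a' + 15 * y * b' + z * c')) =
        (30 * (x * (b * c' - c * b') - y * (a * c' - c * a') + z * (a * b' - b * a'))) ^ 2 := by
      linear_combination
        (4 * (15 * a * a' + 15 * b * b' + c * c') ^ 2 -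
          4 * (15 * a * a + 15 * b * b + c * c) * (15 * a' * a' + 15 * b' * b' + c' * c')) * h0 +
        4 * (15 * x * a' + 15 * y * b' + z * c') ^ 2 * h +
        4 * (15 * x * a + 15 * y * b + z * c) ^ 2 * h'
    rw [omF, omF, omF, if_neg o1, if_neg o2, if_neg o3, ← map_mul, ← map_mul, e1]
    refine quadraticChar_sq_one' fun k => ?_
    rw [k, zero_pow two_ne_zero] at e1
    exact mul_ne_zero (mul_ne_zero (mul_ne_zero h2 o1) (mul_ne_zero h2 o2)) (mul_ne_zero h2 o3) e1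
  linear_combination (-omF a b c a' b' c' * omF x y z a' b' c' ^ 2) * s1 -
    omF a b c a' b' c' * s2 + omF x y z a b c * omF x y z a' b' c' * e

theorem sum_roots {B t x : F} (h : quadraticChar F (B * x) = -1) :
    (∑ k : F, if B * k ^ 2 - 2 * t * k + x = 0 then quadraticChar F k else 0) = 0 := by
  have hB : B ≠ 0 := by rintro rfl; simp at h
  have := (Equiv.subLeft (2 * t / B)).sum_comp
    fun k => if B * k ^ 2 - 2 * t * k + x = 0 then quadraticChar F k else 0
  rw [sum_congr rfl (g := fun k => -(if B * k ^ 2 - 2 * t * k + x = 0 then quadraticChar F k else 0))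
    fun k _ => ?_, sum_neg_distrib] at this
  · omega
  have e : B * (2 * t / B - k) ^ 2 - 2 * t * (2 * t / B - k) + x = B * k ^ 2 - 2 * t * k + x := by
    field_simp; ring
  rw [Equiv.subLeft_apply, e]
  split_ifs with h1
  swap
  · rfl
  have hk : k ≠ 0 := by
    rintro rfl
    have : x = 0 := by simpa using h1
    simp [this] at h
  have e2 : B * x = B ^ 2 * (k * (2 * t / B - k)) := by
    field_simp; linear_combination h1
  rw [e2, map_mul, quadraticChar_sq_one' hB, one_mul, map_mul] at h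
  have := quadraticChar_sq_one hk
  linear_combination quadraticChar F k * h - quadraticChar F (2 * t / B - k) * this

end field

/-- The linear form whose square is the norm modulo fifteen. -/
def oo (v : V3) : ℤ := v 1 + 2 * v 2

theorem bil3 (v w : V3) : bil G3 v w = 15 * v 0 * w 0 + 15 * v 1 * w 1 + oo v * oo w := by
  rw [bil_G3, oo, oo]; ring

/-- The character of a pair of vectors. -/
def om (l : ℕ) (v w : V3) : ℤ :=
  if (l : ℤ) ∣ bil G3 v w then J(oo v * oo w | l) else J(2 * bil G3 v w | l)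

/-- Nonzero isotropic vectors modulo `l`. -/
def Iso (l : ℕ) (v : V3) : Prop := (l : ℤ) ∣ bil G3 v v ∧ ¬ (l : ℤ) ∣ oo v

/-- The auxiliary primes. -/
structure Aux (l : ℕ) : Prop where
  prime : l.Prime
  mod4 : l % 4 = 3
  cop : l.Coprime 30

variable {l : ℕ} {v w y : V3}

theorem om_eq [Fact l.Prime] (v w : V3) :
    om l v w = omF (v 0 : ZMod l) (v 1) (oo v) (w 0) (w 1) (oo w) := by
  simp only [om, omF, Tern.jac_eq, ← ZMod.intCast_zmod_eq_zero_iff_dvd, bil3]
  push_cast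
  rfl

theorem Aux.field (hl : Aux l) [Fact l.Prime] :
    ¬ IsSquare (-1 : ZMod l) ∧ (2 : ZMod l) ≠ 0 ∧ (15 : ZMod l) ≠ 0 := by
  obtain ⟨h2, h3, h5⟩ := Tern.small_ne_zero hl.cop hl.prime dvd_rfl
  refine ⟨by rw [ZMod.exists_sq_eq_neg_one_iff]; simpa using hl.mod4, h2, ?_⟩
  rw [show (15 : ZMod l) = 3 * 5 by norm_num]
  exact mul_ne_zero h3 h5

theorem Iso.field [Fact l.Prime] (h : Iso l v) : (oo v : ZMod l) ≠ 0 ∧
    15 * (v 0 : ZMod l) * v 0 + 15 * (v 1 : ZMod l) * v 1 + (oo v : ZMod l) * oo v = 0 := by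
  obtain ⟨h1, h2⟩ := h
  rw [← ZMod.intCast_zmod_eq_zero_iff_dvd] at h1 h2
  rw [bil3] at h1
  push_cast at h1
  exact ⟨h2, h1⟩

theorem om_cocycle (hl : Aux l) (hy : Iso l y) (hv : Iso l v) (hw : Iso l w) :
    om l v w = om l y v * om l y w := by
  have := Fact.mk hl.prime
  obtain ⟨h1, h2, h3⟩ := hl.field
  rw [om_eq, om_eq, om_eq]
  exact omF_cocycle h1 h2 h3 hy.field.1 hv.field.1 hw.field.1 hy.field.2 hv.field.2 hw.field.2

theorem om_sq (hl : Aux l) (hv : Iso l v) (hw : Iso l w) : om l v w ^ 2 = 1 := by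
  have := Fact.mk hl.prime
  rw [om_eq]
  exact omF_sq hl.field.2.1 hv.field.1 hw.field.1

theorem oo_neg (v : V3) : oo (-v) = -oo v := by simp [oo]; ring

theorem Aux.jac_neg (hl : Aux l) (a : ℤ) : J(-a | l) = -J(a | l) := by
  rw [jacobiSym.neg _ (Nat.odd_iff.mpr (by have := hl.mod4; omega)),
    ZMod.χ₄_nat_three_mod_four hl.mod4]
  ring

theorem om_neg (hl : Aux l) (v w : V3) : om l v (-w) = -om l v w := by
  simp only [om, Tern.bil_neg_right, oo_neg, dvd_neg, mul_neg, hl.jac_neg]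
  split_ifs <;> rfl

theorem iso_of_mem (hl : Aux l) {B : ℕ} (hB : Squarefree (l * B)) (hv : v ∈ XX G3 (l * B)) :
    Iso l v := by
  have := Fact.mk hl.prime
  rw [mem_XX3] at hv
  refine ⟨hv ▸ ⟨B, by push_cast; ring⟩, fun h => ?_⟩
  obtain ⟨h1, -, h3⟩ := hl.field
  have h4 : ((bil G3 v v : ℤ) : ZMod l) = 0 := by rw [hv]; simp
  have h5 := (ZMod.intCast_zmod_eq_zero_iff_dvd _ _).mpr h
  rw [bil3] at h4
  push_cast at h4
  obtain ⟨e1, e2⟩ := sq_add_sq h1 (a := (v 0 : ZMod l)) (b := v 1) (mul_left_cancel₀ h3 (by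
    rw [h5] at h4; linear_combination h4))
  obtain ⟨a, ha⟩ := (ZMod.intCast_zmod_eq_zero_iff_dvd _ _).mp e1
  obtain ⟨b, hb⟩ := (ZMod.intCast_zmod_eq_zero_iff_dvd _ _).mp e2
  obtain ⟨c, hc⟩ := h
  rw [bil3, ha, hb, hc] at hv
  refine hl.prime.not_isUnit (hB l ?_)
  exact Int.natCast_dvd_natCast.mp ⟨15 * a * a + 15 * b * b + c * c, by
    rw [← hv]; push_cast; ring⟩

/-- Orthogonal isotropic vectors are proportional. -/
theorem exists_prop (hl : Aux l) (hv : Iso l v) (hw : Iso l w) (h : (l : ℤ) ∣ bil G3 v w) :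
    ∃ k ∈ range l, ∃ u : V3, w = (k : ℤ) • v + (l : ℤ) • u := by
  have := Fact.mk hl.prime
  obtain ⟨h1, h2, h3⟩ := hl.field
  rw [← ZMod.intCast_zmod_eq_zero_iff_dvd, bil3] at h
  push_cast at h
  obtain ⟨e1, e2⟩ := prop_of_orth h1 h3 hv.field.2 hw.field.2 h
  have h4 := hv.field.1
  set k : ZMod l := (oo w : ZMod l) / oo v with hk
  have key : ∀ i, (l : ℤ) ∣ w i - k.val * v i := fun i => by
    rw [← ZMod.intCast_zmod_eq_zero_iff_dvd]
    push_cast
    rw [ZMod.natCast_zmod_val, hk]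
    fin_cases i
    · simp only [Fin.zero_eta]
      field_simp
      linear_combination e1
    · simp only [Fin.mk_one]
      field_simp
      linear_combination e2
    · simp only [Fin.reduceFinMk]
      refine mul_left_cancel₀ (mul_ne_zero h2 h4) ?_
      have a0 := mul_div_cancel₀ (oo w : ZMod l) h4
      have a1 : (oo v : ZMod l) = v 1 + 2 * v 2 := by rw [oo]; push_cast; ring
      have a2 : (oo w : ZMod l) = w 1 + 2 * w 2 := by rw [oo]; push_cast; ring
      linear_combination -e2 - (oo v : ZMod l) * a2 + (oo w : ZMod l) * a1 - 2 * (v 2 : ZMod l) * a0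
  choose u hu using key
  refine ⟨k.val, mem_range.mpr (ZMod.val_lt k), u, funext fun i => ?_⟩
  simp only [Pi.add_apply, Pi.smul_apply, smul_eq_mul]
  linear_combination hu i

theorem oo_lin (k m : ℤ) (v u : V3) : oo (k • v + m • u) = k * oo v + m * oo u := by
  simp [oo]; ring

theorem bil_lin (k m : ℤ) (y v u : V3) :
    bil G3 y (k • v + m • u) = k * bil G3 y v + m * bil G3 y u := by
  simp only [bil3, oo_lin, Pi.add_apply, Pi.smul_apply, smul_eq_mul]; ring

theorem norm_lin (k m : ℤ) (v u : V3) : bil G3 (k • v + m • u) (k • v + m • u) =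
    k ^ 2 * bil G3 v v + 2 * k * m * bil G3 v u + m ^ 2 * bil G3 u u := by
  simp only [bil3, oo_lin, Pi.add_apply, Pi.smul_apply, smul_eq_mul]; ring

theorem om_prop (hl : Aux l) (hv : Iso l v) (k : ℤ) (u : V3) :
    om l v (k • v + (l : ℤ) • u) = J(k | l) := by
  rw [om, if_pos (by rw [bil_lin]; exact (hv.1.mul_left _).add (dvd_mul_right _ _)), oo_lin,
    jacobiSym.mod_left' (a₂ := k * oo v ^ 2) (Int.modEq_iff_dvd.mpr ⟨-(oo v * oo u), by ring⟩),
    jacobiSym.mul_left, jacobiSym.pow_left, jac_sq hl.prime hv.2, mul_one]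

section bridge

variable {B : ℕ}

theorem hil_prop (hl : Aux l) (hn : Squarefree (l * B)) (hy : y ∈ XX G3 (l * B)) {k : ℤ} {u : V3}
    (hv : k • y + (l : ℤ) • u ∈ XX G3 (l * B)) (hk : ¬ (l : ℤ) ∣ 1 + k) :
    hil (l * B) l (2 * ((l * B : ℕ) + bil G3 y (k • y + (l : ℤ) • u))) = J(k | l) := by
  have hP := Nat.prime_iff_prime_int.mp hl.prime
  have hi := iso_of_mem hl hn hv
  have hB := not_dvd_div hn hl.prime (dvd_mul_right _ _)
  rw [Nat.mul_div_cancel_left _ hl.prime.pos] at hB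
  rw [mem_XX3] at hy hv
  rw [norm_lin, hy] at hv
  have h1 : k * (2 * ((1 + k) * B + bil G3 y u)) = (1 + k) ^ 2 * B - l * bil G3 u u :=
    mul_left_cancel₀ hP.ne_zero (by push_cast at hv; linear_combination hv)
  have h2 : ¬ (l : ℤ) ∣ k * (2 * ((1 + k) * B + bil G3 y u)) := fun h => by
    rw [h1, dvd_sub_left (dvd_mul_right _ _)] at h
    exact (hP.dvd_or_dvd h).elim (fun h => hk (hP.dvd_of_dvd_pow h)) hB
  have h3 : J(k * (2 * ((1 + k) * B + bil G3 y u)) | l) = J((B : ℤ) | l) := by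
    rw [h1, jacobiSym.mod_left' (a₂ := (1 + k) ^ 2 * B)
      (Int.modEq_iff_dvd.mpr ⟨bil G3 u u, by ring⟩), jacobiSym.mul_left, jacobiSym.pow_left,
      jac_sq hl.prime hk, one_mul]
  rw [bil_lin, hy, show 2 * (((l * B : ℕ) : ℤ) + (k * ((l * B : ℕ) : ℤ) + l * bil G3 y u)) =
    (l : ℤ) ^ 1 * (2 * ((1 + k) * B + bil G3 y u)) by push_cast; ring,
    hil_pow_mul hl.prime 1 fun h => h2 (h.mul_left _), Nat.mul_div_cancel_left _ hl.prime.pos,
    ← h3, jacobiSym.mul_left k]
  have h4 := jac_sq hl.prime (k := 2 * ((1 + k) * B + bil G3 y u)) fun h => h2 (h.mul_left _)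
  linear_combination J(k | l) * h4

theorem hil_disc (hl : Aux l) (hn : Squarefree (l * B)) (hy : y ∈ XX G3 (l * B))
    (hv : v ∈ XX G3 (l * B)) (h : ((l * B : ℕ) : ℤ) ^ 2 - bil G3 y v ^ 2 ≠ 0) :
    hil (l * B) l (((l * B : ℕ) : ℤ) ^ 2 - bil G3 y v ^ 2) = -1 := by
  have hP := Nat.prime_iff_prime_int.mp hl.prime
  have hi := iso_of_mem hl hn hy
  rw [mem_XX3] at hy hv
  have h1 : ¬ (l : ℤ) ∣ (l * B : ℕ) - oo y ^ 2 := fun h => hi.2 (hP.dvd_of_dvd_pow
    ((dvd_sub_right (by push_cast; exact dvd_mul_right _ _)).mp h))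
  rw [← hil_eq_of_norm hn hl.prime (dvd_mul_right _ _) (k := (l * B : ℕ) - oo y ^ 2) (c := 1)
    (u := 15 * (oo v * (y 0 ^ 2 + y 1 ^ 2) - oo y * (v 0 * y 0 + v 1 * y 1)))
    (v := 15 * (v 0 * y 1 - v 1 * y 0)) (fun k => h1 (by rw [k]; exact dvd_zero _)) h one_ne_zero ?_,
    hil_of_not_dvd hl.prime h1, jacobiSym.mod_left' (a₂ := -oo y ^ 2)
      (Int.modEq_iff_dvd.mpr ⟨-B, by push_cast; ring⟩), hl.jac_neg, jacobiSym.pow_left,
    jac_sq hl.prime hi.2]
  have e : (bil G3 y y - oo y ^ 2) * (bil G3 y y * bil G3 v v - bil G3 y v ^ 2) =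
      (15 * (oo v * (y 0 ^ 2 + y 1 ^ 2) - oo y * (v 0 * y 0 + v 1 * y 1))) ^ 2 +
        bil G3 y y * (15 * (v 0 * y 1 - v 1 * y 0)) ^ 2 := by
    simp only [bil3]; ring
  rw [hy, hv] at e
  linear_combination e

/-- The character of a pair in terms of a Hilbert symbol. -/
theorem hil_om (hl : Aux l) (hn : Squarefree (l * B)) (hy : y ∈ XX G3 (l * B))
    (hv : v ∈ XX G3 (l * B)) (h : ((l * B : ℕ) : ℤ) + bil G3 y v ≠ 0) :
    hil (l * B) l (2 * ((l * B : ℕ) + bil G3 y v)) = om l y v := by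
  have hP := Nat.prime_iff_prime_int.mp hl.prime
  have hi := iso_of_mem hl hn hy
  have h2 : ¬ (l : ℤ) ∣ 2 := fun h => by
    have := Int.le_of_dvd two_pos h
    have := hl.mod4
    omega
  by_cases h1 : (l : ℤ) ∣ bil G3 y v
  swap
  · rw [om, if_neg h1, hil_of_not_dvd hl.prime fun k => h1 ((dvd_add_right (by
      push_cast; exact dvd_mul_right _ _)).mp ((hP.dvd_or_dvd k).resolve_left h2))]
    exact jacobiSym.mod_left' (Int.modEq_iff_dvd.mpr ⟨-(2 * B), by push_cast; ring⟩)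
  obtain ⟨k, -, u, rfl⟩ := exists_prop hl hi (iso_of_mem hl hn hv) h1
  rw [om_prop hl hi]
  by_cases hk : (l : ℤ) ∣ 1 + k
  swap
  · exact hil_prop hl hn hy hv hk
  have e : -((k : ℤ) • y + (l : ℤ) • u) = (-k : ℤ) • y + (l : ℤ) • (-u) := by
    rw [neg_add, neg_smul, smul_neg]
  have h3 := hil_prop hl hn hy (k := -k) (u := -u) (e ▸ Tern.neg_mem_XX mem_XX3 _ hv) fun h =>
    h2 (by have := dvd_add hk h; rwa [show 1 + (k : ℤ) + (1 + -k) = 2 by ring] at this)
  rw [← e, Tern.bil_neg_right, hl.jac_neg] at h3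
  have h4 : J((k : ℤ) | l) ^ 2 = 1 := jac_sq hl.prime fun h => hP.not_dvd_one (by
    simpa using dvd_sub hk h)
  have h5 := hil_disc hl hn hy hv (by
    rw [sq_sub_sq]
    refine mul_ne_zero h fun k => ?_
    rw [← sub_eq_add_neg, k, mul_zero, hil_zero hl.prime] at h3
    rw [neg_eq_zero.mp h3.symm] at h4
    simp at h4)
  generalize bil G3 y ((k : ℤ) • y + (l : ℤ) • u) = t at *
  have h6 := hil_mul (n := l * B) hl.prime (2 * ((l * B : ℕ) + t)) (2 * ((l * B : ℕ) + -t))
  rw [show 2 * (((l * B : ℕ) : ℤ) + t) * (2 * ((l * B : ℕ) + -t)) =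
    2 ^ 2 * (((l * B : ℕ) : ℤ) ^ 2 - t ^ 2) by ring, hil_mul hl.prime,
    hil_of_sq hn hl.prime (dvd_mul_right _ _) two_ne_zero, h5, h3] at h6
  linear_combination J((k : ℤ) | l) * h6 - hil (l * B) l (2 * ((l * B : ℕ) + t)) * h4

end bridge

end Re

end Pool.Agent.Lib.MP_696deb_nt
end

-- part Pool.Agent.Lib.MP_696deb_nt.ReSel
section

/-! Consequences of a small Selmer group for the twists of positive discriminant. -/

set_option autoImplicit false

open Finset NumberTheorySymbols WeierstrassCurve WeierstrassCurve.Affine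

namespace Pool.Agent.Lib.MP_696deb_nt

namespace Re

open SelB

variable {d : ℕ}

theorem dis1 {n : ℤ} (hn : n ≠ 0) : Dis (-102 * n) (-21 * n) (123 * n) :=
  ⟨by omega, by omega, by omega⟩

section gen

variable {K : Type} [Field K] [CharZero K] {n : ℤ}

theorem rT1 (hn : n ≠ 0) : Loc K (-102 * n) (-21 * n) (123 * n) 1 (-n) := by
  refine (loc_T1 (dis1 hn)).congr ?_ (by omega) (sq_of_eq (135 * n) (by ring))
    (sq_of_eq (9 * n) (by ring))
  exact mul_ne_zero (by omega) (by omega)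

theorem rT2 (hn : n ≠ 0) : Loc K (-102 * n) (-21 * n) (123 * n) n (-1) := by
  refine (loc_T2 (dis1 hn)).congr (by omega) ?_ (sq_of_eq (9 * n) (by ring))
    (sq_of_eq (108 * n) (by ring))
  exact mul_ne_zero (by omega) (by omega)

theorem rT3 (hn : n ≠ 0) : Loc K (-102 * n) (-21 * n) (123 * n) n n := by
  have := (rT1 (K := K) hn).mul (dis1 hn) (rT2 hn)
  rwa [one_mul, show -n * -1 = n by ring] at this

end gen

theorem loc_two {n v : ℤ} (h4 : n % 4 = 1) (hv : v % 2 = 1) :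
    Loc ℚ_[2] (-102 * n) (-21 * n) (123 * n) 1 v := by
  have hn : n ≠ 0 := by omega
  have key : ∀ w : ℤ, w % 8 = v % 8 → IsSquare ((w * v : ℤ) : ℚ_[2]) := by
    intro w hw
    apply sq_padic_two
    rw [Int.mul_emod, hw]
    rcases (by omega : v % 8 = 1 ∨ v % 8 = 3 ∨ v % 8 = 5 ∨ v % 8 = 7) with h | h | h | h <;>
      rw [h] <;> rfl
  have t4 : Loc ℚ_[2] (-102 * n) (-21 * n) (123 * n) 1 (4 - 81 * n) := by
    refine (loc_pt (x := 4 - 102 * n) (dis1 hn) (by omega) (by omega)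
      (sq_mul (a := (4 - 81 * n) * (4 - 225 * n)) (sq_padic_two ?_) 2 (by ring))).congr (by omega)
      (by omega) (sq_of_eq 2 (by ring)) (sq_of_eq (4 - 81 * n) (by ring))
    rcases (by omega : n % 8 = 1 ∨ n % 8 = 5) with h1 | h1
    · rw [Int.mul_emod, show (4 - 81 * n) % 8 = 3 by omega, show (4 - 225 * n) % 8 = 3 by omega]; rfl
    · rw [Int.mul_emod, show (4 - 81 * n) % 8 = 7 by omega, show (4 - 225 * n) % 8 = 7 by omega]; rfl
  have t5 := (rT1 hn).mul (dis1 hn) t4
  have e5 : (-n * (4 - 81 * n)) % 8 = 5 := by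
    rcases (by omega : n % 8 = 1 ∨ n % 8 = 5) with h1 | h1
    · rw [Int.mul_emod, show -n % 8 = 7 by omega, show (4 - 81 * n) % 8 = 3 by omega]; rfl
    · rw [Int.mul_emod, show -n % 8 = 3 by omega, show (4 - 81 * n) % 8 = 7 by omega]; rfl
  rcases (by omega : v % 8 = 1 ∨ v % 8 = 5 ∨ v % 8 = -n % 8 ∨ v % 8 = (4 - 81 * n) % 8) with
    h | h | h | h
  · exact loc_one.congr one_ne_zero one_ne_zero (sq_of_eq 1 rfl) (key _ (by omega))
  · exact t5.congr (by norm_num) (by omega) (sq_of_eq 1 rfl) (key _ (by omega))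
  · exact (rT1 hn).congr one_ne_zero (by omega) (sq_of_eq 1 rfl) (key _ h.symm)
  · exact t4.congr one_ne_zero (by omega) (sq_of_eq 1 rfl) (key _ h.symm)

/-- The divisors of `d` whose ambiguous form lies in the principal genus. -/
def Amb (d m : ℕ) : Prop :=
  ∀ r ∈ d.primeFactors, J((if r ∣ m then -((d / m : ℕ) : ℤ) else m) | r) = 1

theorem loc_amb (h60 : d % 60 = 1 ∨ d % 60 = 49) {m : ℕ} (hm : m ∣ d) (h : Amb d m)
    (h5 : J((m : ℤ) | 5) = 1) (p : ℕ) [Fact p.Prime] :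
    Loc ℚ_[p] (-102 * d) (-21 * d) (123 * d) 1 m := by
  have hp : p.Prime := Fact.out
  have hP := Nat.prime_iff_prime_int.mp hp
  have hn : (d : ℤ) ≠ 0 := by omega
  obtain ⟨m', hd⟩ := hm
  have hd' : (m : ℤ) * m' = d := by exact_mod_cast hd.symm
  have m0 : 0 < m := Nat.pos_of_ne_zero (by rintro rfl; omega)
  have d2 : (m : ℤ) % 2 ≠ 0 := emod_ne_of_mul hd' (by omega)
  have d3 : (m : ℤ) % 3 ≠ 0 := emod_ne_of_mul hd' (by omega)
  by_cases p2 : p = 2
  · subst p2
    exact loc_two (by omega) (by omega)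
  by_cases p3 : p = 3
  · subst p3
    rcases (by omega : (m : ℤ) % 3 = 1 ∨ (m : ℤ) % 3 = 2) with k | k
    · exact loc_one.congr one_ne_zero one_ne_zero (sq_of_eq 1 rfl) (sq3 (by omega))
    · refine (rT1 hn).congr one_ne_zero (by omega) (sq_of_eq 1 rfl) (sq3 ?_)
      rw [Int.mul_emod, k, show -(d : ℤ) % 3 = 2 by omega]; rfl
  by_cases p5 : p = 5
  · subst p5
    refine loc_one.congr one_ne_zero one_ne_zero (sq_of_eq 1 rfl) (sq5 ?_)
    rw [jacobiSym.mod_left] at h5
    push_cast at h5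
    rcases (by omega : (m : ℤ) % 5 = 0 ∨ (m : ℤ) % 5 = 2 ∨ (m : ℤ) % 5 = 3 ∨ (m : ℤ) % 5 = 1 ∨
      (m : ℤ) % 5 = 4) with k | k | k | k
    · rw [k] at h5; norm_num at h5
    · rw [k] at h5; norm_num at h5
    · rw [k] at h5; norm_num at h5
    · omega
  have sq : ∀ a : ℤ, J(a | p) = 1 → IsSquare (a : ℚ_[p]) := fun a ha =>
    sq_padic_odd p2 (fun k => by rw [jac_zero_of_dvd' hp k] at ha; omega)
      (ZMod.isSquare_of_jacobiSym_eq_one ha)
  by_cases pN : p ∣ d
  · have h1 := h p (Nat.mem_primeFactors.mpr ⟨hp, pN, by omega⟩)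
    split_ifs at h1 with k
    · rw [hd, Nat.mul_div_cancel_left _ m0] at h1
      exact (rT1 hn).congr one_ne_zero (by omega) (sq_of_eq 1 rfl)
        (sq_mul (sq _ h1) m (by rw [← hd']; ring))
    · exact loc_one.congr one_ne_zero one_ne_zero (sq_of_eq 1 rfl) (sq_mul (sq _ h1) 1 (by ring))
  have pN' : ¬ (p : ℤ) ∣ d := fun k => pN (by exact_mod_cast k)
  have nm : ∀ {a : ℤ}, a ∣ 30 ^ 4 → ¬ (p : ℤ) ∣ a * d := fun ha h =>
    (hP.dvd_or_dvd h).elim (not_dvd_smooth hp p2 p3 p5 ha) pN'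
  refine loc_good p2 ?_ ?_ ?_ hP.not_dvd_one fun h => pN' (hd' ▸ h.mul_right _)
  · rw [show -102 * (d : ℤ) - -21 * d = -81 * d by ring]
    exact nm (by norm_num)
  · rw [show -102 * (d : ℤ) - 123 * d = -225 * d by ring]
    exact nm (by norm_num)
  · rw [show -21 * (d : ℤ) - 123 * d = -144 * d by ring]
    exact nm (by norm_num)
where
  jac_zero_of_dvd' {p : ℕ} (hp : p.Prime) {a : ℤ} (h : (p : ℤ) ∣ a) : J(a | p) = 0 := by
    rw [jacobiSym.mod_left, Int.emod_eq_zero_of_dvd h, jacobiSym.zero_left hp.one_lt]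

theorem not_sq (hd : Squarefree d) (h1 : d ≠ 1) : ¬ IsSquare (d : ℤ) := fun k => by
  obtain ⟨r, rfl⟩ := Int.isSquare_natCast_iff.mp k
  simp [Nat.isUnit_iff.mp (hd r dvd_rfl)] at h1

theorem amb_eq_one (hd : Squarefree d) (h60 : d % 60 = 1 ∨ d % 60 = 49) (h1 : 1 < d)
    (hS : (Sel (-102 * d) (-21 * d) (123 * d)).encard ≤ 4) {m : ℕ} (hm : m ∣ d) (h : Amb d m)
    (h5 : J((m : ℤ) | 5) = 1) : m = 1 := by
  by_contra k
  have hn : (d : ℤ) ≠ 0 := by omega
  have m0 : (0 : ℤ) < m := by exact_mod_cast Nat.pos_of_dvd_of_pos hm (by omega)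
  have d0 : (0 : ℤ) < d := by omega
  have s1 := not_sq hd h1.ne'
  have s2 := not_sq (hd.squarefree_of_dvd hm) k
  have s3 : ∀ a : ℤ, 0 < a → ¬ IsSquare (-a) := fun a ha h => by have := h.nonneg; omega
  have := card_le_sel (dis1 hn) (ι := Fin 5) ![(1, 1), (1, -d), (d, -1), (d, d), (1, m)]
    (fun i => by fin_cases i <;> simp <;> omega) (fun i => ?_) (fun i p _ => ?_) fun i j a b => ?_
  · exact absurd (this.trans hS) (by decide)
  · fin_cases i
    exacts [loc_one, rT1 hn, rT2 hn, rT3 hn, loc_one.congr one_ne_zero one_ne_zero (sq_of_eq 1 rfl)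
      ⟨Real.sqrt m, by simp⟩]
  · fin_cases i
    exacts [loc_one, rT1 hn, rT2 hn, rT3 hn, loc_amb h60 hm h h5 p]
  · have s4 := s3 d d0
    have s5 := s3 (d * m) (mul_pos d0 m0)
    have s6 := s3 (m * d) (mul_pos m0 d0)
    fin_cases i <;> fin_cases j <;> simp_all

/-- The entries of the matrix of symbols. -/
def cM (d r q : ℕ) : ℤ := if q = r then J(-((d / r : ℕ) : ℤ) | r) else J((q : ℤ) | r)

theorem jac_prod (T : Finset ℕ) (r : ℕ) : J(((∏ q ∈ T, q : ℕ) : ℤ) | r) = ∏ q ∈ T, J((q : ℤ) | r) := by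
  induction T using Finset.induction_on with
  | empty => simp
  | insert i S h ih => rw [prod_insert h, prod_insert h, Nat.cast_mul, jacobiSym.mul_left, ih]

theorem cM_sq (hd : Squarefree d) {r q : ℕ} (hr : r ∈ d.primeFactors) (hq : q ∈ d.primeFactors) :
    cM d r q ^ 2 = 1 := by
  have h1 := Nat.prime_of_mem_primeFactors hr
  unfold cM
  split_ifs with h
  · exact jac_sq h1 (by rw [dvd_neg]; exact not_dvd_div hd h1 (Nat.dvd_of_mem_primeFactors hr))
  · exact jac_sq h1 fun k => h ((Nat.prime_dvd_prime_iff_eq h1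
      (Nat.prime_of_mem_primeFactors hq)).mp (by exact_mod_cast k)).symm

theorem prod_cM (hd : Squarefree d) {T : Finset ℕ} (hT : T ⊆ d.primeFactors) {r : ℕ}
    (hr : r ∈ d.primeFactors) : J((if r ∣ ∏ q ∈ T, q then -((d / ∏ q ∈ T, q : ℕ) : ℤ)
      else (∏ q ∈ T, q : ℕ)) | r) = ∏ q ∈ T, cM d r q := by
  have h1 := Nat.prime_of_mem_primeFactors hr
  have h2 : r ∣ ∏ q ∈ T, q ↔ r ∈ T := by
    rw [Prime.dvd_finsetProd_iff h1.prime]
    exact ⟨fun ⟨q, a, b⟩ => (Nat.prime_dvd_prime_iff_eq h1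
      (Nat.prime_of_mem_primeFactors (hT a))).mp b ▸ a, fun h => ⟨r, h, dvd_rfl⟩⟩
  split_ifs with h
  swap
  · rw [jac_prod]
    exact prod_congr rfl fun q hq => (if_neg (by rintro rfl; exact h (h2.mpr hq))).symm
  obtain ⟨c, hc⟩ : ∏ q ∈ T, q ∣ d := by
    conv_rhs => rw [← Nat.prod_primeFactors_of_squarefree hd]
    exact prod_dvd_prod_of_subset _ _ _ hT
  have h3 := mul_prod_erase T (fun q => q) (h2.mp h)
  have h4 : 0 < ∏ q ∈ T, q := prod_pos fun q hq => (Nat.prime_of_mem_primeFactors (hT hq)).pos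
  have h5 : d / r = (∏ q ∈ T.erase r, q) * c := by
    rw [hc, ← h3, mul_assoc, Nat.mul_div_cancel_left _ h1.pos]
  have h6 := not_dvd_div hd h1 (Nat.dvd_of_mem_primeFactors hr)
  rw [← mul_prod_erase T (fun q => cM d r q) (h2.mp h), cM, if_pos rfl, prod_congr rfl fun q hq =>
    (show cM d r q = J((q : ℤ) | r) from if_neg (ne_of_mem_erase hq)), ← jac_prod, h5,
    show d / ∏ q ∈ T, q = c by rw [hc, Nat.mul_div_cancel_left _ h4], Nat.cast_mul, ← mul_neg,
    jacobiSym.mul_left]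
  rw [h5, Nat.cast_mul] at h6
  have := jac_sq h1 fun k => h6 (Dvd.dvd.mul_right k _)
  linear_combination -J(-(c : ℤ) | r) * this

theorem col_cM (hd : Squarefree d) (h4 : d % 4 = 1) {q : ℕ} (hq : q ∈ d.primeFactors) :
    ∏ r ∈ d.primeFactors, cM d r q = 1 := by
  have h1 := Nat.prime_of_mem_primeFactors hq
  obtain ⟨c, rfl⟩ := Nat.dvd_of_mem_primeFactors hq
  have hc := Nat.coprime_of_squarefree_mul hd
  obtain ⟨o1, o2⟩ := Nat.odd_mul.mp (Nat.odd_iff.mpr (by omega : q * c % 2 = 1))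
  have h2 : ∏ r ∈ c.primeFactors, cM (q * c) r q = J((q : ℤ) | c) := by
    conv_rhs => rw [← Nat.prod_primeFactors_of_squarefree hd.of_mul_right]
    have : ∀ T : Finset ℕ, (∀ r ∈ T, r ≠ 0) → J((q : ℤ) | ∏ r ∈ T, r) = ∏ r ∈ T, J((q : ℤ) | r) := by
      intro T hT
      induction T using Finset.induction_on with
      | empty => simp
      | insert i S h ih =>
        rw [prod_insert h, prod_insert h, jacobiSym.mul_right' _ (hT i (mem_insert_self _ _))
          (prod_ne_zero_iff.mpr fun r hr => hT r (mem_insert_of_mem hr)),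
          ih fun r hr => hT r (mem_insert_of_mem hr)]
    rw [this _ fun r hr => (Nat.prime_of_mem_primeFactors hr).ne_zero]
    refine prod_congr rfl fun r hr => if_neg ?_
    rintro rfl
    exact h1.not_dvd_one (hc ▸ Nat.dvd_gcd dvd_rfl (Nat.dvd_of_mem_primeFactors hr))
  rw [hc.primeFactors_mul, prod_union hc.disjoint_primeFactors, h1.primeFactors, prod_singleton, h2,
    cM, if_pos rfl, Nat.mul_div_cancel_left _ h1.pos, jacobiSym.neg _ o1]
  have h3 : J((q : ℤ) | c) ^ 2 = 1 := jacobiSym.sq_one hc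
  have m := Nat.mul_mod q c 4
  rcases Nat.odd_mod_four_iff.mp (Nat.odd_iff.mp o1) with k | k
  · rw [ZMod.χ₄_nat_one_mod_four k, ← jacobiSym.quadratic_reciprocity_one_mod_four k o2]
    linear_combination h3
  · rw [ZMod.χ₄_nat_three_mod_four k, jacobiSym.quadratic_reciprocity_three_mod_four
      (a := c) (b := q) (by rw [k] at m; omega) k]
    linear_combination h3

theorem prod_symmDiff {f : ℕ → ℤ} {S T : Finset ℕ} (h : ∀ q ∈ S, f q ^ 2 = 1) :
    ∏ q ∈ symmDiff S T, f q = (∏ q ∈ S, f q) * ∏ q ∈ T, f q := by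
  have h1 : (∏ q ∈ S ∩ T, f q) ^ 2 = 1 := by
    rw [← prod_pow]
    exact prod_eq_one fun q hq => h q (mem_inter.mp hq).1
  rw [symmDiff_def, sup_eq_union, prod_union disjoint_sdiff_sdiff,
    ← prod_sdiff (s₂ := S) (inter_subset_left (s₂ := T)), ← prod_sdiff (s₂ := T)
    (inter_subset_right (s₁ := S)), sdiff_inter_self_left,
    sdiff_inter_self_right]
  linear_combination -(∏ q ∈ S \ T, f q) * (∏ q ∈ T \ S, f q) * h1

theorem exists_ker (hd : Squarefree d) (h4 : d % 4 = 1) (h1 : 1 < d) :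
    ∃ U ⊆ d.primeFactors, U ≠ ∅ ∧ ∀ r ∈ d.primeFactors, ∏ q ∈ U, cM d r q = 1 := by
  have pm : ∀ T ⊆ d.primeFactors, ∀ r ∈ d.primeFactors,
      ∏ q ∈ T, cM d r q = 1 ∨ ∏ q ∈ T, cM d r q = -1 := fun T hT r hr => sq_eq_one_iff.mp (by
    rw [← prod_pow]
    exact prod_eq_one fun q hq => cM_sq hd hr (hT hq))
  let F : Finset ℕ → Finset ℕ := fun T => d.primeFactors.filter fun r => ∏ q ∈ T, cM d r q = -1
  have hF : ¬ Set.InjOn F d.primeFactors.powerset := fun hi => by
    obtain ⟨p, hp⟩ := Nat.nonempty_primeFactors.mpr h1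
    obtain ⟨T, hT, e⟩ := surjOn_of_injOn_of_card_le F (s := d.primeFactors.powerset)
      (t := d.primeFactors.powerset) (fun T _ => mem_coe.mpr (mem_powerset.mpr (filter_subset _ _)))
      hi le_rfl (mem_coe.mpr (mem_powerset.mpr (singleton_subset_iff.mpr hp)))
    have hT' := mem_powerset.mp hT
    have h2 : ∏ r ∈ d.primeFactors, ∏ q ∈ T, cM d r q = 1 := by
      rw [prod_comm]
      exact prod_eq_one fun q hq => col_cM hd h4 (hT' hq)
    rw [prod_eq_single_of_mem p hp fun r hr k => (pm T hT' r hr).resolve_right fun k' => k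
      (mem_singleton.mp (e ▸ mem_filter.mpr ⟨hr, k'⟩)),
      (mem_filter.mp (show p ∈ F T from e ▸ mem_singleton_self p)).2] at h2
    omega
  obtain ⟨S, hS, T, hT, e, hne⟩ : ∃ S ⊆ d.primeFactors, ∃ T ⊆ d.primeFactors, F S = F T ∧ S ≠ T := by
    by_contra! k
    exact hF fun S hS T hT e => k S (mem_powerset.mp hS) T (mem_powerset.mp hT) e
  refine ⟨symmDiff S T, symmDiff_subset_union.trans (union_subset hS hT),
    fun k => hne (symmDiff_eq_bot.mp k), fun r hr => ?_⟩
  rw [prod_symmDiff fun q hq => cM_sq hd hr (hS hq)]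
  have : ∏ q ∈ S, cM d r q = -1 ↔ ∏ q ∈ T, cM d r q = -1 := by
    simpa [F, hr] using congrArg (r ∈ ·) e
  rcases pm S hS r hr with a | a <;> rcases pm T hT r hr with b | b <;> simp_all

theorem odd_ambN (hd : Squarefree d) (h60 : d % 60 = 1 ∨ d % 60 = 49) (h1 : 1 < d)
    (hS : (Sel (-102 * d) (-21 * d) (123 * d)).encard ≤ 4) : Odd (ambN d) := by
  have dv : ∀ U ⊆ d.primeFactors, ∏ q ∈ U, q ∣ d := fun U hU => by
    conv_rhs => rw [← Nat.prod_primeFactors_of_squarefree hd]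
    exact prod_dvd_prod_of_subset _ _ _ hU
  have key : ∀ U ⊆ d.primeFactors, (∀ r ∈ d.primeFactors, ∏ q ∈ U, cM d r q = 1) →
      ∏ q ∈ U, J((q : ℤ) | 5) = 1 → U = ∅ := fun U hU h h5 => by
    have := amb_eq_one hd h60 h1 hS (dv U hU) (fun r hr => (prod_cM hd hU hr).trans (h r hr))
      (by rwa [jac_prod])
    exact eq_empty_of_forall_notMem fun q hq => (Nat.prime_of_mem_primeFactors (hU hq)).not_dvd_one
      (this ▸ dvd_prod_of_mem _ hq)
  have s5 : ∀ q ∈ d.primeFactors, J((q : ℤ) | 5) ^ 2 = 1 := fun q hq => jac_sq Nat.prime_five fun k => by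
    have := (Int.natCast_dvd_natCast.mp k).trans (Nat.dvd_of_mem_primeFactors hq)
    omega
  obtain ⟨U, hU, h2, h3⟩ := exists_ker hd (by omega) h1
  have h4 : ∏ q ∈ U, J((q : ℤ) | 5) = -1 := (sq_eq_one_iff.mp (by
    rw [← prod_pow]
    exact prod_eq_one fun q hq => s5 q (hU hq))).resolve_left fun k => h2 (key U hU h3 k)
  rw [ambN, card_eq_one.mpr ⟨∏ q ∈ U, q, eq_singleton_iff_unique_mem.mpr ⟨mem_filter.mpr
    ⟨Nat.mem_divisors.mpr ⟨dv U hU, hd.ne_zero⟩, fun r hr => (prod_cM hd hU hr).trans (h3 r hr),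
      by rwa [jac_prod]⟩, fun m hm => ?_⟩⟩]
  · exact odd_one
  obtain ⟨a, b, c⟩ := mem_filter.mp hm
  have a' := Nat.dvd_of_mem_divisors a
  have hT := Nat.primeFactors_mono a' hd.ne_zero
  have e := Nat.prod_primeFactors_of_squarefree (hd.squarefree_of_dvd a')
  rw [← e] at b c ⊢
  generalize m.primeFactors = T at *
  rw [symmDiff_eq_bot.mp (key (symmDiff T U) (symmDiff_subset_union.trans (union_subset hT hU))
    (fun r hr => by
      rw [prod_symmDiff fun q hq => cM_sq hd hr (hT hq), ← prod_cM hd hT hr, b r hr, h3 r hr, one_mul])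
    (by rw [prod_symmDiff fun q hq => s5 q (hT hq), ← jac_prod, c, h4]; norm_num))]

theorem finrank_zero {G : Type*} [AddCommGroup G] [Module.Finite ℤ G]
    (h1 : ∀ P : G, ∃ T R : G, 2 • T = 0 ∧ P = T + 2 • R) : Module.finrank ℤ G = 0 := by
  classical
  set S := Submodule.torsion ℤ G with hS
  rw [← finrank_quotient_eq_of_le_torsion (M' := S) le_rfl]
  by_contra hlt
  let b := Module.finBasis ℤ (G ⧸ S)
  let i0 : Fin (Module.finrank ℤ (G ⧸ S)) := ⟨0, by omega⟩
  obtain ⟨P, hP⟩ := S.mkQ_surjective (b i0)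
  obtain ⟨T, R, hT, rfl⟩ := h1 P
  have hT0 : S.mkQ T = 0 := by
    rw [Submodule.mkQ_apply, Submodule.Quotient.mk_eq_zero]
    exact ⟨⟨2, mem_nonZeroDivisors_of_ne_zero two_ne_zero⟩, by simpa [← natCast_zsmul] using hT⟩
  have := congrArg (fun x => b.repr x i0) hP
  simp only [map_add, hT0, zero_add, two_nsmul, Finsupp.add_apply, Module.Basis.repr_self,
    Finsupp.single_eq_same] at this
  omega

theorem rank_zero (hd : Squarefree d) (h1 : 1 < d)
    (h : (Sel (-102 * d) (-21 * d) (123 * d)).encard ≤ 4) :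
    Module.Finite ℤ (Wsp ℚ (-102 * d) (-21 * d) (123 * d)).toAffine.Point ∧
      Module.finrank ℤ (Wsp ℚ (-102 * d) (-21 * d) (123 * d)).toAffine.Point = 0 := by
  have hD : Dis (-102 * d) (-21 * d) (123 * d) := dis1 (by omega)
  have hS := split_Wsp (K := ℚ) hD
  have := hS.isElliptic
  have hN0 : (0 : ℚ) < d := by exact_mod_cast (by omega : 0 < d)
  have hz : ∀ T R : (Wsp ℚ (-102 * d) (-21 * d) (123 * d)).toAffine.Point,
      2 • T = 0 → T = 2 • R → T = 0 := by
    rintro (_ | ⟨x, y, hP⟩) R hT e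
    · rfl
    exfalso
    have s1 := SelA.dl_two hS R
    have s2 := SelA.dl_two hS.swap12 R
    rw [← e] at s1 s2
    have hy : y = 0 := by
      rw [two_nsmul, add_eq_zero_iff_eq_neg, Point.neg_some] at hT
      have := (Point.some.inj hT).2
      rw [hS.negY_eq] at this
      linarith
    have := (hS.nonsingular_iff x y).mp hP
    rw [hy, zero_pow two_ne_zero, eq_comm, mul_eq_zero, mul_eq_zero, sub_eq_zero, sub_eq_zero,
      sub_eq_zero] at this
    rcases this with (rfl | rfl) | rfl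
    · rw [SelA.dl_of_ne _ hS.h12] at s2
      have := s2.nonneg
      push_cast at this
      linarith
    · rw [SelA.dl_of_eq] at s2
      have := s2.nonneg
      push_cast at this
      nlinarith
    · rw [SelA.dl_of_ne _ hS.h13.symm] at s1
      have s3 : IsSquare (d : ℚ) := isSquare_scale (c := 1 / 15) s1 (by push_cast; ring)
      exact not_sq hd h1.ne' (Int.isSquare_natCast_iff.mpr (Rat.isSquare_natCast_iff.mp s3))
  have h2 : ∀ P : (Wsp ℚ (-102 * d) (-21 * d) (123 * d)).toAffine.Point,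
      ∃ T R, 2 • T = 0 ∧ P = T + 2 • R := fun P => by
    by_contra k
    have := card_le_sel_pts hD (ι := Option (Fin 4)) (fun i => i.elim P (SelA.tv hS)) (by
      rintro (_ | a) (_ | b) R e
      · rfl
      · exact (k ⟨_, R, SelA.tv_two hS b, by rw [← e]; simp⟩).elim
      · exact (k ⟨_, -R, SelA.tv_two hS a, by rw [neg_nsmul, ← e]; simp⟩).elim
      · rw [SelA.tv_inj hS (sub_eq_zero.mp (hz _ R (by
          rw [nsmul_sub, SelA.tv_two, SelA.tv_two, sub_self]) e))])
    exact absurd (this.trans h) (by decide)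
  have hf := RankOne.finite_of_two_cosets _ (fun _ => False) (fun P _ => h2 P) fun _ _ k => k.elim
  exact ⟨hf, finrank_zero h2⟩

end Re

end Pool.Agent.Lib.MP_696deb_nt
end
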