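import Pool.Agent.Lib.MP_696deb_nt.AnForms

set_option autoImplicit false

open Complex Filter Topology Set MeasureTheory
open scoped Real

namespace Pool.Agent.Lib.MP_696deb_nt

section F
variable {a b c d e : ℤ} {z : ℂ} {Q R : Fm} {w : Fm → ℤ} {κ : ℂ}

lemma abs_sign_le (x : ℝ) : |Real.sign x| ≤ 1 := by
  rcases Real.sign_apply_eq x with h | h | h <;> simp [h]

lemma measurable_rsign : Measurable Real.sign := by
  unfold Real.sign
  exact Measurable.ite measurableSet_Iio measurable_const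
    (Measurable.ite measurableSet_Ioi measurable_const measurable_const)

lemma Iw_finite (hw : Wt w e) (hne : ∀ R, w R ≠ 0 → R.1 ≠ 0) (hz : 0 < z.im) :
    (Function.support fun R : Fm =>
      (w R : ℝ) * (Real.sign R.1 - Real.sign (fside R z))).Finite := by
  refine (finite_above e |z.re| hz).subset fun R hR => ?_
  have h1 : w R ≠ 0 := by exact_mod_cast left_ne_zero_of_mul hR
  exact ⟨hw.disc R h1, hne R h1, z, le_rfl, le_rfl, sub_ne_zero.1 (right_ne_zero_of_mul hR)⟩

lemma Iw_le {F : Set Fm} (hF : F.Finite)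
    (h : ∀ R, w R ≠ 0 → Real.sign R.1 ≠ Real.sign (fside R z) → R ∈ F) :
    |Iw w z| ≤ ∑ R ∈ hF.toFinset, |(w R : ℝ)| := by
  rw [Iw, finsum_eq_sum_of_support_subset (s := hF.toFinset) _ fun R hR => by
    have h1 : w R ≠ 0 := by exact_mod_cast left_ne_zero_of_mul hR
    simpa using h R h1 (sub_ne_zero.1 (right_ne_zero_of_mul hR)), abs_div, abs_two,
    div_le_iff₀ two_pos, Finset.sum_mul]
  refine (Finset.abs_sum_le_sum_abs _ _).trans (Finset.sum_le_sum fun R _ => ?_)
  rw [abs_mul]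
  refine mul_le_mul_of_nonneg_left ((abs_sub _ _).trans ?_) (abs_nonneg _)
  linarith [abs_sign_le R.1, abs_sign_le (fside R z)]

theorem Geo.measurable_Iw (hw : Geo w e κ) : Measurable fun z : UpperHalfPlane => Iw w z := by
  refine Measurable.div_const ?_ 2
  have hc : Continuous fun z : UpperHalfPlane => (z : ℂ) := UpperHalfPlane.continuous_coe
  refine measurable_of_tendsto_metrizable' (atTop : Filter (Finset Fm))
    (f := fun s (z : UpperHalfPlane) =>
      ∑ R ∈ s, (w R : ℝ) * (Real.sign R.1 - Real.sign (fside R z))) (fun s => ?_) ?_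
  · refine Finset.measurable_fun_sum s fun R _ => ?_
    refine measurable_const.mul (measurable_const.sub (measurable_rsign.comp ?_))
    refine Continuous.measurable ?_
    unfold fside
    exact ((continuous_const.mul (continuous_normSq.comp hc)).add
      (continuous_const.mul (continuous_re.comp hc))).add continuous_const
  · rw [tendsto_pi_nhds]
    intro z
    have hf := Iw_finite hw.toWt hw.ne z.im_pos
    refine tendsto_const_nhds.congr' ?_
    filter_upwards [eventually_ge_atTop hf.toFinset] with s hs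
    exact finsum_eq_sum_of_support_subset _ fun R hR => hs (hf.mem_toFinset.2 hR)

theorem Geo.Iw_bdd (hw : Geo w e κ) (C : ℝ) {δ : ℝ} (hδ : 0 < δ) :
    ∃ B : ℝ, ∀ z : ℂ, |z.re| ≤ C → δ ≤ z.im → |Iw w z| ≤ B :=
  ⟨_, fun z h1 h2 => Iw_le (finite_above e C hδ) fun R h3 h4 =>
    ⟨hw.disc R h3, hw.ne R h3, z, h1, h2, h4⟩⟩

lemma isign_eq_of_mul_pos {u v : ℤ} (h : 0 < u * v) : u.sign = v.sign := by
  rcases pos_and_pos_or_neg_and_neg_of_mul_pos h with h | h
  · rw [Int.sign_eq_one_of_pos h.1, Int.sign_eq_one_of_pos h.2]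
  · rw [Int.sign_eq_neg_one_of_neg h.1, Int.sign_eq_neg_one_of_neg h.2]

lemma isign_of_mul_neg {u v : ℤ} (h : u * v < 0) : v.sign = -u.sign := by
  rw [← Int.sign_neg, isign_eq_of_mul_pos (u := -u) (v := v) (by linarith)]

/-- Finitely many geodesics separate infinity from a cusp at which no geodesic ends. -/
lemma finite_cross (hw : Wt w e) {x y : ℤ} :
    {R : Fm | w R ≠ 0 ∧ R.1 * fval R x y < 0}.Finite := by
  rcases eq_or_ne y 0 with rfl | hy
  · convert Set.finite_empty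
    ext R
    simp only [fval, mem_ofPred_eq, mem_empty_iff_false, iff_false, not_and, not_lt]
    intro _
    nlinarith [mul_nonneg (sq_nonneg R.1) (sq_nonneg x)]
  refine (finite_line e hy x (y ^ 2 * e)).subset ?_
  rintro R ⟨h1, h2⟩
  have h3 := fbil_line y x R
  rw [hw.disc R h1] at h3
  refine ⟨hw.disc R h1, left_ne_zero_of_mul h2.ne, right_ne_zero_of_mul h2.ne, ?_⟩
  have h4 := Int.le_self_sq |fbil (0, y, -x) R|
  rw [sq_abs] at h4
  linarith

lemma thw_support (hne : ∀ R, w R ≠ 0 → R.1 ≠ 0) {x y : ℤ}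
    (h : ∀ R, w R ≠ 0 → fval R x y ≠ 0) :
    (Function.support fun R : Fm => w R * (R.1.sign - (fval R x y).sign)) ⊆
      {R : Fm | w R ≠ 0 ∧ R.1 * fval R x y < 0} := fun R hR => by
  have h1 : w R ≠ 0 := left_ne_zero_of_mul hR
  refine ⟨h1, lt_of_le_of_ne (not_lt.1 fun h2 => ?_) (mul_ne_zero (hne R h1) (h R h1))⟩
  exact right_ne_zero_of_mul hR (sub_eq_zero.2 (isign_eq_of_mul_pos h2))

lemma thw_finite (hw : Wt w e) (hne : ∀ R, w R ≠ 0 → R.1 ≠ 0) {x y : ℤ}
    (h : ∀ R, w R ≠ 0 → fval R x y ≠ 0) :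
    (Function.support fun R : Fm => w R * (R.1.sign - (fval R x y).sign)).Finite :=
  (finite_cross hw).subset (thw_support hne h)

lemma Wt.fmap (hw : Wt w e) (h : a * d - b * (15 * c) = 1) (R : Fm) :
    w (fmap R a b (15 * c) d) = w R := hw.inv _ _ ⟨a, b, c, d, h, rfl⟩

lemma col_ne (hw : Wt w e) (hne : ∀ R, w R ≠ 0 → R.1 ≠ 0) (h : a * d - b * (15 * c) = 1) :
    ∀ R, w R ≠ 0 → fval R a (15 * c) ≠ 0 := fun R hR =>
  hne (fmap R a b (15 * c) d) (by rwa [hw.fmap h])

/-- The cocycle relation. -/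
lemma thw_add (hw : Wt w e) (hne : ∀ R, w R ≠ 0 → R.1 ≠ 0) (h : a * d - b * (15 * c) = 1)
    {x y : ℤ} (hxy : ∀ R, w R ≠ 0 → fval R x y ≠ 0) :
    thw w (a * x + b * y) (15 * c * x + d * y) = thw w a (15 * c) + thw w x y := by
  have h1 := thw_finite hw hne (col_ne hw hne h)
  have h2 := (thw_finite hw hne hxy).preimage (fequiv h).injective.injOn
  rw [thw, thw, thw, ← finsum_comp_equiv (fequiv h)
    (f := fun R : Fm => w R * (R.1.sign - (fval R x y).sign)), ← finsum_add_distrib h1 h2]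
  refine finsum_congr fun R => ?_
  change _ = _ + w (fmap R a b (15 * c) d) *
    ((fval R a (15 * c)).sign - (fval (fmap R a b (15 * c) d) x y).sign)
  rw [hw.fmap h, fval_fmap]
  ring

lemma Iw_mob (hw : Wt w e) (hne : ∀ R, w R ≠ 0 → R.1 ≠ 0) (h : a * d - b * (15 * c) = 1)
    (hz : 0 < z.im) : Iw w (mob a b (15 * c) d z) = thw w a (15 * c) / 2 + Iw w z := by
  have h1 := thw_finite hw hne (col_ne hw hne h)
  have h1' : (Function.support fun R : Fm =>
      ((w R * (R.1.sign - (fval R a (15 * c)).sign) : ℤ) : ℝ)).Finite :=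
    h1.subset fun R hR => Int.cast_ne_zero.1 hR
  have h2 := (Iw_finite hw hne hz).preimage (fequiv h).injective.injOn
  have h3 : (thw w a (15 * c) : ℝ) =
      ∑ᶠ R : Fm, ((w R * (R.1.sign - (fval R a (15 * c)).sign) : ℤ) : ℝ) :=
    (Int.castRingHom ℝ).toAddMonoidHom.map_finsum h1
  have h0 : 0 < normSq (((15 * c : ℤ) : ℂ) * z + d) :=
    normSq_pos.2 (den_ne (a := a) (b := b) (by omega) hz)
  rw [Iw, Iw, ← add_div, h3, ← finsum_comp_equiv (fequiv h)
    (f := fun R : Fm => (w R : ℝ) * (Real.sign R.1 - Real.sign (fside R z))),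
    ← finsum_add_distrib h1' h2]
  congr 1
  refine finsum_congr fun R => ?_
  change _ = _ + (w (fmap R a b (15 * c) d) : ℝ) *
    (Real.sign (fval R a (15 * c)) - Real.sign (fside (fmap R a b (15 * c) d) z))
  have h4 : ∀ t : ℝ, Real.sign (t / normSq (((15 * c : ℤ) : ℂ) * z + d)) = Real.sign t := by
    intro t
    rcases eq_or_ne t 0 with rfl | ht
    · simp
    · refine sign_eq_of_mul_pos ?_
      rw [div_mul_eq_mul_div]
      exact div_pos (mul_self_pos.2 ht) h0
  rw [hw.fmap h, fside_mob h hz, h4, Real.sign_intCast, Real.sign_intCast]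
  push_cast
  ring

theorem Geo.psi_mob (hw : Geo w e κ) (h : a * d - b * (15 * c) = 1) (hz : 0 < z.im) :
    psiG w κ (mob a b (15 * c) d z) = psiG w κ z := by
  rw [psiG, psiG, Iw_mob hw.toWt hw.ne h hz, hw.cls a b c d h, per,
    Fi_mob (a := a) (b := b) (c := 15 * c) (d := d) (by omega) 1
      (fun z hz => by simpa using f15_inv a b c d h z hz) hz, one_mul, mul_add, add_re]
  ring

theorem Geo.psi_cusp (hw : Geo w e κ) (h : a * d - b * c = 1) :
    ∃ Y C : ℝ, ∀ z : ℂ, |z.re| ≤ 1 → Y ≤ z.im → |psiG w κ (mob a b c d z)| ≤ C := by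
  have h1 : ∀ᶠ z in atI, ‖Fi (mob a b c d z)‖ < ‖ms a c‖ + 1 :=
    (tendsto_Fi_mob (a := a) (b := b) (c := c) (d := d) (by omega)).norm.eventually
      (gt_mem_nhds (lt_add_one _))
  rw [eventually_comap, eventually_atTop] at h1
  obtain ⟨Y, hY⟩ := h1
  have hsg : ∀ z : ℂ, 0 < z.im → ∀ R : Fm,
      Real.sign (fside R (mob a b c d z)) = Real.sign (fside (fmap R a b c d) z) := by
    intro z hz R
    have h0 : 0 < normSq ((c : ℂ) * z + d) :=
      normSq_pos.2 (den_ne (a := a) (b := b) (by omega) hz)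
    rw [fside_mob h hz]
    rcases eq_or_ne (fside (fmap R a b c d) z) 0 with ht | ht
    · simp [ht]
    · refine sign_eq_of_mul_pos ?_
      rw [div_mul_eq_mul_div]
      exact div_pos (mul_self_pos.2 ht) h0
  have hI : 0 < I.im := by simp
  have f1 := Iw_finite hw.toWt hw.ne (im_mob_pos (a := a) (b := b) (c := c) (d := d) (by omega) hI)
  have f2 := (finite_above e 1 one_pos).preimage (fequiv h).injective.injOn
  have f3 := ((Set.finite_singleton (0 : ℤ)).prod ((Set.finite_Icc (-e) e).prod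
    (Set.finite_Icc (-e) e))).preimage (fequiv h).injective.injOn
  refine ⟨max Y 1, ‖κ‖ * (‖ms a c‖ + 1) + _, fun z h2 h3 => (abs_sub _ _).trans (add_le_add ?_
    (Iw_le ((f1.union f2).union f3) fun R h4 h5 => ?_))⟩
  · refine (abs_re_le_norm _).trans ?_
    rw [norm_mul]
    exact mul_le_mul_of_nonneg_left (hY _ ((le_max_left _ _).trans h3) z rfl).le (norm_nonneg _)
  have h6 : 1 ≤ z.im := (le_max_right _ _).trans h3
  by_cases h7 : Real.sign R.1 = Real.sign (fside R (mob a b c d I))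
  swap
  · exact Or.inl (Or.inl (mul_ne_zero (by exact_mod_cast h4) (sub_ne_zero.2 h7)))
  rw [h7, hsg I hI, hsg z (by linarith)] at h5
  have h8 : fdisc (fmap R a b c d) = e := by rw [fdisc_fmap h, hw.disc R h4]
  by_cases h9 : (fmap R a b c d).1 = 0
  · refine Or.inr ?_
    change fmap R a b c d ∈ ({0} : Set ℤ) ×ˢ (Set.Icc (-e) e ×ˢ Set.Icc (-e) e)
    generalize fmap R a b c d = P at h5 h8 h9
    obtain ⟨p, q, r⟩ := P
    simp only at h9
    subst h9
    simp only [fdisc, mul_zero, zero_mul, sub_zero] at h8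
    simp only [fside, Int.cast_zero, zero_mul, zero_add, I_re, mul_zero] at h5
    have h10 : (r : ℝ) * (q * z.re + r) ≤ 0 := not_lt.1 fun h => h5 (sign_eq_of_mul_pos h)
    have h11 : |q| ≤ e := by
      have := Int.le_self_sq |q|
      rwa [sq_abs, h8] at this
    have h12 : |(r : ℝ)| ≤ |(q : ℝ)| := by
      by_contra! h13
      have h14 : |(r : ℝ) * (q * z.re)| ≤ |(r : ℝ)| * |(q : ℝ)| := by
        rw [abs_mul, abs_mul]
        exact mul_le_mul_of_nonneg_left (mul_le_of_le_one_right (abs_nonneg _) h2) (abs_nonneg _)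
      nlinarith [neg_abs_le ((r : ℝ) * (q * z.re)), abs_mul_abs_self (r : ℝ), abs_nonneg (q : ℝ)]
    have h15 : |r| ≤ |q| := by exact_mod_cast h12
    exact ⟨rfl, abs_le.1 h11, abs_le.1 (h15.trans h11)⟩
  · refine Or.inl (Or.inr ⟨h8, h9, ?_⟩)
    change ∃ z : ℂ, |z.re| ≤ 1 ∧ 1 ≤ z.im ∧
      Real.sign (fmap R a b c d).1 ≠ Real.sign (fside (fmap R a b c d) z)
    by_cases h10 : Real.sign (fmap R a b c d).1 = Real.sign (fside (fmap R a b c d) I)
    · exact ⟨z, h2, h6, h10 ▸ h5⟩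
    · exact ⟨I, by simp, by simp, h10⟩

lemma fside_line {A : ℤ} (hA : A ≠ 0) (k : ℤ) (y : ℝ) (R : Fm) :
    fside R (k / A + y * I) = R.1 * y ^ 2 + fval R k A / A ^ 2 := by
  have h1 : (A : ℝ) ≠ 0 := by exact_mod_cast hA
  rw [← cast_div, fside, normSq_add_mul_I, fval]
  simp only [add_re, ofReal_re, mul_I_re, ofReal_im, neg_zero, add_zero]
  push_cast
  field_simp
  ring

lemma rsign_mul (u v : ℝ) : Real.sign (u * v) = Real.sign u * Real.sign v := by
  rcases lt_trichotomy u 0 with hu | rfl | hu <;> rcases lt_trichotomy v 0 with hv | rfl | hv <;>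
    simp [Real.sign_of_neg, Real.sign_of_pos, mul_pos_of_neg_of_neg, mul_neg_of_neg_of_pos,
      mul_neg_of_pos_of_neg, *]

/-- on a vertical line only the crossing geodesics count -/
theorem Geo.Iw_line (hw : Geo w e κ) {A : ℤ} (hA : 0 < A) (k : ℤ)
    (hk : ∀ R, w R ≠ 0 → fval R k A ≠ 0) : ∃ s : Finset Fm,
    (∀ R, R ∈ s ↔ w R ≠ 0 ∧ R.1 * fval R k A < 0) ∧ ∀ y : ℝ, 0 < y → Iw w (k / A + y * I) =
      ∑ R ∈ s, (w R * R.1.sign : ℝ) *
        (1 - Real.sign (y ^ 2 - |(fval R k A : ℝ)| / (|(R.1 : ℝ)| * A ^ 2))) / 2 := by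
  have hf := finite_cross (x := k) (y := A) hw.toWt
  have hA' : (0 : ℝ) < A := by exact_mod_cast hA
  refine ⟨hf.toFinset, fun R => hf.mem_toFinset, fun y hy => ?_⟩
  rw [Iw, finsum_eq_sum_of_support_subset (s := hf.toFinset) _ fun R hR => ?_, Finset.sum_div]
  · refine Finset.sum_congr rfl fun R hR => ?_
    obtain ⟨h1, h2⟩ := hf.mem_toFinset.1 hR
    have h3 : (R.1 : ℝ) * fval R k A < 0 := by exact_mod_cast h2
    have h4 : fside R (k / A + y * I) =
        R.1 * (y ^ 2 - |(fval R k A : ℝ)| / (|(R.1 : ℝ)| * A ^ 2)) := by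
      rw [fside_line hA.ne']
      rcases mul_neg_iff.1 h3 with h | h
      · rw [abs_of_pos h.1, abs_of_neg h.2]
        have := h.1.ne'
        field_simp
        ring
      · rw [abs_of_neg h.1, abs_of_pos h.2]
        have := h.1.ne
        field_simp
        ring
    rw [h4, rsign_mul, Real.sign_intCast]
    ring
  · have h1 : w R ≠ 0 := by exact_mod_cast left_ne_zero_of_mul hR
    refine hf.mem_toFinset.2 ⟨h1, lt_of_le_of_ne (not_lt.1 fun h2 => ?_)
      (mul_ne_zero (hw.ne R h1) (hk R h1))⟩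
    refine right_ne_zero_of_mul hR (sub_eq_zero.2 (sign_eq_of_mul_pos ?_))
    have h3 : (0 : ℝ) < R.1 * fval R k A := by exact_mod_cast h2
    rw [fside_line hA.ne', mul_add, ← mul_div_assoc, ← mul_assoc]
    exact add_pos_of_nonneg_of_pos (mul_nonneg (mul_self_nonneg _) (sq_nonneg _)) (by positivity)

lemma thw_unit (w : Fm → ℤ) {x : ℤ} (hx : x ^ 2 = 1) : thw w x 0 = 0 := by
  simp [thw, fval, hx]

/-- Existence of the class: only the two parabolic conditions are needed. -/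
theorem exists_geo {w : Fm → ℤ} {e : ℤ} (hw : Wt w e) (he : 0 < e) (hne : ∀ R, w R ≠ 0 → R.1 ≠ 0)
    (h0 : thw w 1 15 = 0) (h5 : thw w (-14) (-75) = 0) : ∃ κ, Geo w e κ := by
  have hadd : ∀ g h : M4, InG g → InG h →
      thw w (mul4 g h).1 (mul4 g h).2.2.1 = thw w g.1 g.2.2.1 + thw w h.1 h.2.2.1 := by
    rintro ⟨a, b, c, d⟩ ⟨a', b', c', d'⟩ ⟨h1, c, rfl⟩ ⟨h2, c', rfl⟩
    exact thw_add hw hne h1 (col_ne hw hne h2)
  have h6 : thw w (-29) (-75) = 0 := by
    have e1 := hadd (7, -1, 15, -2) (-14, 3, -75, 16) (by decide) (by decide)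
    have e2 := hadd (-29, 12, -75, 31) (7, -1, 15, -2) (by decide) (by decide)
    norm_num [mul4] at e1 e2
    omega
  refine ⟨(thw w 7 15 / (2 * wp) : ℝ) - (thw w 11 15 / (2 * wm) : ℝ) * I, hw, he, hne,
    fun a b c d h => ?_⟩
  have hg : InG (a, b, 15 * c, d) := ⟨h, dvd_mul_right _ _⟩
  have h1 := hom15 (ψ := fun g => thw w g.1 g.2.2.1) hadd (thw_unit w (by norm_num))
    (thw_unit w (by norm_num)) h0 h6 hg
  have h2 := ms_eq hg
  simp only [smul_eq_mul] at h1 h2
  have h3 := wp_neg.ne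
  have h4 := wm_ne
  rw [per, h1, h2]
  simp only [mul_re, sub_re, ofReal_re, I_re, mul_zero, ofReal_im, I_im, mul_one, sub_self,
    sub_zero, add_re, intCast_re, intCast_im, mul_im, zero_mul, add_zero, sub_im, zero_sub,
    add_im, zero_add]
  push_cast
  field_simp
  ring

/-- The parabolic conditions hold if no geodesic ends at the cusp. -/
theorem thw_zero {w : Fm → ℤ} {e : ℤ} (hw : Wt w e) (he : 0 < e) (hne : ∀ R, w R ≠ 0 → R.1 ≠ 0)
    (h : ∀ R, w R ≠ 0 → R.2.2 ≠ 0) : thw w 1 15 = 0 := by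
  have _ := he
  have := thw_add (a := 1) (b := 0) (c := 1) (d := 1) hw hne (by norm_num) (x := 0) (y := 1)
    fun R hR => by simpa [fval] using h R hR
  simpa using this

theorem thw_five {w : Fm → ℤ} {e : ℤ} (hw : Wt w e) (he : 0 < e) (hne : ∀ R, w R ≠ 0 → R.1 ≠ 0)
    (h : ∀ R, w R ≠ 0 → fval R 1 5 ≠ 0) : thw w (-14) (-75) = 0 := by
  have _ := he
  have := thw_add (a := -14) (b := 3) (c := -5) (d := 16) hw hne (by norm_num) h
  simpa using this

theorem two_mul_Iw (w : Fm → ℤ) (z : ℂ) : ∃ k : ℤ, 2 * Iw w z = k := by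
  rw [Iw, mul_div_cancel₀ _ two_ne_zero]
  have hs : ∀ x : ℝ, ∃ k : ℤ, Real.sign x = k := fun x => by
    rcases Real.sign_apply_eq x with h | h | h
    exacts [⟨-1, by simp [h]⟩, ⟨0, by simp [h]⟩, ⟨1, by simp [h]⟩]
  refine finsum_induction (fun x : ℝ => ∃ k : ℤ, x = k) ⟨0, by simp⟩ ?_ fun R => ?_
  · rintro _ _ ⟨k, rfl⟩ ⟨l, rfl⟩
    exact ⟨k + l, by simp⟩
  · obtain ⟨k, hk⟩ := hs R.1
    obtain ⟨l, hl⟩ := hs (fside R z)
    exact ⟨w R * (k - l), by rw [hk, hl]; simp⟩

lemma thw_scale {g : ℤ} (hg : g ≠ 0) (w : Fm → ℤ) (x y : ℤ) :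
    thw w (x * g) (y * g) = thw w x y := by
  refine finsum_congr fun R => ?_
  have : fval R (x * g) (y * g) = g ^ 2 * fval R x y := by simp only [fval]; ring
  rw [this, Int.sign_mul, Int.sign_eq_one_of_pos (sq_pos_of_ne_zero hg), one_mul]

/-- The limit of the invariant function at a cusp equivalent to zero. -/
lemma Geo.cusp_val (hw : Geo w e κ) {A : ℤ} (hA : 0 < A) (h15 : IsCoprime A 15) {k : ℤ}
    (hk : ∀ R, w R ≠ 0 → fval R k A ≠ 0) :
    2 * (κ * ms k A).re - thw w k A = 2 * (κ * ms 0 1).re - thw w 0 1 := by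
  obtain ⟨g, k, b, A, d, hg, rfl, rfl, hd⟩ := exists_SL (a := k) (Or.inr hA.ne')
  have h1 : IsCoprime A k := ⟨-b, d, by linear_combination hd⟩
  obtain ⟨u, v, huv⟩ := h15.of_mul_left_left.mul_right h1
  have h2 : u * A - k * (15 * -v) = 1 := by linear_combination huv
  have h3 : ∀ R, w R ≠ 0 → fval R 0 1 ≠ 0 := by
    intro R hR
    obtain ⟨R, rfl⟩ := (fequiv h2).surjective R
    change w (fmap R u k (15 * -v) A) ≠ 0 at hR
    change fval (fmap R u k (15 * -v) A) 0 1 ≠ 0
    rw [hw.toWt.fmap h2] at hR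
    have h4 := hk R hR
    rw [show fval R (k * g) (A * g) = g ^ 2 * fval R k A by simp only [fval]; ring] at h4
    simpa [fval_fmap] using right_ne_zero_of_mul h4
  have h5 := thw_add hw.toWt hw.ne h2 h3
  have h6 := ms_Gamma0 h2 (x := 0) (y := 1) (by norm_num)
  simp only [mul_zero, mul_one, zero_add] at h5 h6
  have h7 := hw.cls u k (-v) A h2
  rw [thw_scale hg.ne', ms_scale hg.ne', h5, h6, mul_add, add_re]
  rw [per] at h7
  push_cast
  linarith

/-- (W) The class is read off from crossing numbers. -/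
theorem geo_cross {w : Fm → ℤ} {e : ℤ} {κ : ℂ} (hw : Geo w e κ) {A : ℤ} (hA : 0 < A)
    (h15 : IsCoprime A 15) {S : Finset ℤ} {χ : ℤ → ℤ} (hχ : ∑ k ∈ S, χ k = 0)
    (hS : ∀ k ∈ S, ∀ R, w R ≠ 0 → fval R k A ≠ 0) :
    (κ * ∑ k ∈ S, χ k * ms k A).re =
      ∑ᶠ t : ℤ, if t ^ 2 < A ^ 2 * e then (cntL A S χ w t : ℝ) else 0 := by
  classical
  set T : Finset ℤ := (Finset.Icc (-(A ^ 2 * e)) (A ^ 2 * e)).filter fun t => t ^ 2 < A ^ 2 * e
    with hT
  have hTm : ∀ t, t ∈ T ↔ t ^ 2 < A ^ 2 * e := fun t => by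
    rw [hT, Finset.mem_filter, Finset.mem_Icc, and_iff_right_iff_imp, ← abs_le]
    intro h
    have := Int.le_self_sq |t|
    rw [sq_abs] at this
    linarith
  have h1 : ∀ k ∈ S, 2 * ∑ t ∈ T, ∑ᶠ R : Fm,
      (if fbil (0, A, -k) R = t then w R * R.1.sign else 0) = thw w k A := by
    intro k hk
    have hf := finite_cross (x := k) (y := A) hw.toWt
    have h2 : ∀ R, w R ≠ 0 → (fbil (0, A, -k) R ∈ T ↔ R.1 * fval R k A < 0) := fun R hR => by
      have := fbil_line A k R
      rw [hw.disc R hR] at this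
      rw [hTm]
      constructor <;> intro h <;> linarith
    rw [thw, finsum_eq_sum_of_support_subset (s := hf.toFinset) _
      (by rw [hf.coe_toFinset]; exact thw_support hw.ne (hS k hk)),
      Finset.sum_congr rfl (g := fun t => ∑ R ∈ hf.toFinset,
        if fbil (0, A, -k) R = t then w R * R.1.sign else 0) fun t ht => ?_, Finset.sum_comm,
      Finset.mul_sum]
    · refine Finset.sum_congr rfl fun R hR => ?_
      obtain ⟨h3, h4⟩ := hf.mem_toFinset.1 hR
      rw [Finset.sum_ite_eq, if_pos ((h2 R h3).2 h4), isign_of_mul_neg h4]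
      ring
    · refine finsum_eq_sum_of_support_subset _ fun R hR => ?_
      have h3 : fbil (0, A, -k) R = t := by by_contra h'; exact hR (if_neg h')
      have h4 : w R ≠ 0 := by
        intro h'
        apply hR
        simp [h']
      exact hf.mem_toFinset.2 ⟨h4, (h2 R h4).1 (h3 ▸ ht)⟩
  rw [finsum_eq_sum_of_support_subset (s := T) _ fun t ht => by
    rw [Finset.mem_coe, hTm]; by_contra h'; exact ht (if_neg h'),
    Finset.sum_congr rfl (g := fun t => (cntL A S χ w t : ℝ)) fun t ht => if_pos ((hTm t).1 ht)]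
  have h3 : 2 * ∑ t ∈ T, cntL A S χ w t = ∑ k ∈ S, χ k * thw w k A := by
    simp only [cntL]
    rw [Finset.sum_comm, Finset.mul_sum]
    refine Finset.sum_congr rfl fun k hk => ?_
    rw [← Finset.mul_sum, ← h1 k hk]
    ring
  have h4 : (2 : ℝ) * ∑ t ∈ T, (cntL A S χ w t : ℝ) = ∑ k ∈ S, (χ k : ℝ) * thw w k A := by
    exact_mod_cast h3
  have h5 : (∑ k ∈ S, (χ k : ℝ)) = 0 := by exact_mod_cast hχ
  apply mul_left_cancel₀ (two_ne_zero (α := ℝ))
  rw [h4, Finset.mul_sum, re_sum, Finset.mul_sum, ← sub_eq_zero, ← Finset.sum_sub_distrib,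
    Finset.sum_congr rfl (g := fun k => (χ k : ℝ) * (2 * (κ * ms 0 1).re - thw w 0 1))
      fun k hk => ?_, ← Finset.sum_mul, h5, zero_mul]
  rw [← hw.cusp_val hA h15 (hS k hk), mul_left_comm κ]
  simp only [mul_re, intCast_re, intCast_im, zero_mul, sub_zero]
  ring

end F

end Pool.Agent.Lib.MP_696deb_nt
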