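import Pool.Agent.Lib.MP_696deb_nt.HDefs
import Pool.Agent.Lib.MP_696deb_nt.CntDefs

/-! Twisted sums of Heegner points and the relations between them used in the induction. -/

set_option autoImplicit false

open Finset NumberTheorySymbols

namespace Pool.Agent.Lib.MP_696deb_nt

/-- The twisted sum of Heegner points, as a complex number. -/
noncomputable def HP (n : ℕ) (S : Finset ℕ) (R : Finset Fm) : ℂ :=
  ∑ Q ∈ R, (hilS n S Q.2.2 : ℂ) * Fi (froot Q)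

theorem tors_iff {z : ℂ} : Tors z ↔ ∃ M : ℕ, 0 < M ∧ (M : ℂ) * z ∈ Unif.L15.lattice := by
  simp only [Tors, Unif.mem_L15, mul_assoc]
  exact ⟨fun ⟨N, m, n, h, e⟩ => ⟨N, h, m, n, e.symm⟩, fun ⟨N, h, m, n, e⟩ => ⟨N, m, n, h, e.symm⟩⟩

/-- The proportionality relations between twisted Heegner points, with their valuations. -/
structure VData : Prop where
  v1 : ∀ (A B : ℕ) (r : ℤ) (R : Finset Fm), Good (A * B) → 60 ∣ r ^ 2 + (A * B : ℕ) →
    HReps (-(A * B : ℕ)) r R → J(-15 | B) = -1 → 1 < A → (A % 60 = 1 ∨ A % 60 = 49) →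
    ∃ (r' : ℤ) (R' : Finset Fm) (a b : ℤ), 60 ∣ r' ^ 2 + B ∧ HReps (-B) r' R' ∧ Odd a ∧
      Tors (a * HP (A * B) A.primeFactors R - 2 ^ (#A.primeFactors + 1) * b * HP B ∅ R')
  v2 : ∀ (A B : ℕ) (r : ℤ) (R : Finset Fm), Good (A * B) → 60 ∣ r ^ 2 + (A * B : ℕ) →
    HReps (-(A * B : ℕ)) r R → J(-15 | B) = -1 → 2 ≤ #A.primeFactors →
    ¬ (A % 60 = 1 ∨ A % 60 = 49) →
    ∃ (q : ℕ) (r' : ℤ) (R' : Finset Fm) (a b : ℤ), q.Prime ∧ Good (q * B) ∧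
      60 ∣ r' ^ 2 + (q * B : ℕ) ∧ HReps (-(q * B : ℕ)) r' R' ∧ Odd a ∧
      Tors (a * HP (A * B) A.primeFactors R - 2 ^ (#A.primeFactors - 1) * b * HP (q * B) {q} R')

end Pool.Agent.Lib.MP_696deb_nt
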