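import Pool.Agent.Lib.MP_696deb_nt.ErgTame
import Pool.Agent.Lib.MP_696deb_nt.AnGeo
import Pool.Agent.Lib.MP_696deb_nt.VDefs
import Pool.Agent.Lib.MP_696deb_nt.SymArith

-- part Pool.Agent.Lib.MP_696deb_nt.AnPoint
section

set_option autoImplicit false

open Filter Topology Set MeasureTheory UpperHalfPlane Metric CongruenceSubgroup
open scoped Real MatrixGroups ENNReal NNReal

namespace Pool.Agent.Lib.MP_696deb_nt

theorem integrable_of_hasSum {ι α : Type*} [Countable ι] [MeasurableSpace α] {μ : Measure α}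
    {F : ι → α → ℝ} (hF : ∀ i, Integrable (F i) μ) (hs : Summable fun i => ∫ x, ‖F i x‖ ∂μ)
    {G : α → ℝ} (hG : AEStronglyMeasurable G μ) (h : ∀ᵐ x ∂μ, HasSum (fun i => F i x) (G x)) :
    Integrable G μ ∧ HasSum (fun i => ∫ x, F i x ∂μ) (∫ x, G x ∂μ) := by
  refine ⟨⟨hG, ?_⟩, ?_⟩
  · calc ∫⁻ x, ‖G x‖ₑ ∂μ ≤ ∫⁻ x, ∑' i, ‖F i x‖ₑ ∂μ := lintegral_mono_ae (h.mono fun x hx => by
          rw [← hx.tsum_eq]
          exact enorm_tsum_le_tsum_enorm)
      _ = ∑' i, ENNReal.ofReal (∫ x, ‖F i x‖ ∂μ) := by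
          rw [lintegral_tsum fun i => (hF i).1.enorm]
          exact tsum_congr fun i => (ofReal_integral_norm_eq_lintegral_enorm (hF i)).symm
      _ < ⊤ := by
          rw [← ENNReal.ofReal_tsum_of_nonneg (fun i => integral_nonneg fun x => norm_nonneg _) hs]
          exact ENNReal.ofReal_lt_top
  · rw [integral_congr_ae (h.mono fun x hx => hx.tsum_eq.symm)]
    exact hasSum_integral_of_summable_integral_norm hF hs

theorem hasSum_fiber {w φ : Fm → ℤ} {g : ℤ → ℝ} {S : ℝ}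
    (hs : HasSum (fun R => (w R : ℝ) * g (φ R)) S) (hfin : ∀ t, {R | w R ≠ 0 ∧ φ R = t}.Finite) :
    HasSum (fun t => ((∑ᶠ R, if φ R = t then w R else 0 : ℤ) : ℝ) * g t) S := by
  convert! hs.tsum_fiberwise φ using 2 with t
  rw [tsum_subtype (φ ⁻¹' {t}) fun R => (w R : ℝ) * g (φ R),
    tsum_eq_sum (s := (hfin t).toFinset), finsum_eq_sum_of_support_subset (s := (hfin t).toFinset),
    Int.cast_sum, Finset.sum_mul]
  · refine Finset.sum_congr rfl fun R hR => ?_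
    have h := ((hfin t).mem_toFinset.mp hR).2
    rw [if_pos h, indicator_of_mem (show R ∈ φ ⁻¹' {t} from h), h]
  · intro R hR
    rw [Function.mem_support, ne_eq, ite_eq_right_iff, Classical.not_imp] at hR
    simpa using ⟨hR.2, hR.1⟩
  · intro R hR
    by_cases h : φ R = t
    · have : w R = 0 := by simpa [h] using hR
      simp [indicator, this]
    · exact indicator_of_notMem (show R ∉ φ ⁻¹' {t} from h) _

theorem hol_Fi : Hol Fi := fun _ hz => (hasDerivAt_Fi hz).differentiableAt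

theorem exists_mob_of_mem {γ : SL(2, ℤ)} (hγ : γ ∈ Gamma0 15) : ∃ a b c d : ℤ,
    a * d - b * (15 * c) = 1 ∧ ∀ z : ℍ, ((γ • z : ℍ) : ℂ) = mob a b (15 * c) d z := by
  obtain ⟨c, hc⟩ := (ZMod.intCast_zmod_eq_zero_iff_dvd _ 15).mp (Gamma0_mem.mp hγ)
  rw [Nat.cast_ofNat] at hc
  exact ⟨γ 0 0, γ 0 1, c, γ 1 1, hc ▸ det_SL γ, fun z => hc ▸ coe_smul_eq_mob γ z⟩

theorem avg_hol {F : ℂ → ℂ} (hF : Hol F) (L : ℂ →L[ℝ] ℝ) {ε : ℝ} (hε : 0 < ε) (z : ℍ)
    (h : Integrable fun w : ℍ => akr ε z w * L (F w)) : avg ε (fun w => L (F w)) z = L (F z) := by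
  rw [← toSL2R_smul_I z] at h ⊢
  rw [avg_smul, avg_polar (u := fun w => L (F (z.toSL2R • w : ℍ))) ((L.continuous.comp
    (hF.continuous_coe.comp (continuous_const_smul _))).aestronglyMeasurable)
    (integrable_akr_smul (u := fun w => L (F w)) _ h),
    setIntegral_congr_fun measurableSet_Ioo fun r hr => by rw [circ_hol_clm hF L _ hr],
    integral_mul_const, (integral_nuK hε).2, one_mul]

variable {w : Fm → ℤ} {e : ℤ} {κ : ℂ}

theorem Geo.tame (hw : Geo w e κ) : Tame (Gamma0 15) fun z : ℍ => psiG w κ z := by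
  have hc : Continuous fun z : ℍ => (κ * Fi z).re :=
    Complex.continuous_re.comp (continuous_const.mul hol_Fi.continuous_coe)
  refine ⟨hc.measurable.sub hw.measurable_Iw, fun γ hγ z => ?_,
    hc.locallyIntegrable.sub fun z => ?_, fun g => ?_⟩
  · obtain ⟨a, b, c, d, h, h2⟩ := exists_mob_of_mem hγ
    rw [h2, hw.psi_mob h z.im_pos]
  · obtain ⟨B, hB⟩ := hw.Iw_bdd (|z.re| + 1) (half_pos z.im_pos)
    have h1 : ∀ᶠ v in 𝓝 z, |v.re| ≤ |z.re| + 1 :=
      (continuous_re.abs.tendsto z).eventually (eventually_le_nhds (lt_add_one _))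
    have h2 : ∀ᶠ v in 𝓝 z, z.im / 2 ≤ v.im :=
      (continuous_im.tendsto z).eventually (eventually_ge_nhds (half_lt_self z.im_pos))
    obtain ⟨r, hr, h3⟩ := Metric.eventually_nhds_iff_ball.mp (h1.and h2)
    exact ⟨ball z r, ball_mem_nhds z hr, Measure.integrableOn_of_bounded measure_ball_lt_top.ne
      hw.measurable_Iw.aestronglyMeasurable (M := B) (ae_restrict_of_forall_mem measurableSet_ball
        fun v hv => hB v (h3 v hv).1 (h3 v hv).2)⟩
  · obtain ⟨Y, C, h⟩ := hw.psi_cusp (det_SL g)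
    exact ⟨Y, C, fun z h1 h2 => by rw [coe_smul_eq_mob]; exact h z h1 h2⟩

/-- A geodesic and a point can be moved to a vertical line and the point `I`. -/
theorem exists_line {R : Fm} (he : 0 < fdisc R) (ha : R.1 ≠ 0) (z : ℍ) : ∃ g : SL(2, ℝ),
    g • I = z ∧ ∀ v : ℍ, Real.sign (fside R (g • v : ℍ)) =
      Real.sign (v.re + fside R z / z.im / √(fdisc R : ℝ)) := by
  have hs : 0 < √(fdisc R : ℝ) := Real.sqrt_pos.mpr (by exact_mod_cast he)
  have hs2 : √(fdisc R : ℝ) ^ 2 = (R.2.1 : ℝ) ^ 2 - 4 * R.1 * R.2.2 := by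
    rw [Real.sq_sqrt (by exact_mod_cast he.le), fdisc]
    push_cast
    ring
  have ha' : (R.1 : ℝ) ≠ 0 := by exact_mod_cast ha
  generalize √(fdisc R : ℝ) = s at hs hs2 ⊢
  let h : SL(2, ℝ) := ⟨!![(R.2.1 + s) / (2 * s), (s - R.2.1) / (2 * R.1); -R.1 / s, 1], by
    rw [Matrix.det_fin_two_of]
    field_simp
    ring⟩
  have key : ∀ v : ℍ, fside R (h • v : ℍ) / (h • v).im = s * (v.re / v.im) := fun v => by
    have h1 : ((h • v : ℍ) : ℂ) = ((((R.2.1 + s) / (2 * s) : ℝ) : ℂ) * v +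
        ((s - R.2.1) / (2 * R.1) : ℝ)) / (((-R.1 / s : ℝ) : ℂ) * v + 1) := by
      rw [coe_specialLinearGroup_apply]
      simp [h]
    have h2 : Complex.normSq (((-R.1 / s : ℝ) : ℂ) * v + 1) ≠ 0 := by
      rw [Ne, Complex.normSq_eq_zero]
      intro h0
      have := congrArg Complex.im h0
      simp only [Complex.add_im, Complex.im_ofReal_mul, Complex.one_im, add_zero, Complex.zero_im,
        coe_im] at this
      exact mul_ne_zero (div_ne_zero (neg_ne_zero.mpr ha') hs.ne') v.im_pos.ne' this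
    have h3 : (R.2.2 : ℝ) = (R.2.1 ^ 2 - s ^ 2) / (4 * R.1) := by
      field_simp
      linarith
    have h4 := v.im_pos
    have h5 : (h • v).im = v.im / Complex.normSq (((-R.1 / s : ℝ) : ℂ) * v + 1) := by
      rw [← coe_im, h1, Complex.div_im]
      simp only [Complex.add_re, Complex.add_im, Complex.re_ofReal_mul, Complex.im_ofReal_mul,
        Complex.ofReal_re, Complex.ofReal_im, Complex.one_re, Complex.one_im, coe_re, coe_im]
      field_simp
      ring
    rw [h5, fside, h1, map_div₀, Complex.div_re, h3]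
    generalize hN : Complex.normSq (((-R.1 / s : ℝ) : ℂ) * v + 1) = N at h2 ⊢
    have h6 : ∀ t : ℝ, t / (4 * R.1) = t / (4 * R.1) * N / N := fun t => by field_simp
    rw [h6, ← hN]
    simp only [Complex.normSq_apply, Complex.add_re, Complex.add_im, Complex.re_ofReal_mul,
      Complex.im_ofReal_mul, Complex.ofReal_re, Complex.ofReal_im, Complex.one_re, Complex.one_im,
      coe_re, coe_im] at hN ⊢
    rw [hN, div_div_eq_mul_div]
    simp only [← mul_div_assoc, ← add_div, div_mul_cancel₀ _ h2]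
    rw [← hN]
    field_simp
    ring
  refine ⟨h * (h⁻¹ • z).toSL2R, by rw [mul_smul, toSL2R_smul_I, smul_inv_smul], fun v => ?_⟩
  have h1 := key (h⁻¹ • z)
  rw [smul_inv_smul] at h1
  have h2 := key ((h⁻¹ • z).toSL2R • v)
  rw [h1, mul_div_cancel_left₀ _ hs.ne', mul_smul]
  generalize h⁻¹ • z = p at *
  have h3 : (p.toSL2R • v).re = p.im * (v.re + p.re / p.im) := by
    have h4 : ((√p.im : ℝ) : ℂ) ≠ 0 := by exact_mod_cast (Real.sqrt_pos.mpr p.im_pos).ne'
    have h5 : ((√p.im : ℝ) : ℂ) ^ 2 = p.im := by exact_mod_cast Real.sq_sqrt p.im_pos.le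
    have h6 : ((p.toSL2R • v : ℍ) : ℂ) = (p.im : ℂ) * v + p.re := by
      rw [coe_specialLinearGroup_apply]
      simp
      field_simp
      rw [h5]
      ring
    rw [← coe_re, h6]
    simp
    field_simp [p.im_pos.ne']
  rw [div_eq_iff (im_pos _).ne', h3] at h2
  rw [h2, show ∀ x y t : ℝ, s * (p.im * x / y) * t = s * p.im * t / y * x from fun x y t => by ring,
    rsign_mul, Real.sign_of_pos (div_pos (mul_pos (mul_pos hs p.im_pos) (im_pos _)) (im_pos _)),
    one_mul]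

theorem measurable_side (R : Fm) : Measurable fun v : ℍ => Real.sign (fside R v) :=
  measurable_rsign.comp (Continuous.measurable (by unfold fside; fun_prop))

theorem avg_side {R : Fm} (he : 0 < fdisc R) (ha : R.1 ≠ 0) (z : ℍ) {ε : ℝ} (hε : 0 < ε)
    {f : ℝ → ℝ} (hf : Continuous f) :
    avg ε (fun v => f (Real.sign (fside R z) - Real.sign (fside R v))) z =
      (∫ y : ℝ, (1 + y ^ 2) ^ (-1 - ε / 2) * f (Real.sign (fside R z / z.im / √(fdisc R : ℝ)) -
        Real.sign (y + fside R z / z.im / √(fdisc R : ℝ)))) /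
          ∫ y : ℝ, (1 + y ^ 2) ^ (-1 - ε / 2) := by
  obtain ⟨g, h1, h2⟩ := exists_line he ha z
  have h3 := h2 I
  rw [h1, I_re, zero_add] at h3
  rw [h3]
  generalize fside R z / z.im / √(fdisc R : ℝ) = τ at *
  obtain ⟨C, hC⟩ := (isCompact_Icc (a := (-2 : ℝ)) (b := 2)).exists_bound_of_continuousOn
    hf.continuousOn
  rw [← h1, avg_smul]
  simp only [h2]
  exact avg_re hε (g := fun y => f (Real.sign τ - Real.sign (y + τ)))
    (hf.measurable.comp ((measurable_rsign.comp (measurable_add_const τ)).const_sub _)) (C := C)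
    fun y => hC _ (abs_le.mp ((abs_sub _ _).trans (by
      linarith [abs_sign_le τ, abs_sign_le (y + τ)])))

theorem Wt.summable_side (hw : Wt w e) (hne : ∀ R, w R ≠ 0 → R.1 ≠ 0) {z : ℂ} (hz : 0 < z.im)
    {ε : ℝ} (hε : 0 < ε) {s : ℝ} (hs : 0 < s) :
    Summable fun R => |(w R : ℝ)| * (1 + |fside R z / s|) ^ (-1 - ε) := by
  obtain ⟨B, hB⟩ := hw.bdd
  refine ((MP_696deb_nt.summable_side e hz hε).mul_left (B * (1 + s) ^ (1 + ε))).of_nonneg_of_le
    (fun R => by positivity) fun R => ?_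
  by_cases h : w R = 0
  · have : (0 : ℝ) ≤ B := by exact_mod_cast (abs_nonneg _).trans (hB R)
    simp only [h, Int.cast_zero, abs_zero, zero_mul]
    split_ifs <;> positivity
  rw [if_pos ⟨hw.disc R h, hne R h⟩, mul_assoc]
  refine mul_le_mul (by exact_mod_cast hB R) ?_ (by positivity)
    (by exact_mod_cast (abs_nonneg _).trans (hB R))
  have := rpow_le_of_le (K := 1 + s) (u := 1 + |fside R z|) (v := 1 + |fside R z / s|)
    (s := -1 - ε) (by positivity) (by positivity) (by positivity) (by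
      rw [abs_div, abs_of_pos hs, add_mul, one_mul, mul_add, mul_div_cancel₀ _ hs.ne']
      linarith [div_nonneg (abs_nonneg (fside R z)) hs.le]) (by linarith)
  rwa [show -(-1 - ε) = 1 + ε by ring] at this

theorem Geo.hasSum_Iw (hw : Geo w e κ) (z : ℍ) :
    HasSum (fun R => (w R : ℝ) * (Real.sign R.1 - Real.sign (fside R z)) / 2) (Iw w z) := by
  have h := Iw_finite hw.toWt hw.ne z.im_pos
  rw [Iw, ← tsum_eq_finsum (L := .unconditional _) h]
  exact (summable_of_hasFiniteSupport h).hasSum.div_const 2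

/-- The defect of the invariant function against its average. -/
theorem Geo.hasSum_psi (hw : Geo w e κ) {ε : ℝ} (hε : 0 < ε) (z : ℍ) :
    HasSum (fun R => (w R : ℝ) * kerE ε (fside R z / z.im / √(e : ℝ)))
      (psiG w κ z - avg ε (fun v => psiG w κ v) z) := by
  have he : 0 < √(e : ℝ) := Real.sqrt_pos.mpr (by exact_mod_cast hw.pos)
  have hK := integral_wK_pos hε
  have hb : ∀ (R : Fm) (v : ℍ), |Real.sign (fside R z) - Real.sign (fside R v)| ≤ 2 := fun R v =>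
    (abs_sub _ _).trans (by linarith [abs_sign_le (fside R z), abs_sign_le (fside R v)])
  have hi : ∀ R : Fm, Integrable fun v : ℍ =>
      akr ε z v * (Real.sign (fside R z) - Real.sign (fside R v)) := fun R =>
    integrable_akr_mul hε z ((measurable_side R).const_sub _).aestronglyMeasurable (hb R)
  obtain ⟨C, hC⟩ := integral_abs_sign_sub_le hε
  obtain ⟨h1, h2⟩ := integrable_of_hasSum (μ := volume) (F := fun (R : Fm) (v : ℍ) =>
      (w R : ℝ) / 2 * (akr ε z v * (Real.sign (fside R z) - Real.sign (fside R v))))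
    (fun R => (hi R).const_mul _) (by
      refine ((hw.toWt.summable_side hw.ne z.im_pos hε (mul_pos z.im_pos he)).mul_left
        (C / 2 / ∫ y : ℝ, (1 + y ^ 2) ^ (-1 - ε / 2))).of_nonneg_of_le
        (fun R => integral_nonneg fun v => norm_nonneg _) fun R => ?_
      by_cases h : w R = 0
      · simp [h]
      have h3 := avg_side (hw.disc R h ▸ hw.pos) (hw.ne R h) z hε continuous_abs
      simp only [Real.norm_eq_abs, abs_mul, abs_of_nonneg (akr_nonneg hε z _), integral_const_mul]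
      rw [avg, hw.disc R h] at h3
      rw [h3, abs_div, abs_two, ← div_div]
      have h4 := div_le_div_of_nonneg_right (hC (fside R z / z.im / √(e : ℝ))) hK.le
      refine (mul_le_mul_of_nonneg_left h4 (by positivity)).trans_eq ?_
      ring) (G := fun v => akr ε z v * (Iw w v - Iw w z))
    ((continuous_akr_right ε z).measurable.mul
      (hw.measurable_Iw.sub_const _)).aestronglyMeasurable (.of_forall fun v => by
      convert! (((hw.hasSum_Iw v).sub (hw.hasSum_Iw z)).mul_left (akr ε z v)) using 2 with R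
      ring)
  have h3 := hw.tame.integrable hε z
  have h4 : Integrable fun v : ℍ => akr ε z v * (κ * Fi v).re :=
    ((h3.add h1).add ((integrable_akr hε z).mul_const (Iw w z))).congr (.of_forall fun v => by
      simp only [Pi.add_apply, psiG]
      ring)
  have h5 := avg_hol (F := fun z => κ * Fi z) (fun z hz => (hol_Fi z hz).const_mul κ)
    Complex.reCLM hε z h4
  have h6 : avg ε (fun v => psiG w κ v) z + ∫ v : ℍ, akr ε z v * (Iw w v - Iw w z) =
      psiG w κ z := by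
    have h7 := integral_sub h4 ((integrable_akr hε z).mul_const (Iw w z))
    rw [integral_mul_const, integral_akr hε, one_mul] at h7
    simp only [avg, Complex.reCLM_apply] at h5
    rw [avg, ← integral_add h3 h1, psiG, ← h5, ← h7]
    refine integral_congr_ae (.of_forall fun v => ?_)
    simp only [psiG]
    ring
  rw [← h6, add_sub_cancel_left]
  convert! h2 using 2 with R
  by_cases h : w R = 0
  · simp [h]
  have h7 := avg_side (hw.disc R h ▸ hw.pos) (hw.ne R h) z hε continuous_id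
  simp only [avg, id, hw.disc R h, integral_sign_sub hε] at h7
  rw [integral_const_mul, h7, mul_div_cancel_right₀ _ hK.ne']
  ring

/-- (C) Points against geodesics. -/
theorem geo_point (hw : Geo w e κ) {S : Finset Fm} {m : Fm → ℤ} {D : ℤ} (hS : Pts S m D) :
    (∀ ε : ℝ, 0 < ε → Summable fun t : ℤ => (cntP S m w t : ℝ) * kerE ε (t / √(-D * e : ℝ))) ∧
    Tendsto (fun ε : ℝ => ∑' t : ℤ, (cntP S m w t : ℝ) * kerE ε (t / √(-D * e : ℝ))) (𝓝[>] 0)
      (𝓝 (∑ Q ∈ S, m Q * (Iw w (froot Q) - (κ * Fi (froot Q)).re))) := by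
  have hD : (0 : ℝ) < -D := by exact_mod_cast neg_pos.mpr hS.neg
  have hz : ∀ Q ∈ S, ((ofComplex (froot Q) : ℍ) : ℂ) = froot Q := fun Q hQ => by
    rw [ofComplex_apply_of_im_pos (im_froot_pos (hS.disc Q hQ ▸ hS.neg) (hS.pos Q hQ))]
  have key : ∀ ε : ℝ, 0 < ε → HasSum (fun t : ℤ => (cntP S m w t : ℝ) * kerE ε (t / √(-D * e : ℝ)))
      (∑ Q ∈ S, m Q * (avg ε (fun v => psiG w κ v) (ofComplex (froot Q)) - psiG w κ (froot Q))) :=
    fun ε hε => by
    simp only [cntP, Int.cast_sum, Int.cast_mul, Finset.sum_mul, mul_assoc]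
    refine hasSum_sum fun Q hQ => HasSum.mul_left _ (hasSum_fiber
      (g := fun t => kerE ε (t / √(-D * e : ℝ))) ?_ fun t => ?_)
    · have h1 := (hw.hasSum_psi hε (ofComplex (froot Q))).neg
      rw [neg_sub, ← coe_im, hz Q hQ] at h1
      convert! h1 using 2 with R
      rw [fside_froot (hS.disc Q hQ ▸ hS.neg) (hS.pos Q hQ), hS.disc Q hQ, Real.sqrt_mul hD.le,
        div_div, neg_div, kerE_neg, mul_neg, neg_neg]
    · have h1 := im_froot_pos (hS.disc Q hQ ▸ hS.neg) (hS.pos Q hQ)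
      refine (finite_side e h1 |-t / √(-fdisc Q : ℝ) * (froot Q).im|).subset fun R hR =>
        ⟨hw.disc R hR.1, hw.ne R hR.1, ?_⟩
      rw [← hR.2, ← fside_froot (hS.disc Q hQ ▸ hS.neg) (hS.pos Q hQ), div_mul_cancel₀ _ h1.ne']
  refine ⟨fun ε hε => (key ε hε).summable, ?_⟩
  have h1 := (hw.tame.tendsto_sum S (fun Q => (m Q : ℝ)) (fun Q => ofComplex (froot Q))
    (by exact_mod_cast hS.deg)).sub_const (∑ Q ∈ S, m Q * psiG w κ (froot Q))
  convert h1.congr' ?_ using 2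
  · simp only [psiG, zero_sub, ← Finset.sum_neg_distrib, ← mul_neg, neg_sub]
  · filter_upwards [self_mem_nhdsWithin] with ε hε
    rw [(key ε hε).tsum_eq, ← Finset.sum_sub_distrib]
    simp only [mul_sub]

end Pool.Agent.Lib.MP_696deb_nt
end

-- part Pool.Agent.Lib.MP_696deb_nt.GkBasic
section

set_option autoImplicit false

open Finset NumberTheorySymbols
open scoped ComplexConjugate

namespace Pool.Agent.Lib.MP_696deb_nt

/-- The subgroup of rational multiples of periods. -/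
def torsG : AddSubgroup ℂ where
  carrier := {z | Tors z}
  zero_mem' := ⟨1, 0, 0, one_pos, by simp⟩
  add_mem' := by
    rintro z w ⟨N, m, n, h, e⟩ ⟨N', m', n', h', e'⟩
    exact ⟨N * N', N' * m + N * m', N' * n + N * n', mul_pos h h', by
      push_cast; linear_combination N' * e + N * e'⟩
  neg_mem' := by
    rintro z ⟨N, m, n, h, e⟩
    exact ⟨N, -m, -n, h, by push_cast; linear_combination -e⟩

/-- The complex numbers modulo rational multiples of periods. -/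
def TQ : Type := ℂ ⧸ torsG

noncomputable instance : AddCommGroup TQ := inferInstanceAs (AddCommGroup (ℂ ⧸ torsG))

/-- The class of a complex number modulo rational multiples of periods. -/
noncomputable def tq : ℂ →+ TQ := QuotientAddGroup.mk' torsG

theorem tq_eq_zero {z : ℂ} : tq z = 0 ↔ Tors z := QuotientAddGroup.eq_zero_iff z

theorem tq_eq {z w : ℂ} : tq z = tq w ↔ Tors (z - w) := by
  rw [← tq_eq_zero, map_sub, sub_eq_zero]

theorem tq_mul (k : ℤ) (z : ℂ) : tq (k * z) = k • tq z := by rw [← zsmul_eq_mul, map_zsmul]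

theorem tq_cancel {k : ℤ} (hk : k ≠ 0) {x : TQ} (h : k • x = 0) : x = 0 := by
  obtain ⟨z, rfl⟩ : ∃ z, tq z = x := QuotientAddGroup.mk'_surjective _ x
  rw [← tq_mul, tq_eq_zero] at h
  obtain ⟨N, m, n, hN, e⟩ := h
  refine tq_eq_zero.mpr ⟨N * k.natAbs, k.sign * m, k.sign * n, mul_pos hN (by omega), ?_⟩
  have h1 : ((k.natAbs : ℕ) : ℂ) = k.sign * k := by
    rw [← Int.cast_natCast, Int.natCast_natAbs, ← Int.sign_mul_self_eq_abs, Int.cast_mul]
  push_cast
  rw [h1]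
  linear_combination k.sign * e

theorem tq_ms (a c : ℤ) : tq (ms a c) = 0 :=
  tq_eq_zero.mpr (tors_iff.mpr ⟨4, by norm_num, by simpa using Unif.four_mul_ms_mem a c⟩)

section gch

variable {p A B : ℕ} {Q R : Fm} {a b c d e β D ρ : ℤ}

/-- The local genus character. -/
def gl (p : ℕ) (R : Fm) : ℤ := if (p : ℤ) ∣ R.1 then J(R.2.2 | p) else J(R.1 | p)

theorem gch_eq (A : ℕ) (R : Fm) : gch A R = ∏ p ∈ A.primeFactors, gl p R := rfl

theorem jac_congr {u v : ℤ} (h : (p : ℤ) ∣ u - v) : J(u | p) = J(v | p) :=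
  jacobiSym.mod_left' (Int.modEq_iff_dvd.mpr h).symm

theorem jac_eq_of_sq (hp : p.Prime) {u v k l : ℤ} (hu : ¬ (p : ℤ) ∣ u) (hv : ¬ (p : ℤ) ∣ v)
    (hk : ¬ (p : ℤ) ∣ k) (h : (p : ℤ) ∣ k ^ 2 * (u * v) - l ^ 2) : J(u | p) = J(v | p) := by
  have hP := Nat.prime_iff_prime_int.mp hp
  have hl : ¬ (p : ℤ) ∣ l := fun h1 => by
    have h2 : (p : ℤ) ∣ k ^ 2 * (u * v) := by simpa using h.add (h1.pow two_ne_zero)
    exact (hP.dvd_or_dvd h2).elim (fun h => hk (hP.dvd_of_dvd_pow h))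
      fun h => (hP.dvd_or_dvd h).elim hu hv
  have h1 := jac_congr h
  rw [jacobiSym.mul_left, jacobiSym.mul_left, jacobiSym.pow_left, jacobiSym.pow_left, jac_sq hp hk,
    jac_sq hp hl] at h1
  linear_combination J(v | p) * h1 - J(u | p) * jac_sq hp hv

theorem gl_fval (hp : p.Prime) (h2 : p ≠ 2) (hd : (p : ℤ) ∣ fdisc R) {x y : ℤ}
    (h : ¬ (p : ℤ) ∣ fval R x y) : gl p R = J(fval R x y | p) := by
  have hP := Nat.prime_iff_prime_int.mp hp
  have h3 : ¬ (p : ℤ) ∣ 2 := not_dvd_of_prime_ne hp Nat.prime_two h2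
  unfold gl
  split_ifs with h1
  · have hb : (p : ℤ) ∣ R.2.1 := hP.dvd_of_dvd_pow (n := 2) (by
      simpa [fdisc] using hd.add ((h1.mul_left 4).mul_right R.2.2))
    have hc : ¬ (p : ℤ) ∣ R.2.2 := fun hc =>
      h (((h1.mul_right _).add ((hb.mul_right _).mul_right _)).add (hc.mul_right _))
    refine jac_eq_of_sq hp hc h h3 (l := 2 * R.2.2 * y + R.2.1 * x) ?_
    exact hd.trans ⟨-x ^ 2, by simp only [fdisc, fval]; ring⟩
  · refine jac_eq_of_sq hp h1 h h3 (l := 2 * R.1 * x + R.2.1 * y) ?_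
    exact hd.trans ⟨-y ^ 2, by simp only [fdisc, fval]; ring⟩

theorem gl_zero (hp : p.Prime) (h2 : p ≠ 2) (hd : (p : ℤ) ∣ fdisc R) :
    gl p R = 0 ↔ ∀ x y, (p : ℤ) ∣ fval R x y := by
  constructor
  · intro h x y
    by_contra h1
    have := jac_sq hp h1
    rw [← gl_fval hp h2 hd h1, h] at this
    simp at this
  · intro h
    rw [gl, if_pos (by simpa [fval] using h 1 0), jac_zero_of_dvd hp (by simpa [fval] using h 0 1)]

/-- Comparison of the local genus characters of two forms whose values correspond. -/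
theorem gl_of_vals (hp : p.Prime) (h2 : p ≠ 2) (hQ : (p : ℤ) ∣ fdisc Q) (hR : (p : ℤ) ∣ fdisc R)
    {k : ℤ} (hk : ¬ (p : ℤ) ∣ k) (h : ∀ x y, ∃ x' y', (p : ℤ) ∣ fval R x' y' - k * fval Q x y)
    (h0 : (∀ x y, (p : ℤ) ∣ fval Q x y) → ∀ x y, (p : ℤ) ∣ fval R x y) :
    gl p R = J(k | p) * gl p Q := by
  by_cases h1 : ∀ x y, (p : ℤ) ∣ fval Q x y
  · rw [(gl_zero hp h2 hQ).mpr h1, (gl_zero hp h2 hR).mpr (h0 h1), mul_zero]
  push Not at h1
  obtain ⟨x, y, h1⟩ := h1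
  obtain ⟨x', y', h3⟩ := h x y
  rw [gl_fval hp h2 hQ h1, gl_fval hp h2 hR (x := x') (y := y') fun h4 =>
    ((Nat.prime_iff_prime_int.mp hp).dvd_or_dvd ((dvd_sub_right h4).mp h3)).elim hk h1,
    ← jacobiSym.mul_left]
  exact jac_congr h3

theorem prime_ne_two (hA : Odd A) (hp : p ∈ A.primeFactors) : p ≠ 2 := by
  rintro rfl
  exact (Nat.not_even_iff_odd.mpr hA) (even_iff_two_dvd.mpr (Nat.dvd_of_mem_primeFactors hp))

theorem dvd_of_mem {k : ℤ} (h : (A : ℤ) ∣ k) (hp : p ∈ A.primeFactors) : (p : ℤ) ∣ k :=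
  (Int.natCast_dvd_natCast.mpr (Nat.dvd_of_mem_primeFactors hp)).trans h

theorem gch_fmap (hA : Odd A) (hd : (A : ℤ) ∣ fdisc R) (h : a * d - b * c = 1) :
    gch A (fmap R a b c d) = gch A R := by
  refine prod_congr rfl fun p hp => ?_
  have h1 := Nat.prime_of_mem_primeFactors hp
  refine (gl_of_vals h1 (prime_ne_two hA hp) (dvd_of_mem hd hp)
    (by rw [fdisc_fmap h]; exact dvd_of_mem hd hp) (k := 1) (by exact_mod_cast h1.not_dvd_one)
    (fun x y => ⟨d * x - b * y, a * y - c * x, ?_⟩) fun h0 x y => ?_).trans (by simp [gl])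
  · rw [fval_fmap, show a * (d * x - b * y) + b * (a * y - c * x) = x by linear_combination x * h,
      show c * (d * x - b * y) + d * (a * y - c * x) = y by linear_combination y * h]
    simp
  · rw [fval_fmap]; exact h0 _ _

theorem FEq.fam (h : FEq Q R) (hQ : Fam e β Q) : Fam e β R := by
  obtain ⟨a, b, c, d, h, rfl⟩ := h
  obtain ⟨⟨k, h1⟩, h2, ⟨l, h3⟩⟩ := hQ
  refine ⟨⟨k * a ^ 2 + Q.2.1 * a * c + 15 * Q.2.2 * c ^ 2, ?_⟩, by rw [fdisc_fmap h, h2],
    ⟨l + k * a * b + Q.2.1 * b * c + Q.2.2 * c * d, ?_⟩⟩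
  · simp only [fmap, fval, h1]; ring
  · simp only [fmap, h1]; linear_combination h3 + Q.2.1 * h

theorem FEq.gch (h : FEq Q R) (hA : Odd A) (hd : (A : ℤ) ∣ fdisc Q) : gch A R = gch A Q := by
  obtain ⟨a, b, c, d, h, rfl⟩ := h
  exact gch_fmap hA hd h

theorem abs_gch_le (A : ℕ) (R : Fm) : |gch A R| ≤ 1 := by
  rw [gch, abs_prod]
  refine prod_le_one (fun _ _ => abs_nonneg _) fun p _ => ?_
  split_ifs
  · rcases jacobiSym.trichotomy R.2.2 p with h | h | h <;> simp [h]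
  · rcases jacobiSym.trichotomy R.1 p with h | h | h <;> simp [h]

theorem fam_of_wG (h : wG A e β R ≠ 0) : Fam e β R := by
  by_contra h1
  exact h (if_neg h1)

theorem wt_wG (hA : Odd A) (hd : (A : ℤ) ∣ e) (β : ℤ) : Wt (wG A e β) e where
  disc R h := (fam_of_wG h).2.1
  inv Q R h := by
    by_cases h1 : Fam e β Q
    · rw [wG, wG, if_pos h1, if_pos (h.fam h1), h.gch hA (h1.2.1 ▸ hd)]
    · rw [wG, wG, if_neg h1, if_neg fun h2 => h1 (h.symm.fam h2)]
  bdd := ⟨1, fun R => by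
    unfold wG
    split_ifs
    · exact abs_gch_le A R
    · simp⟩

theorem gch_eq_hilS {n : ℕ} (hn : Good n) (hA : A ∣ n) (hd : fdisc Q = -n) :
    hilS n A.primeFactors Q.2.2 = gch A Q := by
  refine prod_congr rfl fun p hp => ?_
  have h1 := Nat.prime_of_mem_primeFactors hp
  have h2 := (Nat.dvd_of_mem_primeFactors hp).trans hA
  have h4 := hn.mod4
  have h3 : 2 ^ 2 * (Q.2.2 * Q.1) = Q.2.1 ^ 2 + n * 1 ^ 2 := by
    simp only [fdisc] at hd; linear_combination -hd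
  have h5 : Q.2.2 * Q.1 ≠ 0 := fun h => by
    rw [h] at h3
    nlinarith [sq_nonneg Q.2.1, show (0 : ℤ) < n by omega]
  have hdv : (p : ℤ) ∣ fdisc Q := by rw [hd, dvd_neg]; exact_mod_cast h2
  have hne : p ≠ 2 := by rintro rfl; omega
  by_cases hc : (p : ℤ) ∣ Q.2.2
  · have ha : ¬ (p : ℤ) ∣ Q.1 := fun ha => by
      have hb : (p : ℤ) ∣ Q.2.1 := (Nat.prime_iff_prime_int.mp h1).dvd_of_dvd_pow (n := 2) (by
        simpa [fdisc] using hdv.add ((ha.mul_left 4).mul_right Q.2.2))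
      have h6 : (p : ℤ) * p ∣ n := by
        have := (mul_dvd_mul hc ha).mul_left (2 ^ 2)
        rw [h3, sq Q.2.1] at this
        simpa using (dvd_add_right (mul_dvd_mul hb hb)).mp this
      exact h1.one_lt.ne' (Nat.isUnit_iff.mp (hn.sqf p (by exact_mod_cast h6)))
    rw [hil_eq_of_norm hn.sqf h1 h2 (left_ne_zero_of_mul h5) (right_ne_zero_of_mul h5) two_ne_zero
      h3, hil_of_not_dvd h1 ha, if_neg ha]
  · rw [hil_of_not_dvd h1 hc]
    exact ((gl_fval h1 hne hdv (x := 0) (y := 1) (by simpa [fval] using hc)).trans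
      (by simp [fval])).symm

end gch

section reps

variable {B : ℕ} {Q R : Fm} {D β : ℤ} {T T' : Finset Fm}

theorem HReps.freps (h : HReps D β T) : FReps D β T :=
  ⟨fun Q hQ => ⟨(h.mem Q hQ).lev, (h.mem Q hQ).disc, (h.mem Q hQ).res⟩,
    fun Q hQ => (h.mem Q hQ).pos, fun Q h1 h2 => h.ex Q ⟨h1.2.1, h2, h1.1, h1.2.2⟩, h.uniq⟩

theorem FReps.hreps (h : FReps D β T) : HReps D β T :=
  ⟨fun Q hQ => ⟨(h.fam Q hQ).2.1, h.pos Q hQ, (h.fam Q hQ).1, (h.fam Q hQ).2.2⟩,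
    fun Q h1 => h.ex Q ⟨h1.lev, h1.disc, h1.res⟩ h1.pos, h.uniq⟩

theorem FReps.sum_eq {M : Type*} [AddCommMonoid M] (h : FReps D β T) (h' : FReps D β T')
    (f : Fm → M) (hf : ∀ Q R, Fam D β Q → 0 < Q.1 → FEq Q R → f R = f Q) :
    ∑ Q ∈ T, f Q = ∑ Q ∈ T', f Q := by
  choose g g1 g2 using fun Q hQ => h'.ex Q (h.fam Q hQ) (h.pos Q hQ)
  refine sum_bij g g1 (fun Q hQ R hR e => h.uniq Q hQ R hR ?_) (fun R hR => ?_) fun Q hQ =>
    hf _ _ (h'.fam _ (g1 Q hQ)) (h'.pos _ (g1 Q hQ)) (g2 Q hQ)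
  · exact (g2 Q hQ).symm.trans (e ▸ g2 R hR)
  · obtain ⟨Q, hQ, e⟩ := h.ex R (h'.fam R hR) (h'.pos R hR)
    exact ⟨Q, hQ, h'.uniq _ (g1 Q hQ) _ hR ((g2 Q hQ).trans e)⟩

theorem FReps.image (h : FReps D β T) (φ : Fm → Fm)
    (h1 : ∀ β Q, Fam D β Q → 0 < Q.1 → Fam D (-β) (φ Q) ∧ 0 < (φ Q).1 ∧ φ (φ Q) = Q)
    (h2 : ∀ Q R, 15 ∣ Q.1 → FEq Q R → FEq (φ Q) (φ R)) :
    FReps D (-β) (T.image φ) ∧ ∀ {M : Type} [AddCommMonoid M] (f : Fm → M),
      ∑ Q ∈ T.image φ, f Q = ∑ Q ∈ T, f (φ Q) := by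
  have h3 := fun Q hQ => h1 β Q (h.fam Q hQ) (h.pos Q hQ)
  refine ⟨⟨forall_mem_image.mpr fun Q hQ => (h3 Q hQ).1, forall_mem_image.mpr fun Q hQ => (h3 Q hQ).2.1,
    fun Q h4 h5 => ?_, ?_⟩, fun f => sum_image fun Q hQ R hR e => ?_⟩
  · obtain ⟨h6, h7, h8⟩ := h1 _ Q h4 h5
    obtain ⟨R, hR, h9⟩ := h.ex _ (by simpa using h6) h7
    exact ⟨φ R, mem_image_of_mem _ hR, h8 ▸ h2 _ _ (h.fam R hR).1 h9⟩
  · simp only [forall_mem_image]
    intro Q hQ R hR e
    have := h2 _ _ (h3 Q hQ).1.1 e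
    rw [(h3 Q hQ).2.2, (h3 R hR).2.2] at this
    rw [h.uniq Q hQ R hR this]
  · rw [← (h3 Q hQ).2.2, e, (h3 R hR).2.2]

/-- Complex conjugation on forms. -/
def cj (R : Fm) : Fm := (R.1, -R.2.1, R.2.2)

/-- The Fricke involution on forms. -/
def fV (R : Fm) : Fm := (15 * R.2.2, -R.2.1, R.1 / 15)

theorem Fam.cj (h : Fam D β Q) : Fam D (-β) (cj Q) :=
  ⟨h.1, by rw [← h.2.1]; simp [fdisc, MP_696deb_nt.cj], by
    simpa [MP_696deb_nt.cj, ← sub_eq_neg_add] using dvd_sub_comm.mp h.2.2⟩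

theorem cj_cj (Q : Fm) : cj (cj Q) = Q := by simp [cj]

theorem FEq.cj (h : FEq Q R) : FEq (cj Q) (cj R) := by
  obtain ⟨a, b, c, d, h, rfl⟩ := h
  refine ⟨a, -b, -c, d, by linear_combination h, ?_⟩
  simp only [MP_696deb_nt.cj, fmap, fval, Prod.mk.injEq]
  refine ⟨?_, ?_, ?_⟩ <;> ring

theorem FReps.cj (h : FReps D β T) : FReps D (-β) (T.image cj) ∧
    ∀ {M : Type} [AddCommMonoid M] (f : Fm → M), ∑ Q ∈ T.image cj, f Q = ∑ Q ∈ T, f (cj Q) :=
  h.image _ (fun _ Q h1 h2 => ⟨h1.cj, h2, cj_cj Q⟩) fun _ _ _ h => h.cj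

theorem Fi_froot_cj (hD : fdisc Q < 0) (hQ : 0 < Q.1) :
    Fi (froot (cj Q)) = conj (Fi (froot Q)) := by
  rw [← Fi_conj (im_froot_pos hD hQ)]
  congr 1
  simp only [froot, cj, fdisc, map_div₀, map_add, map_mul, map_neg, Complex.conj_ofReal,
    Complex.conj_I, map_intCast, map_ofNat, neg_sq]
  push_cast
  ring

theorem pos_last (hD : fdisc Q < 0) (hQ : 0 < Q.1) : 0 < Q.2.2 := by
  simp only [fdisc] at hD
  nlinarith [sq_nonneg Q.2.1]

theorem FReps.fV (hD : D < 0) (h : FReps D β T) : FReps D (-β) (T.image fV) ∧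
    ∀ {M : Type} [AddCommMonoid M] (f : Fm → M), ∑ Q ∈ T.image fV, f Q = ∑ Q ∈ T, f (fV Q) := by
  refine h.image _ ?_ ?_
  · rintro β ⟨_, b, c⟩ ⟨⟨a, rfl⟩, h2, h3⟩ h4
    have := pos_last (h2 ▸ hD) h4
    refine ⟨⟨dvd_mul_right _ _, ?_, by
      simpa [MP_696deb_nt.fV, ← sub_eq_neg_add] using dvd_sub_comm.mp h3⟩, ?_, ?_⟩
    · rw [← h2]; simp [fdisc, MP_696deb_nt.fV]; ring
    · exact mul_pos (by norm_num) this
    · simp [MP_696deb_nt.fV]
  · rintro ⟨_, b, c⟩ _ ⟨a, rfl⟩ ⟨x, y, z, u, h, rfl⟩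
    refine ⟨u, -z, -y, x, by linear_combination h, ?_⟩
    simp only [MP_696deb_nt.fV, fmap, fval, Prod.mk.injEq, ne_eq, OfNat.ofNat_ne_zero,
      not_false_eq_true, mul_div_cancel_left₀]
    refine ⟨by ring, by ring, ?_⟩
    rw [Int.ediv_eq_iff_eq_mul_right (by norm_num) ⟨a * x ^ 2 + b * x * z + 15 * c * z ^ 2, by ring⟩]
    ring

theorem tq_froot_fV (hD : fdisc Q < 0) (hQ : 0 < Q.1) (h : 15 ∣ Q.1) :
    tq (Fi (froot (fV Q))) = -tq (Fi (froot Q)) := by
  obtain ⟨_, b, c⟩ := Q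
  obtain ⟨a, rfl⟩ := h
  have h1 := im_froot_pos hD hQ
  have h2 : mob 0 (-1) 15 0 (froot (15 * a, b, c)) = froot (fV (15 * a, b, c)) := by
    refine eq_froot (by simpa [fdisc, fV, mul_comm, mul_left_comm] using hD)
      (mul_pos (by norm_num) (pos_last hD hQ)) (im_mob_pos (by norm_num) h1) ?_
    have h3 := froot_root hD hQ
    have h4 : froot (15 * a, b, c) ≠ 0 := fun h => by simp [h] at h1
    simp only [fV, mob, ne_eq, OfNat.ofNat_ne_zero, not_false_eq_true, mul_div_cancel_left₀] at h3 ⊢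
    push_cast at h3 ⊢
    field_simp
    linear_combination 15 * h3
  rw [← h2, Fi_mob (by norm_num) (-1) (fun z hz => by simpa using f15_w15 hz) h1, map_add, tq_ms]
  simp

theorem gch_fV (hB : Squarefree B) (hodd : Odd B) (h15 : B.Coprime 15) (hd : (B : ℤ) ∣ fdisc Q)
    (h : 15 ∣ Q.1) : gch B (fV Q) = J(15 | B) * gch B Q := by
  obtain ⟨_, b, c⟩ := Q
  obtain ⟨a, rfl⟩ := h
  rw [gch_eq, gch_eq, jac_eq_prod _ hB, ← prod_mul_distrib]
  refine prod_congr rfl fun p hp => ?_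
  have h1 := Nat.prime_of_mem_primeFactors hp
  have h2 : ¬ (p : ℤ) ∣ 15 := fun h => h1.one_lt.ne' (Nat.eq_one_of_dvd_coprimes h15
    (Nat.dvd_of_mem_primeFactors hp) (by exact_mod_cast h))
  refine gl_of_vals h1 (prime_ne_two hodd hp) (dvd_of_mem hd hp) ?_ h2
    (fun x y => ⟨y, -15 * x, ⟨0, by simp [fV, fval]; ring⟩⟩) fun h0 x y => ?_
  · convert dvd_of_mem hd hp using 1
    simp [fdisc, fV]; ring
  · refine ((Nat.prime_iff_prime_int.mp h1).dvd_or_dvd (a := 15) ?_).resolve_left h2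
    exact (h0 (-y) (15 * x)).trans ⟨1, by simp [fV, fval]; ring⟩

end reps

end Pool.Agent.Lib.MP_696deb_nt
end

-- part Pool.Agent.Lib.MP_696deb_nt.GkCore
section

set_option autoImplicit false

open Finset NumberTheorySymbols Filter Topology
open scoped ComplexConjugate

namespace Pool.Agent.Lib.MP_696deb_nt

/-- Absolute values of the odd fundamental discriminants prime to `15`. -/
structure Adm (B : ℕ) : Prop where
  sqf : Squarefree B
  odd : Odd B
  cop : B.Coprime 15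

variable {B : ℕ} {D ρ e D' ρ' e' : ℤ} {T T' : Finset Fm} {w w' : Fm → ℤ} {κ κ' : ℂ}

theorem jac_m1 (hB : Odd B) : J(-1 | B) = if B % 4 = 1 then 1 else -1 := by
  rw [jacobiSym.at_neg_one hB]
  rcases Nat.odd_mod_four_iff.mp (Nat.odd_iff.mp hB) with h | h
  · rw [ZMod.χ₄_nat_one_mod_four h, if_pos h]
  · rw [ZMod.χ₄_nat_three_mod_four h, if_neg (by omega)]

theorem Fam.not_neg {Q : Fm} (h15 : ¬ 15 ∣ ρ) (h : Fam D ρ Q) : ¬ Fam D (-ρ) Q := fun h' => by
  have h1 := h.2.2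
  have h2 := h'.2.2
  omega

/-- The support of the symmetrized divisor. -/
def symS (T : Finset Fm) : Finset Fm := T ∪ T.image cj

theorem sum_symS {M : Type} [AddCommGroup M] (h : FReps D ρ T) (h15 : ¬ 15 ∣ ρ) (f : Fm → M) :
    ∑ Q ∈ symS T, wZ B D ρ Q • f Q =
      ∑ Q ∈ T, gch B Q • f Q + J(-1 | B) • ∑ Q ∈ T.image cj, gch B Q • f Q := by
  rw [symS, sum_union (disjoint_left.mpr fun Q h1 h2 =>
    (h.fam Q h1).not_neg h15 (h.cj.1.fam Q h2)), smul_sum]
  congr 1 <;> refine sum_congr rfl fun Q hQ => ?_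
  · rw [wZ, if_pos (h.pos Q hQ), wG, wG, if_pos (h.fam Q hQ), if_neg ((h.fam Q hQ).not_neg h15),
      mul_zero, add_zero]
  · rw [wZ, if_pos (h.cj.1.pos Q hQ), wG, wG, if_pos (h.cj.1.fam Q hQ),
      if_neg fun h1 => h1.not_neg h15 (h.cj.1.fam Q hQ), zero_add, mul_smul]

theorem jac_fifteen (h : J(-15 | B) = -1) (hB : Odd B) : J(15 | B) = -J(-1 | B) := by
  rw [show (-15 : ℤ) = -1 * 15 by norm_num, jacobiSym.mul_left, jac_m1 hB] at h
  rw [jac_m1 hB]
  split_ifs at h ⊢ <;> omega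

theorem FReps.sum_cj {M : Type} [AddCommGroup M] (h : FReps D ρ T) (hD : D < 0) (hB : Adm B)
    (hd : (B : ℤ) ∣ D) (f : Fm → M) (hf : ∀ Q R, Fam D (-ρ) Q → 0 < Q.1 → FEq Q R → f R = f Q) :
    ∑ Q ∈ T, gch B Q • f (MP_696deb_nt.cj Q) = J(15 | B) • ∑ Q ∈ T, gch B Q • f (MP_696deb_nt.fV Q) := by
  have h1 := h.cj.1.sum_eq (h.fV hD).1 (fun Q => gch B Q • f Q) fun Q R h1 h2 h3 => by
    rw [h3.gch hB.odd (h1.2.1 ▸ hd), hf Q R h1 h2 h3]
  rw [h.cj.2, (h.fV hD).2] at h1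
  rw [smul_sum]
  refine h1.trans (sum_congr rfl fun Q hQ => ?_)
  rw [gch_fV hB.sqf hB.odd hB.cop ((h.fam Q hQ).2.1 ▸ hd) (h.fam Q hQ).1, mul_smul]

theorem FReps.tq_froot {Q R : Fm} (hD : D < 0) (h1 : fdisc Q = D) (h2 : 0 < Q.1) (h : FEq Q R) :
    tq (Fi (froot R)) = tq (Fi (froot Q)) := by
  obtain ⟨a, b, c, d, h, rfl⟩ := h
  rw [← mob_froot h (h1 ▸ hD) h2, Unif.Fi_Gamma0 h (im_froot_pos (by rwa [fdisc_fmap h, h1])
    (fmap_pos h (h1 ▸ hD) h2)), map_add, tq_ms, add_zero]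

theorem tq_hP (B : ℕ) (T : Finset Fm) : tq (hP B T) = ∑ Q ∈ T, gch B Q • tq (Fi (froot Q)) := by
  simp only [hP, map_sum, tq_mul]

theorem FReps.conj_hP (h : FReps D ρ T) (hD : D < 0) :
    conj (hP B T) = ∑ Q ∈ T.image MP_696deb_nt.cj, gch B Q • Fi (froot Q) := by
  rw [h.cj.2, hP, map_sum]
  refine sum_congr rfl fun Q hQ => ?_
  rw [Fi_froot_cj ((h.fam Q hQ).2.1 ▸ hD) (h.pos Q hQ), map_mul, map_intCast, zsmul_eq_mul]
  rfl

theorem FReps.tq_conj (h : FReps D ρ T) (hD : D < 0) (hB : Adm B) (hd : (B : ℤ) ∣ D) :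
    tq (conj (hP B T)) = -J(15 | B) • tq (hP B T) := by
  rw [h.conj_hP hD, h.cj.2, map_sum]
  simp only [map_zsmul]
  refine (h.sum_cj hD hB hd (fun Q => tq (Fi (froot Q)))
    fun Q R h1 h2 h3 => FReps.tq_froot hD h1.2.1 h2 h3).trans ?_
  rw [tq_hP, neg_smul, ← smul_neg, ← sum_neg_distrib]
  refine congrArg _ (sum_congr rfl fun Q hQ => ?_)
  rw [tq_froot_fV ((h.fam Q hQ).2.1 ▸ hD) (h.pos Q hQ) (h.fam Q hQ).1, smul_neg]

theorem FReps.pts (h : FReps D ρ T) (h15 : ¬ 15 ∣ ρ) (hD : D < 0) (hB : Adm B) (hd : (B : ℤ) ∣ D)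
    (hs : J(-15 | B) = -1) : Pts (symS T) (wZ B D ρ) D where
  neg := hD
  disc Q hQ := (mem_union.mp hQ).elim (fun h1 => (h.fam Q h1).2.1) fun h1 => (h.cj.1.fam Q h1).2.1
  pos Q hQ := (mem_union.mp hQ).elim (h.pos Q) (h.cj.1.pos Q)
  deg := by
    have h1 := sum_symS (B := B) h h15 fun _ => (1 : ℤ)
    have h2 := h.sum_cj hD hB hd (fun _ => (1 : ℤ)) fun _ _ _ _ _ => rfl
    rw [h.cj.2] at h1
    simp only [smul_eq_mul, mul_one, show ∀ Q, gch B (MP_696deb_nt.cj Q) = gch B Q from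
      fun _ => rfl] at h1 h2
    rw [jac_fifteen hs hB.odd] at h2
    rw [h1]
    rw [jac_m1 hB.odd] at h2 ⊢
    split_ifs at h2 ⊢ <;> omega

theorem FReps.sum_Fi (h : FReps D ρ T) (h15 : ¬ 15 ∣ ρ) (hD : D < 0) :
    ∑ Q ∈ symS T, wZ B D ρ Q * Fi (froot Q) = hP B T + J(-1 | B) * conj (hP B T) := by
  rw [h.conj_hP hD]
  simpa only [zsmul_eq_mul, hP] using sum_symS (B := B) h h15 fun Q => Fi (froot Q)

theorem FReps.cntP_symS (h : FReps D ρ T) (h15 : ¬ 15 ∣ ρ) (w : Fm → ℤ) (t : ℤ) :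
    cntP (symS T) (wZ B D ρ) w t =
      cntP T (gch B) w t + J(-1 | B) * cntP (T.image MP_696deb_nt.cj) (gch B) w t :=
  sum_symS (B := B) h h15 fun Q => ∑ᶠ R : Fm, if fbil Q R = t then w R else 0

/-- The part of the class of a family of geodesics that is seen by the twist by `B`. -/
noncomputable def thB (B : ℕ) (w : Fm → ℤ) : ℤ := if B % 4 = 1 then thw w 7 15 else thw w 11 15

/-- The period that is seen by the twist by `B`. -/
noncomputable def omB (B : ℕ) : ℂ := if B % 4 = 1 then wp else wm * Complex.I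

theorem tq_omB (B : ℕ) : tq (omB B) = 0 := by
  refine tq_eq_zero.mpr ?_
  unfold omB
  split_ifs
  exacts [⟨1, 1, 0, one_pos, by simp⟩, ⟨1, 0, 1, one_pos, by simp⟩]

theorem omB_ne (B : ℕ) : omB B ≠ 0 := by
  unfold omB
  split_ifs
  · exact_mod_cast wp_neg.ne
  · exact mul_ne_zero (by exact_mod_cast wm_ne) Complex.I_ne_zero

theorem Geo.thB_mul (hw : Geo w e κ) (hB : Odd B) {Z : ℂ} (hZ : conj Z = J(-1 | B) * Z) :
    (thB B w : ℂ) * Z = (2 * (κ * Z).re : ℝ) * omB B := by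
  have h1 := hw.cls 7 (-1) 1 (-2) (by norm_num)
  have h2 := hw.cls 11 (-3) 1 (-4) (by norm_num)
  rw [per, mul_one] at h1 h2
  rw [ms_gp] at h1
  rw [ms_gm] at h2
  rw [jac_m1 hB] at hZ
  unfold thB omB
  have h3 := congrArg Complex.re hZ
  have h4 := congrArg Complex.im hZ
  split_ifs at h3 h4 ⊢
  · have h5 : Z.im = 0 := by simp at h4; linarith
    rw [← Complex.ofReal_intCast, h1]
    apply Complex.ext <;> simp [h5]
    ring
  · have h5 : Z.re = 0 := by simp at h3; linarith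
    rw [← Complex.ofReal_intCast, h2]
    apply Complex.ext <;> simp [h5]
    ring

theorem geo_compare (hw : Geo w e κ) (hw' : Geo w' e' κ') {S S' : Finset Fm} {m m' : Fm → ℤ}
    (hS : Pts S m D) (hS' : Pts S' m' D') (hr : D * e = D' * e') {s s' : ℤ} (hs : s' = 1 ∨ s' = -1)
    (hc : ∀ t, cntP S m w t = s * cntP S' m' w' (s' * t)) :
    ∃ k : ℤ, 2 * (κ * ∑ Q ∈ S, m Q * Fi (froot Q)).re -
      s * s' * (2 * (κ' * ∑ Q ∈ S', m' Q * Fi (froot Q)).re) = k := by
  have h1 := tendsto_nhds_unique (geo_point hw hS).2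
    (((geo_point hw' hS').2.const_mul (s * s' : ℝ)).congr fun ε => by
      have h2 : (-D * e : ℝ) = -D' * e' := by rw [neg_mul, neg_mul]; exact_mod_cast congrArg (-·) hr
      simp only [hc, h2, ← tsum_mul_left]
      rcases hs with rfl | rfl
      · simp [mul_assoc]
      · rw [← (Equiv.neg ℤ).tsum_eq]
        simp [mul_assoc, neg_div, kerE_neg])
  choose k hk using two_mul_Iw w
  choose k' hk' using two_mul_Iw w'
  refine ⟨∑ Q ∈ S, m Q * k (froot Q) - s * s' * ∑ Q ∈ S', m' Q * k' (froot Q), ?_⟩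
  have h3 : ∀ (κ : ℂ) (S : Finset Fm) (m : Fm → ℤ), (κ * ∑ Q ∈ S, m Q * Fi (froot Q)).re =
      ∑ Q ∈ S, m Q * (κ * Fi (froot Q)).re := fun κ S m => by
    rw [mul_sum, Complex.re_sum]
    exact sum_congr rfl fun Q _ => by rw [mul_left_comm]; simp
  simp only [mul_sub, sum_sub_distrib] at h1
  push_cast
  simp only [h3, ← hk, ← hk', mul_left_comm _ (2 : ℝ), ← mul_sum]
  linear_combination -2 * h1

/-- Equal counts of pairs give a relation between special points. -/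
theorem gkz_core (hB : Adm B) (hs : J(-15 | B) = -1) (h : FReps D ρ T) (h15 : ¬ 15 ∣ ρ) (hD : D < 0)
    (hd : (B : ℤ) ∣ D) (h' : FReps D' ρ' T') (h15' : ¬ 15 ∣ ρ') (hD' : D' < 0) (hd' : (B : ℤ) ∣ D')
    (hw : Geo w e κ) (hw' : Geo w' e' κ') (hr : D * e = D' * e') {s s' : ℤ} (hs' : s' = 1 ∨ s' = -1)
    (hc : ∀ t, cntP T (gch B) w t = s * cntP T' (gch B) w' (s' * t))
    (hc' : ∀ t, cntP (T.image cj) (gch B) w t = s * cntP (T'.image cj) (gch B) w' (s' * t)) :
    thB B w • tq (hP B T) = (s * s' * thB B w') • tq (hP B T') := by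
  obtain ⟨k, hk⟩ := geo_compare hw hw' (h.pts h15 hD hB hd hs) (h'.pts h15' hD' hB hd' hs) hr hs'
    (s := s) fun t => by rw [h.cntP_symS h15, h'.cntP_symS h15', hc, hc']; ring
  rw [h.sum_Fi h15 hD, h'.sum_Fi h15' hD'] at hk
  have h1 : ∀ P : ℂ, conj (P + J(-1 | B) * conj P) = J(-1 | B) * (P + J(-1 | B) * conj P) :=
    fun P => by
      rw [jac_m1 hB.odd]
      split_ifs <;> simp [add_comm]
  have h2 : ∀ P : ℂ, tq (conj P) = -J(15 | B) • tq P → tq (P + J(-1 | B) * conj P) = (2 : ℤ) • tq P :=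
    fun P hP => by
      rw [map_add, tq_mul, hP, jac_fifteen hs hB.odd, jac_m1 hB.odd]
      split_ifs <;> simp [two_smul]
  have h3 := hw.thB_mul hB.odd (h1 (hP B T))
  have h4 := hw'.thB_mul hB.odd (h1 (hP B T'))
  have h5 : tq (thB B w * (hP B T + J(-1 | B) * conj (hP B T)) - (s * s' * thB B w' : ℤ) *
      (hP B T' + J(-1 | B) * conj (hP B T'))) = 0 := by
    rw [← smul_zero k, ← tq_omB B, ← tq_mul, ← Complex.ofReal_intCast k, ← hk]
    congr 1
    push_cast at h3 h4 ⊢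
    linear_combination h3 - s * s' * h4
  rw [map_sub, tq_mul, tq_mul, h2 _ (h.tq_conj hD hB hd), h2 _ (h'.tq_conj hD' hB hd'),
    smul_comm _ (2 : ℤ), smul_comm _ (2 : ℤ), ← smul_sub] at h5
  exact sub_eq_zero.mp (tq_cancel two_ne_zero h5)

end Pool.Agent.Lib.MP_696deb_nt
end

-- part Pool.Agent.Lib.MP_696deb_nt.GkGeo
section

set_option autoImplicit false

open Finset NumberTheorySymbols

namespace Pool.Agent.Lib.MP_696deb_nt

variable {w : Fm → ℤ} {e β : ℤ} {A : ℕ}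

theorem fval_ne (he : ¬ IsSquare e) {R : Fm} (h : fdisc R = e) {x y : ℤ} (hxy : x ≠ 0 ∨ y ≠ 0) :
    fval R x y ≠ 0 := fun h0 => he (by
  have h1 := four_mul_fval R x y
  rw [h0, h, mul_zero] at h1
  rcases eq_or_ne y 0 with rfl | hy
  · have h2 : R.1 = 0 := by simpa [fval, hxy.resolve_right (by simp)] using h0
    exact ⟨R.2.1, by rw [← h, fdisc, h2]; ring⟩
  · have h2 : IsSquare (e : ℚ) := ⟨(2 * R.1 * x + R.2.1 * y) / y, by
      field_simp
      exact_mod_cast (by linear_combination h1 : e * y ^ 2 = (2 * R.1 * x + R.2.1 * y) ^ 2)⟩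
    exact Rat.isSquare_intCast_iff.mp h2)

theorem Wt.exists_geo (hw : Wt w e) (he : 0 < e) (hs : ¬ IsSquare e) : ∃ κ, Geo w e κ := by
  have h : ∀ x y : ℤ, x ≠ 0 ∨ y ≠ 0 → ∀ R, w R ≠ 0 → fval R x y ≠ 0 := fun x y hxy R hR =>
    fval_ne hs (hw.disc R hR) hxy
  have h1 : ∀ R, w R ≠ 0 → R.1 ≠ 0 := by simpa [fval] using h 1 0 (by simp)
  exact MP_696deb_nt.exists_geo hw he h1 (thw_zero hw he h1 (by simpa [fval] using h 0 1 (by simp)))
    (thw_five hw he h1 (h 1 5 (by simp)))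

theorem geo_wG (hA : Odd A) (he : (A : ℤ) ∣ e) (h0 : 0 < e) (hs : ¬ IsSquare e) (β : ℤ) :
    ∃ κ, Geo (wG A e β) e κ := (wt_wG hA he β).exists_geo h0 hs

theorem split_ne {A : ℤ} (h3 : ¬ 3 ∣ A) (h5 : ¬ 5 ∣ A) {R : Fm} (h : Fam (A ^ 2) (11 * A) R)
    {x y : ℤ} (hxy : IsCoprime x y) (hy : 15 ∣ y ∨ IsCoprime y 15) : fval R x y ≠ 0 := fun h0 => by
  obtain ⟨_, b, c⟩ := R
  obtain ⟨⟨a, rfl⟩, h1, h2⟩ := h
  obtain ⟨u, v, huv⟩ := hxy
  have h4 := fdisc_fmap (a := x) (b := -v) (c := y) (d := u) (by linear_combination huv) (15 * a, b, c)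
  rw [h1, fdisc, show (fmap (15 * a, b, c) x (-v) y u).1 = 0 from h0, mul_zero, zero_mul, sub_zero,
    sq_eq_sq_iff_eq_or_eq_neg] at h4
  simp only [fmap, fval] at h0 h2 h4
  rcases hy with ⟨y, rfl⟩ | ⟨s, t, hst⟩
  · have h6 : b * (x * u + -v * (15 * y)) = b - 30 * (b * v * y) := by linear_combination b * huv
    rw [h6, show 2 * (15 * a) * x * -v = 30 * (-a * x * v) by ring,
      show 2 * c * (15 * y) * u = 30 * (c * y * u) by ring] at h4
    omega
  · have h6 : 2 * (15 * a) * x * -v + b * (x * u + -v * y) + 2 * c * y * u =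
        -b + 30 * (-a * x * v - a * x ^ 2 * u * s + t * u * (b * x + c * y)) := by
      linear_combination 2 * u * s * h0 - 2 * u * (b * x + c * y) * hst - b * huv
    rw [h6] at h4
    omega

theorem thw_five_split {A : ℤ} (hA : 0 < A) (h3 : ¬ 3 ∣ A) (h5 : ¬ 5 ∣ A) (hw : Wt w (A ^ 2))
    (hs : ∀ R, w R ≠ 0 → Fam (A ^ 2) (11 * A) R)
    (h0 : ∀ m, ∑ j ∈ Ico m (m + A), w (75 * j - 30 * A, 11 * A - 30 * j, 3 * j - A) = 0) :
    thw w (-14) (-75) = 0 := by
  have hne : ∀ R, w R ≠ 0 → R.1 ≠ 0 := fun R hR => by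
    simpa [fval] using split_ne h3 h5 (hs R hR) (x := 1) (y := 0) isCoprime_one_left (by simp)
  have hP : (-14 : ℤ) * 16 - 3 * (15 * -5) = 1 := by norm_num
  have h1 := thw_finite hw hne (col_ne hw hne hP)
  let F : ℤ → ℤ → Fm → ℤ := fun x y R =>
    if fval R 1 5 = 0 then 0 else w R * (R.1.sign - (fval R x y).sign)
  have h2 : (Function.support (F (-14) (15 * -5))).Finite := h1.subset fun R hR h => hR (by
    simp only [F, h, ite_self])
  have h4 : (Function.support (F 1 5)).Finite := (finite_cross hw (x := 1) (y := 5)).subset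
    fun R hR => by
      have h6 : fval R 1 5 ≠ 0 := fun h => hR (if_pos h)
      have h7 : w R * (R.1.sign - (fval R 1 5).sign) ≠ 0 := fun h => hR ((if_neg h6).trans h)
      refine ⟨left_ne_zero_of_mul h7, lt_of_le_of_ne (not_lt.1 fun h2 => ?_)
        (mul_ne_zero (hne R (left_ne_zero_of_mul h7)) h6)⟩
      exact right_ne_zero_of_mul h7 (sub_eq_zero.2 (isign_eq_of_mul_pos h2))
  have h6 : ∑ᶠ R, F 1 5 R = ∑ᶠ R, F 1 5 R - ∑ᶠ R, F (-14) (15 * -5) R := by
    rw [← finsum_sub_distrib h4 h2, ← finsum_comp_equiv (fequiv hP) (f := F 1 5)]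
    refine finsum_congr fun R => ?_
    change (if fval (fmap R _ _ _ _) 1 5 = 0 then 0 else w (fmap R _ _ _ _) *
      ((fval R _ _).sign - (fval (fmap R _ _ _ _) 1 5).sign)) = _
    rw [hw.fmap hP, fval_fmap]
    simp only [F]
    norm_num
    split_ifs <;> ring
  obtain ⟨m, hm⟩ : ∃ m : ℤ, -3 * A < 5 * m ∧ 5 * m < -3 * A + 5 := ⟨(-3 * A) / 5 + 1, by omega⟩
  let G : Fm → ℤ := fun R =>
    if fval R 1 5 = 0 then w R * (R.1.sign - (fval R (-14) (15 * -5)).sign) else 0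
  have h7 : ∀ j : ℤ, G (75 * j - 30 * A, 11 * A - 30 * j, 3 * j - A) =
      w (75 * j - 30 * A, 11 * A - 30 * j, 3 * j - A) *
        ((75 * j - 30 * A).sign - (75 * j + 45 * A).sign) := fun j => by
    simp only [G]
    rw [if_pos (by simp only [fval]; ring), show fval (75 * j - 30 * A, 11 * A - 30 * j, 3 * j - A)
      (-14) (15 * -5) = 75 * j + 45 * A by simp only [fval]; ring]
  have h8 : Function.support G ⊆ (Ico m (m + A)).image
      fun j => ((75 * j - 30 * A, 11 * A - 30 * j, 3 * j - A) : Fm) := by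
    rintro ⟨a, b, c⟩ hR
    have h8 : fval (a, b, c) 1 5 = 0 := by by_contra h; exact hR (if_neg h)
    have h9 := hs _ (left_ne_zero_of_mul fun h => hR ((if_pos h8).trans h))
    obtain ⟨h10, h11, h12⟩ := h9
    simp only [fval, fdisc] at h8 h10 h11 h12
    have h13 := sq_eq_sq_iff_eq_or_eq_neg.mp
      (show (b + 10 * c) ^ 2 = A ^ 2 by linear_combination h11 + 4 * c * h8)
    obtain ⟨j, rfl, rfl, rfl⟩ : ∃ j, a = 75 * j - 30 * A ∧ b = 11 * A - 30 * j ∧ c = 3 * j - A :=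
      ⟨(c + A) / 3, by omega⟩
    refine mem_coe.mpr (mem_image_of_mem _ (mem_Ico.mpr ?_))
    by_contra h
    refine hR ((h7 j).trans ?_)
    rcases lt_or_ge j m with h14 | h14
    · rw [Int.sign_eq_neg_one_of_neg (by omega), Int.sign_eq_neg_one_of_neg (by omega)]; ring
    · rw [Int.sign_eq_one_of_pos (by omega), Int.sign_eq_one_of_pos (by omega)]; ring
  have h9 : ∑ᶠ R, G R = 0 := by
    rw [finsum_eq_sum_of_support_subset _ h8, sum_image fun i _ j _ h => by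
      simp only [Prod.mk.injEq] at h; omega, ← mul_zero (-2), ← h0 m, mul_sum]
    refine sum_congr rfl fun j hj => ?_
    rw [mem_Ico] at hj
    rw [h7, Int.sign_eq_neg_one_of_neg (by omega), Int.sign_eq_one_of_pos (by omega)]; ring
  refine Eq.trans ?_ (show ∑ᶠ R, F (-14) (15 * -5) R + ∑ᶠ R, G R = 0 by omega)
  rw [thw, ← finsum_add_distrib h2 ((finite_toSet _).subset h8)]
  refine finsum_congr fun R => ?_
  simp only [F, G]
  norm_num
  split_ifs <;> ring

theorem exists_geo_split {A : ℤ} (hA : 0 < A) (h3 : ¬ 3 ∣ A) (h5 : ¬ 5 ∣ A) (hw : Wt w (A ^ 2))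
    (hs : ∀ R, w R ≠ 0 → Fam (A ^ 2) (11 * A) R)
    (h0 : ∀ m, ∑ j ∈ Ico m (m + A), w (75 * j - 30 * A, 11 * A - 30 * j, 3 * j - A) = 0) :
    ∃ κ, Geo w (A ^ 2) κ := by
  have hne : ∀ R, w R ≠ 0 → R.1 ≠ 0 := fun R hR => by
    simpa [fval] using split_ne h3 h5 (hs R hR) (x := 1) (y := 0) isCoprime_one_left (by simp)
  refine exists_geo hw (by positivity) hne (thw_zero hw (by positivity) hne fun R hR => ?_)
    (thw_five_split hA h3 h5 hw hs h0)
  simpa [fval] using split_ne h3 h5 (hs R hR) (x := 0) (y := 1) isCoprime_one_right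
    (Or.inr isCoprime_one_left)

theorem sum_Ico_periodic {f : ℤ → ℤ} {N : ℕ} (hf : ∀ j, f (j + N) = f j) (m : ℤ) :
    ∑ j ∈ Ico m (m + N), f j = ∑ k ∈ range N, f k := by
  have h : ∀ m : ℤ, ∑ j ∈ Ico (m + 1) (m + 1 + N), f j = ∑ j ∈ Ico m (m + N), f j := fun m => by
    have h1 := sum_insert (f := f) (s := Ico (m + 1) (m + 1 + N)) (a := m) (by simp)
    have h2 := sum_insert (f := f) (s := Ico m (m + N)) (a := m + N) (by simp)
    rw [show insert m (Ico (m + 1) (m + 1 + N)) = insert (m + N) (Ico m (m + N)) by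
      ext j; simp only [mem_insert, mem_Ico]; omega, h2, hf] at h1
    omega
  induction m using Int.induction_on with
  | zero =>
    refine (sum_nbij' (fun k : ℕ => (k : ℤ)) Int.toNat ?_ ?_ ?_ ?_ ?_).symm <;> simp <;> omega
  | succ m ih => rw [h, ih]
  | pred m ih => rw [← h, sub_add_cancel, ih]

theorem Adm.not_three (hA : Adm A) : ¬ (3 : ℤ) ∣ A := fun h =>
  absurd (Nat.eq_one_of_dvd_coprimes hA.cop (by exact_mod_cast h) (by norm_num : 3 ∣ 15)) (by norm_num)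

theorem Adm.not_five (hA : Adm A) : ¬ (5 : ℤ) ∣ A := fun h =>
  absurd (Nat.eq_one_of_dvd_coprimes hA.cop (by exact_mod_cast h) (by norm_num : 5 ∣ 15)) (by norm_num)

theorem exists_geo_wV (hA : Adm A) (h1 : 1 < A) : ∃ κ, Geo (wV A) (A ^ 2) κ := by
  refine exists_geo_split (by omega) hA.not_three hA.not_five
    (wt_wG hA.odd (dvd_pow_self _ two_ne_zero) _) (fun R => fam_of_wG) fun m => ?_
  rw [← mul_zero J(3 | A), ← sum_jac_eq_zero hA.sqf hA.odd h1, ← sum_Ico_periodic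
    (f := fun j => J(j | A)) (fun j => jac_congr (by simp)) m, mul_sum]
  refine sum_congr rfl fun j _ => ?_
  rw [wV, wG, if_pos ⟨⟨5 * j - 2 * A, by ring⟩, by simp only [fdisc]; ring, ⟨-j, by ring⟩⟩,
    ← jacobiSym.mul_left, jac_eq_prod _ hA.sqf]
  refine prod_congr rfl fun p hp => ?_
  have h2 := dvd_of_mem (dvd_refl (A : ℤ)) hp
  have h3 := Nat.prime_of_mem_primeFactors hp
  rw [jac_congr (u := 3 * j) (v := 3 * j - A) (by simpa using h2)]
  by_cases h4 : (p : ℤ) ∣ 3 * j - A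
  · rw [if_pos, jac_zero_of_dvd h3 h4]
    exact (h4.mul_left 25).sub (h2.mul_left 5) |>.trans ⟨1, by ring⟩
  · exact (gl_fval h3 (prime_ne_two hA.odd hp) (h2.trans ⟨A, by simp only [fdisc]; ring⟩)
      (x := 0) (y := 1) (by simpa [fval] using h4)).trans (by simp [fval])

end Pool.Agent.Lib.MP_696deb_nt
end

-- part Pool.Agent.Lib.MP_696deb_nt.ThV2
section

/-! The classes of some families of geodesics. -/

set_option autoImplicit false

open Finset NumberTheorySymbols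

namespace Pool.Agent.Lib.MP_696deb_nt

variable {w w' : Fm → ℤ} {e β x y : ℤ} {κ : ℂ}

theorem Geo.cls' (hw : Geo w e κ) (hx : IsCoprime x 15) (hy : 15 ∣ y) :
    (thw w x y : ℝ) = 2 * (κ * ms x y).re := by
  obtain ⟨g, a, b, c, d, hg, rfl, rfl, hd⟩ := exists_SL (a := x) (c := y)
    (.inl (by rintro rfl; norm_num [Int.isCoprime_iff_gcd_eq_one] at hx))
  obtain ⟨c, rfl⟩ := hx.of_mul_left_right.symm.dvd_of_dvd_mul_right hy
  rw [thw_scale hg.ne', ms_scale hg.ne', hw.cls a b c d hd, per]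

theorem Geo.eq_thw (hw : Geo w e κ) :
    κ = thw w 7 15 / (2 * wp) + thw w 4 15 * Complex.I / (2 * wm) := by
  have h1 := hw.cls' (x := 7) (y := 15) ⟨-2, 1, by norm_num⟩ dvd_rfl
  have h2 := hw.cls' (x := 4) (y := 15) ⟨4, -1, by norm_num⟩ dvd_rfl
  have h3 := ms_Gamma0 (a := 11) (b := -3) (c := 1) (d := -4) (x := 4) (y := 15) (by norm_num)
    (by norm_num)
  norm_num [ms_zero, ms_gm] at h3
  rw [show ms 4 15 = -(wm * Complex.I) by linear_combination -h3] at h2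
  rw [ms_gp] at h1
  have h4 : (wp : ℂ) ≠ 0 := by exact_mod_cast wp_neg.ne
  have h5 : (wm : ℂ) ≠ 0 := by exact_mod_cast wm_ne
  rw [← Complex.ofReal_intCast, ← Complex.ofReal_intCast, h1, h2]
  nth_rw 1 [← Complex.re_add_im κ]
  simp only [Complex.mul_re, Complex.ofReal_re, Complex.ofReal_im, Complex.neg_re, Complex.neg_im,
    Complex.mul_im, Complex.I_re, Complex.I_im]
  push_cast
  field_simp
  ring

theorem thw_comp (φ : Fm → Fm) (hφ : Function.Injective φ) {s t x' y' : ℤ}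
    (h1 : ∀ R, w' (φ R) = s * w R) (h2 : ∀ R, w' R ≠ 0 → ∃ Q, φ Q = R)
    (h3 : ∀ R, (φ R).1.sign = t * R.1.sign)
    (h4 : ∀ R, (fval (φ R) x y).sign = t * (fval R x' y').sign) :
    thw w' x y = s * t * thw w x' y' := by
  rw [thw, thw, mul_finsum, ← finsum_mem_univ, finsum_mem_inter_support_eq _ _ (Set.range φ),
    finsum_mem_range hφ]
  · exact finsum_congr fun R => by rw [h1, h3, h4]; ring
  · ext R
    exact ⟨fun h => ⟨h2 R (left_ne_zero_of_mul h.2), h.2⟩, fun h => ⟨trivial, h.2⟩⟩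

theorem thw_neg {s : ℤ} (h : ∀ R : Fm, w (-R.1, R.2.1, -R.2.2) = s * w R) (x y : ℤ) :
    thw w x y = -s * thw w (-x) y := by
  rw [thw_comp (w := w) (fun R => (-R.1, R.2.1, -R.2.2)) (fun Q R h => by
      simpa [Prod.ext_iff] using h) h (fun R _ => ⟨(-R.1, R.2.1, -R.2.2), by simp⟩)
    (t := -1) (x' := -x) (y' := y) (by simp) fun R => by
      rw [neg_one_mul, ← Int.sign_neg]; congr 1; simp only [fval]; ring]
  ring

theorem Geo.shape (hw : Geo w e κ) {s : ℤ} (h : ∀ R : Fm, w (-R.1, R.2.1, -R.2.2) = s * w R) :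
    (s = 1 → thw w 7 15 = 0) ∧ (s = -1 → thw w 4 15 = 0) := by
  have h1 := hw.cls' (x := 7) (y := 15) ⟨-2, 1, by norm_num⟩ dvd_rfl
  have h2 := hw.cls' (x := -7) (y := 15) ⟨2, 1, by norm_num⟩ dvd_rfl
  have h3 := hw.cls' (x := 11) (y := 15) ⟨-4, 3, by norm_num⟩ dvd_rfl
  have h4 := hw.cls' (x := -11) (y := 15) ⟨4, 3, by norm_num⟩ dvd_rfl
  have h5 := hw.cls' (x := 4) (y := 15) ⟨4, -1, by norm_num⟩ dvd_rfl
  rw [ms_conj, ms_gp, Complex.conj_ofReal, ← ms_gp, ← h1, Int.cast_inj] at h2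
  rw [show ms 4 15 = ms (-11) 15 by simpa using ms_add_mul (-11) 15 1, ← h4, Int.cast_inj] at h5
  rw [ms_conj, ms_gm, map_mul, Complex.conj_ofReal, Complex.conj_I, mul_neg, mul_neg,
    Complex.neg_re, mul_neg, ← ms_gm, ← h3, ← Int.cast_neg, Int.cast_inj] at h4
  have h6 := thw_neg h 7 15
  have h7 := thw_neg h 11 15
  constructor <;> rintro rfl <;> omega

theorem fam_neg {R : Fm} : Fam e β (-R.1, R.2.1, -R.2.2) ↔ Fam e β R := by simp [Fam, fdisc]

/-- The shape of the class of a twisted family. -/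
theorem geo_shape {A : ℕ} (hA : Squarefree A) (h2 : Odd A) {e β : ℤ} (_he : (A : ℤ) ∣ e) {κ : ℂ}
    (h : Geo (wG A e β) e κ) :
    κ = if A % 4 = 1 then thw (wG A e β) 4 15 * Complex.I / (2 * wm)
      else thw (wG A e β) 7 15 / (2 * wp) := by
  obtain ⟨h3, h4⟩ := h.shape (s := J(-1 | A)) fun R => by
    simp only [wG, fam_neg, gch, dvd_neg]
    split_ifs
    · rw [jac_eq_prod _ hA, ← prod_mul_distrib]
      refine prod_congr rfl fun p _ => ?_
      split_ifs <;> rw [← jacobiSym.mul_left, neg_one_mul]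
    · simp
  rw [jacobiSym.at_neg_one h2] at h3 h4
  rw [h.eq_thw]
  split_ifs with h5
  · rw [h3 (ZMod.χ₄_nat_one_mod_four h5)]; simp
  · rw [h4 (ZMod.χ₄_nat_three_mod_four (by have := Nat.odd_iff.mp h2; omega))]; simp

theorem FEq.ev2 {Q R : Fm} (h : FEq Q R) (hQ : Ev2 Q) : Ev2 R := by
  obtain ⟨a, b, c, d, -, rfl⟩ := h
  obtain ⟨h1, h2, h3⟩ := hQ
  exact ⟨((h1.mul_right _).add ((h2.mul_right _).mul_right _)).add (h3.mul_right _),
    (((dvd_mul_right _ _).mul_right _).mul_right _ |>.add (h2.mul_right _)).add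
      (((dvd_mul_right _ _).mul_right _).mul_right _),
    ((h1.mul_right _).add ((h2.mul_right _).mul_right _)).add (h3.mul_right _)⟩

theorem wt_ev2 (u v : ℤ) : Wt (fun R => if Fam e β R then (if Ev2 R then u else v) else 0) e where
  disc R h := (by_contra fun h1 => h (if_neg h1) : Fam e β R).2.1
  inv Q R h := by
    simp only [show Fam e β R ↔ Fam e β Q from ⟨h.symm.fam, h.fam⟩,
      show Ev2 R ↔ Ev2 Q from ⟨h.symm.ev2, h.ev2⟩]
  bdd := ⟨|u| + |v|, fun R => by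
    have := abs_nonneg u
    have := abs_nonneg v
    split_ifs
    exacts [by omega, by omega, by simp; omega]⟩

theorem thw_wV2 : thw wV2 4 15 = 2 := by
  rw [thw, finsum_eq_single _ ((15, -8, 1) : Fm)]
  · decide
  rintro ⟨_, b, c⟩ hR
  by_contra h
  have h0 : Fam 4 22 _ := by_contra fun h1 => left_ne_zero_of_mul h (if_neg h1)
  obtain ⟨⟨a, rfl⟩, h1, h2⟩ := id h0
  have h3 := split_ne (A := 2) (by norm_num) (by norm_num) h0 (x := 1) (y := 0) isCoprime_one_left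
    (by simp)
  have h4 := split_ne (A := 2) (by norm_num) (by norm_num) h0 (x := 4) (y := 15)
    ⟨4, -1, by norm_num⟩ (by simp)
  have h5 := lt_of_le_of_ne (not_lt.1 fun h5 =>
    right_ne_zero_of_mul h (sub_eq_zero.2 (isign_eq_of_mul_pos h5)))
    (mul_ne_zero (by simpa [fval] using h3) h4)
  simp only [fval, fdisc] at h1 h2 h5
  have h6 : (b + 8 * a) ^ 2 - 4 = 4 * (a * (16 * a + 4 * b + 15 * c)) := by linear_combination h1
  have h7 : b + 8 * a = 0 := by
    obtain ⟨k, hk⟩ : ∃ k, b + 8 * a = 2 * k := ⟨(b + 8 * a) / 2, by omega⟩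
    rw [hk] at h6 ⊢
    have h8 : k ^ 2 < 1 := by linarith
    have := sq_lt_one_iff_abs_lt_one k |>.mp h8
    have := abs_lt.mp this
    omega
  rw [h7] at h6
  rcases Int.eq_one_or_neg_one_of_mul_eq_neg_one' (show a * (16 * a + 4 * b + 15 * c) = -1 by
    linarith) with ⟨rfl, h8⟩ | ⟨rfl, h8⟩
  · exact hR (by simp only [Prod.mk.injEq]; omega)
  · omega

theorem geo_wV2' : Geo wV2 4 (Complex.I / wm) := by
  obtain ⟨κ, h⟩ := exists_geo_split (w := wV2) (A := 2) two_pos (by norm_num) (by norm_num)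
    (wt_ev2 _ _) (fun R h => by_contra fun h1 => h (if_neg h1)) fun m => by
      have h1 : ∀ j : ℤ, wV2 (75 * j - 30 * 2, 11 * 2 - 30 * j, 3 * j - 2) =
          if 2 ∣ j then -1 else 1 := fun j => by
        rw [wV2, if_pos ⟨⟨5 * j - 4, by ring⟩, by simp only [fdisc]; ring, ⟨-j, by ring⟩⟩]
        exact if_congr (by simp only [Ev2]; omega) rfl rfl
      rw [show Ico m (m + 2) = {m, m + 1} by ext; simp; omega, sum_pair (by omega), h1, h1]
      split_ifs <;> omega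
  have h1 := h.eq_thw
  rw [(h.shape (s := 1) fun R => by simp [wV2, fam_neg, Ev2]).1 rfl, thw_wV2] at h1
  rw [show Complex.I / wm = κ by rw [h1]; push_cast; field_simp; simp]
  exact h

theorem geo_wV2 : ∃ s : ℤ, (s = 1 ∨ s = -1) ∧ Geo wV2 4 (s * Complex.I / wm) :=
  ⟨1, .inl rfl, by simpa using geo_wV2'⟩

theorem thw_eq_sum (he : ¬ IsSquare e) (hxy : x ≠ 0 ∨ y ≠ 0) : ∃ S : Finset Fm, ∀ w : Fm → ℤ,
    (∀ R, w R ≠ 0 → Fam e β R) → thw w x y = ∑ R ∈ S, w R * (R.1.sign - (fval R x y).sign) := by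
  refine ⟨(finite_cross (wt_ev2 (e := e) (β := β) 1 1) (x := x) (y := y)).toFinset, fun w hw =>
    finsum_eq_sum_of_support_subset _ fun R hR => ?_⟩
  have h := thw_support (w := w)
    (fun R h => by simpa [fval] using fval_ne he (hw R h).2.1 (x := 1) (y := 0) (by simp))
    (fun R h => fval_ne he (hw R h).2.1 hxy) hR
  simpa [hw R h.1] using h.2

/-- The Hecke operator at two on families of geodesics. -/
theorem thw_wHk {d β : ℤ} (h4 : d % 4 = 1) (hβ : β % 2 = 1) (hs : ¬ IsSquare (4 * d))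
    (hxy : x ≠ 0 ∨ y ≠ 0) : thw (wHk d β) x y = thw (wG 1 d β) (2 * x) y +
      thw (wG 1 d β) x (2 * y) + thw (wG 1 d β) (x + y) (2 * y) - 3 * thw (wG 1 d β) x y := by
  obtain ⟨S, hS⟩ := thw_eq_sum (β := 2 * β) hs hxy
  have key : ∀ (P : Fm → Prop) [DecidablePred P] (φ : Fm → Fm) (x' y' : ℤ), Function.Injective φ →
      (∀ R, Fam (4 * d) (2 * β) (φ R) ∧ P (φ R) ↔ Fam d β R) →
      (∀ R, Fam (4 * d) (2 * β) R → P R → ∃ Q, φ Q = R) → (∀ R, (φ R).1.sign = R.1.sign) →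
      (∀ R, (fval (φ R) x y).sign = (fval R x' y').sign) → thw (wG 1 d β) x' y' =
      ∑ R ∈ S, (if Fam (4 * d) (2 * β) R ∧ P R then 1 else 0) * (R.1.sign - (fval R x y).sign) := by
    intro P _ φ x' y' h1 h2 h3 h5 h6
    rw [← hS _ fun R h => (by_contra fun h1 => h (if_neg h1) : _ ∧ _).1,
      thw_comp (w := wG 1 d β) φ h1 (s := 1) (t := 1) (fun R => by simp [h2, wG, gch])
        (fun R h => and_imp.mpr (h3 R) (by_contra fun h1 => h (if_neg h1))) (by simpa using h5)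
        (by simpa using h6), mul_one, one_mul]
  have s2 : Int.sign 2 = 1 := rfl
  have s4 : Int.sign 4 = 1 := rfl
  have odd : ∀ {a b c : ℤ}, b ^ 2 - 4 * a * c = d → b % 2 = 1 := fun {a b c} h => by
    rcases Int.even_or_odd' b with ⟨k, rfl | rfl⟩
    · have : d = 4 * (k ^ 2 - a * c) := by linear_combination -h
      omega
    · omega
  rw [key (fun R => 4 ∣ R.1) (fun R => (4 * R.1, 2 * R.2.1, R.2.2)) _ _
      (fun Q R h => by simpa [Prod.ext_iff] using h) ?_ ?_ (by simp [Int.sign_mul, s4])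
      (fun R => by congr 1; simp only [fval]; ring),
    key (fun R => 4 ∣ R.2.2) (fun R => (R.1, 2 * R.2.1, 4 * R.2.2)) _ _
      (fun Q R h => by simpa [Prod.ext_iff] using h) ?_ ?_ (by simp)
      (fun R => by congr 1; simp only [fval]; ring),
    key (fun R => 4 ∣ R.1 - R.2.1 + R.2.2)
      (fun R => (R.1, 2 * R.1 + 2 * R.2.1, R.1 + 2 * R.2.1 + 4 * R.2.2)) _ _
      (fun Q R h => by simp only [Prod.ext_iff] at h ⊢; omega) ?_ ?_ (by simp)
      (fun R => by congr 1; simp only [fval]; ring),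
    key Ev2 (fun R => (2 * R.1, 2 * R.2.1, 2 * R.2.2)) x y
      (fun Q R h => by simpa [Prod.ext_iff] using h) ?_ ?_ (by simp [Int.sign_mul, s2])
      (fun R => by
        rw [show fval _ x y = 2 * fval R x y by simp only [fval]; ring]; simp [Int.sign_mul, s2]),
    hS (wHk d β) fun R h => by_contra fun h1 => h (if_neg h1), mul_sum, ← sum_add_distrib,
    ← sum_add_distrib, ← sum_sub_distrib]
  · refine sum_congr rfl fun R _ => ?_
    rw [← mul_assoc, ← add_mul, ← add_mul, ← sub_mul]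
    congr 1
    by_cases h : Fam (4 * d) (2 * β) R
    swap
    · simp [wHk, h]
    simp only [wHk, h, true_and, if_true, Ev2]
    obtain ⟨a, b, c⟩ := R
    obtain ⟨-, h1, h2⟩ := h
    obtain ⟨b, rfl⟩ : 2 ∣ b := by simp only at h2; omega
    simp only [fdisc] at h1 ⊢
    have h3 : b ^ 2 - a * c = d := by linarith
    obtain ⟨a, ha⟩ : ∃ k, a = 4 * k ∨ a = 4 * k + 1 ∨ a = 4 * k + 2 ∨ a = 4 * k + 3 :=
      ⟨a / 4, by omega⟩
    obtain ⟨c, hc⟩ : ∃ k, c = 4 * k ∨ c = 4 * k + 1 ∨ c = 4 * k + 2 ∨ c = 4 * k + 3 :=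
      ⟨c / 4, by omega⟩
    obtain ⟨k, hk⟩ := Int.even_mul_succ_self (b / 2)
    obtain ⟨b, hb⟩ := Int.even_or_odd' b
    rcases hb with rfl | rfl <;> rcases ha with rfl | rfl | rfl | rfl <;>
      rcases hc with rfl | rfl | rfl | rfl <;> ring_nf at h3 <;>
      simp only [show 2 * b / 2 = b by omega, show (2 * b + 1) / 2 = b by omega] at hk <;>
      ring_nf at hk <;> split_ifs <;> omega
  all_goals rintro ⟨a, b, c⟩
  all_goals simp only [Fam, fdisc, Ev2]
  any_goals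
    refine ⟨fun ⟨⟨h1, h2, h3⟩, _⟩ => ?_, fun ⟨h1, h2, h3⟩ => ⟨⟨by omega, by linarith, by omega⟩,
      by omega⟩⟩
    have h5 : b ^ 2 - 4 * a * c = d := by linarith
    have := odd h5
    exact ⟨by omega, h5, by omega⟩
  all_goals rintro ⟨-, -, h⟩ h'
  · exact ⟨(a / 2, b / 2, c / 2), by simp only [Prod.mk.injEq]; omega⟩
  · exact ⟨(a, b / 2 - a, (a - b + c) / 4), by simp only [Prod.mk.injEq, true_and]; omega⟩
  · exact ⟨(a, b / 2, c / 4), by simp only [Prod.mk.injEq, true_and]; omega⟩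
  · exact ⟨(a / 4, b / 2, c), by simp only [Prod.mk.injEq, and_true]; omega⟩

theorem geo_wHk {d β : ℤ} (h4 : d % 4 = 1) (hβ : 60 ∣ β ^ 2 - d) {κ : ℂ}
    (h : Geo (wG 1 d β) d κ) (hs : ¬ IsSquare d) : Geo (wHk d β) (4 * d) (-4 * κ) := by
  have hβ' : β % 2 = 1 := by
    rcases Int.even_or_odd' β with ⟨k, rfl | rfl⟩
    · rw [show (2 * k) ^ 2 = 4 * k ^ 2 by ring] at hβ
      omega
    · omega
  have hs' : ¬ IsSquare (4 * d) := fun ⟨r, hr⟩ => by
    obtain ⟨k, rfl | rfl⟩ := Int.even_or_odd' r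
    · exact hs ⟨k, by linarith⟩
    · have : 4 * d = 4 * (k ^ 2 + k) + 1 := by linear_combination hr
      omega
  have hw : Wt (wHk d β) (4 * d) := by
    convert wt_ev2 (e := 4 * d) (β := 2 * β) (1 + if d % 8 = 1 then -2 else -4) 1 using 2 with R
    rw [wHk]
    split_ifs <;> rfl
  refine ⟨hw, by have := h.pos; omega, fun R hR => by
    simpa [fval] using fval_ne hs' (hw.disc R hR) (x := 1) (y := 0) (by simp), fun a b c d hd => ?_⟩
  have ha : IsCoprime a 15 := ⟨d, -b * c, by linear_combination hd⟩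
  have h2 := ms_hecke_two a (15 * c)
  rw [thw_wHk h4 hβ' hs' (.inl (by rintro rfl; norm_num [Int.isCoprime_iff_gcd_eq_one] at ha)), per]
  push_cast
  rw [h.cls' ha (dvd_mul_right _ _), h.cls' ha ((dvd_mul_right _ _).mul_left _),
    h.cls' (IsCoprime.mul_left ⟨8, -1, by norm_num⟩ ha) (dvd_mul_right _ _),
    h.cls' (ha.add_mul_left_left c) ((dvd_mul_right _ _).mul_left _),
    show -4 * κ * ms a (15 * c) = κ * ms (2 * a) (15 * c) + κ * ms a (2 * (15 * c)) +
      κ * ms (a + 15 * c) (2 * (15 * c)) - 3 * (κ * ms a (15 * c)) by linear_combination -κ * h2]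
  simp
  ring

end Pool.Agent.Lib.MP_696deb_nt
end
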