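import Pool.Agent.Lib.MP_696deb_nt.ReRank
import Pool.Agent.Lib.MP_696deb_nt.CntS2
import Pool.Agent.Lib.MP_696deb_nt.ThV2
import Pool.Agent.Lib.MP_696deb_nt.NvPar
import Pool.Agent.Lib.MP_696deb_nt.ReSel
import Pool.Agent.Lib.MP_696deb_nt.Assembly
import Pool.Agent.Lib.MP_696deb_nt.Twist

-- part Pool.Agent.Lib.MP_696deb_nt.RePF
section

/-! The class of a twisted family of closed geodesics as a product of two character sums. -/

set_option autoImplicit false

open Finset NumberTheorySymbols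

namespace Pool.Agent.Lib.MP_696deb_nt

namespace Re

open Tern

variable {l B x n n' M : ℕ} {t β : ℤ}

theorem cnt3 (hn : Good n) (h3 : n % 3 = 1) (hM : 0 < M) (h : (n : ℤ) * n' - t ^ 2 = 60 * M) :
    (∑ v ∈ XX G3 n, ∑ w ∈ XX G3 n', if bil G3 v w = t then (1 : ℤ) else 0) =
      4 * (rr n M * epsP n M) := by
  have h1 := count hn hM h
  rw [cnt, cnt, XX_empty_1 h3, XX_empty_2 h3, cnt] at h1
  simp only [empty_product, filter_empty, card_empty] at h1
  rw [card_filter, sum_product] at h1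
  push_cast at h1
  linarith

theorem pos_of_mul_pos_of_pos' {a b : ℤ} (h : 0 < a * b) (ha : 0 ≤ a) : 0 < b := by
  by_contra k
  nlinarith

/-- The weighted count of pairs of vectors with given product. -/
noncomputable def DD (l n n' : ℕ) (t : ℤ) : ℤ :=
  ∑ v ∈ XX G3 n, ∑ w ∈ XX G3 n', if bil G3 v w = t then om l v w else 0

theorem DD_ndvd (hn : Good n) (h3 : n % 3 = 1) (hM : 0 < M) (h : (n : ℤ) * n' - t ^ 2 = 60 * M)
    (ht : ¬ (l : ℤ) ∣ t) : DD l n n' t = J(2 * t | l) * (4 * (rr n M * epsP n M)) := by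
  rw [← cnt3 hn h3 hM h, DD, mul_sum]
  refine sum_congr rfl fun v _ => ?_
  rw [mul_sum]
  refine sum_congr rfl fun w _ => ?_
  split_ifs with k
  · rw [om, k, if_neg ht, mul_one]
  · rw [mul_zero]

theorem DD_dvd (hl : Aux l) (hn : Good (l * B)) (hn' : Squarefree (l * x)) (h3 : l * B % 3 = 1)
    (hJ : J((B * x : ℕ) | l) = -1) (hM : 0 < M) (h : ((B * x : ℕ) : ℤ) - t ^ 2 = 60 * M) :
    DD l (l * B) (l * x) (l * t) = 0 := by
  have := Fact.mk hl.prime
  have l0 : (l : ℤ) ≠ 0 := by exact_mod_cast hl.prime.ne_zero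
  have B0 : (0 : ℤ) < B := by exact_mod_cast Nat.pos_of_ne_zero (right_ne_zero_of_mul hn.sqf.ne_zero)
  set T := (range l).filter fun k : ℕ => (l : ℤ) ∣ B * k ^ 2 - 2 * t * k + x with hT
  have ex : ∀ k ∈ T, ∃ N : ℕ, (l : ℤ) * N = B * k ^ 2 - 2 * t * k + x := fun k hk => by
    obtain ⟨c, hc⟩ := (mem_filter.mp hk).2
    have h1 : 0 < (B : ℤ) * (l * c) := by
      rw [← hc]
      push_cast at h
      nlinarith [sq_nonneg (B * k - t : ℤ)]
    have h2 : 0 < c := pos_of_mul_pos_of_pos' (pos_of_mul_pos_of_pos' h1 B0.le) (Int.natCast_nonneg _)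
    exact ⟨c.toNat, by rw [Int.toNat_of_nonneg h2.le, hc]⟩
  choose! N hN using ex
  have key : ∀ v ∈ XX G3 (l * B), (∑ w ∈ XX G3 (l * x), if bil G3 v w = l * t then om l v w else 0) =
      ∑ k ∈ T, J((k : ℤ) | l) * ∑ u ∈ XX G3 (N k), if bil G3 v u = t - k * B then 1 else 0 := by
    intro v hv
    have hi := iso_of_mem hl hn.sqf hv
    have hv' := mem_XX3.mp hv
    simp only [mul_sum, mul_one, ← sum_filter]
    rw [sum_sigma']
    symm
    refine sum_nbij (fun p => (p.1 : ℤ) • v + (l : ℤ) • p.2) ?_ ?_ ?_ fun p _ => (om_prop hl hi _ _).symm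
    · rintro ⟨k, u⟩ hp
      obtain ⟨h1, h2⟩ := mem_sigma.mp hp
      obtain ⟨h2, h4⟩ := mem_filter.mp h2
      refine mem_filter.mpr ⟨mem_XX3.mpr ?_, ?_⟩
      · rw [norm_lin, hv', h4, mem_XX3.mp h2]
        push_cast
        linear_combination l * hN k h1
      · rw [bil_lin, hv', h4]
        push_cast
        ring
    · rintro ⟨k, u⟩ hp ⟨k', u'⟩ hp' e
      have h1 := mem_range.mp (mem_filter.mp (mem_sigma.mp hp).1).1
      have h2 := mem_range.mp (mem_filter.mp (mem_sigma.mp hp').1).1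
      have h4 := congrArg oo e
      simp only [oo_lin] at h1 h2 h4
      have h5 : (l : ℤ) ∣ (k : ℤ) - k' :=
        ((Nat.prime_iff_prime_int.mp hl.prime).dvd_or_dvd
          (⟨oo u' - oo u, by linear_combination h4⟩ : (l : ℤ) ∣ ((k : ℤ) - k') * oo v)).resolve_right hi.2
      obtain rfl : k = k' := by
        have := Int.eq_zero_of_abs_lt_dvd h5 (abs_lt.mpr ⟨by omega, by omega⟩)
        omega
      obtain rfl : u = u' := smul_right_injective _ l0 (add_left_cancel e)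
      rfl
    · intro w hw
      obtain ⟨h1, h2⟩ := mem_filter.mp hw
      obtain ⟨k, hk, u, rfl⟩ := exists_prop hl hi (iso_of_mem hl hn' h1) (h2 ▸ dvd_mul_right _ _)
      have h4 := mem_XX3.mp h1
      rw [bil_lin, hv'] at h2
      have h5 : bil G3 v u = t - k * B := mul_left_cancel₀ l0 (by
        push_cast at h2; linear_combination h2)
      rw [norm_lin, hv', h5] at h4
      have h6 : (l : ℤ) * bil G3 u u = B * k ^ 2 - 2 * t * k + x := mul_left_cancel₀ l0 (by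
        push_cast at h4; linear_combination h4)
      have h7 : k ∈ T := mem_filter.mpr ⟨hk, _, h6.symm⟩
      exact ⟨⟨k, u⟩, mem_coe.mpr (mem_sigma.mpr ⟨h7, mem_filter.mpr ⟨mem_XX3.mpr
        (mul_left_cancel₀ l0 (h6.trans (hN k h7).symm)), h5⟩⟩), rfl⟩
  rw [DD, sum_congr rfl key, sum_comm, sum_congr rfl (g := fun k : ℕ => J((k : ℤ) | l) *
    (4 * (rr (l * B) M * epsP (l * B) M))) fun k hk => by
      rw [← mul_sum, cnt3 hn h3 hM (by
        push_cast at h ⊢; linear_combination B * hN k hk + h)], ← sum_mul, hT, sum_filter]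
  refine mul_eq_zero_of_left ?_ _
  have h1 := sum_roots (B := (B : ZMod l)) (t := t) (x := x) (by
    rw [jac_eq] at hJ; exact_mod_cast hJ)
  rw [← sum_range_zmod] at h1
  simpa only [jac_eq, ← ZMod.intCast_zmod_eq_zero_iff_dvd, Int.cast_add, Int.cast_sub,
    Int.cast_mul, Int.cast_pow, Int.cast_ofNat, Int.cast_natCast] using h1

theorem sum_Ico0 {V : Type*} [AddCommMonoid V] (n : ℕ) (f : ℤ → V) :
    ∑ k ∈ Ico (0 : ℤ) n, f k = ∑ k ∈ range n, f k := by
  rw [Int.Ico_eq_finset_map]; simp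

theorem cntL_mu (hn : Good (l * B)) {D M : ℤ} (hD : (B : ℤ) ∣ D)
    (hM : 60 * M = t ^ 2 - l ^ 2 * D) (h0 : M ≠ 0) (h : 30 ∣ t - l * β) :
    cntL l (Ico (0 : ℤ) l) (fun k => J(k | l)) (wG B D β) t =
      ∑ p ∈ M.divisorsAntidiag, muW l B t p.1 p.2 * p.1.sign := by
  have h1 := sum_lines (K := ℤ) hn hD hM h0 h fun a _ => a.sign
  rw [cntL, sum_Ico0]
  refine Eq.trans (sum_congr rfl fun k _ => congr_arg _ (finsum_congr fun R => ?_)) h1
  by_cases h3 : wG B D β R = 0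
  · simp [h3]
  obtain ⟨a, ha⟩ := (fam_of_wG h3).1
  simp [ha, Int.sign_mul, show Int.sign 15 = 1 from rfl]

theorem cntL_zero {D : ℤ} (h : ¬ 30 ∣ t - l * β) :
    cntL l (Ico (0 : ℤ) l) (fun k => J(k | l)) (wG B D β) t = 0 :=
  sum_eq_zero fun _ _ => mul_eq_zero_of_right _ (finsum_eq_zero_of_forall_eq_zero fun _ =>
    ite_eq_right_iff.mpr fun h3 => by rw [wG_eq_zero h h3, zero_mul])

theorem muW_dvd (hl : Aux l) {D a e : ℤ} (hJ : J(D | l) = -1)
    (h : 60 * (a * e) = (l * t) ^ 2 - l ^ 2 * D) : muW l B (l * t) a e = 0 := by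
  have l0 : (l : ℤ) ≠ 0 := by exact_mod_cast hl.prime.ne_zero
  rw [muW, hl.prime.primeFactors, prod_singleton, muP, if_pos (dvd_mul_right _ _)]
  refine mul_eq_zero_of_left ?_ _
  split_ifs with k
  swap
  · rfl
  obtain ⟨⟨a, rfl⟩, e, rfl⟩ := k
  simp only [Int.mul_ediv_cancel_left _ l0]
  refine sum_eq_zero fun k _ => if_neg fun ⟨c, hc⟩ => ?_
  have h1 : 60 * (a * e) = t ^ 2 - D := mul_left_cancel₀ (pow_ne_zero 2 l0) (by linear_combination h)
  rw [jacobiSym.mod_left' (a₂ := (30 * a * k - t) ^ 2) (Int.modEq_iff_dvd.mpr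
    ⟨60 * a * c, by linear_combination 60 * a * hc - h1⟩), jacobiSym.pow_left] at hJ
  have := sq_nonneg J(30 * a * k - t | l)
  omega

theorem sum_mu (hl : Aux l) (hn : Good (l * B)) (h15 : J(-15 | l) = 1) {D : ℤ}
    (hM : 60 * -(M : ℤ) = t ^ 2 - l ^ 2 * D) (ht : ¬ (l : ℤ) ∣ t) :
    ∑ p ∈ (-(M : ℤ)).divisorsAntidiag, muW l B t p.1 p.2 * p.1.sign =
      -2 * J(15 | B) * J(2 * t | l) * (rr (l * B) M * epsP (l * B) M) := by
  have hm : l ∈ (l * B).primeFactors :=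
    Nat.mem_primeFactors.mpr ⟨hl.prime, dvd_mul_right _ _, hn.sqf.ne_zero⟩
  have hg : gA l t = 1 := by
    rw [gA, hl.prime.primeFactors, filter_singleton, if_neg ht, prod_empty]
  have hq : ∀ p ∈ (l * B).primeFactors, p ∣ l ↔ p = l := fun p hp =>
    Nat.prime_dvd_prime_iff_eq (Nat.prime_of_mem_primeFactors hp) hl.prime
  have ha : ∏ p ∈ (l * B).primeFactors, alP (l * B) l t (-M) p = -J(2 * t | l) := by
    rw [prod_eq_single_of_mem (f := fun p => alP (l * B) l t (-M) p) l hm fun p hp h =>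
      if_neg (mt (hq p hp).mp h), alP, if_pos dvd_rfl, if_neg ht, neg_mul, hl.jac_neg]
  have hG : ∀ p ∈ (l * B).primeFactors, GG l t (-M) p ↔ p ∣ M := fun p hp => by
    rw [GG]
    split_ifs with h
    · obtain rfl := (hq p hp).mp h
      refine iff_of_false (fun k => ht k.1) fun ⟨c, hc⟩ => ht ?_
      exact (Nat.prime_iff_prime_int.mp hl.prime).dvd_of_dvd_pow (n := 2)
        ⟨p * D - 60 * c, by rw [hc] at hM; push_cast at hM; linear_combination -hM⟩
    · rw [dvd_neg, Int.natCast_dvd_natCast]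
  have e : ∀ a e : ℤ, a * e = -M → muW l B t a e = -J(15 | B) * J(2 * t | l) *
      ∏ p ∈ (l * B).primeFactors, (J(a | p) + if p ∣ M then J(15 | p) * J(e | p) else 0) := by
    intro a e h
    have := muW_expand hn t a e
    simp only [hg, Nat.cast_one, one_mul, one_pow, h, ha, h15] at this
    rw [this, prod_congr rfl fun p hp => by rw [if_congr (hG p hp) rfl rfl]]
    ring
  have hm1 : J(-1 | l * B) = -1 := by
    rw [jac_m1 (Nat.odd_iff.mpr (by have := hn.mod4; omega)), if_neg (by have := hn.mod4; omega)]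
  rw [Int.divisorsAntidiag_neg_natCast, sum_disjUnion, Finset.sum_map, Finset.sum_map,
    ← sum_add_distrib,
    sum_congr rfl (g := fun p : ℕ × ℕ => -2 * J(15 | B) * J(2 * t | l) *
      ∏ q ∈ (l * B).primeFactors, (J((p.1 : ℤ) | q) +
        if q ∣ M then J(-15 | q) * J((p.2 : ℤ) | q) else 0)) fun p hp => ?_, ← mul_sum,
    sum_twist hn, epsP, prod_filter]
  · congr 2
    exact prod_congr rfl fun p _ => by split_ifs <;> simp
  have h0 : (0 : ℤ) < p.1 := mod_cast Nat.pos_of_mem_divisors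
    (Nat.fst_mem_divisors_of_mem_antidiagonal hp)
  have h1 : (p.1 : ℤ) * p.2 = M := by exact_mod_cast (Nat.mem_divisorsAntidiagonal.mp hp).1
  change muW l B t p.1 (-p.2) * Int.sign p.1 + muW l B t (-p.1) p.2 * Int.sign (-p.1) = _
  have h2 : ∏ q ∈ (l * B).primeFactors, (J(-(p.1 : ℤ) | q) +
      if q ∣ M then J(15 | q) * J((p.2 : ℤ) | q) else 0) = -∏ q ∈ (l * B).primeFactors,
        (J((p.1 : ℤ) | q) + if q ∣ M then J(-15 | q) * J((p.2 : ℤ) | q) else 0) := by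
    rw [← neg_one_mul (∏ _ ∈ _, _), ← hm1, jac_eq_prod _ hn.sqf, ← prod_mul_distrib]
    refine prod_congr rfl fun q _ => ?_
    rw [mul_add, mul_ite, mul_zero, ← mul_assoc, ← jacobiSym.mul_left (-1),
      ← jacobiSym.mul_left (-1)]
    norm_num
  rw [e _ _ (by linear_combination -h1), e _ _ (by linear_combination -h1), h2, Int.sign_neg,
    Int.sign_eq_one_of_pos h0, prod_congr rfl fun q _ => by
      rw [← jacobiSym.mul_left 15, show 15 * -(p.2 : ℤ) = -15 * p.2 by ring, jacobiSym.mul_left]]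
  ring

/-- The data of the product formula. -/
structure Dat (l B x : ℕ) (β : ℤ) : Prop where
  aux : Aux l
  g1 : Good (l * B)
  g2 : Good (l * x)
  j : J(-15 | l) = 1
  m : l * B % 15 = 1 ∨ l * B % 15 = 4
  n : J((B * x : ℕ) | l) = -1
  b : 60 ∣ β ^ 2 - (B * x : ℕ)

theorem match_t (H : Dat l B x β) (ht : t ^ 2 < l ^ 2 * (B * x : ℕ)) :
    2 * cntL l (Ico (0 : ℤ) l) (fun k => J(k | l)) (wG B (B * x : ℕ) β) t =
      if 30 ∣ t - l * β then -J(15 | B) * DD l (l * B) (l * x) t else 0 := by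
  split_ifs with h
  swap
  · rw [cntL_zero h, mul_zero]
  have h3 : l * B % 3 = 1 := by have := H.m; omega
  obtain ⟨M, hM⟩ : ∃ M : ℕ, 60 * (M : ℤ) = l ^ 2 * (B * x : ℕ) - t ^ 2 := by
    obtain ⟨a, ha⟩ := h
    obtain ⟨b, hb⟩ := H.b
    have e : 60 * (-(l ^ 2 * b) - l * β * a - 15 * a ^ 2) = l ^ 2 * (B * x : ℕ) - t ^ 2 := by
      linear_combination (l : ℤ) ^ 2 * hb + (t + l * β + 30 * a) * ha
    exact ⟨(-(l ^ 2 * b) - l * β * a - 15 * a ^ 2).toNat, by rw [Int.toNat_of_nonneg (by omega), e]⟩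
  have M0 : 0 < M := by omega
  have hM' : 60 * -(M : ℤ) = t ^ 2 - l ^ 2 * (B * x : ℕ) := by linear_combination -hM
  rw [cntL_mu H.g1 (by push_cast; exact dvd_mul_right _ _) hM' (by omega) h]
  by_cases hl : (l : ℤ) ∣ t
  · obtain ⟨t, rfl⟩ := hl
    have l0 : (0 : ℤ) < l ^ 2 := by have := H.aux.prime.pos; positivity
    have h1 : (60 : ℤ) ∣ (B * x : ℕ) - t ^ 2 := by
      refine IsCoprime.dvd_of_dvd_mul_left (y := (l : ℤ) ^ 2) ?_ ⟨M, by linear_combination -hM⟩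
      exact ((IsCoprime.pow (m := 2) (n := 2) (Nat.isCoprime_iff_coprime.mpr
        H.aux.cop)).of_isCoprime_of_dvd_right (by norm_num)).symm
    obtain ⟨c, hc⟩ := h1
    have h2 : 0 < c := by
      have : 0 < (l : ℤ) ^ 2 * c := by nlinarith
      exact pos_of_mul_pos_of_pos' this l0.le
    rw [DD_dvd H.aux H.g1 H.g2.sqf h3 H.n (M := c.toNat) (by omega)
      (by rw [Int.toNat_of_nonneg h2.le, hc]), sum_eq_zero fun p hp => by
        rw [muW_dvd H.aux H.n (by rw [(Int.mem_divisorsAntidiag.mp hp).1, hM']), zero_mul]]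
    ring
  · rw [sum_mu H.aux H.g1 H.j hM' hl, DD_ndvd H.g1 h3 M0 (by push_cast at hM ⊢; linear_combination -hM) hl]
    ring

theorem Dat.nsq (H : Dat l B x β) : ¬ IsSquare ((B * x : ℕ) : ℤ) := fun ⟨r, hr⟩ => by
  have := H.n
  rw [hr, jacobiSym.mul_left] at this
  nlinarith [mul_self_nonneg J(r | l)]

theorem bil_lt (H : Dat l B x β) {v w : V3} (hv : v ∈ XX G3 (l * B)) (hw : w ∈ XX G3 (l * x)) :
    bil G3 v w ^ 2 < l ^ 2 * (B * x : ℕ) := by
  rw [mem_XX3] at hv hw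
  have e : bil G3 v v * bil G3 w w - bil G3 v w ^ 2 = 225 * (v 0 * w 1 - v 1 * w 0) ^ 2 +
      15 * (v 0 * oo w - oo v * w 0) ^ 2 + 15 * (v 1 * oo w - oo v * w 1) ^ 2 := by
    simp only [bil3]; ring
  rw [hv, hw] at e
  refine lt_of_le_of_ne ?_ fun h => H.nsq ?_
  · push_cast at e ⊢
    nlinarith [sq_nonneg (v 0 * w 1 - v 1 * w 0), sq_nonneg (v 0 * oo w - oo v * w 0),
      sq_nonneg (v 1 * oo w - oo v * w 1)]
  have l0 : (l : ℚ) ≠ 0 := by exact_mod_cast H.aux.prime.ne_zero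
  refine Rat.isSquare_intCast_iff.mp ⟨bil G3 v w / l, ?_⟩
  field_simp
  exact_mod_cast (mul_comm _ _).trans h.symm

theorem odd_zero (h4 : n % 4 = 3) {v : V3} (hv : v ∈ XX G3 n) : v 0 % 2 = 1 := by
  rw [mem_XX3, bil_G3] at hv
  by_contra h
  obtain ⟨k, hk⟩ : 2 ∣ v 0 := by omega
  have : (n : ℤ) = 2 * (30 * k * k + 8 * v 1 * v 1 + 2 * v 1 * v 2 + 2 * v 2 * v 2) := by
    rw [← hv, hk]; ring
  omega

/-- The product formula. -/
theorem product {aa : ℕ → ℤ} (ha : 4 * perA l = aa l * (wm * Complex.I)) (H : Dat l B x β)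
    {y : V3} (hy : Iso l y) {ρ σ : ℤ} (hρ : 15 ∣ ρ ^ 2 - (l * B : ℕ)) (hσ : 15 ∣ ρ * σ - l * β) :
    th (wG B (B * x : ℕ) β) * aa l = 8 * J(15 | B) * (QQ l y (l * B) ρ * QQ l y (l * x) σ +
      QQ l y (l * B) (4 * ρ) * QQ l y (l * x) (4 * σ)) := by
  have l4 := H.aux.mod4
  have B4 : B % 4 = 1 := by
    have h := H.g1.mod4
    rw [Nat.mul_mod, l4] at h
    omega
  have x4 : x % 4 = 1 := by
    have h := H.g2.mod4
    rw [Nat.mul_mod, l4] at h
    omega
  have hB : Odd B := Nat.odd_iff.mpr (by omega)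
  have d0 : (0 : ℤ) < (B * x : ℕ) := by
    exact_mod_cast Nat.mul_pos (by omega) (by omega)
  have hd : (B : ℤ) ∣ (B * x : ℕ) := by push_cast; exact dvd_mul_right _ _
  obtain ⟨κ, hκ⟩ := geo_wG hB hd d0 H.nsq β
  have h1 := geo_shape H.g1.sqf.of_mul_right hB hd hκ
  rw [if_pos B4] at h1
  have l0 : (0 : ℤ) < l := by omega
  have h2 := geo_cross hκ l0 (Nat.isCoprime_iff_coprime.mpr
    (H.aux.cop.coprime_dvd_right (by norm_num : 15 ∣ 30))) (S := Ico (0 : ℤ) l)
    (χ := fun k => J(k | l)) (by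
      rw [sum_Ico0, sum_jac_eq_zero H.aux.prime.squarefree (Nat.odd_iff.mpr (by omega)) (by omega)])
    fun k _ R hR => fval_ne H.nsq (hκ.disc R hR) (.inr l0.ne')
  set e : ℤ := (l : ℤ) ^ 2 * (B * x : ℕ) with he
  set T := (Icc (-e) e).filter fun t => t ^ 2 < e with hT
  have hTm : ∀ t, t ∈ T ↔ t ^ 2 < e := fun t => by
    rw [hT, mem_filter, mem_Icc, and_iff_right_iff_imp, ← abs_le]
    intro h
    have := Int.le_self_sq |t|
    rw [sq_abs] at this
    linarith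
  rw [finsum_eq_sum_of_support_subset (s := T) _ fun t ht => mem_coe.mpr ((hTm t).mpr
    (by_contra fun k => ht (if_neg k))), sum_congr rfl fun t ht => if_pos ((hTm t).mp ht),
    sum_Ico0, ← Int.cast_sum] at h2
  have h3 : κ * ∑ k ∈ range l, (J((k : ℤ) | l) : ℂ) * ms k l =
      ((-(th (wG B (B * x : ℕ) β) * aa l : ℤ) / 8 : ℝ) : ℂ) := by
    have h5 : (wm : ℂ) ≠ 0 := by exact_mod_cast wm_ne
    rw [← perA, h1, show perA l = aa l * (wm * Complex.I) / 4 by linear_combination ha / 4, th]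
    push_cast
    field_simp
    linear_combination (8 : ℂ) * thw (wG B (B * x) β) 4 15 * aa l * Complex.I_sq
  rw [h3, Complex.ofReal_re] at h2
  have h4 : th (wG B (B * x : ℕ) β) * aa l = -4 * (2 * ∑ t ∈ T,
      cntL l (Ico (0 : ℤ) l) (fun k => J(k | l)) (wG B (B * x : ℕ) β) t) := by
    have : ((th (wG B (B * x : ℕ) β) * aa l : ℤ) : ℝ) = -4 * (2 * (∑ t ∈ T,
      cntL l (Ico (0 : ℤ) l) (fun k => J(k | l)) (wG B (B * x : ℕ) β) t : ℤ)) := by linarith
    exact_mod_cast this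
  have h5 := sum_pairs H.aux (y := y) (σ := σ) (n' := l * x) H.m hρ
  rw [h4, mul_sum _ _ 2, sum_congr rfl fun t ht => match_t H ((hTm t).mp ht), mul_assoc 8,
    show (8 : ℤ) = 4 * 2 by norm_num, mul_assoc 4, mul_left_comm 2, ← h5]
  simp only [DD, mul_sum, ← sum_filter]
  rw [sum_comm]
  refine sum_congr rfl fun v hv => ?_
  have β2 : β % 2 = 1 := by
    by_contra k
    obtain ⟨b, rfl⟩ : 2 ∣ β := by omega
    have h6 := H.b
    have h7 := Nat.mul_mod B x 4
    rw [B4, x4] at h7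
    rw [show (2 * b) ^ 2 = 4 * (b * b) by ring] at h6
    omega
  simp only [sum_filter]
  have k : ∀ t, (if 30 ∣ t - l * β then ∑ w ∈ XX G3 (l * x),
      if bil G3 v w = t then -4 * (-J(15 | B) * om l v w) else 0 else 0) = ∑ w ∈ XX G3 (l * x),
      if bil G3 v w = t then (if 30 ∣ t - l * β then -4 * (-J(15 | B) * om l v w) else 0) else 0 :=
    fun t => by split_ifs <;> simp
  rw [sum_congr rfl fun t _ => k t, sum_comm]
  refine sum_congr rfl fun w hw => ?_
  rw [sum_ite_eq, if_pos ((hTm _).mpr (bil_lt H hv hw)),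
    om_cocycle H.aux hy (iso_of_mem H.aux H.g1.sqf hv) (iso_of_mem H.aux H.g2.sqf hw)]
  refine ite_congr (propext ?_) (fun _ => by ring) fun _ => rfl
  have o1 := odd_zero H.g1.mod4 hv
  have o2 := odd_zero H.g2.mod4 hw
  have o3 : v 0 * w 0 % 2 = 1 := by rw [Int.mul_emod, o1, o2]; rfl
  have o4 : l * β % 2 = 1 := by rw [Int.mul_emod, β2, show (l : ℤ) % 2 = 1 by omega]; rfl
  have o5 : bil G3 v w = 15 * (v 0 * w 0) + 2 * (8 * v 1 * w 1 + (v 1 * w 2 + v 2 * w 1) +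
      2 * v 2 * w 2) := by rw [bil_G3]; ring
  have o6 : bil G3 v w = 15 * (v 0 * w 0 + v 1 * w 1) + oo v * oo w := by rw [bil3]; ring
  omega

end Re

end Pool.Agent.Lib.MP_696deb_nt
end

-- part Pool.Agent.Lib.MP_696deb_nt.ReNV
section

/-! Non-vanishing of the twisted periods of positive discriminant. -/

set_option autoImplicit false

open Finset NumberTheorySymbols

namespace Pool.Agent.Lib.MP_696deb_nt

namespace Re

theorem th_zero {A : ℕ} (hA : Squarefree A) (hc : A.Coprime 30) {e : ℤ} (he : (A : ℤ) ∣ e)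
    (hs : ¬ IsSquare e) (β : ℤ) (h : A % 4 = 3 ∨ J(15 | A) = -1) : th (wG A e β) = 0 := by
  have ho : Odd A := (hc.coprime_dvd_right (by norm_num : 2 ∣ 30)).odd_of_right
  have hw := wt_wG ho he β
  have hv : ∀ x y : ℤ, x ≠ 0 ∨ y ≠ 0 → ∀ R, wG A e β R ≠ 0 → fval R x y ≠ 0 := fun x y hxy R hR =>
    fval_ne hs (hw.disc R hR) hxy
  have hne : ∀ R, wG A e β R ≠ 0 → R.1 ≠ 0 := by simpa [fval] using hv 1 0 (by simp)
  rcases h with h | h
  · have h1 := thw_add (a := 4) (b := 1) (c := 1) (d := 4) hw hne (by norm_num) (hv 4 (-15) (by simp))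
    have h2 : thw (wG A e β) 4 15 = thw (wG A e β) 4 (-15) := by
      rw [thw, thw, ← finsum_comp_equiv ((Equiv.neg ℤ).prodCongr ((Equiv.refl ℤ).prodCongr (Equiv.neg ℤ)))]
      refine finsum_congr fun ⟨a, b, c⟩ => ?_
      have h3 : wG A e β (-a, b, -c) = -wG A e β (a, b, c) := by
        have : gch A (-a, b, -c) = J(-1 | A) * gch A (a, b, c) := by
          rw [gch, gch, jac_eq_prod _ hA, ← prod_mul_distrib]
          refine prod_congr rfl fun p _ => ?_
          simp only [dvd_neg]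
          split_ifs <;> rw [← jacobiSym.mul_left, neg_one_mul]
        rw [wG, wG, this, jac_m1 ho, if_neg (by omega : ¬ A % 4 = 1), neg_one_mul, apply_ite Neg.neg,
          neg_zero]
        exact if_congr (by simp [Fam, fdisc]) rfl rfl
      change wG A e β (-a, b, -c) * ((-a).sign - (fval (-a, b, -c) 4 15).sign) = _
      rw [h3, show fval (-a, b, -c) 4 15 = -fval (a, b, c) 4 (-15) by simp only [fval]; ring,
        Int.sign_neg, Int.sign_neg]
      ring
    norm_num [thw_unit] at h1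
    rw [th]
    omega
  have h1 := thw_add (a := 4) (b := 1) (c := 1) (d := 4) hw hne (by norm_num) (hv 0 1 (by simp))
  have h2 : thw (wG A e β) 4 15 = thw (wG A e β) 0 1 - thw (wG A e β) 1 4 := by
    have i : Function.Involutive fun R : Fm => if 15 ∣ R.1 then cj (fV R) else R := by
      rintro ⟨a, b, c⟩
      by_cases k : 15 ∣ a
      · obtain ⟨a, rfl⟩ := k
        simp [cj, fV]
      · simp [k]
    rw [thw, thw, thw, ← finsum_comp_equiv i.toPerm, ← finsum_sub_distrib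
      (thw_finite hw hne (hv 0 1 (by simp))) (thw_finite hw hne (hv 1 4 (by simp)))]
    refine finsum_congr fun ⟨a, b, c⟩ => ?_
    by_cases k : 15 ∣ a
    swap
    · simp [k, wG, Fam]
    obtain ⟨a, rfl⟩ := k
    have h3 : wG A e β (15 * c, b, a) = -wG A e β (15 * a, b, c) := by
      have h4 : Fam e β (15 * c, b, a) ↔ Fam e β (15 * a, b, c) := by
        simp only [Fam, fdisc, dvd_mul_right, true_and]
        rw [show 4 * (15 * c) * a = 4 * (15 * a) * c by ring]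
      unfold wG
      split_ifs with h5 h6 h6
      · have := gch_fV hA ho (hc.coprime_dvd_right (by norm_num)) (h6.2.1 ▸ he) h6.1
        simpa [fV, gch, h] using this
      · exact absurd (h4.mp h5) h6
      · exact absurd (h4.mpr h6) h5
      · rfl
    simp only [Function.Involutive.coe_toPerm, dvd_mul_right, if_true, cj, fV, neg_neg,
      Int.mul_ediv_cancel_left _ (show (15 : ℤ) ≠ 0 by norm_num), h3]
    rw [show fval (15 * c, b, a) 4 15 = 15 * fval (15 * a, b, c) 1 4 by simp only [fval]; ring,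
      show fval (15 * a, b, c) 0 1 = c by simp [fval], Int.sign_mul, Int.sign_mul 15 (fval _ _ _),
      show Int.sign 15 = 1 from rfl]
    ring
  norm_num at h1
  rw [th]
  omega

variable {d l B x : ℕ} {β : ℤ}

theorem cop30' (h : d % 60 = 1 ∨ d % 60 = 49 ∨ d % 60 = 19 ∨ d % 60 = 23) : d.Coprime 30 := by
  rw [Nat.Coprime, Nat.gcd_comm, Nat.gcd_rec, ← Nat.mod_mod_of_dvd d (show 30 ∣ 60 by norm_num)]
  rcases h with h | h | h | h <;> rw [h] <;> rfl

/-- An auxiliary prime that is inert in the real quadratic field. -/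
theorem exists_inert (hd : Squarefree d) (h60 : d % 60 = 1 ∨ d % 60 = 49) (h1 : 1 < d) {a : ℕ}
    (ha : a = 19 ∨ a = 23) : ∃ l : ℕ, l.Prime ∧ l % 60 = a ∧ d < l ∧ J((d : ℤ) | l) = -1 := by
  have ho : Odd d := Nat.odd_iff.mpr (by omega)
  obtain ⟨k, hk⟩ : ∃ k : ℕ, J((k : ℤ) | d) = -1 := by
    by_contra! h
    have h2 := sum_jac_eq_zero hd ho h1
    rw [sum_eq_zero_iff_of_nonneg fun k _ => by
      have := h k
      have := jacobiSym.trichotomy (k : ℤ) d
      omega] at h2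
    simpa using h2 1 (mem_range.mpr h1)
  have hc : d.Coprime 60 := ((cop30' (by omega)).pow_right 2).coprime_dvd_right (by norm_num)
  obtain ⟨m, m1, m2⟩ := Nat.chineseRemainder hc k a
  have h3 : ∀ l : ℕ, l ≡ m [MOD d * 60] → J((l : ℤ) | d) = -1 := fun l hl =>
    hk ▸ jacobiSym.mod_left' (Int.natCast_modEq_iff.mpr ((hl.of_mul_right _).trans m1))
  obtain ⟨l, h5, h6, h7⟩ := Nat.forall_exists_prime_gt_and_modEq d (q := d * 60) (a := m)
    (by omega) (Nat.Coprime.mul_right (by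
      by_contra h
      have := (jacobiSym.eq_zero_iff (a := m) (b := d)).mpr ⟨by omega, h⟩
      rw [h3 m rfl] at this
      omega) (by rw [Nat.Coprime, m2.gcd_eq]; rcases ha with rfl | rfl <;> rfl))
  have h8 : l % 60 = a % 60 := (h7.of_mul_left _).trans m2
  refine ⟨l, h6, by omega, h5, ?_⟩
  rw [jacobiSym.quadratic_reciprocity_one_mod_four (by omega) (Nat.odd_iff.mpr (by omega)), h3 l h7]

theorem exists_iso (hl : Aux l) : ∃ y, Iso l y := by
  have := Fact.mk hl.prime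
  obtain ⟨a, b, h⟩ := ZMod.sq_add_sq l (-15)
  obtain ⟨a, rfl⟩ := ZMod.intCast_surjective a
  obtain ⟨b, rfl⟩ := ZMod.intCast_surjective b
  have l4 := hl.mod4
  obtain ⟨c, hc⟩ : ∃ c, b + l * (b + 1) + 2 * c = 15 := by
    obtain ⟨k, hk⟩ : ∃ k : ℤ, l = 2 * k + 1 := ⟨l / 2, by omega⟩
    exact ⟨7 - b - k * (b + 1), by rw [hk]; ring⟩
  have e : oo ![a, b + l * (b + 1), c] = 15 := hc
  refine ⟨![a, b + l * (b + 1), c], ?_, ?_⟩ <;> rw [← ZMod.intCast_zmod_eq_zero_iff_dvd]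
  · rw [bil3, e]
    simp only [Matrix.cons_val_zero, Matrix.cons_val_one]
    push_cast
    rw [ZMod.natCast_self]
    linear_combination 15 * h
  · rw [e]
    exact_mod_cast hl.field.2.2

theorem exists_dat {aa bb : ℕ → ℤ} (H : SymData aa bb) (hd : Squarefree (B * x))
    (h60 : B * x % 60 = 1 ∨ B * x % 60 = 49) (h1 : 1 < B * x) (B4 : B % 4 = 1)
    (hJ : J(-15 | B) = 1) (hβ : 60 ∣ β ^ 2 - (B * x : ℕ)) :
    ∃ (l : ℕ) (ρ σ : ℤ), Dat l B x β ∧ Dat l x B β ∧ Good l ∧ aa l ≠ 0 ∧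
      15 ∣ ρ ^ 2 - (l * B : ℕ) ∧ 15 ∣ σ ^ 2 - (l * x : ℕ) ∧ 15 ∣ ρ * σ - l * β := by
  have hc := cop30' (d := B * x) (by omega)
  have c15 : ∀ {n : ℕ}, n.Coprime 30 → n.Coprime 15 := fun h => h.coprime_dvd_right (by norm_num)
  have hB := (GInd.jac15_iff (by omega) (c15 hc.coprime_mul_right)).mp hJ
  have x4 : x % 4 = 1 := by
    have := Nat.mul_mod B x 4
    rw [B4] at this
    omega
  obtain ⟨l, hl, l60, ld, lJ⟩ := exists_inert hd h60 h1 (a := if B % 3 = 1 then 19 else 23)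
    (by split_ifs <;> simp)
  have l60' : l % 60 = 19 ∧ B % 3 = 1 ∨ l % 60 = 23 ∧ B % 3 = 2 := by split_ifs at l60 <;> omega
  have lc := cop30' (d := l) (by omega)
  have aux : Aux l := ⟨hl, by omega, lc⟩
  have good : ∀ n, n ∣ B * x → n % 4 = 1 → Good (l * n) := fun n hn h4 =>
    ⟨(Nat.squarefree_mul (Nat.coprime_of_lt_prime (by omega)
      ((Nat.le_of_dvd (by omega) hn).trans_lt ld) hl)).mpr ⟨hl.squarefree, hd.squarefree_of_dvd hn⟩,
      by rw [Nat.mul_mod, aux.mod4, h4], c15 (lc.mul_left (hc.coprime_dvd_left hn))⟩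
  have lJ' : J(-15 | l) = 1 := (GInd.jac15_iff (by omega) (c15 lc)).mpr (by omega)
  have m1 : l * B % 15 = 1 ∨ l * B % 15 = 4 := by
    have : l % 15 = 4 ∧ (B % 15 = 1 ∨ B % 15 = 4) ∨ l % 15 = 8 ∧ (B % 15 = 2 ∨ B % 15 = 8) := by omega
    rw [Nat.mul_mod]
    rcases this with ⟨a, b | b⟩ | ⟨a, b | b⟩ <;> simp [a, b]
  have m2 : l * x % 15 = 1 ∨ l * x % 15 = 4 := by
    have h2 : l * B * (l * x) % 15 = 1 ∨ l * B * (l * x) % 15 = 4 := by
      have a1 : l % 15 = 4 ∨ l % 15 = 8 := by omega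
      have a2 : B * x % 15 = 1 ∨ B * x % 15 = 4 := by omega
      rw [show l * B * (l * x) = l * l * (B * x) by ring, Nat.mul_mod, Nat.mul_mod l]
      rcases a1 with a | a <;> rcases a2 with b | b <;> simp [a, b]
    rw [Nat.mul_mod] at h2
    rcases m1 with a | a <;> rw [a] at h2 <;> omega
  have gl : Good l := by simpa using good 1 (one_dvd _) rfl
  have hβ' : (15 : ℤ) ∣ β ^ 2 - B * x := by exact_mod_cast Dvd.dvd.trans (by norm_num) hβ
  obtain ⟨b, hb⟩ := hβ'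
  obtain ⟨ρ, σ, e⟩ : ∃ ρ σ : ℤ, 15 ∣ ρ ^ 2 - (l * B : ℕ) ∧ 15 ∣ σ ^ 2 - (l * x : ℕ) ∧
      15 ∣ ρ * σ - l * β := by
    rcases m1 with a | a
    · obtain ⟨c, hc⟩ : (15 : ℤ) ∣ (l * B : ℕ) - 1 := by omega
      push_cast at hc ⊢
      exact ⟨1, l * β, ⟨-c, by linear_combination -hc⟩,
        ⟨l ^ 2 * b + l * x * c, by linear_combination (l : ℤ) ^ 2 * hb + l * x * hc⟩, by simp⟩
    · obtain ⟨c, hc⟩ : (15 : ℤ) ∣ (l * B : ℕ) - 4 := by omega
      push_cast at hc ⊢
      exact ⟨2, 8 * l * β, ⟨-c, by linear_combination -hc⟩,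
        ⟨64 * l ^ 2 * b + 64 * l * x * c + 17 * l * x,
          by linear_combination 64 * (l : ℤ) ^ 2 * hb + 64 * l * x * hc⟩, ⟨l * β, by ring⟩⟩
  refine ⟨l, ρ, σ, ⟨aux, good B (dvd_mul_right _ _) B4, good x (dvd_mul_left _ _) x4, lJ', m1, lJ, hβ⟩,
    ⟨aux, good x (dvd_mul_left _ _) x4, good B (dvd_mul_right _ _) B4, lJ', m2, mul_comm B x ▸ lJ,
      mul_comm B x ▸ hβ⟩, gl, ?_, e⟩
  rcases l60' with a | a
  · obtain ⟨s, P, hs, hP, e⟩ := GVal.aa_one H gl lJ' (by omega)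
    have : P ≠ 0 := by rintro rfl; simpa using hP hl
    rw [e]
    rcases hs with rfl | rfl <;> simpa
  · obtain ⟨s, P, hs, hP, e⟩ := GVal.aa_two H gl lJ' (by omega)
    have : P ≠ 0 := by rintro rfl; simpa using hP (GInd.condB_prime hl)
    rw [e]
    rcases hs with rfl | rfl <;> simpa

section sym

variable {aa bb : ℕ → ℤ} (H : SymData aa bb)
  (ha : ∀ n, Good n → 4 * perA n = aa n * (wm * Complex.I))
include H ha

/-- The square of the class of a twisted family is a product of two symbols. -/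
theorem th_sq (hd : Squarefree (B * x)) (h60 : B * x % 60 = 1 ∨ B * x % 60 = 49) (hB : 1 < B)
    (hx : 1 < x) (B4 : B % 4 = 1) (hJ : J(-15 | B) = 1) (hβ : 60 ∣ β ^ 2 - (B * x : ℕ)) :
    th (wG B (B * x : ℕ) β) ^ 2 = 4 * |bb B * bb x| := by
  obtain ⟨l, ρ, σ, D1, D2, gl, h0, e1, e2, e3⟩ := exists_dat H hd h60 (by nlinarith) B4 hJ hβ
  obtain ⟨y, hy⟩ := exists_iso D1.aux
  have h1 := product (ha l gl) D1 hy e1 e3
  obtain ⟨a1, a2⟩ := QQ_sq H D1.aux D1.g1 D1.m hB hy e1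
  obtain ⟨b1, b2⟩ := QQ_sq H D1.aux D2.g1 D2.m hx hy e2
  have s5 : J(5 | l) ^ 2 = 1 := jacobiSym.sq_one
    (D1.aux.cop.coprime_dvd_right (by norm_num : 5 ∣ 30)).symm
  have s15 : J(15 | B) ^ 2 = 1 := jacobiSym.sq_one D1.g1.cop.coprime_mul_left.symm
  rw [a1, b1] at h1
  refine mul_right_cancel₀ (pow_ne_zero 2 h0) ?_
  have h2 : |bb B * bb x| * aa l ^ 2 = |aa l * bb B| * |aa l * bb x| := by
    rw [← sq_abs (aa l), abs_mul, abs_mul, abs_mul]; ring
  rw [← mul_pow, h1, mul_assoc 4, h2, a2, b2]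
  generalize QQ l y (l * B) ρ = P
  generalize QQ l y (l * x) σ = Q
  rcases sq_eq_one_iff.mp s5 with e | e <;> rcases sq_eq_one_iff.mp s15 with e' | e' <;>
    rw [e, e'] <;> ring

theorem th_one (hd : Squarefree d) (h60 : d % 60 = 1 ∨ d % 60 = 49) (h1 : 1 < d)
    (hβ : 60 ∣ β ^ 2 - d) (h0 : bb d = 0) : th (wG 1 d β) = 0 ∧ th (wG d d β) = 0 := by
  obtain ⟨l, ρ, σ, D1, D2, gl, h2, e1, e2, e3⟩ := exists_dat H (B := 1) (x := d) (β := β)
    (by simpa) (by simpa) (by simpa) rfl (by simp) (by simpa)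
  obtain ⟨y, hy⟩ := exists_iso D1.aux
  have h3 := product (ha l gl) D1 hy e1 e3
  have h4 := product (ha l gl) D2 hy e2 (mul_comm ρ σ ▸ e3)
  obtain ⟨b1, b2⟩ := QQ_sq H D1.aux D2.g1 D2.m h1 hy e2
  have h5 : QQ l y (l * d) σ = 0 := by simpa [h0] using b2.symm
  rw [b1, h5] at h3 h4
  constructor
  · simpa [h2] using h3
  · simpa [h2] using h4

theorem bb_ne (hd : Squarefree d) (h60 : d % 60 = 1 ∨ d % 60 = 49) (h1 : 1 < d)
    (hamb : Odd (ambN d)) : bb d ≠ 0 := fun h0 => by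
  have h30 := cop30' (d := d) (by omega)
  obtain ⟨β, hβ⟩ : ∃ β : ℤ, 60 ∣ β ^ 2 - d := by
    rcases h60 with k | k
    exacts [⟨1, by omega⟩, ⟨7, by omega⟩]
  have hsq : ¬ IsSquare (d : ℤ) := fun k => by
    obtain ⟨r, rfl⟩ := Int.isSquare_natCast_iff.mp k
    simp [Nat.isUnit_iff.mp (hd r dvd_rfl)] at h1
  have c15 : ∀ {n : ℕ}, n.Coprime 30 → n.Coprime 15 := fun h => h.coprime_dvd_right (by norm_num)
  obtain ⟨z1, z2⟩ := th_one H ha hd h60 h1 hβ h0
  have key : ∀ A A' : ℕ, A * A' = d → (2 : ℤ) ^ (#d.primeFactors + 1) ∣ th (wG A d β) ∧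
      th (wG A d β) ^ 2 = th (wG A' d β) ^ 2 := by
    rintro A A' rfl
    have cA := h30.coprime_mul_right
    have cA' := h30.coprime_mul_left
    have ho : Odd (A * A') := Nat.odd_iff.mpr (by omega)
    obtain ⟨oA, oA'⟩ := Nat.odd_mul.mp ho
    have zA := th_zero hd.of_mul_left cA (e := (A * A' : ℕ)) (by simp) hsq β
    have zA' := th_zero hd.of_mul_right cA' (e := (A * A' : ℕ)) (by simp) hsq β
    have m4 := Nat.mul_mod A A' 4
    have o2 := Nat.odd_iff.mp oA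
    by_cases h4 : A % 4 = 3
    · rw [zA (.inl h4), zA' (.inl (by rw [h4] at m4; omega))]
      simp
    have A4 : A % 4 = 1 := by omega
    have A4' : A' % 4 = 1 := by rw [A4] at m4; omega
    have j : ∀ n : ℕ, n % 4 = 1 → J(-15 | n) = J(15 | n) := fun n h => by
      rw [jacobiSym.neg _ (Nat.odd_iff.mpr (by omega)), ZMod.χ₄_nat_one_mod_four h, one_mul]
    have jd : J(-15 | A) * J(-15 | A') = 1 := by
      rw [← jacobiSym.mul_right' _ oA.pos.ne' oA'.pos.ne']
      exact (GInd.jac15_iff (by omega) (c15 h30)).mpr (by omega)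
    rcases Int.eq_one_or_neg_one_of_mul_eq_one' jd with ⟨j1, j2⟩ | ⟨j1, j2⟩
    swap
    · rw [zA (.inr (j A A4 ▸ j1)), zA' (.inr (j A' A4' ▸ j2))]
      simp
    rcases eq_or_lt_of_le (show 1 ≤ A from oA.pos) with rfl | a1
    · rw [z1, show th (wG A' (1 * A' : ℕ) β) = 0 by simpa using z2]
      simp
    rcases eq_or_lt_of_le (show 1 ≤ A' from oA'.pos) with rfl | a2
    · rw [z1, show th (wG A (A * 1 : ℕ) β) = 0 by simpa using z2]
      simp
    have t1 := th_sq H ha hd h60 a1 a2 A4 j1 hβ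
    have t2 := th_sq H ha (mul_comm A A' ▸ hd) (mul_comm A A' ▸ h60) a2 a1 A4' j2
      (mul_comm A A' ▸ hβ)
    rw [mul_comm A', mul_comm (bb A')] at t2
    refine ⟨?_, t1.trans t2.symm⟩
    obtain ⟨s, Q, -, -, e⟩ := GVal.bb_pos H ⟨hd.of_mul_left, A4, c15 cA, a1⟩ j1
    obtain ⟨s', Q', -, -, e'⟩ := GVal.bb_pos H ⟨hd.of_mul_right, A4', c15 cA', a2⟩ j2
    have hc := Nat.coprime_of_squarefree_mul hd
    rw [← Int.pow_dvd_pow_iff two_ne_zero, t1, hc.primeFactors_mul,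
      card_union_of_disjoint hc.disjoint_primeFactors, show ((2 : ℤ) ^ (#A.primeFactors +
        #A'.primeFactors + 1)) ^ 2 = 4 * (2 ^ (2 * #A.primeFactors) * 2 ^ (2 * #A'.primeFactors)) by
          ring]
    refine mul_dvd_mul_left _ ((dvd_abs _ _).mpr ⟨s * Q ^ 2 * (s' * Q' ^ 2), ?_⟩)
    rw [e, e']; ring
  have dv : ∀ A ∈ d.divisors, (2 : ℤ) ^ (#d.primeFactors + 1) ∣ th (wG A d β) := fun A hA =>
    (key A _ (Nat.mul_div_cancel' (Nat.dvd_of_mem_divisors hA))).1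
  choose! u hu using dv
  have h2 := th_sum hd h30 (by omega) h1 hβ
  rw [sum_congr rfl hu, ← mul_sum, ← mul_sub, pow_succ _ (_ + 1),
    mul_dvd_mul_iff_left (by positivity)] at h2
  have h3 : ((∑ A ∈ d.divisors, u A : ℤ) : ZMod 2) = 0 := by
    rw [Int.cast_sum]
    refine sum_involution (fun A _ => d / A) (fun A hA => ?_) (fun A hA _ e => hsq ⟨A, ?_⟩)
      (fun A hA => Nat.mem_divisors.mpr ⟨Nat.div_dvd_of_dvd (Nat.dvd_of_mem_divisors hA), hd.ne_zero⟩)
      fun A hA => Nat.div_div_self (Nat.dvd_of_mem_divisors hA) hd.ne_zero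
    · have h4 := (key A _ (Nat.mul_div_cancel' (Nat.dvd_of_mem_divisors hA))).2
      rw [hu A hA, hu _ (Nat.mem_divisors.mpr
        ⟨Nat.div_dvd_of_dvd (Nat.dvd_of_mem_divisors hA), hd.ne_zero⟩), mul_pow, mul_pow] at h4
      rcases sq_eq_sq_iff_eq_or_eq_neg.mp (mul_left_cancel₀ (by positivity) h4) with e | e <;>
        rw [e]
      · exact CharTwo.add_self_eq_zero _
      · rw [Int.cast_neg, neg_add_cancel]
    · have := Nat.mul_div_cancel' (Nat.dvd_of_mem_divisors hA)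
      rw [show d / A = A from e] at this
      exact_mod_cast this.symm
  obtain ⟨j, hj⟩ := hamb
  rw [ZMod.intCast_zmod_eq_zero_iff_dvd] at h3
  omega

end sym

/-- The twisted period does not vanish if the number of ambiguous forms is odd. -/
theorem perA_ne (hd : Squarefree d) (h60 : d % 60 = 1 ∨ d % 60 = 49) (h1 : 1 < d)
    (hamb : Odd (ambN d)) : perA d ≠ 0 := by
  obtain ⟨aa, bb, H, ha, hb⟩ := symbols_per
  rw [hb d ⟨hd, by omega, (cop30' (by omega)).coprime_dvd_right (by norm_num), h1⟩]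
  exact mul_ne_zero (by exact_mod_cast bb_ne H ha hd h60 h1 hamb) (by exact_mod_cast wp_neg.ne)

end Re

end Pool.Agent.Lib.MP_696deb_nt
end

-- part Pool.Agent.Lib.MP_696deb_nt.ReFinal
section

/-! The converse theorem in rank zero for twists of positive discriminant. -/

set_option autoImplicit false

open Complex

namespace Pool.Agent.Lib.MP_696deb_nt

namespace Re

theorem trace_real {N : ℕ} (h4 : N % 4 = 1) {a b : ℤ} (ha : a = -12987 * (N : ℤ) ^ 2)
    (hb : b = -263466 * (N : ℤ) ^ 3) {p : ℕ} (hp : p.Prime) (h30 : ¬ p ∣ 30) (hN : ¬ p ∣ N) :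
    xi N p * a15 p = (p : ℂ) - (Nat.card {q : ZMod p × ZMod p //
      q.2 ^ 2 = q.1 ^ 3 + (a : ZMod p) * q.1 + (b : ZMod p)} : ℂ) := by
  have := Fact.mk hp
  have h2 : p ≠ 2 := fun h => h30 (h ▸ by norm_num)
  have h3 : (3 : ZMod p) ≠ 0 := fun h =>
    h30 (((ZMod.natCast_eq_zero_iff 3 p).mp (by exact_mod_cast h)).trans (by norm_num))
  have hN' : (N : ZMod p) ≠ 0 := fun h => hN ((ZMod.natCast_eq_zero_iff N p).mp h)
  have hα : (9 * N : ZMod p) ≠ 0 := by
    rw [show (9 * N : ZMod p) = 3 * 3 * N by ring]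
    exact mul_ne_zero (mul_ne_zero h3 h3) hN'
  have key := sub_card_short p h2 (a : ZMod p) (b : ZMod p) (9 * N) (-21 * N)
    ((27 * N) ^ 2 * N) hα (fun x => x * (x + 9) * (x - 16))
    (fun x => by rw [ha, hb]; push_cast; ring)
  have h27 : (27 * N : ZMod p) ≠ 0 := by
    rw [show (27 * N : ZMod p) = 3 * 3 * 3 * N by ring]
    exact mul_ne_zero (mul_ne_zero (mul_ne_zero h3 h3) h3) hN'
  rw [map_mul, quadraticChar_sq_one' h27, one_mul, ← a15_eq_tr p h30] at key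
  have hx : jacobiSym (p : ℤ) N = quadraticChar (ZMod p) (N : ZMod p) := by
    rw [← jacobiSym.quadratic_reciprocity_one_mod_four h4 (hp.odd_of_ne_two h2), Tern.jac_eq]
    simp
  rw [xi, hx]
  exact_mod_cast key.symm

theorem exists_entire_real {N : ℕ} (h4 : N % 4 = 1) {a b : ℤ}
    (ha : a = -12987 * (N : ℤ) ^ 2) (hb : b = -263466 * (N : ℤ) ^ 3)
    (G : ℂ → ℂ) (hG : Differentiable ℂ G)
    (hGL : ∀ s : ℂ, (3 : ℝ) / 2 < s.re → G s = LSeries (fun n => xi N n * a15 n) s)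
    (hG1 : G 1 ≠ 0) :
    ∃ F : ℂ → ℂ, Differentiable ℂ F ∧
      (∀ s : ℂ, (3 : ℝ) / 2 < s.re →
        HasProd
          (fun p : ℕ =>
            if p.Prime ∧ ¬ ((p : ℤ) ∣ 2 * (-4 * a ^ 3 - 27 * b ^ 2)) then
              (1 - ((p : ℂ) - (Nat.card {q : ZMod p × ZMod p //
                  q.2 ^ 2 = q.1 ^ 3 + (a : ZMod p) * q.1 + (b : ZMod p)} : ℂ))
                  * (p : ℂ) ^ (-s) + (p : ℂ) ^ (1 - 2 * s))⁻¹
            else 1)
          (F s)) ∧ F 1 ≠ 0 ∧ analyticOrderAt F 1 = 0 := by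
  have hM : 2 * (-4 * a ^ 3 - 27 * b ^ 2) = 2 * (81 * 225 * 144) ^ 2 * (N : ℤ) ^ 6 := by
    rw [ha, hb]; ring
  have hN0 : (N : ℤ) ≠ 0 := by omega
  refine exists_entire_order_zero hecke15 (xi_one N) (xi_mul N)
    (fun s hs => summable_twist (norm_xi_le N) (a15_summable hs))
    (M := 2 * (-4 * a ^ 3 - 27 * b ^ 2)) (by rw [hM]; positivity) _ (fun p hp hd => ?_)
    (fun p hp hd => ?_) G hG hGL hG1
  · rw [hM] at hd
    have h30 : ¬ p ∣ 30 := fun h => hd (by
      have : (p : ℤ) ∣ 30 := by exact_mod_cast h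
      exact (this.trans (by norm_num)).mul_right _)
    have hN : ¬ p ∣ N := fun h => hd (by
      have : (p : ℤ) ∣ N := by exact_mod_cast h
      exact (this.trans (dvd_pow_self _ (by norm_num))).mul_left _)
    have h15 : ¬ p ∣ 15 := fun h => h30 (h.trans (by norm_num))
    refine ⟨trace_real h4 ha hb hp h30 hN, ?_, by simp [h15]⟩
    have : Int.gcd (p : ℤ) N = 1 := by
      rw [Int.gcd_natCast_natCast]; exact (Nat.Prime.coprime_iff_not_dvd hp).mpr hN
    rw [xi]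
    exact_mod_cast jacobiSym.sq_one this
  · refine loc_one_ne_zero _ _ _ hp.ne_zero ?_
    by_cases hN : p ∣ N
    · left
      have : Int.gcd (p : ℤ) N ≠ 1 := by
        rw [Int.gcd_natCast_natCast]
        exact fun h => (Nat.Prime.coprime_iff_not_dvd hp).mp h hN
      have : NeZero N := ⟨by omega⟩
      rw [xi, jacobiSym.eq_zero_iff_not_coprime.mpr ‹_›]
      simp
    · rcases xi_cases N p with h | h
      · exact Or.inl h
      refine Or.inr ⟨h, ?_⟩
      rw [hM] at hd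
      have hP := Nat.prime_iff_prime_int.mp hp
      have h1 : (p : ℤ) ∣ 2 * (81 * 225 * 144) ^ 2 :=
        (hP.dvd_or_dvd hd).resolve_right fun h' =>
          hN (by exact_mod_cast hP.dvd_of_dvd_pow h')
      have h2 : (p : ℤ) ∣ 30 ^ 16 := h1.trans (by norm_num)
      have h3 : p ∣ 2 * 3 * 5 := by exact_mod_cast hP.dvd_of_dvd_pow h2
      have : p = 2 ∨ p = 3 ∨ p = 5 := by
        rcases (Nat.Prime.dvd_mul hp).mp h3 with h | h
        · rcases (Nat.Prime.dvd_mul hp).mp h with h | h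
          · exact Or.inl ((Nat.prime_dvd_prime_iff_eq hp Nat.prime_two).mp h)
          · exact Or.inr (Or.inl ((Nat.prime_dvd_prime_iff_eq hp Nat.prime_three).mp h))
        · exact Or.inr (Or.inr ((Nat.prime_dvd_prime_iff_eq hp Nat.prime_five).mp h))
      rcases this with rfl | rfl | rfl
      · norm_num [a15_two]
      · norm_num [a15_three]
      · norm_num [a15_five]

theorem bsd_real {d : ℕ} (hd : Squarefree d) (h60 : d % 60 = 1 ∨ d % 60 = 49) (h1 : 1 < d)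
    {a b : ℤ} (ha : a = -12987 * (d : ℤ) ^ 2) (hb : b = -263466 * (d : ℤ) ^ 3)
    (hS : (Sel (-102 * d) (-21 * d) (123 * d)).encard ≤ 4) :
    ∃ F : ℂ → ℂ, Differentiable ℂ F ∧
      (∀ s : ℂ, (3 : ℝ) / 2 < s.re →
        HasProd
          (fun p : ℕ =>
            if p.Prime ∧ ¬ ((p : ℤ) ∣ 2 * (-4 * a ^ 3 - 27 * b ^ 2)) then
              (1 - ((p : ℂ) - (Nat.card {q : ZMod p × ZMod p //
                  q.2 ^ 2 = q.1 ^ 3 + (a : ZMod p) * q.1 + (b : ZMod p)} : ℂ))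
                  * (p : ℂ) ^ (-s) + (p : ℂ) ^ (1 - 2 * s))⁻¹
            else 1)
          (F s)) ∧
      analyticOrderAt F 1 =
        ((Module.finrank ℤ
          (WeierstrassCurve.Affine.Point
            (WeierstrassCurve.toAffine
              ({ a₁ := 0, a₂ := 0, a₃ := 0, a₄ := (a : ℚ), a₆ := (b : ℚ) } :
                WeierstrassCurve ℚ))) : ℕ) : ℕ∞) ∧
      Module.Finite ℤ (WeierstrassCurve.Affine.Point
        (WeierstrassCurve.toAffine
          ({ a₁ := 0, a₂ := 0, a₃ := 0, a₄ := (a : ℚ), a₆ := (b : ℚ) } : WeierstrassCurve ℚ))) ∧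
      analyticOrderAt F 1 = 0 := by
  obtain ⟨G, τ, g1, g2, -, g3⟩ := exists_entire_jacobi (N := d) (Nat.odd_iff.mpr (by omega)) hd
  obtain ⟨F, f1, f2, -, f3⟩ := exists_entire_real (by omega) ha hb G g1 g2 fun k =>
    perA_ne hd h60 h1 (odd_ambN hd h60 h1 hS) (by rw [perA, ← g3, k, mul_zero])
  have e : Wsp ℚ (-102 * d) (-21 * d) (123 * d) =
      ({ a₁ := 0, a₂ := 0, a₃ := 0, a₄ := (a : ℚ), a₆ := (b : ℚ) } : WeierstrassCurve ℚ) := by
    rw [Wsp, ha, hb]
    congr 1 <;> push_cast <;> ring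
  obtain ⟨r1, r2⟩ := rank_zero hd h1 hS
  rw [e] at r1 r2
  exact ⟨F, f1, f2, by rw [f3, r2]; rfl, r1, f3⟩

end Re

end Pool.Agent.Lib.MP_696deb_nt
end
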