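import Pool.Agent.Lib.MP_696deb_nt.Heeg
import Pool.Agent.Lib.MP_696deb_nt.SelLowA
import Pool.Agent.Lib.MP_696deb_nt.HRank

-- part Pool.Agent.Lib.MP_696deb_nt.C5Form
section

/-! Ambiguous Heegner forms and the transfer of the diamond operators. -/

set_option autoImplicit false

open Complex Finset NumberTheorySymbols Matrix

namespace Pool.Agent.Lib.MP_696deb_nt.Gal

open Unif

variable {D r : ℤ} {Q Q' : Fm} {R : Finset Fm} {n l : ℕ}

/-- The point of order two in the kernel of the Shimura cover. -/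
noncomputable def T2 : Pt W1 ℂ := 2 • u1 wp

lemma T2_ne : T2 ≠ 0 := fun h => kl.ne (by rw [two_mul, map_add, ← two_nsmul]; exact h)

lemma two_T2 : 2 • T2 = 0 := by rw [T2, smul_smul]; exact (u1_L15 wp_mem).1

/-- The point attached to a sign. -/
noncomputable def sg (s : ℤ) : Pt W1 ℂ := if s = 1 then 0 else T2

lemma dk_congr {a b : ℤ} (h : 15 ∣ a - b) : dk a = dk b := by
  rw [dk, dk, kpt_sc (s := a * I) (t := b * I) (sc_one (L := lat15 I) rfl) (by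
    convert (ord_lat (τ := I) (by simp) _).mpr h using 1; push_cast; ring)]

lemma two_ms_eq {a b c d : ℤ} (h : a * d - b * (15 * c) = 1) :
    2 • u1 (ms a (15 * c)) = sg J(a | 5) := by
  obtain ⟨e, h1, he⟩ := kl.eq
  have h0 := ord_lat (τ := I) (by simp)
  have key : ∀ {a : ℤ}, IsCoprime a 15 → 2 • dk a = dk (a * a) := fun {a} ha => by
    rw [dk.eq_def (a * a), Int.cast_mul, mul_assoc, (h0.int_mul ha).kpt_mul he ha, h0.kpt_mul he ha]
    abel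
  have k7 := dk_eq he (a := 7) (b := -1) (c := 1) (d := -2) (by norm_num)
  rw [mul_one, ms_gp] at k7
  rw [u1_sign h1, ← dk_eq he h, smul_comm, key (coprime_of_gamma h), sg]
  rw [mul_left_comm] at h
  have n3 : ¬ 3 ∣ a := fun k => by have := k.mul_right d; omega
  have n5 : ¬ 5 ∣ a := fun k => by have := k.mul_right d; omega
  have e3 : 3 ∣ a * a - 1 := by
    have : a % 3 = 1 ∨ a % 3 = 2 := by omega
    rcases this with k | k <;> have := Int.mul_emod a a 3 <;> rw [k] at this <;> omega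
  rw [jacobiSym.mod_left]
  have : a % 5 = 1 ∨ a % 5 = 4 ∨ a % 5 = 2 ∨ a % 5 = 3 := by omega
  have k5 := Int.mul_emod a a 5
  have z : dk 1 = 0 := by simp [dk]
  have t : e • dk 49 = T2 := by
    rw [T2, u1_sign h1, ← k7, smul_comm, key (by norm_num)]; rfl
  rcases this with k | k | k | k <;> rw [k] at k5 <;> rw [Nat.cast_ofNat, k]
  · rw [if_pos (by norm_num), dk_congr (b := 1) (by omega), z, smul_zero]
  · rw [if_pos (by norm_num), dk_congr (b := 1) (by omega), z, smul_zero]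
  · rw [if_neg (by norm_num), dk_congr (b := 49) (by omega), t]
  · rw [if_neg (by norm_num), dk_congr (b := 49) (by omega), t]

/-- Twice the point on the Shimura cover attached to a form. -/
noncomputable def GG (Q : Fm) : Pt W1 ℂ := 2 • u1 (Fi (froot Q))

lemma GG_fmap (hD : D < 0) (hQ : IsHg D r Q) {x w y z : ℤ} (e : x * z - w * (15 * y) = 1) :
    GG Q - GG (fmap Q x w (15 * y) z) = sg J(x | 5) := by
  rw [← two_ms_eq e, GG, GG, ← mob_froot e (hQ.disc ▸ hD) hQ.pos,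
    Fi_Gamma0 e ((hQ.of_feq hD ⟨x, w, y, z, e, rfl⟩).im_pos hD), map_add, smul_add,
    add_sub_cancel_left]

/-- The form with the outer coefficients exchanged. -/
def fl (Q : Fm) : Fm := (Q.2.2, Q.2.1, Q.1)

lemma IsHg_fl (hD : D < 0) (h : IsHg D r Q) (h' : 15 ∣ Q.2.2) : IsHg D r (fl Q) :=
  ⟨by rw [← h.disc]; simp only [fdisc, fl]; ring, pos_c (h.disc ▸ hD) h.pos, h', h.res⟩

lemma jac_inv {x z : ℤ} (h : 5 ∣ x * z - 1) : J(z | 5) = J(x | 5) := by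
  have h1 : J(x | 5) * J(z | 5) = 1 := by
    rw [← jacobiSym.mul_left, jacobiSym.mod_left' (a₂ := 1) (by omega), jacobiSym.one_left]
  rcases Int.eq_one_or_neg_one_of_mul_eq_one' h1 with k | k <;> rw [k.1, k.2]

lemma fl_feq (hD : D < 0) (r3 : ¬ 3 ∣ r) (r5 : ¬ 5 ∣ r) (h : IsHg D r Q) (h1 : 15 ∣ Q.2.2)
    (h2 : 15 ∣ Q'.2.2) (e : FEq Q Q') :
    FEq (fl Q) (fl Q') ∧ GG (fl Q) - GG (fl Q') = GG Q - GG Q' := by
  have k0 := (h.of_feq hD e).res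
  obtain ⟨x, w, y, z, e, rfl⟩ := e
  have k1 := h.res
  simp only [fmap, fval] at h2 k0
  have h3 := dvd_of_type Int.prime_three (by norm_num) (b := Q.2.1) (c := Q.1) (A := Q.2.2)
    (x := z) (z := x) (w := 15 * y) (y := w) (by omega) (by linear_combination e) (by omega)
    (dvd_eq (Dvd.dvd.trans (by norm_num) h2) (by ring))
    (dvd_eq (Dvd.dvd.trans (by norm_num) (dvd_sub k0 k1)) (by ring))
  have h5 := dvd_of_type prime_five (by norm_num) (b := Q.2.1) (c := Q.1) (A := Q.2.2)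
    (x := z) (z := x) (w := 15 * y) (y := w) (by omega) (by linear_combination e) (by omega)
    (dvd_eq (Dvd.dvd.trans (by norm_num) h2) (by ring))
    (dvd_eq (Dvd.dvd.trans (by norm_num) (dvd_sub k0 k1)) (by ring))
  obtain ⟨w, rfl⟩ : 15 ∣ w := by omega
  have e' : z * x - 15 * y * (15 * w) = 1 := by linear_combination e
  have k : fl (fmap Q x (15 * w) (15 * y) z) = fmap (fl Q) z (15 * y) (15 * w) x := by
    simp only [fl, fmap, fval, Prod.mk.injEq]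
    refine ⟨?_, ?_, ?_⟩ <;> ring
  rw [k, GG_fmap hD h e, GG_fmap hD (IsHg_fl hD h h1) e', jac_inv (x := x) (by
    rw [mul_assoc] at e; omega)]
  exact ⟨⟨_, _, _, _, e', rfl⟩, rfl⟩

lemma sh_feq (hD : D < 0) (hl : l.Prime) (h2 : l ≠ 2) (h15 : ¬ (l : ℤ) ∣ 15) (hr : ¬ (l : ℤ) ∣ r)
    (h : IsHg D r Q) (a1 : 15 * (l : ℤ) ∣ Q.1) (a2 : 30 * (l : ℤ) ∣ Q.2.1 - r)
    (b1 : 15 * (l : ℤ) ∣ Q'.1) (b2 : 30 * (l : ℤ) ∣ Q'.2.1 - r) (e : FEq Q Q') :
    FEq (sh l Q) (sh l Q') ∧ GG (sh l Q) - GG (sh l Q') = GG Q - GG Q' := by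
  obtain ⟨x, w, y, z, e, rfl⟩ := e
  have hP := Nat.prime_iff_prime_int.mp hl
  have c2 := (dvd_mul_left _ _).trans a2
  obtain ⟨y, rfl⟩ : (l : ℤ) ∣ y := (hP.dvd_or_dvd (dvd_of_type hP
    (not_dvd_of_prime_ne hl Nat.prime_two h2) (fun k => hr (by simpa using dvd_sub k c2)) e
    ((dvd_mul_left _ _).trans a1) (c := Q.2.2) ((dvd_mul_left _ _).trans b1)
    (dvd_eq (dvd_sub ((dvd_mul_left _ _).trans b2) c2) (by simp only [fmap]; ring)))).resolve_left h15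
  obtain ⟨a, ha⟩ := (dvd_mul_left _ _).trans a1
  have e' : x * z - l * w * (15 * y) = 1 := by linear_combination e
  have k : sh l (fmap Q x w (15 * (l * y)) z) = fmap (sh l Q) x (l * w) (15 * y) z := by
    simp only [sh, fmap, fval, Prod.mk.injEq, ha, Int.mul_ediv_cancel_left _ hP.ne_zero]
    refine ⟨Int.ediv_eq_of_eq_mul_right hP.ne_zero ?_, ?_, ?_⟩ <;> ring
  rw [k, GG_fmap hD h e, GG_fmap hD (sh_spec hD hl.pos h a1).1 e']
  exact ⟨⟨_, _, _, _, e', rfl⟩, rfl⟩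

/-- The structure of a form equivalent to its flip. -/
lemma amb_spec' (hn : 0 < n) (r5 : ¬ 5 ∣ r) (h : IsHg (-n) r Q) {x w y z : ℤ}
    (e : x * z - w * (15 * y) = 1) (k : fl Q = fmap Q x w (15 * y) z) :
    ∃ d d' : ℤ, d * d' = n ∧ 0 < d ∧ (∃ u v, fval Q u v = d) ∧ (∃ u v, fval Q u v = d') ∧
      (∀ u v, ∃ s t, 4 * fval Q u v = d * s ^ 2 + d' * t ^ 2) ∧ J(x | 5) = J(r | 5) * J(d | 5) := by
  obtain ⟨A, B, C⟩ := Q
  obtain ⟨hd, hA, h15, h30⟩ := h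
  simp only [fl, fmap, fval, fdisc, Prod.mk.injEq] at *
  obtain ⟨-, k2, k3⟩ := k
  obtain rfl : w = -(15 * y) := by
    refine mul_left_cancel₀ (a := 2 * A) (by omega) ?_
    linear_combination (30 * y) * k3 - z * k2 - (2 * A * w + B * z) * e
  have k4 : 2 * A * x + 30 * B * y - 2 * C * z = 0 := by
    linear_combination (2 * x) * k3 + (15 * y) * k2 + (2 * C * z - 15 * B * y) * e
  obtain ⟨g, v1, v2, -, hc, e1, rfl⟩ := Int.exists_gcd_one' (m := 1 - 15 * y) (n := z)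
    (Int.gcd_pos_iff.mpr (.inl (by omega)))
  generalize (g : ℤ) = g at *
  have g0 : g ≠ 0 := by rintro rfl; omega
  have v0 : v1 ≠ 0 := by rintro rfl; omega
  have e2 : v1 * (1 + 15 * y) = x * v2 :=
    mul_left_cancel₀ g0 (by linear_combination -e - (1 + 15 * y) * e1)
  obtain ⟨k, rfl⟩ : v1 ∣ x := (Int.isCoprime_iff_gcd_eq_one.mpr hc).dvd_of_dvd_mul_right ⟨_, e2.symm⟩
  have e3 : 1 + 15 * y = k * v2 := mul_left_cancel₀ v0 (by linear_combination e2)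
  have e4 : k * (2 * A * v1 + B * v2) = g * (B * v1 + 2 * C * v2) := by
    linear_combination k4 + B * e1 - B * e3
  set d := A * v1 ^ 2 + B * v1 * v2 + C * v2 ^ 2 with hdd
  have e5 : 2 * A * v1 + B * v2 = g * d := mul_left_cancel₀ two_ne_zero (by
    rw [hdd]; linear_combination (2 * A * v1 + B * v2) * (e1 + e3) + v2 * e4)
  have e6 : B * v1 + 2 * C * v2 = k * d := mul_left_cancel₀ two_ne_zero (by
    rw [hdd]; linear_combination (B * v1 + 2 * C * v2) * (e1 + e3) - v1 * e4)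
  have e7 : ∀ u v : ℤ, 4 * d * (A * u ^ 2 + B * u * v + C * v ^ 2) =
      d ^ 2 * (g * u + k * v) ^ 2 + n * (v1 * v - v2 * u) ^ 2 := fun u v => by
    rw [show d ^ 2 * (g * u + k * v) ^ 2 = (g * d * u + k * d * v) ^ 2 by ring, ← e5, ← e6, hdd]
    linear_combination -(v1 * v - v2 * u) ^ 2 * hd
  have e8 : d * (A * k ^ 2 + B * k * -g + C * (-g) ^ 2) = n := mul_left_cancel₀ (a := 4) (by norm_num)
    (by linear_combination e7 k (-g) - n * (v1 * g + k * v2 + 2) * (e1 + e3))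
  have d0 : d ≠ 0 := by rintro h0; rw [h0] at e8; omega
  have d1 : 0 < d := by
    have := e7 1 0
    refine lt_of_le_of_ne (le_of_mul_le_mul_left (a := 4 * A) ?_ (by omega)) d0.symm
    have : 0 ≤ d ^ 2 * (g * 1 + k * 0) ^ 2 + n * (v1 * 0 - v2 * 1) ^ 2 := by positivity
    linarith
  refine ⟨d, _, e8, d1, ⟨v1, v2, rfl⟩, ⟨k, -g, rfl⟩, fun u v => ⟨g * u + k * v, v1 * v - v2 * u,
    mul_left_cancel₀ d0 (by linear_combination e7 u v - (v1 * v - v2 * u) ^ 2 * e8)⟩, ?_⟩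
  have n1 : ¬ ((5 : ℕ) : ℤ) ∣ g := fun t => by have := t.mul_left v1; omega
  have e9 : J(g ^ 2 * d | 5) = J(r * (v2 * g) | 5) := by
    obtain ⟨a, rfl⟩ := h15
    obtain ⟨b, hb⟩ := h30
    refine jacobiSym.mod_left' (Int.modEq_iff_dvd.mpr ⟨-(6 * a * v1 * g + 6 * b * v2 * g), ?_⟩)
    push_cast
    linear_combination g * e5 - g * v2 * hb
  rw [jacobiSym.mul_left, jacobiSym.mul_left, jacobiSym.pow_left, jac_sq Nat.prime_five n1, one_mul,
    jac_inv (x := v1 * k) (z := v2 * g) (by rw [neg_mul, mul_assoc 15] at e; omega)] at e9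
  rw [e9, ← mul_assoc, ← pow_two, jac_sq Nat.prime_five r5, one_mul]

/-- The form represents one. -/
def Rp (Q : Fm) : Prop := ∃ x y, fval Q x y = 1

lemma Rp.fmap {a b c d : ℤ} (h : Rp Q) (e : a * d - b * c = 1) : Rp (fmap Q a b c d) := by
  obtain ⟨x, y, h⟩ := h
  rw [← fmap_inv e Q, fval_fmap] at h
  exact ⟨_, _, h⟩

lemma Rp.feq (h : Rp Q) (e : FEq Q Q') : Rp Q' := by
  obtain ⟨a, b, c, d, e, rfl⟩ := e
  exact h.fmap e

lemma Rp.fl (h : Rp Q) : Rp (fl Q) := by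
  obtain ⟨x, y, h⟩ := h
  exact ⟨y, x, by rw [← h]; simp only [Gal.fl, fval]; ring⟩

lemma Rp.norm (h : Rp Q) {c : ℤ} (hD : fdisc Q = 1 - 4 * c) :
    ∃ x w y z : ℤ, x * z - w * y = 1 ∧ MP_696deb_nt.fmap Q x w y z = (1, 1, c) := by
  obtain ⟨x, y, h⟩ := h
  have e : x * (Q.1 * x + Q.2.1 * y) - -(Q.2.2 * y) * y = 1 := by rw [← h, fval]; ring
  have h1 := (fdisc_fmap e Q).trans hD
  have h2 : (MP_696deb_nt.fmap Q x (-(Q.2.2 * y)) y (Q.1 * x + Q.2.1 * y)).1 = 1 := h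
  suffices H : ∃ k, MP_696deb_nt.fmap (MP_696deb_nt.fmap Q x (-(Q.2.2 * y)) y
      (Q.1 * x + Q.2.1 * y)) 1 k 0 1 = (1, 1, c) by
    obtain ⟨k, H⟩ := H
    exact ⟨_, _, _, _, by linear_combination e, fmap_fmap Q _ _ _ _ 1 k 0 1 ▸ H⟩
  generalize MP_696deb_nt.fmap Q x (-(Q.2.2 * y)) y (Q.1 * x + Q.2.1 * y) = P at *
  obtain ⟨a, b, c'⟩ := P
  simp only [fdisc] at h1 h2
  subst h2
  obtain ⟨k, rfl⟩ : ∃ k, b = 1 - 2 * k := by
    rcases Int.emod_two_eq_zero_or_one b with t | t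
    · have := (Int.dvd_of_emod_eq_zero t).mul_right b
      rw [pow_two] at h1; omega
    · exact ⟨(1 - b) / 2, by omega⟩
  refine ⟨k, ?_⟩
  simp only [MP_696deb_nt.fmap, fval, Prod.mk.injEq]
  refine ⟨by ring, by ring, mul_left_cancel₀ (a := 4) (by norm_num) ?_⟩
  linear_combination -h1

lemma feq_of_rp (hn : Good n) (hr : 60 ∣ r ^ 2 + n) (h : IsHg (-n) r Q) (h' : IsHg (-n) r Q')
    (k : Rp Q) (k' : Rp Q') : FEq Q Q' := by
  obtain ⟨r3, r5⟩ := not_dvd_r hn hr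
  have := hn.mod4
  obtain ⟨x, w, y, z, e, h1⟩ := k.norm (c := (n + 1) / 4) (by rw [h.disc]; omega)
  obtain ⟨x', w', y', z', e', h2⟩ := k'.norm (c := (n + 1) / 4) (by rw [h'.disc]; omega)
  have h3 := fmap_inv e' Q'
  rw [h2, ← h1, fmap_fmap] at h3
  exact h3 ▸ feq_of_fmap r3 r5 (by linear_combination (x' * z' - w' * y') * e + e') h (h3.symm ▸ h')

lemma exists_rp (hn : Good n) (hr : 60 ∣ r ^ 2 + n) (hR : HReps (-n) r R) : ∃ Q ∈ R, Rp Q := by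
  have := hn.mod4
  obtain ⟨x, w, y, z, e, h⟩ := exists_hg_fmap (Q := (1, 1, ((n : ℤ) + 1) / 4)) hn.neg
    (by simpa using hr) (by simp only [fdisc]; omega) one_pos
  obtain ⟨Q, hQ, k⟩ := hR.ex _ h
  exact ⟨Q, hQ, (Rp.fmap ⟨1, 0, by simp [fval]⟩ e).feq k.symm⟩

lemma exists_inv (hR : HReps D r R) {ψ j : Fm → Fm} {Ty : Fm → Prop}
    (p1 : ∀ Q ∈ R, FEq Q (ψ Q)) (p2 : ∀ Q ∈ R, Ty (ψ Q))
    (j1 : ∀ P, Ty P → IsHg D r (j P) ∧ Ty (j P) ∧ j (j P) = P)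
    (j2 : ∀ P P', Ty P → Ty P' → FEq P P' →
      FEq (j P) (j P') ∧ GG (j P) - GG (j P') = GG P - GG P') :
    ∃ ω : Fm → Fm, ∀ Q ∈ R, ω Q ∈ R ∧ FEq (ω Q) (j (ψ Q)) ∧ ω (ω Q) = Q ∧
      GG (j (ψ (ω Q))) - GG (ψ (ω Q)) + (GG (j (ψ Q)) - GG (ψ Q)) = 0 := by
  choose! ω o1 o2 using fun Q hQ => hR.ex _ (j1 _ (p2 Q hQ)).1
  refine ⟨ω, fun Q hQ => ?_⟩
  have h1 := o1 Q hQ
  obtain ⟨k1, k2⟩ := j2 _ _ (p2 _ h1) (j1 _ (p2 Q hQ)).2.1 ((p1 _ h1).symm.trans (o2 Q hQ))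
  rw [(j1 _ (p2 Q hQ)).2.2] at k1 k2
  exact ⟨h1, o2 Q hQ, hR.uniq _ (o1 _ h1) _ hQ (((o2 _ h1).trans k1).trans (p1 Q hQ).symm),
    by linear_combination (norm := abel_nf) k2⟩

lemma small_div (hn : Good n) {d d' s t : ℤ} (h : d * d' = n) (hd : 0 < d)
    (e : 4 * 1 = d * s ^ 2 + d' * t ^ 2) : d = 1 ∨ d' = 1 := by
  have h4 := hn.mod4
  have hd' : 0 < d' := (pos_iff_pos_of_mul_pos (by omega)).mp hd
  have key : ∀ a : ℤ, a ∣ n → 0 < a → a = 1 ∨ 5 ≤ a := fun a ha h0 => by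
    have h2 : ¬ 2 ∣ a := fun k => by have := k.trans ha; omega
    have h3 : ¬ 3 ∣ a := fun k => by
      have := Nat.dvd_gcd (Int.natCast_dvd_natCast.mp (k.trans ha)) (show 3 ∣ 15 by norm_num)
      rw [hn.cop] at this
      exact absurd this (by norm_num)
    omega
  by_contra! hc
  have k1 := (key d ⟨d', h.symm⟩ hd).resolve_left hc.1
  have k2 := (key d' ⟨d, by rw [← h]; ring⟩ hd').resolve_left hc.2
  have z : ∀ a x : ℤ, 5 ≤ a → a * x ^ 2 = 0 ∨ 5 ≤ a * x ^ 2 := fun a x ha => by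
    rcases eq_or_ne x 0 with rfl | hx
    · simp
    · have : 0 < x ^ 2 := by positivity
      exact .inr (by nlinarith)
  have := z d s k1
  have := z d' t k2
  omega

lemma sq_of_hil (hn : Good n) {d d' : ℤ} (h : d * d' = n)
    (k : ∀ p ∈ n.primeFactors, hil n p d = 1) (p : ℕ) (hp : p.Prime) (hd : (p : ℤ) ∣ d') :
    IsSquare (d : ZMod p) := by
  have := Fact.mk hp
  have h1 := k p (Nat.mem_primeFactors.mpr ⟨hp, Int.natCast_dvd_natCast.mp (h ▸ hd.mul_left _),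
    hn.sqf.ne_zero⟩)
  rw [hil_of_not_dvd hp (not_dvd_of_squarefree_mul hp (h ▸ Int.squarefree_natCast.mpr hn.sqf) hd)]
    at h1
  exact ZMod.isSquare_of_jacobiSym_eq_one h1

/-- The sum of the jumps under the flip over a genus, in terms of the ambiguous classes. -/
lemma sum_flip (hn : Good n) (hr : 60 ∣ r ^ 2 + n) (hR : HReps (-n) r R) {ψ : Fm → Fm}
    (p1 : ∀ Q ∈ R, FEq Q (ψ Q)) (p5 : ∀ Q ∈ R, 15 ∣ (ψ Q).2.2) (ε : ℕ → ℤ) :
    ∃ X ⊆ gen n R ε, Even (#X + #(gen n R ε)) ∧ (∀ Q ∈ gen n R ε, Rp Q → Q ∈ X) ∧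
      ∑ Q ∈ gen n R ε, (GG (ψ Q) - GG (fl (ψ Q))) = ∑ Q ∈ X, (GG (ψ Q) - GG (fl (ψ Q))) ∧
      ∀ Q ∈ X, ∃ d d' : ℤ, d * d' = n ∧ 0 < d ∧ (∀ p ∈ n.primeFactors, hil n p d = ε p) ∧
        (∀ p ∈ n.primeFactors, hil n p d' = ε p) ∧ (Rp Q ↔ d = 1 ∨ d' = 1) ∧
        GG (ψ Q) - GG (fl (ψ Q)) = sg (J(r | 5) * J(d | 5)) := by
  classical
  have hD := hn.neg
  obtain ⟨r3, r5⟩ := not_dvd_r hn hr
  have p2 := fun Q hQ => (hR.mem Q hQ).of_feq hD (p1 Q hQ)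
  obtain ⟨ω, ho⟩ := exists_inv hR (j := fl) (Ty := fun P => IsHg (-n) r P ∧ 15 ∣ P.2.2) p1
    (fun Q hQ => ⟨p2 Q hQ, p5 Q hQ⟩)
    (fun P hP => ⟨IsHg_fl hD hP.1 hP.2, ⟨IsHg_fl hD hP.1 hP.2, hP.1.lev⟩, rfl⟩)
    fun P P' h h' e => fl_feq hD r3 r5 h.1 h.2 h'.2 e
  have og : ∀ Q ∈ gen n R ε, ω Q ∈ gen n R ε := fun Q hQ => by
    obtain ⟨h1, h2⟩ := mem_filter.mp hQ
    refine mem_filter.mpr ⟨(ho Q h1).1, fun p hp => ?_⟩
    rw [← hil_feq hn.sqf hp (hR.mem _ (ho Q h1).1) (ho Q h1).2.1, fl,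
      hil_a hn.sqf hp (p2 Q h1).disc (p2 Q h1).pos, hil_feq hn.sqf hp (hR.mem Q h1) (p1 Q h1), h2 p hp]
  have inv : ∀ {M : Type} [AddCommGroup M] (f : Fm → M), (∀ Q ∈ R, f Q + f (ω Q) = 0) →
      ∑ Q ∈ gen n R ε, f Q = ∑ Q ∈ gen n R ε with ω Q = Q, f Q := fun f hf => by
    rw [← sum_filter_add_sum_filter_not (gen n R ε) fun Q => ω Q = Q, add_eq_left]
    refine sum_involution (fun Q _ => ω Q)
      (fun Q hQ => hf Q (mem_of_mem_filter _ (mem_of_mem_filter _ hQ)))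
      (fun Q hQ _ => (mem_filter.mp hQ).2) (fun Q hQ => ?_)
      fun Q hQ => (ho Q (mem_of_mem_filter _ (mem_of_mem_filter _ hQ))).2.2.1
    obtain ⟨h1, h2⟩ := mem_filter.mp hQ
    exact mem_filter.mpr ⟨og Q h1, fun k => h2
      (k.symm.trans (ho Q (mem_of_mem_filter _ h1)).2.2.1)⟩
  refine ⟨(gen n R ε).filter fun Q => ω Q = Q, filter_subset _ _, ?_, fun Q hQ k => ?_,
    inv _ fun Q hQ => ?_, fun Q hQ => ?_⟩
  · have := inv (fun _ => (1 : ZMod 2)) fun _ _ => by decide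
    rw [sum_const, sum_const, nsmul_eq_mul, nsmul_eq_mul, mul_one, mul_one] at this
    rw [even_iff_two_dvd, ← ZMod.natCast_eq_zero_iff, Nat.cast_add, ← this]
    exact CharTwo.add_self_eq_zero _
  · have h1 := mem_of_mem_filter _ hQ
    exact mem_filter.mpr ⟨hQ, hR.uniq _ (ho Q h1).1 _ h1 (feq_of_rp hn hr (hR.mem _ (ho Q h1).1)
      (hR.mem _ h1) ((k.feq (p1 Q h1)).fl.feq (ho Q h1).2.1.symm) k)⟩
  · linear_combination (norm := abel_nf) -(ho Q hQ).2.2.2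
  obtain ⟨h1, h2⟩ := mem_filter.mp hQ
  obtain ⟨h1, h3⟩ := mem_filter.mp h1
  obtain ⟨x, w, y, z, e, k⟩ := (p1 Q h1).symm.trans (h2 ▸ (ho Q h1).2.1)
  obtain ⟨d, d', a1, a2, ⟨u, v, a3⟩, ⟨u', v', a4⟩, a5, a6⟩ :=
    amb_spec' (by omega) r5 (p2 Q h1) e k
  have hc := (pos_c ((p2 Q h1).disc ▸ hD) (p2 Q h1).pos).ne'
  have a7 : d' ≠ 0 := by rintro rfl; omega
  refine ⟨d, d', a1, a2, fun p hp => ?_, fun p hp => ?_, ⟨fun t => ?_, fun t => ?_⟩, ?_⟩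
  · rw [← a3, hil_fval hn.sqf hp (p2 Q h1).disc hc (by omega),
      hil_feq hn.sqf hp (hR.mem Q h1) (p1 Q h1), h3 p hp]
  · rw [← a4, hil_fval hn.sqf hp (p2 Q h1).disc hc (by omega),
      hil_feq hn.sqf hp (hR.mem Q h1) (p1 Q h1), h3 p hp]
  · obtain ⟨s, t, t1⟩ := t.feq (p1 Q h1)
    obtain ⟨s', t', t2⟩ := a5 s t
    exact small_div hn a1 a2 (t1 ▸ t2)
  · refine Rp.feq ?_ (p1 Q h1).symm
    rcases t with rfl | rfl
    exacts [⟨u, v, a3⟩, ⟨u', v', a4⟩]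
  · rw [k, GG_fmap hD (p2 Q h1) e, a6]

lemma jac_n (hn : Good n) (hr : 60 ∣ r ^ 2 + n) : J((n : ℤ) | 5) = 1 := by
  rw [jacobiSym.mod_left' (a₂ := (2 * r) ^ 2) (by rw [mul_pow]; omega), jacobiSym.pow_left]
  exact jac_sq Nat.prime_five fun h => (not_dvd_r hn hr).2 (by omega)

lemma sum_flip_one (hn : Good n) (hr : 60 ∣ r ^ 2 + n) (hR : HReps (-n) r R) (hB : CondB5 n)
    {ψ : Fm → Fm} (p1 : ∀ Q ∈ R, FEq Q (ψ Q)) (p5 : ∀ Q ∈ R, 15 ∣ (ψ Q).2.2)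
    (he : Even #(gen n R fun _ => 1)) :
    ∑ Q ∈ gen n R fun _ => 1, (GG (ψ Q) - GG (fl (ψ Q))) = T2 := by
  classical
  obtain ⟨X, x1, x2, x3, x4, x5⟩ := sum_flip hn hr hR p1 p5 fun _ => 1
  obtain ⟨Q₁, q1, q2⟩ := exists_rp hn hr hR
  have q3 : Q₁ ∈ X := x3 _ (mem_filter.mpr ⟨q1, fun p hp => by
    obtain ⟨x, y, h⟩ := q2
    rw [← hil_fval hn.sqf hp (hR.mem _ q1).disc (pos_c ((hR.mem _ q1).disc ▸ hn.neg)
      (hR.mem _ q1).pos).ne' (x := x) (y := y) (by omega), h,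
      hil_one (Nat.prime_of_mem_primeFactors hp)]⟩) q2
  have j5 : ∀ a : ℤ, ¬ 5 ∣ a → J(a | 5) = 1 ∨ J(a | 5) = -1 := fun a ha =>
    sq_eq_one_iff.mp (jac_sq Nat.prime_five ha)
  have e1 : GG (ψ Q₁) - GG (fl (ψ Q₁)) = sg J(r | 5) := by
    obtain ⟨d, d', a1, a2, -, -, a5, a6⟩ := x5 _ q3
    rcases a5.mp q2 with rfl | rfl
    · simpa using a6
    · rw [a6, show d = n by omega, jac_n hn hr, mul_one]
  have e2 : ∀ Q ∈ X.erase Q₁, GG (ψ Q) - GG (fl (ψ Q)) = sg (-J(r | 5)) := fun Q hQ => by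
    obtain ⟨d, d', a1, a2, a3, a4, a5, a6⟩ := x5 _ (mem_of_mem_erase hQ)
    have h1 := mem_of_mem_filter _ (x1 (mem_of_mem_erase hQ))
    rw [a6, (j5 d fun k => ?_).resolve_left fun k => ne_of_mem_erase hQ (hR.uniq _ h1 _ q1
      (feq_of_rp hn hr (hR.mem _ h1) (hR.mem _ q1) (a5.mpr (hB d d' a1 a2 (sq_of_hil hn a1 a3)
        (sq_of_hil hn (mul_comm d d' ▸ a1) a4) k)) q2)), mul_neg_one]
    have := Nat.dvd_gcd (Int.natCast_dvd_natCast.mp (a1 ▸ k.mul_right d' : ((5 : ℕ) : ℤ) ∣ n))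
      (show 5 ∣ 15 by norm_num)
    rw [hn.cop] at this; omega
  obtain ⟨k, hk⟩ : Odd #(X.erase Q₁) := by
    have := card_erase_add_one q3
    rw [Nat.even_iff] at he x2
    rw [Nat.odd_iff]; omega
  rw [x4, ← add_sum_erase _ _ q3, e1, sum_congr rfl e2, sum_const, hk]
  rcases j5 r (not_dvd_r hn hr).2 with h | h <;> simp [h, sg, add_smul, mul_comm 2 k, mul_smul, two_T2]

/-- The transfer computation. -/
theorem two_U (hn : Good n) (hr : 60 ∣ r ^ 2 + n) (hR : HReps (-n) r R) (hB : CondB5 n)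
    {ε : ℕ → ℤ} (hε : Sgn n ε)
    (hno : ∀ d d' : ℤ, d * d' = n → 0 < d → ¬ ∀ p ∈ n.primeFactors, hil n p d = ε p)
    (hl : l.Prime) (h30 : 30 < l) (hr' : ¬ (l : ℤ) ∣ r) (hlε : ∀ p ∈ n.primeFactors, hil n p l = ε p)
    {ψ : Fm → Fm} (p1 : ∀ Q ∈ R, FEq Q (ψ Q)) (p3 : ∀ Q ∈ R, 15 * (l : ℤ) ∣ (ψ Q).1)
    (p4 : ∀ Q ∈ R, 30 * (l : ℤ) ∣ (ψ Q).2.1 - r) (p5 : ∀ Q ∈ R, 15 ∣ (ψ Q).2.2) :
    ∑ Q ∈ gen n R fun _ => 1, (GG (sh l (ψ Q)) - GG (ψ Q)) +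
      ∑ Q ∈ gen n R ε, (GG (sh l (ψ Q)) - GG (ψ Q)) = T2 := by
  have hD := hn.neg
  obtain ⟨r3, r5⟩ := not_dvd_r hn hr
  have hP := Nat.prime_iff_prime_int.mp hl
  have h15 : ¬ (l : ℤ) ∣ 15 := fun h => absurd (Int.le_of_dvd (by norm_num) h) (by omega)
  have p2 := fun Q hQ => (hR.mem Q hQ).of_feq hD (p1 Q hQ)
  have s1 := fun P (h : IsHg (-n) r P) h1 => (sh_spec hD hl.pos h h1).1
  have s2 : ∀ P : Fm, 15 ∣ P.2.2 → 15 ∣ (sh l P).2.2 := fun P h => h.mul_right _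
  have hε0 : ∀ p ∈ n.primeFactors, ε p ≠ 0 := fun p hp => by rcases hε.1 p hp with e | e <;> simp [e]
  have hε1 : ∀ p ∈ n.primeFactors, 1 = ε p * ε p := fun p hp => by
    rcases hε.1 p hp with e | e <;> simp [e]
  have hs : ∀ Q ∈ R, ∀ p ∈ n.primeFactors, hil n p (sh l (ψ Q)).2.2 = ε p * hil n p Q.2.2 :=
    fun Q hQ p hp => by
      rw [sh, hil_mul (Nat.prime_of_mem_primeFactors hp), hil_feq hn.sqf hp (hR.mem _ hQ) (p1 Q hQ),
        hlε p hp, mul_comm]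
  obtain ⟨ω, ho⟩ := exists_inv hR (j := fun P => fl (sh l P)) (Ty := fun P => IsHg (-n) r P ∧
      15 * (l : ℤ) ∣ P.1 ∧ 30 * (l : ℤ) ∣ P.2.1 - r ∧ 15 ∣ P.2.2) p1
    (fun Q hQ => ⟨p2 Q hQ, p3 Q hQ, p4 Q hQ, p5 Q hQ⟩)
    (fun P ⟨h1, h2, h3, h4⟩ => by
      have := IsHg_fl hD (s1 P h1 h2) (s2 P h4)
      refine ⟨this, ⟨this, mul_dvd_mul h4 dvd_rfl, h3, (s1 P h1 h2).lev⟩, ?_⟩
      simp only [fl, sh, Int.mul_ediv_cancel _ hP.ne_zero,
        Int.ediv_mul_cancel ((dvd_mul_left _ _).trans h2)])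
    fun P P' h h' e => by
      obtain ⟨k1, k2⟩ := sh_feq hD hl (by omega) h15 hr' h.1 h.2.1 h.2.2.1 h'.2.1 h'.2.2.1 e
      obtain ⟨k3, k4⟩ := fl_feq hD r3 r5 (s1 P h.1 h.2.1) (s2 P h.2.2.2) (s2 P' h'.2.2.2) k1
      exact ⟨k3, k4.trans k2⟩
  have e1 := sum_gen (R := R) (β := ω) (fun Q hQ Q' hQ' e => by
      rw [← (ho Q hQ).2.2.1, e, (ho Q' hQ').2.2.1]) (η := ε) (ε := fun _ => 1) (ε' := ε)
    (fun Q hQ => ⟨(ho Q hQ).1, fun p hp => by
      rw [← hil_feq hn.sqf hp (hR.mem _ (ho Q hQ).1) (ho Q hQ).2.1, fl,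
        hil_a hn.sqf hp (s1 _ (p2 Q hQ) (p3 Q hQ)).disc (s1 _ (p2 Q hQ) (p3 Q hQ)).pos, hs Q hQ p hp]⟩)
    hε0 (by simp) fun Q => GG (fl (sh l (ψ Q))) - GG (ψ Q)
  rw [sum_congr (s₁ := gen n R fun _ => 1) rfl fun Q hQ =>
    eq_neg_of_add_eq_zero_left (ho Q (mem_of_mem_filter _ hQ)).2.2.2, sum_neg_distrib] at e1
  choose! φ q1 q2 using fun Q hQ => hR.ex _ (s1 _ (p2 Q hQ) (p3 Q hQ))
  have hb : ∀ Q ∈ R, (l : ℤ) ∣ (ψ Q).2.1 - r := fun Q hQ => (dvd_mul_left _ _).trans (p4 Q hQ)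
  have i1 : Set.InjOn φ R := fun Q hQ Q' hQ' e => hR.uniq Q hQ Q' hQ' (((p1 Q hQ).trans
    (feq_of_sh hl (by omega) (fun h => hr' (by simpa using dvd_sub h (hb Q hQ)))
      ((dvd_mul_left _ _).trans (p3 Q hQ)) ((dvd_mul_left _ _).trans (p3 Q' hQ'))
      (by simpa using dvd_sub (hb Q' hQ') (hb Q hQ))
      ((q2 Q hQ).symm.trans (e ▸ q2 Q' hQ')))).trans (p1 Q' hQ').symm)
  have i2 : ∀ Q ∈ R, φ Q ∈ R ∧ ∀ p ∈ n.primeFactors, hil n p (φ Q).2.2 = ε p * hil n p Q.2.2 :=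
    fun Q hQ => ⟨q1 Q hQ, fun p hp => by
      rw [← hil_feq hn.sqf hp (hR.mem _ (q1 Q hQ)) (q2 Q hQ), hs Q hQ p hp]⟩
  have i3 : ∀ η : ℕ → ℤ, ∑ Q ∈ gen n R η, (GG (ψ (φ Q)) - GG (fl (ψ (φ Q)))) =
      ∑ Q ∈ gen n R η, (GG (sh l (ψ Q)) - GG (fl (sh l (ψ Q)))) := fun η =>
    sum_congr rfl fun Q hQ => by
      have h1 := mem_of_mem_filter _ hQ
      linear_combination (norm := abel_nf) -(fl_feq hD r3 r5 (p2 _ (q1 Q h1)) (p5 _ (q1 Q h1))
        (s2 _ (p5 Q h1)) ((p1 _ (q1 Q h1)).symm.trans (q2 Q h1))).2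
  have e2 := sum_gen i1 (ε := fun _ => 1) (ε' := ε) i2 hε0 (by simp)
    fun Q => GG (ψ Q) - GG (fl (ψ Q))
  have e3 := sum_gen i1 (ε := ε) (ε' := fun _ => 1) i2 hε0 hε1 fun Q => GG (ψ Q) - GG (fl (ψ Q))
  have e4 := sum_gen i1 (ε := ε) (ε' := fun _ => 1) i2 hε0 hε1 fun _ => 1
  obtain ⟨X, -, x2, -, x4, x5⟩ := sum_flip hn hr hR p1 p5 ε
  obtain rfl : X = ∅ := eq_empty_of_forall_notMem fun Q hQ => by
    obtain ⟨d, d', a1, a2, a3, -⟩ := x5 Q hQ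
    exact hno d d' a1 a2 a3
  rw [← card_eq_sum_ones, ← card_eq_sum_ones] at e4
  rw [i3, sum_flip_one hn hr hR hB p1 p5 (by simpa [e4] using x2)] at e3
  rw [i3, x4, sum_empty] at e2
  simp only [sum_sub_distrib] at e1 e2 e3 ⊢
  linear_combination (norm := abel_nf) e2 + e3 - e1

lemma ker_small {ι : Type*} [Fintype ι] [DecidableEq ι] [Nonempty ι] (M : Matrix ι ι (ZMod 2))
    (h1 : M *ᵥ 1 = 0) (h : ∀ e : ι → ZMod 2, ∑ i, e i = 0 → ∃ x, M *ᵥ x = e) (x : ι → ZMod 2)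
    (hx : M *ᵥ x = 0) : x = 0 ∨ x = 1 := by
  have := Fact.mk Nat.prime_two
  let σ : (ι → ZMod 2) →ₗ[ZMod 2] ZMod 2 := ∑ i, LinearMap.proj i
  have hle : LinearMap.ker σ ≤ LinearMap.range M.mulVecLin := fun e he =>
    h e (by simpa [σ] using he)
  have e1 := LinearMap.finrank_range_add_finrank_ker M.mulVecLin
  have e2 := LinearMap.finrank_range_add_finrank_ker σ
  have e3 := Submodule.finrank_mono hle
  have e4 := (LinearMap.range σ).finrank_le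
  rw [Module.finrank_self] at e4
  obtain ⟨v, hv⟩ := finrank_le_one_iff.mp
    (show Module.finrank (ZMod 2) (LinearMap.ker M.mulVecLin) ≤ 1 by omega)
  obtain ⟨a, ha⟩ := hv ⟨1, h1⟩
  obtain ⟨b, hb⟩ := hv ⟨x, hx⟩
  have ha' := congrArg Subtype.val ha
  have hb' := congrArg Subtype.val hb
  simp only [SetLike.val_smul] at ha' hb'
  rcases zmod_two_cases a with rfl | rfl
  · exact absurd ha' (by simp)
  rw [one_smul] at ha'
  rw [← hb', ha']
  rcases zmod_two_cases b with rfl | rfl <;> simp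

/-- A genus without ambiguous classes. -/
theorem exists_genus (hn : Good n) (hB : ¬ CondB n) : ∃ ε, Sgn n ε ∧
    ∀ d d' : ℤ, d * d' = n → 0 < d → ¬ ∀ p ∈ n.primeFactors, hil n p d = ε p := by
  classical
  have hP : ∀ p ∈ n.primeFactors, p.Prime := fun p hp => Nat.prime_of_mem_primeFactors hp
  have h4 := hn.mod4
  have : Nonempty n.primeFactors := (Nat.nonempty_primeFactors.mpr (by omega)).coe_sort
  rw [condB_iff hn.sqf, condS_iff hP (fun q => by simp)] at hB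
  obtain ⟨e, he, h⟩ : ∃ e : n.primeFactors → ZMod 2, ∑ i, e i = 0 ∧
      ∀ x, redei n.primeFactors (fun q => (q : ℤ)) *ᵥ x ≠ e := by
    by_contra! h
    exact hB (ker_small _ (redei_mulVec_one _ _) h)
  let ε : ℕ → ℤ := fun p => if h : p ∈ n.primeFactors then (if e ⟨p, h⟩ = 0 then 1 else -1) else 1
  have e1 : ∀ p : n.primeFactors, e p = if ε p = 1 then 0 else 1 := fun p => by
    rcases zmod_two_cases (e p) with k | k <;> simp [ε, k, -Nat.mem_primeFactors]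
  have e2 : ∀ p ∈ n.primeFactors, ε p = 1 ∨ ε p = -1 := fun p hp => by
    simp only [ε, hp, dif_pos]; split_ifs <;> simp
  refine ⟨ε, ⟨e2, ?_⟩, fun d d' hd h0 k => ?_⟩
  · rw [sum_congr rfl fun p _ => e1 p, sum_coe_sort n.primeFactors
      fun p => (if ε p = 1 then 0 else 1 : ZMod 2), (sum_sign e2).1] at he
    by_contra k
    simp [k] at he
  set S := univ.filter (fun q : n.primeFactors => ((q : ℕ) : ℤ) ∣ d) with hS
  have a1 : d = ∏ q ∈ S, ((q : ℕ) : ℤ) := by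
    have := natAbs_eq_prod hn.sqf (d := d) ⟨d', hd.symm⟩
    rw [← Nat.cast_prod, ← this]; omega
  have a2 : d' = ∏ q ∈ Sᶜ, ((q : ℕ) : ℤ) := by
    apply mul_left_cancel₀ h0.ne'
    rw [hd, ← prod_coe_primeFactors hn.sqf]
    conv_rhs => rw [a1]
    exact (prod_mul_prod_compl S _).symm
  refine h (ind _ S) (funext fun p => ?_)
  have hp := hP p p.2
  have := Fact.mk hp
  rw [e1, ← k p p.2]
  by_cases hpS : p ∈ S
  · have h1 : ((p : ℕ) : ℤ) ∣ d := (mem_filter.mp hpS).2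
    have h2 := not_dvd_of_squarefree_mul hp
      ((mul_comm d d' ▸ hd) ▸ Int.squarefree_natCast.mpr hn.sqf) h1
    rw [redei_mulVec_ind_mem hP (fun q => by simp) S hpS, ← a2, aleg_eq_legendre h2,
      hil_eq_of_norm hn.sqf hp (Nat.dvd_of_mem_primeFactors p.2) h0.ne' (l := d')
        (by rintro rfl; omega) one_ne_zero (u := 0) (v := 1) (by rw [hd]; ring),
      hil_of_not_dvd hp h2, jacobiSym.legendreSym.to_jacobiSym]
  · have h2 : ¬ ((p : ℕ) : ℤ) ∣ d := by simpa [hS] using hpS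
    rw [redei_mulVec_ind_not_mem hP (fun q => by simp) S hpS, ← a1, aleg_eq_legendre h2,
      hil_of_not_dvd hp h2, jacobiSym.legendreSym.to_jacobiSym]

end Pool.Agent.Lib.MP_696deb_nt.Gal
end

-- part Pool.Agent.Lib.MP_696deb_nt.C5Gal
section

/-! The Heegner point has infinite order under the weaker Redei condition. -/

set_option autoImplicit false

open Complex Finset NumberTheorySymbols AddCommGroup

namespace Pool.Agent.Lib.MP_696deb_nt.Gal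

open Unif TYZ

variable {σ : ℂ ≃+* ℂ} {r : ℤ} {R : Finset Fm} {n : ℕ}

/-- The points defined over a multiquadratic field of conductor prime to `30`. -/
noncomputable def Nq : AddSubgroup (Pt W1 ℂ) where
  carrier := {P | ∃ m : ℕ, m.Coprime 30 ∧ ∀ (σ : ℂ ≃+* ℂ) (κ : ℤ),
    (∀ ζ : ℂ, ζ ^ m = 1 → σ ζ = ζ ^ κ) → (∀ p ∈ m.primeFactors, J(κ | p) = 1) →
      pmap (σ : ℂ →+* ℂ) P = P}
  zero_mem' := ⟨1, by norm_num, fun _ _ _ _ => map_zero _⟩
  add_mem' := by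
    rintro P Q ⟨m, hm, h⟩ ⟨m', hm', h'⟩
    have h0 : m * m' ≠ 0 := fun e => by simpa [e] using hm.mul_left hm'
    refine ⟨m * m', hm.mul_left hm', fun σ κ hσ hκ => ?_⟩
    rw [map_add, h σ κ (fun ζ e => hσ ζ (by rw [pow_mul, e, one_pow]))
      fun p hp => hκ p (Nat.primeFactors_mono (dvd_mul_right _ _) h0 hp),
      h' σ κ (fun ζ e => hσ ζ (by rw [mul_comm, pow_mul, e, one_pow]))
      fun p hp => hκ p (Nat.primeFactors_mono (dvd_mul_left _ _) h0 hp)]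
  neg_mem' := by
    rintro P ⟨m, hm, h⟩
    exact ⟨m, hm, fun σ κ hσ hκ => by rw [map_neg, h σ κ hσ hκ]⟩

lemma nq_le : Nq ≤ Nab W1 := fun _ ⟨m, hm, h⟩ =>
  ⟨m, hm, fun σ hσ => h σ 1 (by simpa using hσ) (by simp)⟩

lemma nq_sq {P : Pt W1 ℂ} (h : P ∈ Nq) (σ : ℂ ≃+* ℂ) :
    pmap (σ : ℂ →+* ℂ) (pmap (σ : ℂ →+* ℂ) P) = P := by
  obtain ⟨m, hm, h⟩ := h
  obtain ⟨κ, h1, h2⟩ := exists_pow_zeta σ (N := m) (Nat.pos_of_ne_zero (by rintro rfl; simp at hm))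
  rw [pmap_pmap]
  refine h (σ.trans σ) (κ ^ 2) (fun ζ e => ?_) fun p hp => ?_
  · rw [RingEquiv.trans_apply, h2 ζ e, map_zpow₀, h2 ζ e, ← zpow_mul, pow_two]
  · rw [jacobiSym.pow_left]
    exact jacobiSym.sq_one (Int.isCoprime_iff_gcd_eq_one.mp (h1.of_isCoprime_of_dvd_right
      (Int.natCast_dvd_natCast.mpr (Nat.dvd_of_mem_primeFactors hp))))

lemma pmap_Zg (hn : Good n) (hR : HReps (-n) r R) {κ : ℤ} (hκ : ∀ ζ : ℂ, ζ ^ n = 1 → σ ζ = ζ ^ κ)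
    (hJ : J(κ | n) = 1) {ε ε' : ℕ → ℤ} (hε : ∀ p ∈ n.primeFactors, ε' p = J(κ | p) * ε p) :
    Zg n R ε' - pmap (σ : ℂ →+* ℂ) (Zg n R ε) ∈ C15 := by
  obtain ⟨β, h1, h2⟩ := gal_gen hn hR hκ hJ
  rw [Zg, Zg, map_sum, ← sum_gen h1 (fun Q hQ => ⟨(h2 Q hQ).1, (h2 Q hQ).2.1⟩) (fun p hp e => by
    rw [jac_eq_prod _ hn.sqf, prod_eq_zero hp e] at hJ; omega) hε, ← sum_sub_distrib]
  refine sum_mem fun Q hQ => ?_
  have := mem_of_mem_filter _ hQ
  obtain ⟨z, k1, k2⟩ := u1_of_pt ((hR.mem _ this).im_pos hn.neg)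
    ((hR.mem _ (h2 Q this).1).im_pos hn.neg) (h2 Q this).2.2
  exact ⟨z, k1, by rw [← k2, add_sub_cancel_left]⟩

theorem four_Zg_nq (hn : Good n) (hR : HReps (-n) r R) (ε : ℕ → ℤ) : 4 • Zg n R ε ∈ Nq := by
  refine ⟨n, hn.cop30, fun σ κ hσ hκ => ?_⟩
  have := (C15_spec (pmap_Zg hn hR hσ (by rw [jac_eq_prod _ hn.sqf, prod_eq_one hκ]) (ε := ε)
    (ε' := ε) fun p hp => by rw [hκ p hp, one_mul])).1
  rw [map_nsmul, eq_comm, ← sub_eq_zero, ← smul_sub, this]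

/-- The shift by a prime ideal in a given genus. -/
lemma shift_data (hn : Good n) (hr : 60 ∣ r ^ 2 + n) (hR : HReps (-n) r R) {η : ℕ → ℤ}
    (hη : Sgn n η) : ∃ (l : ℕ) (r : ℤ) (ψ : Fm → Fm) (F : Fm → Pt W1 ℂ), l.Prime ∧ 30 < l ∧
      60 ∣ r ^ 2 + n ∧ HReps (-n) r R ∧ ¬ (l : ℤ) ∣ r ∧ (∀ p ∈ n.primeFactors, hil n p l = η p) ∧
      (∀ Q ∈ R, FEq Q (ψ Q)) ∧ (∀ Q ∈ R, 15 * (l : ℤ) ∣ (ψ Q).1) ∧
      (∀ Q ∈ R, 30 * (l : ℤ) ∣ (ψ Q).2.1 - r) ∧ (∀ Q ∈ R, 15 ∣ (ψ Q).2.2) ∧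
      (∀ Q ∈ R, 2 • F Q = GG (sh l (ψ Q)) - GG (ψ Q)) ∧
      (∀ ε ε' : ℕ → ℤ, (∀ p ∈ n.primeFactors, ε' p = η p * ε p) →
        Zg n R ε' - Zg n R ε - ∑ Q ∈ gen n R ε, F Q ∈ C15) ∧
      ∀ (σ : ℂ ≃+* ℂ) (κ : ℤ), (∀ ζ : ℂ, ζ ^ n = 1 → σ ζ = ζ ^ κ) → J(κ | n) = 1 →
        ∀ ε ε' : ℕ → ℤ, (∀ p ∈ n.primeFactors, ε' p = J(κ | p) * ε p) →
          pmap (σ : ℂ →+* ℂ) (∑ Q ∈ gen n R ε, F Q) = ∑ Q ∈ gen n R ε', F Q := by
  have hD := hn.neg
  obtain ⟨l, h0, hl, hJ, s, hs⟩ := exists_prime_sgn hn hη (30 + n)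
  have hP := Nat.prime_iff_prime_int.mp hl
  have nd : ∀ k : ℕ, 0 < k → k ≤ 30 + n → ¬ (l : ℤ) ∣ k := fun k h1 h2 h =>
    absurd (Nat.le_of_dvd h1 (Int.natCast_dvd_natCast.mp h)) (by omega)
  have c30 : IsCoprime (l : ℤ) 30 := hP.coprime_iff_not_dvd.mpr (nd 30 (by omega) (by omega))
  obtain ⟨r, hR, hr, hr'⟩ : ∃ r, HReps (-n) r R ∧ 60 ∣ r ^ 2 + n ∧ (l : ℤ) ∣ r ^ 2 + n := by
    obtain ⟨u, v, e⟩ := c30
    refine ⟨r + 30 * v * (s - r), hR.congr ⟨-(v * (s - r)), by ring⟩, dvd_eq (dvd_add hr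
      (dvd_mul_right 60 (r * v * (s - r) + 15 * (v * (s - r)) ^ 2))) (by ring), dvd_eq (dvd_add hs
      (dvd_mul_right _ (u * (r - s) * (r + 30 * v * (s - r) + s)))) ?_⟩
    linear_combination (s - r) * (r + 30 * v * (s - r) + s) * e
  obtain ⟨r3, r5⟩ := not_dvd_r hn hr
  have hlr : ¬ (l : ℤ) ∣ r := fun h =>
    nd n (by omega) (by omega) ((dvd_add_right (dvd_pow h two_ne_zero)).mp hr')
  have : ∀ Q ∈ R, ∃ P, FEq Q P ∧ 15 * (l : ℤ) ∣ P.1 ∧ 30 * (l : ℤ) ∣ P.2.1 - r ∧ 15 ∣ P.2.2 :=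
    fun Q hQ => by
      obtain ⟨a, b, c, d, e, k1, k2⟩ := exists_type (r := r) Q (N := 15) hP (nd 2 (by omega) (by omega))
        (nd 15 (by omega) (by omega)) (by simpa [(hR.mem Q hQ).disc] using hr')
      have k0 : FEq Q _ := ⟨a, b, c, d, e, rfl⟩
      have k3 := (hR.mem Q hQ).of_feq hD k0
      have k4 := (IsCoprime.of_mul_right_right (y := 2) c30).symm.mul_dvd k3.lev k1
      have k5 := c30.symm.mul_dvd k3.res k2
      generalize fmap Q a b (15 * c) d = P at *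
      obtain ⟨u, v, e'⟩ : IsCoprime P.2.1 15 := IsCoprime.mul_right (y := 3) (z := 5)
        (Int.prime_three.coprime_iff_not_dvd.mpr (by have := k3.res; omega)).symm
        (prime_five.coprime_iff_not_dvd.mpr (by have := k3.res; omega)).symm
      obtain ⟨A, hA⟩ := k4
      refine ⟨_, k0.trans ⟨1, -(u * P.2.2), 0, 1, by ring, rfl⟩, ⟨A, ?_⟩,
        dvd_eq (dvd_sub k5 (dvd_mul_right _ (A * u * P.2.2))) ?_,
        ⟨l * A * (u * P.2.2) ^ 2 + v * P.2.2, ?_⟩⟩ <;> simp only [fmap, fval, hA]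
      · ring
      · ring
      · linear_combination -P.2.2 * e'
  choose! ψ p1 p3 p4 p5 using this
  have p2 := fun Q hQ => (hR.mem Q hQ).of_feq hD (p1 Q hQ)
  have s1 := fun Q hQ => sh_spec hD hl.pos (p2 Q hQ) (p3 Q hQ)
  choose! φ q1 q2 using fun Q hQ => hR.ex _ (s1 Q hQ).1
  have hb : ∀ Q ∈ R, (l : ℤ) ∣ (ψ Q).2.1 - r := fun Q hQ => (dvd_mul_left _ _).trans (p4 Q hQ)
  have i1 : Set.InjOn φ R := fun Q hQ Q' hQ' e => hR.uniq Q hQ Q' hQ' (((p1 Q hQ).trans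
    (feq_of_sh hl (by omega) (fun h => hlr (by simpa using dvd_sub h (hb Q hQ)))
      ((dvd_mul_left _ _).trans (p3 Q hQ)) ((dvd_mul_left _ _).trans (p3 Q' hQ'))
      (by simpa using dvd_sub (hb Q' hQ') (hb Q hQ))
      ((q2 Q hQ).symm.trans (e ▸ q2 Q' hQ')))).trans (p1 Q' hQ').symm)
  have hη' : ∀ p ∈ n.primeFactors, hil n p l = η p := fun p hp => by
    have h1 := Nat.prime_of_mem_primeFactors hp
    rw [hil_of_not_dvd h1 (not_dvd_of_prime_ne h1 hl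
      (by have := Nat.le_of_mem_primeFactors hp; omega)), hJ p hp]
  refine ⟨l, r, ψ, fun Q => u1 (Fi (l * froot (ψ Q))) - u1 (Fi (froot (ψ Q))), hl, by omega, hr, hR,
    hlr, hη', p1, p3, p4, p5, fun Q hQ => by rw [GG, GG, (s1 Q hQ).2, smul_sub],
    fun ε ε' hε => ?_, fun σ κ hσ hκ ε ε' hε => ?_⟩
  · rw [Zg, Zg, ← sum_gen i1 (fun Q hQ => ⟨q1 Q hQ, fun p hp => by
      rw [← hil_feq hn.sqf hp (hR.mem _ (q1 Q hQ)) (q2 Q hQ), sh,
        hil_mul (Nat.prime_of_mem_primeFactors hp), hil_feq hn.sqf hp (hR.mem _ hQ) (p1 Q hQ),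
        hη' p hp, mul_comm]⟩)
      (fun p hp => by rcases hη.1 p hp with e | e <;> simp [e]) hε, ← sum_sub_distrib,
      ← sum_sub_distrib]
    refine sum_mem fun Q hQ => ?_
    replace hQ := mem_of_mem_filter _ hQ
    convert sub_mem (sub_mem_C15 hD (hR.mem _ (q1 Q hQ)) (q2 Q hQ))
      (sub_mem_C15 hD (hR.mem _ hQ) (p1 Q hQ)) using 1
    simp only [(s1 Q hQ).2]
    abel
  obtain ⟨β, h1, h2⟩ := gal_gen hn hR hσ hκ
  rw [map_sum, ← sum_gen h1 (fun Q hQ => ⟨(h2 Q hQ).1, (h2 Q hQ).2.1⟩) (fun p hp e => by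
    rw [jac_eq_prod _ hn.sqf, prod_eq_zero hp e] at hκ; omega) hε]
  refine sum_congr rfl fun Q hQ => ?_
  replace hQ := mem_of_mem_filter _ hQ
  have h3 := (h2 Q hQ).1
  refine gal_shift hD hl.pos (p2 Q hQ) (p3 Q hQ) (p4 Q hQ) (hP.coprime_iff_not_dvd.mpr hlr).symm
    (p2 _ h3) (p3 _ h3) (p4 _ h3) (by simpa [hκ] using aut_del hn hσ) ?_
  rw [← (feq_iff_pt hD (hR.mem _ hQ) (p2 _ hQ)).mp (p1 _ hQ),
    ← (feq_iff_pt hD (hR.mem _ h3) (p2 _ h3)).mp (p1 _ h3), (h2 Q hQ).2.2]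

theorem Zg_sub_nq (hn : Good n) (hr : 60 ∣ r ^ 2 + n) (hR : HReps (-n) r R) {ε ε' : ℕ → ℤ}
    (hε : Sgn n ε) (hε' : Sgn n ε') : Zg n R ε' - Zg n R ε ∈ Nq := by
  obtain ⟨l, r, ψ, F, -, -, -, -, -, -, -, -, -, -, -, h1, h2⟩ := shift_data hn hr hR
    (η := fun p => ε' p * ε p)
    ⟨fun p hp => by rcases hε.1 p hp with e | e <;> rcases hε'.1 p hp with e' | e' <;> simp [e, e'],
      by rw [prod_mul_distrib, hε.2, hε'.2, mul_one]⟩
  refine ⟨n, hn.cop30, fun σ κ hσ hκ => ?_⟩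
  rw [← sub_add_cancel (Zg n R ε' - Zg n R ε) (∑ Q ∈ gen n R ε, F Q), map_add,
    (C15_spec (h1 ε ε' fun p hp => by rcases hε.1 p hp with e | e <;> simp [e])).2,
    h2 σ κ hσ (by rw [jac_eq_prod _ hn.sqf, prod_eq_one hκ]) ε ε fun p hp => by
      rw [hκ p hp, one_mul]]

/-- Points divisible by a power of two, up to torsion and odd multiples. -/
noncomputable def HQ (j : ℕ) : AddSubgroup (Pt W1 ℂ) where
  carrier := {P | ∃ a : ℤ, Odd a ∧ ∃ R ∈ Nq, a • P - (2 : ℤ) ^ j • R ∈ torsion (Pt W1 ℂ)}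
  zero_mem' := ⟨1, odd_one, 0, zero_mem _, by simp⟩
  add_mem' := by
    rintro P Q ⟨a, ha, R, hR, h⟩ ⟨b, hb, S, hS, h'⟩
    refine ⟨a * b, ha.mul hb, b • R + a • S, add_mem (zsmul_mem hR _) (zsmul_mem hS _), ?_⟩
    convert add_mem (zsmul_mem h b) (zsmul_mem h' a) using 1
    module
  neg_mem' := by
    rintro P ⟨a, ha, R, hR, h⟩
    refine ⟨a, ha, -R, neg_mem hR, ?_⟩
    convert neg_mem h using 1
    module

lemma HQ_nab (j : ℕ) {R : Pt W1 ℂ} (h : R ∈ Nq) : (2 : ℤ) ^ j • R ∈ HQ j :=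
  ⟨1, odd_one, R, h, by simp⟩

lemma HQ_smul (i : ℕ) {j : ℕ} {P : Pt W1 ℂ} (h : P ∈ HQ j) : (2 : ℤ) ^ i • P ∈ HQ (i + j) := by
  obtain ⟨a, ha, R, hR, h⟩ := h
  refine ⟨a, ha, R, hR, ?_⟩
  convert zsmul_mem h (2 ^ i) using 1
  rw [pow_add]
  module

lemma HQ_tors {j : ℕ} {a : ℤ} (ha : Odd a) {P Q : Pt W1 ℂ} (h : a • P - Q ∈ torsion (Pt W1 ℂ))
    (hQ : Q ∈ HQ j) : P ∈ HQ j := by
  obtain ⟨b, hb, R, hR, h'⟩ := hQ
  refine ⟨b * a, hb.mul ha, R, hR, ?_⟩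
  convert add_mem (zsmul_mem h b) h' using 1
  module

/-- The statement proved by induction. -/
def ClaimQ (n : ℕ) : Prop := ∀ (r : ℤ) (R : Finset Fm), Good n → 60 ∣ r ^ 2 + n → HReps (-n) r R →
  ∀ S ⊆ n.primeFactors, S ≠ ∅ → S ≠ n.primeFactors → 4 • u1 (HP n S R) ∈ HQ #n.primeFactors

section

variable (hn : Good n) (hr : 60 ∣ r ^ 2 + n) (hR : HReps (-n) r R)

include hn hr hR

lemma sum_cosetQ {p q : ℕ} (hp : p ∈ n.primeFactors) (hq : q ∈ n.primeFactors.erase p) :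
    4 • ∑ T ∈ ((n.primeFactors.erase p).erase q).powerset, u1 (HP n ({q} ∪ T) R) ∈
      HQ #n.primeFactors := by
  let ε : ℕ → ℤ := fun l => if l ∈ (n.primeFactors.erase p).erase q then 1 else -1
  have e1 : ∀ f : ℕ → ℤ, ∏ l ∈ n.primeFactors, f l =
      f p * (f q * ∏ l ∈ (n.primeFactors.erase p).erase q, f l) := fun f => by
    rw [mul_prod_erase _ _ hq, mul_prod_erase _ _ hp]
  have e2 : ∀ P : ℕ → Prop, (∀ l ∈ n.primeFactors, P l) ↔
      P p ∧ P q ∧ ∀ l ∈ (n.primeFactors.erase p).erase q, P l := fun P => by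
    conv_lhs => rw [← insert_erase hp, ← insert_erase hq]
    simp only [forall_mem_insert]
  have e3 : ε p = -1 := by simp [ε]
  have e4 : ε q = -1 := by simp [ε]
  have e5 : ∀ l ∈ (n.primeFactors.erase p).erase q, ε l = 1 := fun l hl => if_pos hl
  have h := Zg_sub_nq hn hr hR (ε := ε) (ε' := fun _ => 1)
    ⟨fun l _ => by simp only [ε]; split_ifs <;> simp, by rw [e1, e3, e4, prod_eq_one e5]; rfl⟩
    ⟨by simp, by simp⟩
  convert HQ_nab _ h using 1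
  rw [sum_HP n R (by simp), Zg, Zg, gen, gen, sum_filter, sum_filter, ← sum_sub_distrib, smul_sum,
    smul_sum, ← card_erase_add_one hp, ← card_erase_add_one hq]
  refine sum_congr rfl fun Q hQ => ?_
  obtain ⟨h1, h2⟩ := galData.sgn n r Q hn (hR.mem Q hQ)
  rw [prod_one_add_eq fun l hl => h1 l (mem_of_mem_erase (mem_of_mem_erase hl)), hilS,
    prod_singleton]
  have e6 : (∀ l ∈ (n.primeFactors.erase p).erase q, hil n l Q.2.2 = ε l) ↔
      ∀ l ∈ (n.primeFactors.erase p).erase q, hil n l Q.2.2 = 1 :=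
    forall₂_congr fun l hl => by rw [e5 l hl]
  simp only [e2, e3, e4, e6]
  by_cases h3 : ∀ l ∈ (n.primeFactors.erase p).erase q, hil n l Q.2.2 = 1
  · rw [e1, prod_eq_one h3] at h2
    rcases h1 p hp with h4 | h4 <;> rcases h1 q (mem_of_mem_erase hq) with h5 | h5 <;>
      simp only [h4, h5] at h2 ⊢ <;> try omega
    · rw [if_pos h3, if_pos ⟨trivial, trivial, h3⟩, if_neg (by simp)]
      module
    · rw [if_pos h3, if_neg (by simp), if_pos ⟨trivial, trivial, h3⟩]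
      module
  · simp only [h3, and_false, if_false, mul_zero, zero_smul, smul_zero, sub_self]

lemma eight_memQ (hC : ClaimQ n) : 8 • u1 (HP n ∅ R) ∈ HQ #n.primeFactors := by
  obtain ⟨p, hp⟩ := Nat.nonempty_primeFactors.mpr (show 1 < n by have := hn.mod4; omega)
  have h1 := HQ_nab #n.primeFactors (four_Zg_nq hn hR fun _ => 1)
  have h2 := sum_all galData hn hR hp
  rw [← add_sum_erase _ _ (empty_mem_powerset _), ← eq_sub_iff_add_eq] at h2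
  have h3 : 4 • ∑ T ∈ (n.primeFactors.erase p).powerset.erase ∅, u1 (HP n T R) ∈
      HQ #n.primeFactors := by
    rw [smul_sum]
    refine sum_mem fun T hT => ?_
    have h4 := mem_powerset.mp (mem_of_mem_erase hT)
    exact hC r R hn hr hR T (h4.trans (erase_subset _ _)) (ne_of_mem_erase hT)
      fun h => notMem_erase _ _ (h4 (h ▸ hp))
  convert sub_mem h1 (nsmul_mem h3 2) using 1
  rw [h2, ← card_erase_add_one hp, pow_succ]
  module

end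

lemma stepQ (hV : VData) {A B : ℕ} {r : ℤ} {R : Finset Fm} (hn : Good (A * B))
    (hr : 60 ∣ r ^ 2 + (A * B : ℕ)) (hR : HReps (-(A * B : ℕ)) r R) (hJ : J(-15 | B) = -1)
    (hA : A.primeFactors ≠ ∅) (h : (A % 60 = 1 ∨ A % 60 = 49) ∨ 2 ≤ #A.primeFactors)
    (ih : ∀ m : ℕ, #m.primeFactors < #(A * B).primeFactors → ClaimQ m) :
    4 • u1 (HP (A * B) A.primeFactors R) ∈ HQ #(A * B).primeFactors := by
  have hc : ∀ {A : ℕ}, Good (A * B) → #(A * B).primeFactors = #A.primeFactors + #B.primeFactors :=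
    fun hn => by
      have := Nat.coprime_of_squarefree_mul hn.sqf
      rw [this.primeFactors_mul, card_union_of_disjoint this.disjoint_primeFactors]
  have h0 := card_pos.mpr (nonempty_iff_ne_empty.mpr hA)
  by_cases h1 : A % 60 = 1 ∨ A % 60 = 49
  · obtain ⟨r', R', a, b, k1, k2, k3, k4⟩ := hV.v1 A B r R hn hr hR hJ
      (Nat.nonempty_primeFactors.mp (nonempty_iff_ne_empty.mpr hA)) h1
    have hB : Good B := ⟨hn.sqf.of_mul_right, by
      have := hn.mod4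
      rw [Nat.mul_mod, show A % 4 = 1 by omega] at this
      omega, Nat.Coprime.coprime_mul_left hn.cop⟩
    have k5 := HQ_smul #A.primeFactors (eight_memQ hB k1 k2 (ih B (by rw [hc hn]; omega)))
    refine HQ_tors k3 ?_ (hc hn ▸ zsmul_mem k5 b)
    convert nsmul_mem (tors_u1' galData k4) 4 using 1
    rw [pow_succ]
    module
  · have h2 := h.resolve_left h1
    obtain ⟨q, r', R', a, b, hq, k0, k1, k2, k3, k4⟩ := hV.v2 A B r R hn hr hR hJ h2 h1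
    have e := hc k0
    rw [hq.primeFactors, card_singleton] at e
    have hB : 0 < #B.primeFactors := card_pos.mpr (Nat.nonempty_primeFactors.mpr (by
      by_contra! h3
      interval_cases B <;> simp at hJ))
    have k5 := HQ_smul (#A.primeFactors - 1) (ih (q * B) (by rw [hc hn]; omega) r' R' k0 k1 k2 {q}
      (by simp [hq, k0.sqf.ne_zero]) (by simp) fun h => by
        rw [← h, card_singleton] at e; omega)
    rw [show #A.primeFactors - 1 + #(q * B).primeFactors = #(A * B).primeFactors by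
      rw [hc hn]; omega] at k5
    refine HQ_tors k3 ?_ (zsmul_mem k5 b)
    convert nsmul_mem (tors_u1' galData k4) 4 using 1
    module

theorem claimQ (hV : VData) (n : ℕ) : ClaimQ n := by
  induction hk : #n.primeFactors using Nat.strong_induction_on generalizing n with
  | _ k ih =>
  subst hk
  intro r R hn hr hR
  have hJ := jac15 hn hr
  have key : ∀ S ⊆ n.primeFactors, S ≠ ∅ → S ≠ n.primeFactors →
      4 • u1 (HP n S R) ∈ HQ #n.primeFactors ∨ ∃ p ∈ n.primeFactors, J(-15 | p) = 1 ∧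
        (S = {p} ∨ n.primeFactors \ S = {p}) := fun S hS h0 h1 => by
    obtain ⟨A, B, rfl, hB, hA⟩ := exists_even hn hJ hS
    have h2 : A.primeFactors ≠ ∅ := by
      rcases hA with h | h <;> rw [h]
      exacts [h0, fun h => h1 (hS.antisymm (sdiff_eq_empty_iff_subset.mp h))]
    by_cases h3 : 2 ≤ #A.primeFactors
    · left
      have := stepQ hV hn hr hR hB h2 (.inr h3) fun m hm => ih _ hm m rfl
      rcases hA with h | h <;> rw [h] at this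
      exacts [this, HP_compl galData hn hR hS ▸ this]
    · right
      obtain ⟨p, hp⟩ := card_eq_one.mp (show #A.primeFactors = 1 by
        have := card_pos.mpr (nonempty_iff_ne_empty.mpr h2); omega)
      have h4 := hn.sqf.ne_zero
      refine ⟨p, Nat.primeFactors_mono (dvd_mul_right _ _) h4 (hp ▸ mem_singleton_self p), ?_,
        hA.imp (fun h => h.symm.trans hp) fun h => h.symm.trans hp⟩
      rw [jacobiSym.mul_right' _ (left_ne_zero_of_mul h4) (right_ne_zero_of_mul h4), hB,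
        jac_eq_prod _ hn.sqf.of_mul_left, hp, prod_singleton] at hJ
      omega
  intro S hS h0 h1
  refine (key S hS h0 h1).elim id fun ⟨q, hq, hq1, e⟩ => ?_
  obtain ⟨p, hp, hp1⟩ : ∃ p ∈ n.primeFactors, J(-15 | p) ≠ 1 := by
    by_contra! h
    rw [jac_eq_prod _ hn.sqf, prod_eq_one h] at hJ
    omega
  have hq' : q ∈ n.primeFactors.erase p := mem_erase.mpr ⟨fun h => hp1 (h ▸ hq1), hq⟩
  have h2 := sum_cosetQ hn hr hR hp hq'
  rw [← add_sum_erase _ _ (empty_mem_powerset _), smul_add, smul_sum, union_empty,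
    AddSubgroup.add_mem_cancel_right _ (sum_mem fun T hT => ?_)] at h2
  · rcases e with rfl | e
    · exact h2
    · rwa [← e, HP_compl galData hn hR hS] at h2
  have h3 := mem_powerset.mp (mem_of_mem_erase hT)
  have h4 : p ∉ {q} ∪ T := fun h => by
    rcases mem_union.mp h with h | h
    · exact ne_of_mem_erase hq' (mem_singleton.mp h).symm
    · simpa using h3 h
  refine (key _ (union_subset (by simpa using hq)
    (h3.trans ((erase_subset _ _).trans (erase_subset _ _)))) (by simp)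
      fun h => h4 (h ▸ hp)).resolve_right ?_
  rintro ⟨l, -, hl, h | h⟩
  · obtain ⟨t, ht⟩ := nonempty_iff_ne_empty.mpr (ne_of_mem_erase hT)
    have h5 := mem_singleton.mp (h ▸ mem_union_right _ ht)
    have h6 := mem_singleton.mp (h ▸ mem_union_left _ (mem_singleton_self q))
    exact ne_of_mem_erase (h3 ht) (h5.trans h6.symm)
  · exact hp1 (mem_singleton.mp (h ▸ mem_sdiff.mpr ⟨hp, h4⟩) ▸ hl)

lemma fix_two {s : ℂ} (hs : s ^ 2 = -15) (hσ : σ s = s) {S : Pt W1 ℂ} (h : 2 • S = 0) :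
    pmap (σ : ℂ →+* ℂ) S = S := by
  rcases S with _ | ⟨x, y, hP⟩
  · rfl
  have h1 : dup2 (W1.baseChange ℂ) x = 0 := by
    by_contra k
    obtain ⟨y', h', e⟩ := two_nsmul_some hP k
    exact WeierstrassCurve.Affine.Point.some_ne_zero _ (e.symm.trans h)
  have h2 : y = -(x + 1) / 2 := by
    have := pow_eq_zero_iff two_ne_zero |>.mp ((dup2_eq hP).symm.trans h1)
    simp only [W1, WeierstrassCurve.baseChange, WeierstrassCurve.map_a₁, WeierstrassCurve.map_a₃,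
      map_one] at this
    linear_combination this / 2
  have h3 : σ x = x := by
    rcases mul_eq_zero.mp ((dup2_W1 x).symm.trans h1) with k | k
    · rw [eq_neg_of_add_eq_zero_left k, map_neg, map_one]
    · rcases sq_eq_sq_iff_eq_or_eq_neg.mp (show (8 * x + 1) ^ 2 = s ^ 2 by
        linear_combination 16 * k - hs) with e | e
      · rw [show x = (s - 1) / 8 by linear_combination e / 8]; simp [hσ, map_ofNat]
      · rw [show x = (-s - 1) / 8 by linear_combination e / 8]; simp [hσ, map_ofNat]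
  exact Shared.Weier.IsPer.some_congr h3 (by rw [h2]; simp [h3, map_ofNat])

/-- The Heegner point has infinite order. -/
theorem not_tors5 (hV : VData) (hn : Good n) (hB : CondB5 n) (hr : 60 ∣ r ^ 2 + n)
    (hR : HReps (-n) r R) : ¬ Tors (∑ Q ∈ R, Fi (froot Q)) := fun h => by
  by_cases hB' : CondB n
  · exact not_tors hV hn hB' hr hR h
  obtain ⟨p, hp⟩ := Nat.nonempty_primeFactors.mpr (show 1 < n by have := hn.mod4; omega)
  have h2 := sum_all galData hn hR hp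
  rw [← add_sum_erase _ _ (empty_mem_powerset _)] at h2
  have h3 : u1 (HP n ∅ R) ∈ torsion (Pt W1 ℂ) := TYZ.tors_u1 galData (by simpa [HP, hilS] using h)
  obtain ⟨a, ha, P, hP, h4⟩ : ∃ a : ℤ, Odd a ∧ ∃ P ∈ Nq,
      a • (4 • Zg n R fun _ => 1) - 2 • P ∈ torsion (Pt W1 ℂ) := by
    obtain ⟨a, ha, P, hP, h4⟩ : 4 • ∑ T ∈ (n.primeFactors.erase p).powerset.erase ∅,
        u1 (HP n T R) ∈ HQ #n.primeFactors := by
      rw [smul_sum]
      refine sum_mem fun T hT => ?_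
      have h4 := mem_powerset.mp (mem_of_mem_erase hT)
      exact claimQ hV n r R hn hr hR T (h4.trans (erase_subset _ _)) (ne_of_mem_erase hT)
        fun h => notMem_erase _ _ (h4 (h ▸ hp))
    refine ⟨a, ha, P, hP, IsOfFinAddOrder.of_nsmul (n := 2 ^ #(n.primeFactors.erase p)) ?_
      (by positivity)⟩
    rw [← eq_sub_iff_add_eq'] at h2
    rw [h2, ← card_erase_add_one hp, pow_succ] at h4
    change _ ∈ torsion (Pt W1 ℂ)
    convert add_mem h4 (zsmul_mem h3 (4 * a)) using 1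
    rw [← natCast_zsmul]
    push_cast
    module
  obtain ⟨m, hm, i, hi⟩ := exists_odd (fun _ h => nab_tors h)
    (nq_le (sub_mem (zsmul_mem (four_Zg_nq hn hR _) a) (nsmul_mem hP 2))) h4
  obtain ⟨ε, hε, hno⟩ := exists_genus hn hB'
  obtain ⟨l, r, ψ, F, l1, l2, hr, hR, l3, l4, p1, p3, p4, p5, f1, f2, f3⟩ := shift_data hn hr hR hε
  have hU := two_U hn hr hR hB hε hno l1 l2 l3 l4 p1 p3 p4 p5
  rw [← sum_congr (s₁ := gen n R fun _ => 1) rfl fun Q hQ => f1 Q (mem_of_mem_filter _ hQ),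
    ← sum_congr (s₁ := gen n R ε) rfl fun Q hQ => f1 Q (mem_of_mem_filter _ hQ), ← smul_sum,
    ← smul_sum] at hU
  obtain ⟨κ, -, -, k2, -⟩ := exists_prime_sgn hn hε 0
  obtain ⟨κ, k2, k5⟩ : ∃ κ : ℕ, (∀ p ∈ n.primeFactors, J((κ : ℤ) | p) = ε p) ∧ κ ≡ 1 [MOD 15] := by
    obtain ⟨a, a1, a2⟩ := Nat.chineseRemainder hn.cop κ 1
    exact ⟨a, fun p hp => k2 p hp ▸ jacobiSym.mod_left'
      (Int.natCast_modEq_iff.mpr (a1.of_dvd (Nat.dvd_of_mem_primeFactors hp))), a2⟩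
  have k3 : J((κ : ℤ) | n) = 1 := by rw [jac_eq_prod _ hn.sqf, prod_congr rfl k2, hε.2]
  obtain ⟨σ, hσ⟩ := exists_aut_zeta (N := n * 15) (by have := hn.mod4; omega) (a := κ)
    (Nat.isCoprime_iff_coprime.mpr (Nat.Coprime.mul_right (by
      by_contra k
      simp [jacobiSym.eq_zero_iff.mpr ⟨hn.sqf.ne_zero, show Int.gcd κ n ≠ 1 from k⟩] at k3)
      (by rw [Nat.Coprime, k5.gcd_eq]; rfl)))
  have hσn : ∀ ζ : ℂ, ζ ^ n = 1 → σ ζ = ζ ^ (κ : ℤ) := fun ζ e => hσ ζ (by rw [pow_mul, e, one_pow])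
  obtain ⟨s, hs⟩ := IsAlgClosed.exists_pow_nat_eq (-15 : ℂ) two_pos
  have k4 : σ s = s := by
    rw [aut_sqrt (N := 15) (by decide) ((Nat.squarefree_mul (m := 3) (n := 5) (by norm_num)).mpr
      ⟨Nat.prime_three.squarefree, Nat.prime_five.squarefree⟩) (σ := σ) (a := κ)
      (fun ζ e => hσ ζ (by rw [mul_comm, pow_mul, e, one_pow])) (x := s) (by rw [hs]; norm_num),
      jacobiSym.mod_left' (Int.natCast_modEq_iff.mpr k5)]
    simp
  have c1 := C15_spec (sub_mem (f2 (fun _ => 1) ε (by simp))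
    (pmap_Zg hn hR hσn k3 (ε := fun _ => 1) (ε' := ε) fun p hp => by rw [k2 p hp, mul_one]))
  have c2 := f3 σ κ hσn k3 (fun _ => 1) ε fun p hp => by rw [k2 p hp, mul_one]
  have c3 := nq_sq hP σ
  generalize (Zg n R fun _ => 1) = Z, Zg n R ε = Z', ∑ Q ∈ gen n R fun _ => 1, F Q = U,
    ∑ Q ∈ gen n R ε, F Q = U' at *
  have c4 := congr_arg (pmap (σ : ℂ →+* ℂ)) hi
  have c5 := fix_two hs k4 (S := pmap (σ : ℂ →+* ℂ) ((m * a) • 2 • Z - m • P) -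
    ((m * a) • 2 • Z - m • P)) (by
      simp only [map_zsmul, map_sub, map_nsmul, pmap_T1] at c4 ⊢
      linear_combination (norm := module) c4 - hi)
  have c6 := c1.2 σ
  have c7 := c1.1
  simp only [map_zsmul, map_sub, map_nsmul, pmap_T1, c2, c3] at c4 c5 c6
  obtain ⟨c, hc⟩ := hm.mul ha
  have c8 : (m * a) • T2 = 0 := by
    rw [← hU]
    linear_combination (norm := module) c5 + c4 - hi - (m * a) • 2 • c6 - (m * a) • c7
  rw [hc] at c8
  exact T2_ne (by linear_combination (norm := module) c8 - c • two_T2)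

end Pool.Agent.Lib.MP_696deb_nt.Gal
end
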