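import Pool.Agent.Lib.MP_696deb_nt.SelLowA

/-! Complete two-descent on the twist of the modular curve under the weaker Redei condition. -/

set_option autoImplicit false

open Finset Matrix WeierstrassCurve WeierstrassCurve.Affine NumberTheorySymbols

namespace Pool.Agent.Lib.MP_696deb_nt

namespace C5

open RankOne

theorem small_space {V : Type*} [AddCommGroup V] [Module (ZMod 2) V] [Module.Finite (ZMod 2) V]
    (h : Module.finrank (ZMod 2) V ≤ 2) {o u : V} (ho : o ≠ 0) (hu : u ≠ 0) (huo : u ≠ o)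
    (v : V) : v = 0 ∨ v = o ∨ v = u ∨ v = u + o := by
  have := Fact.mk Nat.prime_two
  by_contra hn
  push Not at hn
  obtain ⟨h0, h1, h2, h3⟩ := hn
  have e : ∀ a b : V, a + b = 0 → a = b := fun a b hab => by
    have h2 : b + b = 0 := by
      rw [← two_smul (ZMod 2) b, show (2 : ZMod 2) = 0 from rfl, zero_smul]
    rw [← add_zero a, ← h2, ← add_assoc, hab, zero_add]
  have hli : LinearIndependent (ZMod 2) ![o, u, v] := by
    rw [Fintype.linearIndependent_iff]
    intro g hg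
    simp only [Fin.sum_univ_three, cons_val_zero, cons_val_one, cons_val_two, Nat.succ_eq_add_one,
      Nat.reduceAdd, tail_cons, head_cons] at hg
    have key : g 0 = 0 ∧ g 1 = 0 ∧ g 2 = 0 := by
      rcases zmod_two_cases (g 0) with a | a <;> rcases zmod_two_cases (g 1) with b | b <;>
      rcases zmod_two_cases (g 2) with c | c <;>
      simp only [a, b, c, zero_smul, one_smul, zero_add, add_zero] at hg
      · exact ⟨a, b, c⟩
      · exact absurd hg h0
      · exact absurd hg hu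
      · exact absurd (e _ _ hg).symm h2
      · exact absurd hg ho
      · exact absurd (e _ _ hg).symm h1
      · exact absurd (e _ _ hg).symm huo
      · exact absurd ((e _ _ hg).symm.trans (add_comm _ _)) h3
    intro i
    fin_cases i
    · exact key.1
    · exact key.2.1
    · exact key.2.2
  have := hli.fintype_card_le_finrank
  simp only [Fintype.card_fin] at this
  omega

theorem jac_five {d : ℤ} (h : IsSquare (d : ZMod 5)) (h0 : ¬ ((5 : ℕ) : ℤ) ∣ d) :
    J(d | 5) = 1 := by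
  have : Fact (Nat.Prime 5) := ⟨Nat.prime_five⟩
  rw [← jacobiSym.legendreSym.to_jacobiSym]
  exact (legendreSym.eq_one_iff 5 (by rwa [Ne, ZMod.intCast_zmod_eq_zero_iff_dvd])).mpr h

variable {N : ℕ}

/-- The Redei matrix with the extra column of the prime five. -/
noncomputable def M5 (N : ℕ) : Matrix N.primeFactors (Option N.primeFactors) (ZMod 2) :=
  fun p j => j.elim (aleg p 5) (redei N.primeFactors pstar p)

theorem M5_mulVec (u : Option N.primeFactors → ZMod 2) (p : N.primeFactors) :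
    (M5 N *ᵥ u) p = aleg p 5 * u none + (redei N.primeFactors pstar *ᵥ fun q => u (some q)) p := by
  simp [mulVec, dotProduct, M5, Fintype.sum_option]

theorem five_not_mem (h5 : N % 5 = 1 ∨ N % 5 = 4) (p : N.primeFactors) : (p : ℕ) ≠ 5 := by
  intro h
  have := (Nat.mem_primeFactors.mp p.2).2.1
  rw [h] at this
  omega

theorem ker_transpose (hN : Squarefree N) (h4 : N % 4 = 3) (h5 : N % 5 = 1 ∨ N % 5 = 4)
    (hB : CondB5 N) (y : N.primeFactors → ZMod 2) (hy : (M5 N)ᵀ *ᵥ y = 0) : y = 0 ∨ y = 1 := by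
  have hP : ∀ p ∈ N.primeFactors, p.Prime := fun p hp => (Nat.mem_primeFactors.mp hp).1
  have hf : ∀ q : ℕ, ((q : ℤ)).natAbs = q := fun q => by simp
  obtain ⟨T, rfl⟩ := exists_ind y
  have h1 : redei N.primeFactors (fun q => (q : ℤ)) *ᵥ ind N.primeFactors T = 0 := by
    rw [← transpose_transpose (redei _ _), redei_transpose hN h4]
    ext q
    exact congrFun hy (some q)
  have nd : ∀ q ∈ T, ¬ ((5 : ℕ) : ℤ) ∣ ((q : ℕ) : ℤ) := fun q _ =>
    not_dvd_of_natAbs_eq Nat.prime_five (hP q q.2) (five_not_mem h5 q).symm (hf q)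
  have h2 : aleg 5 (∏ q ∈ T, ((q : ℕ) : ℤ)) = 0 := by
    rw [aleg_prod Nat.prime_five T _ nd]
    have := congrFun hy none
    simp only [mulVec, dotProduct, transpose_apply, M5, Option.elim, ind, mul_ite, mul_one,
      mul_zero, Pi.zero_apply] at this
    rw [← sum_filter] at this
    have e : univ.filter (· ∈ T) = T := by ext; simp
    rw [e] at this
    rw [← this]
    refine sum_congr rfl fun q _ => ?_
    have h2 := odd_of_mem (N := N) (by omega) q
    exact (aleg_pstar (hP q q.2) Nat.prime_five (by omega) (by norm_num)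
      (five_not_mem h5 q)).symm
  have key : (∏ q ∈ T, ((q : ℕ) : ℤ)) = 1 ∨ (∏ q ∈ Tᶜ, ((q : ℕ) : ℤ)) = 1 := by
    refine hB _ _ (by rw [prod_mul_prod_compl, prod_coe_primeFactors hN])
      (prod_pos fun q _ => by exact_mod_cast (hP q q.2).pos) (fun p hp hd => ?_)
      (fun p hp hd => ?_) (jac_five (aleg_eq_zero_iff.mp h2) fun hd => ?_)
    · obtain ⟨hp', hmem⟩ := dvd_prod_iff_mem hf _ hp hd
      rw [← aleg_eq_zero_iff]
      exact (redei_mulVec_ind_not_mem hP hf T (p := ⟨p, hp'⟩) (by simpa using hmem)).symm.trans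
        (congrFun h1 _)
    · obtain ⟨hp', hmem⟩ := dvd_prod_iff_mem hf _ hp hd
      rw [← aleg_eq_zero_iff]
      exact (redei_mulVec_ind_mem hP hf T (p := ⟨p, hp'⟩) hmem).symm.trans (congrFun h1 _)
    · obtain ⟨hp', -⟩ := dvd_prod_iff_mem hf _ Nat.prime_five hd
      exact five_not_mem h5 ⟨5, hp'⟩ rfl
  rcases key with h | h
  · left
    rw [eq_empty_of_prod_eq_one hf T h]
    ext q; simp [ind]
  · right
    have : T = univ := by simpa using eq_empty_of_prod_eq_one hf Tᶜ h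
    rw [this]
    ext q; simp [ind]

theorem finrank_ker (hN : Squarefree N) (h4 : N % 4 = 3) (h5 : N % 5 = 1 ∨ N % 5 = 4)
    (hB : CondB5 N) : Module.finrank (ZMod 2) (LinearMap.ker (M5 N).mulVecLin) ≤ 2 := by
  have := Fact.mk Nat.prime_two
  have e1 := LinearMap.finrank_range_add_finrank_ker (M5 N).mulVecLin
  have e2 := LinearMap.finrank_range_add_finrank_ker (M5 N)ᵀ.mulVecLin
  have e3 : (M5 N)ᵀ.rank = (M5 N).rank := rank_transpose _
  unfold Matrix.rank at e3
  have e4 : Module.finrank (ZMod 2) (LinearMap.ker (M5 N)ᵀ.mulVecLin) ≤ 1 := by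
    have : LinearMap.ker (M5 N)ᵀ.mulVecLin ≤ Submodule.span (ZMod 2) {1} := by
      intro y hy
      rcases ker_transpose hN h4 h5 hB y hy with rfl | rfl
      · exact Submodule.zero_mem _
      · exact Submodule.mem_span_singleton_self _
    exact (Submodule.finrank_mono this).trans
      (finrank_span_le_card ({1} : Set (N.primeFactors → ZMod 2)) |>.trans (by simp))
  simp only [Module.finrank_fintype_fun_eq_card, Fintype.card_option] at e1 e2
  omega

/-- vector attached to a set of primes and an exponent of five -/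
def vec (β : ZMod 2) (S : Finset N.primeFactors) : Option N.primeFactors → ZMod 2 :=
  fun j => j.elim β (ind N.primeFactors S)

/-- power of five -/
def pw (β : ZMod 2) : ℤ := if β = 0 then 1 else 5

theorem vec_inj {β β' : ZMod 2} {S S' : Finset N.primeFactors} (h : vec β S = vec β' S') :
    β = β' ∧ S = S' := by
  refine ⟨congrFun h none, ?_⟩
  ext q
  have := congrFun h (some q)
  by_cases h1 : q ∈ S <;> by_cases h2 : q ∈ S' <;> simp_all [vec, ind]

theorem vec_zero : vec (N := N) 0 ∅ = 0 := by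
  ext (_ | q) <;> simp [vec, ind]

theorem vec_add_univ (β : ZMod 2) (S : Finset N.primeFactors) :
    vec β S + vec 0 univ = vec β Sᶜ := by
  ext (_ | q)
  · simp [vec]
  · have := congrFun (ind_compl S) q
    simp only [vec, Pi.add_apply, Option.elim, this, add_comm]
    simp [ind]

theorem vec_univ_mem : M5 N *ᵥ vec 0 univ = 0 := by
  ext p
  have : (fun q => vec (N := N) 0 univ (some q)) = 1 := by ext q; simp [vec, ind]
  rw [M5_mulVec, this, redei_mulVec_one]
  simp [vec]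

/-- Any two kernel classes outside the torsion classes lie in the same coset. -/
theorem coset (hN : Squarefree N) (h4 : N % 4 = 3) (h5 : N % 5 = 1 ∨ N % 5 = 4) (hB : CondB5 N)
    {β β' : ZMod 2} {S S' : Finset N.primeFactors} (h : M5 N *ᵥ vec β S = 0)
    (h' : M5 N *ᵥ vec β' S' = 0) :
    (β = 0 ∧ (S = ∅ ∨ S = univ)) ∨ (β' = 0 ∧ (S' = ∅ ∨ S' = univ)) ∨
      (β' = β ∧ (S' = S ∨ S' = Sᶜ)) := by
  by_cases h0 : β = 0 ∧ (S = ∅ ∨ S = univ)
  · exact Or.inl h0
  right
  have hne : (univ : Finset N.primeFactors) ≠ ∅ := by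
    intro he
    have := prod_pstar hN h4
    rw [he, prod_empty] at this
    omega
  have := small_space (finrank_ker hN h4 h5 hB) (o := ⟨vec 0 univ, vec_univ_mem⟩)
    (u := ⟨vec β S, h⟩)
    (fun e => hne (vec_inj ((congrArg Subtype.val e).trans vec_zero.symm)).2)
    (fun e => h0 (by
      have := vec_inj ((congrArg Subtype.val e).trans vec_zero.symm)
      exact ⟨this.1, Or.inl this.2⟩))
    (fun e => h0 (by
      have := vec_inj (congrArg Subtype.val e)
      exact ⟨this.1, Or.inr this.2⟩)) ⟨vec β' S', h'⟩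
  rcases this with e | e | e | e
  · have := vec_inj ((congrArg Subtype.val e).trans vec_zero.symm)
    exact Or.inl ⟨this.1, Or.inl this.2⟩
  · have := vec_inj (congrArg Subtype.val e)
    exact Or.inl ⟨this.1, Or.inr this.2⟩
  · have := vec_inj (congrArg Subtype.val e)
    exact Or.inr ⟨this.1, Or.inl this.2⟩
  · have := vec_inj ((congrArg Subtype.val e).trans (vec_add_univ β S))
    exact Or.inr ⟨this.1, Or.inr this.2⟩

/-- variant of `local_ram` allowing a square factor -/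
theorem local_ram' {p : ℕ} [hp : Fact p.Prime] {d d' s w t n m : ℤ} (hd : Squarefree d)
    (hpd : (p : ℤ) ∣ d) (hdd : d * d' = -n * m ^ 2) (h3 : ((3 : ℤ) : ZMod p) ≠ 0)
    (h5 : ((5 : ℤ) : ZMod p) ≠ 0) (hc : IsCoprime (d * s) w)
    (h : d * t ^ 2 = (d * s ^ 2 - -9 * n * w ^ 2) * (d * s ^ 2 - -25 * n * w ^ 2)) :
    IsSquare (d' : ZMod p) := by
  have hP := Nat.prime_iff_prime_int.mp hp.out
  have hw := not_dvd_of_coprime hc (hpd.mul_right s)
  obtain ⟨d0, rfl⟩ := hpd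
  have hd0 : ¬ (p : ℤ) ∣ d0 := by
    rintro ⟨m, rfl⟩
    exact hP.not_isUnit (hd p ⟨m, by ring⟩)
  have hd0' : (d0 : ZMod p) ≠ 0 := by rwa [Ne, ZMod.intCast_zmod_eq_zero_iff_dvd]
  have h1 : (t * m ^ 2) ^ 2 = p * d0 *
      (((s * m) ^ 2 - 3 ^ 2 * d' * w ^ 2) * ((s * m) ^ 2 - 5 ^ 2 * d' * w ^ 2)) := by
    apply mul_left_cancel₀ hd.ne_zero
    have e : p * d0 * (t * m ^ 2) ^ 2 = (p * d0 * (s * m) ^ 2 - 9 * (-n * m ^ 2) * w ^ 2) *
        (p * d0 * (s * m) ^ 2 - 25 * (-n * m ^ 2) * w ^ 2) := by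
      linear_combination m ^ 4 * h
    rw [e, ← hdd]; ring
  have h2 : (p : ℤ) ∣ t * m ^ 2 := hP.dvd_of_dvd_pow ⟨_, by rw [h1, mul_assoc]⟩
  obtain ⟨t', ht'⟩ := h2
  rw [ht'] at h1
  have h3' : p * t' ^ 2 =
      d0 * (((s * m) ^ 2 - 3 ^ 2 * d' * w ^ 2) * ((s * m) ^ 2 - 5 ^ 2 * d' * w ^ 2)) := by
    apply mul_left_cancel₀ (pne (p := p))
    linear_combination h1
  have h4 := congrArg (Int.cast : ℤ → ZMod p) h3'
  push_cast at h4 h3 h5
  rw [ZMod.natCast_self, zero_mul] at h4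
  rcases mul_eq_zero.mp ((mul_eq_zero.mp h4.symm).resolve_left hd0') with h6 | h6
  · refine ⟨s * m / (3 * w), ?_⟩
    field_simp
    linear_combination -h6
  · refine ⟨s * m / (5 * w), ?_⟩
    field_simp
    linear_combination -h6

/-- The class of the first descent coordinate lies in the kernel of the extended matrix. -/
theorem first_class (hN : Squarefree N) (h4 : N % 4 = 3) (h3 : N % 3 = 2)
    (h5 : N % 5 = 1 ∨ N % 5 = 4) {x y : ℚ} (hy : y ≠ 0)
    (h : y ^ 2 = x * (x + 9 * (N : ℤ)) * (x + 25 * (N : ℤ))) :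
    ∃ (β : ZMod 2) (S : Finset N.primeFactors), M5 N *ᵥ vec β S = 0 ∧
      IsSquare (x * (pw β * ∏ q ∈ S, pstar q : ℤ)) := by
  have hn : Squarefree (N : ℤ) := Int.squarefree_natCast.mpr hN
  have hP : ∀ p ∈ N.primeFactors, p.Prime := fun p hp => (Nat.mem_primeFactors.mp hp).1
  obtain ⟨d, s, w, t, hd, hs, hw, hc, hx, he⟩ :=
    exists_torsor (A := -9 * N) (B := -25 * N) (x := x) hy (by rw [h]; push_cast; ring)
  have : Fact (Nat.Prime 3) := ⟨Nat.prime_three⟩
  have n3 : ¬ ((3 : ℕ) : ℤ) ∣ d := local_nonsplit (a' := -1) hd (by norm_num) (by decide)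
    (not_isSquare_three (by omega)) hc he
  have hsup : ∀ p : ℕ, p.Prime → (p : ℤ) ∣ d → (p : ℤ) ∣ N ∨ p = 5 := by
    intro p hp hpd
    have := Fact.mk hp
    rcases local_support hpd hc he with h' | h' | h'
    · exact Or.inl h'
    · obtain rfl : p = 3 := prime_dvd_small hp (k := 2) Nat.prime_three (by
        simpa using (Int.dvd_neg.mpr h'))
      exact absurd hpd n3
    · exact Or.inr (prime_dvd_small hp (k := 2) Nat.prime_five (by
        simpa using (Int.dvd_neg.mpr h')))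
  obtain ⟨β, e, hde, heN⟩ : ∃ (β : ZMod 2) (e : ℤ), d = pw β * e ∧ e ∣ N := by
    by_cases h5d : (5 : ℤ) ∣ d
    · obtain ⟨e, rfl⟩ := h5d
      refine ⟨1, e, by simp [pw], dvd_of_squarefree_of_primes (hd.squarefree_of_dvd
        (dvd_mul_left e 5)) hn.ne_zero fun p hp hpe => ?_⟩
      rcases hsup p hp (hpe.mul_left 5) with h' | rfl
      · exact h'
      · exact absurd (dvd_refl 5) (not_dvd_of_squarefree_mul Nat.prime_five hd hpe)
    · refine ⟨0, d, by simp [pw], dvd_of_squarefree_of_primes hd hn.ne_zero fun p hp hpd => ?_⟩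
      rcases hsup p hp hpd with h' | rfl
      · exact h'
      · exact absurd hpd h5d
  have hpw : pw β = 1 ∨ pw β = 5 := by unfold pw; split_ifs <;> simp
  have heodd : e % 2 = 1 := by
    by_contra h0
    have : (2 : ℤ) ∣ N := Dvd.dvd.trans (by omega) heN
    omega
  have hd4 := local_two_first (n := N) (by omega) (by rcases hpw with h | h <;> rw [h] at hde <;>
    omega) hc he
  have he4 : e % 4 = 1 := by rcases hpw with h | h <;> rw [h] at hde <;> omega
  set S := univ.filter (fun q : N.primeFactors => ((q : ℕ) : ℤ) ∣ e) with hS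
  have e1 : e = ∏ q ∈ S, pstar q := eq_of_natAbs_eq_of_emod
    (by rw [natAbs_prod_signed natAbs_pstar, natAbs_eq_prod hN heN]) he4
    (prod_emod_four _ _ fun q _ => pstar_emod (odd_of_mem (by omega) q))
  have e2 : e * ∏ q ∈ Sᶜ, pstar q = -N := by
    conv_lhs => rw [e1]
    rw [prod_mul_prod_compl, prod_pstar hN h4]
  refine ⟨β, S, ?_, ?_⟩
  · ext p
    have hp := hP p p.2
    have := Fact.mk hp
    have hpn : ((p : ℕ) : ℤ) ∣ N := by exact_mod_cast (Nat.mem_primeFactors.mp p.2).2.1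
    obtain ⟨-, c3, c5⟩ := cast_ne hp hpn (by omega) (by omega) (by omega)
    have n5 : ¬ ((p : ℕ) : ℤ) ∣ pw β := by
      rcases hpw with h | h <;> rw [h]
      · rw [← Int.dvd_neg]; exact not_dvd_of_natAbs_eq' hp
      · rwa [← ZMod.intCast_zmod_eq_zero_iff_dvd]
    have a5 : aleg p 5 * β = aleg p (pw β) := by
      rcases zmod_two_cases β with rfl | rfl
      · simp [pw, aleg_one]
      · simp [pw]
    rw [M5_mulVec]
    change aleg p 5 * β + (redei N.primeFactors pstar *ᵥ ind _ S) p = 0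
    have hsq : Squarefree (e * ∏ q ∈ Sᶜ, pstar q) := by
      rw [e2, ← Int.squarefree_natAbs]; simpa using hN
    by_cases hm : p ∈ S
    · have hpe : ((p : ℕ) : ℤ) ∣ e := by simpa [hS] using hm
      rw [redei_mulVec_ind_mem hP natAbs_pstar S hm, a5, ← aleg_mul hp n5
        (not_dvd_of_squarefree_mul hp (by rwa [mul_comm] at hsq) hpe), aleg_eq_zero_iff]
      exact local_ram' (n := N) (m := pw β) hd (hde ▸ hpe.mul_left _)
        (by rw [hde, ← e2]; ring) c3 c5 hc he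
    · have hpe : ¬ ((p : ℕ) : ℤ) ∣ e := by simpa [hS] using hm
      rw [redei_mulVec_ind_not_mem hP natAbs_pstar S hm, a5, ← e1, ← aleg_mul hp n5 hpe,
        aleg_eq_zero_iff, ← hde]
      refine local_unit (c := 15) hn hpn (fun hpd => ?_) (by norm_num) ?_ hc he
      · rw [hde] at hpd
        exact ((Nat.prime_iff_prime_int.mp hp).dvd_or_dvd hpd).elim n5 hpe
      · have : ((15 : ℤ) : ZMod p) = ((3 : ℤ) : ZMod p) * ((5 : ℤ) : ZMod p) := by
          push_cast; norm_num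
        rw [this]; exact mul_ne_zero c3 c5
  · have hw' : (w : ℚ) ≠ 0 := by exact_mod_cast hw
    rw [← e1, ← hde]
    refine ⟨d * s / w, ?_⟩
    field_simp
    linear_combination (d : ℚ) * hx

theorem five_unit : ∀ d s r b : ZMod 5, s ≠ 0 → (b = 1 ∨ b = 4) → d * s ^ 2 * b = r ^ 2 →
    IsSquare d := by decide +kernel

theorem five_ram (n b : ZMod 5) (hn : n = 1 ∨ n = 4) (hb : b = 1 ∨ b = 4) :
    ∀ d s w t r : ZMod 5, w ≠ 0 →
      d * t ^ 2 = (d * s ^ 2 - n * w ^ 2) * (-16 * n * w ^ 2) →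
      (d * s ^ 2 - n * w ^ 2) * b = r ^ 2 → IsSquare d := by
  rcases hn with rfl | rfl <;> rcases hb with rfl | rfl <;> decide +kernel

/-- At five the reduction is split multiplicative. -/
theorem local_five {d s w t n b r : ℤ} (hn : n % 5 = 1 ∨ n % 5 = 4) (hb : b = 1 ∨ b = -n)
    (hd : ¬ (5 : ℤ) ∣ d) (hc : IsCoprime (d * s) w)
    (he : d * t ^ 2 = (d * s ^ 2 - 25 * n * w ^ 2) * (d * s ^ 2 - 16 * n * w ^ 2))
    (hr : (d * s ^ 2 - 25 * n * w ^ 2) * b = r ^ 2) : IsSquare (d : ZMod 5) := by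
  have : Fact (Nat.Prime 5) := ⟨Nat.prime_five⟩
  have hP : Prime (5 : ℤ) := Nat.prime_iff_prime_int.mp Nat.prime_five
  have hn' : (n : ZMod 5) = 1 ∨ (n : ZMod 5) = 4 := by
    rw [← ZMod.intCast_mod n 5]
    rcases hn with h | h
    · left; rw [show n % ((5 : ℕ) : ℤ) = 1 from h]; rfl
    · right; rw [show n % ((5 : ℕ) : ℤ) = 4 from h]; rfl
  have hb' : (b : ZMod 5) = 1 ∨ (b : ZMod 5) = 4 := by
    rcases hb with rfl | rfl
    · left; simp
    · push_cast
      rcases hn' with h | h <;> rw [h]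
      · exact Or.inr rfl
      · exact Or.inl rfl
  have z : (25 : ZMod 5) = 0 := rfl
  by_cases hs : (5 : ℤ) ∣ s
  · have hw := not_dvd_of_coprime (p := 5) hc (hs.mul_left d)
    obtain ⟨s', rfl⟩ := hs
    have h1 : (5 : ℤ) ∣ t := by
      have : (5 : ℤ) ∣ d * t ^ 2 := ⟨5 * ((d * s' ^ 2 - n * w ^ 2) *
        (25 * d * s' ^ 2 - 16 * n * w ^ 2)), by rw [he]; ring⟩
      exact hP.dvd_of_dvd_pow ((hP.dvd_or_dvd this).resolve_left hd)
    have h2 : (5 : ℤ) ∣ r :=
      hP.dvd_of_dvd_pow (n := 2) ⟨5 * ((d * s' ^ 2 - n * w ^ 2) * b), by rw [← hr]; ring⟩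
    obtain ⟨t', rfl⟩ := h1
    obtain ⟨r', rfl⟩ := h2
    have h3 : d * t' ^ 2 = (d * s' ^ 2 - n * w ^ 2) * (25 * d * s' ^ 2 - 16 * n * w ^ 2) := by
      apply mul_left_cancel₀ (show (25 : ℤ) ≠ 0 by norm_num)
      linear_combination he
    have h4 : (d * s' ^ 2 - n * w ^ 2) * b = r' ^ 2 := by
      apply mul_left_cancel₀ (show (25 : ℤ) ≠ 0 by norm_num)
      linear_combination hr
    have h5 := congrArg (Int.cast : ℤ → ZMod 5) h3
    have h6 := congrArg (Int.cast : ℤ → ZMod 5) h4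
    push_cast at h5 h6
    refine five_ram _ _ hn' hb' d s' w t' r' hw ?_ h6
    rw [h5, z]; ring
  · have h6 := congrArg (Int.cast : ℤ → ZMod 5) hr
    push_cast at h6
    refine five_unit d s r b ?_ hb' ?_
    · rwa [Ne, ZMod.intCast_zmod_eq_zero_iff_dvd]
    · rw [← h6, z]; ring

theorem third_coord5 {n : ℤ} (hn : Squarefree n) (h0 : 0 < n) (h4 : n % 4 = 3) (h3 : n % 3 = 2)
    (h5 : n % 5 = 1 ∨ n % 5 = 4) (hB : CondB5 n) {x y : ℚ} (hy : y ≠ 0)
    (h : y ^ 2 = x * (x + 9 * n) * (x + 25 * n)) {b : ℤ} (hb : b = 1 ∨ b = -n)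
    (hxb : IsSquare (x * b)) : IsSquare (x + 25 * n) ∨ IsSquare ((x + 25 * n) * n) := by
  obtain ⟨d, s, w, t, hd, hs, hw, hc, hx, he⟩ :=
    exists_torsor (A := 25 * n) (B := 16 * n) (x := x + 25 * n) hy (by rw [h]; push_cast; ring)
  have : Fact (Nat.Prime 5) := ⟨Nat.prime_five⟩
  have hP := Nat.prime_iff_prime_int.mp Nat.prime_five
  have hw' : (w : ℚ) ≠ 0 := by exact_mod_cast hw
  have n2 : ¬ (2 : ℤ) ∣ d := local_two_third h4 hd hc he
  have e1 : x * w ^ 2 = ((d * s ^ 2 - 25 * n * w ^ 2 : ℤ) : ℚ) := by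
    push_cast; linear_combination hx
  obtain ⟨r, hr⟩ : IsSquare ((d * s ^ 2 - 25 * n * w ^ 2) * b) := by
    rw [← Rat.isSquare_intCast_iff, Int.cast_mul, ← e1]
    exact isSquare_scale (c := w) hxb (by ring)
  have hb5 : ¬ ((5 : ℕ) : ℤ) ∣ b := by rcases hb with rfl | rfl <;> omega
  have n5 : ¬ ((5 : ℕ) : ℤ) ∣ d := fun h5d => by
    have hw5 : ¬ ((5 : ℕ) : ℤ) ∣ w := fun h' =>
      hP.not_isUnit (hc.isUnit_of_dvd' (h5d.mul_right s) h')
    have e2 : (x + 9 * n) * w ^ 2 = ((d * s ^ 2 - 16 * n * w ^ 2 : ℤ) : ℚ) := by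
      push_cast; linear_combination hx
    have ht : t ≠ 0 := by
      rintro rfl
      have : ((d * s ^ 2 - 25 * n * w ^ 2 : ℤ) : ℚ) * ((d * s ^ 2 - 16 * n * w ^ 2 : ℤ) : ℚ) = 0 := by
        exact_mod_cast (by simpa using he.symm)
      rw [← e1, ← e2] at this
      apply mul_ne_zero (pow_ne_zero 2 hy) (pow_ne_zero 4 hw')
      rw [h]; linear_combination (x + 25 * n) * this
    have hodd : Odd (padicValRat 5 x) := by
      refine val_odd hw ht e1 hd h5d (fun h' => ?_) he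
      have h1 : ((5 : ℕ) : ℤ) ∣ 16 * n * w ^ 2 := by
        have := dvd_sub (h5d.mul_right (s ^ 2)) h'
        simpa using this
      rcases hP.dvd_or_dvd h1 with h2 | h2
      · rcases hP.dvd_or_dvd h2 with h2 | h2
        · norm_num at h2
        · omega
      · exact hw5 (hP.dvd_of_dvd_pow h2)
    have hx0 : x ≠ 0 := by rintro rfl; simp at hodd
    have hb0 : (b : ℚ) ≠ 0 := by
      intro h0
      exact hb5 (by rw [show b = 0 by exact_mod_cast h0]; exact dvd_zero _)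
    obtain ⟨ρ, hρ⟩ := hxb
    have hρ0 : ρ ≠ 0 := by
      rintro rfl
      exact mul_ne_zero hx0 hb0 (by simpa using hρ)
    have := congrArg (padicValRat 5) hρ
    rw [padicValRat.mul hx0 hb0, padicValRat.mul hρ0 hρ0, padicValRat.of_int,
      padicValInt.eq_zero_of_not_dvd hb5] at this
    obtain ⟨k, hk⟩ := hodd
    omega
  have hdn : d ∣ n := by
    refine dvd_of_squarefree_of_primes hd hn.ne_zero fun p hp hpd => ?_
    have := Fact.mk hp
    rcases local_support hpd hc he with h' | h' | h'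
    · exact h'
    · obtain rfl : p = 5 := prime_dvd_small hp (k := 2) Nat.prime_five (by simpa using h')
      exact absurd hpd n5
    · obtain rfl : p = 2 := prime_dvd_small hp (k := 4) Nat.prime_two (by simpa using h')
      exact absurd hpd n2
  obtain ⟨d', hd'⟩ := hdn
  have hpos := local_real_third h0 hd.ne_zero hw he
  have key : d = 1 ∨ d' = 1 := by
    refine hB d d' hd'.symm hpos (fun p hp hpd => ?_) (fun p hp hpd => ?_)
      (jac_five (local_five (r := r) h5 hb n5 hc he (by rw [hr]; ring)) n5)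
    · have := Fact.mk hp
      have hpn : (p : ℤ) ∣ n := hd' ▸ Dvd.dvd.mul_left hpd _
      obtain ⟨c2, -, c5⟩ := cast_ne hp hpn h4 h3 (by omega)
      refine local_unit (c := 20) hn hpn (not_dvd_of_squarefree_mul hp (hd' ▸ hn) hpd)
        (by norm_num) ?_ hc he
      have : ((20 : ℤ) : ZMod p) = ((2 : ℤ) : ZMod p) * ((2 : ℤ) : ZMod p) * ((5 : ℤ) : ZMod p) := by
        push_cast; norm_num
      rw [this]; exact mul_ne_zero (mul_ne_zero c2 c2) c5
    · have := Fact.mk hp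
      have hpn : (p : ℤ) ∣ n := hd' ▸ Dvd.dvd.mul_right hpd _
      obtain ⟨c2, -, c5⟩ := cast_ne hp hpn h4 h3 (by omega)
      refine local_ram (α := 5) (β := 4) (ε := 1) hd hn hpd (by rw [hd']; ring) (by norm_num)
        (by norm_num) (by norm_num) c5 ?_ hc he
      have : ((4 : ℤ) : ZMod p) = ((2 : ℤ) : ZMod p) * ((2 : ℤ) : ZMod p) := by
        push_cast; norm_num
      rw [this]; exact mul_ne_zero c2 c2
  rcases key with h1 | h1
  · left
    refine ⟨s / w, ?_⟩
    rw [h1] at hx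
    field_simp
    push_cast at hx
    linear_combination hx
  · right
    have : d = n := by rw [hd', h1, mul_one]
    rw [this] at hx
    refine ⟨n * s / w, ?_⟩
    field_simp
    linear_combination hx

theorem torsionClass5 {n : ℤ} (hn : Squarefree n) (h0 : 0 < n) (h4 : n % 4 = 3) (h3 : n % 3 = 2)
    (h5 : n % 5 = 1 ∨ n % 5 = 4) (hB : CondB5 n) {X Y : ℚ} (hY : Y ≠ 0)
    (hE : Y ^ 2 = (X - -102 * ((-n : ℤ) : ℚ)) * (X - -21 * ((-n : ℤ) : ℚ)) *
      (X - 123 * ((-n : ℤ) : ℚ)))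
    (hv : IsSquare (X - -102 * ((-n : ℤ) : ℚ)) ∨ IsSquare ((X - -102 * ((-n : ℤ) : ℚ)) * (-n))) :
    TorsionClass (-102 * ((-n : ℤ) : ℚ)) (-21 * ((-n : ℤ) : ℚ)) (123 * ((-n : ℤ) : ℚ)) X := by
  have hn' : (n : ℚ) ≠ 0 := by exact_mod_cast h0.ne'
  set x : ℚ := (X - 102 * n) / 9 with hx
  have hX : X = 9 * x + 102 * n := by rw [hx]; ring
  have hy : Y / 27 ≠ 0 := div_ne_zero hY (by norm_num)
  have hE' : (Y / 27) ^ 2 = x * (x + 9 * n) * (x + 25 * n) := by
    rw [hX] at hE; push_cast at hE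
    linear_combination (1 / 729 : ℚ) * hE
  have hx1 : x ≠ 0 := by
    intro h; apply pow_ne_zero 2 hy; rw [hE', h]; ring
  have hx3 : x + 25 * n ≠ 0 := by
    intro h; apply pow_ne_zero 2 hy; rw [hE', h]; ring
  have mid : ∀ a b : ℚ, IsSquare (x * a) → IsSquare ((x + 25 * n) * b) →
      IsSquare ((x + 9 * n) * (a * b)) := by
    rintro a b ⟨r, hr⟩ ⟨s, hs⟩
    refine Split.isSquare_of_mul (mul_ne_zero hx1 hx3) rfl ⟨Y / 27 * r * s, ?_⟩
    have : Y / 27 * r * s * (Y / 27 * r * s) = (Y / 27) ^ 2 * (r * r) * (s * s) := by ring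
    rw [this, hE', ← hr, ← hs]; ring
  have hv' : IsSquare x ∨ IsSquare (x * (-n)) :=
    hv.imp (fun s => isSquare_scale (c := 1 / 3) s (by rw [hX]; push_cast; ring))
      fun s => isSquare_scale (c := 1 / 3) s (by rw [hX]; push_cast; ring)
  have h3' : IsSquare (x + 25 * n) ∨ IsSquare ((x + 25 * n) * n) := by
    rcases hv' with s | s
    · exact third_coord5 hn h0 h4 h3 h5 hB hy hE' (Or.inl rfl) (by simpa using s)
    · exact third_coord5 hn h0 h4 h3 h5 hB hy hE' (Or.inr rfl) (by simpa using s)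
  rw [hX]
  push_cast
  rcases hv' with s1 | s1 <;> rcases h3' with s3 | s3
  · exact Or.inl ⟨isSquare_scale (c := 3) (mid 1 1 (by simpa) (by simpa)) (by ring),
      isSquare_scale (c := 3) s3 (by ring)⟩
  · exact Or.inr (Or.inl ⟨isSquare_scale (c := 27) (mid 1 n (by simpa) s3) (by ring),
      isSquare_scale (c := 45) s3 (by ring)⟩)
  · exact Or.inr (Or.inr (Or.inr ⟨isSquare_scale (c := 36) (mid (-n) 1 s1 (by simpa)) (by ring),
      isSquare_scale (c := 45) s1 (by ring)⟩))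
  · exact Or.inr (Or.inr (Or.inl ⟨isSquare_scale (c := 27) s1 (by ring),
      isSquare_scale (c := 36) s3 (by ring)⟩))

/-- Points whose first descent coordinate is not that of a point of order two. -/
def Bad5 {W : WeierstrassCurve ℚ} (e c : ℚ) : W.toAffine.Point → Prop
  | .zero => False
  | .some x y _ => y ≠ 0 ∧ ¬ (IsSquare (x - e) ∨ IsSquare ((x - e) * c))

theorem class_of_point (hN : Squarefree N) (h4 : N % 4 = 3) (h3 : N % 3 = 2)
    (h5 : N % 5 = 1 ∨ N % 5 = 4) {X Y : ℚ} (hY : Y ≠ 0)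
    (hE : Y ^ 2 = (X - -102 * ((-(N : ℤ) : ℤ) : ℚ)) * (X - -21 * ((-(N : ℤ) : ℤ) : ℚ)) *
      (X - 123 * ((-(N : ℤ) : ℤ) : ℚ))) :
    X - -102 * ((-(N : ℤ) : ℤ) : ℚ) ≠ 0 ∧
    ∃ (β : ZMod 2) (S : Finset N.primeFactors), M5 N *ᵥ vec β S = 0 ∧
      IsSquare ((X - -102 * ((-(N : ℤ) : ℤ) : ℚ)) * (pw β * ∏ q ∈ S, pstar q : ℤ)) := by
  refine ⟨fun h0 => pow_ne_zero 2 hY (by rw [hE, h0]; ring), ?_⟩
  obtain ⟨β, S, h1, h2⟩ := first_class hN h4 h3 h5 (x := (X - 102 * N) / 9) (y := Y / 27)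
    (div_ne_zero hY (by norm_num)) (by
      push_cast at hE ⊢
      linear_combination (1 / 729 : ℚ) * hE)
  exact ⟨β, S, h1, isSquare_scale (c := 3) h2 (by push_cast; ring)⟩

theorem bad_add5 (hN : Squarefree N) (h4 : N % 4 = 3) (h3 : N % 3 = 2)
    (h5 : N % 5 = 1 ∨ N % 5 = 4) (hB : CondB5 N) (P Q : (twist15 (-(N : ℤ))).toAffine.Point)
    (hP : Bad5 (-102 * ((-(N : ℤ) : ℤ) : ℚ)) (-((N : ℤ) : ℚ)) P)
    (hQ : Bad5 (-102 * ((-(N : ℤ) : ℤ) : ℚ)) (-((N : ℤ) : ℚ)) Q) :
    ¬ Bad5 (-102 * ((-(N : ℤ) : ℤ) : ℚ)) (-((N : ℤ) : ℚ)) (P + Q) := by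
  have hS := split_twist15 (D := -(N : ℤ)) (by omega)
  rcases P with _ | ⟨x1, y1, h1⟩
  · exact hP.elim
  rcases Q with _ | ⟨x2, y2, h2⟩
  · exact hQ.elim
  rcases e : Point.some x1 y1 h1 + Point.some x2 y2 h2 with _ | ⟨x3, y3, h3'⟩
  · exact id
  intro hR
  have hcol := collinear hS h1 h2 h3' e
  obtain ⟨n1, β, S, k1, s1⟩ := class_of_point hN h4 h3 h5 hP.1 ((hS.nonsingular_iff _ _).mp h1)
  obtain ⟨n2, β', S', k2, s2⟩ := class_of_point hN h4 h3 h5 hQ.1 ((hS.nonsingular_iff _ _).mp h2)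
  have hall : ((∏ q : N.primeFactors, pstar q : ℤ) : ℚ) = -((N : ℤ) : ℚ) := by
    rw [prod_pstar hN h4]; push_cast; rfl
  have triv : ∀ {z : ℚ} {β : ZMod 2} {S : Finset N.primeFactors},
      IsSquare (z * (pw β * ∏ q ∈ S, pstar q : ℤ)) → β = 0 ∧ (S = ∅ ∨ S = univ) →
        IsSquare z ∨ IsSquare (z * -((N : ℤ) : ℚ)) := by
    rintro z β S hz ⟨rfl, rfl | rfl⟩
    · left; simpa [pw] using hz
    · right; rw [← hall]; simpa [pw] using hz
  have fin : ∀ c1 c2 : ℚ, IsSquare ((x1 - -102 * ((-(N : ℤ) : ℤ) : ℚ)) * c1) →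
      IsSquare ((x2 - -102 * ((-(N : ℤ) : ℤ) : ℚ)) * c2) →
      IsSquare ((x3 - -102 * ((-(N : ℤ) : ℤ) : ℚ)) * (c1 * c2)) := by
    intro c1 c2 a1 a2
    refine Split.isSquare_of_mul (pow_ne_zero 2 (mul_ne_zero n1 n2)) rfl ?_
    refine isSquare_scale (c := (x1 - -102 * ((-(N : ℤ) : ℤ) : ℚ)) *
      (x2 - -102 * ((-(N : ℤ) : ℤ) : ℚ))) ((hcol.mul a1).mul a2) (by ring)
  have hpw : ((pw β : ℤ) : ℚ) ≠ 0 := by unfold pw; split_ifs <;> norm_num
  rcases coset hN h4 h5 hB k1 k2 with h | h | ⟨rfl, rfl | rfl⟩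
  · exact hP.2 (triv s1 h)
  · exact hQ.2 (triv s2 h)
  · refine hR.2 (Or.inl ?_)
    have hc : ((pw β' * ∏ q ∈ S', pstar q : ℤ) : ℚ) ≠ 0 := by
      rw [Int.cast_mul]
      refine mul_ne_zero hpw fun h0 => ?_
      have := prod_mul_prod_compl S' (fun q => pstar q)
      have h6 := congrArg (Int.cast : ℤ → ℚ) this
      rw [Int.cast_mul, h0, zero_mul, hall] at h6
      have : (N : ℤ) = 0 := by exact_mod_cast (neg_eq_zero.mp h6.symm)
      omega
    exact isSquare_scale (c := 1 / ((pw β' * ∏ q ∈ S', pstar q : ℤ) : ℚ)) (fin _ _ s1 s2)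
      (by field_simp)
  · refine hR.2 (Or.inr ?_)
    refine isSquare_scale (c := 1 / (pw β' : ℤ)) (fin _ _ s1 s2) ?_
    rw [← hall, ← prod_mul_prod_compl S]
    push_cast
    field_simp

end C5

open RankOne C5 in
theorem finite_and_finrank_le5 {N : ℕ} (hN : Squarefree N) (h4 : N % 4 = 3) (h3 : N % 3 = 2)
    (h5 : N % 5 = 1 ∨ N % 5 = 4) (hB : CondB5 N) :
    Module.Finite ℤ (twist15 (-(N : ℤ))).toAffine.Point ∧
      Module.finrank ℤ (twist15 (-(N : ℤ))).toAffine.Point ≤ 1 := by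
  have hS := split_twist15 (D := -(N : ℤ)) (by omega)
  have := hS.isElliptic
  have h1 : ∀ P : (twist15 (-(N : ℤ))).toAffine.Point,
      ¬ Bad5 (-102 * ((-(N : ℤ) : ℤ) : ℚ)) (-((N : ℤ) : ℚ)) P →
      ∃ T R : (twist15 (-(N : ℤ))).toAffine.Point, 2 • T = 0 ∧ P = T + 2 • R := by
    rintro (_ | ⟨x, y, hP⟩) hb
    · exact ⟨0, 0, by simp, by simp [← Point.zero_def]⟩
    by_cases hy : y = 0
    · subst hy
      exact ⟨_, 0, hS.two_nsmul_of_y_eq_zero hP, by simp⟩
    refine half_of_class hS hP hy (torsionClass5 (Int.squarefree_natCast.mpr hN) (by omega)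
      (by omega) (by omega) (by omega) hB hy ((hS.nonsingular_iff x y).mp hP) ?_)
    by_contra hn
    exact hb ⟨hy, hn⟩
  have hf := finite_of_two_cosets _ _ h1 (bad_add5 hN h4 h3 h5 hB)
  exact ⟨hf, finrank_le_one _ h1 (bad_add5 hN h4 h3 h5 hB)⟩

end Pool.Agent.Lib.MP_696deb_nt
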