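import Pool.Agent.Lib.MP_696deb_nt.SelLowA

-- part Pool.Agent.Lib.MP_696deb_nt.SelLow
section

/-! Small Selmer group forces the Redei conditions. -/

set_option autoImplicit false

open Finset Matrix NumberTheorySymbols

namespace Pool.Agent.Lib.MP_696deb_nt

namespace SelB

theorem isSquare_of_mul_sq {c m : ℤ} (hc : c ≠ 0) (h : IsSquare (c * c * m)) : IsSquare m := by
  obtain ⟨r, hr⟩ := h
  have : c ∣ r := by
    rw [← Int.pow_dvd_pow_iff two_ne_zero]
    exact ⟨m, by rw [sq, sq, ← hr]⟩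
  obtain ⟨k, rfl⟩ := this
  exact ⟨k, mul_left_cancel₀ (mul_ne_zero hc hc) (by rw [hr]; ring)⟩

theorem dvd_of_sq {p : ℕ} (hp : p.Prime) {a b : ℤ} (ha : Squarefree a) (hpa : (p : ℤ) ∣ a)
    (h : IsSquare (a * b)) : (p : ℤ) ∣ b := by
  have hP := Nat.prime_iff_prime_int.mp hp
  obtain ⟨r, hr⟩ := h
  obtain ⟨k, rfl⟩ := hpa
  have h1 : (p : ℤ) ∣ r := (hP.dvd_or_dvd (hr ▸ Dvd.intro (k * b) (by ring))).elim id id
  obtain ⟨t, rfl⟩ := h1
  have h2 : k * b = p * (t * t) := mul_left_cancel₀ hP.ne_zero (by linear_combination hr)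
  rcases hP.dvd_or_dvd (h2 ▸ Dvd.intro _ rfl : (p : ℤ) ∣ k * b) with h | h
  · exact absurd (ha _ (mul_dvd_mul_left _ h)) hP.not_isUnit
  · exact h

theorem not_sq_three {n : ℤ} (h : n % 4 = 3) : ¬ IsSquare n := by
  rintro ⟨r, rfl⟩
  rw [Int.mul_emod] at h
  rcases (by omega : r % 4 = 0 ∨ r % 4 = 1 ∨ r % 4 = 2 ∨ r % 4 = 3) with h' | h' | h' | h' <;>
    rw [h'] at h <;> omega

theorem fam {N : ℕ} (h4 : N % 4 = 3) {ι κ : Type} [Fintype ι] [Fintype κ] [Subsingleton κ]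
    (G : ι → ℤ) (D : κ → ℤ × ℤ) (hG0 : ∀ i, G i ≠ 0)
    (hG : ∀ i, ∀ (p : ℕ) [Fact p.Prime], Loc ℚ_[p] (-51 * N) (-42 * N) (93 * N) 1 (G i))
    (hi : ∀ i j, IsSquare (G i * G j) → i = j) (hD0 : ∀ k, 0 < (D k).1 ∧ (D k).2 ≠ 0)
    (hD : ∀ k, ∀ (p : ℕ) [Fact p.Prime],
      Loc ℚ_[p] (-51 * N) (-42 * N) (93 * N) (D k).1 (D k).2)
    (hD1 : ∀ k, ¬ IsSquare (D k).1) (hD2 : ∀ k, ¬ IsSquare (N * (D k).1)) :
    ((Fintype.card κ + 2 * Fintype.card ι : ℕ) : ℕ∞) ≤
      (Sel (-51 * N) (-42 * N) (93 * N)).encard := by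
  have hn : (N : ℤ) ≠ 0 := by omega
  have hN : 0 < N := by omega
  have hns : ¬ IsSquare (N : ℤ) := not_sq_three (by omega)
  let F : κ ⊕ ι ⊕ ι → ℤ × ℤ :=
    Sum.elim D (Sum.elim (fun i => (1, G i)) (fun i => (N * 1, -15 * G i)))
  have h0 : ∀ i, 0 < (F i).1 ∧ (F i).2 ≠ 0 := by
    rintro (k | i | i)
    · exact hD0 k
    · exact ⟨one_pos, hG0 i⟩
    · exact ⟨by simpa [F] using hN, mul_ne_zero (by norm_num) (hG0 i)⟩
  have := card_le_sel (dis hn) F (fun i => ⟨(h0 i).1.ne', (h0 i).2⟩)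
    (fun i => loc_real hN (h0 i).1 (h0 i).2) ?_ ?_
  · rw [Fintype.card_sum, Fintype.card_sum, ← two_mul] at this
    exact this
  · rintro (k | i | i) p _
    · exact hD k p
    · exact hG i p
    · exact (gT2 hn).mul (dis hn) (hG i p)
  · rintro (k | i | i) (l | j | j) h1 h2 <;> simp only [F, Sum.elim_inl, Sum.elim_inr,
      mul_one, one_mul] at h1 h2
    · rw [Subsingleton.elim k l]
    · exact absurd h1 (hD1 k)
    · exact absurd (mul_comm (D k).1 _ ▸ h1) (hD2 k)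
    · exact absurd h1 (hD1 l)
    · rw [hi i j h2]
    · exact absurd h1 hns
    · exact absurd h1 (hD2 l)
    · exact absurd h1 hns
    · rw [hi i j (isSquare_of_mul_sq (c := 15) (by norm_num) (by convert h2 using 1; ring))]

open Module in
theorem la {V ι : Type} [AddCommGroup V] [Module (ZMod 2) V] [Finite V] [Fintype ι]
    [DecidableEq ι] (φ : V →ₗ[ZMod 2] (ι → ZMod 2)) (w : ι → ZMod 2) {i j : ι} (hi : w i = 1)
    (hj : w j = 0) (h1 : ∀ x, 1 ⬝ᵥ φ x = 0) (h2 : ∀ x, w ⬝ᵥ φ x = 0) :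
    finrank (ZMod 2) V + 2 ≤ finrank (ZMod 2) (LinearMap.ker φ) + Fintype.card ι ∧
      (finrank (ZMod 2) (LinearMap.ker φ) + Fintype.card ι ≤ finrank (ZMod 2) V + 2 →
        ∀ y, 1 ⬝ᵥ y = 0 → w ⬝ᵥ y = 0 → ∃ x, φ x = y) := by
  have := Fact.mk Nat.prime_two
  let ψ : (ι → ZMod 2) →ₗ[ZMod 2] ZMod 2 × ZMod 2 :=
    { toFun := fun y => (1 ⬝ᵥ y, w ⬝ᵥ y)
      map_add' := fun a b => by simp [dotProduct_add]
      map_smul' := fun a b => by simp [dotProduct_smul] }
  have hle : LinearMap.range φ ≤ LinearMap.ker ψ := by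
    rintro _ ⟨x, rfl⟩
    exact Prod.ext (h1 x) (h2 x)
  have e1 := LinearMap.finrank_range_add_finrank_ker φ
  have e2 := LinearMap.finrank_range_add_finrank_ker ψ
  have e3 : LinearMap.range ψ = ⊤ := by
    rw [LinearMap.range_eq_top]
    rintro ⟨a, b⟩
    refine ⟨Pi.single i b + Pi.single j (a - b), ?_⟩
    simp [ψ, dotProduct_add, hi, hj]
  rw [e3, finrank_top, finrank_prod, finrank_self, finrank_fintype_fun_eq_card] at e2
  have e4 := Submodule.finrank_mono hle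
  refine ⟨by omega, fun h y y1 y2 => ?_⟩
  have := Submodule.eq_of_le_of_finrank_le hle (by omega)
  have hy : y ∈ LinearMap.range φ := by
    rw [this]
    exact Prod.ext y1 y2
  exact hy

theorem zmod_two_id : ∀ a b : ZMod 2, a * a + b * b + (a + b) = 0 := by decide

theorem aleg3_one {a : ℤ} (h : a % 3 = 1) : aleg 3 a = 0 := by
  rw [aleg_congr (p := 3) (v := 1) (by push_cast; omega), aleg_one]

theorem aleg3_two {a : ℤ} (h : a % 3 = 2) : aleg 3 a = 1 := by
  rw [aleg_congr (p := 3) (v := 2) (by push_cast; omega)]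
  refine (zmod_two_cases _).resolve_left ?_
  rw [aleg_eq_zero_iff]
  decide

theorem aleg5_sq {a : ℤ} (h : a % 5 = 1 ∨ a % 5 = 4) : aleg 5 a = 0 := by
  rcases h with h | h
  · rw [aleg_congr (p := 5) (v := 1) (by push_cast; omega), aleg_one]
  · rw [aleg_congr (p := 5) (v := 2 ^ 2) (by push_cast; omega), aleg_sq]

theorem aleg5_non {a : ℤ} (h : a % 5 = 2 ∨ a % 5 = 3) : aleg 5 a = 1 := by
  refine (zmod_two_cases _).resolve_left ?_
  rcases h with h | h
  · rw [aleg_congr (p := 5) (v := 2) (by push_cast; omega), aleg_eq_zero_iff]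
    decide
  · rw [aleg_congr (p := 5) (v := 3) (by push_cast; omega), aleg_eq_zero_iff]
    decide

section N

variable {N : ℕ}

theorem pr (q : N.primeFactors) : (q : ℕ).Prime := (Nat.mem_primeFactors.mp q.2).1

theorem pd (q : N.primeFactors) : (q : ℕ) ∣ N := (Nat.mem_primeFactors.mp q.2).2.1

theorem ne_of_emod {r : ℕ} (h : N % r ≠ 0) (q : N.primeFactors) : (q : ℕ) ≠ r := fun e =>
  h (Nat.mod_eq_zero_of_dvd (e ▸ pd q))

theorem nd_smooth (h4 : N % 4 = 3) (h3 : N % 3 = 2) (h5 : N % 5 ≠ 0) (q : N.primeFactors)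
    {a : ℤ} (ha : a ∣ 30 ^ 4) : ¬ ((q : ℕ) : ℤ) ∣ a :=
  not_dvd_smooth (pr q) (ne_of_emod (by omega) q) (ne_of_emod (by omega) q) (ne_of_emod h5 q) ha

theorem dvd_prod_iff {f : ℕ → ℤ} (hf : ∀ q, (f q).natAbs = q) (S : Finset N.primeFactors)
    (q : N.primeFactors) : ((q : ℕ) : ℤ) ∣ ∏ r ∈ S, f r ↔ q ∈ S := by
  constructor
  · intro h
    exact (dvd_prod_iff_mem hf S (pr q) h).2
  · intro h
    rw [← Int.natAbs_dvd_natAbs, Int.natAbs_natCast, ← hf q]
    exact Int.natAbs_dvd_natAbs.mpr (dvd_prod_of_mem _ h)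

theorem hid (q : ℕ) : ((fun q : ℕ => (q : ℤ)) q).natAbs = q := by simp

theorem sum_aleg {r : ℕ} (hr : r.Prime) (r2 : r ≠ 2) (hrN : N % r ≠ 0) (h2 : N % 2 ≠ 0)
    (T : Finset N.primeFactors) :
    ∑ q ∈ T, aleg q (pstar r) = aleg r (∏ q ∈ T, ((q : ℕ) : ℤ)) := by
  rw [aleg_prod hr T _ fun q _ =>
    not_dvd_of_natAbs_eq hr (pr q) (ne_of_emod hrN q).symm (by simp)]
  exact sum_congr rfl fun q _ => aleg_pstar (pr q) hr (ne_of_emod h2 q) r2 (ne_of_emod hrN q)

theorem ind_dot (T : Finset N.primeFactors) (v : N.primeFactors → ZMod 2) :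
    ind _ T ⬝ᵥ v = ∑ q ∈ T, v q := by
  simp only [dotProduct, ind, ite_mul, one_mul, zero_mul]
  rw [← sum_filter]
  congr 1
  ext; simp

theorem exists_T (hN : Squarefree N) {d d' : ℤ} (hd : d * d' = N) (h0 : 0 < d)
    (a1 : ∀ p : ℕ, p.Prime → (p : ℤ) ∣ d' → IsSquare (d : ZMod p))
    (a2 : ∀ p : ℕ, p.Prime → (p : ℤ) ∣ d → IsSquare (d' : ZMod p)) (n1 : d ≠ 1) (n2 : d' ≠ 1) :
    ∃ T : Finset N.primeFactors, d = ∏ q ∈ T, ((q : ℕ) : ℤ) ∧
      redei N.primeFactors (fun q => (q : ℤ)) *ᵥ ind _ T = 0 ∧ (∃ i, i ∈ T) ∧ ∃ j, j ∉ T := by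
  have hP : ∀ p ∈ N.primeFactors, p.Prime := fun p hp => (Nat.mem_primeFactors.mp hp).1
  set T := univ.filter (fun q : N.primeFactors => ((q : ℕ) : ℤ) ∣ d) with hT
  have e1 : d = ∏ q ∈ T, ((q : ℕ) : ℤ) := by
    have := natAbs_eq_prod hN (Dvd.intro _ hd)
    rw [← Nat.cast_prod, ← this]
    omega
  have e2 : d' = ∏ q ∈ Tᶜ, ((q : ℕ) : ℤ) := by
    apply mul_left_cancel₀ h0.ne'
    rw [hd, ← prod_coe_primeFactors hN]
    conv_rhs => rw [e1]
    exact (prod_mul_prod_compl T _).symm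
  refine ⟨T, e1, ?_, ?_, ?_⟩
  · ext p
    by_cases hp : p ∈ T
    · rw [redei_mulVec_ind_mem hP hid T hp, ← e2]
      exact aleg_eq_zero_iff.mpr (a2 p (pr p) (by simpa [hT] using hp))
    · rw [redei_mulVec_ind_not_mem hP hid T hp, ← e1]
      refine aleg_eq_zero_iff.mpr (a1 p (pr p) ?_)
      rw [e2]
      exact (dvd_prod_iff hid _ p).mpr (by simpa using hp)
  · by_contra h
    have : T = ∅ := eq_empty_of_forall_notMem fun x hx => h ⟨x, hx⟩
    exact n1 (by rw [e1, this, prod_empty])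
  · by_contra h
    have : Tᶜ = ∅ := eq_empty_of_forall_notMem fun x hx => h ⟨x, by simpa using hx⟩
    exact n2 (by rw [e2, this, prod_empty])

theorem loc_ker (hN : Squarefree N) (h4 : N % 4 = 3) (h3 : N % 3 = 2) (h5 : N % 5 ≠ 0)
    (S T : Finset N.primeFactors) {d s : ℤ} (hd : d = ∏ q ∈ T, ((q : ℕ) : ℤ))
    (hs : s = 1 ∨ s = -3 ∨ s = 5 ∨ s = -15) (k3 : 3 ∣ s ↔ d % 3 = 2)
    (k5 : N % 5 = 2 ∨ N % 5 = 3 → (5 ∣ s ↔ d % 5 = 2 ∨ d % 5 = 3))
    (k5' : N % 5 = 1 ∨ N % 5 = 4 → d % 5 = 1 ∨ d % 5 = 4)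
    (hB : redei N.primeFactors (fun q => (q : ℤ)) *ᵥ ind _ T = 0)
    (hA : ∀ q : N.primeFactors, (redei N.primeFactors pstar *ᵥ ind _ S) q =
      aleg q s + if q ∈ T then aleg q (-15) else 0) (p : ℕ) [Fact p.Prime] :
    Loc ℚ_[p] (-51 * N) (-42 * N) (93 * N) d (s * ∏ q ∈ S, pstar q) := by
  have hP : ∀ p ∈ N.primeFactors, p.Prime := fun p hp => (Nat.mem_primeFactors.mp hp).1
  have key : ∀ (q : N.primeFactors) (e : ℤ), ¬ ((q : ℕ) : ℤ) ∣ e →
      (redei N.primeFactors pstar *ᵥ ind _ S) q = aleg q e →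
      IsSquare ((s * e * (if ((q : ℕ) : ℤ) ∣ d then -15 else 1) : ℤ) : ZMod q) := by
    intro q e he h
    have ps : ¬ ((q : ℕ) : ℤ) ∣ s := nd_smooth h4 h3 h5 q
      (by rcases hs with rfl | rfl | rfl | rfl <;> norm_num)
    have pse : ¬ ((q : ℕ) : ℤ) ∣ s * e := fun h =>
      ((Nat.prime_iff_prime_int.mp (pr q)).dvd_or_dvd h).elim ps he
    rw [← aleg_eq_zero_iff, hd, if_congr (dvd_prod_iff hid T q) rfl rfl]
    have h' := hA q
    rw [h] at h'
    split_ifs at h' ⊢ with hq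
    · rw [aleg_mul (pr q) pse (nd_smooth h4 h3 h5 q (by norm_num)), aleg_mul (pr q) ps he, h']
      generalize aleg q s = x
      generalize aleg q (-15) = y
      revert x y; decide
    · rw [mul_one, aleg_mul (pr q) ps he, h', add_zero]
      exact CharTwo.add_self_eq_zero _
  refine loc_all hN h4 h3 h5 (d' := ∏ q ∈ Tᶜ, ((q : ℕ) : ℤ)) (e' := ∏ q ∈ Sᶜ, pstar q)
    (by rw [hd, prod_mul_prod_compl, prod_coe_primeFactors hN])
    (by rw [prod_mul_prod_compl, prod_pstar hN h4])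
    (prod_emod_four _ _ fun q _ => pstar_emod (odd_of_mem (by omega) q)) hs k3 k5 k5'
    (fun r hr h => ?_) (fun r hr h => ?_) (fun r hr h => ?_) (fun r hr h => ?_) p
  · obtain ⟨hr', hm⟩ := dvd_prod_iff_mem hid _ hr h
    have := redei_mulVec_ind_not_mem hP hid T (p := ⟨r, hr'⟩) (by simpa using hm)
    rw [hB] at this
    rw [← aleg_eq_zero_iff, hd]
    exact this.symm
  · obtain ⟨hr', hm⟩ := dvd_prod_iff_mem hid _ hr (hd ▸ h)
    have := redei_mulVec_ind_mem hP hid T (p := ⟨r, hr'⟩) hm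
    rw [hB] at this
    rw [← aleg_eq_zero_iff]
    exact this.symm
  · obtain ⟨hr', hm⟩ := dvd_prod_iff_mem natAbs_pstar _ hr h
    have hm' : (⟨r, hr'⟩ : N.primeFactors) ∉ S := by simpa using hm
    exact key ⟨r, hr'⟩ _ (mt (dvd_prod_iff natAbs_pstar S ⟨r, hr'⟩).mp hm')
      (redei_mulVec_ind_not_mem hP natAbs_pstar S hm')
  · obtain ⟨hr', hm⟩ := dvd_prod_iff_mem natAbs_pstar _ hr h
    exact key ⟨r, hr'⟩ _ (mt (dvd_prod_iff natAbs_pstar Sᶜ ⟨r, hr'⟩).mp (by simpa using hm))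
      (redei_mulVec_ind_mem hP natAbs_pstar S hm)

/-- The support of a vector. -/
def supp (x : N.primeFactors → ZMod 2) : Finset N.primeFactors := univ.filter (x · = 1)

theorem ind_supp (x : N.primeFactors → ZMod 2) : ind _ (supp x) = x := by
  ext q
  simp only [ind, supp, mem_filter, mem_univ, true_and]
  generalize x q = t
  revert t; decide

theorem pstar_prod_ne (S : Finset N.primeFactors) : ∏ q ∈ S, pstar q ≠ 0 := by
  rw [prod_ne_zero_iff]
  intro q _ h
  have := natAbs_pstar q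
  rw [h] at this
  exact (pr q).ne_zero this.symm

theorem inj_sq (hN : Squarefree N) (h4 : N % 4 = 3) (h3 : N % 3 = 2) (h5 : N % 5 ≠ 0)
    {s t : ℤ} (hs : s = 1 ∨ s = 5) (ht : t = 1 ∨ t = 5) {S T : Finset N.primeFactors}
    (h : IsSquare ((s * ∏ q ∈ S, pstar q) * (t * ∏ q ∈ T, pstar q))) : s = t ∧ S = T := by
  have hsq : Squarefree ((5 * N : ℕ) : ℤ) := by
    rw [Int.squarefree_natCast, Nat.squarefree_mul_iff]
    refine ⟨(Nat.Prime.coprime_iff_not_dvd Nat.prime_five).mpr (by omega),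
      Nat.prime_five.prime.squarefree, hN⟩
  have hdv : ∀ S : Finset N.primeFactors, ∏ q ∈ S, pstar q ∣ N := fun S => by
    rw [← dvd_neg, ← prod_pstar hN h4]
    exact prod_dvd_prod_of_subset _ _ _ (subset_univ _)
  have sqf : ∀ {s : ℤ}, s = 1 ∨ s = 5 → ∀ S : Finset N.primeFactors,
      Squarefree (s * ∏ q ∈ S, pstar q) := fun hs S => by
    refine hsq.squarefree_of_dvd ?_
    push_cast
    exact mul_dvd_mul (by rcases hs with rfl | rfl <;> norm_num) (hdv S)
  have half : ∀ {s t : ℤ}, s = 1 ∨ s = 5 → t = 1 ∨ t = 5 → ∀ {S T : Finset N.primeFactors},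
      IsSquare ((s * ∏ q ∈ S, pstar q) * (t * ∏ q ∈ T, pstar q)) → (s = 5 → t = 5) ∧ S ⊆ T := by
    intro s t hs ht S T h
    refine ⟨fun h' => ?_, fun q hq => ?_⟩
    · have := dvd_of_sq Nat.prime_five (sqf hs S) (by rw [h']; exact Dvd.intro _ rfl) h
      refine ht.resolve_left fun h1 => ?_
      rw [h1, one_mul] at this
      have := this.trans (hdv T)
      omega
    · have := dvd_of_sq (pr q) (sqf hs S)
        (((dvd_prod_iff natAbs_pstar S q).mpr hq).mul_left _) h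
      rcases (Nat.prime_iff_prime_int.mp (pr q)).dvd_or_dvd this with h' | h'
      · exact absurd h' (nd_smooth h4 h3 h5 q (by rcases ht with rfl | rfl <;> norm_num))
      · exact (dvd_prod_iff natAbs_pstar T q).mp h'
  have h1 := half hs ht h
  have h2 := half ht hs (mul_comm (s * _) _ ▸ h)
  refine ⟨?_, Subset.antisymm h1.2 h2.2⟩
  have := h1.1
  have := h2.1
  omega

theorem dot_redei (hN : Squarefree N) (h4 : N % 4 = 3) {w : N.primeFactors → ZMod 2}
    (hw : redei N.primeFactors (fun q => (q : ℤ)) *ᵥ w = 0) (x : N.primeFactors → ZMod 2) :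
    w ⬝ᵥ (redei N.primeFactors pstar *ᵥ x) = 0 := by
  rw [dotProduct_mulVec, ← mulVec_transpose, ← redei_transpose hN h4, transpose_transpose, hw,
    zero_dotProduct]

theorem one_dot (v : N.primeFactors → ZMod 2) : 1 ⬝ᵥ v = ∑ q, v q := by simp [dotProduct]

end N

end SelB

open SelB Module in
theorem condB5_of_sel {N : ℕ} (hN : Squarefree N) (h4 : N % 4 = 3) (h3 : N % 3 = 2)
    (h5 : N % 5 = 1 ∨ N % 5 = 4) (h : (Sel (-51 * N) (-42 * N) (93 * N)).encard ≤ 8) :
    CondB5 N := by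
  classical
  intro d d' hd h0 a1 a2 hJ
  by_contra hcon
  have := Fact.mk Nat.prime_two
  have h5' : N % 5 ≠ 0 := by omega
  obtain ⟨T, hT, hB, ⟨i, hi⟩, ⟨j, hj⟩⟩ := exists_T hN hd h0 a1 a2 (fun h => hcon (Or.inl h))
    (fun h => hcon (Or.inr h))
  have hd5 : d % 5 = 1 ∨ d % 5 = 4 := by
    rw [jacobiSym.mod_left] at hJ
    push_cast at hJ
    rcases (by omega : d % 5 = 0 ∨ d % 5 = 2 ∨ d % 5 = 3 ∨ d % 5 = 1 ∨ d % 5 = 4) with
      h | h | h | h
    · rw [h] at hJ; norm_num at hJ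
    · rw [h] at hJ; norm_num at hJ
    · rw [h] at hJ; norm_num at hJ
    · exact h
  let v : N.primeFactors → ZMod 2 := fun q => aleg q (pstar 5)
  let φ : ((N.primeFactors → ZMod 2) × ZMod 2) →ₗ[ZMod 2] (N.primeFactors → ZMod 2) :=
    (redei N.primeFactors pstar).mulVecLin.coprod (LinearMap.toSpanSingleton _ _ v)
  have hφ : ∀ x, φ x = redei N.primeFactors pstar *ᵥ x.1 + x.2 • v := fun x => by simp [φ]
  have s5 := sum_aleg (N := N) Nat.prime_five (by norm_num) h5' (by omega)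
  have := (la φ (ind _ T) (i := i) (j := j) (by simp [ind, hi]) (by simp [ind, hj])
    (fun x => ?_) (fun x => ?_)).1
  · rw [finrank_prod, finrank_self, finrank_fintype_fun_eq_card] at this
    have hc : 8 ≤ Fintype.card (LinearMap.ker φ) := by
      rw [Module.card_eq_pow_finrank (K := ZMod 2), ZMod.card]
      exact Nat.pow_le_pow_right (n := 2) (by norm_num) (by omega : 3 ≤ _)
    have hs : ∀ b : ZMod 2, (if b = 1 then 5 else 1 : ℤ) = 1 ∨ (if b = 1 then 5 else 1 : ℤ) = 5 :=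
      fun b => by split_ifs <;> simp
    have := fam h4 (ι := LinearMap.ker φ) (κ := Empty)
      (fun x => (if x.1.2 = 1 then 5 else 1) * ∏ q ∈ supp x.1.1, pstar q) Empty.elim
      (fun x => mul_ne_zero (by split_ifs <;> norm_num) (pstar_prod_ne _)) (fun x p _ => ?_)
      (fun x y hxy => ?_) (fun k => k.elim) (fun k => k.elim) (fun k => k.elim) (fun k => k.elim)
    · have := this.trans h
      norm_cast at this
      omega
    · refine loc_ker hN h4 h3 h5' _ ∅ (by simp) (by rcases hs x.1.2 with h | h <;> simp [h])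
        (by rcases hs x.1.2 with h | h <;> rw [h] <;> norm_num) (by omega) (by norm_num)
        (by rw [show ind N.primeFactors ∅ = 0 by ext; simp [ind], mulVec_zero]) (fun q => ?_) p
      have hx : φ x.1 = 0 := x.2
      rw [hφ] at hx
      have := congrFun hx q
      rw [ind_supp]
      simp only [Pi.add_apply, Pi.smul_apply, smul_eq_mul, Pi.zero_apply, v] at this
      rw [CharTwo.add_eq_zero] at this
      rw [this]
      rcases zmod_two_cases x.1.2 with h | h <;> simp [h, aleg_one, pstar]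
    · obtain ⟨e1, e2⟩ := inj_sq hN h4 h3 h5' (hs _) (hs _) hxy
      refine Subtype.ext (Prod.ext ?_ ?_)
      · rw [← ind_supp x.1.1, e2, ind_supp]
      · rcases zmod_two_cases x.1.2 with h1 | h1 <;> rcases zmod_two_cases y.1.2 with h2 | h2 <;>
          simp [h1, h2] at e1 ⊢
  · rw [hφ, dotProduct_add, dot_redei hN h4 (redei_mulVec_one _ _), dotProduct_smul, one_dot, s5,
      prod_coe_primeFactors hN, aleg5_sq (by omega), smul_zero, add_zero]
  · rw [hφ, dotProduct_add, dot_redei hN h4 hB, dotProduct_smul, ind_dot, s5, ← hT,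
      aleg5_sq hd5, smul_zero, add_zero]

open SelB Module in
theorem condB_of_sel {N : ℕ} (hN : Squarefree N) (h4 : N % 4 = 3) (h3 : N % 3 = 2)
    (h5 : N % 5 = 2 ∨ N % 5 = 3) (h : (Sel (-51 * N) (-42 * N) (93 * N)).encard ≤ 8) :
    CondB N := by
  classical
  intro d d' hd h0 a1 a2
  by_contra hcon
  have := Fact.mk Nat.prime_two
  have h5' : N % 5 ≠ 0 := by omega
  obtain ⟨T, hT, hB, ⟨i, hi⟩, ⟨j, hj⟩⟩ := exists_T hN hd h0 a1 a2 (fun h => hcon (Or.inl h))
    (fun h => hcon (Or.inr h))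
  let φ := (redei N.primeFactors pstar).mulVecLin
  obtain ⟨l1, l2⟩ := la φ (ind _ T) (i := i) (j := j) (by simp [ind, hi]) (by simp [ind, hj])
    (fun x => dot_redei hN h4 (redei_mulVec_one _ _) x) (fun x => dot_redei hN h4 hB x)
  rw [finrank_fintype_fun_eq_card] at l1 l2
  have hc : Fintype.card (LinearMap.ker φ) = 2 ^ finrank (ZMod 2) (LinearMap.ker φ) := by
    rw [Module.card_eq_pow_finrank (K := ZMod 2), ZMod.card]
  have key : ∀ (κ : Type) [Fintype κ] [Subsingleton κ] (D : κ → ℤ),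
      (∀ k, D k ≠ 0) → (∀ k, ∀ (p : ℕ) [Fact p.Prime],
        Loc ℚ_[p] (-51 * N) (-42 * N) (93 * N) d (D k)) →
      Fintype.card κ + 2 * Fintype.card (LinearMap.ker φ) ≤ 8 := by
    intro κ _ _ D hD0 hD
    have hsq : Squarefree (N : ℤ) := Int.squarefree_natCast.mpr hN
    have := fam h4 (ι := LinearMap.ker φ) (κ := κ)
      (fun x => 1 * ∏ q ∈ supp x.1, pstar q) (fun k => (d, D k))
      (fun x => mul_ne_zero one_ne_zero (pstar_prod_ne _)) (fun x p _ => ?_)
      (fun x y hxy => ?_) (fun k => ⟨h0, hD0 k⟩) hD (fun _ hs => ?_) (fun _ hs => ?_)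
    · have := this.trans h
      norm_cast at this
    · refine loc_ker hN h4 h3 h5' _ ∅ (by simp) (by simp) (by norm_num) (by norm_num) (by norm_num)
        (by rw [show ind N.primeFactors ∅ = 0 by ext; simp [ind], mulVec_zero]) (fun q => ?_) p
      have hx : redei N.primeFactors pstar *ᵥ x.1 = 0 := x.2
      rw [ind_supp, hx]
      simp [aleg_one]
    · obtain ⟨-, e2⟩ := inj_sq hN h4 h3 h5' (Or.inl rfl) (Or.inl rfl) hxy
      refine Subtype.ext ?_
      rw [← ind_supp x.1, e2, ind_supp]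
    · have := dvd_of_sq (b := 1) (pr i) (hsq.squarefree_of_dvd (Dvd.intro _ hd))
        (hT ▸ (dvd_prod_iff hid T i).mpr hi) (by simpa using hs)
      exact nd_smooth h4 h3 h5' i (by norm_num) this
    · have := dvd_of_sq (pr j) hsq (Int.natCast_dvd_natCast.mpr (pd j)) hs
      rw [hT] at this
      exact hj ((dvd_prod_iff hid T j).mp this)
  by_cases hk : 3 ≤ finrank (ZMod 2) (LinearMap.ker φ)
  · have h1 := key Empty Empty.elim (fun k => k.elim) (fun k => k.elim)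
    have h2 := Nat.pow_le_pow_right (n := 2) (by norm_num) hk
    omega
  have d3 : d % 3 ≠ 0 := emod_ne_of_mul hd (by omega)
  have d5 : d % 5 ≠ 0 := emod_ne_of_mul hd (by omega)
  have s3 := sum_aleg (N := N) Nat.prime_three (by norm_num) (by omega) (by omega)
  have s5 := sum_aleg (N := N) Nat.prime_five (by norm_num) h5' (by omega)
  rw [show pstar 3 = -3 by simp [pstar]] at s3
  rw [show pstar 5 = 5 by simp [pstar]] at s5
  have e15 : ∀ q : N.primeFactors, aleg q (-15) = aleg q (-3) + aleg q 5 := fun q => by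
    rw [← aleg_mul (pr q) (nd_smooth h4 h3 h5' q (by norm_num))
      (nd_smooth h4 h3 h5' q (by norm_num))]
    norm_num
  obtain ⟨s, hs, k3, k5, es⟩ : ∃ s : ℤ, (s = 1 ∨ s = -3 ∨ s = 5 ∨ s = -15) ∧
      (3 ∣ s ↔ d % 3 = 2) ∧ (5 ∣ s ↔ d % 5 = 2 ∨ d % 5 = 3) ∧
      ∀ q : N.primeFactors, aleg q s = aleg 3 d * aleg q (-3) + aleg 5 d * aleg q 5 := by
    rcases (by omega : d % 3 = 1 ∨ d % 3 = 2) with c3 | c3 <;>
      rcases (by omega : (d % 5 = 1 ∨ d % 5 = 4) ∨ (d % 5 = 2 ∨ d % 5 = 3)) with c5 | c5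
    · exact ⟨1, by simp, by omega, by omega, fun q => by
        simp [aleg3_one c3, aleg5_sq c5, aleg_one]⟩
    · exact ⟨5, by simp, by omega, by omega, fun q => by simp [aleg3_one c3, aleg5_non c5]⟩
    · exact ⟨-3, by simp, by omega, by omega, fun q => by simp [aleg3_two c3, aleg5_sq c5]⟩
    · exact ⟨-15, by simp, by omega, by omega, fun q => by
        simp [aleg3_two c3, aleg5_non c5, e15]⟩
  have t15 : ∑ q ∈ T, aleg q (-15) = aleg 3 d + aleg 5 d := by
    rw [sum_congr rfl fun q _ => e15 q, sum_add_distrib, s3, s5, ← hT]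
  have ts : ∀ U : Finset N.primeFactors, ∑ q ∈ U, aleg q s =
      aleg 3 d * aleg 3 (∏ q ∈ U, ((q : ℕ) : ℤ)) + aleg 5 d * aleg 5 (∏ q ∈ U, ((q : ℕ) : ℤ)) :=
    fun U => by
      rw [sum_congr rfl fun q _ => es q, sum_add_distrib, ← mul_sum, ← mul_sum, s3, s5]
  have y1 : 1 ⬝ᵥ (fun q : N.primeFactors =>
      aleg q s + if q ∈ T then aleg q (-15) else 0) = 0 := by
    rw [one_dot, sum_add_distrib, ← sum_filter, filter_mem_eq_inter, univ_inter, t15, ts,
      prod_coe_primeFactors hN, aleg3_two (a := N) (by omega), aleg5_non (a := N) (by omega),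
      mul_one, mul_one]
    exact CharTwo.add_self_eq_zero _
  have y2 : ind _ T ⬝ᵥ (fun q : N.primeFactors =>
      aleg q s + if q ∈ T then aleg q (-15) else 0) = 0 := by
    rw [ind_dot, sum_add_distrib, ← sum_filter, filter_mem_eq_inter, inter_self, t15, ts, ← hT]
    exact zmod_two_id _ _
  obtain ⟨x, hx⟩ := l2 (by omega) _ y1 y2
  have h1 := key Unit (fun _ => s * ∏ q ∈ supp x, pstar q)
    (fun _ => mul_ne_zero (by omega) (pstar_prod_ne _)) fun _ p _ =>
      loc_ker hN h4 h3 h5' _ T hT hs k3 (fun _ => k5) (by omega) hB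
        (fun q => by rw [ind_supp]; exact congrFun hx q) p
  have h2 := Nat.pow_le_pow_right (n := 2) (by norm_num)
    (by omega : 2 ≤ finrank (ZMod 2) (LinearMap.ker φ))
  rw [Fintype.card_unit] at h1
  omega

end Pool.Agent.Lib.MP_696deb_nt
end

-- part Pool.Agent.Lib.MP_696deb_nt.SelIso
section

/-! The two-isogeny between the two curves of conductor fifteen. -/

set_option autoImplicit false

namespace Pool.Agent.Lib.MP_696deb_nt

namespace SelI

open Finset

section Count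

variable {F : Type} [Field F] [Fintype F] [DecidableEq F]

theorem card_root (hc : ringChar F ≠ 2) (a : F) :
    ((univ.filter fun y : F => y ^ 2 = a).card : ℤ) = quadraticChar F a + 1 := by
  rw [← quadraticChar_card_sqrts hc]
  congr 2
  ext y
  simp

theorem card_sq (hc : ringChar F ≠ 2) (g : F → F) :
    (Nat.card {q : F × F // q.2 ^ 2 = g q.1} : ℤ) = ∑ x, (quadraticChar F (g x) + 1) := by
  have e : {q : F × F // q.2 ^ 2 = g q.1} ≃ Σ x : F, {y : F // y ^ 2 = g x} :=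
    { toFun := fun q => ⟨q.1.1, q.1.2, q.2⟩
      invFun := fun z => ⟨(z.1, z.2.1), z.2.2⟩
      left_inv := fun _ => rfl
      right_inv := fun _ => rfl }
  rw [Nat.card_congr e, Nat.card_eq_fintype_card, Fintype.card_sigma]
  push_cast
  refine sum_congr rfl fun x _ => ?_
  rw [← card_root hc, Fintype.card_subtype]

theorem sum_affine {α γ : F} (hα : α ≠ 0) (hγ : γ ≠ 0) (β : F) (f g : F → F)
    (h : ∀ x, f (α * x + β) = γ ^ 2 * g x) :
    ∑ x, quadraticChar F (f x) = ∑ x, quadraticChar F (g x) := by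
  rw [← Equiv.sum_comp ((Equiv.mulLeft₀ α hα).trans (Equiv.addRight β))]
  refine sum_congr rfl fun x _ => ?_
  simp only [Equiv.trans_apply, Equiv.mulLeft₀_apply, Equiv.coe_addRight]
  rw [h, map_mul, quadraticChar_sq_one' hγ, one_mul]

theorem card_fibre (hc : ringChar F ≠ 2) {B : F} (hB : B ≠ 0) (t : F) :
    (((univ.erase (0 : F)).filter fun x => x + B / x = t).card : ℤ) =
      quadraticChar F (t ^ 2 - 4 * B) + 1 := by
  have h2 : (2 : F) ≠ 0 := Ring.two_ne_zero hc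
  rw [← card_root hc]
  congr 1
  refine card_bij' (fun x _ => 2 * x - t) (fun u _ => (u + t) / 2) ?_ ?_ ?_ ?_
  · intro x hx
    simp only [mem_filter, mem_erase, mem_univ, and_true, true_and] at hx ⊢
    obtain ⟨h0, h1⟩ := hx
    rw [← h1]
    field_simp
    ring
  · intro u hu
    simp only [mem_filter, mem_erase, mem_univ, and_true, true_and] at hu ⊢
    have h4 : (4 : F) ≠ 0 := by
      rw [show (4 : F) = 2 * 2 by norm_num]; exact mul_ne_zero h2 h2
    have h0 : u + t ≠ 0 := by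
      intro h
      apply mul_ne_zero h4 hB
      linear_combination hu - (u - t) * h
    refine ⟨div_ne_zero h0 h2, ?_⟩
    field_simp
    linear_combination hu
  · intro x _
    field_simp
    ring
  · intro u _
    field_simp
    ring

theorem sum_iso (hc : ringChar F ≠ 2) (A : F) {B : F} (hB : B ≠ 0) :
    ∑ x, quadraticChar F (x * (x ^ 2 + A * x + B)) =
      ∑ v, quadraticChar F (v * (v ^ 2 - 2 * A * v + (A ^ 2 - 4 * B))) := by
  have h1 : ∑ x, quadraticChar F (x * (x ^ 2 + A * x + B)) =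
      ∑ x ∈ univ.erase (0 : F), quadraticChar F (x + B / x + A) := by
    rw [← sum_erase_add _ _ (mem_univ (0 : F)), zero_mul, MulChar.map_zero, add_zero]
    refine sum_congr rfl fun x hx => ?_
    have h0 : x ≠ 0 := (mem_erase.mp hx).1
    have : x * (x ^ 2 + A * x + B) = x ^ 2 * (x + B / x + A) := by
      field_simp
      ring
    rw [this, map_mul, quadraticChar_sq_one' h0, one_mul]
  have h2 : ∑ x ∈ univ.erase (0 : F), quadraticChar F (x + B / x + A) =
      ∑ t, (quadraticChar F (t ^ 2 - 4 * B) + 1) * quadraticChar F (t + A) := by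
    rw [← sum_fiberwise_of_maps_to (t := univ) (g := fun x => x + B / x) fun _ _ => mem_univ _]
    refine sum_congr rfl fun t _ => ?_
    rw [← card_fibre hc hB, ← nsmul_eq_mul, ← sum_const]
    refine sum_congr rfl fun x hx => ?_
    rw [(mem_filter.mp hx).2]
  have h3 : ∑ t, quadraticChar F (t + A) = 0 := by
    rw [← quadraticChar_sum_zero hc]
    exact Equiv.sum_comp (Equiv.addRight A) fun a => quadraticChar F a
  rw [h1, h2]
  simp only [add_mul, one_mul, sum_add_distrib, h3, add_zero]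
  rw [← Equiv.sum_comp (Equiv.addRight A)
    (fun v => quadraticChar F (v * (v ^ 2 - 2 * A * v + (A ^ 2 - 4 * B))))]
  refine sum_congr rfl fun t _ => ?_
  rw [← map_mul]
  congr 1
  simp only [Equiv.coe_addRight]
  ring

end Count

section Fin

variable {K : Type} [Field K]

theorem finite_of_fst {f : K → K} {T : Set K} (hT : T.Finite)
    (h : ∀ x y, y ^ 2 = f x → x ∈ T) : {q : K × K | q.2 ^ 2 = f q.1}.Finite := by
  have hy : ∀ a : K, {y : K | y ^ 2 = a}.Finite := by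
    intro a
    refine ((Polynomial.X ^ 2 - Polynomial.C a).rootSet_finite K).subset fun y hy => ?_
    rw [Polynomial.mem_rootSet_of_ne (Polynomial.X_pow_sub_C_ne_zero two_pos a)]
    simpa [sub_eq_zero] using hy
  refine (hT.biUnion fun x _ => (hy (f x)).image fun y => (x, y)).subset ?_
  rintro ⟨x, y⟩ hq
  simp only [Set.mem_iUnion, Set.mem_image, Set.mem_ofPred_eq]
  exact ⟨x, h x y hq, y, hq, rfl⟩

theorem finite_affine {α γ : K} (hα : α ≠ 0) (hγ : γ ≠ 0) (β : K) (f g : K → K)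
    (h : ∀ x, f (α * x + β) = γ ^ 2 * g x) :
    {q : K × K | q.2 ^ 2 = f q.1}.Finite ↔ {q : K × K | q.2 ^ 2 = g q.1}.Finite := by
  constructor
  · intro hf
    refine finite_of_fst (hf.image fun q => (q.1 - β) / α) fun x y hxy => ?_
    refine ⟨(α * x + β, γ * y), ?_, ?_⟩
    · simp only [Set.mem_ofPred_eq, h, ← hxy]
      ring
    · field_simp
      ring
  · intro hg
    refine finite_of_fst (hg.image fun q => α * q.1 + β) fun x y hxy => ?_
    have hx : α * ((x - β) / α) + β = x := by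
      field_simp
      ring
    refine ⟨((x - β) / α, y / γ), ?_, hx⟩
    have := h ((x - β) / α)
    rw [hx, ← hxy] at this
    simp only [Set.mem_ofPred_eq, div_pow, this]
    field_simp

theorem finite_of_quot (A B : K)
    (h : {q : K × K | q.2 ^ 2 = q.1 * (q.1 ^ 2 - 2 * A * q.1 + (A ^ 2 - 4 * B))}.Finite) :
    {q : K × K | q.2 ^ 2 = q.1 * (q.1 ^ 2 + A * q.1 + B)}.Finite := by
  have hr : ∀ v : K, {x : K | x ^ 2 + (A - v) * x + B = 0}.Finite := by
    intro v
    have hne : (Polynomial.C 1 * Polynomial.X ^ 2 + Polynomial.C (A - v) * Polynomial.X +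
        Polynomial.C B : Polynomial K) ≠ 0 := by
      intro h0
      have := Polynomial.natDegree_quadratic (a := (1 : K)) (b := A - v) (c := B) one_ne_zero
      rw [h0] at this
      simp at this
    refine ((Polynomial.C 1 * Polynomial.X ^ 2 + Polynomial.C (A - v) * Polynomial.X +
        Polynomial.C B : Polynomial K).rootSet_finite K).subset fun x hx => ?_
    rw [Polynomial.mem_rootSet_of_ne hne]
    simpa using hx
  refine finite_of_fst (f := fun x => x * (x ^ 2 + A * x + B))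
    ((h.biUnion fun q _ => hr q.1).insert 0) fun x y hxy => ?_
  by_cases h0 : x = 0
  · exact Or.inl h0
  refine Or.inr ?_
  simp only [Set.mem_iUnion, Set.mem_ofPred_eq]
  have hv : y ^ 2 / x ^ 2 = x + A + B / x := by
    rw [hxy]
    field_simp
  refine ⟨(y ^ 2 / x ^ 2, y * (B - x ^ 2) / x ^ 2), ?_, ?_⟩
  · have : (y * (B - x ^ 2) / x ^ 2) ^ 2 = y ^ 2 / x ^ 2 * (x - B / x) ^ 2 := by
      field_simp
      ring
    rw [this, hv]
    field_simp
    ring
  · rw [hv]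
    field_simp
    ring

theorem finite_point_iff {W : WeierstrassCurve K} {e1 e2 e3 : K} (h : Split W e1 e2 e3) :
    Finite W.toAffine.Point ↔
      {q : K × K | q.2 ^ 2 = (q.1 - e1) * (q.1 - e2) * (q.1 - e3)}.Finite := by
  rw [(W.toAffine.nonsingularPointEquiv).finite_iff, ← Set.finite_coe_iff]
  have e : {xy : K × K // W.toAffine.Nonsingular xy.1 xy.2} ≃
      {q : K × K | q.2 ^ 2 = (q.1 - e1) * (q.1 - e2) * (q.1 - e3)} :=
    Equiv.subtypeEquivRight fun q => h.nonsingular_iff q.1 q.2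
  rw [← e.finite_iff]
  change Finite (Option _) ↔ _
  constructor
  · intro h1
    exact Finite.of_injective _ (Option.some_injective _)
  · intro h1
    infer_instance

end Fin

theorem dvd_aux {p N : ℕ} (hp : p.Prime) {i j k : ℕ} (hi : i ≠ 0) (hj : j ≠ 0) (hk : k ≠ 0) :
    (p : ℤ) ∣ 2 ^ i * 3 ^ j * 5 ^ k * (N : ℤ) ^ 6 ↔ p ∣ 30 ∨ p ∣ N := by
  have e : (2 : ℤ) ^ i * 3 ^ j * 5 ^ k * (N : ℤ) ^ 6 = ((2 ^ i * 3 ^ j * 5 ^ k * N ^ 6 : ℕ) : ℤ) := by
    push_cast
    rfl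
  have hq := hp.prime
  rw [e, Int.natCast_dvd_natCast, show 30 = 2 * 3 * 5 by norm_num]
  simp only [hp.dvd_mul, hq.dvd_pow_iff_dvd hi, hq.dvd_pow_iff_dvd hj, hq.dvd_pow_iff_dvd hk,
    hq.dvd_pow_iff_dvd (show 6 ≠ 0 by norm_num)]

end SelI

open SelI

theorem card_iso {N : ℕ} {a b a' b' : ℤ} (ha : a = -12987 * (N : ℤ) ^ 2)
    (hb : b = 263466 * (N : ℤ) ^ 3) (ha' : a' = -6507 * (N : ℤ) ^ 2)
    (hb' : b' = -199206 * (N : ℤ) ^ 3) {p : ℕ} (hp : p.Prime) (h30 : ¬ p ∣ 30) (hN : ¬ p ∣ N) :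
    Nat.card {q : ZMod p × ZMod p // q.2 ^ 2 = q.1 ^ 3 + (a' : ZMod p) * q.1 + (b' : ZMod p)} =
      Nat.card {q : ZMod p × ZMod p // q.2 ^ 2 = q.1 ^ 3 + (a : ZMod p) * q.1 + (b : ZMod p)} := by
  have := Fact.mk hp
  have hne : ∀ m : ℕ, m ∣ 30 → (m : ZMod p) ≠ 0 := fun m hm h =>
    h30 (((ZMod.natCast_eq_zero_iff m p).mp h).trans hm)
  have h2 : (2 : ZMod p) ≠ 0 := by exact_mod_cast hne 2 (by norm_num)
  have h3 : (3 : ZMod p) ≠ 0 := by exact_mod_cast hne 3 (by norm_num)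
  have h5 : (5 : ZMod p) ≠ 0 := by exact_mod_cast hne 5 (by norm_num)
  have hn : (N : ZMod p) ≠ 0 := fun h => hN ((ZMod.natCast_eq_zero_iff N p).mp h)
  have hc : ringChar (ZMod p) ≠ 2 := by
    rw [ZMod.ringChar_zmod_n]
    rintro rfl
    exact h30 (by norm_num)
  have h9 : (9 : ZMod p) ≠ 0 := by
    rw [show (9 : ZMod p) = 3 ^ 2 by norm_num]; exact pow_ne_zero _ h3
  have h27 : (27 : ZMod p) ≠ 0 := by
    rw [show (27 : ZMod p) = 3 ^ 3 by norm_num]; exact pow_ne_zero _ h3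
  have h4 : (4 : ZMod p) ≠ 0 := by
    rw [show (4 : ZMod p) = 2 ^ 2 by norm_num]; exact pow_ne_zero _ h2
  have h8 : (8 : ZMod p) ≠ 0 := by
    rw [show (8 : ZMod p) = 2 ^ 3 by norm_num]; exact pow_ne_zero _ h2
  have hB : (225 * (N : ZMod p) ^ 2) ≠ 0 := by
    rw [show (225 * (N : ZMod p) ^ 2) = (3 * 5 * N) ^ 2 by ring]
    exact pow_ne_zero _ (mul_ne_zero (mul_ne_zero h3 h5) hn)
  have key : ∑ x : ZMod p, quadraticChar (ZMod p) (x ^ 3 + (a' : ZMod p) * x + (b' : ZMod p)) =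
      ∑ x : ZMod p, quadraticChar (ZMod p) (x ^ 3 + (a : ZMod p) * x + (b : ZMod p)) := by
    rw [sum_affine h9 h27 (-51 * N) (fun x => x ^ 3 + (a' : ZMod p) * x + (b' : ZMod p))
        (fun x => x * (x - N) * (x - 16 * N)) fun x => by rw [ha', hb']; push_cast; ring,
      sum_affine h9 h27 (102 * N) (fun x => x ^ 3 + (a : ZMod p) * x + (b : ZMod p))
        (fun x => x * (x ^ 2 + 34 * N * x + 225 * (N : ZMod p) ^ 2))
        fun x => by rw [ha, hb]; push_cast; ring,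
      sum_iso hc _ hB]
    exact (sum_affine h4 h8 0 _ _ fun x => by ring).symm
  have e1 := card_sq hc fun x => x ^ 3 + (a' : ZMod p) * x + (b' : ZMod p)
  have e2 := card_sq hc fun x => x ^ 3 + (a : ZMod p) * x + (b : ZMod p)
  rw [Finset.sum_add_distrib] at e1 e2
  rw [key, ← e2] at e1
  exact_mod_cast e1

theorem bad_iso {N : ℕ} {a b a' b' : ℤ} (ha : a = -12987 * (N : ℤ) ^ 2)
    (hb : b = 263466 * (N : ℤ) ^ 3) (ha' : a' = -6507 * (N : ℤ) ^ 2)
    (hb' : b' = -199206 * (N : ℤ) ^ 3) {p : ℕ} (hp : p.Prime) :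
    ((p : ℤ) ∣ 2 * (-4 * a' ^ 3 - 27 * b' ^ 2) ↔ p ∣ 30 ∨ p ∣ N) ∧
      ((p : ℤ) ∣ 2 * (-4 * a ^ 3 - 27 * b ^ 2) ↔ p ∣ 30 ∨ p ∣ N) := by
  have e1 : 2 * (-4 * a' ^ 3 - 27 * b' ^ 2) = 2 ^ 9 * 3 ^ 14 * 5 ^ 2 * (N : ℤ) ^ 6 := by
    rw [ha', hb']; ring
  have e2 : 2 * (-4 * a ^ 3 - 27 * b ^ 2) = 2 ^ 9 * 3 ^ 16 * 5 ^ 4 * (N : ℤ) ^ 6 := by
    rw [ha, hb]; ring
  rw [e1, e2]
  exact ⟨dvd_aux hp (by norm_num) (by norm_num) (by norm_num),
    dvd_aux hp (by norm_num) (by norm_num) (by norm_num)⟩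

theorem finite_iso15 {N : ℕ} (hN : N ≠ 0) :
    Finite (tw3 N).toAffine.Point ↔ Finite (twist15 (-(N : ℤ))).toAffine.Point := by
  have hn : (N : ℚ) ≠ 0 := by exact_mod_cast hN
  have s3 : Split (tw3 N) (-51 * N) (-42 * N) (93 * N) := by
    refine ⟨rfl, rfl, ?_, ?_, ?_, ?_, ?_, ?_, two_ne_zero⟩
    · simp only [tw3]; ring
    · simp only [tw3]; push_cast; ring
    · simp only [tw3]; push_cast; ring
    · intro h; apply hn; linear_combination (-1 / 9 : ℚ) * h
    · intro h; apply hn; linear_combination (-1 / 144 : ℚ) * h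
    · intro h; apply hn; linear_combination (-1 / 135 : ℚ) * h
  have s1 := split_twist15 (D := -(N : ℤ)) (by simpa using hN)
  rw [finite_point_iff s3, finite_point_iff s1,
    finite_affine (α := 9) (γ := 27) (by norm_num) (by norm_num) (-51 * N : ℚ)
      (fun x => (x - -51 * N) * (x - -42 * N) * (x - 93 * N))
      (fun x => x * (x ^ 2 - 17 * N * x + 16 * (N : ℚ) ^ 2)) fun x => by ring,
    finite_affine (α := 9) (γ := 27) (by norm_num) (by norm_num) (102 * N : ℚ)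
      (fun x => (x - -102 * ((-(N : ℤ) : ℤ) : ℚ)) * (x - -21 * ((-(N : ℤ) : ℤ) : ℚ)) *
        (x - 123 * ((-(N : ℤ) : ℤ) : ℚ)))
      (fun x => x * (x ^ 2 + 34 * N * x + 225 * (N : ℚ) ^ 2)) fun x => by push_cast; ring]
  constructor
  · intro h
    refine finite_of_quot _ _ ?_
    exact (finite_affine (α := 4) (γ := 8) (by norm_num) (by norm_num) 0
      (fun v => v * (v ^ 2 - 2 * (34 * N) * v + ((34 * N) ^ 2 - 4 * (225 * (N : ℚ) ^ 2))))
      (fun x => x * (x ^ 2 - 17 * N * x + 16 * (N : ℚ) ^ 2)) fun x => by ring).mpr h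
  · intro h
    have := finite_of_quot (-17 * N : ℚ) (16 * (N : ℚ) ^ 2) (h.subset fun q hq => by
      simp only [Set.mem_ofPred_eq] at hq ⊢
      rw [hq]; ring)
    refine this.subset fun q hq => ?_
    simp only [Set.mem_ofPred_eq] at hq ⊢
    rw [hq]; ring

end Pool.Agent.Lib.MP_696deb_nt
end
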