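import Pool.Agent.Lib.MP_696deb_nt.Final
import Pool.Agent.Lib.MP_696deb_nt.C5Gal
import Pool.Agent.Lib.MP_696deb_nt.C5Rank
import Pool.Agent.Lib.MP_696deb_nt.SelIso


/-! The rank one theorem under the weaker Redei condition, and the converse theorem. -/

set_option autoImplicit false

open Finset NumberTheorySymbols WeierstrassCurve WeierstrassCurve.Affine

namespace Pool.Agent.Lib.MP_696deb_nt

theorem exists_point_twist {N : ℕ} (hN : N ≠ 0) {δ : ℂ} (hδ : δ ^ 2 = -(N : ℂ)) {Q : Pt W15 ℂ}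
    (hQ : ¬ IsOfFinAddOrder Q) (hx : ∃ a b : ℚ, xco Q = a + b * δ)
    (hy : ∃ a b : ℚ, yco Q = a + b * δ) (hc : pmap (starRingEnd ℂ) Q = -Q) :
    ∃ P : (twist15 (-(N : ℤ))).toAffine.Point, ¬ IsOfFinAddOrder P := by
  classical
  have hN0 : (N : ℂ) ≠ 0 := by exact_mod_cast hN
  have h0 : δ ≠ 0 := by
    rintro rfl
    exact hN0 (by simpa using hδ.symm)
  have hcδ : (starRingEnd ℂ) δ = -δ := by
    have h1 : ((starRingEnd ℂ) δ) ^ 2 = δ ^ 2 := by rw [← map_pow, hδ]; simp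
    rcases sq_eq_sq_iff_eq_or_eq_neg.mp h1 with h | h
    · exfalso
      have h2 := Complex.conj_eq_iff_re.mp h
      rw [← h2] at hδ
      have h3 : δ.re ^ 2 = -(N : ℝ) := by exact_mod_cast hδ
      have : (0 : ℝ) < N := by exact_mod_cast Nat.pos_of_ne_zero hN
      nlinarith [sq_nonneg δ.re]
    · exact h
  have hv := vc_twist (D := -(N : ℤ)) (by omega) (δ := δ) (by rw [hδ]; push_cast; ring)
  rcases Q with _ | ⟨X, Y, hP⟩
  · exact absurd IsOfFinAddOrder.zero hQ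
  obtain ⟨a, b, ha⟩ := hx
  obtain ⟨c, d, hd⟩ := hy
  have e1 := congrArg xco hc
  have e2 := congrArg yco hc
  rw [xco_pmap, xco_neg] at e1
  rw [yco_pmap, Point.neg_some] at e2
  simp only [xco_some, yco_some, negY, toAffine, W15_a₁, W15_a₃] at ha hd e1 e2
  rw [ha] at e1
  rw [hd, ha] at e2
  simp only [map_add, map_mul, map_ratCast, hcδ] at e1 e2
  obtain ⟨P, hP'⟩ := hv.mem_range hP (x := -36 * N * (a - 7 / 12)) (y := 216 * N ^ 2 * d)
    (by
      simp only [eq_ratCast]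
      push_cast
      rw [ha, div_pow, mul_pow, hδ]
      field_simp
      linear_combination (-(6 : ℂ) * 36) * e1)
    (by
      simp only [eq_ratCast]
      push_cast
      have hN' : (N : ℂ) = -δ ^ 2 := by rw [hδ]; ring
      rw [hd, hN']
      field_simp
      linear_combination (62208 : ℂ) * e2 + (31104 : ℂ) * e1)
  exact ⟨P, fun h => hQ (hP' ▸ hv.hom.isOfFinAddOrder h)⟩

open Unif Gal in
theorem exists_point_heeg {n : ℕ} {r : ℤ} {R : Finset Fm} (hn : Good n) (hR : HReps (-n) r R)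
    (h : ¬ Tors (∑ Q ∈ R, Fi (froot Q))) :
    ∃ P : (twist15 (-(n : ℤ))).toAffine.Point, ¬ IsOfFinAddOrder P := by
  have hD := hn.neg
  have hU : ∀ σ : ℂ ≃+* ℂ, pmap (σ : ℂ →+* ℂ) (u15 (alC 3)) = u15 (alC 3) := fun σ => by
    rw [u15_alC_three]
    exact Shared.Weier.IsPer.some_congr (map_ofNat _ _) (by simp [map_ofNat])
  set P := ∑ Q ∈ R, pt (froot Q) with hP
  have hy : ∀ σ : ℂ ≃+* ℂ, σ (del (-n)) = del (-n) →
      pmap (σ : ℂ →+* ℂ) (2 • P - #R • u15 (alC 3)) = 2 • P - #R • u15 (alC 3) := fun σ hσ => by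
    rw [map_sub, map_nsmul, map_nsmul, hU, pmap_sum hD hR hσ]
  refine exists_point_twist hn.sqf.ne_zero (δ := del (-n)) (by simpa using del_sq hD)
    (Q := 2 • P - #R • u15 (alC 3)) (fun k => h ?_)
    (exists_rat hD fun σ hσ => by rw [← RingHom.coe_coe, ← xco_pmap, hy σ hσ])
    (exists_rat hD fun σ hσ => by rw [← RingHom.coe_coe, ← yco_pmap, hy σ hσ]) ?_
  · obtain ⟨m, h0, k⟩ := isOfFinAddOrder_iff_nsmul_eq_zero.mp k
    refine tors_iff.mpr ⟨m * 4 * 2, by omega, u15_eq_zero_iff.mp ?_⟩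
    have := congr_arg (4 • ·) k
    simp only [smul_zero, smul_sub, smul_comm 4 m, smul_comm 4 #R, four_smul_u15_alC, sub_zero] at this
    rw [← nsmul_eq_mul, map_nsmul, map_sum, mul_smul, mul_smul, ← this, hP]
    exact congr_arg (m • 4 • 2 • ·) (sum_congr rfl fun Q hQ => (pt_eq_u15 ((hR.mem Q hQ).im_pos hD)).symm)
  · rw [map_sub, map_nsmul, map_nsmul, conj_sum hD hR, show pmap (starRingEnd ℂ) (u15 (alC 3)) = _
      from hU starRingAut]
    abel

/-- The statement of the conjecture for a short model, with a given value of the rank. -/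
def BSD (a b : ℤ) (r : ℕ∞) : Prop :=
  ∃ F : ℂ → ℂ, Differentiable ℂ F ∧
    (∀ s : ℂ, (3 : ℝ) / 2 < s.re →
      HasProd
        (fun p : ℕ =>
          if p.Prime ∧ ¬ ((p : ℤ) ∣ 2 * (-4 * a ^ 3 - 27 * b ^ 2)) then
            (1 - ((p : ℂ) - (Nat.card {q : ZMod p × ZMod p //
                q.2 ^ 2 = q.1 ^ 3 + (a : ZMod p) * q.1 + (b : ZMod p)} : ℂ))
                * (p : ℂ) ^ (-s) + (p : ℂ) ^ (1 - 2 * s))⁻¹
          else 1)
        (F s)) ∧
    analyticOrderAt F 1 =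
      ((Module.finrank ℤ
        (WeierstrassCurve.Affine.Point
          (WeierstrassCurve.toAffine
            ({ a₁ := 0, a₂ := 0, a₃ := 0, a₄ := (a : ℚ), a₆ := (b : ℚ) } :
              WeierstrassCurve ℚ))) : ℕ) : ℕ∞) ∧
    Module.Finite ℤ (WeierstrassCurve.Affine.Point
      (WeierstrassCurve.toAffine
        ({ a₁ := 0, a₂ := 0, a₃ := 0, a₄ := (a : ℚ), a₆ := (b : ℚ) } : WeierstrassCurve ℚ))) ∧
    analyticOrderAt F 1 = r

theorem twist15_eq {N : ℕ} {a b : ℤ} (ha : a = -12987 * (N : ℤ) ^ 2)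
    (hb : b = 263466 * (N : ℤ) ^ 3) : twist15 (-(N : ℤ)) =
      ({ a₁ := 0, a₂ := 0, a₃ := 0, a₄ := (a : ℚ), a₆ := (b : ℚ) } : WeierstrassCurve ℚ) := by
  rw [twist15, ha, hb]
  congr 2 <;> ring

theorem bsd_one5 {N : ℕ} (hN : Squarefree N) (h12 : N % 12 = 11) (h5 : N % 5 = 1 ∨ N % 5 = 4)
    (hB : CondB5 N) {a b : ℤ} (ha : a = -12987 * (N : ℤ) ^ 2) (hb : b = 263466 * (N : ℤ) ^ 3) :
    BSD a b 1 := by
  have h4 : N % 4 = 3 := by omega
  have h3 : N % 3 = 2 := by omega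
  have hn : Good N := ⟨hN, h4, Nat.Coprime.mul_right (m := 3) (n := 5)
    ((Nat.Prime.coprime_iff_not_dvd Nat.prime_three).mpr (by omega)).symm
    ((Nat.Prime.coprime_iff_not_dvd Nat.prime_five).mpr (by omega)).symm⟩
  obtain ⟨r, hr⟩ := exists_root h4 h3 h5
  obtain ⟨R, hR⟩ := Gal.exists_hreps (-N) r hn.neg
  have hy := Gal.not_tors5 vData hn hB hr hR
  obtain ⟨hf, hle⟩ := finite_and_finrank_le5 hN h4 h3 h5 hB
  obtain ⟨P, hP'⟩ := exists_point_heeg hn hR hy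
  obtain ⟨F, h1, h2, h6, h7⟩ := bsd_of_deriv hn (perA_eq_zero hn (TYZ.jac15 hn hr))
    (by simpa only [sum_Ico_zero] using gz hn hr hR.freps (by simpa [hP, gch] using hy)
          (matchB hn hr hR.freps) (nData.one hn hr hR.freps) (exists_aux_disc nData hn))
    (le_antisymm hle (RankOne.one_le_finrank hP')) ha hb
  exact ⟨F, h1, h2, h6, twist15_eq ha hb ▸ hf, h7⟩

theorem finite_iff_finrank {G : Type*} [AddCommGroup G] [Module.Finite ℤ G] :
    Finite G ↔ Module.finrank ℤ G = 0 :=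
  ⟨fun _ => finrank_eq_zero_of_finite,
    fun h => Module.finite_of_fg_torsion G (Module.finrank_eq_zero_iff_isTorsion.mp h)⟩

/-- Transfer along the two-isogeny. -/
theorem BSD.iso {N : ℕ} (hN : N ≠ 0) {r : ℕ∞} (hr : r ≤ 1)
    (h : BSD (-12987 * (N : ℤ) ^ 2) (263466 * (N : ℤ) ^ 3) r)
    (hf : Module.Finite ℤ (tw3 N).toAffine.Point)
    (hle : Module.finrank ℤ (tw3 N).toAffine.Point ≤ 1) :
    BSD (-6507 * (N : ℤ) ^ 2) (-199206 * (N : ℤ) ^ 3) r := by
  obtain ⟨F, h1, h2, h3, h4, h5⟩ := h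
  refine ⟨F, h1, fun s hs => ?_, ?_, hf, h5⟩
  · convert h2 s hs using 2 with p
    by_cases hp : p.Prime
    · obtain ⟨k1, k2⟩ := bad_iso (N := N) rfl rfl rfl rfl hp
      simp only [k1, k2]
      split_ifs with k
      · rw [card_iso rfl rfl rfl rfl hp (fun t => k.2 (.inl t)) fun t => k.2 (.inr t)]
      · rfl
    · simp [hp]
  rw [← twist15_eq rfl rfl] at h3 h4
  have k := finite_iso15 hN
  rw [finite_iff_finrank, finite_iff_finrank] at k
  have : Module.finrank ℤ (twist15 (-(N : ℤ))).toAffine.Point ≤ 1 := by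
    exact_mod_cast (h3.symm.trans h5).trans_le hr
  rw [h3]
  exact congr_arg _ (show _ = Module.finrank ℤ (tw3 N).toAffine.Point by omega)

/-- The converse theorem at two. -/
theorem bsd_of_sel {N : ℕ} (hN : Squarefree N) (h12 : N % 12 = 11) (h5 : ¬ 5 ∣ N)
    (h : (Sel (-51 * N) (-42 * N) (93 * N)).encard ≤ 8) :
    BSD (-6507 * (N : ℤ) ^ 2) (-199206 * (N : ℤ) ^ 3)
      (if N % 5 = 1 ∨ N % 5 = 4 then 1 else 0) := by
  have h4 : N % 4 = 3 := by omega
  have h3 : N % 3 = 2 := by omega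
  obtain ⟨hf, hle⟩ := rank_le_of_sel hN h4 h3 h
  refine BSD.iso hN.ne_zero (by split_ifs <;> simp) ?_ hf hle
  by_cases k : N % 5 = 1 ∨ N % 5 = 4
  · rw [if_pos k]
    exact bsd_one5 hN h12 k (condB5_of_sel hN h4 h3 k h) rfl rfl
  · exact bsd_twist hN h12 h5 (condB_of_sel hN h4 h3 (by omega) h) rfl rfl

end Pool.Agent.Lib.MP_696deb_nt
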