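import Pool.Agent.Lib.MP_696deb_nt.CntMatch1
import Pool.Agent.Lib.MP_696deb_nt.Gz
import Pool.Agent.Lib.MP_696deb_nt.NvPar
import Pool.Agent.Lib.MP_696deb_nt.CntS2

/-! Families of closed geodesics with nonzero class. -/

set_option autoImplicit false

open Finset NumberTheorySymbols

namespace Pool.Agent.Lib.MP_696deb_nt

theorem th_eq_zero {A : ℕ} (hA : Squarefree A) (hc : A.Coprime 30) {e : ℤ} (he : (A : ℤ) ∣ e)
    (h0 : 0 < e) (hs : ¬ IsSquare e) (β : ℤ) (h : A % 4 = 3 ∨ J(15 | A) = -1) :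
    th (wG A e β) = 0 := by
  have _ := h0
  have ho : Odd A := (hc.coprime_dvd_right (by norm_num : 2 ∣ 30)).odd_of_right
  have hw := wt_wG ho he β
  have hv : ∀ x y : ℤ, x ≠ 0 ∨ y ≠ 0 → ∀ R, wG A e β R ≠ 0 → fval R x y ≠ 0 := fun x y hxy R hR =>
    fval_ne hs (hw.disc R hR) hxy
  have hne : ∀ R, wG A e β R ≠ 0 → R.1 ≠ 0 := by simpa [fval] using hv 1 0 (by simp)
  rcases h with h | h
  · have h1 := thw_add (a := 4) (b := 1) (c := 1) (d := 4) hw hne (by norm_num) (hv 4 (-15) (by simp))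
    have h2 : thw (wG A e β) 4 15 = thw (wG A e β) 4 (-15) := by
      rw [thw, thw, ← finsum_comp_equiv ((Equiv.neg ℤ).prodCongr ((Equiv.refl ℤ).prodCongr (Equiv.neg ℤ)))]
      refine finsum_congr fun ⟨a, b, c⟩ => ?_
      have h3 : wG A e β (-a, b, -c) = -wG A e β (a, b, c) := by
        have : gch A (-a, b, -c) = J(-1 | A) * gch A (a, b, c) := by
          rw [gch, gch, jac_eq_prod _ hA, ← prod_mul_distrib]
          refine prod_congr rfl fun p _ => ?_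
          simp only [dvd_neg]
          split_ifs <;> rw [← jacobiSym.mul_left, neg_one_mul]
        rw [wG, wG, this, jac_m1 ho, if_neg (by omega : ¬ A % 4 = 1), neg_one_mul, apply_ite Neg.neg,
          neg_zero]
        exact if_congr (by simp [Fam, fdisc]) rfl rfl
      change wG A e β (-a, b, -c) * ((-a).sign - (fval (-a, b, -c) 4 15).sign) = _
      rw [h3, show fval (-a, b, -c) 4 15 = -fval (a, b, c) 4 (-15) by simp only [fval]; ring,
        Int.sign_neg, Int.sign_neg]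
      ring
    norm_num [thw_unit] at h1
    rw [th]
    omega
  have h1 := thw_add (a := 4) (b := 1) (c := 1) (d := 4) hw hne (by norm_num) (hv 0 1 (by simp))
  have h2 : thw (wG A e β) 4 15 = thw (wG A e β) 0 1 - thw (wG A e β) 1 4 := by
    have i : Function.Involutive fun R : Fm => if 15 ∣ R.1 then cj (fV R) else R := by
      rintro ⟨a, b, c⟩
      by_cases k : 15 ∣ a
      · obtain ⟨a, rfl⟩ := k
        simp [cj, fV]
      · simp [k]
    rw [thw, thw, thw, ← finsum_comp_equiv i.toPerm, ← finsum_sub_distrib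
      (thw_finite hw hne (hv 0 1 (by simp))) (thw_finite hw hne (hv 1 4 (by simp)))]
    refine finsum_congr fun ⟨a, b, c⟩ => ?_
    by_cases k : 15 ∣ a
    swap
    · simp [k, wG, Fam]
    obtain ⟨a, rfl⟩ := k
    have h3 : wG A e β (15 * c, b, a) = -wG A e β (15 * a, b, c) := by
      have h4 : Fam e β (15 * c, b, a) ↔ Fam e β (15 * a, b, c) := by
        simp only [Fam, fdisc, dvd_mul_right, true_and]
        rw [show 4 * (15 * c) * a = 4 * (15 * a) * c by ring]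
      unfold wG
      split_ifs with h5 h6 h6
      · have := gch_fV hA ho (hc.coprime_dvd_right (by norm_num)) (h6.2.1 ▸ he) h6.1
        simpa [fV, gch, h] using this
      · exact absurd (h4.mp h5) h6
      · exact absurd (h4.mpr h6) h5
      · rfl
    simp only [Function.Involutive.coe_toPerm, dvd_mul_right, if_true, cj, fV, neg_neg,
      Int.mul_ediv_cancel_left _ (show (15 : ℤ) ≠ 0 by norm_num), h3]
    rw [show fval (15 * c, b, a) 4 15 = 15 * fval (15 * a, b, c) 1 4 by simp only [fval]; ring,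
      show fval (15 * a, b, c) 0 1 = c by simp [fval], Int.sign_mul, Int.sign_mul 15 (fval _ _ _),
      show Int.sign 15 = 1 from rfl]
    ring
  norm_num at h1
  rw [th]
  omega

/-- The relations between special points and closed geodesics that are used below. -/
structure NData : Prop where
  sq : ∀ {A A' B : ℕ}, Good (A * B) → Good (A' * B) → A.Coprime A' → 1 < A → 1 < A' →
    A % 4 = A' % 4 → J(-15 | B) = -1 → ∀ {ρ β : ℤ}, 60 ∣ ρ ^ 2 + (A * B : ℕ) →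
    60 ∣ β ^ 2 - (A * A' : ℕ) → ∀ {T : Finset Fm}, FReps (-(A * B : ℕ)) ρ T → ¬ Tors (hP B T) →
    thA A (wG A (A * A' : ℕ) β) ^ 2 = |thA A (wV A) * thA A (wV A')|
  one : ∀ {n : ℕ} {ρ : ℤ} {T : Finset Fm}, Good n → 60 ∣ ρ ^ 2 + n → FReps (-n) ρ T → GkzOne n ρ T
  geo : ∀ {A : ℕ}, Squarefree A → A.Coprime 30 → 1 < A → ∃ s : ℤ, (s = 1 ∨ s = -1) ∧
    Geo (wV A) (A ^ 2) (s * Complex.I * (starRingEnd ℂ) (perA A) / (wp * wm))

/-- Discriminants whose family of geodesics has nonzero class. -/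
def NV (d : ℕ) : Prop := ∃ β : ℤ, Squarefree d ∧ d.Coprime 30 ∧ d % 4 = 1 ∧ 1 < d ∧
  60 ∣ β ^ 2 - d ∧ th (wG 1 d β) ≠ 0

namespace NvN

variable {A A' B d p q l : ℕ} {β : ℤ}

lemma cop30 (h2 : p % 2 = 1) (h3 : p % 3 ≠ 0) (h5 : p % 5 ≠ 0) : p.Coprime 30 :=
  Nat.Coprime.mul_right (m := 2) (n := 3 * 5) (by simpa [Nat.odd_iff] using h2) (Nat.Coprime.mul_right
    ((Nat.Prime.coprime_iff_not_dvd Nat.prime_three).mpr (by omega)).symm
    ((Nat.Prime.coprime_iff_not_dvd Nat.prime_five).mpr (by omega)).symm)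

lemma mods (h : p.Coprime 30) : p % 2 = 1 ∧ p % 3 ≠ 0 ∧ p % 5 ≠ 0 := by
  have : ∀ k, k ∣ 30 → k ∣ p → k = 1 := fun k h1 h2 => Nat.eq_one_of_dvd_coprimes h h2 h1
  have h2 := this 2 (by norm_num)
  have h3 := this 3 (by norm_num)
  have h5 := this 5 (by norm_num)
  omega

lemma cop15 (h : p.Coprime 30) : p.Coprime 15 := h.coprime_dvd_right (by norm_num)

lemma j15 (h : p.Coprime 30) :
    J(-15 | p) = if (p % 3 = 1 ↔ (p % 5 = 1 ∨ p % 5 = 4)) then 1 else -1 := by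
  obtain ⟨h2, h3, h5⟩ := mods h
  have := GInd.jac15_iff h2 (cop15 h)
  split_ifs with k
  · exact this.mpr (by omega)
  · exact (GInd.jac15_cases (cop15 h)).resolve_left fun e => by have := this.mp e; omega

lemma j5p (h : p % 5 = 1 ∨ p % 5 = 4) : J((p : ℤ) | 5) = 1 := by
  rw [jacobiSym.mod_left, ← Int.natCast_mod]
  rcases h with k | k <;> rw [k] <;> norm_num

lemma j5n (h : p % 5 = 2 ∨ p % 5 = 3) : J((p : ℤ) | 5) = -1 := by
  rw [jacobiSym.mod_left, ← Int.natCast_mod]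
  rcases h with k | k <;> rw [k] <;> norm_num

lemma th_wV (H : NData) (hA : Squarefree A) (hc : A.Coprime 30) (h4 : A % 4 = 1) (h1 : 1 < A)
    (hJ : J(-15 | A) = 1) : (2 : ℤ) ^ (2 * #A.primeFactors + 1) ∣ th (wV A) := by
  obtain ⟨s, -, h⟩ := H.geo hA hc h1
  obtain ⟨y, hy⟩ := perA_dvd hA (cop15 hc) h4 h1 hJ
  have h2 := h.cls 4 1 1 4 (by norm_num)
  have h3 : (wp : ℂ) ≠ 0 := by exact_mod_cast wp_neg.ne
  have h5 : (wm : ℂ) ≠ 0 := by exact_mod_cast wm_ne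
  rw [per, mul_one, ← ms_add_mul 4 15 (-1), show (4 + -1 * 15 : ℤ) = -11 from rfl, ms_conj, ms_gm, hy,
    show ∀ u v : ℂ, u * (starRingEnd ℂ) v / (wp * wm) * (starRingEnd ℂ) (wm * Complex.I) =
      -(u * Complex.I) * ((starRingEnd ℂ) v / wp) from fun u v => by simp; field_simp,
    mul_assoc (s : ℂ), Complex.I_mul_I] at h2
  simp only [map_mul, map_pow, map_ofNat, map_intCast, Complex.conj_ofReal,
    mul_div_cancel_right₀ _ h3] at h2
  norm_cast at h2
  exact ⟨s * y, by rw [th, h2, Int.negSucc_eq]; push_cast; ring⟩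

lemma wG_swap (hd : Squarefree (A * A')) (ho : Odd (A * A')) :
    wG A (A * A' : ℕ) β = wG A' (A * A' : ℕ) β := by
  ext R
  unfold wG
  split_ifs with h
  exacts [gch_swap hd ho (.inl h.2.1), rfl]

/-- The data of a splitting of a discriminant. -/
structure Spl (A A' : ℕ) : Prop where
  sqf : Squarefree (A * A')
  cop : (A * A').Coprime 30
  lt : 1 < A
  lt' : 1 < A'
  m4 : A % 4 = 1
  m4' : A' % 4 = 1
  j : J(-15 | A) = 1
  j' : J(-15 | A') = 1

lemma Spl.symm (h : Spl A A') : Spl A' A :=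
  ⟨mul_comm A A' ▸ h.sqf, mul_comm A A' ▸ h.cop, h.lt', h.lt, h.m4', h.m4, h.j', h.j⟩

lemma Spl.good (h : Spl A A') (hl : l.Prime) (h1 : A * A' < l) (h2 : l % 4 = 3) (h3 : l.Coprime 30) :
    Good (A * l) :=
  ⟨(Nat.squarefree_mul (Nat.coprime_of_lt_prime (by have := h.lt; omega)
    (by nlinarith [h.lt, h.lt']) hl).symm).mpr ⟨h.sqf.of_mul_left, hl.squarefree⟩,
    by rw [Nat.mul_mod, h.m4, h2], cop15 (h.cop.coprime_mul_right.mul_left h3)⟩

lemma Spl.dvd (H : NData) (h : Spl A A') (hβ : 60 ∣ β ^ 2 - (A * A' : ℕ)) (hl : l.Prime)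
    (h1 : A * A' < l) (h2 : l % 60 = 7 ∨ l % 60 = 59) {ρ : ℤ} (hρ : 60 ∣ ρ ^ 2 + (A * l : ℕ))
    {T : Finset Fm} (hT : FReps (-(A * l : ℕ)) ρ T) (hy : ¬ Tors (hP l T)) :
    (2 : ℤ) ^ (#(A * A').primeFactors + 1) ∣ th (wG A (A * A' : ℕ) β) := by
  have h3 : l.Coprime 30 := cop30 (by omega) (by omega) (by omega)
  have hc := Nat.coprime_of_squarefree_mul h.sqf
  have := H.sq (h.good hl h1 (by omega) h3) (h.symm.good hl (mul_comm A A' ▸ h1) (by omega) h3) hc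
    h.lt h.lt' (h.m4.trans h.m4'.symm) (by rw [j15 h3, if_neg (by omega)]) hρ hβ hT hy
  simp only [thA, if_pos h.m4] at this
  rw [← Int.pow_dvd_pow_iff two_ne_zero, th, this, dvd_abs, hc.primeFactors_mul,
    card_union_of_disjoint hc.disjoint_primeFactors]
  refine Dvd.dvd.trans (dvd_of_eq ?_) (mul_dvd_mul
    (th_wV H h.sqf.of_mul_left h.cop.coprime_mul_right h.m4 h.lt h.j)
    (th_wV H h.sqf.of_mul_right h.cop.coprime_mul_left h.m4' h.lt' h.j'))
  ring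

/-- Primes with prescribed residue and prescribed quadratic residue symbols. -/
lemma exists_prime_jac (S : Finset ℕ) (hS : ∀ p ∈ S, p.Prime ∧ p.Coprime 30) (ε : ℕ → ℤ)
    (hε : ∀ p ∈ S, ε p = 1 ∨ ε p = -1) {a : ℕ} (ha : a.Coprime 120) (N : ℕ) :
    ∃ q > N, q.Prime ∧ q % 120 = a % 120 ∧ ∀ p ∈ S, J((q : ℤ) | p) = ε p := by
  have h1 : ∀ p ∈ S, ∃ a : ℕ, J((a : ℤ) | p) = ε p := fun p hp => by
    rcases hε p hp with e | e
    · exact ⟨1, by simp [e]⟩
    have := Fact.mk (hS p hp).1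
    obtain ⟨a, ha⟩ := FiniteField.exists_nonsquare (F := ZMod p) (by
      rw [ZMod.ringChar_zmod_n]
      have := mods (hS p hp).2
      omega)
    exact ⟨a.val, e ▸ ZMod.nonsquare_iff_jacobiSym_eq_neg_one.mpr (by simpa using ha)⟩
  choose! b hb using h1
  obtain ⟨k, hk⟩ := Nat.chineseRemainderOfFinset b id S (fun p hp => (hS p hp).1.ne_zero)
    fun p hp q hq e => (Nat.coprime_primes (hS p hp).1 (hS q hq).1).mpr e
  have h2 : (∏ p ∈ S, p).Coprime 120 := Nat.Coprime.prod_left fun p hp =>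
    ((hS p hp).2.pow_right 3).coprime_dvd_right (by norm_num)
  obtain ⟨m, m1, m2⟩ := Nat.chineseRemainder h2 k a
  have h3 : ∀ l : ℕ, l ≡ m [MOD (∏ p ∈ S, p) * 120] → ∀ p ∈ S, J((l : ℤ) | p) = ε p :=
    fun l hl p hp => (hb p hp) ▸ jacobiSym.mod_left' (Int.natCast_modEq_iff.mpr
      ((((hl.of_mul_right _).trans m1).of_dvd (dvd_prod_of_mem _ hp)).trans (hk p hp)))
  obtain ⟨l, h5, h6, h7⟩ := Nat.forall_exists_prime_gt_and_modEq N (q := (∏ p ∈ S, p) * 120) (a := m)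
    (mul_ne_zero (prod_ne_zero_iff.mpr fun p hp => (hS p hp).1.ne_zero) (by norm_num))
    (Nat.Coprime.mul_right (Nat.Coprime.prod_right fun p hp => by
      by_contra h
      have := (jacobiSym.eq_zero_iff (a := m) (b := p)).mpr ⟨(hS p hp).1.ne_zero, h⟩
      rw [h3 m rfl p hp] at this
      have := hε p hp
      omega) (by rwa [Nat.Coprime, m2.gcd_eq]))
  exact ⟨l, h5, h6, (h7.of_mul_left _).trans m2, h3 l h7⟩

lemma exists_prime2 (hp : p.Prime) (h1 : p.Coprime 30) (hq : q.Prime) (h2 : q.Coprime 30)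
    (h : p ≠ q) {x y : ℤ} (hx : x = 1 ∨ x = -1) (hy : y = 1 ∨ y = -1) {a : ℕ} (ha : a.Coprime 120)
    (N : ℕ) : ∃ l > N, l.Prime ∧ l % 120 = a % 120 ∧ J((l : ℤ) | p) = x ∧ J((l : ℤ) | q) = y := by
  obtain ⟨l, k1, k2, k3, k4⟩ := exists_prime_jac {p, q} (by simpa [hp, hq] using ⟨h1, h2⟩) (fun r => if r = p then x else y)
    (by simp [*, h.symm]) ha N
  exact ⟨l, k1, k2, k3, by simpa [h.symm] using k4⟩

lemma exists_prime1 (hp : p.Prime) (h1 : p.Coprime 30) {x : ℤ} (hx : x = 1 ∨ x = -1) {a : ℕ}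
    (ha : a.Coprime 120) (N : ℕ) : ∃ l > N, l.Prime ∧ l % 120 = a % 120 ∧ J((l : ℤ) | p) = x := by
  simpa using exists_prime_jac {p} (by simpa [hp] using h1) (fun _ => x) (by simp [*]) ha N

lemma Spl.dvd_neg (H : NData) (h : Spl q A') (hβ : 60 ∣ β ^ 2 - (q * A' : ℕ)) (hq : q.Prime)
    (h3 : q % 3 = 2) : (2 : ℤ) ^ (#(q * A').primeFactors + 1) ∣ th (wG q (q * A' : ℕ) β) := by
  have hc := h.cop.coprime_mul_right
  obtain ⟨l, k1, k2, k3, k4⟩ := exists_prime1 hq hc (.inr rfl) (a := 7) (by norm_num) (q * A')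
  have h4 := h.m4
  have h5 : q % 60 = 17 ∨ q % 60 = 53 := by
    have := (GInd.jac15_iff (mods hc).1 (cop15 hc)).mp h.j
    omega
  have h6 : l % 60 = 7 := by omega
  obtain ⟨ρ, hρ⟩ : ∃ ρ : ℤ, 60 ∣ ρ ^ 2 + (q * l : ℕ) := by
    have := Nat.mul_mod q l 60
    rcases h5 with e | e <;> rw [e, h6] at this
    exacts [⟨1, by omega⟩, ⟨7, by omega⟩]
  have hn := h.good k2 k1 (by omega) (cop30 (by omega) (by omega) (by omega))
  obtain ⟨T, hT⟩ := exists_freps hn.neg ρ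
  exact h.dvd H hβ k2 k1 (.inl h6) hρ hT (Gal.not_tors_two q l ρ T hq k2 h5 hn (by
    rwa [jacobiSym.quadratic_reciprocity_one_mod_four h4 (Nat.odd_iff.mpr (by omega))]) hρ hT)

lemma Spl.dvd_pos (H : NData) (h : Spl A A') (hβ : 60 ∣ β ^ 2 - (A * A' : ℕ)) (hA : NV A) :
    (2 : ℤ) ^ (#(A * A').primeFactors + 1) ∣ th (wG A (A * A' : ℕ) β) := by
  obtain ⟨γ, a1, -, -, a2, a3, a4⟩ := hA
  obtain ⟨l, k1, k2, k3, -⟩ := exists_prime_jac ∅ (by simp) 1 (by simp) (a := 59) (by norm_num) (A * A')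
  have h3 : l.Coprime 30 := cop30 (by omega) (by omega) (by omega)
  have hn := h.good k2 k1 (by omega) h3
  obtain ⟨T, hT⟩ := exists_freps hn.neg (11 * γ)
  obtain ⟨T0, hT0⟩ := exists_freps (D := -l) (by omega) 1
  have h1 : (60 : ℤ) ∣ 1 ^ 2 + l := by omega
  refine h.dvd H hβ k2 k1 (by omega) (Gal.dvd_eq (dvd_add (dvd_add a3 (h1.mul_left A))
    (dvd_mul_right 60 (2 * γ ^ 2))) (by push_cast; ring)) hT fun hy => ?_
  obtain ⟨s, hs, e⟩ := H.one ⟨k2.squarefree, by omega, cop15 h3⟩ h1 hT0 A γ (11 * γ) T (by omega)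
    (by have := h.m4; omega) (fun k => by
      obtain ⟨r, rfl⟩ := Int.isSquare_natCast_iff.mp k
      simp [Nat.isUnit_iff.mp (a1 r dvd_rfl)] at a2) a3 ⟨-4 * γ, by ring⟩
    (by simpa [mul_comm] using hT)
  refine Gal.not_tors_prime l 1 T0 k2 h1 hT0 (tq_eq_zero.mp (tq_cancel (k := s * 2 * th (wG 1 A γ))
    (by rcases hs with rfl | rfl <;> simpa using a4) ?_))
  rw [← tq_mul, ← tq_eq_zero.mpr hy, tq_eq.mpr e]
  simp

section fin

variable {k : ℕ} {pr : Fin k → ℕ} (hp : ∀ i, (pr i).Prime) (hi : Function.Injective pr)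
include hp hi

lemma dvd_iff (S : Finset (Fin k)) (j : Fin k) : pr j ∣ ∏ i ∈ S, pr i ↔ j ∈ S := by
  rw [Prime.dvd_finsetProd_iff (hp j).prime]
  exact ⟨fun ⟨i, h1, h2⟩ => hi ((Nat.prime_dvd_prime_iff_eq (hp j) (hp i)).mp h2) ▸ h1,
    fun h => ⟨j, h, dvd_rfl⟩⟩

lemma primeFactors_eq (S : Finset (Fin k)) : (∏ i ∈ S, pr i).primeFactors = S.image pr := by
  rw [← prod_image (f := fun p => p) hi.injOn, Nat.primeFactors_prod (by simp [hp])]

lemma sqf_prod : Squarefree (∏ i, pr i) :=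
  squarefree_prod_of_pairwise_isCoprime (fun i _ j _ h => Nat.coprime_iff_isRelPrime.mp
    ((Nat.coprime_primes (hp i) (hp j)).mpr (hi.ne h))) fun i _ => (hp i).squarefree

lemma exists_sub (h : A ∣ ∏ i, pr i) : ∃ S : Finset (Fin k), A = ∏ i ∈ S, pr i := by
  have h1 := sqf_prod hp hi
  obtain ⟨S, hS⟩ : ∃ S : Finset (Fin k), S.image pr = A.primeFactors := by
    have := Nat.primeFactors_mono h h1.ne_zero
    rw [primeFactors_eq hp hi] at this
    obtain ⟨S, -, e⟩ := subset_image_iff.mp this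
    exact ⟨S, e⟩
  exact ⟨S, by rw [← prod_image (f := fun p => p) hi.injOn, hS,
    Nat.prod_primeFactors_of_squarefree (h1.squarefree_of_dvd h)]⟩

omit hi in
lemma div_eq (S : Finset (Fin k)) : (∏ i, pr i) / ∏ i ∈ S, pr i = ∏ i ∈ Sᶜ, pr i := by
  rw [← prod_mul_prod_compl S, Nat.mul_div_cancel_left _ (prod_pos fun i _ => (hp i).pos)]

omit hp hi in
lemma jac_left (S : Finset (Fin k)) (p : ℕ) :
    J(((∏ i ∈ S, pr i : ℕ) : ℤ) | p) = ∏ i ∈ S, J((pr i : ℤ) | p) := by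
  induction S using Finset.induction_on with
  | empty => simp
  | insert i S h ih => rw [prod_insert h, prod_insert h, Nat.cast_mul, jacobiSym.mul_left, ih]

omit hi in
lemma jac_right (S : Finset (Fin k)) (a : ℤ) : J(a | ∏ i ∈ S, pr i) = ∏ i ∈ S, J(a | pr i) := by
  induction S using Finset.induction_on with
  | empty => simp
  | insert i S h ih => rw [prod_insert h, prod_insert h, jacobiSym.mul_right' _ (hp i).ne_zero
      (prod_ne_zero_iff.mpr fun i _ => (hp i).ne_zero), ih]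

/-- The number of ambiguous forms in terms of the quadratic residue symbols. -/
def amb0 (e c : Fin k → ℤ) (M : Fin k → Fin k → ℤ) : ℕ :=
  #{S : Finset (Fin k) | (∀ j, (if j ∈ S then e j * ∏ i ∈ Sᶜ, M i j else ∏ i ∈ S, M i j) = 1) ∧
    ∏ i ∈ S, c i = -1}

lemma ambN_eq : ambN (∏ i, pr i) = amb0 (fun i => J(-1 | pr i)) (fun i => J((pr i : ℤ) | 5))
    fun i j => J((pr i : ℤ) | pr j) := by
  have key : ∀ S : Finset (Fin k), ((∀ r ∈ (∏ i, pr i).primeFactors, J((if r ∣ ∏ i ∈ S, pr i then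
      -(((∏ i, pr i) / ∏ i ∈ S, pr i : ℕ) : ℤ) else (∏ i ∈ S, pr i : ℕ)) | r) = 1) ∧
      J(((∏ i ∈ S, pr i : ℕ) : ℤ) | 5) = -1) ↔
      (∀ j, (if j ∈ S then J(-1 | pr j) * ∏ i ∈ Sᶜ, J((pr i : ℤ) | pr j) else
        ∏ i ∈ S, J((pr i : ℤ) | pr j)) = 1) ∧ ∏ i ∈ S, J((pr i : ℤ) | 5) = -1 := fun S => by
    rw [primeFactors_eq hp hi, forall_mem_image, jac_left, div_eq hp]
    refine and_congr_left fun _ => forall_congr' fun j => ?_
    simp only [mem_univ, true_imp_iff, dvd_iff hp hi]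
    split_ifs
    · rw [neg_eq_neg_one_mul, jacobiSym.mul_left, jac_left]
    · rw [jac_left]
  refine (card_nbij (fun S => ∏ i ∈ S, pr i) (fun S hS => ?_) (fun S _ S' _ e => ?_) fun m hm => ?_).symm
  · exact mem_filter.mpr ⟨Nat.mem_divisors.mpr ⟨prod_dvd_prod_of_subset _ _ _ (subset_univ S),
      (sqf_prod hp hi).ne_zero⟩, (key S).mpr (mem_filter.mp hS).2⟩
  · ext j
    rw [← dvd_iff hp hi, ← dvd_iff hp hi S', show ∏ i ∈ S, pr i = _ from e]
  · obtain ⟨h1, h2⟩ := mem_filter.mp hm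
    obtain ⟨S, rfl⟩ := exists_sub hp hi (Nat.dvd_of_mem_divisors h1)
    exact ⟨S, mem_filter.mpr ⟨mem_univ _, (key S).mp h2⟩, rfl⟩

lemma nv_fin (hc : ∀ i, (pr i).Coprime 30) (h60 : (∏ i, pr i) % 60 = 1 ∨ (∏ i, pr i) % 60 = 49)
    {e c g : Fin k → ℤ} {M : Fin k → Fin k → ℤ} (he : ∀ i, J(-1 | pr i) = e i)
    (h5 : ∀ i, J((pr i : ℤ) | 5) = c i) (hg : ∀ i, J(-15 | pr i) = g i)
    (hM : ∀ i j, J((pr i : ℤ) | pr j) = M i j) (X : Finset (Finset (Fin k)))
    (hX : Odd (amb0 e c M) ∧ ∀ S, ∏ i ∈ S, e i = 1 → ∏ i ∈ S, g i = 1 → ∏ i ∈ Sᶜ, g i = 1 →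
      S = ∅ ∨ Sᶜ = ∅ ∨ S ∈ X ∨ Sᶜ ∈ X)
    (hs : ∀ S ∈ X, ∀ A A' : ℕ, A = ∏ i ∈ S, pr i → Spl A A' → ∀ β : ℤ, 60 ∣ β ^ 2 - (A * A' : ℕ) →
      (2 : ℤ) ^ (#(A * A').primeFactors + 1) ∣ th (wG A (A * A' : ℕ) β)) : NV (∏ i, pr i) := by
  have hd := sqf_prod hp hi
  have h30 : (∏ i, pr i).Coprime 30 := Nat.Coprime.prod_left fun i _ => hc i
  have ha : Odd (ambN (∏ i, pr i)) := by
    rw [ambN_eq hp hi]
    simpa only [he, h5, hM] using hX.1
  have key : ∀ A A' : ℕ, A * A' = ∏ i, pr i → Spl A A' → ∀ β : ℤ, 60 ∣ β ^ 2 - (A * A' : ℕ) →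
      (2 : ℤ) ^ (#(A * A').primeFactors + 1) ∣ th (wG A (A * A' : ℕ) β) := fun A A' h H β hβ => by
    obtain ⟨S, hS⟩ := exists_sub hp hi ⟨A', h.symm⟩
    have hS' : A' = ∏ i ∈ Sᶜ, pr i := by
      rw [← div_eq hp, ← h, ← hS, Nat.mul_div_cancel_left _ (by have := H.lt; omega)]
    have ho : Odd (A * A') := Nat.odd_iff.mpr (mods H.cop).1
    rcases hX.2 S (by simp only [← he]; rw [← jac_right hp, ← hS, jac_m1 (Nat.odd_mul.mp ho).1, if_pos H.m4])
      (by simp only [← hg]; rw [← jac_right hp, ← hS, H.j])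
      (by simp only [← hg]; rw [← jac_right hp, ← hS', H.j']) with k | k | k | k
    · exact absurd H.lt (by simp [hS, k])
    · exact absurd H.lt' (by simp [hS', k])
    · exact hs S k A A' hS H β hβ
    · rw [wG_swap H.sqf ho, mul_comm A]
      exact hs _ k A' A hS' H.symm β (mul_comm A A' ▸ hβ)
  generalize ∏ i, pr i = d at *
  have h1 : 1 < d := by
    by_contra k
    obtain rfl : d = 1 := by omega
    simp [ambN, filter_singleton] at ha
  obtain ⟨β, hβ⟩ : ∃ β : ℤ, 60 ∣ β ^ 2 - d := by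
    rcases h60 with k | k
    exacts [⟨1, by omega⟩, ⟨7, by omega⟩]
  refine ⟨β, hd, h30, by omega, h1, hβ, fun h0 => ?_⟩
  have hsq : ¬ IsSquare (d : ℤ) := fun k => by
    obtain ⟨r, rfl⟩ := Int.isSquare_natCast_iff.mp k
    simp [Nat.isUnit_iff.mp (hd r dvd_rfl)] at h1
  have ho : Odd d := Nat.odd_iff.mpr (by omega)
  have sw : ∀ A ∈ d.divisors, wG (d / A) d β = wG A d β := fun A hA => by
    obtain ⟨A', rfl⟩ := Nat.dvd_of_mem_divisors hA
    rw [Nat.mul_div_cancel_left _ (Nat.pos_of_mem_divisors hA), wG_swap hd ho]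
  have dv : ∀ A ∈ d.divisors, (2 : ℤ) ^ (#d.primeFactors + 1) ∣ th (wG A d β) := fun A hA => by
    by_contra k
    have k0 : th (wG A d β) ≠ 0 := fun e => k (e ▸ dvd_zero _)
    have z : ∀ A ∈ d.divisors, th (wG A d β) ≠ 0 → 1 < A ∧ A % 4 = 1 ∧ J(-15 | A) = 1 :=
      fun A hA k => by
        have h2 := Nat.dvd_of_mem_divisors hA
        have h3 := h30.coprime_dvd_left h2
        have h4 := mt (th_eq_zero (hd.squarefree_of_dvd h2) h3 (Int.natCast_dvd_natCast.mpr h2)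
          (by omega) hsq β) k
        have h6 := (mods h3).1
        have h7 : A ≠ 1 := by rintro rfl; exact k h0
        have h8 : A % 4 = 1 := by omega
        refine ⟨by omega, h8, (GInd.jac15_cases (cop15 h3)).resolve_right fun e => h4 (.inr ?_)⟩
        rwa [jacobiSym.neg _ (Nat.odd_iff.mpr h6), ZMod.χ₄_nat_one_mod_four h8, one_mul] at e
    have z1 := z A hA k0
    have z2 := z (d / A) (Nat.mem_divisors.mpr ⟨Nat.div_dvd_of_dvd (Nat.dvd_of_mem_divisors hA),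
      hd.ne_zero⟩) (by rwa [sw A hA])
    obtain ⟨A', rfl⟩ := Nat.dvd_of_mem_divisors hA
    rw [Nat.mul_div_cancel_left _ (by omega)] at z2
    exact k (key A A' rfl ⟨hd, h30, z1.1, z2.1, z1.2.1, z2.2.1, z1.2.2, z2.2.2⟩ β hβ)
  choose! u hu using dv
  have h2 := th_sum hd h30 (by omega) h1 hβ
  rw [sum_congr rfl hu, ← mul_sum, ← mul_sub, pow_succ _ (_ + 1),
    mul_dvd_mul_iff_left (by positivity)] at h2
  have h3 : ((∑ A ∈ d.divisors, u A : ℤ) : ZMod 2) = 0 := by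
    rw [Int.cast_sum]
    refine sum_involution (fun A _ => d / A) (fun A hA => ?_) (fun A hA _ e => hsq ⟨A, ?_⟩)
      (fun A hA => Nat.mem_divisors.mpr ⟨Nat.div_dvd_of_dvd (Nat.dvd_of_mem_divisors hA), hd.ne_zero⟩)
      fun A hA => Nat.div_div_self (Nat.dvd_of_mem_divisors hA) hd.ne_zero
    · have := hu _ (Nat.mem_divisors.mpr ⟨Nat.div_dvd_of_dvd (Nat.dvd_of_mem_divisors hA), hd.ne_zero⟩)
      rw [sw A hA, hu A hA] at this
      rw [← mul_left_cancel₀ (by positivity) this, CharTwo.add_self_eq_zero]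
    · have := Nat.mul_div_cancel' (Nat.dvd_of_mem_divisors hA)
      rw [show d / A = A from e] at this
      exact_mod_cast this.symm
  obtain ⟨j, hj⟩ := ha
  rw [ZMod.intCast_zmod_eq_zero_iff_dvd] at h3
  omega

end fin

lemma jac_pm (hp : p.Prime) (hq : q.Prime) (h : p ≠ q) : J((p : ℤ) | q) = 1 ∨ J((p : ℤ) | q) = -1 :=
  jacobiSym.eq_one_or_neg_one (by simpa using (Nat.coprime_primes hp hq).mpr h)

lemma jac_self (hp : p.Prime) : J((p : ℤ) | p) = 0 := jac_zero_of_dvd hp dvd_rfl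

lemma nvB (H : NData) {q' : ℕ} (hl : l.Prime) (hq : q.Prime) (hq' : q'.Prime)
    (a : l % 4 = 1 ∧ (l % 5 = 2 ∨ l % 5 = 3)) (b : q % 4 = 3 ∧ (q % 5 = 1 ∨ q % 5 = 4))
    (c : q' % 4 = 3 ∧ (q' % 5 = 2 ∨ q' % 5 = 3)) (h3 : l * q * q' % 3 = 1)
    (hJ : J((q : ℤ) | l) = -1) : NV (l * q * q') := by
  have n3 : ∀ {p}, p ∣ l * q * q' → p % 3 ≠ 0 := fun h e => by
    have := Nat.mod_eq_zero_of_dvd ((Nat.dvd_of_mod_eq_zero e).trans h)
    simp [h3] at this
  have cp : ∀ {p}, p % 4 = 1 ∨ p % 4 = 3 → (p % 5 = 1 ∨ p % 5 = 4) ∨ p % 5 = 2 ∨ p % 5 = 3 →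
      p ∣ l * q * q' → p.Coprime 30 := fun h1 h2 h => by
    have := n3 h
    clear a b c h3 h
    exact cop30 (by omega) this (by omega)
  have c0 := cp (.inl a.1) (.inr a.2) ⟨q * q', by ring⟩
  have c1 := cp (.inr b.1) (.inl b.2) ⟨l * q', by ring⟩
  have c2 := cp (.inr c.1) (.inr c.2) ⟨l * q, by ring⟩
  have o0 := Nat.odd_iff.mpr (mods c0).1
  have o1 := Nat.odd_iff.mpr (mods c1).1
  have o2 := Nat.odd_iff.mpr (mods c2).1
  have r1 := jacobiSym.quadratic_reciprocity_one_mod_four a.1 o1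
  have r2 := jacobiSym.quadratic_reciprocity_one_mod_four a.1 o2
  have r3 := jacobiSym.quadratic_reciprocity_three_mod_four c.1 b.1
  have m : l * q * q' % 60 = 1 ∨ l * q * q' % 60 = 49 := by
    have m4 : l * q * q' % 4 = 1 := by simp [Nat.mul_mod, a.1, b.1, c.1]
    have m5 : l * q * q' % 5 = 1 ∨ l * q * q' % 5 = 4 := by
      rcases a.2 with a | a <;> rcases b.2 with b | b <;> rcases c.2 with c | c <;>
        simp [Nat.mul_mod, a, b, c]
    clear a b c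
    omega
  have ne : (l ≠ q ∧ l ≠ q') ∧ q ≠ q' := by refine ⟨⟨?_, ?_⟩, ?_⟩ <;> rintro rfl <;> omega
  have := nv_fin (pr := ![l, q, q']) (by simp [Fin.forall_fin_succ, hl, hq, hq'])
    (List.nodup_ofFn.mp (by simpa using ne))
    (by simpa [Fin.forall_fin_succ] using ⟨c0, c1, c2⟩) (by simpa [Fin.prod_univ_three] using m)
    (e := ![1, -1, -1]) (c := ![-1, 1, -1])
    (M := !![0, -1, J((q' : ℤ) | l); -1, 0, J((q : ℤ) | q'); J((q' : ℤ) | l), -J((q : ℤ) | q'), 0])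
    (by simp [Fin.forall_fin_succ, jac_m1, o0, o1, o2, a, b, c])
    (by simp [Fin.forall_fin_succ, j5n a.2, j5p b.2, j5n c.2]) (fun _ => rfl)
    (by simp [Fin.forall_fin_succ, jac_self, hl, hq, hq', r1, r2, r3, hJ]) {{0}}
    ⟨?_, fun S h _ _ => (?_ : ∀ S : Finset (Fin 3), ∏ i ∈ S, ![(1 : ℤ), -1, -1] i = 1 →
      S = ∅ ∨ Sᶜ = ∅ ∨ S ∈ ({{0}} : Finset _) ∨ Sᶜ ∈ ({{0}} : Finset _)) S h⟩ ?_
  · simpa [Fin.prod_univ_three] using this
  · rcases jac_pm hq' hl ne.1.2.symm with x | x <;> rcases jac_pm hq hq' ne.2 with y | y <;>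
      rw [x, y] <;> decide +kernel
  · decide +kernel
  · simp only [mem_singleton, forall_eq, prod_singleton]
    rintro _ A' rfl h β hβ
    refine h.dvd_neg H hβ hl ?_
    have := (GInd.jac15_iff (mods c0).1 (cop15 c0)).mp h.j
    clear b c m ne h3
    omega

lemma nvC (H : NData) {q' : ℕ} (hp : p.Prime) (hl : l.Prime) (hq : q.Prime) (hq' : q'.Prime)
    (a : p % 4 = 1 ∧ (p % 5 = 1 ∨ p % 5 = 4))
    (b : l % 60 = 13 ∧ p % 3 = 1 ∨ l % 60 = 17 ∧ p % 3 = 2) (c : q % 60 = 19) (c' : q' % 60 = 7)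
    (h1 : J((q : ℤ) | p) = -1) (h2 : J((q' : ℤ) | p) = 1) (h3 : J((q : ℤ) | l) = -1) :
    NV (p * l * q * q') := by
  have c0 := cop30 (p := p) (by omega) (by omega) (by omega)
  have c1 := cop30 (p := l) (by omega) (by omega) (by omega)
  have c2 := cop30 (p := q) (by omega) (by omega) (by omega)
  have c3 := cop30 (p := q') (by omega) (by omega) (by omega)
  have o0 := Nat.odd_iff.mpr (mods c0).1
  have o1 := Nat.odd_iff.mpr (mods c1).1
  have o2 := Nat.odd_iff.mpr (mods c2).1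
  have o3 := Nat.odd_iff.mpr (mods c3).1
  have m : p % 60 = 1 ∧ l % 60 = 13 ∨ p % 60 = 49 ∧ l % 60 = 13 ∨ p % 60 = 29 ∧ l % 60 = 17 ∨
    p % 60 = 41 ∧ l % 60 = 17 := by omega
  have t1 : l % 4 = 1 ∧ (l % 5 = 2 ∨ l % 5 = 3) := by omega
  have t2 : q % 4 = 3 ∧ (q % 5 = 1 ∨ q % 5 = 4) := by omega
  have t3 : q' % 4 = 3 ∧ (q' % 5 = 2 ∨ q' % 5 = 3) := by omega
  have g1 : J(-15 | l) = -J(-15 | p) := by
    clear m
    rw [j15 c0, j15 c1]
    rcases b with b | b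
    · rw [if_neg (by omega), if_pos (by omega)]
    · rw [if_pos (by omega), if_neg (by omega), neg_neg]
  have g2 : J(-15 | q) = 1 := by rw [j15 c2, if_pos (by clear m a b t1 t3; omega)]
  have g3 : J(-15 | q') = -1 := by rw [j15 c3, if_neg (by clear m a b t1 t2; omega)]
  have r1 := jacobiSym.quadratic_reciprocity_one_mod_four a.1 o1
  have r2 := jacobiSym.quadratic_reciprocity_one_mod_four a.1 o2
  have r3 := jacobiSym.quadratic_reciprocity_one_mod_four a.1 o3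
  have r4 := jacobiSym.quadratic_reciprocity_one_mod_four t1.1 o2
  have r5 := jacobiSym.quadratic_reciprocity_one_mod_four t1.1 o3
  have r6 := jacobiSym.quadratic_reciprocity_three_mod_four t3.1 t2.1
  have ne : (p ≠ l ∧ p ≠ q ∧ p ≠ q') ∧ (l ≠ q ∧ l ≠ q') ∧ q ≠ q' := by
    clear m b c c'
    refine ⟨⟨?_, ?_, ?_⟩, ⟨?_, ?_⟩, ?_⟩ <;> rintro rfl <;> omega
  have := nv_fin (pr := ![p, l, q, q']) (by simp [Fin.forall_fin_succ, hp, hl, hq, hq'])
    (List.nodup_ofFn.mp (by simpa using ne))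
    (by simpa [Fin.forall_fin_succ] using ⟨c0, c1, c2, c3⟩)
    (by rw [Fin.prod_univ_four]; rcases m with m | m | m | m <;> simp [Nat.mul_mod, m, c, c'])
    (e := ![1, 1, -1, -1]) (c := ![1, -1, 1, -1]) (g := ![J(-15 | p), -J(-15 | p), 1, -1])
    (M := !![0, J((l : ℤ) | p), -1, 1; J((l : ℤ) | p), 0, -1, J((q' : ℤ) | l);
      -1, -1, 0, J((q : ℤ) | q'); 1, J((q' : ℤ) | l), -J((q : ℤ) | q'), 0])
    (by simp [Fin.forall_fin_succ, jac_m1, o0, o1, o2, o3, a, t1, t2, t3])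
    (by simp [Fin.forall_fin_succ, j5p a.2, j5n t1.2, j5p t2.2, j5n t3.2])
    (by simp [Fin.forall_fin_succ, g1, g2, g3])
    (by simp [Fin.forall_fin_succ, jac_self, hp, hl, hq, hq', r1, r2, r3, r4, r5, r6, h1, h2, h3])
    {{1}, {1, 2, 3}} ⟨?_, ?_⟩ ?_
  · simpa [Fin.prod_univ_four] using this
  · rcases jac_pm hl hp ne.1.1.symm with x | x <;> rcases jac_pm hq hq' ne.2.2 with y | y <;>
      rcases jac_pm hq' hl ne.2.1.2.symm with z | z <;> rw [x, y, z] <;> decide +kernel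
  · rcases GInd.jac15_cases (cop15 c0) with x | x <;> rw [x] <;> decide +kernel
  · simp only [mem_insert, mem_singleton, forall_eq_or_imp, forall_eq, prod_singleton]
    clear m ne
    refine ⟨?_, fun A A' e h β hβ => ?_⟩
    · rintro _ A' rfl h β hβ
      refine h.dvd_neg H hβ hl ?_
      have := (GInd.jac15_iff (mods c1).1 (cop15 c1)).mp h.j
      clear a b c c' t2 t3
      omega
    obtain rfl : A = l * q * q' := by simpa [mul_assoc] using e
    refine h.dvd_pos H hβ (nvB H hl hq hq' t1 t2 t3 ?_ h3)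
    have k := h.cop.coprime_mul_right
    have := (GInd.jac15_iff (mods k).1 (cop15 k)).mp h.j
    have : l * q * q' % 60 = 49 ∨ l * q * q' % 60 = 41 := by
      rcases b with b | b <;> simp [Nat.mul_mod, b, c, c']
    clear a b c c' t1 t2 t3
    omega

lemma exists_x (hl : l.Prime) (h2 : l % 2 = 1) {m : ℕ} (hm : m % 4 = 3) (h : J(-(m : ℤ) | l) = 1) :
    ∃ x : ℤ, 4 * (l : ℤ) ∣ x ^ 2 + m := by
  have := Fact.mk hl
  obtain ⟨s, hs⟩ := ZMod.isSquare_of_jacobiSym_eq_one h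
  obtain ⟨s, rfl⟩ := ZMod.intCast_surjective s
  refine ⟨s + l * (s + 1), IsCoprime.mul_dvd (Nat.isCoprime_iff_coprime.mpr
    (((Nat.coprime_two_left.mpr (Nat.odd_iff.mpr h2)).pow_left 2))) ?_
    ((ZMod.intCast_zmod_eq_zero_iff_dvd _ _).mp ?_)⟩
  · obtain ⟨k, rfl⟩ : ∃ k, l = 2 * k + 1 := ⟨l / 2, by omega⟩
    obtain ⟨j, rfl⟩ : ∃ j, m = 4 * j + 3 := ⟨m / 4, by omega⟩
    exact ⟨(s + k * s + k) ^ 2 + (s + k * s + k) + j + 1, by push_cast; ring⟩
  · push_cast at hs ⊢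
    rw [ZMod.natCast_self]
    linear_combination -hs

lemma aux_of {m e : ℕ} (hn : Good (l * m)) (hl : l.Prime) (h : NV (l * e)) (hc : e.Coprime m)
    (hJ : J((e : ℤ) | l) = J(-(m : ℤ) | l)) : ∃ (d : ℕ) (β : ℤ), Squarefree d ∧ d.Coprime 30 ∧
      d % 4 = 1 ∧ 1 < d ∧ 60 ∣ β ^ 2 - d ∧ th (wG 1 d β) ≠ 0 ∧ l ∣ d ∧ m.Coprime d ∧
      ∃ x : ℤ, 4 * (l : ℤ) ∣ x ^ 2 + (m * (d / l) : ℕ) := by
  obtain ⟨β, h1, h2, h3, h4, h5, h6⟩ := h
  have h7 := Nat.coprime_of_squarefree_mul hn.sqf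
  have h8 := (mods h2.coprime_mul_right).1
  refine ⟨_, β, h1, h2, h3, h4, h5, h6, dvd_mul_right _ _, h7.symm.mul_right hc.symm, ?_⟩
  rw [Nat.mul_div_cancel_left _ hl.pos]
  refine exists_x hl h8 ?_ ?_
  · have h9 := hn.mod4
    rw [Nat.mul_mod] at h3 h9 ⊢
    have : l % 4 = 1 ∨ l % 4 = 3 := by omega
    rcases this with k | k <;> rw [k] at h3 h9
    · rw [show m % 4 = 3 by omega, show e % 4 = 1 by omega]
    · rw [show m % 4 = 1 by omega, show e % 4 = 3 by omega]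
  · rw [Nat.cast_mul, ← neg_mul, jacobiSym.mul_left, hJ, ← sq]
    exact jacobiSym.sq_one (by simpa using h7.symm)

end NvN

open NvN in
theorem exists_aux_disc (H : NData) {n : ℕ} (hn : Good n) : AuxDisc n := fun l hl => by
  have h0 := hn.sqf.ne_zero
  have cp : ∀ {q m : ℕ}, q.Prime → 0 < m → m < q → q.Coprime m := fun hq h1 h2 =>
    Nat.coprime_of_lt_prime h1.ne' h2 hq
  by_cases hln : l ∣ n
  · simp only [hln, true_imp_iff, not_true, false_imp_iff, and_true]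
    obtain ⟨m, rfl⟩ := hln
    rw [Nat.mul_div_cancel_left _ hl.pos]
    have m0 : 0 < m := Nat.pos_of_ne_zero (right_ne_zero_of_mul h0)
    have c0 := hn.cop30.coprime_mul_right
    obtain ⟨l2, l3, l5⟩ := mods c0
    have hη : J(-(m : ℤ) | l) = 1 ∨ J(-(m : ℤ) | l) = -1 :=
      jacobiSym.eq_one_or_neg_one (by simpa using (Nat.coprime_of_squarefree_mul hn.sqf).symm)
    have hη' : -J(-(m : ℤ) | l) = 1 ∨ -J(-(m : ℤ) | l) = -1 := by omega
    have c : ∀ a ∈ ({7, 11, 13, 17, 19, 23} : Finset ℕ), a.Coprime 120 := by decide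
    have l4 : l % 4 = 1 ∨ l % 4 = 3 := by omega
    have l5' : (l % 5 = 1 ∨ l % 5 = 4) ∨ l % 5 = 2 ∨ l % 5 = 3 := by omega
    obtain ⟨s, hs⟩ : ∃ s : Bool, l % 3 = if s then 1 else 2 :=
      ⟨l % 3 = 1, by by_cases k : l % 3 = 1 <;> simp [k]; omega⟩
    rcases l4 with l4 | l4 <;> rcases l5' with l5' | l5'
    · obtain ⟨a, a0, a1, a2, a3⟩ := exists_prime1 hl c0 hη' (c (if s then 13 else 17)
        (by cases s <;> simp)) (m + l)
      have a4 : a % 60 = 13 ∧ l % 3 = 1 ∨ a % 60 = 17 ∧ l % 3 = 2 := by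
        cases s <;> simp at a2 hs <;> omega
      obtain ⟨b, b0, b1, b2, b3, b4⟩ := exists_prime2 hl c0 a1 (cop30 (by omega) (by omega) (by omega))
        (by omega) (.inr rfl) (.inr rfl) (c 19 (by simp)) m
      obtain ⟨d, d0, d1, d2, d3⟩ := exists_prime1 hl c0 (.inl rfl) (c 7 (by simp)) m
      refine aux_of (e := a * b * d) hn hl (by
        simpa only [mul_assoc] using nvC H hl a1 b1 d1 ⟨l4, l5'⟩ a4 (by omega) (by omega) b3 d3 b4)
        (((cp a1 m0 (by omega)).mul_left (cp b1 m0 b0)).mul_left (cp d1 m0 d0)) ?_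
      simp [jacobiSym.mul_left, a3, b3, d3]
    · obtain ⟨a, a0, a1, a2, a3⟩ := exists_prime1 hl c0 (.inr rfl) (c (if s then 19 else 11)
        (by cases s <;> simp)) m
      obtain ⟨b, b0, b1, b2, b3⟩ := exists_prime1 hl c0 hη' (c 7 (by simp)) m
      have a4 : a % 60 = 19 ∧ l % 3 = 1 ∨ a % 60 = 11 ∧ l % 3 = 2 := by
        cases s <;> simp at a2 hs <;> omega
      refine aux_of (e := a * b) hn hl (by
        simpa only [mul_assoc] using nvB H hl a1 b1 ⟨l4, l5'⟩ (by omega) (by omega) (by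
          rcases a4 with k | k <;> simp [Nat.mul_mod, k, show b % 3 = 1 by omega,
            ← Nat.mod_mod_of_dvd a (show 3 ∣ 60 by norm_num)]) a3)
        ((cp a1 m0 a0).mul_left (cp b1 m0 b0)) ?_
      simp [jacobiSym.mul_left, a3, b3]
    · obtain ⟨a, a0, a1, a2, a3⟩ := exists_prime1 hl c0 (.inr rfl) (c 13 (by simp)) m
      obtain ⟨b, b0, b1, b2, b3⟩ := exists_prime1 hl c0 hη' (c (if s then 7 else 23)
        (by cases s <;> simp)) m
      have b4 : b % 60 = 7 ∧ l % 3 = 1 ∨ b % 60 = 23 ∧ l % 3 = 2 := by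
        cases s <;> simp at b2 hs <;> omega
      refine aux_of (e := a * b) hn hl (by
        rw [← mul_assoc, mul_comm l]
        exact nvB H a1 hl b1 (by omega) ⟨l4, l5'⟩ (by omega) (by
          rcases b4 with k | k <;> simp [Nat.mul_mod, k, show a % 3 = 1 by omega,
            ← Nat.mod_mod_of_dvd b (show 3 ∣ 60 by norm_num)]) (by
          rwa [← jacobiSym.quadratic_reciprocity_one_mod_four (by omega) (Nat.odd_iff.mpr l2)]))
        ((cp a1 m0 a0).mul_left (cp b1 m0 b0)) ?_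
      simp [jacobiSym.mul_left, a3, b3]
    · obtain ⟨a, a0, a1, a2, a3⟩ := exists_prime1 hl c0 (.inl rfl) (c 13 (by simp)) m
      obtain ⟨b, b0, b1, b2, b3, b4⟩ := exists_prime2 hl c0 a1 (cop30 (by omega) (by omega) (by omega))
        (by omega) hη (.inr rfl) (c (if s then 19 else 11) (by cases s <;> simp)) m
      have b5 : b % 60 = 19 ∧ l % 3 = 1 ∨ b % 60 = 11 ∧ l % 3 = 2 := by
        cases s <;> simp at b2 hs <;> omega
      refine aux_of (e := a * b) hn hl (by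
        rw [mul_comm l]
        exact nvB H a1 b1 hl (by omega) (by omega) ⟨l4, l5'⟩ (by
          rcases b5 with k | k <;> simp [Nat.mul_mod, k, show a % 3 = 1 by omega,
            ← Nat.mod_mod_of_dvd b (show 3 ∣ 60 by norm_num)]) b4)
        ((cp a1 m0 a0).mul_left (cp b1 m0 b0)) ?_
      simp [jacobiSym.mul_left, a3, b3]
  simp only [hln, false_imp_iff, not_false_eq_true, true_imp_iff, true_and]
  have m0 : 0 < n * l := Nat.pos_of_ne_zero (mul_ne_zero h0 hl.ne_zero)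
  obtain ⟨a, a0, a1, a2, -⟩ := exists_prime_jac ∅ (by simp) 1 (by simp) (a := 13) (by norm_num) (n * l)
  obtain ⟨b, b0, b1, b2, b3⟩ := exists_prime1 a1 (cop30 (by omega) (by omega) (by omega)) (.inr rfl)
    (a := 19) (by norm_num) (n * l)
  have hc := (cp a1 m0 a0).mul_left (cp b1 m0 b0)
  have hg : (-(n * (a * b) : ℕ) : ℤ).gcd l = 1 := by
    rw [Int.neg_gcd, Int.gcd_natCast_natCast]
    exact Nat.Coprime.mul_left (hl.coprime_iff_not_dvd.mpr hln).symm hc.coprime_mul_left_right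
  have h4 : n * (a * b) % 4 = 1 := by
    simp [Nat.mul_mod, hn.mod4, show a % 4 = 1 by omega, show b % 4 = 3 by omega]
  obtain ⟨c, c0, c1, c2, c3⟩ := exists_prime_jac {p ∈ ({l} : Finset ℕ) | p.Coprime 30}
    (by simp +contextual [hl]) (fun _ => J(-(n * (a * b) : ℕ) | l)) 
    (fun _ _ => jacobiSym.eq_one_or_neg_one hg)
    (a := if n * (a * b) % 8 = 1 then 7 else 67) (by split_ifs <;> norm_num) (n * l)
  have c4 : c % 60 = 7 := by split_ifs at c2 <;> omega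
  obtain ⟨β, h1, h2, h3, h5, h6, h7⟩ := nvB H a1 b1 c1 (by omega) (by omega) (by omega) (by
    simp [Nat.mul_mod, show a % 3 = 1 by omega, show b % 3 = 1 by omega, show c % 3 = 1 by omega]) b3
  refine ⟨_, β, h1, h2, h3, h5, h6, h7, hc.mul_left (cp c1 m0 c0), fun h15 => ?_⟩
  rw [← mul_assoc]
  rcases hl.eq_two_or_odd with rfl | h8
  · have : n * (a * b) * c % 8 = 7 := by
      rw [Nat.mul_mod]
      split_ifs at c2 with k
      · rw [k, show c % 8 = 7 by omega]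
      · rw [show n * (a * b) % 8 = 5 by omega, show c % 8 = 3 by omega]
    exact ⟨1, by omega⟩
  refine exists_x hl h8 (by rw [Nat.mul_mod, h4, show c % 4 = 3 by omega]) ?_
  have h9 : l.Coprime 30 := Nat.Coprime.mul_right (m := 2) (n := 15) (by simpa [Nat.odd_iff] using h8)
    (hl.coprime_iff_not_dvd.mpr h15)
  rw [Nat.cast_mul, ← neg_mul, jacobiSym.mul_left, c3 l (by simpa using h9), ← sq]
  exact jacobiSym.sq_one hg

end Pool.Agent.Lib.MP_696deb_nt
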