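import Pool.Agent.Lib.MP_696deb_nt.CntLines
import Pool.Agent.Lib.MP_696deb_nt.NvVan
import Pool.Agent.Lib.MP_696deb_nt.CntMatch1
import Pool.Agent.Lib.MP_696deb_nt.HRank
import Pool.Agent.Lib.MP_696deb_nt.Glue1
import Pool.Agent.Lib.MP_696deb_nt.Assembly

-- part Pool.Agent.Lib.MP_696deb_nt.GkzV1
section

/-! The first valuation relation between twisted Heegner points. -/

set_option autoImplicit false

open Finset NumberTheorySymbols

namespace Pool.Agent.Lib.MP_696deb_nt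

theorem matchOne : MatchOne := fun hn _ _ _ _ hd h4 hr hb h _ _ hT hT' t =>
  match_one hn hd h4 hr hb h hT hT' t

theorem gkz_one {n : ℕ} (hn : Good n) {d ρ β ρ' : ℤ} (hd : 0 < d) (h4 : d % 4 = 1)
    (hs : ¬ IsSquare d) (hρ : 60 ∣ ρ ^ 2 + n) (hβ : 60 ∣ β ^ 2 - d) (h : 30 ∣ ρ * β - 11 * ρ')
    {T T' : Finset Fm} (hT : FReps (-n) ρ T) (hT' : FReps (-(n * d)) ρ' T') :
    ∃ s : ℤ, (s = 1 ∨ s = -1) ∧ Tors (hP n T' - s * 2 * th (wG 1 d β) * hP 1 T) :=
  gkz_one_of matchOne hn hd h4 hs hρ hβ h hT hT'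

theorem nData : NData :=
  ⟨fun hn hn' hc h1 h1' h4 hB _ _ hr hb _ hT hy => th_sq hn hn' hc h1 h1' h4 hB hr hb hT hy,
    fun hn hr hT _ _ _ _ hd h4 hs hb h hT' => gkz_one hn hd h4 hs hr hb h hT hT',
    fun hA hc h1 => geo_wV hA hc h1⟩

theorem vData_one (A B : ℕ) (r : ℤ) (R : Finset Fm) (hn : Good (A * B))
    (hr : 60 ∣ r ^ 2 + (A * B : ℕ)) (hR : HReps (-(A * B : ℕ)) r R) (hB : J(-15 | B) = -1)
    (h1 : 1 < A) (hA : A % 60 = 1 ∨ A % 60 = 49) :
    ∃ (r' : ℤ) (R' : Finset Fm) (a b : ℤ), 60 ∣ r' ^ 2 + B ∧ HReps (-B) r' R' ∧ Odd a ∧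
      Tors (a * HP (A * B) A.primeFactors R - 2 ^ (#A.primeFactors + 1) * b * HP B ∅ R') := by
  have a := hn.adm_left
  have b := hn.adm_right
  have A4 : A % 4 = 1 := by omega
  have hb : Good B := ⟨b.sqf, by
    have := hn.mod4
    rw [Nat.mul_mod, A4] at this
    omega, b.cop⟩
  have hs : ¬ IsSquare (A : ℤ) := fun k => by
    obtain ⟨r, hr⟩ := Int.isSquare_natCast_iff.mp k
    rw [Nat.isUnit_iff.mp (a.sqf r hr.symm.dvd)] at hr
    omega
  obtain ⟨β, γ, i, j, hi, hj⟩ : ∃ β γ i j : ℤ, β ^ 2 - A = 60 * i ∧ β * γ - 1 = 60 * j := by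
    rcases hA with h | h
    exacts [⟨1, 1, -(A / 60), 0, by omega, rfl⟩, ⟨7, 43, -(A / 60), 5, by omega, rfl⟩]
  obtain ⟨l, hl⟩ := id hr
  push_cast at hl
  have h2 : 60 ∣ (11 * r * γ) ^ 2 + B :=
    ⟨121 * γ ^ 2 * (l + B * i) - 2 * B - 121 * B * (2 * j + 60 * j ^ 2), by
      linear_combination 121 * γ ^ 2 * hl + 121 * γ ^ 2 * B * hi -
        121 * B * (β * γ + 1 + 60 * j) * hj⟩
  obtain ⟨T, hT⟩ := exists_freps hb.neg (11 * r * γ)
  obtain ⟨s, e1, k1⟩ := gkz_one hb (d := A) (β := β) (ρ' := r) (by omega) (by omega) hs h2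
    ⟨i, hi⟩ ⟨22 * r * j, by linear_combination 11 * r * hj⟩ hT
    (by simpa [mul_comm] using hR.freps)
  obtain ⟨s', e2, k2⟩ := gkz_A hn h1 hB (x := 1) (β := β) (ρ' := 11 * r * γ) one_pos (by simpa using hs)
    hr ⟨r * (242 * (γ * i - β * j) - 4 * β), by
      linear_combination 121 * r * γ * hi - 121 * r * β * hj⟩ hR.freps (by simpa using hT)
    fun k => (Gal.not_dvd_r hb h2).1 (by omega)
  have h3 : HP (A * B) A.primeFactors R = hP B R := sum_congr rfl fun Q hQ => by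
    rw [gch_eq_hilS hn (dvd_mul_right _ _) (hR.mem Q hQ).disc, gch_swap hn.sqf hn.adm.odd
      (.inr ⟨(hR.mem Q hQ).disc, (hR.mem Q hQ).pos⟩)]
  have h4 : HP B ∅ T = hP 1 T := sum_congr rfl fun Q _ => by simp [hilS, gch]
  have h5 : wG A (A * 1) β = wG 1 A β := funext fun Q => by
    rw [mul_one]
    exact if_ctx_congr Iff.rfl (fun k => by
      rw [gch_full a.sqf (.inl k.2.1) a.odd]; simp [gch]) fun _ => rfl
  rw [h5, thA, thA, if_pos A4, if_pos A4, hP_full hb hT, ← tq_eq, ← Int.cast_mul, tq_mul, tq_mul] at k2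
  rw [← tq_eq, show (s : ℂ) * 2 * th (wG 1 A β) = (s * 2 * th (wG 1 A β) : ℤ) by simp, tq_mul] at k1
  suffices ∃ b : ℤ, tq (hP B R) = (2 ^ (#A.primeFactors + 1) * b) • tq (hP 1 T) by
    obtain ⟨b, hb⟩ := this
    refine ⟨_, T, 1, b, h2, hT.hreps, odd_one, ?_⟩
    rw [h3, h4, ← tq_eq, Int.cast_one, one_mul, hb, ← tq_mul]
    simp
  by_cases h0 : tq (hP 1 T) = 0
  · exact ⟨0, by simp [k1, h0]⟩
  have h6 : s * 2 * th (wG 1 A β) ^ 2 = s' * th (wV A) := by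
    by_contra k
    refine h0 (tq_cancel (sub_ne_zero.mpr k) ?_)
    rw [sub_smul, sub_eq_zero, th, th, ← k2, k1, smul_smul, th]
    congr 1; ring
  obtain ⟨y, hy⟩ := NvN.th_wV nData a.sqf (Nat.Coprime.mul_right
    (Nat.coprime_two_right.mpr a.odd) a.cop) A4 h1 (by
      rw [GInd.jac15_iff (by omega) a.cop]; omega)
  obtain ⟨z, hz⟩ : (2 : ℤ) ^ #A.primeFactors ∣ th (wG 1 A β) := by
    rw [← Int.pow_dvd_pow_iff two_ne_zero, ← pow_mul, mul_comm]
    refine ⟨s * s' * y, ?_⟩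
    rw [hy, pow_succ (2 : ℤ)] at h6
    rcases e1 with rfl | rfl <;> linarith
  exact ⟨s * z, by rw [k1, hz]; congr 1; ring⟩

end Pool.Agent.Lib.MP_696deb_nt
end

-- part Pool.Agent.Lib.MP_696deb_nt.GkzV
section

/-! The valuations in the proportionality relations between twisted Heegner points. -/

set_option autoImplicit false

open Finset NumberTheorySymbols

namespace Pool.Agent.Lib.MP_696deb_nt

namespace GkV

variable {A A' B : ℕ} {r : ℤ} {R : Finset Fm}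

lemma thA_wV (hA : Squarefree A') (ho : Odd A') (hc : A'.Coprime 15) (h1 : 1 < A')
    (hJ : J(-15 | A') = 1) (h4 : A % 4 = A' % 4) : ∃ s P : ℤ, (s = 1 ∨ s = -1) ∧
      (A'.Prime → A' % 12 ≠ 1 → Odd P) ∧ thA A (wV A') = s * cT A' * (2 ^ #A'.primeFactors * P) ^ 2 := by
  obtain ⟨s, hs, h⟩ := geo_wV hA (Nat.Coprime.mul_right (m := 2) (n := 15) (by simpa using ho) hc) h1
  obtain ⟨s', P, hs', hP, e⟩ := perA_val hA ho hc h1 hJ
  refine ⟨s * s', P, by rcases hs with rfl | rfl <;> omega, hP, ?_⟩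
  have h2 := h.eq_thw
  have h3 : (wp : ℂ) ≠ 0 := by exact_mod_cast wp_neg.ne
  have h5 : (wm : ℂ) ≠ 0 := by exact_mod_cast wm_ne
  have h6 := congrArg (starRingEnd ℂ) e
  rw [mul_assoc s s', mul_assoc s]
  rw [show (s' : ℂ) * cT A' * (2 ^ #A'.primeFactors * P) ^ 2 =
    (s' * cT A' * (2 ^ #A'.primeFactors * P) ^ 2 : ℤ) by push_cast; rfl] at h6
  generalize s' * cT A' * (2 ^ #A'.primeFactors * P) ^ 2 = X at h6 ⊢
  rw [thA, h4]
  split_ifs at h6 ⊢ with k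
  · simp only [map_mul, map_ofNat, map_intCast, Complex.conj_ofReal] at h6
    have h7 : (thw (wV A') 7 15 * wm : ℝ) + ((thw (wV A') 4 15 - s * X : ℤ) * wp : ℝ) * Complex.I = 0 := by
      push_cast
      field_simp at h2
      linear_combination s * Complex.I * h6 - h2
    have := congrArg Complex.im h7
    simp only [Complex.add_im, Complex.ofReal_im, Complex.mul_im, Complex.ofReal_re, Complex.I_im,
      Complex.I_re, Complex.zero_im, mul_one, mul_zero, zero_add, add_zero, mul_eq_zero,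
      Int.cast_eq_zero, wp_neg.ne, or_false] at this
    omega
  · simp only [map_mul, map_ofNat, map_intCast, Complex.conj_ofReal, Complex.conj_I] at h6
    have h7 : ((thw (wV A') 7 15 - s * X : ℤ) * wm : ℝ) + (thw (wV A') 4 15 * wp : ℝ) * Complex.I = 0 := by
      push_cast
      field_simp at h2
      linear_combination s * Complex.I * h6 - h2 - s * X * wm * Complex.I_mul_I
    have := congrArg Complex.re h7
    simp only [Complex.add_re, Complex.ofReal_im, Complex.mul_re, Complex.ofReal_re, Complex.I_im,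
      Complex.I_re, Complex.zero_re, mul_one, mul_zero, sub_zero, add_zero, mul_eq_zero,
      Int.cast_eq_zero, wm_ne, or_false] at this
    omega

lemma HP_eq (hn : Good (A * B)) (hR : HReps (-(A * B : ℕ)) r R) :
    HP (A * B) A.primeFactors R = hP B R :=
  sum_congr rfl fun Q hQ => by
    rw [gch_eq_hilS hn (dvd_mul_right _ _) (hR.mem Q hQ).disc,
      gch_swap hn.sqf hn.adm.2 (.inr ⟨(hR.mem Q hQ).disc, (hR.mem Q hQ).pos⟩)]

lemma jac_left (hn : Good (A * B)) (hr : 60 ∣ r ^ 2 + (A * B : ℕ)) (hB : J(-15 | B) = -1) :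
    J(-15 | A) = 1 := by
  have := TYZ.jac15 hn hr
  rw [jacobiSym.mul_right' _ hn.sqf.of_mul_left.ne_zero hn.sqf.of_mul_right.ne_zero, hB] at this
  omega

lemma not_sq (hA : Squarefree A) (h1 : 1 < A) : ¬ IsSquare (A : ℤ) := fun k => by
  obtain ⟨r, rfl⟩ := Int.isSquare_natCast_iff.mp k
  simp [Nat.isUnit_iff.mp (hA r dvd_rfl)] at h1

lemma v2 (hn : Good (A * B)) (hr : 60 ∣ r ^ 2 + (A * B : ℕ))
    (hR : HReps (-(A * B : ℕ)) r R) (hB : J(-15 | B) = -1) (h1 : 2 ≤ #A.primeFactors)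
    (h : ¬ (A % 60 = 1 ∨ A % 60 = 49)) :
    ∃ (q : ℕ) (r' : ℤ) (R' : Finset Fm) (a b : ℤ), q.Prime ∧ Good (q * B) ∧
      60 ∣ r' ^ 2 + (q * B : ℕ) ∧ HReps (-(q * B : ℕ)) r' R' ∧ Odd a ∧
      Tors (a * HP (A * B) A.primeFactors R - 2 ^ (#A.primeFactors - 1) * b * HP (q * B) {q} R') := by
  have hs := hn.sqf.of_mul_left
  have hc := hn.cop.coprime_mul_right
  have ho : Odd A := (Nat.odd_mul.mp hn.adm.2).1
  have a1 : 1 < A := Nat.nonempty_primeFactors.mp (card_pos.mp (by omega))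
  have hJ := jac_left hn hr hB
  have a2 := Nat.odd_iff.mp ho
  have a3 := (GInd.jac15_iff a2 hc).mp hJ
  obtain ⟨q, q1, q2, q3⟩ := Nat.forall_exists_prime_gt_and_modEq (A * B) (q := 60) (a := A)
    (by norm_num) (Nat.Coprime.mul_right (m := 2 ^ 2) (n := 15) (Nat.Coprime.pow_right 2 (by simpa using ho)) hc)
  have m2 : q % 2 = A % 2 := q3.of_dvd (by norm_num)
  have m3 : q % 3 = A % 3 := q3.of_dvd (by norm_num)
  have m4 : q % 4 = A % 4 := q3.of_dvd (by norm_num)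
  have m5 : q % 5 = A % 5 := q3.of_dvd (by norm_num)
  have m12 : q % 12 ≠ 1 := by
    rw [show q % 12 = A % 12 from q3.of_dvd (by norm_num)]
    clear q1 q3 m2 m3 m4 m5 hr
    omega
  have q5 : q.Coprime (A * B) := (Nat.coprime_of_lt_prime hn.sqf.ne_zero q1 q2)
  have q6 : q.Coprime 15 := by
    rw [Nat.Coprime, (q3.of_dvd (by norm_num : 15 ∣ 60)).gcd_eq]; exact hc
  have gq : Good (q * B) := ⟨(Nat.squarefree_mul q5.coprime_mul_left_right).mpr
    ⟨q2.squarefree, hn.sqf.of_mul_right⟩, by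
      rw [← hn.mod4]; exact (q3.of_dvd (by norm_num)).mul_right B,
    q6.mul_left hn.cop.coprime_mul_left⟩
  obtain ⟨k, hk⟩ : ∃ k : ℤ, (q : ℤ) = A + 60 * k := (q3.symm.dvd).imp fun k hk => by
    linear_combination hk
  have q7 : 60 ∣ r ^ 2 + (q * B : ℕ) :=
    Gal.dvd_eq (dvd_add hr (dvd_mul_right 60 (k * B))) (by push_cast; rw [hk]; ring)
  have q8 : Squarefree (q * A) :=
    (Nat.squarefree_mul q5.coprime_mul_right_right).mpr ⟨q2.squarefree, hs⟩
  obtain ⟨T, hT⟩ := exists_freps gq.neg r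
  obtain ⟨s, hs, e⟩ := gkz_A gq q2.one_lt hB (x := A) (β := 11 * A) (ρ' := r) (T' := R) (by omega)
    (by exact_mod_cast not_sq q8 (by nlinarith [q2.one_lt])) q7 ⟨-22 * k * r, by rw [hk]; ring⟩ hT
    (by simpa [mul_comm] using hR.freps) fun k => (Gal.not_dvd_r hn hr).1 (Dvd.dvd.trans (by norm_num) k)
  have qJ : J(-15 | q) = 1 := (GInd.jac15_iff (m2.trans a2) q6).mpr (by rwa [m3, m5])
  obtain ⟨s1, P, hs1, hO, e1⟩ := thA_wV (A := q) q2.squarefree (Nat.odd_iff.mpr (m2.trans a2)) q6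
    q2.one_lt qJ rfl
  obtain ⟨s2, P', hs2, -, e2⟩ := thA_wV (A := q) hn.sqf.of_mul_left ho hc a1 hJ m4
  replace hO := hO q2 m12
  have c1 : cT q = cT A := by
    simp only [cT, m3, m4]
  have c2 : 0 < cT A := by unfold cT; split_ifs <;> norm_num
  have p0 : P ≠ 0 := by rintro rfl; simp at hO
  rw [q2.primeFactors, card_singleton, c1] at e1
  have e3 : HP (q * B) {q} T = hP B T := q2.primeFactors ▸ HP_eq gq hT.hreps
  rw [← tq_eq, ← Int.cast_mul, tq_mul, tq_mul, e1] at e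
  have c3 : 4 * cT A * P ≠ 0 := by positivity
  rw [HP_eq hn hR]
  by_cases hy : Tors (hP B T)
  · refine ⟨q, r, T, P, 0, q2, gq, q7, hT.hreps, hO, ?_⟩
    rw [tq_eq_zero.mpr hy, smul_zero] at e
    simp only [Int.cast_zero, mul_zero, zero_mul, sub_zero, ← tq_eq_zero, tq_mul]
    refine tq_cancel (k := s * s1 * (4 * cT A * P)) (by
      rcases hs with rfl | rfl <;> rcases hs1 with rfl | rfl <;> simpa using c3) ?_
    rw [smul_smul, e]
    congr 1
    ring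
  have e4 := th_sq gq hn q5.coprime_mul_right_right q2.one_lt a1 m4 hB q7 (β := 11 * A)
    ⟨2 * A ^ 2 - k * A, by push_cast; rw [hk]; ring⟩ hT hy
  obtain ⟨j, hj⟩ : ∃ j, #A.primeFactors = j + 1 := ⟨#A.primeFactors - 1, by omega⟩
  obtain ⟨t, e5⟩ : ∃ t : ℤ, thA q (wG q (q * A) (11 * A)) = 4 * cT A * P * (2 ^ j * t) := by
    rw [e1, e2, hj, Nat.cast_mul, show s1 * cT A * (2 ^ 1 * P) ^ 2 * (s2 * cT A * (2 ^ (j + 1) * P') ^ 2) =
      s1 * s2 * (4 * cT A * P * (2 ^ j * P')) ^ 2 by ring, abs_mul, abs_sq,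
      show |s1 * s2| = 1 by rcases hs1 with rfl | rfl <;> rcases hs2 with rfl | rfl <;> simp, one_mul,
      sq_eq_sq_iff_eq_or_eq_neg] at e4
    rcases e4 with e4 | e4
    exacts [⟨P', e4⟩, ⟨-P', by rw [e4]; ring⟩]
  refine ⟨q, r, T, s * s1 * P, t, q2, gq, q7, hT.hreps, by
    rcases hs with rfl | rfl <;> rcases hs1 with rfl | rfl <;> simpa using hO, ?_⟩
  rw [e3, hj, ← tq_eq, show (2 : ℂ) ^ (j + 1 - 1) * t = (2 ^ j * t : ℤ) by simp, tq_mul, tq_mul,
    ← sub_eq_zero]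
  refine tq_cancel c3 ?_
  rw [smul_sub, smul_smul, smul_smul, ← e5, e, sub_eq_zero]
  congr 1
  ring

end GkV

theorem vData : VData := ⟨vData_one, fun _ _ _ _ => GkV.v2⟩

end Pool.Agent.Lib.MP_696deb_nt
end

-- part Pool.Agent.Lib.MP_696deb_nt.Final
section

/-! Assembly of the rank one theorem from the proportionality relations. -/

set_option autoImplicit false

open Finset NumberTheorySymbols

namespace Pool.Agent.Lib.MP_696deb_nt

theorem exists_root {N : ℕ} (h4 : N % 4 = 3) (h3 : N % 3 = 2) (h5 : N % 5 = 1 ∨ N % 5 = 4) :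
    ∃ r : ℤ, 60 ∣ r ^ 2 + N := by
  rcases h5 with h | h
  exacts [⟨7, by omega⟩, ⟨1, by omega⟩]

theorem bsd_one {N : ℕ} (hN : Squarefree N) (h4 : N % 4 = 3)
    (h3 : N % 3 = 2) (h5 : N % 5 = 1 ∨ N % 5 = 4) (hB : CondB N) {a b : ℤ}
    (ha : a = -12987 * (N : ℤ) ^ 2) (hb : b = 263466 * (N : ℤ) ^ 3) :
    ∃ F : ℂ → ℂ, Differentiable ℂ F ∧
      (∀ s : ℂ, (3 : ℝ) / 2 < s.re →
        HasProd
          (fun p : ℕ =>
            if p.Prime ∧ ¬ ((p : ℤ) ∣ 2 * (-4 * a ^ 3 - 27 * b ^ 2)) then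
              (1 - ((p : ℂ) - (Nat.card {q : ZMod p × ZMod p //
                  q.2 ^ 2 = q.1 ^ 3 + (a : ZMod p) * q.1 + (b : ZMod p)} : ℂ))
                  * (p : ℂ) ^ (-s) + (p : ℂ) ^ (1 - 2 * s))⁻¹
            else 1)
          (F s)) ∧
      analyticOrderAt F 1 =
        ((Module.finrank ℤ
          (WeierstrassCurve.Affine.Point
            (WeierstrassCurve.toAffine
              ({ a₁ := 0, a₂ := 0, a₃ := 0, a₄ := (a : ℚ), a₆ := (b : ℚ) } :
                WeierstrassCurve ℚ))) : ℕ) : ℕ∞) ∧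
      analyticOrderAt F 1 = 1 := by
  have hn : Good N := ⟨hN, h4, Nat.Coprime.mul_right (m := 3) (n := 5)
    ((Nat.Prime.coprime_iff_not_dvd Nat.prime_three).mpr (by omega)).symm
    ((Nat.Prime.coprime_iff_not_dvd Nat.prime_five).mpr (by omega)).symm⟩
  obtain ⟨r, hr⟩ := exists_root h4 h3 h5
  obtain ⟨R, hR⟩ := Gal.exists_hreps (-N) r hn.neg
  have hy := Gal.not_tors vData hn hB hr hR
  refine bsd_of_deriv hn (perA_eq_zero hn (TYZ.jac15 hn hr)) ?_
    (Gal.finrank_eq_one hn hB hr hR hy) ha hb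
  simpa only [sum_Ico_zero] using gz hn hr hR.freps (by simpa [hP, gch] using hy)
    (matchB hn hr hR.freps) (nData.one hn hr hR.freps) (exists_aux_disc nData hn)

theorem bsd_twist {N : ℕ} (hN : Squarefree N) (h12 : N % 12 = 11) (h5 : ¬ 5 ∣ N) (hB : CondB N)
    {a b : ℤ} (ha : a = -12987 * (N : ℤ) ^ 2) (hb : b = 263466 * (N : ℤ) ^ 3) :
    ∃ F : ℂ → ℂ, Differentiable ℂ F ∧
      (∀ s : ℂ, (3 : ℝ) / 2 < s.re →
        HasProd
          (fun p : ℕ =>
            if p.Prime ∧ ¬ ((p : ℤ) ∣ 2 * (-4 * a ^ 3 - 27 * b ^ 2)) then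
              (1 - ((p : ℂ) - (Nat.card {q : ZMod p × ZMod p //
                  q.2 ^ 2 = q.1 ^ 3 + (a : ZMod p) * q.1 + (b : ZMod p)} : ℂ))
                  * (p : ℂ) ^ (-s) + (p : ℂ) ^ (1 - 2 * s))⁻¹
            else 1)
          (F s)) ∧
      analyticOrderAt F 1 =
        ((Module.finrank ℤ
          (WeierstrassCurve.Affine.Point
            (WeierstrassCurve.toAffine
              ({ a₁ := 0, a₂ := 0, a₃ := 0, a₄ := (a : ℚ), a₆ := (b : ℚ) } :
                WeierstrassCurve ℚ))) : ℕ) : ℕ∞) ∧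
      Module.Finite ℤ (WeierstrassCurve.Affine.Point
        (WeierstrassCurve.toAffine
          ({ a₁ := 0, a₂ := 0, a₃ := 0, a₄ := (a : ℚ), a₆ := (b : ℚ) } : WeierstrassCurve ℚ))) ∧
      analyticOrderAt F 1 = if N % 5 = 1 ∨ N % 5 = 4 then 1 else 0 := by
  have h4 : N % 4 = 3 := by omega
  have h3 : N % 3 = 2 := by omega
  have e : twist15 (-(N : ℤ)) =
      ({ a₁ := 0, a₂ := 0, a₃ := 0, a₄ := (a : ℚ), a₆ := (b : ℚ) } : WeierstrassCurve ℚ) := by
    rw [twist15, ha, hb]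
    congr 2 <;> ring
  have hf := (finite_and_finrank_le hN h4 h3 (by omega) hB).1
  rw [e] at hf
  split_ifs with h
  · obtain ⟨F, h1, h2, h6, h7⟩ := bsd_one hN h4 h3 h hB ha hb
    exact ⟨F, h1, h2, h6, hf, h7⟩
  · obtain ⟨G, hG, hGL, hG1⟩ := core hN h4 h3 (by omega) hB
    obtain ⟨F, h1, h2, h6, h7, -⟩ := bsd_of_ne_zero hN h4 h3 (by omega) hB ha hb G hG hGL hG1
    exact ⟨F, h1, h2, h6, hf, (h1.analyticAt 1).analyticOrderAt_eq_zero.mpr h7⟩

end Pool.Agent.Lib.MP_696deb_nt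
end
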