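import Pool.Agent.Lib.MP_696deb_nt.AnDefs

set_option autoImplicit false

open Filter Topology Set MeasureTheory

namespace Pool.Agent.Lib.MP_696deb_nt

section K
variable {ε : ℝ}

theorem kerE_neg (ε x : ℝ) : kerE ε (-x) = -kerE ε x := by
  simp only [kerE, Real.sign_neg, abs_neg]
  ring

lemma measurable_rsign0 : Measurable Real.sign := by
  unfold Real.sign
  exact Measurable.ite measurableSet_Iio measurable_const
    (Measurable.ite measurableSet_Ioi measurable_const measurable_const)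

lemma wK_pos (ε y : ℝ) : 0 < (1 + y ^ 2) ^ (-1 - ε / 2) := Real.rpow_pos_of_pos (by positivity) _

lemma continuous_wK (ε : ℝ) : Continuous fun y : ℝ => (1 + y ^ 2) ^ (-1 - ε / 2) :=
  Continuous.rpow_const (by fun_prop) fun y => Or.inl (by positivity)

theorem integrable_wK (hε : 0 < ε) : Integrable fun y : ℝ => (1 + y ^ 2) ^ (-1 - ε / 2) := by
  refine integrable_inv_one_add_sq.mono' (continuous_wK ε).aestronglyMeasurable
    (Eventually.of_forall fun y => ?_)
  rw [Real.norm_of_nonneg (wK_pos ε y).le, ← Real.rpow_neg_one]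
  exact Real.rpow_le_rpow_of_exponent_le (by nlinarith [sq_nonneg y]) (by linarith)

theorem integral_wK_pos (hε : 0 < ε) : 0 < ∫ y : ℝ, (1 + y ^ 2) ^ (-1 - ε / 2) :=
  integral_pos_of_integrable_nonneg_nonzero (x := 0) (continuous_wK ε) (integrable_wK hε)
    (fun y => (wK_pos ε y).le) (wK_pos ε 0).ne'

lemma tail_nonneg (ε x : ℝ) : 0 ≤ ∫ y in Ioi x, (1 + y ^ 2) ^ (-1 - ε / 2) :=
  integral_nonneg fun y => (wK_pos ε y).le

theorem measurable_kerE (hε : 0 < ε) : Measurable (kerE ε) := by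
  have h : Antitone fun x : ℝ => ∫ y in Ioi x, (1 + y ^ 2) ^ (-1 - ε / 2) := fun a b hab =>
    setIntegral_mono_set (integrable_wK hε).integrableOn
      (Eventually.of_forall fun y => (wK_pos ε y).le) (Ioi_subset_Ioi hab).eventuallyLE
  exact (measurable_rsign0.mul (h.measurable.comp measurable_abs)).div_const _

lemma integral_one_add_rpow (hε : 0 < ε) {x : ℝ} (hx : 0 ≤ x) :
    IntegrableOn (fun y : ℝ => (1 + y) ^ (-2 - ε)) (Ioi x) ∧
      ∫ y in Ioi x, (1 + y) ^ (-2 - ε) ≤ (1 + x) ^ (-1 - ε) := by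
  have hd : ∀ y ∈ Ici x, HasDerivAt (fun t : ℝ => -((1 + t) ^ (-1 - ε) / (1 + ε)))
      ((1 + y) ^ (-2 - ε)) y := fun y hy => by
    have h1 : 0 < 1 + y := by linarith [mem_Ici.mp hy]
    refine ((((hasDerivAt_id y).const_add 1).rpow_const (p := -1 - ε)
      (Or.inl h1.ne')).div_const (1 + ε)).neg.congr_deriv ?_
    rw [show -1 - ε - 1 = -2 - ε by ring]
    simp only [id]
    field_simp
    ring
  have ht : Tendsto (fun t : ℝ => -((1 + t) ^ (-1 - ε) / (1 + ε))) atTop (𝓝 (-(0 / (1 + ε)))) := by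
    refine (Tendsto.div_const ?_ _).neg
    rw [show -1 - ε = -(1 + ε) by ring]
    exact (tendsto_rpow_neg_atTop (by linarith)).comp (tendsto_atTop_add_const_left _ _ tendsto_id)
  have hp : ∀ y ∈ Ioi x, 0 ≤ (1 + y) ^ (-2 - ε) := fun y hy =>
    Real.rpow_nonneg (by linarith [mem_Ioi.mp hy]) _
  refine ⟨integrableOn_Ioi_deriv_of_nonneg' hd hp ht, ?_⟩
  rw [integral_Ioi_of_hasDerivAt_of_nonneg' hd hp ht, zero_div, neg_zero, zero_sub, neg_neg]
  exact div_le_self (Real.rpow_nonneg (by linarith) _) (by linarith)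

lemma tail_of_le (hε : 0 < ε) {f : ℝ → ℝ} {x C : ℝ} (hx : 0 ≤ x) (hC : 0 ≤ C)
    (h0 : ∀ y ∈ Ioi x, 0 ≤ f y) (h : ∀ y ∈ Ioi x, f y ≤ C * (1 + y) ^ (-2 - ε)) :
    ∫ y in Ioi x, f y ≤ C * (1 + x) ^ (-1 - ε) := by
  obtain ⟨h1, h2⟩ := integral_one_add_rpow hε hx
  calc ∫ y in Ioi x, f y ≤ ∫ y in Ioi x, C * (1 + y) ^ (-2 - ε) :=
        integral_mono_of_nonneg ((ae_restrict_iff' measurableSet_Ioi).mpr (.of_forall h0))
          (h1.const_mul C) ((ae_restrict_iff' measurableSet_Ioi).mpr (.of_forall h))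
    _ ≤ _ := by rw [integral_const_mul]; gcongr

lemma tail_le (hε : 0 < ε) {x : ℝ} (hx : 0 ≤ x) :
    ∫ y in Ioi x, (1 + y ^ 2) ^ (-1 - ε / 2) ≤ 2 ^ (1 + ε / 2) * (1 + x) ^ (-1 - ε) := by
  refine tail_of_le hε hx (by positivity) (fun y _ => (wK_pos ε y).le) fun y hy => ?_
  have hy0 : 0 < 1 + y := by linarith [mem_Ioi.mp hy]
  calc (1 + y ^ 2) ^ (-1 - ε / 2) ≤ ((1 + y) ^ 2 / 2) ^ (-1 - ε / 2) :=
        Real.rpow_le_rpow_of_nonpos (by positivity) (by nlinarith [sq_nonneg (1 - y)])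
          (by linarith)
    _ = _ := by
        rw [Real.div_rpow (by positivity) (by norm_num), ← Real.rpow_two, ← Real.rpow_mul hy0.le,
          show -1 - ε / 2 = -(1 + ε / 2) by ring, Real.rpow_neg (by norm_num : (0 : ℝ) ≤ 2),
          div_inv_eq_mul, mul_comm]
        congr 2
        ring

lemma abs_rsign_le (x : ℝ) : |Real.sign x| ≤ 1 := by
  rcases Real.sign_apply_eq x with h | h | h <;> simp [h]

theorem abs_kerE_le (hε : 0 < ε) :
    ∃ C : ℝ, ∀ x : ℝ, |kerE ε x| ≤ C * (1 + |x|) ^ (-1 - ε) := by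
  have hZ := integral_wK_pos hε
  refine ⟨2 ^ (1 + ε / 2) / ∫ y : ℝ, (1 + y ^ 2) ^ (-1 - ε / 2), fun x => ?_⟩
  rw [kerE, abs_div, abs_mul, abs_of_pos hZ, abs_of_nonneg (tail_nonneg ε _), div_mul_eq_mul_div]
  exact div_le_div_of_nonneg_right ((mul_le_of_le_one_left (tail_nonneg ε _)
    (abs_rsign_le x)).trans (tail_le hε (abs_nonneg x))) hZ.le

lemma integral_sign_sub_pos {x : ℝ} (hx : 0 < x) :
    ∫ y : ℝ, (1 + y ^ 2) ^ (-1 - ε / 2) * (Real.sign x - Real.sign (y + x)) =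
      2 * ∫ y in Ioi x, (1 + y ^ 2) ^ (-1 - ε / 2) := by
  have h1 : ∫ y in Ioi x, (1 + y ^ 2) ^ (-1 - ε / 2) =
      ∫ y in Iic (-x), (1 + y ^ 2) ^ (-1 - ε / 2) := by
    rw [← integral_comp_neg_Ioi]; simp
  rw [h1, ← integral_const_mul, ← integral_indicator measurableSet_Iic]
  refine integral_congr_ae ?_
  filter_upwards [compl_mem_ae_iff.mpr (measure_singleton (-x))] with y hy
  rcases lt_or_gt_of_ne (show y ≠ -x from hy) with h | h
  · rw [indicator_of_mem (mem_Iic.mpr h.le), Real.sign_of_pos hx, Real.sign_of_neg (by linarith)]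
    ring
  · rw [indicator_of_notMem (by simpa using h), Real.sign_of_pos hx,
      Real.sign_of_pos (by linarith)]
    ring

lemma integral_sign_sub_neg (ε x : ℝ) :
    ∫ y : ℝ, (1 + y ^ 2) ^ (-1 - ε / 2) * (Real.sign (-x) - Real.sign (y + -x)) =
      -∫ y : ℝ, (1 + y ^ 2) ^ (-1 - ε / 2) * (Real.sign x - Real.sign (y + x)) := by
  rw [← integral_neg_eq_self, ← integral_neg]
  congr 1
  ext y
  rw [← neg_add, Real.sign_neg, Real.sign_neg, neg_sq]
  ring

theorem integral_sign_sub (hε : 0 < ε) (x : ℝ) :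
    ∫ y : ℝ, (1 + y ^ 2) ^ (-1 - ε / 2) * (Real.sign x - Real.sign (y + x)) =
      2 * kerE ε x * ∫ y : ℝ, (1 + y ^ 2) ^ (-1 - ε / 2) := by
  have hZ := (integral_wK_pos hε).ne'
  have key : ∀ x : ℝ, 0 < x →
      ∫ y : ℝ, (1 + y ^ 2) ^ (-1 - ε / 2) * (Real.sign x - Real.sign (y + x)) =
      2 * kerE ε x * ∫ y : ℝ, (1 + y ^ 2) ^ (-1 - ε / 2) := fun x hx => by
    rw [integral_sign_sub_pos hx, kerE, Real.sign_of_pos hx, abs_of_pos hx, one_mul, mul_assoc,
      div_mul_cancel₀ _ hZ]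
  rcases lt_trichotomy x 0 with h | rfl | h
  · have := integral_sign_sub_neg ε x
    rw [key _ (neg_pos.mpr h), kerE_neg] at this
    linarith
  · have := integral_sign_sub_neg ε 0
    rw [neg_zero] at this
    rw [show kerE ε 0 = 0 by simp [kerE]]
    linarith
  · exact key x h

theorem integral_abs_sign_sub_le (hε : 0 < ε) : ∃ C : ℝ, ∀ x : ℝ,
    ∫ y : ℝ, (1 + y ^ 2) ^ (-1 - ε / 2) * |Real.sign x - Real.sign (y + x)| ≤
      C * (1 + |x|) ^ (-1 - ε) := by
  have hZ := integral_wK_pos hε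
  obtain ⟨C, hC⟩ := abs_kerE_le hε
  set Z := ∫ y : ℝ, (1 + y ^ 2) ^ (-1 - ε / 2)
  refine ⟨(2 * |C| + 1) * Z, fun x => ?_⟩
  rcases eq_or_ne x 0 with rfl | hx
  · simp only [Real.sign_zero, add_zero, zero_sub, abs_neg, abs_zero, Real.one_rpow, mul_one]
    refine le_trans (integral_mono_of_nonneg (.of_forall fun y => ?_) (integrable_wK hε)
      (.of_forall fun y => ?_)) (le_mul_of_one_le_left hZ.le (by linarith [abs_nonneg C]))
    · exact mul_nonneg (wK_pos ε y).le (abs_nonneg _)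
    · exact mul_le_of_le_one_right (wK_pos ε y).le (abs_rsign_le y)
  · have h1 : ∀ y : ℝ, (1 + y ^ 2) ^ (-1 - ε / 2) * |Real.sign x - Real.sign (y + x)| =
        Real.sign x * ((1 + y ^ 2) ^ (-1 - ε / 2) * (Real.sign x - Real.sign (y + x))) := fun y => by
      rw [mul_left_comm]
      congr 1
      rcases Real.sign_apply_eq_of_ne_zero x hx with h | h <;>
        rcases Real.sign_apply_eq (y + x) with h' | h' | h' <;> rw [h, h'] <;> norm_num
    simp only [h1]
    rw [integral_const_mul, integral_sign_sub hε]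
    have h2 : Real.sign x * kerE ε x ≤ |C| * (1 + |x|) ^ (-1 - ε) := by
      refine (le_abs_self _).trans ?_
      rw [abs_mul]
      refine (mul_le_of_le_one_left (abs_nonneg _) (abs_rsign_le x)).trans ((hC x).trans ?_)
      gcongr
      exact le_abs_self C
    have h3 : 0 ≤ (1 + |x|) ^ (-1 - ε) := by positivity
    calc Real.sign x * (2 * kerE ε x * Z) = 2 * Z * (Real.sign x * kerE ε x) := by ring
      _ ≤ 2 * Z * (|C| * (1 + |x|) ^ (-1 - ε)) := by gcongr
      _ ≤ _ := by nlinarith [mul_nonneg hZ.le h3]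

lemma kK_nonneg (ε : ℝ) {y : ℝ} (hy : 1 < y) : 0 ≤ y ^ (-ε) / (y ^ 2 - 1) :=
  div_nonneg (Real.rpow_nonneg (by linarith) _) (by nlinarith)

theorem kerK_nonneg (ε x : ℝ) : 0 ≤ kerK ε x := by
  unfold kerK
  split_ifs with h
  · exact setIntegral_nonneg measurableSet_Ioi fun y hy => kK_nonneg ε (h.trans hy)
  · exact le_rfl

theorem kerK_le (hε : 0 < ε) :
    ∃ C : ℝ, ∀ x : ℝ, 2 ≤ x → kerK ε x ≤ C * (1 + x) ^ (-1 - ε) := by
  refine ⟨3 * 2 ^ ε, fun x hx => ?_⟩
  rw [kerK, if_pos (by linarith)]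
  refine tail_of_le hε (by linarith) (by positivity)
    (fun y hy => kK_nonneg ε (by linarith [mem_Ioi.mp hy])) fun y hy => ?_
  have hy2 : 2 ≤ y := hx.trans (mem_Ioi.mp hy).le
  have hy0 : 0 < 1 + y := by linarith
  calc y ^ (-ε) / (y ^ 2 - 1) ≤ ((1 + y) / 2) ^ (-ε) / ((1 + y) ^ 2 / 3) := by
        exact div_le_div₀ (by positivity)
          (Real.rpow_le_rpow_of_nonpos (by positivity) (by linarith) (by linarith))
          (by positivity) (by nlinarith)
    _ = _ := by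
        rw [Real.div_rpow hy0.le (by norm_num), Real.rpow_neg (by norm_num : (0 : ℝ) ≤ 2),
          show -2 - ε = -ε - 2 by ring, Real.rpow_sub hy0, Real.rpow_two]
        field_simp

lemma integrableOn_kK (hε : 0 < ε) {x : ℝ} (hx : 1 < x) :
    IntegrableOn (fun y : ℝ => y ^ (-ε) / (y ^ 2 - 1)) (Ioi x) := by
  have hx2 : 0 < x ^ 2 - 1 := by nlinarith
  refine ((integrable_inv_one_add_sq.const_mul ((1 + x ^ 2) / (x ^ 2 - 1))).integrableOn).mono'
    (Measurable.aestronglyMeasurable (by fun_prop))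
    ((ae_restrict_iff' measurableSet_Ioi).mpr (.of_forall fun y hy => ?_))
  have hy : x < y := hy
  have hy2 : x ^ 2 ≤ y ^ 2 := by nlinarith
  rw [Real.norm_of_nonneg (kK_nonneg ε (hx.trans hy))]
  calc y ^ (-ε) / (y ^ 2 - 1) ≤ 1 / (y ^ 2 - 1) := by
        gcongr
        · linarith
        · exact Real.rpow_le_one_of_one_le_of_nonpos (by linarith) (by linarith)
    _ ≤ _ := by
        rw [← div_eq_mul_inv, div_div, div_le_div_iff₀ (by linarith) (by positivity)]
        nlinarith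

/-- The substitution `u = α y - β / y`. -/
lemma subst_sub {α β : ℝ} (hα : 0 < α) (hβ : 0 < β) (g : ℝ → ℝ) :
    (Integrable g ↔ IntegrableOn (fun y => (α + β / y ^ 2) * g (α * y - β / y)) (Ioi 0)) ∧
      ∫ u, g u = ∫ y in Ioi (0 : ℝ), (α + β / y ^ 2) * g (α * y - β / y) := by
  have hd : ∀ y ∈ Ioi (0 : ℝ), HasDerivWithinAt (fun y => α * y - β / y) (α + β / y ^ 2) (Ioi 0) y :=
    fun y hy => by
      have h0 : y ≠ 0 := (mem_Ioi.mp hy).ne'
      refine (((hasDerivAt_id y).const_mul α).sub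
        ((hasDerivAt_const y β).div (hasDerivAt_id y) h0)).hasDerivWithinAt.congr_deriv ?_
      simp only [id]
      ring
  have hi : InjOn (fun y => α * y - β / y) (Ioi 0) := by
    refine StrictMonoOn.injOn fun a ha b hb hab => ?_
    have ha : 0 < a := ha
    have : β / b < β / a := div_lt_div_of_pos_left hβ ha hab
    nlinarith
  have him : (fun y => α * y - β / y) '' Ioi 0 = univ := by
    refine eq_univ_of_forall fun u => ?_
    set s := √(u ^ 2 + 4 * α * β)
    have hs : s ^ 2 = u ^ 2 + 4 * α * β := Real.sq_sqrt (by positivity)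
    have hs0 : 0 ≤ s := Real.sqrt_nonneg _
    have h1 : 0 < u + s := by
      by_contra! h
      nlinarith [mul_pos hα hβ]
    refine ⟨(u + s) / (2 * α), by simp only [mem_Ioi]; positivity, ?_⟩
    simp only
    field_simp
    linear_combination hs
  have e : ∀ y ∈ Ioi (0 : ℝ), |α + β / y ^ 2| • g (α * y - β / y) =
      (α + β / y ^ 2) * g (α * y - β / y) := fun y _ => by
    rw [abs_of_pos (by positivity), smul_eq_mul]
  constructor
  · rw [← integrableOn_univ, ← him,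
      integrableOn_image_iff_integrableOn_abs_deriv_smul measurableSet_Ioi hd hi]
    exact integrableOn_congr_fun e measurableSet_Ioi
  · rw [← setIntegral_univ, ← him, integral_image_eq_integral_abs_deriv_smul measurableSet_Ioi hd hi]
    exact setIntegral_congr_fun measurableSet_Ioi e

lemma inner_add (hε : 0 < ε) {α β S σ : ℝ} (hα : 0 < α) (hβ : 0 < β) (hS : 0 < S)
    (hS2 : S ^ 2 = 4 * α * β) (hσ : 0 < σ) :
    IntegrableOn (fun y : ℝ => (α + β / y ^ 2) / S *
      (1 + (σ * ((α * y + β / y) / S)) ^ 2) ^ (-1 - ε / 2)) (Ioi 0) ∧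
    ∫ y in Ioi (0 : ℝ), (α + β / y ^ 2) / S * (1 + (σ * ((α * y + β / y) / S)) ^ 2) ^ (-1 - ε / 2) =
      √(1 + σ ^ 2) ^ (-1 - ε) / σ * ∫ y : ℝ, (1 + y ^ 2) ^ (-1 - ε / 2) := by
  set t := √(1 + σ ^ 2) with ht
  have ht2 : t ^ 2 = 1 + σ ^ 2 := Real.sq_sqrt (by positivity)
  have ht0 : 0 < t := Real.sqrt_pos.mpr (by positivity)
  set k := σ / (S * t) with hk
  have hk0 : 0 < k := by positivity
  obtain ⟨h1, h2⟩ := subst_sub hα hβ fun u => t ^ (-2 - ε) / S * (1 + (k * u) ^ 2) ^ (-1 - ε / 2)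
  have e : ∀ y ∈ Ioi (0 : ℝ), (α + β / y ^ 2) * (t ^ (-2 - ε) / S *
      (1 + (k * (α * y - β / y)) ^ 2) ^ (-1 - ε / 2)) = (α + β / y ^ 2) / S *
      (1 + (σ * ((α * y + β / y) / S)) ^ 2) ^ (-1 - ε / 2) := fun y hy => by
    have h0 : y ≠ 0 := (mem_Ioi.mp hy).ne'
    have e1 : 1 + (σ * ((α * y + β / y) / S)) ^ 2 = t ^ 2 * (1 + (k * (α * y - β / y)) ^ 2) := by
      have e2 : (α * y + β / y) ^ 2 = (α * y - β / y) ^ 2 + S ^ 2 := by
        rw [hS2]; field_simp; ring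
      rw [mul_pow, div_pow, e2, hk, mul_add (t ^ 2), ht2, ← ht2]
      field_simp
      rw [ht2]
      ring
    rw [e1, Real.mul_rpow (by positivity) (by positivity), ← Real.rpow_two t, ← Real.rpow_mul ht0.le,
      show 2 * (-1 - ε / 2) = -2 - ε by ring]
    ring
  refine ⟨(integrableOn_congr_fun e measurableSet_Ioi).mp (h1.mp
    (((integrable_wK hε).comp_mul_left' hk0.ne').const_mul _)), ?_⟩
  rw [← setIntegral_congr_fun measurableSet_Ioi e, ← h2, integral_const_mul,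
    Measure.integral_comp_mul_left (fun y : ℝ => (1 + y ^ 2) ^ (-1 - ε / 2)) k,
    abs_of_pos (inv_pos.mpr hk0), smul_eq_mul, show -1 - ε = (-2 - ε) + 1 by ring,
    Real.rpow_add_one ht0.ne', hk]
  field_simp

lemma outer_add (hε : 0 < ε) {S : ℝ} (hS : 0 < S) :
    IntegrableOn (fun σ : ℝ => √(1 + σ ^ 2) ^ (-1 - ε) / σ) (Ioi S) ∧
      ∫ σ in Ioi S, √(1 + σ ^ 2) ^ (-1 - ε) / σ = kerK ε (√(1 + S ^ 2)) := by
  have hx : 1 < √(1 + S ^ 2) := Real.lt_sqrt_of_sq_lt (by nlinarith)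
  have hd : ∀ σ ∈ Ioi S, HasDerivWithinAt (fun σ => √(1 + σ ^ 2)) (σ / √(1 + σ ^ 2)) (Ioi S) σ :=
    fun σ _ => by
      refine (((hasDerivAt_pow 2 σ).const_add 1).sqrt (by positivity)).hasDerivWithinAt.congr_deriv ?_
      simp only [Nat.cast_ofNat, Nat.add_one_sub_one, pow_one]
      field_simp
  have hi : InjOn (fun σ => √(1 + σ ^ 2)) (Ioi S) := by
    refine StrictMonoOn.injOn fun a ha b _ hab => Real.sqrt_lt_sqrt (by positivity) ?_
    have : S < a := ha
    nlinarith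
  have him : (fun σ => √(1 + σ ^ 2)) '' Ioi S = Ioi √(1 + S ^ 2) := by
    ext t
    constructor
    · rintro ⟨a, ha, rfl⟩
      have : S < a := ha
      exact Real.sqrt_lt_sqrt (by positivity) (by nlinarith)
    · intro ht
      have ht : √(1 + S ^ 2) < t := ht
      have h1 : 1 + S ^ 2 < t ^ 2 := (Real.sqrt_lt' (by linarith)).mp ht
      refine ⟨√(t ^ 2 - 1), Real.lt_sqrt_of_sq_lt (by linarith), ?_⟩
      simp only
      rw [Real.sq_sqrt (by nlinarith), add_sub_cancel, Real.sqrt_sq (by linarith)]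
  have e : ∀ σ ∈ Ioi S, |σ / √(1 + σ ^ 2)| • (√(1 + σ ^ 2) ^ (-ε) / (√(1 + σ ^ 2) ^ 2 - 1)) =
      √(1 + σ ^ 2) ^ (-1 - ε) / σ := fun σ hσ => by
    have h0 : 0 < σ := hS.trans hσ
    have h1 : 0 < √(1 + σ ^ 2) := Real.sqrt_pos.mpr (by positivity)
    rw [abs_of_pos (by positivity), smul_eq_mul, Real.sq_sqrt (by positivity),
      show -1 - ε = -ε - 1 by ring, Real.rpow_sub_one h1.ne', add_sub_cancel_left]
    field_simp
  constructor
  · have := integrableOn_kK hε hx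
    rw [← him, integrableOn_image_iff_integrableOn_abs_deriv_smul measurableSet_Ioi hd hi] at this
    exact (integrableOn_congr_fun e measurableSet_Ioi).mp this
  · rw [kerK, if_pos hx, ← him, integral_image_eq_integral_abs_deriv_smul measurableSet_Ioi hd hi]
    exact (setIntegral_congr_fun measurableSet_Ioi e).symm

theorem integral_kerE_add (hε : 0 < ε) {α β : ℝ} (hα : 0 < α) (hβ : 0 < β) :
    IntegrableOn (fun y : ℝ => kerE ε (α * y + β / y) / y) (Ioi 0) ∧
    ∫ y in Ioi (0 : ℝ), kerE ε (α * y + β / y) / y = kerK ε (√(1 + 4 * α * β)) := by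
  have hZ := integral_wK_pos hε
  set Z := ∫ y : ℝ, (1 + y ^ 2) ^ (-1 - ε / 2) with hZd
  set S := √(4 * α * β)
  have hS : 0 < S := Real.sqrt_pos.mpr (by positivity)
  have hS2 : S ^ 2 = 4 * α * β := Real.sq_sqrt (by positivity)
  let F : ℝ → ℝ → ℝ := fun y σ =>
    (α + β / y ^ 2) / S * (1 + (σ * ((α * y + β / y) / S)) ^ 2) ^ (-1 - ε / 2)
  obtain ⟨o1, o2⟩ := outer_add hε hS
  have hF : Integrable (Function.uncurry F)
      ((volume.restrict (Ioi (0 : ℝ))).prod (volume.restrict (Ioi S))) := by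
    rw [integrable_prod_iff' (Measurable.aestronglyMeasurable (by
      simp only [F, Function.uncurry_def]; fun_prop))]
    refine ⟨(ae_restrict_iff' measurableSet_Ioi).mpr (.of_forall fun σ hσ =>
      (inner_add hε hα hβ hS hS2 (hS.trans hσ)).1), ?_⟩
    refine (integrableOn_congr_fun (fun σ hσ => ?_) measurableSet_Ioi).mp (o1.mul_const Z)
    rw [← (inner_add hε hα hβ hS hS2 (hS.trans hσ)).2]
    refine integral_congr_ae (.of_forall fun y => ?_)
    simp only [F, Function.uncurry_apply_pair]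
    rw [Real.norm_of_nonneg (by positivity)]
  have e : ∀ y ∈ Ioi (0 : ℝ), (∫ σ in Ioi S, F y σ) / Z = kerE ε (α * y + β / y) / y := by
    intro y hy
    have h0 : 0 < y := hy
    have hc : 0 < α * y + β / y := by positivity
    simp only [F]
    rw [integral_const_mul, integral_comp_mul_right_Ioi
      (fun x : ℝ => (1 + x ^ 2) ^ (-1 - ε / 2)) S (div_pos hc hS), kerE, Real.sign_of_pos hc,
      abs_of_pos hc, mul_div_cancel₀ _ hS.ne', smul_eq_mul, ← hZd]
    field_simp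
  refine ⟨(integrableOn_congr_fun e measurableSet_Ioi).mp (hF.integral_prod_left.div_const Z), ?_⟩
  rw [← setIntegral_congr_fun measurableSet_Ioi e, integral_div, integral_integral_swap hF,
    setIntegral_congr_fun measurableSet_Ioi fun σ hσ => (inner_add hε hα hβ hS hS2 (hS.trans hσ)).2,
    integral_mul_const, o2, hS2, ← hZd, mul_div_cancel_right₀ _ hZ.ne']

theorem integral_kerE_sub (hε : 0 < ε) {α β : ℝ} (hα : 0 < α) (hβ : 0 < β) :
    IntegrableOn (fun y : ℝ => kerE ε (α * y - β / y) / y) (Ioi 0) ∧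
    ∫ y in Ioi (0 : ℝ), kerE ε (α * y - β / y) / y = 0 := by
  obtain ⟨C, hC⟩ := abs_kerE_le hε
  obtain ⟨h1, h2⟩ := subst_sub hα hβ fun u => kerE ε u / √(u ^ 2 + 4 * α * β)
  have e : ∀ y ∈ Ioi (0 : ℝ), (α + β / y ^ 2) * (kerE ε (α * y - β / y) /
      √((α * y - β / y) ^ 2 + 4 * α * β)) = kerE ε (α * y - β / y) / y := fun y hy => by
    have h0 : 0 < y := hy
    have hc : 0 < α * y + β / y := by positivity
    rw [show (α * y - β / y) ^ 2 + 4 * α * β = (α * y + β / y) ^ 2 by field_simp; ring,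
      Real.sqrt_sq hc.le]
    field_simp
  have hm := measurable_kerE hε
  have hS : 0 < √(4 * α * β) := Real.sqrt_pos.mpr (by positivity)
  have hi : Integrable fun u => kerE ε u / √(u ^ 2 + 4 * α * β) := by
    refine (((integrable_one_add_norm (E := ℝ) (μ := volume) (r := 1 + ε)
      (by simpa using hε)).const_mul C).div_const √(4 * α * β)).mono'
      (Measurable.aestronglyMeasurable (by fun_prop)) (.of_forall fun u => ?_)
    rw [norm_div, Real.norm_eq_abs, Real.norm_of_nonneg (Real.sqrt_nonneg _), Real.norm_eq_abs,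
      show -(1 + ε) = -1 - ε by ring]
    gcongr
    · exact (abs_nonneg _).trans (hC u)
    · exact hC u
    · nlinarith [sq_nonneg u]
  refine ⟨(integrableOn_congr_fun e measurableSet_Ioi).mp (h1.mp hi), ?_⟩
  rw [← setIntegral_congr_fun measurableSet_Ioi e, ← h2]
  have := integral_neg_eq_self (fun u => kerE ε u / √(u ^ 2 + 4 * α * β)) volume
  simp only [kerE_neg, neg_sq, neg_div, integral_neg] at this
  linarith

theorem nuK_nonneg (hε : 0 < ε) {r : ℝ} (h : r ∈ Ioo (0 : ℝ) 1) : 0 ≤ nuK ε r := by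
  have h0 := h.1
  have h1 : 0 < 1 - r ^ 2 := by nlinarith [h.1, h.2]
  unfold nuK
  positivity

lemma hasDerivAt_tK {r : ℝ} (h : r ∈ Ioo (0 : ℝ) 1) :
    HasDerivAt (fun r : ℝ => (1 + r ^ 2) / (1 - r ^ 2)) (4 * r / (1 - r ^ 2) ^ 2) r := by
  have h1 : 0 < 1 - r ^ 2 := by nlinarith [h.1, h.2]
  refine (((hasDerivAt_pow 2 r).const_add 1).div ((hasDerivAt_pow 2 r).const_sub 1)
    h1.ne').congr_deriv ?_
  simp only [Nat.cast_ofNat, Nat.add_one_sub_one, pow_one]
  ring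

lemma sK_eq {r : ℝ} (h : r ∈ Ioo (0 : ℝ) 1) :
    ((1 - r ^ 2) / (1 + r ^ 2)) ^ ε = ((1 + r ^ 2) / (1 - r ^ 2)) ^ (-ε) := by
  have h1 : 0 < 1 - r ^ 2 := by nlinarith [h.1, h.2]
  rw [Real.rpow_neg (by positivity), ← Real.inv_rpow (by positivity), inv_div]

lemma hasDerivAt_sK {r : ℝ} (h : r ∈ Ioo (0 : ℝ) 1) :
    HasDerivAt (fun r : ℝ => -((1 - r ^ 2) / (1 + r ^ 2)) ^ ε) (nuK ε r) r := by
  have h1 : 0 < 1 - r ^ 2 := by nlinarith [h.1, h.2]
  refine (((hasDerivAt_tK h).rpow_const (p := -ε)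
    (Or.inl (by positivity))).neg.congr_deriv ?_).congr_of_eventuallyEq ?_
  · rw [nuK, show -ε - 1 = -1 - ε by ring]; ring
  · filter_upwards [isOpen_Ioo.mem_nhds h] with x hx
    simp only [Pi.neg_apply, sK_eq hx]

lemma continuous_sK (hε : 0 < ε) : Continuous fun r : ℝ => -((1 - r ^ 2) / (1 + r ^ 2)) ^ ε :=
  (Continuous.rpow_const (Continuous.div (by fun_prop) (by fun_prop) fun r => by positivity)
    fun _ => Or.inr hε.le).neg

theorem integral_nuK (hε : 0 < ε) :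
    IntegrableOn (nuK ε) (Ioo 0 1) ∧ ∫ r in Ioo (0 : ℝ) 1, nuK ε r = 1 := by
  have h1 := intervalIntegral.integrableOn_deriv_of_nonneg (continuous_sK hε).continuousOn
    (fun r hr => hasDerivAt_sK hr) fun r hr => nuK_nonneg hε hr
  refine ⟨h1.mono_set Ioo_subset_Ioc_self, ?_⟩
  rw [← integral_Ioc_eq_integral_Ioo, ← intervalIntegral.integral_of_le zero_le_one,
    intervalIntegral.integral_eq_sub_of_hasDerivAt_of_le zero_le_one (continuous_sK hε).continuousOn
      (fun r hr => hasDerivAt_sK hr)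
      ((intervalIntegrable_iff_integrableOn_Ioc_of_le zero_le_one).mpr h1)]
  simp [hε.ne']

lemma kerK_eq {r₀ : ℝ} (h : r₀ ∈ Ioo (0 : ℝ) 1) : kerK ε ((1 + r₀ ^ 2) / (1 - r₀ ^ 2)) =
    ∫ r in Ioo r₀ 1, ((1 - r ^ 2) / (1 + r ^ 2)) ^ ε / r := by
  have h0 := h.1
  have h1 : 0 < 1 - r₀ ^ 2 := by nlinarith [h.1, h.2]
  have hs : Ioo r₀ 1 ⊆ Ioo 0 1 := Ioo_subset_Ioo_left h0.le
  have mono : ∀ a b : ℝ, 0 < a → a < b → b < 1 →
      (1 + a ^ 2) / (1 - a ^ 2) < (1 + b ^ 2) / (1 - b ^ 2) := fun a b ha hab hb => by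
    rw [div_lt_div_iff₀ (by nlinarith) (by nlinarith)]
    nlinarith
  have hi : InjOn (fun r : ℝ => (1 + r ^ 2) / (1 - r ^ 2)) (Ioo r₀ 1) :=
    StrictMonoOn.injOn fun a ha b hb hab => mono a b (hs ha).1 hab hb.2
  have hx : 1 < (1 + r₀ ^ 2) / (1 - r₀ ^ 2) := by
    rw [one_lt_div h1]; nlinarith
  have him : (fun r : ℝ => (1 + r ^ 2) / (1 - r ^ 2)) '' Ioo r₀ 1 =
      Ioi ((1 + r₀ ^ 2) / (1 - r₀ ^ 2)) := by
    ext t
    constructor
    · rintro ⟨a, ha, rfl⟩
      exact mono _ _ h0 ha.1 ha.2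
    · intro ht
      have ht : (1 + r₀ ^ 2) / (1 - r₀ ^ 2) < t := ht
      have ht1 : 1 < t := hx.trans ht
      rw [div_lt_iff₀ h1] at ht
      refine ⟨√((t - 1) / (t + 1)), ⟨Real.lt_sqrt_of_sq_lt ?_, ?_⟩, ?_⟩
      · rw [lt_div_iff₀ (by linarith)]; linarith
      · rw [Real.sqrt_lt' one_pos, div_lt_iff₀ (by linarith)]; linarith
      · simp only
        rw [Real.sq_sqrt (div_nonneg (by linarith) (by linarith))]
        have : t + 1 ≠ 0 := by linarith
        field_simp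
        ring
  rw [kerK, if_pos hx, ← him, integral_image_eq_integral_abs_deriv_smul measurableSet_Ioo
    (fun r hr => (hasDerivAt_tK (hs hr)).hasDerivWithinAt) hi]
  refine setIntegral_congr_fun measurableSet_Ioo fun r hr => ?_
  have a0 := (hs hr).1
  have a1 : 0 < 1 - r ^ 2 := by nlinarith [hr.2]
  rw [abs_of_pos (by positivity), smul_eq_mul, sK_eq (hs hr),
    show ((1 + r ^ 2) / (1 - r ^ 2)) ^ 2 - 1 = 4 * r ^ 2 / (1 - r ^ 2) ^ 2 by field_simp; ring]
  field_simp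

theorem integral_nuK_posLog (hε : 0 < ε) {r₀ : ℝ} (h : r₀ ∈ Ioo (0 : ℝ) 1) :
    IntegrableOn (fun r => nuK ε r * Real.posLog (r / r₀)) (Ioo 0 1) ∧
    ∫ r in Ioo (0 : ℝ) 1, nuK ε r * Real.posLog (r / r₀) = kerK ε ((1 + r₀ ^ 2) / (1 - r₀ ^ 2)) := by
  have h0 := h.1
  have hs : Ioo r₀ 1 ⊆ Ioo 0 1 := Ioo_subset_Ioo_left h0.le
  have hc : Continuous fun r : ℝ => Real.posLog (r / r₀) := Real.continuous_posLog.comp (by fun_prop)
  have hint : IntegrableOn (fun r => nuK ε r * Real.posLog (r / r₀)) (Ioo 0 1) :=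
    IntegrableOn.mul_continuousOn_of_subset (integral_nuK hε).1 hc.continuousOn measurableSet_Ioo
      isCompact_Icc Ioo_subset_Icc_self
  refine ⟨hint, ?_⟩
  have e1 : ∫ r in Ioo (0 : ℝ) 1, nuK ε r * Real.posLog (r / r₀) =
      ∫ r in Ioo r₀ 1, nuK ε r * Real.posLog (r / r₀) := by
    refine setIntegral_eq_of_subset_of_forall_sdiff_eq_zero measurableSet_Ioo hs fun r hr => ?_
    have h1 : r ≤ r₀ := by
      by_contra! hcon
      exact hr.2 ⟨hcon, hr.1.2⟩
    rw [(Real.posLog_eq_zero_iff _).mpr, mul_zero]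
    rw [abs_of_pos (div_pos hr.1.1 h0), div_le_one h0]
    exact h1
  have e2 : ∀ r ∈ Ioo r₀ 1, nuK ε r * Real.posLog (r / r₀) = nuK ε r * Real.log (r / r₀) :=
    fun r hr => by
      rw [Real.posLog_eq_log]
      rw [abs_of_pos (div_pos (hs hr).1 h0), one_le_div h0]
      exact hr.1.le
  have i1 : IntegrableOn (fun r => nuK ε r * Real.log (r / r₀)) (Ioo r₀ 1) :=
    (integrableOn_congr_fun e2 measurableSet_Ioo).mp (hint.mono_set hs)
  have c2 : ContinuousOn (fun r : ℝ => -((1 - r ^ 2) / (1 + r ^ 2)) ^ ε / r) (Icc r₀ 1) :=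
    (continuous_sK hε).continuousOn.div continuousOn_id fun r hr => (h0.trans_le hr.1).ne'
  have i2 : IntegrableOn (fun r : ℝ => -((1 - r ^ 2) / (1 + r ^ 2)) ^ ε / r) (Ioo r₀ 1) :=
    (c2.integrableOn_compact isCompact_Icc).mono_set Ioo_subset_Icc_self
  have hftc := intervalIntegral.integral_eq_sub_of_hasDerivAt_of_le h.2.le
    (f := fun r => -((1 - r ^ 2) / (1 + r ^ 2)) ^ ε * Real.log (r / r₀))
    (f' := fun r => nuK ε r * Real.log (r / r₀) + -((1 - r ^ 2) / (1 + r ^ 2)) ^ ε / r)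
    ((continuous_sK hε).continuousOn.mul (ContinuousOn.log (by fun_prop)
      fun r hr => (div_pos (h0.trans_le hr.1) h0).ne'))
    (fun r hr => by
      have a0 := (hs hr).1
      refine ((hasDerivAt_sK (hs hr)).mul (((hasDerivAt_id r).div_const r₀).log
        (div_pos a0 h0).ne')).congr_deriv ?_
      simp only [id]
      field_simp)
    ((intervalIntegrable_iff_integrableOn_Ioo_of_le h.2.le).mpr (i1.add i2))
  rw [intervalIntegral.integral_of_le h.2.le, integral_Ioc_eq_integral_Ioo, integral_add i1 i2] at hftc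
  simp only [one_pow, sub_self, zero_div, Real.zero_rpow hε.ne', neg_zero, zero_mul,
    div_self h0.ne', Real.log_one, mul_zero, neg_div, integral_neg] at hftc
  rw [e1, setIntegral_congr_fun measurableSet_Ioo e2, kerK_eq h]
  linarith

end K

end Pool.Agent.Lib.MP_696deb_nt
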