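import Pool.Agent.Lib.MP_696deb_nt.Hecke
import Pool.Agent.Lib.MP_696deb_nt.Bound

set_option autoImplicit false

open PowerSeries Filter Topology Complex MeasureTheory Asymptotics Set
open scoped Real

namespace Pool.Agent.Lib.MP_696deb_nt

/-- The primitive `∑ a n / n * q ^ n` of `2 π i f15`. -/
noncomputable def Fi (z : ℂ) : ℂ := ∑' n : ℕ, (a15 n : ℂ) / n * q1 z ^ n

lemma qe_Fi : QE Fi (PowerSeries.mk fun n => (a15 n : ℂ) / n) := QE.of_hasSum fun z hz => by
  obtain ⟨G, hG, _⟩ := qe_f15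
  simp only [coeff_mk]
  refine (Summable.of_norm_bounded (hG.summable_norm (norm_q1_lt hz)) fun n => ?_).hasSum
  rw [norm_mul, norm_mul, norm_div]
  gcongr
  rcases Nat.eq_zero_or_pos n with rfl | hn
  · simp
  · rw [coeff_map]
    exact div_le_self (norm_nonneg _) (by simpa using Nat.succ_le_of_lt hn)

lemma hasDerivAt_Fi {z : ℂ} (hz : 0 < z.im) : HasDerivAt Fi (2 * π * I * f15 z) z := by
  obtain ⟨F₁, h1, h2⟩ := qe_Fi.hasDerivAt
  have h3 : X * d⁄dX ℂ (PowerSeries.mk fun n => (a15 n : ℂ) / n) = toC F15 := by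
    ext n
    rcases n with _ | n
    · simp [F15]
    · have : (n + 1 : ℂ) ≠ 0 := Nat.cast_add_one_ne_zero n
      simp [coeff_succ_X_mul, coeff_derivative, coeff_map, a15, this]
  rw [h3] at h1
  rw [qe_f15.eq_of_eq h1 hz]
  exact h2 z hz

lemma tendsto_Fi : Tendsto Fi atI (𝓝 0) := by simpa using qe_Fi.tendsto

lemma const_of_deriv {G : ℂ → ℂ} (h : ∀ z : ℂ, 0 < z.im → HasDerivAt G 0 z) :
    ∃ c, ∀ z : ℂ, 0 < z.im → G z = c :=
  IsOpen.exists_is_const_of_deriv_eq_zero (s := {z : ℂ | 0 < z.im})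
    (isOpen_lt continuous_const Complex.continuous_im) (convex_halfSpace_im_gt 0).isPreconnected
    (fun z hz => (h z hz).differentiableAt.differentiableWithinAt) fun z hz => (h z hz).deriv

lemma hasDerivAt_Fi_mob {a b c d : ℤ} (h : 0 < a * d - b * c) {z : ℂ} (hz : 0 < z.im) :
    HasDerivAt (fun w => Fi (mob a b c d w)) (2 * π * I * sl a b c d f15 z) z := by
  have := (hasDerivAt_Fi (im_mob_pos h hz)).comp z (hasDerivAt_mob h.ne' hz)
  convert! this using 1
  rw [sl]
  ring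

lemma sl_scale {Q : ℤ} (hQ : Q ≠ 0) (a b c d : ℤ) (G : ℂ → ℂ) (z : ℂ) :
    sl (Q * a) (Q * b) (Q * c) (Q * d) G z = sl a b c d G z := by
  have : (Q : ℂ) ≠ 0 := by exact_mod_cast hQ
  rw [sl, sl, mob_scale hQ, ← mul_div_mul_left _ ((c * z + d) ^ 2) (pow_ne_zero 2 this)]
  push_cast
  congr 1 <;> ring

lemma f15_w5 {z : ℂ} (hz : 0 < z.im) : sl 5 (-2) 15 (-5) f15 z = -f15 z := by
  have h := sl_sl (a' := 0) (b' := -1) (c' := 15) (d' := 0) (by norm_num) 6 1 15 3 f15 hz
  rw [sl_congr (fun _ => f15_w3) (by norm_num) hz, f15_w15 hz] at h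
  rw [h, ← sl_scale (Q := 3) (by norm_num)]
  norm_num

lemma f15_sl_left {A B C D α β γ δ : ℤ} (h2 : 0 < A * D - B * C) (h3 : α * δ - β * (15 * γ) = 1)
    {z : ℂ} (hz : 0 < z.im) :
    sl (α * A + β * C) (α * B + β * D) (15 * γ * A + δ * C) (15 * γ * B + δ * D) f15 z =
      sl A B C D f15 z := by
  rw [← sl_sl h2.ne' _ _ _ _ _ hz]
  exact sl_congr (f15_inv _ _ _ _ h3) h2 hz

/-- The Atkin-Lehner eigenvalue at three is `1`. -/
theorem f15_AL3 {a b c d : ℤ} (h : 3 * a * d - 5 * b * c = 1) {z : ℂ} (hz : 0 < z.im) :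
    sl (3 * a) b (15 * c) (3 * d) f15 z = f15 z := by
  have := f15_sl_left (A := 6) (B := 1) (C := 15) (D := 3) (α := 3 * a - 5 * b) (β := 2 * b - a)
    (γ := c - d) (δ := 6 * d - 5 * c) (by norm_num) (by linear_combination h) hz
  rw [f15_w3 hz] at this
  rw [← this]
  congr 1 <;> ring

/-- The Atkin-Lehner eigenvalue at five is `-1`. -/
theorem f15_AL5 {a b c d : ℤ} (h : 5 * a * d - 3 * b * c = 1) {z : ℂ} (hz : 0 < z.im) :
    sl (5 * a) b (15 * c) (5 * d) f15 z = -f15 z := by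
  have := f15_sl_left (A := 5) (B := -2) (C := 15) (D := -5) (α := -5 * a - 3 * b)
    (β := 2 * a + b) (γ := -(c + d)) (δ := 6 * c + 5 * d) (by norm_num)
    (by linear_combination h) hz
  rw [f15_w5 hz] at this
  rw [← this]
  congr 1 <;> ring

/-- The Fricke eigenvalue is `-1`. -/
theorem f15_AL15 {a b c d : ℤ} (h : 15 * a * d - b * c = 1) {z : ℂ} (hz : 0 < z.im) :
    sl (15 * a) b (15 * c) (15 * d) f15 z = -f15 z := by
  have := f15_sl_left (A := 0) (B := -1) (C := 15) (D := 0) (α := -b) (β := a) (γ := -d) (δ := c)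
    (by norm_num) (by linear_combination h) hz
  rw [f15_w15 hz] at this
  rw [← this]
  congr 1 <;> ring

/-- The expansion of the newform at an arbitrary cusp. -/
theorem f15_cusp {a b c d : ℤ} (hd : a * d - b * c = 1) : ∃ (Q k : ℤ) (ε : ℂ), 0 < Q ∧
    ∀ z : ℂ, 0 < z.im → sl a b c d f15 z = ε * sl 1 k 0 Q f15 z := by
  have key : ∀ (Q k : ℤ) (ε : ℂ), 0 < Q → (∀ z : ℂ, 0 < z.im →
      sl (Q * a) (b - k * a) (Q * c) (d - k * c) f15 z = ε * f15 z) →
      ∀ z : ℂ, 0 < z.im → sl a b c d f15 z = ε * sl 1 k 0 Q f15 z := by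
    intro Q k ε hQ H z hz
    have hu : 0 < 1 * Q - k * 0 := by simpa using hQ
    have h1 := sl_sl hu.ne' (Q * a) (b - k * a) (Q * c) (d - k * c) f15 hz
    rw [sl_congr H hu hz] at h1
    rw [← sl_scale hQ.ne']
    convert h1.symm using 1
    · congr 1 <;> ring
    · simp only [sl]; ring
  have f3 : ¬ 3 ∣ c → 3 ∣ d - d * c ^ 3 * c := fun hc => by
    rw [show (3 : ℤ) = (3 : ℕ) from rfl, ← ZMod.intCast_zmod_eq_zero_iff_dvd] at hc ⊢
    push_cast
    generalize (c : ZMod 3) = x at hc ⊢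
    generalize (d : ZMod 3) = y
    revert x y
    decide
  have f5 : ¬ 5 ∣ c → 5 ∣ d - d * c ^ 3 * c := fun hc => by
    rw [show (5 : ℤ) = (5 : ℕ) from rfl, ← ZMod.intCast_zmod_eq_zero_iff_dvd] at hc ⊢
    push_cast
    generalize (c : ZMod 5) = x at hc ⊢
    generalize (d : ZMod 5) = y
    revert x y
    decide
  generalize d * c ^ 3 = k at f3 f5
  by_cases h3 : 3 ∣ c <;> by_cases h5 : 5 ∣ c
  · obtain ⟨c, rfl⟩ : 15 ∣ c := by omega
    exact ⟨1, 0, 1, one_pos, key 1 0 1 one_pos fun z hz => by simpa using f15_inv a b c d hd z hz⟩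
  · obtain ⟨c, rfl⟩ := h3
    obtain ⟨e, he⟩ := f5 h5
    refine ⟨5, k, -1, by norm_num, key 5 k (-1) (by norm_num) fun z hz => ?_⟩
    rw [he, show 5 * (3 * c) = 15 * c by ring, f15_AL5 (by linear_combination hd - a * he) hz,
      neg_one_mul]
  · obtain ⟨c, rfl⟩ := h5
    obtain ⟨e, he⟩ := f3 h3
    refine ⟨3, k, 1, by norm_num, key 3 k 1 (by norm_num) fun z hz => ?_⟩
    rw [he, show 3 * (5 * c) = 15 * c by ring, f15_AL3 (by linear_combination hd - a * he) hz,
      one_mul]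
  · obtain ⟨e, he⟩ : 15 ∣ d - k * c := by have := f3 h3; have := f5 h5; omega
    refine ⟨15, k, -1, by norm_num, key 15 k (-1) (by norm_num) fun z hz => ?_⟩
    rw [he, f15_AL15 (by linear_combination hd - a * he) hz, neg_one_mul]

lemma tendsto_mob_upper {a d : ℤ} (h : 0 < a * d) (b : ℤ) : Tendsto (mob a b 0 d) atI atI := by
  have hd : (d : ℝ) ≠ 0 := fun h' => by simp [Int.cast_eq_zero.mp h'] at h
  have h1 : (0 : ℝ) < a / d := by
    have : (0 : ℝ) < a * d := by exact_mod_cast h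
    rw [show (a : ℝ) / d = a * d / d ^ 2 by field_simp]
    positivity
  refine (tendsto_affine h1 (b / d)).congr fun z => ?_
  simp only [mob]
  push_cast
  ring

lemma exists_lim_SL {a b c d : ℤ} (hd : a * d - b * c = 1) :
    ∃ L, Tendsto (fun z => Fi (mob a b c d z)) atI (𝓝 L) := by
  obtain ⟨Q, k, ε, hQ, H⟩ := f15_cusp hd
  obtain ⟨L, hL⟩ := const_of_deriv (G := fun z => Fi (mob a b c d z) - ε * Fi (mob 1 k 0 Q z))
    fun z hz => by
      have := (hasDerivAt_Fi_mob (a := a) (b := b) (c := c) (d := d) (by omega) hz).sub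
        ((hasDerivAt_Fi_mob (a := 1) (b := k) (c := 0) (d := Q) (by simpa using hQ) hz).const_mul ε)
      convert! this using 1
      rw [H z hz]
      ring
  refine ⟨L, ?_⟩
  have h1 := ((tendsto_Fi.comp (tendsto_mob_upper (a := 1) (by simpa using hQ) k)).const_mul
    ε).const_add L
  rw [mul_zero, add_zero] at h1
  refine h1.congr' (ev_pos.mono fun z hz => ?_)
  simp only [← hL z hz, Function.comp]
  ring

lemma f15_isBigO : f15 =O[atI] fun z => Real.exp (-(2 * π) * z.im) := by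
  have h : QE f15 (X ^ 1 * toC (P1 * P3 * P5 * P15)) := by simpa [F15] using qe_f15
  have h1 := IsBigO.mul h.of_X_pow_mul.bdd (isBigO_refl q1 atI).norm_right
  refine h1.congr (fun z => ?_) fun z => ?_
  · have := q1_ne z
    field_simp
  · simp [norm_q1]

/-- The path towards the cusp `a / c` seen from the cusp at infinity. -/
noncomputable def pth (c d : ℤ) (y : ℝ) : ℂ := -d / c + ((c : ℝ) ^ 2 * y)⁻¹ * I

lemma im_pth (c d : ℤ) (y : ℝ) : (pth c d y).im = ((c : ℝ) ^ 2 * y)⁻¹ := by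
  have : pth c d y = ((-d / c : ℝ) : ℂ) + ((((c : ℝ) ^ 2 * y)⁻¹ : ℝ) : ℂ) * I := by simp [pth]
  rw [this, add_im, ofReal_im, mul_I_im, ofReal_re, zero_add]

lemma tendsto_pth {c : ℤ} (hc : c ≠ 0) (d : ℤ) : Tendsto (pth c d) (𝓝[>] 0) atI := by
  have hc' : (0 : ℝ) < (c : ℝ) ^ 2 := by positivity
  rw [tendsto_comap_iff]
  refine (tendsto_inv_nhdsGT_zero.const_mul_atTop (inv_pos.mpr hc')).congr fun y => ?_
  simp [im_pth, mul_comm]

lemma den_pth {c : ℤ} (hc : c ≠ 0) (d : ℤ) {y : ℝ} (hy : y ≠ 0) :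
    (c : ℂ) * pth c d y + d = I / (c * y) := by
  have h1 : (c : ℂ) ≠ 0 := by exact_mod_cast hc
  have h2 : (y : ℂ) ≠ 0 := by exact_mod_cast hy
  simp only [pth]
  push_cast
  field_simp
  ring

lemma mob_pth {a b c d : ℤ} (hd : a * d - b * c = 1) (hc : c ≠ 0) {y : ℝ} (hy : y ≠ 0) :
    mob a b c d (pth c d y) = a / c + y * I := by
  have h1 : (c : ℂ) ≠ 0 := by exact_mod_cast hc
  have h2 : (y : ℂ) ≠ 0 := by exact_mod_cast hy
  have h3 : (a : ℂ) * d - b * c = 1 := by exact_mod_cast hd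
  rw [mob, den_pth hc d hy]
  simp only [pth]
  push_cast
  field_simp
  linear_combination (-c * y) * h3 - c * y * I_sq

lemma exists_SL {a c : ℤ} (h : a ≠ 0 ∨ c ≠ 0) : ∃ g a' b' c' d' : ℤ, 0 < g ∧ a = a' * g ∧
    c = c' * g ∧ a' * d' - b' * c' = 1 := by
  obtain ⟨g, a', c', hg, h1, h2, h3⟩ := Int.exists_gcd_one' (Int.gcd_pos_iff.mpr h)
  obtain ⟨u, v, huv⟩ := Int.isCoprime_iff_gcd_eq_one.mpr h1
  exact ⟨g, a', -v, c', u, by exact_mod_cast hg, h2, h3, by linear_combination huv⟩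

lemma f15_isBigO_zero (a : ℤ) {c : ℤ} (hc : c ≠ 0) (e : ℝ) :
    (fun y : ℝ => f15 (a / c + y * I)) =O[𝓝[>] 0] fun y => y ^ e := by
  obtain ⟨g, a, b, c, d, hg, rfl, rfl, hd⟩ := exists_SL (a := a) (Or.inr hc)
  have hg' : (g : ℂ) ≠ 0 := by exact_mod_cast hg.ne'
  replace hc := left_ne_zero_of_mul hc
  have hc' : (0 : ℝ) < (c : ℝ) ^ 2 := by positivity
  obtain ⟨Q, k, ε, hQ, H⟩ := f15_cusp hd
  have hQ' : (0 : ℝ) < Q := by exact_mod_cast hQ
  have h1 := f15_isBigO.comp_tendsto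
    ((tendsto_mob_upper (a := 1) (d := Q) (by simpa using hQ) k).comp (tendsto_pth hc d))
  have h2 := (isLittleO_exp_neg_mul_rpow_atTop (a := 2 * π / (Q * c ^ 2)) (by positivity)
    (-(e + 2))).isBigO.comp_tendsto tendsto_inv_nhdsGT_zero
  have h3 : (fun y => f15 (mob 1 k 0 Q (pth c d y))) =O[𝓝[>] 0] fun y : ℝ => y ^ (e + 2) := by
    refine (h1.congr_right fun y => ?_).trans (h2.congr' EventuallyEq.rfl ?_)
    · simp only [Function.comp, im_mob, im_pth]
      congr 1
      simp [abs_of_pos hQ']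
      field_simp
    · filter_upwards [self_mem_nhdsWithin] with y hy
      simp only [Function.comp]
      rw [Real.inv_rpow (le_of_lt hy), Real.rpow_neg (le_of_lt hy), inv_inv]
  have h4 := (h3.mul (isBigO_refl (fun y : ℝ => ((y : ℂ) ^ 2)⁻¹) _).norm_right).const_mul_left
    (-ε / (Q * c ^ 2))
  refine h4.congr' ?_ ?_
  · filter_upwards [self_mem_nhdsWithin] with y hy
    have hy' : y ≠ 0 := ne_of_gt hy
    have h5 := H (pth c d y) (by rw [im_pth]; exact inv_pos.mpr (mul_pos hc' hy))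
    have l1 : (c : ℂ) ≠ 0 := by exact_mod_cast hc
    have l2 : (y : ℂ) ≠ 0 := by exact_mod_cast hy'
    have l3 : (Q : ℂ) ≠ 0 := by exact_mod_cast hQ.ne'
    rw [sl, sl, den_pth hc d hy', mob_pth hd hc hy', hd, div_pow, I_sq] at h5
    push_cast at h5 ⊢
    rw [mul_div_mul_right _ _ hg']
    simp only [zero_mul, zero_add, mul_zero, sub_zero, one_mul] at h5
    field_simp at h5 ⊢
    linear_combination h5
  · filter_upwards [self_mem_nhdsWithin] with y hy
    have hy' : (0 : ℝ) < y := hy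
    rw [Real.rpow_add hy', norm_inv, norm_pow, Complex.norm_real, Real.norm_of_nonneg hy'.le,
      Real.rpow_two]
    field_simp

lemma tendsto_vert (r : ℝ) : Tendsto (fun y : ℝ => (r : ℂ) + y * I) atTop atI := by
  rw [tendsto_comap_iff]
  exact tendsto_id.congr fun y => by simp

lemma f15_isBigO_top (r : ℝ) :
    (fun y : ℝ => f15 (r + y * I)) =O[atTop] fun y => Real.exp (-(2 * π) * y) :=
  (f15_isBigO.comp_tendsto (tendsto_vert r)).congr_right fun y => by simp

lemma f15_locInt (r : ℝ) : LocallyIntegrableOn (fun y : ℝ => f15 (r + y * I)) (Ioi 0) := by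
  refine ContinuousOn.locallyIntegrableOn (fun y hy => ?_) measurableSet_Ioi
  exact (ContinuousAt.comp (f := fun y : ℝ => (r + y * I : ℂ))
    (qe_f15.hol _ (by simpa using hy)).continuousAt (by fun_prop)).continuousWithinAt

lemma cast_div (a c : ℤ) : (((a / c : ℝ)) : ℂ) = a / c := by push_cast; rfl

lemma f15_mellinConvergent (a : ℤ) {c : ℤ} (hc : c ≠ 0) (s : ℂ) :
    MellinConvergent (fun y : ℝ => f15 (a / c + y * I)) s :=
  mellinConvergent_of_isBigO_rpow_exp (a := 2 * π) (b := s.re - 1) (by positivity)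
    (cast_div a c ▸ f15_locInt _) (cast_div a c ▸ f15_isBigO_top _) (f15_isBigO_zero a hc _)
    (by linarith)

lemma f15_mellin_differentiable (a : ℤ) {c : ℤ} (hc : c ≠ 0) :
    Differentiable ℂ (mellin fun y : ℝ => f15 (a / c + y * I)) := fun s =>
  mellin_differentiableAt_of_isBigO_rpow_exp (a := 2 * π) (b := s.re - 1) (by positivity)
    (cast_div a c ▸ f15_locInt _) (cast_div a c ▸ f15_isBigO_top _) (f15_isBigO_zero a hc _)
    (by linarith)

/-- The modular symbol from infinity to the cusp `a / c`. -/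
noncomputable def ms (a c : ℤ) : ℂ :=
  if c = 0 then 0 else 2 * π * ∫ y in Ioi (0 : ℝ), f15 (a / c + y * I)

lemma tendsto_ms (a : ℤ) {c : ℤ} (hc : c ≠ 0) {L : ℂ}
    (hL : Tendsto (fun y : ℝ => Fi (a / c + y * I)) (𝓝[>] 0) (𝓝 L)) : ms a c = L := by
  have h1 : IntegrableOn (fun y : ℝ => f15 (a / c + y * I)) (Ioi 0) := by
    simpa [MellinConvergent] using f15_mellinConvergent a hc 1
  have h2 := integral_Ioi_of_hasDerivAt_of_tendsto
    (f := Function.update (fun y : ℝ => Fi (a / c + y * I)) 0 L) (a := 0) (m := 0)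
    (f' := fun y : ℝ => -(2 * π) * f15 (a / c + y * I)) ?_ (fun y hy => ?_) (h1.const_mul _) ?_
  · rw [integral_const_mul, Function.update_self] at h2
    rw [ms, if_neg hc]
    linear_combination -h2
  · rw [← continuousWithinAt_Ioi_iff_Ici, continuousWithinAt_update_same]
    exact hL.mono_left (nhdsWithin_mono _ sdiff_subset)
  · have h3 := ((hasDerivAt_Fi (z := a / c + y * I) (by rw [← cast_div]; simpa using hy)).comp
      (y : ℂ) (((hasDerivAt_id (y : ℂ)).mul_const I).const_add (a / c : ℂ))).comp_ofReal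
    refine (h3.congr_deriv ?_).congr_of_eventuallyEq ?_
    · linear_combination (2 * π * f15 (a / c + y * I)) * I_sq
    · filter_upwards [eventually_ne_nhds (ne_of_gt hy)] with w hw
      simp [Function.update_of_ne hw]
  · refine (tendsto_Fi.comp (cast_div a c ▸ tendsto_vert _)).congr' ?_
    filter_upwards [eventually_ne_atTop 0] with y hy
    simp [Function.update_of_ne hy]

lemma ms_zero (a : ℤ) : ms a 0 = 0 := by simp [ms]

lemma ms_scale {g : ℤ} (hg : g ≠ 0) (a c : ℤ) : ms (a * g) (c * g) = ms a c := by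
  have hg' : (g : ℂ) ≠ 0 := by exact_mod_cast hg
  simp [ms, hg, mul_div_mul_right _ _ hg']

lemma tendsto_Fi_vert (a : ℤ) {c : ℤ} (hc : c ≠ 0) :
    Tendsto (fun y : ℝ => Fi (a / c + y * I)) (𝓝[>] 0) (𝓝 (ms a c)) := by
  obtain ⟨g, a, b, c, d, hg, rfl, rfl, hd⟩ := exists_SL (a := a) (Or.inr hc)
  have hg' : (g : ℂ) ≠ 0 := by exact_mod_cast hg.ne'
  replace hc := left_ne_zero_of_mul hc
  obtain ⟨L, hL⟩ := exists_lim_SL hd
  have h1 : Tendsto (fun y : ℝ => Fi (a / c + y * I)) (𝓝[>] 0) (𝓝 L) := by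
    refine (hL.comp (tendsto_pth hc d)).congr' ?_
    filter_upwards [self_mem_nhdsWithin] with y hy
    simp only [Function.comp, mob_pth hd hc (ne_of_gt hy)]
  rw [ms_scale hg.ne', tendsto_ms a hc h1]
  simpa [mul_div_mul_right _ _ hg'] using h1

/-- The modular symbol is the limit of the primitive at the cusp. -/
theorem tendsto_Fi_mob {a b c d : ℤ} (h : 0 < a * d - b * c) :
    Tendsto (fun z => Fi (mob a b c d z)) atI (𝓝 (ms a c)) := by
  rcases eq_or_ne c 0 with rfl | hc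
  · rw [ms_zero]
    exact tendsto_Fi.comp (tendsto_mob_upper (by simpa using h) b)
  obtain ⟨g, a, b', c, d', hg, rfl, rfl, hd⟩ := exists_SL (a := a) (Or.inr hc)
  replace hc := left_ne_zero_of_mul hc
  obtain ⟨L, hL⟩ := exists_lim_SL hd
  have h1 : Tendsto (fun y : ℝ => Fi (a / c + y * I)) (𝓝[>] 0) (𝓝 L) := by
    refine (hL.comp (tendsto_pth hc d')).congr' ?_
    filter_upwards [self_mem_nhdsWithin] with y hy
    simp only [Function.comp, mob_pth hd hc (ne_of_gt hy)]
  rw [ms_scale hg.ne', tendsto_ms a hc h1]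
  have h2 : 0 < g * (a * d - b * c) := by linarith
  refine (hL.comp (tendsto_mob_upper h2 (d' * b - b' * d))).congr' (ev_pos.mono fun z hz => ?_)
  simp only [Function.comp]
  rw [mob_mob (by simpa using h2.ne') _ _ _ _ hz]
  congr 2
  · ring
  · linear_combination b * hd
  · ring
  · linear_combination d * hd

/-- Linear relations between translates of the newform pass to modular symbols. -/
theorem ms_sum {ι : Type*} (s : Finset ι) (a b c d : ι → ℤ) (h : ∀ i, 0 < a i * d i - b i * c i)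
    (ε : ℂ) (H : ∀ z : ℂ, 0 < z.im → ∑ i ∈ s, sl (a i) (b i) (c i) (d i) f15 z = ε * f15 z)
    {x y : ℤ} (hxy : x ≠ 0 ∨ y ≠ 0) :
    ∑ i ∈ s, ms (a i * x + b i * y) (c i * x + d i * y) =
      ε * ms x y + ∑ i ∈ s, ms (a i) (c i) := by
  obtain ⟨L, hL⟩ := const_of_deriv
    (G := fun z => ∑ i ∈ s, Fi (mob (a i) (b i) (c i) (d i) z) - ε * Fi z) fun z hz => by
      have := (HasDerivAt.fun_sum (u := s) fun i _ => hasDerivAt_Fi_mob (h i) hz).sub
        ((hasDerivAt_Fi hz).const_mul ε)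
      convert! this using 1
      rw [← Finset.mul_sum, H z hz]
      ring
  have h1 : L = ∑ i ∈ s, ms (a i) (c i) := by
    have := (tendsto_finsetSum s fun i _ => tendsto_Fi_mob (h i)).sub (tendsto_Fi.const_mul ε)
    rw [mul_zero, sub_zero] at this
    exact tendsto_nhds_unique
      (tendsto_const_nhds.congr' (ev_pos.mono fun z hz => (hL z hz).symm)) this
  have h2 : 0 < x * x - -y * y := by
    rcases hxy with h' | h' <;> nlinarith [mul_self_pos.mpr h', mul_self_nonneg x, mul_self_nonneg y]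
  have h3 := (tendsto_finsetSum s fun i _ => tendsto_Fi_mob (a := a i * x + b i * y)
    (b := a i * -y + b i * x) (c := c i * x + d i * y) (d := c i * -y + d i * x)
    (by nlinarith [mul_pos (h i) h2])).sub ((tendsto_Fi_mob h2).const_mul ε)
  rw [← h1, ← sub_eq_iff_eq_add']
  refine tendsto_nhds_unique h3 (tendsto_const_nhds.congr' (ev_pos.mono fun z hz => ?_))
  simp only [← hL _ (im_mob_pos h2 hz), mob_mob h2.ne' _ _ _ _ hz]

theorem ms_mob {a b c d : ℤ} (h : 0 < a * d - b * c) (ε : ℂ)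
    (H : ∀ z : ℂ, 0 < z.im → sl a b c d f15 z = ε * f15 z) {x y : ℤ} (hxy : x ≠ 0 ∨ y ≠ 0) :
    ms (a * x + b * y) (c * x + d * y) = ε * ms x y + ms a c := by
  simpa using ms_sum (Finset.univ : Finset Unit) (fun _ => a) (fun _ => b) (fun _ => c)
    (fun _ => d) (fun _ => h) ε (by simpa using H) hxy

/-- Invariance of modular symbols under `Γ₀(15)`. -/
theorem ms_Gamma0 {a b c d : ℤ} (h : a * d - b * (15 * c) = 1) {x y : ℤ} (hxy : x ≠ 0 ∨ y ≠ 0) :
    ms (a * x + b * y) (15 * c * x + d * y) = ms x y + ms a (15 * c) := by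
  simpa using ms_mob (by omega) 1 (fun z hz => by simpa using f15_inv a b c d h z hz) hxy

theorem ms_AL3 {a b c d : ℤ} (h : 3 * a * d - 5 * b * c = 1) {x y : ℤ} (hxy : x ≠ 0 ∨ y ≠ 0) :
    ms (3 * a * x + b * y) (15 * c * x + 3 * d * y) = ms x y + ms a (5 * c) := by
  have := ms_mob (a := 3 * a) (b := b) (c := 15 * c) (d := 3 * d) (by linarith) 1
    (fun z hz => by simpa using f15_AL3 h hz) hxy
  rwa [one_mul, show ms (3 * a) (15 * c) = ms (a * 3) (5 * c * 3) by congr 1 <;> ring,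
    ms_scale (by norm_num)] at this

theorem ms_AL5 {a b c d : ℤ} (h : 5 * a * d - 3 * b * c = 1) {x y : ℤ} (hxy : x ≠ 0 ∨ y ≠ 0) :
    ms (5 * a * x + b * y) (15 * c * x + 5 * d * y) = -ms x y + ms a (3 * c) := by
  have := ms_mob (a := 5 * a) (b := b) (c := 15 * c) (d := 5 * d) (by linarith) (-1)
    (fun z hz => by simpa using f15_AL5 h hz) hxy
  rwa [neg_one_mul, show ms (5 * a) (15 * c) = ms (a * 5) (3 * c * 5) by congr 1 <;> ring,
    ms_scale (by norm_num)] at this

theorem ms_AL15 {a b c d : ℤ} (h : 15 * a * d - b * c = 1) {x y : ℤ} (hxy : x ≠ 0 ∨ y ≠ 0) :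
    ms (15 * a * x + b * y) (15 * c * x + 15 * d * y) = -ms x y + ms a c := by
  have := ms_mob (a := 15 * a) (b := b) (c := 15 * c) (d := 15 * d) (by linarith) (-1)
    (fun z hz => by simpa using f15_AL15 h hz) hxy
  rwa [neg_one_mul, show ms (15 * a) (15 * c) = ms (a * 15) (c * 15) by congr 1 <;> ring,
    ms_scale (by norm_num)] at this

theorem ms_add_mul (x y k : ℤ) : ms (x + k * y) y = ms x y := by
  rcases eq_or_ne y 0 with rfl | hy
  · simp [ms_zero]
  simpa [ms_zero] using ms_Gamma0 (a := 1) (b := k) (c := 0) (d := 1) (x := x) (by simp) (Or.inr hy)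

theorem ms_neg_neg (x y : ℤ) : ms (-x) (-y) = ms x y := by
  simpa using ms_scale (g := -1) (by norm_num) x y

lemma Tp_f15 (p : ℕ) [hp : Fact p.Prime] {z : ℂ} (hz : 0 < z.im) :
    Tp p f15 z = a15 p * f15 z := by
  refine (qe_f15.Tp (p := p)).eq_of_eq (F' := fun z => a15 p * f15 z) ?_ hz
  convert qe_f15.smul (a15 p) using 1
  ext n
  rcases Nat.eq_zero_or_pos n with rfl | hn
  · simp [F15]
  have := congr_arg (Int.cast : ℤ → ℂ) (hecke15.rel p hp.out n hn)
  rw [coeff_C_mul]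
  simpa [a15, coeff_map] using this

/-- The Hecke relation for modular symbols at a good prime. -/
theorem ms_hecke {p : ℕ} (hp : p.Prime) (h15 : ¬ p ∣ 15) (x y : ℤ) :
    ms (p * x) y + ∑ j ∈ Finset.range p, ms (x + j * y) (p * y) = a15 p * ms x y := by
  have : Fact p.Prime := ⟨hp⟩
  rcases eq_or_ne y 0 with rfl | hy
  · simp [ms_zero]
  have := ms_sum (Finset.univ : Finset (Option (ZMod p))) (fun i => i.elim p fun _ => 1)
    (fun i => i.elim 0 fun j => j.val) (fun _ => 0) (fun i => i.elim 1 fun _ => p)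
    (by rintro (_ | j) <;> simpa using hp.pos) (a15 p) (fun z hz => by
      rw [← Tp_f15 p hz, Tp]
      refine Finset.sum_congr rfl ?_
      rintro (_ | j) _ <;> simp [hT, h15]) (x := x) (Or.inr hy)
  simp only [ms_zero, Finset.sum_const_zero, add_zero, Fintype.sum_option, Option.elim, zero_mul,
    zero_add, one_mul] at this
  rw [← this]
  congr 1
  exact (Finset.sum_nbij' (fun j : ZMod p => j.val) (fun j : ℕ => (j : ZMod p)) (by
    simp [ZMod.val_lt]) (by simp) (by simp) (fun j hj => ZMod.val_cast_of_lt (by simpa using hj))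
    (by simp)).symm

theorem ms_hecke_two (x y : ℤ) : ms (2 * x) y + ms x (2 * y) + ms (x + y) (2 * y) = -ms x y := by
  simpa [Finset.sum_range_succ, a15_two, add_assoc] using ms_hecke Nat.prime_two (by norm_num) x y

lemma Fi_conj {z : ℂ} (hz : 0 < z.im) :
    Fi (-(starRingEnd ℂ) z) = (starRingEnd ℂ) (Fi z) := by
  have h1 := qe_Fi.hasSum (z := -(starRingEnd ℂ) z) (by simpa using hz)
  have h2 := Complex.hasSum_conj'.mpr (qe_Fi.hasSum hz)
  refine h1.unique ?_
  convert! h2 using 2 with n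
  simp [q1, ← Complex.exp_conj, map_ofNat]

/-- Complex conjugation acts on modular symbols by the reflection of the cusps. -/
theorem ms_conj (x y : ℤ) : ms (-x) y = (starRingEnd ℂ) (ms x y) := by
  rcases eq_or_ne y 0 with rfl | hy
  · simp [ms_zero]
  refine tendsto_ms _ hy (((continuous_conj.tendsto _).comp (tendsto_Fi_vert x hy)).congr' ?_)
  filter_upwards [self_mem_nhdsWithin] with t ht
  simp only [Function.comp]
  rw [← Fi_conj (by rw [← cast_div]; simpa using ht)]
  simp [neg_div, add_comm]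

open scoped ComplexOrder in
lemma eul_nonneg {t : ℝ} (ht : 0 < t) : 0 ≤ eul (q1 (t * I)) := by
  have h1 : q1 (t * I) = (Real.exp (-(2 * π * t)) : ℝ) := by
    rw [q1, ofReal_exp]
    congr 1
    push_cast
    linear_combination 2 * π * t * I_sq
  have h2 : Real.exp (-(2 * π * t)) ≤ 1 := Real.exp_le_one_iff.mpr (by
    have := Real.pi_pos
    nlinarith)
  have h3 := (ModularForm.multipliable_one_sub_pow (norm_q1_lt (z := t * I)
    (by simpa using ht))).hasProd
  refine ge_of_tendsto' h3 fun s => Finset.prod_nonneg fun n _ => ?_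
  rw [h1]
  exact_mod_cast sub_nonneg.mpr (pow_le_one₀ (Real.exp_pos _).le h2)

/-- The central value of the newform is positive. -/
theorem ms_zero_one_pos : 0 < (ms 0 1).re := by
  have h1 : IntegrableOn (fun y : ℝ => f15 (y * I)) (Ioi 0) := by
    simpa [MellinConvergent] using f15_mellinConvergent 0 one_ne_zero 1
  have h2 : ∀ y ∈ Ioi (0 : ℝ), 0 < (f15 (y * I)).re := fun y hy => by
    have hy' : (0 : ℝ) < y := hy
    have h3 : ∀ r : ℝ, 0 < r → 0 ≤ (eul (q1 (r * (y * I)))).re ∧ 0 = (eul (q1 (r * (y * I)))).im :=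
      fun r hr => by
        simpa [mul_assoc] using Complex.nonneg_iff.mp (eul_nonneg (mul_pos hr hy'))
    have h4 := f15_ne (z := y * I) (by simpa using hy')
    have h5 : q1 (y * I) = (Real.exp (-(2 * π * y)) : ℝ) := by
      rw [q1, ofReal_exp]
      congr 1
      push_cast
      linear_combination 2 * π * y * I_sq
    have e : ∀ w : ℂ, 0 = w.im → w = (w.re : ℂ) := fun w hw => by
      apply Complex.ext <;> simp [← hw]
    have k1 := h3 1 one_pos
    have k3 := h3 3 (by norm_num)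
    have k5 := h3 5 (by norm_num)
    have k15 := h3 15 (by norm_num)
    simp only [ofReal_one, one_mul, ofReal_ofNat] at k1 k3 k5 k15
    rw [f15_eq_q, e _ k1.2, e _ k3.2, e _ k5.2, e _ k15.2] at h4 ⊢
    generalize (eul (q1 (y * I))).re = x1, (eul (q1 (3 * (y * I)))).re = x3,
      (eul (q1 (5 * (y * I)))).re = x5, (eul (q1 (15 * (y * I)))).re = x15 at *
    rw [h5] at h4 ⊢
    norm_cast at h4 ⊢
    exact lt_of_le_of_ne (mul_nonneg (Real.exp_pos _).le
      (mul_nonneg (mul_nonneg (mul_nonneg k1.1 k3.1) k5.1) k15.1)) (Ne.symm h4)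
  have h6 : 0 < ∫ y in Ioi (0 : ℝ), (f15 (y * I)).re := by
    rw [setIntegral_pos_iff_support_of_nonneg_ae
      ((ae_restrict_mem measurableSet_Ioi).mono fun y hy => (h2 y hy).le) h1.re]
    rw [inter_eq_right.mpr fun y hy => Function.mem_support.mpr (h2 y hy).ne']
    simp
  have h7 := integral_re h1
  simp only [RCLike.re_to_complex] at h7
  have h8 : ms 0 1 = ((2 * π : ℝ) : ℂ) * ∫ y in Ioi (0 : ℝ), f15 (y * I) := by simp [ms]
  rw [h8, re_ofReal_mul, ← h7]
  positivity

end Pool.Agent.Lib.MP_696deb_nt
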