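import Pool.Agent.Lib.MP_696deb_nt.JFun

/-! Isogenies: integrality of the modular invariant and of the quotients of discriminants. -/

open PowerSeries Complex

namespace Pool.Agent.Lib.MP_696deb_nt

/-- A system of representatives of the matrices of determinant `m`. -/
structure IsReps (m : ℤ) {ι : Type*} (r : ι → MZ) : Prop where
  det : ∀ i, (r i).det = m
  surj : ∀ M : MZ, M.det = m → ∃ i, ∃ g : MZ, g.det = 1 ∧ M = g * r i
  inj : ∀ i j, ∀ g : MZ, g.det = 1 → r i = g * r j → i = j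

lemma IsReps.perm {m : ℤ} {ι : Type*} [Finite ι] {r : ι → MZ} (h : IsReps m r) {γ : MZ}
    (hγ : γ.det = 1) : ∃ σ : Equiv.Perm ι, ∀ i, ∃ g : MZ, g.det = 1 ∧ r i * γ = g * r (σ i) := by
  choose σ g h1 h2 using fun i => h.surj (r i * γ) (by rw [Matrix.det_mul, hγ, h.det, mul_one])
  have hσ : Function.Injective σ := fun i j e => by
    refine h.inj i j (g i * (g j).adjugate) (by rw [Matrix.det_mul, det_adjugate_two, h1, h1]; rfl) ?_
    calc r i = r i * γ * γ.adjugate := by rw [mul_assoc, Matrix.mul_adjugate, hγ, one_smul, mul_one]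
      _ = g i * ((g j).adjugate * (g j * r (σ j))) * γ.adjugate := by
        rw [h2, e, ← mul_assoc (g j).adjugate, Matrix.adjugate_mul, h1, one_smul, one_mul]
      _ = _ := by
        rw [← h2, mul_assoc, mul_assoc, mul_assoc, Matrix.mul_adjugate, hγ, one_smul, mul_one,
          mul_assoc]
  exact ⟨Equiv.ofBijective σ (Finite.injective_iff_bijective.mp hσ), fun i => ⟨g i, h1 i, h2 i⟩⟩

/-- Upper triangular matrices. -/
def ut (a b d : ℕ) : MZ := !![a, b; 0, d]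

lemma det_ut (a b d : ℕ) : (ut a b d).det = a * d := by simp [ut]

lemma exists_ut {M : MZ} (h : 0 < M.det) :
    ∃ a b d : ℕ, ∃ g : MZ, b < d ∧ g.det = 1 ∧ M = g * ut a b d := by
  rw [Matrix.det_fin_two] at h
  have h0 : 0 < Int.gcd (M 0 0) (M 1 0) := Int.gcd_pos_iff.mpr (by
    by_contra! h0
    rw [h0.1, h0.2] at h
    simp at h)
  obtain ⟨a, u, w, ha, hc, e1, e2⟩ := Int.exists_gcd_one' h0
  obtain ⟨s, t, hst⟩ := Int.isCoprime_iff_gcd_eq_one.mpr hc
  have h1 : 0 < u * M 1 1 - w * M 0 1 := by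
    have : (0 : ℤ) < a := by exact_mod_cast ha
    refine pos_of_mul_pos_left (b := (a : ℤ)) ?_ this.le
    rw [e1, e2] at h
    linarith
  lift u * M 1 1 - w * M 0 1 to ℕ using h1.le with d hd
  have h2 := Int.emod_nonneg (s * M 0 1 + t * M 1 1) h1.ne'
  have h3 := Int.emod_lt_of_pos (s * M 0 1 + t * M 1 1) h1
  have h4 := Int.emod_add_mul_ediv (s * M 0 1 + t * M 1 1) d
  generalize (s * M 0 1 + t * M 1 1) / d = q at h4
  lift (s * M 0 1 + t * M 1 1) % d to ℕ using h2 with b hb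
  refine ⟨a, b, d, !![u, u * q - t; w, w * q + s], by exact_mod_cast h3, ?_, ?_⟩
  · rw [Matrix.det_fin_two_of]; linear_combination hst
  · ext i j
    fin_cases i <;> fin_cases j <;> simp [ut, Matrix.mul_apply, Fin.sum_univ_two]
    · exact e1
    · linear_combination (-u) * h4 + t * hd - M 0 1 * hst
    · exact e2
    · linear_combination (-w) * h4 - s * hd - M 1 1 * hst

lemma ut_inj {a b d a' b' d' : ℕ} {g : MZ} (ha : 0 < a) (hb : b < d) (hb' : b' < d')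
    (hg : g.det = 1) (h : ut a b d = g * ut a' b' d') : a = a' ∧ b = b' ∧ d = d' := by
  have e1 := congrFun (congrFun h 0) 0
  have e2 := congrFun (congrFun h 0) 1
  have e3 := congrFun (congrFun h 1) 0
  have e4 := congrFun (congrFun h 1) 1
  simp [ut, Matrix.mul_apply, Fin.sum_univ_two] at e1 e2 e3 e4
  have ha' : a' ≠ 0 := by rintro rfl; simp at e1; omega
  replace e3 := e3.resolve_right ha'
  rw [Matrix.det_fin_two, e3, mul_zero, sub_zero] at hg
  have h1 : g 0 0 = 1 := by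
    rcases Int.eq_one_or_neg_one_of_mul_eq_one hg with h1 | h1
    · exact h1
    · rw [h1] at e1; omega
  rw [h1, one_mul] at hg e1 e2
  rw [e3, hg, zero_mul, zero_add, one_mul] at e4
  have h2 : g 0 1 = 0 := by
    by_contra h2
    rcases lt_or_gt_of_ne h2 with h3 | h3 <;> nlinarith
  rw [h2] at e2
  omega

/-- The index set of the representatives in Hermite normal form. -/
def RI (m : ℕ) : Type := {x : ℕ × ℕ × ℕ // x.1 * x.2.2 = m ∧ x.2.1 < x.2.2}

lemma finite_RI {m : ℕ} (hm : m ≠ 0) : Finite (RI m) := by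
  refine Set.Finite.to_subtype (((Set.finite_Iic m).prod ((Set.finite_Iic m).prod
    (Set.finite_Iic m))).subset ?_)
  rintro ⟨a, b, d⟩ ⟨h1, h2⟩
  have h3 : a ≤ m := Nat.le_of_dvd (Nat.pos_of_ne_zero hm) ⟨d, h1.symm⟩
  have h4 : d ≤ m := Nat.le_of_dvd (Nat.pos_of_ne_zero hm) ⟨a, by rw [← h1, mul_comm]⟩
  exact ⟨h3, h2.le.trans h4, h4⟩

/-- The representatives in Hermite normal form. -/
def rI {m : ℕ} (x : RI m) : MZ := ut x.1.1 x.1.2.1 x.1.2.2

lemma isReps_rI {m : ℕ} (hm : m ≠ 0) : IsReps m (rI (m := m)) where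
  det x := by rw [rI, det_ut]; exact_mod_cast x.2.1
  surj M hM := by
    obtain ⟨a, b, d, g, h1, h2, h3⟩ := exists_ut (M := M) (by omega)
    refine ⟨⟨(a, b, d), ?_, h1⟩, g, h2, h3⟩
    rw [h3, Matrix.det_mul, h2, det_ut, one_mul] at hM
    exact_mod_cast hM
  inj x y g hg h := by
    obtain ⟨h1, h2, h3⟩ := ut_inj (Nat.pos_of_ne_zero (left_ne_zero_of_mul (b := x.1.2.2)
      (by rw [x.2.1]; exact hm))) x.2.2 y.2.2 hg h
    exact Subtype.ext (Prod.ext h1 (Prod.ext h2 h3))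

/-- The representatives for a prime determinant. -/
def rP (p : ℕ) : Option (Fin p) → MZ
  | none => ut p 0 1
  | some k => ut 1 k p

lemma isReps_rP {p : ℕ} (hp : p.Prime) : IsReps p (rP p) where
  det := by rintro (_ | k) <;> simp [rP, det_ut]
  surj M hM := by
    obtain ⟨a, b, d, g, h1, h2, h3⟩ := exists_ut (M := M) (by have := hp.pos; omega)
    rw [h3, Matrix.det_mul, h2, det_ut, one_mul] at hM
    have h4 : a * d = p := by exact_mod_cast hM
    rcases (Nat.dvd_prime hp).mp ⟨d, h4.symm⟩ with rfl | rfl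
    · obtain rfl : d = p := by omega
      exact ⟨some ⟨b, h1⟩, g, h2, h3⟩
    · obtain rfl : d = 1 := Nat.eq_of_mul_eq_mul_left hp.pos (by omega)
      obtain rfl : b = 0 := by omega
      exact ⟨none, g, h2, h3⟩
  inj := by
    rintro (_ | k) (_ | l) g hg h
    · rfl
    · exact absurd (ut_inj hp.pos one_pos l.2 hg h).1 hp.ne_one
    · exact absurd (ut_inj one_pos k.2 one_pos hg h).1.symm hp.ne_one
    · rw [Fin.ext (ut_inj one_pos k.2 l.2 hg h).2.1]

/-- A family of functions permuted by the modular group. -/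
def PermF {ι α : Type*} (F : ι → ℂ → α) : Prop := ∀ g : MZ, g.det = 1 →
  ∃ σ : Equiv.Perm ι, ∀ z : ℂ, 0 < z.im → ∀ i, F i (act g z) = F (σ i) z

lemma IsReps.permF {m : ℤ} (hm : 0 < m) {ι : Type*} [Finite ι] {r : ι → MZ} (h : IsReps m r) :
    PermF fun i z => (phiJ (r i) z, jf (act (r i) z)) := fun γ hγ => by
  obtain ⟨σ, hσ⟩ := h.perm hγ
  refine ⟨σ, fun z hz i => ?_⟩
  obtain ⟨g, h1, h2⟩ := hσ i
  have h3 : 0 < (r (σ i)).det := (h.det _).symm ▸ hm
  have h4 := phi_mul (r i) (N := γ) (by omega) hz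
  rw [phi_det_one hγ hz, mul_one, h2, phi_mul _ h3 hz, phi_det_one h1 (act_pos h3 hz),
    one_mul] at h4
  simp only
  rw [← h4, ← act_mul _ (by omega) hz, h2, act_mul _ h3.ne' hz, jf_act h1 (act_pos h3 hz)]

lemma PermF.map {ι α β : Type*} {F : ι → ℂ → α} (h : PermF F) (f : α → β) :
    PermF fun i z => f (F i z) := fun g hg => by
  obtain ⟨σ, hσ⟩ := h g hg
  exact ⟨σ, fun z hz i => by simp only [hσ z hz]⟩

lemma PermF.inv1 {ι α : Type*} {F : ι → ℂ → α} (h : PermF F) (Φ : ℂ → (ι → α) → ℂ)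
    (hΦ : ∀ x a, ∀ σ : Equiv.Perm ι, Φ x (fun i => a (σ i)) = Φ x a) :
    Inv1 fun z => Φ (jf z) fun i => F i z := fun g hg z hz => by
  obtain ⟨σ, hσ⟩ := h g hg
  simp only [hσ z hz, jf_act hg hz]
  exact hΦ _ (fun i => F i z) σ

lemma act_ut {a b d : ℕ} (hd : d ≠ 0) (z : ℂ) :
    act (ut a b d) ((a * d : ℕ) * z) = (a * a : ℕ) * z + (((b : ℤ) / d : ℝ) : ℂ) := by
  have : (d : ℂ) ≠ 0 := by exact_mod_cast hd
  simp only [ut, act_of, mob]
  push_cast
  field_simp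
  ring

lemma phi_ut {a b d : ℕ} (hd : d ≠ 0) (z : ℂ) :
    phiJ (ut a b d) z = a ^ 12 * Dl (act (ut a b d) z) * (Dl z)⁻¹ := by
  have : (d : ℂ) ≠ 0 := by exact_mod_cast hd
  have h : den (ut a b d) z = d := by simp [den, ut]
  rw [phiJ, det_ut, h]
  push_cast
  field_simp

section valuation
variable {Γ : Type*} [LinearOrderedCommGroupWithZero Γ] (V : Valuation ℂ Γ)

lemma LZ.expand_mem {F : ℂ → ℂ} (h : LZ F) {a : ℕ} (ha : a ≠ 0) :
    (fun z => F (a * z)) ∈ LR V.integer := by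
  simpa using h.affine_mem V ha (c := 0) (by simp [q1])

lemma LZ.ut_mem {F : ℂ → ℂ} (h : LZ F) {a b d : ℕ} (ha : a ≠ 0) (hd : d ≠ 0) :
    (fun z => F (act (ut a b d) ((a * d : ℕ) * z))) ∈ LR V.integer := by
  simp only [act_ut hd]
  exact h.affine_mem V (mul_ne_zero ha ha) (val_eq_one_of_pow V hd (q1_div_pow_eq_one b hd))

lemma const_mem {c : ℂ} (hc : V c ≤ 1) : (fun _ => c) ∈ LR V.integer := LE.const hc

lemma phi_ut_mem {a b d : ℕ} (ha : a ≠ 0) (hd : d ≠ 0) :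
    (fun z => phiJ (ut a b d) ((a * d : ℕ) * z)) ∈ LR V.integer := by
  simp only [phi_ut hd]
  exact mul_mem (mul_mem (pow_mem (natCast_mem (LR V.integer) a) 12) (lz_Dl.ut_mem V ha hd))
    (lz_Dl_inv.expand_mem V (mul_ne_zero ha hd))

variable {V}

lemma LE.val_lt {F : ℂ → ℂ} {N : ℕ} (hN : N ≠ 0) (h : LE (V.ltAddSubgroup 1) fun z => F (N * z))
    (hF : Inv1 F) {τ : ℂ} (hτ : 0 < τ.im) (hj : V (jf τ) ≤ 1) : V (F τ) < 1 := by
  obtain ⟨P, h1, h2⟩ := (h.of_comp hN hF.periodic).exists_poly hF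
  rw [h2 τ hτ]
  exact val_eval_lt V h1 hj

lemma LE.val_sub_lt {F : ℂ → ℂ} {N : ℕ} (hN : N ≠ 0)
    (h : LE (V.ltAddSubgroup 1) fun z => F (N * z)) (hF : Inv1 F) {τ τ' : ℂ} (hτ : 0 < τ.im)
    (hτ' : 0 < τ'.im) (hj : V (jf τ) ≤ 1) (hj' : V (jf τ') ≤ 1) (hne : jf τ ≠ jf τ') :
    V (F τ - F τ') < V (jf τ - jf τ') := by
  obtain ⟨P, h1, h2⟩ := (h.of_comp hN hF.periodic).exists_poly hF
  rw [h2 τ hτ, h2 τ' hτ']
  exact val_eval_sub_lt V h1 hj hj' hne

lemma LE.val_sub_le {F : ℂ → ℂ} {N : ℕ} (hN : N ≠ 0)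
    (h : (fun z => F (N * z)) ∈ LR V.integer) (hF : Inv1 F) {τ τ' : ℂ} (hτ : 0 < τ.im)
    (hτ' : 0 < τ'.im) (hj : V (jf τ) ≤ 1) (hj' : V (jf τ') ≤ 1) :
    V (F τ - F τ') ≤ V (jf τ - jf τ') := by
  obtain ⟨P, h1, h2⟩ := (LE.of_comp hN hF.periodic h).exists_poly hF
  rw [h2 τ hτ, h2 τ' hτ']
  exact val_eval_sub_le V h1 hj hj'

lemma PermF.val_le {ι : Type*} [Finite ι] {F : ι → ℂ → ℂ} (hF : PermF F) {N : ℕ} (hN : N ≠ 0)
    (h : ∀ i, (fun z => F i (N * z)) ∈ LR V.integer) {τ : ℂ} (hτ : 0 < τ.im) (hj : V (jf τ) ≤ 1)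
    (i : ι) : V (F i τ) ≤ 1 := by
  have := Fintype.ofFinite ι
  by_contra! hx
  set x := F i τ with hxe
  have hx0 : x ≠ 0 := fun h0 => by simp [h0] at hx
  have h1 : V x⁻¹ < 1 := by rw [map_inv₀]; exact inv_lt_one_of_one_lt₀ hx
  have h2 : (∏ k, (1 - (⟨_, const_mem V h1.le⟩ : LR V.integer) * ⟨_, h k⟩)) - 1 ∈ LI V := by
    have h3 : Ideal.Quotient.mk (LI V) ⟨_, const_mem V h1.le⟩ = 0 :=
      Ideal.Quotient.eq_zero_iff_mem.mpr (LE.const h1)
    rw [← Ideal.Quotient.eq_zero_iff_mem]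
    simp only [map_sub, map_prod, map_mul, h3, zero_mul, map_one, sub_zero, Finset.prod_const_one,
      sub_self]
  have h4 := LE.val_lt (F := fun z => ∏ k, (1 - x⁻¹ * F k z) - 1) hN
    (LE.congr h2 fun z _ => by simp) (hF.inv1 (fun _ a => ∏ k, (1 - x⁻¹ * a k) - 1) fun _ a σ => by
      rw [Equiv.prod_comp σ fun k => 1 - x⁻¹ * a k]) hτ hj
  rw [Finset.prod_eq_zero (Finset.mem_univ i) (by rw [inv_mul_cancel₀ hx0, sub_self])] at h4
  simp at h4

theorem val_isog {M : MZ} (hM : 0 < M.det) {τ : ℂ} (hτ : 0 < τ.im) (hj : V (jf τ) ≤ 1) :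
    V (phiJ M τ) ≤ 1 ∧ V (jf (act M τ)) ≤ 1 := by
  lift M.det to ℕ using hM.le with m hm
  have hm0 : m ≠ 0 := by omega
  have := finite_RI hm0
  obtain ⟨x, g, h1, h2⟩ := (isReps_rI hm0).surj M hm.symm
  have h3 : 0 < (rI x).det := by rw [(isReps_rI hm0).det]; exact hM
  have h4 := (isReps_rI hm0).permF hM
  have h5 : ∀ x : RI m, x.1.1 ≠ 0 ∧ x.1.2.2 ≠ 0 := fun x =>
    mul_ne_zero_iff.mp (by rw [x.2.1]; exact hm0)
  rw [h2, phi_mul _ h3 hτ, phi_det_one h1 (act_pos h3 hτ), one_mul, act_mul _ h3.ne' hτ,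
    jf_act h1 (act_pos h3 hτ)]
  exact ⟨(h4.map Prod.fst).val_le hm0 (fun y => by
      have := phi_ut_mem V (b := y.1.2.1) (h5 y).1 (h5 y).2; rwa [y.2.1] at this) hτ hj x,
    (h4.map Prod.snd).val_le hm0 (fun y => by
      have := lz_jf.ut_mem V (b := y.1.2.1) (h5 y).1 (h5 y).2; rwa [y.2.1] at this) hτ hj x⟩

theorem val_phi_eq_one {M : MZ} (hM : 0 < M.det) {τ : ℂ} (hτ : 0 < τ.im) (hj : V (jf τ) ≤ 1)
    (h : V M.det = 1) : V (phiJ M τ) = 1 := by
  have h1 := val_isog hM hτ hj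
  have h2 := (val_isog (M := M.adjugate) (by rwa [det_adjugate_two]) (act_pos hM hτ) h1.2).1
  have h3 := congr_arg V (phi_adjugate_mul hM hτ)
  rw [map_mul, map_pow, h, one_pow] at h3
  exact le_antisymm h1.1 (h3 ▸ mul_le_of_le_one_left' h2)

variable (V) in
/-- Integral expansion of exact order `n` with unit leading coefficient. -/
def LU (n : ℕ) (F : ℂ → ℂ) : Prop :=
  ∃ B, QE (fun z => q1 z ^ n * F z) B ∧ Cf V.integer.toAddSubgroup B ∧ V (coeff 0 B) = 1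

lemma LU.mul {n m : ℕ} {F G : ℂ → ℂ} (h : LU V n F) (h' : LU V m G) :
    LU V (n + m) fun z => F z * G z := by
  obtain ⟨A, h1, h2, h3⟩ := h
  obtain ⟨B, h4, h5, h6⟩ := h'
  exact ⟨A * B, (h1.mul h4).congr fun z _ => by ring,
    h2.mul h5 fun _ hs _ ht => V.integer.mul_mem hs ht, by
      simp only [coeff_zero_eq_constantCoeff, map_mul] at h3 h6 ⊢; rw [h3, h6, one_mul]⟩

lemma LU.one : LU V 0 fun _ => 1 :=
  ⟨C 1, (QE.const 1).congr fun z _ => by simp, Cf.const V.integer.one_mem, by simp⟩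

lemma LU.prod {ι : Type*} (s : Finset ι) {F : ι → ℂ → ℂ} (h : ∀ i ∈ s, ∃ n, LU V n (F i)) :
    ∃ n, LU V n fun z => ∏ i ∈ s, F i z := by
  classical
  induction s using Finset.induction_on with
  | empty => exact ⟨0, by simpa using LU.one⟩
  | insert a s ha ih =>
    obtain ⟨n, hn⟩ := h a (by simp)
    obtain ⟨m, hm⟩ := ih fun i hi => h i (by simp [hi])
    exact ⟨_, by simpa only [Finset.prod_insert ha] using hn.mul hm⟩

lemma LU.pow {n : ℕ} {F : ℂ → ℂ} (h : LU V n F) (k : ℕ) : LU V (k * n) fun z => F z ^ k := by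
  induction k with
  | zero => simpa using LU.one
  | succ k ih => simpa only [Nat.succ_mul, pow_succ] using ih.mul h

lemma LU.sub {n m : ℕ} {F G : ℂ → ℂ} (h : LU V n F) (h' : LU V m G) (hne : n ≠ m) :
    ∃ k, LU V k fun z => F z - G z := by
  obtain ⟨A, h1, h2, h3⟩ := h
  obtain ⟨B, h4, h5, h6⟩ := h'
  rcases hne.lt_or_gt with h | h
  · obtain ⟨k, rfl⟩ := Nat.exists_eq_add_of_lt h
    exact ⟨n + k + 1, _, ((h1.pow_mul (k + 1)).sub h4).congr fun z _ => by ring,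
      (h2.X_pow_mul _).sub h5, by simpa [coeff_X_pow_mul'] using h6⟩
  · obtain ⟨k, rfl⟩ := Nat.exists_eq_add_of_lt h
    exact ⟨m + k + 1, _, (h1.sub (h4.pow_mul (k + 1))).congr fun z _ => by ring,
      h2.sub (h5.X_pow_mul _), by simpa [coeff_X_pow_mul'] using h3⟩

lemma lu_jf_affine {a : ℕ} (ha : a ≠ 0) {c : ℝ} (hc : V (q1 c) = 1) :
    LU V a fun z => jf (a * z + c) := by
  refine ⟨_, by simpa only [mul_one] using qe_affine qe_jf ha c,
    (Cf.const (S := V.integer.toAddSubgroup) ?_).mul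
    (Cf.expand (S := V.integer.toAddSubgroup) (fun k => ?_) a ha)
    fun _ hs _ ht => V.integer.mul_mem hs ht, ?_⟩
  · change V _ ≤ 1
    rw [map_inv₀, map_pow, hc, one_pow, inv_one]
  · change V _ ≤ 1
    rw [coeff_rescale, map_mul, map_pow, hc, one_pow, one_mul, coeff_map]
    exact val_int V _
  · rw [coeff_C_mul, coeff_expand, if_pos (dvd_zero _), Nat.zero_div, coeff_rescale, cc_toC, cc_Js]
    simp [hc]

variable (V) in
theorem exists_poly_fixed {m : ℕ} (hm : ¬ IsSquare m) : ∃ P : Polynomial ℂ, ∃ n,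
    (∀ k, V (P.coeff k) ≤ 1) ∧ P.natDegree ≤ n ∧ V (P.coeff n) = 1 ∧
      ∀ τ : ℂ, 0 < τ.im → ∀ M : MZ, M.det = m → jf (act M τ) = jf τ → P.eval (jf τ) = 0 := by
  have hm0 : m ≠ 0 := by rintro rfl; exact hm ⟨0, rfl⟩
  have := finite_RI hm0
  have := Fintype.ofFinite (RI m)
  have h4 := (isReps_rI hm0).permF (by omega)
  have h5 : ∀ x : RI m, x.1.1 ≠ 0 ∧ x.1.2.2 ≠ 0 := fun x =>
    mul_ne_zero_iff.mp (by rw [x.2.1]; exact hm0)
  have h6 := (h4.map Prod.snd).inv1 (fun x a => (∏ i, (x - a i)) ^ m) fun x a σ => by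
    rw [Equiv.prod_comp σ fun k => x - a k]
  obtain ⟨n, hn⟩ := LU.prod (V := V) Finset.univ
      (F := fun (x : RI m) z => jf (m * z) - jf (act (rI x) (m * z))) fun x _ => by
    have h1 := lu_jf_affine (V := V) hm0 (c := 0) (by simp [q1])
    have h2 := lu_jf_affine (mul_ne_zero (h5 x).1 (h5 x).1)
      (val_eq_one_of_pow V (h5 x).2 (q1_div_pow_eq_one x.1.2.1 (h5 x).2))
    simp only [← act_ut (h5 x).2, x.2.1] at h2
    simpa only [ofReal_zero, add_zero, rI] using h1.sub h2 fun e => hm ⟨_, e⟩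
  obtain ⟨B, b1, b2, b3⟩ := hn.pow m
  obtain ⟨A, a1, rfl⟩ := exists_qe_of_comp (F := fun z => (∏ i, (jf z - jf (act (rI i) z))) ^ m)
    (n := n) hm0 h6.periodic b1
  obtain ⟨P, p1, p2, p3, p4⟩ := exists_poly_jf n h6 a1 b2.of_expand
  refine ⟨P, n, p1, p2, ?_, fun τ hτ M hM e => ?_⟩
  · rwa [p3, ← coeff_expand_mul m hm0]
  · obtain ⟨x, g, h1, h2⟩ := (isReps_rI hm0).surj M hM
    have h3 : 0 < (rI x).det := by rw [(isReps_rI hm0).det]; omega
    rw [h2, act_mul _ h3.ne' hτ, jf_act h1 (act_pos h3 hτ)] at e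
    rw [← p4 τ hτ, Finset.prod_eq_zero (Finset.mem_univ x) (sub_eq_zero.mpr e.symm), zero_pow hm0]

theorem val_jf_le_one {m : ℕ} (hm : ¬ IsSquare m) {τ : ℂ} (hτ : 0 < τ.im) {M : MZ}
    (hM : M.det = m) (h : jf (act M τ) = jf τ) : V (jf τ) ≤ 1 := by
  obtain ⟨P, n, p1, p2, p3, p4⟩ := exists_poly_fixed V hm
  have h1 := p4 τ hτ M hM h
  by_contra! hx
  have h0 : V (jf τ) ^ n ≠ 0 := pow_ne_zero _ (zero_lt_one.trans hx).ne'
  rw [Polynomial.eval_eq_sum_range' (Nat.lt_succ_of_le p2), Finset.sum_range_succ,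
    add_eq_zero_iff_eq_neg] at h1
  have h2 := V.map_sum_lt (s := Finset.range n) (f := fun k => P.coeff k * jf τ ^ k) h0
    fun k hk => by
      rw [map_mul, map_pow]
      exact (mul_le_of_le_one_left' (p1 k)).trans_lt
        (pow_lt_pow_right₀ hx (Finset.mem_range.mp hk))
  rw [h1, V.map_neg, map_mul, p3, one_mul, map_pow] at h2
  exact h2.false

end valuation

theorem finite_jf_fixed {m : ℕ} (hm : ¬ IsSquare m) :
    {x | ∃ τ : ℂ, 0 < τ.im ∧ x = jf τ ∧ ∃ M : MZ, M.det = m ∧ act M τ = τ}.Finite := by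
  obtain ⟨P, n, -, -, p3, p4⟩ := exists_poly_fixed (⊤ : ValuationSubring ℂ).valuation hm
  have hP : P ≠ 0 := by rintro rfl; simp at p3
  refine (P.finite_setOfPred_isRoot hP).subset ?_
  rintro _ ⟨τ, hτ, rfl, M, hM, h⟩
  exact p4 τ hτ M hM (by rw [h])

end Pool.Agent.Lib.MP_696deb_nt
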