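import Pool.Agent.Lib.MP_696deb_nt.RankZero

set_option autoImplicit false

open Finset Matrix

namespace Pool.Agent.Lib.MP_696deb_nt

open Classical in
/-- Additive Legendre symbol. -/
noncomputable def aleg (p : ℕ) (a : ℤ) : ZMod 2 := if IsSquare (a : ZMod p) then 0 else 1

theorem aleg_eq_zero_iff {p : ℕ} {a : ℤ} : aleg p a = 0 ↔ IsSquare (a : ZMod p) := by
  unfold aleg; split_ifs with h <;> simp [h]

theorem aleg_eq_legendre {p : ℕ} [Fact p.Prime] {a : ℤ} (ha : ¬ (p : ℤ) ∣ a) :
    aleg p a = if legendreSym p a = 1 then 0 else 1 := by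
  have ha' : (a : ZMod p) ≠ 0 := by rwa [Ne, ZMod.intCast_zmod_eq_zero_iff_dvd]
  unfold aleg
  simp only [legendreSym.eq_one_iff p ha']
  congr

theorem aleg_one (p : ℕ) : aleg p 1 = 0 := aleg_eq_zero_iff.mpr (by simp)

theorem aleg_mul {p : ℕ} (hp : p.Prime) {a b : ℤ} (ha : ¬ (p : ℤ) ∣ a) (hb : ¬ (p : ℤ) ∣ b) :
    aleg p (a * b) = aleg p a + aleg p b := by
  have := Fact.mk hp
  have hab : ¬ (p : ℤ) ∣ a * b := fun h =>
    ((Nat.prime_iff_prime_int.mp hp).dvd_or_dvd h).elim ha hb
  have ha' : (a : ZMod p) ≠ 0 := by rwa [Ne, ZMod.intCast_zmod_eq_zero_iff_dvd]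
  have hb' : (b : ZMod p) ≠ 0 := by rwa [Ne, ZMod.intCast_zmod_eq_zero_iff_dvd]
  rw [aleg_eq_legendre ha, aleg_eq_legendre hb, aleg_eq_legendre hab, legendreSym.mul]
  rcases legendreSym.eq_one_or_neg_one p ha' with h1 | h1 <;>
  rcases legendreSym.eq_one_or_neg_one p hb' with h2 | h2 <;> simp [h1, h2] <;> decide

theorem aleg_prod {p : ℕ} (hp : p.Prime) {ι : Type*} (s : Finset ι) (f : ι → ℤ)
    (h : ∀ i ∈ s, ¬ (p : ℤ) ∣ f i) : aleg p (∏ i ∈ s, f i) = ∑ i ∈ s, aleg p (f i) := by
  classical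
  induction s using Finset.induction_on with
  | empty => simp [aleg_one]
  | insert a s ha ih =>
    rw [prod_insert ha, sum_insert ha, aleg_mul hp (h a (mem_insert_self _ _)),
      ih fun i hi => h i (mem_insert_of_mem hi)]
    intro hd
    obtain ⟨i, hi, hd'⟩ := (Prime.dvd_finsetProd_iff (Nat.prime_iff_prime_int.mp hp) _).mp hd
    exact h i (mem_insert_of_mem hi) hd'

/-- The prime discriminant attached to an odd prime. -/
def pstar (q : ℕ) : ℤ := if q % 4 = 1 then q else -q

theorem natAbs_pstar (q : ℕ) : (pstar q).natAbs = q := by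
  unfold pstar; split_ifs <;> simp

theorem pstar_emod {q : ℕ} (hq : q % 2 = 1) : pstar q % 4 = 1 := by
  unfold pstar; split_ifs <;> omega

theorem not_dvd_of_natAbs_eq {p q : ℕ} (hp : p.Prime) (hq : q.Prime) (hpq : p ≠ q) {a : ℤ}
    (ha : a.natAbs = q) : ¬ (p : ℤ) ∣ a := by
  rw [Int.natCast_dvd, ha, Nat.prime_dvd_prime_iff_eq hp hq]; exact hpq

theorem not_dvd_of_natAbs_eq' {p : ℕ} (hp : p.Prime) : ¬ (p : ℤ) ∣ -1 := by
  rw [Int.natCast_dvd]; simpa using hp.one_lt.ne'

/-- Quadratic reciprocity in additive form. -/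
theorem aleg_pstar {p q : ℕ} (hp : p.Prime) (hq : q.Prime) (hp2 : p ≠ 2) (hq2 : q ≠ 2)
    (hpq : p ≠ q) : aleg p (pstar q) = aleg q p := by
  have := Fact.mk hp
  have := Fact.mk hq
  rw [aleg_eq_legendre (not_dvd_of_natAbs_eq hp hq hpq (natAbs_pstar q)),
    aleg_eq_legendre (not_dvd_of_natAbs_eq hq hp hpq.symm (by simp))]
  congr 2
  have hp' := hp.eq_two_or_odd.resolve_left hp2
  have hq' := hq.eq_two_or_odd.resolve_left hq2
  unfold pstar
  split_ifs with h
  · exact (legendreSym.quadratic_reciprocity_one_mod_four h hp2)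
  · rw [legendreSym.at_neg hp2]
    by_cases h' : p % 4 = 1
    · rw [ZMod.χ₄_nat_one_mod_four h', one_mul]
      exact (legendreSym.quadratic_reciprocity_one_mod_four h' hq2).symm
    · rw [ZMod.χ₄_nat_three_mod_four (by omega),
        legendreSym.quadratic_reciprocity_three_mod_four (p := p) (q := q) (by omega) (by omega)]
      ring

section Matrices

variable (P : Finset ℕ) (f : ℕ → ℤ)

/-- The Redei type matrix of the signed primes `f q`, `q ∈ P`. -/
noncomputable def redei : Matrix P P (ZMod 2) := fun p q =>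
  if p = q then ∑ r ∈ univ.erase p, aleg p (f r) else aleg p (f q)

theorem redei_mulVec_one : redei P f *ᵥ 1 = 0 := by
  ext p
  simp only [mulVec, dotProduct, Pi.one_apply, mul_one, Pi.zero_apply]
  rw [← add_sum_erase _ _ (mem_univ p)]
  have : ∑ q ∈ univ.erase p, redei P f p q = ∑ r ∈ univ.erase p, aleg p (f r) :=
    sum_congr rfl fun q hq => by simp [redei, (ne_of_mem_erase hq).symm]
  rw [this]
  simp only [redei, if_true]
  exact CharTwo.add_self_eq_zero _

/-- Indicator vector. -/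
def ind (S : Finset P) : P → ZMod 2 := fun q => if q ∈ S then 1 else 0

variable {P f}

theorem redei_mulVec_ind_not_mem (hP : ∀ p ∈ P, p.Prime) (hf : ∀ q, (f q).natAbs = q)
    (S : Finset P) {p : P} (hp : p ∉ S) :
    (redei P f *ᵥ ind P S) p = aleg p (∏ q ∈ S, f q) := by
  rw [aleg_prod (hP p p.2) S _ fun q hq => not_dvd_of_natAbs_eq (hP p p.2) (hP q q.2)
    (fun h => hp (Subtype.ext h ▸ hq)) (hf q)]
  simp only [mulVec, dotProduct, ind, mul_ite, mul_one, mul_zero]
  rw [← sum_filter]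
  have : univ.filter (· ∈ S) = S := by ext; simp
  rw [this]
  refine sum_congr rfl fun q hq => ?_
  have : p ≠ q := fun h => hp (h ▸ hq)
  simp [redei, this]

theorem ind_compl (S : Finset P) : ind P Sᶜ = 1 + ind P S := by
  ext q
  by_cases h : q ∈ S <;> simp [ind, h]
  decide

theorem redei_mulVec_ind_mem (hP : ∀ p ∈ P, p.Prime) (hf : ∀ q, (f q).natAbs = q)
    (S : Finset P) {p : P} (hp : p ∈ S) :
    (redei P f *ᵥ ind P S) p = aleg p (∏ q ∈ Sᶜ, f q) := by
  rw [← redei_mulVec_ind_not_mem hP hf Sᶜ (by simpa), ind_compl, mulVec_add, redei_mulVec_one,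
    zero_add]

theorem exists_ind (x : P → ZMod 2) : ∃ S : Finset P, x = ind P S := by
  refine ⟨univ.filter (x · = 1), ?_⟩
  ext q
  simp only [ind, mem_filter, mem_univ, true_and]
  generalize x q = t
  revert t; decide

variable (P f) in
/-- Subset form of the Redei condition. -/
def CondS : Prop := ∀ S : Finset P, (∀ p : P, p ∉ S → IsSquare ((∏ q ∈ S, f q : ℤ) : ZMod p)) →
  (∀ p : P, p ∈ S → IsSquare ((∏ q ∈ Sᶜ, f q : ℤ) : ZMod p)) → S = ∅ ∨ S = univ

theorem condS_iff (hP : ∀ p ∈ P, p.Prime) (hf : ∀ q, (f q).natAbs = q) :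
    CondS P f ↔ ∀ x, redei P f *ᵥ x = 0 → x = 0 ∨ x = 1 := by
  constructor
  · intro h x hx
    obtain ⟨S, rfl⟩ := exists_ind x
    have key : S = ∅ ∨ S = univ := by
      refine h S (fun p hp => ?_) (fun p hp => ?_)
      · rw [← aleg_eq_zero_iff, ← redei_mulVec_ind_not_mem hP hf S hp, hx]; rfl
      · rw [← aleg_eq_zero_iff, ← redei_mulVec_ind_mem hP hf S hp, hx]; rfl
    rcases key with rfl | rfl
    · left; ext q; simp [ind]
    · right; ext q; simp [ind]
  · intro h S h1 h2
    have : redei P f *ᵥ ind P S = 0 := by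
      ext p
      by_cases hp : p ∈ S
      · rw [redei_mulVec_ind_mem hP hf S hp]; exact aleg_eq_zero_iff.mpr (h2 p hp)
      · rw [redei_mulVec_ind_not_mem hP hf S hp]; exact aleg_eq_zero_iff.mpr (h1 p hp)
    rcases h _ this with h' | h'
    · left
      ext q
      have := congrFun h' q
      by_cases hq : q ∈ S <;> simp_all [ind]
    · right
      ext q
      have := congrFun h' q
      by_cases hq : q ∈ S <;> simp_all [ind]

end Matrices

theorem zmod_two_cases : ∀ b : ZMod 2, b = 0 ∨ b = 1 := by decide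

theorem ker_transpose_small {ι : Type*} [Fintype ι] [DecidableEq ι] (M : Matrix ι ι (ZMod 2))
    (h1 : Mᵀ *ᵥ 1 = 0) (h : ∀ x, M *ᵥ x = 0 → x = 0 ∨ x = 1) :
    ∀ x, Mᵀ *ᵥ x = 0 → x = 0 ∨ x = 1 := by
  intro x hx
  have := Fact.mk Nat.prime_two
  rcases isEmpty_or_nonempty ι with hι | hι
  · left; exact Subsingleton.elim _ _
  have e1 := LinearMap.finrank_range_add_finrank_ker M.mulVecLin
  have e2 := LinearMap.finrank_range_add_finrank_ker Mᵀ.mulVecLin
  have e3 : Mᵀ.rank = M.rank := rank_transpose M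
  unfold Matrix.rank at e3
  have e4 : Module.finrank (ZMod 2) (LinearMap.ker M.mulVecLin) ≤ 1 := by
    have : LinearMap.ker M.mulVecLin ≤ Submodule.span (ZMod 2) {1} := by
      intro y hy
      rcases h y hy with rfl | rfl
      · exact Submodule.zero_mem _
      · exact Submodule.mem_span_singleton_self _
    exact (Submodule.finrank_mono this).trans (finrank_span_le_card ({1} : Set (ι → ZMod 2))
      |>.trans (by simp))
  have e5 : Module.finrank (ZMod 2) (LinearMap.ker Mᵀ.mulVecLin) ≤ 1 := by omega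
  obtain ⟨v, hv⟩ := finrank_le_one_iff.mp e5
  obtain ⟨a, ha⟩ := hv ⟨1, h1⟩
  obtain ⟨b, hb⟩ := hv ⟨x, hx⟩
  have ha' := congrArg Subtype.val ha
  have hb' := congrArg Subtype.val hb
  simp only [SetLike.val_smul] at ha' hb'
  have ha1 : a = 1 := by
    have : a ≠ 0 := by
      rintro rfl
      rw [zero_smul] at ha'
      exact zero_ne_one ha'
    exact (zmod_two_cases a).resolve_left this
  rw [ha1, one_smul] at ha'
  rw [← hb', ha']
  have : b = 0 ∨ b = 1 := zmod_two_cases b
  rcases this with rfl | rfl <;> simp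

section Link

variable {N : ℕ}

theorem prod_coe_primeFactors (hN : Squarefree N) :
    ∏ q : N.primeFactors, ((q : ℕ) : ℤ) = N := by
  rw [prod_coe_sort N.primeFactors (fun q => (q : ℤ)), ← Nat.cast_prod,
    Nat.prod_primeFactors_of_squarefree hN]

theorem prod_emod_four {ι : Type*} (s : Finset ι) (f : ι → ℤ) (h : ∀ i ∈ s, f i % 4 = 1) :
    (∏ i ∈ s, f i) % 4 = 1 := by
  classical
  induction s using Finset.induction_on with
  | empty => simp
  | insert a s ha ih =>
    rw [prod_insert ha, Int.mul_emod, h a (mem_insert_self _ _),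
      ih fun i hi => h i (mem_insert_of_mem hi)]
    norm_num

theorem odd_of_mem (h2 : N % 2 = 1) (q : N.primeFactors) : (q : ℕ) % 2 = 1 := by
  have hq := Nat.mem_primeFactors.mp q.2
  rcases hq.1.eq_two_or_odd with h | h
  · have := hq.2.1; rw [h] at this; omega
  · exact h

theorem eq_of_natAbs_eq_of_emod {a b : ℤ} (h : a.natAbs = b.natAbs) (ha : a % 4 = 1)
    (hb : b % 4 = 1) : a = b := by
  rcases Int.natAbs_eq_natAbs_iff.mp h with h | h <;> omega

theorem natAbs_prod_signed {f : ℕ → ℤ} (hf : ∀ q, (f q).natAbs = q) (S : Finset N.primeFactors) :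
    (∏ q ∈ S, f q).natAbs = ∏ q ∈ S, (q : ℕ) := by
  rw [← Int.natAbsHom_apply, map_prod]
  simp [hf]

theorem prod_pstar (hN : Squarefree N) (h4 : N % 4 = 3) :
    ∏ q : N.primeFactors, pstar q = -N := by
  refine eq_of_natAbs_eq_of_emod ?_
    (prod_emod_four _ _ fun q _ => pstar_emod (odd_of_mem (by omega) q)) (by omega)
  rw [natAbs_prod_signed natAbs_pstar, prod_coe_sort N.primeFactors (fun q => q),
    Nat.prod_primeFactors_of_squarefree hN]
  simp

/-- A divisor of a squarefree number is the product of the primes dividing it. -/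
theorem natAbs_eq_prod (hN : Squarefree N) {d : ℤ} (hd : d ∣ N) :
    d.natAbs = ∏ q ∈ univ.filter (fun q : N.primeFactors => ((q : ℕ) : ℤ) ∣ d), (q : ℕ) := by
  have hd' : d.natAbs ∣ N := by simpa using Int.natAbs_dvd_natAbs.mpr hd
  have hsq : Squarefree d.natAbs := hN.squarefree_of_dvd hd'
  conv_lhs => rw [← Nat.prod_primeFactors_of_squarefree hsq]
  symm
  refine prod_bij (fun q _ => (q : ℕ)) ?_ ?_ ?_ ?_
  · intro q hq
    simp only [mem_filter, mem_univ, true_and] at hq
    exact Nat.mem_primeFactors.mpr ⟨(Nat.mem_primeFactors.mp q.2).1, Int.natCast_dvd.mp hq,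
      hsq.ne_zero⟩
  · intro a _ b _ h; exact Subtype.ext h
  · intro b hb
    have hb' := Nat.mem_primeFactors.mp hb
    refine ⟨⟨b, Nat.mem_primeFactors.mpr ⟨hb'.1, hb'.2.1.trans hd', hN.ne_zero⟩⟩, ?_, rfl⟩
    simp only [mem_filter, mem_univ, true_and]
    exact Int.natCast_dvd.mpr hb'.2.1
  · intro a _; rfl

theorem dvd_prod_iff_mem {f : ℕ → ℤ} (hf : ∀ q, (f q).natAbs = q) (S : Finset N.primeFactors)
    {p : ℕ} (hp : p.Prime) (h : (p : ℤ) ∣ ∏ q ∈ S, f q) :
    ∃ hp' : p ∈ N.primeFactors, (⟨p, hp'⟩ : N.primeFactors) ∈ S := by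
  obtain ⟨q, hq, hd⟩ := (Prime.dvd_finsetProd_iff (Nat.prime_iff_prime_int.mp hp) _).mp h
  have : p = q := by
    by_contra hne
    exact not_dvd_of_natAbs_eq hp (Nat.mem_primeFactors.mp q.2).1 hne (hf q) hd
  subst this
  exact ⟨q.2, hq⟩

theorem eq_empty_of_prod_eq_one {f : ℕ → ℤ} (hf : ∀ q, (f q).natAbs = q)
    (S : Finset N.primeFactors) (h : ∏ q ∈ S, f q = 1) : S = ∅ := by
  by_contra hne
  obtain ⟨q, hq⟩ := nonempty_iff_ne_empty.mpr hne
  have h1 : f q ∣ 1 := h ▸ dvd_prod_of_mem _ hq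
  have h2 := Int.natAbs_dvd_natAbs.mpr h1
  rw [hf] at h2
  exact (Nat.mem_primeFactors.mp q.2).1.one_lt.ne' (Nat.dvd_one.mp h2)

/-- Generic link between a divisor condition and the subset condition. -/
theorem condS_iff_div (hN : Squarefree N) {f : ℕ → ℤ} (hf : ∀ q, (f q).natAbs = q) {m : ℤ}
    (hm : ∏ q : N.primeFactors, f q = m) (good : ℤ → Prop)
    (hg1 : ∀ S : Finset N.primeFactors, good (∏ q ∈ S, f q))
    (hg2 : ∀ a b, good a → good b → a.natAbs = b.natAbs → a = b) :
    CondS N.primeFactors f ↔ ∀ d d' : ℤ, d * d' = m → good d →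
      (∀ p : ℕ, p.Prime → (p : ℤ) ∣ d' → IsSquare (d : ZMod p)) →
      (∀ p : ℕ, p.Prime → (p : ℤ) ∣ d → IsSquare (d' : ZMod p)) → d = 1 ∨ d' = 1 := by
  have hmN : m.natAbs = N := by
    rw [← hm, natAbs_prod_signed hf, prod_coe_sort N.primeFactors (fun q => q),
      Nat.prod_primeFactors_of_squarefree hN]
  constructor
  · intro h d d' hdd hd h1 h2
    have hdN : d ∣ N := by
      rw [← Int.natAbs_dvd_natAbs, Int.natAbs_natCast, ← hmN, ← hdd, Int.natAbs_mul]
      exact Dvd.intro _ rfl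
    set S := univ.filter (fun q : N.primeFactors => ((q : ℕ) : ℤ) ∣ d) with hS
    have e1 : d = ∏ q ∈ S, f q :=
      hg2 _ _ hd (hg1 S) (by rw [natAbs_prod_signed hf, natAbs_eq_prod hN hdN])
    have hd0 : d ≠ 0 := by
      rintro rfl
      exact hN.ne_zero (by simpa using hdN)
    have e2 : d' = ∏ q ∈ Sᶜ, f q := by
      apply mul_left_cancel₀ hd0
      rw [hdd, ← hm]
      conv_rhs => rw [e1]
      exact (prod_mul_prod_compl S _).symm
    have key : S = ∅ ∨ S = univ := by
      refine h S (fun p hp => ?_) (fun p hp => ?_)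
      · rw [← e1]
        refine h1 p (Nat.mem_primeFactors.mp p.2).1 ?_
        rw [e2, ← Int.natAbs_dvd_natAbs, Int.natAbs_natCast, ← hf p]
        exact Int.natAbs_dvd_natAbs.mpr (dvd_prod_of_mem _ (by simpa using hp))
      · rw [← e2]
        exact h2 p (Nat.mem_primeFactors.mp p.2).1 (by simpa [hS] using hp)
    rcases key with h' | h'
    · left; rw [e1, h', prod_empty]
    · right; rw [e2, h', compl_univ, prod_empty]
  · intro h S h1 h2
    have key : (∏ q ∈ S, f q) = 1 ∨ (∏ q ∈ Sᶜ, f q) = 1 := by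
      refine h (∏ q ∈ S, f q) (∏ q ∈ Sᶜ, f q) (by rw [prod_mul_prod_compl, hm]) (hg1 S)
        (fun p hp hd => ?_) (fun p hp hd => ?_)
      · obtain ⟨hp', hmem⟩ := dvd_prod_iff_mem hf _ hp hd
        exact h1 ⟨p, hp'⟩ (by simpa using hmem)
      · obtain ⟨hp', hmem⟩ := dvd_prod_iff_mem hf _ hp hd
        exact h2 ⟨p, hp'⟩ hmem
    rcases key with h' | h'
    · left; exact eq_empty_of_prod_eq_one hf S h'
    · right; simpa using eq_empty_of_prod_eq_one hf Sᶜ h'

theorem condA_iff (hN : Squarefree N) (h4 : N % 4 = 3) :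
    CondA N ↔ CondS N.primeFactors pstar :=
  (condS_iff_div hN natAbs_pstar (prod_pstar hN h4) (fun d => d % 4 = 1)
    (fun _ => prod_emod_four _ _ fun q _ => pstar_emod (odd_of_mem (by omega) q))
    (fun _ _ ha hb h => eq_of_natAbs_eq_of_emod h ha hb)).symm

theorem condB_iff (hN : Squarefree N) :
    CondB N ↔ CondS N.primeFactors (fun q => (q : ℤ)) :=
  (condS_iff_div hN (f := fun q => (q : ℤ)) (fun q => by simp) (prod_coe_primeFactors hN)
    (fun d => 0 < d)
    (fun _ => prod_pos fun q _ => by exact_mod_cast (Nat.mem_primeFactors.mp q.2).1.pos)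
    (fun a b ha hb h => by omega)).symm

/-- The two Redei matrices are transposes of each other. -/
theorem redei_transpose (hN : Squarefree N) (h4 : N % 4 = 3) :
    (redei N.primeFactors (fun q => (q : ℤ)))ᵀ = redei N.primeFactors pstar := by
  ext p q
  have hp := (Nat.mem_primeFactors.mp p.2).1
  have hq := (Nat.mem_primeFactors.mp q.2).1
  have hp2 := odd_of_mem (N := N) (by omega) p
  have hq2 := odd_of_mem (N := N) (by omega) q
  by_cases hpq : p = q
  · subst hpq
    simp only [transpose_apply, redei, if_true]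
    have nd : ∀ g : ℕ → ℤ, (∀ q, (g q).natAbs = q) → ∀ r ∈ univ.erase p, ¬ ((p : ℕ) : ℤ) ∣ g r :=
      fun g hg r hr => not_dvd_of_natAbs_eq hp (Nat.mem_primeFactors.mp r.2).1
        (fun h => (ne_of_mem_erase hr) (Subtype.ext h.symm)) (hg r)
    rw [← aleg_prod hp _ _ (nd (fun q => (q : ℤ)) (fun q => by simp)),
      ← aleg_prod hp _ _ (nd pstar natAbs_pstar)]
    have e1 := mul_prod_erase univ (fun q : N.primeFactors => ((q : ℕ) : ℤ)) (mem_univ p)
    have e2 := mul_prod_erase univ (fun q : N.primeFactors => pstar q) (mem_univ p)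
    rw [prod_coe_primeFactors hN] at e1
    rw [prod_pstar hN h4] at e2
    have hp0 : ((p : ℕ) : ℤ) ≠ 0 := by exact_mod_cast hp.ne_zero
    have hnd : ¬ ((p : ℕ) : ℤ) ∣ ∏ r ∈ univ.erase p, ((r : ℕ) : ℤ) := by
      intro hd
      obtain ⟨r, hr, hd'⟩ := (Prime.dvd_finsetProd_iff (Nat.prime_iff_prime_int.mp hp) _).mp hd
      exact nd (fun q => (q : ℤ)) (fun q => by simp) r hr hd'
    unfold pstar at e2 ⊢
    split_ifs at e2 with h1
    · have : ∏ r ∈ univ.erase p, (if (r : ℕ) % 4 = 1 then ((r : ℕ) : ℤ) else -((r : ℕ) : ℤ)) =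
          -1 * ∏ r ∈ univ.erase p, ((r : ℕ) : ℤ) := by
        apply mul_left_cancel₀ hp0
        rw [e2, ← e1]; ring
      rw [this, aleg_mul hp (not_dvd_of_natAbs_eq' hp) hnd]
      have := Fact.mk hp
      have : aleg p (-1) = 0 := by
        rw [aleg_eq_zero_iff]; push_cast
        exact ZMod.exists_sq_eq_neg_one_iff.mpr (by omega)
      rw [this, zero_add]
    · have : ∏ r ∈ univ.erase p, (if (r : ℕ) % 4 = 1 then ((r : ℕ) : ℤ) else -((r : ℕ) : ℤ)) =
          ∏ r ∈ univ.erase p, ((r : ℕ) : ℤ) := by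
        apply mul_left_cancel₀ hp0
        rw [e1]; linear_combination -e2
      rw [this]
  · have hpq' : q ≠ p := fun h => hpq h.symm
    simp only [transpose_apply, redei, hpq, hpq', if_false]
    exact (aleg_pstar hp hq (by omega) (by omega) (fun h => hpq (Subtype.ext h))).symm

theorem condA_iff_condB (hN : Squarefree N) (h4 : N % 4 = 3) : CondA N ↔ CondB N := by
  have hP : ∀ p ∈ N.primeFactors, p.Prime := fun p hp => (Nat.mem_primeFactors.mp hp).1
  rw [condA_iff hN h4, condB_iff hN, condS_iff hP natAbs_pstar,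
    condS_iff hP (f := fun q => (q : ℤ)) (fun q => by simp)]
  have ht := redei_transpose hN h4
  constructor
  · intro h
    have := ker_transpose_small (redei N.primeFactors pstar)
      (by rw [← ht, transpose_transpose]; exact redei_mulVec_one _ _) h
    rwa [← ht, transpose_transpose] at this
  · intro h
    have := ker_transpose_small _ (by rw [ht]; exact redei_mulVec_one _ _) h
    rwa [ht] at this

/-- Rank zero from the Redei condition. -/
theorem finite_twist15_of_condB (hN : Squarefree N) (h4 : N % 4 = 3) (h3 : N % 3 = 2)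
    (h5 : N % 5 = 2 ∨ N % 5 = 3) (hB : CondB N) :
    Finite (twist15 (-(N : ℤ))).toAffine.Point :=
  finite_twist15 (Int.squarefree_natCast.mpr hN) (by omega) (by omega) (by omega) (by omega)
    ((condA_iff_condB hN h4).mpr hB) hB

end Link

end Pool.Agent.Lib.MP_696deb_nt
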