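import Pool.Agent.Lib.MP_696deb_nt.IndIso
import Pool.Agent.Lib.MP_696deb_nt.CntDefs

set_option autoImplicit false

open Finset Matrix NumberTheorySymbols

namespace Pool.Agent.Lib.MP_696deb_nt.Ind

open Tern

/-- The form of level fifteen attached to a vector. -/
def frm (x : V3) : Fm := (15 * x 0, x 1, x 2)

theorem exists_frm {Q : Fm} (h : 15 ∣ Q.1) : ∃ x, frm x = Q := by
  obtain ⟨a, ha⟩ := h
  exact ⟨![a, Q.2.1, Q.2.2], Prod.ext ha.symm rfl⟩

theorem bil_H0 (x y : V3) : bil H0 x y = -fbil (frm x) (frm y) := by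
  rw [H0, bil_form]
  simp only [fbil, frm]
  ring

theorem fbil_self (Q : Fm) : fbil Q Q = fdisc Q := by
  simp only [fbil, fdisc]
  ring

theorem mulVec_three (g : M3) (x : V3) (i : Fin 3) :
    (g *ᵥ x) i = g i 0 * x 0 + g i 1 * x 1 + g i 2 * x 2 := by
  simp [mulVec, dotProduct, Fin.sum_univ_three]

/-- The automorphism attached to a matrix of level fifteen. -/
def rhoG (a b c d : ℤ) (h : a * d - b * (15 * c) = 1) : SL3 :=
  ⟨!![a ^ 2, a * c, 15 * c ^ 2; 30 * a * b, a * d + 15 * b * c, 30 * c * d;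
    15 * b ^ 2, b * d, d ^ 2], by
    simp [det_fin_three]
    linear_combination ((a * d - b * (15 * c)) ^ 2 + (a * d - b * (15 * c)) + 1) * h⟩

theorem rhoG_H0 {a b c d : ℤ} (h : a * d - b * (15 * c) = 1) :
    (rhoG a b c d h).1 * H0 * (rhoG a b c d h).1ᵀ = H0 := by
  have h2 : (a * d - b * (15 * c)) ^ 2 = 1 := by rw [h]; norm_num
  ext i j
  fin_cases i <;> fin_cases j <;> simp [rhoG, H0, form, mul_apply, Fin.sum_univ_three] <;>
    linarith

theorem frm_rhoG {a b c d : ℤ} (h : a * d - b * (15 * c) = 1) (x : V3) :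
    frm ((rhoG a b c d h).1 *ᵥ x) = fmap (frm x) a b (15 * c) d := by
  simp only [frm, fmap, fval, mulVec_three]
  refine Prod.ext ?_ (Prod.ext ?_ ?_) <;> simp [rhoG] <;> ring

theorem exists_sign {x : V3} (h : x 0 ≠ 0) :
    ∃ g : SL3, g.1 * H0 * g.1ᵀ = H0 ∧ 0 < (g.1 *ᵥ x) 0 ∧ (g.1 *ᵥ x) 1 = x 1 := by
  rcases lt_or_gt_of_ne h with h | h
  · exact ⟨⟨!![-1, 0, 0; 0, 1, 0; 0, 0, -1], by decide⟩, by decide,
      by simpa [mulVec_three] using h, by simp [mulVec_three]⟩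
  · exact ⟨1, by simp, by simpa using h, by simp⟩

theorem exists_orient {x : V3} {ρ : ℤ} (h : 60 ∣ x 1 ^ 2 - ρ ^ 2) :
    ∃ g : SL3, g.1 * H0 * g.1ᵀ = H0 ∧ 30 ∣ (g.1 *ᵥ x) 1 - ρ := by
  have e : x 1 ^ 2 - ρ ^ 2 = (x 1 - ρ) * (x 1 + ρ) := by ring
  rw [e] at h
  have h2 := Int.prime_two.dvd_or_dvd ((by norm_num : (2 : ℤ) ∣ 60).trans h)
  have h3 := Int.prime_three.dvd_or_dvd ((by norm_num : (3 : ℤ) ∣ 60).trans h)
  have h5 := (Nat.prime_iff_prime_int.1 Nat.prime_five).dvd_or_dvd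
    ((by norm_num : ((5 : ℕ) : ℤ) ∣ 60).trans h)
  push_cast at h5
  rcases h3 with h3 | h3 <;> rcases h5 with h5 | h5
  · exact ⟨1, by simp, by simp; omega⟩
  · exact ⟨⟨!![5, 1, 3; -60, -11, -30; 12, 2, 5], by decide⟩, by decide,
      by simp [mulVec_three]; omega⟩
  · exact ⟨⟨!![12, 2, 5; 60, 11, 30; 5, 1, 3], by decide⟩, by decide,
      by simp [mulVec_three]; omega⟩
  · exact ⟨⟨!![0, 0, 1; 0, -1, 0; 1, 0, 0], by decide⟩, by decide,
      by simp [mulVec_three]; omega⟩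

theorem eq_sq_of {u v w : ℤ} (hc : IsCoprime u v) (h : u * v = w ^ 2) (h0 : 0 ≤ u) :
    ∃ a, u = a ^ 2 := by
  obtain ⟨a, ha | ha⟩ := Int.sq_of_isCoprime hc h
  · exact ⟨a, ha⟩
  · exact ⟨0, by nlinarith [sq_nonneg a]⟩

/-- Automorphisms that keep the sign and the orientation come from `Γ₀(15)`. -/
theorem stab {g : SL3} (hg : g.1 * H0 * g.1ᵀ = H0) {x : V3} (hx : fdisc (frm x) < 0)
    (h0 : 0 < x 0) (h1 : 0 < (g.1 *ᵥ x) 0) (h2 : 30 ∣ (g.1 *ᵥ x) 1 - x 1)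
    (h3 : IsCoprime (15 : ℤ) (x 1)) : ∃ a b c d : ℤ, a * d - b * (15 * c) = 1 ∧
      ∀ y, frm (g.1 *ᵥ y) = fmap (frm y) a b (15 * c) d := by
  obtain ⟨g, hd⟩ := g
  simp only at hg h1 h2 ⊢
  have ha : H0 * gᵀ = g.adjugate * H0 := by
    conv_rhs => rw [← hg, ← Matrix.mul_assoc, ← Matrix.mul_assoc, adjugate_mul, hd, one_smul,
      Matrix.one_mul]
  have a00 := congrFun (congrFun ha 0) 0
  have a01 := congrFun (congrFun ha 0) 1
  have a11 := congrFun (congrFun ha 1) 1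
  have a21 := congrFun (congrFun ha 2) 1
  have a22 := congrFun (congrFun ha 2) 2
  have r00 := congrFun (congrFun hg 0) 0
  have r02 := congrFun (congrFun hg 0) 2
  have r22 := congrFun (congrFun hg 2) 2
  simp [H0, form, mul_apply, Fin.sum_univ_three, adjugate_fin_three] at a00 a01 a11 a21 a22 r00 r02
  simp [H0, form, mul_apply, Fin.sum_univ_three] at r22
  rw [mulVec_three] at h1 h2
  simp only [fdisc, frm] at hx
  have e10 : g 1 0 = 30 * (g 0 0 * g 2 1 - g 0 1 * g 2 0) := by linarith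
  have e12 : g 1 2 = 30 * (g 0 1 * g 2 2 - g 0 2 * g 2 1) := by linarith
  obtain ⟨k, hk⟩ : (15 : ℤ) ∣ g 1 1 - 1 := by
    obtain ⟨k, hk⟩ := h2
    refine h3.dvd_of_dvd_mul_right ⟨2 * k - 2 * (g 0 0 * g 2 1 - g 0 1 * g 2 0) * x 0 -
      2 * (g 0 1 * g 2 2 - g 0 2 * g 2 1) * x 2, ?_⟩
    linear_combination hk - x 0 * e10 - x 2 * e12
  obtain ⟨c2, hc2⟩ : (15 : ℤ) ∣ g 0 2 := by
    have : 2 * g 0 2 = 15 * (2 * g 0 1 * (g 0 1 * g 2 2 - g 0 2 * g 2 1) - k * g 0 2) := by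
      linear_combination -a00 + g 0 1 * e12 - g 0 2 * hk
    omega
  obtain ⟨b2, hb2⟩ : (15 : ℤ) ∣ g 2 0 := by
    have : 2 * g 2 0 = 15 * (2 * g 2 1 * (g 0 0 * g 2 1 - g 0 1 * g 2 0) - k * g 2 0) := by
      linear_combination -a22 + g 2 1 * e10 - g 2 0 * hk
    omega
  rw [hc2] at r00 r02 h1
  rw [hb2] at r02 r22
  have s0 : g 0 0 * c2 = g 0 1 ^ 2 := by linarith
  have s2 : b2 * g 2 2 = g 2 1 ^ 2 := by linarith
  have s1 : g 0 0 * g 2 2 + 225 * b2 * c2 - 30 * g 0 1 * g 2 1 = 1 := by linarith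
  have hc : IsCoprime (g 0 0) c2 :=
    ⟨g 2 2 * (2 - (g 0 0 * g 2 2 + 225 * b2 * c2)) + 900 * c2 * g 2 1 ^ 2,
      225 * b2 * (2 - (g 0 0 * g 2 2 + 225 * b2 * c2)), by
      linear_combination 900 * g 2 1 ^ 2 * s0 +
        (1 - (g 0 0 * g 2 2 + 225 * b2 * c2) - 30 * g 0 1 * g 2 1) * s1⟩
  have hpos : 0 ≤ g 0 0 ∧ 0 ≤ c2 := by
    have h4 : 0 ≤ g 0 0 * c2 := s0 ▸ sq_nonneg _
    refine (mul_nonneg_iff.1 h4).resolve_right fun h5 => ?_
    have h6 : 0 < x 2 := by nlinarith only [hx, h0, sq_nonneg (x 1)]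
    have h7 : (g 0 1 * x 1) ^ 2 ≤ (-(g 0 0 * x 0 + 15 * c2 * x 2)) ^ 2 := by
      rw [mul_pow, ← s0]
      nlinarith only [mul_le_mul_of_nonneg_left (sub_neg.1 hx).le h4,
        sq_nonneg (g 0 0 * x 0 - 15 * c2 * x 2)]
    have h8 := abs_le_of_sq_le_sq h7 (by nlinarith only [h5.1, h5.2, h0, h6])
    linarith [le_abs_self (g 0 1 * x 1)]
  obtain ⟨a, ha⟩ := eq_sq_of hc s0 hpos.1
  obtain ⟨c, hc', hac⟩ : ∃ c, c2 = c ^ 2 ∧ g 0 1 = a * c := by
    obtain ⟨c, hc'⟩ := eq_sq_of hc.symm (by rw [mul_comm, s0]) hpos.2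
    rcases sq_eq_sq_iff_eq_or_eq_neg.1 (show g 0 1 ^ 2 = (a * c) ^ 2 by
      rw [← s0, ha, hc']; ring) with h | h
    · exact ⟨c, hc', h⟩
    · exact ⟨-c, by rw [hc']; ring, by rw [h]; ring⟩
  rw [ha, hc', hac] at s1
  obtain ⟨d, hd'⟩ : ∃ d, d = a * g 2 2 - 15 * c * g 2 1 := ⟨_, rfl⟩
  obtain ⟨b, hb'⟩ : ∃ b, b = a * g 2 1 - 15 * c * b2 := ⟨_, rfl⟩
  have h : a * d - b * (15 * c) = 1 := by rw [hd', hb']; linear_combination s1
  have e22 : g 2 2 = d ^ 2 := by rw [hd']; linear_combination -g 2 2 * s1 + 225 * c ^ 2 * s2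
  have e21 : g 2 1 = b * d := by
    rw [hd', hb']; linear_combination -g 2 1 * s1 + 15 * a * c * s2
  have e20 : b2 = b ^ 2 := by rw [hb']; linear_combination -b2 * s1 + a ^ 2 * s2
  refine ⟨a, b, c, d, h, fun y => ?_⟩
  have f10 : g 1 0 = 30 * a * b := by
    rw [e10, ha, hac, hb2, e21, e20]; linear_combination 30 * a * b * h
  have f12 : g 1 2 = 30 * c * d := by
    rw [e12, hac, hc2, hc', e21, e22]; linear_combination 30 * c * d * h
  have f11 : g 1 1 = a * d + 15 * b * c := by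
    have : g 1 1 = g 0 0 * g 2 2 - g 0 2 * g 2 0 := by linarith
    rw [this, ha, hc2, hc', hb2, e22, e20]; linear_combination (a * d + 15 * b * c) * h
  simp only [frm, fmap, fval, mulVec_three, ha, hac, hc2, hc', hb2, e22, e21, e20, f10, f11, f12]
  refine Prod.ext ?_ (Prod.ext ?_ ?_) <;> simp only <;> ring

/-- There are no elliptic elements in `Γ₀(15)`. -/
theorem free_neg {Q : Fm} (hD : fdisc Q < 0) {a b c d : ℤ} (h : a * d - b * (15 * c) = 1)
    (e : fmap Q a b (15 * c) d = Q) (R : Fm) : fmap R a b (15 * c) d = R := by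
  obtain ⟨α, β, γ⟩ := Q
  simp only [fmap, fval, fdisc, Prod.mk.injEq] at e hD
  obtain ⟨e1, e2, e3⟩ := e
  have hα : α ≠ 0 := by
    rintro rfl
    nlinarith only [hD, sq_nonneg β]
  have u1 : α * (a - d) + β * (15 * c) = 0 := by
    linarith [show 2 * α * a + β * (15 * c) = 2 * α * d - β * (15 * c) by
      linear_combination 2 * d * e1 - 15 * c * e2 - (2 * α * a + β * (15 * c)) * h]
  have u2 : α * b + γ * (15 * c) = 0 := by
    linarith [show β * a + 2 * γ * (15 * c) = β * a - 2 * α * b by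
      linear_combination a * e2 - 2 * b * e1 - (β * a + 2 * γ * (15 * c)) * h]
  have u3 : α ^ 2 * ((a + d) ^ 2 - 4) = (15 * c) ^ 2 * (β ^ 2 - 4 * α * γ) := by
    linear_combination 4 * α ^ 2 * h + (α * (a - d) - β * (15 * c)) * u1 + 4 * α * (15 * c) * u2
  have hc : c = 0 := by
    by_contra hc
    have h1 : (15 * c) ^ 2 * (β ^ 2 - 4 * α * γ) < 0 := mul_neg_of_pos_of_neg (by positivity) hD
    have h2 : (a + d) ^ 2 < 4 := by nlinarith only [u3, h1, sq_nonneg α]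
    have h3 : -2 < a + d := by nlinarith only [h2]
    have h4 : a + d < 2 := by nlinarith only [h2]
    obtain ⟨s, rfl⟩ : ∃ s, d = s - a := ⟨a + d, by ring⟩
    have h5 : (a : ZMod 15) * (s - a) = 1 := by
      have := congrArg (Int.cast : ℤ → ZMod 15) h
      push_cast at this
      rw [show (15 : ZMod 15) = 0 from rfl] at this
      simpa using this
    have h6 : s = -1 ∨ s = 0 ∨ s = 1 := by omega
    generalize (a : ZMod 15) = z at h5
    rcases h6 with rfl | rfl | rfl <;> push_cast at h5 <;> revert z <;> decide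
  subst hc
  have hb : b = 0 := by simpa [hα] using u2
  subst hb
  have h1 : a * d = 1 := by simpa using h
  have h2 : a = d := by simpa [hα, sub_eq_zero] using u1
  subst h2
  simp only [fmap, fval]
  refine Prod.ext ?_ (Prod.ext ?_ ?_) <;> simp only
  · linear_combination R.1 * h1
  · linear_combination R.2.1 * h1
  · linear_combination R.2.2 * h1

end Pool.Agent.Lib.MP_696deb_nt.Ind
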