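import Pool.Agent.Lib.MP_696deb_nt.QE

set_option autoImplicit false

open PowerSeries Filter Topology Complex ModularForm Asymptotics
open scoped Real MatrixGroups

namespace Pool.Agent.Lib.MP_696deb_nt

/-- The weight two action of an integer matrix. -/
noncomputable def sl (a b c d : ℤ) (G : ℂ → ℂ) (z : ℂ) : ℂ :=
  ((a * d - b * c : ℤ) : ℂ) * G (mob a b c d z) / (c * z + d) ^ 2

lemma sl_sl {a' b' c' d' : ℤ} (h : a' * d' - b' * c' ≠ 0) (a b c d : ℤ) (G : ℂ → ℂ) {z : ℂ}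
    (hz : 0 < z.im) : sl a' b' c' d' (sl a b c d G) z =
      sl (a * a' + b * c') (a * b' + b * d') (c * a' + d * c') (c * b' + d * d') G z := by
  have := den_ne h hz
  rw [sl, sl, sl, mob_mob h a b c d hz, mob_den h c d hz]
  generalize (c' : ℂ) * z + d' = w at this ⊢
  rw [div_pow, div_div_eq_mul_div, mul_div_assoc, div_div, mul_comm (_ ^ 2) (w ^ 2),
    ← div_div, mul_div_cancel_right₀ _ (pow_ne_zero 2 this), ← mul_div_assoc]
  congr 1
  push_cast
  ring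

lemma sl_congr {G G' : ℂ → ℂ} (hG : ∀ z : ℂ, 0 < z.im → G z = G' z) {a b c d : ℤ}
    (h : 0 < a * d - b * c) {z : ℂ} (hz : 0 < z.im) : sl a b c d G z = sl a b c d G' z := by
  rw [sl, sl, hG _ (im_mob_pos h hz)]

lemma norm_sl {a b c d : ℤ} (h : 0 < a * d - b * c) (G : ℂ → ℂ) (z : ℂ) :
    ‖sl a b c d G z‖ * z.im = ‖G (mob a b c d z)‖ * (mob a b c d z).im := by
  have h1 : (0 : ℝ) < ((a * d - b * c : ℤ) : ℝ) := by exact_mod_cast h
  rw [sl, im_mob, norm_div, norm_mul, norm_pow, Complex.norm_intCast, abs_of_pos h1]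
  ring

lemma Hol.sl {G : ℂ → ℂ} (hG : Hol G) {a b c d : ℤ} (h : 0 < a * d - b * c) :
    Hol (sl a b c d G) := fun z hz => by
  have h1 := hG.comp_mob h z hz
  have h2 := pow_ne_zero 2 (den_ne h.ne' hz)
  exact (h1.const_mul _).div (by fun_prop) h2

lemma mob_scale {Q : ℤ} (hQ : Q ≠ 0) (a b c d : ℤ) (z : ℂ) :
    mob (Q * a) (Q * b) (Q * c) (Q * d) z = mob a b c d z := by
  have : (Q : ℂ) ≠ 0 := by exact_mod_cast hQ
  simp only [mob]
  push_cast
  rw [mul_assoc, mul_assoc, ← mul_add, ← mul_add, mul_div_mul_left _ _ this]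

lemma mul_mob {m : ℤ} (a b c d : ℤ) (z : ℂ) :
    m * mob a b (m * c) d z = mob a (m * b) c d (m * z) := by
  simp only [mob]
  push_cast
  rw [← mul_div_assoc]
  congr 1 <;> ring

/-- Invariance under `Γ₀(15)` in weight two. -/
def Inv15 (G : ℂ → ℂ) : Prop :=
  ∀ a b c d : ℤ, a * d - b * (15 * c) = 1 → ∀ z : ℂ, 0 < z.im → sl a b (15 * c) d G z = G z

/-- Cusp forms of weight two on `Γ₀(15)`, described by the growth bound. -/
structure S15 (G : ℂ → ℂ) : Prop where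
  hol : Hol G
  inv : Inv15 G
  bd : ∃ C : ℝ, ∀ z : ℂ, 0 < z.im → ‖G z‖ * z.im ≤ C

/-- If `M γ = δ M'` with `δ` in `Γ₀(15)` then `G | M | γ = G | M'`. -/
lemma Inv15.sl_sl_eq {G : ℂ → ℂ} (hG : Inv15 G) {a b c d a' b' c' d' A B C D α β γ δ : ℤ}
    (h1 : a' * d' - b' * c' ≠ 0) (h2 : 0 < A * D - B * C) (h3 : α * δ - β * (15 * γ) = 1)
    (e1 : a * a' + b * c' = α * A + β * C) (e2 : a * b' + b * d' = α * B + β * D)
    (e3 : c * a' + d * c' = 15 * γ * A + δ * C) (e4 : c * b' + d * d' = 15 * γ * B + δ * D)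
    {z : ℂ} (hz : 0 < z.im) : sl a' b' c' d' (sl a b c d G) z = sl A B C D G z := by
  rw [sl_sl h1 _ _ _ _ _ hz, e1, e2, e3, e4, ← sl_sl h2.ne' _ _ _ _ _ hz]
  exact sl_congr (hG _ _ _ _ h3) h2 hz

lemma Inv15.w3 {G : ℂ → ℂ} (hG : Inv15 G) : Inv15 (sl 6 1 15 3 G) := fun a b c d h z hz =>
  hG.sl_sl_eq (α := 6 * a + 15 * c - 30 * b - 5 * d) (β := -2 * a - 5 * c + 12 * b + 2 * d)
    (γ := a + 3 * c - 5 * b - d) (δ := -5 * a - 15 * c + 30 * b + 6 * d) (by omega)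
    (by norm_num) (by linear_combination h) (by ring) (by ring) (by ring) (by ring) hz

lemma Inv15.w15 {G : ℂ → ℂ} (hG : Inv15 G) : Inv15 (sl 0 (-1) 15 0 G) := fun a b c d h z hz =>
  hG.sl_sl_eq (α := d) (β := -c) (γ := -b) (δ := a) (by omega)
    (by norm_num) (by linear_combination h) (by ring) (by ring) (by ring) (by ring) hz

lemma bd_sl {G : ℂ → ℂ} {C : ℝ} (hC : ∀ z : ℂ, 0 < z.im → ‖G z‖ * z.im ≤ C) {a b c d : ℤ}
    (h : 0 < a * d - b * c) (z : ℂ) (hz : 0 < z.im) : ‖sl a b c d G z‖ * z.im ≤ C := by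
  rw [norm_sl h]; exact hC _ (im_mob_pos h hz)

lemma S15.w3 {G : ℂ → ℂ} (hG : S15 G) : S15 (sl 6 1 15 3 G) :=
  ⟨hG.hol.sl (by norm_num), hG.inv.w3, hG.bd.imp fun _ hC => bd_sl hC (by norm_num)⟩

lemma S15.w15 {G : ℂ → ℂ} (hG : S15 G) : S15 (sl 0 (-1) 15 0 G) :=
  ⟨hG.hol.sl (by norm_num), hG.inv.w15, hG.bd.imp fun _ hC => bd_sl hC (by norm_num)⟩

lemma tendsto_zero_of_bd {G : ℂ → ℂ} {C : ℝ} (hC : ∀ z : ℂ, 0 < z.im → ‖G z‖ * z.im ≤ C) :
    Tendsto G atI (𝓝 0) := by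
  rw [tendsto_zero_iff_norm_tendsto_zero]
  have h1 : Tendsto (fun z : ℂ => C / z.im) atI (𝓝 0) := tendsto_comap.const_div_atTop C
  refine squeeze_zero' (Eventually.of_forall fun _ => norm_nonneg _) ?_ h1
  exact ev_pos.mono fun z hz => (le_div_iff₀ hz).mpr (hC z hz)

instance : NeBot atI := comap_neBot fun t ht => by
  obtain ⟨y, hy⟩ := Filter.nonempty_of_mem ht
  exact ⟨y * I, by simpa using hy⟩

lemma S15.qe {G : ℂ → ℂ} (hG : S15 G) : ∃ A, QE G (X ^ 1 * A) := by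
  obtain ⟨C, hC⟩ := hG.bd
  have h0 := tendsto_zero_of_bd hC
  obtain ⟨A, hA⟩ := QE.exists_of_periodic hG.hol (fun z hz => by
    simpa [sl, mob] using hG.inv 1 1 0 1 (by norm_num) z hz) (Bdd.of_tendsto h0)
  have h1 : constantCoeff A = 0 := by
    simpa using tendsto_nhds_unique hA.tendsto h0
  obtain ⟨B, rfl⟩ := X_dvd_iff.mpr h1
  exact ⟨B, by simpa using hA⟩

lemma bdd_of_decomp {h : ℂ → ℂ}
    (hinv : ∀ a b c d : ℤ, a * d - b * (15 * c) = 1 → ∀ z : ℂ, 0 < z.im →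
      h (mob a b (15 * c) d z) = h z)
    {a b c d A B C D α β γ δ Q k : ℤ} (hQ : 0 < Q) (h2 : 0 < A * D - B * C)
    (h3 : α * δ - β * (15 * γ) = 1)
    (e1 : α * A + β * C = Q * a) (e2 : α * B + β * D = b - k * a)
    (e3 : 15 * γ * A + δ * C = Q * c) (e4 : 15 * γ * B + δ * D = d - k * c)
    (hb : Bdd fun z => h (mob A B C D z)) : Bdd fun z => h (mob a b c d z) := by
  have hQ' : (0 : ℝ) < (Q : ℝ)⁻¹ := inv_pos.mpr (by exact_mod_cast hQ)
  refine (hb.comp_affine hQ' (k / Q)).congr fun z hz => ?_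
  have hu : 0 < 1 * Q - k * 0 := by simpa using hQ
  have h4 : (((Q : ℝ)⁻¹ : ℝ) : ℂ) * z + k / Q = mob 1 k 0 Q z := by
    simp only [mob]; push_cast; ring
  have h5 := im_mob_pos hu hz
  rw [h4, ← hinv _ _ _ _ h3 _ (im_mob_pos h2 h5), mob_mob h2.ne' _ _ _ _ h5, e1, e2, e3, e4,
    mob_mob hu.ne' _ _ _ _ hz, ← mob_scale hQ.ne' a b c d]
  congr 2 <;> ring

/-- An invariant holomorphic function bounded at the four cusps of `Γ₀(15)` is constant. -/
theorem const15 {h : ℂ → ℂ} (hh : Hol h)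
    (hinv : ∀ a b c d : ℤ, a * d - b * (15 * c) = 1 → ∀ z : ℂ, 0 < z.im →
      h (mob a b (15 * c) d z) = h z)
    (b1 : Bdd h) (b3 : Bdd fun z => h (mob 6 1 15 3 z))
    (b5 : Bdd fun z => h (mob 5 (-2) 15 (-5) z)) (b15 : Bdd fun z => h (mob 0 (-1) 15 0 z)) :
    ∃ c, ∀ z : ℂ, 0 < z.im → h z = c := by
  refine const_of_inv 15 hh hinv fun a b c d hd => ?_
  have f3 : ¬ 3 ∣ c → 3 ∣ d - d * c ^ 3 * c := fun hc => by
    rw [show (3 : ℤ) = (3 : ℕ) from rfl, ← ZMod.intCast_zmod_eq_zero_iff_dvd] at hc ⊢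
    push_cast
    generalize (c : ZMod 3) = x at hc ⊢
    generalize (d : ZMod 3) = y
    revert x y
    decide
  have f5 : ¬ 5 ∣ c → 5 ∣ d - d * c ^ 3 * c := fun hc => by
    rw [show (5 : ℤ) = (5 : ℕ) from rfl, ← ZMod.intCast_zmod_eq_zero_iff_dvd] at hc ⊢
    push_cast
    generalize (c : ZMod 5) = x at hc ⊢
    generalize (d : ZMod 5) = y
    revert x y
    decide
  generalize d * c ^ 3 = k at f3 f5
  by_cases h3 : 3 ∣ c <;> by_cases h5 : 5 ∣ c
  · obtain ⟨c, rfl⟩ : 15 ∣ c := by omega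
    exact b1.congr (hinv a b c d hd)
  · obtain ⟨c, rfl⟩ := h3
    obtain ⟨e, he⟩ := f5 h5
    exact bdd_of_decomp hinv (Q := 5) (k := k) (α := -5 * a - 3 * (b - k * a))
      (β := 2 * a + (b - k * a)) (γ := -(c + e)) (δ := 6 * c + 5 * e) (by norm_num)
      (by norm_num) (by linear_combination hd - a * he) (by ring) (by ring) (by ring)
      (by linear_combination -he) b5
  · obtain ⟨c, rfl⟩ := h5
    obtain ⟨e, he⟩ := f3 h3
    exact bdd_of_decomp hinv (Q := 3) (k := k) (α := 3 * a - 5 * (b - k * a))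
      (β := 2 * (b - k * a) - a) (γ := c - e) (δ := 6 * e - 5 * c) (by norm_num)
      (by norm_num) (by linear_combination hd - a * he) (by ring) (by ring) (by ring)
      (by linear_combination -he) b3
  · obtain ⟨e, he⟩ : 15 ∣ d - k * c := by have := f3 h3; have := f5 h5; omega
    exact bdd_of_decomp hinv (Q := 15) (k := k) (α := -(b - k * a))
      (β := a) (γ := -e) (δ := c) (by norm_num)
      (by norm_num) (by linear_combination hd - a * he) (by ring) (by ring) (by ring)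
      (by linear_combination -he) b15

lemma mob_w5 {z : ℂ} (hz : 0 < z.im) :
    mob 5 (-2) 15 (-5) z = mob 6 1 15 3 (mob 0 (-1) 15 0 z) := by
  rw [mob_mob (by norm_num) _ _ _ _ hz, ← mob_scale (Q := 3) (by norm_num)]
  norm_num

/-- The newform of level fifteen, `η(z) η(3 z) η(5 z) η(15 z)`. -/
noncomputable def f15 (z : ℂ) : ℂ := eta13 z * eta13 (5 * z)

lemma im_five {z : ℂ} (hz : 0 < z.im) : 0 < (5 * z).im := by simpa using hz

lemma f15_mob (a b c d : ℤ) (h : a * d - b * (15 * c) = 1) {z : ℂ} (hz : 0 < z.im) :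
    f15 (mob a b (15 * c) d z) = (15 * c * z + d) ^ 2 * f15 z := by
  have h1 := eta13_tr a b (5 * c) d (by linear_combination h) z hz
  have h2 := eta13_tr a (5 * b) c d (by linear_combination h) _ (im_five hz)
  have h3 := mul_mob (m := 5) a b (3 * c) d z
  have h4 : ∀ a b c d : ZMod 12, a * d - b * (15 * c) = 1 →
      PhiE a b (5 * c) d + PhiE a (5 * b) c d = 0 := by decide +kernel
  have h5 := congr_arg e12 (h4 a b c d (by exact_mod_cast congr_arg (Int.cast : ℤ → ZMod 12) h))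
  rw [e12_add, e12_zero] at h5
  rw [show 3 * (5 * c) = 15 * c by ring] at h1
  rw [show 5 * (3 * c) = 15 * c by ring] at h3
  push_cast at h1 h2 h3
  rw [f15, f15, h3, h1, h2]
  linear_combination ((15 * c * z + d) ^ 2 * eta13 z * eta13 (5 * z)) * h5

lemma f15_inv : Inv15 f15 := fun a b c d h z hz => by
  have := den_ne (a := a) (b := b) (by omega : a * d - b * (15 * c) ≠ 0) hz
  rw [sl, f15_mob a b c d h hz, h]
  push_cast at this ⊢
  field_simp

lemma sqrt3_sq : ((√3 : ℝ) : ℂ) ^ 2 = 3 := by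
  rw [← ofReal_pow, Real.sq_sqrt (by norm_num)]; simp

lemma eta13_trW : Tr eta13 0 (-1) 3 0 (-I * (√3 : ℝ) / 3) := fun z hz => by
  have := eta13_W hz
  simp only [mob]
  push_cast
  rw [zero_mul, zero_add, add_zero, this]
  ring

lemma f15_w3_mob {z : ℂ} (hz : 0 < z.im) :
    f15 (mob 6 1 15 3 z) = (15 * z + 3) ^ 2 / 3 * f15 z := by
  have h1 := ((eta13_tr (-1) 2 (-1) 5 (by norm_num)).comp eta13_trW (by norm_num)) z hz
  have h2 := ((eta13_tr (-5) 2 (-1) 1 (by norm_num)).comp eta13_trW (by norm_num)) _ (im_five hz)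
  have h3 := mul_mob (m := 5) 6 1 3 3 z
  have e1 : PhiE ((-1 : ℤ) : ZMod 12) ((2 : ℤ) : ZMod 12) ((-1 : ℤ) : ZMod 12)
    ((5 : ℤ) : ZMod 12) = 0 := by decide
  have e2 : PhiE ((-5 : ℤ) : ZMod 12) ((2 : ℤ) : ZMod 12) ((-1 : ℤ) : ZMod 12)
    ((1 : ℤ) : ZMod 12) = 6 := by decide
  rw [e1, e12_zero] at h1
  rw [e2, e12_six] at h2
  norm_num at h1 h2 h3
  rw [f15, f15, h3, h1, h2]
  linear_combination (-(I ^ 2) * (5 * z + 1) ^ 2 * eta13 z * eta13 (5 * z)) * sqrt3_sq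
    - (3 * (5 * z + 1) ^ 2 * eta13 z * eta13 (5 * z)) * I_sq

lemma f15_w15_mob {z : ℂ} (hz : 0 < z.im) : f15 (mob 0 (-1) 15 0 z) = -15 * z ^ 2 * f15 z := by
  have hz0 : z ≠ 0 := fun h => by simp [h] at hz
  have h1 := eta13_W hz
  have h2 := eta13_W (im_five hz)
  have h3 : mob 0 (-1) 15 0 z = -1 / (3 * (5 * z)) := by simp [mob]; ring
  have h4 : 5 * (-1 / (3 * (5 * z))) = -1 / (3 * z) := by field_simp
  rw [f15, f15, h3, h4, h1, h2]
  linear_combination (5 * I ^ 2 * z ^ 2 * eta13 z * eta13 (5 * z)) * sqrt3_sq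
    + (15 * z ^ 2 * eta13 z * eta13 (5 * z)) * I_sq

lemma f15_w3 {z : ℂ} (hz : 0 < z.im) : sl 6 1 15 3 f15 z = f15 z := by
  have := den_ne (a := 6) (b := 1) (c := 15) (d := 3) (by norm_num) hz
  rw [sl, f15_w3_mob hz]
  push_cast at this ⊢
  generalize 15 * z + 3 = w at this ⊢
  field_simp

lemma f15_w15 {z : ℂ} (hz : 0 < z.im) : sl 0 (-1) 15 0 f15 z = -f15 z := by
  have hz0 : z ≠ 0 := fun h => by simp [h] at hz
  rw [sl, f15_w15_mob hz]
  push_cast
  field_simp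
  ring

lemma f15_eq (z : ℂ) : f15 z = η z * η (3 * z) * η (5 * z) * η (15 * z) := by
  rw [f15, eta13, eta13, show 3 * (5 * z) = 15 * z by ring]; ring

lemma im_mul_pos {r : ℕ} [r.AtLeastTwo] {z : ℂ} (hz : 0 < z.im) :
    0 < ((OfNat.ofNat r : ℂ) * z).im := by
  have h : (OfNat.ofNat r : ℂ) = ((OfNat.ofNat r : ℝ) : ℂ) := by norm_cast
  rw [h, im_ofReal_mul]
  exact mul_pos Nat.ofNat_pos hz

lemma f15_ne {z : ℂ} (hz : 0 < z.im) : f15 z ≠ 0 := by
  rw [f15_eq]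
  exact mul_ne_zero (mul_ne_zero (mul_ne_zero (eta_ne hz) (eta_ne (im_mul_pos hz)))
    (eta_ne (im_mul_pos hz))) (eta_ne (im_mul_pos hz))

/-- The coefficientwise inclusion of integral power series. -/
noncomputable abbrev toC : ℤ⟦X⟧ →+* ℂ⟦X⟧ := PowerSeries.map (Int.castRingHom ℂ)

lemma toC_inj : Function.Injective toC := PowerSeries.map_injective _ Int.cast_injective

/-- Euler's series. -/
noncomputable def P1 : ℤ⟦X⟧ := pentagonalSeries ℤ
/-- Euler's series in `X ^ 3`. -/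
noncomputable def P3 : ℤ⟦X⟧ := expand 3 (by norm_num) P1
/-- Euler's series in `X ^ 5`. -/
noncomputable def P5 : ℤ⟦X⟧ := expand 5 (by norm_num) P1
/-- Euler's series in `X ^ 15`. -/
noncomputable def P15 : ℤ⟦X⟧ := expand 15 (by norm_num) P1
/-- The expansion of the newform of level fifteen. -/
noncomputable def F15 : ℤ⟦X⟧ := X * (P1 * P3 * P5 * P15)
/-- The coefficients of the newform of level fifteen. -/
noncomputable def a15 (n : ℕ) : ℤ := coeff n F15

lemma toC_P1 : toC P1 = pentagonalSeries ℂ := by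
  ext n
  by_cases hn : n ∈ Set.range pentagonal
  · obtain ⟨k, rfl⟩ := hn
    simp [P1]
  · simp [P1, coeff_pentagonalSeries_eq_zero _ hn]

lemma qe_P1 : QE (fun z => eul (q1 z)) (toC P1) := toC_P1 ▸ qe_eul

lemma qe_P3 : QE (fun z => eul (q1 (3 * z))) (toC P3) := by
  simpa [P3, map_expand] using qe_P1.expand 3 (by norm_num)

lemma qe_P5 : QE (fun z => eul (q1 (5 * z))) (toC P5) := by
  simpa [P5, map_expand] using qe_P1.expand 5 (by norm_num)

lemma qe_P15 : QE (fun z => eul (q1 (15 * z))) (toC P15) := by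
  simpa [P15, map_expand] using qe_P1.expand 15 (by norm_num)

lemma f15_eq_q (z : ℂ) : f15 z =
    q1 z * (eul (q1 z) * eul (q1 (3 * z)) * eul (q1 (5 * z)) * eul (q1 (15 * z))) := by
  have : q1 z = cexp (2 * π * I * z / 24) * cexp (2 * π * I * (3 * z) / 24) *
      cexp (2 * π * I * (5 * z) / 24) * cexp (2 * π * I * (15 * z) / 24) := by
    simp only [q1, ← Complex.exp_add]; congr 1; ring
  rw [f15_eq, eta_eq, eta_eq, eta_eq, eta_eq]
  linear_combination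
    -(eul (q1 z) * eul (q1 (3 * z)) * eul (q1 (5 * z)) * eul (q1 (15 * z))) * this

lemma qe_f15 : QE f15 (toC F15) := by
  simpa [F15] using (QE.q.mul (((qe_P1.mul qe_P3).mul qe_P5).mul qe_P15)).congr
    fun z _ => f15_eq_q z

lemma cc_P1 : constantCoeff P1 = 1 := by
  simpa [pentagonal, P1] using coeff_pentagonalSeries_pentagonal ℤ 0

lemma cc_P3 : constantCoeff P3 = 1 := by rw [P3, constantCoeff_expand, cc_P1]
lemma cc_P5 : constantCoeff P5 = 1 := by rw [P5, constantCoeff_expand, cc_P1]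
lemma cc_P15 : constantCoeff P15 = 1 := by rw [P15, constantCoeff_expand, cc_P1]

lemma a15_zero : a15 0 = 0 := by simp [a15, F15]

lemma a15_one : a15 1 = 1 := by
  simp [a15, F15, coeff_succ_X_mul, cc_P1, cc_P3, cc_P5, cc_P15]

lemma f15_bd : ∃ C : ℝ, ∀ z : ℂ, 0 < z.im → ‖f15 z‖ * z.im ≤ C := by
  obtain ⟨C, hC⟩ := eta_bound
  refine ⟨max 1 (C ^ 4), fun z hz => ?_⟩
  have h1 := hC z hz
  have h3 := hC (3 * z) (im_mul_pos hz)
  have h5 := hC (5 * z) (im_mul_pos hz)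
  have h15 := hC (15 * z) (im_mul_pos hz)
  simp only [mul_im, re_ofNat, im_ofNat, zero_mul, add_zero] at h3 h5 h15
  have h2 : (‖f15 z‖ * z.im) ^ 4 ≤ C ^ 4 := by
    have h6 : (‖η z‖ ^ 4 * z.im) * (‖η (3 * z)‖ ^ 4 * (3 * z.im)) *
        (‖η (5 * z)‖ ^ 4 * (5 * z.im)) * (‖η (15 * z)‖ ^ 4 * (15 * z.im)) ≤ C * C * C * C := by
      have h0 : 0 ≤ C := le_trans (by positivity) h1
      gcongr
    have h7 : 0 ≤ (‖f15 z‖ * z.im) ^ 4 := by positivity
    rw [f15_eq, norm_mul, norm_mul, norm_mul] at h7 ⊢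
    nlinarith
  by_contra hlt
  push Not at hlt
  have h4 : 1 < ‖f15 z‖ * z.im := (le_max_left _ _).trans_lt hlt
  have h5 := (le_max_right _ _).trans_lt hlt
  have h6 := le_self_pow₀ h4.le (n := 4) (by norm_num)
  linarith

theorem s15_f15 : S15 f15 := ⟨qe_f15.hol, f15_inv, f15_bd⟩

lemma S15.bdd_div {G : ℂ → ℂ} (hG : S15 G) : Bdd fun z => G z / f15 z := by
  obtain ⟨A, hA⟩ := hG.qe
  refine hA.bdd_div (B' := toC (P1 * P3 * P5 * P15)) (by simpa [F15] using qe_f15) ?_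
  rw [coeff_map]
  simp [cc_P1, cc_P3, cc_P5, cc_P15]

lemma div_mob {a b c d : ℤ} (h : a * d - b * c ≠ 0) (G G' : ℂ → ℂ) {z : ℂ} (hz : 0 < z.im) :
    G (mob a b c d z) / G' (mob a b c d z) = sl a b c d G z / sl a b c d G' z := by
  have h1 := pow_ne_zero 2 (den_ne h hz)
  have h2 : ((a * d - b * c : ℤ) : ℂ) ≠ 0 := by exact_mod_cast h
  rw [sl, sl, div_div_div_cancel_right₀ h1, mul_div_mul_left _ _ h2]

/-- The space of cusp forms of weight two on `Γ₀(15)` is a line. -/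
theorem S15.eq_mul {G : ℂ → ℂ} (hG : S15 G) : ∃ c : ℂ, ∀ z : ℂ, 0 < z.im → G z = c * f15 z := by
  obtain ⟨c, hc⟩ := const15 (h := fun z => G z / f15 z)
    (fun z hz => (hG.hol z hz).div (qe_f15.hol z hz) (f15_ne hz))
    (fun a b c d h z hz => by
      rw [div_mob (by omega) _ _ hz, hG.inv a b c d h z hz, f15_inv a b c d h z hz])
    hG.bdd_div
    (hG.w3.bdd_div.congr fun z hz => by rw [div_mob (by norm_num) _ _ hz, f15_w3 hz])
    (((Bdd.const (-1)).mul hG.w3.w15.bdd_div).congr fun z hz => by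
      have h1 := im_mob_pos (a := 0) (b := -1) (c := 15) (d := 0) (by norm_num) hz
      rw [mob_w5 hz, div_mob (by norm_num) _ _ h1, f15_w3 h1, div_mob (by norm_num) _ _ hz,
        f15_w15 hz, div_neg, neg_one_mul])
    (((Bdd.const (-1)).mul hG.w15.bdd_div).congr fun z hz => by
      rw [div_mob (by norm_num) _ _ hz, f15_w15 hz, div_neg, neg_one_mul])
  exact ⟨c, fun z hz => (div_eq_iff (f15_ne hz)).mp (hc z hz)⟩

end Pool.Agent.Lib.MP_696deb_nt
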