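import Pool.Agent.Lib.MP_696deb_nt.DenT0
import Pool.Agent.Lib.MP_696deb_nt.Redei

-- part Pool.Agent.Lib.MP_696deb_nt.DenFlip
section

set_option autoImplicit false

open Finset Matrix
open scoped NumberTheorySymbols

namespace Pool.Agent.Lib.MP_696deb_nt.Den

section Lap

variable {ι : Type} [Fintype ι] [DecidableEq ι]

/-- Laplacian of a weighted digraph over the field with two elements. -/
def Lap (a : ι → ι → ZMod 2) : Matrix ι ι (ZMod 2) := fun i j =>
  if i = j then ∑ r ∈ univ.erase i, a i r else a i j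

theorem Lap_mulVec (a : ι → ι → ZMod 2) (v : ι → ZMod 2) (i : ι) :
    (Lap a *ᵥ v) i = ∑ j, a i j * (v j + v i) := by
  simp only [mulVec, dotProduct]
  rw [← add_sum_erase _ _ (mem_univ i), ← add_sum_erase _ _ (mem_univ i), CharTwo.add_self_eq_zero,
    mul_zero, zero_add]
  have : ∑ j ∈ univ.erase i, Lap a i j * v j = ∑ j ∈ univ.erase i, a i j * v j :=
    sum_congr rfl fun j hj => by simp [Lap, (ne_of_mem_erase hj).symm]
  rw [this]
  simp only [Lap, if_true, sum_mul, mul_add, sum_add_distrib]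
  ring

theorem Lap_congr {a b : ι → ι → ZMod 2} (h : ∀ i j, i ≠ j → a i j = b i j) : Lap a = Lap b := by
  ext i j
  unfold Lap
  split_ifs with hij
  · exact sum_congr rfl fun r hr => h _ _ (ne_of_mem_erase hr).symm
  · exact h _ _ hij

theorem Lap_add (a b : ι → ι → ZMod 2) : Lap (a + b) = Lap a + Lap b := by
  ext i j
  simp only [Lap, Pi.add_apply, Matrix.add_apply]
  split_ifs <;> simp [sum_add_distrib]

theorem Lap_one (a : ι → ι → ZMod 2) : Lap a *ᵥ 1 = 0 := by
  ext i; simp [Lap_mulVec, CharTwo.add_self_eq_zero]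

theorem Lap_transpose {a : ι → ι → ZMod 2}
    (h : ∀ i, ∑ r ∈ univ.erase i, a i r = ∑ r ∈ univ.erase i, a r i) :
    (Lap a)ᵀ = Lap fun i j => a j i := by
  ext i j
  simp only [Lap, transpose_apply]
  by_cases hij : i = j
  · subst hij; simp [h]
  · simp [hij, Ne.symm hij]

theorem Lap_rank_one (c v : ι → ZMod 2) (hc : ∑ i, c i = 0) :
    Lap (fun i j => c i * c j) *ᵥ v = (c ⬝ᵥ v) • c := by
  ext i
  simp only [Lap_mulVec, mul_add, sum_add_distrib, Pi.smul_apply, smul_eq_mul, dotProduct, sum_mul]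
  have : ∑ j, c i * c j * v i = 0 := by
    rw [← sum_mul, ← mul_sum, hc]; simp
  rw [this, add_zero]
  exact sum_congr rfl fun j _ => by ring

omit [Fintype ι] [DecidableEq ι] in
theorem exists_opposite (K : Set ι) (v l : ι → ZMod 2) (hv : ∃ a ∈ K, ∃ b ∈ K, v a ≠ v b)
    (hl : ∃ a ∈ K, ∃ b ∈ K, l a ≠ l b) : ∃ a ∈ K, ∃ b ∈ K, v a ≠ v b ∧ l a ≠ l b := by
  obtain ⟨a, ha, b, hb, hab⟩ := hv
  obtain ⟨c, hc, d, hd, hcd⟩ := hl
  by_contra hcon
  push Not at hcon
  have h1 := hcon a ha b hb hab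
  have key : ∀ x ∈ K, l x = l a := by
    intro x hx
    by_cases h : v a = v x
    · rw [h1]; exact (hcon b hb x hx fun h' => hab (h.trans h'.symm)).symm
    · exact (hcon a ha x hx h).symm
  exact hcd ((key c hc).trans (key d hd).symm)

omit [DecidableEq ι] in
theorem nonconst (G : Matrix ι ι (ZMod 2)) (K : Set ι) (h1 : G *ᵥ 1 = 0)
    (hR : ∀ v, G *ᵥ v = 0 → (∀ i ∈ K, v i = 0) → v = 0) {v : ι → ZMod 2} (hv : G *ᵥ v = 0)
    (h0 : ¬ (v = 0 ∨ v = 1)) : ∃ a ∈ K, ∃ b ∈ K, v a ≠ v b := by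
  by_contra hcon
  push Not at hcon
  apply h0
  by_cases hz : ∀ i ∈ K, v i = 0
  · exact Or.inl (hR v hv hz)
  · push Not at hz
    obtain ⟨a, ha, hva⟩ := hz
    have hva' : v a = 1 := (zmod_two_cases _).resolve_left hva
    have := hR (v + 1) (by rw [mulVec_add, hv, h1, add_zero]) fun i hi => by
      rw [Pi.add_apply, hcon i hi a ha, hva']; rfl
    right
    ext i
    have h2 := congrFun this i
    simp only [Pi.add_apply, Pi.one_apply, Pi.zero_apply] at h2 ⊢
    revert h2; generalize v i = t; revert t; decide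

/-- Flipping symbols inside `K` makes the kernel minimal. -/
theorem flip (K : Set ι) (n : ℕ) : ∀ G : Matrix ι ι (ZMod 2),
    #{v | G *ᵥ v = 0} ≤ n → G *ᵥ 1 = 0 → Gᵀ *ᵥ 1 = 0 →
    (∀ v, G *ᵥ v = 0 → (∀ i ∈ K, v i = 0) → v = 0) →
    (∀ v, Gᵀ *ᵥ v = 0 → (∀ i ∈ K, v i = 0) → v = 0) →
    ∃ s : ι → ι → ZMod 2, (∀ i j, s i j = s j i) ∧ (∀ i j, i ∉ K → s i j = 0) ∧
      ∀ v, (G + Lap s) *ᵥ v = 0 → v = 0 ∨ v = 1 := by
  induction n with
  | zero =>
    intro G hn
    have : (0 : ι → ZMod 2) ∈ ({v | G *ᵥ v = 0} : Finset _) := by simp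
    rw [Nat.le_zero, card_eq_zero] at hn
    simp [hn] at this
  | succ n ih =>
    intro G hn h1 h1' hR hL
    by_cases hG : ∀ v, G *ᵥ v = 0 → v = 0 ∨ v = 1
    · refine ⟨0, fun _ _ => rfl, fun _ _ _ => rfl, fun v hv => hG v ?_⟩
      have : Lap (0 : ι → ι → ZMod 2) = 0 := by ext i j; simp [Lap]
      rwa [this, add_zero] at hv
    have hG' : ¬ ∀ v, Gᵀ *ᵥ v = 0 → v = 0 ∨ v = 1 := fun h =>
      hG (by simpa using ker_transpose_small Gᵀ (by simpa using h1) h)
    push Not at hG hG'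
    obtain ⟨v, hv, hv0⟩ := hG
    obtain ⟨l, hl, hl0⟩ := hG'
    obtain ⟨a, ha, b, hb, hvab, hlab⟩ := exists_opposite K v l
      (nonconst G K h1 hR hv (by tauto)) (nonconst Gᵀ K h1' hL hl (by tauto))
    set c : ι → ZMod 2 := Pi.single a 1 + Pi.single b 1 with hc
    have hcd : ∀ u : ι → ZMod 2, c ⬝ᵥ u = u a + u b := fun u => by
      simp [hc, add_dotProduct]
    have hcs : ∑ i, c i = 0 := by
      simp [hc, sum_add_distrib, CharTwo.add_self_eq_zero]
    have hne : ∀ x y : ZMod 2, x ≠ y → x + y = 1 := by decide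
    have hsym : (Lap fun i j => c i * c j)ᵀ = Lap fun i j => c i * c j := by
      rw [Lap_transpose fun i => sum_congr rfl fun r _ => mul_comm _ _]
      exact Lap_congr fun i j _ => mul_comm _ _
    set G' := G + Lap fun i j => c i * c j with hG'
    have hker : ∀ u, G' *ᵥ u = 0 → G *ᵥ u = 0 ∧ c ⬝ᵥ u = 0 := by
      intro u hu
      rw [hG', add_mulVec, Lap_rank_one c u hcs] at hu
      have h2 : l ⬝ᵥ (G *ᵥ u) = 0 := by
        rw [dotProduct_mulVec, ← mulVec_transpose, hl, zero_dotProduct]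
      have h3 := congrArg (l ⬝ᵥ ·) hu
      simp only [dotProduct_add, h2, zero_add, dotProduct_smul, dotProduct_zero] at h3
      rw [dotProduct_comm l c, hcd l, hne _ _ hlab, smul_eq_mul, mul_one] at h3
      rw [h3, zero_smul, add_zero] at hu
      exact ⟨hu, h3⟩
    have k1 : #{u | G' *ᵥ u = 0} ≤ n := by
      have : ({u | G' *ᵥ u = 0} : Finset _) ⊂ ({u | G *ᵥ u = 0} : Finset _) := by
        refine ⟨fun u hu => ?_, fun h => ?_⟩
        · simp only [mem_filter, mem_univ, true_and] at hu ⊢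
          exact (hker u hu).1
        · have h2 : v ∈ ({u | G' *ᵥ u = 0} : Finset _) := h (by simpa using hv)
          simp only [mem_filter, mem_univ, true_and] at h2
          have h3 := (hker v h2).2
          rw [hcd, hne _ _ hvab] at h3
          exact one_ne_zero h3
      have := card_lt_card this
      omega
    have k2 : G' *ᵥ 1 = 0 := by rw [hG', add_mulVec, h1, Lap_one, add_zero]
    have k3 : G'ᵀ *ᵥ 1 = 0 := by
      rw [hG', transpose_add, add_mulVec, h1', hsym, Lap_one, add_zero]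
    have k4 : ∀ u, G'ᵀ *ᵥ u = 0 → (∀ i ∈ K, u i = 0) → u = 0 := by
      intro u hu hK
      refine hL u ?_ hK
      rw [hG', transpose_add, add_mulVec, hsym, Lap_rank_one c u hcs, hcd, hK a ha, hK b hb] at hu
      simpa using hu
    obtain ⟨s, hs1, hs2, hs3⟩ := ih G' k1 k2 k3 (fun u hu hK => hR u (hker u hu).1 hK) k4
    refine ⟨(fun i j => c i * c j) + s, fun i j => ?_, fun i j hi => ?_, fun u hu => hs3 u ?_⟩
    · simp only [Pi.add_apply, hs1 i j, mul_comm]
    · have hia : i ≠ a := fun h => hi (h ▸ ha)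
      have hib : i ≠ b := fun h => hi (h ▸ hb)
      simp [hs2 i j hi, hc, hia, hib]
    · rwa [Lap_add, ← add_assoc] at hu

end Lap

end Pool.Agent.Lib.MP_696deb_nt.Den
end

-- part Pool.Agent.Lib.MP_696deb_nt.DenComb
section

set_option autoImplicit false

open Finset Matrix
open scoped NumberTheorySymbols

namespace Pool.Agent.Lib.MP_696deb_nt.Den

theorem squarefree_prod_primes {ι : Type} [Fintype ι] (pr : ι → ℕ) (hp : ∀ i, (pr i).Prime)
    (hi : Function.Injective pr) : Squarefree (∏ i, pr i) := by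
  classical
  refine Finset.squarefree_prod_of_pairwise_isCoprime (fun i _ j _ hij => ?_)
    fun i _ => (hp i).squarefree
  exact Nat.coprime_iff_isRelPrime.mp ((Nat.coprime_primes (hp i) (hp j)).mpr fun h => hij (hi h))

theorem condB_of_Lap {ι : Type} [Fintype ι] [DecidableEq ι] (pr : ι → ℕ) (hp : ∀ i, (pr i).Prime)
    (hi : Function.Injective pr)
    (h : ∀ v, Lap (fun i j => aleg (pr i) (pr j)) *ᵥ v = 0 → v = 0 ∨ v = 1) :
    CondB ((∏ i, pr i : ℕ) : ℤ) := by
  have hN := squarefree_prod_primes pr hp hi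
  set N := ∏ i, pr i with hNd
  have hmem : ∀ i, pr i ∈ N.primeFactors := fun i =>
    Nat.mem_primeFactors.mpr ⟨hp i, dvd_prod_of_mem _ (mem_univ i), hN.ne_zero⟩
  let e : ι ≃ N.primeFactors := Equiv.ofBijective (fun i => ⟨pr i, hmem i⟩) ⟨fun i j hij =>
    hi (congrArg Subtype.val hij), fun p => by
      have h1 := Nat.mem_primeFactors.mp p.2
      obtain ⟨i, _, hd⟩ := (Prime.dvd_finsetProd_iff h1.1.prime _).mp h1.2.1
      exact ⟨i, Subtype.ext ((Nat.prime_dvd_prime_iff_eq h1.1 (hp i)).mp hd).symm⟩⟩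
  have he : ∀ i, (e i : ℕ) = pr i := fun i => rfl
  rw [condB_iff hN, condS_iff (fun p hp => (Nat.mem_primeFactors.mp hp).1) (fun q => by simp)]
  intro x hx
  have hx' : Lap (fun p q : N.primeFactors => aleg p ((q : ℕ) : ℤ)) *ᵥ x = 0 := hx
  have := h (x ∘ e) (by
    ext i
    have h2 := congrFun hx' (e i)
    rw [Lap_mulVec, ← e.sum_comp] at h2
    rw [Lap_mulVec]
    simpa [he] using h2)
  rcases this with h0 | h0
  · left; ext p; simpa using congrFun h0 (e.symm p)
  · right; ext p; simpa using congrFun h0 (e.symm p)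

/-- Class modulo four, additively. -/
def eps (n : ℕ) : ZMod 2 := if n % 4 = 1 then 0 else 1

theorem eps_mul {a b : ℕ} (ha : a % 2 = 1) (hb : b % 2 = 1) : eps (a * b) = eps a + eps b := by
  unfold eps
  have h1 : a % 4 = 1 ∨ a % 4 = 3 := by omega
  have h2 : b % 4 = 1 ∨ b % 4 = 3 := by omega
  rw [Nat.mul_mod]
  rcases h1 with h1 | h1 <;> rcases h2 with h2 | h2 <;> simp [h1, h2]
  decide

theorem eps_prod {ι : Type} (s : Finset ι) (f : ι → ℕ) (h : ∀ i ∈ s, f i % 2 = 1) :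
    (∏ i ∈ s, f i) % 2 = 1 ∧ eps (∏ i ∈ s, f i) = ∑ i ∈ s, eps (f i) := by
  classical
  induction s using Finset.induction_on with
  | empty => simp [eps]
  | insert a s ha ih =>
    obtain ⟨h1, h2⟩ := ih fun i hi => h i (mem_insert_of_mem hi)
    have h3 := h a (mem_insert_self _ _)
    rw [prod_insert ha, sum_insert ha, eps_mul h3 h1, h2, Nat.mul_mod, h1, h3]
    simp

theorem aleg_neg_one {p : ℕ} (hp : p.Prime) (hp2 : p ≠ 2) : aleg p (-1) = eps p := by
  have := Fact.mk hp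
  have h2 := hp.eq_two_or_odd.resolve_left hp2
  have h3 : aleg p (-1) = 0 ↔ p % 4 ≠ 3 := by
    rw [aleg_eq_zero_iff]; push_cast; exact ZMod.exists_sq_eq_neg_one_iff
  unfold eps
  by_cases h : p % 4 = 1
  · rw [if_pos h, h3.mpr (by omega)]
  · rw [if_neg h]
    exact (zmod_two_cases _).resolve_left fun h0 => h3.mp h0 (by omega)

theorem aleg_recip {p q : ℕ} (hp : p.Prime) (hq : q.Prime) (hp2 : p ≠ 2) (hq2 : q ≠ 2)
    (hpq : p ≠ q) : aleg q p = aleg p q + eps p * eps q := by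
  rw [← aleg_pstar hp hq hp2 hq2 hpq]
  unfold pstar
  split_ifs with h
  · simp [eps, h]
  · rw [show -(q : ℤ) = q * -1 by ring, aleg_mul hp (not_dvd_of_natAbs_eq hp hq hpq (by simp))
      (not_dvd_of_natAbs_eq' hp), aleg_neg_one hp hp2]
    simp [eps, h]

theorem aleg_congr {p : ℕ} {a b : ℕ} (h : a ≡ b [MOD p]) : aleg p a = aleg p b := by
  unfold aleg
  have : ((a : ℤ) : ZMod p) = ((b : ℤ) : ZMod p) := by
    push_cast; exact (ZMod.natCast_eq_natCast_iff _ _ _).mpr h
  rw [this]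

/-- Sign attached to a bit. -/
def sgn (b : ZMod 2) : ℤ := if b = 0 then 1 else -1

theorem sgn_add : ∀ a b : ZMod 2, sgn (a + b) = sgn a * sgn b := by decide

theorem sgn_inj : ∀ a b : ZMod 2, sgn a = sgn b → a = b := by decide

theorem sgn_sum {ι : Type} (s : Finset ι) (f : ι → ZMod 2) :
    sgn (∑ i ∈ s, f i) = ∏ i ∈ s, sgn (f i) := by
  classical
  induction s using Finset.induction_on with
  | empty => simp [sgn]
  | insert a s ha ih => rw [sum_insert ha, prod_insert ha, sgn_add, ih]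

theorem J_eq_sgn {p q : ℕ} (hp : p.Prime) (hq : q.Prime) (hpq : p ≠ q) :
    J(q | p) = sgn (aleg p q) := by
  have := Fact.mk hp
  have hnd : ¬ (p : ℤ) ∣ q := not_dvd_of_natAbs_eq hp hq hpq (by simp)
  have ha' : ((q : ℤ) : ZMod p) ≠ 0 := by rwa [Ne, ZMod.intCast_zmod_eq_zero_iff_dvd]
  rw [aleg_eq_legendre hnd, ← jacobiSym.legendreSym.to_jacobiSym]
  rcases legendreSym.eq_one_or_neg_one p ha' with h | h <;> simp [h, sgn]

/-- The bit matrix attached to `sym σ`. -/
noncomputable def bit (σ : Bool) (x y : ℕ) : ZMod 2 := if σ then aleg x y else aleg y x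

theorem sym_prod {ι : Type} (σ : Bool) (s : Finset ι) (f : ι → ℕ) (hf : ∀ i ∈ s, f i ≠ 0)
    (x : ℕ) : sym σ (∏ i ∈ s, f i) x = ∏ i ∈ s, sym σ (f i) x := by
  classical
  induction s using Finset.induction_on with
  | empty => cases σ <;> simp [sym]
  | insert a s ha ih =>
    have h1 := ih fun i hi => hf i (mem_insert_of_mem hi)
    rw [prod_insert ha, prod_insert ha, ← h1]
    cases σ
    · simp only [sym, Bool.false_eq_true, if_false]
      exact jacobiSym.mul_right' _ (hf a (mem_insert_self _ _))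
        (prod_ne_zero_iff.mpr fun i hi => hf i (mem_insert_of_mem hi))
    · simp only [sym, if_true]
      rw [Nat.cast_mul, jacobiSym.mul_left]

theorem sym_prod_eq_one {ι : Type} (σ : Bool) (s : Finset ι) (f : ι → ℕ)
    (hf : ∀ i ∈ s, (f i).Prime) {x : ℕ} (hx : x.Prime) (hne : ∀ i ∈ s, f i ≠ x)
    (h : ∑ i ∈ s, bit σ x (f i) = 0) : sym σ (∏ i ∈ s, f i) x = 1 := by
  rw [sym_prod σ s f fun i hi => (hf i hi).ne_zero]
  have : ∏ i ∈ s, sym σ (f i) x = ∏ i ∈ s, sgn (bit σ x (f i)) := by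
    refine prod_congr rfl fun i hi => ?_
    cases σ
    · simpa [sym, bit] using J_eq_sgn (hf i hi) hx (hne i hi)
    · simpa [sym, bit] using J_eq_sgn hx (hf i hi) (hne i hi).symm
  rw [this, ← sgn_sum, h]; rfl

variable {K : ℕ}

/-- Admissible tuples of special primes. -/
def Adm (M : ℕ) (q : Fin K → ℕ) : Prop :=
  (∀ i, (q i).Prime ∧ q i ≠ 2 ∧ ¬ q i ∣ M) ∧ Function.Injective q

/-- The pattern `Y` of symbols forces the Redei condition in the residue class `ρ`. -/
def Ok (M : ℕ) (ρ : Fin K → ℕ) (Y : Fin K → Fin K → ℝ) : Prop :=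
  ∀ q, Adm M q → (∀ i, q i % (60 * M) = ρ i) → (∀ i j, i < j → (J(q j | q i) : ℝ) = Y i j) →
    CondB ((M * ∏ i, q i : ℕ) : ℤ)

/-- Some pattern works. -/
def Phi (M : ℕ) (ρ : Fin K → ℕ) : Prop :=
  ∃ Y : Fin K → Fin K → ℝ, (∀ i j, Y i j = 1 ∨ Y i j = -1) ∧ Ok M ρ Y

/-- A divisor of `M` lies in the right or left kernel. -/
def Bad (σ : Bool) (M : ℕ) (q : Fin K → ℕ) : Prop :=
  ∃ d e, d * e = M ∧ 1 < d ∧ (∀ p ∈ e.primeFactors, sym σ d p = 1) ∧ (∀ i, sym σ d (q i) = 1) ∧
    ∀ p ∈ d.primeFactors, sym σ (e * ∏ i, q i) p = 1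

/-- All primes of `M * ∏ q`. -/
def prs (M : ℕ) (q : Fin K → ℕ) : M.primeFactors ⊕ Fin K → ℕ := Sum.elim (fun p => p) q

theorem prs_prime {M : ℕ} {q : Fin K → ℕ} (h : Adm M q) (i) : (prs M q i).Prime := by
  rcases i with p | i
  · exact (Nat.mem_primeFactors.mp p.2).1
  · exact (h.1 i).1

theorem prs_ne_two {M : ℕ} (hM : Odd M) {q : Fin K → ℕ} (h : Adm M q) (i) : prs M q i ≠ 2 := by
  rcases i with p | i
  · intro h2
    have h3 : (p : ℕ) ∣ M := (Nat.mem_primeFactors.mp p.2).2.1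
    have h4 : (p : ℕ) = 2 := h2
    rw [h4] at h3
    exact (Nat.not_even_iff_odd.mpr hM) (even_iff_two_dvd.mpr h3)
  · exact (h.1 i).2.1

theorem prs_inj {M : ℕ} {q : Fin K → ℕ} (h : Adm M q) : Function.Injective (prs M q) := by
  rintro (p | i) (p' | j) hh
  · exact congrArg _ (Subtype.ext hh)
  · exact absurd (show q j ∣ M from (show (p : ℕ) = q j from hh) ▸
      (Nat.mem_primeFactors.mp p.2).2.1) (h.1 j).2.2
  · exact absurd (show q i ∣ M from (show q i = (p' : ℕ) from hh) ▸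
      (Nat.mem_primeFactors.mp p'.2).2.1) (h.1 i).2.2
  · exact congrArg _ (h.2 hh)

theorem prod_prs {M : ℕ} (hM : Squarefree M) (q : Fin K → ℕ) :
    ∏ i, prs M q i = M * ∏ i, q i := by
  rw [Fintype.prod_sum_type]
  simp only [prs, Sum.elim_inl, Sum.elim_inr]
  rw [prod_coe_sort M.primeFactors (fun q => q), Nat.prod_primeFactors_of_squarefree hM]

theorem bad_of_ker (σ : Bool) {M : ℕ} (hM : Squarefree M) {q : Fin K → ℕ} (h : Adm M q)
    (v : M.primeFactors ⊕ Fin K → ZMod 2)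
    (hv : Lap (fun i j => bit σ (prs M q i) (prs M q j)) *ᵥ v = 0)
    (hK : ∀ i ∈ Set.range (Sum.inr : Fin K → M.primeFactors ⊕ Fin K), v i = 0) (h0 : v ≠ 0) :
    Bad σ M q := by
  set S : Finset (M.primeFactors ⊕ Fin K) := {i | v i = 1} with hS
  have hS1 : ∀ i, i ∈ S ↔ v i = 1 := fun i => by simp [hS]
  have hS0 : ∀ i, i ∉ S ↔ v i = 0 := fun i => by
    rw [hS1]; generalize v i = t; revert t; decide
  have hq0 : ∀ i, v (Sum.inr i) = 0 := fun i => hK _ ⟨i, rfl⟩
  have r1 : ∀ i, i ∉ S → sym σ (∏ j ∈ S, prs M q j) (prs M q i) = 1 := by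
    intro i hi
    refine sym_prod_eq_one σ S _ (fun j _ => prs_prime h j) (prs_prime h i)
      (fun j hj hh => hi (prs_inj h hh ▸ hj)) ?_
    have := congrFun hv i
    rw [Lap_mulVec, (hS0 i).mp hi, ← sum_add_sum_compl S] at this
    rw [sum_eq_zero (s := Sᶜ) fun j hj => by rw [(hS0 j).mp (by simpa using hj)]; simp,
      add_zero] at this
    refine Eq.trans ?_ this
    exact sum_congr rfl fun j hj => by rw [(hS1 j).mp hj]; simp
  have r2 : ∀ i, i ∈ S → sym σ (∏ j ∈ Sᶜ, prs M q j) (prs M q i) = 1 := by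
    intro i hi
    refine sym_prod_eq_one σ Sᶜ _ (fun j _ => prs_prime h j) (prs_prime h i)
      (fun j hj hh => (by simpa using hj : j ∉ S) (prs_inj h hh ▸ hi)) ?_
    have := congrFun hv i
    rw [Lap_mulVec, (hS1 i).mp hi, ← sum_add_sum_compl S] at this
    rw [sum_eq_zero (s := S) fun j hj => by
      rw [(hS1 j).mp hj, CharTwo.add_self_eq_zero]; simp, zero_add] at this
    refine Eq.trans ?_ this
    exact sum_congr rfl fun j hj => by rw [(hS0 j).mp (by simpa using hj)]; simp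
  set d := ∏ j ∈ S, prs M q j with hd
  set e := ∏ p : M.primeFactors with v (Sum.inl p) = 0, (p : ℕ) with he
  have hde : ∏ j ∈ Sᶜ, prs M q j = e * ∏ i, q i := by
    rw [← Fintype.prod_ite_mem Sᶜ (prs M q), Fintype.prod_sum_type, he, prod_filter]
    congr 1
    · exact prod_congr rfl fun p _ => by simp only [mem_compl, hS0]; rfl
    · exact prod_congr rfl fun i _ => by simp only [mem_compl, hS0, hq0, if_true]; rfl
  have hq1 : ∏ i, q i ≠ 0 := prod_ne_zero_iff.mpr fun i _ => (h.1 i).1.ne_zero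
  have hdeM : d * e = M := by
    apply mul_right_cancel₀ hq1
    rw [mul_assoc, ← hde, hd, prod_mul_prod_compl, prod_prs hM]
  have hmemS : ∀ p ∈ d.primeFactors, ∃ i ∈ S, prs M q i = p := by
    intro p hp
    have h1 := Nat.mem_primeFactors.mp hp
    obtain ⟨i, hi, hdv⟩ := (Prime.dvd_finsetProd_iff h1.1.prime _).mp h1.2.1
    exact ⟨i, hi, ((Nat.prime_dvd_prime_iff_eq h1.1 (prs_prime h i)).mp hdv).symm⟩
  refine ⟨d, e, hdeM, ?_, fun p hp => ?_, fun i => ?_, fun p hp => ?_⟩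
  · obtain ⟨i, hi⟩ := Function.ne_iff.mp h0
    have hi' : i ∈ S := by by_contra hc; exact hi ((hS0 i).mp hc)
    have h1 : prs M q i ∣ d := dvd_prod_of_mem _ hi'
    have h2 : 0 < d := prod_pos fun j _ => (prs_prime h j).pos
    exact (prs_prime h i).one_lt.trans_le (Nat.le_of_dvd h2 h1)
  · have h1 := Nat.mem_primeFactors.mp hp
    obtain ⟨i, hi, hdv⟩ := (Prime.dvd_finsetProd_iff h1.1.prime _).mp h1.2.1
    have h2 : p = i := (Nat.prime_dvd_prime_iff_eq h1.1 (Nat.mem_primeFactors.mp i.2).1).mp hdv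
    rw [h2]
    exact r1 (Sum.inl i) ((hS0 _).mpr (mem_filter.mp hi).2)
  · exact r1 (Sum.inr i) ((hS0 _).mpr (hq0 i))
  · obtain ⟨i, hi, rfl⟩ := hmemS p hp
    rw [← hde]; exact r2 i hi

theorem phi_of_not_bad {M : ℕ} (hM : Squarefree M) (hMo : Odd M) {q : Fin K → ℕ} (h : Adm M q)
    (h4 : (M * ∏ i, q i) % 4 = 3) (hR : ¬ Bad true M q) (hL : ¬ Bad false M q) :
    Phi M fun i => q i % (60 * M) := by
  have hp := prs_prime h
  have h2 := prs_ne_two hMo h
  have hi := prs_inj h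
  have hT : (Lap fun i j => aleg (prs M q i) (prs M q j))ᵀ =
      Lap fun i j => aleg (prs M q j) (prs M q i) := by
    refine Lap_transpose fun i => ?_
    have e1 : ∑ r ∈ univ.erase i, aleg (prs M q r) (prs M q i) =
        ∑ r ∈ univ.erase i, (aleg (prs M q i) (prs M q r) + eps (prs M q i) * eps (prs M q r)) :=
      sum_congr rfl fun r hr => aleg_recip (hp i) (hp r) (h2 i) (h2 r)
        fun hh => ne_of_mem_erase hr (hi hh).symm
    rw [e1, sum_add_distrib, ← mul_sum]
    have e2 := (eps_prod univ (prs M q) fun j _ => (hp j).eq_two_or_odd.resolve_left (h2 j)).2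
    rw [prod_prs hM, ← add_sum_erase _ _ (mem_univ i)] at e2
    have e3 : eps (M * ∏ i, q i) = 1 := by simp [eps, h4]
    rw [e3] at e2
    revert e2
    generalize eps (prs M q i) = x, ∑ r ∈ univ.erase i, eps (prs M q r) = y,
      ∑ r ∈ univ.erase i, aleg (prs M q i) (prs M q r) = z
    revert x y z; decide
  obtain ⟨s, hs1, hs2, hs3⟩ := flip (Set.range (Sum.inr : Fin K → M.primeFactors ⊕ Fin K)) _
    (Lap fun i j => aleg (prs M q i) (prs M q j)) le_rfl (Lap_one _) (by rw [hT]; exact Lap_one _)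
    (fun v hv hK => by by_contra h0; exact hR (bad_of_ker true hM h v hv hK h0))
    (fun v hv hK => by by_contra h0; exact hL (bad_of_ker false hM h v (hT ▸ hv) hK h0))
  refine ⟨fun i j => (sgn (aleg (q i) (q j) + s (Sum.inr i) (Sum.inr j)) : ℝ), fun i j => ?_,
    fun q' h' hres hY => ?_⟩
  · simp only [sgn]; split_ifs <;> simp
  rw [← prod_prs hM]
  refine condB_of_Lap _ (prs_prime h') (prs_inj h') fun v hv => hs3 v ?_
  rw [← Lap_add, ← hv]
  congr 1
  have hp' := prs_prime h'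
  have h2' := prs_ne_two hMo h'
  have hi' := prs_inj h'
  have hmod : ∀ i m, m ∣ 60 * M → q' i ≡ q i [MOD m] := fun i m hm =>
    Nat.ModEq.of_dvd hm (hres i)
  have heps : ∀ i, eps (prs M q' i) = eps (prs M q i) := by
    rintro (p | i)
    · rfl
    · have : q' i % 4 = q i % 4 := hmod i 4 (Dvd.dvd.mul_right (by norm_num) M)
      show eps (q' i) = eps (q i)
      unfold eps; rw [this]
  have hsw : ∀ i j, i ≠ j → aleg (prs M q i) (prs M q j) + s i j = aleg (prs M q' i) (prs M q' j) →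
      aleg (prs M q j) (prs M q i) + s j i = aleg (prs M q' j) (prs M q' i) := by
    intro i j hij hh
    rw [aleg_recip (hp i) (hp j) (h2 i) (h2 j) fun e => hij (hi e),
      aleg_recip (hp' i) (hp' j) (h2' i) (h2' j) fun e => hij (hi' e), heps, heps, ← hh, hs1 j i]
    ring
  have hl : ∀ (p : M.primeFactors) j, aleg (prs M q (Sum.inl p)) (prs M q j) + s (Sum.inl p) j =
      aleg (prs M q' (Sum.inl p)) (prs M q' j) := by
    intro p j
    rw [hs2 _ _ (by simp), add_zero]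
    rcases j with p' | j
    · rfl
    · exact aleg_congr (hmod j p (Dvd.dvd.mul_left (Nat.mem_primeFactors.mp p.2).2.1 60)).symm
  have hr : ∀ i j : Fin K, i < j → aleg (prs M q (Sum.inr i)) (prs M q (Sum.inr j)) +
      s (Sum.inr i) (Sum.inr j) = aleg (prs M q' (Sum.inr i)) (prs M q' (Sum.inr j)) := by
    intro i j hij
    have h3 := hY i j hij
    rw [J_eq_sgn (h'.1 i).1 (h'.1 j).1 fun e => hij.ne (h'.2 e)] at h3
    exact (sgn_inj _ _ (Int.cast_injective (α := ℝ) h3)).symm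
  refine Lap_congr ?_
  rintro (p | i) j hij
  · exact hl p j
  · rcases j with p | j
    · exact hsw _ _ hij.symm (hl p _)
    · rcases lt_trichotomy i j with hlt | rfl | hlt
      · exact hr i j hlt
      · exact absurd rfl hij
      · exact hsw _ _ hij.symm (hr j i hlt)

end Pool.Agent.Lib.MP_696deb_nt.Den
end
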