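import Pool.Agent.Lib.MP_696deb_nt.DenT0

-- part Pool.Agent.Lib.MP_696deb_nt.DenT
section

/-! The logarithmically weighted first moment: T1 and T2. -/

set_option autoImplicit false

open Finset Filter Topology
open scoped NumberTheorySymbols

namespace Pool.Agent.Lib.MP_696deb_nt.Den

/-- completely multiplicative version of `sym σ d` -/
noncomputable def chi (σ : Bool) (d n : ℕ) : ℝ := if σ then (jacR d n : ℝ) else (J(n | d) : ℝ)

theorem chi_one (σ : Bool) (d : ℕ) : chi σ d 1 = 1 := by cases σ <;> simp [chi, jacR]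

theorem chi_mul (σ : Bool) (d a b : ℕ) : chi σ d (a * b) = chi σ d a * chi σ d b := by
  cases σ <;> simp [chi, jacR_mul, jacobiSym.mul_left]

theorem chi_abs (σ : Bool) (d a : ℕ) : |chi σ d a| ≤ 1 := by
  cases σ
  · exact abs_J_le _ _
  · simp only [chi, if_true]; exact_mod_cast abs_jacR_le d a

theorem chi_sum (σ : Bool) {d : ℕ} (hd : Squarefree d) (ho : Odd d) (h1 : d ≠ 1) (t : ℕ) :
    |∑ n ∈ range t, chi σ d n| ≤ (4 * d : ℕ) := by
  rw [range_eq_Ico]
  cases σ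
  · have := abs_sum_jac_le hd squarefree_one ho odd_one h1 0 t
    simp only [jacobiSym.one_right, mul_one] at this
    have h2 : |∑ n ∈ Ico 0 t, J(n | d)| ≤ ((4 * d : ℕ) : ℤ) := this.trans (by push_cast; omega)
    simp only [chi, Bool.false_eq_true, if_false]
    exact_mod_cast h2
  · simp only [chi, if_true]
    exact_mod_cast abs_sum_jacR_le hd ho h1 0 t

theorem sym_eq (σ : Bool) (d : ℕ) {n : ℕ} (hn : Odd n) : (sym σ d n : ℝ) = chi σ d n := by
  cases σ <;> simp [sym, chi, jacR, hn]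

theorem chi_swap (σ : Bool) {d n : ℕ} (hd : Odd d) (hn : Odd n) : chi σ d n = chi (!σ) n d := by
  cases σ <;> simp [chi, jacR, hn, hd]

/-- product of the odd primes up to `y` -/
def PP (y : ℕ) : ℕ := ∏ p ∈ (Icc 1 y).filter (fun p => p.Prime ∧ Odd p), p

theorem PP_pf (y : ℕ) : (PP y).primeFactors = (Icc 1 y).filter (fun p => p.Prime ∧ Odd p) :=
  Nat.primeFactors_prod fun _ hp => (mem_filter.1 hp).2.1

theorem PP_sq (y : ℕ) : Squarefree (PP y) :=
  Finset.squarefree_prod_of_pairwise_isCoprime (fun p hp q hq h => by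
    simp only [Function.onFun, ← Nat.coprime_iff_isRelPrime]
    exact (Nat.coprime_primes (mem_filter.1 hp).2.1 (mem_filter.1 hq).2.1).2 h)
    fun p hp => (mem_filter.1 hp).2.1.squarefree

theorem PP_odd (y : ℕ) : Odd (PP y) :=
  Finset.prod_induction _ Odd (fun _ _ => Odd.mul) odd_one fun _ hp => (mem_filter.1 hp).2.2

theorem PP_div {y d : ℕ} (hd : d ∈ (PP y).divisors) : Squarefree d ∧ Odd d :=
  ⟨(PP_sq y).squarefree_of_dvd (Nat.dvd_of_mem_divisors hd),
    (PP_odd y).of_dvd_nat (Nat.dvd_of_mem_divisors hd)⟩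

theorem PP_pf_odd {y p : ℕ} (hp : p ∈ (PP y).primeFactors) : Odd p :=
  (PP_odd y).of_dvd_nat (Nat.dvd_of_mem_primeFactors hp)

theorem SO_sub (y : ℕ) : SO y ⊆ (PP y).divisors := fun e he => by
  simp only [SO, mem_filter, mem_Icc] at he
  rw [Nat.mem_divisors, ← Nat.prod_primeFactors_of_squarefree he.2.1,
    Nat.prod_primeFactors_dvd_iff (PP_sq y).ne_zero, PP_pf]
  refine ⟨fun p hp => ?_, (PP_sq y).ne_zero⟩
  have h1 := Nat.prime_of_mem_primeFactors hp
  have h2 := Nat.dvd_of_mem_primeFactors hp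
  exact mem_filter.2 ⟨mem_Icc.2 ⟨h1.pos, (Nat.le_of_dvd he.1.1 h2).trans he.1.2⟩, h1,
    he.2.2.of_dvd_nat h2⟩

/-- the Euler product attached to `chi σ d` -/
noncomputable def EE (σ : Bool) (y d : ℕ) : ℝ :=
  ∏ p ∈ (PP y).primeFactors, (1 + (1 + chi σ d p) / 2 * xs (Real.log y) p)

theorem half_nonneg (σ : Bool) (d p : ℕ) : 0 ≤ (1 + chi σ d p) / 2 := by
  linarith [(abs_le.1 (chi_abs σ d p)).1]

theorem EE_nonneg (σ : Bool) (y d : ℕ) : 0 ≤ EE σ y d := prod_nonneg fun p _ => by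
  have := half_nonneg σ d p
  have := xs_nonneg (Real.log y) p
  positivity

theorem inv_le_xs {y e : ℕ} (hL : 0 < Real.log y) (he : e ∈ SO y) :
    1 / (e : ℝ) ≤ 3 * xs (Real.log y) e := by
  simp only [SO, mem_filter, mem_Icc] at he
  have e0 : (0 : ℝ) < e := by exact_mod_cast he.1.1
  have h1 : Real.log e ≤ Real.log y := Real.log_le_log e0 (by exact_mod_cast he.1.2)
  rw [xs, neg_add, Real.rpow_add e0, Real.rpow_neg_one, one_div, mul_left_comm]
  refine le_mul_of_one_le_right (by positivity) ?_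
  rw [Real.rpow_def_of_pos e0]
  have h2 : Real.exp (-1) ≤ Real.exp (Real.log e * -(1 / Real.log y)) := by
    refine Real.exp_le_exp.2 ?_
    rw [mul_neg, neg_le_neg_iff, mul_one_div, div_le_one hL]; exact h1
  have h3 : Real.exp (-1) * Real.exp 1 = 1 := by rw [← Real.exp_add]; simp
  have h4 := Real.exp_one_lt_d9
  have h5 := Real.exp_pos (-1)
  nlinarith

theorem Wt_le (σ : Bool) {y : ℕ} (hL : 0 < Real.log y) (d : ℕ) : Wt σ y d ≤ 3 * EE σ y d := by
  rw [EE, prod_one_add_div (PP_sq y), mul_sum]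
  refine le_trans (sum_le_sum fun e he => ?_) (sum_le_sum_of_subset_of_nonneg (SO_sub y)
    fun e _ _ => mul_nonneg (by norm_num) (prod_nonneg fun p _ =>
      mul_nonneg (half_nonneg σ d p) (xs_nonneg _ _)))
  obtain ⟨h1, h2⟩ := PP_div (SO_sub y he)
  rw [prod_mul_distrib, xs_prod _ h1, prod_congr rfl fun p hp => by
    rw [sym_eq σ d (h2.of_dvd_nat (Nat.dvd_of_mem_primeFactors hp))]]
  have := mul_le_mul_of_nonneg_right (inv_le_xs hL he)
    (prod_nonneg (s := e.primeFactors) fun p _ => half_nonneg σ d p)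
  linarith

theorem EE_le (σ : Bool) {y : ℕ} (hL : 0 < Real.log y) (d : ℕ) : EE σ y d ≤ 1 + Real.log y := by
  refine le_trans (prod_le_prod (fun p _ => ?_) fun p _ => ?_) (prod_xs_le hL (PP_sq y))
  · have := half_nonneg σ d p
    have := xs_nonneg (Real.log y) p
    positivity
  · have := (abs_le.1 (chi_abs σ d p)).2
    have := xs_nonneg (Real.log y) p
    nlinarith

/-- the bound for the Euler products of small nontrivial characters -/
noncomputable def Gam (B : ℕ) (L : ℝ) : ℝ := √(2 * (1 + L) * (5 + B * Real.log L))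

theorem EE_le_Gam (σ : Bool) {y d B : ℕ} (hL : 0 < Real.log y) (hd : Squarefree d) (ho : Odd d)
    (h1 : d ≠ 1) (hz : (d : ℝ) ≤ Real.log y ^ B) : EE σ y d ≤ Gam B (Real.log y) := by
  refine Real.le_sqrt_of_sq_le ((euler_sq_le hL (PP_sq y) (chi_one σ d) (chi_mul σ d) (chi_abs σ d)
    (chi_sum σ hd ho h1)).trans (mul_le_mul_of_nonneg_left ?_ (by positivity)))
  have d0 : (0 : ℝ) < d := by exact_mod_cast Nat.pos_of_ne_zero hd.ne_zero
  have a1 := Real.log_le_log d0 hz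
  rw [Real.log_pow] at a1
  push_cast
  rw [Real.log_mul (by norm_num) d0.ne', show (4 : ℝ) = 2 ^ 2 by norm_num, Real.log_pow]
  have := Real.log_two_lt_d9
  push_cast; linarith

theorem small (B : ℕ) {ε : ℝ} (hε : 0 < ε) : ∀ᶠ y : ℕ in atTop, 3 ≤ Real.log y ∧
    (1 + B * Real.log (Real.log y)) ^ 2 * Gam B (Real.log y) ≤ ε * Real.log y := by
  have t : Tendsto (fun y : ℕ => Real.log y) atTop atTop :=
    Real.tendsto_log_atTop.comp tendsto_natCast_atTop_atTop
  have c0 : 0 < ε ^ 2 / (4 * (1 + B) ^ 4 * (5 + B)) := by positivity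
  filter_upwards [t.eventually_ge_atTop 3,
    t.eventually ((Real.isLittleO_pow_log_id_atTop (n := 5)).bound c0)] with y h1 h2
  refine ⟨h1, ?_⟩
  generalize Real.log y = L at h1 h2
  have l1 : 1 ≤ Real.log L := by
    rw [Real.le_log_iff_exp_le (by linarith)]; linarith [Real.exp_one_lt_d9]
  rw [Real.norm_of_nonneg (by positivity), id, Real.norm_of_nonneg (by linarith),
    div_mul_eq_mul_div, le_div_iff₀ (by positivity)] at h2
  refine le_of_pow_le_pow_left₀ (n := 2) (by norm_num) (by positivity) ?_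
  rw [mul_pow, Gam, Real.sq_sqrt (by positivity)]
  have B0 : (0 : ℝ) ≤ B := Nat.cast_nonneg B
  calc _ ≤ (((1 + B) * Real.log L) ^ 2) ^ 2 * (2 * (L + L) * ((5 + B) * Real.log L)) := by
        gcongr <;> nlinarith
    _ = Real.log L ^ 5 * (4 * (1 + B) ^ 4 * (5 + B)) * L := by ring
    _ ≤ ε ^ 2 * L * L := by gcongr
    _ = _ := by ring

theorem sum_small_le {L : ℝ} (hL : 1 ≤ L) (B : ℕ) {F : Finset ℕ}
    (hF : ∀ d ∈ F, 0 < d ∧ (d : ℝ) ≤ L ^ B) : ∑ d ∈ F, 1 / (d : ℝ) ≤ 1 + B * Real.log L := by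
  have z1 : 1 ≤ L ^ B := one_le_pow₀ hL
  refine (sum_le_sum_of_subset_of_nonneg (t := Icc 1 ⌊L ^ B⌋₊) (fun d hd =>
    mem_Icc.2 ⟨(hF d hd).1, Nat.le_floor (hF d hd).2⟩) fun _ _ _ => by positivity).trans
    ((sum_inv_le _).trans ?_)
  rw [← Real.log_pow]
  gcongr
  · exact_mod_cast Nat.floor_pos.2 z1
  · exact Nat.floor_le (by linarith)

theorem T2 (B : ℕ) {ε : ℝ} (hε : 0 < ε) (σ : Bool) : ∀ᶠ y : ℕ in atTop,
    ∑ d ∈ (SO y).filter (fun d : ℕ => 1 < d ∧ (d : ℝ) ≤ Real.log y ^ B),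
      1 / (d : ℝ) * Wt σ y d ≤ ε * Real.log y := by
  filter_upwards [small B (show 0 < ε / 3 by positivity)] with y ⟨h1, h2⟩
  have hL : 0 < Real.log y := by linarith
  have G0 : 0 ≤ Gam B (Real.log y) := Real.sqrt_nonneg _
  have l0 : 0 ≤ B * Real.log (Real.log y) := mul_nonneg (Nat.cast_nonneg B)
    (Real.log_nonneg (by linarith))
  calc _ ≤ ∑ d ∈ (SO y).filter (fun d : ℕ => 1 < d ∧ (d : ℝ) ≤ Real.log y ^ B),
        1 / (d : ℝ) * (3 * Gam B (Real.log y)) := by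
        refine sum_le_sum fun d hd => mul_le_mul_of_nonneg_left ?_ (by positivity)
        obtain ⟨a1, a2, a3⟩ := mem_filter.1 hd
        obtain ⟨b1, b2⟩ := PP_div (SO_sub y a1)
        linarith [Wt_le σ hL d, EE_le_Gam σ hL b1 b2 a2.ne' a3]
    _ ≤ (1 + B * Real.log (Real.log y)) * (3 * Gam B (Real.log y)) := by
        rw [← sum_mul]
        exact mul_le_mul_of_nonneg_right (sum_small_le (by linarith) B fun d hd =>
          ⟨by have := (mem_filter.1 hd).2.1; omega, (mem_filter.1 hd).2.2⟩) (by positivity)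
    _ ≤ _ := by nlinarith [mul_nonneg l0 G0, mul_nonneg (mul_nonneg l0 l0) G0]

theorem geom_le {L : ℝ} (hL : 0 < L) (I : ℕ) :
    ∑ i ∈ range I, ((2 ^ (i + 1) : ℕ) : ℝ) * xs L (2 ^ i) ≤ 2 * (1 + 2 * L) := by
  set ρ : ℝ := (2 : ℝ) ^ (-(1 / L)) with hρ
  have ρ0 : 0 < ρ := Real.rpow_pos_of_pos (by norm_num) _
  have x2 : xs L 2 = ρ / 2 := by
    rw [xs, neg_add, Real.rpow_add (by norm_num), Real.rpow_neg_one, hρ]; push_cast; ring
  have xi : ∀ i, xs L (2 ^ i) = (ρ / 2) ^ i := fun i => by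
    induction i with
    | zero => simp [xs_one]
    | succ i ih => rw [pow_succ, xs_mul, ih, x2, pow_succ]
  have e : ∀ i, ((2 ^ (i + 1) : ℕ) : ℝ) * xs L (2 ^ i) = 2 * ρ ^ i := fun i => by
    rw [xi, div_pow]; push_cast; field_simp; ring
  simp only [e, ← mul_sum]
  refine mul_le_mul_of_nonneg_left ?_ (by norm_num)
  have h1 : ρ * (1 + 1 / (2 * L)) ≤ 1 := by
    have a1 : 1 + 1 / (2 * L) ≤ (2 : ℝ) ^ (1 / L) := by
      rw [Real.rpow_def_of_pos (by norm_num)]
      refine le_trans ?_ (Real.add_one_le_exp _)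
      have := Real.log_two_gt_d9
      have h2 : 1 / (2 * L) = 1 / 2 * (1 / L) := by field_simp
      have h3 : 0 < 1 / L := by positivity
      nlinarith
    calc _ ≤ ρ * (2 : ℝ) ^ (1 / L) := by gcongr
      _ = 1 := by rw [hρ, ← Real.rpow_add (by norm_num)]; simp
  have h2 := mul_neg_geom_sum ρ I
  have h3 : 0 ≤ ∑ i ∈ range I, ρ ^ i := sum_nonneg fun _ _ => by positivity
  have h4 : 1 ≤ (1 - ρ) * (1 + 2 * L) := by
    have : ρ * (1 + 2 * L) = ρ * (1 + 1 / (2 * L)) * (2 * L) := by field_simp; ring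
    nlinarith
  have h5 : 0 < ρ ^ I := by positivity
  nlinarith

theorem dyadic_bil : ∃ C : ℝ, 0 < C ∧ ∀ (L : ℝ), 0 < L → ∀ (F : Finset ℕ) (α β : ℕ → ℝ),
    (∀ d ∈ F, Squarefree d ∧ Odd d ∧ L ^ 36 ≤ d) → (∀ d ∈ F, |α d| ≤ xs L d) →
    (∀ d ∈ F, |β d| ≤ xs L d) →
    |∑ d ∈ F, ∑ b ∈ F, α d * β b * (J(d | b) : ℝ)| ≤ C * (1 + 2 * L) ^ 2 / L ^ 3 := by
  obtain ⟨C, hC, h⟩ := bilinear_sym
  refine ⟨4 * C, by positivity, fun L hL F α β hF hα hβ => ?_⟩
  set I := F.sup id + 1 with hI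
  have hm : ∀ d ∈ F, Nat.log 2 d ∈ range I := fun d hd =>
    mem_range.2 (Nat.lt_succ_of_le ((Nat.log_le_self 2 d).trans (le_sup (f := id) hd)))
  let box : ℕ → Finset ℕ := fun i => F.filter fun d => Nat.log 2 d = i
  have xp : ∀ i, 0 < xs L (2 ^ i) := fun i => Real.rpow_pos_of_pos (by positivity) _
  have norm : ∀ (γ : ℕ → ℝ), (∀ d ∈ F, |γ d| ≤ xs L d) → ∀ i m,
      |if m ∈ box i then γ m / xs L (2 ^ i) else 0| ≤ 1 := fun γ hγ i m => by
    split_ifs with hm
    · obtain ⟨a1, a2⟩ := mem_filter.1 hm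
      rw [abs_div, abs_of_pos (xp i), div_le_one (xp i), ← a2]
      exact (hγ m a1).trans (xs_anti hL (by positivity) (Nat.pow_log_le_self 2 (hF m a1).1.ne_zero))
    · simp
  have inb : ∀ i, ∀ d ∈ box i, Squarefree d ∧ Odd d ∧ d ≤ 2 ^ (i + 1) := fun i d hd => by
    obtain ⟨a1, a2⟩ := mem_filter.1 hd
    exact ⟨(hF d a1).1, (hF d a1).2.1, a2 ▸ (Nat.lt_pow_succ_log_self (by norm_num) d).le⟩
  have big : ∀ i, (box i).Nonempty → L ^ 36 ≤ ((2 ^ (i + 1) : ℕ) : ℝ) := fun i ⟨d, hd⟩ =>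
    (hF d (mem_filter.1 hd).1).2.2.trans (by exact_mod_cast (inb i d hd).2.2)
  have bb : ∀ i j, |∑ d ∈ box i, ∑ b ∈ box j, α d * β b * (J(d | b) : ℝ)| ≤
      C / L ^ 3 * ((((2 ^ (i + 1) : ℕ) : ℝ) * xs L (2 ^ i)) *
        (((2 ^ (j + 1) : ℕ) : ℝ) * xs L (2 ^ j))) := fun i j => by
    have xi := xp i
    have xj := xp j
    rcases (box i).eq_empty_or_nonempty with hi | hi
    · rw [hi, sum_empty, abs_zero]; positivity
    rcases (box j).eq_empty_or_nonempty with hj | hj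
    · rw [hj]; simp only [sum_empty, sum_const_zero, abs_zero]; positivity
    have := h L _ _ hL (big i hi) (big j hj) (box i) (box j) _ _ (norm α hα i) (norm β hβ j)
      (inb i) (inb j)
    have e : ∑ d ∈ box i, ∑ b ∈ box j, α d * β b * (J(d | b) : ℝ) =
        xs L (2 ^ i) * xs L (2 ^ j) * ∑ d ∈ box i, ∑ b ∈ box j,
          (if d ∈ box i then α d / xs L (2 ^ i) else 0) *
          (if b ∈ box j then β b / xs L (2 ^ j) else 0) * (J(d | b) : ℝ) := by
      simp only [mul_sum]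
      refine sum_congr rfl fun d hd => sum_congr rfl fun b hb => ?_
      rw [if_pos hd, if_pos hb]; field_simp
    rw [e, abs_mul, abs_of_pos (mul_pos xi xj)]
    exact (mul_le_mul_of_nonneg_left this (mul_pos xi xj).le).trans (le_of_eq (by ring))
  have e : ∑ d ∈ F, ∑ b ∈ F, α d * β b * (J(d | b) : ℝ) = ∑ i ∈ range I, ∑ j ∈ range I,
      ∑ d ∈ box i, ∑ b ∈ box j, α d * β b * (J(d | b) : ℝ) := by
    rw [← sum_fiberwise_of_maps_to hm]
    refine sum_congr rfl fun i _ => ?_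
    rw [sum_comm (s := range I)]
    exact sum_congr rfl fun d _ => (sum_fiberwise_of_maps_to hm _).symm
  rw [e]
  refine (abs_sum_le_sum_abs _ _).trans ((sum_le_sum fun i _ => (abs_sum_le_sum_abs _ _).trans
    (sum_le_sum fun j _ => bb i j)).trans ?_)
  simp only [← mul_sum]
  rw [← sum_mul]
  have g := geom_le hL I
  have g0 : 0 ≤ ∑ i ∈ range I, ((2 ^ (i + 1) : ℕ) : ℝ) * xs L (2 ^ i) :=
    sum_nonneg fun i _ => (mul_pos (by positivity) (xp i)).le
  calc _ ≤ C / L ^ 3 * (2 * (1 + 2 * L) * (2 * (1 + 2 * L))) := by gcongr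
    _ = _ := by ring

theorem T1 : ∃ C : ℝ, ∀ σ : Bool, ∀ᶠ y : ℕ in atTop,
    ∑ d ∈ SO y, (1 / 2 : ℝ) ^ d.primeFactors.card / d * Wt σ y d ≤ C * Real.log y := by
  obtain ⟨C, hC, hbil⟩ := dyadic_bil
  refine ⟨9 * (10 + 9 * C), fun σ => ?_⟩
  filter_upwards [small 36 one_pos] with y ⟨h3, hsm⟩
  set L := Real.log y with hLdef
  have hL : 0 < L := by linarith
  set Γ := Gam 36 L with hΓ
  set H := 1 + ((36 : ℕ) : ℝ) * Real.log L with hH
  have G0 : 0 ≤ Γ := Real.sqrt_nonneg _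
  have H1 : 1 ≤ H := le_add_of_nonneg_right (mul_nonneg (by positivity)
    (Real.log_nonneg (by linarith)))
  have HΓ : H * Γ ≤ L := by nlinarith [mul_nonneg (sub_nonneg.2 H1) G0]
  have ΓL : Γ ≤ L := by nlinarith
  set Dv := (PP y).divisors with hDv
  set pf := (PP y).primeFactors with hpf
  let α : ℕ → ℝ := fun d => ∏ p ∈ d.primeFactors, xs L p / 2
  let β : ℕ → ℝ := fun d => ∏ p ∈ d.primeFactors, xs L p / 2 / (1 + xs L p / 2)
  let G : ℝ := ∏ p ∈ pf, (1 + xs L p / 2)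
  have x0 := xs_nonneg L
  have α0 : ∀ d, 0 ≤ α d := fun d => prod_nonneg fun p _ => by have := x0 p; positivity
  have β0 : ∀ d, 0 ≤ β d := fun d => prod_nonneg fun p _ => by have := x0 p; positivity
  have G0' : 0 ≤ G := prod_nonneg fun p _ => by have := x0 p; positivity
  have αx : ∀ d ∈ Dv, α d ≤ xs L d := fun d hd => by
    rw [← xs_prod L (PP_div hd).1]
    exact prod_le_prod (fun p _ => by have := x0 p; positivity) fun p _ => by linarith [x0 p]
  have βx : ∀ d ∈ Dv, β d ≤ xs L d := fun d hd => by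
    rw [← xs_prod L (PP_div hd).1]
    refine prod_le_prod (fun p _ => by have := x0 p; positivity) fun p _ => ?_
    have := x0 p
    rw [div_le_iff₀ (by positivity)]; nlinarith
  have GΓ : G ≤ Γ := by
    refine Real.le_sqrt_of_sq_le ?_
    have a1 : G ^ 2 ≤ (∏ p ∈ pf, (1 + xs L p ^ 2)) * ∏ p ∈ pf, (1 + xs L p) := by
      rw [← prod_pow, ← prod_mul_distrib]
      refine prod_le_prod (fun _ _ => sq_nonneg _) fun p _ => ?_
      have := x0 p
      nlinarith [pow_nonneg this 3]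
    have a2 : (∏ p ∈ pf, (1 + xs L p ^ 2)) * ∏ p ∈ pf, (1 + xs L p) ≤ 2 * (1 + L) :=
      mul_le_mul (prod_xs_sq_le hL (PP_sq y)) (prod_xs_le hL (PP_sq y))
        (prod_nonneg fun p _ => by have := x0 p; positivity) (by norm_num)
    refine (a1.trans a2).trans (le_mul_of_one_le_right (by positivity) (by linarith))
  have I1 : ∀ d, G * ∑ b ∈ Dv, β b * chi σ d b = EE σ y d := fun d => by
    have : ∑ b ∈ Dv, β b * chi σ d b =
        ∏ p ∈ pf, (1 + xs L p / 2 / (1 + xs L p / 2) * chi σ d p) := by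
      rw [prod_one_add_div (PP_sq y)]
      refine sum_congr rfl fun b hb => ?_
      rw [prod_mul_distrib, prod_mult (PP_div hb).1 _ (chi_one σ d) fun a b _ _ => chi_mul σ d a b]
    rw [this, EE, ← prod_mul_distrib]
    refine prod_congr rfl fun p _ => ?_
    have := x0 p
    field_simp; ring
  have I2 : ∀ b ∈ Dv, G * ∑ d ∈ Dv, α d * chi σ d b ≤ 2 * EE (!σ) y b := fun b hb => by
    have : ∑ d ∈ Dv, α d * chi σ d b = ∏ p ∈ pf, (1 + xs L p / 2 * chi (!σ) b p) := by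
      rw [prod_one_add_div (PP_sq y)]
      refine sum_congr rfl fun d hd => ?_
      rw [prod_mul_distrib, prod_mult (PP_div hd).1 _ (chi_one _ b) fun a c _ _ => chi_mul _ b a c,
        chi_swap σ (PP_div hd).2 (PP_div hb).2]
    rw [this, ← prod_mul_distrib]
    refine le_trans ?_ (mul_le_mul_of_nonneg_right (prod_xs_sq_le hL (PP_sq y)) (EE_nonneg _ y b))
    rw [EE, ← prod_mul_distrib]
    have x1 : ∀ p ∈ pf, xs L p ≤ 1 := fun p hp => by
      have := (Nat.prime_of_mem_primeFactors hp).pos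
      exact (xs_anti hL one_pos this).trans_eq (xs_one L)
    refine prod_le_prod (fun p hp => ?_) fun p _ => ?_
    · have := x0 p
      have := x1 p hp
      have := abs_le.1 (chi_abs (!σ) b p)
      exact mul_nonneg (by positivity) (by nlinarith)
    · have a1 := x0 p
      have a2 := abs_le.1 (chi_abs (!σ) b p)
      have a3 := mul_nonneg (half_nonneg (!σ) b p) (pow_nonneg a1 3)
      have a4 := mul_le_mul_of_nonneg_right a2.2 (sq_nonneg (xs L p))
      nlinarith [sq_nonneg (xs L p)]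
  let A := Dv.filter fun d : ℕ => (d : ℝ) ≤ L ^ 36
  let A' := Dv.filter fun d : ℕ => ¬ (d : ℝ) ≤ L ^ 36
  have Asum : ∀ γ : ℕ → ℝ, (∀ d ∈ Dv, γ d ≤ xs L d) → ∑ d ∈ A, γ d ≤ H := fun γ hγ =>
    (sum_le_sum fun d hd => (hγ d (mem_filter.1 hd).1).trans (xs_le hL
      (Nat.pos_of_mem_divisors (mem_filter.1 hd).1))).trans (sum_small_le (by linarith) 36
      fun d hd => ⟨Nat.pos_of_mem_divisors (mem_filter.1 hd).1, (mem_filter.1 hd).2⟩)
  have AE : ∀ (τ : Bool) (γ : ℕ → ℝ), (∀ d, 0 ≤ γ d) → (∀ d ∈ Dv, γ d ≤ xs L d) →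
      ∑ d ∈ A, γ d * EE τ y d ≤ 3 * L := fun τ γ h0 hγ => by
    calc _ ≤ ∑ d ∈ A, ((if d = 1 then 1 + L else 0) + γ d * Γ) := sum_le_sum fun d hd => by
          obtain ⟨a1, a2⟩ := mem_filter.1 hd
          split_ifs with h
          · have b1 := (hγ d a1).trans_eq (h ▸ xs_one L)
            have b2 := EE_le τ hL d
            have b3 := EE_nonneg τ y d
            nlinarith [mul_nonneg (h0 d) G0]
          · rw [zero_add]
            exact mul_le_mul_of_nonneg_left (EE_le_Gam τ hL (PP_div a1).1 (PP_div a1).2 h a2) (h0 d)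
      _ ≤ 1 + L + H * Γ := by
          rw [sum_add_distrib, ← sum_mul, sum_ite_eq']
          refine add_le_add (by split_ifs <;> linarith) (mul_le_mul_of_nonneg_right (Asum γ hγ) G0)
      _ ≤ _ := by linarith
  let f : ℕ → ℕ → ℝ := fun d b => α d * β b * chi σ d b
  have split : ∑ d ∈ Dv, ∑ b ∈ Dv, f d b = ∑ d ∈ A, ∑ b ∈ Dv, f d b + ∑ b ∈ A, ∑ d ∈ Dv, f d b -
      ∑ d ∈ A, ∑ b ∈ A, f d b + ∑ d ∈ A', ∑ b ∈ A', f d b := by
    have s1 : ∀ g : ℕ → ℝ, ∑ d ∈ Dv, g d = ∑ d ∈ A, g d + ∑ d ∈ A', g d := fun g =>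
      (sum_filter_add_sum_filter_not Dv _ g).symm
    rw [sum_comm (s := A) (t := Dv) (f := fun b d => f d b), s1 fun d => ∑ b ∈ Dv, f d b,
      s1 fun d => ∑ b ∈ A, f d b, sum_congr rfl fun d (_ : d ∈ A') => s1 (f d), sum_add_distrib]
    ring
  have row : ∀ d, G * ∑ b ∈ Dv, f d b = α d * EE σ y d := fun d => by
    rw [← I1, mul_left_comm, mul_sum (a := α d)]
    exact congrArg _ (sum_congr rfl fun _ _ => by simp only [f]; ring)
  have t1 : G * ∑ d ∈ A, ∑ b ∈ Dv, f d b ≤ 3 * L := by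
    rw [mul_sum]; simp only [row]; exact AE σ α α0 αx
  have t2 : G * ∑ b ∈ A, ∑ d ∈ Dv, f d b ≤ 2 * (3 * L) := by
    refine le_trans ?_ (mul_le_mul_of_nonneg_left (AE (!σ) β β0 βx) (by norm_num))
    rw [mul_sum, mul_sum]
    refine sum_le_sum fun b hb => ?_
    have := mul_le_mul_of_nonneg_left (I2 b (mem_filter.1 hb).1) (β0 b)
    refine le_trans (le_of_eq ?_) (this.trans (le_of_eq (by ring)))
    rw [mul_left_comm, mul_sum (a := β b)]
    exact congrArg _ (sum_congr rfl fun _ _ => by simp only [f]; ring)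
  have t3 : |∑ d ∈ A, ∑ b ∈ A, f d b| ≤ H * H := by
    calc _ ≤ ∑ d ∈ A, ∑ b ∈ A, α d * β b := by
          refine (abs_sum_le_sum_abs _ _).trans (sum_le_sum fun d _ =>
            (abs_sum_le_sum_abs _ _).trans (sum_le_sum fun b _ => ?_))
          simp only [f]
          rw [abs_mul, abs_of_nonneg (mul_nonneg (α0 d) (β0 b))]
          exact mul_le_of_le_one_right (mul_nonneg (α0 d) (β0 b)) (chi_abs _ _ _)
      _ ≤ H * H := by
          rw [← sum_mul_sum]
          exact mul_le_mul (Asum α αx) (Asum β βx) (sum_nonneg fun d _ => β0 d) (by linarith)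
  have t4 : |∑ d ∈ A', ∑ b ∈ A', f d b| ≤ 9 * C := by
    have hF : ∀ d ∈ A', Squarefree d ∧ Odd d ∧ L ^ 36 ≤ d := fun d hd =>
      ⟨(PP_div (mem_filter.1 hd).1).1, (PP_div (mem_filter.1 hd).1).2,
        (not_le.1 (mem_filter.1 hd).2).le⟩
    have a1 : ∀ d ∈ A', |α d| ≤ xs L d := fun d hd => by
      rw [abs_of_nonneg (α0 d)]; exact αx d (mem_filter.1 hd).1
    have a2 : ∀ d ∈ A', |β d| ≤ xs L d := fun d hd => by
      rw [abs_of_nonneg (β0 d)]; exact βx d (mem_filter.1 hd).1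
    have a3 : C * (1 + 2 * L) ^ 2 / L ^ 3 ≤ 9 * C := by
      rw [div_le_iff₀ (by positivity)]
      have : (1 + 2 * L) ^ 2 ≤ 9 * L ^ 3 := by nlinarith [sq_nonneg L]
      nlinarith
    refine le_trans ?_ a3
    cases σ
    · rw [sum_comm]
      refine le_trans (le_of_eq (congrArg _ ?_)) (hbil L hL A' β α hF a2 a1)
      exact sum_congr rfl fun _ _ => sum_congr rfl fun _ _ => by simp [f, chi, mul_comm]
    · refine le_trans (le_of_eq (congrArg _ ?_)) (hbil L hL A' α β hF a1 a2)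
      exact sum_congr rfl fun _ _ => sum_congr rfl fun b hb => by
        simp [f, chi, jacR, (hF b hb).2.1]
  have tot : ∑ d ∈ Dv, α d * EE σ y d ≤ (10 + 9 * C) * L := by
    simp only [← row]
    rw [← mul_sum, split]
    have b3 := mul_le_mul GΓ ((neg_le_abs _).trans t3)
    have c3 : G * -(∑ d ∈ A, ∑ b ∈ A, f d b) ≤ Γ * (H * H) :=
      (mul_le_mul_of_nonneg_left ((neg_le_abs _).trans t3) G0').trans
        (mul_le_mul_of_nonneg_right GΓ (by positivity))
    have c4 : G * ∑ d ∈ A', ∑ b ∈ A', f d b ≤ L * (9 * C) :=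
      (mul_le_mul_of_nonneg_left ((le_abs_self _).trans t4) G0').trans
        (mul_le_mul_of_nonneg_right (GΓ.trans ΓL) (by positivity))
    nlinarith
  calc _ ≤ ∑ d ∈ SO y, 9 * (α d * EE σ y d) := sum_le_sum fun d hd => by
        have a1 : α d = (1 / 2 : ℝ) ^ d.primeFactors.card * xs L d := by
          simp only [α]
          rw [prod_div_distrib, xs_prod L (PP_div (SO_sub y hd)).1, prod_const, one_div_pow]; ring
        have a2 := inv_le_xs hL hd
        have a3 := Wt_le σ hL d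
        have a4 := EE_nonneg σ y d
        rw [a1, div_eq_mul_one_div]
        calc _ ≤ (1 / 2 : ℝ) ^ d.primeFactors.card * (1 / d) * (3 * EE σ y d) := by gcongr
          _ ≤ (1 / 2 : ℝ) ^ d.primeFactors.card * (3 * xs L d) * (3 * EE σ y d) := by gcongr
          _ = _ := by ring
    _ ≤ ∑ d ∈ Dv, 9 * (α d * EE σ y d) := sum_le_sum_of_subset_of_nonneg (SO_sub y)
        fun d _ _ => mul_nonneg (by norm_num) (mul_nonneg (α0 d) (EE_nonneg _ _ _))
    _ ≤ _ := by rw [← mul_sum]; linarith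

end Pool.Agent.Lib.MP_696deb_nt.Den
end

-- part Pool.Agent.Lib.MP_696deb_nt.DenEqui
section

set_option autoImplicit false

open Finset
open scoped NumberTheorySymbols

namespace Pool.Agent.Lib.MP_696deb_nt.Den

theorem typed (S : Finset ℕ) (A : ℕ) (hS : ∀ m ∈ S, Squarefree m ∧ Odd m ∧ m ≤ A)
    (a : ℕ → ℕ → ℝ) (b w : ℕ → ℝ) (hab : ∀ τ, ∀ m ∈ S, |a τ m| ≤ b m) (t : ℕ → ℕ) (u B : ℕ)
    {R : ℕ} (hR : 0 < R)
    (hw0 : ∀ n, u < n → 0 ≤ w n) (hw : ∀ n, u < n → w (n + 1) ≤ w n) :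
    (∑ n ∈ Ioc u B, w n * |∑ m ∈ S with n ≤ t m, a (n % R) m * (J(n | m) : ℝ)|) ^ 2 ≤
      (∑ n ∈ Ioc u B, w n) * (R * (∑ m ∈ S, b m ^ 2 * ∑ n ∈ Ioc u (t m), w n +
        2 * (A : ℝ) ^ 2 * w (u + 1) * (∑ m ∈ S, b m) ^ 2)) := by
  set φ : ℕ → ℕ → ℝ := fun τ n => ∑ m ∈ S with n ≤ t m, a τ m * (J(n | m) : ℝ) with hφ
  have hw0' : ∀ n ∈ Ioc u B, 0 ≤ w n := fun n hn => hw0 n (mem_Ioc.mp hn).1
  have h1 := sum_sq_le_sum_mul_sum_of_sq_le_mul (Ioc u B) (r := fun n => w n * |φ (n % R) n|)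
    (f := w) (g := fun n => w n * φ (n % R) n ^ 2) hw0'
    (fun n hn => mul_nonneg (hw0' n hn) (sq_nonneg _)) fun n _ => by
      rw [mul_pow, sq_abs]; exact le_of_eq (by ring)
  refine h1.trans (mul_le_mul_of_nonneg_left ?_ (sum_nonneg hw0'))
  calc _ ≤ ∑ n ∈ Ioc u B, ∑ τ ∈ range R, w n * φ τ n ^ 2 := by
        refine sum_le_sum fun n hn => ?_
        exact single_le_sum (f := fun τ => w n * φ τ n ^ 2)
          (fun τ _ => mul_nonneg (hw0' n hn) (sq_nonneg _)) (mem_range.mpr (Nat.mod_lt _ hR))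
    _ = ∑ τ ∈ range R, ∑ n ∈ Ioc u B, w n * φ τ n ^ 2 := sum_comm
    _ ≤ ∑ τ ∈ range R, (∑ m ∈ S, b m ^ 2 * ∑ n ∈ Ioc u (t m), w n +
        2 * (A : ℝ) ^ 2 * w (u + 1) * (∑ m ∈ S, b m) ^ 2) := by
        refine sum_le_sum fun τ _ => (bilin S A hS (a τ) w t u B hw0 hw).trans ?_
        have := hw0 (u + 1) (by omega)
        refine add_le_add (sum_le_sum fun m hm => mul_le_mul_of_nonneg_right ?_
          (sum_nonneg fun n hn => hw0 n (mem_Ioc.mp hn).1)) ?_
        · rw [← sq_abs]; exact pow_le_pow_left₀ (abs_nonneg _) (hab τ m hm) 2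
        · refine mul_le_mul_of_nonneg_left ?_ (by positivity)
          exact pow_le_pow_left₀ (sum_nonneg fun _ _ => abs_nonneg _)
            (sum_le_sum fun m hm => hab τ m hm) 2
    _ = _ := by rw [sum_const, card_range, nsmul_eq_mul]

theorem bilin_hyp (S T : Finset ℕ) {u v A R : ℕ} (hu : 0 < u) (hR : 0 < R)
    (hS : ∀ m ∈ S, Squarefree m ∧ Odd m ∧ m ≤ A) (hSu : ∀ m ∈ S, u < m) (hT : ∀ n ∈ T, v < n)
    (hA : A ^ 4 ≤ u * v) {W L : ℝ} (hW : 0 ≤ W) (hL : ∑ m ∈ S, 1 / (m : ℝ) ≤ L) (t : ℕ → ℕ)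
    (ht : ∀ m ∈ S, (t m : ℝ) ≤ W / m) (a : ℕ → ℕ → ℝ) (ha : ∀ τ m, |a τ m| ≤ 1) (β : ℕ → ℝ)
    (hβ : ∀ n, |β n| ≤ 1) :
    |∑ m ∈ S, ∑ n ∈ T, if n ≤ t m then a (n % R) m * β n * (J(n | m) : ℝ) else 0| ≤
      W * √(R * (L + 2) / u) := by
  have hu' : (0 : ℝ) < u := by exact_mod_cast hu
  set B := ⌊W / u⌋₊ with hB
  have htB : ∀ m ∈ S, t m ≤ B := fun m hm => Nat.le_floor ((ht m hm).trans
    (div_le_div_of_nonneg_left hW hu' (by exact_mod_cast (hSu m hm).le)))
  have hL0 : 0 ≤ L := (sum_nonneg fun m _ => by positivity).trans hL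
  by_cases hBv : B ≤ v
  · rw [sum_eq_zero fun m hm => sum_eq_zero fun n hn => if_neg (by
      have := htB m hm; have := hT n hn; omega), abs_zero]
    positivity
  have hBW : (B : ℝ) ≤ W / u := Nat.floor_le (by positivity)
  have hAW : (A : ℝ) ^ 4 ≤ W := by
    have h1 : (v : ℝ) ≤ W / u := le_trans (by exact_mod_cast (not_le.mp hBv).le) hBW
    rw [le_div_iff₀ hu'] at h1
    have h2 : ((A ^ 4 : ℕ) : ℝ) ≤ (u * v : ℕ) := by exact_mod_cast hA
    push_cast at h2; linarith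
  have h1 := typed S A hS a (fun _ => 1) (fun _ => 1) (fun τ m _ => ha τ m) t 0 B hR
    (fun _ _ => zero_le_one) (fun _ _ => le_rfl)
  simp only [one_mul, sum_const, Nat.card_Ioc, tsub_zero, nsmul_eq_mul, mul_one, one_pow] at h1
  have hc : (#S : ℝ) ≤ A := by
    have : S ⊆ Icc 1 A := fun m hm => mem_Icc.mpr ⟨by have := hSu m hm; omega, (hS m hm).2.2⟩
    have := card_le_card this
    simp only [Nat.card_Icc, add_tsub_cancel_right] at this
    exact_mod_cast this
  have h2 : ∑ m ∈ S, (t m : ℝ) ≤ W * L := by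
    calc _ ≤ ∑ m ∈ S, W * (1 / (m : ℝ)) := sum_le_sum fun m hm => by
          rw [mul_one_div]; exact ht m hm
      _ ≤ _ := by rw [← mul_sum]; exact mul_le_mul_of_nonneg_left hL hW
  have h3 : 2 * (A : ℝ) ^ 2 * (#S : ℝ) ^ 2 ≤ 2 * W := by
    have : (#S : ℝ) ^ 2 ≤ (A : ℝ) ^ 2 := by gcongr
    nlinarith [sq_nonneg (A : ℝ)]
  have h4 : (B : ℝ) * (R * (∑ m ∈ S, (t m : ℝ) + 2 * (A : ℝ) ^ 2 * (#S : ℝ) ^ 2)) ≤
      (W * √(R * (L + 2) / u)) ^ 2 := by
    rw [mul_pow, Real.sq_sqrt (by positivity)]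
    calc _ ≤ W / u * (R * (W * L + 2 * W)) := by gcongr
      _ = _ := by ring
  have h5 := (pow_le_pow_iff_left₀ (sum_nonneg fun _ _ => abs_nonneg _) (by positivity)
    two_ne_zero).mp (h1.trans h4)
  refine le_trans ?_ h5
  rw [sum_comm]
  refine (abs_sum_le_sum_abs _ _).trans ?_
  rw [← sum_filter_add_sum_filter_not T (· ≤ B), sum_eq_zero (s := T.filter fun n => ¬ n ≤ B)
    fun n hn => by
      rw [sum_eq_zero fun m hm => if_neg (by
        have := htB m hm; have := (mem_filter.mp hn).2; omega), abs_zero], add_zero]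
  refine le_trans (sum_le_sum fun n _ => ?_) (sum_le_sum_of_subset_of_nonneg (fun n hn => ?_)
    fun _ _ _ => abs_nonneg _)
  · rw [← sum_filter]
    have : ∑ m ∈ S with n ≤ t m, a (n % R) m * β n * (J(n | m) : ℝ) =
        β n * ∑ m ∈ S with n ≤ t m, a (n % R) m * (J(n | m) : ℝ) := by
      rw [mul_sum]; exact sum_congr rfl fun m _ => by ring
    rw [this, abs_mul]
    exact mul_le_of_le_one_left (abs_nonneg _) (hβ n)
  · have h6 := mem_filter.mp hn
    exact mem_Ioc.mpr ⟨by have := hT n h6.1; omega, h6.2⟩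

open Function Fintype in
theorem sum_pi_update {ι : Type} [Fintype ι] [DecidableEq ι] (Q : ι → Finset ℕ) (i : ι)
    (G : (ι → ℕ) → ℝ) :
    ∑ q ∈ piFinset Q, G q =
      ∑ q ∈ piFinset (update Q i {1}), ∑ m ∈ Q i, G (update q i m) := by
  rw [← sum_product']
  refine sum_nbij' (fun q => (update q i 1, q i)) (fun x => update x.1 i x.2) ?_ ?_ ?_ ?_ ?_
  · intro q hq
    simp only [mem_piFinset, mem_product] at hq ⊢
    refine ⟨fun j => ?_, hq i⟩
    by_cases h : j = i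
    · subst h; simp
    · simpa [h] using hq j
  · intro x hx
    simp only [mem_piFinset, mem_product] at hx ⊢
    intro j
    by_cases h : j = i
    · subst h; simpa using hx.2
    · simpa [h] using hx.1 j
  · intro q _; simp
  · rintro ⟨q, m⟩ hx
    simp only [mem_piFinset, mem_product] at hx
    have := hx.1 i
    simp only [update_self, mem_singleton] at this
    simp [← this]
  · intro q _; simp

open Function in
theorem prod_update_one {ι : Type} [Fintype ι] [DecidableEq ι] (q : ι → ℕ) (i : ι) (h : q i = 1)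
    (m : ℕ) : ∏ l, update q i m l = (∏ l, q l) * m := by
  rw [prod_update_of_mem (mem_univ i), ← mul_prod_erase univ q (mem_univ i), h, one_mul, mul_comm,
    sdiff_singleton_eq_erase]

open Fintype in
theorem sum_inv_prod_le {ι : Type} [Fintype ι] [DecidableEq ι] (Q : ι → Finset ℕ) {L : ℝ}
    (hL : ∀ i, ∑ m ∈ Q i, 1 / (m : ℝ) ≤ L) :
    ∑ q ∈ piFinset Q, 1 / ((∏ i, q i : ℕ) : ℝ) ≤ L ^ Fintype.card ι := by
  have : ∑ q ∈ piFinset Q, 1 / ((∏ i, q i : ℕ) : ℝ) = ∏ i, ∑ m ∈ Q i, 1 / (m : ℝ) := by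
    rw [prod_univ_sum]
    exact sum_congr rfl fun q _ => by push_cast; simp
  rw [this, ← card_univ, ← prod_const]
  exact prod_le_prod (fun i _ => sum_nonneg fun m _ => by positivity) fun i _ => hL i

open Function Fintype in
/-- Equidistribution of the symbols between special primes. -/
theorem equi {K : ℕ} (Q : Fin K → Finset ℕ) {M X R u v A : ℕ} (hM : 0 < M) (hR : 0 < R)
    (hu : 0 < u) {L : ℝ} (hL1 : 1 ≤ L) (hL : ∀ i, ∑ m ∈ Q i, 1 / (m : ℝ) ≤ L)
    (hQ0 : ∀ i, ∀ m ∈ Q i, 0 < m) {i j : Fin K} (hij : i < j)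
    (hS : ∀ m ∈ Q i, Squarefree m ∧ Odd m ∧ m ≤ A) (hSu : ∀ m ∈ Q i, u < m)
    (hT : ∀ n ∈ Q j, v < n) (hA : A ^ 4 ≤ u * v) (F : (Fin K → ℕ) → ℝ) (hF : ∀ ρ, |F ρ| ≤ 1)
    (Γ : Finset (Fin K × Fin K)) (hΓ : ∀ e ∈ Γ, e.1 < e.2) (he : (i, j) ∈ Γ) :
    |∑ q ∈ piFinset Q, if M * ∏ l, q l ≤ X then
        F (fun l => q l % R) * ∏ e ∈ Γ, (J(q e.2 | q e.1) : ℝ) else 0| ≤
      X / M * L ^ K * √(R * (L + 2) / u) := by
  have hne : i ≠ j := hij.ne
  rw [sum_pi_update Q j, sum_pi_update _ i, update_of_ne hne]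
  set Q0 := update (update Q j {1}) i {1} with hQ0d
  have hL' : ∀ l, ∑ m ∈ Q0 l, 1 / (m : ℝ) ≤ L := by
    intro l
    by_cases h1 : l = i
    · subst h1; simpa [hQ0d] using hL1
    by_cases h2 : l = j
    · subst h2; simpa [hQ0d, h1] using hL1
    · simpa [hQ0d, h1, h2] using hL l
  have h0 := sum_inv_prod_le Q0 hL'
  rw [Fintype.card_fin] at h0
  refine (abs_sum_le_sum_abs _ _).trans ?_
  refine le_trans (sum_le_sum (g := fun q => X / M * (1 / ((∏ l, q l : ℕ) : ℝ)) *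
    √(R * (L + 2) / u)) fun q hq => ?_) ?_
  swap
  · rw [← sum_mul, ← mul_sum]; gcongr
  have hqi : q i = 1 := by simpa [hQ0d] using mem_piFinset.mp hq i
  have hqj : q j = 1 := by simpa [hQ0d, hne.symm] using mem_piFinset.mp hq j
  have hq0 : 0 < ∏ l, q l := prod_pos fun l _ => by
    by_cases h1 : l = i
    · rw [h1, hqi]; exact one_pos
    by_cases h2 : l = j
    · rw [h2, hqj]; exact one_pos
    · exact hQ0 l _ (by simpa [hQ0d, h1, h2] using mem_piFinset.mp hq l)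
  set P := ∏ l, q l with hP
  have habs : ∀ (s : Finset (Fin K × Fin K)) (z : Fin K → ℕ),
      |∏ e ∈ s, (J(z e.2 | z e.1) : ℝ)| ≤ 1 := fun s z => by
    rw [abs_prod]; exact prod_le_one (fun _ _ => abs_nonneg _) fun _ _ => abs_J_le _ _
  have key := bilin_hyp (Q i) (Q j) hu hR hS hSu hT hA (W := X / M * (1 / (P : ℝ)))
    (by positivity) (hL i) (fun m => X / (M * P * m)) (fun m hm => by
      refine Nat.cast_div_le.trans (le_of_eq ?_)
      push_cast; field_simp)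
    (fun τ m => F (update (fun l => update q i m l % R) j τ) *
      ∏ e ∈ (Γ.erase (i, j)).filter (fun e => e.1 ≠ j ∧ e.2 ≠ j),
        (J(update q i m e.2 | update q i m e.1) : ℝ))
    (fun τ m => by rw [abs_mul]; exact mul_le_one₀ (hF _) (abs_nonneg _) (habs _ _))
    (fun n => ∏ e ∈ (Γ.erase (i, j)).filter (fun e => ¬ (e.1 ≠ j ∧ e.2 ≠ j)),
        (J(update q j n e.2 | update q j n e.1) : ℝ)) (fun n => habs _ _)
  refine le_trans (le_of_eq ?_) key
  congr 1
  refine sum_congr rfl fun m hm => sum_congr rfl fun n _ => ?_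
  have hm0 := hQ0 i m hm
  have e1 : ∏ l, update (update q i m) j n l = P * m * n := by
    rw [prod_update_one _ _ (by rw [update_of_ne hne.symm, hqj]), prod_update_one _ _ hqi]
  have e2 : (M * (P * m * n) ≤ X) ↔ n ≤ X / (M * P * m) := by
    rw [Nat.le_div_iff_mul_le (by positivity)]
    exact iff_of_eq (congrArg (· ≤ X) (by ring))
  rw [e1]
  simp only [e2]
  split_ifs
  swap
  · rfl
  have e3 : (fun l => update (update q i m) j n l % R) =
      update (fun l => update q i m l % R) j (n % R) := by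
    ext l
    by_cases h : l = j
    · subst h; simp
    · simp [h]
  rw [e3, ← mul_prod_erase Γ _ he,
    ← prod_filter_mul_prod_filter_not (Γ.erase (i, j)) (fun e => e.1 ≠ j ∧ e.2 ≠ j)]
  simp only [update_self, update_of_ne hne]
  have e4 : ∏ e ∈ (Γ.erase (i, j)).filter (fun e => e.1 ≠ j ∧ e.2 ≠ j),
      (J(update (update q i m) j n e.2 | update (update q i m) j n e.1) : ℝ) =
      ∏ e ∈ (Γ.erase (i, j)).filter (fun e => e.1 ≠ j ∧ e.2 ≠ j),
        (J(update q i m e.2 | update q i m e.1) : ℝ) :=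
    prod_congr rfl fun e he => by
      rw [update_of_ne (mem_filter.mp he).2.1, update_of_ne (mem_filter.mp he).2.2]
  have e5 : ∏ e ∈ (Γ.erase (i, j)).filter (fun e => ¬ (e.1 ≠ j ∧ e.2 ≠ j)),
      (J(update (update q i m) j n e.2 | update (update q i m) j n e.1) : ℝ) =
      ∏ e ∈ (Γ.erase (i, j)).filter (fun e => ¬ (e.1 ≠ j ∧ e.2 ≠ j)),
        (J(update q j n e.2 | update q j n e.1) : ℝ) :=
    prod_congr rfl fun e he => by
      obtain ⟨h1, h2⟩ := mem_filter.mp he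
      obtain ⟨h3, h4⟩ := mem_erase.mp h1
      have h5 := hΓ e h4
      have h6 : e.1 ≠ i ∧ e.2 ≠ i := by
        rcases e with ⟨x, y⟩
        simp only [ne_eq, Prod.mk.injEq] at *
        omega
      rw [update_comm hne, update_of_ne h6.1, update_of_ne h6.2]
  rw [e4, e5]
  ring

end Pool.Agent.Lib.MP_696deb_nt.Den
end

-- part Pool.Agent.Lib.MP_696deb_nt.DenFamily
section

set_option autoImplicit false

open Finset Filter
open scoped ArithmeticFunction.vonMangoldt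

namespace Pool.Agent.Lib.MP_696deb_nt.Den

theorem log_fact_eq (n : ℕ) :
    Real.log (n.factorial : ℝ) = ∑ m ∈ Ioc 0 n, Λ m * ((n / m : ℕ) : ℝ) := by
  have h1 : Real.log (n.factorial : ℝ) = ∑ k ∈ Ioc 0 n, Real.log k := by
    induction n with
    | zero => simp
    | succ n ih =>
      rw [Nat.factorial_succ, Nat.cast_mul, Real.log_mul (by positivity) (by positivity), ih,
        sum_Ioc_succ_top (Nat.zero_le n), add_comm]
  rw [h1]
  have h2 : ∀ k ∈ Ioc 0 n, Real.log k = ∑ m ∈ Ioc 0 n, if m ∣ k then Λ m else 0 := by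
    intro k hk
    rw [← ArithmeticFunction.vonMangoldt_sum, ← sum_filter]
    refine sum_congr ?_ fun _ _ => rfl
    ext m
    simp only [mem_Ioc] at hk
    simp only [Nat.mem_divisors, mem_filter, mem_Ioc]
    constructor
    · rintro ⟨h, -⟩
      exact ⟨⟨Nat.pos_of_dvd_of_pos h hk.1, (Nat.le_of_dvd hk.1 h).trans hk.2⟩, h⟩
    · rintro ⟨-, h⟩
      exact ⟨h, hk.1.ne'⟩
  rw [sum_congr rfl h2, sum_comm]
  refine sum_congr rfl fun m _ => ?_
  rw [← sum_filter, sum_const, nsmul_eq_mul, Nat.Ioc_filter_dvd_card_eq_div, mul_comm]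

theorem lam_div_lower {n : ℕ} (hn : 1 ≤ n) : Real.log n - 1 ≤ ∑ m ∈ Ioc 0 n, Λ m / m := by
  have hn' : (0 : ℝ) < n := by exact_mod_cast hn
  have h1 : (n : ℝ) * Real.log n - n ≤ Real.log (n.factorial : ℝ) := by
    have h := Real.pow_div_factorial_le_exp (n : ℝ) hn'.le n
    have hf : (0 : ℝ) < n.factorial := by positivity
    have := Real.log_le_log (by positivity) h
    rw [Real.log_div (by positivity) hf.ne', Real.log_exp, Real.log_pow] at this
    linarith
  have h2 : Real.log (n.factorial : ℝ) ≤ n * ∑ m ∈ Ioc 0 n, Λ m / m := by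
    rw [log_fact_eq, mul_sum]
    refine sum_le_sum fun m _ => ?_
    have := ArithmeticFunction.vonMangoldt_nonneg (n := m)
    calc Λ m * ((n / m : ℕ) : ℝ) ≤ Λ m * ((n : ℝ) / m) := by gcongr; exact Nat.cast_div_le
      _ = _ := by ring
  have : (n : ℝ) * (Real.log n - 1) ≤ n * ∑ m ∈ Ioc 0 n, Λ m / m := by linarith
  exact le_of_mul_le_mul_left this hn'

theorem lam_div_upper {n : ℕ} (hn : 1 ≤ n) :
    ∑ m ∈ Ioc 0 n, Λ m / m ≤ Real.log n + (Real.log 4 + 4) := by
  have hn' : (0 : ℝ) < n := by exact_mod_cast hn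
  have h1 : Real.log (n.factorial : ℝ) ≤ n * Real.log n := by
    rw [← Real.log_pow]
    exact Real.log_le_log (by positivity) (by exact_mod_cast Nat.factorial_le_pow n)
  have h3 := Chebyshev.psi_le_const_mul_self hn'.le
  have h4 : Chebyshev.psi n = ∑ m ∈ Ioc 0 n, Λ m := by
    rw [Chebyshev.psi, Nat.floor_natCast]
  have h2 : n * ∑ m ∈ Ioc 0 n, Λ m / m ≤ Real.log (n.factorial : ℝ) + Chebyshev.psi n := by
    rw [log_fact_eq, mul_sum, h4, ← sum_add_distrib]
    refine sum_le_sum fun m hm => ?_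
    have hm0 : 0 < m := (mem_Ioc.1 hm).1
    have hm' : (0 : ℝ) < m := by exact_mod_cast hm0
    have := ArithmeticFunction.vonMangoldt_nonneg (n := m)
    have h5 : (n : ℝ) / m ≤ ((n / m : ℕ) : ℝ) + 1 := by
      rw [div_le_iff₀ hm']
      have := Nat.lt_div_mul_add (a := n) hm0
      have h6 : (n : ℝ) < ((n / m : ℕ) : ℝ) * m + m := by exact_mod_cast this
      linarith
    calc (n : ℝ) * (Λ m / m) = Λ m * ((n : ℝ) / m) := by ring
      _ ≤ Λ m * (((n / m : ℕ) : ℝ) + 1) := by gcongr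
      _ = _ := by ring
  have : (n : ℝ) * ∑ m ∈ Ioc 0 n, Λ m / m ≤ n * (Real.log n + (Real.log 4 + 4)) := by nlinarith
  exact le_of_mul_le_mul_left this hn'

theorem nonprime_le : ∃ C : ℝ, ∀ s : Finset ℕ, ∑ m ∈ s with ¬ m.Prime, Λ m / m ≤ C := by
  have h := ArithmeticFunction.vonMangoldt.summable_residueClass_non_primes_div (q := 1) 0
  refine ⟨_, fun s => le_trans (le_of_eq ?_) (h.sum_le_tsum s fun n _ => ?_)⟩
  · rw [sum_filter]
    refine sum_congr rfl fun n _ => ?_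
    by_cases hp : n.Prime
    · simp [hp]
    · simp only [hp, not_false_eq_true, if_true, if_false]
      rw [ArithmeticFunction.vonMangoldt.residueClass, Set.indicator_of_mem]
      exact Subsingleton.elim _ _
  · have := ArithmeticFunction.vonMangoldt.residueClass_nonneg (q := 1) 0 n
    split_ifs
    · simp
    · positivity

theorem mertens_lower : ∃ C : ℝ, ∀ u v : ℕ, 1 ≤ u → u ≤ v →
    Real.log v - Real.log u - C ≤ ∑ p ∈ Ioc u v with p.Prime, Real.log p / p := by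
  obtain ⟨C, hC⟩ := nonprime_le
  refine ⟨C + (Real.log 4 + 5), fun u v hu huv => ?_⟩
  have h1 := lam_div_lower (hu.trans huv)
  have h2 := lam_div_upper hu
  have h3 : ∑ m ∈ Ioc 0 v, Λ m / (m : ℝ) = ∑ m ∈ Ioc 0 u, Λ m / (m : ℝ) + ∑ m ∈ Ioc u v, Λ m / (m : ℝ) :=
    (sum_Ioc_consecutive _ (Nat.zero_le u) huv).symm
  have h4 := sum_filter_add_sum_filter_not (Ioc u v) Nat.Prime (fun m => Λ m / (m : ℝ))
  have h5 := hC (Ioc u v)
  have h6 : ∑ p ∈ Ioc u v with p.Prime, Λ p / (p : ℝ) = ∑ p ∈ Ioc u v with p.Prime, Real.log p / p :=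
    sum_congr rfl fun p hp => by rw [ArithmeticFunction.vonMangoldt_apply_prime (mem_filter.1 hp).2]
  linarith

theorem card_class (s c r : ℕ) (hc : Nat.Coprime c 60) :
    (s : ℝ) / 60 - 1 ≤ #{m ∈ Icc 1 s | (m * c) % 60 = r % 60} ∧
      (#{m ∈ Icc 1 s | (m * c) % 60 = r % 60} : ℝ) ≤ (s : ℝ) / 60 + 1 := by
  obtain ⟨c', hc'⟩ : ∃ c' : ℕ, c * c' ≡ 1 [MOD 60] := by
    refine ⟨c ^ (Nat.totient 60 - 1), ?_⟩
    rw [← pow_succ', Nat.sub_add_cancel (Nat.totient_pos.2 (by norm_num))]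
    exact Nat.ModEq.pow_totient hc
  have he : ({m ∈ Icc 1 s | (m * c) % 60 = r % 60} : Finset ℕ) = {m ∈ Ioc 0 s | m ≡ r * c' [MOD 60]} := by
    ext m
    simp only [mem_filter, mem_Icc, mem_Ioc]
    refine and_congr (by omega) ⟨fun h => ?_, fun h => ?_⟩
    · have h' : m * c ≡ r [MOD 60] := h
      calc m = m * 1 := by ring
        _ ≡ m * (c * c') [MOD 60] := (hc'.mul_left m).symm
        _ = m * c * c' := by ring
        _ ≡ r * c' [MOD 60] := h'.mul_right c'
    · show m * c ≡ r [MOD 60]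
      calc m * c ≡ r * c' * c [MOD 60] := h.mul_right c
        _ = r * (c * c') := by ring
        _ ≡ r * 1 [MOD 60] := hc'.mul_left r
        _ = r := by ring
  rw [he]
  have h := Nat.Ioc_filter_modEq_card 0 s (r := 60) (by norm_num) (r * c')
  set v : ℕ := r * c'
  set N := #{m ∈ Ioc 0 s | m ≡ v [MOD 60]}
  have a1 := Int.floor_le (((s : ℚ) - v) / ((60 : ℕ) : ℚ))
  have a2 := Int.lt_floor_add_one (((s : ℚ) - v) / ((60 : ℕ) : ℚ))
  have a3 := Int.floor_le (((((0 : ℕ) : ℚ)) - v) / ((60 : ℕ) : ℚ))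
  have a4 := Int.lt_floor_add_one (((((0 : ℕ) : ℚ)) - v) / ((60 : ℕ) : ℚ))
  set A := ⌊((s : ℚ) - v) / ((60 : ℕ) : ℚ)⌋
  set B := ⌊((((0 : ℕ) : ℚ)) - v) / ((60 : ℕ) : ℚ)⌋
  have hs : (0 : ℚ) ≤ s := by positivity
  push_cast at a1 a2 a3 a4
  have b1 : (s : ℚ) / 60 - 1 ≤ (N : ℚ) := by
    have : A - B ≤ (N : ℤ) := h ▸ le_max_left _ _
    have : ((A - B : ℤ) : ℚ) ≤ ((N : ℤ) : ℚ) := by exact_mod_cast this
    push_cast at this
    linarith
  have b2 : (N : ℚ) ≤ (s : ℚ) / 60 + 1 := by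
    rcases le_total (A - B) 0 with h0 | h0
    · rw [max_eq_right h0] at h
      have : N = 0 := by exact_mod_cast h
      rw [this]; push_cast; linarith
    · rw [max_eq_left h0] at h
      have : ((N : ℤ) : ℚ) = ((A - B : ℤ) : ℚ) := by rw [h]
      push_cast at this
      linarith
  have c1 := (Rat.cast_le (K := ℝ)).2 b1
  have c2 := (Rat.cast_le (K := ℝ)).2 b2
  push_cast at c1 c2
  exact ⟨c1, c2⟩

theorem sum_inv_sq_le (n : ℕ) : ∑ p ∈ Icc 7 n, 1 / (p : ℝ) ^ 2 ≤ 1 / 6 := by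
  have h : ∀ n : ℕ, 6 ≤ n → ∑ p ∈ Icc 7 n, 1 / (p : ℝ) ^ 2 ≤ 1 / 6 - 1 / (n : ℝ) := by
    intro n hn
    induction n, hn using Nat.le_induction with
    | base => simp
    | succ n hn ih =>
      rw [sum_Icc_succ_top (by omega)]
      have hn' : (6 : ℝ) ≤ n := by exact_mod_cast hn
      have : 1 / ((n + 1 : ℕ) : ℝ) ^ 2 ≤ 1 / (n : ℝ) - 1 / ((n + 1 : ℕ) : ℝ) := by
        push_cast
        rw [div_sub_div _ _ (by positivity) (by positivity), div_le_div_iff₀ (by positivity) (by positivity)]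
        nlinarith
      linarith
  rcases le_or_gt 6 n with hn | hn
  · have := h n hn
    have : (0 : ℝ) ≤ 1 / n := by positivity
    linarith
  · rw [Icc_eq_empty (by omega)]; norm_num

theorem sqfree_class (t c r : ℕ) (hc : Nat.Coprime c 60) (hr : Nat.Coprime r 60) :
    (t : ℝ) / 72 - 1 - Nat.sqrt t ≤ #{m ∈ Icc 1 t | Squarefree m ∧ (m * c) % 60 = r % 60} := by
  have h1 := (card_class t c r hc).1
  have hsub : ({m ∈ Icc 1 t | (m * c) % 60 = r % 60} : Finset ℕ) ⊆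
      {m ∈ Icc 1 t | Squarefree m ∧ (m * c) % 60 = r % 60} ∪
      ((Icc 7 (Nat.sqrt t)).filter (fun p => Nat.Coprime p 60)).biUnion fun p =>
        ({m ∈ Icc 1 (t / p ^ 2) | (m * (p ^ 2 * c)) % 60 = r % 60} : Finset ℕ).image (· * p ^ 2) := by
    intro m hm
    simp only [mem_filter, mem_Icc] at hm
    obtain ⟨⟨hm1, hmt⟩, hmr⟩ := hm
    by_cases hs : Squarefree m
    · exact mem_union_left _ (by simp only [mem_filter, mem_Icc]; exact ⟨⟨hm1, hmt⟩, hs, hmr⟩)
    refine mem_union_right _ ?_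
    rw [Nat.squarefree_iff_prime_squarefree] at hs
    push Not at hs
    obtain ⟨p, hp, k, rfl⟩ := hs
    have hcop : Nat.Coprime (p * p * k * c) 60 := by
      have : p * p * k * c ≡ r [MOD 60] := hmr
      rw [Nat.Coprime, this.gcd_eq]; exact hr
    have hp60 : Nat.Coprime p 60 :=
      Nat.Coprime.coprime_dvd_left (by use p * k * c; ring) hcop
    have hk : 1 ≤ k := Nat.pos_of_ne_zero (by rintro rfl; simp at hm1)
    have hp7 : 7 ≤ p := by
      by_contra h
      have h2 := hp.two_le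
      have : p < 7 := by omega
      interval_cases p <;> simp_all (config := { decide := true })
    simp only [mem_biUnion, mem_filter, mem_Icc, mem_image]
    refine ⟨p, ⟨⟨hp7, ?_⟩, hp60⟩, k, ⟨⟨hk, ?_⟩, ?_⟩, by ring⟩
    · rw [Nat.le_sqrt]; nlinarith
    · rw [Nat.le_div_iff_mul_le (by positivity)]; nlinarith
    · rw [← hmr]; congr 1; ring
  have h2 := card_le_card hsub
  have h3 := (card_union_le _ _).trans' h2
  have h4 : ((#(((Icc 7 (Nat.sqrt t)).filter (fun p => Nat.Coprime p 60)).biUnion fun p =>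
        ({m ∈ Icc 1 (t / p ^ 2) | (m * (p ^ 2 * c)) % 60 = r % 60} : Finset ℕ).image (· * p ^ 2)) : ℕ) : ℝ) ≤
      t / 360 + Nat.sqrt t := by
    calc _ ≤ ∑ p ∈ (Icc 7 (Nat.sqrt t)).filter (fun p => Nat.Coprime p 60),
          ((t : ℝ) / 60 * (1 / (p : ℝ) ^ 2) + 1) := by
          refine (Nat.cast_le.2 card_biUnion_le).trans ?_
          push_cast
          refine sum_le_sum fun p hp => ?_
          have hp' := (mem_filter.1 hp).2
          have := (card_class (t / p ^ 2) (p ^ 2 * c) r ((hp'.pow_left 2).mul_left hc)).2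
          have h5 : ((t / p ^ 2 : ℕ) : ℝ) ≤ t / (p : ℝ) ^ 2 := by
            have := Nat.cast_div_le (α := ℝ) (m := t) (n := p ^ 2)
            push_cast at this; exact this
          refine (Nat.cast_le.2 card_image_le).trans (this.trans ?_)
          have : (t : ℝ) / 60 * (1 / (p : ℝ) ^ 2) = t / (p : ℝ) ^ 2 / 60 := by ring
          rw [this]; gcongr
      _ ≤ ∑ p ∈ Icc 7 (Nat.sqrt t), ((t : ℝ) / 60 * (1 / (p : ℝ) ^ 2) + 1) :=
          sum_le_sum_of_subset_of_nonneg (filter_subset _ _) fun _ _ _ => by positivity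
      _ ≤ _ := by
          rw [sum_add_distrib, ← mul_sum, sum_const, nsmul_eq_mul, Nat.card_Icc, mul_one]
          have a := sum_inv_sq_le (Nat.sqrt t)
          have b : ((Nat.sqrt t + 1 - 7 : ℕ) : ℝ) ≤ Nat.sqrt t := by
            exact_mod_cast (by omega : Nat.sqrt t + 1 - 7 ≤ Nat.sqrt t)
          have : (t : ℝ) / 60 * ∑ p ∈ Icc 7 (Nat.sqrt t), 1 / (p : ℝ) ^ 2 ≤ t / 60 * (1 / 6) := by
            gcongr
          linarith
  have h5 := (Nat.cast_le (α := ℝ)).2 h3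
  push_cast at h5
  linarith

theorem sqfree_class' (t c r : ℕ) (ht : 10 ^ 6 ≤ t) (hc : Nat.Coprime c 60)
    (hr : Nat.Coprime r 60) :
    (t : ℝ) / 100 ≤ #{m ∈ Icc 1 t | Squarefree m ∧ (m * c) % 60 = r % 60} := by
  have h := sqfree_class t c r hc hr
  have h1 : Nat.sqrt t * Nat.sqrt t ≤ t := Nat.sqrt_le t
  have h2 : 1000 ≤ Nat.sqrt t := by rw [Nat.le_sqrt]; omega
  have h1' : (Nat.sqrt t : ℝ) * Nat.sqrt t ≤ t := by exact_mod_cast h1
  have h2' : (1000 : ℝ) ≤ Nat.sqrt t := by exact_mod_cast h2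
  nlinarith

theorem family_lower : ∃ c : ℝ, 0 < c ∧ ∀ᶠ y : ℕ in atTop, ∀ X Q Z r : ℕ, Nat.Coprime r 60 →
    Nat.Coprime Q 60 → 5 ≤ Z → Q * y * Z ≤ X →
    c * ((X : ℝ) / Q) * Real.log y / Real.log X ≤
      #{x ∈ Icc 1 y ×ˢ Ioc Z X | Squarefree x.1 ∧ x.2.Prime ∧ x.1 * Q * x.2 ≤ X ∧
        (x.1 * Q * x.2) % 60 = r % 60} := by
  obtain ⟨C, hC⟩ := mertens_lower
  refine ⟨1 / 400, by norm_num, ?_⟩
  have hev : ∀ᶠ y : ℕ in atTop, 2 * (C + Real.log (2 * 10 ^ 6)) ≤ Real.log y :=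
    (Real.tendsto_log_atTop.comp tendsto_natCast_atTop_atTop).eventually_ge_atTop _
  filter_upwards [hev, eventually_ge_atTop (10 ^ 6)] with y hy hy6 X Q Z r hr hQ hZ hX
  have hQ0 : 0 < Q := Nat.pos_of_ne_zero (by rintro rfl; simp at hQ)
  have hy0 : 0 < y := by omega
  set T : ℕ := 10 ^ 6 with hT
  have hT0 : 0 < T := by positivity
  set u := X / (Q * y) with hu
  set v := X / (Q * T) with hv
  have huZ : Z ≤ u := by rw [hu, Nat.le_div_iff_mul_le (by positivity)]; linarith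
  have huv : u ≤ v := Nat.div_le_div_left (by gcongr) (by positivity)
  have hvX : v ≤ X := Nat.div_le_self _ _
  have hX5 : 5 ≤ X := by omega
  have hXr : (5 : ℝ) ≤ X := by exact_mod_cast hX5
  have hlX : 0 < Real.log X := Real.log_pos (by linarith)
  have hQr : (0 : ℝ) < Q := by exact_mod_cast hQ0
  have hyr : (0 : ℝ) < y := by exact_mod_cast hy0
  have hM := hC u v (by omega) huv
  have hlog : Real.log y / 2 ≤ Real.log v - Real.log u - C := by
    have a1 : (u : ℝ) ≤ X / (Q * y) := by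
      have := Nat.cast_div_le (α := ℝ) (m := X) (n := Q * y)
      push_cast at this; exact this
    have a2 : (X : ℝ) / (Q * (2 * 10 ^ 6)) ≤ v := by
      rw [div_le_iff₀ (by positivity)]
      have := Nat.lt_div_mul_add (a := X) (b := Q * T) (by positivity)
      have hv1 : 1 ≤ v := by omega
      have h2 : X ≤ v * (Q * (2 * T)) := by rw [← hv] at this; nlinarith
      have h3 : (X : ℝ) ≤ v * (Q * (2 * (T : ℝ))) := by exact_mod_cast h2
      rw [hT] at h3; push_cast at h3; linarith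
    have hu0 : (0 : ℝ) < u := by exact_mod_cast (by omega : 0 < u)
    have b1 := Real.log_le_log hu0 a1
    have b2 := Real.log_le_log (by positivity) a2
    rw [Real.log_div (by positivity) (by positivity), Real.log_mul (by positivity) (by positivity)] at b1 b2
    linarith
  set S := {x ∈ Icc 1 y ×ˢ Ioc Z X | Squarefree x.1 ∧ x.2.Prime ∧ x.1 * Q * x.2 ≤ X ∧
        (x.1 * Q * x.2) % 60 = r % 60} with hS
  have hfib : ∑ l ∈ Ioc u v with l.Prime, #{x ∈ S | x.2 = l} ≤ #S := by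
    rw [← card_biUnion]
    · exact card_le_card (biUnion_subset.2 fun _ _ => filter_subset _ _)
    · intro a _ b _ hab
      exact disjoint_filter.2 fun x _ h1 h2 => hab (h1.symm.trans h2)
  have hone : ∀ l ∈ (Ioc u v).filter Nat.Prime,
      (X : ℝ) / Q / (200 * Real.log X) * (Real.log l / l) ≤ #{x ∈ S | x.2 = l} := by
    intro l hl
    obtain ⟨hl1, hlp⟩ := mem_filter.1 hl
    obtain ⟨hlu, hlv⟩ := mem_Ioc.1 hl1
    have hl0 : 0 < l := hlp.pos
    have hlr : (0 : ℝ) < l := by exact_mod_cast hl0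
    have hl60 : Nat.Coprime l 60 := by
      rw [hlp.coprime_iff_not_dvd]
      intro h
      have h6 : 6 ≤ l := by omega
      have h' : l ∣ 2 * 2 * 3 * 5 := h
      rcases (Nat.Prime.dvd_mul hlp).1 h' with h | h
      · rcases (Nat.Prime.dvd_mul hlp).1 h with h | h
        · rcases (Nat.Prime.dvd_mul hlp).1 h with h | h <;>
            exact absurd (Nat.le_of_dvd (by norm_num) h) (by omega)
        · exact absurd (Nat.le_of_dvd (by norm_num) h) (by omega)
      · exact absurd (Nat.le_of_dvd (by norm_num) h) (by omega)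
    set t := X / (Q * l) with ht
    have htT : T ≤ t := by
      rw [ht, Nat.le_div_iff_mul_le (by positivity)]
      rw [hv, Nat.le_div_iff_mul_le (by positivity)] at hlv
      nlinarith
    have hty : t ≤ y := by
      rw [hu, Nat.div_lt_iff_lt_mul (by positivity)] at hlu
      refine le_of_lt ?_
      rw [ht, Nat.div_lt_iff_lt_mul (by positivity)]
      nlinarith
    have h1 := sqfree_class' t (Q * l) r htT (hQ.mul_left hl60) hr
    have h2 : #{m ∈ Icc 1 t | Squarefree m ∧ (m * (Q * l)) % 60 = r % 60} ≤ #{x ∈ S | x.2 = l} := by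
      refine card_le_card_of_injOn (fun m => (m, l)) (fun m hm => ?_)
        fun a _ b _ h => (Prod.ext_iff.1 h).1
      simp only [coe_filter, mem_Icc, Set.mem_ofPred_eq] at hm
      obtain ⟨⟨m1, m2⟩, m3, m4⟩ := hm
      simp only [hS, coe_filter, mem_filter, mem_product, mem_Icc, mem_Ioc, Set.mem_ofPred_eq,
        and_true]
      refine ⟨⟨⟨m1, m2.trans hty⟩, by omega, by omega⟩, m3, hlp, ?_, by rw [mul_assoc]; exact m4⟩
      rw [ht, Nat.le_div_iff_mul_le (by positivity)] at m2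
      rw [mul_assoc]; exact m2
    have h3 : (X : ℝ) / (Q * l) ≤ 2 * t := by
      rw [div_le_iff₀ (by positivity)]
      have := Nat.lt_div_mul_add (a := X) (b := Q * l) (by positivity)
      have ht1 : 1 ≤ t := by omega
      have h2 : X ≤ 2 * t * (Q * l) := by rw [← ht] at this; nlinarith
      exact_mod_cast h2
    have h4 : Real.log l ≤ Real.log X := Real.log_le_log hlr (by exact_mod_cast hlv.trans hvX)
    have h5 := (Nat.cast_le (α := ℝ)).2 h2
    calc (X : ℝ) / Q / (200 * Real.log X) * (Real.log l / l)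
        ≤ (X : ℝ) / Q / (200 * Real.log X) * (Real.log X / l) := by gcongr
      _ = (X : ℝ) / (Q * l) / 200 := by field_simp
      _ ≤ _ := by linarith
  have h7 := sum_le_sum hone
  rw [← mul_sum] at h7
  have h8 := (Nat.cast_le (α := ℝ)).2 hfib
  push_cast at h8
  calc 1 / 400 * ((X : ℝ) / Q) * Real.log y / Real.log X
      = (X : ℝ) / Q / (200 * Real.log X) * (Real.log y / 2) := by field_simp; ring
    _ ≤ (X : ℝ) / Q / (200 * Real.log X) * ∑ p ∈ Ioc u v with p.Prime, Real.log p / p := by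
        gcongr; linarith
    _ ≤ _ := h7.trans h8

end Pool.Agent.Lib.MP_696deb_nt.Den
end
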