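import Mathlib

-- part Pool.Agent.Lib.MP_696deb_nt.DenDefs
section

set_option autoImplicit false

open Finset
open scoped NumberTheorySymbols

namespace Pool.Agent.Lib.MP_696deb_nt.Den

/-- The two Jacobi symbols of a pair. -/
def sym (σ : Bool) (d n : ℕ) : ℤ := if σ then J(d | n) else J(n | d)

/-- Odd squarefree numbers in `[1, y]`. -/
def SO (y : ℕ) : Finset ℕ := (Icc 1 y).filter fun e => Squarefree e ∧ Odd e

/-- Logarithmic mass of the `e ≤ y` all of whose primes have symbol one against `d`. -/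
noncomputable def Wt (σ : Bool) (y d : ℕ) : ℝ :=
  ∑ e ∈ SO y, (1 / (e : ℝ)) * ∏ p ∈ e.primeFactors, (1 + (sym σ d p : ℝ)) / 2

end Pool.Agent.Lib.MP_696deb_nt.Den
end

-- part Pool.Agent.Lib.MP_696deb_nt.DenChar
section

set_option autoImplicit false

open Finset
open scoped NumberTheorySymbols

namespace Pool.Agent.Lib.MP_696deb_nt.Den

/-- Chinese remainder theorem for complete sums. -/
theorem crt_sum {a b : ℕ} (h : Nat.Coprime a b) (ha : a ≠ 0) (hb : b ≠ 0) (f g : ℕ → ℝ)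
    (hf : ∀ n, f (n % a) = f n) (hg : ∀ n, g (n % b) = g n) :
    ∑ n ∈ range (a * b), f n * g n = (∑ n ∈ range a, f n) * ∑ n ∈ range b, g n := by
  rw [sum_mul_sum, ← sum_product']
  refine sum_nbij' (fun n => (n % a, n % b)) (fun x => (Nat.chineseRemainder h x.1 x.2 : ℕ))
    ?_ ?_ ?_ ?_ ?_
  · intro n _
    simp [Nat.mod_lt _ (Nat.pos_of_ne_zero ha), Nat.mod_lt _ (Nat.pos_of_ne_zero hb)]
  · intro x _
    simpa using Nat.chineseRemainder_lt_mul h x.1 x.2 ha hb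
  · intro n hn
    have h1 := Nat.chineseRemainder_modEq_unique h (a := n % a) (b := n % b) (z := n)
      (Nat.mod_modEq n a).symm (Nat.mod_modEq n b).symm
    have h2 := Nat.chineseRemainder_lt_mul h (n % a) (n % b) ha hb
    exact (Nat.ModEq.eq_of_lt_of_lt h1 (mem_range.mp hn) h2).symm
  · rintro ⟨x, y⟩ hx
    simp only [mem_product, mem_range] at hx
    have h1 := (Nat.chineseRemainder h x y).2
    ext
    · simpa [Nat.ModEq, Nat.mod_eq_of_lt hx.1] using h1.1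
    · simpa [Nat.ModEq, Nat.mod_eq_of_lt hx.2] using h1.2
  · intro n _
    simp [hf, hg]

theorem periodic_sum_le {m : ℕ} (hm : m ≠ 0) (f : ℕ → ℝ) (hf : ∀ n, f (n % m) = f n)
    (h0 : ∑ n ∈ range m, f n = 0) (h1 : ∀ n, |f n| ≤ 1) (t : ℕ) :
    |∑ n ∈ range t, f n| ≤ m := by
  have key : ∀ t, ∑ n ∈ range (t + m), f n = ∑ n ∈ range t, f n := by
    intro t
    induction t with
    | zero => simpa using h0
    | succ t ih =>
      rw [show t + 1 + m = (t + m) + 1 by ring, sum_range_succ, sum_range_succ, ih, ← hf (t + m),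
        Nat.add_mod_right, hf]
  induction t using Nat.strong_induction_on with
  | _ t ih =>
    by_cases ht : t < m
    · calc _ ≤ ∑ n ∈ range t, |f n| := abs_sum_le_sum_abs _ _
        _ ≤ ∑ n ∈ range t, (1 : ℝ) := sum_le_sum fun n _ => h1 n
        _ ≤ m := by simpa using ht.le
    · obtain ⟨s, rfl⟩ : ∃ s, t = s + m := ⟨t - m, by omega⟩
      rw [key]; exact ih s (by omega)

theorem abs_J_le (a : ℤ) (b : ℕ) : |(J(a | b) : ℝ)| ≤ 1 := by
  rcases jacobiSym.trichotomy a b with h | h | h <;> simp [h]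

theorem J_mod (n m : ℕ) : J((n % m : ℕ) | m) = J(n | m) := by
  rw [jacobiSym.mod_left (n : ℤ) m]; norm_cast

theorem sum_J_prime {p : ℕ} (hp : p.Prime) (hp2 : p ≠ 2) :
    ∑ n ∈ range p, (J(n | p) : ℝ) = 0 := by
  have := Fact.mk hp
  have h := quadraticChar_sum_zero (F := ZMod p) (by rwa [ZMod.ringChar_zmod_n])
  have h2 : ∑ n ∈ range p, J(n | p) = ∑ a : ZMod p, quadraticChar (ZMod p) a := by
    refine sum_nbij' (fun n => (n : ZMod p)) (fun x => x.val) ?_ ?_ ?_ ?_ ?_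
    · simp
    · intro x _; simpa using ZMod.val_lt x
    · intro n hn; exact ZMod.val_cast_of_lt (mem_range.mp hn)
    · intro x _; simp
    · intro n _
      rw [← jacobiSym.legendreSym.to_jacobiSym]; simp [legendreSym]
  rw [h] at h2
  exact_mod_cast h2

theorem jsum_le {p c : ℕ} (hp : p.Prime) (hp2 : p ≠ 2) (hc : ¬ p ∣ c) (t : ℕ) :
    |∑ n ∈ range t, (J(n | p * c) : ℝ)| ≤ p * c := by
  have hc0 : c ≠ 0 := by rintro rfl; simp at hc
  have := periodic_sum_le (mul_ne_zero hp.ne_zero hc0) (fun n => (J(n | p * c) : ℝ))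
    (fun n => by rw [J_mod]) ?_ (fun n => abs_J_le _ _) t
  · exact_mod_cast this
  · have := crt_sum ((Nat.Prime.coprime_iff_not_dvd hp).mpr hc) hp.ne_zero hc0
      (fun n => (J(n | p) : ℝ)) (fun n => (J(n | c) : ℝ)) (fun n => by rw [J_mod])
      (fun n => by rw [J_mod])
    rw [sum_J_prime hp hp2, zero_mul] at this
    rw [← this]
    refine sum_congr rfl fun n _ => ?_
    rw [jacobiSym.mul_right' _ hp.ne_zero hc0]; push_cast; rfl

theorem jsum4_le {d : ℕ} (hd : Odd d) (t : ℕ) :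
    |∑ n ∈ range t, ((ZMod.χ₄ n : ℤ) : ℝ) * (J(n | d) : ℝ)| ≤ 4 * d := by
  have hd0 : d ≠ 0 := by rintro rfl; simp at hd
  have h4 : ∀ n : ℕ, ZMod.χ₄ ((n % 4 : ℕ) : ZMod 4) = ZMod.χ₄ (n : ZMod 4) := fun n => by simp
  have := periodic_sum_le (m := 4 * d) (by omega)
    (fun n => ((ZMod.χ₄ n : ℤ) : ℝ) * (J(n | d) : ℝ)) (fun n => ?_) ?_ (fun n => ?_) t
  · exact_mod_cast this
  · rw [← h4 (n % (4 * d)), Nat.mod_mod_of_dvd _ (dvd_mul_right _ _), h4, ← J_mod (n % (4 * d)),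
      Nat.mod_mod_of_dvd _ (dvd_mul_left _ _), J_mod]
  · rw [crt_sum (a := 4) (b := d) ?_ (by omega) hd0
      (fun n => ((ZMod.χ₄ n : ℤ) : ℝ)) (fun n => (J(n | d) : ℝ)) (fun n => by rw [h4])
      (fun n => by rw [J_mod])]
    · have : ∑ n ∈ range 4, ZMod.χ₄ (n : ZMod 4) = 0 := by decide
      have h' : ∑ n ∈ range 4, ((ZMod.χ₄ (n : ZMod 4) : ℤ) : ℝ) = 0 := by exact_mod_cast this
      rw [h', zero_mul]
    · exact (Nat.coprime_two_left.mpr hd).pow_left 2
  · rw [abs_mul]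
    refine mul_le_one₀ ?_ (abs_nonneg _) (abs_J_le _ _)
    have : ∀ x : ZMod 4, ZMod.χ₄ x = 0 ∨ ZMod.χ₄ x = 1 ∨ ZMod.χ₄ x = -1 := by decide
    rcases this n with h | h | h <;> simp [h]

theorem abel_le (f w : ℕ → ℝ) (K : ℝ) (hf : ∀ t, |∑ n ∈ range t, f n| ≤ K) (u v : ℕ)
    (hw0 : ∀ n, u < n → 0 ≤ w n) (hw : ∀ n, u < n → w (n + 1) ≤ w n) :
    |∑ n ∈ Ioc u v, w n * f n| ≤ 2 * K * w (u + 1) := by
  have hK : 0 ≤ K := (abs_nonneg _).trans (hf 0)
  have hF : ∀ j, |∑ n ∈ Ioc u (u + j), f n| ≤ 2 * K := by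
    intro j
    have : ∑ n ∈ Ioc u (u + j), f n =
        ∑ n ∈ range (u + j + 1), f n - ∑ n ∈ range (u + 1), f n := by
      rw [← sum_Ico_eq_sub _ (by omega)]
      congr 1
      ext n; simp only [mem_Ioc, mem_Ico]; omega
    rw [this]
    have h1 := abs_le.mp (hf (u + j + 1))
    have h2 := abs_le.mp (hf (u + 1))
    rw [abs_le]; constructor <;> linarith
  have key : ∀ j, |∑ n ∈ Ioc u (u + j), w n * f n - w (u + j + 1) * ∑ n ∈ Ioc u (u + j), f n| ≤
      2 * K * (w (u + 1) - w (u + j + 1)) := by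
    intro j
    induction j with
    | zero => simp
    | succ j ih =>
      have h1 := hF (j + 1)
      rw [← add_assoc, sum_Ioc_succ_top (by omega)] at h1
      rw [← add_assoc, sum_Ioc_succ_top (by omega), sum_Ioc_succ_top (by omega)]
      have h2 : 0 ≤ w (u + j + 1) - w (u + j + 1 + 1) := sub_nonneg.mpr (hw _ (by omega))
      set F := ∑ n ∈ Ioc u (u + j), f n + f (u + j + 1)
      have h3 : |(w (u + j + 1) - w (u + j + 1 + 1)) * F| ≤
          (w (u + j + 1) - w (u + j + 1 + 1)) * (2 * K) := by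
        rw [abs_mul, abs_of_nonneg h2]; exact mul_le_mul_of_nonneg_left h1 h2
      have h4 : ∑ n ∈ Ioc u (u + j), w n * f n + w (u + j + 1) * f (u + j + 1) -
          w (u + j + 1 + 1) * F = (∑ n ∈ Ioc u (u + j), w n * f n -
            w (u + j + 1) * ∑ n ∈ Ioc u (u + j), f n) +
          (w (u + j + 1) - w (u + j + 1 + 1)) * F := by simp only [F]; ring
      rw [h4]
      refine (abs_add_le _ _).trans ?_
      linarith
  by_cases huv : v ≤ u
  · rw [Ioc_eq_empty (by omega)]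
    simpa using mul_nonneg (mul_nonneg zero_le_two hK) (hw0 (u + 1) (by omega))
  obtain ⟨j, rfl⟩ : ∃ j, v = u + j := ⟨v - u, by omega⟩
  have h1 := key j
  have h2 := hw0 (u + j + 1) (by omega)
  have h3 : |w (u + j + 1) * ∑ n ∈ Ioc u (u + j), f n| ≤ w (u + j + 1) * (2 * K) := by
    rw [abs_mul, abs_of_nonneg h2]; exact mul_le_mul_of_nonneg_left (hF j) h2
  have h4 := abs_sub_abs_le_abs_sub (∑ n ∈ Ioc u (u + j), w n * f n)
    (w (u + j + 1) * ∑ n ∈ Ioc u (u + j), f n)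
  linarith

/-- The product of two different odd squarefree numbers has an odd prime to the exact power one. -/
theorem exists_exact {m m' : ℕ} (hm : Squarefree m) (hm' : Squarefree m') (ho : Odd m)
    (ho' : Odd m') (hne : m ≠ m') : ∃ p c, p.Prime ∧ p ≠ 2 ∧ ¬ p ∣ c ∧ m * m' = p * c := by
  have aux : ∀ {a b : ℕ}, Squarefree a → Odd a → ¬ a ∣ b → Squarefree b →
      ∃ p c, p.Prime ∧ p ≠ 2 ∧ ¬ p ∣ c ∧ a * b = p * c := by
    intro a b ha hao hab hb
    obtain ⟨p, hp, hpa, hpb⟩ : ∃ p, p.Prime ∧ p ∣ a ∧ ¬ p ∣ b := by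
      by_contra hcon
      push Not at hcon
      apply hab
      rw [← Nat.prod_primeFactors_of_squarefree ha]
      exact Finset.prod_primes_dvd _ (fun p hp => (Nat.prime_of_mem_primeFactors hp).prime)
        fun p hp => hcon p (Nat.prime_of_mem_primeFactors hp) (Nat.dvd_of_mem_primeFactors hp)
    obtain ⟨a', rfl⟩ := hpa
    refine ⟨p, a' * b, hp, ?_, ?_, by ring⟩
    · rintro rfl
      exact (Nat.not_even_iff_odd.mpr hao) (by simp)
    · intro h
      rcases (Nat.Prime.dvd_mul hp).mp h with h | h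
      · exact hp.not_isUnit (ha p (mul_dvd_mul_left p h))
      · exact hpb h
  by_cases h : m ∣ m'
  · have h' : ¬ m' ∣ m := fun h' => hne (Nat.dvd_antisymm h h')
    rw [mul_comm]; exact aux hm' ho' h' hm
  · exact aux hm ho h hm'

theorem bilin (S : Finset ℕ) (A : ℕ) (hS : ∀ m ∈ S, Squarefree m ∧ Odd m ∧ m ≤ A)
    (a w : ℕ → ℝ) (t : ℕ → ℕ) (u B : ℕ)
    (hw0 : ∀ n, u < n → 0 ≤ w n) (hw : ∀ n, u < n → w (n + 1) ≤ w n) :
    ∑ n ∈ Ioc u B, w n * (∑ m ∈ S with n ≤ t m, a m * (J(n | m) : ℝ)) ^ 2 ≤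
      ∑ m ∈ S, a m ^ 2 * ∑ n ∈ Ioc u (t m), w n +
        2 * (A : ℝ) ^ 2 * w (u + 1) * (∑ m ∈ S, |a m|) ^ 2 := by
  have e1 : ∑ n ∈ Ioc u B, w n * (∑ m ∈ S with n ≤ t m, a m * (J(n | m) : ℝ)) ^ 2 =
      ∑ m ∈ S, ∑ m' ∈ S, a m * a m' *
        ∑ n ∈ Ioc u (min B (min (t m) (t m'))), w n * ((J(n | m) : ℝ) * J(n | m')) := by
    simp_rw [sq, sum_filter, sum_mul_sum, mul_sum]
    rw [sum_comm]
    refine sum_congr rfl fun m _ => ?_
    rw [sum_comm]
    refine sum_congr rfl fun m' _ => ?_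
    have : Ioc u (min B (min (t m) (t m'))) = (Ioc u B).filter fun n => n ≤ t m ∧ n ≤ t m' := by
      ext n; simp only [mem_Ioc, mem_filter, le_min_iff]; tauto
    rw [this, sum_filter]
    refine sum_congr rfl fun n _ => ?_
    by_cases h1 : n ≤ t m <;> by_cases h2 : n ≤ t m' <;> simp [h1, h2]; ring
  have hw1 := hw0 (u + 1) (by omega)
  have e2 : ∀ m ∈ S, ∀ m' ∈ S, a m * a m' *
        ∑ n ∈ Ioc u (min B (min (t m) (t m'))), w n * ((J(n | m) : ℝ) * J(n | m')) ≤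
      (if m = m' then a m ^ 2 * ∑ n ∈ Ioc u (t m), w n else 0) +
        2 * (A : ℝ) ^ 2 * w (u + 1) * (|a m| * |a m'|) := by
    intro m hm m' hm'
    split_ifs with h
    · subst h
      have h1 : ∑ n ∈ Ioc u (min B (min (t m) (t m))), w n * ((J(n | m) : ℝ) * J(n | m)) ≤
          ∑ n ∈ Ioc u (t m), w n := by
        calc _ ≤ ∑ n ∈ Ioc u (min B (min (t m) (t m))), w n := by
              refine sum_le_sum fun n hn => ?_
              refine mul_le_of_le_one_right (hw0 n (mem_Ioc.mp hn).1) ?_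
              have := abs_le.mp (abs_J_le n m)
              nlinarith
          _ ≤ _ := sum_le_sum_of_subset_of_nonneg (Ioc_subset_Ioc_right (by omega))
              fun n hn _ => hw0 n (mem_Ioc.mp hn).1
      have h2 : 0 ≤ 2 * (A : ℝ) ^ 2 * w (u + 1) * (|a m| * |a m|) := by positivity
      have h3 := mul_le_mul_of_nonneg_left h1 (mul_self_nonneg (a m))
      rw [sq]; linarith
    · obtain ⟨hs, ho, hA⟩ := hS m hm
      obtain ⟨hs', ho', hA'⟩ := hS m' hm'
      obtain ⟨p, c, hp, hp2, hpc, e⟩ := exists_exact hs hs' ho ho' h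
      have h1 := abel_le (fun n => (J(n | p * c) : ℝ)) w _ (jsum_le hp hp2 hpc) u
        (min B (min (t m) (t m'))) hw0 hw
      have h2 : ∀ n : ℕ, (J(n | p * c) : ℝ) = (J(n | m) : ℝ) * J(n | m') := fun n => by
        rw [← e, jacobiSym.mul_right' _ hs.ne_zero hs'.ne_zero]; push_cast; rfl
      simp only [h2] at h1
      have h3 : (p : ℝ) * c ≤ (A : ℝ) ^ 2 := by
        have : p * c ≤ A ^ 2 := by rw [← e, sq]; exact Nat.mul_le_mul hA hA'
        exact_mod_cast this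
      rw [zero_add]
      refine (le_abs_self _).trans ?_
      rw [abs_mul, abs_mul, mul_comm]
      refine mul_le_mul_of_nonneg_right (h1.trans ?_) (by positivity)
      gcongr
  rw [e1]
  refine (sum_le_sum fun m hm => sum_le_sum fun m' hm' => e2 m hm m' hm').trans (le_of_eq ?_)
  simp_rw [sum_add_distrib, ← mul_sum, sq (∑ m ∈ S, |a m|), sum_mul]
  congr 1
  refine sum_congr rfl fun m hm => ?_
  rw [sum_ite_eq]; simp [hm]

end Pool.Agent.Lib.MP_696deb_nt.Den
end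

-- part Pool.Agent.Lib.MP_696deb_nt.DensityChar
section

/-! Elementary bounds for sums of periodic completely multiplicative functions. -/

namespace Pool.Agent.Lib.MP_696deb_nt

open Finset
open scoped NumberTheorySymbols

theorem sum_le_sum_inj {α β : Type*} {s : Finset α} {t : Finset β} {f : α → ℝ} {g : β → ℝ}
    (e : α → β) (hi : Set.InjOn e s) (hm : ∀ a ∈ s, e a ∈ t) (hle : ∀ a ∈ s, f a ≤ g (e a))
    (h0 : ∀ b ∈ t, 0 ≤ g b) : ∑ a ∈ s, f a ≤ ∑ b ∈ t, g b := by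
  classical
  refine (sum_le_sum hle).trans ?_
  rw [← sum_image hi]
  exact sum_le_sum_of_subset_of_nonneg (image_subset_iff.2 hm) fun b hb _ => h0 b hb

theorem sum_range_char_zero {χ : ℕ → ℤ} {q : ℕ} (hq : 0 < q) (hm : ∀ a b, χ (a * b) = χ a * χ b)
    (hp : ∀ n, χ (n + q) = χ n) {a : ℕ} (ha : a.Coprime q) (ha' : χ a = -1) :
    ∑ n ∈ range q, χ n = 0 := by
  have hmod : ∀ n, χ (n % q) = χ n := fun n => Function.Periodic.map_mod_nat hp n
  have : NeZero q := ⟨hq.ne'⟩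
  have e1 : ∀ f : ℕ → ℤ, ∑ n ∈ range q, f n = ∑ x : ZMod q, f x.val := fun f => by
    refine Finset.sum_nbij' (fun n => (n : ZMod q)) (fun x => x.val) (by simp) (fun x _ => ?_)
      (fun n hn => ?_) (by simp) fun n hn => ?_
    · simpa using ZMod.val_lt x
    · exact ZMod.val_cast_of_lt (by simpa using hn)
    · rw [ZMod.val_cast_of_lt (by simpa using hn)]
  rw [e1]
  have e2 := Equiv.sum_comp (ZMod.unitOfCoprime a ha).mulLeft (fun x : ZMod q => χ x.val)
  have e3 : ∀ x : ZMod q, χ ((ZMod.unitOfCoprime a ha).mulLeft x).val = -χ x.val := fun x => by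
    simp only [Units.mulLeft_apply, ZMod.coe_unitOfCoprime, ZMod.val_mul, ZMod.val_natCast]
    rw [hmod, hm, hmod, ha']; ring
  simp only [e3, Finset.sum_neg_distrib] at e2
  linarith

theorem abs_sum_Ico_le {χ : ℕ → ℤ} {q : ℕ} (hq : 0 < q) (hp : ∀ n, χ (n + q) = χ n)
    (h1 : ∀ n, |χ n| ≤ 1) (h0 : ∑ n ∈ range q, χ n = 0) (A B : ℕ) :
    |∑ n ∈ Ico A B, χ n| ≤ q := by
  have per : ∀ B, ∑ n ∈ range (B + q), χ n = ∑ n ∈ range B, χ n := by
    intro B
    induction B with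
    | zero => simpa using h0
    | succ B ih => rw [Nat.add_right_comm, sum_range_succ, sum_range_succ, ih, hp]
  induction B using Nat.strong_induction_on with
  | _ B ih =>
    by_cases h : B ≤ A + q
    · calc |∑ n ∈ Ico A B, χ n| ≤ ∑ n ∈ Ico A B, |χ n| := abs_sum_le_sum_abs _ _
        _ ≤ ∑ n ∈ Ico A B, (1 : ℤ) := sum_le_sum fun n _ => h1 n
        _ ≤ q := by simp; omega
    · obtain ⟨B', rfl⟩ : ∃ B', B = B' + q := ⟨B - q, by omega⟩
      have := ih B' (by omega)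
      rwa [sum_Ico_eq_sub _ (by omega), per, ← sum_Ico_eq_sub _ (by omega)]

theorem abs_sum_char_le {χ : ℕ → ℤ} {q : ℕ} (hq : 0 < q) (hm : ∀ a b, χ (a * b) = χ a * χ b)
    (hp : ∀ n, χ (n + q) = χ n) (h1 : ∀ n, |χ n| ≤ 1) {a : ℕ} (ha : a.Coprime q) (ha' : χ a = -1)
    (A B : ℕ) : |∑ n ∈ Ico A B, χ n| ≤ q :=
  abs_sum_Ico_le hq hp h1 (sum_range_char_zero hq hm hp ha ha') A B

theorem abs_jac_le (a : ℤ) (n : ℕ) : |J(a | n)| ≤ 1 := by
  rcases jacobiSym.trichotomy a n with h | h | h <;> simp [h]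

theorem exists_jac_neg {p k : ℕ} (hp : p.Prime) (hp2 : p ≠ 2) (hk : k ≠ 0) (hpk : p.Coprime k) :
    ∃ a : ℕ, a % 4 = 1 ∧ a.Coprime (p * k) ∧ J(a | p * k) = -1 := by
  have : Fact p.Prime := ⟨hp⟩
  obtain ⟨x, hx⟩ := FiniteField.exists_nonsquare (F := ZMod p) (by rwa [ZMod.ringChar_zmod_n])
  have h4 : p.Coprime (4 * k) := by
    refine Nat.Coprime.mul_right ?_ hpk
    exact (Nat.coprime_primes hp Nat.prime_two).2 hp2 |>.pow_right 2
  obtain ⟨a, h1, h2⟩ := Nat.chineseRemainder h4 x.val 1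
  have j1 : J(a | p) = -1 := by
    rw [← ZMod.nonsquare_iff_jacobiSym_eq_neg_one.symm]
    have : ((a : ℤ) : ZMod p) = x := by
      rw [Int.cast_natCast, (ZMod.natCast_eq_natCast_iff _ _ _).2 h1, ZMod.natCast_zmod_val]
    rwa [this]
  have h3 : a ≡ 1 [MOD k] := h2.of_mul_left 4
  have j2 : J(a | k) = 1 := by
    rw [jacobiSym.mod_left' (a₂ := 1) (Int.natCast_modEq_iff.2 h3), jacobiSym.one_left]
  have j3 : J(a | p * k) = -1 := by
    rw [jacobiSym.mul_right' _ hp.ne_zero hk, j1, j2]; simp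
  refine ⟨a, h2.of_mul_right k, ?_, j3⟩
  by_contra hc
  have : NeZero (p * k) := ⟨mul_ne_zero hp.ne_zero hk⟩
  have := jacobiSym.eq_zero_iff_not_coprime.2 (show (a : ℤ).gcd (p * k : ℕ) ≠ 1 by
    rwa [Int.gcd_natCast_natCast])
  omega

theorem exists_jac_neg_of_ne {d d' : ℕ} (hd : Squarefree d) (hd' : Squarefree d') (ho : Odd d)
    (ho' : Odd d') (hne : d ≠ d') :
    ∃ a : ℕ, a % 4 = 1 ∧ a.Coprime (d * d') ∧ J(a | d * d') = -1 := by
  have key : ∀ {d d' : ℕ}, Squarefree d → Squarefree d' → Odd d → ¬ d ∣ d' →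
      ∃ a : ℕ, a % 4 = 1 ∧ a.Coprime (d * d') ∧ J(a | d * d') = -1 := by
    intro d d' hd hd' ho hn
    obtain ⟨p, hp, hpd, hpd'⟩ : ∃ p, p.Prime ∧ p ∣ d ∧ ¬ p ∣ d' := by
      by_contra hc
      push Not at hc
      apply hn
      rw [← Nat.prod_primeFactors_of_squarefree hd, Nat.prod_primeFactors_dvd_iff hd'.ne_zero]
      intro p hp
      rw [Nat.mem_primeFactors] at hp ⊢
      exact ⟨hp.1, hc p hp.1 hp.2.1, hd'.ne_zero⟩
    obtain ⟨k, rfl⟩ := hpd
    rw [mul_assoc]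
    have hk : p.Coprime k := Nat.coprime_of_squarefree_mul hd
    refine exists_jac_neg hp ?_ (mul_ne_zero (by rintro rfl; simp at hd) hd'.ne_zero)
      (hk.mul_right ((Nat.Prime.coprime_iff_not_dvd hp).2 hpd'))
    rintro rfl
    exact (Nat.not_odd_iff_even.2 (even_two_mul k)) ho
  by_cases h : d ∣ d'
  · rw [mul_comm]; exact key hd' hd ho' fun h' => hne (Nat.dvd_antisymm h h')
  · exact key hd hd' ho h

theorem jac_add_self (n q : ℕ) : J(((n + q : ℕ) : ℤ) | q) = J(n | q) :=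
  jacobiSym.mod_left' (by simp)

/-- incomplete sums of `n ↦ J(n | d) J(n | d')` -/
theorem abs_sum_jac_le {d d' : ℕ} (hd : Squarefree d) (hd' : Squarefree d') (ho : Odd d)
    (ho' : Odd d') (hne : d ≠ d') (A B : ℕ) :
    |∑ n ∈ Ico A B, J(n | d) * J(n | d')| ≤ (d * d' : ℕ) := by
  obtain ⟨a, -, h1, h2⟩ := exists_jac_neg_of_ne hd hd' ho ho' hne
  simp only [← jacobiSym.mul_right' _ hd.ne_zero hd'.ne_zero]
  exact abs_sum_char_le (χ := fun n => J(n | d * d'))
    (Nat.pos_of_ne_zero (mul_ne_zero hd.ne_zero hd'.ne_zero))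
    (fun a b => by push_cast; exact jacobiSym.mul_left _ _ _) (fun n => jac_add_self n _)
    (fun n => abs_jac_le _ _) h1 h2 A B

/-- the character `n ↦ J(d | n)` on odd `n` -/
def jacR (d n : ℕ) : ℤ := if Odd n then J(d | n) else 0

theorem jacR_mul (d a b : ℕ) : jacR d (a * b) = jacR d a * jacR d b := by
  unfold jacR
  by_cases ha : Odd a <;> by_cases hb : Odd b <;> simp [Nat.odd_mul, ha, hb]
  exact jacobiSym.mul_right' _ (by rintro rfl; simp at ha) (by rintro rfl; simp at hb)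

theorem abs_jacR_le (d n : ℕ) : |jacR d n| ≤ 1 := by
  unfold jacR; split_ifs
  · exact abs_jac_le _ _
  · simp

theorem abs_sum_jacR_le {d : ℕ} (hd : Squarefree d) (ho : Odd d) (hne : d ≠ 1) (A B : ℕ) :
    |∑ n ∈ Ico A B, jacR d n| ≤ (4 * d : ℕ) := by
  obtain ⟨a, h0, h1, h2⟩ := exists_jac_neg_of_ne hd squarefree_one ho odd_one hne
  rw [mul_one] at h1 h2
  have hao : Odd a := by rw [Nat.odd_iff]; omega
  refine abs_sum_char_le (χ := jacR d) (by have := hd.ne_zero; omega) (jacR_mul d) (fun n => ?_)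
    (abs_jacR_le d) (a := a) ?_ ?_ A B
  · unfold jacR
    have : Odd (n + 4 * d) ↔ Odd n := by simp only [Nat.odd_iff]; omega
    by_cases hn : Odd n
    · rw [if_pos hn, if_pos (this.2 hn), jacobiSym.mod_right' d (this.2 hn),
        jacobiSym.mod_right' d hn, Nat.add_mod_right]
    · rw [if_neg hn, if_neg (fun h => hn (this.1 h))]
  · exact ((Nat.coprime_two_right.2 hao).pow_right 2).mul_right h1
  · rw [jacR, if_pos hao, ← jacobiSym.quadratic_reciprocity_one_mod_four h0 ho, h2]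

end Pool.Agent.Lib.MP_696deb_nt
end

-- part Pool.Agent.Lib.MP_696deb_nt.DensityBil
section

/-! Divisor bound and the bilinear (double oscillation) bound for Jacobi symbols. -/

namespace Pool.Agent.Lib.MP_696deb_nt

open Finset Filter Topology
open scoped NumberTheorySymbols

theorem divisor_bound (k : ℕ) : ∃ C : ℝ, 1 ≤ C ∧ ∀ n : ℕ, 0 < n →
    (n.divisors.card : ℝ) ^ k ≤ C * n := by
  obtain ⟨B, hB⟩ : ∃ B : ℝ, ∀ a : ℕ, ((a + 1 : ℕ) : ℝ) ^ k / 2 ^ (a + 1) ≤ B := by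
    have := (tendsto_pow_const_div_const_pow_of_one_lt k (show (1 : ℝ) < 2 by norm_num)).bddAbove_range
    obtain ⟨B, hB⟩ := this
    exact ⟨B, fun a => hB ⟨a + 1, rfl⟩⟩
  set K := max 1 (2 * B) with hK
  have K1 : 1 ≤ K := le_max_left _ _
  refine ⟨K ^ 2 ^ k, one_le_pow₀ K1, fun n hn => ?_⟩
  rw [Nat.card_divisors hn.ne']
  push_cast
  rw [← prod_pow]
  calc ∏ p ∈ n.primeFactors, ((n.factorization p : ℝ) + 1) ^ k ≤
      ∏ p ∈ n.primeFactors, (if p < 2 ^ k then K else 1) * (p : ℝ) ^ n.factorization p := by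
        refine prod_le_prod (fun _ _ => by positivity) fun p hp => ?_
        have p2 : (2 : ℝ) ≤ p := by exact_mod_cast (Nat.prime_of_mem_primeFactors hp).two_le
        generalize n.factorization p = a
        split_ifs with h
        · have := hB a
          rw [div_le_iff₀ (by positivity)] at this
          push_cast at this
          calc _ ≤ B * 2 ^ (a + 1) := this
            _ = 2 * B * 2 ^ a := by ring
            _ ≤ K * (p : ℝ) ^ a := by
              gcongr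
              exact le_max_right _ _
        · have h1 : ((a : ℝ) + 1) ≤ 2 ^ a := by exact_mod_cast Nat.lt_two_pow_self
          have h2 : (2 : ℝ) ^ k ≤ p := by exact_mod_cast not_lt.1 h
          calc ((a : ℝ) + 1) ^ k ≤ (2 ^ a) ^ k := by gcongr
            _ = (2 ^ k) ^ a := by rw [← pow_mul, ← pow_mul, mul_comm]
            _ ≤ 1 * (p : ℝ) ^ a := by rw [one_mul]; gcongr
    _ = (∏ p ∈ n.primeFactors, if p < 2 ^ k then K else 1) * n := by
        rw [prod_mul_distrib]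
        congr 1
        conv_rhs => rw [← Nat.prod_factorization_pow_eq_self hn.ne']
        rw [Finsupp.prod, Nat.support_factorization]; push_cast; rfl
    _ ≤ K ^ 2 ^ k * n := by
        gcongr
        rw [prod_ite, prod_const_one, mul_one, prod_const]
        refine pow_le_pow_right₀ K1 ?_
        refine (card_le_card (t := range (2 ^ k)) fun p hp => ?_).trans (by simp)
        exact mem_range.2 (mem_filter.1 hp).2

theorem sum_sq_V {N X : ℕ} {D : Finset ℕ} (hD : ∀ n ∈ D, Squarefree n ∧ Odd n ∧ n ≤ N)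
    (ε : ℕ → ℝ) (hε : ∀ n, |ε n| ≤ 1) :
    ∑ m ∈ Icc 1 X, (∑ n ∈ D, ε n * (J(m | n) : ℝ)) ^ 2 ≤ N * X + 2 * (N : ℝ) ^ 4 := by
  have h := Den.bilin D N hD ε (fun _ => 1) (fun _ => X) 0 X (fun _ _ => zero_le_one)
    fun _ _ => le_rfl
  have hcard : (D.card : ℝ) ≤ N := by
    have : D ⊆ Icc 1 N := fun d hd => by
      have := hD d hd
      exact mem_Icc.2 ⟨Nat.pos_of_ne_zero this.1.ne_zero, this.2.2⟩
    exact_mod_cast (card_le_card this).trans (by simp)
  have e : ∑ m ∈ Icc 1 X, (∑ n ∈ D, ε n * (J(m | n) : ℝ)) ^ 2 =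
      ∑ n ∈ Ioc 0 X, 1 * (∑ m ∈ D with n ≤ X, ε m * (J(n | m) : ℝ)) ^ 2 := by
    refine sum_congr rfl fun m hm => ?_
    rw [filter_true_of_mem fun _ _ => (mem_Ioc.1 hm).2, one_mul]
  rw [e]
  refine h.trans (add_le_add ?_ ?_)
  · simp only [sum_const, Nat.card_Ioc, nsmul_eq_mul, mul_one, Nat.sub_zero]
    rw [← sum_mul]
    refine mul_le_mul_of_nonneg_right (le_trans (sum_le_card_nsmul _ _ 1 fun n _ => ?_)
      (by simpa using hcard)) (by positivity)
    rw [← sq_abs]; exact pow_le_one₀ (abs_nonneg _) (hε n)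
  · have h1 : ∑ m ∈ D, |ε m| ≤ N := (sum_le_card_nsmul _ _ 1 fun n _ => hε n).trans
      (by simpa using hcard)
    have h2 : 0 ≤ ∑ m ∈ D, |ε m| := sum_nonneg fun _ _ => abs_nonneg _
    calc _ ≤ 2 * (N : ℝ) ^ 2 * 1 * (N : ℝ) ^ 2 := by gcongr
      _ = _ := by ring

theorem bilinear_pow : ∃ C : ℝ, 0 < C ∧ ∀ N M : ℕ, N ≤ M → ∀ a : ℕ → ℝ, (∀ m, |a m| ≤ 1) →
    ∀ D : Finset ℕ, (∀ n ∈ D, Squarefree n ∧ Odd n ∧ n ≤ N) →
    (∑ n ∈ D, |∑ m ∈ Icc 1 M, a m * (J(m | n) : ℝ)|) ^ 12 ≤ C ^ 12 * M ^ 12 * N ^ 11 := by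
  obtain ⟨B, B1, hB⟩ := divisor_bound 36
  refine ⟨3 * B, by positivity, fun N M hNM a ha D hD => ?_⟩
  rcases Nat.eq_zero_or_pos N with rfl | hN
  · have : D = ∅ := eq_empty_of_forall_notMem fun n hn => by
      have := hD n hn
      have := this.1.ne_zero
      omega
    simp [this]
  have N1 : (1 : ℝ) ≤ N := by exact_mod_cast hN
  have NM : (N : ℝ) ≤ M := by exact_mod_cast hNM
  set T : ℕ → ℝ := fun n => ∑ m ∈ Icc 1 M, a m * (J(m | n) : ℝ) with hT
  let ε : ℕ → ℝ := fun n => SignType.sign (T n)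
  have hε : ∀ n, |ε n| ≤ 1 := fun n => by
    simp only [ε]; rcases SignType.trichotomy (SignType.sign (T n)) with h | h | h <;> simp [h]
  have hεT : ∀ n, |T n| = ε n * T n := fun n => (sign_mul_self (T n)).symm
  have S0 : 0 ≤ ∑ n ∈ D, |T n| := sum_nonneg fun _ _ => abs_nonneg _
  have a2 : ∀ m, a m ^ 2 ≤ 1 := fun m => by rw [← sq_abs]; exact pow_le_one₀ (abs_nonneg _) (ha m)
  have hB12 : (1 : ℝ) ≤ B ^ 12 := one_le_pow₀ B1
  change (∑ n ∈ D, |T n|) ^ 12 ≤ _
  by_cases hc : N ^ 3 ≤ M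
  · have hc' : (N : ℝ) ^ 3 ≤ M := by exact_mod_cast hc
    have e : ∑ n ∈ D, |T n| = ∑ m ∈ Icc 1 M, a m * ∑ n ∈ D, ε n * (J(m | n) : ℝ) := by
      simp only [hεT]
      simp only [hT, mul_sum]
      rw [sum_comm]
      exact sum_congr rfl fun _ _ => sum_congr rfl fun _ _ => by ring
    have h1 : (∑ n ∈ D, |T n|) ^ 2 ≤ M * (3 * N * M) := by
      rw [e]
      refine (sum_mul_sq_le_sq_mul_sq _ _ _).trans (mul_le_mul ?_ ((sum_sq_V hD ε hε).trans ?_)
        (sum_nonneg fun _ _ => sq_nonneg _) (by positivity))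
      · exact (sum_le_card_nsmul _ _ 1 fun m _ => a2 m).trans (by simp)
      · nlinarith
    calc (∑ n ∈ D, |T n|) ^ 12 = ((∑ n ∈ D, |T n|) ^ 2) ^ 6 := by ring
      _ ≤ ((M : ℝ) * (3 * N * M)) ^ 6 := by gcongr
      _ = 3 ^ 6 * 1 * (M : ℝ) ^ 12 * N ^ 6 := by ring
      _ ≤ 3 ^ 12 * B ^ 12 * M ^ 12 * N ^ 11 := by gcongr <;> norm_num
      _ = _ := by ring
  · have hc' : (M : ℝ) ≤ N ^ 3 := by exact_mod_cast (not_le.1 hc).le
    let V : ℕ → ℝ := fun m => ∑ n ∈ D, ε n * (J(m | n) : ℝ)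
    let I3 := Icc 1 M ×ˢ Icc 1 M ×ˢ Icc 1 M
    have hcard : (D.card : ℝ) ≤ N := by
      have : D ⊆ Icc 1 N := fun d hd => by
        have := hD d hd
        exact mem_Icc.2 ⟨Nat.pos_of_ne_zero this.1.ne_zero, this.2.2⟩
      exact_mod_cast (card_le_card this).trans (by simp)
    have h1 : (∑ n ∈ D, |T n|) ^ 3 ≤ N ^ 2 * ∑ n ∈ D, |T n| ^ 3 :=
      (pow_sum_le_card_mul_sum_pow (fun _ _ => abs_nonneg _) 2).trans
        (mul_le_mul_of_nonneg_right (by gcongr) (sum_nonneg fun _ _ => by positivity))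
    have e : ∑ n ∈ D, |T n| ^ 3 =
        ∑ x ∈ I3, a x.1 * a x.2.1 * a x.2.2 * V (x.1 * x.2.1 * x.2.2) := by
      have : ∀ n, |T n| ^ 3 = ∑ x ∈ I3, a x.1 * a x.2.1 * a x.2.2 *
          (ε n * (J((x.1 * x.2.1 * x.2.2 : ℕ) | n) : ℝ)) := fun n => by
        have : |T n| ^ 3 = ε n * (T n * (T n * T n)) := by
          rw [pow_succ, sq_abs, hεT]; ring
        rw [this]
        simp only [hT, I3, sum_product, sum_mul_sum]
        simp only [mul_sum]
        refine sum_congr rfl fun _ _ => sum_congr rfl fun _ _ => sum_congr rfl fun _ _ => ?_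
        push_cast
        simp only [jacobiSym.mul_left]
        push_cast; ring
      simp only [this, V, mul_sum]
      exact sum_comm
    obtain ⟨τ, τ0, hτ, hτ'⟩ : ∃ τ : ℝ, 0 ≤ τ ∧ τ ^ 2 ≤ B ^ 4 * N ∧
        ∀ m ∈ Icc 1 (M ^ 3), (m.divisors.card : ℝ) ^ 2 ≤ τ := by
      obtain ⟨m₀, hm₀, hmax⟩ := exists_max_image (Icc 1 (M ^ 3)) (fun m => m.divisors.card)
        ⟨1, by simp only [mem_Icc, le_refl, true_and]; exact Nat.one_le_pow _ _ (by omega)⟩
      refine ⟨(m₀.divisors.card : ℝ) ^ 2, by positivity, ?_, fun m hm => by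
        have := hmax m hm
        gcongr⟩
      have h1 : (m₀ : ℝ) ≤ M ^ 3 := by exact_mod_cast (mem_Icc.1 hm₀).2
      refine le_of_pow_le_pow_left₀ (n := 9) (by norm_num) (by positivity) ?_
      calc _ = (m₀.divisors.card : ℝ) ^ 36 := by ring
        _ ≤ B * m₀ := hB m₀ (mem_Icc.1 hm₀).1
        _ ≤ B ^ 36 * (N ^ 3) ^ 3 := by
          gcongr
          · exact le_self_pow₀ B1 (by norm_num)
          · exact h1.trans (by gcongr)
        _ = _ := by ring
    have h2 : ∑ x ∈ I3, V (x.1 * x.2.1 * x.2.2) ^ 2 ≤ τ * (3 * N * M ^ 3) := by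
      have hm : ∀ x ∈ I3, x.1 * x.2.1 * x.2.2 ∈ Icc 1 (M ^ 3) := fun x hx => by
        simp only [I3, mem_product, mem_Icc] at hx ⊢
        refine ⟨Nat.mul_pos (Nat.mul_pos hx.1.1 hx.2.1.1) hx.2.2.1, ?_⟩
        rw [pow_succ, pow_two]
        exact Nat.mul_le_mul (Nat.mul_le_mul hx.1.2 hx.2.1.2) hx.2.2.2
      rw [← sum_fiberwise_of_maps_to hm]
      calc _ ≤ ∑ m ∈ Icc 1 (M ^ 3), τ * V m ^ 2 := by
            refine sum_le_sum fun m hm => ?_
            rw [sum_congr rfl fun x hx => by rw [(mem_filter.1 hx).2], sum_const, nsmul_eq_mul]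
            refine mul_le_mul_of_nonneg_right (le_trans ?_ (hτ' m hm)) (sq_nonneg _)
            have m0 : m ≠ 0 := by have := (mem_Icc.1 hm).1; omega
            have : #{x ∈ I3 | x.1 * x.2.1 * x.2.2 = m} ≤ #(m.divisors ×ˢ m.divisors) := by
              refine card_le_card_of_injOn (fun x => (x.1, x.2.1)) (fun x hx => ?_)
                fun x hx x' hx' h => ?_
              · have := (mem_filter.1 hx).2
                simp only [coe_product, Set.mem_prod, mem_coe, Nat.mem_divisors]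
                exact ⟨⟨⟨x.2.1 * x.2.2, by rw [← this]; ring⟩, m0⟩,
                  ⟨x.1 * x.2.2, by rw [← this]; ring⟩, m0⟩
              · have b1 := (mem_filter.1 hx).2
                have b2 := (mem_filter.1 hx').2
                simp only [Prod.mk.injEq] at h
                refine Prod.ext h.1 (Prod.ext h.2 ?_)
                rw [← b2, ← h.1, ← h.2] at b1
                refine Nat.eq_of_mul_eq_mul_left (Nat.pos_of_ne_zero fun h0 => m0 ?_) b1
                rw [← b2, ← h.1, ← h.2, h0, zero_mul]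
            rw [card_product] at this
            rw [pow_two]; exact_mod_cast this
        _ ≤ τ * (3 * N * M ^ 3) := by
            rw [← mul_sum]
            refine mul_le_mul_of_nonneg_left ((sum_sq_V hD ε hε).trans ?_) τ0
            have : (N : ℝ) ^ 3 ≤ M ^ 3 := by gcongr
            push_cast; nlinarith
    have h3 : (∑ n ∈ D, |T n| ^ 3) ^ 2 ≤ M ^ 3 * (τ * (3 * N * M ^ 3)) := by
      rw [e]
      refine (sum_mul_sq_le_sq_mul_sq _ _ _).trans (mul_le_mul ?_ h2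
        (sum_nonneg fun _ _ => sq_nonneg _) (by positivity))
      refine (sum_le_card_nsmul _ _ 1 fun x _ => ?_).trans (by simp [I3]; ring_nf; rfl)
      rw [mul_pow, mul_pow]
      exact mul_le_one₀ (mul_le_one₀ (a2 _) (sq_nonneg _) (a2 _)) (sq_nonneg _) (a2 _)
    calc (∑ n ∈ D, |T n|) ^ 12 = ((∑ n ∈ D, |T n|) ^ 3) ^ 4 := by ring
      _ ≤ (N ^ 2 * ∑ n ∈ D, |T n| ^ 3) ^ 4 := by gcongr
      _ = N ^ 8 * ((∑ n ∈ D, |T n| ^ 3) ^ 2) ^ 2 := by ring
      _ ≤ N ^ 8 * (M ^ 3 * (τ * (3 * N * M ^ 3))) ^ 2 := by gcongr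
      _ = 3 ^ 2 * τ ^ 2 * M ^ 12 * N ^ 10 := by ring
      _ ≤ 3 ^ 12 * (B ^ 12 * N) * M ^ 12 * N ^ 10 := by
        gcongr
        · norm_num
        · norm_num
        · exact hτ.trans (by gcongr; norm_num)
      _ = _ := by ring

theorem bilinear_box : ∃ C : ℝ, 0 < C ∧ ∀ N M : ℕ, N ≤ M → ∀ a : ℕ → ℝ, (∀ m, |a m| ≤ 1) →
    ∀ D : Finset ℕ, (∀ n ∈ D, Squarefree n ∧ Odd n ∧ n ≤ N) →
    ∑ n ∈ D, |∑ m ∈ Icc 1 M, a m * (J(m | n) : ℝ)| ≤ C * M * (N : ℝ) ^ (11 / 12 : ℝ) := by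
  obtain ⟨C, hC, h⟩ := bilinear_pow
  refine ⟨C, hC, fun N M hNM a ha D hD => ?_⟩
  refine le_of_pow_le_pow_left₀ (n := 12) (by norm_num) (by positivity) ((h N M hNM a ha D hD).trans
    (le_of_eq ?_))
  rw [mul_pow, mul_pow, ← Real.rpow_natCast ((N : ℝ) ^ (11 / 12 : ℝ)),
    ← Real.rpow_mul (by positivity)]
  norm_num

/-- symmetric box bound with saving `L ^ 3` when both sides are at least `L ^ 36` -/
theorem bilinear_sym : ∃ C : ℝ, 0 < C ∧ ∀ (L : ℝ) (N₁ N₂ : ℕ), 0 < L → L ^ 36 ≤ N₁ → L ^ 36 ≤ N₂ →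
    ∀ (D₁ D₂ : Finset ℕ) (α β : ℕ → ℝ), (∀ m, |α m| ≤ 1) → (∀ m, |β m| ≤ 1) →
    (∀ n ∈ D₁, Squarefree n ∧ Odd n ∧ n ≤ N₁) → (∀ n ∈ D₂, Squarefree n ∧ Odd n ∧ n ≤ N₂) →
    |∑ d ∈ D₁, ∑ b ∈ D₂, α d * β b * (J(d | b) : ℝ)| ≤ C * N₁ * N₂ / L ^ 3 := by
  obtain ⟨C, hC, h⟩ := bilinear_pow
  have key : ∀ (L : ℝ) (N M : ℕ), 0 < L → L ^ 36 ≤ N → N ≤ M → ∀ (D E : Finset ℕ) (a : ℕ → ℝ),
      (∀ m, |a m| ≤ 1) → (∀ n ∈ D, Squarefree n ∧ Odd n ∧ n ≤ N) →
      (∀ n ∈ E, Squarefree n ∧ Odd n ∧ n ≤ M) →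
      ∑ n ∈ D, |∑ m ∈ E, a m * (J(m | n) : ℝ)| ≤ C * M * N / L ^ 3 := by
    intro L N M hL hLN hNM D E a ha hD hE
    have h1 := h N M hNM (fun m => if m ∈ E then a m else 0)
      (fun m => by split_ifs; exacts [ha m, by simp]) D hD
    have e : ∀ n, ∑ m ∈ Icc 1 M, (if m ∈ E then a m else 0) * (J(m | n) : ℝ) =
        ∑ m ∈ E, a m * (J(m | n) : ℝ) := fun n => by
      simp only [ite_mul, zero_mul, sum_ite_mem]
      rw [inter_eq_right.2 fun m hm =>
        mem_Icc.2 ⟨Nat.pos_of_ne_zero (hE m hm).1.ne_zero, (hE m hm).2.2⟩]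
    simp only [e] at h1
    rw [le_div_iff₀ (by positivity)]
    refine le_of_pow_le_pow_left₀ (n := 12) (by norm_num) (by positivity) ?_
    calc _ = (∑ n ∈ D, |∑ m ∈ E, a m * (J(m | n) : ℝ)|) ^ 12 * L ^ 36 := by ring
      _ ≤ C ^ 12 * M ^ 12 * N ^ 11 * N := by gcongr
      _ = _ := by ring
  refine ⟨2 * C, by positivity, fun L N₁ N₂ hL h1 h2 D₁ D₂ α β hα hβ hD₁ hD₂ => ?_⟩
  have out : ∀ (D : Finset ℕ) (γ f : ℕ → ℝ), (∀ m, |γ m| ≤ 1) →
      |∑ n ∈ D, γ n * f n| ≤ ∑ n ∈ D, |f n| := fun D γ f hγ =>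
    (abs_sum_le_sum_abs _ _).trans (sum_le_sum fun n _ => by
      rw [abs_mul]; exact mul_le_of_le_one_left (abs_nonneg _) (hγ n))
  have pos : 0 ≤ C * N₁ * N₂ / L ^ 3 := by positivity
  have e2 : 2 * C * N₁ * N₂ / L ^ 3 = C * N₁ * N₂ / L ^ 3 + C * N₁ * N₂ / L ^ 3 := by ring
  rw [e2]
  rcases le_total N₂ N₁ with hle | hle
  · rw [sum_comm, sum_congr rfl fun b _ => show _ = β b * ∑ d ∈ D₁, α d * (J(d | b) : ℝ) by
      rw [mul_sum]; exact sum_congr rfl fun _ _ => by ring]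
    exact ((out _ _ _ hβ).trans (key L N₂ N₁ hL h2 hle D₂ D₁ α hα hD₂ hD₁)).trans (by linarith)
  · rw [sum_congr rfl fun d _ => show _ = α d * ∑ b ∈ D₂, β b * (J(d | b) : ℝ) by
      rw [mul_sum]; exact sum_congr rfl fun _ _ => by ring]
    refine (out _ _ _ hα).trans ?_
    rw [← sum_filter_add_sum_filter_not D₁ (fun d => d % 4 = 1)]
    have e3 : C * N₁ * N₂ / L ^ 3 = C * N₂ * N₁ / L ^ 3 := by ring
    rw [e3]
    refine add_le_add (le_trans (le_of_eq ?_) (key L N₁ N₂ hL h1 hle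
      (D₁.filter fun d => d % 4 = 1) D₂ β hβ
      (fun n hn => hD₁ n (mem_filter.1 hn).1) hD₂)) (le_trans (le_of_eq ?_) (key L N₁ N₂ hL h1 hle
      (D₁.filter fun d => ¬ d % 4 = 1) D₂ (fun b => if b % 4 = 1 then β b else -β b) (fun m => by split_ifs <;> simp [hβ m])
      (fun n hn => hD₁ n (mem_filter.1 hn).1) hD₂))
    · refine sum_congr rfl fun d hd => congrArg _ (sum_congr rfl fun b hb => ?_)
      rw [jacobiSym.quadratic_reciprocity_one_mod_four (mem_filter.1 hd).2 (hD₂ b hb).2.1]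
    · refine sum_congr rfl fun d hd => congrArg _ (sum_congr rfl fun b hb => ?_)
      have o1 := (hD₁ d (mem_filter.1 hd).1).2.1
      have o2 := (hD₂ b hb).2.1
      have o3 := (mem_filter.1 hd).2
      split_ifs with h4
      · rw [jacobiSym.quadratic_reciprocity_one_mod_four' o1 h4]
      · rw [Nat.odd_iff] at o1 o2
        rw [jacobiSym.quadratic_reciprocity_three_mod_four (by omega) (by omega)]
        push_cast; ring

end Pool.Agent.Lib.MP_696deb_nt
end

-- part Pool.Agent.Lib.MP_696deb_nt.DensityLS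
section

/-! Selberg weights and a large sieve inequality for Jacobi symbols over primes,
without logarithmic loss. -/

namespace Pool.Agent.Lib.MP_696deb_nt

open Finset Filter
open scoped NumberTheorySymbols ArithmeticFunction.Moebius

theorem log_le_sum_inv (R : ℕ) : Real.log R ≤ ∑ n ∈ Icc 1 R, (1 : ℝ) / n := by
  have h := log_add_one_le_harmonic R
  rw [harmonic_eq_sum_Icc] at h
  push_cast at h
  simp only [one_div]
  refine le_trans ?_ h
  rcases Nat.eq_zero_or_pos R with rfl | hR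
  · simp
  · exact Real.log_le_log (by exact_mod_cast hR) (by linarith)

theorem sum_inv_le (R : ℕ) : ∑ n ∈ Icc 1 R, (1 : ℝ) / n ≤ 1 + Real.log R := by
  have h := harmonic_le_one_add_log R
  rw [harmonic_eq_sum_Icc] at h
  push_cast at h
  simpa only [one_div] using h

theorem sum_inv_sq_le (R : ℕ) : ∑ n ∈ Icc 1 R, (1 : ℝ) / (n : ℝ) ^ 2 ≤ 2 := by
  have : ∀ R : ℕ, ∑ n ∈ Icc 1 (R + 1), (1 : ℝ) / (n : ℝ) ^ 2 ≤ 2 - 1 / (R + 1) := by
    intro R
    induction R with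
    | zero => norm_num
    | succ R ih =>
      rw [sum_Icc_succ_top (by omega)]
      push_cast
      have : (1 : ℝ) / (R + 1 + 1) ^ 2 ≤ 1 / (R + 1) - 1 / (R + 1 + 1) := by
        rw [div_sub_div _ _ (by positivity) (by positivity), div_le_div_iff₀ (by positivity)
          (by positivity)]
        nlinarith [Nat.cast_nonneg (α := ℝ) R]
      linarith
  rcases R with _ | R
  · simp
  · have h := this R
    have : (0 : ℝ) ≤ 1 / (R + 1) := by positivity
    linarith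

theorem log_le_sqfree_sum (R : ℕ) :
    Real.log R ≤ 2 * ∑ l ∈ Icc 1 R, ((μ l : ℝ)) ^ 2 / l := by
  refine (log_le_sum_inv R).trans ?_
  have h : ∑ n ∈ Icc 1 R, (1 : ℝ) / n ≤
      ∑ x ∈ Icc 1 R ×ˢ Icc 1 R, (1 : ℝ) / (x.1 : ℝ) ^ 2 * (((μ x.2 : ℝ)) ^ 2 / x.2) := by
    choose a b hab hsq using Nat.sq_mul_squarefree
    refine sum_le_sum_inj (fun n => (b n, a n)) ?_ ?_ ?_ ?_
    · intro n _ n' _ h
      simp only [Prod.mk.injEq] at h
      rw [← hab n, ← hab n', h.1, h.2]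
    · intro n hn
      rw [mem_Icc] at hn
      have h1 := hab n
      have ha : 0 < a n := Nat.pos_of_ne_zero (hsq n).ne_zero
      have hb : 0 < b n := Nat.pos_of_ne_zero fun h => by rw [h] at h1; simp at h1; omega
      simp only [mem_product, mem_Icc]
      refine ⟨⟨hb, ?_⟩, ha, ?_⟩ <;> nlinarith [pow_pos hb 2]
    · intro n _
      have : ((μ (a n) : ℝ)) ^ 2 = 1 := by
        exact_mod_cast ArithmeticFunction.moebius_sq_eq_one_of_squarefree (hsq n)
      simp only [this]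
      conv_lhs => rw [← hab n]
      push_cast
      rw [div_mul_div_comm, one_mul]
    · intro x _; positivity
  refine h.trans ?_
  rw [sum_product]
  simp only
  rw [← sum_mul_sum]
  exact mul_le_mul_of_nonneg_right (sum_inv_sq_le R) (sum_nonneg fun _ _ => by positivity)

theorem sum_moebius_between {l k R : ℕ} (hk : k ∈ Icc 1 R) :
    ∑ e ∈ Icc 1 R, (if l ∣ e ∧ e ∣ k then (μ (k / e) : ℝ) else 0) = if k = l then 1 else 0 := by
  rw [mem_Icc] at hk
  by_cases hl : l ∣ k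
  · obtain ⟨j, rfl⟩ := hl
    have hl0 : 0 < l := Nat.pos_of_ne_zero (by rintro rfl; simp at hk)
    have hj0 : 0 < j := Nat.pos_of_ne_zero (by rintro rfl; simp at hk)
    rw [← sum_filter]
    have : ∑ e ∈ (Icc 1 R).filter (fun e => l ∣ e ∧ e ∣ l * j), (μ (l * j / e) : ℝ) =
        ∑ f ∈ j.divisors, (μ (j / f) : ℝ) := by
      symm
      refine sum_bij (fun f _ => l * f) (fun f hf => ?_) (fun f _ g _ h => ?_) (fun e he => ?_)
        fun f hf => ?_
      · have h1 := Nat.dvd_of_mem_divisors hf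
        have h2 := Nat.pos_of_mem_divisors hf
        simp only [mem_filter, mem_Icc]
        exact ⟨⟨Nat.mul_pos hl0 h2, (Nat.mul_le_mul_left l (Nat.le_of_dvd hj0 h1)).trans hk.2⟩,
          dvd_mul_right _ _, Nat.mul_dvd_mul_left l h1⟩
      · exact Nat.eq_of_mul_eq_mul_left hl0 h
      · simp only [mem_filter] at he
        obtain ⟨-, ⟨f, rfl⟩, h2⟩ := he
        exact ⟨f, Nat.mem_divisors.2 ⟨Nat.dvd_of_mul_dvd_mul_left hl0 h2, hj0.ne'⟩, rfl⟩
      · rw [Nat.mul_div_mul_left _ _ hl0]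
    rw [this, Nat.sum_div_divisors j (fun f => (μ f : ℝ))]
    have h2 := congrArg (fun f : ArithmeticFunction ℤ => f j) ArithmeticFunction.moebius_mul_coe_zeta
    simp only [ArithmeticFunction.coe_mul_zeta_apply, ArithmeticFunction.one_apply] at h2
    have h3 : (l * j = l) ↔ j = 1 := by
      constructor
      · intro h; exact Nat.eq_of_mul_eq_mul_left hl0 (by rw [h, mul_one])
      · rintro rfl; simp
    simp only [h3]
    exact_mod_cast h2
  · rw [if_neg (fun h : k = l => hl (h ▸ dvd_rfl))]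
    exact sum_eq_zero fun e _ => if_neg fun h => hl (h.1.trans h.2)

theorem selberg_weights {R : ℕ} (hR : 2 ≤ R) : ∃ w : ℕ → ℝ, w 1 = 1 ∧
    ∑ e ∈ Icc 1 R, |w e| ≤ (R : ℝ) ^ 3 ∧
    ∑ e ∈ Icc 1 R, ∑ f ∈ Icc 1 R, w e * w f / (Nat.lcm e f : ℝ) ≤ 2 / Real.log R := by
  set H := ∑ l ∈ Icc 1 R, ((μ l : ℝ)) ^ 2 / l with hH
  have hlog : 0 < Real.log R := Real.log_pos (by exact_mod_cast hR)
  have hH1 : 1 ≤ H := by
    have := single_le_sum (f := fun l : ℕ => ((μ l : ℝ)) ^ 2 / l) (s := Icc 1 R)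
      (fun _ _ => by positivity) (show 1 ∈ Icc 1 R by simp; omega)
    simpa using this
  have hμ : ∀ n, |(μ n : ℝ)| ≤ 1 := fun n => by exact_mod_cast ArithmeticFunction.abs_moebius_le_one
  let y : ℕ → ℝ := fun k => μ k / (k * H)
  let w : ℕ → ℝ := fun e => e * ∑ k ∈ Icc 1 R, if e ∣ k then μ (k / e) * y k else 0
  have hy : ∀ l ∈ Icc 1 R, ∑ e ∈ Icc 1 R, (if l ∣ e then w e / e else 0) = y l := by
    intro l hl
    have : ∀ e ∈ Icc 1 R, (if l ∣ e then w e / e else 0) =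
        ∑ k ∈ Icc 1 R, (if l ∣ e ∧ e ∣ k then (μ (k / e) : ℝ) else 0) * y k := by
      intro e he
      have he0 : (e : ℝ) ≠ 0 := by rw [mem_Icc] at he; have : 0 < e := he.1; positivity
      by_cases h : l ∣ e
      · simp only [h, if_true, true_and, w, ite_mul, zero_mul]
        rw [mul_div_cancel_left₀ _ he0]
      · simp [h]
    rw [sum_congr rfl this, sum_comm]
    simp only [← sum_mul]
    rw [sum_congr rfl fun k hk => by rw [sum_moebius_between hk]]
    simp [hl]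
  refine ⟨w, ?_, ?_, ?_⟩
  · simp only [w, y, Nat.cast_one, one_mul, one_dvd, if_true, Nat.div_one]
    rw [← div_self (show H ≠ 0 by linarith)]
    conv_rhs => rw [hH, sum_div]
    refine sum_congr rfl fun k _ => ?_
    rw [← hH]; ring
  · calc ∑ e ∈ Icc 1 R, |w e| ≤ ∑ e ∈ Icc 1 R, (R : ℝ) ^ 2 := by
          refine sum_le_sum fun e he => ?_
          rw [mem_Icc] at he
          simp only [w, abs_mul, Nat.abs_cast, pow_two]
          refine mul_le_mul (by exact_mod_cast he.2) ((abs_sum_le_sum_abs _ _).trans ?_)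
            (abs_nonneg _) (by positivity)
          refine (sum_le_card_nsmul _ _ 1 fun k hk => ?_).trans (by simp)
          rw [mem_Icc] at hk
          split_ifs
          · have h1 : (1 : ℝ) ≤ k := by exact_mod_cast hk.1
            rw [abs_mul]
            refine mul_le_one₀ (hμ _) (abs_nonneg _) ?_
            simp only [y]
            rw [abs_div, abs_of_pos (show 0 < k * H by positivity), div_le_one (by positivity)]
            exact (hμ k).trans (by nlinarith)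
          · simp
      _ = (R : ℝ) ^ 3 := by simp; ring
  · have e1 : ∀ e ∈ Icc 1 R, ∀ f ∈ Icc 1 R, w e * w f / (Nat.lcm e f : ℝ) =
        ∑ l ∈ Icc 1 R, (l.totient : ℝ) * ((if l ∣ e then w e / e else 0) *
          (if l ∣ f then w f / f else 0)) := by
      intro e he f hf
      rw [mem_Icc] at he hf
      have g0 : 0 < Nat.gcd e f := Nat.gcd_pos_of_pos_left _ he.1
      have h1 : ∑ l ∈ Icc 1 R, (if l ∣ e ∧ l ∣ f then (l.totient : ℝ) else 0) = Nat.gcd e f := by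
        rw [← sum_filter, ← Nat.sum_totient (Nat.gcd e f)]
        push_cast
        refine sum_congr ?_ fun _ _ => rfl
        ext l
        simp only [mem_filter, mem_Icc, Nat.mem_divisors, Nat.dvd_gcd_iff]
        constructor
        · rintro ⟨-, h⟩; exact ⟨h, g0.ne'⟩
        · rintro ⟨h, -⟩
          exact ⟨⟨Nat.pos_of_dvd_of_pos h.1 he.1, (Nat.le_of_dvd he.1 h.1).trans he.2⟩, h⟩
      have h2 : (Nat.gcd e f : ℝ) * Nat.lcm e f = e * f := by exact_mod_cast Nat.gcd_mul_lcm e f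
      have e0 : (e : ℝ) ≠ 0 := by have := he.1; positivity
      have f0 : (f : ℝ) ≠ 0 := by have := hf.1; positivity
      have l0 : (Nat.lcm e f : ℝ) ≠ 0 := by
        have := Nat.lcm_pos he.1 hf.1; positivity
      calc w e * w f / (Nat.lcm e f : ℝ) = Nat.gcd e f * (w e / e * (w f / f)) := by
            field_simp; linear_combination (-(w e * w f)) * h2
        _ = _ := by
            rw [← h1, sum_mul]
            refine sum_congr rfl fun l _ => ?_
            by_cases a : l ∣ e <;> by_cases b : l ∣ f <;> simp [a, b]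
    rw [sum_congr rfl fun e he => sum_congr rfl fun f hf => e1 e he f hf]
    have e2 : ∑ e ∈ Icc 1 R, ∑ f ∈ Icc 1 R, ∑ l ∈ Icc 1 R, (l.totient : ℝ) *
        ((if l ∣ e then w e / e else 0) * (if l ∣ f then w f / f else 0)) =
        ∑ l ∈ Icc 1 R, (l.totient : ℝ) * (y l * y l) := by
      rw [sum_congr rfl fun e _ => sum_comm, sum_comm]
      refine sum_congr rfl fun l hl => ?_
      simp only [← mul_sum]
      rw [← sum_mul, hy l hl]
    rw [e2]
    calc ∑ l ∈ Icc 1 R, (l.totient : ℝ) * (y l * y l) ≤ ∑ l ∈ Icc 1 R, ((μ l : ℝ)) ^ 2 / l / H ^ 2 := by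
          refine sum_le_sum fun l hl => ?_
          rw [mem_Icc] at hl
          have h1 : (0 : ℝ) < l := by exact_mod_cast hl.1
          have h2 : (l.totient : ℝ) ≤ l := by exact_mod_cast Nat.totient_le l
          refine (mul_le_mul_of_nonneg_right h2 (mul_self_nonneg _)).trans (le_of_eq ?_)
          simp only [y]; field_simp
      _ = 1 / H := by rw [← sum_div, ← hH]; field_simp
      _ ≤ 2 / Real.log R := by
          rw [div_le_div_iff₀ (by linarith) hlog]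
          linarith [log_le_sqfree_sum R]

theorem sum_Ioc_dvd (P P' : ℕ) {l : ℕ} (hl : 0 < l) (g : ℕ → ℝ) :
    ∑ n ∈ Ioc P P', (if l ∣ n then g n else 0) = ∑ k ∈ Ico (P / l + 1) (P' / l + 1), g (l * k) := by
  rw [← sum_filter]
  symm
  refine sum_bij (fun k _ => l * k) (fun k hk => ?_) (fun f _ g _ h => ?_) (fun e he => ?_)
    fun f hf => rfl
  · simp only [mem_Ico, mem_filter, mem_Ioc] at hk ⊢
    refine ⟨⟨?_, ?_⟩, dvd_mul_right _ _⟩
    · rw [mul_comm, ← Nat.div_lt_iff_lt_mul hl]; omega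
    · rw [mul_comm, ← Nat.le_div_iff_mul_le hl]; omega
  · exact Nat.eq_of_mul_eq_mul_left hl h
  · simp only [mem_filter, mem_Ioc] at he
    obtain ⟨⟨h1, h2⟩, k, rfl⟩ := he
    refine ⟨k, ?_, rfl⟩
    rw [mul_comm, ← Nat.div_lt_iff_lt_mul hl] at h1
    rw [mul_comm, ← Nat.le_div_iff_mul_le hl] at h2
    simp only [mem_Ico]; omega

theorem ls_core {R P D₀ : ℕ} (hR : 2 ≤ R) (hRP : R ≤ P) {S D : Finset ℕ}
    (hS : ∀ p ∈ S, p.Prime ∧ P < p ∧ p ≤ 2 * P)
    (hD : ∀ d ∈ D, Squarefree d ∧ Odd d ∧ d ≤ D₀) :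
    ∑ d ∈ D, ((∑ p ∈ S, J(p | d) : ℤ) : ℝ) ^ 2 ≤
      S.card * (2 * P / Real.log R + (R : ℝ) ^ 6 * (1 + (D₀ : ℝ) ^ 3)) := by
  obtain ⟨w, w1, w2, w3⟩ := selberg_weights hR
  have hlog : 0 < Real.log R := Real.log_pos (by exact_mod_cast hR)
  let ν : ℕ → ℝ := fun n => (∑ e ∈ Icc 1 R, if e ∣ n then w e else 0) ^ 2
  have ν0 : ∀ n, 0 ≤ ν n := fun n => sq_nonneg _
  have ν1 : ∀ p ∈ S, ν p = 1 := fun p hp => by
    obtain ⟨h1, h2, -⟩ := hS p hp
    simp only [ν]
    rw [sum_eq_single 1, if_pos (one_dvd _), w1, one_pow]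
    · intro e he he1
      rw [mem_Icc] at he
      exact if_neg fun h => by rcases (Nat.dvd_prime h1).1 h with h | h <;> omega
    · intro h; exact absurd (show 1 ∈ Icc 1 R by simp; omega) h
  have expand : ∀ g : ℕ → ℝ, ∑ n ∈ Ioc P (2 * P), ν n * g n = ∑ e ∈ Icc 1 R, ∑ f ∈ Icc 1 R,
      w e * w f * ∑ k ∈ Ico (P / Nat.lcm e f + 1) (2 * P / Nat.lcm e f + 1), g (Nat.lcm e f * k) := by
    intro g
    have : ∀ n, ν n * g n = ∑ e ∈ Icc 1 R, ∑ f ∈ Icc 1 R,
        w e * w f * if Nat.lcm e f ∣ n then g n else 0 := fun n => by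
      simp only [ν, Nat.lcm_dvd_iff]
      rw [pow_two, sum_mul_sum, sum_mul]
      refine sum_congr rfl fun e _ => ?_
      rw [sum_mul]
      refine sum_congr rfl fun f _ => ?_
      by_cases a : e ∣ n <;> by_cases b : f ∣ n <;> simp [a, b]
    simp only [this]
    rw [sum_comm]
    refine sum_congr rfl fun e he => ?_
    rw [sum_comm]
    refine sum_congr rfl fun f hf => ?_
    rw [mem_Icc] at he hf
    rw [← mul_sum, sum_Ioc_dvd _ _ (Nat.lcm_pos he.1 hf.1)]
  have bnd : ∀ (c : ℕ → ℕ → ℝ) (B : ℝ), 0 ≤ B → (∀ e ∈ Icc 1 R, ∀ f ∈ Icc 1 R, |c e f| ≤ B) →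
      |∑ e ∈ Icc 1 R, ∑ f ∈ Icc 1 R, w e * w f * c e f| ≤ (R : ℝ) ^ 6 * B := by
    intro c B hB hc
    calc _ ≤ ∑ e ∈ Icc 1 R, ∑ f ∈ Icc 1 R, |w e| * |w f| * B := by
          refine (abs_sum_le_sum_abs _ _).trans (sum_le_sum fun e he =>
            (abs_sum_le_sum_abs _ _).trans (sum_le_sum fun f hf => ?_))
          rw [abs_mul, abs_mul]
          exact mul_le_mul_of_nonneg_left (hc e he f hf) (by positivity)
      _ = (∑ e ∈ Icc 1 R, |w e|) * (∑ e ∈ Icc 1 R, |w e|) * B := by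
          rw [sum_mul_sum, sum_mul]; simp only [sum_mul]
      _ ≤ (R : ℝ) ^ 3 * (R : ℝ) ^ 3 * B := by
          have : 0 ≤ ∑ e ∈ Icc 1 R, |w e| := sum_nonneg fun _ _ => abs_nonneg _
          gcongr
      _ = _ := by ring
  have tot : ∑ n ∈ Ioc P (2 * P), ν n ≤ 2 * P / Real.log R + (R : ℝ) ^ 6 := by
    have h1 := expand fun _ => 1
    simp only [mul_one, sum_const, Nat.card_Ico, nsmul_eq_mul] at h1
    have h2 := bnd (fun e f => ((2 * P / Nat.lcm e f + 1 - (P / Nat.lcm e f + 1) : ℕ) : ℝ) -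
      P / Nat.lcm e f) 1 zero_le_one fun e he f hf => by
        rw [mem_Icc] at he hf
        have l0 := Nat.lcm_pos he.1 hf.1
        generalize Nat.lcm e f = l at l0
        have a1 : P / l ≤ 2 * P / l := Nat.div_le_div_right (by omega)
        rw [Nat.add_sub_add_right, Nat.cast_sub a1]
        have b1 : ((2 * P / l : ℕ) : ℝ) ≤ 2 * P / l := by
          have := Nat.cast_div_le (α := ℝ) (m := 2 * P) (n := l)
          push_cast at this; exact this
        have b2 : ((P / l : ℕ) : ℝ) ≤ P / l := Nat.cast_div_le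
        have c : ∀ a : ℕ, (a : ℝ) / l < (a / l : ℕ) + 1 := fun a => by
          rw [div_lt_iff₀ (by exact_mod_cast l0)]
          exact_mod_cast Nat.lt_div_mul_add l0 |>.trans_eq (by ring)
        have c1 := c P
        have c2 := c (2 * P)
        push_cast at c2
        rw [mul_div_assoc] at b1 c2
        rw [abs_le]; constructor <;> linarith
    have h3 := (abs_le.1 h2).2
    simp only [mul_sub, sum_sub_distrib] at h3
    have h4 : ∑ e ∈ Icc 1 R, ∑ f ∈ Icc 1 R, w e * w f * ((P : ℝ) / Nat.lcm e f) =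
        P * ∑ e ∈ Icc 1 R, ∑ f ∈ Icc 1 R, w e * w f / (Nat.lcm e f : ℝ) := by
      simp only [mul_sum]
      exact sum_congr rfl fun e _ => sum_congr rfl fun f _ => by ring
    have h5 := mul_le_mul_of_nonneg_left w3 (Nat.cast_nonneg (α := ℝ) P)
    rw [h1]
    have : (P : ℝ) * (2 / Real.log R) = 2 * P / Real.log R := by ring
    linarith
  have hcard : (D.card : ℝ) ≤ D₀ := by
    have : D ⊆ Icc 1 D₀ := fun d hd => by
      have := hD d hd
      exact mem_Icc.2 ⟨Nat.pos_of_ne_zero this.1.ne_zero, this.2.2⟩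
    exact_mod_cast (card_le_card this).trans (by simp)
  set Δ := 2 * P / Real.log R + (R : ℝ) ^ 6 * (1 + (D₀ : ℝ) ^ 3) with hΔ
  have hΔ0 : 0 ≤ Δ := by positivity
  let b : ℕ → ℝ := fun d => ((∑ p ∈ S, J(p | d) : ℤ) : ℝ)
  have pair : ∀ d ∈ D, ∀ d' ∈ D, |∑ n ∈ Ioc P (2 * P), ν n * ((J(n | d) * J(n | d') : ℤ) : ℝ)| ≤
      (if d = d' then 2 * P / Real.log R + (R : ℝ) ^ 6 else 0) + (R : ℝ) ^ 6 * (D₀ : ℝ) ^ 2 := by
    intro d hd d' hd'
    split_ifs with h
    · refine le_trans ?_ (le_add_of_nonneg_right (by positivity))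
      refine (abs_sum_le_sum_abs _ _).trans ((sum_le_sum fun n _ => ?_).trans tot)
      rw [abs_mul, abs_of_nonneg (ν0 n)]
      refine mul_le_of_le_one_right (ν0 n) ?_
      have := mul_le_one₀ (abs_jac_le n d) (abs_nonneg _) (abs_jac_le n d')
      rw [← abs_mul] at this
      exact_mod_cast this
    · rw [zero_add, expand]
      refine bnd _ _ (by positivity) fun e _ f _ => ?_
      obtain ⟨a1, a2, a3⟩ := hD d hd
      obtain ⟨b1, b2, b3⟩ := hD d' hd'
      have h1 := abs_sum_jac_le a1 b1 a2 b2 h (P / Nat.lcm e f + 1) (2 * P / Nat.lcm e f + 1)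
      have h2 := mul_le_one₀ (abs_jac_le (Nat.lcm e f) d) (abs_nonneg _) (abs_jac_le (Nat.lcm e f) d')
      have h3 : |∑ k ∈ Ico (P / Nat.lcm e f + 1) (2 * P / Nat.lcm e f + 1),
          J((Nat.lcm e f * k : ℕ) | d) * J((Nat.lcm e f * k : ℕ) | d')| ≤ ((D₀ * D₀ : ℕ) : ℤ) := by
        push_cast
        simp only [jacobiSym.mul_left]
        rw [sum_congr rfl fun k _ => mul_mul_mul_comm _ _ _ _, ← mul_sum, abs_mul, abs_mul]
        refine (mul_le_of_le_one_left (abs_nonneg _) h2).trans (h1.trans ?_)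
        exact_mod_cast Nat.mul_le_mul a3 b3
      rw [pow_two]
      exact_mod_cast h3
  have quad : ∑ n ∈ Ioc P (2 * P), ν n * (∑ d ∈ D, b d * J(n | d)) ^ 2 ≤ Δ * ∑ d ∈ D, b d ^ 2 := by
    have e1 : ∑ n ∈ Ioc P (2 * P), ν n * (∑ d ∈ D, b d * J(n | d)) ^ 2 = ∑ d ∈ D, ∑ d' ∈ D,
        b d * b d' * ∑ n ∈ Ioc P (2 * P), ν n * ((J(n | d) * J(n | d') : ℤ) : ℝ) := by
      simp only [pow_two, sum_mul_sum]
      simp only [mul_sum]
      rw [sum_comm]
      refine sum_congr rfl fun d _ => ?_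
      rw [sum_comm]
      exact sum_congr rfl fun d' _ => sum_congr rfl fun n _ => by push_cast; ring
    rw [e1]
    calc _ ≤ ∑ d ∈ D, ∑ d' ∈ D, |b d| * |b d'| * ((if d = d' then 2 * P / Real.log R + (R : ℝ) ^ 6
          else 0) + (R : ℝ) ^ 6 * (D₀ : ℝ) ^ 2) := by
          refine sum_le_sum fun d hd => sum_le_sum fun d' hd' => (le_abs_self _).trans ?_
          rw [abs_mul, abs_mul]
          exact mul_le_mul_of_nonneg_left (pair d hd d' hd') (by positivity)
      _ = (2 * P / Real.log R + (R : ℝ) ^ 6) * ∑ d ∈ D, b d ^ 2 +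
          (R : ℝ) ^ 6 * (D₀ : ℝ) ^ 2 * (∑ d ∈ D, |b d|) ^ 2 := by
          simp only [mul_add, sum_add_distrib, mul_ite, mul_zero, sum_ite_eq]
          congr 1
          · rw [mul_sum]
            exact sum_congr rfl fun d hd => by rw [if_pos hd, abs_mul_abs_self]; ring
          · rw [pow_two (∑ d ∈ D, |b d|), sum_mul_sum, mul_sum]
            exact sum_congr rfl fun d _ => by rw [mul_sum]; exact sum_congr rfl fun _ _ => by ring
      _ ≤ (2 * P / Real.log R + (R : ℝ) ^ 6) * ∑ d ∈ D, b d ^ 2 +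
          (R : ℝ) ^ 6 * (D₀ : ℝ) ^ 2 * (D₀ * ∑ d ∈ D, b d ^ 2) := by
          have := sq_sum_le_card_mul_sum_sq (s := D) (f := fun d => |b d|)
          simp only [sq_abs] at this
          have h2 : 0 ≤ ∑ d ∈ D, b d ^ 2 := sum_nonneg fun _ _ => sq_nonneg _
          gcongr
          exact this.trans (mul_le_mul_of_nonneg_right hcard h2)
      _ = _ := by rw [hΔ]; ring
  have dual : ∑ d ∈ D, b d ^ 2 = ∑ p ∈ S, ∑ d ∈ D, b d * J(p | d) := by
    rw [sum_comm]
    exact sum_congr rfl fun d _ => by rw [← mul_sum, pow_two]; simp [b]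
  have cs : (∑ d ∈ D, b d ^ 2) ^ 2 ≤ S.card * (Δ * ∑ d ∈ D, b d ^ 2) := by
    rw [dual]
    refine sq_sum_le_card_mul_sum_sq.trans (mul_le_mul_of_nonneg_left ?_ (by positivity))
    rw [← dual]
    refine le_trans ?_ quad
    rw [sum_congr rfl fun p hp => by rw [← one_mul (_ ^ 2), ← ν1 p hp]]
    refine sum_le_sum_of_subset_of_nonneg (fun p hp => ?_) fun n _ _ => mul_nonneg (ν0 n) (sq_nonneg _)
    exact mem_Ioc.2 (hS p hp).2
  change ∑ d ∈ D, b d ^ 2 ≤ _
  have h2 : 0 ≤ ∑ d ∈ D, b d ^ 2 := sum_nonneg fun _ _ => sq_nonneg _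
  rcases h2.eq_or_lt with h | h
  · rw [← h]; positivity
  · exact le_of_mul_le_mul_right (by nlinarith) h

theorem ls_primes : ∃ C : ℝ, 0 < C ∧ ∀ᶠ P : ℕ in atTop, ∀ S D : Finset ℕ,
    (∀ p ∈ S, p.Prime ∧ P < p ∧ p ≤ 2 * P) → (∀ d ∈ D, Squarefree d ∧ Odd d ∧ d ^ 4 ≤ P) →
    ∑ d ∈ D, ((∑ p ∈ S, J(p | d) : ℤ) : ℝ) ^ 2 ≤ C * (P / Real.log P) ^ 2 := by
  refine ⟨121 ^ 2, by norm_num, ?_⟩
  have t1 : Tendsto (fun P : ℕ => (P : ℝ) ^ (1 / 60 : ℝ)) atTop atTop :=
    (tendsto_rpow_atTop (by norm_num)).comp tendsto_natCast_atTop_atTop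
  have t2 : ∀ᶠ P : ℕ in atTop, 2 * Real.log P ≤ (P : ℝ) ^ (1 / 20 : ℝ) := by
    have := (isLittleO_log_rpow_atTop (show (0 : ℝ) < 1 / 20 by norm_num)).bound
      (show (0 : ℝ) < 1 / 2 by norm_num)
    filter_upwards [tendsto_natCast_atTop_atTop.eventually this] with P hP
    rw [Real.norm_of_nonneg (by positivity : (0 : ℝ) ≤ (P : ℝ) ^ (1 / 20 : ℝ))] at hP
    linarith [le_abs_self (Real.log P), Real.norm_eq_abs (Real.log P)]
  filter_upwards [t1.eventually_ge_atTop 2, t2, eventually_ge_atTop 2] with P h1 h2 h3 S D hS hD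
  have P1 : (1 : ℝ) < P := by exact_mod_cast h3
  have P0 : (0 : ℝ) < P := by linarith
  have hlog : 0 < Real.log P := Real.log_pos P1
  set x := (P : ℝ) ^ (1 / 60 : ℝ) with hx
  have xp : ∀ k : ℕ, x ^ k = (P : ℝ) ^ ((k : ℝ) / 60) := fun k => by
    rw [hx, ← Real.rpow_natCast, ← Real.rpow_mul P0.le]; congr 1; ring
  set R := ⌊x ^ 2⌋₊ with hR
  have R1 : (R : ℝ) ≤ x ^ 2 := Nat.floor_le (by positivity)
  have R2 : x ≤ R := by have := Nat.lt_floor_add_one (x ^ 2); nlinarith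
  have hR2 : 2 ≤ R := by exact_mod_cast h1.trans R2
  have x60 : x ^ 60 = P := by rw [xp]; norm_num
  have hRP : R ≤ P := by
    have : x ^ 2 ≤ x ^ 60 := pow_le_pow_right₀ (by linarith) (by norm_num)
    exact_mod_cast R1.trans (this.trans_eq x60)
  have lR : Real.log P / 60 ≤ Real.log R := by
    have := Real.log_le_log (by linarith) R2
    rwa [hx, Real.log_rpow P0, one_div, inv_mul_eq_div] at this
  set D₀ := ⌊x ^ 15⌋₊ with hD₀
  have D1 : (D₀ : ℝ) ≤ x ^ 15 := Nat.floor_le (by positivity)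
  have hΔ : 2 * P / Real.log R + (R : ℝ) ^ 6 * (1 + (D₀ : ℝ) ^ 3) ≤ 121 * (P / Real.log P) := by
    have a1 : 2 * P / Real.log R ≤ 120 * (P / Real.log P) := by
      calc 2 * P / Real.log R ≤ 2 * P / (Real.log P / 60) := by gcongr
        _ = _ := by field_simp; norm_num
    have a2 : (R : ℝ) ^ 6 * (1 + (D₀ : ℝ) ^ 3) ≤ (x ^ 2) ^ 6 * ((x ^ 15) ^ 3 + (x ^ 15) ^ 3) := by
      gcongr
      exact one_le_pow₀ (one_le_pow₀ (by linarith))
    have a3 : (P : ℝ) ^ (1 / 20 : ℝ) = x ^ 3 := by rw [xp]; norm_num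
    have a4 : (x ^ 2) ^ 6 * ((x ^ 15) ^ 3 + (x ^ 15) ^ 3) ≤ P / Real.log P := by
      rw [le_div_iff₀ hlog, ← x60]
      rw [a3, ← x60] at h2
      have : 0 < x ^ 57 := by positivity
      nlinarith
    linarith
  have hΔ0 : 0 ≤ 2 * P / Real.log R + (R : ℝ) ^ 6 * (1 + (D₀ : ℝ) ^ 3) := by
    have : 0 < Real.log R := by linarith [div_pos hlog (show (0 : ℝ) < 60 by norm_num)]
    positivity
  have D2 : 1 ≤ D₀ := Nat.le_floor (by rw [Nat.cast_one]; exact one_le_pow₀ (by linarith))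
  have c1 := ls_core hR2 hRP hS (D := {1}) (D₀ := D₀) (by simpa using D2)
  simp only [sum_singleton, jacobiSym.one_right, sum_const, nsmul_eq_mul, mul_one,
    Int.cast_natCast] at c1
  have c2 : (S.card : ℝ) ≤ 2 * P / Real.log R + (R : ℝ) ^ 6 * (1 + (D₀ : ℝ) ^ 3) := by
    rcases (Nat.cast_nonneg (α := ℝ) S.card).eq_or_lt with h | h
    · rw [← h]; exact hΔ0
    · exact le_of_mul_le_mul_left (by nlinarith) h
  have c3 := ls_core hR2 hRP hS (D := D) (D₀ := D₀) fun d hd => by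
    obtain ⟨a, b, c⟩ := hD d hd
    refine ⟨a, b, Nat.le_floor ?_⟩
    have : (d : ℝ) ^ 4 ≤ (x ^ 15) ^ 4 := by
      rw [← pow_mul, x60]; exact_mod_cast c
    exact le_of_pow_le_pow_left₀ (by norm_num) (by positivity) this
  refine c3.trans ?_
  calc _ ≤ (121 * (P / Real.log P)) * (121 * (P / Real.log P)) :=
        mul_le_mul (c2.trans hΔ) hΔ hΔ0 (by positivity)
    _ = _ := by ring

end Pool.Agent.Lib.MP_696deb_nt
end

-- part Pool.Agent.Lib.MP_696deb_nt.DenT0
section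

/-! The logarithmically weighted first moment. -/

set_option autoImplicit false

open Finset Filter Topology
open scoped NumberTheorySymbols

namespace Pool.Agent.Lib.MP_696deb_nt.Den

theorem prod_one_add_div {P : ℕ} (hP : Squarefree P) (f : ℕ → ℝ) :
    ∏ p ∈ P.primeFactors, (1 + f p) = ∑ d ∈ P.divisors, ∏ p ∈ d.primeFactors, f p := by
  have h := (ArithmeticFunction.IsMultiplicative.prodPrimeFactors f).prodPrimeFactors_one_add_of_squarefree hP
  rw [sum_congr rfl fun d hd => ArithmeticFunction.prodPrimeFactors_apply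
    (Nat.pos_of_mem_divisors hd).ne'] at h
  rw [← h]
  refine prod_congr rfl fun p hp => ?_
  have hp' := Nat.prime_of_mem_primeFactors hp
  rw [ArithmeticFunction.prodPrimeFactors_apply hp'.ne_zero, hp'.primeFactors, prod_singleton]

theorem prod_mult {d : ℕ} (hd : Squarefree d) (g : ℕ → ℝ) (h1 : g 1 = 1)
    (hm : ∀ a b, 0 < a → 0 < b → g (a * b) = g a * g b) : ∏ p ∈ d.primeFactors, g p = g d := by
  conv_rhs => rw [← Nat.prod_primeFactors_of_squarefree hd]
  have : ∀ s : Finset ℕ, (∀ p ∈ s, 0 < p) → ∏ p ∈ s, g p = g (∏ p ∈ s, p) := by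
    intro s
    induction s using Finset.induction_on with
    | empty => simp [h1]
    | insert a s ha ih =>
      intro h
      rw [prod_insert ha, prod_insert ha, hm _ _ (h a (mem_insert_self _ _))
        (prod_pos fun p hp => h p (mem_insert_of_mem hp)), ih fun p hp => h p (mem_insert_of_mem hp)]
  exact this _ fun p hp => (Nat.prime_of_mem_primeFactors hp).pos

/-- `n ^ (-s)` with `s = 1 + 1 / L` -/
noncomputable def xs (L : ℝ) (n : ℕ) : ℝ := (n : ℝ) ^ (-(1 + 1 / L))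

theorem xs_nonneg (L : ℝ) (n : ℕ) : 0 ≤ xs L n := Real.rpow_nonneg (Nat.cast_nonneg n) _

theorem xs_one (L : ℝ) : xs L 1 = 1 := by simp [xs]

theorem xs_mul (L : ℝ) (a b : ℕ) : xs L (a * b) = xs L a * xs L b := by
  simp only [xs, Nat.cast_mul]
  exact Real.mul_rpow (Nat.cast_nonneg a) (Nat.cast_nonneg b)

theorem xs_prod (L : ℝ) {d : ℕ} (hd : Squarefree d) : ∏ p ∈ d.primeFactors, xs L p = xs L d :=
  prod_mult hd _ (xs_one L) fun a b _ _ => xs_mul L a b

theorem xs_anti {L : ℝ} (hL : 0 < L) {a b : ℕ} (ha : 0 < a) (hab : a ≤ b) : xs L b ≤ xs L a :=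
  Real.rpow_le_rpow_of_nonpos (by exact_mod_cast ha) (by exact_mod_cast hab)
    (by have : 0 < 1 / L := by positivity
        linarith)

theorem xs_le {L : ℝ} (hL : 0 < L) {a : ℕ} (ha : 0 < a) : xs L a ≤ 1 / a := by
  rw [one_div, ← Real.rpow_neg_one]
  refine Real.rpow_le_rpow_of_exponent_le (by exact_mod_cast ha) ?_
  have : 0 < 1 / L := by positivity
  linarith

theorem sum_xs_le {L : ℝ} (hL : 0 < L) (Y : ℕ) : ∑ b ∈ Ioc 0 Y, xs L b ≤ 1 + L := by
  have key : ∀ Y : ℕ, ∑ b ∈ Ioc 0 (Y + 1), xs L b ≤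
      1 + L - L * ((Y + 1 : ℕ) : ℝ) ^ (-(1 / L)) := by
    intro Y
    induction Y with
    | zero => simp [xs_one]
    | succ Y ih =>
      rw [sum_Ioc_succ_top (by omega)]
      set b : ℝ := ((Y + 1 + 1 : ℕ) : ℝ) with hb
      have b2 : 2 ≤ b := by rw [hb]; exact_mod_cast (by omega)
      have e1 : ((Y + 1 : ℕ) : ℝ) = b * (1 - 1 / b) := by
        rw [mul_sub, mul_one, mul_one_div_cancel (by linarith), hb]; push_cast; ring
      have t0 : 0 < 1 - 1 / b := by rw [sub_pos, div_lt_one (by linarith)]; linarith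
      have e2 : 1 + 1 / L * (1 / b) ≤ (1 - 1 / b) ^ (-(1 / L)) := by
        rw [Real.rpow_def_of_pos t0]
        refine le_trans (by linarith [Real.add_one_le_exp (1 / L * (1 / b))])
          (Real.exp_le_exp.2 (show 1 / L * (1 / b) ≤ _ from ?_))
        have := Real.log_le_sub_one_of_pos t0
        have : 0 < 1 / L := by positivity
        nlinarith
      have e3 : xs L (Y + 1 + 1) = b ^ (-(1 / L)) * (1 / b) := by
        rw [xs, ← hb, neg_add, Real.rpow_add (by linarith), Real.rpow_neg_one, mul_comm, one_div b]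
      rw [e1, Real.mul_rpow (by linarith) t0.le] at ih
      rw [e3]
      have p0 : 0 < b ^ (-(1 / L)) := Real.rpow_pos_of_pos (by linarith) _
      have := mul_le_mul_of_nonneg_left e2 (mul_pos hL p0).le
      have e4 : L * b ^ (-(1 / L)) * (1 + 1 / L * (1 / b)) =
          L * b ^ (-(1 / L)) + b ^ (-(1 / L)) * (1 / b) := by field_simp
      linarith
  rcases Y with _ | Y
  · simp; linarith
  · have := key Y
    have : 0 ≤ L * ((Y + 1 : ℕ) : ℝ) ^ (-(1 / L)) := by positivity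
    linarith

theorem div_sub_Ioc (P : ℕ) : P.divisors ⊆ Ioc 0 P := fun _ hd =>
  mem_Ioc.2 ⟨Nat.pos_of_mem_divisors hd, Nat.divisor_le hd⟩

theorem prod_xs_le {L : ℝ} (hL : 0 < L) {P : ℕ} (hP : Squarefree P) :
    ∏ p ∈ P.primeFactors, (1 + xs L p) ≤ 1 + L := by
  rw [prod_one_add_div hP, sum_congr rfl fun d hd =>
    xs_prod L (hP.squarefree_of_dvd (Nat.dvd_of_mem_divisors hd))]
  exact (sum_le_sum_of_subset_of_nonneg (div_sub_Ioc P) fun _ _ _ => xs_nonneg _ _).trans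
    (sum_xs_le hL P)

theorem prod_xs_sq_le {L : ℝ} (hL : 0 < L) {P : ℕ} (hP : Squarefree P) :
    ∏ p ∈ P.primeFactors, (1 + xs L p ^ 2) ≤ 2 := by
  rw [prod_one_add_div hP]
  refine le_trans (sum_le_sum fun d hd => ?_) ((sum_le_sum_of_subset_of_nonneg (div_sub_Ioc P)
    fun _ _ _ => by positivity).trans (sum_inv_sq_le P))
  rw [prod_pow, xs_prod L (hP.squarefree_of_dvd (Nat.dvd_of_mem_divisors hd)), ← one_div_pow]
  exact pow_le_pow_left₀ (xs_nonneg _ _) (xs_le hL (Nat.pos_of_mem_divisors hd)) 2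

theorem sum_div_nonneg {χ : ℕ → ℝ} (h1 : χ 1 = 1) (hm : ∀ a b, χ (a * b) = χ a * χ b)
    (hb : ∀ a, |χ a| ≤ 1) (n : ℕ) : 0 ≤ ∑ a ∈ n.divisors, χ a := by
  induction n using Nat.recOnPosPrimePosCoprime with
  | zero => simp
  | one => simp [h1]
  | prime_pow p k hp _ =>
    rw [Nat.sum_divisors_prime_pow hp]
    have : ∀ i, χ (p ^ i) = χ p ^ i := fun i => by
      induction i with
      | zero => simp [h1]
      | succ i ih => rw [pow_succ, hm, ih, pow_succ]
    simp only [this]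
    have hc := abs_le.1 (hb p)
    rcases eq_or_lt_of_le hc.2 with h | h
    · simp [h]; positivity
    · have e := mul_neg_geom_sum (χ p) (k + 1)
      have : χ p ^ (k + 1) ≤ 1 := (le_abs_self _).trans (by
        rw [abs_pow]; exact pow_le_one₀ (abs_nonneg _) (hb p))
      exact nonneg_of_mul_nonneg_right (by rw [e]; linarith) (sub_pos.2 h)
  | coprime a b _ _ hab iha ihb =>
    rw [hab.divisors_mul, sum_map]
    change 0 ≤ ∑ x ∈ (a.divisors ×ˢ b.divisors).attach, χ (x.1.1 * x.1.2)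
    simp only [hm]
    rw [sum_attach (a.divisors ×ˢ b.divisors) (fun x => χ x.1 * χ x.2), sum_product]
    simp only
    rw [← sum_mul_sum]
    exact mul_nonneg iha ihb

theorem euler_sq_le {L : ℝ} (hL : 0 < L) {P : ℕ} (hP : Squarefree P) {χ : ℕ → ℝ} (h1 : χ 1 = 1)
    (hm : ∀ a b, χ (a * b) = χ a * χ b) (hb : ∀ a, |χ a| ≤ 1) {q : ℕ}
    (hq : ∀ t, |∑ n ∈ range t, χ n| ≤ q) :
    (∏ p ∈ P.primeFactors, (1 + (1 + χ p) / 2 * xs L p)) ^ 2 ≤ 2 * (1 + L) * (3 + Real.log q) := by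
  have step1 : (∏ p ∈ P.primeFactors, (1 + (1 + χ p) / 2 * xs L p)) ^ 2 ≤
      (∏ p ∈ P.primeFactors, (1 + xs L p ^ 2)) * ∏ p ∈ P.primeFactors, (1 + (1 + χ p) * xs L p) := by
    rw [← prod_pow, ← prod_mul_distrib]
    refine prod_le_prod (fun _ _ => sq_nonneg _) fun p _ => ?_
    have hc := abs_le.1 (hb p)
    have x0 := xs_nonneg L p
    have a1 : 0 ≤ (1 + χ p) * xs L p * xs L p ^ 2 := by
      have : 0 ≤ 1 + χ p := by linarith
      positivity
    have a2 : ((1 + χ p) / 2) ^ 2 * xs L p ^ 2 ≤ 1 * xs L p ^ 2 :=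
      mul_le_mul_of_nonneg_right (by nlinarith) (sq_nonneg _)
    nlinarith
  let F : ArithmeticFunction ℝ := ⟨fun n => if n = 0 then 0 else χ n * xs L n, by simp⟩
  let G : ArithmeticFunction ℝ := ⟨fun n => if n = 0 then 0 else xs L n, by simp⟩
  have FG : ∀ n, (F * G) n = (∑ a ∈ n.divisors, χ a) * xs L n := fun n => by
    rw [ArithmeticFunction.mul_apply, sum_mul, ← Nat.sum_divisorsAntidiagonal
      (fun a _ => χ a * xs L n)]
    refine sum_congr rfl fun x hx => ?_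
    have := Nat.ne_zero_of_mem_divisorsAntidiagonal hx
    simp only [F, G, ArithmeticFunction.coe_mk, this.1, this.2, if_false]
    rw [← (Nat.mem_divisorsAntidiagonal.1 hx).1, xs_mul, mul_assoc]
  have step2 : ∏ p ∈ P.primeFactors, (1 + (1 + χ p) * xs L p) ≤ ∑ n ∈ Ioc 0 P, (F * G) n := by
    rw [prod_one_add_div hP]
    refine le_trans (le_of_eq (sum_congr rfl fun d hd => ?_)) (sum_le_sum_of_subset_of_nonneg
      (div_sub_Ioc P) fun n _ _ => by
        rw [FG]; exact mul_nonneg (sum_div_nonneg h1 hm hb n) (xs_nonneg _ _))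
    have hd' := hP.squarefree_of_dvd (Nat.dvd_of_mem_divisors hd)
    rw [FG, prod_mul_distrib, xs_prod L hd', prod_one_add_div hd']
    congr 1
    exact sum_congr rfl fun a ha => prod_mult (hd'.squarefree_of_dvd (Nat.dvd_of_mem_divisors ha))
      _ h1 fun a b _ _ => hm a b
  let w : ℕ → ℝ := fun a => xs L a * ∑ m ∈ Ioc 0 (P / a), xs L m
  have Z0 : ∀ Y, 0 ≤ ∑ m ∈ Ioc 0 Y, xs L m := fun Y => sum_nonneg fun _ _ => xs_nonneg _ _
  have w0 : ∀ a, 0 ≤ w a := fun a => mul_nonneg (xs_nonneg _ _) (Z0 _)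
  have wle : ∀ a, 0 < a → w a ≤ 1 / a * (1 + L) := fun a ha =>
    mul_le_mul (xs_le hL ha) (sum_xs_le hL _) (Z0 _) (by positivity)
  have step3 : ∑ n ∈ Ioc 0 P, (F * G) n = ∑ a ∈ Ioc 0 P, w a * χ a := by
    rw [ArithmeticFunction.sum_Ioc_mul_eq_sum_sum]
    refine sum_congr rfl fun a ha => ?_
    have e : ∑ m ∈ Ioc 0 (P / a), G m = ∑ m ∈ Ioc 0 (P / a), xs L m :=
      sum_congr rfl fun m hm => by simp [G, (mem_Ioc.1 hm).1.ne']
    rw [e]
    simp only [F, w, ArithmeticFunction.coe_mk, (mem_Ioc.1 ha).1.ne', if_false]; ring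
  have head : ∀ Y ≤ q, ∑ a ∈ Ioc 0 Y, w a * χ a ≤ (1 + Real.log q) * (1 + L) := fun Y hY => by
    calc _ ≤ ∑ a ∈ Ioc 0 Y, 1 / (a : ℝ) * (1 + L) := sum_le_sum fun a ha =>
          (mul_le_of_le_one_right (w0 a) (abs_le.1 (hb a)).2).trans (wle a (mem_Ioc.1 ha).1)
      _ ≤ ∑ a ∈ Ioc 0 q, 1 / (a : ℝ) * (1 + L) :=
          sum_le_sum_of_subset_of_nonneg (Ioc_subset_Ioc_right hY) fun _ _ _ => by positivity
      _ ≤ _ := by
          rw [← sum_mul]
          exact mul_le_mul_of_nonneg_right (sum_inv_le q) (by positivity)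
  have step4 : ∑ a ∈ Ioc 0 P, w a * χ a ≤ (1 + L) * (3 + Real.log q) := by
    rcases le_total P q with h | h
    · nlinarith [head P h]
    · rw [← sum_Ioc_consecutive _ (Nat.zero_le q) h]
      have a1 := abel_le χ w q hq q P (fun n _ => w0 n) fun n hn => by
        refine mul_le_mul (xs_anti hL (by omega) (by omega)) ?_ (Z0 _) (xs_nonneg _ _)
        exact sum_le_sum_of_subset_of_nonneg (Ioc_subset_Ioc_right
          (Nat.div_le_div_left (by omega) (by omega))) fun _ _ _ => xs_nonneg _ _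
      have a2 := wle (q + 1) (by omega)
      have a3 : 2 * (q : ℝ) * (1 / ((q + 1 : ℕ) : ℝ) * (1 + L)) ≤ 2 * (1 + L) := by
        have : (q : ℝ) * (1 / ((q + 1 : ℕ) : ℝ)) ≤ 1 := by
          rw [mul_one_div, div_le_one (by positivity)]; push_cast; linarith
        nlinarith
      have a4 := (le_abs_self _).trans (a1.trans
        ((mul_le_mul_of_nonneg_left a2 (by positivity)).trans a3))
      nlinarith [head q le_rfl]
  refine step1.trans ?_
  rw [mul_assoc]
  refine mul_le_mul (prod_xs_sq_le hL hP) (step2.trans (step3.trans_le step4))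
    (prod_nonneg fun p _ => ?_) (by norm_num)
  have : 0 ≤ 1 + χ p := by linarith [(abs_le.1 (hb p)).1]
  have := xs_nonneg L p
  positivity

end Pool.Agent.Lib.MP_696deb_nt.Den
end
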