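import Pool.Agent.Lib.MP_696deb_nt.Height

set_option autoImplicit false

open WeierstrassCurve WeierstrassCurve.Affine

namespace Pool.Agent.Lib.MP_696deb_nt

/-- `W` is the curve `y^2 = (x - e1)(x - e2)(x - e3)` with distinct roots. -/
structure Split {K : Type*} [Field K] (W : WeierstrassCurve K) (e1 e2 e3 : K) : Prop where
  a1 : W.a₁ = 0
  a3 : W.a₃ = 0
  a2 : W.a₂ = -(e1 + e2 + e3)
  a4 : W.a₄ = e1 * e2 + e1 * e3 + e2 * e3
  a6 : W.a₆ = -(e1 * e2 * e3)
  h12 : e1 ≠ e2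
  h13 : e1 ≠ e3
  h23 : e2 ≠ e3
  two : (2 : K) ≠ 0

namespace Split

variable {K : Type*} [Field K] {W : WeierstrassCurve K} {e1 e2 e3 : K}

theorem swap12 (h : Split W e1 e2 e3) : Split W e2 e1 e3 :=
  ⟨h.a1, h.a3, by rw [h.a2]; ring, by rw [h.a4]; ring, by rw [h.a6]; ring,
    h.h12.symm, h.h23, h.h13, h.two⟩

theorem swap13 (h : Split W e1 e2 e3) : Split W e3 e2 e1 :=
  ⟨h.a1, h.a3, by rw [h.a2]; ring, by rw [h.a4]; ring, by rw [h.a6]; ring,
    h.h23.symm, h.h13.symm, h.h12.symm, h.two⟩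

theorem swap23 (h : Split W e1 e2 e3) : Split W e1 e3 e2 :=
  ⟨h.a1, h.a3, by rw [h.a2]; ring, by rw [h.a4]; ring, by rw [h.a6]; ring,
    h.h13, h.h12, h.h23.symm, h.two⟩

theorem equation_iff (h : Split W e1 e2 e3) (x y : K) :
    W.toAffine.Equation x y ↔ y ^ 2 = (x - e1) * (x - e2) * (x - e3) := by
  rw [Affine.equation_iff]
  simp only [toAffine, h.a1, h.a2, h.a3, h.a4, h.a6]
  constructor <;> intro h' <;> linear_combination h'

theorem Δ_eq (h : Split W e1 e2 e3) :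
    W.Δ = 16 * (e1 - e2) ^ 2 * (e1 - e3) ^ 2 * (e2 - e3) ^ 2 := by
  simp only [Δ, b₂, b₄, b₆, b₈, h.a1, h.a2, h.a3, h.a4, h.a6]
  ring

theorem Δ_ne (h : Split W e1 e2 e3) : W.Δ ≠ 0 := by
  rw [h.Δ_eq]
  have h16 : (16 : K) ≠ 0 := by
    have : (16 : K) = 2 ^ 4 := by norm_num
    rw [this]; exact pow_ne_zero _ h.two
  have := sub_ne_zero.mpr h.h12
  have := sub_ne_zero.mpr h.h13
  have := sub_ne_zero.mpr h.h23
  positivity

theorem isElliptic (h : Split W e1 e2 e3) : W.IsElliptic := ⟨Ne.isUnit h.Δ_ne⟩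

theorem nonsingular_iff (h : Split W e1 e2 e3) (x y : K) :
    W.toAffine.Nonsingular x y ↔ y ^ 2 = (x - e1) * (x - e2) * (x - e3) := by
  rw [← equation_iff_nonsingular_of_Δ_ne_zero h.Δ_ne, h.equation_iff]

theorem negY_eq (h : Split W e1 e2 e3) (x y : K) : W.toAffine.negY x y = -y := by
  simp [negY, h.a1, h.a3]

theorem nonsingular_root (h : Split W e1 e2 e3) : W.toAffine.Nonsingular e1 0 := by
  rw [h.nonsingular_iff]; ring

variable [DecidableEq K]

/-- The 2-torsion point `(e1, 0)`. -/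
def T (h : Split W e1 e2 e3) : W.toAffine.Point := .some e1 0 h.nonsingular_root

theorem two_nsmul_of_y_eq_zero (h : Split W e1 e2 e3) {x : K} (hP : W.toAffine.Nonsingular x 0) :
    2 • Point.some x 0 hP = 0 := by
  rw [two_nsmul]
  exact Point.add_self_of_Y_eq (by rw [h.negY_eq]; simp)

theorem two_nsmul_T (h : Split W e1 e2 e3) : 2 • h.T = 0 := h.two_nsmul_of_y_eq_zero _

/-- Halving: a point all of whose `x - e_i` are squares is a double. -/
theorem exists_half (h : Split W e1 e2 e3) {x y : K} (hP : W.toAffine.Nonsingular x y)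
    (s1 : IsSquare (x - e1)) (s2 : IsSquare (x - e2)) (s3 : IsSquare (x - e3)) :
    ∃ R : W.toAffine.Point, Point.some x y hP = 2 • R := by
  obtain ⟨r1, hr1⟩ := s1
  obtain ⟨r2, hr2⟩ := s2
  obtain ⟨r3, hr3⟩ := s3
  have n12 : r1 + r2 ≠ 0 := by
    intro h0; apply h.h12
    linear_combination hr2 - hr1 + (r2 - r1) * h0
  have n13 : r1 + r3 ≠ 0 := by
    intro h0; apply h.h13
    linear_combination hr3 - hr1 + (r3 - r1) * h0
  have n23 : r2 + r3 ≠ 0 := by
    intro h0; apply h.h23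
    linear_combination hr3 - hr2 + (r3 - r2) * h0
  set x0 := x + r1 * r2 + r1 * r3 + r2 * r3 with hx0
  set y0 := (r1 + r2) * (r1 + r3) * (r2 + r3) with hy0
  have f1 : x0 - e1 = (r1 + r2) * (r1 + r3) := by rw [hx0]; linear_combination hr1
  have f2 : x0 - e2 = (r1 + r2) * (r2 + r3) := by rw [hx0]; linear_combination hr2
  have f3 : x0 - e3 = (r1 + r3) * (r2 + r3) := by rw [hx0]; linear_combination hr3
  have hR : W.toAffine.Nonsingular x0 y0 := by
    rw [h.nonsingular_iff, f1, f2, f3, hy0]; ring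
  have hy : y0 ≠ 0 := mul_ne_zero (mul_ne_zero n12 n13) n23
  have hy2 : y0 ≠ W.toAffine.negY x0 y0 := by
    rw [h.negY_eq]
    intro h0
    apply mul_ne_zero h.two hy
    linear_combination h0
  have hl : W.toAffine.slope x0 x0 y0 y0 = r1 + r2 + r3 := by
    rw [slope_of_Y_ne rfl hy2, h.negY_eq, div_eq_iff (by
      intro h0; apply mul_ne_zero h.two hy; linear_combination h0)]
    simp only [toAffine, h.a1, h.a2, h.a4]
    have : 3 * x0 ^ 2 + 2 * -(e1 + e2 + e3) * x0 + (e1 * e2 + e1 * e3 + e2 * e3) =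
        (x0 - e1) * (x0 - e2) + (x0 - e1) * (x0 - e3) + (x0 - e2) * (x0 - e3) := by ring
    rw [this, f1, f2, f3, hy0]; ring
  have hX : W.toAffine.addX x0 x0 (W.toAffine.slope x0 x0 y0 y0) = x := by
    rw [hl]
    simp only [addX, toAffine, h.a1, h.a2]
    rw [hx0]
    linear_combination -hr1 - hr2 - hr3
  have h2 : 2 • Point.some x0 y0 hR = Point.some _ _ (nonsingular_add hR hR fun hxy => hy2 hxy.2) := by
    rw [two_nsmul, Point.add_self_of_Y_ne hy2]
  rcases (Point.X_eq_iff (h₁ := hP)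
    (h₂ := nonsingular_add hR hR fun hxy => hy2 hxy.2)).mp hX.symm with h3 | h3
  · exact ⟨_, h3.trans h2.symm⟩
  · refine ⟨-Point.some x0 y0 hR, ?_⟩
    rw [h3, ← h2, neg_nsmul]

/-- Translation by the 2-torsion point `(e1, 0)`. -/
theorem add_T (h : Split W e1 e2 e3) {x y : K} (hP : W.toAffine.Nonsingular x y) (hx : x ≠ e1) :
    ∃ (x' y' : K) (hP' : W.toAffine.Nonsingular x' y'), Point.some x y hP + h.T = .some x' y' hP' ∧
      (x' - e1) * (x - e1) = (e1 - e2) * (e1 - e3) ∧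
      (x' - e2) * (x - e1) = (e1 - e2) * (x - e3) ∧
      (x' - e3) * (x - e1) = (e1 - e3) * (x - e2) := by
  have hx' : x - e1 ≠ 0 := sub_ne_zero.mpr hx
  have heq := (h.nonsingular_iff x y).mp hP
  refine ⟨_, _, _, Point.add_of_X_ne hx, ?_⟩
  have hl : W.toAffine.slope x e1 y 0 * (x - e1) = y := by
    rw [slope_of_X_ne hx, sub_zero, div_mul_cancel₀ _ hx']
  generalize W.toAffine.slope x e1 y 0 = l at hl ⊢
  have hl2 : l ^ 2 * (x - e1) = (x - e2) * (x - e3) := by
    apply mul_right_cancel₀ hx'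
    linear_combination heq + (l * (x - e1) + y) * hl
  simp only [addX, toAffine, h.a1, h.a2]
  refine ⟨?_, ?_, ?_⟩ <;> linear_combination hl2

theorem isSquare_of_mul {a b c : K} (hb : b ≠ 0) (h : a * b = c) (hs : IsSquare (c * b)) :
    IsSquare a := by
  obtain ⟨r, hr⟩ := hs
  refine ⟨r / b, ?_⟩
  field_simp
  linear_combination b * h + hr

theorem third_square (h : Split W e1 e2 e3) {x y : K} (hP : W.toAffine.Nonsingular x y)
    (hy : y ≠ 0) {a b : K} (s2 : IsSquare ((x - e2) * a)) (s3 : IsSquare ((x - e3) * b)) :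
    IsSquare ((x - e1) * (a * b)) := by
  have heq := (h.nonsingular_iff x y).mp hP
  obtain ⟨r, hr⟩ := s2
  obtain ⟨s, hs⟩ := s3
  have h0 : (x - e2) * (x - e3) ≠ 0 := by
    intro h0
    apply hy
    apply pow_eq_zero_iff (two_ne_zero) |>.mp
    rw [heq, mul_assoc, h0, mul_zero]
  refine isSquare_of_mul h0 rfl ⟨y * r * s, ?_⟩
  have : y * r * s * (y * r * s) = y ^ 2 * (r * r) * (s * s) := by ring
  rw [this, heq, ← hr, ← hs]; ring

/-- A point whose descent class is that of `(e1, 0)` is `(e1, 0)` plus a double. -/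
theorem exists_half_T (h : Split W e1 e2 e3) {x y : K} (hP : W.toAffine.Nonsingular x y)
    (hy : y ≠ 0) (s2 : IsSquare ((x - e2) * (e1 - e2))) (s3 : IsSquare ((x - e3) * (e1 - e3))) :
    ∃ R : W.toAffine.Point, Point.some x y hP = h.T + 2 • R := by
  have heq := (h.nonsingular_iff x y).mp hP
  have hx : x ≠ e1 := by
    rintro rfl
    apply hy
    apply pow_eq_zero_iff (two_ne_zero) |>.mp
    rw [heq]; ring
  have hx' : x - e1 ≠ 0 := sub_ne_zero.mpr hx
  have s1 := h.third_square hP hy s2 s3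
  obtain ⟨x', y', hP', hadd, f1, f2, f3⟩ := h.add_T hP hx
  have n12 := sub_ne_zero.mpr h.h12
  have n13 := sub_ne_zero.mpr h.h13
  obtain ⟨R, hR⟩ := h.exists_half hP' (isSquare_of_mul hx' f1 (by rwa [mul_comm]))
    (isSquare_of_mul hx' f2 (by
      refine isSquare_of_mul (mul_ne_zero n13 n13) rfl ?_
      obtain ⟨r, hr⟩ := s1
      obtain ⟨s, hs⟩ := s3
      refine ⟨r * s * (e1 - e3), ?_⟩
      have : r * s * (e1 - e3) * (r * s * (e1 - e3)) = (r * r) * (s * s) * (e1 - e3) ^ 2 := by ring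
      rw [this, ← hr, ← hs]; ring))
    (isSquare_of_mul hx' f3 (by
      refine isSquare_of_mul (mul_ne_zero n12 n12) rfl ?_
      obtain ⟨r, hr⟩ := s1
      obtain ⟨s, hs⟩ := s2
      refine ⟨r * s * (e1 - e2), ?_⟩
      have : r * s * (e1 - e2) * (r * s * (e1 - e2)) = (r * r) * (s * s) * (e1 - e2) ^ 2 := by ring
      rw [this, ← hr, ← hs]; ring))
  refine ⟨R, ?_⟩
  rw [← hR, ← hadd, add_comm (Point.some x y hP), ← add_assoc, ← two_nsmul, h.two_nsmul_T, zero_add]

end Split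

/-- The descent class of the abscissa `x` is the class of one of the four 2-torsion points. -/
def TorsionClass {K : Type*} [Field K] (e1 e2 e3 x : K) : Prop :=
  (IsSquare (x - e2) ∧ IsSquare (x - e3)) ∨
  (IsSquare ((x - e2) * (e1 - e2)) ∧ IsSquare ((x - e3) * (e1 - e3))) ∨
  (IsSquare ((x - e1) * (e2 - e1)) ∧ IsSquare ((x - e3) * (e2 - e3))) ∨
  (IsSquare ((x - e2) * (e3 - e2)) ∧ IsSquare ((x - e1) * (e3 - e1)))

theorem Split.exists_half_mod_two_torsion {K : Type*} [Field K] [DecidableEq K]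
    {W : WeierstrassCurve K} {e1 e2 e3 : K} (h : Split W e1 e2 e3)
    (H : ∀ x y : K, y ≠ 0 → y ^ 2 = (x - e1) * (x - e2) * (x - e3) → TorsionClass e1 e2 e3 x)
    (P : W.toAffine.Point) : ∃ T R : W.toAffine.Point, 2 • T = 0 ∧ P = T + 2 • R := by
  rcases P with _ | ⟨x, y, hP⟩
  · exact ⟨0, 0, by simp, by simp [← Point.zero_def]⟩
  by_cases hy : y = 0
  · subst hy
    exact ⟨_, 0, h.two_nsmul_of_y_eq_zero hP, by simp⟩
  rcases H x y hy ((h.nonsingular_iff x y).mp hP) with ⟨s2, s3⟩ | ⟨s2, s3⟩ | ⟨s2, s3⟩ | ⟨s2, s3⟩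
  · have s1 := h.third_square hP hy (a := 1) (b := 1) (by simpa) (by simpa)
    obtain ⟨R, hR⟩ := h.exists_half hP (by simpa using s1) s2 s3
    exact ⟨0, R, by simp, by simpa⟩
  · obtain ⟨R, hR⟩ := h.exists_half_T hP hy s2 s3
    exact ⟨_, R, h.two_nsmul_T, hR⟩
  · obtain ⟨R, hR⟩ := h.swap12.exists_half_T hP hy s2 s3
    exact ⟨_, R, h.swap12.two_nsmul_T, hR⟩
  · obtain ⟨R, hR⟩ := h.swap13.exists_half_T hP hy s2 s3
    exact ⟨_, R, h.swap13.two_nsmul_T, hR⟩

/-- Complete 2-descent, rank zero case: if the descent class of every rational point is the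
class of a 2-torsion point, the Mordell-Weil group is finite. -/
theorem Split.finite_point {K : Type*} [Field K] [NumberField K]
    {W : WeierstrassCurve K} {e1 e2 e3 : K} (h : Split W e1 e2 e3)
    (H : ∀ x y : K, y ≠ 0 → y ^ 2 = (x - e1) * (x - e2) * (x - e3) → TorsionClass e1 e2 e3 x) :
    Finite W.toAffine.Point := by
  classical
  have := h.isElliptic
  refine finite_point_of_two_divisible_mod_torsion W fun P => ?_
  obtain ⟨T, R, hT, hP⟩ := h.exists_half_mod_two_torsion H P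
  exact ⟨T, R, isOfFinAddOrder_iff_nsmul_eq_zero.mpr ⟨2, two_pos, hT⟩, hP⟩

end Pool.Agent.Lib.MP_696deb_nt
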