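import Pool.Agent.Lib.MP_696deb_nt.AnKer

set_option autoImplicit false

open Filter Topology Set MeasureTheory UpperHalfPlane Metric
open scoped Real MatrixGroups ENNReal NNReal

namespace Pool.Agent.Lib.MP_696deb_nt

/-- The averaging kernel on the upper half plane. -/
noncomputable def akr (ε : ℝ) (z w : ℍ) : ℝ := ε / (2 * π) * Real.cosh (dist z w) ^ (-1 - ε)

/-- The averaging operator. -/
noncomputable def avg (ε : ℝ) (u : ℍ → ℝ) (z : ℍ) : ℝ := ∫ w, akr ε z w * u w

/-- The Cayley map from the unit disc to the upper half plane. -/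
noncomputable def cayC (ζ : ℂ) : ℂ := Complex.I * (1 + ζ) / (1 - ζ)

/-- The Cayley map with values in the upper half plane. -/
noncomputable def cay (ζ : ℂ) : ℍ := ofComplex (cayC ζ)

instance smulInvSL : SMulInvariantMeasure SL(2, ℝ) ℍ volume :=
  ⟨fun g s _ => measure_preimage_smul (G := GL (Fin 2) ℝ) volume (g : GL (Fin 2) ℝ) s⟩

theorem akr_smul (ε : ℝ) (g : SL(2, ℝ)) (z w : ℍ) : akr ε (g • z) (g • w) = akr ε z w := by
  simp only [akr, dist_smul]

theorem akr_nonneg {ε : ℝ} (hε : 0 < ε) (z w : ℍ) : 0 ≤ akr ε z w := by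
  have := Real.cosh_pos (dist z w)
  unfold akr
  positivity

theorem continuous_akr (ε : ℝ) : Continuous fun p : ℍ × ℍ => akr ε p.1 p.2 :=
  continuous_const.mul ((Real.continuous_cosh.comp continuous_dist).rpow_const
    fun _ => Or.inl (Real.cosh_pos _).ne')

theorem continuous_akr_right (ε : ℝ) (z : ℍ) : Continuous (akr ε z) :=
  continuous_const.mul ((Real.continuous_cosh.comp (continuous_const.dist continuous_id)).rpow_const
    fun _ => Or.inl (Real.cosh_pos _).ne')

theorem avg_smul (ε : ℝ) (u : ℍ → ℝ) (g : SL(2, ℝ)) (z : ℍ) :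
    avg ε u (g • z) = avg ε (fun w => u (g • w)) z := by
  rw [avg, avg, ← integral_smul_eq_self (μ := volume) (fun w => akr ε (g • z) w * u w) (g := g)]
  simp only [akr_smul]

theorem integrable_akr_smul {ε : ℝ} {u : ℍ → ℝ} (g : SL(2, ℝ)) {z : ℍ}
    (h : Integrable fun w => akr ε (g • z) w * u w) :
    Integrable fun w => akr ε z w * u (g • w) := by
  have := (measurePreserving_smul g (volume : Measure ℍ)).integrable_comp_of_integrable h
  simpa only [Function.comp_def, akr_smul] using this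

theorem measurable_ofComplex : Measurable (ofComplex : ℂ → ℍ) := by
  have h : (fun z : ℂ => ((ofComplex z : ℍ) : ℂ)) =
      fun z => if 0 < z.im then z else ((Classical.choice inferInstance : ℍ) : ℂ) := by
    funext z
    rw [ofComplex_apply_eq_ite]
    split_ifs <;> rfl
  rw [← measurableEmbedding_coe.measurable_comp_iff, Function.comp_def, h]
  exact Measurable.ite (measurableSet_lt measurable_const Complex.measurable_im) measurable_id
    measurable_const

theorem lintegral_upper {f : ℍ → ℝ≥0∞} (hf : Measurable f) :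
    ∫⁻ w, f w = ∫⁻ z in {z : ℂ | 0 < z.im}, ENNReal.ofReal (1 / z.im ^ 2) * f (ofComplex z) := by
  have h1 : range UpperHalfPlane.coe = {z : ℂ | 0 < z.im} := by
    ext z
    exact ⟨by rintro ⟨w, rfl⟩; exact w.im_pos, fun h => ⟨⟨z, h⟩, rfl⟩⟩
  rw [← h1, ← measurableEmbedding_coe.map_comap, measurableEmbedding_coe.lintegral_map,
    volume_def, lintegral_withDensity_eq_lintegral_mul _ _ hf]
  · refine lintegral_congr fun z => ?_
    simp only [Pi.mul_apply, ofComplex_apply]
    congr 1
    rw [ENNReal.ofReal, ENNReal.coe_inj]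
    ext
    rw [Real.coe_toNNReal _ (by positivity)]
    simp
  · refine measurable_coe_nnreal_ennreal.comp (Measurable.pow_const (Measurable.const_div ?_ _) _)
    exact (continuous_im.subtype_mk _).measurable

/-- Change of variables for real integrals from change of variables for Lebesgue integrals. -/
theorem integral_of_lintegral {X : Type*} [MeasurableSpace X] {ν : Measure X} {ρ : X → ℝ}
    (hρ : Measurable ρ) (hρ0 : ∀ᵐ x ∂ν, 0 ≤ ρ x) {P : X → ℍ} (hP : Measurable P)
    (H : ∀ f : ℍ → ℝ≥0∞, Measurable f → ∫⁻ w, f w = ∫⁻ x, ENNReal.ofReal (ρ x) * f (P x) ∂ν)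
    {F : ℍ → ℝ} (hF : AEStronglyMeasurable F volume) :
    (Integrable F ↔ Integrable (fun x => ρ x * F (P x)) ν) ∧
      ∫ w, F w = ∫ x, ρ x * F (P x) ∂ν := by
  have hm : Measurable fun x => ENNReal.ofReal (ρ x) := hρ.ennreal_ofReal
  have h1 : (volume : Measure ℍ) = Measure.map P (ν.withDensity fun x => ENNReal.ofReal (ρ x)) := by
    ext s hs
    rw [← lintegral_indicator_one hs, H _ (measurable_one.indicator hs),
      ← lintegral_indicator_one hs, lintegral_map (measurable_one.indicator hs) hP]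
    exact (lintegral_withDensity_eq_lintegral_mul _ hm
      ((measurable_one.indicator hs).comp hP)).symm
  have h2 : (fun x => (ENNReal.ofReal (ρ x)).toReal • F (P x)) =ᵐ[ν] fun x => ρ x * F (P x) := by
    filter_upwards [hρ0] with x hx
    rw [ENNReal.toReal_ofReal hx, smul_eq_mul]
  have h3 : ∀ᵐ x ∂ν, ENNReal.ofReal (ρ x) < ⊤ := .of_forall fun x => ENNReal.ofReal_lt_top
  rw [h1] at hF
  constructor
  · rw [h1, integrable_map_measure hF hP.aemeasurable,
      integrable_withDensity_iff_integrable_smul' hm h3]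
    exact integrable_congr h2
  · rw [h1, integral_map hP.aemeasurable hF, integral_withDensity_eq_integral_toReal_smul hm h3]
    exact integral_congr_ae h2

theorem one_sub_ne {ζ : ℂ} (h : ‖ζ‖ < 1) : 1 - ζ ≠ 0 := fun h0 => by
  have : ζ = 1 := by linear_combination -h0
  simp [this] at h

theorem im_cayC (ζ : ℂ) : (cayC ζ).im = (1 - ‖ζ‖ ^ 2) / ‖1 - ζ‖ ^ 2 := by
  rw [cayC, Complex.div_im, ← Complex.normSq_eq_norm_sq, ← Complex.normSq_eq_norm_sq,
    Complex.normSq_apply ζ]
  simp
  ring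

theorem im_cayC_pos {ζ : ℂ} (h : ‖ζ‖ < 1) : 0 < (cayC ζ).im := by
  rw [im_cayC]
  have := norm_pos_iff.mpr (one_sub_ne h)
  have h2 : ‖ζ‖ ^ 2 < 1 := by nlinarith [norm_nonneg ζ]
  exact div_pos (by linarith) (by positivity)

theorem coe_cay {ζ : ℂ} (h : ‖ζ‖ < 1) : (cay ζ : ℂ) = cayC ζ := by
  rw [cay, ofComplex_apply_of_im_pos (im_cayC_pos h)]

theorem cay_zero : cay 0 = I := by
  ext1
  rw [coe_cay (by simp)]
  simp [cayC]

theorem hasDerivAt_cayC {ζ : ℂ} (h : ‖ζ‖ < 1) :
    HasDerivAt cayC (2 * Complex.I / (1 - ζ) ^ 2) ζ := by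
  have h1 := one_sub_ne h
  have := (((hasDerivAt_id ζ).const_add 1).const_mul Complex.I).div
    ((hasDerivAt_id ζ).const_sub 1) h1
  convert! this using 1
  simp only [id]
  field_simp
  ring

/-- The inverse of the Cayley map. -/
noncomputable def cayInv (z : ℍ) : ℂ := ((z : ℂ) - Complex.I) / ((z : ℂ) + Complex.I)

theorem add_I_ne (z : ℍ) : (z : ℂ) + Complex.I ≠ 0 := fun h => by
  have := congrArg Complex.im h
  simp at this
  linarith [z.im_pos]

theorem norm_cayInv_lt (z : ℍ) : ‖cayInv z‖ < 1 := by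
  rw [cayInv, norm_div, div_lt_one (norm_pos_iff.mpr (add_I_ne z)),
    ← sq_lt_sq₀ (norm_nonneg _) (norm_nonneg _), ← Complex.normSq_eq_norm_sq,
    ← Complex.normSq_eq_norm_sq, Complex.normSq_apply, Complex.normSq_apply]
  simp
  nlinarith [z.im_pos]

theorem cayC_cayInv (z : ℍ) : cayC (cayInv z) = z := by
  have h := add_I_ne z
  have h2 := one_sub_ne (norm_cayInv_lt z)
  rw [cayC, div_eq_iff h2, cayInv]
  field_simp
  ring

theorem cay_cayInv (z : ℍ) : cay (cayInv z) = z := by rw [cay, cayC_cayInv, ofComplex_apply]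

theorem cayInv_cay {ζ : ℂ} (h : ‖ζ‖ < 1) : cayInv (cay ζ) = ζ := by
  have h1 := one_sub_ne h
  rw [cayInv, div_eq_iff (add_I_ne _), coe_cay h, cayC]
  field_simp
  ring

theorem cosh_dist_cay {ζ : ℂ} (h : ‖ζ‖ < 1) :
    Real.cosh (dist I (cay ζ)) = (1 + ‖ζ‖ ^ 2) / (1 - ‖ζ‖ ^ 2) := by
  have h1 := one_sub_ne h
  have h2 : ‖ζ‖ ^ 2 < 1 := by nlinarith [norm_nonneg ζ]
  have h3 : 1 - ‖ζ‖ ^ 2 ≠ 0 := by linarith
  have h4 := norm_ne_zero_iff.mpr h1
  have h5 : (Complex.I - cayC ζ) = -2 * Complex.I * ζ / (1 - ζ) := by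
    rw [cayC]
    field_simp
    ring
  rw [cosh_dist, ← coe_im (cay ζ), coe_cay h, im_cayC, dist_eq_norm, coe_I, h5]
  simp only [norm_div, norm_mul, norm_neg, Complex.norm_I, I_im, Complex.norm_ofNat]
  field_simp
  ring

theorem measurable_cay : Measurable cay :=
  measurable_ofComplex.comp (by unfold cayC; fun_prop)

theorem lintegral_cay {f : ℍ → ℝ≥0∞} (hf : Measurable f) :
    ∫⁻ w, f w = ∫⁻ ζ in ball (0 : ℂ) 1, ENNReal.ofReal (4 / (1 - ‖ζ‖ ^ 2) ^ 2) * f (cay ζ) := by
  have h1 : cayC '' ball (0 : ℂ) 1 = {z : ℂ | 0 < z.im} := by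
    ext z
    constructor
    · rintro ⟨ζ, hζ, rfl⟩
      exact im_cayC_pos (by simpa using hζ)
    · intro h
      exact ⟨cayInv ⟨z, h⟩, by simpa using norm_cayInv_lt _, cayC_cayInv _⟩
  have h2 : InjOn cayC (ball (0 : ℂ) 1) := fun a ha b hb hab => by
    rw [← cayInv_cay (ζ := a) (by simpa using ha), ← cayInv_cay (ζ := b) (by simpa using hb), cay,
      cay, hab]
  rw [lintegral_upper hf, ← h1, lintegral_image_eq_lintegral_abs_det_fderiv_mul volume
    measurableSet_ball (fun ζ hζ => ((hasDerivAt_cayC (by simpa using hζ)).hasFDerivAt.restrictScalars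
      ℝ).hasFDerivWithinAt) h2]
  refine setLIntegral_congr_fun measurableSet_ball fun ζ hζ => ?_
  have h : ‖ζ‖ < 1 := by simpa using hζ
  have h3 : ‖ζ‖ ^ 2 < 1 := by nlinarith [norm_nonneg ζ]
  have h4 : 1 - ‖ζ‖ ^ 2 ≠ 0 := by linarith
  have h5 := norm_ne_zero_iff.mpr (one_sub_ne h)
  rw [← mul_assoc, ← ENNReal.ofReal_mul (abs_nonneg _), cay]
  congr 2
  simp [ContinuousLinearMap.det, LinearMap.det_restrictScalars, Algebra.norm_complex_eq,
    Complex.normSq_eq_norm_sq, im_cayC]
  rw [abs_of_nonneg (by positivity)]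
  field_simp
  norm_num

theorem lintegral_polar {f : ℍ → ℝ≥0∞} (hf : Measurable f) :
    ∫⁻ w, f w = ∫⁻ p : ℝ × ℝ, ENNReal.ofReal (4 * p.1 / (1 - p.1 ^ 2) ^ 2) *
      f (cay (circleMap 0 p.1 p.2))
        ∂((volume.restrict (Ioo (0 : ℝ) 1)).prod (volume.restrict (Ioo (-π) π))) := by
  rw [lintegral_cay hf, ← lintegral_indicator measurableSet_ball,
    ← Complex.lintegral_comp_polarCoord_symm, Measure.prod_restrict, ← Measure.volume_eq_prod,
    ← lintegral_indicator (measurableSet_Ioo.prod measurableSet_Ioo),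
    ← lintegral_indicator polarCoord.open_target.measurableSet]
  refine lintegral_congr fun p => ?_
  by_cases h : p ∈ Ioo (0 : ℝ) 1 ×ˢ Ioo (-π) π
  · have h0 : 0 < p.1 := h.1.1
    have h1 : ‖Complex.polarCoord.symm p‖ = p.1 := by
      rw [Complex.norm_polarCoord_symm, abs_of_pos h0]
    have h2 : Complex.polarCoord.symm p = circleMap 0 p.1 p.2 := by
      rw [Complex.polarCoord_symm_apply, circleMap, Complex.exp_mul_I]
      simp
    rw [indicator_of_mem h, indicator_of_mem (show p ∈ polarCoord.target from ⟨h0, h.2⟩),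
      indicator_of_mem (by simpa [abs_of_pos h0] using h.1.2), h1, h2, smul_eq_mul, ← mul_assoc,
      ← ENNReal.ofReal_mul h0.le]
    congr 2
    ring
  · rw [indicator_of_notMem h]
    by_cases h2 : p ∈ polarCoord.target
    · rw [indicator_of_mem h2, indicator_of_notMem, smul_zero]
      intro h3
      have h0 : 0 < p.1 := h2.1
      exact h ⟨⟨h0, by simpa [abs_of_pos h0] using h3⟩, h2.2⟩
    · rw [indicator_of_notMem h2]

theorem circleAverage_eq_Ioo (g : ℂ → ℝ) (r : ℝ) :
    ∫ θ in Ioo (-π) π, g (circleMap 0 r θ) = 2 * π * Real.circleAverage g 0 r := by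
  rw [Real.circleAverage_eq_integral_add (-π),
    intervalIntegral.integral_comp_add_right (fun θ => g (circleMap 0 r θ)),
    intervalIntegral.integral_of_le (by linarith [Real.pi_pos]), integral_Ioc_eq_integral_Ioo,
    smul_eq_mul, ← mul_assoc, mul_inv_cancel₀ (by positivity), one_mul]
  congr 3 <;> ring

theorem polar_aux {ε : ℝ} {u : ℍ → ℝ} (hu : AEStronglyMeasurable u volume) :
    (Integrable (fun w => akr ε I w * u w) ↔ Integrable (fun p : ℝ × ℝ => nuK ε p.1 / (2 * π) *
      u (cay (circleMap 0 p.1 p.2)))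
        ((volume.restrict (Ioo (0 : ℝ) 1)).prod (volume.restrict (Ioo (-π) π)))) ∧
    avg ε u I = ∫ p : ℝ × ℝ, nuK ε p.1 / (2 * π) * u (cay (circleMap 0 p.1 p.2))
        ∂((volume.restrict (Ioo (0 : ℝ) 1)).prod (volume.restrict (Ioo (-π) π))) := by
  have h0 : ∀ᵐ p : ℝ × ℝ ∂((volume.restrict (Ioo (0 : ℝ) 1)).prod (volume.restrict (Ioo (-π) π))),
      p.1 ∈ Ioo (0 : ℝ) 1 := by
    rw [Measure.prod_restrict]
    filter_upwards [ae_restrict_mem (measurableSet_Ioo.prod measurableSet_Ioo)] with p hp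
    exact hp.1
  have h := integral_of_lintegral (ρ := fun p : ℝ × ℝ => 4 * p.1 / (1 - p.1 ^ 2) ^ 2)
    (P := fun p : ℝ × ℝ => cay (circleMap 0 p.1 p.2)) (by fun_prop)
    (h0.mono fun p hp => by have := hp.1; positivity)
    (measurable_cay.comp (by unfold circleMap; fun_prop)) (fun f hf => lintegral_polar hf)
    (F := fun w => akr ε I w * u w)
    ((continuous_akr_right ε I).aestronglyMeasurable.mul hu)
  have h2 := h0.mono (q := fun p : ℝ × ℝ => 4 * p.1 / (1 - p.1 ^ 2) ^ 2 *
      (akr ε I (cay (circleMap 0 p.1 p.2)) * u (cay (circleMap 0 p.1 p.2))) =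
      nuK ε p.1 / (2 * π) * u (cay (circleMap 0 p.1 p.2))) fun p hp => by
    have h3 : ‖circleMap 0 p.1 p.2‖ = p.1 := by simp [abs_of_pos hp.1]
    rw [akr, cosh_dist_cay (by rw [h3]; exact hp.2), h3, nuK]
    ring
  exact ⟨h.1.trans (integrable_congr h2), h.2.trans (integral_congr_ae h2)⟩

/-- The averaging operator in polar coordinates. -/
theorem avg_polar {ε : ℝ} {u : ℍ → ℝ} (hu : AEStronglyMeasurable u volume)
    (h : Integrable fun w => akr ε I w * u w) :
    avg ε u I = ∫ r in Ioo (0 : ℝ) 1, nuK ε r * Real.circleAverage (fun ζ => u (cay ζ)) 0 r := by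
  obtain ⟨h1, h2⟩ := polar_aux (ε := ε) hu
  rw [h2, integral_prod _ (h1.mp h)]
  refine integral_congr_ae (.of_forall fun r => ?_)
  simp only
  rw [integral_const_mul, circleAverage_eq_Ioo (fun ζ => u (cay ζ))]
  field_simp

theorem integrable_akr {ε : ℝ} (hε : 0 < ε) (z : ℍ) : Integrable (akr ε z) := by
  have h : Integrable fun w => akr ε I w * (fun _ => (1 : ℝ)) w := by
    rw [(polar_aux (ε := ε) (u := fun _ => 1) aestronglyMeasurable_const).1]
    exact ((integral_nuK hε).1.div_const (2 * π)).mul_prod (integrable_const (1 : ℝ))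
  have h2 := integrable_akr_smul (u := fun _ => 1) (z := z) z.toSL2R⁻¹ (by
    rwa [inv_smul_eq_iff.mpr (toSL2R_smul_I z).symm])
  simpa using h2

theorem integral_akr {ε : ℝ} (hε : 0 < ε) (z : ℍ) : ∫ w, akr ε z w = 1 := by
  have h := avg_polar (ε := ε) (u := fun _ => 1) aestronglyMeasurable_const
    (by simpa using integrable_akr hε I)
  have h2 := avg_smul ε (fun _ => 1) z.toSL2R I
  rw [toSL2R_smul_I, h] at h2
  simpa [avg, Real.circleAverage_const, (integral_nuK hε).2] using h2

theorem integrable_akr_mul {ε : ℝ} (hε : 0 < ε) (z : ℍ) {u : ℍ → ℝ}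
    (hu : AEStronglyMeasurable u volume) {C : ℝ} (hC : ∀ w, |u w| ≤ C) :
    Integrable fun w => akr ε z w * u w :=
  (integrable_akr hε z).mul_bdd hu (.of_forall hC)

theorem lintegral_cart {f : ℍ → ℝ≥0∞} (hf : Measurable f) :
    ∫⁻ w, f w = ∫⁻ p : ℝ × ℝ, ENNReal.ofReal (1 / p.2 ^ 2) *
      f (ofComplex (p.1 + p.2 * Complex.I)) ∂(volume.prod (volume.restrict (Ioi (0 : ℝ)))) := by
  rw [lintegral_upper hf, ← Measure.restrict_univ (μ := (volume : Measure ℝ)),
    Measure.restrict_restrict measurableSet_Ioi, inter_univ, Measure.prod_restrict,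
    ← Measure.volume_eq_prod, ← lintegral_indicator (MeasurableSet.univ.prod measurableSet_Ioi),
    ← lintegral_indicator (measurableSet_lt measurable_const Complex.measurable_im),
    ← (Complex.volume_preserving_equiv_real_prod.symm).lintegral_comp_emb
    Complex.measurableEquivRealProd.symm.measurableEmbedding]
  refine lintegral_congr fun p => ?_
  have h1 : Complex.measurableEquivRealProd.symm p = p.1 + p.2 * Complex.I := by
    apply Complex.ext <;> simp
  rw [h1]
  by_cases h : 0 < p.2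
  · rw [indicator_of_mem (by simpa using h), indicator_of_mem (by simpa using h)]
    simp
  · rw [indicator_of_notMem (by simpa using h), indicator_of_notMem (by simpa using h)]

/-- The image of the kernel under the real part. -/
theorem avg_re {ε : ℝ} (hε : 0 < ε) {g : ℝ → ℝ} (hg : Measurable g) {C : ℝ} (hC : ∀ x, |g x| ≤ C) :
    avg ε (fun w => g w.re) I = (∫ y : ℝ, (1 + y ^ 2) ^ (-1 - ε / 2) * g y) /
      ∫ y : ℝ, (1 + y ^ 2) ^ (-1 - ε / 2) := by
  have key : ∀ {g : ℝ → ℝ}, Measurable g → ∀ {C : ℝ}, (∀ x, |g x| ≤ C) →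
      avg ε (fun w => g w.re) I = (∫ y : ℝ, (1 + y ^ 2) ^ (-1 - ε / 2) * g y) *
        ∫ y in Ioi (0 : ℝ), 1 / y ^ 2 * (ε / (2 * π) * ((1 + y ^ 2) / (2 * y)) ^ (-1 - ε)) := by
    intro g hg C hC
    have hm : AEStronglyMeasurable (fun w : ℍ => g w.re) volume :=
      (hg.comp continuous_re.measurable).aestronglyMeasurable
    have h := integral_of_lintegral (ρ := fun p : ℝ × ℝ => 1 / p.2 ^ 2)
      (P := fun p : ℝ × ℝ => ofComplex (p.1 + p.2 * Complex.I)) (by fun_prop)
      (.of_forall fun p => by positivity)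
      (measurable_ofComplex.comp (by fun_prop)) (fun f hf => lintegral_cart hf)
      (F := fun w => akr ε I w * g w.re)
      ((continuous_akr_right ε I).aestronglyMeasurable.mul hm)
    rw [avg, h.2, integral_prod _ (h.1.mp (integrable_akr_mul hε I hm fun w => hC _)),
      ← integral_mul_const]
    refine integral_congr_ae (.of_forall fun x => ?_)
    have hx : 0 < √(1 + x ^ 2) := by positivity
    have hx2 : √(1 + x ^ 2) ^ 2 = 1 + x ^ 2 := Real.sq_sqrt (by positivity)
    have h3 := integral_comp_mul_left_Ioi (fun y : ℝ =>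
      1 / y ^ 2 * (ε / (2 * π) * ((1 + x ^ 2 + y ^ 2) / (2 * y)) ^ (-1 - ε))) 0 hx
    rw [mul_zero, smul_eq_mul, eq_inv_mul_iff_mul_eq₀ hx.ne'] at h3
    simp only
    rw [setIntegral_congr_fun (g := fun y : ℝ => g x * (1 / y ^ 2 * (ε / (2 * π) *
      ((1 + x ^ 2 + y ^ 2) / (2 * y)) ^ (-1 - ε)))) measurableSet_Ioi fun y hy => ?_,
      integral_const_mul, ← h3, ← integral_const_mul, ← integral_const_mul, ← integral_const_mul]
    · refine setIntegral_congr_fun measurableSet_Ioi fun y hy => ?_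
      have hy0 : 0 < y := hy
      have h4 : (1 + x ^ 2 + (√(1 + x ^ 2) * y) ^ 2) / (2 * (√(1 + x ^ 2) * y)) =
          √(1 + x ^ 2) * ((1 + y ^ 2) / (2 * y)) := by
        field_simp
        rw [hx2]
        ring
      have h5 : (1 + x ^ 2) ^ (-1 - ε / 2) = √(1 + x ^ 2) ^ (-1 - ε) / √(1 + x ^ 2) := by
        rw [← Real.rpow_sub_one hx.ne', Real.sqrt_eq_rpow, ← Real.rpow_mul (by positivity)]
        congr 1
        ring
      rw [h4, Real.mul_rpow hx.le (by positivity), h5]
      field_simp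
    · have hy0 : 0 < y := hy
      have h4 : 0 < ((x : ℂ) + y * Complex.I).im := by simpa using hy0
      simp only
      rw [ofComplex_apply_of_im_pos h4, akr, cosh_dist']
      simp only [mk_re, mk_im, I_re, I_im, Complex.add_re, Complex.add_im, Complex.ofReal_re,
        Complex.ofReal_im, Complex.mul_re, Complex.mul_im, Complex.I_re, Complex.I_im]
      ring_nf
  have h1 := key (g := fun _ => 1) measurable_const (C := 1) (by simp)
  simp only [avg, mul_one, integral_akr hε] at h1
  rw [key hg hC, eq_inv_of_mul_eq_one_right h1.symm]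
  exact (div_eq_mul_inv _ _).symm

end Pool.Agent.Lib.MP_696deb_nt
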