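import Pool.Agent.Lib.MP_696deb_nt.ErgBasic

set_option autoImplicit false

open Filter Topology Set MeasureTheory UpperHalfPlane Metric
open scoped Real MatrixGroups ENNReal NNReal

namespace Pool.Agent.Lib.MP_696deb_nt

/-- The real matrix of an integral matrix. -/
def toR (γ : SL(2, ℤ)) : SL(2, ℝ) := Matrix.SpecialLinearGroup.map (Int.castRingHom ℝ) γ

theorem toR_smul (γ : SL(2, ℤ)) (z : ℍ) : toR γ • z = γ • z := by
  ext1
  rw [coe_specialLinearGroup_apply, coe_specialLinearGroup_apply]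
  simp [toR]

theorem continuous_smul_int (γ : SL(2, ℤ)) : Continuous fun z : ℍ => γ • z :=
  (continuous_const_smul (toR γ)).congr (toR_smul γ)

theorem dist_smul_int (γ : SL(2, ℤ)) (z w : ℍ) : dist (γ • z) (γ • w) = dist z w := by
  rw [← toR_smul, ← toR_smul, dist_smul]

theorem continuousAt_cay {ζ : ℂ} (h : ‖ζ‖ < 1) : ContinuousAt cay ζ :=
  ContinuousAt.comp (f := cayC) (contMDiffAt_ofComplex (n := 0) (im_cayC_pos h)).continuousAt
    (hasDerivAt_cayC h).continuousAt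

theorem circleIntegrable_cay {E : Type*} [NormedAddCommGroup E] {f : ℍ → E} (hf : Continuous f)
    {ρ : ℝ} (hρ : ρ ∈ Ioo (0 : ℝ) 1) : CircleIntegrable (fun ζ => f (cay ζ)) 0 ρ :=
  ContinuousOn.circleIntegrable hρ.1.le fun ζ hζ =>
    (hf.continuousAt.comp (continuousAt_cay (by
      rw [mem_sphere_zero_iff_norm.mp hζ]; exact hρ.2))).continuousWithinAt

theorem differentiableAt_smul_cay (g : SL(2, ℝ)) {ζ : ℂ} (h : ‖ζ‖ < 1) :
    DifferentiableAt ℂ (fun ζ => ((g • cay ζ : ℍ) : ℂ)) ζ := by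
  have h1 := analyticAt_smul (g := (g : GL (Fin 2) ℝ)) (by simp) (cay ζ)
  rw [coe_cay h] at h1
  exact h1.differentiableAt.comp ζ (hasDerivAt_cayC h).differentiableAt

theorem circ_hol {F : ℂ → ℂ} (hF : Hol F) (g : SL(2, ℝ)) {ρ : ℝ} (hρ : ρ ∈ Ioo (0 : ℝ) 1) :
    Real.circleAverage (fun ζ => F (g • cay ζ : ℍ)) 0 ρ = F (g • I : ℍ) := by
  rw [DiffContOnCl.circleAverage, cay_zero]
  refine DifferentiableOn.diffContOnCl fun ζ hζ => ?_
  rw [closure_ball _ (abs_ne_zero.mpr hρ.1.ne'), mem_closedBall_zero_iff, abs_of_pos hρ.1] at hζ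
  exact ((hF _ (im_pos _)).comp ζ
    (differentiableAt_smul_cay g (hζ.trans_lt hρ.2))).differentiableWithinAt

theorem Hol.continuous_coe {F : ℂ → ℂ} (hF : Hol F) : Continuous fun z : ℍ => F z :=
  continuous_iff_continuousAt.mpr fun z =>
    (hF z z.im_pos).continuousAt.comp UpperHalfPlane.continuous_coe.continuousAt

theorem circ_hol_clm {F : ℂ → ℂ} (hF : Hol F) (L : ℂ →L[ℝ] ℝ) (g : SL(2, ℝ)) {ρ : ℝ}
    (hρ : ρ ∈ Ioo (0 : ℝ) 1) :
    Real.circleAverage (fun ζ => L (F (g • cay ζ : ℍ))) 0 ρ = L (F (g • I : ℍ)) := by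
  rw [← circ_hol hF g hρ]
  exact L.circleAverage_comp_comm
    (circleIntegrable_cay (hF.continuous_coe.comp (continuous_const_smul g)) hρ)

theorem dist_cay_eq {ζ : ℂ} {w : ℍ} (h : ‖ζ‖ = ‖cayInv w‖) : dist I (cay ζ) = dist I w := by
  have h1 := norm_cayInv_lt w
  have h2 : Real.cosh (dist I (cay ζ)) = Real.cosh (dist I w) := by
    rw [cosh_dist_cay (h ▸ h1), h, ← cosh_dist_cay h1, cay_cayInv]
  have h3 := Real.cosh_le_cosh.mp h2.le
  have h4 := Real.cosh_le_cosh.mp h2.ge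
  rw [abs_of_nonneg dist_nonneg, abs_of_nonneg dist_nonneg] at h3 h4
  exact le_antisymm h3 h4

/-- The maximum principle on one circle. -/
theorem max_circle {f : ℍ → ℝ} (hf : Continuous f) (g : SL(2, ℝ)) (q : ℍ)
    (hsub : ∀ ρ ∈ Ioo (0 : ℝ) 1, f (g • I) ≤ Real.circleAverage (fun ζ => f (g • cay ζ)) 0 ρ)
    (hle : ∀ w, dist (g • I) w = dist (g • I) q → f w ≤ f (g • I)) : f q = f (g • I) := by
  obtain ⟨q, rfl⟩ : ∃ q', q = g • q' := ⟨g⁻¹ • q, (smul_inv_smul g q).symm⟩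
  rcases (norm_nonneg (cayInv q)).eq_or_lt with h0 | h0
  · rw [← cay_cayInv q, norm_eq_zero.mp h0.symm, cay_zero]
  have hρ : ‖cayInv q‖ ∈ Ioo (0 : ℝ) 1 := ⟨h0, norm_cayInv_lt q⟩
  refine (hle _ rfl).eq_or_lt.resolve_right fun hlt => ?_
  obtain ⟨θ, hθ, hq⟩ : cayInv q ∈ circleMap 0 ‖cayInv q‖ '' Ioc 0 (2 * π) := by
    rw [image_circleMap_Ioc]
    simp
  have h1 := intervalIntegral.integral_lt_integral_of_continuousOn_of_le_of_exists_lt
    (f := fun θ => f (g • cay (circleMap 0 ‖cayInv q‖ θ))) (g := fun _ => f (g • I))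
    Real.two_pi_pos (fun θ _ => ContinuousAt.continuousWithinAt
      ((hf.comp (continuous_const_smul g)).continuousAt.comp (ContinuousAt.comp (g := cay)
        (continuousAt_cay (by simpa using hρ.2)) (continuous_circleMap _ _).continuousAt)))
    continuousOn_const (fun θ _ => hle _ (by
      rw [dist_smul, dist_smul]
      exact dist_cay_eq (by simp))) ⟨θ, Ioc_subset_Icc_self hθ, by rwa [hq, cay_cayInv]⟩
  have h2 := hsub _ hρ
  rw [Real.circleAverage, smul_eq_mul, le_inv_mul_iff₀ Real.two_pi_pos] at h2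
  simp only [intervalIntegral.integral_const, sub_zero, smul_eq_mul] at h1
  linarith

theorem isCompact_box (A Y : ℝ) {δ : ℝ} (hδ : 0 < δ) :
    IsCompact {z : ℍ | |z.re| ≤ A ∧ δ ≤ z.im ∧ z.im ≤ Y} := by
  rw [isEmbedding_coe.isCompact_iff]
  convert (isCompact_Icc (a := -A) (b := A)).reProdIm (isCompact_Icc (a := δ) (b := Y))
  ext z
  constructor
  · rintro ⟨w, hw, rfl⟩
    exact ⟨abs_le.mp hw.1, hw.2⟩
  · intro h
    exact ⟨⟨z, hδ.trans_le h.2.1⟩, ⟨abs_le.mpr h.1, h.2⟩, rfl⟩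

theorem exists_T_smul (z : ℍ) : ∃ (n : ℤ) (z₀ : ℍ), |z₀.re| ≤ 1 / 2 ∧ z₀.im = z.im ∧
    z = ModularGroup.T ^ n • z₀ := by
  refine ⟨round z.re, ModularGroup.T ^ (-round z.re) • z, ?_, ?_, ?_⟩
  · rw [modular_T_zpow_smul, vadd_re, Int.cast_neg, neg_add_eq_sub]
    exact abs_sub_round _
  · rw [modular_T_zpow_smul, vadd_im]
  · rw [smul_smul, ← zpow_add, add_neg_cancel, zpow_zero, one_smul]

theorem exists_reps (Γ : Subgroup SL(2, ℤ)) [Γ.FiniteIndex] :
    ∃ G : Finset SL(2, ℤ), ∀ g, ∃ γ ∈ Γ, ∃ r ∈ G, g = γ * r := by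
  classical
  have := Fintype.ofFinite (SL(2, ℤ) ⧸ Γ)
  refine ⟨Finset.univ.image fun q : SL(2, ℤ) ⧸ Γ => q.out⁻¹, fun g => ?_⟩
  obtain ⟨h, hh⟩ := QuotientGroup.mk_out_eq_mul Γ g⁻¹
  exact ⟨h, h.2, _, Finset.mem_image_of_mem _ (Finset.mem_univ (QuotientGroup.mk g⁻¹)), by
    rw [hh]; group⟩

/-- A bounded invariant function with the sub mean value property is constant. -/
theorem liouville_sub (Γ : Subgroup SL(2, ℤ)) [Γ.FiniteIndex] {U : ℍ → ℝ} (hU : Continuous U)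
    {C : ℝ} (hC : ∀ z, |U z| ≤ C) (hinv : ∀ γ ∈ Γ, ∀ z, U (γ • z) = U z)
    (hsub : ∀ g : SL(2, ℝ), ∀ ρ ∈ Ioo (0 : ℝ) 1,
      U (g • I) ≤ Real.circleAverage (fun ζ => U (g • cay ζ)) 0 ρ) (z z' : ℍ) : U z = U z' := by
  obtain ⟨G, hG⟩ := exists_reps Γ
  have hne : G.Nonempty := by
    obtain ⟨_, _, r, hr, _⟩ := hG 1
    exact ⟨r, hr⟩
  have hc : ∀ r : SL(2, ℤ), Continuous fun z : ℍ => U (r • z) := fun r =>
    hU.comp (continuous_smul_int r)
  obtain ⟨V, hV, ha, hb⟩ : ∃ V : ℍ → ℝ, Continuous V ∧ (∀ (γ : SL(2, ℤ)) z, U (γ • z) ≤ V z) ∧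
      ∀ z, ∃ γ : SL(2, ℤ), V z = U (γ • z) := by
    refine ⟨fun z => G.sup' hne fun r => U (r • z),
      Continuous.finset_sup'_apply hne fun r _ => hc r, fun g z => ?_, fun z => ?_⟩
    · obtain ⟨γ, hγ, r, hr, rfl⟩ := hG g
      rw [mul_smul, hinv γ hγ]
      exact Finset.le_sup' (fun r => U (r • z)) hr
    · obtain ⟨r, _, h⟩ := Finset.exists_mem_eq_sup' hne fun r => U (r • z)
      exact ⟨r, h⟩
  have hVi : ∀ (γ : SL(2, ℤ)) z, V (γ • z) ≤ V z := fun γ z => by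
    obtain ⟨g, hg⟩ := hb (γ • z)
    rw [hg, smul_smul]
    exact ha _ _
  have hVC : ∀ z, |V z| ≤ C := fun z => by
    obtain ⟨g, hg⟩ := hb z
    rw [hg]
    exact hC _
  have hVs : ∀ g : SL(2, ℝ), ∀ ρ ∈ Ioo (0 : ℝ) 1,
      V (g • I) ≤ Real.circleAverage (fun ζ => V (g • cay ζ)) 0 ρ := fun g ρ hρ => by
    obtain ⟨γ, hγ⟩ := hb (g • I)
    rw [hγ, ← toR_smul, smul_smul]
    refine (hsub _ ρ hρ).trans (Real.circleAverage_mono
      (circleIntegrable_cay (hU.comp (continuous_const_smul _)) hρ)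
      (circleIntegrable_cay (hV.comp (continuous_const_smul _)) hρ) fun ζ _ => ?_)
    rw [mul_smul, toR_smul]
    exact ha _ _
  have h2 : (0 : ℝ) < 1 / 2 := by norm_num
  obtain ⟨q, -, hq⟩ := (isCompact_box (1 / 2) (1 / 2) h2).exists_isMaxOn
    ⟨⟨⟨0, 1 / 2⟩, h2⟩, by simp, le_rfl, le_rfl⟩ hV.continuousOn
  have h3 : ∀ η : ℝ, 0 < η → ∀ z : ℍ, 1 / 2 ≤ z.im → V z - η * z.im ≤ V q := fun η hη => by
    have hW : Continuous fun z : ℍ => V z - η * z.im := hV.sub (continuous_const.mul continuous_im)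
    have hC0 : 0 ≤ C := (abs_nonneg _).trans (hC I)
    have hI : I ∈ {z : ℍ | |z.re| ≤ 1 / 2 ∧ 1 / 2 ≤ z.im ∧ z.im ≤ 1 + 2 * C / η} := by
      have : 0 ≤ 2 * C / η := by positivity
      simp only [mem_ofPred_eq, I_re, I_im, abs_zero]
      refine ⟨?_, ?_, ?_⟩ <;> linarith
    obtain ⟨p, hp, hmax⟩ := (isCompact_box (1 / 2) (1 + 2 * C / η) h2).exists_isMaxOn ⟨I, hI⟩
      hW.continuousOn
    have h4 : ∀ z : ℍ, 1 / 2 ≤ z.im → V z - η * z.im ≤ V p - η * p.im := fun z hz => by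
      obtain ⟨n, z₀, h5, h6, h7⟩ := exists_T_smul z
      have h8 : V z ≤ V z₀ := h7 ▸ hVi _ _
      by_cases h9 : z.im ≤ 1 + 2 * C / η
      · have := hmax (a := z₀) ⟨h5, h6 ▸ hz, h6 ▸ h9⟩
        simp only [mem_ofPred_eq, h6] at this
        linarith
      · have := hmax hI
        simp only [mem_ofPred_eq, I_im] at this
        have h10 : η * (1 + 2 * C / η) < η * z.im := mul_lt_mul_of_pos_left (not_le.mp h9) hη
        rw [mul_add, mul_div_cancel₀ _ hη.ne'] at h10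
        linarith [abs_le.mp (hVC z), abs_le.mp (hVC I)]
    let p' : ℍ := ⟨⟨p.re, 1 / 2⟩, h2⟩
    have h5 := max_circle hW p.toSL2R p' (fun ρ hρ => by
      rw [Real.circleAverage_fun_sub
        (circleIntegrable_cay (f := fun z => V (p.toSL2R • z)) (by fun_prop) hρ)
        (circleIntegrable_cay (f := fun z => η * (p.toSL2R • z).im) (by fun_prop) hρ)]
      have h6 := circ_hol_clm (F := id) (fun _ _ => differentiableAt_id) (η • Complex.imCLM)
        p.toSL2R hρ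
      simp only [smul_apply, id, Complex.imCLM_apply, smul_eq_mul, coe_im] at h6
      rw [h6]
      linarith [hVs p.toSL2R ρ hρ]) fun w hw => by
      rw [toSL2R_smul_I] at hw ⊢
      refine h4 w ?_
      have h6 := im_div_exp_dist_le p w
      rw [hw, dist_of_re_eq (show p.re = p'.re from rfl), Real.dist_eq, abs_of_nonneg
        (sub_nonneg.mpr (Real.log_le_log p'.im_pos hp.2.1)), Real.exp_sub, Real.exp_log p.im_pos,
        Real.exp_log p'.im_pos, div_div_cancel₀ p.im_pos.ne'] at h6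
      exact h6
    intro z hz
    have h6 : V p' ≤ V q := hq (a := p') ⟨hp.1, le_rfl, le_rfl⟩
    rw [toSL2R_smul_I] at h5
    have h7 : 0 < η * p'.im := mul_pos hη p'.im_pos
    linarith [h4 z hz]
  have h4 : ∀ z : ℍ, U z ≤ V q := fun z => by
    obtain ⟨g, hg⟩ := ModularGroup.exists_smul_mem_fd z
    have h5 : 1 / 2 ≤ (g • z).im := by
      nlinarith [ModularGroup.three_le_four_mul_im_sq_of_mem_fd hg, (g • z).im_pos]
    have h6 : V (g • z) ≤ V q := le_of_forall_pos_le_add fun δ hδ => by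
      have := h3 (δ / (g • z).im) (div_pos hδ (im_pos _)) _ h5
      rw [div_mul_cancel₀ _ (im_pos _).ne'] at this
      linarith
    have h7 := ha g⁻¹ (g • z)
    rw [inv_smul_smul] at h7
    exact h7.trans h6
  obtain ⟨γ, hγ⟩ := hb q
  have h5 : ∀ w, U w = U (γ • q) := fun w => by
    have := max_circle hU (γ • q).toSL2R w (hsub _) fun w' _ => by
      rw [toSL2R_smul_I, ← hγ]
      exact h4 w'
    rwa [toSL2R_smul_I] at this
  rw [h5 z, h5 z']

end Pool.Agent.Lib.MP_696deb_nt
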