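import Pool.Agent.Lib.MP_696deb_nt.ErgLiou

set_option autoImplicit false

open Filter Topology Set MeasureTheory UpperHalfPlane Metric
open scoped Real MatrixGroups ENNReal NNReal ComplexConjugate

namespace Pool.Agent.Lib.MP_696deb_nt

theorem cosh_dist_le (z z' w : ℍ) :
    Real.cosh (dist z' w) ≤ Real.exp (dist z z') * Real.cosh (dist z w) := by
  have h1 : Real.cosh (dist z' w) ≤ Real.cosh (dist z z' + dist z w) := by
    rw [Real.cosh_le_cosh, abs_of_nonneg dist_nonneg, abs_of_nonneg (by positivity)]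
    exact dist_triangle_left _ _ _
  rw [Real.cosh_add] at h1
  rw [← Real.cosh_add_sinh]
  have h2 : 0 ≤ Real.sinh (dist z z') := Real.sinh_nonneg_iff.mpr dist_nonneg
  nlinarith [mul_le_mul_of_nonneg_left (Real.sinh_lt_cosh (dist z w)).le h2]

theorem akr_le {ε : ℝ} (hε : 0 < ε) (z z' w : ℍ) :
    akr ε z w ≤ Real.exp ((1 + ε) * dist z z') * akr ε z' w := by
  have h1 := Real.cosh_pos (dist z w)
  have h2 := Real.cosh_pos (dist z' w)
  have h3 := Real.rpow_le_rpow_of_nonpos h2 (cosh_dist_le z z' w) (z := -1 - ε) (by linarith)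
  rw [Real.mul_rpow (Real.exp_pos _).le h1.le, ← Real.exp_mul] at h3
  have h4 : Real.exp ((1 + ε) * dist z z') * Real.exp (dist z z' * (-1 - ε)) = 1 := by
    rw [← Real.exp_add, ← Real.exp_zero]
    congr 1
    ring
  have h5 := mul_le_mul_of_nonneg_left h3 (Real.exp_pos ((1 + ε) * dist z z')).le
  rw [← mul_assoc, h4, one_mul] at h5
  rw [akr, akr, mul_left_comm]
  exact mul_le_mul_of_nonneg_left h5 (by positivity)

theorem abs_akr_sub_le {ε : ℝ} (hε : 0 < ε) (z z' w : ℍ) :
    |akr ε z w - akr ε z' w| ≤ (Real.exp ((1 + ε) * dist z z') - 1) * akr ε z w := by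
  have h1 := akr_le hε z z' w
  have h2 := akr_le hε z' z w
  rw [dist_comm z' z] at h2
  have h3 : 1 ≤ Real.exp ((1 + ε) * dist z z') := Real.one_le_exp (by positivity)
  have h4 := akr_nonneg hε z w
  have h5 := akr_nonneg hε z' w
  generalize Real.exp ((1 + ε) * dist z z') = E at *
  rw [abs_le]
  constructor
  · linarith
  · refine le_of_mul_le_mul_left ?_ (show 0 < E by linarith)
    nlinarith [mul_nonneg (sq_nonneg (E - 1)) h4]

theorem integrable_akr_of {ε : ℝ} (hε : 0 < ε) {u : ℍ → ℝ} (hu : AEStronglyMeasurable u volume)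
    {z : ℍ} (h : Integrable fun w => akr ε z w * u w) (z' : ℍ) :
    Integrable fun w => akr ε z' w * u w := by
  refine (h.norm.const_mul (Real.exp ((1 + ε) * dist z' z))).mono'
    ((continuous_akr_right ε z').aestronglyMeasurable.mul hu) (.of_forall fun w => ?_)
  rw [norm_mul, norm_mul, ← mul_assoc, Real.norm_of_nonneg (akr_nonneg hε _ _),
    Real.norm_of_nonneg (akr_nonneg hε _ _)]
  exact mul_le_mul_of_nonneg_right (akr_le hε _ _ _) (norm_nonneg _)

theorem abs_avg_le {ε : ℝ} (hε : 0 < ε) (u : ℍ → ℝ) (z : ℍ) :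
    |avg ε u z| ≤ avg ε (fun w => |u w|) z := by
  refine (abs_integral_le_integral_abs).trans_eq (integral_congr_ae (.of_forall fun w => ?_))
  simp only [abs_mul, abs_of_nonneg (akr_nonneg hε z w)]

theorem abs_avg_sub_le {ε : ℝ} (hε : 0 < ε) {u : ℍ → ℝ} (hu : AEStronglyMeasurable u volume)
    {z : ℍ} (h : Integrable fun w => akr ε z w * u w) (z' : ℍ) :
    |avg ε u z - avg ε u z'| ≤
      (Real.exp ((1 + ε) * dist z z') - 1) * avg ε (fun w => |u w|) z := by
  have h1 := integrable_akr_of hε hu h z'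
  have h2 : Integrable fun w => akr ε z w * |u w| := h.norm.congr (.of_forall fun w => by
    simp only [Real.norm_eq_abs, abs_mul, abs_of_nonneg (akr_nonneg hε z w)])
  rw [avg, avg, ← integral_sub h h1, avg, ← integral_const_mul]
  refine abs_integral_le_integral_abs.trans (integral_mono (h.sub h1).abs (h2.const_mul _)
    fun w => ?_)
  simp only
  rw [← sub_mul, abs_mul, ← mul_assoc]
  exact mul_le_mul_of_nonneg_right (abs_akr_sub_le hε z z' w) (abs_nonneg _)

theorem avg_le_const {ε : ℝ} (hε : 0 < ε) {u : ℍ → ℝ} {C : ℝ} (h0 : ∀ w, 0 ≤ u w)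
    (hC : ∀ w, u w ≤ C) (z : ℍ) : avg ε u z ≤ C := by
  have h := integral_mono_of_nonneg (f := fun w => akr ε z w * u w) (g := fun w => akr ε z w * C)
    (.of_forall fun w => mul_nonneg (akr_nonneg hε z w) (h0 w)) ((integrable_akr hε z).mul_const C)
    (.of_forall fun w => mul_le_mul_of_nonneg_left (hC w) (akr_nonneg hε z w))
  rwa [integral_mul_const, integral_akr hε, one_mul] at h

theorem log_ratio {z w : ℍ} (h : z ≠ w) :
    1 < Real.cosh (dist z w) ∧ 2 * Real.log ‖((z : ℂ) - conj (w : ℂ)) / (z - w)‖ =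
      Real.log ((Real.cosh (dist z w) + 1) / (Real.cosh (dist z w) - 1)) := by
  refine ⟨Real.one_lt_cosh.mpr (dist_ne_zero.mpr h), ?_⟩
  have h1 : 0 < (z.re - w.re) ^ 2 + (z.im - w.im) ^ 2 := by
    have : (z : ℂ) - w ≠ 0 := sub_ne_zero.mpr fun h' => h (UpperHalfPlane.ext h')
    simpa [Complex.normSq_apply, sq] using Complex.normSq_pos.mpr this
  have hz := z.im_pos
  have hw := w.im_pos
  rw [show (2 : ℝ) = (2 : ℕ) from rfl, ← Real.log_pow, ← Complex.normSq_eq_norm_sq, map_div₀,
    Complex.normSq_apply, Complex.normSq_apply, cosh_dist']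
  congr 1
  simp only [Complex.sub_re, Complex.sub_im, Complex.conj_re, Complex.conj_im, coe_re, coe_im]
  rw [div_eq_div_iff (by nlinarith) (by
    rw [div_sub_one (by positivity)]
    exact (div_pos (by nlinarith) (by positivity)).ne')]
  field_simp
  ring

theorem circ_akr_ge {ε : ℝ} (hε : 0 < ε) {ρ : ℝ} (hρ : ρ ∈ Ioo (0 : ℝ) 1) (w : ℍ) :
    akr ε I w * (1 - (1 + ε) * (2 * ((1 + ρ ^ 2) / (1 - ρ ^ 2)) + 1) / Real.cosh (dist I w)) ≤
      Real.circleAverage (fun ζ => akr ε (cay ζ) w) 0 ρ := by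
  have hρ2 : ρ ^ 2 < 1 := by nlinarith [hρ.1, hρ.2]
  have hc : ∀ ζ : ℂ, ‖ζ‖ ≤ ρ → Real.cosh (dist I (cay ζ)) ≤ (1 + ρ ^ 2) / (1 - ρ ^ 2) :=
    fun ζ hζ => by
      have : ‖ζ‖ ^ 2 ≤ ρ ^ 2 := by gcongr
      rw [cosh_dist_cay (hζ.trans_lt hρ.2)]
      gcongr
  have hc1 : 1 ≤ (1 + ρ ^ 2) / (1 - ρ ^ 2) := (Real.one_le_cosh _).trans (hc 0 (by simp [hρ.1.le]))
  generalize (1 + ρ ^ 2) / (1 - ρ ^ 2) = c at hc hc1 ⊢
  have ht0 := Real.cosh_pos (dist I w)
  by_cases ht : Real.cosh (dist I w) ≤ 2 * c + 1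
  · refine le_trans (mul_nonpos_of_nonneg_of_nonpos (akr_nonneg hε _ _) ?_)
      (Real.circleAverage_nonneg_of_nonneg fun ζ _ => akr_nonneg hε _ _)
    rw [sub_nonpos, one_le_div ht0]
    nlinarith
  rw [not_le] at ht
  have hne : ∀ ζ : ℂ, ‖ζ‖ ≤ ρ → cay ζ ≠ w := fun ζ hζ h => by
    have := hc ζ hζ
    rw [h] at this
    linarith
  have han : AnalyticOnNhd ℂ (fun ζ => (cayC ζ - conj (w : ℂ)) / (cayC ζ - w))
      (closedBall 0 |ρ|) := fun ζ hζ => by
    rw [mem_closedBall_zero_iff, abs_of_pos hρ.1] at hζ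
    have h1 : AnalyticAt ℂ cayC ζ :=
      (analyticAt_const.mul (analyticAt_const.add analyticAt_id)).div
        (analyticAt_const.sub analyticAt_id) (one_sub_ne (hζ.trans_lt hρ.2))
    refine (h1.sub analyticAt_const).div (h1.sub analyticAt_const) ?_
    rw [← coe_cay (hζ.trans_lt hρ.2)]
    exact sub_ne_zero.mpr fun h => hne ζ hζ (UpperHalfPlane.ext h)
  have h1 := han.circleAverage_log_norm_of_ne_zero fun ζ hζ => by
    rw [mem_closedBall_zero_iff, abs_of_pos hρ.1] at hζ
    refine div_ne_zero (fun h => ?_) ?_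
    · have := congrArg Complex.im h
      simp only [Complex.sub_im, Complex.conj_im, coe_im, Complex.zero_im] at this
      linarith [im_cayC_pos (hζ.trans_lt hρ.2), w.im_pos]
    · rw [← coe_cay (hζ.trans_lt hρ.2)]
      exact sub_ne_zero.mpr fun h => hne ζ hζ (UpperHalfPlane.ext h)
  have h2 := (han.mono sphere_subset_closedBall).meromorphicOn.circleIntegrable_log_norm
  have h3 := (log_ratio (hne 0 (by simp [hρ.1.le]))).2
  rw [coe_cay (by simp), cay_zero, ← h1] at h3
  have ha := akr_nonneg hε I w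
  have hk : ∀ ζ ∈ sphere (0 : ℂ) |ρ|, akr ε I w * (1 - (1 + ε)) + akr ε I w * (1 + ε) *
      (Real.cosh (dist I w) - 2 * c) * Real.log ‖(cayC ζ - conj (w : ℂ)) / (cayC ζ - w)‖ ≤
      akr ε (cay ζ) w := fun ζ hζ => by
    rw [mem_sphere_zero_iff_norm, abs_of_pos hρ.1] at hζ
    obtain ⟨h4, h5⟩ := log_ratio (hne ζ hζ.le)
    rw [coe_cay (hζ ▸ hρ.2)] at h5
    have h6 := cosh_dist_le (cay ζ) I w
    have h7 : Real.exp (dist (cay ζ) I) ≤ 2 * c := by
      have := hc ζ hζ.le
      rw [← Real.cosh_add_sinh, dist_comm]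
      linarith [Real.sinh_lt_cosh (dist I (cay ζ))]
    simp only [akr] at ha ⊢
    generalize Real.log ‖(cayC ζ - conj (w : ℂ)) / (cayC ζ - w)‖ = l at h5 ⊢
    generalize Real.cosh (dist (cay ζ) w) = T at *
    generalize Real.cosh (dist I w) = t at *
    have h8 : t ≤ 2 * c * T := h6.trans (by gcongr)
    have h9 : l ≤ 1 / (T - 1) := by
      have := Real.log_le_sub_one_of_pos (x := (T + 1) / (T - 1)) (div_pos (by linarith)
        (by linarith))
      rw [← h5, div_sub_one (by linarith)] at this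
      rw [show T + 1 - (T - 1) = 2 * 1 by ring, mul_div_assoc] at this
      linarith
    have h10 : (t - 2 * c) * l ≤ t / T := by
      refine (mul_le_mul_of_nonneg_left h9 (by linarith)).trans ?_
      rw [mul_one_div, div_le_div_iff₀ (by linarith) (by linarith)]
      nlinarith
    have h11 := one_add_mul_self_le_rpow_one_add (s := t / T - 1) (p := 1 + ε)
      (by linarith [div_pos ht0 (show 0 < T by linarith)]) (by linarith)
    have h12 : T ^ (-1 - ε) = t ^ (-1 - ε) * (1 + (t / T - 1)) ^ (1 + ε) := by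
      rw [add_sub_cancel, Real.div_rpow ht0.le (by linarith), ← mul_div_assoc,
        ← Real.rpow_add ht0, show -1 - ε + (1 + ε) = 0 by ring, Real.rpow_zero,
        show -1 - ε = -(1 + ε) by ring, Real.rpow_neg (by linarith), one_div]
    rw [h12, ← mul_assoc]
    generalize ε / (2 * π) * t ^ (-1 - ε) = a at *
    nlinarith [mul_le_mul_of_nonneg_left h11 ha, mul_le_mul_of_nonneg_left h10
      (mul_nonneg ha (show 0 ≤ 1 + ε by linarith))]
  have h2' : CircleIntegrable (fun ζ => akr ε I w * (1 + ε) * (Real.cosh (dist I w) - 2 * c) *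
      Real.log ‖(cayC ζ - conj (w : ℂ)) / (cayC ζ - w)‖) 0 ρ := IntervalIntegrable.const_mul h2 _
  have h4 := Real.circleAverage_mono ((circleIntegrable_const _ _ _).add h2')
    (circleIntegrable_cay (f := fun z => akr ε z w)
      (continuous_const.mul ((Real.continuous_cosh.comp (continuous_id.dist
        continuous_const)).rpow_const fun _ => Or.inl (Real.cosh_pos _).ne')) hρ) hk
  refine le_trans ?_ h4
  rw [Real.circleAverage_add (circleIntegrable_const _ _ _) h2', Real.circleAverage_const]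
  simp only [← smul_eq_mul (a := akr ε I w * (1 + ε) * (Real.cosh (dist I w) - 2 * c))]
  rw [Real.circleAverage_fun_smul, smul_eq_mul]
  generalize Real.circleAverage (fun ζ => Real.log ‖(cayC ζ - conj (w : ℂ)) / (cayC ζ - w)‖) 0 ρ =
    l at h3 ⊢
  generalize Real.cosh (dist I w) = t at *
  generalize akr ε I w = a at *
  have h5 : 1 / (t + 1) ≤ l := by
    have := Real.one_sub_inv_le_log_of_pos (x := (t + 1) / (t - 1)) (div_pos (by linarith)
      (by linarith))
    rw [← h3, inv_div, one_sub_div (by linarith), show t + 1 - (t - 1) = 2 * 1 by ring,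
      mul_div_assoc] at this
    linarith
  have h6 : 1 - (2 * c + 1) / t ≤ (t - 2 * c) * l := by
    refine le_trans ?_ (mul_le_mul_of_nonneg_left h5 (by linarith))
    rw [mul_one_div, one_sub_div ht0.ne', div_le_div_iff₀ ht0 (by linarith)]
    nlinarith
  rw [mul_div_assoc]
  nlinarith [mul_le_mul_of_nonneg_left h6 (mul_nonneg ha (show 0 ≤ 1 + ε by linarith))]

theorem akr_div (ε : ℝ) (hε : 0 < ε) (z w : ℍ) :
    akr ε z w / Real.cosh (dist z w) = ε / (ε + 1) * akr (ε + 1) z w := by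
  have := Real.cosh_pos (dist z w)
  rw [akr, akr, show -1 - (ε + 1) = -1 - ε - 1 by ring, Real.rpow_sub_one this.ne']
  field_simp

/-- Averages of bounded functions almost have the sub mean value property. -/
theorem avg_le_circ {ε : ℝ} (hε : 0 < ε) {ρ : ℝ} (hρ : ρ ∈ Ioo (0 : ℝ) 1) {v : ℍ → ℝ}
    (hv : Measurable v) {C : ℝ} (h0 : ∀ w, 0 ≤ v w) (hC : ∀ w, v w ≤ C) :
    avg ε v I - C * (2 * ((1 + ρ ^ 2) / (1 - ρ ^ 2)) + 1) * ε ≤
      Real.circleAverage (fun ζ => avg ε v (cay ζ)) 0 ρ := by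
  have hρ2 : ρ ^ 2 < 1 := by nlinarith [hρ.1, hρ.2]
  have hc : 0 ≤ (1 + ρ ^ 2) / (1 - ρ ^ 2) := div_nonneg (by positivity) (by linarith)
  have hC' : ∀ w, |v w| ≤ C := fun w => by rw [abs_of_nonneg (h0 w)]; exact hC w
  have hI := integrable_akr_mul hε I hv.aestronglyMeasurable hC'
  have hm : Measurable fun θ : ℝ => cay (circleMap 0 ρ θ) :=
    measurable_cay.comp (continuous_circleMap 0 ρ).measurable
  have h1 : Integrable (Function.uncurry fun (θ : ℝ) (w : ℍ) =>
      akr ε (cay (circleMap 0 ρ θ)) w * v w) ((volume.restrict (Ioc 0 (2 * π))).prod volume) := by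
    refine ((integrable_const (Real.exp ((1 + ε) * dist I (cay ρ)))).mul_prod hI).mono'
      ((((continuous_akr ε).measurable.comp ((hm.comp measurable_fst).prodMk
        measurable_snd)).mul (hv.comp measurable_snd)).aestronglyMeasurable)
      (.of_forall fun p => ?_)
    have h2 : dist (cay (circleMap 0 ρ p.1)) I = dist I (cay ρ) := by
      rw [dist_comm]
      exact dist_cay_eq (by rw [cayInv_cay (by simpa [abs_of_pos hρ.1] using hρ.2)]; simp)
    rw [Function.uncurry, Real.norm_of_nonneg (mul_nonneg (akr_nonneg hε _ _) (h0 _)),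
      ← mul_assoc, ← h2]
    exact mul_le_mul_of_nonneg_right (akr_le hε _ _ _) (h0 _)
  have h2 : Real.circleAverage (fun ζ => avg ε v (cay ζ)) 0 ρ =
      ∫ w, Real.circleAverage (fun ζ => akr ε (cay ζ) w) 0 ρ * v w := by
    simp only [Real.circleAverage, avg, intervalIntegral.integral_of_le Real.two_pi_pos.le,
      smul_eq_mul]
    rw [integral_integral_swap h1, ← integral_const_mul]
    simp only [integral_mul_const, mul_assoc]
  have h3 : Integrable fun w => Real.circleAverage (fun ζ => akr ε (cay ζ) w) 0 ρ * v w := by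
    have := h1.integral_prod_right.const_mul (2 * π)⁻¹
    simpa only [Real.circleAverage, intervalIntegral.integral_of_le Real.two_pi_pos.le,
      smul_eq_mul, Function.uncurry, integral_mul_const, mul_assoc] using this
  have h4 := integral_mono (hI.sub ((integrable_akr (ε := ε + 1) (by linarith) I).const_mul
    (C * (2 * ((1 + ρ ^ 2) / (1 - ρ ^ 2)) + 1) * ε))) h3 fun w => by
    have h5 := mul_le_mul_of_nonneg_right (circ_akr_ge hε hρ w) (h0 w)
    have h6 := akr_div ε hε I w
    have h7 := akr_nonneg (ε := ε + 1) (by linarith) I w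
    refine le_trans ?_ h5
    generalize (1 + ρ ^ 2) / (1 - ρ ^ 2) = c at *
    have h8 : akr ε I w * (1 - (1 + ε) * (2 * c + 1) / Real.cosh (dist I w)) =
        akr ε I w - (2 * c + 1) * ε * akr (ε + 1) I w := by
      rw [mul_sub, mul_one, ← mul_div_assoc, mul_comm (akr ε I w), mul_div_assoc, h6]
      field_simp
      ring
    rw [h8]
    simp only [Pi.sub_apply]
    nlinarith [mul_le_mul_of_nonneg_left (hC w) (show 0 ≤ (2 * c + 1) * ε * akr (ε + 1) I w by
      positivity)]
  simp only [Pi.sub_apply] at h4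
  rw [integral_sub hI ((integrable_akr (ε := ε + 1) (by linarith) I).const_mul _),
    integral_const_mul, integral_akr (by linarith), mul_one] at h4
  rw [h2]
  exact h4

theorem avg_inv {Γ : Subgroup SL(2, ℤ)} {u : ℍ → ℝ} (hinv : ∀ γ ∈ Γ, ∀ z, u (γ • z) = u z) (ε : ℝ)
    {γ : SL(2, ℤ)} (hγ : γ ∈ Γ) (z : ℍ) : avg ε u (γ • z) = avg ε u z := by
  rw [← toR_smul, avg_smul]
  simp only [toR_smul, hinv γ hγ]

/-- The ergodic lemma for bounded nonnegative functions. -/
theorem tendsto_avg_sub_of_bdd (Γ : Subgroup SL(2, ℤ)) [Γ.FiniteIndex] {v : ℍ → ℝ}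
    (hv : Measurable v) {C : ℝ} (h0 : ∀ w, 0 ≤ v w) (hC : ∀ w, v w ≤ C)
    (hinv : ∀ γ ∈ Γ, ∀ z, v (γ • z) = v z) (z z' : ℍ) :
    Tendsto (fun ε => avg ε v z - avg ε v z') (𝓝[>] 0) (𝓝 0) := by
  classical
  have hC' : ∀ w, |v w| ≤ C := fun w => by rw [abs_of_nonneg (h0 w)]; exact hC w
  have hC0 : 0 ≤ C := (h0 I).trans (hC I)
  let c : ℝ → ℝ := fun ε => if ε ∈ Ioc (0 : ℝ) 1 then ε else 1
  have hc : ∀ ε, c ε ∈ Ioc (0 : ℝ) 1 := fun ε => by
    simp only [c]
    split_ifs with h
    exacts [h, ⟨one_pos, le_rfl⟩]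
  have hce : ∀ᶠ ε in 𝓝[>] (0 : ℝ), c ε = ε := by
    filter_upwards [Ioc_mem_nhdsGT one_pos] with ε h
    exact if_pos h
  have hb : ∀ ε w, |avg (c ε) v w| ≤ C := fun ε w =>
    (abs_avg_le (hc ε).1 v w).trans (avg_le_const (hc ε).1 (fun _ => abs_nonneg _) hC' w)
  have hm : Tendsto (fun d : ℝ => (Real.exp (2 * d) - 1) * C) (𝓝 0) (𝓝 0) :=
    Continuous.tendsto' (by fun_prop) _ _ (by simp)
  have hl : ∀ (w w' : ℍ) ε, dist (avg (c ε) v w) (avg (c ε) v w') ≤
      (Real.exp (2 * dist w w') - 1) * C := fun w w' ε => by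
    refine (abs_avg_sub_le (hc ε).1 hv.aestronglyMeasurable
      (integrable_akr_mul (hc ε).1 w hv.aestronglyMeasurable hC') w').trans ?_
    refine mul_le_mul ?_ (avg_le_const (hc ε).1 (fun _ => abs_nonneg _) hC' w)
      ((abs_nonneg _).trans (abs_avg_le (hc ε).1 v w)) ?_
    · gcongr
      linarith [(hc ε).2]
    · exact sub_nonneg.mpr (Real.one_le_exp (by positivity))
  have heq := Metric.equicontinuous_of_continuity_modulus _ hm (fun ε => avg (c ε) v) hl
  refine Tendsto.congr' (f₁ := fun ε => avg (c ε) v z - avg (c ε) v z')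
    (hce.mono fun ε h => by simp only [h]) ?_
  rw [tendsto_iff_ultrafilter]
  intro 𝒰 h𝒰
  have hex : ∀ w, ∃ y, Tendsto (fun ε => avg (c ε) v w) 𝒰 (𝓝 y) := fun w => by
    obtain ⟨y, -, hy⟩ := (isCompact_Icc (a := -C) (b := C)).ultrafilter_le_nhds
      (𝒰.map fun ε => avg (c ε) v w) 
        (le_principal_iff.mpr (mem_map.mpr (univ_mem' fun ε => abs_le.mp (hb ε w))))
    exact ⟨y, hy⟩
  choose U hU using hex
  have hUp : Tendsto (fun ε => avg (c ε) v) 𝒰 (𝓝 U) := tendsto_pi_nhds.mpr hU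
  have hUc : Continuous U := hUp.continuous_of_equicontinuous heq
  have hUu : ∀ K, IsCompact K → TendstoUniformlyOn (fun ε => avg (c ε) v) U 𝒰 K := fun K hK =>
    UniformOnFun.tendsto_iff_tendstoUniformlyOn.mp
      ((EquicontinuousOn.tendsto_uniformOnFun_iff_pi (𝔖 := {K | IsCompact K}) (fun _ h => h)
        (eq_univ_of_forall fun w => ⟨{w}, isCompact_singleton, rfl⟩)
        (fun K _ => heq.equicontinuousOn K) _ _).mpr hUp) K hK
  have key := liouville_sub Γ hUc (C := C) (fun w => le_of_tendsto' (hU w).abs fun ε => hb ε w)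
    (fun γ hγ w => tendsto_nhds_unique (hU (γ • w)) (by simpa only [avg_inv hinv _ hγ] using hU w))
    (fun g ρ hρ => le_of_forall_pos_le_add fun η hη => by
      have h1 : Tendsto c 𝒰 (𝓝 0) :=
        ((tendsto_id.mono_left nhdsWithin_le_nhds).congr' (hce.mono fun _ h => h.symm)).mono_left h𝒰
      have h2 := (hU (g • I)).sub (h1.const_mul (C * (2 * ((1 + ρ ^ 2) / (1 - ρ ^ 2)) + 1)))
      rw [mul_zero, sub_zero] at h2
      refine le_of_tendsto h2 ?_
      filter_upwards [Metric.tendstoUniformlyOn_iff.mp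
        (hUu _ (isCompact_closedBall (g • I) (dist I (cay ρ)))) η hη] with ε h3
      have h4 := avg_le_circ (hc ε).1 hρ (v := fun w => v (g • w))
        (hv.comp (continuous_const_smul g).measurable) (fun _ => h0 _) fun _ => hC _
      simp only [← avg_smul] at h4
      refine h4.trans ?_
      have h5 := circleIntegrable_cay (f := fun z => U (g • z))
        (hUc.comp (continuous_const_smul g)) hρ
      rw [← Real.circleAverage_const η 0 ρ, ← Real.circleAverage_add h5
        (circleIntegrable_const _ _ _)]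
      refine Real.circleAverage_mono (circleIntegrable_cay (f := fun z => avg (c ε) v (g • z))
        ((heq.continuous ε).comp (continuous_const_smul g)) hρ)
        (h5.add (circleIntegrable_const _ _ _)) fun ζ hζ => ?_
      have h6 := h3 (g • cay ζ) (by
        rw [mem_closedBall, dist_smul, dist_comm]
        refine (dist_cay_eq ?_).le
        rw [cayInv_cay (by simpa [abs_of_pos hρ.1] using hρ.2)]
        simpa using hζ)
      rw [Real.dist_eq, abs_lt] at h6
      simp only [Pi.add_apply]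
      linarith [h6.1]) z z'
  simpa [key] using (hU z).sub (hU z')

end Pool.Agent.Lib.MP_696deb_nt
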