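import Mathlib

set_option autoImplicit false

open Complex ModularForm
open scoped Real

namespace Pool.Agent.Lib.MP_696deb_nt

/-- The fractional linear map of an integer matrix. -/
noncomputable def mob (a b c d : ℤ) (z : ℂ) : ℂ := (a * z + b) / (c * z + d)

lemma den_ne {a b c d : ℤ} (h : a * d - b * c ≠ 0) {z : ℂ} (hz : 0 < z.im) :
    (c : ℂ) * z + d ≠ 0 := by
  intro h0
  have h1 := congr_arg Complex.im h0
  have h2 := congr_arg Complex.re h0
  simp at h1 h2
  rcases h1 with h1 | h1
  · subst h1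
    simp at h2
    subst h2
    simp at h
  · exact hz.ne' h1

lemma im_mob (a b c d : ℤ) (z : ℂ) :
    (mob a b c d z).im = ((a * d - b * c : ℤ) : ℝ) * z.im / ‖(c : ℂ) * z + d‖ ^ 2 := by
  rw [mob, Complex.div_im, Complex.sq_norm]
  simp
  ring

lemma im_mob_pos {a b c d : ℤ} (h : 0 < a * d - b * c) {z : ℂ} (hz : 0 < z.im) :
    0 < (mob a b c d z).im := by
  rw [im_mob]
  have h1 : (0 : ℝ) < ((a * d - b * c : ℤ) : ℝ) := by exact_mod_cast h
  have h2 := norm_pos_iff.mpr (den_ne h.ne' hz)
  positivity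

lemma mob_den {a' b' c' d' : ℤ} (h : a' * d' - b' * c' ≠ 0) (c d : ℤ) {z : ℂ} (hz : 0 < z.im) :
    (c : ℂ) * mob a' b' c' d' z + d =
      (((c * a' + d * c' : ℤ) : ℂ) * z + (c * b' + d * d' : ℤ)) / (c' * z + d') := by
  have := den_ne h hz
  rw [mob, eq_div_iff this, add_mul, mul_assoc, div_mul_cancel₀ _ this]
  push_cast
  ring

lemma mob_mob {a' b' c' d' : ℤ} (h : a' * d' - b' * c' ≠ 0) (a b c d : ℤ) {z : ℂ}
    (hz : 0 < z.im) : mob a b c d (mob a' b' c' d' z) =
      mob (a * a' + b * c') (a * b' + b * d') (c * a' + d * c') (c * b' + d * d') z := by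
  have := den_ne h hz
  rw [mob, mob_den h a b hz, mob_den h c d hz, div_div_div_cancel_right₀ this, mob]

/-- Weight one transformation law with multiplier `κ`. -/
def Tr (G : ℂ → ℂ) (a b c d : ℤ) (κ : ℂ) : Prop :=
  ∀ z : ℂ, 0 < z.im → G (mob a b c d z) = κ * (c * z + d) * G z

lemma Tr.comp {G : ℂ → ℂ} {a b c d a' b' c' d' : ℤ} {κ κ' : ℂ} (h : Tr G a b c d κ)
    (h' : Tr G a' b' c' d' κ') (hd : 0 < a' * d' - b' * c') :
    Tr G (a * a' + b * c') (a * b' + b * d') (c * a' + d * c') (c * b' + d * d') (κ * κ') := by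
  intro z hz
  have := den_ne hd.ne' hz
  rw [← mob_mob hd.ne' a b c d hz, h _ (im_mob_pos hd hz), h' z hz, mob_den hd.ne' c d hz]
  generalize (c' : ℂ) * z + d' = w at this ⊢
  field_simp

lemma euclid {N : ℤ} (hN : N = 1 ∨ N = 3) (P : ℤ → ℤ → ℤ → ℤ → Prop)
    (hT : ∀ a b c d, a * d - N * b * c = 1 → (P a b c d ↔ P a (a + b) c (N * c + d)))
    (hU : ∀ a b c d, a * d - N * b * c = 1 → (P a b c d ↔ P (a + N * b) b (c + d) d))
    (h1 : P 1 0 0 1) (h2 : P (-1) 0 0 (-1)) :
    ∀ a b c d, a * d - N * b * c = 1 → P a b c d := by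
  have base : ∀ a b d, a * d - N * b * 0 = 1 → P a b 0 d := by
    intro a b d h
    have had : a * d = 1 := by simpa using h
    have key : ∀ e : ℤ, e * e = 1 → P e 0 0 e → ∀ k : ℤ, P e (e * k) 0 e := by
      intro e he h0 k
      induction k using Int.induction_on with
      | zero => simpa using h0
      | succ k ih =>
        have := (hT e (e * k) 0 e (by simpa using he)).mp ih
        simpa [mul_add, add_comm] using this
      | pred k ih =>
        refine (hT e (e * (-(k : ℤ) - 1)) 0 e (by simpa using he)).mpr ?_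
        convert ih using 1 <;> ring
    rcases Int.eq_one_or_neg_one_of_mul_eq_one' had with ⟨rfl, rfl⟩ | ⟨rfl, rfl⟩
    · simpa using key 1 (by norm_num) h1 b
    · simpa using key (-1) (by norm_num) h2 (-b)
  suffices H : ∀ m : ℕ, ∀ a b c d, (N * c).natAbs + d.natAbs = m → a * d - N * b * c = 1 →
      P a b c d from fun a b c d h => H _ a b c d rfl h
  intro m
  induction m using Nat.strong_induction_on with
  | _ m ih =>
    intro a b c d hm h
    by_cases hc : c = 0
    · subst hc; exact base a b d h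
    by_cases hd : d = 0
    · subst hd
      have hN1 : N = 1 := by
        rcases hN with h' | h'
        · exact h'
        · subst h'
          have : 3 * (b * c) = -1 := by linarith
          omega
      subst hN1
      rw [hT _ _ _ _ h]
      have := (hU (-b) (a + b) 0 c (by linarith)).mp (base _ _ _ (by linarith))
      simpa using this
    by_cases hlt : (N * c).natAbs < 2 * d.natAbs
    · by_cases hs : (N * c + d).natAbs < d.natAbs
      · rw [hT _ _ _ _ h]
        exact ih _ (by omega) _ _ _ _ rfl (by linarith)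
      · have := (hT a (b - a) c (d - N * c) (by linarith)).mp
          (ih _ (by rcases hN with rfl | rfl <;> omega) _ _ _ _ rfl (by linarith))
        simpa using this
    · by_cases hs : (c + d).natAbs < c.natAbs
      · rw [hU _ _ _ _ h]
        exact ih _ (by rcases hN with rfl | rfl <;> omega) _ _ _ _ rfl (by linarith)
      · have := (hU (a - N * b) b (c - d) d (by linarith)).mp
          (ih _ (by rcases hN with rfl | rfl <;> omega) _ _ _ _ rfl (by linarith))
        simpa using this

/-- Twelfth roots of unity. -/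
noncomputable def e12 (k : ZMod 12) : ℂ := ZMod.stdAddChar k

lemma e12_add (k l : ZMod 12) : e12 (k + l) = e12 k * e12 l := AddChar.map_add_eq_mul _ _ _

lemma e12_zero : e12 0 = 1 := AddChar.map_zero_eq_one _

lemma e12_int (j : ℤ) : e12 j = cexp (2 * π * I * j / 12) := by
  simpa [e12] using ZMod.stdAddChar_coe (N := 12) j

lemma e12_ne (k : ZMod 12) : e12 k ≠ 0 := by
  intro h
  have := e12_add k (-k)
  rw [add_neg_cancel, e12_zero, h, zero_mul] at this
  exact one_ne_zero this

lemma e12_six : e12 6 = -1 := by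
  have := e12_int 6
  rw [show (2 * π * I * (6 : ℤ) / 12 : ℂ) = π * I by push_cast; ring, exp_pi_mul_I] at this
  simpa using this

lemma e12_three : e12 3 = I := by
  have := e12_int 3
  rw [show (2 * π * I * (3 : ℤ) / 12 : ℂ) = π / 2 * I by push_cast; ring, exp_pi_div_two_mul_I]
    at this
  simpa using this

lemma norm_e12 (k : ZMod 12) : ‖e12 k‖ = 1 := by
  simp [e12, ZMod.stdAddChar_apply]

lemma mult_gen {N : ℤ} (hN : N = 1 ∨ N = 3) (G : ℂ → ℂ) (τ : ZMod 12) (κ : ℂ)
    (hκ : κ ^ 2 = -N) (hGT : ∀ z : ℂ, 0 < z.im → G (z + 1) = e12 τ * G z)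
    (hGW : ∀ z : ℂ, 0 < z.im → G (-1 / (N * z)) = κ * z * G z)
    (Φ : ZMod 12 → ZMod 12 → ZMod 12 → ZMod 12 → ZMod 12)
    (hT : ∀ a b c d : ZMod 12, a * d - N * b * c = 1 →
      Φ a (a + b) c (N * c + d) = Φ a b c d + τ)
    (hU : ∀ a b c d : ZMod 12, a * d - N * b * c = 1 →
      Φ (a + N * b) b (c + d) d = Φ a b c d + -τ)
    (h1 : Φ 1 0 0 1 = 0) (h2 : Φ (-1) 0 0 (-1) = 6) :
    ∀ a b c d : ℤ, a * d - N * b * c = 1 → Tr G a b (N * c) d (e12 (Φ a b c d)) := by
  have hN0 : (N : ℂ) ≠ 0 := by rcases hN with rfl | rfl <;> norm_num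
  have hNpos : (0 : ℝ) < N := by rcases hN with rfl | rfl <;> norm_num
  have hinv : e12 τ * e12 (-τ) = 1 := by rw [← e12_add, add_neg_cancel, e12_zero]
  have tT : Tr G 1 1 0 1 (e12 τ) := fun z hz => by simpa [mob] using hGT z hz
  have tT' : Tr G 1 (-1) 0 1 (e12 (-τ)) := fun z hz => by
    have := hGT (z - 1) (by simpa using hz)
    simp only [sub_add_cancel] at this
    simp only [mob, Int.cast_one, one_mul, Int.cast_neg, Int.cast_zero, zero_mul, zero_add,
      div_one, mul_one, this, ← sub_eq_add_neg]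
    linear_combination (-G (z - 1)) * hinv
  have hW : ∀ z : ℂ, 0 < z.im → 0 < (-1 / (N * z)).im := fun z hz => by
    have := im_mob_pos (a := 0) (b := -1) (c := N) (d := 0) (by simpa using hNpos) hz
    simpa [mob] using this
  have tUgen : ∀ (ε : ℤ) (σ : ZMod 12), Tr G 1 (-ε) 0 1 (e12 σ) →
      Tr G 1 0 (N * ε) 1 (e12 σ) := by
    intro ε σ ht z hz
    have hz0 : z ≠ 0 := fun h => by simp [h] at hz
    have hden := den_ne (a := 1) (b := 0) (c := N * ε) (d := 1) (by simp) hz
    have h3 := ht _ (hW z hz)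
    have h4 := hGW (-1 / (N * z) - ε) (by simpa using hW z hz)
    have h5 : mob 1 0 (N * ε) 1 z = -1 / (N * (-1 / (N * z) - ε)) := by
      simp only [mob] at hden ⊢
      push_cast at hden ⊢
      have h7 : (N : ℂ) * (-1 / (N * z) - ε) = -(N * ε * z + 1) / z := by
        field_simp
        ring
      rw [h7]
      generalize (N : ℂ) * ε * z + 1 = w at hden ⊢
      field_simp
      ring
    have h6 : mob 1 (-ε) 0 1 (-1 / (N * z)) = -1 / (N * z) - ε := by
      simp [mob, sub_eq_add_neg]
    rw [h5, h4, ← h6, h3, hGW z hz, h6]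
    have h8 : (-1 / (N * z) - ε) * z = -(N * ε * z + 1) / (N : ℂ) := by
      field_simp
      ring
    have h9 : κ ^ 2 / N = -1 := by rw [hκ]; field_simp
    push_cast
    linear_combination (e12 σ * G z * κ ^ 2) * h8 - (e12 σ * G z * (N * ε * z + 1)) * h9
  have tU : Tr G 1 0 N 1 (e12 (-τ)) := by simpa using tUgen 1 (-τ) (by simpa using tT')
  have tU' : Tr G 1 0 (-N) 1 (e12 τ) := by simpa using tUgen (-1) τ (by simpa using tT)
  refine euclid hN (fun a b c d => Tr G a b (N * c) d (e12 (Φ a b c d))) ?_ ?_ ?_ ?_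
  · intro a b c d h
    have h' := hT a b c d (by exact_mod_cast congr_arg (Int.cast : ℤ → ZMod 12) h)
    constructor
    · intro H
      have := H.comp tT (by norm_num)
      rw [← e12_add, ← h'] at this
      simpa using this
    · intro H
      have := H.comp tT' (by norm_num)
      push_cast at this
      rw [← e12_add, h', add_neg_cancel_right] at this
      simpa using this
  · intro a b c d h
    have h' := hU a b c d (by exact_mod_cast congr_arg (Int.cast : ℤ → ZMod 12) h)
    constructor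
    · intro H
      have := H.comp tU (by norm_num)
      rw [← e12_add, ← h'] at this
      push_cast
      convert this using 1 <;> ring
    · intro H
      have := H.comp tU' (by norm_num)
      push_cast at this
      rw [← e12_add, h', neg_add_cancel_right] at this
      convert this using 1 <;> ring
  · intro z _
    simp [mob, h1, e12_zero]
  · intro z _
    simp [mob, h2, e12_six]

lemma eta_add_nat (z : ℂ) (n : ℕ) : η (z + n) = cexp (2 * π * I * n / 24) * η z := by
  have h1 : Function.Periodic.qParam 1 (z + n) = Function.Periodic.qParam 1 z := by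
    simp only [Function.Periodic.qParam, ofReal_one, div_one, mul_add, Complex.exp_add]
    rw [mul_comm _ (n : ℂ), Complex.exp_nat_mul_two_pi_mul_I, mul_one]
  simp only [ModularForm.eta, eta_q, h1]
  rw [← mul_assoc]
  congr 1
  simp only [Function.Periodic.qParam, ← Complex.exp_add]
  congr 1
  push_cast
  ring

lemma eta_S {z : ℂ} (hz : 0 < z.im) : η (-1 / z) = (sqrt I)⁻¹ * (sqrt z * η z) := by
  simpa using eta_comp_eq_csqrt_I_inv hz

lemma csqrt_sq (z : ℂ) : sqrt z ^ 2 = z := by
  rw [Complex.sqrt]; exact Complex.cpow_ofNat_inv_pow z 2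

lemma csqrt_three_mul {z : ℂ} (hz : z ≠ 0) : sqrt (3 * z) = (√3 : ℝ) * sqrt z := by
  rw [sqrt_eq_exp hz, sqrt_eq_exp (mul_ne_zero (by norm_num) hz)]
  have := Complex.log_ofReal_mul (r := 3) (by norm_num) hz
  push_cast at this
  rw [this, add_div, Complex.exp_add]
  congr 1
  rw [Real.sqrt_eq_rpow, Real.rpow_def_of_pos (by norm_num)]
  push_cast
  ring_nf

/-- The square of the eta function. -/
noncomputable def eta2 (z : ℂ) : ℂ := η z ^ 2

/-- The weight one form `η(z) η(3 z)`. -/
noncomputable def eta13 (z : ℂ) : ℂ := η z * η (3 * z)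

/-- Exponent of the multiplier of `η ^ 2`. -/
def PsiE (a b c d : ZMod 12) : ZMod 12 :=
  (a + d) * c - b * d * (c * c - 1) - 3 * (c * c * c) + 3 * (1 - c * c) * (d - 1 - c * d)

/-- Exponent of the multiplier of `η(z) η(3 z)` at the matrix `(a, b; 3 c, d)`. -/
def PhiE (a b c d : ZMod 12) : ZMod 12 :=
  6 * (b + c + b * c * (1 + a + d)) + (if 4 * d = 4 then 0 else 6) + 8 * d * (b - c)

lemma eta2_S {z : ℂ} (hz : 0 < z.im) : eta2 (-1 / z) = -I * z * eta2 z := by
  rw [eta2, eta2, eta_S hz, mul_pow, mul_pow, inv_pow, csqrt_sq, csqrt_sq, inv_I]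
  ring

lemma eta13_W {z : ℂ} (hz : 0 < z.im) :
    eta13 (-1 / (3 * z)) = -I * (√3 : ℝ) * z * eta13 z := by
  have hz0 : z ≠ 0 := fun h => by simp [h] at hz
  rw [eta13, eta13, show 3 * (-1 / (3 * z)) = -1 / z by field_simp, eta_S hz,
    eta_S (z := 3 * z) (by simpa using hz), csqrt_three_mul hz0]
  have h1 : (sqrt I)⁻¹ ^ 2 = -I := by rw [inv_pow, csqrt_sq, inv_I]
  have h2 := csqrt_sq z
  linear_combination ((√3 : ℝ) * sqrt z ^ 2 * η z * η (3 * z)) * h1 +
    (-I * (√3 : ℝ) * η z * η (3 * z)) * h2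

theorem eta2_tr (a b c d : ℤ) (h : a * d - b * c = 1) :
    Tr eta2 a b c d (e12 (PsiE a b c d)) := by
  have := mult_gen (N := 1) (Or.inl rfl) eta2 1 (-I) (by simp) (fun z _ => ?_)
    (fun z hz => by simpa using eta2_S hz) PsiE (by decide +kernel) (by decide +kernel)
    (by decide) (by decide) a b c d (by simpa using h)
  · simpa using this
  · have h1 := eta_add_nat z 1
    have h2 := e12_int 1
    push_cast at h1 h2
    rw [eta2, eta2, h1, h2, mul_pow, ← Complex.exp_nat_mul]
    congr 2
    push_cast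
    ring

theorem eta13_tr (a b c d : ℤ) (h : a * d - 3 * b * c = 1) :
    Tr eta13 a b (3 * c) d (e12 (PhiE a b c d)) := by
  refine mult_gen (N := 3) (Or.inr rfl) eta13 2 (-I * (√3 : ℝ)) ?_ (fun z _ => ?_)
    (fun z hz => by simpa using eta13_W hz) PhiE (by decide +kernel) (by decide +kernel)
    (by decide) (by decide) a b c d h
  · rw [mul_pow, ← ofReal_pow, Real.sq_sqrt (by norm_num)]
    simp
  · have h1 := eta_add_nat z 1
    have h3 := eta_add_nat (3 * z) 3
    have h2 := e12_int 2
    push_cast at h1 h2 h3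
    rw [eta13, eta13, h1, h2, show 3 * (z + 1) = 3 * z + 3 by ring, h3, mul_mul_mul_comm, ← Complex.exp_add]
    congr 2
    ring

end Pool.Agent.Lib.MP_696deb_nt
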