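import Pool.Agent.Lib.MP_696deb_nt.Transport
import Pool.Agent.Shared.Weier.Leg

/-! The Weil pairing is compatible with automorphisms of the complex numbers. -/

set_option autoImplicit false

open Complex PeriodPair
open Pool.Agent.Shared.Weier
open scoped Real

namespace Pool.Agent.Lib.MP_696deb_nt.Gal

variable {L L' : PeriodPair} {s : ℂ ≃+* ℂ}

/-- A quotient of sigma functions that is a polynomial in values of the Weierstrass function. -/
noncomputable def sq (L : PeriodPair) (u z : ℂ) (n : ℕ) : ℂ :=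
  sig L (z + n * u) * sig L z ^ n * sig L u ^ n / (sig L z * sig L (z + u) ^ n * sig L u ^ n ^ 2)

lemma sq_rec {u z : ℂ} (hu : u ∉ L.lattice) (hz : ∀ j : ℕ, z + j * u ∉ L.lattice) (n : ℕ) :
    sq L u z (n + 2) =
      sq L u z (n + 1) ^ 2 * (℘[L] u - ℘[L] (z + (n + 1 : ℕ) * u)) / sq L u z n := by
  have h0 := sig_ne (by simpa using hz 0 : z ∉ L.lattice)
  have h1 := sig_ne (by simpa using hz 1 : z + u ∉ L.lattice)
  have h2 := sig_ne hu
  have h3 := sig_ne (hz n)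
  have h4 := sig_ne (hz (n + 1))
  rw [← neg_sub, wp_sub (hz _) hu, sq, sq, sq,
    show z + (n + 1 : ℕ) * u + u = z + (n + 2 : ℕ) * u by push_cast; ring,
    show z + (n + 1 : ℕ) * u - u = z + n * u by push_cast; ring]
  generalize sig L (z + (n + 1 : ℕ) * u) = x at h4
  generalize sig L (z + n * u) = y at h3
  field_simp
  ring

lemma sq_rel (h : Cj s L L') {u z u' z' : ℂ} (h1 : Rel s L L' u u') (h2 : Rel s L L' z z')
    (hu : u ∉ L.lattice) (hz : ∀ j : ℕ, z + j * u ∉ L.lattice) (n : ℕ) :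
    sq L' u' z' n = s (sq L u z n) := by
  have h3 := fun j : ℕ => h.add h2 (h.nat_mul h1 j)
  have hu' := mt h1.mem_iff.mp hu
  have hz' := fun j => mt (h3 j).mem_iff.mp (hz j)
  have e : ∀ {L : PeriodPair} {u z : ℂ}, u ∉ L.lattice → (∀ j : ℕ, z + j * u ∉ L.lattice) →
      sq L u z 0 = 1 ∧ sq L u z 1 = 1 := fun hu hz => by
    have h0 := sig_ne (by simpa using hz 0)
    have h1 := sig_ne (by simpa using hz 1)
    have h2 := sig_ne hu
    constructor <;> simp only [sq, Nat.cast_zero, Nat.cast_one] <;> field_simp <;> simp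
  induction n using Nat.twoStepInduction with
  | zero => rw [(e hu hz).1, (e hu' hz').1, map_one]
  | one => rw [(e hu hz).2, (e hu' hz').2, map_one]
  | more n a b =>
    rw [sq_rec hu hz, sq_rec hu' hz', a, b, h1.wp, (h3 _).wp, map_div₀, map_mul, map_pow, map_sub]

lemma sq_weil {u v t : ℂ} {p : ℕ} (hu : u ∉ L.lattice) (hv : v ∉ L.lattice)
    (hl : p * u ∈ L.lattice) (hm : p * v ∈ L.lattice) (h0 : t ∉ L.lattice)
    (h1 : t + u ∉ L.lattice) (h2 : t + v ∉ L.lattice) (h3 : t + v + u ∉ L.lattice) :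
    sq L u (t + v) p * sq L v t p / (sq L u t p * sq L v (t + u) p) =
      cexp (eta L (p * u) * v - eta L (p * v) * u) := by
  obtain ⟨a, ha, -, e1⟩ := sig_add hl
  obtain ⟨b, hb, -, e2⟩ := sig_add hm
  have a0 : a ≠ 0 := by rcases ha with rfl | rfl <;> simp
  have b0 : b ≠ 0 := by rcases hb with rfl | rfl <;> simp
  have := sig_ne hu
  have := sig_ne hv
  have := sig_ne h0
  have := sig_ne h1
  have := sig_ne h2
  have := sig_ne h3
  simp only [sq, e1, e2, add_right_comm t u v, mul_add, exp_add, exp_sub]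
  field_simp

lemma dvd_of_mem {a b : ℤ} {p : ℕ} (hp : p ≠ 0) (h : (a * L.ω₁ + b * L.ω₂) / p ∈ L.lattice) :
    (p : ℤ) ∣ a ∧ (p : ℤ) ∣ b := by
  obtain ⟨m, n, e⟩ := mem_lattice.mp h
  rw [eq_div_iff (by exact_mod_cast hp)] at e
  obtain ⟨h1, h2⟩ := LinearIndependent.pair_iff.mp L.indep (a - p * m) (b - p * n) (by
    simp only [real_smul]; push_cast; linear_combination -e)
  exact ⟨⟨m, by exact_mod_cast sub_eq_zero.mp h1⟩, n, by exact_mod_cast sub_eq_zero.mp h2⟩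

lemma eta_det (hL : 0 < (L.ω₁ / L.ω₂).im) {p : ℕ} (hp : p ≠ 0) (a b c d : ℤ) :
    eta L (p * ((a * L.ω₁ + b * L.ω₂) / p)) * ((c * L.ω₁ + d * L.ω₂) / p) -
      eta L (p * ((c * L.ω₁ + d * L.ω₂) / p)) * ((a * L.ω₁ + b * L.ω₂) / p) =
      -(2 * π * I) * (a * d - b * c : ℤ) / p := by
  have h0 : (p : ℂ) ≠ 0 := by exact_mod_cast hp
  rw [mul_div_cancel₀ _ h0, mul_div_cancel₀ _ h0, ← leg_eq hL, leg]
  simp only [← zsmul_eq_mul _ a, ← zsmul_eq_mul _ b, ← zsmul_eq_mul _ c, ← zsmul_eq_mul _ d,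
    map_add, map_zsmul]
  simp only [zsmul_eq_mul]
  push_cast
  ring

/-- The determinant of two torsion points changes by the cyclotomic character. -/
theorem weil (h : Cj s L L') (hL : 0 < (L.ω₁ / L.ω₂).im) (hL' : 0 < (L'.ω₁ / L'.ω₂).im) {p : ℕ}
    (hp : p.Prime) {k : ℤ} (hk : ∀ z : ℂ, z ^ p = 1 → s z = z ^ k) {a b c d a' b' c' d' : ℤ}
    (h1 : Rel s L L' ((a * L.ω₁ + b * L.ω₂) / p) ((a' * L'.ω₁ + b' * L'.ω₂) / p))
    (h2 : Rel s L L' ((c * L.ω₁ + d * L.ω₂) / p) ((c' * L'.ω₁ + d' * L'.ω₂) / p)) :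
    (p : ℤ) ∣ a' * d' - b' * c' - k * (a * d - b * c) := by
  have h0 : (p : ℂ) ≠ 0 := by exact_mod_cast hp.ne_zero
  have e1 := eta_det hL hp.ne_zero a b c d
  have e2 := eta_det hL' hp.ne_zero a' b' c' d'
  have m : ∀ (L : PeriodPair) (a b : ℤ), p * ((a * L.ω₁ + b * L.ω₂) / p) ∈ L.lattice :=
    fun L a b => by rw [mul_div_cancel₀ _ h0]; exact mem_lattice.mpr ⟨a, b, rfl⟩
  by_cases hu : (a * L.ω₁ + b * L.ω₂) / p ∈ L.lattice
  · obtain ⟨⟨_, rfl⟩, _, rfl⟩ := dvd_of_mem hp.ne_zero hu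
    obtain ⟨⟨_, rfl⟩, _, rfl⟩ := dvd_of_mem hp.ne_zero (h1.mem_iff.mpr hu)
    exact ((((dvd_mul_right _ _).mul_right _).sub ((dvd_mul_right _ _).mul_right _)).sub
      ((((dvd_mul_right _ _).mul_right _).sub ((dvd_mul_right _ _).mul_right _)).mul_left _))
  by_cases hv : (c * L.ω₁ + d * L.ω₂) / p ∈ L.lattice
  · obtain ⟨⟨_, rfl⟩, _, rfl⟩ := dvd_of_mem hp.ne_zero hv
    obtain ⟨⟨_, rfl⟩, _, rfl⟩ := dvd_of_mem hp.ne_zero (h2.mem_iff.mpr hv)
    exact ((((dvd_mul_right _ _).mul_left _).sub ((dvd_mul_right _ _).mul_left _)).sub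
      ((((dvd_mul_right _ _).mul_left _).sub ((dvd_mul_right _ _).mul_left _)).mul_left _))
  have ml := m L a b
  have mm := m L c d
  have ml' := m L' a' b'
  have mm' := m L' c' d'
  generalize (a * L.ω₁ + b * L.ω₂) / p = u at *
  generalize (c * L.ω₁ + d * L.ω₂) / p = v at *
  generalize (a' * L'.ω₁ + b' * L'.ω₂) / p = u' at *
  generalize (c' * L'.ω₁ + d' * L'.ω₂) / p = v' at *
  obtain ⟨t, ht⟩ : ∃ t : ℂ, ∀ i j : ℕ, t + i * v + j * u ∉ L.lattice := by
    refine ⟨L.ω₁ / 2 / p, fun i j hij => L.ω₁_div_two_notMem_lattice ?_⟩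
    convert sub_mem (sub_mem (L.lattice.smul_mem p hij) (L.lattice.smul_mem i mm))
      (L.lattice.smul_mem j ml) using 1
    simp only [zsmul_eq_mul]
    push_cast
    field_simp
    ring
  obtain ⟨t', h3⟩ := h.exists_rel t
  have t0 : t ∉ L.lattice := by simpa using ht 0 0
  have t1 : t + u ∉ L.lattice := by simpa using ht 0 1
  have t2 : t + v ∉ L.lattice := by simpa using ht 1 0
  have t3 : t + v + u ∉ L.lattice := by simpa using ht 1 1
  have w := sq_weil (mt h1.mem_iff.mp hu) (mt h2.mem_iff.mp hv) ml' mm' (mt h3.mem_iff.mp t0)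
    (mt (h.add h3 h1).mem_iff.mp t1) (mt (h.add h3 h2).mem_iff.mp t2)
    (mt (h.add (h.add h3 h2) h1).mem_iff.mp t3)
  rw [sq_rel h h1 (h.add h3 h2) hu fun j => by simpa using ht 1 j,
    sq_rel h h2 h3 hv fun j => by simpa using ht j 0,
    sq_rel h h1 h3 hu fun j => by simpa using ht 0 j,
    sq_rel h h2 (h.add h3 h1) hv fun j => by simpa [add_right_comm] using ht j 1,
    ← map_mul, ← map_mul, ← map_div₀, sq_weil hu hv ml mm t0 t1 t2 t3, e1, e2,
    hk _ (by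
      rw [← exp_nat_mul, mul_div_cancel₀ _ h0, exp_eq_one_iff]
      exact ⟨-(a * d - b * c), by push_cast; ring⟩), ← exp_int_mul, exp_eq_exp_iff_exists_int] at w
  obtain ⟨n, w⟩ := w
  refine ⟨n, Int.cast_injective (α := ℂ) (mul_left_cancel₀ two_pi_I_ne_zero ?_)⟩
  field_simp at w
  push_cast at w ⊢
  linear_combination (2 * π * I) * w

end Pool.Agent.Lib.MP_696deb_nt.Gal
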