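import Pool.Agent.Lib.MP_696deb_nt.KleinKl
import Pool.Agent.Lib.MP_696deb_nt.AnForms
import Pool.Agent.Lib.MP_696deb_nt.Weil

/-! The action of the automorphisms of the complex numbers on the modular curves of level
fifteen. -/

set_option autoImplicit false

open Complex PeriodPair WeierstrassCurve
open Pool.Agent.Shared.Weier

namespace Pool.Agent.Lib.MP_696deb_nt.Gal

open Unif

variable {σ : ℂ ≃+* ℂ} {L L' M : PeriodPair} {t t' s c τ τ' : ℂ}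

section curve

variable {W : WeierstrassCurve ℚ} (h : IsPer L (W.baseChange ℂ))
include h

lemma cj_self (σ : ℂ ≃+* ℂ) : Cj σ L L := by
  have h4 : L.g₂ = (W.c₄ : ℂ) / 12 := by
    rw [eq_div_iff (by norm_num), mul_comm, ← h.h4, baseChange, map_c₄]; rfl
  have h6 : L.g₃ = (W.c₆ : ℂ) / 216 := by
    rw [eq_div_iff (by norm_num), mul_comm, ← h.h6, baseChange, map_c₆]; rfl
  exact ⟨by simp [h4, map_ofNat], by simp [h6, map_ofNat]⟩

lemma rel_iff_pmap {z z' : ℂ} :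
    Rel σ L L z z' ↔ pmap (W := W) (σ : ℂ →+* ℂ) (h.unif z) = h.unif z' := by
  by_cases hz : z ∈ L.lattice
  · rw [h.unif_eq_zero_iff.mpr hz, map_zero, eq_comm, h.unif_eq_zero_iff]
    exact ⟨fun h => h.mem_iff.mpr hz, fun h => .inl ⟨hz, h⟩⟩
  rw [h.unif_of_notMem hz, eq_comm]
  refine Iff.trans ?_ (h.unif_eq_some_iff _).symm
  change _ ↔ _ ∧ _ = σ _ ∧ _ = σ _
  simp only [ux, uy, baseChange, map_b₂, map_a₁, map_a₃, map_sub, map_div₀, map_mul, map_ofNat,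
    eq_ratCast, map_ratCast]
  constructor
  · intro h
    rw [h.wp, h.wp']
    exact ⟨mt h.mem_iff.mp hz, rfl, rfl⟩
  · rintro ⟨h0, h1, h2⟩
    have h3 : ℘[L] z' = σ (℘[L] z) := by linear_combination h1
    exact .inr ⟨hz, h0, h3, by rw [h3] at h2; linear_combination 2 * h2⟩

end curve

lemma kpt_of {f : ℂ →+* ℂ} (hx : kx L' t' = f (kx L t)) (hy : ky L' t' = f (ky L t)) :
    pmap f (kpt L t) = kpt L' t' := by
  have : (W1.baseChange ℂ).toAffine.Nonsingular (kx L' t') (ky L' t') ↔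
      (W1.baseChange ℂ).toAffine.Nonsingular (kx L t) (ky L t) := by
    rw [W1_nonsingular, W1_nonsingular, hx, hy]
    simp only [← map_pow, ← map_mul, ← map_add, f.injective.eq_iff]
  unfold kpt
  split_ifs with h1 h2 h2
  · exact IsPer.some_congr hx.symm hy.symm
  · exact absurd (this.mpr h1) h2
  · exact absurd (this.mp h2) h1
  · rfl

/-- The pair `(L', t')` is, up to homothety, the conjugate of the pair `(L, t)`. -/
def Pr (σ : ℂ ≃+* ℂ) (L : PeriodPair) (t : ℂ) (L' : PeriodPair) (t' : ℂ) : Prop :=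
  ∃ c M, Sc c L' M ∧ Cj σ L M ∧ Rel σ L M t (c * t')

lemma Pr.kpt_eq (h : Pr σ L t L' t') : pmap (σ : ℂ →+* ℂ) (kpt L t) = kpt L' t' := by
  obtain ⟨c, M, h1, h2, h3⟩ := h
  have key : ∀ k : ℕ, σ (℘[L] (k * t)) = c⁻¹ ^ 2 * ℘[L'] (k * t') := fun k => by
    rw [← (h2.nat_mul h3 k).wp, mul_left_comm, h1.wp]
  have h0 := pow_ne_zero 2 (inv_ne_zero h1.ne)
  have k1 := key 1
  have k2 := key 2
  have k3 := key 3
  have k4 := key 4
  have k6 := key 6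
  have k7 := key 7
  simp only [Nat.cast_ofNat, Nat.cast_one, one_mul] at k1 k2 k3 k4 k6 k7
  refine kpt_of ?_ ?_
  · simp only [kx, RingHom.coe_coe, map_div₀, map_neg, map_mul, map_sub, k1, k2, k4, k6, ← mul_sub]
    rw [← mul_div_mul_left _ _ (mul_ne_zero h0 h0)]
    congr 1 <;> ring
  · simp only [ky, RingHom.coe_coe, map_div₀, map_sub, k3, k6, k7, ← mul_sub]
    rw [mul_div_mul_left _ _ h0]

lemma exists_pr (σ : ℂ ≃+* ℂ) (L : PeriodPair) (t : ℂ) :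
    ∃ M s, Cj σ L M ∧ Rel σ L M t s := by
  obtain ⟨M, h⟩ := exists_cj σ L
  obtain ⟨s, h'⟩ := h.exists_rel t
  exact ⟨M, s, h, h'⟩

lemma Pr.int_mul (h : Pr σ L t L' t') (k : ℤ) : Pr σ L (k * t) L' (k * t') := by
  obtain ⟨c, M, h1, h2, h3⟩ := h
  exact ⟨c, M, h1, h2, by rw [mul_left_comm]; exact h2.int_mul h3 k⟩

lemma Pr.of_sc (h : Pr σ L t L' t') (h1 : Sc c M L') (h2 : c * s - t' ∈ L'.lattice) :
    Pr σ L t M s := by
  obtain ⟨d, N, k1, k2, k3⟩ := h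
  exact ⟨d * c, N, h1.trans k1, k2, k3.congr (by simp) (by
    rw [mul_assoc, ← mul_sub, k1.mem]; exact h2)⟩

lemma pr_refl (L : PeriodPair) (t : ℂ) : Pr (RingEquiv.refl ℂ) L t L t :=
  ⟨1, L, sc_one rfl, ⟨rfl, rfl⟩, by rw [one_mul]; exact Rel.mk' Iff.rfl rfl rfl⟩

lemma pmap_refl {W : WeierstrassCurve ℚ} (P : Pt W ℂ) :
    pmap (RingEquiv.refl ℂ : ℂ →+* ℂ) P = P := by cases P <;> rfl

lemma kpt_sc (h1 : Sc c M L) (h2 : c * s - t ∈ L.lattice) : kpt M s = kpt L t := by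
  rw [← ((pr_refl L t).of_sc h1 h2).kpt_eq, pmap_refl]

lemma sc_of_basis (hc : c ≠ 0) {a b a' b' e : ℤ} (h : e * (a * b' - b * a') = 1)
    (h1 : c * M.ω₁ = a * L.ω₁ + b * L.ω₂) (h2 : c * M.ω₂ = a' * L.ω₁ + b' * L.ω₂) : Sc c M L := by
  have h' : (e : ℂ) * (a * b' - b * a') = 1 := by exact_mod_cast h
  refine ⟨hc, fun z => ?_⟩
  simp only [mem_lattice]
  constructor
  · rintro ⟨m, n, k⟩
    refine ⟨e * (m * b' - n * a'), e * (n * a - m * b), mul_left_cancel₀ hc ?_⟩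
    push_cast
    linear_combination k + (e * (m * b' - n * a')) * h1 + e * (n * a - m * b) * h2 +
      (m * L.ω₁ + n * L.ω₂) * h'
  · rintro ⟨m, n, rfl⟩
    exact ⟨m * a + n * a', m * b + n * b', by push_cast; linear_combination -m * h1 - n * h2⟩

lemma sc_mob {a b c d : ℤ} (h : a * d - b * (15 * c) = 1) (hτ : 0 < τ.im) :
    Sc (15 * c * τ + d) (lat15 (mob a b (15 * c) d τ)) (lat15 τ) ∧
      (15 * c * τ + d) * mob a b (15 * c) d τ - a * τ ∈ (lat15 τ).lattice := by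
  have hj : (15 * c * τ + d : ℂ) ≠ 0 := by simpa using den_ne (by omega : a * d - b * (15 * c) ≠ 0) hτ
  have e : (15 * c * τ + d) * mob a b (15 * c) d τ = a * τ + b := by
    rw [mob]; push_cast; field_simp
  refine ⟨sc_of_basis hj (a := a) (b := 15 * b) (a' := c) (b' := d) (e := 1) (by linear_combination h)
    ?_ ?_, (mem_lat15 hτ).mpr ⟨0, b, by rw [e]; simp⟩⟩
  · rw [lat15_ω₁ (im_mob_pos (by omega) hτ), lat15_ω₁ hτ, lat15_ω₂]
    push_cast at e ⊢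
    linear_combination 15 * e
  · rw [lat15_ω₂, lat15_ω₁ hτ, lat15_ω₂]; ring

/-- Points of order fifteen. -/
def Ord (L : PeriodPair) (t : ℂ) : Prop := ∀ k : ℤ, k * t ∈ L.lattice ↔ 15 ∣ k

lemma ord_lat (hτ : 0 < τ.im) : Ord (lat15 τ) τ := fun k => by
  rw [mem_lat15 hτ]
  refine ⟨fun ⟨m, n, h⟩ => ⟨m, ?_⟩, fun ⟨m, h⟩ => ⟨m, 0, by rw [h]; push_cast; ring⟩⟩
  have := congr_arg Complex.im h
  simp only [mul_im, intCast_re, intCast_im, zero_mul, add_zero, add_im, re_ofNat, im_ofNat] at this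
  exact_mod_cast mul_right_cancel₀ hτ.ne' (this.trans (by ring) : (k : ℝ) * τ.im = 15 * m * τ.im)

lemma Ord.int_mul (h : Ord L t) {a : ℤ} (ha : IsCoprime a 15) : Ord L (a * t) := fun k => by
  rw [← mul_assoc, ← Int.cast_mul, h]
  exact ⟨ha.symm.dvd_of_dvd_mul_right, fun h => h.mul_right _⟩

lemma Ord.exists_sc (h : Ord L t) :
    ∃ τ c : ℂ, 0 < τ.im ∧ Sc c (lat15 τ) L ∧ c * τ - t ∈ L.lattice := by
  obtain ⟨m, n, e⟩ := mem_lattice.mp ((h 15).mpr dvd_rfl)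
  have hg : 0 < Int.gcd m n := Int.gcd_pos_iff.mpr (by
    by_contra! hc
    have h0 : t = 0 := by simpa [hc.1, hc.2] using e
    simpa [h0] using h 1)
  obtain ⟨g, m, n, -, hc, rfl, rfl⟩ := Int.exists_gcd_one' hg
  obtain ⟨x, y, hxy⟩ := Int.isCoprime_iff_gcd_eq_one.mpr hc
  have key : ∀ p q : ℤ, p * q = 15 → p ∣ g → 15 ∣ q := by
    rintro p q hpq ⟨k, hk⟩
    have hp : (p : ℂ) ≠ 0 := by rintro hp; obtain rfl : p = 0 := by exact_mod_cast hp
                                omega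
    refine (h q).mp (mem_lattice.mpr ⟨m * k, n * k, mul_left_cancel₀ hp ?_⟩)
    rw [← mul_assoc, ← Int.cast_mul, hpq, ← e, hk]
    push_cast
    ring
  have hg : IsCoprime (g : ℤ) 15 := IsCoprime.mul_right (y := 3) (z := 5)
    (Int.prime_three.coprime_iff_not_dvd.mpr fun k => by simpa using key 3 5 rfl k).symm
    ((Int.prime_iff_natAbs_prime.mpr (by norm_num) : Prime (5 : ℤ)).coprime_iff_not_dvd.mpr
      fun k => by simpa using key 5 3 rfl k).symm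
  obtain ⟨d, b, hd⟩ := hg
  have hxy' : (x : ℝ) * m + y * n = 1 := by exact_mod_cast hxy
  have k0 : ∀ r s : ℝ, r * (m * L.ω₁ + n * L.ω₂) + s * (-y * L.ω₁ + x * L.ω₂) = 0 → r = 0 :=
    fun r s k => by
      have := LinearIndependent.pair_iff.mp L.indep (r * m - s * y) (r * n + s * x) (by
        simp only [real_smul]; push_cast; linear_combination k)
      linear_combination x * this.1 + y * this.2 - r * hxy'
  have main : ∀ ε : ℤ, ε * ε = 1 → ∀ ω : ℂ, ω = ε * (-y * L.ω₁ + x * L.ω₂) →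
      0 < ((m * L.ω₁ + n * L.ω₂) / (15 * ω)).im →
      ∃ τ c : ℂ, 0 < τ.im ∧ Sc c (lat15 τ) L ∧ c * τ - t ∈ L.lattice := fun ε hε ω hω h0 => by
    have h1 : ω ≠ 0 := by rintro rfl; simp at h0
    have h2 : Sc ω (lat15 ((m * L.ω₁ + n * L.ω₂) / (15 * ω))) L :=
      sc_of_basis h1 (a := m) (b := n) (a' := -(ε * y)) (b' := ε * x) (e := ε)
        (by linear_combination (x * m + y * n) * hε + hxy) (by rw [lat15_ω₁ h0]; field_simp)
        (by rw [lat15_ω₂, hω]; push_cast; ring)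
    obtain ⟨h3, h4⟩ := sc_mob (a := g) (b := -b) (c := 1) (d := d) (by linear_combination hd) h0
    refine ⟨_, _, im_mob_pos (by linarith) h0, h3.trans h2, ?_⟩
    convert (h2.mem _).mpr h4 using 1
    rw [mul_sub, mul_assoc, sub_right_inj]
    field_simp
    push_cast at e ⊢
    linear_combination -e
  rcases lt_trichotomy 0 ((m * L.ω₁ + n * L.ω₂) / (15 * (-y * L.ω₁ + x * L.ω₂))).im with k | k | k
  · exact main 1 rfl _ (by simp) k
  · set ω := -y * L.ω₁ + x * L.ω₂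
    by_cases h1 : ω = 0
    · have := LinearIndependent.pair_iff.mp L.indep (-y) x (by simpa [ω] using h1)
      exact absurd hxy' (by simp [this.2, neg_eq_zero.mp this.1])
    obtain ⟨r, hr⟩ : ∃ r : ℝ, (r : ℂ) = (m * L.ω₁ + n * L.ω₂) / (15 * ω) :=
      ⟨_, Complex.ext rfl (by simpa using k)⟩
    rw [eq_div_iff (by simpa using h1)] at hr
    exact absurd (k0 1 (-(15 * r)) (by push_cast; linear_combination -hr)) one_ne_zero
  · exact main (-1) rfl (-(-y * L.ω₁ + x * L.ω₂)) (by simp) (by rw [mul_neg, div_neg, neg_im]; linarith)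

/-- The conjugate of a point of the modular curve. -/
lemma exists_pr_lat (σ : ℂ ≃+* ℂ) (hτ : 0 < τ.im) :
    ∃ τ' : ℂ, 0 < τ'.im ∧ Pr σ (lat15 τ) τ (lat15 τ') τ' := by
  obtain ⟨M, s, h1, h2⟩ := exists_pr σ (lat15 τ) τ
  obtain ⟨τ', c, k1, k2, k3⟩ := Ord.exists_sc (L := M) (t := s) fun k => by
    rw [(h1.int_mul h2 k).mem_iff, ord_lat hτ]
  exact ⟨τ', k1, c, M, k2, h1, h2.congr (by simp) k3⟩

lemma exists_gamma {a : ℤ} (ha : IsCoprime a 15) : ∃ b d : ℤ, a * d - b * (15 * 1) = 1 := by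
  obtain ⟨d, b, h⟩ := ha
  exact ⟨-b, d, by linear_combination h⟩

lemma coprime_of_gamma {a b c d : ℤ} (h : a * d - b * (15 * c) = 1) : IsCoprime a 15 :=
  ⟨d, -(b * c), by linear_combination h⟩

/-- The translation induced by a diamond operator. -/
noncomputable def dk (a : ℤ) : Pt W1 ℂ := kpt (lat15 I) (a * I) - kpt (lat15 I) I

section
variable {e : ℤ} (he : ∀ τ : ℂ, 0 < τ.im → kpt (lat15 τ) τ = u1 (e * Fi τ))
include he

lemma kpt_mul_lat {a b c d : ℤ} (h : a * d - b * (15 * c) = 1) (hτ : 0 < τ.im) :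
    kpt (lat15 τ) (a * τ) = kpt (lat15 τ) τ + u1 (e * ms a (15 * c)) := by
  rw [← kpt_sc (sc_mob h hτ).1 (sc_mob h hτ).2, he _ (im_mob_pos (by omega) hτ), Fi_Gamma0 h hτ,
    he _ hτ, mul_add, map_add]

lemma dk_eq {a b c d : ℤ} (h : a * d - b * (15 * c) = 1) : dk a = u1 (e * ms a (15 * c)) := by
  rw [dk, kpt_mul_lat he h (by simp), add_sub_cancel_left]

lemma Ord.kpt_mul (h : Ord L t) {a : ℤ} (ha : IsCoprime a 15) : kpt L (a * t) = kpt L t + dk a := by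
  obtain ⟨τ, c, h1, h2, h3⟩ := h.exists_sc
  obtain ⟨b, d, hd⟩ := exists_gamma ha
  rw [← kpt_sc h2 h3, ← kpt_sc (s := a * τ) h2 (by
    rw [mul_left_comm, ← mul_sub, ← zsmul_eq_mul]; exact zsmul_mem h3 a), kpt_mul_lat he hd h1,
    dk_eq he hd]

lemma pmap_dk (σ : ℂ ≃+* ℂ) {a : ℤ} (ha : IsCoprime a 15) : pmap (σ : ℂ →+* ℂ) (dk a) = dk a := by
  obtain ⟨τ, h1, h2⟩ := exists_pr_lat σ (τ := I) (by simp)
  rw [dk, map_sub, h2.kpt_eq, (h2.int_mul a).kpt_eq, (ord_lat h1).kpt_mul he ha,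
    add_sub_cancel_left, dk]

lemma four_dk {a : ℤ} (ha : IsCoprime a 15) (h : 15 ∣ a ^ 4 - 1) : 4 • dk a = 0 := by
  have h0 := ord_lat (τ := I) (by simp)
  have h1 := kpt_sc (s := a * (a * (a * (a * I)))) (t := I) (sc_one (L := lat15 I) rfl) (by
    convert (h0 _).mpr h using 1; push_cast; ring)
  rw [(((h0.int_mul ha).int_mul ha).int_mul ha).kpt_mul he ha,
    ((h0.int_mul ha).int_mul ha).kpt_mul he ha, (h0.int_mul ha).kpt_mul he ha, h0.kpt_mul he ha,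
    add_assoc, add_assoc, add_assoc, add_eq_left] at h1
  rw [← h1]; abel

end

lemma u1_sign {e : ℤ} (he : e = 1 ∨ e = -1) (z : ℂ) : u1 z = e • u1 (e * z) := by
  rcases he with rfl | rfl <;> simp

theorem u1_L15 {z : ℂ} (hz : z ∈ L15.lattice) :
    4 • u1 z = 0 ∧ ∀ σ : ℂ ≃+* ℂ, pmap (σ : ℂ →+* ℂ) (u1 z) = u1 z := by
  obtain ⟨e, h1, he⟩ := kl.eq
  obtain ⟨m, n, rfl⟩ := mem_L15.mp hz
  have k1 := dk_eq he (a := 7) (b := -1) (c := 1) (d := -2) (by norm_num)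
  have k2 := dk_eq he (a := 11) (b := -3) (c := 1) (d := -4) (by norm_num)
  have c1 : IsCoprime (7 : ℤ) 15 := by norm_num
  have c2 : IsCoprime (11 : ℤ) 15 := by norm_num
  rw [mul_one] at k1 k2
  rw [map_add, ← zsmul_eq_mul, ← zsmul_eq_mul, map_zsmul, map_zsmul, u1_sign h1 wp,
    u1_sign h1 (wm * I), ← ms_gp, ← ms_gm, ← k1, ← k2]
  refine ⟨?_, fun σ => by simp only [map_add, map_zsmul, pmap_dk he σ c1, pmap_dk he σ c2]⟩
  simp only [smul_add, smul_comm (4 : ℕ), four_dk he c1 (by norm_num), four_dk he c2 (by norm_num),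
    smul_zero, add_zero]

theorem tors_u1 (z : ℂ) :
    IsOfFinAddOrder (u1 z) ↔ ∃ M : ℕ, 0 < M ∧ (M : ℂ) * z ∈ L15.lattice := by
  rw [isOfFinAddOrder_iff_nsmul_eq_zero]
  constructor
  · rintro ⟨M, h0, h⟩
    exact ⟨M, h0, kl.le (isPer1.unif_eq_zero_iff.mp (by rw [← nsmul_eq_mul, map_nsmul]; exact h))⟩
  · rintro ⟨M, h0, h⟩
    refine ⟨4 * M, by omega, ?_⟩
    rw [mul_smul, ← map_nsmul, nsmul_eq_mul, (u1_L15 h).1]

lemma pmap_u15 {z z' : ℂ} (h : pmap (σ : ℂ →+* ℂ) (u1 z) = u1 z') :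
    pmap (σ : ℂ →+* ℂ) (u15 z) = u15 z' :=
  (rel_iff_pmap isPer15).mp (((rel_iff_pmap isPer1).mpr h).of_le (cj_self isPer1 σ)
    (cj_self isPer15 σ) kl.le)

lemma Pr.u1_eq (hτ : 0 < τ.im) (hτ' : 0 < τ'.im) {a : ℤ}
    (h : Pr σ (lat15 τ) (a * τ) (lat15 τ') τ') {b d : ℤ} (hd : a * d - b * (15 * 1) = 1) :
    pmap (σ : ℂ →+* ℂ) (u1 (Fi τ)) + u1 (ms a 15) = u1 (Fi τ') := by
  obtain ⟨e, h1, he⟩ := kl.eq
  have := h.kpt_eq
  rw [kpt_mul_lat he hd hτ, he _ hτ, he _ hτ', mul_one, map_add] at this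
  rw [u1_sign h1 (Fi τ'), ← this, smul_add, ← map_zsmul (pmap (σ : ℂ →+* ℂ)),
    ← map_zsmul (pmap (σ : ℂ →+* ℂ)), ← u1_sign h1, ← u1_sign h1, (u1_L15 (z := ms a 15) (by simpa using ms_mem hd)).2]

lemma Pr.pt_eq (hτ : 0 < τ.im) (hτ' : 0 < τ'.im) {a : ℤ} (ha : IsCoprime a 15)
    (h : Pr σ (lat15 τ) (a * τ) (lat15 τ') τ') : pmap (σ : ℂ →+* ℂ) (pt τ) = pt τ' := by
  obtain ⟨b, d, hd⟩ := exists_gamma ha
  have h1 : ms a 15 ∈ L15.lattice := by simpa using ms_mem hd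
  have := h.u1_eq hτ hτ' hd
  rw [← (u1_L15 h1).2 σ, ← map_add, ← map_add] at this
  rw [pt_eq_u15 hτ, pt_eq_u15 hτ', ← pmap_u15 this, map_add, u15_eq_zero_iff.mpr h1, add_zero]

/-- Conjugates of points of the modular curve. -/
theorem exists_pt (σ : ℂ ≃+* ℂ) (hτ : 0 < τ.im) :
    ∃ τ' : ℂ, 0 < τ'.im ∧ pmap (σ : ℂ →+* ℂ) (pt τ) = pt τ' := by
  obtain ⟨τ', h1, h2⟩ := exists_pr_lat σ hτ
  exact ⟨τ', h1, Pr.pt_eq hτ h1 (a := 1) isCoprime_one_left (by simpa using h2)⟩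

theorem exists_pr_of_pt (hτ : 0 < τ.im) (hτ' : 0 < τ'.im)
    (h : pmap (σ : ℂ →+* ℂ) (pt τ) = pt τ') :
    ∃ a : ℤ, IsCoprime a 15 ∧ Pr σ (lat15 τ) (a * τ) (lat15 τ') τ' := by
  obtain ⟨w, h1, h2⟩ := exists_pr_lat σ hτ
  obtain ⟨a, b, c, d, hd, rfl⟩ := (pt_eq_iff h1 hτ').mp
    ((Pr.pt_eq hτ h1 (a := 1) isCoprime_one_left (by simpa using h2)).symm.trans h)
  exact ⟨a, coprime_of_gamma hd, (h2.int_mul a).of_sc (sc_mob hd h1).1 (sc_mob hd h1).2⟩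

theorem u1_of_pt (hτ : 0 < τ.im) (hτ' : 0 < τ'.im)
    (h : pmap (σ : ℂ →+* ℂ) (pt τ) = pt τ') :
    ∃ z ∈ L15.lattice, pmap (σ : ℂ →+* ℂ) (u1 (Fi τ)) + u1 z = u1 (Fi τ') := by
  obtain ⟨a, ha, h1⟩ := exists_pr_of_pt hτ hτ' h
  obtain ⟨b, d, hd⟩ := exists_gamma ha
  exact ⟨_, by simpa using ms_mem hd, h1.u1_eq hτ hτ' hd⟩

/-- The square root of a negative discriminant. -/
noncomputable def del (D : ℤ) : ℂ := √(-D : ℝ) * I

/-- The generator of the quadratic order that kills the level structure. -/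
noncomputable def alp (D r : ℤ) : ℂ := (r + del D) / 2

variable {D r ε : ℤ} {Q Q' : Fm}

lemma del_sq (hD : D < 0) : del D ^ 2 = D := by
  rw [del, mul_pow, I_sq, ← ofReal_pow, Real.sq_sqrt (by exact_mod_cast (neg_pos.2 hD).le)]
  simp

lemma im_del (hD : D < 0) : 0 < (del D).im := by
  simpa [del] using hD

lemma alp_ne (hD : D < 0) : alp D r ≠ 0 := fun h => by
  have := congr_arg Complex.im (eq_neg_of_add_eq_zero_right (div_eq_zero_iff.mp h |>.resolve_right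
    two_ne_zero))
  simp [(im_del hD).ne'] at this

lemma map_del (σ : ℂ ≃+* ℂ) (hD : D < 0) : ∃ ε : ℤ, (ε = 1 ∨ ε = -1) ∧ σ (del D) = ε * del D := by
  rcases sq_eq_sq_iff_eq_or_eq_neg.mp (show σ (del D) ^ 2 = del D ^ 2 by
    rw [← map_pow, del_sq hD, map_intCast]) with h | h
  · exact ⟨1, .inl rfl, by simpa using h⟩
  · exact ⟨-1, .inr rfl, by simpa using h⟩

lemma map_alp (hε : ε = 1 ∨ ε = -1) (h : σ (del D) = ε * del D) :
    σ (alp D r) = ε * alp D (ε * r) := by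
  rw [alp, alp, map_div₀, map_add, h, map_intCast, map_ofNat]
  rcases hε with rfl | rfl <;> push_cast <;> ring

lemma _root_.Pool.Agent.Lib.MP_696deb_nt.IsHg.im_pos (h : IsHg D r Q) (hD : D < 0) :
    0 < (froot Q).im := im_froot_pos (h.disc ▸ hD) h.pos

lemma _root_.Pool.Agent.Lib.MP_696deb_nt.IsHg.alp (h : IsHg D r Q) (hD : D < 0) :
    ∃ a k : ℤ, Q.1 = 15 * a ∧ Q.2.1 = r + 30 * k ∧ alp D r = a * (15 * froot Q) + (r + 15 * k : ℤ) ∧
      alp D r * froot Q = (-k : ℤ) * (15 * froot Q) + (-Q.2.2 : ℤ) := by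
  obtain ⟨a, ha⟩ := h.lev
  obtain ⟨k, hk⟩ := h.res
  have h0 : (Q.1 : ℂ) ≠ 0 := by exact_mod_cast h.pos.ne'
  have h1 := froot_root (h.disc ▸ hD) h.pos
  have h2 : 2 * Q.1 * froot Q = -Q.2.1 + del D := by rw [froot, h.disc, del]; field_simp
  have hb : Q.2.1 = r + 30 * k := by omega
  rw [ha, hb] at h1 h2
  push_cast at h1 h2 ⊢
  refine ⟨a, k, ha, hb, ?_, ?_⟩ <;> rw [Gal.alp]
  · linear_combination -h2 / 2
  · linear_combination h1 - froot Q * h2 / 2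

lemma mul_mem_lat (hτ : 0 < τ.im) {α : ℂ} (h1 : α ∈ (lat15 τ).lattice)
    (h2 : α * τ ∈ (lat15 τ).lattice) : ∀ z ∈ (lat15 τ).lattice, α * z ∈ (lat15 τ).lattice := by
  intro z hz
  obtain ⟨m, n, rfl⟩ := (mem_lat15 hτ).mp hz
  convert add_mem (zsmul_mem h2 (15 * m)) (zsmul_mem h1 n) using 1
  simp only [zsmul_eq_mul]; push_cast; ring

lemma exists_hg (hD : D < 0) (hτ : 0 < τ.im) (h1 : alp D r ∈ (lat15 τ).lattice)
    (h2 : alp D r * τ ∈ (lat15 τ).lattice) : ∃ Q, IsHg D r Q ∧ τ = froot Q := by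
  obtain ⟨a, m, h1⟩ := (mem_lat15 hτ).mp h1
  obtain ⟨k, c, h2⟩ := (mem_lat15 hτ).mp h2
  have h3 := del_sq hD
  have h4 := im_del hD
  have h5 : ((r - 2 * m) ^ 2 + D + 2 * (m - 15 * k) * (r - 2 * m) - 60 * a * c : ℤ) +
      (2 * (r - m - 15 * k) : ℤ) * del D = 0 := by
    rw [alp] at h1 h2
    push_cast
    linear_combination 60 * a * h2 - h3 + (4 * (m - 15 * k) + 2 * (r - 2 * m + del D)) * h1
  have h6 : (2 * (r - m - 15 * k) : ℤ) = 0 := by
    have := congr_arg Complex.im h5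
    simp only [add_im, mul_im, intCast_im, intCast_re, zero_mul, add_zero, zero_add, zero_im] at this
    exact_mod_cast (mul_eq_zero.mp this).resolve_right h4.ne'
  rw [h6, Int.cast_zero, zero_mul, add_zero, Int.cast_eq_zero] at h5
  have ha : 0 < a := by
    have := congr_arg Complex.im h1
    simp only [alp, add_im, mul_im, intCast_im, intCast_re, div_ofNat_im, re_ofNat, im_ofNat] at this
    exact_mod_cast (mul_pos_iff_of_pos_right hτ).mp (by linarith : 0 < (a : ℝ) * τ.im)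
  have hQ : IsHg D r (15 * a, m - 15 * k, -c) :=
    ⟨by
      obtain rfl : r = m + 15 * k := by omega
      simp only [fdisc]; linear_combination -h5, by positivity, dvd_mul_right _ _,
      ⟨-k, by dsimp only; omega⟩⟩
  refine ⟨_, hQ, eq_froot (hQ.disc ▸ hD) hQ.pos hτ ?_⟩
  push_cast
  linear_combination h2 - τ * h1

lemma _root_.Pool.Agent.Lib.MP_696deb_nt.IsHg.mul_mem (h : IsHg D r Q) (hD : D < 0) :
    alp D r * froot Q ∈ (lat15 (froot Q)).lattice ∧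
      ∀ z ∈ (lat15 (froot Q)).lattice, alp D r * z ∈ (lat15 (froot Q)).lattice := by
  obtain ⟨a, k, -, -, h1, h2⟩ := h.alp hD
  have := (mem_lat15 (h.im_pos hD)).mpr ⟨_, _, h2⟩
  exact ⟨this, mul_mem_lat (h.im_pos hD) ((mem_lat15 (h.im_pos hD)).mpr ⟨_, _, h1⟩) this⟩

/-- Conjugates of Heegner points are Heegner points. -/
theorem exists_hg_of_pt (hD : D < 0) (hQ : IsHg D r Q) (hε : ε = 1 ∨ ε = -1)
    (hσ : σ (del D) = ε * del D) (hτ : 0 < τ.im) (h : pmap (σ : ℂ →+* ℂ) (pt (froot Q)) = pt τ) :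
    ∃ Q', IsHg D (ε * r) Q' ∧ τ = froot Q' := by
  obtain ⟨a, -, c, M, h1, h2, h3⟩ := exists_pr_of_pt (hQ.im_pos hD) hτ h
  obtain ⟨k1, k2⟩ := hQ.mul_mem hD
  have key : ∀ z, σ (alp D r) * (c * z) ∈ M.lattice → alp D (ε * r) * z ∈ (lat15 τ).lattice :=
    fun z hz => by
      rw [mul_left_comm, h1.mem, map_alp hε hσ] at hz
      rcases hε with rfl | rfl <;> simpa using hz
  refine exists_hg hD hτ (mul_one (alp D (ε * r)) ▸ key 1 (h2.isog_mem h2 (alp_ne hD) k2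
    ((h1.mem _).mpr ((mem_lat15 hτ).mpr ⟨0, 1, by simp⟩))))
    (key τ ((h3.isog h2 h2 (alp_ne hD) k2).mem_iff.mpr ?_))
  rw [mul_left_comm, ← zsmul_eq_mul]
  exact zsmul_mem k1 a

theorem gal_form (hD : D < 0) (hQ : IsHg D r Q) (hε : ε = 1 ∨ ε = -1)
    (hσ : σ (del D) = ε * del D) :
    ∃ Q', IsHg D (ε * r) Q' ∧ pmap (σ : ℂ →+* ℂ) (pt (froot Q)) = pt (froot Q') := by
  obtain ⟨τ, h1, h2⟩ := exists_pt σ (hQ.im_pos hD)
  obtain ⟨Q', h3, rfl⟩ := exists_hg_of_pt hD hQ hε hσ h1 h2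
  exact ⟨Q', h3, h2⟩

lemma Cj.congr (h : Cj σ L L') (e : L'.lattice = M.lattice) : Cj σ L M :=
  h.of_sc (sc_one rfl) (by simpa using sc_one e)

lemma Rel.congr_lat (h : Rel σ L L' t t') (e : L'.lattice = M.lattice) : Rel σ L M t t' := by
  simpa using h.of_sc (sc_one rfl) (M' := M) (by simpa using sc_one e)

lemma Sc.lattice_eq (h : Sc c L L') (h' : Sc c L M) : L'.lattice = M.lattice :=
  Submodule.ext fun z => by rw [← h.symm.mem, h'.symm.mem]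

/-- The values of the conjugate form. -/
theorem gal_val (hD : D < 0) (hQ : IsHg D r Q) (hε : ε = 1 ∨ ε = -1)
    (hσ : σ (del D) = ε * del D) (hQ' : IsHg D (ε * r) Q')
    (h : pmap (σ : ℂ →+* ℂ) (pt (froot Q)) = pt (froot Q')) {p : ℕ} (hp : p.Prime) {κ : ℤ}
    (hκ : ∀ ζ : ℂ, ζ ^ p = 1 → σ ζ = ζ ^ κ) (x y : ℤ) :
    ∃ x' y', (p : ℤ) ∣ fval Q' x' (15 * y') - ε * κ * fval Q x (15 * y) := by
  have i1 := hQ.im_pos hD
  have i2 := hQ'.im_pos hD
  obtain ⟨-, -, c, M, h1, h2, -⟩ := exists_pr_of_pt i1 i2 h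
  replace h2 := h2.congr (h1.lattice_eq (sc_scale _ h1.ne))
  have p0 : (p : ℂ) ≠ 0 := by exact_mod_cast hp.ne_zero
  obtain ⟨u, hu⟩ := h2.exists_rel (((-y : ℤ) * (lat15 (froot Q)).ω₁ + x * (lat15 (froot Q)).ω₂) / p)
  obtain ⟨m, n, e⟩ := mem_lattice.mp ((h2.nat_mul hu p).mem_iff.mpr (by
    rw [mul_div_cancel₀ _ p0]; exact mem_lattice.mpr ⟨_, _, rfl⟩))
  obtain rfl := (eq_div_iff p0).mpr ((mul_comm _ _).trans e.symm)
  obtain ⟨a, k, a1, a2, a3, a4⟩ := hQ.alp hD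
  obtain ⟨a', k', b1, b2, b3, b4⟩ := hQ'.alp hD
  have := weil h2 (by simpa [lat15_ω₁ i1, lat15_ω₂] using i1)
    (by simpa [scale, lat15_ω₁ i2, lat15_ω₂, mul_div_cancel_left₀ _ h1.ne] using i2) hp hκ hu
    (c := 15 * k * y + a * x) (d := 15 * Q.2.2 * y + (r + 15 * k) * x)
    (c' := ε * (-15 * k' * m + a' * n)) (d' := ε * (-15 * Q'.2.2 * m + (ε * r + 15 * k') * n)) (by
      convert hu.isog h2 h2 (alp_ne hD) (hQ.mul_mem hD).2 using 1
      · rw [← mul_div_assoc, lat15_ω₁ i1, lat15_ω₂]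
        push_cast at a3 a4 ⊢
        linear_combination (15 * y * a4 - x * a3) / p
      · rw [← mul_div_assoc, map_alp hε hσ]
        simp only [scale, lat15_ω₁ i2, lat15_ω₂]
        push_cast at b3 b4 ⊢
        linear_combination -(ε * c * (15 * m * b4 + n * b3)) / p)
  obtain ⟨w, hw⟩ := this
  refine ⟨n, -m, -15 * ε * w, ?_⟩
  simp only [fval, a1, a2, b1, b2]
  rcases hε with rfl | rfl
  · linear_combination -15 * hw
  · linear_combination 15 * hw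

section shift

variable {l : ℕ} (hD : D < 0) (hl : 0 < l) (hQ : IsHg D r Q) (h1 : 15 * (l : ℤ) ∣ Q.1)
  (h2 : 30 * (l : ℤ) ∣ Q.2.1 - r)
include hD hl hQ h1 h2

lemma shift_spec : (∀ z ∈ (lat15 (froot Q)).lattice, l * z ∈ (lat15 (l * froot Q)).lattice) ∧
    (∀ z ∈ (lat15 (froot Q)).lattice, alp D r * z ∈ (lat15 (l * froot Q)).lattice) ∧
    ((∃ x y z : ℤ, x * r + y * l + z * (15 * Q.2.2) = 1) → ∀ (P : PeriodPair) (c : ℂ),
      (∀ z ∈ (lat15 (froot Q)).lattice, l * (c * z) ∈ P.lattice) →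
      (∀ z ∈ (lat15 (froot Q)).lattice, alp D r * (c * z) ∈ P.lattice) →
      ∀ z ∈ (lat15 (l * froot Q)).lattice, c * z ∈ P.lattice) := by
  have i1 := hQ.im_pos hD
  have i2 : 0 < (l * froot Q).im := by simpa using mul_pos (Nat.cast_pos.mpr hl) i1
  obtain ⟨a, k, a1, a2, a3, a4⟩ := hQ.alp hD
  obtain ⟨a, rfl⟩ : (l : ℤ) ∣ a := Int.dvd_of_mul_dvd_mul_left (by norm_num) (a1 ▸ h1)
  obtain ⟨k, rfl⟩ : (l : ℤ) ∣ k := Int.dvd_of_mul_dvd_mul_left (a := 30) (by norm_num)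
    (by simpa [a2] using h2)
  push_cast at a3 a4
  refine ⟨fun z hz => ?_, fun z hz => ?_, fun ⟨x, y, u, hxy⟩ P c k1 k2 z hz => ?_⟩
  · obtain ⟨m, n, rfl⟩ := (mem_lat15 i1).mp hz
    exact (mem_lat15 i2).mpr ⟨m, l * n, by push_cast; ring⟩
  · obtain ⟨m, n, rfl⟩ := (mem_lat15 i1).mp hz
    exact (mem_lat15 i2).mpr ⟨-15 * k * m + a * n, -15 * Q.2.2 * m + (r + 15 * (l * k)) * n, by
      push_cast; linear_combination 15 * m * a4 + n * a3⟩
  obtain ⟨m, n, rfl⟩ := (mem_lat15 i2).mp hz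
  have hxy' : (x : ℂ) * r + y * l + u * (15 * Q.2.2) = 1 := by exact_mod_cast hxy
  convert add_mem (k1 _ ((mem_lat15 i1).mpr
    ⟨m - n * x * a - 15 * n * u * k, n * (y - 15 * k * x), rfl⟩))
    (k2 _ ((mem_lat15 i1).mpr ⟨-(n * u), n * x, rfl⟩)) using 1
  push_cast
  linear_combination -(c * n * x) * a3 + 15 * c * n * u * a4 - c * n * hxy'

/-- Conjugation commutes with the shift by an ideal of norm `l`. -/
theorem gal_shift' (hr : ∃ x y z : ℤ, x * r + y * l + z * (15 * Q.2.2) = 1)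
    (hr' : ∃ x y z : ℤ, x * r + y * l + z * (15 * Q'.2.2) = 1)
    (hQ' : IsHg D r Q') (h1' : 15 * (l : ℤ) ∣ Q'.1)
    (h2' : 30 * (l : ℤ) ∣ Q'.2.1 - r) (hσ : σ (del D) = del D)
    (h : pmap (σ : ℂ →+* ℂ) (pt (froot Q)) = pt (froot Q')) :
    pmap (σ : ℂ →+* ℂ) (u1 (Fi (l * froot Q)) - u1 (Fi (froot Q))) =
      u1 (Fi (l * froot Q')) - u1 (Fi (froot Q')) := by
  have i1 := hQ.im_pos hD
  have i2 := hQ'.im_pos hD
  have l0 : (l : ℂ) ≠ 0 := by exact_mod_cast hl.ne'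
  have hα : σ (alp D r) = alp D r := by simpa using map_alp (r := r) (.inl rfl) (by simpa using hσ)
  have hα' : σ.symm (alp D r) = alp D r := by rw [RingEquiv.symm_apply_eq, hα]
  obtain ⟨a, ha, H⟩ := exists_pr_of_pt i1 i2 h
  obtain ⟨b, d, hd⟩ := exists_gamma ha
  have e1 := H.u1_eq i1 i2 hd
  obtain ⟨c, M, k1, k2, k3⟩ := H
  obtain ⟨s1, s2, s3⟩ := shift_spec hD hl hQ h1 h2
  obtain ⟨t1, t2, t3⟩ := shift_spec hD hl hQ' h1' h2'
  obtain ⟨N, hN⟩ := exists_cj σ (lat15 (l * froot Q))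
  have j := sc_scale (lat15 (l * froot Q')) k1.ne
  obtain ⟨N', hN'⟩ := exists_cj σ.symm (scale (lat15 (l * froot Q')) k1.ne)
  have f : ∀ {β : ℂ}, (∀ z ∈ (lat15 (froot Q')).lattice, β * z ∈ (lat15 (l * froot Q')).lattice) →
      ∀ z ∈ M.lattice, β * z ∈ (scale (lat15 (l * froot Q')) k1.ne).lattice := fun hβ z hz => by
    rw [← j.symm.mem, mul_left_comm]; exact hβ _ ((k1.symm.mem _).mpr hz)
  have hN2 : N.lattice = (scale (lat15 (l * froot Q')) k1.ne).lattice := by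
    refine le_antisymm (fun z hz => ?_) fun z hz => ?_
    · simpa using hN.isog_mem hN'.symm one_ne_zero (s3 hr N' 1
        (fun w hw => by simpa using k2.symm.isog_mem hN' l0 (f t1) hw)
        (fun w hw => by simpa [hα'] using k2.symm.isog_mem hN' (alp_ne hD) (f t2) hw)) hz
    · simpa [k1.ne] using t3 hr' N c
        (fun w hw => by simpa using k2.isog_mem hN l0 s1 ((k1.mem _).mpr hw))
        (fun w hw => by simpa [hα] using k2.isog_mem hN (alp_ne hD) s2 ((k1.mem _).mpr hw))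
        _ ((j.symm.mem _).mpr hz)
  have e2 := Pr.u1_eq (σ := σ) (τ := l * froot Q) (τ' := l * froot Q')
    (by simpa using mul_pos (Nat.cast_pos.mpr hl) i1)
    (by simpa using mul_pos (Nat.cast_pos.mpr hl) i2) ⟨c, _, j, hN.congr hN2, by
      simpa [mul_left_comm] using k3.isog k2 (hN.congr hN2) l0 s1⟩ hd
  rw [map_sub, ← e1, ← e2, add_sub_add_right_eq_sub]

theorem gal_shift (hr : IsCoprime r l) (hQ' : IsHg D r Q') (h1' : 15 * (l : ℤ) ∣ Q'.1)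
    (h2' : 30 * (l : ℤ) ∣ Q'.2.1 - r) (hσ : σ (del D) = del D)
    (h : pmap (σ : ℂ →+* ℂ) (pt (froot Q)) = pt (froot Q')) :
    pmap (σ : ℂ →+* ℂ) (u1 (Fi (l * froot Q)) - u1 (Fi (froot Q))) =
      u1 (Fi (l * froot Q')) - u1 (Fi (froot Q')) := by
  obtain ⟨x, y, e⟩ := hr
  exact gal_shift' hD hl hQ h1 h2 ⟨x, y, 0, by simpa using e⟩ ⟨x, y, 0, by simpa using e⟩ hQ' h1' h2'
    hσ h

end shift

end Pool.Agent.Lib.MP_696deb_nt.Gal
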