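import Mathlib

set_option autoImplicit false

open Height WeierstrassCurve WeierstrassCurve.Affine

namespace Pool.Agent.Lib.MP_696deb_nt

/-- Abstract descent: if doubling is onto modulo torsion and expands a Northcott height,
then the group is finite. -/
theorem finite_of_two_divisible_mod_torsion {G : Type*} [AddCommGroup G] {h : G → ℝ} {c : ℝ}
    [Northcott h] (H : ∀ x, 4 * h x - c ≤ h (2 • x))
    (hdiv : ∀ P : G, ∃ T R : G, IsOfFinAddOrder T ∧ P = T + 2 • R) : Finite G := by
  classical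
  have hT : Finite (AddCommGroup.torsion G) :=
    AddCommGroup.finite_torsion_of_descent (n := 2) (b := 4) (by norm_num) H
  set m : ℕ := Nat.card (AddCommGroup.torsion G) with hm
  have hm0 : 0 < m := Nat.card_pos
  have hmT : ∀ T : G, IsOfFinAddOrder T → m • T = 0 := by
    intro T hT'
    have : m • (⟨T, hT'⟩ : AddCommGroup.torsion G) = 0 := card_nsmul_eq_zero'
    simpa using congrArg Subtype.val this
  suffices hall : ∀ P : G, IsOfFinAddOrder P by
    exact Finite.of_surjective (fun t : AddCommGroup.torsion G => (t : G))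
      (fun P => ⟨⟨P, hall P⟩, rfl⟩)
  by_contra hne
  push Not at hne
  let S : Set G := {Q | ¬ IsOfFinAddOrder Q ∧ ∃ P, Q = m • P}
  have hSne : S.Nonempty := by
    obtain ⟨P, hP⟩ := hne
    refine ⟨m • P, ?_, P, rfl⟩
    intro h'
    exact hP (h'.of_nsmul hm0.ne')
  have half : ∀ Q ∈ S, ∃ Q' ∈ S, Q = 2 • Q' := by
    rintro Q ⟨hQ, P, rfl⟩
    obtain ⟨T, R, hT', rfl⟩ := hdiv P
    have e : m • (T + 2 • R) = 2 • (m • R) := by
      rw [nsmul_add, hmT T hT', zero_add, smul_comm]
    refine ⟨m • R, ⟨?_, R, rfl⟩, e⟩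
    intro h'
    exact hQ (e ▸ h'.nsmul)
  obtain ⟨Q0, hQ0, hmin⟩ := Northcott.exists_min_image h S hSne
  have hQ0c : h Q0 ≤ c / 3 := by
    obtain ⟨Q', hQ', e⟩ := half Q0 hQ0
    have h1 := H Q'
    have h2 := hmin Q' hQ'
    rw [← e] at h1
    linarith
  let B : Set G := {Q | Q ∈ S ∧ h Q ≤ c / 3}
  have hBfin : B.Finite := (Northcott.finite_le (h := h) (c / 3)).subset fun Q hQ => hQ.2
  have halfB : ∀ Q : B, ∃ Q' : B, (Q : G) = 2 • (Q' : G) := by
    rintro ⟨Q, hQ, hQc⟩
    obtain ⟨Q', hQ', e⟩ := half Q hQ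
    have h1 := H Q'
    rw [← e] at h1
    exact ⟨⟨Q', hQ', by linarith⟩, e⟩
  choose f hf using halfB
  have : Finite B := hBfin
  have hinj : Function.Injective f := by
    intro x y hxy
    apply Subtype.ext
    rw [hf x, hf y, hxy]
  have hit : ∀ k (Q : B), (Q : G) = 2 ^ k • ((f^[k] Q : B) : G) := by
    intro k
    induction k with
    | zero => intro Q; simp
    | succ k ih =>
      intro Q
      rw [Function.iterate_succ_apply', pow_succ, mul_smul, ← hf]
      exact ih Q
  obtain ⟨k, hk, hper⟩ := Function.mem_periodicPts.mp (hinj.mem_periodicPts (⟨Q0, hQ0, hQ0c⟩ : B))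
  have e := hit k ⟨Q0, hQ0, hQ0c⟩
  rw [hper.eq] at e
  apply hQ0.1
  rw [isOfFinAddOrder_iff_nsmul_eq_zero]
  have h1 : 1 < 2 ^ k := Nat.one_lt_two_pow hk.ne'
  refine ⟨2 ^ k - 1, by omega, ?_⟩
  have e' : Q0 = 2 ^ k • Q0 := e
  have : (2 ^ k - 1) • Q0 + Q0 = Q0 := by
    conv_rhs => rw [e']
    rw [← succ_nsmul, Nat.sub_add_cancel h1.le]
  simpa using this

section
variable {K : Type*} [Field K] [DecidableEq K] (W : WeierstrassCurve K)

/-- The `x`-coordinate of the double of a point. -/
theorem xRep_two_nsmul (P : W.toAffine.Point) : ∃ c : K, c ≠ 0 ∧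
    ∀ x : Fin 3 → K, x = ![P.xRep 0 * P.xRep 0, P.xRep 0 * P.xRep 1 + P.xRep 1 * P.xRep 0,
      P.xRep 1 * P.xRep 1] → (fun i => (addSubMap W i).eval x) ≠ 0 →
      (fun i => (addSubMap W i).eval x) = c • ![(2 • P).xRep 0, (2 • P).xRep 1, 0] := by
  rcases P with _ | ⟨x, y, hP⟩
  · refine ⟨1, one_ne_zero, ?_⟩
    rintro _ rfl _
    ext i
    fin_cases i <;> simp [addSubMap, ← Point.zero_def]
  · have heq := (equation_iff x y).mp hP.1
    by_cases hy : y = W.toAffine.negY x y
    · have h0 : (2 • (Point.some x y hP) : W.toAffine.Point) = 0 := by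
        rw [two_nsmul, Point.add_self_of_Y_eq hy]
      have hψ : 4 * x ^ 3 + W.b₂ * x ^ 2 + 2 * W.b₄ * x + W.b₆ = 0 := by
        simp only [negY] at hy
        simp only [b₂, b₄, b₆]
        simp only [toAffine] at heq hy
        linear_combination (-4) * heq + (2 * y + W.a₁ * x + W.a₃) * hy
      by_cases hφ : x ^ 4 - W.b₄ * x ^ 2 - 2 * W.b₆ * x - W.b₈ = 0
      · refine ⟨1, one_ne_zero, ?_⟩
        rintro _ rfl hne
        exfalso
        apply hne
        ext i
        fin_cases i <;> simp [addSubMap]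
        · linear_combination hφ
        · linear_combination hψ
        · ring
      · refine ⟨_, hφ, ?_⟩
        rintro _ rfl _
        rw [h0]
        ext i
        fin_cases i <;> simp [addSubMap]
        · ring
        · linear_combination hψ
        · ring
    · have hy' : 2 * y + W.a₁ * x + W.a₃ ≠ 0 := by
        intro h
        apply hy
        simp only [negY, toAffine]
        linear_combination h
      refine ⟨(2 * y + W.a₁ * x + W.a₃) ^ 2, pow_ne_zero _ hy', ?_⟩
      rintro _ rfl _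
      rw [two_nsmul, Point.add_self_of_Y_ne hy]
      have hy'' : y - W.toAffine.negY x y = 2 * y + W.a₁ * x + W.a₃ := by
        simp only [negY, toAffine]; ring
      simp only [toAffine] at heq
      ext i
      fin_cases i <;> simp [addSubMap]
      · have hl : W.toAffine.slope x x y y * (2 * y + W.a₁ * x + W.a₃) =
            3 * x ^ 2 + 2 * W.a₂ * x + W.a₄ - W.a₁ * y := by
          rw [slope_of_Y_ne rfl hy, hy'', div_mul_cancel₀ _ hy']
        generalize W.toAffine.slope x x y y = l at hl ⊢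
        simp only [b₄, b₆, b₈]
        linear_combination (W.a₁ ^ 2 + 4 * W.a₂ + 8 * x) * heq -
          (l * (2 * y + W.a₁ * x + W.a₃) + (3 * x ^ 2 + 2 * W.a₂ * x + W.a₄ - W.a₁ * y) +
            W.a₁ * (2 * y + W.a₁ * x + W.a₃)) * hl
      · simp only [b₂, b₄, b₆]
        linear_combination (-4) * heq
      · ring

end

variable {K : Type*} [Field K] [NumberField K] [DecidableEq K] (W : WeierstrassCurve K)
  [W.IsElliptic]

/-- The naive logarithmic height of a point. -/
noncomputable def naiveHeight (P : W.toAffine.Point) : ℝ := logHeight P.xRep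

theorem naiveHeight_two_nsmul : ∃ c : ℝ, ∀ P : W.toAffine.Point,
    4 * naiveHeight W P - c ≤ naiveHeight W (2 • P) := by
  obtain ⟨C1, h1⟩ := abs_logHeight_addSubMap_sub_two_mul_logHeight_le W
  obtain ⟨C2, h2⟩ := logHeight_sym2_ge K
  refine ⟨C1 - 2 * C2, fun P => ?_⟩
  obtain ⟨c, hc, hP⟩ := xRep_two_nsmul W P
  have hrep : ![P.xRep 0, P.xRep 1] = P.xRep := by ext i; fin_cases i <;> rfl
  have hrep2 : ![(2 • P).xRep 0, (2 • P).xRep 1] = (2 • P).xRep := by
    ext i; fin_cases i <;> rfl
  have hne : ![P.xRep 0, P.xRep 1] ≠ 0 := by rw [hrep]; exact P.xRep_ne_zero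
  have h3 := h2 hne hne
  have hx : (![P.xRep 0 * P.xRep 0, P.xRep 0 * P.xRep 1 + P.xRep 1 * P.xRep 0,
      P.xRep 1 * P.xRep 1] : Fin 3 → K) ≠ 0 := by
    have := P.sym2x_ne_zero P
    rcases P with _ | ⟨x, y, h⟩
    · simp [← Point.zero_def]
    · simp
  have h4 := hP _ rfl (addSubMap_ne_zero W hx)
  have h5 := h1 ![P.xRep 0 * P.xRep 0, P.xRep 0 * P.xRep 1 + P.xRep 1 * P.xRep 0,
      P.xRep 1 * P.xRep 1]
  rw [h4, logHeight_smul_eq_logHeight _ hc] at h5
  have h6 : logHeight (![(2 • P).xRep 0, (2 • P).xRep 1, 0] : Fin 3 → K) =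
      naiveHeight W (2 • P) := by
    rw [logHeight_cons_cons_cons_zero, hrep2]; rfl
  rw [h6] at h5
  rw [hrep] at h3
  have := (abs_le.mp h5).1
  unfold naiveHeight at *
  linarith

instance : Northcott (naiveHeight W) where
  finite_le B := by
    have hfin := NumberField.finite_setOfPred_logHeight₁_le K B
    have h1 : ∀ x : K, {P : W.toAffine.Point | P.xRep = ![x, 1]}.Finite := by
      intro x
      by_cases hx : {P : W.toAffine.Point | P.xRep = ![x, 1]} = ∅
      · rw [hx]; exact Set.finite_empty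
      · obtain ⟨Q, hQ⟩ := Set.nonempty_iff_ne_empty.mpr hx
        refine (Set.toFinite {Q, -Q}).subset fun P hP => ?_
        have : P.xRep = Q.xRep := by rw [hP, hQ]
        simpa using Point.eq_or_eq_neg_of_xRep_eq_xRep this
    refine ((Set.finite_singleton (0 : W.toAffine.Point)).union
      (hfin.biUnion fun x _ => h1 x)).subset ?_
    rintro (_ | ⟨x, y, h⟩) hP
    · left; rfl
    · right
      simp only [Set.mem_iUnion]
      refine ⟨x, ?_, by simp⟩
      simpa [naiveHeight, logHeight₁_eq_logHeight] using hP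

/-- If every point is a torsion point plus a double, the Mordell-Weil group is finite. -/
theorem finite_point_of_two_divisible_mod_torsion
    (hdiv : ∀ P : W.toAffine.Point, ∃ T R : W.toAffine.Point, IsOfFinAddOrder T ∧ P = T + 2 • R) :
    Finite W.toAffine.Point := by
  obtain ⟨c, hc⟩ := naiveHeight_two_nsmul W
  exact finite_of_two_divisible_mod_torsion hc hdiv

theorem finrank_eq_zero_of_finite {G : Type*} [AddCommGroup G] [Finite G] :
    Module.finrank ℤ G = 0 := by
  rw [Module.finrank_eq_zero_iff]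
  intro x
  refine ⟨(Nat.card G : ℤ), by exact_mod_cast (Nat.card_pos (α := G)).ne', ?_⟩
  rw [natCast_zsmul]
  exact card_nsmul_eq_zero'

end Pool.Agent.Lib.MP_696deb_nt
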