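import Pool.Agent.Lib.MP_696deb_nt.IndNormal

set_option autoImplicit false

open Finset Matrix

namespace Pool.Agent.Lib.MP_696deb_nt.Ind

open Tern

/-- The ternary form attached to level fifteen. -/
def H0 : M3 := form 0 15 0 0 (-1) 0

theorem evM_H0 : EvM H0 := evM_form (by norm_num)

theorem exists_round {a : ℤ} (ha : a ≠ 0) (s : ℤ) : ∃ x, (2 * a * x + s) ^ 2 ≤ a ^ 2 := by
  have h0 : (0 : ℤ) < 2 * |a| := by positivity
  have h1 := Int.emod_nonneg (s + |a|) h0.ne'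
  have h2 := Int.emod_lt_of_pos (s + |a|) h0
  rw [Int.emod_def] at h1 h2
  generalize (s + |a|) / (2 * |a|) = k at *
  rcases abs_cases a with ⟨h, -⟩ | ⟨h, -⟩ <;> rw [h] at h0 h1 h2
  · exact ⟨-k, by nlinarith⟩
  · exact ⟨k, by nlinarith⟩

/-- Hermite bound for binary forms of either sign. -/
theorem binary_small (A B C : ℤ) : ∃ y z y' z' : ℤ, y * z' - y' * z = 1 ∧
    ((A * y ^ 2 + 2 * B * y * z + C * z ^ 2) ^ 2 ≤ B ^ 2 - A * C ∨
      3 * (A * y ^ 2 + 2 * B * y * z + C * z ^ 2) ^ 2 ≤ -4 * (B ^ 2 - A * C)) := by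
  obtain ⟨⟨y, z, y', z'⟩, h1, h2⟩ := exists_minimalFor_of_wellFoundedLT
    (fun q : ℤ × ℤ × ℤ × ℤ => q.1 * q.2.2.2 - q.2.2.1 * q.2.1 = 1)
    (fun q => (A * q.1 ^ 2 + 2 * B * q.1 * q.2.1 + C * q.2.1 ^ 2).natAbs) ⟨(1, 0, 0, 1), by simp⟩
  simp only at h1
  refine ⟨y, z, y', z', h1, ?_⟩
  set A' := A * y ^ 2 + 2 * B * y * z + C * z ^ 2 with hA
  rcases eq_or_ne A' 0 with h0 | h0
  · rw [h0]; omega
  obtain ⟨k, hk⟩ := exists_round h0 (2 * (A * y * y' + B * (y * z' + y' * z) + C * z * z'))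
  have h3 := not_lt.1 fun h => (h2 (j := (y' + k * y, z' + k * z, -y, -z))
    (by simp only; linear_combination h1) (le_of_lt h)).not_gt h
  simp only [← hA] at h3
  set C' := A * (y' + k * y) ^ 2 + 2 * B * (y' + k * y) * (z' + k * z) + C * (z' + k * z) ^ 2
    with hC
  set B' := A' * k + (A * y * y' + B * (y * z' + y' * z) + C * z * z') with hB
  have e : B' ^ 2 - A' * C' = B ^ 2 - A * C := by
    rw [hB, hC, hA]
    linear_combination (B ^ 2 - A * C) * (y * z' - y' * z + 1) * h1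
  have h4 : 4 * B' ^ 2 ≤ A' ^ 2 := by rw [hB]; linarith
  have h5 : A' ^ 2 ≤ C' ^ 2 := by
    rw [sq_le_sq, ← Int.natCast_natAbs, ← Int.natCast_natAbs]; exact_mod_cast h3
  rw [← e]
  clear_value A' B' C'
  have h6 : (A' ^ 2) ^ 2 ≤ (A' * C') ^ 2 := by
    rw [mul_pow, sq (A' ^ 2)]; exact mul_le_mul_of_nonneg_left h5 (sq_nonneg _)
  rcases le_total 0 (A' * C') with h | h
  · right
    have := (pow_le_pow_iff_left₀ (sq_nonneg A') h two_ne_zero).1 h6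
    linarith
  · left
    have := (pow_le_pow_iff_left₀ (sq_nonneg A') (neg_nonneg.2 h) two_ne_zero).1
      (by rwa [neg_sq])
    linarith [sq_nonneg B']

theorem quad_form (a b c s1 s2 r : ℤ) (v : V3) : v ⬝ᵥ (form a b c s1 s2 r *ᵥ v) =
    2 * (a * v 0 ^ 2 + b * v 1 ^ 2 + c * v 2 ^ 2 + s1 * v 0 * v 1 + s2 * v 0 * v 2 +
      r * v 1 * v 2) := by
  simp [form, dotProduct, mulVec, Fin.sum_univ_three]
  ring

theorem quad_act (g : SL3) (G : M3) (v : V3) :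
    v ⬝ᵥ ((g.1 * G * g.1ᵀ) *ᵥ v) = (g.1ᵀ *ᵥ v) ⬝ᵥ (G *ᵥ (g.1ᵀ *ᵥ v)) := by
  rw [Matrix.mul_assoc, ← mulVec_mulVec, dotProduct_mulVec, ← mulVec_transpose, ← mulVec_mulVec]

theorem exists_row {v : V3} (hd : Int.gcd (v 0) (Int.gcd (v 1) (v 2)) = 1) (G : M3) :
    ∃ h : SL3, (h.1 * G * h.1ᵀ) 0 0 = v ⬝ᵥ (G *ᵥ v) := by
  obtain ⟨g, hg⟩ := exists_SL3 hd
  refine ⟨⟨(g⁻¹).1ᵀ, by rw [det_transpose]; exact (g⁻¹).2⟩, ?_⟩
  have h1 : (g⁻¹).1 *ᵥ ![1, 0, 0] = v := by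
    rw [← hg, mulVec_mulVec]
    change (g⁻¹ * g).1 *ᵥ v = v
    simp
  have := quad_act ⟨(g⁻¹).1ᵀ, by rw [det_transpose]; exact (g⁻¹).2⟩ G ![1, 0, 0]
  simp only [transpose_transpose, h1] at this
  rw [transpose_transpose, ← this]
  simp [dotProduct, mulVec, Fin.sum_univ_three]

/-- The invariants of the class of `H0`. -/
structure Cond (G : M3) : Prop where
  ev : EvM G
  m3 : ∀ y, bil G y y % 3 ≠ 1
  pos : ∃ v : V3, 0 < v ⬝ᵥ (G *ᵥ v)

theorem SL3_surj (g : SL3) (v : V3) : ∃ u, g.1 *ᵥ u = v :=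
  ⟨(g⁻¹).1 *ᵥ v, by
    rw [mulVec_mulVec]
    change (g * g⁻¹).1 *ᵥ v = v
    simp⟩

theorem Cond.act {G : M3} (h : Cond G) (g : SL3) : Cond (g.1 * G * g.1ᵀ) where
  ev := h.ev.act g
  m3 y := by
    obtain ⟨u, rfl⟩ := SL3_surj g y
    rw [bil_act']
    exact h.m3 u
  pos := by
    obtain ⟨v, hv⟩ := h.pos
    obtain ⟨u, rfl⟩ := SL3_surj ⟨g.1ᵀ, by rw [det_transpose]; exact g.2⟩ v
    exact ⟨u, by rwa [quad_act]⟩

theorem cond_of {G : M3} (hG : EvM G) {x : V3} (h3 : bil G x x % 3 = 2)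
    (hpos : ∃ v : V3, 0 < v ⬝ᵥ (G *ᵥ v)) : Cond G := by
  refine ⟨hG, fun y hy => ?_, hpos⟩
  obtain ⟨a, b, c, s1, s2, r, rfl⟩ := hG.exists_form
  have hd := hG.2.2
  rw [det_form] at hd
  have e : bil (form a b c s1 s2 r) x x * bil (form a b c s1 s2 r) y y =
      bil (form a b c s1 s2 r) x y ^ 2 - 30 * ((x ⨯₃ y) ⬝ᵥ (form a b c s1 s2 r *ᵥ (x ⨯₃ y))) := by
    rw [quad_form, bil_form, bil_form, bil_form, show (30 : ℤ) = -(-30) by norm_num, ← hd]
    simp [cross_apply]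
    ring
  generalize bil (form a b c s1 s2 r) x x = u at *
  generalize bil (form a b c s1 s2 r) y y = v at *
  generalize bil (form a b c s1 s2 r) x y = w at *
  have h1 : u * v % 3 = 2 := by rw [Int.mul_emod, h3, hy]; norm_num
  have h2 : w ^ 2 % 3 ≠ 2 := by
    have : w % 3 = 0 ∨ w % 3 = 1 ∨ w % 3 = 2 := by omega
    rcases this with h | h | h <;> simp [pow_two, Int.mul_emod, h]
  omega

theorem sq_cases {a q : ℤ} (h : a ^ 2 ≤ q ^ 2) : a ≤ q ∧ -a ≤ q ∨ q ≤ a ∧ q ≤ -a := by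
  have := sq_le_sq.1 h
  rcases abs_cases a with h | h <;> rcases abs_cases q with h' | h' <;> omega

theorem case_neg {a A u q q' : ℤ} (ha : a < 0) (h6 : 3 * A ^ 2 ≤ -4 * (60 * a)) (h7 : A < 0)
    (h4 : A % 3 ≠ 1) (hx : u ^ 2 ≤ a ^ 2) (hq1 : a ^ 2 ≤ q ^ 2) (hq2 : 4 * a * q = u ^ 2 + A)
    (hq1' : a ^ 2 ≤ q' ^ 2) (hq2' : 4 * a * q' = (u + 2 * a) ^ 2 + A) : False := by
  have hu := sq_nonneg u
  have h8 : -a ≤ q := by
    rcases sq_cases hq1 with h | h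
    · exact h.2
    · nlinarith only [h.1, ha, hq2, hx, h7]
  have h9 : A ≤ -4 * a ^ 2 := by nlinarith only [h8, ha, hq2, hu]
  obtain rfl : a = -1 := by
    by_contra h10
    have h11 : a ≤ -2 := by omega
    have h12 : (4 * a ^ 2) ^ 2 ≤ A ^ 2 := by nlinarith only [h9, sq_nonneg a]
    have h13 : 4 ≤ a ^ 2 := by nlinarith only [h11]
    have h14 : -2 * a ≤ a ^ 2 := by nlinarith only [h11]
    nlinarith only [h12, h13, h14, h6, ha]
  have h10 : -9 < A := by nlinarith only [h6]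
  have h11 : -1 ≤ u := by nlinarith only [hx]
  have h12 : u ≤ 1 := by nlinarith only [hx]
  interval_cases u
  · omega
  · obtain rfl : q' = 0 := by omega
    norm_num at hq1'
  · omega

theorem case_pos {a A u q q' : ℤ} (ha : 0 < a) (h6 : A ^ 2 ≤ 60 * a) (h7 : a = 1 → A ≠ 3)
    (h4 : A % 3 ≠ 1) (hx : u ^ 2 ≤ a ^ 2) (hq1 : a ^ 2 ≤ q ^ 2) (hq2 : 4 * a * q = u ^ 2 + A)
    (hq1' : a ^ 2 ≤ q' ^ 2) (hq2' : 4 * a * q' = (u + 2 * a) ^ 2 + A) : False := by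
  have hu := sq_nonneg u
  have h9 : (3 * a ^ 2) ^ 2 ≤ A ^ 2 := by
    rcases sq_cases hq1 with h | h
    · have : 3 * a ^ 2 ≤ A := by nlinarith only [h.1, ha, hq2, hx]
      nlinarith only [this, sq_nonneg a]
    · have : A ≤ -(3 * a ^ 2) := by nlinarith only [h.2, ha, hq2, hu]
      nlinarith only [this, sq_nonneg a]
  obtain rfl : a = 1 := by
    by_contra h10
    have h11 : 2 ≤ a := by omega
    have h13 : 4 ≤ a ^ 2 := by nlinarith only [h11]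
    have h14 : 2 * a ≤ a ^ 2 := by nlinarith only [h11]
    nlinarith only [h9, h13, h14, h6, ha]
  have h8 := h7 rfl
  have h10 : -8 < A := by nlinarith only [h6]
  have h10' : A < 8 := by nlinarith only [h6]
  have h11 : -1 ≤ u := by nlinarith only [hx]
  have h12 : u ≤ 1 := by nlinarith only [hx]
  have h13 : q ≠ 0 := by
    rintro rfl
    norm_num at hq1
  interval_cases u
  · omega
  · obtain rfl : q' = 0 := by omega
    norm_num at hq1'
  · omega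

theorem zero_of_min {a b c s1 s2 r : ℤ} (h : Cond (form a b c s1 s2 r))
    (hm : ∀ v : V3, Int.gcd (v 1) (v 2) = 1 → (2 * a) ^ 2 ≤ (v ⬝ᵥ (form a b c s1 s2 r *ᵥ v)) ^ 2) :
    a = 0 := by
  by_contra ha
  have hd := h.ev.2.2
  rw [det_form] at hd
  obtain ⟨y, z, y', z', h1, h2⟩ :=
    binary_small (4 * a * b - s1 ^ 2) (2 * a * r - s1 * s2) (4 * a * c - s2 ^ 2)
  have hD : (2 * a * r - s1 * s2) ^ 2 - (4 * a * b - s1 ^ 2) * (4 * a * c - s2 ^ 2) = 60 * a := by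
    linear_combination (-2 * a) * hd
  have h3 : ∀ y z : ℤ, ((4 * a * b - s1 ^ 2) * y ^ 2 + 2 * (2 * a * r - s1 * s2) * y * z +
      (4 * a * c - s2 ^ 2) * z ^ 2) % 3 ≠ 1 := fun y z => by
    have := h.m3 ![0, z, -y]
    rw [bil_form] at this
    convert this using 2
    simp
    ring
  have hg : Int.gcd y z = 1 := Int.isCoprime_iff_gcd_eq_one.1 ⟨z', -y', by linear_combination h1⟩
  have hq : ∀ x : ℤ, ∃ q : ℤ, a ^ 2 ≤ q ^ 2 ∧ 4 * a * q = (2 * a * x + (s1 * y + s2 * z)) ^ 2 +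
      ((4 * a * b - s1 ^ 2) * y ^ 2 + 2 * (2 * a * r - s1 * s2) * y * z +
        (4 * a * c - s2 ^ 2) * z ^ 2) := fun x => by
    have := hm ![x, y, z] hg
    rw [quad_form] at this
    refine ⟨a * x ^ 2 + b * y ^ 2 + c * z ^ 2 + s1 * x * y + s2 * x * z + r * y * z, ?_, by ring⟩
    simp at this
    nlinarith
  obtain ⟨v, hv⟩ := h.pos
  rw [quad_form] at hv
  have e1 : 4 * a * (a * v 0 ^ 2 + b * v 1 ^ 2 + c * v 2 ^ 2 + s1 * v 0 * v 1 + s2 * v 0 * v 2 +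
      r * v 1 * v 2) = (2 * a * v 0 + (s1 * v 1 + s2 * v 2)) ^ 2 +
      ((4 * a * b - s1 ^ 2) * v 1 ^ 2 + 2 * (2 * a * r - s1 * s2) * v 1 * v 2 +
        (4 * a * c - s2 ^ 2) * v 2 ^ 2) := by ring
  generalize a * v 0 ^ 2 + b * v 1 ^ 2 + c * v 2 ^ 2 + s1 * v 0 * v 1 + s2 * v 0 * v 2 +
      r * v 1 * v 2 = q0 at *
  generalize 2 * a * v 0 + (s1 * v 1 + s2 * v 2) = u0 at *
  generalize 4 * a * b - s1 ^ 2 = A at *
  generalize 2 * a * r - s1 * s2 = B at *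
  generalize 4 * a * c - s2 ^ 2 = C at *
  have e2 : ∀ y' z' : ℤ, (A * y ^ 2 + 2 * B * y * z + C * z ^ 2) *
      (A * y' ^ 2 + 2 * B * y' * z' + C * z' ^ 2) =
      (A * y * y' + B * (y * z' + y' * z) + C * z * z') ^ 2 - 60 * a * (y * z' - y' * z) ^ 2 :=
    fun y' z' => by rw [← hD]; ring
  have e3 := e2 y' z'
  have e4 := e2 (v 1) (v 2)
  have h4 := h3 y z
  have h5 := h3 y' z'
  rw [hD] at h2
  rw [h1] at e3
  obtain ⟨x, hx⟩ := exists_round ha (s1 * y + s2 * z)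
  obtain ⟨q, hq1, hq2⟩ := hq x
  obtain ⟨q', hq1', hq2'⟩ := hq (x + 1)
  rw [show 2 * a * (x + 1) + (s1 * y + s2 * z) = 2 * a * x + (s1 * y + s2 * z) + 2 * a by ring]
    at hq2'
  generalize 2 * a * x + (s1 * y + s2 * z) = u at *
  generalize A * y ^ 2 + 2 * B * y * z + C * z ^ 2 = A' at *
  generalize A * y' ^ 2 + 2 * B * y' * z' + C * z' ^ 2 = C' at *
  generalize A * y * y' + B * (y * z' + y' * z) + C * z * z' = B' at *
  generalize A * v 1 ^ 2 + 2 * B * v 1 * v 2 + C * v 2 ^ 2 = C0 at *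
  generalize A * y * v 1 + B * (y * v 2 + v 1 * z) + C * z * v 2 = B0 at *
  generalize y * v 2 - v 1 * z = d0 at *
  rcases lt_or_gt_of_ne ha with ha | ha
  · refine case_neg ha (h2.resolve_left (by nlinarith only [ha, sq_nonneg A'])) ?_ h4 hx hq1 hq2
      hq1' hq2'
    by_contra h7
    rcases (not_lt.1 h7).eq_or_lt with h7 | h7
    · rw [← h7] at e3; nlinarith only [e3, ha, sq_nonneg B']
    · have : 0 ≤ C0 := by
        by_contra h8
        nlinarith only [h7, h8, e4, ha, sq_nonneg B0, sq_nonneg d0]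
      nlinarith only [this, e1, hv, ha, sq_nonneg u0]
  · refine case_pos ha (h2.resolve_right (by nlinarith only [ha, sq_nonneg A'])) ?_ h4 hx hq1 hq2
      hq1' hq2'
    rintro rfl rfl
    obtain ⟨k, rfl⟩ : (3 : ℤ) ∣ B' :=
      Int.prime_three.dvd_of_dvd_pow (n := 2) ⟨C' + 20, by linarith⟩
    have : C' = 3 * k ^ 2 - 20 := by linarith
    omega

theorem act_act (g h : SL3) (G : M3) :
    (g * h).1 * G * (g * h).1ᵀ = g.1 * (h.1 * G * h.1ᵀ) * g.1ᵀ := by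
  simp [transpose_mul, mul_assoc]

/-- There is one class of indefinite forms with these invariants. -/
theorem iso {G : M3} (hG : Cond G) : ∃ g : SL3, g.1 * G * g.1ᵀ = H0 := by
  obtain ⟨g, -, h2⟩ := exists_minimalFor_of_wellFoundedLT (fun _ : SL3 => True)
    (fun g => ((g.1 * G * g.1ᵀ) 0 0).natAbs) ⟨1, trivial⟩
  have h1 := hG.act g
  obtain ⟨a, b, c, s1, s2, r, e⟩ := h1.ev.exists_form
  rw [e] at h1
  obtain rfl : a = 0 := zero_of_min h1 fun v hv => by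
    obtain ⟨h, hh⟩ := exists_row (v := v) (by rw [hv]; simp) (form a b c s1 s2 r)
    have h3 := not_lt.1 fun hlt => (h2 (j := h * g) trivial (le_of_lt hlt)).not_gt hlt
    simp only [act_act, e, hh] at h3
    rw [sq_le_sq, ← Int.natCast_natAbs, ← Int.natCast_natAbs]
    exact_mod_cast h3
  have hd := h1.ev.2.2
  rw [det_form] at hd
  obtain ⟨p, q, u, v, h3, h4, h5⟩ := exists_sl2 s1 s2
  have hg : Int.gcd s1 s2 = 1 := by
    obtain ⟨t1, e1⟩ := Int.gcd_dvd_left s1 s2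
    obtain ⟨t2, e2⟩ := Int.gcd_dvd_right s1 s2
    generalize Int.gcd s1 s2 = d at *
    have h6 : Squarefree 15 := by decide +kernel
    apply Nat.isUnit_iff.1 (h6 d _)
    rw [← Int.natCast_dvd_natCast]
    refine ⟨b * t2 ^ 2 + c * t1 ^ 2 - t1 * t2 * r, ?_⟩
    rw [e1, e2] at hd
    push_cast
    linarith
  rw [hg] at h4
  let k : SL3 := ⟨!![1, 0, 0; 0, u, v; 0, -p, -q], by simp [det_fin_three]; linear_combination h3⟩
  obtain ⟨b', c', r', e'⟩ : ∃ b' c' r', k.1 * form 0 b c s1 s2 r * k.1ᵀ = form 0 b' c' 0 (-1) r' := by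
    refine ⟨b * u ^ 2 + r * u * v + c * v ^ 2, b * p ^ 2 + r * p * q + c * q ^ 2,
      -(2 * b * u * p + r * (u * q + v * p) + 2 * c * v * q), ?_⟩
    push_cast at h4
    ext i j
    fin_cases i <;> fin_cases j <;> simp [k, form, mul_apply, Fin.sum_univ_three] <;> linarith
  have hd' := (h1.act k).ev.2.2
  rw [e', det_form] at hd'
  obtain rfl : b' = 15 := by linarith
  let l : SL3 := ⟨!![1, 0, 0; r', 1, 0; c', 0, 1], by simp [det_fin_three]⟩
  refine ⟨l * (k * g), ?_⟩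
  rw [act_act, act_act, e, e']
  ext i j
  fin_cases i <;> fin_cases j <;> simp [l, H0, form, mul_apply, Fin.sum_univ_three]
  ring

end Pool.Agent.Lib.MP_696deb_nt.Ind
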