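import Pool.Agent.Lib.MP_696deb_nt.TernNormal

set_option autoImplicit false

open Finset Matrix

namespace Pool.Agent.Lib.MP_696deb_nt.Ind

open Tern

/-- Symmetric, even, of determinant `-30`. -/
def EvM (G : M3) : Prop := Gᵀ = G ∧ (∀ i, Even (G i i)) ∧ G.det = -30

theorem EvM.exists_form {G : M3} (h : EvM G) : ∃ a b c s1 s2 r, G = form a b c s1 s2 r := by
  obtain ⟨h1, h2, _⟩ := h
  obtain ⟨a, ha⟩ := h2 0
  obtain ⟨b, hb⟩ := h2 1
  obtain ⟨c, hc⟩ := h2 2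
  have hs : ∀ i j, G j i = G i j := fun i j => congrFun (congrFun h1 i) j
  refine ⟨a, b, c, G 0 1, G 0 2, G 1 2, ?_⟩
  ext i j
  fin_cases i <;> fin_cases j <;> simp [form, ha, hb, hc, two_mul, hs 0 1, hs 0 2, hs 1 2]

theorem evM_form {a b c s1 s2 r : ℤ}
    (h : 4 * a * b * c + s1 * s2 * r - a * r ^ 2 - b * s2 ^ 2 - c * s1 ^ 2 = -15) :
    EvM (form a b c s1 s2 r) := by
  refine ⟨?_, fun i => ?_, by rw [det_form, h]; norm_num⟩
  · ext i j
    fin_cases i <;> fin_cases j <;> simp [form]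
  · fin_cases i <;> simp [form]

theorem EvM.act {G : M3} (h : EvM G) (g : SL3) : EvM (g.1 * G * g.1ᵀ) := by
  obtain ⟨a, b, c, s1, s2, r, rfl⟩ := h.exists_form
  refine ⟨?_, fun i => ?_, ?_⟩
  · rw [transpose_mul, transpose_mul, transpose_transpose, h.1, mul_assoc]
  · refine ⟨a * g.1 i 0 ^ 2 + b * g.1 i 1 ^ 2 + c * g.1 i 2 ^ 2 + s1 * g.1 i 0 * g.1 i 1
      + s2 * g.1 i 0 * g.1 i 2 + r * g.1 i 1 * g.1 i 2, ?_⟩
    simp [form, mul_apply, Fin.sum_univ_three]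
    ring
  · rw [det_mul, det_mul, det_transpose, g.2, h.2.2]; norm_num

/-- Invariants of a triple. -/
def Inv (n n2 t : ℤ) (G : M3) (x w : V3) : Prop :=
  EvM G ∧ bil G x x = n ∧ bil G w w = n2 ∧ bil G x w = t

theorem Inv.rel {n n2 t : ℤ} {G G' : M3} {x w x' w' : V3} (h : Inv n n2 t G x w)
    (h' : Rel G x w G' x' w') : Inv n n2 t G' x' w' := by
  obtain ⟨g, rfl, rfl, rfl⟩ := h'
  exact ⟨h.1.act g, by rw [bil_act', h.2.1], by rw [bil_act', h.2.2.1],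
    by rw [bil_act', h.2.2.2]⟩

theorem exists_SL3 {x : V3} (hd : Int.gcd (x 0) (Int.gcd (x 1) (x 2)) = 1) :
    ∃ g : SL3, g.1 *ᵥ x = ![1, 0, 0] := by
  obtain ⟨p, q, r, s, h1, h2, h3⟩ := exists_sl2 (x 1) (x 2)
  obtain ⟨p', q', r', s', h1', h2', h3'⟩ := exists_sl2 (x 0) (Int.gcd (x 1) (x 2))
  rw [hd] at h2'
  let g1 : SL3 := ⟨!![1, 0, 0; 0, p, q; 0, r, s], by simp [det_fin_three, h1]⟩
  let g2 : SL3 := ⟨!![p', q', 0; r', s', 0; 0, 0, 1], by simp [det_fin_three, h1']⟩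
  refine ⟨g2 * g1, ?_⟩
  change (g2.1 * g1.1) *ᵥ x = _
  rw [← mulVec_mulVec]
  have e1 : g1.1 *ᵥ x = ![x 0, Int.gcd (x 1) (x 2), 0] := by
    ext i
    fin_cases i <;> simp [g1, mulVec, dotProduct, Fin.sum_univ_three, h2, h3]
  rw [e1]
  ext i
  fin_cases i
  · simpa [g2, mulVec, dotProduct, Fin.sum_univ_three] using h2'
  · simpa [g2, mulVec, dotProduct, Fin.sum_univ_three] using h3'
  · simp [g2, mulVec, dotProduct, Fin.sum_univ_three]

theorem exists_prim (x : V3) : ∃ u : V3, ∀ i, x i = Int.gcd (x 0) (Int.gcd (x 1) (x 2)) * u i := by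
  obtain ⟨u0, h0⟩ := Int.gcd_dvd_left (x 0) (Int.gcd (x 1) (x 2))
  obtain ⟨u1, h1⟩ := (Int.gcd_dvd_right (x 0) (Int.gcd (x 1) (x 2))).trans
    (Int.gcd_dvd_left (x 1) (x 2))
  obtain ⟨u2, h2⟩ := (Int.gcd_dvd_right (x 0) (Int.gcd (x 1) (x 2))).trans
    (Int.gcd_dvd_right (x 1) (x 2))
  exact ⟨![u0, u1, u2], fun i => by fin_cases i <;> assumption⟩

theorem step_one {n : ℕ} (hn : Squarefree n) {G : M3} {x : V3} (w : V3) (hG : EvM G)
    (hx : bil G x x = n) : ∃ G' w', Rel G x w G' ![1, 0, 0] w' := by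
  have hd : Int.gcd (x 0) (Int.gcd (x 1) (x 2)) = 1 := by
    obtain ⟨a, b, c, s1, s2, r, rfl⟩ := hG.exists_form
    obtain ⟨u, hu⟩ := exists_prim x
    generalize Int.gcd (x 0) (Int.gcd (x 1) (x 2)) = d at *
    apply Nat.isUnit_iff.1 (hn d _)
    rw [← Int.natCast_dvd_natCast, ← hx, bil_form, hu 0, hu 1, hu 2]
    refine ⟨bil (form a b c s1 s2 r) u u, ?_⟩
    rw [bil_form]
    push_cast
    ring
  obtain ⟨g, hg⟩ := exists_SL3 hd
  exact ⟨_, _, g, rfl, hg, rfl⟩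

/-- Conditions on the parameters `(e, y, j)` of a normal form. -/
def CanOK (n d M : ℕ) (t : ℤ) (c : ℕ × ℕ × ℕ) : Prop :=
  0 < c.1 ∧ c.1 ^ 2 ∣ M ∧ c.2.1 < M / c.1 ^ 2 ∧ M / c.1 ^ 2 ∣ c.2.1 ^ 2 + c.2.1 + d ∧ c.2.2 < n ∧
    (n : ℤ) ∣ (c.2.2 : ℤ) ^ 2 * nst n d (M / c.1 ^ 2) c.2.1 - 15 ∧
    (n : ℤ) ∣ t - c.1 * c.2.2 * tst n (M / c.1 ^ 2) c.2.1

/-- The form with parameters `(e, y, j)`. -/
def canG (n d M : ℕ) (c : ℕ × ℕ × ℕ) : M3 :=
  form (((c.2.2 : ℤ) ^ 2 * nst n d (M / c.1 ^ 2) c.2.1 - 15) / n) (M / c.1 ^ 2 : ℕ)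
    ((c.2.1 ^ 2 + c.2.1 + d) / (M / c.1 ^ 2) : ℕ) (-(c.2.2 * lam n (M / c.1 ^ 2))) c.2.2
    (2 * c.2.1 + 1)

theorem can_inv {n d M : ℕ} {n2 t : ℤ} (hd : 4 * d = n + 1) (hM : t ^ 2 - n * n2 = 60 * M)
    {c : ℕ × ℕ × ℕ} (hc : CanOK n d M t c) :
    Inv n n2 t (canG n d M c) ![1, 0, 0] (canW n M t c) := by
  obtain ⟨e, y, j⟩ := c
  obtain ⟨h1, h2, h3, h4, h5, ⟨a, h6⟩, ⟨w0, h7⟩⟩ := hc
  simp only at h1 h2 h3 h4 h5 h6 h7
  have hn0 : (0 : ℤ) < n := by omega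
  have hdisc := disc_eq hd h4
  have hm : (M : ℤ) = e ^ 2 * (M / e ^ 2 : ℕ) := by exact_mod_cast (Nat.mul_div_cancel' h2).symm
  simp only [canG, canW, h6, h7, Int.mul_ediv_cancel_left _ hn0.ne']
  rw [nst_cast] at h6
  rw [tst_cast] at h7
  generalize ((y ^ 2 + y + d) / (M / e ^ 2) : ℕ) = c at *
  generalize (lam n (M / e ^ 2) : ℤ) = l at *
  generalize (M / e ^ 2 : ℕ) = m at *
  have hdet : 4 * a * m * c + -(j * l) * j * (2 * y + 1) - a * (2 * y + 1) ^ 2 - m * (j : ℤ) ^ 2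
      - c * (-(j * l)) ^ 2 = -15 := by linear_combination a * hdisc - h6
  refine ⟨evM_form hdet, ?_, ?_, ?_⟩
  · rw [bil_form]; simpa using hdisc
  · rw [bil_form]
    simp
    apply mul_left_cancel₀ hn0.ne'
    have ht : t = n * w0 + e * j * (2 * m + (2 * y + 1) * l) := by linear_combination h7
    rw [ht, hm] at hM
    linear_combination hM + (n * w0 ^ 2 - e ^ 2 * (4 * a * m - (j * l) ^ 2)) * hdisc
      + 4 * e ^ 2 * m * hdet
  · rw [bil_form]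
    simp
    linear_combination w0 * hdisc - h7

theorem exists_can {n d M : ℕ} {n2 t : ℤ} (hd : 4 * d = n + 1) (hn : Squarefree n)
    (hM0 : 0 < M) (hM : t ^ 2 - n * n2 = 60 * M) {G : M3} {x w : V3} (h : Inv n n2 t G x w) :
    ∃ c, CanOK n d M t c ∧ Rel G x w (canG n d M c) ![1, 0, 0] (canW n M t c) := by
  have hn0 : (0 : ℤ) < n := by omega
  obtain ⟨G1, w1, r1⟩ := step_one hn w h.1 h.2.1
  obtain ⟨G2, w0, e, r2⟩ := step_two G1 w1
  have r12 := r1.trans r2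
  have h2 := h.rel r12
  obtain ⟨a, b, c, s1, s2, r, rfl⟩ := h2.1.exists_form
  obtain ⟨⟨-, -, hdet⟩, hx, hw, ht⟩ := h2
  rw [det_form] at hdet
  rw [bil_form] at hx hw ht
  simp at hx hw ht
  have hMb : (M : ℤ) = e ^ 2 * b := by
    have : 60 * (M : ℤ) = 60 * (e ^ 2 * b) := by
      rw [← hM, ← hw, ← ht, ← hx]
      linear_combination (-2 * e ^ 2 * b) * hdet
    linarith
  have he : 0 < e := by
    rcases Nat.eq_zero_or_pos e with rfl | he
    · simp at hMb; omega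
    · exact he
  have hb : 0 < b := by
    have : (0 : ℤ) < e ^ 2 * b := by omega
    exact (mul_pos_iff_of_pos_left (by positivity)).1 this
  obtain ⟨m, rfl⟩ := Int.eq_ofNat_of_zero_le hb.le
  have hMm : M = e ^ 2 * m := by exact_mod_cast hMb
  have hm : M / e ^ 2 = m := by rw [hMm, Nat.mul_div_cancel_left _ (by positivity)]
  obtain ⟨r', rfl⟩ : ∃ r', r = 2 * r' + 1 := by
    rcases Int.even_or_odd' r with ⟨k, rfl | rfl⟩
    · exfalso
      have : (n : ℤ) = 4 * (m * c - k ^ 2) := by linear_combination -hx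
      omega
    · exact ⟨k, rfl⟩
  obtain ⟨y, hy⟩ := Int.eq_ofNat_of_zero_le (Int.emod_nonneg r' hb.ne')
  have hym : (y : ℤ) < m := hy ▸ Int.emod_lt_of_pos _ hb
  have r3 := rel_unip a m c s1 s2 (2 * r' + 1) w0 (-e) (-(r' / m))
  have e3 : 2 * r' + 1 + 2 * -(r' / m) * m = 2 * y + 1 := by
    rw [← hy, Int.emod_def]; ring
  rw [e3] at r3
  generalize c + -(r' / m) * (2 * r' + 1) + (-(r' / m)) ^ 2 * m = c' at r3
  generalize s2 + -(r' / m) * s1 = s2' at r3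
  have r123 := r12.trans r3
  have h3 := (h.rel r123).2.1
  rw [bil_form] at h3
  simp at h3
  have hc' : (m : ℤ) * c' = y ^ 2 + y + d := by
    zify at hd
    linarith
  have hyd : m ∣ y ^ 2 + y + d := by
    rw [← Int.natCast_dvd_natCast]
    exact ⟨c', by push_cast; exact hc'.symm⟩
  have hc'' : c' = ((y ^ 2 + y + d) / m : ℕ) := by
    apply mul_left_cancel₀ hb.ne'
    rw [hc']
    exact_mod_cast (Nat.mul_div_cancel' hyd).symm
  obtain ⟨j, hj, u1, u2, hu1, hu2⟩ := exists_shear (n := n) (by omega) h3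
    (l := lam n m) (N := nst n d m y) (by rw [nst_cast, hc'']) (coprime_two_nst hd hn hyd) s1 s2'
  have r4 := rel_shear a m c' s1 s2' (2 * y + 1) u1 u2 ![w0, 0, -e]
  rw [hu1, hu2] at r4
  generalize a + s1 * u1 + s2' * u2 + m * u1 ^ 2 + (2 * y + 1) * u1 * u2 + c' * u2 ^ 2 = a' at r4
  simp only [Matrix.cons_val_zero, Matrix.cons_val_one, Matrix.cons_val] at r4
  generalize w0 + u1 * 0 + u2 * -(e : ℤ) = w0' at r4
  have r1234 := r123.trans r4
  obtain ⟨⟨-, -, hdet4⟩, -, -, ht4⟩ := h.rel r1234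
  rw [det_form] at hdet4
  rw [bil_form] at ht4
  simp at ht4
  have ha' : (j : ℤ) ^ 2 * nst n d m y - 15 = n * a' := by
    rw [nst_cast, ← hc'']
    have : 2 * ((j : ℤ) ^ 2 * (m + (2 * y + 1) * (lam n m : ℤ) + c' * (lam n m : ℤ) ^ 2) - 15)
        = 2 * (n * a') := by linear_combination -hdet4 + 2 * a' * h3
    linarith
  have hw' : t - e * j * tst n m y = n * w0' := by
    rw [tst_cast]
    linear_combination -ht4 + w0' * h3
  refine ⟨(e, y, j), ⟨he, ⟨m, hMm⟩, ?_, ?_, hj, ?_, ?_⟩, ?_⟩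
  · simp only [hm]; exact_mod_cast hym
  · simp only [hm]; exact hyd
  · simp only [hm]; exact ⟨a', ha'⟩
  · simp only [hm]; exact ⟨w0', hw'⟩
  · simp only [canG, canW, hm, ha', hw', Int.mul_ediv_cancel_left _ hn0.ne', ← hc'']
    exact r1234

theorem can_unique {n d M : ℕ} {t : ℤ} (hd : 4 * d = n + 1) (hn : Squarefree n)
    {c c' : ℕ × ℕ × ℕ} (hc : CanOK n d M t c) (hc' : CanOK n d M t c') (g : SL3)
    (hG : g.1 * canG n d M c * g.1ᵀ = canG n d M c') (hx : g.1 *ᵥ ![1, 0, 0] = ![1, 0, 0])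
    (hw : g.1 *ᵥ canW n M t c = canW n M t c') : g.1 = 1 ∧ c = c' := by
  obtain ⟨e, y, j⟩ := c
  obtain ⟨e', y', j'⟩ := c'
  obtain ⟨h1, -, h3, h4, h5, -, -⟩ := hc
  obtain ⟨h1', -, h3', -, h5', -, -⟩ := hc'
  simp only at h1 h3 h4 h5 h1' h3' h5'
  obtain ⟨g, hg⟩ := g
  simp only at hG hx hw ⊢
  have x0 := congrFun hx 0
  have x1 := congrFun hx 1
  have x2 := congrFun hx 2
  have w1 := congrFun hw 1
  have w2 := congrFun hw 2
  simp [mulVec, dotProduct, Fin.sum_univ_three] at x0 x1 x2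
  simp [canW, mulVec, dotProduct, Fin.sum_univ_three, x1, x2, h1.ne'] at w1 w2
  rw [det_fin_three, x0, x1, x2, w1] at hg
  have hpos : 0 < g 2 2 := by
    have : (0 : ℤ) < g 2 2 * e := by rw [w2]; exact_mod_cast h1'
    exact (mul_pos_iff_of_pos_right (by exact_mod_cast h1)).1 this
  have g22 : g 2 2 = 1 := Int.eq_one_of_mul_eq_one_left hpos.le (a := g 1 1) (by linarith)
  have g11 : g 1 1 = 1 := by rw [g22] at hg; linarith
  have hee : e = e' := by rw [g22] at w2; omega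
  subst hee
  have G12 := congrFun (congrFun hG 1) 2
  simp [canG, form, mul_apply, Fin.sum_univ_three, x1, x2, w1, g11, g22] at G12
  have hyy : y = y' ∧ g 2 1 = 0 := by
    have h6 : ((M / e ^ 2 : ℕ) : ℤ) ∣ (y' : ℤ) - y := ⟨g 2 1, by push_cast; linarith⟩
    have h7 : (y' : ℤ) - y = 0 := Int.eq_zero_of_abs_lt_dvd h6 (by rw [abs_lt]; omega)
    refine ⟨by omega, ?_⟩
    have h8 : ((M / e ^ 2 : ℕ) : ℤ) ≠ 0 := by omega
    apply mul_left_cancel₀ h8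
    push_cast
    linarith
  obtain ⟨rfl, g21⟩ := hyy
  have G01 := congrFun (congrFun hG 0) 1
  have G02 := congrFun (congrFun hG 0) 2
  simp only [canG, form, mul_apply, Fin.sum_univ_three, transpose_apply, x0, x1, x2, w1, g11, g22,
    g21, of_apply, cons_val', cons_val_zero, cons_val_one, cons_val_fin_one, Matrix.cons_val]
    at G01 G02
  obtain ⟨rfl, g01, g02⟩ := shear_unique (disc_eq hd h4) (nst_cast n d _ y)
    (coprime_two_nst hd hn h4) h5 h5' (u1 := g 0 1) (u2 := g 0 2) (by linear_combination G01)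
    (by linear_combination G02)
  refine ⟨?_, rfl⟩
  ext i k
  fin_cases i <;> fin_cases k <;> simp [*]

end Pool.Agent.Lib.MP_696deb_nt.Ind
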