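import Pool.Agent.Lib.MP_696deb_nt.Pt15
import Pool.Agent.Shared.Weier.Unif

set_option autoImplicit false

open Complex PeriodPair WeierstrassCurve

namespace Pool.Agent.Lib.MP_696deb_nt

lemma indep_of_im {w : ℂ} (h : w.im ≠ 0) : LinearIndependent ℝ ![w, 1] :=
  LinearIndependent.pair_iff.mpr fun s t hst => by
    have h1 := congr_arg Complex.im hst
    have h2 := congr_arg Complex.re hst
    simp [h] at h1
    simpa [h1] using h2

/-- The lattice spanned by `15 τ` and `1`. -/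
noncomputable def lat15 (τ : ℂ) : PeriodPair :=
  if h : 0 < τ.im then ⟨15 * τ, 1, indep_of_im (by simpa using h.ne')⟩
  else ⟨I, 1, indep_of_im (by simp)⟩

lemma lat15_ω₁ {τ : ℂ} (h : 0 < τ.im) : (lat15 τ).ω₁ = 15 * τ := by rw [lat15, dif_pos h]

lemma lat15_ω₂ (τ : ℂ) : (lat15 τ).ω₂ = 1 := by rw [lat15]; split_ifs <;> rfl

lemma mem_lat15 {τ z : ℂ} (h : 0 < τ.im) :
    z ∈ (lat15 τ).lattice ↔ ∃ m n : ℤ, z = m * (15 * τ) + n := by
  rw [PeriodPair.mem_lattice, lat15_ω₁ h, lat15_ω₂]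
  simp only [mul_one, eq_comm]

/-- The first coordinate on the modular curve of points of order fifteen. -/
noncomputable def kx (L : PeriodPair) (t : ℂ) : ℂ :=
  -((℘[L] t - ℘[L] (6 * t)) * (℘[L] (2 * t) - ℘[L] (4 * t))) /
    ((℘[L] t - ℘[L] (2 * t)) * (℘[L] (6 * t) - ℘[L] (4 * t)))

/-- The second coordinate on the modular curve of points of order fifteen. -/
noncomputable def ky (L : PeriodPair) (t : ℂ) : ℂ :=
  (℘[L] (3 * t) - ℘[L] (6 * t)) / (℘[L] (6 * t) - ℘[L] (7 * t))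

/-- The curve `y ^ 2 + x y + y = x ^ 3 + x ^ 2`. -/
def W1 : WeierstrassCurve ℚ := ⟨1, 1, 1, 0, 0⟩

instance : W1.IsElliptic := ⟨by
  rw [show W1.Δ = -15 by norm_num [W1, Δ, b₂, b₄, b₆, b₈]]; exact Ne.isUnit (by norm_num)⟩

open Classical in
/-- The point of the modular curve attached to a lattice and a point of order fifteen. -/
noncomputable def kpt (L : PeriodPair) (t : ℂ) : Pt W1 ℂ :=
  if h : (W1.baseChange ℂ).toAffine.Nonsingular (kx L t) (ky L t) then .some _ _ h else 0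

end Pool.Agent.Lib.MP_696deb_nt
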