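import Pool.Agent.Lib.MP_696deb_nt.KleinTheta
import Pool.Agent.Lib.MP_696deb_nt.KDefs
import Pool.Agent.Lib.MP_696deb_nt.Unif15

set_option autoImplicit false

open Filter Topology Complex Pool.Agent.Shared.Weier WeierstrassCurve
open scoped Real

namespace Pool.Agent.Lib.MP_696deb_nt

namespace Klein

/-- One half of the product formula for a Klein form. -/
noncomputable def ww (τ : ℂ) (a : ℤ) : ℂ := poch (q1 (15 * τ)) (q1 (a * τ))

/-- The Klein forms of level fifteen. -/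
noncomputable def kk (τ : ℂ) (a : ℤ) : ℂ := q1 (τ * a ^ 2 / 30) * Th (15 * τ) (a * τ)

/-- The division values of the Weierstrass function. -/
noncomputable def pp (τ : ℂ) (a : ℤ) : ℂ := (lat15 τ).weierstrassP (a * τ)

lemma kk_eq (τ : ℂ) (a : ℤ) :
    kk τ a = q1 (τ * (a * (a - 15) / 30)) * (ww τ a * ww τ (15 - a)) := by
  rw [kk, Th, ww, ww, show τ * (a * (a - 15) / 30) = τ * a ^ 2 / 30 + -(a * τ) / 2 by ring, q1_add]
  push_cast
  rw [sub_mul]
  ring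

lemma kk_symm (τ : ℂ) (a : ℤ) : kk τ (15 - a) = kk τ a := by
  rw [kk_eq, kk_eq, sub_sub_cancel, mul_comm (ww τ a)]
  push_cast
  ring_nf

lemma hol_kk (a : ℤ) : Hol fun τ => kk τ a := fun τ h => by
  have hw : ∀ b : ℤ, DifferentiableAt ℂ (fun τ => ww τ b) τ := fun b =>
    differentiableAt_poch ((analyticAt_q1 _).comp (by fun_prop))
      ((analyticAt_q1 _).comp (by fun_prop)) (norm_q1_lt (by simpa using h))
  simp only [kk_eq]
  exact (show DifferentiableAt ℂ (fun τ => q1 (τ * (a * (a - 15) / 30))) τ by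
    unfold q1; fun_prop).mul ((hw _).mul (hw _))

variable {τ : ℂ} (h : 0 < τ.im)

include h

lemma ne_of_not_dvd {a : ℤ} (ha : ¬ 15 ∣ a) (m n : ℤ) : a * τ ≠ m * (15 * τ) + n := fun e => by
  have h1 := congr_arg im e
  simp only [mul_im, intCast_re, intCast_im, zero_mul, add_zero, add_im, re_ofNat, im_ofNat] at h1
  refine ha ⟨m, ?_⟩
  exact_mod_cast mul_right_cancel₀ h.ne' (show (a : ℝ) * τ.im = 15 * m * τ.im by linarith)

lemma notMem {a : ℤ} (ha : ¬ 15 ∣ a) : a * τ ∉ (lat15 τ).lattice := fun e => by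
  obtain ⟨m, n, e⟩ := (mem_lat15 h).mp e
  exact ne_of_not_dvd h ha m n e

lemma kk_ne (a : ℤ) (ha : ¬ 15 ∣ a) : kk τ a ≠ 0 :=
  mul_ne_zero (q1_ne _) (Th_ne (by simpa using h) (ne_of_not_dvd h ha))

lemma pp_congr (a b : ℤ) (hab : 15 ∣ a - b ∨ 15 ∣ a + b) : pp τ a = pp τ b := by
  have key : ∀ a b : ℤ, 15 ∣ a - b → pp τ a = pp τ b := by
    rintro a b ⟨m, hm⟩
    rw [pp, pp, ← (lat15 τ).weierstrassP_add_coe (b * τ) ⟨_, (mem_lat15 h).mpr ⟨m, 0, rfl⟩⟩,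
      show a = b + 15 * m by omega]
    push_cast
    ring_nf
  rcases hab with e | e
  · exact key a b e
  · rw [key a (-b) (by simpa using e), pp, pp, Int.cast_neg, neg_mul, PeriodPair.weierstrassP_neg]

lemma pp_sub (a b c d : ℤ)
    (H : ¬ 15 ∣ a ∧ ¬ 15 ∣ b ∧ (c = a + b ∨ c = 15 - (a + b)) ∧ d = a - b) :
    pp τ b - pp τ a =
      deriv (Th (15 * τ)) 0 ^ 2 * (kk τ c * kk τ d) / (kk τ a ^ 2 * kk τ b ^ 2) := by
  obtain ⟨ha, hb, hc, rfl⟩ := H
  have hω : 0 < (15 * τ).im := by simpa using h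
  have e := wp_sub_of_theta (L := lat15 τ) (differentiable_Th hω) (Th_neg hω)
    (fun z hz => Th_ne hω fun m n e => hz ((mem_lat15 h).mpr ⟨m, n, e⟩)) (deriv_Th_ne hω)
    ⟨-q1 (-(15 * τ) / 2), -(2 * π * I), neg_ne_zero.mpr (q1_ne _), fun z => by
      rw [lat15_ω₁ h, Th_add_omega hω, sub_eq_add_neg, q1_add, q1]
      simp only [q1]
      ring_nf⟩
    ⟨-1, 0, by simp, fun z => by simp [lat15_ω₂, Th_add_one]⟩ (notMem h ha) (notMem h hb)
  have e2 : q1 (τ * (a + b) ^ 2 / 30) * q1 (τ * (a - b) ^ 2 / 30) =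
      q1 (τ * a ^ 2 / 30) ^ 2 * q1 (τ * b ^ 2 / 30) ^ 2 := by
    simp only [sq (q1 _), ← q1_add]
    ring_nf
  rw [eq_div_iff (mul_ne_zero (pow_ne_zero 2 (kk_ne h a ha)) (pow_ne_zero 2 (kk_ne h b hb))),
    show kk τ c = kk τ (a + b) by rcases hc with rfl | rfl <;> simp only [kk_symm]]
  simp only [kk, pp]
  push_cast
  rw [add_mul (a : ℂ), sub_mul (a : ℂ)]
  linear_combination -(q1 (τ * a ^ 2 / 30) ^ 2 * q1 (τ * b ^ 2 / 30) ^ 2) * e -
    deriv (Th (15 * τ)) 0 ^ 2 * Th (15 * τ) (a * τ + b * τ) * Th (15 * τ) (a * τ - b * τ) * e2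

lemma kk_all : deriv (Th (15 * τ)) 0 ≠ 0 ∧ kk τ 1 ≠ 0 ∧ kk τ 2 ≠ 0 ∧ kk τ 3 ≠ 0 ∧ kk τ 4 ≠ 0 ∧
    kk τ 5 ≠ 0 ∧ kk τ 6 ≠ 0 ∧ kk τ 7 ≠ 0 :=
  ⟨deriv_Th_ne (by simpa using h), kk_ne h _ (by decide), kk_ne h _ (by decide),
    kk_ne h _ (by decide), kk_ne h _ (by decide), kk_ne h _ (by decide), kk_ne h _ (by decide),
    kk_ne h _ (by decide)⟩

lemma rel1 : kk τ 2 * kk τ 6 * kk τ 7 + kk τ 1 * kk τ 2 * kk τ 3 = kk τ 3 * kk τ 4 * kk τ 7 := by
  obtain ⟨k0, k1, k2, k3, k4, k5, k6, k7⟩ := kk_all h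
  have : (pp τ 1 - pp τ 6) * (pp τ 2 - pp τ 4) + (pp τ 1 - pp τ 2) * (pp τ 4 - pp τ 6) =
      (pp τ 1 - pp τ 4) * (pp τ 2 - pp τ 6) := by ring
  rw [pp_sub h 6 1 7 5 (by decide), pp_sub h 4 2 6 2 (by decide), pp_sub h 2 1 3 1 (by decide),
    pp_sub h 6 4 5 2 (by decide), pp_sub h 4 1 5 3 (by decide),
    pp_sub h 6 2 7 4 (by decide)] at this
  field_simp at this
  linear_combination this

lemma rel2 : kk τ 2 * kk τ 4 * kk τ 6 = kk τ 1 * kk τ 6 * kk τ 7 + kk τ 1 * kk τ 3 * kk τ 4 := by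
  obtain ⟨k0, k1, k2, k3, k4, k5, k6, k7⟩ := kk_all h
  have : (pp τ 1 - pp τ 3) * (pp τ 2 - pp τ 7) = (pp τ 1 - pp τ 7) * (pp τ 2 - pp τ 3) +
      (pp τ 1 - pp τ 2) * (pp τ 3 - pp τ 7) := by ring
  rw [pp_sub h 3 1 4 2 (by decide), pp_sub h 7 2 6 5 (by decide), pp_sub h 7 1 7 6 (by decide),
    pp_sub h 3 2 5 1 (by decide), pp_sub h 2 1 3 1 (by decide),
    pp_sub h 7 3 5 4 (by decide)] at this
  field_simp at this
  linear_combination this

lemma rel3 : kk τ 3 * kk τ 5 ^ 2 * kk τ 6 =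
    kk τ 1 * kk τ 3 ^ 2 * kk τ 4 + kk τ 2 * kk τ 6 ^ 2 * kk τ 7 := by
  obtain ⟨k0, k1, k2, k3, k4, k5, k6, k7⟩ := kk_all h
  have : pp τ 3 - pp τ 6 = pp τ 5 - pp τ 6 + (pp τ 3 - pp τ 5) := by ring
  rw [pp_sub h 6 3 6 3 (by decide), pp_sub h 6 5 4 1 (by decide),
    pp_sub h 5 3 7 2 (by decide)] at this
  field_simp at this
  linear_combination this

lemma kx_eq : kx (lat15 τ) τ = kk τ 6 * kk τ 7 / (kk τ 1 * kk τ 3) := by
  obtain ⟨k0, k1, k2, k3, k4, k5, k6, k7⟩ := kk_all h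
  have : kx (lat15 τ) τ =
      (pp τ 1 - pp τ 6) * (pp τ 2 - pp τ 4) / ((pp τ 1 - pp τ 2) * (pp τ 4 - pp τ 6)) := by
    simp only [kx, pp, Int.cast_ofNat, Int.cast_one, one_mul]
    rw [← neg_div_neg_eq]
    ring_nf
  rw [this, pp_sub h 6 1 7 5 (by decide), pp_sub h 4 2 6 2 (by decide),
    pp_sub h 2 1 3 1 (by decide), pp_sub h 6 4 5 2 (by decide)]
  field_simp

lemma ky_eq : ky (lat15 τ) τ = kk τ 6 * kk τ 7 ^ 2 / (kk τ 1 * kk τ 2 * kk τ 3) := by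
  obtain ⟨k0, k1, k2, k3, k4, k5, k6, k7⟩ := kk_all h
  have : ky (lat15 τ) τ = (pp τ 3 - pp τ 6) / (pp τ 6 - pp τ 7) := by
    simp only [ky, pp, Int.cast_ofNat]
  rw [this, pp_sub h 6 3 6 3 (by decide), pp_sub h 7 6 2 1 (by decide)]
  field_simp

lemma kx_add_one : kx (lat15 τ) τ + 1 = kk τ 4 * kk τ 7 / (kk τ 1 * kk τ 2) := by
  obtain ⟨k0, k1, k2, k3, k4, k5, k6, k7⟩ := kk_all h
  rw [kx_eq h]
  field_simp
  linear_combination rel1 h

lemma eul_split (d m : ℕ) (hd : m * d = 15) :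
    eul (q1 (d * τ)) = ∏ r ∈ Finset.range m, ww τ ((r + 1) * d) := by
  have h0 : (0 : ℝ) < d := by exact_mod_cast Nat.pos_of_ne_zero (by rintro rfl; omega)
  rw [eul_eq_poch, poch_split (norm_q1_lt (by simpa using mul_pos h0 h)) (m := m)
    (by rintro rfl; omega)]
  refine Finset.prod_congr rfl fun r _ => ?_
  rw [ww, ← pow_succ, ← q1_nat_mul, ← q1_nat_mul, ← mul_assoc, ← Nat.cast_mul, hd]
  push_cast
  rw [mul_assoc]

lemma t15_kk : t15 τ * (kk τ 1 * kk τ 2 * kk τ 4 * kk τ 7) = kk τ 5 ^ 4 := by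
  have e1 := eul_split h 1 15 rfl
  have e3 := eul_split h 3 5 rfl
  have e5 := eul_split h 5 3 rfl
  have e15 := eul_split h 15 1 rfl
  have n1 := eul_ne h
  have n15 := eul_ne (z := 15 * τ) (by simpa using h)
  have n0 := q1_ne τ
  have e : q1 (τ * -(7 / 15)) * q1 (τ * -(13 / 15)) * q1 (τ * -(22 / 15)) * q1 (τ * -(28 / 15)) =
      q1 (τ * -(5 / 3)) ^ 4 * q1 τ ^ 2 := by
    simp only [← q1_add, ← q1_nat_mul]
    ring_nf
  norm_num [Finset.prod_range_succ] at e1 e3 e5 e15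
  rw [t15, etaq_eq (-2) _ _ _ _ (by norm_num), e3, e5]
  simp only [kk_eq, zpow_neg, zpow_ofNat]
  norm_num only
  rw [e15] at n15 ⊢
  generalize eul (q1 τ) = u at e1 n1
  generalize q1 (τ * -(7 / 15)) = a at e
  generalize q1 (τ * -(13 / 15)) = b at e
  generalize q1 (τ * -(22 / 15)) = c at e
  generalize q1 (τ * -(28 / 15)) = d at e
  generalize q1 (τ * -(5 / 3)) = f at e
  field_simp
  rw [e1]
  linear_combination (ww τ 1 * ww τ 2 * ww τ 3 * ww τ 4 * ww τ 5 ^ 5 * ww τ 6 * ww τ 7 * ww τ 8 *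
    ww τ 9 * ww τ 10 ^ 5 * ww τ 11 * ww τ 12 * ww τ 13 * ww τ 14 * ww τ 15) * e

lemma pp_mob {a b c d : ℤ} (H : a * d - b * (15 * c) = 1) (n : ℤ) :
    (lat15 (mob a b (15 * c) d τ)).weierstrassP (n * mob a b (15 * c) d τ) =
      (15 * c * τ + d) ^ 2 * pp τ (n * a) := by
  have hj : (15 * c * τ + d : ℂ) ≠ 0 := by simpa using den_ne (by omega : a * d - b * (15 * c) ≠ 0) h
  have H' : (a * d - b * (15 * c) : ℂ) = 1 := by exact_mod_cast H
  have hm : (15 * c * τ + d) * mob a b (15 * c) d τ = a * τ + b := by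
    rw [mob]; push_cast; field_simp
  rw [wp_scale (L := lat15 τ) hj fun z => ?_, mul_left_comm, hm, pp,
    ← (lat15 τ).weierstrassP_add_coe ((n * a : ℤ) * τ) ⟨_, (mem_lat15 h).mpr ⟨0, n * b, rfl⟩⟩]
  · push_cast
    ring_nf
  rw [mem_lat15 h, mem_lat15 (im_mob_pos (by omega) h)]
  constructor
  · rintro ⟨m, n, rfl⟩
    exact ⟨m * a + n * c, 15 * m * b + n * d, by push_cast; linear_combination 15 * m * hm⟩
  · rintro ⟨m, n, e⟩
    refine ⟨m * d - n * c, n * a - 15 * m * b, mul_left_cancel₀ hj ?_⟩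
    push_cast
    linear_combination e - 15 * (m * d - n * c) * hm - (m * (15 * τ) + n) * H'

lemma kx_mob {a b c d : ℤ} (H : a * d - b * (15 * c) = 1) (ha : 15 ∣ a - 4) :
    kx (lat15 (mob a b (15 * c) d τ)) (mob a b (15 * c) d τ) =
      -(kk τ 2 * kk τ 6 / (kk τ 3 * kk τ 4)) := by
  obtain ⟨k0, k1, k2, k3, k4, k5, k6, k7⟩ := kk_all h
  have hj : (15 * c * τ + d : ℂ) ≠ 0 := by simpa using den_ne (by omega : a * d - b * (15 * c) ≠ 0) h
  have e1 := (pp_mob h H 1).trans (by rw [pp_congr h _ 4 (by omega)])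
  have e2 := (pp_mob h H 2).trans (by rw [pp_congr h _ 7 (by omega)])
  have e4 := (pp_mob h H 4).trans (by rw [pp_congr h _ 1 (by omega)])
  have e6 := (pp_mob h H 6).trans (by rw [pp_congr h _ 6 (by omega)])
  simp only [Int.cast_ofNat, Int.cast_one, one_mul] at e1 e2 e4 e6
  rw [kx, e1, e2, e4, e6]
  simp only [← mul_sub]
  rw [← neg_sub (pp τ 1) (pp τ 7), ← neg_sub (pp τ 1) (pp τ 6), pp_sub h 6 4 5 2 (by decide),
    pp_sub h 7 1 7 6 (by decide), pp_sub h 7 4 4 3 (by decide), pp_sub h 6 1 7 5 (by decide)]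
  field_simp

end Klein

open Klein Unif

/-- The two coordinates satisfy the equation of the curve. -/
theorem klein_eq {τ : ℂ} (h : 0 < τ.im) :
    ky (lat15 τ) τ ^ 2 + kx (lat15 τ) τ * ky (lat15 τ) τ + ky (lat15 τ) τ =
      kx (lat15 τ) τ ^ 3 + kx (lat15 τ) τ ^ 2 ∧ kx (lat15 τ) τ ≠ 0 ∧ kx (lat15 τ) τ + 1 ≠ 0 := by
  obtain ⟨k0, k1, k2, k3, k4, k5, k6, k7⟩ := kk_all h
  refine ⟨?_, by rw [kx_eq h]; positivity, by rw [kx_add_one h]; positivity⟩
  have : ky (lat15 τ) τ ^ 2 + (kx (lat15 τ) τ + 1) * ky (lat15 τ) τ =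
      kx (lat15 τ) τ ^ 2 * (kx (lat15 τ) τ + 1) := by
    rw [kx_add_one h, kx_eq h, ky_eq h]
    field_simp
    linear_combination -rel2 h
  linear_combination this

theorem t15_klein {τ : ℂ} (h : 0 < τ.im) :
    t15 τ = (kx (lat15 τ) τ ^ 2 + kx (lat15 τ) τ + 1) ^ 2 /
      (kx (lat15 τ) τ ^ 2 * (kx (lat15 τ) τ + 1)) := by
  obtain ⟨k0, k1, k2, k3, k4, k5, k6, k7⟩ := kk_all h
  have : kx (lat15 τ) τ ^ 2 + kx (lat15 τ) τ + 1 =
      kk τ 5 ^ 2 * kk τ 6 * kk τ 7 / (kk τ 1 ^ 2 * kk τ 2 * kk τ 3) := by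
    rw [add_assoc, kx_add_one h, kx_eq h]
    field_simp
    linear_combination -rel3 h
  rw [this, kx_add_one h, kx_eq h]
  field_simp
  linear_combination t15_kk h

/-- The derivative of the rational function giving the isogeny. -/
noncomputable def Rd (x : ℂ) : ℂ :=
  (x ^ 2 + x + 1) * (x + 2) * (x ^ 2 - x - 1) / (x ^ 3 * (x + 1) ^ 2)

lemma W1_b₂ : (W1.baseChange ℂ).b₂ = 5 := by
  simp [W1, WeierstrassCurve.baseChange, b₂]; norm_num

lemma W1_nonsingular {K : Type*} [Field K] [CharZero K] (x y : K) :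
    (W1.baseChange K).toAffine.Nonsingular x y ↔ y ^ 2 + x * y + y = x ^ 3 + x ^ 2 := by
  rw [← Affine.equation_iff_nonsingular, Affine.equation_iff]
  simp [W1, WeierstrassCurve.baseChange]

lemma hol_kx : Hol fun τ => kx (lat15 τ) τ := fun τ h =>
  (((hol_kk 6 τ h).mul (hol_kk 7 τ h)).div ((hol_kk 1 τ h).mul (hol_kk 3 τ h))
    (mul_ne_zero (kk_ne h _ (by decide)) (kk_ne h _ (by decide)))).congr_of_eventuallyEq
      (mem_of_superset (upper_mem_nhds h) fun _ hz => kx_eq hz)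

lemma hol_ky : Hol fun τ => ky (lat15 τ) τ := fun τ h =>
  (((hol_kk 6 τ h).mul ((hol_kk 7 τ h).pow 2)).div
    (((hol_kk 1 τ h).mul (hol_kk 2 τ h)).mul (hol_kk 3 τ h)) (mul_ne_zero (mul_ne_zero
      (kk_ne h _ (by decide)) (kk_ne h _ (by decide))) (kk_ne h _ (by decide)))).congr_of_eventuallyEq
      (mem_of_superset (upper_mem_nhds h) fun _ hz => ky_eq hz)

lemma Hol.eq_zero_or {F G : ℂ → ℂ} (hF : Hol F) (hG : Hol G)
    (h : ∀ z : ℂ, 0 < z.im → F z * G z = 0) :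
    (∀ z : ℂ, 0 < z.im → F z = 0) ∨ ∀ z : ℂ, 0 < z.im → G z = 0 :=
  AnalyticOnNhd.eq_zero_or_eq_zero_of_mul_eq_zero (U := {z : ℂ | 0 < z.im})
    (fun _ hz => Hol.analyticAt hF hz) (fun _ hz => Hol.analyticAt hG hz) h
    (convex_halfSpace_im_gt 0).isPreconnected

lemma hol_Rd : Hol fun τ => Rd (kx (lat15 τ) τ) := fun τ h => by
  have h1 := hol_kx τ h
  obtain ⟨-, h2, h3⟩ := klein_eq h
  unfold Rd
  fun_prop (disch := positivity)

lemma exists_ksign : ∃ e : ℤ, (e = 1 ∨ e = -1) ∧ ∀ τ : ℂ, 0 < τ.im →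
    psi15 τ = e * Rd (kx (lat15 τ) τ) * (2 * ky (lat15 τ) τ + kx (lat15 τ) τ + 1) := by
  have hA : Hol fun τ => Rd (kx (lat15 τ) τ) * (2 * ky (lat15 τ) τ + kx (lat15 τ) τ + 1) :=
    fun τ h => (hol_Rd τ h).mul ((((hol_ky τ h).const_mul 2).add (hol_kx τ h)).add_const 1)
  rcases Hol.eq_zero_or (fun τ h => (hol_psi15 τ h).sub (hA τ h))
    (fun τ h => (hol_psi15 τ h).add (hA τ h)) (fun τ h => by
      obtain ⟨h1, h2, h3⟩ := klein_eq h
      have h4 := psi15_sq h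
      rw [t15_klein h] at h4
      simp only [Pi.sub_apply, Pi.add_apply, Rd]
      generalize kx (lat15 τ) τ = x at *
      generalize ky (lat15 τ) τ = y at *
      rw [mul_comm, ← sq_sub_sq, h4, mul_pow, show (2 * y + x + 1) ^ 2 = (x + 1) * (4 * x ^ 2 + x + 1) by
        linear_combination 4 * h1]
      field_simp
      ring) with H | H
  · exact ⟨1, .inl rfl, fun τ h => by simpa [sub_eq_zero] using H τ h⟩
  · exact ⟨-1, .inr rfl, fun τ h => by simpa [add_eq_zero_iff_eq_neg] using H τ h⟩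

lemma exists_psi15_ne : ∃ z : ℂ, 0 < z.im ∧ psi15 z ≠ 0 := by
  have hE := qe_E15.tendsto
  rw [cc_toC] at hE
  obtain ⟨z₀, h0, h1⟩ := (ev_pos.and (hE.eventually_ne (b₂ := 0) (by
    simp [EE15, cc_Sg, cc_Sg3, cc_Sg5, cc_Sg15, map_ofNat]))).exists
  exact ⟨z₀, h0, div_ne_zero (mul_ne_zero (t15_ne h0) h1) (f15_ne h0)⟩

theorem klein_unif_of {L : PeriodPair} (h1 : IsPer L (W1.baseChange ℂ)) : ∃ (e : ℤ) (c : ℂ),
    (e = 1 ∨ e = -1) ∧ (∀ τ : ℂ, 0 < τ.im → kpt (lat15 τ) τ = h1.unif (e * Fi τ + c) ∧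
      psi15 τ = e * Rd (kx (lat15 τ) τ) * (2 * ky (lat15 τ) τ + kx (lat15 τ) τ + 1)) ∧
    h1.unif (2 * wp) ≠ 0 := by
  obtain ⟨e, he, H⟩ := exists_ksign
  obtain ⟨z₀, h0, h0'⟩ := exists_psi15_ne
  have h2 : L.g₂ = 1 / 12 := by
    have := h1.h4
    simp [W1, WeierstrassCurve.baseChange, c₄, b₂, b₄] at this
    linear_combination -this / 12
  have h3 : L.g₃ = -161 / 216 := by
    have := h1.h6
    simp [W1, WeierstrassCurve.baseChange, c₆, b₂, b₄, b₆] at this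
    linear_combination -this / 216
  have he0 : (e : ℂ) ≠ 0 := by rcases he with rfl | rfl <;> simp
  have hd : ∀ τ : ℂ, 0 < τ.im → deriv (fun τ => kx (lat15 τ) τ) τ -
      e * (2 * π * I * f15 τ) * (2 * ky (lat15 τ) τ + kx (lat15 τ) τ + 1) = 0 := by
    refine (Hol.eq_zero_or hol_Rd (fun τ h => (Hol.analyticAt hol_kx h).deriv.differentiableAt.sub
      ((((qe_f15.hol τ h).const_mul _).const_mul _).mul ((((hol_ky τ h).const_mul 2).add
        (hol_kx τ h)).add_const 1))) fun τ h => ?_).resolve_left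
      fun h => h0' (by rw [H z₀ h0, h z₀ h0]; simp)
    obtain ⟨-, k1, k2⟩ := klein_eq h
    have k3 := (hol_kx τ h).hasDerivAt
    have k4 := (hasDerivAt_t15 h).unique ((((((k3.pow 2).add k3).add_const 1).pow 2).div
      ((k3.pow 2).mul (k3.add_const 1)) (mul_ne_zero (pow_ne_zero 2 k1) k2)).congr_of_eventuallyEq
        (mem_of_superset (upper_mem_nhds h) fun _ hz => t15_klein hz))
    rw [H τ h] at k4
    simp only [Pi.sub_apply, Pi.add_apply, Pi.mul_apply, Pi.pow_apply] at k4 ⊢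
    rw [mul_sub, sub_eq_zero]
    refine Eq.trans ?_ (k4.symm.trans (by ring))
    rw [Rd]
    field_simp
    ring
  obtain ⟨c, hc⟩ := P_comp L (U := {z | 0 < z.im}) (isOpen_lt continuous_const continuous_im)
    (convex_halfSpace_im_gt 0).isPreconnected (F := fun z => e * Fi z)
    (A := fun τ => kx (lat15 τ) τ + 5 / 12)
    (A₁ := fun τ => 2 * ky (lat15 τ) τ + kx (lat15 τ) τ + 1)
    (fun _ hz => (hasDerivAt_Fi hz).const_mul _)
    (fun _ hz => mul_ne_zero he0 (mul_ne_zero two_pi_I (f15_ne hz)))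
    (fun z hz => ((hol_kx z hz).hasDerivAt.add_const _).congr_deriv (sub_eq_zero.mp (hd z hz)))
    (fun z hz => (((hol_ky z hz).const_mul 2).add (hol_kx z hz)).add_const 1)
    (fun _ hz => by rw [h2, h3]; linear_combination 4 * (klein_eq hz).1) h0
    (right_ne_zero_of_mul (H z₀ h0 ▸ h0'))
  refine ⟨e, c, he, fun τ h => ⟨?_, H τ h⟩, fun hw => ?_⟩
  · obtain ⟨k1, k2, k3⟩ := hc τ h
    have k4 : ux L (W1.baseChange ℂ) (e * Fi τ + c) = kx (lat15 τ) τ := by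
      rw [ux, ← k2, W1_b₂]; ring
    rw [kpt, dif_pos ((W1_nonsingular _ _).mpr (klein_eq h).1)]
    refine ((h1.unif_eq_some_iff _).mpr ⟨k1, k4, ?_⟩).symm
    rw [uy, k4, ← k3]
    simp [W1, WeierstrassCurve.baseChange]
    ring
  · have k1 : ms 34 (15 * 5) = 2 * wp := by
      have := ms_mul4 (7, -1, 15, -2) (7, -1, 15, -2) (by decide) (by decide)
      rw [ms_gp] at this
      rw [two_mul, ← this]
      rfl
    have k2 : ∀ τ : ℂ, 0 < τ.im → (t15 τ)⁻¹ = -4 / 9 := fun τ h => by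
      obtain ⟨k0, l1, l2, l3, l4, l5, l6, l7⟩ := kk_all h
      have k3 := (hc _ (im_mob_pos (a := 34) (b := -5) (c := 15 * 5) (d := -11) (by norm_num) h)).2.1
      rw [Fi_Gamma0 (by norm_num) h, k1, mul_add, add_right_comm, L.weierstrassP_add_coe _
        ⟨_, by simpa using L.lattice.smul_mem e (h1.unif_eq_zero_iff.mp hw)⟩, ← (hc τ h).2.1,
        kx_mob h (by norm_num) (by norm_num), add_left_inj] at k3
      have k4 : kx (lat15 τ) τ * (kx (lat15 τ) τ + 1 + 1) = 0 := by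
        rw [mul_add, mul_one]
        nth_rw 1 [← k3]
        rw [kx_add_one h, kx_eq h]
        field_simp
        ring
      rw [t15_klein h, show kx (lat15 τ) τ = -2 by
        linear_combination (mul_eq_zero.mp k4).resolve_left (klein_eq h).2.1]
      norm_num
    have := tendsto_nhds_unique tendsto_t15_inv
      (tendsto_const_nhds.congr' (ev_pos.mono fun z hz => (k2 z hz).symm))
    norm_num at this

/-- The uniformization of the modular curve of points of order fifteen. -/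
theorem klein_unif : ∃ (L1 : PeriodPair) (h1 : IsPer L1 (W1.baseChange ℂ)) (e : ℤ) (c : ℂ),
    (e = 1 ∨ e = -1) ∧ (∀ τ : ℂ, 0 < τ.im → kpt (lat15 τ) τ = h1.unif (e * Fi τ + c) ∧
      psi15 τ = e * Rd (kx (lat15 τ) τ) * (2 * ky (lat15 τ) τ + kx (lat15 τ) τ + 1)) ∧
    h1.unif (2 * wp) ≠ 0 := by
  obtain ⟨L, h2, h3⟩ := exists_periodPair (g₂ := 1 / 12) (g₃ := -161 / 216) (by norm_num)
    (by norm_num) (by norm_num)
  have h1 : IsPer L (W1.baseChange ℂ) := by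
    constructor <;> simp [h2, h3, W1, WeierstrassCurve.baseChange, c₄, c₆, b₂, b₄, b₆] <;> norm_num
  exact ⟨L, h1, klein_unif_of h1⟩

end Pool.Agent.Lib.MP_696deb_nt
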