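import Pool.Agent.Lib.MP_696deb_nt.HDefs
import Pool.Agent.Lib.MP_696deb_nt.Transport

set_option autoImplicit false

open Filter Topology Complex Pool.Agent.Shared.Weier WeierstrassCurve

namespace Pool.Agent.Lib.MP_696deb_nt

open Klein Unif

lemma tendsto_ww (a : ℕ) (ha : a ≠ 0) : Tendsto (fun τ => ww τ a) atI (𝓝 1) := by
  have h := (differentiableAt_poch (x := fun q => q ^ 15) (w := fun q => q ^ a) (s := 0)
    (by fun_prop) (by fun_prop) (by simp)).continuousAt.tendsto.comp tendsto_q1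
  simp only [zero_pow ha, poch_zero] at h
  refine h.congr fun τ => ?_
  simp only [Function.comp, ww, ← q1_nat_mul, Nat.cast_ofNat, Int.cast_natCast]

lemma tendsto_kx_inv : Tendsto (fun τ => (kx (lat15 τ) τ)⁻¹) atI (𝓝 0) := by
  have h := (tendsto_q1.pow 2).mul
    ((((tendsto_ww 1 (by simp)).mul (tendsto_ww 14 (by simp))).mul
      ((tendsto_ww 3 (by simp)).mul (tendsto_ww 12 (by simp)))).div
    (((tendsto_ww 6 (by simp)).mul (tendsto_ww 9 (by simp))).mul
      ((tendsto_ww 7 (by simp)).mul (tendsto_ww 8 (by simp)))) (by simp))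
  rw [zero_pow two_ne_zero, zero_mul] at h
  refine h.congr' (ev_pos.mono fun τ hτ => ?_)
  have e : q1 (τ * -(7 / 15)) * q1 (τ * -(6 / 5)) =
      q1 τ ^ 2 * (q1 (τ * -(9 / 5)) * q1 (τ * -(28 / 15))) := by
    simp only [← q1_add, ← q1_nat_mul]
    ring_nf
  have n1 := q1_ne (τ * -(9 / 5))
  have n2 := q1_ne (τ * -(28 / 15))
  simp only [kx_eq hτ, kk_eq, inv_div, Pi.div_apply]
  norm_num only
  rw [mul_mul_mul_comm (q1 _), e, mul_mul_mul_comm (q1 _) _ (q1 _), mul_assoc (q1 τ ^ 2),
    mul_div_assoc (q1 τ ^ 2), mul_div_mul_left _ _ (mul_ne_zero n1 n2)]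

/-- The facts on Klein forms used in the induction. -/
theorem kl : Kl := by
  obtain ⟨e, c, he, H, hw⟩ := klein_unif_of isPer1
  have hx : ∀ τ : ℂ, 0 < τ.im → kx (lat15 τ) τ = L1.weierstrassP (e * Fi τ + c) - 5 / 12 :=
    fun τ h => by
      have k := (H τ h).1
      rw [kpt, dif_pos ((W1_nonsingular _ _).mpr (klein_eq h).1)] at k
      rw [← ((isPer1.unif_eq_some_iff _).mp k.symm).2.1, ux, W1_b₂]
  have hc : c ∈ L1.lattice := by
    by_contra h
    have k1 : Tendsto (fun z => L1.weierstrassP (e * Fi z + c)) atI (𝓝 (L1.weierstrassP c)) :=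
      (hasDerivAt_wp h).continuousAt.tendsto.comp
        (by simpa using (tendsto_Fi.const_mul (e : ℂ)).add_const c)
    have k2 := (k1.sub_const (5 / 12)).mul tendsto_kx_inv
    rw [mul_zero] at k2
    refine one_ne_zero (tendsto_nhds_unique tendsto_const_nhds
      (k2.congr' (ev_pos.mono fun w hw => ?_)))
    simp only [← hx w hw, mul_inv_cancel₀ (klein_eq hw).2.1]
  refine ⟨⟨e, he, fun τ h => ?_⟩, fun l hl => ?_, hw⟩
  · rw [(H τ h).1, map_add, isPer1.unif_eq_zero_iff.mpr hc, add_zero, u1]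
  let G : ℂ → ℂ := fun u => L1.weierstrassP u - 5 / 12
  have hG : Meromorphic G := L1.meromorphic_weierstrassP.sub (by fun_prop)
  have h1 : L15.weierstrassP =ᶠ[𝓝 (Fi I)]
      fun u => (G u ^ 2 + G u + 1) ^ 2 / (G u ^ 2 * (G u + 1)) - 7 / 12 := by
    rw [← map_Fi_nhds (by simp), EventuallyEq, eventually_map]
    filter_upwards [upper_mem_nhds (z := I) (by simp)] with z hz
    rw [P_Fi hz, t15_klein hz, hx z hz, L1.weierstrassP_add_coe _ ⟨c, hc⟩]
    rcases he with rfl | rfl <;> simp [G]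
  have h2 := fun y => mero_ext isPreconnected_univ (y := y)
    L15.meromorphic_weierstrassP.meromorphicOn (fun z _ => by fun_prop) trivial trivial
    (h1.filter_mono nhdsWithin_le_nhds)
  have h3 : Tendsto (fun z : ℂ => z + l) (𝓝[≠] 0) (𝓝[≠] l) :=
    tendsto_nhdsWithin_of_tendsto_nhds_of_eventually_within _
      (by simpa using ((continuous_add_const l).tendsto 0).mono_left nhdsWithin_le_nhds)
      (eventually_mem_nhdsWithin.mono fun z hz => by simpa using hz)
  refine Gal.mem_of_pole (L := L15) (g := fun _ => 0) continuousAt_const ?_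
  filter_upwards [h2 0, h3.eventually (h2 l)] with z k1 k2
  rw [add_zero, k1, k2]
  simp only [G, L1.weierstrassP_add_coe z ⟨l, hl⟩]

end Pool.Agent.Lib.MP_696deb_nt
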