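import Pool.Agent.Lib.MP_696deb_nt.Klein

set_option autoImplicit false

open WeierstrassCurve Pool.Agent.Shared.Weier

namespace Pool.Agent.Lib.MP_696deb_nt

section

variable {K : Type*} [Field K] [CharZero K]

lemma dup1_W1 (x : K) : dup1 (W1.baseChange K) x = (x ^ 2 - x - 1) * (x ^ 2 + x + 1) := by
  simp [dup1, W1, WeierstrassCurve.baseChange, b₄, b₆, b₈]; ring

lemma dup2_W1 (x : K) : dup2 (W1.baseChange K) x = (x + 1) * (4 * x ^ 2 + x + 1) := by
  simp [dup2, W1, WeierstrassCurve.baseChange, b₂, b₄, b₆]; ring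

lemma ne_of_fix {s : K →+* K} {r a : K} (h0 : r ^ 2 ≠ 0) (hr : s r = -r) (ha : s a = a) :
    a ^ 2 ≠ r ^ 2 := fun h => by
  rcases sq_eq_sq_iff_eq_or_eq_neg.mp h with rfl | rfl
  · exact h0 (by rw [CharZero.neg_eq_self_iff.mp (hr.symm.trans ha)]; simp)
  · rw [map_neg, neg_inj] at ha
    exact h0 (by rw [CharZero.neg_eq_self_iff.mp (hr.symm.trans ha)]; simp)

end

/-- The rational point of order four. -/
noncomputable def T1 : Pt W1 ℂ := .some 0 0 ((W1_nonsingular _ _).mpr (by norm_num))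

theorem neg_T1 : -T1 = .some 0 (-1) ((W1_nonsingular _ _).mpr (by norm_num)) := by
  rw [T1, Affine.Point.neg_some]
  exact IsPer.some_congr rfl (by simp [W1, WeierstrassCurve.baseChange])

theorem two_T1 : 2 • T1 = .some (-1) 0 ((W1_nonsingular _ _).mpr (by norm_num)) := by
  obtain ⟨y, h, e⟩ := two_nsmul_some ((W1_nonsingular (0 : ℂ) 0).mpr (by norm_num))
    (by simp [dup2_W1])
  have h1 := (W1_nonsingular _ _).mp h
  have h2 : dup1 (W1.baseChange ℂ) 0 / dup2 (W1.baseChange ℂ) 0 = -1 := by simp [dup1_W1, dup2_W1]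
  rw [h2] at h1
  exact e.trans (IsPer.some_congr h2 (pow_eq_zero_iff two_ne_zero |>.mp (by linear_combination h1)))

theorem two_T1_ne : 2 • T1 ≠ 0 := two_T1 ▸ Affine.Point.some_ne_zero _

theorem four_T1 : 4 • T1 = 0 := by
  rw [show 4 = 2 * 2 from rfl, mul_smul, two_T1]
  exact two_nsmul_eq_zero _ (by simp [dup2_W1])

theorem addOrderOf_T1 : addOrderOf T1 = 4 :=
  addOrderOf_eq_prime_pow (p := 2) (n := 1) two_T1_ne four_T1

theorem pmap_T1 (s : ℂ →+* ℂ) : pmap s T1 = T1 := IsPer.some_congr (map_zero s) (map_zero s)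

theorem mem_of_xco {P : Pt W1 ℂ} (h : xco P = 0 ∨ xco P = -1) : ∃ n : ℤ, P = n • T1 := by
  rcases P with _ | ⟨x, y, hP⟩
  · exact ⟨0, rfl⟩
  have e := (W1_nonsingular _ _).mp hP
  rcases h with rfl | rfl
  · rcases mul_eq_zero.mp (show y * (y + 1) = 0 by linear_combination e) with rfl | h
    · exact ⟨1, (one_zsmul _).symm⟩
    · exact ⟨-1, by
        rw [neg_one_zsmul, neg_T1]; exact IsPer.some_congr rfl (eq_neg_of_add_eq_zero_left h)⟩
  · exact ⟨2, by
      rw [two_zsmul, ← two_nsmul, two_T1]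
      exact IsPer.some_congr rfl (pow_eq_zero_iff two_ne_zero |>.mp (by linear_combination e))⟩

/-- The two-power torsion fixed by three suitable field homomorphisms. -/
theorem klein_tors {s1 s2 s3 : ℂ →+* ℂ} {r1 r2 r3 : ℂ} (h1 : r1 ^ 2 = -15) (k1 : s1 r1 = -r1)
    (h2 : r2 ^ 2 = -3) (k2 : s2 r2 = -r2) (h3 : r3 ^ 2 = 5) (k3 : s3 r3 = -r3) (j : ℕ)
    {P : Pt W1 ℂ} (hP : 2 ^ j • P = 0) (f1 : pmap s1 P = P) (f2 : pmap s2 P = P)
    (f3 : pmap s3 P = P) : ∃ n : ℤ, P = n • T1 := by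
  refine mem_of_xco ?_
  induction j generalizing P with
  | zero => exact .inl (by rw [← one_smul ℕ P, ← pow_zero 2, hP, xco_zero])
  | succ j ih =>
    have H := ih (P := 2 • P) (by rw [← mul_smul, ← pow_succ, hP]) (by rw [map_nsmul, f1])
      (by rw [map_nsmul, f2]) (by rw [map_nsmul, f3])
    have x1 := (xco_pmap s1 P).symm.trans (congr_arg xco f1)
    have y1 := (yco_pmap s1 P).symm.trans (congr_arg yco f1)
    have x2 := (xco_pmap s2 P).symm.trans (congr_arg xco f2)
    have x3 := (xco_pmap s3 P).symm.trans (congr_arg xco f3)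
    rcases P with _ | ⟨x, y, h⟩
    · exact .inl rfl
    have e := (W1_nonsingular _ _).mp h
    simp only [xco_some, yco_some] at x1 y1 x2 x3 ⊢
    have n1 := ne_of_fix (a := 8 * x + 1) (by simp [h1]) k1 (by simp [x1, map_ofNat])
    have n2 := ne_of_fix (a := 2 * y - 1) (by simp [h1]) k1 (by simp [y1, map_ofNat])
    have n3 := ne_of_fix (a := 2 * x + 1) (by simp [h2]) k2 (by simp [x2, map_ofNat])
    have n4 := ne_of_fix (a := 2 * x - 1) (by simp [h3]) k3 (by simp [x3, map_ofNat])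
    by_contra! hx
    have d : (x + 1) * (4 * x ^ 2 + x + 1) ≠ 0 :=
      mul_ne_zero (fun h => hx.2 (eq_neg_of_add_eq_zero_left h))
        fun h => n1 (by linear_combination 16 * h - h1)
    rw [xco_two_nsmul, dup1_W1, dup2_W1, div_eq_iff d, div_eq_iff d, zero_mul, mul_eq_zero] at H
    rcases H with (H | H) | H
    · exact n4 (by linear_combination 4 * H - h3)
    · exact n3 (by linear_combination 4 * H - h2)
    · have : x = -2 := by
        have := mul_left_cancel₀ (pow_ne_zero 2 hx.1)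
          (show x ^ 2 * (x + 2) ^ 2 = x ^ 2 * 0 by linear_combination H)
        linear_combination pow_eq_zero_iff two_ne_zero |>.mp this
      subst this
      exact n2 (by linear_combination 4 * e - h1)

end Pool.Agent.Lib.MP_696deb_nt
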