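import Pool.Agent.Lib.MP_696deb_nt.Param

/-! Laurent expansions at infinity with coefficients in a subgroup of the complex numbers. -/

open PowerSeries Filter Topology Complex
open scoped Real

namespace Pool.Agent.Lib.MP_696deb_nt

/-- All coefficients lie in `S`. -/
def Cf (S : AddSubgroup ℂ) (A : ℂ⟦X⟧) : Prop := ∀ k, coeff k A ∈ S

/-- `F` has a Laurent expansion at infinity with coefficients in `S`. -/
def LE (S : AddSubgroup ℂ) (F : ℂ → ℂ) : Prop :=
  ∃ n : ℕ, ∃ A, QE (fun z => q1 z ^ n * F z) A ∧ Cf S A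

variable {S T U : AddSubgroup ℂ} {A B : ℂ⟦X⟧} {F G : ℂ → ℂ}

lemma Cf.add (h : Cf S A) (h' : Cf S B) : Cf S (A + B) := fun k => by
  rw [map_add]; exact S.add_mem (h k) (h' k)

lemma Cf.sub (h : Cf S A) (h' : Cf S B) : Cf S (A - B) := fun k => by
  rw [map_sub]; exact S.sub_mem (h k) (h' k)

lemma Cf.mul (h : Cf S A) (h' : Cf T B) (hm : ∀ s ∈ S, ∀ t ∈ T, s * t ∈ U) : Cf U (A * B) :=
  fun k => by rw [coeff_mul]; exact U.sum_mem fun x _ => hm _ (h _) _ (h' _)

lemma Cf.X_pow_mul (h : Cf S A) (n : ℕ) : Cf S (X ^ n * A) := fun k => by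
  rw [coeff_X_pow_mul']
  split_ifs
  exacts [h _, S.zero_mem]

lemma Cf.of_X_mul (h : Cf S (X * A)) : Cf S A := fun k => by
  simpa only [coeff_succ_X_mul] using h (k + 1)

lemma Cf.const {c : ℂ} (h : c ∈ S) : Cf S (C c) := fun k => by
  rw [coeff_C]
  split_ifs
  exacts [h, S.zero_mem]

lemma Cf.const_mul_toC {c : ℂ} (h : c ∈ S) (A : ℤ⟦X⟧) : Cf S (C c * toC A) := fun k => by
  rw [coeff_C_mul, coeff_map, mul_comm, eq_intCast, ← zsmul_eq_mul]
  exact S.zsmul_mem h _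

lemma Cf.expand (h : Cf S A) (d : ℕ) (hd : d ≠ 0) : Cf S (PowerSeries.expand d hd A) := fun k => by
  rw [coeff_expand]
  split_ifs
  exacts [h _, S.zero_mem]

lemma Cf.of_expand {d : ℕ} {hd : d ≠ 0} (h : Cf S (PowerSeries.expand d hd A)) : Cf S A :=
  fun k => by simpa only [coeff_expand_mul] using h (d * k)

lemma QE.pow_mul (h : QE F A) (n : ℕ) : QE (fun z => q1 z ^ n * F z) (X ^ n * A) :=
  (QE.q.pow n).mul h

lemma QE.shift (h : QE F A) (c : ℝ) : QE (fun z => F (z + c)) (rescale (q1 c) A) :=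
  QE.of_hasSum fun z hz => by
    have := h.hasSum (z := z + c) (by simpa using hz)
    simp only [q1_add, mul_pow] at this
    simp only [coeff_rescale]
    convert this using 2
    ring

lemma hol_q1 : Hol q1 := QE.q.hol

lemma hol_of_pow_mul {n : ℕ} (h : QE (fun z => q1 z ^ n * F z) A) : Hol F := fun z hz => by
  have : DifferentiableAt ℂ (fun z => (q1 z ^ n * F z) / q1 z ^ n) z :=
    (h.hol z hz).div ((hol_q1 z hz).pow n) (pow_ne_zero _ (q1_ne z))
  simpa only [mul_div_cancel_left₀ _ (pow_ne_zero _ (q1_ne _))] using this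

/-- Descent of an expansion in a root of the parameter. -/
lemma exists_qe_of_comp {N n : ℕ} (hN : N ≠ 0) (hp : ∀ z : ℂ, 0 < z.im → F (z + 1) = F z)
    (h : QE (fun z => q1 z ^ (N * n) * F (N * z)) B) :
    ∃ A, QE (fun z => q1 z ^ n * F z) A ∧ PowerSeries.expand N hN A = B := by
  have hN' : (N : ℂ) ≠ 0 := by exact_mod_cast hN
  have hr : (0 : ℝ) < (N : ℝ)⁻¹ := inv_pos.mpr (by exact_mod_cast Nat.pos_of_ne_zero hN)
  have e : ∀ z : ℂ, q1 z ^ n * F z = q1 (((N : ℝ)⁻¹ : ℝ) * z + 0) ^ (N * n) *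
      F (N * (((N : ℝ)⁻¹ : ℝ) * z + 0)) := fun z => by
    rw [pow_mul, ← q1_nat_mul N]
    push_cast
    rw [add_zero, mul_inv_cancel_left₀ hN']
  obtain ⟨A, hA⟩ := QE.exists_of_periodic (F := fun z => q1 z ^ n * F z) (fun z hz => by
      simp only [e]
      exact (h.hol _ (by simpa using mul_pos hr hz)).comp z (by fun_prop))
    (fun z hz => by rw [hp z hz, q1_add, show q1 1 = 1 by simpa using q1_int 1, mul_one])
    ((h.bdd.comp_affine hr 0).congr fun z _ => e z)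
  exact ⟨A, hA, (hA.expand N hN).unique h fun z _ => by rw [q1_nat_mul, ← pow_mul]⟩

namespace LE

lemma congr (h : LE S F) (hF : ∀ z : ℂ, 0 < z.im → G z = F z) : LE S G := by
  obtain ⟨n, A, h1, h2⟩ := h
  exact ⟨n, A, h1.congr fun z hz => by rw [hF z hz], h2⟩

lemma mono (h : LE S F) (hS : S ≤ T) : LE T F := by
  obtain ⟨n, A, h1, h2⟩ := h
  exact ⟨n, A, h1, fun k => hS (h2 k)⟩

lemma hol (h : LE S F) : Hol F := by
  obtain ⟨n, A, h1, -⟩ := h
  exact hol_of_pow_mul h1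

lemma const {c : ℂ} (h : c ∈ S) : LE S fun _ => c :=
  ⟨0, _, (QE.const c).congr fun z _ => by simp, Cf.const h⟩

lemma add (h : LE S F) (h' : LE S G) : LE S (F + G) := by
  obtain ⟨n, A, h1, h2⟩ := h
  obtain ⟨m, B, h3, h4⟩ := h'
  exact ⟨m + n, _, ((h1.pow_mul m).add (h3.pow_mul n)).congr fun z _ => by
    simp only [Pi.add_apply]; ring, (h2.X_pow_mul m).add (h4.X_pow_mul n)⟩

lemma neg (h : LE S F) : LE S (-F) := by
  obtain ⟨n, A, h1, h2⟩ := h
  exact ⟨n, _, h1.neg.congr fun z _ => by simp, fun k => by rw [map_neg]; exact S.neg_mem (h2 k)⟩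

lemma mul (h : LE S F) (h' : LE T G) (hm : ∀ s ∈ S, ∀ t ∈ T, s * t ∈ U) : LE U (F * G) := by
  obtain ⟨n, A, h1, h2⟩ := h
  obtain ⟨m, B, h3, h4⟩ := h'
  exact ⟨n + m, _, (h1.mul h3).congr fun z _ => by simp only [Pi.mul_apply]; ring, h2.mul h4 hm⟩

lemma of_comp {N : ℕ} (hN : N ≠ 0) (hp : ∀ z : ℂ, 0 < z.im → F (z + 1) = F z)
    (h : LE S fun z => F (N * z)) : LE S F := by
  obtain ⟨n, B, h1, h2⟩ := h
  obtain ⟨N, rfl⟩ := Nat.exists_eq_succ_of_ne_zero hN
  obtain ⟨A, h3, h4⟩ := exists_qe_of_comp (n := n) hN hp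
    ((h1.pow_mul (N * n)).congr fun z _ => by rw [Nat.succ_mul, pow_add, mul_assoc])
  exact ⟨n, A, h3, Cf.of_expand (h4 ▸ h2.X_pow_mul _)⟩

end LE

/-- The ring of functions with Laurent expansion over a subring. -/
def LR (R : Subring ℂ) : Subring (ℂ → ℂ) where
  carrier := {F | LE R.toAddSubgroup F}
  mul_mem' h h' := LE.mul h h' fun _ hs _ ht => R.mul_mem hs ht
  one_mem' := LE.const R.one_mem
  add_mem' := LE.add
  zero_mem' := LE.const R.zero_mem
  neg_mem' := LE.neg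

/-- `F` has an integral Laurent expansion at infinity. -/
def LZ (F : ℂ → ℂ) : Prop := ∃ n : ℕ, ∃ A : ℤ⟦X⟧, QE (fun z => q1 z ^ n * F z) (toC A)

lemma LZ.mem (h : LZ F) (R : Subring ℂ) : F ∈ LR R := by
  obtain ⟨n, A, h⟩ := h
  exact ⟨n, _, h, fun k => by rw [coeff_map]; exact intCast_mem R _⟩

lemma qe_affine {n : ℕ} (h : QE (fun z => q1 z ^ n * F z) A) {a : ℕ} (ha : a ≠ 0) (c : ℝ) :
    QE (fun z => q1 z ^ (a * n) * F (a * z + c))
      (C ((q1 c ^ n)⁻¹) * PowerSeries.expand a ha (rescale (q1 c) A)) :=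
  (((h.shift c).expand a ha).smul _).congr fun z _ => by
    have := q1_ne c
    rw [q1_add, q1_nat_mul, pow_mul, mul_pow]
    field_simp

section valuation
variable {Γ : Type*} [LinearOrderedCommGroupWithZero Γ] (V : Valuation ℂ Γ)

/-- The ideal of functions whose Laurent expansion vanishes in the residue field. -/
def LI : Ideal (LR V.integer) where
  carrier := {F | LE (V.ltAddSubgroup 1) F.1}
  add_mem' := LE.add
  zero_mem' := LE.const (AddSubgroup.zero_mem _)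
  smul_mem' F _ h := LE.mul F.2 h fun s hs t ht => by
    rw [Valuation.mem_ltAddSubgroup_iff, map_mul]
    exact mul_lt_one_of_nonneg_of_lt_one_right hs zero_le ht

lemma val_int (n : ℤ) : V n ≤ 1 := intCast_mem V.integer n

lemma val_nat (n : ℕ) : V n ≤ 1 := natCast_mem V.integer n

lemma val_eq_one_of_pow {x : ℂ} {n : ℕ} (hn : n ≠ 0) (h : x ^ n = 1) : V x = 1 := by
  have := congr_arg V h
  rwa [map_pow, map_one, pow_eq_one_iff_left hn] at this

lemma val_pow_sub_pow_le {x y : ℂ} (hx : V x ≤ 1) (hy : V y ≤ 1) (k : ℕ) :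
    V (x ^ k - y ^ k) ≤ V (x - y) := by
  rw [← (Commute.all x y).geom_sum₂_mul, map_mul]
  refine mul_le_of_le_one_left' (V.map_sum_le fun i _ => ?_)
  rw [map_mul, map_pow, map_pow]
  exact mul_le_one' (pow_le_one' hx _) (pow_le_one' hy _)

lemma q1_div_pow_eq_one (b : ℤ) {d : ℕ} (hd : d ≠ 0) : q1 ((b / d : ℝ) : ℂ) ^ d = 1 := by
  have : (d : ℂ) ≠ 0 := by exact_mod_cast hd
  rw [← q1_nat_mul, ← q1_int b]
  congr 1
  push_cast
  field_simp

lemma LZ.affine_mem (h : LZ F) {a : ℕ} (ha : a ≠ 0) {c : ℝ} (hc : V (q1 c) = 1) :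
    (fun z => F (a * z + c)) ∈ LR V.integer := by
  obtain ⟨n, A, h⟩ := h
  refine ⟨_, _, qe_affine h ha c, (Cf.const (S := V.integer.toAddSubgroup) ?_).mul
    (Cf.expand (S := V.integer.toAddSubgroup) (fun k => ?_) a ha)
    fun _ hs _ ht => V.integer.mul_mem hs ht⟩
  · change V _ ≤ 1
    rw [map_inv₀, map_pow, hc, one_pow, inv_one]
  · change V _ ≤ 1
    rw [coeff_rescale, map_mul, map_pow, hc, one_pow, one_mul, coeff_map]
    exact val_int V _

lemma LZ.affine_sub (h : LZ F) {a : ℕ} (ha : a ≠ 0) {c : ℝ} (hc : V (q1 c - 1) < 1) :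
    LE (V.ltAddSubgroup 1) fun z => F (a * z + c) - F (a * z) := by
  obtain ⟨n, A, h⟩ := h
  have h1 : V (q1 c) = 1 := by simpa using V.map_one_add_of_lt hc
  have h2 : ∀ k, V (q1 c ^ k - 1) < 1 := fun k => by
    have := val_pow_sub_pow_le V h1.le V.map_one.le k
    rw [one_pow] at this
    exact this.trans_lt hc
  refine ⟨a * n, _, ((qe_affine h ha c).sub (h.expand a ha)).congr fun z _ => by
    rw [q1_nat_mul, ← pow_mul, mul_sub], fun k => ?_⟩
  rw [map_sub, coeff_C_mul, coeff_expand, coeff_expand]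
  split_ifs
  · have := q1_ne c
    rw [coeff_rescale, show (q1 c ^ n)⁻¹ * (q1 c ^ (k / a) * coeff (k / a) (toC A)) -
      coeff (k / a) (toC A) = (q1 c ^ n)⁻¹ * coeff (k / a) (toC A) *
        ((q1 c ^ (k / a) - 1) - (q1 c ^ n - 1)) by field_simp; ring,
      Valuation.mem_ltAddSubgroup_iff, map_mul, map_mul, map_inv₀, map_pow, h1, one_pow, inv_one,
      one_mul, coeff_map]
    exact mul_lt_one_of_nonneg_of_lt_one_right (val_int V _) zero_le
      (V.map_sub_lt (h2 _) (h2 _))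
  · simp

lemma exists_expand_sub_pow {p : ℕ} (hp : p.Prime) (A : ℤ⟦X⟧) :
    ∃ B : ℤ⟦X⟧, PowerSeries.expand p hp.ne_zero A - A ^ p = p * B := by
  have := Fact.mk hp
  have h1 : PowerSeries.map (Int.castRingHom (ZMod p))
      (PowerSeries.expand p hp.ne_zero A - A ^ p) = 0 := by
    have := MvPowerSeries.map_frobenius_expand p hp.ne_zero
      (f := PowerSeries.map (Int.castRingHom (ZMod p)) A)
    rw [ZMod.frobenius_zmod, MvPowerSeries.map_id] at this
    rw [map_sub, map_expand, map_pow, sub_eq_zero]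
    exact this
  have h2 : ∀ k, (p : ℤ) ∣ coeff k (PowerSeries.expand p hp.ne_zero A - A ^ p) := fun k => by
    have := congr_arg (coeff k) h1
    rwa [coeff_map, map_zero, eq_intCast, ZMod.intCast_zmod_eq_zero_iff_dvd] at this
  choose b hb using h2
  refine ⟨PowerSeries.mk b, ?_⟩
  ext k
  rw [hb, ← map_natCast C, coeff_C_mul, coeff_mk]

lemma LZ.frob (h : LZ F) {p : ℕ} (hp : p.Prime) (hV : V p < 1) :
    LE (V.ltAddSubgroup 1) fun z => F (p * z) - F z ^ p := by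
  obtain ⟨n, A, h⟩ := h
  obtain ⟨B, hB⟩ := exists_expand_sub_pow hp A
  refine ⟨p * n, _, ((h.expand p hp.ne_zero).sub (h.pow p)).congr fun z _ => by
    rw [q1_nat_mul, ← pow_mul, mul_sub, mul_pow, ← pow_mul, mul_comm n], ?_⟩
  rw [← map_expand, ← map_pow, ← map_sub, hB, map_mul, map_natCast, ← map_natCast C]
  exact Cf.const_mul_toC hV B

lemma val_root_sub_one {p : ℕ} (hp : p.Prime) (hV : V p < 1) {ζ : ℂ} (h : ζ ^ p = 1) :
    V (ζ - 1) < 1 := by
  have h1 : ζ ∈ V.integer := (val_eq_one_of_pow V hp.ne_zero h).le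
  obtain ⟨r, hr⟩ := exists_add_pow_prime_eq hp (⟨ζ, h1⟩ - 1 : V.integer) 1
  have h2 := congr_arg Subtype.val hr
  push_cast at h2
  rw [sub_add_cancel, h, one_pow] at h2
  have h3 : V (ζ - 1) ≤ 1 := V.integer.sub_mem h1 V.integer.one_mem
  have h4 : V ((ζ - 1) ^ p) < 1 := by
    rw [show (ζ - 1) ^ p = -(p * ((ζ - 1) * r)) by linear_combination -h2, V.map_neg, map_mul,
      map_mul]
    exact mul_lt_one_of_nonneg_of_lt_one_left zero_le hV (mul_le_one' h3 r.2)
  rw [map_pow] at h4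
  exact lt_of_pow_lt_pow_left₀ p zero_le (by rwa [one_pow])

open Polynomial in
lemma val_eval_le {P : ℂ[X]} (hP : ∀ k, V (P.coeff k) ≤ 1) {x : ℂ} (hx : V x ≤ 1) :
    V (P.eval x) ≤ 1 := by
  rw [eval_eq_sum_range]
  exact V.map_sum_le fun k _ => by
    rw [map_mul, map_pow]; exact mul_le_one' (hP k) (pow_le_one' hx _)

open Polynomial in
lemma val_eval_lt {P : ℂ[X]} (hP : ∀ k, V (P.coeff k) < 1) {x : ℂ} (hx : V x ≤ 1) :
    V (P.eval x) < 1 := by
  rw [eval_eq_sum_range]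
  exact V.map_sum_lt one_ne_zero fun k _ => by
    rw [map_mul, map_pow]
    exact mul_lt_one_of_nonneg_of_lt_one_left zero_le (hP k) (pow_le_one' hx _)

open Polynomial in
lemma val_eval_sub_le {P : ℂ[X]} (hP : ∀ k, V (P.coeff k) ≤ 1) {x y : ℂ} (hx : V x ≤ 1)
    (hy : V y ≤ 1) : V (P.eval x - P.eval y) ≤ V (x - y) := by
  rw [eval_eq_sum_range, eval_eq_sum_range, ← Finset.sum_sub_distrib]
  exact V.map_sum_le fun k _ => by
    rw [← mul_sub, map_mul]
    exact (mul_le_of_le_one_left' (hP k)).trans (val_pow_sub_pow_le V hx hy k)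

open Polynomial in
lemma val_eval_sub_lt {P : ℂ[X]} (hP : ∀ k, V (P.coeff k) < 1) {x y : ℂ} (hx : V x ≤ 1)
    (hy : V y ≤ 1) (hxy : x ≠ y) : V (P.eval x - P.eval y) < V (x - y) := by
  have h0 : V (x - y) ≠ 0 := (V.ne_zero_iff).mpr (sub_ne_zero.mpr hxy)
  rw [eval_eq_sum_range, eval_eq_sum_range, ← Finset.sum_sub_distrib]
  exact V.map_sum_lt h0 fun k _ => by
    rw [← mul_sub, map_mul]
    exact (mul_le_mul_right (val_pow_sub_pow_le V hx hy k) _).trans_lt
      (mul_lt_of_lt_one_left (zero_lt_iff.mpr h0) (hP k))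

end valuation

end Pool.Agent.Lib.MP_696deb_nt
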