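import Pool.Agent.Lib.MP_696deb_nt.DenComb
import Pool.Agent.Lib.MP_696deb_nt.SelLowA
import Pool.Agent.Lib.MP_696deb_nt.DenFamily
import Pool.Agent.Lib.MP_696deb_nt.DenT0

-- part Pool.Agent.Lib.MP_696deb_nt.MomDefs
section

set_option autoImplicit false

open Finset Matrix
open scoped NumberTheorySymbols

namespace Pool.Agent.Lib.MP_696deb_nt.Mom
open Den

/-- The Jacobi symbol `(a / n)` to the power `b`. -/
noncomputable def jp (b : ZMod 2) (a n : ℕ) : ℝ := if b = 0 then 1 else (J(a | n) : ℝ)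

/-- Squarefree numbers up to `X` in the class `r` modulo sixty. -/
def Cls (X r : ℕ) : Finset ℕ := (Icc 1 X).filter fun N => Squarefree N ∧ N % 60 = r

/-- The threshold between small and large variables. -/
def YY (A X : ℕ) : ℕ := Nat.log 2 X ^ A

section
variable {I : Type} [Fintype I] [DecidableEq I]

/-- Tuples whose product lies in `Cls X r`. -/
def Tup (I : Type) [Fintype I] [DecidableEq I] (X r : ℕ) : Finset (I → ℕ) :=
  (Fintype.piFinset fun _ => Icc 1 X).filter fun d => ∏ u, d u ∈ Cls X r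

/-- Factorisations of `N`. -/
def Fac (I : Type) [Fintype I] [DecidableEq I] (N : ℕ) : Finset (I → ℕ) :=
  (Fintype.piFinset fun _ => Icc 1 N).filter fun d => ∏ u, d u = N

/-- The factorisation attached to a colouring of the primes of `N`. -/
def dOf {N : ℕ} (f : N.primeFactors → I) (u : I) : ℕ := ∏ p with f p = u, (p : ℕ)

/-- Tuples that are one on `U` and at most `Y` outside. -/
def Sm (U : Finset I) (Y : ℕ) : Finset (I → ℕ) :=
  Fintype.piFinset fun v => if v ∈ U then {1} else Icc 1 Y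

/-- The product of symbols. -/
noncomputable def sg (Φ : I → I → ZMod 2) (ν : I → ZMod 2) (d : I → ℕ) : ℝ :=
  (∏ u, ∏ v, jp (Φ u v) (d v) (d u)) * ∏ u, jp (ν u) (d u) 5

/-- The indices of the nontrivial variables. -/
def supp (d : I → ℕ) : Finset I := univ.filter fun u => d u ≠ 1

/-- The indices of the large variables. -/
def large (Y : ℕ) (d : I → ℕ) : Finset I := univ.filter fun u => Y < d u

/-- The weight. -/
noncomputable def wt (m : ℕ) (d : I → ℕ) : ℝ := (1 / (m : ℝ)) ^ #(∏ u, d u).primeFactors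

/-- Unlinked sets of indices. -/
def Unl (Φ : I → I → ZMod 2) (U : Finset I) : Prop := ∀ u ∈ U, ∀ v ∈ U, Φ u v = Φ v u

instance (Φ : I → I → ZMod 2) (U : Finset I) : Decidable (Unl Φ U) := by
  unfold Unl; infer_instance

/-- A numbering of the indices. -/
noncomputable def ix (u : I) : ℕ := Fintype.equivFin I u

omit [DecidableEq I] in
theorem ix_inj : Function.Injective (ix : I → ℕ) := fun _ _ h =>
  (Fintype.equivFin I).injective (Fin.ext h)

/-- The reciprocity sign when `S` is the set of variables that are three modulo four. -/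
noncomputable def Th (Φ : I → I → ZMod 2) (S : Finset I) : ℝ :=
  (sgn (∑ u ∈ S, ∑ v ∈ S with ix u < ix v, Φ u v) : ℝ)

/-- The mean of the reciprocity sign over the odd subsets of `U`. -/
noncomputable def CU (Φ : I → I → ZMod 2) (U : Finset I) : ℝ :=
  (∑ S ∈ U.powerset with Odd #S, Th Φ S) / 2 ^ (#U - 1)

/-- The contribution of a maximal unlinked set. -/
noncomputable def MU (Φ : I → I → ZMod 2) (ν : I → ZMod 2) (ι : Finset I → ℝ) (U : Finset I) : ℝ :=
  if ∀ u ∈ U, ∀ u' ∈ U, ν u = ν u' then ι U * CU Φ U else 0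

/-- The hypotheses on the link function. -/
structure Link (Φ : I → I → ZMod 2) (m : ℕ) : Prop where
  pos : 1 ≤ m
  diag : ∀ u, Φ u u = 0
  card : ∀ U, Unl Φ U → #U ≤ m
  sep : ∀ U, Unl Φ U → #U = m → ∀ v ∉ U, ∃ u ∈ U, ∃ u' ∈ U, Φ u v + Φ v u ≠ Φ u' v + Φ v u'

end

/-- The index set of the `k`-th moment. -/
abbrev Ix (k : ℕ) : Type := (Fin k → ZMod 2) × (Fin k → ZMod 2)

/-- The link function of the `k`-th moment. -/
def Ph (k : ℕ) (u u' : Ix k) : ZMod 2 := ∑ j, u.2 j * (u'.1 j + u.1 j)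

/-- The exponent of the character modulo five. -/
def nu {k : ℕ} (c : ZMod 2) (e : Fin k → ZMod 2) (u : Ix k) : ZMod 2 := c * ∑ j, e j * u.1 j

/-- The indicator that the first coordinates span affinely. -/
noncomputable def io (k : ℕ) (s : Finset (Ix k)) : ℝ :=
  if ∀ (a : ZMod 2) (l : Fin k → ZMod 2), (∀ u ∈ s, ∑ j, l j * u.1 j = a) → l = 0 then 1 else 0

/-- The kernel of the Redei matrix, cut by the symbol at five if `c = 1`. -/
noncomputable def Ker (N : ℕ) (c : ZMod 2) : Finset (N.primeFactors → ZMod 2) :=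
  univ.filter fun v => Lap (fun p q : N.primeFactors => aleg p ((q : ℕ) : ℤ)) *ᵥ v = 0 ∧
    c * ∑ p, v p * aleg 5 ((p : ℕ) : ℤ) = 0

/-- The number of `k`-tuples in the kernel that are independent modulo the constants. -/
noncomputable def Ik (N : ℕ) (c : ZMod 2) (k : ℕ) : ℕ :=
  #{v : Fin k → N.primeFactors → ZMod 2 | (∀ j, v j ∈ Ker N c) ∧
    ∀ (a : ZMod 2) (l : Fin k → ZMod 2), (∀ p, ∑ j, l j * v j p = a) → l = 0}

end Pool.Agent.Lib.MP_696deb_nt.Mom
end

-- part Pool.Agent.Lib.MP_696deb_nt.MomHT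
section

set_option autoImplicit false

open Finset Matrix Filter
open scoped NumberTheorySymbols

namespace Pool.Agent.Lib.MP_696deb_nt.Mom
open Den

namespace HT

theorem mem_SO {Z n : ℕ} : n ∈ SO Z ↔ (1 ≤ n ∧ n ≤ Z) ∧ Squarefree n ∧ Odd n := by
  simp only [SO, mem_filter, mem_Icc]

theorem G_nonneg {g : ℕ → ℝ} (hg : ∀ p, p.Prime → 0 ≤ g p ∧ g p ≤ 1) (n : ℕ) :
    0 ≤ ∏ p ∈ n.primeFactors, g p :=
  prod_nonneg fun p hp => (hg p (Nat.prime_of_mem_primeFactors hp)).1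

theorem log_two_ge : (1 / 2 : ℝ) ≤ Real.log 2 := by linarith [Real.log_two_gt_d9]

theorem log_two_le : Real.log 2 ≤ 1 := by linarith [Real.log_two_lt_d9]

/-- The Chebyshev step. -/
theorem sum_log_le {g : ℕ → ℝ} (hg : ∀ p, p.Prime → 0 ≤ g p ∧ g p ≤ 1) (Z : ℕ) :
    ∑ n ∈ SO Z, (∏ p ∈ n.primeFactors, g p) * Real.log n ≤
      2 * Z * ∑ n ∈ SO Z, 1 / (n : ℝ) * ∏ p ∈ n.primeFactors, g p := by
  classical
  let f : (Σ _ : ℕ, ℕ) → ℝ := fun x => (∏ p ∈ (x.1 / x.2).primeFactors, g p) * Real.log x.2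
  let T : Finset (Σ _ : ℕ, ℕ) := (SO Z).sigma fun k => (Ioc 0 ⌊(Z : ℝ) / k⌋₊).filter Nat.Prime
  let e : (Σ _ : ℕ, ℕ) → (Σ _ : ℕ, ℕ) := fun x => ⟨x.1 * x.2, x.2⟩
  have f0 : ∀ x, 0 ≤ f x := fun x => mul_nonneg (G_nonneg hg _) (Real.log_natCast_nonneg _)
  calc ∑ n ∈ SO Z, (∏ p ∈ n.primeFactors, g p) * Real.log n
      ≤ ∑ n ∈ SO Z, ∑ p ∈ n.primeFactors, f ⟨n, p⟩ := by
        refine sum_le_sum fun n hn => ?_
        have h1 : Real.log n = ∑ p ∈ n.primeFactors, Real.log p := by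
          conv_lhs => rw [← Nat.prod_primeFactors_of_squarefree (mem_SO.1 hn).2.1]
          rw [Nat.cast_prod, Real.log_prod fun p hp =>
            Nat.cast_ne_zero.2 (Nat.prime_of_mem_primeFactors hp).ne_zero]
        rw [h1, mul_sum]
        refine sum_le_sum fun p hp => mul_le_mul_of_nonneg_right ?_ (Real.log_natCast_nonneg _)
        exact prod_le_prod_of_subset_of_le_one (Nat.primeFactors_mono
          (Nat.div_dvd_of_dvd (Nat.dvd_of_mem_primeFactors hp)) (mem_SO.1 hn).2.1.ne_zero)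
          (fun r hr => (hg r (Nat.prime_of_mem_primeFactors hr)).1)
          fun r hr _ => (hg r (Nat.prime_of_mem_primeFactors hr)).2
    _ = ∑ x ∈ (SO Z).sigma fun n => n.primeFactors, f x := sum_sigma' _ _ _
    _ ≤ ∑ x ∈ T.image e, f x := by
        refine sum_le_sum_of_subset_of_nonneg (fun x hx => ?_) fun x _ _ => f0 x
        obtain ⟨n, p⟩ := x
        obtain ⟨hn, hp⟩ := mem_sigma.1 hx
        obtain ⟨⟨h1, h2⟩, h3, h4⟩ := mem_SO.1 hn
        have pp := Nat.prime_of_mem_primeFactors hp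
        obtain ⟨k, rfl⟩ : ∃ k, n = k * p := exists_eq_mul_left_of_dvd (Nat.dvd_of_mem_primeFactors hp)
        have k0 : 0 < k := Nat.pos_of_mul_pos_right h1
        refine mem_image.2 ⟨⟨k, p⟩, mem_sigma.2 ⟨mem_SO.2 ⟨⟨k0, (Nat.le_mul_of_pos_right k pp.pos).trans h2⟩,
          h3.of_mul_left, h4.of_dvd_nat (Dvd.intro _ rfl)⟩, mem_filter.2 ⟨mem_Ioc.2 ⟨pp.pos, ?_⟩, pp⟩⟩, rfl⟩
        refine Nat.le_floor ((le_div_iff₀ (by exact_mod_cast k0)).2 ?_)
        rw [mul_comm]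
        exact_mod_cast h2
    _ ≤ ∑ x ∈ T, f (e x) := sum_image_le_of_nonneg fun x _ => f0 x
    _ = ∑ k ∈ SO Z, ∑ p ∈ (Ioc 0 ⌊(Z : ℝ) / k⌋₊).filter Nat.Prime, f (e ⟨k, p⟩) :=
        (sum_sigma' _ _ fun k p => f (e ⟨k, p⟩)).symm
    _ ≤ ∑ k ∈ SO Z, 2 * Z * (1 / (k : ℝ) * ∏ p ∈ k.primeFactors, g p) := by
        refine sum_le_sum fun k _ => ?_
        have h1 : ∑ p ∈ (Ioc 0 ⌊(Z : ℝ) / k⌋₊).filter Nat.Prime, f (e ⟨k, p⟩) =
            (∏ p ∈ k.primeFactors, g p) * Chebyshev.theta ((Z : ℝ) / k) := by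
          rw [Chebyshev.theta, mul_sum]
          refine sum_congr rfl fun p hp => ?_
          simp only [f, e, Nat.mul_div_cancel k (mem_filter.1 hp).2.pos]
        have h2 := Chebyshev.theta_le_log4_mul_x (x := (Z : ℝ) / k) (by positivity)
        have h3 : Real.log 4 ≤ 2 := by
          rw [show (4 : ℝ) = 2 ^ 2 by norm_num, Real.log_pow]
          push_cast
          linarith [log_two_le]
        have h4 : Chebyshev.theta ((Z : ℝ) / k) ≤ 2 * ((Z : ℝ) / k) :=
          h2.trans (mul_le_mul_of_nonneg_right h3 (by positivity))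
        rw [h1]
        calc _ ≤ (∏ p ∈ k.primeFactors, g p) * (2 * ((Z : ℝ) / k)) :=
              mul_le_mul_of_nonneg_left h4 (G_nonneg hg k)
          _ = _ := by ring
    _ = _ := by rw [mul_sum]

theorem ht1 {g : ℕ → ℝ} (hg : ∀ p, p.Prime → 0 ≤ g p ∧ g p ≤ 1) (Z : ℕ) :
    Real.log Z * ∑ n ∈ SO Z, ∏ p ∈ n.primeFactors, g p ≤
      3 * Z * ∑ n ∈ SO Z, 1 / (n : ℝ) * ∏ p ∈ n.primeFactors, g p := by
  have h1 := sum_log_le hg Z
  have h2 : Real.log Z * ∑ n ∈ SO Z, ∏ p ∈ n.primeFactors, g p ≤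
      ∑ n ∈ SO Z, (∏ p ∈ n.primeFactors, g p) * Real.log n +
        Z * ∑ n ∈ SO Z, 1 / (n : ℝ) * ∏ p ∈ n.primeFactors, g p := by
    rw [mul_sum, mul_sum, ← sum_add_distrib]
    refine sum_le_sum fun n hn => ?_
    obtain ⟨⟨a1, a2⟩, -⟩ := mem_SO.1 hn
    have n0 : (0 : ℝ) < n := by exact_mod_cast a1
    have Z0 : (0 : ℝ) < Z := by exact_mod_cast a1.trans a2
    have a3 := Real.log_le_sub_one_of_pos (div_pos Z0 n0)
    rw [Real.log_div Z0.ne' n0.ne'] at a3
    calc _ ≤ (Real.log n + Z / n) * ∏ p ∈ n.primeFactors, g p :=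
          mul_le_mul_of_nonneg_right (by linarith) (G_nonneg hg n)
      _ = _ := by ring
  linarith

theorem ht2 {g : ℕ → ℝ} (hg : ∀ p, p.Prime → 0 ≤ g p ∧ g p ≤ 1) {Z : ℕ} (hL : 0 < Real.log Z) :
    ∑ n ∈ SO Z, 1 / (n : ℝ) * ∏ p ∈ n.primeFactors, g p ≤
      3 * ∏ p ∈ (PP Z).primeFactors, (1 + g p * xs (Real.log Z) p) := by
  rw [prod_one_add_div (PP_sq Z), mul_sum]
  refine le_trans (sum_le_sum fun e he => ?_) (sum_le_sum_of_subset_of_nonneg (SO_sub Z)
    fun e _ _ => mul_nonneg (by norm_num) (prod_nonneg fun p hp =>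
      mul_nonneg (hg p (Nat.prime_of_mem_primeFactors hp)).1 (xs_nonneg _ _)))
  rw [prod_mul_distrib, xs_prod _ (mem_SO.1 he).2.1]
  have := mul_le_mul_of_nonneg_right (inv_le_xs hL he) (G_nonneg hg e)
  linarith

theorem le_log_add {y : ℝ} (hy : 0 ≤ y) : y ≤ Real.log (1 + y) + y ^ 2 := by
  have h0 : 0 < 1 + y := by linarith
  have h1 := Real.one_sub_inv_le_log_of_pos h0
  have h2 : (1 + y)⁻¹ ≤ 1 - y + y ^ 2 := by
    rw [inv_le_iff_one_le_mul₀ h0]
    nlinarith [pow_nonneg hy 3]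
  linarith

theorem sum_le_log {L : ℝ} (hL : 0 < L) (Z : ℕ) {a : ℕ → ℝ} (ha : ∀ p, 0 ≤ a p ∧ a p ≤ 1) :
    ∑ p ∈ (PP Z).primeFactors, a p * xs L p ≤
      Real.log (∏ p ∈ (PP Z).primeFactors, (1 + a p * xs L p)) + 2 := by
  have h0 : ∀ p, 0 ≤ a p * xs L p := fun p => mul_nonneg (ha p).1 (xs_nonneg _ _)
  rw [Real.log_prod fun p _ => by linarith [h0 p]]
  refine (sum_le_sum fun p _ => le_log_add (h0 p)).trans ?_
  rw [sum_add_distrib]
  refine add_le_add le_rfl (le_trans (sum_le_sum fun p hp => ?_)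
    ((sum_le_sum_of_subset_of_nonneg (s := (PP Z).primeFactors) (t := Icc 1 Z)
      (PP_pf Z ▸ filter_subset _ _) fun _ _ _ => by positivity).trans (sum_inv_sq_le Z)))
  rw [← _root_.one_div_pow]
  refine pow_le_pow_left₀ (h0 p) ?_ 2
  exact (mul_le_of_le_one_left (xs_nonneg _ _) (ha p).2).trans
    (xs_le hL (Nat.prime_of_mem_primeFactors hp).pos)

theorem tendsto_log2 : Tendsto (Nat.log 2) atTop atTop :=
  tendsto_atTop_atTop.2 fun b => ⟨2 ^ b, fun _ h => Nat.le_log_of_pow_le one_lt_two h⟩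

theorem tendsto_log2' : Tendsto (fun X : ℕ => (Nat.log 2 X : ℝ)) atTop atTop :=
  tendsto_natCast_atTop_atTop.comp tendsto_log2

end HT

open HT

theorem ht_bound {m : ℕ} (hm : 1 ≤ m) : ∃ C : ℝ, 0 < C ∧ ∀ (Z q : ℕ) (χ g : ℕ → ℝ), 2 ≤ Z →
    χ 1 = 1 → (∀ a b, χ (a * b) = χ a * χ b) → (∀ a, |χ a| ≤ 1) →
    (∀ t, |∑ n ∈ range t, χ n| ≤ q) →
    (∀ p, p.Prime → 0 ≤ g p ∧ g p ≤ 1 - (1 - χ p) / (2 * m)) →
    ∑ n ∈ SO Z, ∏ p ∈ n.primeFactors, g p ≤
      C * Z * ((3 + Real.log q) / Real.log Z) ^ (1 / (2 * m) : ℝ) := by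
  refine ⟨27 * Real.exp 2, by positivity, fun Z q χ g hZ h1 hmul hb hq hg => ?_⟩
  have m1 : (1 : ℝ) ≤ m := by exact_mod_cast hm
  set s : ℝ := 1 / (2 * m) with hs
  have s0 : 0 < s := by positivity
  have s1 : 2 * s ≤ 1 := by
    rw [hs, mul_one_div, div_le_one (by positivity)]
    linarith
  have hg' : ∀ p, p.Prime → g p ≤ (1 - 2 * s) + 2 * s * ((1 + χ p) / 2) := fun p hp =>
    (hg p hp).2.trans_eq (by rw [hs]; ring)
  have ha : ∀ p, 0 ≤ (1 + χ p) / 2 ∧ (1 + χ p) / 2 ≤ 1 := fun p => by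
    obtain ⟨a, b⟩ := abs_le.1 (hb p)
    constructor <;> linarith
  have hg1 : ∀ p, p.Prime → 0 ≤ g p ∧ g p ≤ 1 := fun p hp =>
    ⟨(hg p hp).1, (hg' p hp).trans (by nlinarith [(ha p).2])⟩
  set L := Real.log Z with hLdef
  have hL2 : 1 / 2 ≤ L := log_two_ge.trans (Real.log_le_log two_pos (by exact_mod_cast hZ))
  have hL : 0 < L := by linarith
  set Q := 3 + Real.log q with hQ
  have Q0 : 0 < Q := by linarith [Real.log_natCast_nonneg q]
  have x0 := xs_nonneg L
  have b1 := sum_le_log hL Z (a := fun _ => 1) fun _ => ⟨zero_le_one, le_rfl⟩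
  have b2 := sum_le_log hL Z ha
  simp only [one_mul] at b1
  have c1 : Real.log (∏ p ∈ (PP Z).primeFactors, (1 + xs L p)) ≤ Real.log (1 + L) :=
    Real.log_le_log (prod_pos fun p _ => by linarith [x0 p]) (prod_xs_le hL (PP_sq Z))
  have c2 : 2 * Real.log (∏ p ∈ (PP Z).primeFactors, (1 + (1 + χ p) / 2 * xs L p)) ≤
      Real.log 2 + Real.log (1 + L) + Real.log Q := by
    have := Real.log_le_log (pow_pos (prod_pos fun p _ => by
      linarith [mul_nonneg (ha p).1 (x0 p)]) 2) (euler_sq_le hL (PP_sq Z) h1 hmul hb hq)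
    rw [Real.log_pow, Real.log_mul (by positivity) Q0.ne', Real.log_mul two_ne_zero (by positivity)]
      at this
    exact_mod_cast this
  have c3 : Real.log (1 + L) ≤ Real.log 3 + Real.log L := by
    rw [← Real.log_mul (by norm_num) hL.ne']
    exact Real.log_le_log (by positivity) (by linarith)
  have c4 : Real.log 2 ≤ Real.log 3 := Real.log_le_log two_pos (by norm_num)
  have d1 : ∑ p ∈ (PP Z).primeFactors, g p * xs L p ≤ (1 - 2 * s) * ∑ p ∈ (PP Z).primeFactors, xs L p +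
      2 * s * ∑ p ∈ (PP Z).primeFactors, (1 + χ p) / 2 * xs L p := by
    rw [mul_sum, mul_sum, ← sum_add_distrib]
    refine sum_le_sum fun p hp => ?_
    have := mul_le_mul_of_nonneg_right (hg' p (Nat.prime_of_mem_primeFactors hp)) (x0 p)
    linarith
  have d2 : ∑ p ∈ (PP Z).primeFactors, g p * xs L p ≤
      2 + Real.log 3 + Real.log L + Real.log (Q / L) * s := by
    rw [Real.log_div Q0.ne' hL.ne']
    have e1 := mul_le_mul_of_nonneg_left (b1.trans (add_le_add c1 le_rfl)) (sub_nonneg.2 s1)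
    have e2 := mul_le_mul_of_nonneg_left b2 (show 0 ≤ 2 * s by linarith)
    have e3 := mul_le_mul_of_nonneg_left c2 s0.le
    have e4 := mul_le_mul_of_nonneg_left c3 (show 0 ≤ 1 - s by linarith)
    have e5 := mul_le_mul_of_nonneg_left c4 s0.le
    linarith
  have d3 : ∏ p ∈ (PP Z).primeFactors, (1 + g p * xs L p) ≤ Real.exp 2 * 3 * L * (Q / L) ^ s := by
    calc _ ≤ ∏ p ∈ (PP Z).primeFactors, Real.exp (g p * xs L p) :=
          prod_le_prod (fun p hp => by
            linarith [mul_nonneg (hg p (Nat.prime_of_mem_primeFactors hp)).1 (x0 p)])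
            fun p _ => by linarith [Real.add_one_le_exp (g p * xs L p)]
      _ = Real.exp (∑ p ∈ (PP Z).primeFactors, g p * xs L p) := (Real.exp_sum _ _).symm
      _ ≤ Real.exp (2 + Real.log 3 + Real.log L + Real.log (Q / L) * s) := Real.exp_le_exp.2 d2
      _ = _ := by
          rw [Real.exp_add, Real.exp_add, Real.exp_add, Real.exp_log (by norm_num), Real.exp_log hL,
            Real.rpow_def_of_pos (div_pos Q0 hL)]
  have e1 := ht1 hg1 Z
  have e2 := mul_le_mul_of_nonneg_left ((ht2 hg1 hL).trans (mul_le_mul_of_nonneg_left d3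
    (by norm_num : (0 : ℝ) ≤ 3))) (show (0 : ℝ) ≤ 3 * Z by positivity)
  refine le_of_mul_le_mul_left ((e1.trans e2).trans_eq ?_) hL
  ring

theorem small_ev {m : ℕ} (hm : 1 ≤ m) (k A : ℕ) (C : ℝ) {ε : ℝ} (hε : 0 < ε) :
    ∀ᶠ X : ℕ in atTop, 1 ≤ YY A X ∧ ∀ D q : ℕ, 1 ≤ D → D ≤ YY A X ^ k → 1 ≤ q →
      q ≤ 100 * YY A X ^ (2 * k) → 2 ≤ X / D ∧
      C * (X / D : ℕ) * ((3 + Real.log q) / Real.log (X / D : ℕ)) ^ (1 / (2 * m) : ℝ) *
        (1 + Real.log (YY A X)) ^ k ≤ ε * X / D := by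
  have m1 : (1 : ℝ) ≤ m := by exact_mod_cast hm
  set s : ℝ := 1 / (2 * m) with hs
  have s0 : 0 < s := by positivity
  have s1 : s ≤ 1 := by
    rw [hs, div_le_one (by positivity)]
    linarith
  set B : ℝ := 4 * (102 + 2 * (A * k)) with hB
  have B1 : 1 ≤ B := by
    have : (0 : ℝ) ≤ A * k := by positivity
    linarith
  set K : ℝ := (|C| + 1) * B * (1 + A) ^ k with hK
  have K0 : 0 < K := by positivity
  filter_upwards [tendsto_log2'.eventually_ge_atTop 3,
    tendsto_log2'.eventually ((isLittleO_pow_exp_pos_mul_atTop (A * k) (b := 1 / 4)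
      (by norm_num)).bound (c := 1 / 2) (by norm_num)),
    tendsto_log2'.eventually ((isLittleO_log_rpow_rpow_atTop ((k + 1 : ℕ) : ℝ) s0).bound
      (div_pos hε K0)), eventually_gt_atTop 0] with X h1 h2 h3 X0
  set l : ℝ := (Nat.log 2 X : ℝ) with hl
  have l0 : 0 < l := by linarith
  have hY : (YY A X : ℝ) = l ^ A := by rw [YY, Nat.cast_pow]
  have u1 : 1 ≤ Real.log l := by
    rw [Real.le_log_iff_exp_le l0]
    linarith [Real.exp_one_lt_d9]
  refine ⟨by exact_mod_cast hY ▸ one_le_pow₀ (show 1 ≤ l by linarith), fun D q D1 D2 q1 q2 => ?_⟩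
  have D0 : (0 : ℝ) < D := by exact_mod_cast D1
  have D3 : (D : ℝ) ≤ l ^ (A * k) := by
    rw [pow_mul, ← hY]
    exact_mod_cast D2
  rw [Real.norm_of_nonneg (by positivity), Real.norm_of_nonneg (Real.exp_pos _).le] at h2
  have a1 : Real.exp (1 / 4 * l) * Real.exp (1 / 4 * l) ≤ X := by
    have e1 : (2 : ℝ) ^ Nat.log 2 X ≤ X := by exact_mod_cast Nat.pow_log_le_self 2 X0.ne'
    refine le_trans ?_ e1
    rw [← Real.exp_add, ← Real.exp_log (show (0 : ℝ) < 2 ^ Nat.log 2 X by positivity), Real.log_pow]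
    exact Real.exp_le_exp.2 (by nlinarith [log_two_ge])
  have a2 : 1 < Real.exp (1 / 4 * l) := Real.one_lt_exp_iff.2 (by linarith)
  have a3 : Real.exp (1 / 4 * l) ≤ (X / D : ℕ) := by
    have e1 : (X : ℝ) / D < (X / D : ℕ) + 1 := by
      rw [div_lt_iff₀ D0]
      exact_mod_cast Nat.lt_mul_div_succ X D1 |>.trans_eq (mul_comm _ _)
    have e2 : 2 * Real.exp (1 / 4 * l) ≤ (X : ℝ) / D := by
      rw [le_div_iff₀ D0]
      nlinarith
    linarith
  have a4 : 1 / 4 * l ≤ Real.log (X / D : ℕ) := by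
    rw [Real.le_log_iff_exp_le (by linarith)]
    exact a3
  refine ⟨by exact_mod_cast a2.trans_le a3, ?_⟩
  have b1 : 3 + Real.log q ≤ (102 + 2 * (A * k)) * Real.log l := by
    have e1 : (q : ℝ) ≤ 100 * l ^ (A * (2 * k)) := by
      rw [pow_mul, ← hY]
      exact_mod_cast q2
    have e2 := Real.log_le_log (by exact_mod_cast q1) e1
    rw [Real.log_mul (by norm_num) (by positivity), Real.log_pow] at e2
    have e3 := Real.log_le_sub_one_of_pos (show (0 : ℝ) < 100 by norm_num)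
    push_cast at e2
    linarith
  have b2 : ((3 + Real.log q) / Real.log (X / D : ℕ)) ^ s ≤ B * Real.log l / l ^ s := by
    have e0 : 0 ≤ 3 + Real.log q := by linarith [Real.log_natCast_nonneg q]
    have e1 : (3 + Real.log q) / Real.log (X / D : ℕ) ≤ B * Real.log l / l := by
      refine (div_le_div₀ (e0.trans b1) b1 (by positivity) a4).trans_eq ?_
      rw [hB]
      field_simp
    have e2 : 1 ≤ B * Real.log l := one_le_mul_of_one_le_of_one_le B1 u1
    refine (Real.rpow_le_rpow (div_nonneg e0 (by linarith)) e1 s0.le).trans ?_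
    rw [Real.div_rpow (by linarith) l0.le]
    exact div_le_div_of_nonneg_right (Real.rpow_le_self_of_one_le e2 s1) (by positivity)
  have b3 : (1 + Real.log (YY A X)) ^ k ≤ ((1 + A) * Real.log l) ^ k := by
    rw [hY, Real.log_pow]
    exact pow_le_pow_left₀ (by positivity) (by linarith) k
  rw [Real.norm_of_nonneg (by positivity), Real.norm_of_nonneg (by positivity),
    Real.rpow_natCast] at h3
  have c1 : C * (X / D : ℕ) ≤ (|C| + 1) * ((X : ℝ) / D) :=
    mul_le_mul (by linarith [le_abs_self C]) Nat.cast_div_le (by positivity) (by positivity)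
  have ls : 0 < l ^ s := by positivity
  calc _ ≤ (|C| + 1) * ((X : ℝ) / D) * (B * Real.log l / l ^ s) * ((1 + A) * Real.log l) ^ k := by
        refine mul_le_mul (mul_le_mul c1 b2 (Real.rpow_nonneg (div_nonneg ?_ ?_) _) (by positivity))
          b3 (pow_nonneg ?_ _) (by positivity)
        · linarith [Real.log_natCast_nonneg q]
        · exact Real.log_natCast_nonneg _
        · linarith [Real.log_natCast_nonneg (YY A X)]
    _ = (X : ℝ) / D * K / l ^ s * Real.log l ^ (k + 1) := by rw [hK, mul_pow]; ring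
    _ ≤ (X : ℝ) / D * K / l ^ s * (ε / K * l ^ s) := mul_le_mul_of_nonneg_left h3 (by positivity)
    _ = ε * X / D := by field_simp

theorem link_ev (k : ℕ) (C : ℝ) {ε : ℝ} (hε : 0 < ε) :
    ∀ᶠ X : ℕ in atTop, 1 ≤ YY (24 * (k + 2)) X ∧
      C * X * (1 + Real.log X) ^ (k + 1) / (YY (24 * (k + 2)) X : ℝ) ^ (1 / 24 : ℝ) ≤ ε * X := by
  filter_upwards [tendsto_log2'.eventually_ge_atTop 1,
    tendsto_log2'.eventually_ge_atTop (|C| * 3 ^ (k + 1) / ε), eventually_gt_atTop 0] with X h1 h2 X0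
  set l : ℝ := (Nat.log 2 X : ℝ) with hl
  have l0 : 0 < l := by linarith
  have hY : (YY (24 * (k + 2)) X : ℝ) = l ^ (24 * (k + 2)) := by rw [YY, Nat.cast_pow]
  refine ⟨by exact_mod_cast hY ▸ one_le_pow₀ h1, ?_⟩
  have a1 : (YY (24 * (k + 2)) X : ℝ) ^ (1 / 24 : ℝ) = l ^ (k + 2) := by
    rw [hY, mul_comm, pow_mul, one_div]
    exact_mod_cast Real.pow_rpow_inv_natCast (x := l ^ (k + 2)) (by positivity) (n := 24) (by norm_num)
  have a2 : 1 + Real.log X ≤ 3 * l := by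
    have e1 : (X : ℝ) ≤ 2 ^ (Nat.log 2 X + 1) := by
      exact_mod_cast (Nat.lt_pow_succ_log_self one_lt_two X).le
    have e2 := Real.log_le_log (by exact_mod_cast X0) e1
    rw [Real.log_pow] at e2
    push_cast at e2
    nlinarith [log_two_le]
  have a3 : (1 + Real.log X) ^ (k + 1) ≤ (3 * l) ^ (k + 1) :=
    pow_le_pow_left₀ (by linarith [Real.log_natCast_nonneg X]) a2 _
  rw [a1, div_le_iff₀ (by positivity)]
  rw [div_le_iff₀ hε] at h2
  calc C * X * (1 + Real.log X) ^ (k + 1) ≤ |C| * X * (3 * l) ^ (k + 1) :=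
        mul_le_mul (mul_le_mul_of_nonneg_right (le_abs_self C) (by positivity)) a3
          (pow_nonneg (by linarith [Real.log_natCast_nonneg X]) _) (by positivity)
    _ = |C| * 3 ^ (k + 1) * (X * l ^ (k + 1)) := by rw [mul_pow]; ring
    _ ≤ l * ε * (X * l ^ (k + 1)) := mul_le_mul_of_nonneg_right h2 (by positivity)
    _ = _ := by ring

/-- The two estimates put together. -/
theorem sum_small {I : Type} [Fintype I] [DecidableEq I] {m : ℕ} (hm : 1 ≤ m) (A : ℕ) {ε : ℝ}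
    (hε : 0 < ε) : ∀ᶠ X : ℕ in atTop, 1 ≤ YY A X ∧ ∀ (U : Finset I) (T : Finset (I → ℕ))
      (q : (I → ℕ) → ℕ) (χ g : (I → ℕ) → ℕ → ℝ), T ⊆ Sm U (YY A X) →
      (∀ D ∈ T, 1 ≤ q D ∧ q D ≤ 100 * (∏ v, D v) ^ 2 ∧ χ D 1 = 1 ∧
        (∀ a b, χ D (a * b) = χ D a * χ D b) ∧ (∀ a, |χ D a| ≤ 1) ∧
        (∀ t, |∑ n ∈ range t, χ D n| ≤ q D) ∧
        ∀ p, p.Prime → 0 ≤ g D p ∧ g D p ≤ 1 - (1 - χ D p) / (2 * m)) →
      ∑ D ∈ T, ∑ n ∈ SO (X / ∏ v, D v), ∏ p ∈ n.primeFactors, g D p ≤ ε * X := by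
  obtain ⟨C, -, hC⟩ := ht_bound hm
  filter_upwards [small_ev hm (Fintype.card I) A C hε] with X ⟨h1, h2⟩
  refine ⟨h1, fun U T q χ g hT h => ?_⟩
  set Y := YY A X with hY
  have l0 := Real.log_natCast_nonneg Y
  have M0 : 0 < (1 + Real.log Y) ^ Fintype.card I := by positivity
  have a1 := sum_inv_prod_le (fun v : I => if v ∈ U then {1} else Icc 1 Y) (L := 1 + Real.log Y)
    fun v => by
      split_ifs
      · simpa using l0
      · exact sum_inv_le Y
  calc _ ≤ ∑ D ∈ T, ε * X / (1 + Real.log Y) ^ Fintype.card I * (1 / ((∏ v, D v : ℕ) : ℝ)) := by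
        refine sum_le_sum fun D hD => ?_
        have b1 : ∀ v, 1 ≤ D v ∧ D v ≤ Y := fun v => by
          have := Fintype.mem_piFinset.1 (hT hD) v
          split_ifs at this
          · rw [mem_singleton.1 this]
            exact ⟨le_rfl, h1⟩
          · exact mem_Icc.1 this
        have b2 : 1 ≤ ∏ v, D v := one_le_prod' fun v _ => (b1 v).1
        have b3 : ∏ v, D v ≤ Y ^ Fintype.card I := prod_le_pow_card _ _ _ fun v _ => (b1 v).2
        obtain ⟨c1, c2, c3, c4, c5, c6, c7⟩ := h D hD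
        obtain ⟨d1, d2⟩ := h2 _ (q D) b2 b3 c1 (c2.trans (Nat.mul_le_mul_left _ (by
          rw [mul_comm, pow_mul]
          exact Nat.pow_le_pow_left b3 2)))
        refine (hC _ _ _ _ d1 c3 c4 c5 c6 c7).trans ?_
        rw [← le_div_iff₀ M0] at d2
        exact d2.trans_eq (by ring)
    _ = ε * X / (1 + Real.log Y) ^ Fintype.card I * ∑ D ∈ T, 1 / ((∏ v, D v : ℕ) : ℝ) := by
        rw [mul_sum]
    _ ≤ ε * X / (1 + Real.log Y) ^ Fintype.card I * (1 + Real.log Y) ^ Fintype.card I :=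
        mul_le_mul_of_nonneg_left ((sum_le_sum_of_subset_of_nonneg hT fun _ _ _ => by
          positivity).trans a1) (by positivity)
    _ = ε * X := div_mul_cancel₀ _ M0.ne'

end Pool.Agent.Lib.MP_696deb_nt.Mom
end

-- part Pool.Agent.Lib.MP_696deb_nt.MomBasic
section

set_option autoImplicit false

open Finset Matrix Filter
open scoped NumberTheorySymbols

namespace Pool.Agent.Lib.MP_696deb_nt.Mom
open Den

variable {I : Type} [Fintype I] [DecidableEq I]

theorem prime_coe {N : ℕ} (p : N.primeFactors) : (p : ℕ).Prime :=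
  Nat.prime_of_mem_primeFactors p.2

theorem prod_dOf {N : ℕ} (hN : Squarefree N) (f : N.primeFactors → I) : ∏ u, dOf f u = N := by
  unfold dOf
  rw [Finset.prod_fiberwise univ f fun p => (p : ℕ), Finset.prod_coe_sort N.primeFactors fun p => p,
    Nat.prod_primeFactors_of_squarefree hN]

omit [Fintype I] in
theorem dOf_ne_zero {N : ℕ} (f : N.primeFactors → I) (u : I) : dOf f u ≠ 0 :=
  prod_ne_zero_iff.mpr fun p _ => (prime_coe p).ne_zero

theorem map_prod_mult {α : Type} (s : Finset α) (g : α → ℕ) (hg : ∀ a ∈ s, g a ≠ 0) (ψ : ℕ → ℝ)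
    (h1 : ψ 1 = 1) (hm : ∀ a b, a ≠ 0 → b ≠ 0 → ψ (a * b) = ψ a * ψ b) :
    ψ (∏ a ∈ s, g a) = ∏ a ∈ s, ψ (g a) := by
  classical
  induction s using Finset.induction_on with
  | empty => simpa using h1
  | insert a s ha ih =>
    have h2 : ∀ b ∈ s, g b ≠ 0 := fun b hb => hg b (mem_insert_of_mem hb)
    rw [prod_insert ha, prod_insert ha, hm _ _ (hg a (mem_insert_self _ _))
      (prod_ne_zero_iff.mpr h2), ih h2]

theorem prod_mult_dOf {N : ℕ} (f : N.primeFactors → I) (ψ : I → ℕ → ℝ) (h1 : ∀ u, ψ u 1 = 1)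
    (hm : ∀ u a b, a ≠ 0 → b ≠ 0 → ψ u (a * b) = ψ u a * ψ u b) :
    ∏ u, ψ u (dOf f u) = ∏ p, ψ (f p) p := by
  rw [← Finset.prod_fiberwise univ f fun p => ψ (f p) p]
  refine prod_congr rfl fun u _ => ?_
  unfold dOf
  rw [map_prod_mult _ _ (fun p _ => (prime_coe p).ne_zero) _ (h1 u) (hm u)]
  exact prod_congr rfl fun p hp => by rw [(mem_filter.mp hp).2]

omit [Fintype I] in
theorem dvd_dOf_iff {N : ℕ} (f : N.primeFactors → I) (p : N.primeFactors) (u : I) :
    (p : ℕ) ∣ dOf f u ↔ f p = u := by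
  unfold dOf
  rw [Prime.dvd_finsetProd_iff (prime_coe p).prime]
  constructor
  · rintro ⟨q, hq, h⟩
    have : p = q := Subtype.ext ((Nat.prime_dvd_prime_iff_eq (prime_coe p) (prime_coe q)).mp h)
    rw [this]; exact (mem_filter.mp hq).2
  · exact fun h => ⟨p, mem_filter.mpr ⟨mem_univ _, h⟩, dvd_rfl⟩

omit [Fintype I] in
theorem dOf_eq_one_iff {N : ℕ} (f : N.primeFactors → I) (u : I) :
    dOf f u = 1 ↔ ∀ p, f p ≠ u := by
  constructor
  · intro h p hp
    have := (dvd_dOf_iff f p u).mpr hp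
    rw [h] at this
    exact (prime_coe p).one_lt.ne' (Nat.dvd_one.mp this)
  · intro h
    unfold dOf
    rw [filter_false_of_mem fun p _ => h p, prod_empty]

theorem supp_dOf {N : ℕ} (f : N.primeFactors → I) : supp (dOf f) = univ.image f := by
  ext u
  simp only [supp, mem_filter, mem_univ, true_and, Ne, dOf_eq_one_iff, mem_image, not_forall,
    not_not]

omit [Fintype I] in
theorem dOf_inj {N : ℕ} : Function.Injective (dOf : (N.primeFactors → I) → I → ℕ) := by
  intro f g h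
  funext p
  have := (dvd_dOf_iff f p (f p)).mpr rfl
  rw [h] at this
  exact ((dvd_dOf_iff g p _).mp this).symm

theorem exists_dOf {N : ℕ} (hN : Squarefree N) {d : I → ℕ} (hd : ∏ u, d u = N) :
    ∃ f : N.primeFactors → I, dOf f = d := by
  have h1 : ∀ p : N.primeFactors, ∃ u, (p : ℕ) ∣ d u := fun p => by
    have : (p : ℕ) ∣ ∏ u, d u := (Nat.dvd_of_mem_primeFactors p.2).trans hd.symm.dvd
    obtain ⟨u, _, h⟩ := (Prime.dvd_finsetProd_iff (prime_coe p).prime _).mp this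
    exact ⟨u, h⟩
  choose f hf using h1
  refine ⟨f, ?_⟩
  have h2 : ∀ u, dOf f u ∣ d u := fun u => by
    unfold dOf
    refine Finset.prod_dvd_of_isRelPrime (fun p _ q _ hpq => ?_) fun p hp => ?_
    · exact Nat.coprime_iff_isRelPrime.mp ((Nat.coprime_primes (prime_coe p) (prime_coe q)).mpr
        fun h => hpq (Subtype.ext h))
    · rw [← (mem_filter.mp hp).2]; exact hf p
  have h0 : ∀ u, d u ≠ 0 := fun u => by
    have : ∏ u, d u ≠ 0 := hd ▸ hN.ne_zero
    exact prod_ne_zero_iff.mp this u (mem_univ u)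
  have h3 : ∀ u, dOf f u ≤ d u := fun u => Nat.le_of_dvd (Nat.pos_of_ne_zero (h0 u)) (h2 u)
  funext u
  by_contra h
  have := Finset.prod_lt_prod (s := univ) (f := dOf f) (g := d)
    (fun i _ => Nat.pos_of_ne_zero (dOf_ne_zero f i)) (fun i _ => h3 i)
    ⟨u, mem_univ u, lt_of_le_of_ne (h3 u) h⟩
  rw [prod_dOf hN, hd] at this
  exact lt_irrefl _ this

theorem mem_pi_of_prod {d : I → ℕ} {X : ℕ} (h0 : 1 ≤ ∏ u, d u) (h : ∏ u, d u ≤ X) :
    d ∈ Fintype.piFinset fun _ : I => Icc 1 X := by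
  refine Fintype.mem_piFinset.mpr fun u => mem_Icc.mpr ⟨?_, ?_⟩
  · exact Nat.pos_of_ne_zero (prod_ne_zero_iff.mp (by omega) u (mem_univ u))
  · exact (Nat.le_of_dvd h0 (dvd_prod_of_mem d (mem_univ u))).trans h

theorem mem_Cls {X r N : ℕ} : N ∈ Cls X r ↔ 1 ≤ N ∧ N ≤ X ∧ Squarefree N ∧ N % 60 = r := by
  simp [Cls, and_assoc]

theorem mem_Tup {X r : ℕ} {d : I → ℕ} : d ∈ Tup I X r ↔ ∏ u, d u ∈ Cls X r := by
  unfold Tup
  rw [mem_filter]
  exact ⟨fun h => h.2, fun h => ⟨mem_pi_of_prod (mem_Cls.mp h).1 (mem_Cls.mp h).2.1, h⟩⟩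

theorem mem_Fac {N : ℕ} (hN : N ≠ 0) {d : I → ℕ} : d ∈ Fac I N ↔ ∏ u, d u = N := by
  unfold Fac
  rw [mem_filter]
  exact ⟨fun h => h.2, fun h => ⟨mem_pi_of_prod (by omega) h.le, h⟩⟩

theorem sum_Fac {N : ℕ} (hN : Squarefree N) (F : (I → ℕ) → ℝ) :
    ∑ d ∈ Fac I N, F d = ∑ f : N.primeFactors → I, F (dOf f) := by
  symm
  refine sum_nbij dOf (fun f _ => (mem_Fac hN.ne_zero).mpr (prod_dOf hN f))
    dOf_inj.injOn (fun d hd => ?_) fun _ _ => rfl
  obtain ⟨f, hf⟩ := exists_dOf hN ((mem_Fac hN.ne_zero).mp hd)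
  exact ⟨f, by simp, hf⟩

theorem sum_Tup (X r : ℕ) (F : (I → ℕ) → ℝ) :
    ∑ d ∈ Tup I X r, F d = ∑ N ∈ Cls X r, ∑ d ∈ Fac I N, F d := by
  rw [← sum_fiberwise_of_maps_to (s := Tup I X r) (g := fun d => ∏ u, d u) (t := Cls X r)
    fun d hd => mem_Tup.mp hd]
  refine sum_congr rfl fun N hN => sum_congr ?_ fun _ _ => rfl
  ext d
  have := mem_Cls.mp hN
  rw [mem_filter, mem_Fac (by omega), mem_Tup]
  exact ⟨fun h => h.2, fun h => ⟨h ▸ hN, h⟩⟩

theorem mem_Sm {U : Finset I} {Y : ℕ} {D : I → ℕ} :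
    D ∈ Sm U Y ↔ (∀ v ∈ U, D v = 1) ∧ ∀ v ∉ U, 1 ≤ D v ∧ D v ≤ Y := by
  unfold Sm
  rw [Fintype.mem_piFinset]
  constructor
  · intro h
    refine ⟨fun v hv => ?_, fun v hv => ?_⟩
    · simpa [hv] using h v
    · simpa [hv] using h v
  · rintro ⟨h1, h2⟩ v
    by_cases hv : v ∈ U
    · simp [hv, h1 v hv]
    · simpa [hv] using h2 v hv

omit [Fintype I] in
theorem dOf_off {U : Finset I} {n : ℕ} (f : n.primeFactors → U) {v : I} (hv : v ∉ U) :
    dOf (fun p => (f p : I)) v = 1 :=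
  (dOf_eq_one_iff _ _).mpr fun p h => hv (h ▸ (f p).2)

theorem sum_Fac_on {n : ℕ} (hn : Squarefree n) (U : Finset I) (F : (I → ℕ) → ℝ) :
    ∑ e ∈ Fac I n with (∀ v ∉ U, e v = 1), F e =
      ∑ f : n.primeFactors → U, F (dOf fun p => (f p : I)) := by
  symm
  refine sum_nbij (fun f => dOf fun p => (f p : I)) (fun f _ => mem_filter.mpr
    ⟨(mem_Fac hn.ne_zero).mpr (prod_dOf hn _), fun v hv => dOf_off f hv⟩)
    (fun f _ g _ h => ?_) (fun d hd => ?_) fun _ _ => rfl
  · funext p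
    exact Subtype.ext (congrFun (dOf_inj h) p)
  · obtain ⟨h1, h2⟩ := mem_filter.mp hd
    obtain ⟨f, hf⟩ := exists_dOf hn ((mem_Fac hn.ne_zero).mp h1)
    have h3 : ∀ p, f p ∈ U := fun p => by
      by_contra h
      exact (dOf_eq_one_iff f (f p)).mp (hf ▸ h2 _ h) p rfl
    exact ⟨fun p => ⟨f p, h3 p⟩, by simp, hf⟩

theorem sum_split (U : Finset I) (X r Y : ℕ) (F : (I → ℕ) → ℝ) :
    ∑ d ∈ Tup I X r with (∀ v ∉ U, d v ≤ Y), F d =
      ∑ D ∈ Sm U Y, ∑ n ∈ Icc 1 X with (∏ v, D v) * n ∈ Cls X r,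
        ∑ f : n.primeFactors → U, F (D * dOf fun p => (f p : I)) := by
  have h1 : ∀ D ∈ Sm U Y, ∑ n ∈ Icc 1 X with (∏ v, D v) * n ∈ Cls X r,
      ∑ f : n.primeFactors → U, F (D * dOf fun p => (f p : I)) =
      ∑ n ∈ Icc 1 X with (∏ v, D v) * n ∈ Cls X r,
        ∑ e ∈ Fac I n with (∀ v ∉ U, e v = 1), F (D * e) := fun D _ =>
    sum_congr rfl fun n hn =>
      (sum_Fac_on (mem_Cls.mp (mem_filter.mp hn).2).2.2.1.of_mul_right U fun e => F (D * e)).symm
  rw [sum_congr rfl h1]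
  simp only [sum_sigma']
  symm
  refine sum_nbij' (fun x => x.1 * x.2.2)
    (fun d => ⟨fun v => if v ∈ U then 1 else d v, ∏ v, (if v ∈ U then d v else 1),
      fun v => if v ∈ U then d v else 1⟩) ?_ ?_ ?_ ?_ fun _ _ => rfl
  · rintro ⟨D, n, e⟩ hx
    simp only [mem_sigma, mem_filter] at hx
    obtain ⟨hD, ⟨hn, hc⟩, he, he'⟩ := hx
    have hn0 := (mem_Icc.mp hn).1
    refine mem_filter.mpr ⟨mem_Tup.mpr ?_, fun v hv => ?_⟩
    · simp only [Pi.mul_apply, prod_mul_distrib]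
      rwa [(mem_Fac (by omega)).mp he]
    · simp only [Pi.mul_apply, he' v hv, mul_one]
      exact ((mem_Sm.mp hD).2 v hv).2
  · intro d hd
    obtain ⟨h2, h3⟩ := mem_filter.mp hd
    have h4 := mem_Tup.mp h2
    have h5 := mem_Cls.mp h4
    have h0 : ∀ u, d u ≠ 0 := fun u => prod_ne_zero_iff.mp (by omega) u (mem_univ u)
    have h6 : (∏ v, if v ∈ U then 1 else d v) * (∏ v, if v ∈ U then d v else 1) = ∏ v, d v := by
      rw [← prod_mul_distrib]
      exact prod_congr rfl fun v _ => by split_ifs <;> simp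
    have h7 : (∏ v, if v ∈ U then d v else 1) ≠ 0 := fun h => by
      rw [h, mul_zero] at h6; omega
    simp only [mem_sigma, mem_filter]
    refine ⟨mem_Sm.mpr ⟨fun v hv => if_pos hv, fun v hv => ?_⟩, ⟨mem_Icc.mpr ⟨by omega, ?_⟩, ?_⟩,
      (mem_Fac h7).mpr rfl, fun v hv => if_neg hv⟩
    · rw [if_neg hv]; exact ⟨Nat.pos_of_ne_zero (h0 v), h3 v hv⟩
    · exact (Nat.le_of_dvd h5.1 (Dvd.intro_left _ h6)).trans h5.2.1
    · rwa [h6]
  · rintro ⟨D, n, e⟩ hx
    simp only [mem_sigma, mem_filter] at hx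
    obtain ⟨hD, ⟨hn, hc⟩, he, he'⟩ := hx
    have hn0 := (mem_Icc.mp hn).1
    have e1 : (fun v => if v ∈ U then 1 else (D * e) v) = D := by
      funext v
      split_ifs with hv
      · exact ((mem_Sm.mp hD).1 v hv).symm
      · simp [he' v hv]
    have e2 : (fun v => if v ∈ U then (D * e) v else 1) = e := by
      funext v
      split_ifs with hv
      · simp [(mem_Sm.mp hD).1 v hv]
      · exact (he' v hv).symm
    have e3 : (∏ v, if v ∈ U then (D * e) v else 1) = n := by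
      rw [e2]; exact (mem_Fac (by omega)).mp he
    simp only [e1, e2, e3]
  · intro d _
    funext v
    simp only [Pi.mul_apply]
    split_ifs <;> simp

end Pool.Agent.Lib.MP_696deb_nt.Mom
end

-- part Pool.Agent.Lib.MP_696deb_nt.MomMaxA
section

set_option autoImplicit false

open Finset Matrix Filter
open scoped NumberTheorySymbols

namespace Pool.Agent.Lib.MP_696deb_nt.Mom.Max
open Den

theorem jp_mul_left (b : ZMod 2) (a a' n : ℕ) : jp b (a * a') n = jp b a n * jp b a' n := by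
  unfold jp
  split_ifs
  · simp
  · push_cast; rw [jacobiSym.mul_left]; push_cast; rfl

theorem jp_mul_right (b : ZMod 2) (a : ℕ) {n n' : ℕ} (h : n ≠ 0) (h' : n' ≠ 0) :
    jp b a (n * n') = jp b a n * jp b a n' := by
  unfold jp
  split_ifs
  · simp
  · rw [jacobiSym.mul_right' _ h h']; push_cast; rfl

theorem jp_one_left (b : ZMod 2) (n : ℕ) : jp b 1 n = 1 := by
  unfold jp; split_ifs <;> simp

theorem jp_one_right (b : ZMod 2) (a : ℕ) : jp b a 1 = 1 := by
  unfold jp; split_ifs <;> simp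

theorem abs_jp_le (b : ZMod 2) (a n : ℕ) : |jp b a n| ≤ 1 := by
  unfold jp
  split_ifs
  · simp
  · exact abs_J_le _ _

theorem abs_prod_le {α : Type} (s : Finset α) (f : α → ℝ) (h : ∀ a ∈ s, |f a| ≤ 1) :
    |∏ a ∈ s, f a| ≤ 1 := by
  rw [abs_prod]
  exact prod_le_one (fun _ _ => abs_nonneg _) h

theorem abs_mul_le {a b : ℝ} (ha : |a| ≤ 1) (hb : |b| ≤ 1) : |a * b| ≤ 1 := by
  rw [abs_mul]; exact mul_le_one₀ ha (abs_nonneg _) hb

/-- The character modulo four. -/
noncomputable def c4 (n : ℕ) : ℝ := ((ZMod.χ₄ n : ℤ) : ℝ)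

theorem c4_mul (a b : ℕ) : c4 (a * b) = c4 a * c4 b := by
  unfold c4; push_cast; rw [map_mul]; push_cast; rfl

theorem c4_one : c4 1 = 1 := by simp [c4]

theorem c4_of_one {n : ℕ} (h : n % 4 = 1) : c4 n = 1 := by
  unfold c4; rw [ZMod.χ₄_nat_one_mod_four h]; simp

theorem c4_of_three {n : ℕ} (h : n % 4 = 3) : c4 n = -1 := by
  unfold c4; rw [ZMod.χ₄_nat_three_mod_four h]; simp

theorem abs_c4_le (n : ℕ) : |c4 n| ≤ 1 := by
  unfold c4; rw [ZMod.χ₄_nat_eq_if_mod_four]; split_ifs <;> simp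

theorem J_recip {a b : ℕ} (ha : Odd a) (hb : Odd b) :
    (J(a | b) : ℝ) = (if a % 4 = 3 then c4 b else 1) * J(b | a) := by
  have h1 := Nat.odd_iff.mp ha
  have h2 := Nat.odd_iff.mp hb
  split_ifs with h
  · by_cases h' : b % 4 = 3
    · rw [jacobiSym.quadratic_reciprocity_three_mod_four h h', c4_of_three h']; push_cast; ring
    · rw [c4_of_one (by omega), jacobiSym.quadratic_reciprocity_one_mod_four' ha (by omega),
        one_mul]
  · rw [jacobiSym.quadratic_reciprocity_one_mod_four (by omega) hb, one_mul]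

theorem J_sq {a b : ℕ} (h : Nat.Coprime a b) : (J(a | b) : ℝ) * J(a | b) = 1 := by
  have := jacobiSym.sq_one (a := a) (b := b) (by simpa using h)
  rw [sq] at this
  exact_mod_cast this

variable {I : Type} [Fintype I] [DecidableEq I]

omit [DecidableEq I] in
theorem abs_sg_le (Φ : I → I → ZMod 2) (ν : I → ZMod 2) (d : I → ℕ) : |sg Φ ν d| ≤ 1 :=
  abs_mul_le (abs_prod_le _ _ fun _ _ => abs_prod_le _ _ fun _ _ => abs_jp_le _ _ _)
    (abs_prod_le _ _ fun _ _ => abs_jp_le _ _ _)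

/-- The character attached to a large variable by the small ones. -/
noncomputable def ps (Φ : I → I → ZMod 2) (ν : I → ZMod 2) (D : I → ℕ) (u : I) (x : ℕ) : ℝ :=
  jp (ν u) x 5 * ∏ v, (jp (Φ u v) (D v) x * jp (Φ v u) x (D v))

omit [DecidableEq I] in
theorem sg_mul (Φ : I → I → ZMod 2) (ν : I → ZMod 2) {D e : I → ℕ} (hD : ∀ v, D v ≠ 0)
    (he : ∀ v, e v ≠ 0) : sg Φ ν (D * e) =
      sg Φ ν D * (∏ u, ∏ v, jp (Φ u v) (e v) (e u)) * ∏ u, ps Φ ν D u (e u) := by
  unfold sg ps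
  simp only [Pi.mul_apply, jp_mul_left, jp_mul_right _ _ (hD _) (he _), prod_mul_distrib]
  rw [Finset.prod_comm (f := fun u v => jp (Φ v u) (e u) (D v))]
  ring

omit [DecidableEq I] in
theorem prod_pairs (φ : I → I → ℝ) (h : ∀ u, φ u u = 1) :
    ∏ u, ∏ v, φ u v = ∏ u, ∏ v with ix u < ix v, (φ u v * φ v u) := by
  have h1 : ∀ u v, φ u v = (if ix u < ix v then φ u v else 1) *
      (if ix v < ix u then φ u v else 1) := fun u v => by
    rcases lt_trichotomy (ix u) (ix v) with h' | h' | h'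
    · rw [if_pos h', if_neg (by omega), mul_one]
    · rw [if_neg (by omega), if_neg (by omega), mul_one, ix_inj h', h]
    · rw [if_neg (by omega), if_pos h', one_mul]
  have h2 : ∏ u, ∏ v, φ u v = (∏ u, ∏ v, if ix u < ix v then φ u v else 1) *
      ∏ u, ∏ v, if ix v < ix u then φ u v else 1 := by
    simp only [← prod_mul_distrib]
    exact prod_congr rfl fun u _ => prod_congr rfl fun v _ => h1 u v
  rw [h2, Finset.prod_comm (f := fun u v => if ix v < ix u then φ u v else 1)]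
  simp only [← prod_mul_distrib, prod_filter]
  exact prod_congr rfl fun u _ => prod_congr rfl fun v _ => by split_ifs <;> simp

theorem cop_of_sq {e : I → ℕ} (h : Squarefree (∏ u, e u)) {u v : I} (huv : u ≠ v) :
    Nat.Coprime (e u) (e v) := by
  apply Nat.coprime_of_squarefree_mul
  refine h.squarefree_of_dvd ?_
  rw [← prod_pair huv]
  exact prod_dvd_prod_of_subset _ _ _ (subset_univ _)

omit [DecidableEq I] in
theorem odd_of_prod {e : I → ℕ} (h : Odd (∏ u, e u)) (u : I) : Odd (e u) :=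
  h.of_dvd_nat (dvd_prod_of_mem e (mem_univ u))

theorem ee_eq {Φ : I → I → ZMod 2} (hd : ∀ u, Φ u u = 0) {U : Finset I} (hU : Unl Φ U)
    {e : I → ℕ} (he : ∀ v ∉ U, e v = 1) (hs : Squarefree (∏ u, e u)) (ho : Odd (∏ u, e u)) :
    ∏ u, ∏ v, jp (Φ u v) (e v) (e u) = Th Φ {u | e u % 4 = 3} := by
  rw [prod_pairs _ fun u => by simp [jp, hd]]
  unfold Th
  rw [sum_filter, sgn_sum]
  push_cast
  refine prod_congr rfl fun u _ => ?_
  have h0 : (∑ v ∈ ({u | e u % 4 = 3} : Finset I) with ix u < ix v, Φ u v) =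
      ∑ v with ix u < ix v, if e v % 4 = 3 then Φ u v else 0 := by
    rw [filter_comm, sum_filter]
  rw [h0]
  have h1 : (if e u % 4 = 3 then ∑ v with ix u < ix v, if e v % 4 = 3 then Φ u v else 0 else 0) =
      ∑ v with ix u < ix v, if e u % 4 = 3 ∧ e v % 4 = 3 then Φ u v else 0 := by
    split_ifs with h <;> simp [h]
  rw [h1, sgn_sum]
  push_cast
  refine prod_congr rfl fun v hv => ?_
  have huv : u ≠ v := fun h => by have := (mem_filter.mp hv).2; rw [h] at this; omega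
  by_cases hu : u ∈ U
  swap
  · rw [he u hu, jp_one_left, jp_one_right]; simp [sgn]
  by_cases hv' : v ∈ U
  swap
  · rw [he v hv', jp_one_left, jp_one_right]; simp [sgn]
  rw [← hU u hu v hv']
  rcases zmod_two_cases (Φ u v) with h | h
  · simp [h, jp, sgn]
  · have h2 := Nat.odd_iff.mp (odd_of_prod ho u)
    rw [h, jp, jp, if_neg (by decide), if_neg (by decide),
      J_recip (odd_of_prod ho v) (odd_of_prod ho u), mul_assoc, J_sq (cop_of_sq hs huv), mul_one]
    by_cases h3 : e v % 4 = 3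
    · by_cases h4 : e u % 4 = 3
      · rw [if_pos h3, if_pos ⟨h4, h3⟩, c4_of_three h4]; simp [sgn]
      · rw [if_pos h3, if_neg fun h => h4 h.1, c4_of_one (by omega)]; simp [sgn]
    · rw [if_neg h3, if_neg fun h => h3 h.2]; simp [sgn]

/-- The characters of the group of subsets. -/
noncomputable def ch (Λ S : Finset I) : ℝ := ∏ u ∈ Λ, if u ∈ S then -1 else 1

/-- The Fourier coefficients of the reciprocity sign. -/
noncomputable def cf (Φ : I → I → ZMod 2) (U Λ : Finset I) : ℝ :=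
  (∑ S ∈ U.powerset, Th Φ S * ch Λ S) / 2 ^ #U

omit [DecidableEq I] in
theorem abs_Th_le (Φ : I → I → ZMod 2) (S : Finset I) : |Th Φ S| ≤ 1 := by
  unfold Th sgn; split_ifs <;> simp

theorem abs_cf_le (Φ : I → I → ZMod 2) (U Λ : Finset I) : |cf Φ U Λ| ≤ 1 := by
  unfold cf
  rw [abs_div, abs_of_pos (by positivity : (0 : ℝ) < 2 ^ #U), div_le_one (by positivity)]
  refine (abs_sum_le_sum_abs _ _).trans ((sum_le_card_nsmul _ _ 1 fun S _ =>
    abs_mul_le (abs_Th_le _ _) (abs_prod_le _ _ fun u _ => by split_ifs <;> simp)).trans ?_)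
  simp

omit [Fintype I] in
theorem orth {U S S' : Finset I} (hS : S ⊆ U) (hS' : S' ⊆ U) :
    ∑ Λ ∈ U.powerset, ch Λ S' * ch Λ S = if S' = S then 2 ^ #U else 0 := by
  unfold ch
  simp only [← prod_mul_distrib]
  rw [← Finset.prod_one_add]
  split_ifs with h
  · subst h
    rw [← prod_const]
    exact prod_congr rfl fun u _ => by split_ifs <;> norm_num
  · obtain ⟨u, hu⟩ : ∃ u, ¬ (u ∈ S' ↔ u ∈ S) := by
      by_contra h'
      push Not at h'
      exact h (Finset.ext h')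
    by_cases h1 : u ∈ S'
    · exact prod_eq_zero (hS' h1) (by rw [if_pos h1, if_neg fun h2 => hu (by simp [h1, h2])]; ring)
    · have h2 : u ∈ S := by by_contra h2; exact hu (by simp [h1, h2])
      exact prod_eq_zero (hS h2) (by rw [if_neg h1, if_pos h2]; ring)

theorem fourier (Φ : I → I → ZMod 2) {U S : Finset I} (hS : S ⊆ U) :
    Th Φ S = ∑ Λ ∈ U.powerset, cf Φ U Λ * ch Λ S := by
  unfold cf
  simp only [div_mul_eq_mul_div, ← sum_div, sum_mul]
  rw [sum_comm]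
  simp only [mul_assoc, ← mul_sum]
  rw [sum_congr rfl fun S' hS' => by rw [orth hS (mem_powerset.mp hS')]]
  simp only [mul_ite, mul_zero, sum_ite_eq', mem_powerset, hS, if_true]
  field_simp

theorem cf_sub (Φ : I → I → ZMod 2) {U : Finset I} (hU : U.Nonempty) :
    cf Φ U ∅ - cf Φ U U = CU Φ U := by
  unfold cf CU
  obtain ⟨k, hk⟩ : ∃ k, #U = k + 1 := ⟨#U - 1, by have := hU.card_pos; omega⟩
  rw [← sub_div, ← sum_sub_distrib, hk, Nat.add_sub_cancel, sum_filter, pow_succ',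
    ← div_div, sum_div]
  congr 1
  refine sum_congr rfl fun S hS => ?_
  have h1 : ch U S = (-1) ^ #S := by
    unfold ch
    rw [← prod_filter, filter_mem_eq_inter, inter_eq_right.mpr (mem_powerset.mp hS), prod_const]
  rw [h1]
  split_ifs with h
  · rw [h.neg_one_pow]; simp [ch]
  · rw [(Nat.not_odd_iff_even.mp h).neg_one_pow]; simp [ch]

/-- The twisted characters. -/
noncomputable def pl (Φ : I → I → ZMod 2) (ν : I → ZMod 2) (D : I → ℕ) (Λ : Finset I) (u : I)
    (x : ℕ) : ℝ := ps Φ ν D u x * if u ∈ Λ then c4 x else 1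

theorem pl_one (Φ : I → I → ZMod 2) (ν : I → ZMod 2) (D : I → ℕ) (Λ : Finset I) (u : I) :
    pl Φ ν D Λ u 1 = 1 := by
  simp [pl, ps, jp_one_left, jp_one_right, c4_one]

theorem pl_mul (Φ : I → I → ZMod 2) (ν : I → ZMod 2) (D : I → ℕ) (Λ : Finset I) (u : I)
    (a b : ℕ) (ha : a ≠ 0) (hb : b ≠ 0) :
    pl Φ ν D Λ u (a * b) = pl Φ ν D Λ u a * pl Φ ν D Λ u b := by
  unfold pl ps
  simp only [jp_mul_left, jp_mul_right _ _ ha hb, prod_mul_distrib, c4_mul]
  split_ifs <;> ring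

theorem abs_pl_le (Φ : I → I → ZMod 2) (ν : I → ZMod 2) (D : I → ℕ) (Λ : Finset I) (u : I)
    (a : ℕ) : |pl Φ ν D Λ u a| ≤ 1 := by
  refine abs_mul_le (abs_mul_le (abs_jp_le _ _ _) (abs_prod_le _ _ fun _ _ =>
    abs_mul_le (abs_jp_le _ _ _) (abs_jp_le _ _ _))) ?_
  split_ifs
  · exact abs_c4_le _
  · simp

/-- The multiplicative function attached to the small variables and a Fourier mode. -/
noncomputable def GG (Φ : I → I → ZMod 2) (ν : I → ZMod 2) (U : Finset I) (D : I → ℕ)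
    (Λ : Finset I) (n : ℕ) : ℝ :=
  ∏ p ∈ n.primeFactors, (∑ u ∈ U, pl Φ ν D Λ u p) / #U

theorem wt_mul (m : ℕ) {U : Finset I} {D : I → ℕ} {n : ℕ} (h : Squarefree ((∏ v, D v) * n))
    (f : n.primeFactors → U) :
    wt m (D * dOf fun p => (f p : I)) = wt m D * (1 / (m : ℝ)) ^ #n.primeFactors := by
  unfold wt
  simp only [Pi.mul_apply, prod_mul_distrib]
  rw [prod_dOf h.of_mul_right, (Nat.coprime_of_squarefree_mul h).primeFactors_mul,
    card_union_of_disjoint (Nat.coprime_of_squarefree_mul h).disjoint_primeFactors, pow_add]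

omit [Fintype I] [DecidableEq I] in
theorem sum_colour {U : Finset I} (n : ℕ) (ψ : I → ℕ → ℝ) :
    ∑ f : n.primeFactors → U, ∏ p, ψ (f p) p = ∏ p ∈ n.primeFactors, ∑ u ∈ U, ψ u p := by
  rw [← Finset.prod_coe_sort n.primeFactors fun p => ∑ u ∈ U, ψ u p]
  simp only [← Finset.sum_coe_sort U]
  rw [Finset.prod_univ_sum, Fintype.piFinset_univ]

theorem inner {Φ : I → I → ZMod 2} (hd : ∀ u, Φ u u = 0) (ν : I → ZMod 2) (ι : Finset I → ℝ)
    {U : Finset I} (hU : Unl Φ U) {D : I → ℕ} {n : ℕ} (h : Squarefree ((∏ v, D v) * n))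
    (ho : Odd n) :
    ∑ f : n.primeFactors → U, wt #U (D * dOf fun p => (f p : I)) *
        ι (U ∪ supp (D * dOf fun p => (f p : I))) * sg Φ ν (D * dOf fun p => (f p : I)) =
      ∑ Λ ∈ U.powerset, wt #U D * ι (U ∪ supp D) * sg Φ ν D * cf Φ U Λ * GG Φ ν U D Λ n := by
  have hn := h.of_mul_right
  have hD : ∀ v, D v ≠ 0 := fun v => prod_ne_zero_iff.mp h.of_mul_left.ne_zero v (mem_univ v)
  have h1 : ∀ f : n.primeFactors → U, wt #U (D * dOf fun p => (f p : I)) *
      ι (U ∪ supp (D * dOf fun p => (f p : I))) * sg Φ ν (D * dOf fun p => (f p : I)) =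
      ∑ Λ ∈ U.powerset, wt #U D * ι (U ∪ supp D) * sg Φ ν D * cf Φ U Λ *
        ((1 / (#U : ℝ)) ^ #n.primeFactors * ∏ p, pl Φ ν D Λ (f p) p) := fun f => by
    set e := dOf fun p => (f p : I) with he
    have e1 : ∀ v ∉ U, e v = 1 := fun v hv => dOf_off f hv
    have e2 : ∏ u, e u = n := prod_dOf hn _
    have e3 : U ∪ supp (D * e) = U ∪ supp D := by
      ext v
      by_cases hv : v ∈ U <;> simp [supp, hv, e1]
    have e4 : ({u | e u % 4 = 3} : Finset I) ⊆ U := fun v hv => by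
      by_contra h'
      have := (mem_filter.mp hv).2
      rw [e1 v h'] at this
      omega
    rw [wt_mul _ h, e3, sg_mul Φ ν hD (dOf_ne_zero _), ee_eq hd hU e1 (e2 ▸ hn) (e2 ▸ ho),
      fourier Φ e4]
    simp only [mul_sum, sum_mul]
    refine sum_congr rfl fun Λ _ => ?_
    rw [← prod_mult_dOf _ (pl Φ ν D Λ) (pl_one Φ ν D Λ) (pl_mul Φ ν D Λ), ← he]
    have e5 : ∏ u, pl Φ ν D Λ u (e u) = (∏ u, ps Φ ν D u (e u)) * ch Λ {u | e u % 4 = 3} := by
      unfold pl ch
      rw [prod_mul_distrib, ← prod_filter, filter_mem_eq_inter, univ_inter]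
      congr 1
      refine prod_congr rfl fun u _ => ?_
      have := Nat.odd_iff.mp (odd_of_prod (e2 ▸ ho) u)
      split_ifs with h'
      · exact c4_of_three (mem_filter.mp h').2
      · exact c4_of_one (by simp only [mem_filter, mem_univ, true_and] at h'; omega)
    rw [e5]
    ring
  rw [sum_congr rfl fun f _ => h1 f, sum_comm]
  refine sum_congr rfl fun Λ _ => ?_
  rw [← mul_sum, ← mul_sum, sum_colour, GG, prod_div_distrib, prod_const]
  congr 1
  rw [one_div, inv_pow, mul_comm, div_eq_mul_inv]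

end Pool.Agent.Lib.MP_696deb_nt.Mom.Max
end

-- part Pool.Agent.Lib.MP_696deb_nt.MomComb
section

set_option autoImplicit false

open Finset Matrix Filter
open scoped NumberTheorySymbols symmDiff

namespace Pool.Agent.Lib.MP_696deb_nt.Mom
open Den

namespace Comb

section
variable {I : Type} [Fintype I] [DecidableEq I] {Φ : I → I → ZMod 2} {U S : Finset I} {a : I}

theorem two (x : ZMod 2) : x + x = 0 := CharTwo.add_self_eq_zero x

/-- The exponent of the reciprocity sign. -/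
noncomputable def Ex (Φ : I → I → ZMod 2) (S : Finset I) : ZMod 2 :=
  ∑ u ∈ S, ∑ v ∈ S with ix u < ix v, Φ u v

omit [DecidableEq I] in
theorem Th_eq : Th Φ S = (sgn (Ex Φ S) : ℝ) := rfl

theorem Ex_insert (ha : a ∉ S) (hs : ∀ v ∈ S, Φ a v = Φ v a) :
    Ex Φ (insert a S) = Ex Φ S + ∑ v ∈ S, Φ a v := by
  simp only [Ex, sum_filter, sum_insert ha, lt_irrefl, if_false, zero_add, sum_add_distrib]
  have : ∑ v ∈ S, Φ a v = (∑ v ∈ S, if ix a < ix v then Φ a v else 0) +
      ∑ v ∈ S, if ix v < ix a then Φ v a else 0 := by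
    rw [← sum_add_distrib]
    refine sum_congr rfl fun v hv => ?_
    have hne : ix a ≠ ix v := fun h => ha (ix_inj h ▸ hv)
    rcases lt_or_gt_of_ne hne with h | h
    · simp [h, h.not_gt]
    · simp [h, h.not_gt, hs v hv]
  rw [this]
  ring

omit [Fintype I] in
theorem tog_mem (ha : a ∈ S) : S ∆ {a} = S.erase a := by
  ext x
  by_cases h : x = a <;> simp [mem_symmDiff, h, ha]

omit [Fintype I] in
theorem tog_notMem (ha : a ∉ S) : S ∆ {a} = insert a S := by
  ext x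
  by_cases h : x = a <;> simp [mem_symmDiff, h, ha]

omit [Fintype I] in
theorem tog_sub (hS : S ⊆ U) (ha : a ∈ U) : S ∆ {a} ⊆ U := fun x hx => by
  rcases mem_symmDiff.1 hx with h | h
  · exact hS h.1
  · exact mem_singleton.1 h.1 ▸ ha

omit [Fintype I] in
theorem sum_tog (f : I → ZMod 2) : ∑ v ∈ S ∆ {a}, f v = ∑ v ∈ S, f v + f a := by
  by_cases ha : a ∈ S
  · rw [tog_mem ha, ← sum_erase_add _ _ ha, add_assoc, two, add_zero]
  · rw [tog_notMem ha, sum_insert ha, add_comm]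

omit [Fintype I] [DecidableEq I] in
theorem odd_iff : Odd #S ↔ ∑ _v ∈ S, (1 : ZMod 2) = 1 := by
  simp [ZMod.natCast_eq_one_iff_odd]

omit [Fintype I] in
theorem odd_tog : Odd #(S ∆ {a}) ↔ ¬ Odd #S := by
  rw [odd_iff, odd_iff, sum_tog]
  generalize ∑ _v ∈ S, (1 : ZMod 2) = x
  revert x
  decide

theorem Ex_tog (hU : Unl Φ U) (hd : ∀ u, Φ u u = 0) (hS : S ⊆ U) (ha : a ∈ U) :
    Ex Φ (S ∆ {a}) = Ex Φ S + ∑ v ∈ S, Φ a v := by
  by_cases h : a ∈ S
  · have h1 := Ex_insert (Φ := Φ) (notMem_erase a S)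
      fun v hv => hU a ha v (hS (mem_of_mem_erase hv))
    rw [insert_erase h] at h1
    rw [tog_mem h, h1, ← sum_erase_add _ _ h, hd, add_zero, add_assoc, two, add_zero]
  · rw [tog_notMem h, Ex_insert h fun v hv => hU a ha v (hS hv)]

theorem CU_zero (hU : Unl Φ U) (hd : ∀ u, Φ u u = 0) {a b c d : I} (ha : a ∈ U) (hb : b ∈ U)
    (hc : c ∈ U) (hd' : d ∈ U) (h1 : ∀ v ∈ U, Φ a v + Φ b v + Φ c v + Φ d v = 0)
    (h2 : Φ b a + (Φ c a + Φ c b) + (Φ d a + Φ d b + Φ d c) = 1) : CU Φ U = 0 := by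
  obtain ⟨g, hg⟩ : ∃ g : Finset I → Finset I, ∀ S, g S = S ∆ {a} ∆ {b} ∆ {c} ∆ {d} :=
    ⟨_, fun _ => rfl⟩
  have key : ∀ S ⊆ U, Th Φ S + Th Φ (g S) = 0 := fun S hS => by
    have s1 := tog_sub hS ha
    have s2 := tog_sub s1 hb
    have s3 := tog_sub s2 hc
    have e : Ex Φ (g S) = Ex Φ S + 1 := by
      rw [hg, Ex_tog hU hd s3 hd', Ex_tog hU hd s2 hc, Ex_tog hU hd s1 hb, Ex_tog hU hd hS ha]
      simp only [sum_tog]
      have h3 : ∑ v ∈ S, (Φ a v + Φ b v + Φ c v + Φ d v) = 0 :=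
        sum_eq_zero fun v hv => h1 v (hS hv)
      simp only [sum_add_distrib] at h3
      linear_combination h3 + h2
    rw [Th_eq, Th_eq, e, sgn_add]
    simp [sgn]
  have h0 : ∑ S ∈ U.powerset with Odd #S, Th Φ S = 0 := by
    refine sum_involution (fun S _ => g S) (fun S hS => key S ?_)
      (fun S hS h0 e => h0 ?_) (fun S hS => ?_) fun S hS => ?_
    · exact mem_powerset.1 (mem_filter.1 hS).1
    · have := key S (mem_powerset.1 (mem_filter.1 hS).1)
      rw [e] at this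
      linarith
    · rw [mem_filter, mem_powerset] at hS ⊢
      rw [hg, odd_tog, odd_tog, odd_tog, odd_tog, not_not, not_not]
      exact ⟨tog_sub (tog_sub (tog_sub (tog_sub hS.1 ha) hb) hc) hd', hS.2⟩
    · have : ∀ T : Finset I, g T = T ∆ ({a} ∆ {b} ∆ {c} ∆ {d}) :=
        fun T => by simp only [hg, symmDiff_assoc]
      rw [this, this]
      exact symmDiff_symmDiff_cancel_right _ _
  rw [CU, h0, zero_div]

omit [Fintype I] in
theorem card_odd (ha : a ∈ U) : #{S ∈ U.powerset | Odd #S} = 2 ^ (#U - 1) := by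
  have h1 : #{S ∈ U.powerset | Odd #S} = #{S ∈ U.powerset | ¬ Odd #S} := by
    refine card_bij' (fun S _ => S ∆ {a}) (fun S _ => S ∆ {a}) (fun S hS => ?_) (fun S hS => ?_)
      (fun S _ => symmDiff_symmDiff_cancel_right _ _) fun S _ =>
        symmDiff_symmDiff_cancel_right _ _
    · rw [mem_filter, mem_powerset] at hS ⊢
      exact ⟨tog_sub hS.1 ha, by simpa only [odd_tog, not_not] using hS.2⟩
    · rw [mem_filter, mem_powerset] at hS ⊢
      exact ⟨tog_sub hS.1 ha, odd_tog.2 hS.2⟩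
  have h2 := card_filter_add_card_filter_not (s := U.powerset) fun S => Odd #S
  rw [card_powerset, ← h1] at h2
  obtain ⟨n, hn⟩ : ∃ n, #U = n + 1 := Nat.exists_eq_succ_of_ne_zero (card_ne_zero.2 ⟨a, ha⟩)
  rw [hn] at h2 ⊢
  rw [pow_succ] at h2
  simp only [Nat.add_sub_cancel]
  omega

theorem CU_one (L : I → ZMod 2) (h : ∀ u ∈ U, ∀ v ∈ U, Φ u v = L u + L v) (ha : a ∈ U) :
    CU Φ U = 1 := by
  have key : ∀ S ⊆ U, Ex Φ S = (∑ _v ∈ S, (1 : ZMod 2) + 1) * ∑ v ∈ S, L v := fun S => by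
    induction S using Finset.induction_on with
    | empty => simp [Ex]
    | insert b S hb ih =>
      intro hS
      have hbU := hS (mem_insert_self _ _)
      have hSU : S ⊆ U := (subset_insert _ _).trans hS
      rw [Ex_insert hb fun v hv => by rw [h b hbU v (hSU hv), h v (hSU hv) b hbU, add_comm],
        ih hSU, sum_congr rfl fun v hv => h b hbU v (hSU hv), sum_insert hb, sum_insert hb,
        sum_add_distrib]
      have : ∑ _v ∈ S, L b = (∑ _v ∈ S, (1 : ZMod 2)) * L b := by simp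
      rw [this]
      linear_combination -two (L b)
  unfold CU
  rw [sum_congr rfl (g := fun _ => (1 : ℝ)) fun S hS => ?_, sum_const, card_odd ha]
  · simp
  · rw [mem_filter, mem_powerset, odd_iff] at hS
    rw [Th_eq, key S hS.1, hS.2, two, zero_mul]
    simp [sgn]

end

variable {k : ℕ} {U : Finset (Ix k)}

theorem self_add (x : Ix k) : x + x = 0 := by
  ext j <;> exact two _

/-- The quadratic form. -/
def Qf (x : Ix k) : ZMod 2 := ∑ j, x.2 j * x.1 j

/-- Its polar form. -/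
def Bf (k : ℕ) : LinearMap.BilinForm (ZMod 2) (Ix k) :=
  LinearMap.mk₂ (ZMod 2) (fun x y => ∑ j, (x.1 j * y.2 j + x.2 j * y.1 j))
    (fun x y z => by
      rw [← sum_add_distrib]; exact sum_congr rfl fun j _ => by simp; ring)
    (fun c x y => by
      rw [smul_eq_mul, mul_sum]; exact sum_congr rfl fun j _ => by simp; ring)
    (fun x y z => by
      rw [← sum_add_distrib]; exact sum_congr rfl fun j _ => by simp; ring)
    (fun c x y => by
      rw [smul_eq_mul, mul_sum]; exact sum_congr rfl fun j _ => by simp; ring)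

theorem Bf_apply (x y : Ix k) : Bf k x y = ∑ j, (x.1 j * y.2 j + x.2 j * y.1 j) := rfl

theorem Qf_add (x y : Ix k) : Qf (x + y) = Qf x + Qf y + Bf k x y := by
  simp only [Qf, Bf_apply, ← sum_add_distrib]
  exact sum_congr rfl fun j _ => by simp; ring

theorem Ph_add (u v : Ix k) : Ph k u v + Ph k v u = Qf (u + v) := by
  simp only [Qf, Ph, ← sum_add_distrib]
  exact sum_congr rfl fun j _ => by simp; ring

theorem Ph_self (u : Ix k) : Ph k u u = 0 := by simp [Ph, two]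

theorem Qf_unl (hU : Unl (Ph k) U) {u v : Ix k} (hu : u ∈ U) (hv : v ∈ U) : Qf (u + v) = 0 := by
  rw [← Ph_add, hU u hu v hv, two]

theorem shift (u v c : Ix k) : u + c + (v + c) = u + v := by
  rw [add_add_add_comm, self_add, add_zero]

theorem Bf_shift (u v c : Ix k) : Bf k (u + c) (v + c) = Qf (u + v) - Qf (u + c) - Qf (v + c) := by
  rw [← shift u v c, Qf_add (u + c)]
  ring

theorem Bf_unl (hU : Unl (Ph k) U) {u v c : Ix k} (hu : u ∈ U) (hv : v ∈ U) (hc : c ∈ U) :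
    Bf k (u + c) (v + c) = 0 := by
  rw [Bf_shift, Qf_unl hU hu hv, Qf_unl hU hu hc, Qf_unl hU hv hc, sub_zero, sub_zero]

theorem Bf_ker : LinearMap.ker (Bf k) = ⊥ := by
  refine LinearMap.ker_eq_bot'.2 fun x hx => ?_
  ext j
  · simpa [Bf_apply, Pi.single_apply] using LinearMap.congr_fun hx (0, Pi.single j 1)
  · simpa [Bf_apply, Pi.single_apply] using LinearMap.congr_fun hx (Pi.single j 1, 0)

theorem key (hU : Unl (Ph k) U) {c : Ix k} (hc : c ∈ U) : #U ≤ 2 ^ k ∧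
    (#U = 2 ^ k → ∀ z, (∀ u ∈ U, Bf k (u + c) z = 0) → z + c ∈ U) := by
  classical
  let T := U.image (· + c)
  have hT : #T = #U := card_image_of_injective _ (add_left_injective c)
  let W := Submodule.span (ZMod 2) (T : Set (Ix k))
  have h1 : ∀ z, (∀ u ∈ U, Bf k (u + c) z = 0) → z ∈ (Bf k).orthogonal W := fun z hz x hx => by
    refine (Submodule.span_le (p := LinearMap.ker ((Bf k).flip z))).2 (fun y hy => ?_) hx
    obtain ⟨u, hu, rfl⟩ := mem_image.1 hy
    exact hz u hu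
  have h2 : W ≤ (Bf k).orthogonal W := Submodule.span_le.2 fun y hy => by
    obtain ⟨v, hv, rfl⟩ := mem_image.1 hy
    exact h1 _ fun u hu => Bf_unl hU hu hv hc
  have h3 := (Bf k).finrank_add_finrank_orthogonal' W
  rw [Bf_ker, inf_bot_eq, finrank_bot] at h3
  simp only [Module.finrank_prod, Module.finrank_fintype_fun_eq_card, Fintype.card_fin] at h3
  have h4 := Submodule.finrank_mono h2
  have h5 : #{x : Ix k | x ∈ W} = 2 ^ Module.finrank (ZMod 2) W := by
    rw [← Fintype.card_subtype, Module.card_eq_pow_finrank (K := ZMod 2), ZMod.card]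
  have h6 : T ⊆ ({x : Ix k | x ∈ W} : Finset (Ix k)) := fun x hx =>
    mem_filter.2 ⟨mem_univ _, Submodule.subset_span hx⟩
  have h7 := card_le_card h6
  have h8 : 2 ^ Module.finrank (ZMod 2) W ≤ 2 ^ k := Nat.pow_le_pow_right two_pos (by omega)
  refine ⟨by omega, fun h z hz => ?_⟩
  have h9 : k ≤ Module.finrank (ZMod 2) W :=
    (Nat.pow_le_pow_iff_right one_lt_two).1 (by omega)
  have h10 := Submodule.eq_of_le_of_finrank_eq h2 (by omega)
  have h11 := eq_of_subset_of_card_le h6 (by omega)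
  have h12 : z ∈ T := h11 ▸ mem_filter.2 ⟨mem_univ _, h10 ▸ h1 z hz⟩
  obtain ⟨u, hu, rfl⟩ := mem_image.1 h12
  rwa [add_assoc, self_add, add_zero]

/-- The sets that contribute. -/
def Row (w : Fin k → ZMod 2) : Finset (Ix k) := univ ×ˢ {w}

theorem mem_Row {w : Fin k → ZMod 2} {u : Ix k} : u ∈ Row w ↔ u.2 = w := by
  rw [Row, mem_product]
  simp

theorem card_Row (w : Fin k → ZMod 2) : #(Row w) = 2 ^ k := by simp [Row]

theorem Ph_Row {w : Fin k → ZMod 2} : ∀ u ∈ Row w, ∀ v ∈ Row w,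
    Ph k u v = ∑ j, w j * u.1 j + ∑ j, w j * v.1 j := fun u hu v _ => by
  rw [Ph, mem_Row.1 hu, ← sum_add_distrib]
  exact sum_congr rfl fun j _ => by ring

theorem unl_Row (w : Fin k → ZMod 2) : Unl (Ph k) (Row w) := fun u hu v hv => by
  rw [Ph_Row u hu v hv, Ph_Row v hv u hu, add_comm]

theorem MU_Row (c : ZMod 2) (e w : Fin k → ZMod 2) :
    MU (Ph k) (nu c e) (io k) (Row w) = if c = 0 ∨ e = 0 then 1 else 0 := by
  have h1 : io k (Row w) = 1 := if_pos fun a l h => by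
    funext j
    have h2 := h (0, w) (mem_Row.2 rfl)
    have h3 := h (Pi.single j 1, w) (mem_Row.2 rfl)
    simpa [← h2, Pi.single_apply] using h3
  rw [MU, h1, CU_one (a := (0, w)) _ Ph_Row (mem_Row.2 rfl), one_mul]
  refine if_congr ⟨fun h => ?_, ?_⟩ rfl rfl
  · rw [or_iff_not_imp_left]
    intro hc
    funext j
    have := h (0, w) (mem_Row.2 rfl) (Pi.single j 1, w) (mem_Row.2 rfl)
    simpa [nu, Pi.single_apply, hc] using this
  · rintro (rfl | rfl) u _ v _ <;> simp [nu]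

theorem MU_zero (hU : Unl (Ph k) U) (h : #U = 2 ^ k) (hr : ∀ w, Row w ≠ U) (ν : Ix k → ZMod 2) :
    MU (Ph k) ν (io k) U = 0 := by
  obtain ⟨c, hc⟩ : U.Nonempty := card_pos.1 (h ▸ by positivity)
  rw [MU]
  split_ifs
  swap
  · rfl
  by_cases hb : ∀ a ∈ U, ∀ b ∈ U, ∑ j, (a.2 j + c.2 j) * (b.1 j + c.1 j) = 0
  · rw [io, if_neg fun hi => hr c.2 ?_, zero_mul]
    refine (eq_of_subset_of_card_le (fun a ha => mem_Row.2 ?_) (by rw [card_Row, h])).symm
    have := hi (∑ j, (a.2 j + c.2 j) * c.1 j) (fun j => a.2 j + c.2 j) fun b hb' => by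
      have h1 := hb a ha b hb'
      simp only [mul_add, sum_add_distrib] at h1
      exact CharTwo.add_eq_zero.1 h1
    funext j
    exact CharTwo.add_eq_zero.1 (congrFun this j)
  · push Not at hb
    obtain ⟨a, ha, b, hb, hab⟩ := hb
    have hd : a + b + c ∈ U := (key hU hc).2 h _ fun u hu => by
      rw [← shift a b c, map_add, Bf_unl hU hu ha hc, Bf_unl hU hu hb hc, add_zero]
    refine mul_eq_zero_of_right _ (CU_zero hU Ph_self hc hb ha hd (fun v hv => ?_) ?_)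
    · rw [hU c hc v hv, hU a ha v hv, hU b hb v hv, hU _ hd v hv]
      simp only [Ph, ← sum_add_distrib]
      refine sum_eq_zero fun j _ => ?_
      simp only [Prod.fst_add, Pi.add_apply]
      generalize v.2 j = x1, v.1 j = x2, a.1 j = x3, b.1 j = x4, c.1 j = x5
      revert x1 x2 x3 x4 x5
      decide
    · have h1 : ∀ x : ZMod 2, x ≠ 0 → x = 1 := by decide
      rw [← h1 _ hab, ← add_zero (∑ j, (a.2 j + c.2 j) * (b.1 j + c.1 j)), ← Qf_unl hU hb hc]
      simp only [Ph, Qf, ← sum_add_distrib]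
      refine sum_congr rfl fun j _ => ?_
      simp only [Prod.fst_add, Prod.snd_add, Pi.add_apply]
      generalize a.2 j = x1, b.2 j = x2, a.1 j = x3, b.1 j = x4, c.1 j = x5, c.2 j = x6
      revert x1 x2 x3 x4 x5 x6
      decide

end Comb

open Comb

theorem link_Ph (k : ℕ) : Link (Ph k) (2 ^ k) := by
  refine ⟨Nat.one_le_two_pow, Ph_self, fun U hU => ?_, fun U hU h v hv => ?_⟩
  · rcases U.eq_empty_or_nonempty with rfl | ⟨c, hc⟩
    · simp
    · exact (key hU hc).1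
  · obtain ⟨c, hc⟩ : U.Nonempty := card_pos.1 (h ▸ by positivity)
    by_contra hn
    push Not at hn
    have := (key hU hc).2 h (v + c) fun u hu => by
      have h1 := hn u hu c hc
      rw [Ph_add, Ph_add] at h1
      rw [Bf_shift, h1, Qf_unl hU hu hc, add_comm v c]
      ring
    rw [add_assoc, self_add, add_zero] at this
    exact hv this

theorem sum_MU (k : ℕ) (c : ZMod 2) (e : Fin k → ZMod 2) :
    ∑ U : Finset (Ix k) with Unl (Ph k) U ∧ #U = 2 ^ k, MU (Ph k) (nu c e) (io k) U =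
      if c = 0 ∨ e = 0 then 2 ^ k else 0 := by
  rw [← sum_subset (s₁ := univ.image Row) (fun U hU => ?_) fun U hU hr => ?_,
    sum_image fun w _ w' _ h => ?_]
  · simp only [MU_Row]
    split_ifs <;> simp
  · exact (mem_Row.1 (h ▸ mem_Row.2 rfl : ((0, w) : Ix k) ∈ Row w'))
  · obtain ⟨w, -, rfl⟩ := mem_image.1 hU
    exact mem_filter.2 ⟨mem_univ _, unl_Row w, card_Row w⟩
  · obtain ⟨-, h1, h2⟩ := mem_filter.1 hU
    exact MU_zero h1 h2 (fun w hw => hr (mem_image.2 ⟨w, mem_univ _, hw⟩)) _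

end Pool.Agent.Lib.MP_696deb_nt.Mom
end
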