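import Pool.Agent.Lib.MP_696deb_nt.Symbol

set_option autoImplicit false

open Filter Topology Complex
open scoped Real

namespace Pool.Agent.Lib.MP_696deb_nt

/-- Integer matrices of size two as quadruples. -/
abbrev M4 := ℤ × ℤ × ℤ × ℤ

/-- Product of matrices. -/
def mul4 (g h : M4) : M4 :=
  (g.1 * h.1 + g.2.1 * h.2.2.1, g.1 * h.2.1 + g.2.1 * h.2.2.2,
    g.2.2.1 * h.1 + g.2.2.2 * h.2.2.1, g.2.2.1 * h.2.1 + g.2.2.2 * h.2.2.2)

/-- Adjugate of a matrix. -/
def inv4 (g : M4) : M4 := (g.2.2.2, -g.2.1, -g.2.2.1, g.1)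

/-- Membership in `Γ₀(15)`. -/
def InG (g : M4) : Prop := g.1 * g.2.2.2 - g.2.1 * g.2.2.1 = 1 ∧ 15 ∣ g.2.2.1

instance (g : M4) : Decidable (InG g) := by unfold InG; infer_instance

lemma InG.mul {g h : M4} (hg : InG g) (hh : InG h) : InG (mul4 g h) :=
  ⟨by simp only [mul4]; linear_combination (h.1 * h.2.2.2 - h.2.1 * h.2.2.1) * hg.1 + hh.1,
    (hg.2.mul_right _).add (hh.2.mul_left _)⟩

/-- Generators of `Γ₀(15)` and their inverses. -/
def gen15 : Fin 11 → M4 := ![(-1, 0, 0, -1), (1, 1, 0, 1), (1, -1, 0, 1), (7, -1, 15, -2),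
  (-2, 1, -15, 7), (17, -4, 30, -7), (-7, 4, -30, 17), (11, -3, 15, -4), (-4, 3, -15, 11),
  (19, -7, 30, -11), (-11, 7, -30, 19)]

/-- Value of a word in the generators. -/
def ev (w : List (Fin 11)) : M4 := w.foldr (fun i m => mul4 (gen15 i) m) (1, 0, 0, 1)

/-- Representatives of the cosets of `Γ₀(15)`. -/
def reps : List M4 := [(1, 0, 0, 1), (1, 0, 1, 1), (1, 0, -1, 1), (1, 1, 1, 2), (1, 0, 2, 1),
  (1, -1, 1, 0), (1, -1, -1, 2), (1, 0, -2, 1), (1, 2, 1, 3), (2, 1, 3, 2), (1, 1, 2, 3),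
  (1, 0, 3, 1), (1, -2, -1, 3), (2, -1, -3, 2), (1, -1, -2, 3), (1, 0, -3, 1), (1, 3, 1, 4),
  (2, 3, 3, 5), (3, 1, 5, 2), (1, 2, 2, 5), (2, 1, 5, 3), (1, -3, -1, 4), (3, -1, -5, 2),
  (1, -2, -2, 5)]

/-- Index of the coset with given bottom row. -/
def cls (c d : ZMod 15) : ℕ := reps.findIdx fun r => c * r.2.2.2 = d * r.2.2.1

/-- Representative of the coset with given bottom row. -/
def rep (c d : ZMod 15) : M4 := reps.getD (cls c d) (1, 0, 0, 1)

/-- Words for the Schreier generators attached to the upper unipotent matrix. -/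
def wT : List (List (Fin 11)) := [[1], [], [0, 2, 2], [], [], [], [], [0, 2], [], [], [],
  [0, 8, 1], [], [0, 2], [], [0, 2], [7, 6, 1], [9, 1], [5, 4, 1], [3, 1], [10], [], [0, 2], []]

/-- Words for the Schreier generators attached to the lower unipotent matrix. -/
def wU : List (List (Fin 11)) := [[], [], [], [], [], [2], [2], [], [7, 1], [], [], [0, 8], [2],
  [], [2], [], [7, 4, 1], [9], [5, 1], [0, 3, 6, 1], [0, 10, 1], [0, 2, 8, 1], [], [2]]

lemma rep_spec : ∀ a b c d : ZMod 15, a * d - b * c = 1 →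
    (rep c d).1 * (rep c d).2.2.2 - (rep c d).2.1 * (rep c d).2.2.1 = 1 ∧
    c * (rep c d).2.2.2 = d * (rep c d).2.2.1 ∧
    mul4 (rep c d) (mul4 (1, 1, 0, 1) (inv4 (rep c (c + d)))) = ev (wT.getD (cls c d) []) ∧
    mul4 (rep c d) (mul4 (1, 0, 1, 1) (inv4 (rep (c + d) d))) = ev (wU.getD (cls c d) []) := by
  have h1 : ∀ a b c d : ZMod 15, a * d - b * c = 1 →
      (c * 5 ≠ 0 ∨ d * 5 ≠ 0) ∧ (c * 3 ≠ 0 ∨ d * 3 ≠ 0) := fun a b c d h => by
    constructor <;> by_contra! h'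
    · exact absurd (by linear_combination -5 * h + a * h'.2 - b * h'.1 : (5 : ZMod 15) = 0)
        (by decide)
    · exact absurd (by linear_combination -3 * h + a * h'.2 - b * h'.1 : (3 : ZMod 15) = 0)
        (by decide)
  intro a b c d h
  have h2 := h1 a b c d h
  clear h h1
  revert c d
  decide +kernel

lemma rep_zero : ∀ d : ZMod 15, rep 0 d = (1, 0, 0, 1) := by decide +kernel

section

variable {A : Type*} [AddCommGroup A] {ψ : M4 → A}
  (hadd : ∀ g h, InG g → InG h → ψ (mul4 g h) = ψ g + ψ h)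

include hadd

lemma hom_one : ψ (1, 0, 0, 1) = 0 := by
  simpa [mul4] using hadd (1, 0, 0, 1) (1, 0, 0, 1) (by decide) (by decide)

lemma hom_ev (w : List (Fin 11)) : InG (ev w) ∧ ψ (ev w) = (w.map fun i => ψ (gen15 i)).sum := by
  induction w with
  | nil => exact ⟨by decide, by simpa [ev] using hom_one hadd⟩
  | cons i w ih =>
    have hi : InG (gen15 i) := by revert i; decide
    exact ⟨hi.mul ih.1, by rw [List.map_cons, List.sum_cons, ← ih.2, ← hadd _ _ hi ih.1]; rfl⟩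

lemma hom_mem (H : AddSubgroup A) (hH : ∀ i, ψ (gen15 i) ∈ H) {g : M4} (hg : InG g) : ψ g ∈ H := by
  have hw : ∀ w, ψ (ev w) ∈ H := fun w => by
    rw [(hom_ev hadd w).2]
    exact H.list_sum_mem (by simpa using fun i _ => hH i)
  have step : ∀ (g s r r' : M4) (w : List (Fin 11)),
      g.1 * g.2.2.2 - g.2.1 * g.2.2.1 = 1 → r.1 * r.2.2.2 - r.2.1 * r.2.2.1 = 1 →
      (g.2.2.1 : ZMod 15) * r.2.2.2 = g.2.2.2 * r.2.2.1 → mul4 r (mul4 s (inv4 r')) = ev w →
      (ψ (mul4 g (inv4 r)) ∈ H ↔ ψ (mul4 (mul4 g s) (inv4 r')) ∈ H) := by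
    intro g s r r' w h1 h2 h3 h4
    have h5 : InG (mul4 g (inv4 r)) := by
      refine ⟨?_, (ZMod.intCast_zmod_eq_zero_iff_dvd _ 15).mp ?_⟩ <;> simp only [mul4, inv4]
      · linear_combination (r.1 * r.2.2.2 - r.2.1 * r.2.2.1) * h1 + h2
      · push_cast
        linear_combination h3
    have h6 : mul4 (mul4 g s) (inv4 r') = mul4 (mul4 g (inv4 r)) (ev w) := by
      rw [← h4]
      simp only [mul4, inv4, Prod.mk.injEq]
      refine ⟨?_, ?_, ?_, ?_⟩
      · linear_combination -((g.1 * s.1 + g.2.1 * s.2.2.1) * r'.2.2.2 -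
          (g.1 * s.2.1 + g.2.1 * s.2.2.2) * r'.2.2.1) * h2
      · linear_combination -(-(g.1 * s.1 + g.2.1 * s.2.2.1) * r'.2.1 +
          (g.1 * s.2.1 + g.2.1 * s.2.2.2) * r'.1) * h2
      · linear_combination -((g.2.2.1 * s.1 + g.2.2.2 * s.2.2.1) * r'.2.2.2 -
          (g.2.2.1 * s.2.1 + g.2.2.2 * s.2.2.2) * r'.2.2.1) * h2
      · linear_combination -(-(g.2.2.1 * s.1 + g.2.2.2 * s.2.2.1) * r'.2.1 +
          (g.2.2.1 * s.2.1 + g.2.2.2 * s.2.2.2) * r'.1) * h2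
    rw [h6, hadd _ _ h5 (hom_ev hadd w).1, H.add_mem_cancel_right (hw w)]
  have key := euclid (N := 1) (Or.inl rfl)
    (fun a b c d => ψ (mul4 (a, b, c, d) (inv4 (rep c d))) ∈ H) (fun a b c d h => by
      have h' : a * d - b * c = 1 := by linear_combination h
      obtain ⟨h1, h2, h3, -⟩ := rep_spec a b c d
        (by exact_mod_cast congr_arg (Int.cast : ℤ → ZMod 15) h')
      simpa [mul4] using step (a, b, c, d) _ _ _ _ h' h1 h2 h3) (fun a b c d h => by
      have h' : a * d - b * c = 1 := by linear_combination h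
      obtain ⟨h1, h2, -, h3⟩ := rep_spec a b c d
        (by exact_mod_cast congr_arg (Int.cast : ℤ → ZMod 15) h')
      simpa [mul4] using step (a, b, c, d) _ _ _ _ h' h1 h2 h3)
    (by simpa [rep_zero, mul4, inv4, ev] using hw [])
    (by simpa [rep_zero, mul4, inv4, gen15] using hH 0)
  obtain ⟨a, b, c, d⟩ := g
  have := key a b c d (by simpa using hg.1)
  rw [(ZMod.intCast_zmod_eq_zero_iff_dvd c 15).mpr hg.2, rep_zero] at this
  simpa [mul4, inv4] using this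

/-- A homomorphism on `Γ₀(15)` that kills the parabolic elements is determined by two values. -/
lemma hom_exists (h0 : ψ (-1, 0, 0, -1) = 0) (h1 : ψ (1, 1, 0, 1) = 0)
    (h15 : ψ (1, 0, 15, 1) = 0) (h5 : ψ (-29, 12, -75, 31) = 0) {g : M4} (hg : InG g) :
    ∃ m n : ℤ, m • ψ (7, -1, 15, -2) + n • ψ (11, -3, 15, -4) = ψ g := by
  have e : ∀ (w : List (Fin 11)) (g : M4), ev w = g → ψ g = (w.map fun i => ψ (gen15 i)).sum :=
    fun w g h => h ▸ (hom_ev hadd w).2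
  have e1 := e [1, 2] (1, 0, 0, 1) (by decide)
  have e3 := e [3, 4] (1, 0, 0, 1) (by decide)
  have e5 := e [5, 6] (1, 0, 0, 1) (by decide)
  have e7 := e [7, 8] (1, 0, 0, 1) (by decide)
  have e9 := e [9, 10] (1, 0, 0, 1) (by decide)
  have r1 := e [4, 5, 8, 1] (1, 0, 15, 1) (by decide)
  have r2 := e [0, 10, 5, 4] (-29, 12, -75, 31) (by decide)
  rw [hom_one hadd] at e1 e3 e5 e7 e9
  rw [h15] at r1
  rw [h5] at r2
  change ψ (gen15 0) = 0 at h0
  change ψ (gen15 1) = 0 at h1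
  simp only [List.map_cons, List.map_nil, List.sum_cons, List.sum_nil] at e1 e3 e5 e7 e9 r1 r2
  rw [← AddSubgroup.mem_closure_pair]
  refine hom_mem hadd _ (fun i => ?_) hg
  rw [AddSubgroup.mem_closure_pair]
  have c0 : ∃ m n : ℤ, m • ψ (gen15 3) + n • ψ (gen15 7) = ψ (gen15 0) :=
    ⟨0, 0, by linear_combination (norm := module) -h0⟩
  have c1 : ∃ m n : ℤ, m • ψ (gen15 3) + n • ψ (gen15 7) = ψ (gen15 1) :=
    ⟨0, 0, by linear_combination (norm := module) -h1⟩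
  have c2 : ∃ m n : ℤ, m • ψ (gen15 3) + n • ψ (gen15 7) = ψ (gen15 2) :=
    ⟨0, 0, by linear_combination (norm := module) e1 + h1⟩
  have c3 : ∃ m n : ℤ, m • ψ (gen15 3) + n • ψ (gen15 7) = ψ (gen15 3) :=
    ⟨1, 0, by module⟩
  have c4 : ∃ m n : ℤ, m • ψ (gen15 3) + n • ψ (gen15 7) = ψ (gen15 4) :=
    ⟨-1, 0, by linear_combination (norm := module) e3⟩
  have c5 : ∃ m n : ℤ, m • ψ (gen15 3) + n • ψ (gen15 7) = ψ (gen15 5) :=
    ⟨1, 1, by linear_combination (norm := module) r1 + h1 - e3 - e7⟩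
  have c6 : ∃ m n : ℤ, m • ψ (gen15 3) + n • ψ (gen15 7) = ψ (gen15 6) :=
    ⟨-1, -1, by linear_combination (norm := module) e5 - r1 - h1 + e3 + e7⟩
  have c7 : ∃ m n : ℤ, m • ψ (gen15 3) + n • ψ (gen15 7) = ψ (gen15 7) :=
    ⟨0, 1, by module⟩
  have c8 : ∃ m n : ℤ, m • ψ (gen15 3) + n • ψ (gen15 7) = ψ (gen15 8) :=
    ⟨0, -1, by linear_combination (norm := module) e7⟩
  have c9 : ∃ m n : ℤ, m • ψ (gen15 3) + n • ψ (gen15 7) = ψ (gen15 9) :=
    ⟨0, 1, by linear_combination (norm := module) e9 - r2 - h0 + r1 + h1 - e7⟩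
  have c10 : ∃ m n : ℤ, m • ψ (gen15 3) + n • ψ (gen15 7) = ψ (gen15 10) :=
    ⟨0, -1, by linear_combination (norm := module) r2 + h0 - r1 - h1 + e7⟩
  fin_cases i
  exacts [c0, c1, c2, c3, c4, c5, c6, c7, c8, c9, c10]

end

lemma ms_mul4 (g h : M4) (hg : InG g) (hh : InG h) :
    ms (mul4 g h).1 (mul4 g h).2.2.1 = ms g.1 g.2.2.1 + ms h.1 h.2.2.1 := by
  obtain ⟨a, b, c, d⟩ := g
  obtain ⟨h1, c, rfl⟩ := hg
  rw [add_comm]
  refine ms_Gamma0 h1 ?_
  by_contra! h'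
  simpa [h'.1, h'.2] using hh.1

lemma ms_parab0 : ms 1 15 = 0 := by
  simpa using ms_Gamma0 (a := 1) (b := 0) (c := 1) (d := 1) (x := 0) (y := 1) (by norm_num)
    (by norm_num)

lemma ms_parab5 : ms (-29) (-75) = 0 := by
  simpa using ms_Gamma0 (a := -29) (b := 12) (c := -5) (d := 31) (x := 2) (y := 5) (by norm_num)
    (by norm_num)

/-- The real period. -/
noncomputable def wp : ℝ := (ms 7 15).re

/-- The imaginary period. -/
noncomputable def wm : ℝ := (ms 11 15).im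

lemma ms_seven : ms 7 15 = -4 * ms 0 1 := by
  have h1 := ms_Gamma0 (a := 7) (b := -1) (c := 1) (d := -2) (x := 0) (y := 1) (by norm_num)
    (by norm_num)
  have h2 := ms_hecke_two 0 1
  have h3 := ms_scale (g := 2) (by norm_num) 0 1
  have h4 := ms_neg_neg 1 2
  norm_num at h1 h2 h3
  linear_combination -h1 + h2 - h3 + h4

lemma ms_zero_one : ms 0 1 = ((ms 0 1).re : ℝ) :=
  (conj_eq_iff_re.mp (by simpa using (ms_conj 0 1).symm)).symm

lemma wp_eq : wp = -4 * (ms 0 1).re := by simp [wp, ms_seven]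

lemma wp_neg : wp < 0 := by rw [wp_eq]; linarith [ms_zero_one_pos]

lemma ms_gp : ms 7 15 = wp := by rw [wp_eq, ms_seven, ms_zero_one]; simp

lemma ms_gm : ms 11 15 = wm * I := by
  have h1 := ms_Gamma0 (a := 11) (b := -3) (c := 1) (d := -4) (x := 4) (y := 15) (by norm_num)
    (by norm_num)
  have h2 := ms_add_mul (-11) 15 1
  have h3 := ms_conj 11 15
  norm_num [ms_zero] at h1 h2
  have h4 : (starRingEnd ℂ) (ms 11 15) = -ms 11 15 := by linear_combination -h3 - h2 - h1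
  have h5 := congr_arg re h4
  simp only [conj_re, neg_re] at h5
  apply Complex.ext <;> simp [wm]
  linarith

lemma ms_lattice {g : M4} (hg : InG g) : ∃ m n : ℤ, ms g.1 g.2.2.1 = m * wp + n * wm * I := by
  obtain ⟨m, n, h⟩ := hom_exists (ψ := fun g => ms g.1 g.2.2.1) ms_mul4 (ms_zero _) (ms_zero _)
    ms_parab0 ms_parab5 hg
  exact ⟨m, n, by simpa [ms_gp, ms_gm, mul_assoc] using h.symm⟩

lemma Fi_mob {a b c d : ℤ} (h : 0 < a * d - b * c) (ε : ℂ)
    (H : ∀ z : ℂ, 0 < z.im → sl a b c d f15 z = ε * f15 z) {z : ℂ} (hz : 0 < z.im) :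
    Fi (mob a b c d z) = ε * Fi z + ms a c := by
  obtain ⟨L, hL⟩ := const_of_deriv (G := fun z => Fi (mob a b c d z) - ε * Fi z) fun z hz => by
    convert! (hasDerivAt_Fi_mob h hz).sub ((hasDerivAt_Fi hz).const_mul ε) using 1
    rw [H z hz]
    ring
  have h1 := (tendsto_Fi_mob h).sub (tendsto_Fi.const_mul ε)
  rw [mul_zero, sub_zero] at h1
  rw [← tendsto_nhds_unique
    (tendsto_const_nhds.congr' (ev_pos.mono fun z hz => (hL z hz).symm)) h1, ← hL z hz]
  ring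

lemma wm_ne : wm ≠ 0 := by
  intro h0
  have hp : (wp : ℂ) ≠ 0 := by exact_mod_cast wp_neg.ne
  have hd : ∀ z : ℂ, 0 < z.im → HasDerivAt (fun z => q1 (Fi z / wp))
      (2 * π * I * q1 (Fi z / wp) * (2 * π * I * f15 z / wp)) z := fun z hz =>
    (hasDerivAt_q1 _).comp z ((hasDerivAt_Fi hz).div_const _)
  obtain ⟨c, hc⟩ := const_of_inv 15 (h := fun z => q1 (Fi z / wp))
    (fun z hz => (hd z hz).differentiableAt) (fun a b c d h z hz => by
      rw [Nat.cast_ofNat] at h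
      obtain ⟨m, n, hmn⟩ := ms_lattice (g := (a, b, 15 * c, d)) ⟨h, dvd_mul_right _ _⟩
      have h1 := Fi_mob (a := a) (b := b) (c := 15 * c) (d := d) (by omega) 1
        (fun z hz => by simpa using f15_inv a b c d h z hz) hz
      simp only [h0, ofReal_zero, mul_zero, zero_mul, add_zero] at hmn
      rw [Nat.cast_ofNat, h1, hmn, one_mul, add_div, mul_div_cancel_right₀ _ hp, q1_add, q1_int,
        mul_one]) fun a b c d h => Bdd.of_tendsto
      ((hasDerivAt_q1 _).continuousAt.tendsto.comp ((tendsto_Fi_mob (by omega)).div_const _))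
  have h1 : (fun _ => c) =ᶠ[𝓝 I] fun z => q1 (Fi z / wp) := by
    filter_upwards [(isOpen_lt continuous_const Complex.continuous_im).mem_nhds
      (by simp : (0 : ℝ) < I.im)] with w hw
    exact (hc w hw).symm
  have h2 := ((hd I (by simp)).congr_of_eventuallyEq h1).unique (hasDerivAt_const I c)
  exact mul_ne_zero (mul_ne_zero two_pi_I_ne_zero (q1_ne _))
    (div_ne_zero (mul_ne_zero two_pi_I_ne_zero (f15_ne (by simp))) hp) h2

/-- The even integral period homomorphism. -/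
noncomputable def mp (a c : ℤ) : ℤ := ⌊(ms a c).re / wp⌋

/-- The odd integral period homomorphism. -/
noncomputable def mm (a c : ℤ) : ℤ := ⌊(ms a c).im / wm⌋

lemma mp_mm_eq {a c m n : ℤ} (h : ms a c = m * wp + n * wm * I) : mp a c = m ∧ mm a c = n := by
  simp [mp, mm, h, wp_neg.ne, wm_ne]

theorem ms_eq {g : M4} (hg : InG g) :
    ms g.1 g.2.2.1 = mp g.1 g.2.2.1 * wp + mm g.1 g.2.2.1 * wm * I := by
  obtain ⟨m, n, h⟩ := ms_lattice hg
  rw [(mp_mm_eq h).1, (mp_mm_eq h).2, h]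

theorem mp_mm_neg {g : M4} (hg : InG g) :
    mp (-g.1) g.2.2.1 = mp g.1 g.2.2.1 ∧ mm (-g.1) g.2.2.1 = -mm g.1 g.2.2.1 :=
  mp_mm_eq (by rw [ms_conj, ms_eq hg]; simp)

/-- Every homomorphism on `Γ₀(15)` that kills the parabolic elements factors through the
periods of the newform. -/
theorem hom15 {A : Type*} [AddCommGroup A] {ψ : M4 → A}
    (hadd : ∀ g h, InG g → InG h → ψ (mul4 g h) = ψ g + ψ h)
    (h0 : ψ (-1, 0, 0, -1) = 0) (h1 : ψ (1, 1, 0, 1) = 0)
    (h15 : ψ (1, 0, 15, 1) = 0) (h5 : ψ (-29, 12, -75, 31) = 0) {g : M4} (hg : InG g) :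
    ψ g = mp g.1 g.2.2.1 • ψ (7, -1, 15, -2) + mm g.1 g.2.2.1 • ψ (11, -3, 15, -4) := by
  obtain ⟨m, n, h⟩ := hom_exists (ψ := fun g => (ψ g, ms g.1 g.2.2.1))
    (fun g h hg hh => Prod.ext (hadd g h hg hh) (ms_mul4 g h hg hh))
    (Prod.ext h0 (ms_zero (-1))) (Prod.ext h1 (ms_zero 1)) (Prod.ext h15 ms_parab0)
    (Prod.ext h5 ms_parab5) hg
  have h2 := mp_mm_eq (a := g.1) (c := g.2.2.1) (m := m) (n := n)
    (by simpa [ms_gp, ms_gm, mul_assoc] using (congr_arg Prod.snd h).symm)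
  rw [h2.1, h2.2]
  exact (congr_arg Prod.fst h).symm

end Pool.Agent.Lib.MP_696deb_nt
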