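import Pool.Agent.Lib.MP_696deb_nt.QS
import Pool.Agent.Lib.MP_696deb_nt.Eta

set_option autoImplicit false

open PowerSeries Filter Topology Complex ModularForm Asymptotics
open scoped Real MatrixGroups

namespace Pool.Agent.Lib.MP_696deb_nt

/-- The parameter `exp (2 π i z)`. -/
noncomputable def q1 (z : ℂ) : ℂ := cexp (2 * π * I * z)

/-- The filter of points with large imaginary part. -/
abbrev atI : Filter ℂ := comap Complex.im atTop

/-- Holomorphic on the upper half plane. -/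
def Hol (F : ℂ → ℂ) : Prop := ∀ z : ℂ, 0 < z.im → DifferentiableAt ℂ F z

/-- Bounded for large imaginary part. -/
def Bdd (F : ℂ → ℂ) : Prop := F =O[atI] fun _ => (1 : ℝ)

lemma q1_eq (z : ℂ) : q1 z = Function.Periodic.qParam 1 z := by
  simp [q1, Function.Periodic.qParam]

lemma q1_ne (z : ℂ) : q1 z ≠ 0 := exp_ne_zero _

lemma norm_q1 (z : ℂ) : ‖q1 z‖ = Real.exp (-2 * π * z.im) := by
  simp [q1, Complex.norm_exp]

lemma norm_q1_lt {z : ℂ} (hz : 0 < z.im) : ‖q1 z‖ < 1 := by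
  rw [norm_q1, Real.exp_lt_one_iff]
  nlinarith [Real.pi_pos]

lemma q1_add (z w : ℂ) : q1 (z + w) = q1 z * q1 w := by
  simp [q1, mul_add, Complex.exp_add]

lemma q1_int (k : ℤ) : q1 k = 1 := by
  rw [q1, mul_comm, exp_int_mul_two_pi_mul_I]

lemma q1_nat_mul (d : ℕ) (z : ℂ) : q1 (d * z) = q1 z ^ d := by
  rw [q1, q1, ← Complex.exp_nat_mul]; congr 1; ring

lemma exists_q1 {q : ℂ} (hq : ‖q‖ < 1) (h0 : q ≠ 0) : ∃ z : ℂ, 0 < z.im ∧ q1 z = q :=
  ⟨Function.Periodic.invQParam 1 q,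
    Function.Periodic.im_invQParam_pos_of_norm_lt_one one_pos hq h0,
    by rw [q1_eq, Function.Periodic.qParam_right_inv one_ne_zero h0]⟩

lemma hasDerivAt_q1 (z : ℂ) : HasDerivAt q1 (2 * π * I * q1 z) z := by
  have := ((hasDerivAt_id z).const_mul (2 * π * I)).cexp
  convert! this using 1
  simp [q1, mul_comm]

lemma ev_pos : ∀ᶠ z in atI, 0 < z.im := tendsto_comap.eventually (eventually_gt_atTop 0)

lemma tendsto_q1 : Tendsto q1 atI (𝓝 0) := by
  have := (Function.Periodic.qParam_tendsto one_pos).mono_right nhdsWithin_le_nhds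
  exact this.congr fun z => (q1_eq z).symm

lemma Bdd.of_tendsto {F : ℂ → ℂ} {c : ℂ} (h : Tendsto F atI (𝓝 c)) : Bdd F := h.isBigO_one ℝ

lemma Bdd.congr {F G : ℂ → ℂ} (h : Bdd F) (hG : ∀ z : ℂ, 0 < z.im → G z = F z) : Bdd G :=
  IsBigO.congr' h (ev_pos.mono fun z hz => (hG z hz).symm) EventuallyEq.rfl

lemma Bdd.add {F G : ℂ → ℂ} (h : Bdd F) (hG : Bdd G) : Bdd fun z => F z + G z :=
  IsBigO.add h hG

lemma Bdd.sub {F G : ℂ → ℂ} (h : Bdd F) (hG : Bdd G) : Bdd fun z => F z - G z :=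
  IsBigO.sub h hG

lemma Bdd.mul {F G : ℂ → ℂ} (h : Bdd F) (hG : Bdd G) : Bdd fun z => F z * G z := by
  simpa [Bdd] using IsBigO.mul h hG

lemma Bdd.const (c : ℂ) : Bdd fun _ => c := Bdd.of_tendsto tendsto_const_nhds

lemma tendsto_affine {r : ℝ} (hr : 0 < r) (k : ℂ) : Tendsto (fun z : ℂ => r * z + k) atI atI := by
  rw [tendsto_comap_iff]
  have : (Complex.im ∘ fun z : ℂ => r * z + k) = fun z : ℂ => r * z.im + k.im := by
    ext z; simp
  rw [this]
  exact tendsto_atTop_add_const_right _ _ (tendsto_comap.const_mul_atTop hr)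

lemma Bdd.comp_affine {F : ℂ → ℂ} (h : Bdd F) {r : ℝ} (hr : 0 < r) (k : ℂ) :
    Bdd fun z => F (r * z + k) := IsBigO.comp_tendsto h (tendsto_affine hr k)

lemma Hol.mdiff {F : ℂ → ℂ} (h : Hol F) :
    MDifferentiable (modelWithCornersSelf ℂ ℂ) (modelWithCornersSelf ℂ ℂ)
      (fun τ : UpperHalfPlane => F τ) := by
  rw [UpperHalfPlane.mdifferentiable_iff]
  refine DifferentiableOn.congr (fun z hz => (h z hz).differentiableWithinAt) fun z hz => ?_
  simp [UpperHalfPlane.ofComplex_apply_of_im_pos hz]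

lemma Bdd.atImInfty {F : ℂ → ℂ} (h : Bdd F) :
    UpperHalfPlane.IsBoundedAtImInfty (fun τ : UpperHalfPlane => F τ) :=
  IsBigO.comp_tendsto h UpperHalfPlane.tendsto_coe_atImInfty

lemma hol_mob {a b c d : ℤ} (h : a * d - b * c ≠ 0) : Hol (mob a b c d) := fun z hz => by
  have := den_ne h hz
  unfold mob
  fun_prop (disch := assumption)

lemma hasDerivAt_mob {a b c d : ℤ} (h : a * d - b * c ≠ 0) {z : ℂ} (hz : 0 < z.im) :
    HasDerivAt (mob a b c d) (((a * d - b * c : ℤ) : ℂ) / (c * z + d) ^ 2) z := by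
  have h0 := den_ne h hz
  have h1 := (((hasDerivAt_id z).const_mul (a : ℂ)).add_const (b : ℂ)).div
    (((hasDerivAt_id z).const_mul (c : ℂ)).add_const (d : ℂ)) h0
  convert! h1 using 1
  simp only [id]
  congr 1
  push_cast
  ring

lemma Hol.comp_mob {F : ℂ → ℂ} (hF : Hol F) {a b c d : ℤ} (h : 0 < a * d - b * c) :
    Hol fun z => F (mob a b c d z) := fun z hz =>
  (hF _ (im_mob_pos h hz)).comp z (hol_mob h.ne' z hz)

lemma coe_smul_eq_mob (γ : SL(2, ℤ)) (τ : UpperHalfPlane) :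
    ((γ • τ : UpperHalfPlane) : ℂ) = mob (γ 0 0) (γ 0 1) (γ 1 0) (γ 1 1) τ := by
  rw [UpperHalfPlane.coe_specialLinearGroup_apply]
  simp [mob]

lemma det_SL (γ : SL(2, ℤ)) : γ 0 0 * γ 1 1 - γ 0 1 * γ 1 0 = 1 := by
  have := γ.det_coe
  rwa [Matrix.det_fin_two] at this

/-- A holomorphic function invariant under `Γ₀(N)` and bounded at all cusps is constant. -/
theorem const_of_inv (N : ℕ) [NeZero N] {h : ℂ → ℂ} (hh : Hol h)
    (hinv : ∀ a b c d : ℤ, a * d - b * (N * c) = 1 → ∀ z : ℂ, 0 < z.im →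
      h (mob a b (N * c) d z) = h z)
    (hb : ∀ a b c d : ℤ, a * d - b * c = 1 → Bdd fun z => h (mob a b c d z)) :
    ∃ c, ∀ z : ℂ, 0 < z.im → h z = c := by
  let f : ModularForm (CongruenceSubgroup.Gamma0 N : Subgroup (GL (Fin 2) ℝ)) 0 :=
    { toFun := fun τ => h τ
      slash_action_eq' := by
        rintro _ ⟨γ, hγ, rfl⟩
        ext τ
        obtain ⟨c, hc⟩ := (ZMod.intCast_zmod_eq_zero_iff_dvd _ _).mp
          (CongruenceSubgroup.Gamma0_mem.mp hγ)
        have h1 := det_SL γ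
        have h2 := ModularForm.SL_slash_apply (f := fun τ : UpperHalfPlane => h τ) (k := 0) γ τ
        rw [coe_smul_eq_mob, hc, hinv _ _ _ _ (by rw [← hc]; exact h1) _ τ.im_pos] at h2
        exact h2.trans (by simp)
      holo' := hh.mdiff
      bdd_at_cusps' := by
        intro c hc
        rw [Subgroup.IsArithmetic.isCusp_iff_isCusp_SL2Z] at hc
        rw [OnePoint.isBoundedAt_iff_forall_SL2Z hc]
        intro γ _
        have := (hb _ _ _ _ (det_SL γ)).atImInfty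
        convert this using 1
        ext τ
        rw [ModularForm.SL_slash_apply, coe_smul_eq_mob]
        simp }
  obtain ⟨c, hc⟩ := ModularForm.eq_const_of_weight_zero f
  exact ⟨c, fun z hz => congr_fun hc ⟨z, hz⟩⟩

/-- `F` has the expansion `A` in powers of `exp (2 π i z)` on the upper half plane. -/
def QE (F : ℂ → ℂ) (A : ℂ⟦X⟧) : Prop :=
  ∃ G, QS G A ∧ ∀ z : ℂ, 0 < z.im → F z = G (q1 z)

namespace QE

variable {F F' : ℂ → ℂ} {A A' : ℂ⟦X⟧}

lemma of_QS {G : ℂ → ℂ} (h : QS G A) : QE (fun z => G (q1 z)) A := ⟨G, h, fun _ _ => rfl⟩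

lemma hasSum (h : QE F A) {z : ℂ} (hz : 0 < z.im) :
    HasSum (fun n => coeff n A * q1 z ^ n) (F z) := by
  obtain ⟨G, h1, h2⟩ := h
  rw [h2 z hz]; exact h1 _ (norm_q1_lt hz)

lemma of_hasSum (h : ∀ z : ℂ, 0 < z.im → HasSum (fun n => coeff n A * q1 z ^ n) (F z)) :
    QE F A := by
  refine ⟨fun q => ∑' n, coeff n A * q ^ n, fun q hq => ?_, fun z hz => (h z hz).tsum_eq.symm⟩
  rcases eq_or_ne q 0 with rfl | h0
  · exact (hasSum_single (f := fun n => coeff n A * (0 : ℂ) ^ n) 0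
      (fun n hn => by simp [hn])).summable.hasSum
  · obtain ⟨z, hz, rfl⟩ := exists_q1 hq h0
    exact (h z hz).summable.hasSum

lemma congr (h : QE F A) (hF : ∀ z : ℂ, 0 < z.im → F' z = F z) : QE F' A := by
  obtain ⟨G, h1, h2⟩ := h
  exact ⟨G, h1, fun z hz => (hF z hz).trans (h2 z hz)⟩

lemma add (h : QE F A) (h' : QE F' A') : QE (fun z => F z + F' z) (A + A') := by
  obtain ⟨G, h1, h2⟩ := h
  obtain ⟨G', h1', h2'⟩ := h'
  exact ⟨_, h1.add h1', fun z hz => by simp only [h2 z hz, h2' z hz]⟩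

lemma sub (h : QE F A) (h' : QE F' A') : QE (fun z => F z - F' z) (A - A') := by
  obtain ⟨G, h1, h2⟩ := h
  obtain ⟨G', h1', h2'⟩ := h'
  exact ⟨_, h1.sub h1', fun z hz => by simp only [h2 z hz, h2' z hz]⟩

lemma mul (h : QE F A) (h' : QE F' A') : QE (fun z => F z * F' z) (A * A') := by
  obtain ⟨G, h1, h2⟩ := h
  obtain ⟨G', h1', h2'⟩ := h'
  exact ⟨_, h1.mul h1', fun z hz => by simp only [h2 z hz, h2' z hz]⟩

lemma neg (h : QE F A) : QE (fun z => -F z) (-A) := by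
  obtain ⟨G, h1, h2⟩ := h
  exact ⟨_, h1.neg, fun z hz => by simp only [h2 z hz]⟩

lemma pow (h : QE F A) (k : ℕ) : QE (fun z => F z ^ k) (A ^ k) := by
  obtain ⟨G, h1, h2⟩ := h
  exact ⟨_, h1.pow k, fun z hz => by simp only [h2 z hz]⟩

lemma const (c : ℂ) : QE (fun _ => c) (C c) := of_QS (QS.const c)

lemma ofNat (n : ℕ) [n.AtLeastTwo] : QE (fun _ => (OfNat.ofNat n : ℂ)) (OfNat.ofNat n : ℂ⟦X⟧) :=
  of_QS (QS.ofNat n)

lemma q : QE q1 X := of_QS QS.id

lemma smul (h : QE F A) (c : ℂ) : QE (fun z => c * F z) (C c * A) := (const c).mul h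

lemma unique (h : QE F A) (h' : QE F' A') (hF : ∀ z : ℂ, 0 < z.im → F z = F' z) : A = A' := by
  obtain ⟨G, h1, h2⟩ := h
  obtain ⟨G', h1', h2'⟩ := h'
  refine h1.unique h1' fun q hq h0 => ?_
  obtain ⟨z, hz, rfl⟩ := exists_q1 hq h0
  rw [← h2 z hz, ← h2' z hz, hF z hz]

lemma eq_of_eq (h : QE F A) (h' : QE F' A) {z : ℂ} (hz : 0 < z.im) : F z = F' z :=
  (h.hasSum hz).unique (h'.hasSum hz)

lemma tendsto (h : QE F A) : Tendsto F atI (𝓝 (coeff 0 A)) := by
  obtain ⟨G, h1, h2⟩ := h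
  exact (h1.tendsto_zero.comp tendsto_q1).congr' (ev_pos.mono fun z hz => (h2 z hz).symm)

lemma bdd (h : QE F A) : Bdd F := Bdd.of_tendsto h.tendsto

lemma hasDerivAt (h : QE F A) : ∃ F₁, QE F₁ (X * d⁄dX ℂ A) ∧
    ∀ z : ℂ, 0 < z.im → HasDerivAt F (2 * π * I * F₁ z) z := by
  obtain ⟨G, h1, h2⟩ := h
  refine ⟨_, of_QS (QS.id.mul h1.deriv), fun z hz => ?_⟩
  have h3 := ((h1.differentiableAt (norm_q1_lt hz)).hasDerivAt.comp z (hasDerivAt_q1 z))
  have h4 : F =ᶠ[𝓝 z] G ∘ q1 := by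
    filter_upwards [(isOpen_lt continuous_const Complex.continuous_im).mem_nhds hz] with w hw
    exact h2 w hw
  convert! h3.congr_of_eventuallyEq h4 using 1
  ring

lemma hol (h : QE F A) : Hol F := fun z hz => by
  obtain ⟨_, _, h2⟩ := h.hasDerivAt
  exact (h2 z hz).differentiableAt

lemma expand (h : QE F A) (d : ℕ) (hd : d ≠ 0) :
    QE (fun z => F (d * z)) (PowerSeries.expand d hd A) := by
  obtain ⟨G, h1, h2⟩ := h
  refine ⟨_, h1.expand d hd, fun z hz => ?_⟩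
  beta_reduce
  rw [h2 _ (by simpa using mul_pos (Nat.cast_pos.mpr (Nat.pos_of_ne_zero hd)) hz), q1_nat_mul]

lemma of_X_pow_mul {m : ℕ} {B : ℂ⟦X⟧} (h : QE F (X ^ m * B)) :
    QE (fun z => F z / q1 z ^ m) B := by
  obtain ⟨G, h1, h2⟩ := h
  obtain ⟨H, h3, h4⟩ := h1.of_X_pow_mul
  refine ⟨H, h3, fun z hz => ?_⟩
  have := q1_ne z
  beta_reduce
  rw [h2 z hz, h4 _ (norm_q1_lt hz)]
  field_simp

lemma bdd_div {m : ℕ} {B B' : ℂ⟦X⟧} (h : QE F (X ^ m * B)) (h' : QE F' (X ^ m * B'))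
    (h0 : coeff 0 B' ≠ 0) : Bdd fun z => F z / F' z := by
  refine (Bdd.of_tendsto (h.of_X_pow_mul.tendsto.div h'.of_X_pow_mul.tendsto h0)).congr ?_
  intro z _
  have := q1_ne z
  simp only [Pi.div_apply]
  rw [div_div_div_cancel_right₀ (pow_ne_zero _ this)]

lemma periodic (h : QE F A) (k : ℤ) {z : ℂ} (hz : 0 < z.im) : F (z + k) = F z := by
  obtain ⟨G, _, h2⟩ := h
  rw [h2 z hz, h2 _ (by simpa using hz), q1_add, q1_int, mul_one]

lemma exists_of_periodic (hF : Hol F) (hp : ∀ z : ℂ, 0 < z.im → F (z + 1) = F z) (hb : Bdd F) :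
    ∃ A, QE F A := by
  have hper : Function.Periodic ((fun τ : UpperHalfPlane => F τ) ∘ UpperHalfPlane.ofComplex)
      ((1 : ℝ) : ℂ) := by
    intro w
    by_cases hw : 0 < w.im
    · have : 0 < (w + (1 : ℝ)).im := by simpa using hw
      simp only [Function.comp, UpperHalfPlane.ofComplex_apply_of_im_pos this,
        UpperHalfPlane.ofComplex_apply_of_im_pos hw]
      simpa using hp w hw
    · have : (w + (1 : ℝ)).im ≤ 0 := by simpa using hw
      simp only [Function.comp]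
      rw [UpperHalfPlane.ofComplex_apply_eq_of_im_nonpos this (not_lt.mp hw)]
  refine ⟨UpperHalfPlane.qExpansion 1 fun τ : UpperHalfPlane => F τ, of_hasSum fun z hz => ?_⟩
  simpa [q1_eq] using UpperHalfPlane.hasSum_qExpansion one_pos hper hF.mdiff hb.atImInfty ⟨z, hz⟩

end QE

lemma eta_eq (z : ℂ) : η z = cexp (2 * π * I * z / 24) * eul (q1 z) := by
  simp only [ModularForm.eta, eta_q_eq_pow, eul, q1, Function.Periodic.qParam]
  norm_num

lemma eta_ne {z : ℂ} (hz : 0 < z.im) : η z ≠ 0 := ModularForm.eta_ne_zero hz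

lemma hol_eta : Hol η := fun _ hz => differentiableAt_eta_of_mem_upperHalfPlaneSet hz

lemma eul_ne {z : ℂ} (hz : 0 < z.im) : eul (q1 z) ≠ 0 := fun h => by
  have := eta_ne hz
  rw [eta_eq, h, mul_zero] at this
  exact this rfl

lemma qe_eul : QE (fun z => eul (q1 z)) (pentagonalSeries ℂ) := QE.of_QS qs_eul

/-- The invariant quantity `|η| ^ 4 * y` is bounded. -/
lemma eta_bound : ∃ C : ℝ, ∀ z : ℂ, 0 < z.im → ‖η z‖ ^ 4 * z.im ≤ C := by
  obtain ⟨C, hC⟩ := CuspFormClass.exists_bound CuspForm.discriminant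
  refine ⟨max 1 C, fun z hz => ?_⟩
  have h1 := hC ⟨z, hz⟩
  have h2 : (‖η z‖ ^ 4 * z.im) ^ 6 ≤ C := by
    have h3 : ((12 : ℤ) : ℝ) / 2 = (6 : ℕ) := by norm_num
    rw [h3, Real.rpow_natCast, le_div_iff₀ (pow_pos (UpperHalfPlane.im_pos _) _)] at h1
    simpa [mul_pow, ← pow_mul, ModularForm.discriminant] using h1
  by_contra hlt
  push Not at hlt
  have h4 : 1 < ‖η z‖ ^ 4 * z.im := (le_max_left _ _).trans_lt hlt
  have h5 := (le_max_right _ _).trans_lt hlt
  have h6 := le_self_pow₀ h4.le (n := 6) (by norm_num)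
  linarith

end Pool.Agent.Lib.MP_696deb_nt
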