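import Mathlib

set_option autoImplicit false

open PowerSeries Filter Topology

namespace Pool.Agent.Lib.MP_696deb_nt

/-- `G` is the sum of the power series `A` on the open unit disc. -/
def QS (G : ℂ → ℂ) (A : ℂ⟦X⟧) : Prop :=
  ∀ q : ℂ, ‖q‖ < 1 → HasSum (fun n => coeff n A * q ^ n) (G q)

namespace QS

variable {G G' : ℂ → ℂ} {A A' : ℂ⟦X⟧}

lemma congr (h : QS G A) (hG : ∀ q : ℂ, ‖q‖ < 1 → G' q = G q) : QS G' A := fun q hq => by
  rw [hG q hq]; exact h q hq

lemma summable_norm (h : QS G A) {q : ℂ} (hq : ‖q‖ < 1) :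
    Summable fun n => ‖coeff n A * q ^ n‖ := by
  let : FiniteDimensional ℝ ℂ := Complex.basisOneI.finiteDimensional_of_finite
  exact (h q hq).summable.norm

lemma add (h : QS G A) (h' : QS G' A') : QS (fun q => G q + G' q) (A + A') := fun q hq => by
  simpa [add_mul] using (h q hq).add (h' q hq)

lemma sub (h : QS G A) (h' : QS G' A') : QS (fun q => G q - G' q) (A - A') := fun q hq => by
  simpa [sub_mul] using (h q hq).sub (h' q hq)

lemma neg (h : QS G A) : QS (fun q => -G q) (-A) := fun q hq => by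
  simpa using (h q hq).neg

lemma const (c : ℂ) : QS (fun _ => c) (C c) := fun q _ => by
  have := hasSum_single (f := fun n => coeff n (C c : ℂ⟦X⟧) * q ^ n) 0
    (fun n hn => by simp [coeff_C, hn])
  simpa using this

lemma one : QS (fun _ => 1) 1 := by simpa using const 1

lemma natCast (n : ℕ) : QS (fun _ => (n : ℂ)) (n : ℂ⟦X⟧) := by simpa using const (n : ℂ)

lemma ofNat (n : ℕ) [n.AtLeastTwo] : QS (fun _ => (OfNat.ofNat n : ℂ)) (OfNat.ofNat n : ℂ⟦X⟧) :=
  natCast n

lemma id : QS (fun q => q) X := fun q _ => by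
  have := hasSum_single (f := fun n => coeff n (X : ℂ⟦X⟧) * q ^ n) 1
    (fun n hn => by simp [coeff_X, hn])
  simpa using this

lemma mul (h : QS G A) (h' : QS G' A') : QS (fun q => G q * G' q) (A * A') := fun q hq => by
  have h1 := h.summable_norm hq
  have h2 := h'.summable_norm hq
  have h3 := (summable_norm_sum_mul_antidiagonal_of_summable_norm h1 h2).of_norm.hasSum
  rw [← tsum_mul_tsum_eq_tsum_sum_antidiagonal_of_summable_norm h1 h2, (h q hq).tsum_eq,
    (h' q hq).tsum_eq] at h3
  convert! h3 using 2 with n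
  rw [coeff_mul, Finset.sum_mul]
  refine Finset.sum_congr rfl fun x hx => ?_
  rw [← Finset.HasAntidiagonal.mem_antidiagonal.mp hx, pow_add]
  ring

lemma pow (h : QS G A) (k : ℕ) : QS (fun q => G q ^ k) (A ^ k) := by
  induction k with
  | zero => simpa using one
  | succ k ih => simpa [pow_succ] using ih.mul h

lemma smul (h : QS G A) (c : ℂ) : QS (fun q => c * G q) (C c * A) := (const c).mul h

lemma hasFPowerSeriesOnBall (h : QS G A) :
    HasFPowerSeriesOnBall G (.ofScalars ℂ fun n => coeff n A) 0 1 := by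
  constructor
  · refine le_of_forall_lt_imp_le_of_dense fun r hr => ?_
    lift r to NNReal using hr.ne_top
    apply FormalMultilinearSeries.le_radius_of_summable
    simpa [smul_eq_mul, norm_mul, mul_comm, mul_left_comm, mul_assoc] using
      h.summable_norm (q := r) (by simpa using hr)
  · simp
  · intro y hy
    rw [← ENNReal.coe_one, Metric.eball_coe, NNReal.coe_one, mem_ball_zero_iff] at hy
    simpa [mul_comm] using h y hy

lemma differentiableOn (h : QS G A) : DifferentiableOn ℂ G (Metric.ball 0 1) := by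
  have := h.hasFPowerSeriesOnBall.differentiableOn
  rwa [← ENNReal.coe_one, Metric.eball_coe, NNReal.coe_one] at this

lemma differentiableAt (h : QS G A) {q : ℂ} (hq : ‖q‖ < 1) : DifferentiableAt ℂ G q :=
  h.differentiableOn.differentiableAt (Metric.isOpen_ball.mem_nhds (by simpa using hq))

lemma apply_zero (h : QS G A) : G 0 = coeff 0 A := by
  have h1 := h 0 (by simp)
  have h2 := hasSum_single (f := fun n => coeff n A * (0 : ℂ) ^ n) 0
    (fun n hn => by simp [hn])
  simpa using h1.unique h2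

lemma tendsto_zero (h : QS G A) : Tendsto G (𝓝 0) (𝓝 (coeff 0 A)) := by
  rw [← h.apply_zero]
  exact (h.differentiableAt (by simp)).continuousAt

lemma unique (h : QS G A) (h' : QS G' A') (hG : ∀ q : ℂ, ‖q‖ < 1 → q ≠ 0 → G q = G' q) :
    A = A' := by
  have h1 := h.hasFPowerSeriesOnBall.hasFPowerSeriesAt
  have h2 := h'.hasFPowerSeriesOnBall.hasFPowerSeriesAt
  have h3 : G =ᶠ[𝓝 0] G' := by
    rw [(h1.continuousAt).eventuallyEq_nhds_iff_eventuallyEq_nhdsNE h2.continuousAt |>.symm]
    filter_upwards [self_mem_nhdsWithin, mem_nhdsWithin_of_mem_nhds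
      (Metric.ball_mem_nhds (0 : ℂ) one_pos)] with q hq hq'
    exact hG q (by simpa using hq') hq
  have h4 := (h1.congr h3).eq_formalMultilinearSeries h2
  ext n
  simpa using congr_arg (FormalMultilinearSeries.coeff · n) h4

lemma exists_of_differentiableOn (hG : DifferentiableOn ℂ G (Metric.ball 0 1)) :
    ∃ A, QS G A := by
  refine ⟨PowerSeries.mk fun n => (n.factorial : ℂ)⁻¹ * iteratedDeriv n G 0, fun q hq => ?_⟩
  have := Complex.hasSum_taylorSeries_on_ball hG (z := q) (by simpa using hq)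
  convert! this using 2 with n
  simp only [coeff_mk, sub_zero, smul_eq_mul]
  ring

lemma deriv (h : QS G A) : QS (deriv G) (d⁄dX ℂ A) := fun q hq => by
  have h1 := h.hasFPowerSeriesOnBall
  have h2 := h1.fderiv
  have h3 := h2.hasSum (y := q) (by
    rw [← ENNReal.coe_one, Metric.eball_coe, NNReal.coe_one, mem_ball_zero_iff]; exact hq)
  have h4 := (ContinuousLinearMap.apply ℂ ℂ (1 : ℂ)).hasSum h3
  simp only [zero_add, ContinuousLinearMap.apply_apply, fderiv_eq_smul_deriv, one_smul] at h4
  convert! h4 using 2 with n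
  rw [coeff_derivative]
  simp [mul_comm]

lemma expand (h : QS G A) (d : ℕ) (hd : d ≠ 0) :
    QS (fun q => G (q ^ d)) (PowerSeries.expand d hd A) := fun q hq => by
  have h1 := h (q ^ d) (by rw [norm_pow]; exact pow_lt_one₀ (norm_nonneg _) hq hd)
  have hinj : Function.Injective fun n : ℕ => d * n := mul_right_injective₀ hd
  rw [← hinj.hasSum_iff]
  · convert! h1 using 2 with n
    simp [coeff_expand_mul, pow_mul]
  · intro n hn
    rw [coeff_expand_of_not_dvd, zero_mul]
    rintro ⟨k, rfl⟩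
    exact hn ⟨k, rfl⟩

lemma of_X_pow_mul {m : ℕ} {B : ℂ⟦X⟧} (h : QS G (X ^ m * B)) :
    ∃ H, QS H B ∧ ∀ q : ℂ, ‖q‖ < 1 → G q = q ^ m * H q := by
  have hs : ∀ q : ℂ, ‖q‖ < 1 → Summable fun n => coeff n B * q ^ n := by
    intro q hq
    rcases eq_or_ne q 0 with rfl | hq0
    · exact (hasSum_single (f := fun n => coeff n B * (0 : ℂ) ^ n) 0
        (fun n hn => by simp [hn])).summable
    have h1 := ((summable_nat_add_iff m).mpr (h q hq).summable).mul_left (q ^ m)⁻¹
    convert! h1 using 2 with n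
    rw [coeff_X_pow_mul, pow_add]
    field_simp
  refine ⟨fun q => ∑' n, coeff n B * q ^ n, fun q hq => (hs q hq).hasSum, fun q hq => ?_⟩
  have h2 : QS (fun q => q ^ m * ∑' n, coeff n B * q ^ n) (X ^ m * B) :=
    (id.pow m).mul fun q hq => (hs q hq).hasSum
  exact (h q hq).unique (h2 q hq)

end QS

/-- Euler's product. -/
noncomputable def eul (q : ℂ) : ℂ := ∏' n : ℕ, (1 - q ^ (n + 1))

lemma norm_prod_le {x : ℂ} (hx : ‖x‖ < 1) (k n : ℕ) :
    ‖∏ i ∈ Finset.range n, (1 - x ^ (k + i + 1))‖ ≤ Real.exp (1 - ‖x‖)⁻¹ := by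
  have h0 := norm_nonneg x
  calc ‖∏ i ∈ Finset.range n, (1 - x ^ (k + i + 1))‖
      ≤ ∏ i ∈ Finset.range n, (1 + ‖x‖ ^ i) := by
        rw [norm_prod]
        refine Finset.prod_le_prod (fun _ _ => norm_nonneg _) fun i _ => ?_
        refine (norm_sub_le _ _).trans ?_
        rw [norm_one, norm_pow]
        gcongr 1 + ?_
        exact pow_le_pow_of_le_one h0 hx.le (by omega)
    _ ≤ Real.exp (∑ i ∈ Finset.range n, ‖x‖ ^ i) :=
        Real.prod_one_add_le_exp_sum _ fun i => pow_nonneg h0 i
    _ ≤ Real.exp (1 - ‖x‖)⁻¹ := by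
        rw [Real.exp_le_exp, ← tsum_geometric_of_lt_one h0 hx]
        exact (summable_geometric_of_lt_one h0 hx).sum_le_tsum _ fun i _ => pow_nonneg h0 i

lemma qs_eul : QS eul (pentagonalSeries ℂ) := fun x hx => by
  have h0 := norm_nonneg x
  have hg := summable_geometric_of_lt_one h0 hx
  set M := Real.exp (1 - ‖x‖)⁻¹ with hM
  have hb : ∀ k n : ℕ, ‖x ^ ((k + 1) * n) * ∏ i ∈ Finset.range (n + 1), (1 - x ^ (k + i + 1))‖
      ≤ ‖x‖ ^ n * M := by
    intro k n
    rw [norm_mul, norm_pow]
    exact mul_le_mul (pow_le_pow_of_le_one h0 hx.le (by nlinarith)) (norm_prod_le hx k _)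
      (norm_nonneg _) (pow_nonneg h0 _)
  have hZ : Summable fun k : ℤ => ((Int.negOnePow k : ℤˣ) : ℂ) * x ^ pentagonal k := by
    apply Summable.of_norm
    have := hg.comp_injective pentagonal_injective
    convert! this using 2 with k
    rcases Int.units_eq_one_or (Int.negOnePow k) with h | h <;> simp [h]
  have hN : HasSum (fun k : ℕ => (-1) ^ k * (x ^ pentagonal (-k) - x ^ pentagonal (k + 1)))
      (∑' k : ℤ, ((Int.negOnePow k : ℤˣ) : ℂ) * x ^ pentagonal k) := by
    have h := hZ.hasSum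
    rw [← neg_injective.hasSum_iff (fun x hx => by absurd hx; use -x; simp)] at h
    convert h.nat_add_neg_add_one using 2 with k
    simp_rw [Function.comp_apply, neg_neg, Int.negOnePow_add]
    simp
    ring
  have hE : eul x = ∑' k : ℤ, ((Int.negOnePow k : ℤˣ) : ℂ) * x ^ pentagonal k := by
    rw [← hN.tsum_eq, eul]
    refine Pentagonal.tprod_one_sub_pow (tendsto_pow_atTop_nhds_zero_of_norm_lt_one hx)
      (fun k => Summable.of_norm_bounded (hg.mul_right M) (hb k)) (fun k => ?_) hN.summable ?_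
    · simp_rw [sub_eq_add_neg]
      apply multipliable_one_add_of_summable
      simpa [add_assoc] using (summable_nat_add_iff (k + 1)).mpr hg
    · rw [tendsto_zero_iff_norm_tendsto_zero]
      refine squeeze_zero (g := fun k => ‖x‖ ^ k * ∑' n, ‖x‖ ^ n * M) (fun _ => norm_nonneg _)
        (fun k => ?_) ?_
      · rw [norm_mul, norm_mul, norm_pow, norm_neg, norm_one, one_pow, one_mul, norm_pow]
        refine mul_le_mul (pow_le_pow_of_le_one h0 hx.le ?_)
          (tsum_of_norm_bounded (hg.mul_right M).hasSum (hb k)) (norm_nonneg _) (pow_nonneg h0 _)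
        rw [Nat.le_div_iff_mul_le (by norm_num)]
        nlinarith
      · simpa using (tendsto_pow_atTop_nhds_zero_of_lt_one h0 hx).mul_const _
  rw [hE, ← pentagonal_injective.hasSum_iff
    fun n hn => by simp [coeff_pentagonalSeries_eq_zero ℂ hn]]
  convert hZ.hasSum using 2 with k
  simp

end Pool.Agent.Lib.MP_696deb_nt
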