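import Pool.Agent.Lib.MP_696deb_nt.ReSel

/-! Character sums over the vectors of given norm and orientation, and products of symbols. -/

set_option autoImplicit false

open Finset Matrix NumberTheorySymbols

namespace Pool.Agent.Lib.MP_696deb_nt

namespace Re

open Tern

theorem sig_pp {n : ℕ} (hn : Good n) (h3 : n % 3 = 1) {y : V3}
    (hy : ∀ a, bil G3 a a = 4 * n → bil G3 y y = 4 * n) {S : Finset ℕ} (hS : S ⊆ n.primeFactors) :
    Sig n 1 S = hilS n S 5 * (PP n S G3 y (XX G3 n) tw 1 * PP n S G3 y (XX G3 n) tw (-1)) ∧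
    Sig n 2 S = hilS n S 5 * (PP n S G3 y (XX G3 n) tw 1 * PP n S G3 y (XX G3 n) tw (-1)) +
      PP n S G3 y (XX G3 n) tw 1 ^ 2 + PP n S G3 y (XX G3 n) tw (-1) ^ 2 := by
  have h4 := hn.mod4
  have F1 : Tern.Fam n G3 y (XX G3 n) tw := mk_fam mem_XX3 hy (fun x => by simp [tw])
    fun x => by rw [bil_tw_left, bil_tw_right]; ring
  have Fa : Tern.Fam n G3 y (XX G3 n) ua3 := mk_fam mem_XX3 hy
    (fun x => by simp [ua3]; ring) fun x => by simp [bil_G3, ua3]; ring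
  have Fb : Tern.Fam n G3 y (XX G3 n) ub3 := mk_fam mem_XX3 hy
    (fun x => by simp [ub3]; omega) fun x => by simp [bil_G3, ub3]; ring
  have Fc : Tern.Fam n G3 y (XX G3 n) uc3 := mk_fam mem_XX3 hy
    (fun x => by simp [uc3]) fun x => by simp [bil_G3, uc3]; ring
  have Aa : ∀ s : ℤ, (s = 1 ∨ s = -1) →
      PP n S G3 y (XX G3 n) ua3 s = hilS n S 2 * PP n S G3 y (XX G3 n) tw s := by
    intro s hs
    have d : ∀ x ∈ XX G3 n, (15 : ℤ) ∣ 4 * n - bil G3 (tw x) (ua3 x) := fun x hx => by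
      rw [mem_XX3, bil_G3] at hx
      refine ⟨4 * x 0 ^ 2 + 4 * x 1 ^ 2, ?_⟩
      simp [bil_G3, tw, ua3]; linear_combination (-4) * hx
    nth_rewrite 1 [← one_mul s]
    refine PP_move hn hS ev30_G3 F1 Fa.norm (Or.inl rfl) hs
      (fun x hx => Dvd.dvd.trans (by norm_num) (d x hx))
      (fun x hx => by rw [one_mul]; exact Dvd.dvd.trans (by norm_num) (d x hx)) fun x hx => ?_
    have e : 2 * (4 * n + bil G3 (tw x) (ua3 x))
        = 2 ^ 2 * (2 * ((x 1 + 2 * x 2) ^ 2 + n * 1 ^ 2)) := by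
      simp [bil_G3, tw, ua3]; ring
    rw [eta, e, hilS_sq_mul hn hS two_ne_zero, hilS_mul' hS, hilS_norm hn hS, mul_one]
    have : (0 : ℤ) < n := by omega
    positivity
  have Ab : ∀ s : ℤ, (s = 1 ∨ s = -1) → PP n S G3 y (XX G3 n) ub3 (-1 * s)
        = hilS n S 2 * hilS n S 5 * PP n S G3 y (XX G3 n) tw s := by
    intro s hs
    have d3 : ∀ x ∈ XX G3 n, (3 : ℤ) ∣ 4 * n - bil G3 (tw x) (ub3 x) := fun x hx => by
      rw [mem_XX3, bil_G3] at hx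
      refine ⟨40 * x 0 ^ 2 + 36 * x 1 ^ 2 + 24 * x 1 * x 2 + 4 * x 2 ^ 2, ?_⟩
      simp [bil_G3, tw, ub3]; linear_combination (-4) * hx
    rw [← hilS_mul' hS]
    refine PP_move hn hS ev30_G3 F1 Fb.norm (Or.inr rfl) hs d3 (fun x hx => ?_)
      fun x hx => eta_of_sq hn hS (d3 x hx) (l := 2 * (x 1 - x 2)) ?_
    · rw [mem_XX3, bil_G3] at hx
      refine ⟨4 * (x 1 - x 2) ^ 2, ?_⟩
      simp [bil_G3, tw, ub3]; linear_combination (-4) * hx
    · rw [mem_XX3, bil_G3] at hx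
      simp [bil_G3, tw, ub3]; linear_combination (-8) * hx
  have Ac : ∀ s : ℤ, (s = 1 ∨ s = -1) → PP n S G3 y (XX G3 n) uc3 (-1 * s)
        = hilS n S 2 * hilS n S 5 * PP n S G3 y (XX G3 n) tw s := by
    intro s hs
    have d3 : ∀ x ∈ XX G3 n, (3 : ℤ) ∣ 4 * n - bil G3 (tw x) (uc3 x) := fun x hx => by
      rw [mem_XX3, bil_G3] at hx
      refine ⟨40 * x 0 ^ 2 + 16 * x 1 ^ 2 - 16 * x 1 * x 2 + 4 * x 2 ^ 2, ?_⟩
      simp [bil_G3, tw, uc3]; linear_combination (-4) * hx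
    rw [← hilS_mul' hS]
    refine PP_move hn hS ev30_G3 F1 Fc.norm (Or.inr rfl) hs d3 (fun x hx => ?_)
      fun x hx => eta_of_sq hn hS (d3 x hx) (l := 2 * (2 * x 1 + x 2)) ?_
    · rw [mem_XX3, bil_G3] at hx
      refine ⟨4 * (2 * x 1 + x 2) ^ 2, ?_⟩
      simp [bil_G3, tw, uc3]; linear_combination (-4) * hx
    · rw [mem_XX3, bil_G3] at hx
      simp [bil_G3, tw, uc3]; linear_combination (-8) * hx
  obtain ⟨e1, e2⟩ := Sig_eqs hn hS
  have z1 : ∀ m, ZZ G1 n m S = 0 := fun m => by rw [ZZ, XX_empty_1 h3, sum_empty]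
  have z2 : ∀ m, ZZ G2 n m S = 0 := fun m => by rw [ZZ, XX_empty_2 h3, sum_empty]
  have z31 : ZZ G3 n 1 S = _ := (ZZ_one hn hS (G := G3) (u := tw) fun x w => by
    rw [bil_tw_left, bil_tw_right]; ring).trans (sum_ph hn hS ev30_G3 F1 F1)
  have z32 := ZZ_two hn hS G3
  simp only [nb3 h4, FF_two (bil_tw_left G3 _ _), sum_add_distrib] at z32
  rw [sum_ph hn hS ev30_G3 F1 Fa, sum_ph hn hS ev30_G3 F1 Fb, sum_ph hn hS ev30_G3 F1 Fc] at z32
  have b1 := Ab 1 (Or.inl rfl)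
  have b2 := Ab (-1) (Or.inr rfl)
  have c1 := Ac 1 (Or.inl rfl)
  have c2 := Ac (-1) (Or.inr rfl)
  norm_num at b1 b2 c1 c2
  rw [z32, z1, z1, z2, z2, Aa 1 (Or.inl rfl), Aa (-1) (Or.inr rfl), b1, b2, c1, c2] at e2
  rw [z31, z1, z2] at e1
  have s2 := hilS_sq hn hS (k := 2) two_ne_zero
  have s5 := hilS_sq hn hS (k := 5) (by norm_num)
  generalize PP n S G3 y (XX G3 n) tw 1 = A at *
  generalize PP n S G3 y (XX G3 n) tw (-1) = B at *
  generalize hilS n S 2 = a at *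
  generalize hilS n S 5 = b at *
  constructor <;> rcases sq_eq_one_iff.1 s2 with rfl | rfl <;>
    rcases sq_eq_one_iff.1 s5 with rfl | rfl <;> linarith

/-- The character sum over the vectors of norm `n` and orientation `ρ`. -/
noncomputable def QQ (l : ℕ) (y : V3) (n : ℕ) (ρ : ℤ) : ℤ :=
  ∑ v ∈ XX G3 n, if 15 ∣ oo v - ρ then om l y v else 0

variable {l B n : ℕ} {y v w : V3} {ρ σ : ℤ}

theorem QQ_congr (h : 15 ∣ ρ - σ) : QQ l y n ρ = QQ l y n σ :=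
  sum_congr rfl fun v _ => if_congr (by omega) rfl rfl

theorem QQ_neg (hl : Aux l) (ρ : ℤ) : QQ l y n (-ρ) = -QQ l y n ρ := by
  rw [QQ, QQ, ← sum_neg_distrib, ← sum_reindex Neg.neg Neg.neg (neg_mem_XX mem_XX3)
    (neg_mem_XX mem_XX3) neg_neg neg_neg]
  refine sum_congr rfl fun v _ => ?_
  rw [oo_neg, om_neg hl, apply_ite Neg.neg, neg_zero]
  exact if_congr (by omega) rfl rfl

theorem sq_oo (hv : v ∈ XX G3 n) : 15 ∣ oo v ^ 2 - n := by
  rw [mem_XX3, bil3] at hv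
  exact ⟨-(v 0 * v 0 + v 1 * v 1), by linear_combination hv⟩

theorem zmod15 : ∀ a b : ZMod 15, (a ^ 2 = 1 ∨ a ^ 2 = 4) → b ^ 2 = a ^ 2 →
    b = a ∨ b = -a ∨ b = 4 * a ∨ b = -(4 * a) := by decide

theorem four_classes {a b : ℤ} (h : n % 15 = 1 ∨ n % 15 = 4) (ha : 15 ∣ a ^ 2 - n)
    (hb : 15 ∣ b ^ 2 - n) : 15 ∣ b - a ∨ 15 ∣ b - -a ∨ 15 ∣ b - 4 * a ∨ 15 ∣ b - -(4 * a) := by
  have d : ∀ u v : ℤ, (15 : ℤ) ∣ u - v ↔ (u : ZMod 15) = v := fun u v => by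
    rw [eq_comm, ZMod.intCast_eq_intCast_iff_dvd_sub]; rfl
  have h1 : (15 : ℤ) ∣ a ^ 2 - 1 ∨ (15 : ℤ) ∣ a ^ 2 - 4 := by omega
  have h2 : (15 : ℤ) ∣ b ^ 2 - a ^ 2 := by omega
  simp only [d] at h1 h2 ⊢
  push_cast at h1 h2 ⊢
  exact zmod15 _ _ h1 h2

theorem pp_eq (hl : Aux l) (hn : Good (l * B)) (h3 : l * B % 3 = 1) (hy : Iso l y) {y0 : V3}
    (h0 : y0 ∈ XX G3 (l * B)) {s c : ℤ} (hs : s = 1 ∧ c = 1 ∨ s = -1 ∧ c = 4) :
    PP (l * B) {l} G3 (tw y0) (XX G3 (l * B)) tw s = om l y y0 * QQ l y (l * B) (c * oo y0) := by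
  have hS : {l} ⊆ (l * B).primeFactors := singleton_subset_iff.mpr
    (Nat.mem_primeFactors.mpr ⟨hl.prime, dvd_mul_right _ _, hn.sqf.ne_zero⟩)
  rw [PP, QQ, mul_sum]
  refine sum_congr rfl fun v hv => ?_
  obtain ⟨a, ha⟩ := sq_oo h0
  obtain ⟨n3, n5⟩ := Good.mod_ne hn
  have e : bil G3 y0 v = 15 * (y0 0 * v 0 + y0 1 * v 1) + oo y0 * oo v := by rw [bil3]; ring
  have k : ∀ p : ℕ, p.Prime → (p : ℤ) ∣ 15 → ∀ z : ℤ, (p : ℤ) ∣ oo y0 * z ↔ (p : ℤ) ∣ z :=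
    fun p hp h15 z => ⟨fun h => ((Nat.prime_iff_prime_int.mp hp).dvd_or_dvd h).resolve_left
      fun h1 => hp.not_dvd_one (by
        have h2 : (p : ℤ) ∣ (l * B : ℕ) := by
          rw [show ((l * B : ℕ) : ℤ) = oo y0 ^ 2 - 15 * a by linear_combination -ha]
          exact (dvd_pow h1 two_ne_zero).sub (h15.mul_right _)
        exact hn.cop ▸ Nat.dvd_gcd (by exact_mod_cast h2) (by exact_mod_cast h15)),
      fun h => h.mul_left _⟩
  have k3 := k 3 Nat.prime_three (by norm_num) (oo y0 - oo v)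
  have k5 := k 5 Nat.prime_five (by norm_num) (oo y0 - s * oo v)
  push_cast at k3 k5
  have c3 : (3 : ℤ) ∣ 4 * (l * B : ℕ) - bil G3 (tw y0) (tw v) ↔ 3 ∣ oo y0 - oo v := by
    rw [← k3, bil_tw_left, bil_tw_right, e, show ((l * B : ℕ) : ℤ) = oo y0 ^ 2 - 15 * a by
      linear_combination -ha, show 4 * (oo y0 ^ 2 - 15 * a) - 2 * (2 * (15 * (y0 0 * v 0 + y0 1 * v 1)
        + oo y0 * oo v)) = oo y0 * (oo y0 - oo v) + 3 * (oo y0 * (oo y0 - oo v) - 20 * a -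
          20 * (y0 0 * v 0 + y0 1 * v 1)) by ring, dvd_add_left (dvd_mul_right _ _)]
  have c5 : (5 : ℤ) ∣ 4 * (l * B : ℕ) - s * bil G3 (tw y0) (tw v) ↔ 5 ∣ oo y0 - s * oo v := by
    rw [← k5, ← dvd_neg, bil_tw_left, bil_tw_right, e, show ((l * B : ℕ) : ℤ) = oo y0 ^ 2 - 15 * a by
      linear_combination -ha, show -(4 * (oo y0 ^ 2 - 15 * a) - s * (2 * (2 * (15 * (y0 0 * v 0 +
        y0 1 * v 1) + oo y0 * oo v)))) = oo y0 * (oo y0 - s * oo v) + 5 * (12 * a +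
          12 * s * (y0 0 * v 0 + y0 1 * v 1) - oo y0 * (oo y0 - s * oo v)) by ring,
      dvd_add_left (dvd_mul_right _ _)]
  rw [cc, mul_ite, mul_zero]
  refine ite_congr (propext ?_) (fun h => ?_) fun _ => rfl
  · rw [c3, c5]
    rcases hs with ⟨rfl, rfl⟩ | ⟨rfl, rfl⟩ <;> omega
  have h5 : (3 : ℤ) ∣ 4 * (l * B : ℕ) - bil G3 (tw y0) (tw v) := by
    rw [c3]
    rcases hs with ⟨rfl, rfl⟩ | ⟨rfl, rfl⟩ <;> omega
  have h6 := ne3 n3 h5
  rw [bil_tw_left, bil_tw_right] at h6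
  rw [eta, bil_tw_left, bil_tw_right, show 2 * (4 * ((l * B : ℕ) : ℤ) + 2 * (2 * bil G3 y0 v)) =
    2 ^ 2 * (2 * ((l * B : ℕ) + bil G3 y0 v)) by ring, hilS_sq_mul hn hS two_ne_zero, hilS,
    prod_singleton, hil_om hl hn.sqf h0 hv (by omega),
    om_cocycle hl hy (iso_of_mem hl hn.sqf h0) (iso_of_mem hl hn.sqf hv)]

/-- The product of two symbols is the square of a character sum. -/
theorem QQ_sq {aa bb : ℕ → ℤ} (H : SymData aa bb) (hl : Aux l) (hn : Good (l * B))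
    (h15 : l * B % 15 = 1 ∨ l * B % 15 = 4) (hB : 1 < B) (hy : Iso l y)
    (hρ : 15 ∣ ρ ^ 2 - (l * B : ℕ)) :
    QQ l y (l * B) (4 * ρ) = -J(5 | l) * QQ l y (l * B) ρ ∧
      |aa l * bb B| = 8 * QQ l y (l * B) ρ ^ 2 := by
  have hS : {l} ⊆ (l * B).primeFactors := singleton_subset_iff.mpr
    (Nat.mem_primeFactors.mpr ⟨hl.prime, dvd_mul_right _ _, hn.sqf.ne_zero⟩)
  obtain ⟨⟨s, hs, e1⟩, e2⟩ := H.e2 l B hn hl.mod4 hB
  rw [hl.prime.primeFactors] at e1 e2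
  have e3 : |aa l * bb B| = 8 * |Sig (l * B) 1 {l}| := by
    rw [e1, abs_mul, abs_mul]
    rcases hs with rfl | rfl <;> simp
  rw [e3]
  rcases (XX G3 (l * B)).eq_empty_or_nonempty with h0 | ⟨y0, h0⟩
  · obtain ⟨z, hz⟩ := exists_base G3 (4 * (l * B : ℕ))
    have := (sig_pp hn (by omega) hz hS).1
    simp [this, QQ, PP, h0]
  obtain ⟨f1, f2⟩ := sig_pp hn (by omega) (y := tw y0) (fun _ _ => by
    rw [bil_tw_left, bil_tw_right, mem_XX3.mp h0]; ring) hS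
  rw [pp_eq hl hn (by omega) hy h0 (.inl ⟨rfl, rfl⟩), pp_eq hl hn (by omega) hy h0 (.inr ⟨rfl, rfl⟩),
    one_mul, hilS, prod_singleton] at f1 f2
  have h5 : ¬ (l : ℤ) ∣ 5 := fun h => hl.prime.not_dvd_one (hl.cop ▸ Nat.dvd_gcd dvd_rfl
    (Dvd.dvd.trans (by exact_mod_cast h) (by norm_num : 5 ∣ 30)))
  rw [hil_of_not_dvd hl.prime h5] at f1 f2
  have s1 := om_sq hl hy (iso_of_mem hl hn.sqf h0)
  have s5 := jac_sq hl.prime h5
  have g1 : QQ l y (l * B) (4 * oo y0) = -J(5 | l) * QQ l y (l * B) (oo y0) := by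
    rw [f1, f2] at e2
    have : (QQ l y (l * B) (4 * oo y0) + J(5 | l) * QQ l y (l * B) (oo y0)) ^ 2 = 0 := by
      linear_combination e2 - (QQ l y (l * B) (4 * oo y0) ^ 2 + QQ l y (l * B) (oo y0) ^ 2 +
        2 * J(5 | l) * QQ l y (l * B) (oo y0) * QQ l y (l * B) (4 * oo y0)) * s1 +
        QQ l y (l * B) (oo y0) ^ 2 * s5
    linear_combination pow_eq_zero_iff two_ne_zero |>.mp this
  have g2 : |Sig (l * B) 1 {l}| = QQ l y (l * B) (oo y0) ^ 2 := by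
    rw [f1, g1, show J(5 | l) * (om l y y0 * QQ l y (l * B) (oo y0) * (om l y y0 * (-J(5 | l) *
      QQ l y (l * B) (oo y0)))) = -(J(5 | l) ^ 2 * om l y y0 ^ 2 * QQ l y (l * B) (oo y0) ^ 2) by ring,
      s1, s5, abs_neg, one_mul, one_mul, abs_of_nonneg (sq_nonneg _)]
  rw [g2]
  rcases four_classes h15 (sq_oo h0) hρ with h | h | h | h
  · rw [QQ_congr h, QQ_congr (ρ := 4 * ρ) (σ := 4 * oo y0) (by omega)]
    exact ⟨g1, rfl⟩
  · rw [QQ_congr h, QQ_congr (ρ := 4 * ρ) (σ := -(4 * oo y0)) (by omega), QQ_neg hl, QQ_neg hl, g1]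
    constructor <;> ring
  · rw [QQ_congr h, QQ_congr (ρ := 4 * ρ) (σ := oo y0) (by omega), g1]
    exact ⟨by linear_combination -QQ l y (l * B) (oo y0) * s5,
      by linear_combination -8 * QQ l y (l * B) (oo y0) ^ 2 * s5⟩
  · rw [QQ_congr h, QQ_congr (ρ := 4 * ρ) (σ := -oo y0) (by omega), QQ_neg hl, QQ_neg hl, g1]
    exact ⟨by linear_combination QQ l y (l * B) (oo y0) * s5,
      by linear_combination -8 * QQ l y (l * B) (oo y0) ^ 2 * s5⟩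

theorem zmod15' : ∀ a b r s : ZMod 15, (r ^ 2 = 1 ∨ r ^ 2 = 4) → a ^ 2 = r ^ 2 →
    (if a * b = r * s then (1 : ℤ) else 0) =
      (if a = r then 1 else 0) * (if b = s then 1 else 0) +
      (if a = -r then 1 else 0) * (if b = -s then 1 else 0) +
      (if a = 4 * r then 1 else 0) * (if b = 4 * s then 1 else 0) +
      (if a = -(4 * r) then 1 else 0) * (if b = -(4 * s) then 1 else 0) := by
  decide +kernel

/-- The sum over the pairs with prescribed product of orientations. -/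
theorem sum_pairs (hl : Aux l) {n' : ℕ} (h15 : n % 15 = 1 ∨ n % 15 = 4) (hρ : 15 ∣ ρ ^ 2 - n) :
    (∑ v ∈ XX G3 n, ∑ w ∈ XX G3 n', if 15 ∣ oo v * oo w - ρ * σ then om l y v * om l y w else 0) =
      2 * (QQ l y n ρ * QQ l y n' σ + QQ l y n (4 * ρ) * QQ l y n' (4 * σ)) := by
  have d : ∀ u v : ℤ, (15 : ℤ) ∣ u - v ↔ (u : ZMod 15) = v := fun u v => by
    rw [eq_comm, ZMod.intCast_eq_intCast_iff_dvd_sub]; rfl
  trans QQ l y n ρ * QQ l y n' σ + QQ l y n (-ρ) * QQ l y n' (-σ) +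
    QQ l y n (4 * ρ) * QQ l y n' (4 * σ) + QQ l y n (-(4 * ρ)) * QQ l y n' (-(4 * σ))
  swap
  · simp only [QQ_neg hl]; ring
  simp only [QQ, sum_mul_sum, ← sum_add_distrib]
  refine sum_congr rfl fun v hv => sum_congr rfl fun w _ => ?_
  have h0 := sq_oo hv
  have h1 : (15 : ℤ) ∣ ρ ^ 2 - 1 ∨ (15 : ℤ) ∣ ρ ^ 2 - 4 := by omega
  have h2 : (15 : ℤ) ∣ oo v ^ 2 - ρ ^ 2 := by omega
  simp only [d] at h1 h2 ⊢
  push_cast at h1 h2 ⊢
  have := zmod15' (oo v) (oo w) ρ σ h1 h2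
  have k : ∀ (c : Prop) [Decidable c] (a : ℤ), (if c then a else 0) = (if c then 1 else 0) * a :=
    fun c _ a => by split_ifs <;> simp
  simp only [k _ (om l y v * om l y w), k _ (om l y v), k _ (om l y w)]
  linear_combination (om l y v * om l y w) * this

end Re

end Pool.Agent.Lib.MP_696deb_nt
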