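import Pool.Agent.Lib.MP_696deb_nt.BinForm

set_option autoImplicit false

open Finset NumberTheorySymbols

namespace Pool.Agent.Lib.MP_696deb_nt

/-- Number of solutions of `m j^2 + t = 0` modulo `n`. -/
noncomputable def sqCount (n : ℕ) (m t : ℤ) : ℕ :=
  Nat.card {j : ZMod n // (m : ZMod n) * j ^ 2 + t = 0}

theorem sqCount_one (m t : ℤ) : sqCount 1 m t = 1 := by
  unfold sqCount
  rw [Nat.card_eq_one_iff_unique]
  exact ⟨⟨fun a b => Subtype.ext (Subsingleton.elim _ _)⟩, ⟨⟨0, Subsingleton.elim _ _⟩⟩⟩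

theorem sqCount_mul {a b : ℕ} (h : Nat.Coprime a b) (m t : ℤ) :
    sqCount (a * b) m t = sqCount a m t * sqCount b m t := by
  unfold sqCount
  rw [← Nat.card_prod]
  refine Nat.card_congr (((ZMod.chineseRemainder h).toEquiv.subtypeEquiv fun j => ?_).trans
    (Equiv.subtypeProdEquivProd (p := fun j : ZMod a => (m : ZMod a) * j ^ 2 + t = 0)
      (q := fun j : ZMod b => (m : ZMod b) * j ^ 2 + t = 0)))
  rw [← (ZMod.chineseRemainder h).map_eq_zero_iff, map_add, map_mul, map_pow, map_intCast,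
    map_intCast, Prod.ext_iff]
  simp

theorem sqCount_prime {p : ℕ} (hp : p.Prime) (hp2 : p ≠ 2) {m t : ℤ} (hm : ¬ (p : ℤ) ∣ m)
    (ht : ¬ (p : ℤ) ∣ t) : sqCount p m t = if aleg p m = aleg p (-t) then 2 else 0 := by
  have := Fact.mk hp
  have hm' : (m : ZMod p) ≠ 0 := by rwa [Ne, ZMod.intCast_zmod_eq_zero_iff_dvd]
  have ht' : ¬ (p : ℤ) ∣ -t := by rwa [Int.dvd_neg]
  have hP := Nat.prime_iff_prime_int.mp hp
  have hmt : ¬ (p : ℤ) ∣ m * -t := fun h => (hP.dvd_or_dvd h).elim hm ht'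
  have hmt' : ((m * -t : ℤ) : ZMod p) ≠ 0 := by rwa [Ne, ZMod.intCast_zmod_eq_zero_iff_dvd]
  have e : sqCount p m t = {x : ZMod p | x ^ 2 = ((m * -t : ℤ) : ZMod p)}.toFinset.card := by
    unfold sqCount
    rw [← Nat.card_eq_card_toFinset]
    refine Nat.card_congr ((Equiv.mulLeft₀ (m : ZMod p) hm').subtypeEquiv fun j => ?_)
    simp only [Equiv.mulLeft₀_apply, Set.mem_ofPred_eq]
    push_cast
    constructor
    · intro h; linear_combination (m : ZMod p) * h
    · intro h; apply mul_left_cancel₀ hm'; linear_combination h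
  have e2 := legendreSym.card_sqrts p hp2 (m * -t)
  rw [← e] at e2
  have e3 : aleg p m = aleg p (-t) ↔ legendreSym p (m * -t) = 1 := by
    rw [legendreSym.eq_one_iff p hmt', ← aleg_eq_zero_iff, aleg_mul hp hm ht', CharTwo.add_eq_zero]
  split_ifs with h
  · rw [e3.mp h] at e2; exact_mod_cast e2
  · rw [(legendreSym.eq_neg_one_iff_not_one p hmt').mpr (fun h' => h (e3.mpr h'))] at e2
    omega

theorem sqCount_squarefree {m t : ℤ} : ∀ n : ℕ, Squarefree n →
    sqCount n m t = ∏ p ∈ n.primeFactors, sqCount p m t := by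
  intro n
  induction n using induction_on_primes with
  | zero => intro h; exact absurd rfl h.ne_zero
  | one => intro _; simp [sqCount_one]
  | prime_mul p a hp ih =>
    intro hsq
    have hcop : Nat.Coprime p a := Nat.coprime_of_squarefree_mul hsq
    rw [sqCount_mul hcop, ih hsq.of_mul_right, hcop.primeFactors_mul,
      prod_union hcop.disjoint_primeFactors, hp.primeFactors, prod_singleton]

open Classical in
theorem sqCount_eq {n : ℕ} (hn : Squarefree n) (hodd : n % 2 = 1) {m t : ℤ}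
    (hm : ∀ p ∈ n.primeFactors, ¬ (p : ℤ) ∣ m) (ht : ∀ p ∈ n.primeFactors, ¬ (p : ℤ) ∣ t) :
    sqCount n m t =
      if ∀ p ∈ n.primeFactors, aleg p m = aleg p (-t) then 2 ^ n.primeFactors.card else 0 := by
  rw [sqCount_squarefree n hn]
  have h2 : ∀ p ∈ n.primeFactors, p ≠ 2 := by
    rintro p hp rfl
    have := (Nat.mem_primeFactors.mp hp).2.1
    omega
  rw [prod_congr rfl fun p hp => sqCount_prime (Nat.mem_primeFactors.mp hp).1 (h2 p hp) (hm p hp)
    (ht p hp)]
  split_ifs with h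
  · rw [prod_congr rfl fun p hp => if_pos (h p hp), prod_const]
  · push Not at h
    obtain ⟨p, hp, hne⟩ := h
    exact prod_eq_zero hp (if_neg hne)

theorem card_filter_range_eq_sqCount {n : ℕ} (hn : 0 < n) (m t : ℤ) :
    ((range n).filter fun j : ℕ => (n : ℤ) ∣ m * (j : ℤ) ^ 2 + t).card = sqCount n m t := by
  have : NeZero n := ⟨hn.ne'⟩
  unfold sqCount
  rw [Nat.subtype_card (univ.filter fun j : ZMod n => (m : ZMod n) * j ^ 2 + t = 0) (by simp)]
  refine card_bij (fun j _ => (j : ZMod n)) ?_ ?_ ?_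
  · intro j hj
    have := (ZMod.intCast_zmod_eq_zero_iff_dvd _ n).mpr (mem_filter.mp hj).2
    simpa using this
  · intro a ha b hb h
    have ha' := mem_range.mp (mem_filter.mp ha).1
    have hb' := mem_range.mp (mem_filter.mp hb).1
    have := congrArg ZMod.val h
    rwa [ZMod.val_natCast, ZMod.val_natCast, Nat.mod_eq_of_lt ha', Nat.mod_eq_of_lt hb'] at this
  · intro z hz
    refine ⟨z.val, mem_filter.mpr ⟨mem_range.mpr (ZMod.val_lt z), ?_⟩, ZMod.natCast_zmod_val z⟩
    rw [← ZMod.intCast_zmod_eq_zero_iff_dvd]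
    simpa using (mem_filter.mp hz).2

theorem jacobi_squarefree (a : ℤ) : ∀ n : ℕ, Squarefree n →
    J(a | n) = ∏ p ∈ n.primeFactors, J(a | p) := by
  intro n
  induction n using induction_on_primes with
  | zero => intro h; exact absurd rfl h.ne_zero
  | one => intro _; simp
  | prime_mul p b hp ih =>
    intro hsq
    have hcop : Nat.Coprime p b := Nat.coprime_of_squarefree_mul hsq
    rw [jacobiSym.mul_right' a hp.ne_zero hsq.of_mul_right.ne_zero, ih hsq.of_mul_right,
      hcop.primeFactors_mul, prod_union hcop.disjoint_primeFactors, hp.primeFactors, prod_singleton]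

theorem sum_aleg_eq {a : ℤ} (s : Finset ℕ) (hs : ∀ p ∈ s, p.Prime ∧ ¬ (p : ℤ) ∣ a) :
    (∏ p ∈ s, J(a | p) = 1 ∧ ∑ p ∈ s, aleg p a = 0) ∨
      (∏ p ∈ s, J(a | p) = -1 ∧ ∑ p ∈ s, aleg p a = 1) := by
  induction s using Finset.induction_on with
  | empty => simp
  | insert q s hq ih =>
    obtain ⟨hp, hd⟩ := hs q (mem_insert_self _ _)
    have := Fact.mk hp
    have ha' : (a : ZMod q) ≠ 0 := by rwa [Ne, ZMod.intCast_zmod_eq_zero_iff_dvd]
    rw [prod_insert hq, sum_insert hq, aleg_eq_legendre hd, ← jacobiSym.legendreSym.to_jacobiSym]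
    rcases ih fun p hp => hs p (mem_insert_of_mem hp) with ⟨h1, h2⟩ | ⟨h1, h2⟩ <;>
    rcases legendreSym.eq_one_or_neg_one q ha' with h3 | h3 <;> simp [h1, h2, h3]
    decide

theorem sum_aleg_eq_zero {a : ℤ} {n : ℕ} (hn : Squarefree n)
    (ha : ∀ p ∈ n.primeFactors, ¬ (p : ℤ) ∣ a) (h : J(a | n) = 1) :
    ∑ p ∈ n.primeFactors, aleg p a = 0 := by
  rw [jacobi_squarefree a n hn] at h
  rcases sum_aleg_eq n.primeFactors fun p hp => ⟨(Nat.mem_primeFactors.mp hp).1, ha p hp⟩ with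
    ⟨_, h2⟩ | ⟨h1, _⟩
  · exact h2
  · rw [h] at h1; norm_num at h1

end Pool.Agent.Lib.MP_696deb_nt
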