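import Pool.Agent.Lib.MP_696deb_nt.SymGen

set_option autoImplicit false

open Finset

namespace Pool.Agent.Lib.MP_696deb_nt

abbrev V2 := ℤ × ℤ

def dt (u v : V2) : ℤ := u.1 * v.2 - u.2 * v.1

def M2.ap (X : M2) (u : V2) : V2 := (X.a * u.1 + X.b * u.2, X.c * u.1 + X.d * u.2)

theorem M2.ap_mul (X Y : M2) (u : V2) : (X.mul Y).ap u = X.ap (Y.ap u) := by
  ext <;> simp only [M2.ap, M2.mul] <;> ring

theorem dt_swap (u v : V2) : dt u v = -dt v u := by simp only [dt]; ring

theorem dt_ap (X : M2) (u v : V2) : dt (X.ap u) (X.ap v) = X.det * dt u v := by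
  simp only [dt, M2.ap, M2.det]; ring

/-- The cyclic orientation of three points of the projective line. -/
def ori (r s y : V2) : ℤ := (dt r s).sign * (dt s y).sign * (dt y r).sign

theorem ori_ap {X : M2} (h : X.det = 1) (r s y : V2) :
    ori (X.ap r) (X.ap s) (X.ap y) = ori r s y := by
  simp only [ori, dt_ap, h, one_mul]

theorem ori_self (r y : V2) : ori r r y = 0 := by simp [ori, dt, mul_comm]

theorem sign_sq {k : ℤ} (hk : k ≠ 0) : k.sign * k.sign = 1 := by
  rcases lt_or_gt_of_ne hk with h | h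
  · simp [Int.sign_eq_neg_one_of_neg h]
  · simp [Int.sign_eq_one_of_pos h]

theorem ori_smul {k : ℤ} (hk : k ≠ 0) (r s y : V2) : ori r s (k * y.1, k * y.2) = ori r s y := by
  have h1 : dt s (k * y.1, k * y.2) = k * dt s y := by simp only [dt]; ring
  have h2 : dt (k * y.1, k * y.2) r = k * dt y r := by simp only [dt]; ring
  simp only [ori, h1, h2, Int.sign_mul]
  linear_combination ((dt r s).sign * (dt s y).sign * (dt y r).sign) * sign_sq hk

theorem sign_three {x y z : ℤ} (h : x + y + z = 0) :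
    x.sign + y.sign + z.sign = -(x.sign * y.sign * z.sign) := by
  rcases lt_trichotomy x 0 with hx | rfl | hx <;> rcases lt_trichotomy y 0 with hy | rfl | hy <;>
    rcases lt_trichotomy z 0 with hz | rfl | hz <;>
    first
      | omega
      | simp [Int.sign_eq_neg_one_of_neg, Int.sign_eq_one_of_pos, *]

theorem ori_cocycle (r s t : V2) {y : V2} (hr : dt r y ≠ 0) (hs : dt s y ≠ 0) (ht : dt t y ≠ 0) :
    ori r s y + ori s t y - ori r t y = ori r s t := by
  have e1 : dt y r = -dt r y := by simp only [dt]; ring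
  have e2 : dt y s = -dt s y := by simp only [dt]; ring
  have e3 : dt t r = -dt r t := by simp only [dt]; ring
  have h := sign_three (x := dt r s * dt t y) (y := dt s t * dt r y) (z := -(dt r t * dt s y))
    (by simp only [dt]; ring)
  simp only [ori, e1, e2, e3, Int.sign_neg, Int.sign_mul] at h ⊢
  have h1 := sign_sq hr
  have h2 := sign_sq hs
  have h3 := sign_sq ht
  generalize (dt r y).sign = x at *
  generalize (dt s y).sign = y' at *
  generalize (dt t y).sign = z at *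
  generalize (dt r s).sign = p at *
  generalize (dt s t).sign = q at *
  generalize (dt r t).sign = w at *
  linear_combination -(x * y' * z) * h + (p * x * y' - p * q * w * x * x * y' * y') * h3 +
    (q * y' * z - p * q * w * y' * y') * h1 + (-w * x * z - p * q * w) * h2

/-- Matrices in the Atkin-Lehner coset at `3`, of determinant `3 δ`. -/
def InX (δ : ℤ) (X : M2) : Prop := X.det = 3 * δ ∧ 3 ∣ X.a ∧ 15 ∣ X.c ∧ 3 ∣ X.d

instance (δ : ℤ) (X : M2) : Decidable (InX δ X) := by unfold InX; infer_instance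

/-- Vectors that represent cusps equivalent to zero or infinity. -/
def CC (u : V2) : Prop := (¬ 3 ∣ u.2 ∧ ¬ 5 ∣ u.2) ∨ (15 ∣ u.2 ∧ ¬ 3 ∣ u.1 ∧ ¬ 5 ∣ u.1)

def Cop (δ : ℤ) : Prop := ¬ 3 ∣ δ ∧ ¬ 5 ∣ δ

theorem p3 : Prime (3 : ℤ) := Int.prime_three
theorem p5 : Prime (5 : ℤ) := Int.prime_ofNat_iff.mpr Nat.prime_five

theorem dt_ne_zero {δ : ℤ} (hδ : Cop δ) {X : M2} (hX : InX δ X) {r u : V2} (hr : CC r)
    (hu : CC u) : dt r (X.ap u) ≠ 0 := by
  obtain ⟨a, b, c, d⟩ := X
  obtain ⟨h, ⟨a, rfl⟩, ⟨c, rfl⟩, ⟨d, rfl⟩⟩ := hX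
  simp only [M2.det] at h
  have hd : 3 * (a * d) - 5 * (b * c) = δ := by linarith
  have hb : ¬ 3 ∣ b := fun ⟨k, hk⟩ => hδ.1 ⟨a * d - 5 * k * c, by rw [← hd, hk]; ring⟩
  have hc : ¬ 3 ∣ c := fun ⟨k, hk⟩ => hδ.1 ⟨a * d - 5 * k * b, by rw [← hd, hk]; ring⟩
  have ha : ¬ 5 ∣ a := fun ⟨k, hk⟩ => hδ.2 ⟨3 * k * d - b * c, by rw [← hd, hk]; ring⟩
  have hd5 : ¬ 5 ∣ d := fun ⟨k, hk⟩ => hδ.2 ⟨3 * k * a - b * c, by rw [← hd, hk]; ring⟩
  obtain ⟨r1, r2⟩ := r
  obtain ⟨u1, u2⟩ := u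
  simp only [dt, M2.ap]
  intro h0
  rcases hr with ⟨h1, h2⟩ | ⟨⟨k, hk⟩, h1, h2⟩ <;> rcases hu with ⟨h3, h4⟩ | ⟨⟨l, hl⟩, h3, h4⟩ <;>
    simp only at *
  · have : (3 : ℤ) ∣ r2 * (b * u2) := ⟨r1 * (5 * c * u1 + d * u2) - r2 * a * u1, by linarith⟩
    rcases p3.dvd_or_dvd this with h | h
    · exact h1 h
    · exact (p3.dvd_or_dvd h).elim hb h3
  · subst hl
    have : (5 : ℤ) ∣ r2 * (a * u1) :=
      ⟨2 * r2 * a * u1 - r1 * (3 * c * u1 + 9 * d * l) * 3 + 9 * r2 * b * l, by linarith⟩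
    rcases p5.dvd_or_dvd this with h | h
    · exact h2 h
    · exact (p5.dvd_or_dvd h).elim ha h4
  · subst hk
    have : (5 : ℤ) ∣ r1 * (d * u2) :=
      ⟨2 * r1 * d * u2 + 9 * r1 * c * u1 - 9 * k * (3 * a * u1 + b * u2), by linarith⟩
    rcases p5.dvd_or_dvd this with h | h
    · exact h2 h
    · exact (p5.dvd_or_dvd h).elim hd5 h4
  · subst hk hl
    have : (3 : ℤ) ∣ r1 * (c * u1) := ⟨k * (a * u1 + 5 * b * l) - r1 * d * l, by linarith⟩
    rcases p3.dvd_or_dvd this with h | h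
    · exact h1 h
    · exact (p3.dvd_or_dvd h).elim hc h3

/-- One term of the intersection pairing. -/
def term (w : M2 → ℤ) (δ : ℤ) (r s u v : V2) (X : M2) : ℤ :=
  if InX δ X then w X * (ori r s (X.ap u) - ori r s (X.ap v)) else 0

/-- The intersection pairing of the geodesic `(r, s)` with the translates of `(u, v)`. -/
noncomputable def Phi (w : M2 → ℤ) (δ : ℤ) (r s u v : V2) : ℤ := ∑ᶠ X, term w δ r s u v X

theorem cross_bound {a b c d : ℤ} (ha : a ≠ 0) (hb : b ≠ 0) (hc : c ≠ 0) (hd : d ≠ 0)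
    (h : c.sign * a.sign ≠ d.sign * b.sign) :
    (0 < a * d ∧ b * c < 0) ∨ (a * d < 0 ∧ 0 < b * c) := by
  rcases lt_or_gt_of_ne ha with ha | ha <;> rcases lt_or_gt_of_ne hb with hb | hb <;>
    rcases lt_or_gt_of_ne hc with hc | hc <;> rcases lt_or_gt_of_ne hd with hd | hd <;>
    first
      | (exfalso; apply h; simp [Int.sign_eq_neg_one_of_neg, Int.sign_eq_one_of_pos, *]; done)
      | (left; constructor <;> nlinarith)
      | (right; constructor <;> nlinarith)

theorem abs_le_of_mul {a d N : ℤ} (hd : d ≠ 0) (h : |a * d| ≤ N) : a ∈ Set.Icc (-N) N := by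
  have h1 : |a| ≤ N := by
    rw [abs_mul] at h
    have := Int.one_le_abs hd
    nlinarith [abs_nonneg a]
  exact abs_le.mp h1

theorem term_finite (w : M2 → ℤ) {δ : ℤ} (hδ : Cop δ) {r s u v : V2} (hr : CC r) (hs : CC s)
    (hu : CC u) (hv : CC v) : (Function.support (term w δ r s u v)).Finite := by
  set N : ℤ := |dt r s * (3 * δ * dt u v)| with hN
  have key : ∀ X ∈ Function.support (term w δ r s u v), dt r s ≠ 0 ∧ dt u v ≠ 0 ∧
      (dt (X.ap u) r, dt (X.ap v) r, dt s (X.ap u), dt s (X.ap v)) ∈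
        Set.Icc (-N) N ×ˢ Set.Icc (-N) N ×ˢ Set.Icc (-N) N ×ˢ Set.Icc (-N) N := by
    intro X hX
    simp only [Function.mem_support, term, ne_eq, ite_eq_right_iff, Classical.not_imp,
      mul_eq_zero, not_or] at hX
    obtain ⟨hX, -, h⟩ := hX
    have h1 : dt (X.ap u) r ≠ 0 := by
      rw [dt_swap]; exact neg_ne_zero.mpr (dt_ne_zero hδ hX hr hu)
    have h2 : dt (X.ap v) r ≠ 0 := by
      rw [dt_swap]; exact neg_ne_zero.mpr (dt_ne_zero hδ hX hr hv)
    have h3 := dt_ne_zero hδ hX hs hu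
    have h4 := dt_ne_zero hδ hX hs hv
    have h5 : dt r s ≠ 0 := fun h0 => h (by simp [ori, h0])
    have h6 := cross_bound h1 h2 h3 h4 fun h0 => h (by
      simp only [ori]; linear_combination (dt r s).sign * h0)
    have h7 : dt (X.ap u) r * dt s (X.ap v) - dt (X.ap v) r * dt s (X.ap u) =
        -(dt r s * (3 * δ * dt u v)) := by
      rw [← hX.1, ← dt_ap]; simp only [dt]; ring
    have h8 : |dt (X.ap u) r * dt s (X.ap v)| ≤ N ∧ |dt (X.ap v) r * dt s (X.ap u)| ≤ N := by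
      rw [hN, ← abs_neg (dt r s * _), ← h7]
      rcases h6 with ⟨h6, h6'⟩ | ⟨h6, h6'⟩
      · rw [abs_of_pos h6, abs_of_neg h6', abs_of_pos (by linarith)]; constructor <;> linarith
      · rw [abs_of_neg h6, abs_of_pos h6', abs_of_neg (by linarith)]; constructor <;> linarith
    refine ⟨h5, fun h0 => ?_, abs_le_of_mul h4 h8.1, abs_le_of_mul h3 h8.2,
      abs_le_of_mul h2 (mul_comm (dt (X.ap v) r) _ ▸ h8.2),
      abs_le_of_mul h1 (mul_comm (dt (X.ap u) r) _ ▸ h8.1)⟩
    rw [h0] at h7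
    rcases h6 with ⟨h6, h6'⟩ | ⟨h6, h6'⟩ <;> linarith
  refine Set.Finite.of_finite_image (f := fun X : M2 =>
    (dt (X.ap u) r, dt (X.ap v) r, dt s (X.ap u), dt s (X.ap v))) (Set.Finite.subset
      ((Set.finite_Icc (-N) N).prod ((Set.finite_Icc (-N) N).prod ((Set.finite_Icc (-N) N).prod
        (Set.finite_Icc (-N) N)))) ?_) ?_
  · rintro _ ⟨X, hX, rfl⟩
    exact (key X hX).2.2
  · intro X hX Y _ h
    obtain ⟨h1, h2, -⟩ := key X hX
    simp only [Prod.mk.injEq, dt, M2.ap] at h h1 h2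
    obtain ⟨e1, e2, e3, e4⟩ := h
    have h3 := mul_ne_zero h1 h2
    ext <;> apply mul_left_cancel₀ h3
    · linear_combination (-s.1 * v.2) * e1 + (s.1 * u.2) * e2 - (r.1 * v.2) * e3 + (r.1 * u.2) * e4
    · linear_combination (s.1 * v.1) * e1 - (s.1 * u.1) * e2 + (r.1 * v.1) * e3 - (r.1 * u.1) * e4
    · linear_combination (-s.2 * v.2) * e1 + (s.2 * u.2) * e2 - (r.2 * v.2) * e3 + (r.2 * u.2) * e4
    · linear_combination (s.2 * v.1) * e1 - (s.2 * u.1) * e2 + (r.2 * v.1) * e3 - (r.2 * u.1) * e4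

section basic

variable {w : M2 → ℤ} {δ : ℤ} {r s t u v : V2}

theorem Phi_add_right (hδ : Cop δ) (hr : CC r) (hs : CC s) (hu : CC u) (hv : CC v) (ht : CC t) :
    Phi w δ r s u v + Phi w δ r s v t = Phi w δ r s u t := by
  unfold Phi
  rw [← finsum_add_distrib (term_finite w hδ hr hs hu hv) (term_finite w hδ hr hs hv ht)]
  refine finsum_congr fun X => ?_
  unfold term
  split_ifs <;> ring

theorem Phi_add_left (hδ : Cop δ) (hr : CC r) (hs : CC s) (ht : CC t) (hu : CC u) (hv : CC v) :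
    Phi w δ r s u v + Phi w δ s t u v = Phi w δ r t u v := by
  unfold Phi
  rw [← finsum_add_distrib (term_finite w hδ hr hs hu hv) (term_finite w hδ hs ht hu hv)]
  refine finsum_congr fun X => ?_
  unfold term
  split_ifs with hX
  · have h1 := ori_cocycle r s t (dt_ne_zero hδ hX hr hu) (dt_ne_zero hδ hX hs hu)
      (dt_ne_zero hδ hX ht hu)
    have h2 := ori_cocycle r s t (dt_ne_zero hδ hX hr hv) (dt_ne_zero hδ hX hs hv)
      (dt_ne_zero hδ hX ht hv)
    linear_combination w X * (h1 - h2)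
  · ring

theorem Phi_self_right : Phi w δ r s u u = 0 := by simp [Phi, term]

theorem Phi_self_left : Phi w δ r r u v = 0 := by simp [Phi, term, ori_self]

theorem Phi_smul {k l : ℤ} (hk : k ≠ 0) (hl : l ≠ 0) :
    Phi w δ r s (k * u.1, k * u.2) (l * v.1, l * v.2) = Phi w δ r s u v := by
  refine finsum_congr fun X => ?_
  have h : ∀ (k : ℤ) (u : V2), X.ap (k * u.1, k * u.2) = (k * (X.ap u).1, k * (X.ap u).2) :=
    fun k u => by ext <;> simp only [M2.ap] <;> ring
  simp only [term, h, ori_smul hk, ori_smul hl]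

theorem finsum_inj {F : M2 → ℤ} {g : M2 → M2} (hg : Function.Injective g)
    (h : ∀ X, F X ≠ 0 → ∃ Y, g Y = X) : ∑ᶠ X, F X = ∑ᶠ Y, F (g Y) := by
  rw [← finsum_mem_range hg, ← finsum_mem_univ]
  refine finsum_mem_inter_support_eq F _ _ ?_
  ext X
  simp only [Set.mem_inter_iff, Set.mem_univ, true_and, Function.mem_support, Set.mem_range]
  exact ⟨fun hX => ⟨h X hX, hX⟩, fun hX => hX.2⟩

theorem mul_right_inj {V : M2} (hV : V.det ≠ 0) : Function.Injective fun X : M2 => X.mul V := by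
  intro X Y h
  simp only [M2.ext_iff, M2.mul, M2.det] at h hV
  obtain ⟨e1, e2, e3, e4⟩ := h
  ext <;> apply mul_left_cancel₀ hV
  · linear_combination V.d * e1 - V.c * e2
  · linear_combination V.a * e2 - V.b * e1
  · linear_combination V.d * e3 - V.c * e4
  · linear_combination V.a * e4 - V.b * e3

theorem mul_left_inj {V : M2} (hV : V.det ≠ 0) : Function.Injective fun X : M2 => V.mul X := by
  intro X Y h
  simp only [M2.ext_iff, M2.mul, M2.det] at h hV
  obtain ⟨e1, e2, e3, e4⟩ := h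
  ext <;> apply mul_left_cancel₀ hV
  · linear_combination V.d * e1 - V.b * e3
  · linear_combination V.d * e2 - V.b * e4
  · linear_combination V.a * e3 - V.c * e1
  · linear_combination V.a * e4 - V.c * e2

theorem InX.mul_right {X g : M2} (hX : InX δ X) (hc : 15 ∣ g.c) : InX (δ * g.det) (X.mul g) := by
  obtain ⟨h, ⟨a, ha⟩, ⟨c, hc'⟩, ⟨d, hd⟩⟩ := hX
  obtain ⟨k, hk⟩ := hc
  refine ⟨by rw [M2.det_mul, h]; ring, ⟨a * g.a + 5 * X.b * k, ?_⟩, ⟨c * g.a + X.d * k, ?_⟩,
    ⟨5 * c * g.b + d * g.d, ?_⟩⟩ <;> simp only [M2.mul, ha, hc', hd, hk] <;> ring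

theorem InX.mul_left {X g : M2} (hX : InX δ X) (hc : 15 ∣ g.c) : InX (δ * g.det) (g.mul X) := by
  obtain ⟨h, ⟨a, ha⟩, ⟨c, hc'⟩, ⟨d, hd⟩⟩ := hX
  obtain ⟨k, hk⟩ := hc
  refine ⟨by rw [M2.det_mul, h]; ring, ⟨a * g.a + 5 * g.b * c, ?_⟩, ⟨k * X.a + g.d * c, ?_⟩,
    ⟨5 * k * X.b + d * g.d, ?_⟩⟩ <;> simp only [M2.mul, ha, hc', hd, hk] <;> ring

theorem mul_mul_adj {g : M2} (hg : g.det = 1) (X : M2) : (X.mul g).mul g.adj = X := by
  simp only [M2.det] at hg
  ext <;> simp only [M2.mul, M2.adj]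
  · linear_combination X.a * hg
  · linear_combination X.b * hg
  · linear_combination X.c * hg
  · linear_combination X.d * hg

theorem adj_mul_mul {g : M2} (hg : g.det = 1) (X : M2) : g.adj.mul (g.mul X) = X := by
  simp only [M2.det] at hg
  ext <;> simp only [M2.mul, M2.adj]
  · linear_combination X.a * hg
  · linear_combination X.b * hg
  · linear_combination X.c * hg
  · linear_combination X.d * hg

theorem det_adj (g : M2) : g.adj.det = g.det := by simp only [M2.det, M2.adj]; ring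

theorem adj_adj (g : M2) : g.adj.adj = g := by ext <;> simp [M2.adj]

theorem inX_mul_right_iff {X g : M2} (hg : g.det = 1) (hc : 15 ∣ g.c) :
    InX δ (X.mul g) ↔ InX δ X := by
  constructor
  · intro h
    have := h.mul_right (g := g.adj) (by simpa [M2.adj] using hc)
    rwa [mul_mul_adj hg, det_adj, hg, mul_one] at this
  · intro h
    simpa [hg] using h.mul_right hc

theorem inX_mul_left_iff {X g : M2} (hg : g.det = 1) (hc : 15 ∣ g.c) :
    InX δ (g.mul X) ↔ InX δ X := by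
  constructor
  · intro h
    have := h.mul_left (g := g.adj) (by simpa [M2.adj] using hc)
    rwa [adj_mul_mul hg, det_adj, hg, mul_one] at this
  · intro h
    simpa [hg] using h.mul_left hc

theorem Phi_inv_right {g : M2} (hg : g.det = 1) (hc : 15 ∣ g.c) (hw : ∀ X, w (X.mul g) = w X) :
    Phi w δ r s (g.ap u) (g.ap v) = Phi w δ r s u v := by
  unfold Phi
  rw [finsum_inj (F := term w δ r s u v) (mul_right_inj (V := g) (by simp [hg]))
    fun X _ => ⟨X.mul g.adj, by
      have := mul_mul_adj (g := g.adj) (by rw [det_adj, hg]) X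
      rwa [adj_adj] at this⟩]
  refine finsum_congr fun X => ?_
  simp only [term, inX_mul_right_iff hg hc, hw, M2.ap_mul]

theorem Phi_inv_left {g : M2} (hg : g.det = 1) (hc : 15 ∣ g.c) (hw : ∀ X, w (g.mul X) = w X) :
    Phi w δ (g.ap r) (g.ap s) u v = Phi w δ r s u v := by
  unfold Phi
  rw [finsum_inj (F := term w δ (g.ap r) (g.ap s) u v) (mul_left_inj (V := g) (by simp [hg]))
    fun X _ => ⟨g.adj.mul X, by
      have := adj_mul_mul (g := g.adj) (by rw [det_adj, hg]) X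
      rwa [adj_adj] at this⟩]
  refine finsum_congr fun X => ?_
  simp only [term, inX_mul_left_iff hg hc, hw, M2.ap_mul, ori_ap hg]

end basic

end Pool.Agent.Lib.MP_696deb_nt
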