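import Pool.Agent.Lib.MP_696deb_nt.SymDefs

set_option autoImplicit false

namespace Pool.Agent.Lib.MP_696deb_nt

/-- Two by two integer matrices. -/
@[ext] structure M2 where
  a : ℤ
  b : ℤ
  c : ℤ
  d : ℤ
deriving DecidableEq

namespace M2

def mul (X Y : M2) : M2 :=
  ⟨X.a * Y.a + X.b * Y.c, X.a * Y.b + X.b * Y.d, X.c * Y.a + X.d * Y.c, X.c * Y.b + X.d * Y.d⟩

def det (X : M2) : ℤ := X.a * X.d - X.b * X.c

def adj (X : M2) : M2 := ⟨X.d, -X.b, -X.c, X.a⟩

def neg (X : M2) : M2 := ⟨-X.a, -X.b, -X.c, -X.d⟩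

theorem mul_assoc (X Y Z : M2) : (X.mul Y).mul Z = X.mul (Y.mul Z) := by
  ext <;> simp only [mul] <;> ring

theorem det_mul (X Y : M2) : (X.mul Y).det = X.det * Y.det := by
  simp only [mul, det]; ring

end M2

section hom

variable {f : ℤ → ℤ → ℤ → ℤ → ℂ}

/-- Additivity on `Γ₀(15)`. -/
def Add15 (f : ℤ → ℤ → ℤ → ℤ → ℂ) : Prop :=
  ∀ a b c d a' b' c' d' : ℤ, a * d - b * (15 * c) = 1 → a' * d' - b' * (15 * c') = 1 →
    f (a * a' + b * (15 * c')) (a * b' + b * d') (c * a' + d * c') (15 * c * b' + d * d') =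
      f a b c d + f a' b' c' d'

theorem Add15.one (h : Add15 f) : f 1 0 0 1 = 0 := by
  have := h 1 0 0 1 1 0 0 1 (by norm_num) (by norm_num)
  norm_num at this
  exact this

theorem Add15.inv (h : Add15 f) {a b c d : ℤ} (hd : a * d - b * (15 * c) = 1) :
    f d (-b) (-c) a = -f a b c d := by
  have := h a b c d d (-b) (-c) a hd (by linear_combination hd)
  rw [show a * d + b * (15 * -c) = 1 by linear_combination hd, show a * -b + b * a = 0 by ring,
    show c * d + d * -c = 0 by ring, show 15 * c * -b + d * a = 1 by linear_combination hd,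
    h.one] at this
  linear_combination -this

theorem Add15.neg_one (h : Add15 f) : f (-1) 0 0 (-1) = 0 := by
  have := h (-1) 0 0 (-1) (-1) 0 0 (-1) (by norm_num) (by norm_num)
  norm_num at this
  rw [h.one] at this
  linear_combination (-1 / 2 : ℂ) * this

theorem Add15.neg (h : Add15 f) {a b c d : ℤ} (hd : a * d - b * (15 * c) = 1) :
    f (-a) (-b) (-c) (-d) = f a b c d := by
  have := h (-1) 0 0 (-1) a b c d (by norm_num) hd
  rw [h.neg_one] at this
  simpa using this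

/-- The value on a matrix is a universal combination of the values on two generators. -/
def Gen (g : M2) : Prop :=
  ∃ c : ℤ, g.c = 15 * c ∧ g.a * g.d - g.b * (15 * c) = 1 ∧ ∃ b1 b2 : ℤ,
    ∀ f : ℤ → ℤ → ℤ → ℤ → ℂ, Hom15 f → f g.a g.b c g.d = b1 * f 8 1 1 2 + b2 * f 4 1 1 4

theorem Gen.mul {g h : M2} (hg : Gen g) (hh : Gen h) : Gen (g.mul h) := by
  obtain ⟨c, e, hd, b1, b2, H⟩ := hg
  obtain ⟨c', e', hd', b1', b2', H'⟩ := hh
  refine ⟨c * h.a + g.d * c', by simp only [M2.mul, e, e']; ring, ?_, b1 + b1', b2 + b2',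
    fun f hf => ?_⟩
  · simp only [M2.mul, e, e']
    linear_combination (h.a * h.d - h.b * (15 * c')) * hd + hd'
  · simp only [M2.mul, e, e']
    rw [hf.add _ _ _ _ _ _ _ _ hd hd', H f hf, H' f hf]
    push_cast; ring

theorem Gen.adj {g : M2} (hg : Gen g) : Gen g.adj := by
  obtain ⟨c, e, hd, b1, b2, H⟩ := hg
  refine ⟨-c, by simp [M2.adj, e], by simp only [M2.adj]; linear_combination hd, -b1, -b2,
    fun f hf => ?_⟩
  simp only [M2.adj]
  rw [Add15.inv hf.add hd, H f hf]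
  push_cast; ring

theorem Gen.neg {g : M2} (hg : Gen g) : Gen g.neg := by
  obtain ⟨c, e, hd, b1, b2, H⟩ := hg
  refine ⟨-c, by simp [M2.neg, e], by simp only [M2.neg]; linear_combination hd, b1, b2,
    fun f hf => ?_⟩
  simp only [M2.neg]
  rw [Add15.neg hf.add hd, H f hf]

def gI : M2 := ⟨1, 0, 0, 1⟩
def gS : M2 := ⟨0, -1, 1, 0⟩
def gT : M2 := ⟨1, 1, 0, 1⟩
def gL : M2 := ⟨1, 0, 15, 1⟩
def gP : M2 := ⟨-14, 3, -75, 16⟩
def g1 : M2 := ⟨8, 1, 15, 2⟩
def g2 : M2 := ⟨4, 1, 15, 4⟩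

theorem gen_I : Gen gI :=
  ⟨0, rfl, rfl, 0, 0, fun f hf => by simpa [gI] using Add15.one hf.add⟩
theorem gen_T : Gen gT := ⟨0, rfl, rfl, 0, 0, fun f hf => by simpa [gT] using hf.hT⟩
theorem gen_L : Gen gL := ⟨1, rfl, rfl, 0, 0, fun f hf => by simpa [gL] using hf.hL⟩
theorem gen_P : Gen gP := ⟨-5, rfl, rfl, 0, 0, fun f hf => by simpa [gP] using hf.hP⟩
theorem gen_1 : Gen g1 := ⟨1, rfl, rfl, 1, 0, fun f _ => by simp [g1]⟩
theorem gen_2 : Gen g2 := ⟨1, rfl, rfl, 0, 1, fun f _ => by simp [g2]⟩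

def sch0 : List M2 :=
  [gI, gT, gT.adj, g2, g2.adj, gT.adj.mul g1, gL.mul g1.adj, g1.adj.mul gT, g1.mul gL.adj,
    g2.adj.mul gP.adj, gP.mul g2,
    ((((g1.mul gL.adj).mul gP).mul g2).mul g1.adj).mul gT,
    ((((gT.adj.mul g1).mul g2.adj).mul gP.adj).mul gL).mul g1.adj]

def sch : List M2 := sch0 ++ sch0.map M2.neg

theorem gen_sch0 : ∀ g ∈ sch0, Gen g := by
  simp only [sch0, List.forall_mem_cons, List.not_mem_nil, false_imp_iff, implies_true, and_true]
  exact ⟨gen_I, gen_T, gen_T.adj, gen_2, gen_2.adj, gen_T.adj.mul gen_1, gen_L.mul gen_1.adj,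
    gen_1.adj.mul gen_T, gen_1.mul gen_L.adj, gen_2.adj.mul gen_P.adj, gen_P.mul gen_2,
    ((((gen_1.mul gen_L.adj).mul gen_P).mul gen_2).mul gen_1.adj).mul gen_T,
    ((((gen_T.adj.mul gen_1).mul gen_2.adj).mul gen_P.adj).mul gen_L).mul gen_1.adj⟩

theorem gen_sch : ∀ g ∈ sch, Gen g := by
  intro g hg
  rcases List.mem_append.mp hg with h | h
  · exact gen_sch0 g h
  · obtain ⟨g', h', rfl⟩ := List.mem_map.mp h
    exact (gen_sch0 g' h').neg

def cosReps : List M2 :=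
  [⟨1, 0, 0, 1⟩, ⟨0, -1, 1, 0⟩, ⟨0, -1, 1, 1⟩, ⟨0, -1, 1, -1⟩, ⟨0, -1, 1, 2⟩, ⟨0, -1, 1, -2⟩,
    ⟨0, -1, 1, 3⟩, ⟨-1, 0, 2, -1⟩, ⟨0, -1, 1, -3⟩, ⟨-1, 0, -2, -1⟩, ⟨0, -1, 1, 4⟩, ⟨-1, 0, 3, -1⟩,
    ⟨-1, 1, 2, -3⟩, ⟨0, -1, 1, -4⟩, ⟨-1, 0, -3, -1⟩, ⟨-1, -1, -2, -3⟩, ⟨0, -1, 1, 5⟩,
    ⟨-1, -1, 3, 2⟩, ⟨0, -1, 1, -5⟩, ⟨-1, 1, -3, 2⟩, ⟨-1, 0, 5, -1⟩, ⟨-1, -2, 3, 5⟩,
    ⟨-1, 0, -5, -1⟩, ⟨-1, 1, 5, -6⟩]

theorem schreier : ∀ r ∈ cosReps, ∀ x ∈ [gS, gT, gT.adj], ∃ g ∈ sch, ∃ r' ∈ cosReps,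
    r.mul x = g.mul r' := by decide +kernel

theorem cosReps_c : ∀ r ∈ cosReps, r.det = 1 ∧ (r.c % 15 = 0 → r = gI) := by decide +kernel

def InCos (σ : M2) : Prop := ∃ g, Gen g ∧ ∃ r ∈ cosReps, σ = g.mul r

theorem InCos.step {σ x : M2} (h : InCos σ) (hx : x ∈ [gS, gT, gT.adj]) : InCos (σ.mul x) := by
  obtain ⟨g, hg, r, hr, rfl⟩ := h
  obtain ⟨g', hg', r', hr', e⟩ := schreier r hr x hx
  exact ⟨g.mul g', hg.mul (gen_sch g' hg'), r', hr', by rw [M2.mul_assoc, e, M2.mul_assoc]⟩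

theorem InCos.tpow {a b c d : ℤ} (h : InCos ⟨a, b, c, d⟩) (k : ℤ) :
    InCos ⟨a, b + k * a, c, d + k * c⟩ := by
  induction k using Int.induction_on with
  | zero => simpa using h
  | succ k ih =>
    convert ih.step (x := gT) (by simp) using 1
    ext <;> simp [M2.mul, gT] <;> ring
  | pred k ih =>
    convert ih.step (x := gT.adj) (by simp) using 1
    ext <;> simp [M2.mul, gT, M2.adj] <;> ring

theorem inCos_of_det (N : ℕ) : ∀ a b c d : ℤ, c.natAbs ≤ N → a * d - b * c = 1 →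
    InCos ⟨a, b, c, d⟩ := by
  have h0 : ∀ a b d : ℤ, a * d - b * 0 = 1 → InCos ⟨a, b, 0, d⟩ := by
    intro a b d h
    have hI : InCos ⟨1, 0, 0, 1⟩ := ⟨gI, gen_I, gI, by decide, by decide⟩
    have hN : InCos ⟨-1, 0, 0, -1⟩ := ⟨gI.neg, gen_I.neg, gI, by decide, by decide⟩
    rcases Int.eq_one_or_neg_one_of_mul_eq_one' (show a * d = 1 by linarith) with
      ⟨rfl, rfl⟩ | ⟨rfl, rfl⟩
    · simpa using hI.tpow b
    · simpa using hN.tpow (-b)
  induction N with
  | zero =>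
    intro a b c d hc h
    obtain rfl : c = 0 := by omega
    exact h0 a b d h
  | succ N ih =>
    intro a b c d hc h
    rcases eq_or_ne c 0 with rfl | hc0
    · exact h0 a b d h
    have h1 := Int.emod_nonneg d hc0
    have h2 := Int.emod_lt_abs d hc0
    have h3 := Int.mul_ediv_add_emod d c
    have h4 := ih (-(b - d / c * a)) a (-(d % c)) c (by rw [Int.abs_eq_natAbs] at h2; omega)
      (by linear_combination h + a * h3)
    have h5 := h4.step (x := gS) (by simp)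
    have h6 : M2.mul ⟨-(b - d / c * a), a, -(d % c), c⟩ gS = ⟨a, b - d / c * a, c, d % c⟩ := by
      ext <;> simp [M2.mul, gS]
    rw [h6] at h5
    convert h5.tpow (d / c) using 2
    · ring
    · linear_combination -h3

/-- Every additive function on `Γ₀(15)` that kills the parabolic generators is determined by two
values. -/
theorem Hom15.exists_int {a b c d : ℤ} (h : a * d - b * (15 * c) = 1) : ∃ b1 b2 : ℤ,
    ∀ f : ℤ → ℤ → ℤ → ℤ → ℂ, Hom15 f → f a b c d = b1 * f 8 1 1 2 + b2 * f 4 1 1 4 := by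
  obtain ⟨g, hg, r, hr, e⟩ := inCos_of_det _ a b (15 * c) d le_rfl h
  obtain ⟨c', e', hd, b1, b2, H⟩ := hg
  obtain ⟨hr1, hr2⟩ := cosReps_c r hr
  have hc : 15 * c = 15 * c' * r.a + g.d * r.c := by
    have := congrArg M2.c e
    simpa [M2.mul, e'] using this
  have hrc : r.c % 15 = 0 := by
    refine Int.emod_eq_zero_of_dvd ⟨g.a * (c - c' * r.a) - g.b * c' * r.c, ?_⟩
    linear_combination -g.a * hc - r.c * hd
  obtain rfl := hr2 hrc
  have e1 : g = ⟨a, b, 15 * c, d⟩ := by rw [e]; ext <;> simp [M2.mul, gI]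
  subst e1
  obtain rfl : c = c' := by simpa using e'
  exact ⟨b1, b2, H⟩

theorem Hom15.lpow (h : Hom15 f) (k : ℤ) : f 1 0 k 1 = 0 := by
  induction k using Int.induction_on with
  | zero => exact Add15.one h.add
  | succ k ih =>
    have := h.add 1 0 k 1 1 0 1 1 (by ring) (by ring)
    rw [ih, h.hL] at this
    simpa using this
  | pred k ih =>
    have := h.add 1 0 (-k) 1 1 0 (-1) 1 (by ring) (by ring)
    have h2 := Add15.inv h.add (a := 1) (b := 0) (c := 1) (d := 1) (by ring)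
    rw [h.hL] at h2
    simp only [neg_zero] at h2
    rw [ih, h2] at this
    simpa [sub_eq_add_neg] using this

/-- The value only depends on the second column. -/
theorem Hom15.col (h : Hom15 f) {a a' b c c' d : ℤ} (hd : a * d - b * (15 * c) = 1)
    (hd' : a' * d - b * (15 * c') = 1) : f a' b c' d = f a b c d := by
  have := h.add a b c d 1 0 (a * c' - a' * c) 1 hd (by ring)
  rw [h.lpow, add_zero] at this
  rw [← this]
  congr 1
  · linear_combination -a' * hd + a * hd'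
  · ring
  · linear_combination -c' * hd + c * hd'
  · ring

theorem Hom15.shift (h : Hom15 f) {a a' b c c' d : ℤ} (hd : a * d - b * (15 * c) = 1)
    (hd' : a' * d - (b + d) * (15 * c') = 1) : f a' (b + d) c' d = f a b c d := by
  have := h.add 1 1 0 1 a b c d (by ring) hd
  rw [h.hT, zero_add] at this
  rw [← this]
  simp only [one_mul, mul_zero, zero_mul, zero_add]
  exact h.col (by linear_combination hd) hd'

/-- The conjugate function. -/
theorem Add15.star (h : Add15 f) : Add15 fun a b c d => f a (-b) (-c) d := by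
  intro a b c d a' b' c' d' hd hd'
  have := h a (-b) (-c) d a' (-b') (-c') d' (by linear_combination hd) (by linear_combination hd')
  simp only
  rw [← this]
  congr 1 <;> ring

theorem Add15.star_P (h : Add15 f) : f (-14) (-3) 5 16 = -f (-14) 3 (-5) 16 := by
  have h1 := h 4 (-1) (-1) 4 16 (-3) 5 (-14) (by norm_num) (by norm_num)
  have h2 := h (-11) 2 4 (-11) 4 1 1 4 (by norm_num) (by norm_num)
  have h3 := h.inv (a := 4) (b := 1) (c := 1) (d := 4) (by norm_num)
  have h4 := h.inv (a := -14) (b := 3) (c := -5) (d := 16) (by norm_num)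
  norm_num at h1 h2 h3 h4
  linear_combination h2 + h1 + h3 + h4

theorem Hom15.star (h : Hom15 f) : Hom15 fun a b c d => f a (-b) (-c) d where
  add := Add15.star h.add
  hT := by
    have := Add15.inv h.add (a := 1) (b := 1) (c := 0) (d := 1) (by norm_num)
    simpa [h.hT] using this
  hL := by simpa using h.lpow (-1)
  hP := by simpa [h.hP] using Add15.star_P h.add

theorem Hom15.star_one (h : Hom15 f) : f 8 (-1) (-1) 2 = f 8 1 1 2 := by
  have := h.shift (a := 8) (b := -1) (c := -1) (d := 2) (a' := 8) (c' := 1) (by norm_num)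
    (by norm_num)
  simpa using this.symm

/-- A function that is additive and invariant under conjugation kills the parabolic generators
and the second hyperbolic generator. -/
theorem Add15.of_plus (h : Add15 f)
    (hp : ∀ a b c d : ℤ, a * d - b * (15 * c) = 1 → f a (-b) (-c) d = f a b c d) :
    Hom15 f ∧ f 4 1 1 4 = 0 := by
  refine ⟨⟨h, ?_, ?_, ?_⟩, ?_⟩
  · have h1 := h.inv (a := 1) (b := 1) (c := 0) (d := 1) (by norm_num)
    have h2 := hp 1 1 0 1 (by norm_num)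
    linear_combination (h1 - h2) / 2
  · have h1 := h.inv (a := 1) (b := 0) (c := 1) (d := 1) (by norm_num)
    have h2 := hp 1 0 1 1 (by norm_num)
    linear_combination (h1 - h2) / 2
  · have h1 := h.star_P
    have h2 := hp (-14) 3 (-5) 16 (by norm_num)
    norm_num at h2
    linear_combination (h1 - h2) / 2
  · have h1 := h.inv (a := 4) (b := 1) (c := 1) (d := 4) (by norm_num)
    have h2 := hp 4 1 1 4 (by norm_num)
    linear_combination (h1 - h2) / 2

end hom

end Pool.Agent.Lib.MP_696deb_nt
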