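import Pool.Agent.Lib.MP_696deb_nt.SymCross
import Pool.Agent.Lib.MP_696deb_nt.SymArith

set_option autoImplicit false

open Finset NumberTheorySymbols

namespace Pool.Agent.Lib.MP_696deb_nt

/-- The weight attached to the rows of a matrix. -/
def om1 (A : ℕ) (X : M2) : ℤ := KK A X.c (-X.a) X.d (-X.b)

/-- The weight attached to the columns of a matrix. -/
def om2 (B : ℕ) (X : M2) : ℤ := KK B X.a X.b X.c X.d

theorem ori_std (y : V2) : ori (1, 0) (0, 1) y = y.1.sign * y.2.sign := by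
  simp [ori, dt]

/-- A matrix whose determinant is not divisible by `p ^ 2` is nonzero modulo `p`. -/
theorem not_all_dvd {n m : ℕ} (hn : Good n) (hm : m = 1 ∨ m = 2) {X : M2}
    (hX : InX (m * n) X) {p : ℕ} (hp : p ∈ n.primeFactors) :
    ¬ ((p : ℤ) ∣ X.a ∧ (p : ℤ) ∣ X.b ∧ (p : ℤ) ∣ X.c ∧ (p : ℤ) ∣ X.d) := by
  rintro ⟨⟨a, ha⟩, ⟨b, hb⟩, ⟨c, hc⟩, ⟨d, hd⟩⟩
  have hp' := Nat.prime_of_mem_primeFactors hp
  have hnd := not_dvd_div hn.sqf hp' (Nat.dvd_of_mem_primeFactors hp)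
  have h4 := hn.mod4
  have hc15 := hn.cop
  obtain ⟨k, rfl⟩ := Nat.dvd_of_mem_primeFactors hp
  rw [Nat.mul_div_cancel_left _ hp'.pos] at hnd
  have h := hX.1
  simp only [M2.det, ha, hb, hc, hd] at h
  have hp0 : (p : ℤ) ≠ 0 := by exact_mod_cast hp'.ne_zero
  have h1 : (p : ℤ) ∣ 3 * m * k :=
    ⟨a * d - b * c, mul_left_cancel₀ hp0 (by push_cast at h; linear_combination -h)⟩
  rcases (Nat.prime_iff_prime_int.mp hp').dvd_or_dvd h1 with h2 | h2
  · have h3 : p ∣ 3 * m := by exact_mod_cast h2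
    have h5 : p ∣ 2 * 3 := h3.trans (by rcases hm with rfl | rfl <;> norm_num)
    rcases (Nat.Prime.dvd_mul hp').mp h5 with h6 | h6
    · obtain rfl := (Nat.prime_dvd_prime_iff_eq hp' Nat.prime_two).mp h6
      omega
    · obtain rfl := (Nat.prime_dvd_prime_iff_eq hp' Nat.prime_three).mp h6
      exact absurd (Nat.Coprime.coprime_mul_right hc15) (by decide)
  · exact hnd h2

end Pool.Agent.Lib.MP_696deb_nt
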