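import Pool.Agent.Lib.MP_696deb_nt.TernRho

set_option autoImplicit false

open Finset

namespace Pool.Agent.Lib.MP_696deb_nt.Tern

/-- The properties of the Hilbert symbols `(a, -n)_p`, `p ∣ n`, that the count uses. -/
structure IsHilb (n : ℕ) (h : ℕ → ℕ → ℤ) : Prop where
  mul : ∀ p, p.Prime → p ∣ n → ∀ a b, 0 < a → 0 < b → h p (a * b) = h p a * h p b
  cop : ∀ p, p.Prime → p ∣ n → ∀ a, ¬ p ∣ a → h p a = jacobiSym a p
  self : ∀ p, p.Prime → p ∣ n → h p p = jacobiSym (n / p : ℕ) p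

theorem jac_eq (p : ℕ) [Fact p.Prime] (a : ℤ) :
    jacobiSym a p = quadraticChar (ZMod p) (a : ZMod p) := by
  rw [← jacobiSym.legendreSym.to_jacobiSym]; rfl

theorem not_dvd_div_of_squarefree {n p : ℕ} (hn : Squarefree n) (hp : p.Prime) (hpn : p ∣ n) :
    ¬ p ∣ n / p := by
  intro h
  have : p * p ∣ n := by
    obtain ⟨k, rfl⟩ := hpn
    rw [Nat.mul_div_cancel_left _ hp.pos] at h
    exact Nat.mul_dvd_mul_left p h
  exact hp.one_lt.ne' (Nat.isUnit_iff.1 (hn p this))

theorem jac_sq_of_not_dvd {p a : ℕ} (hp : p.Prime) (h : ¬ p ∣ a) : jacobiSym a p ^ 2 = 1 := by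
  apply jacobiSym.sq_one
  rw [Int.gcd_natCast_natCast]
  exact ((Nat.Prime.coprime_iff_not_dvd hp).2 h).symm

theorem IsHilb.sq {n : ℕ} {h : ℕ → ℕ → ℤ} (hh : IsHilb n h) (hn : Squarefree n) {p : ℕ}
    (hp : p.Prime) (hpn : p ∣ n) (a : ℕ) (ha : 0 < a) : h p a ^ 2 = 1 := by
  induction a using Nat.strong_induction_on with
  | _ a ih =>
    by_cases hpa : p ∣ a
    · obtain ⟨b, rfl⟩ := hpa
      have hb : 0 < b := Nat.pos_of_mul_pos_left ha
      rw [hh.mul p hp hpn p b hp.pos hb, mul_pow, ih b (by nlinarith [hp.one_lt]) hb,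
        hh.self p hp hpn, jac_sq_of_not_dvd hp (not_dvd_div_of_squarefree hn hp hpn), one_mul]
    · rw [hh.cop p hp hpn a hpa, jac_sq_of_not_dvd hp hpa]

/-- Two numbers represented by one binary form of discriminant `-n` have the same symbols. -/
theorem IsHilb.genus {n : ℕ} {h : ℕ → ℕ → ℤ} (hh : IsHilb n h) (hn : Squarefree n) {p : ℕ}
    (hp : p.Prime) (hpn : p ∣ n) (hp2 : p ≠ 2) {u v τ l : ℕ} (hu : 0 < u)
    (e : τ ^ 2 + n * l ^ 2 = 4 * u * v) (hv : ¬ p ∣ v) (hl : p ∣ u → ¬ p ∣ l) :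
    h p u = jacobiSym v p := by
  have := Fact.mk hp
  have h2 : (2 : ZMod p) ≠ 0 := by
    have := (ZMod.natCast_eq_zero_iff 2 p).not.2
      (fun h => hp2 ((Nat.prime_dvd_prime_iff_eq hp Nat.prime_two).1 h))
    exact_mod_cast this
  have hv' : (v : ZMod p) ≠ 0 := (ZMod.natCast_eq_zero_iff v p).not.2 hv
  have hvv : quadraticChar (ZMod p) (v : ZMod p) ^ 2 = 1 := quadraticChar_sq_one hv'
  by_cases hpu : p ∣ u
  · obtain ⟨u', rfl⟩ := hpu
    obtain ⟨n', rfl⟩ := hpn
    have hl' := hl (dvd_mul_right _ _)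
    have hτ : p ∣ τ := by
      apply hp.dvd_of_dvd_pow (n := 2)
      have h1 : p ∣ τ ^ 2 + p * n' * l ^ 2 := ⟨4 * u' * v, by rw [e]; ring⟩
      exact (Nat.dvd_add_left ⟨n' * l ^ 2, by ring⟩).1 h1
    obtain ⟨τ', rfl⟩ := hτ
    have e' : p * τ' ^ 2 + n' * l ^ 2 = 4 * u' * v := by
      apply Nat.eq_of_mul_eq_mul_left hp.pos
      linear_combination e
    have hn' : ¬ p ∣ n' := by
      have := not_dvd_div_of_squarefree hn hp (dvd_mul_right _ _)
      rwa [Nat.mul_div_cancel_left _ hp.pos] at this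
    have e2 : (n' : ZMod p) * (l : ZMod p) ^ 2 = 2 ^ 2 * u' * v := by
      have := congrArg (Nat.cast : ℕ → ZMod p) e'
      push_cast at this
      simp only [CharP.cast_eq_zero, zero_mul, zero_add] at this
      linear_combination this
    have hn'' : (n' : ZMod p) ≠ 0 := (ZMod.natCast_eq_zero_iff _ p).not.2 hn'
    have hl'' : (l : ZMod p) ≠ 0 := (ZMod.natCast_eq_zero_iff _ p).not.2 hl'
    have hu' : (u' : ZMod p) ≠ 0 := by
      intro h0
      rw [h0] at e2
      simp [hn'', hl''] at e2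
    have hu'' : ¬ p ∣ u' := (ZMod.natCast_eq_zero_iff _ p).not.1 hu'
    have hu0 : 0 < u' := Nat.pos_of_mul_pos_left hu
    rw [hh.mul p hp (dvd_mul_right _ _) p u' hp.pos hu0, hh.self p hp (dvd_mul_right _ _),
      hh.cop p hp (dvd_mul_right _ _) u' hu'', Nat.mul_div_cancel_left _ hp.pos, jac_eq, jac_eq,
      jac_eq]
    push_cast
    have e3 := congrArg (quadraticChar (ZMod p)) e2
    rw [map_mul, map_mul, map_mul, quadraticChar_sq_one' hl'', quadraticChar_sq_one' h2] at e3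
    have huu : quadraticChar (ZMod p) (u' : ZMod p) ^ 2 = 1 := quadraticChar_sq_one hu'
    linear_combination quadraticChar (ZMod p) (u' : ZMod p) * e3
      + quadraticChar (ZMod p) (v : ZMod p) * huu
  · rw [hh.cop p hp hpn u hpu, jac_eq, jac_eq]
    push_cast
    have hu' : (u : ZMod p) ≠ 0 := (ZMod.natCast_eq_zero_iff _ p).not.2 hpu
    have e2 : (τ : ZMod p) ^ 2 = 2 ^ 2 * u * v := by
      have := congrArg (Nat.cast : ℕ → ZMod p) e
      push_cast at this
      rw [(ZMod.natCast_eq_zero_iff n p).2 hpn] at this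
      linear_combination this
    have hτ : (τ : ZMod p) ≠ 0 := by
      intro h0
      rw [h0] at e2
      exact (mul_ne_zero (mul_ne_zero (pow_ne_zero 2 h2) hu') hv') (by rw [← e2]; simp)
    have e3 := congrArg (quadraticChar (ZMod p)) e2
    rw [map_mul, map_mul, quadraticChar_sq_one' hτ, quadraticChar_sq_one' h2] at e3
    linear_combination (-quadraticChar (ZMod p) (v : ZMod p)) * e3
      - quadraticChar (ZMod p) (u : ZMod p) * hvv

/-- Second coordinate of a vector `(1, lam)` whose value is prime to `n`. -/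
def lam (n m : ℕ) : ℕ := n / Nat.gcd m n

/-- Value of the binary form `(m, 2 y + 1, c)` at `(1, lam)`. -/
def nst (n d m y : ℕ) : ℕ := m + (2 * y + 1) * lam n m + (y ^ 2 + y + d) / m * lam n m ^ 2

/-- Bilinear form of `(1, 0)` and `(1, lam)`. -/
def tst (n m y : ℕ) : ℕ := 2 * m + (2 * y + 1) * lam n m

theorem not_dvd_lam {n m p : ℕ} (hn : Squarefree n) (hp : p.Prime) (hpn : p ∣ n) (hpm : p ∣ m) :
    ¬ p ∣ lam n m := by
  intro h
  have e : Nat.gcd m n * lam n m = n := Nat.mul_div_cancel' (Nat.gcd_dvd_right _ _)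
  have : p * p ∣ n := e ▸ Nat.mul_dvd_mul (Nat.dvd_gcd hpm hpn) h
  exact hp.one_lt.ne' (Nat.isUnit_iff.1 (hn p this))

theorem dvd_lam {n m p : ℕ} (hp : p.Prime) (hpn : p ∣ n) (hpm : ¬ p ∣ m) : p ∣ lam n m := by
  have e : Nat.gcd m n * lam n m = n := Nat.mul_div_cancel' (Nat.gcd_dvd_right _ _)
  rw [← e] at hpn
  exact ((Nat.Prime.dvd_mul hp).1 hpn).resolve_left
    fun h => hpm (h.trans (Nat.gcd_dvd_left _ _))

theorem tst_sq {n d m y : ℕ} (hd : 4 * d = n + 1) (hy : m ∣ y ^ 2 + y + d) :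
    tst n m y ^ 2 + n * lam n m ^ 2 = 4 * m * nst n d m y := by
  have e : m * ((y ^ 2 + y + d) / m) = y ^ 2 + y + d := Nat.mul_div_cancel' hy
  unfold tst nst
  generalize (y ^ 2 + y + d) / m = c at *
  generalize lam n m = l
  zify at *
  linear_combination (-4 * (l : ℤ) ^ 2) * e - (l : ℤ) ^ 2 * hd

theorem not_dvd_nst {n d m y p : ℕ} (hd : 4 * d = n + 1) (hn : Squarefree n)
    (hy : m ∣ y ^ 2 + y + d) (hp : p.Prime) (hpn : p ∣ n) : ¬ p ∣ nst n d m y := by
  intro h
  by_cases hpm : p ∣ m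
  · have h1 : p ^ 2 ∣ tst n m y ^ 2 + n * lam n m ^ 2 := by
      rw [tst_sq hd hy, sq, mul_assoc]
      exact Dvd.dvd.mul_left (Nat.mul_dvd_mul hpm h) 4
    have h2 : p ∣ tst n m y ^ 2 :=
      (Nat.dvd_add_left (Dvd.dvd.mul_right hpn _)).1
        (Dvd.dvd.trans (Dvd.intro_left p (by ring)) h1)
    have h3 : p ^ 2 ∣ tst n m y ^ 2 := pow_dvd_pow_of_dvd (hp.dvd_of_dvd_pow h2) 2
    have h4 : p ^ 2 ∣ n * lam n m ^ 2 := (Nat.dvd_add_right h3).1 h1
    have h5 : (p ^ 2).Coprime (lam n m ^ 2) :=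
      Nat.Coprime.pow 2 2 ((Nat.Prime.coprime_iff_not_dvd hp).2 (not_dvd_lam hn hp hpn hpm))
    have h6 : p * p ∣ n := by rw [← sq]; exact h5.dvd_of_dvd_mul_right h4
    exact hp.one_lt.ne' (Nat.isUnit_iff.1 (hn p h6))
  · apply hpm
    have hl := dvd_lam hp hpn hpm
    unfold nst at h
    rw [add_assoc] at h
    exact (Nat.dvd_add_left (dvd_add (Dvd.dvd.mul_left hl _)
      (Dvd.dvd.mul_left (dvd_pow hl two_ne_zero) _))).1 h

theorem coprime_nst {n d m y : ℕ} (hd : 4 * d = n + 1) (hn : Squarefree n)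
    (hy : m ∣ y ^ 2 + y + d) : (nst n d m y).Coprime n :=
  Nat.coprime_of_dvd fun _ hp h1 h2 => not_dvd_nst hd hn hy hp h2 h1

theorem sqfree_dvd_iff {n : ℕ} (hn : Squarefree n) (z : ℤ) :
    (n : ℤ) ∣ z ↔ ∀ p ∈ n.primeFactors, (p : ℤ) ∣ z := by
  constructor
  · intro h p hp
    exact (Int.natCast_dvd_natCast.2 (Nat.dvd_of_mem_primeFactors hp)).trans h
  · intro h
    rw [← Nat.prod_primeFactors_of_squarefree hn]
    push_cast
    refine Finset.prod_dvd_of_coprime ?_ h
    intro p hp q hq hpq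
    exact Nat.isCoprime_iff_coprime.2 ((Nat.coprime_primes (Nat.prime_of_mem_primeFactors hp)
      (Nat.prime_of_mem_primeFactors hq)).2 hpq)

theorem small_ne_zero {n p : ℕ} (h30 : n.Coprime 30) (hp : p.Prime) (hpn : p ∣ n) :
    (2 : ZMod p) ≠ 0 ∧ (3 : ZMod p) ≠ 0 ∧ (5 : ZMod p) ≠ 0 := by
  have key : ∀ k : ℕ, k ∣ 30 → (k : ZMod p) ≠ 0 := fun k hk h =>
    hp.one_lt.ne' (Nat.eq_one_of_dvd_coprimes h30 hpn
      (((ZMod.natCast_eq_zero_iff k p).1 h).trans hk))
  exact ⟨by exact_mod_cast key 2 (by norm_num), by exact_mod_cast key 3 (by norm_num),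
    by exact_mod_cast key 5 (by norm_num)⟩

/-- The number of ways to extend a binary form with a marked vector to a ternary form. -/
theorem beta_count {n d m y e : ℕ} {t : ℤ} {h : ℕ → ℕ → ℤ} (hh : IsHilb n h)
    (hd : 4 * d = n + 1) (hn : Squarefree n) (h30 : n.Coprime 30) (hm : 0 < m) (he : 0 < e)
    (hy : m ∣ y ^ 2 + y + d) (ht : (n : ℤ) ∣ t ^ 2 + 60 * (e ^ 2 * m : ℕ)) :
    (∑ j ∈ range n, if (n : ℤ) ∣ (j : ℤ) ^ 2 * nst n d m y + 15 ∧
        (n : ℤ) ∣ t - e * j * tst n m y then (1 : ℤ) else 0)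
      = ∏ p ∈ n.primeFactors,
          if p ∣ e ^ 2 * m then 1 + jacobiSym (-15) p * h p (e ^ 2 * m) else 1 := by
  have step : ∀ j : ℕ, (if (n : ℤ) ∣ (j : ℤ) ^ 2 * nst n d m y + 15 ∧
        (n : ℤ) ∣ t - e * j * tst n m y then (1 : ℤ) else 0)
      = ∏ p ∈ n.primeFactors, if ((j : ZMod p) ^ 2 * nst n d m y + 15 = 0 ∧
        (t : ZMod p) - e * j * tst n m y = 0) then (1 : ℤ) else 0 := by
    intro j
    rw [prod_boole]
    congr 1
    rw [sqfree_dvd_iff hn, sqfree_dvd_iff hn, ← forall₂_and]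
    apply propext
    refine forall₂_congr fun p _ => ?_
    simp only [← ZMod.intCast_zmod_eq_zero_iff_dvd]
    push_cast
    rfl
  simp only [step]
  conv_lhs => rw [← Nat.prod_primeFactors_of_squarefree hn]
  rw [Nat.prod_primeFactors_of_squarefree hn]
  conv_lhs => enter [1, 1]; rw [← Nat.prod_primeFactors_of_squarefree hn]
  rw [crt_prod _ (fun p hp => Nat.prime_of_mem_primeFactors hp)
    (fun p j => if ((j : ZMod p) ^ 2 * nst n d m y + 15 = 0 ∧
        (t : ZMod p) - e * j * tst n m y = 0) then (1 : ℤ) else 0)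
    (fun p _ x => by simp only [ZMod.natCast_mod])]
  refine prod_congr rfl fun p hp' => ?_
  have hp := Nat.prime_of_mem_primeFactors hp'
  have hpn := Nat.dvd_of_mem_primeFactors hp'
  have := Fact.mk hp
  obtain ⟨h2, h3, h5⟩ := small_ne_zero h30 hp hpn
  have hp2 : p ≠ 2 := by rintro rfl; exact h2 rfl
  rw [sum_range_zmod p (fun j => if (j ^ 2 * nst n d m y + 15 = 0 ∧
        (t : ZMod p) - e * j * tst n m y = 0) then (1 : ℤ) else 0)]
  have hN : (nst n d m y : ZMod p) ≠ 0 :=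
    (ZMod.natCast_eq_zero_iff _ p).not.2 (not_dvd_nst hd hn hy hp hpn)
  have hτ : (tst n m y : ZMod p) ^ 2 = 4 * m * nst n d m y := by
    have := congrArg (Nat.cast : ℕ → ZMod p) (tst_sq hd hy)
    push_cast at this
    rw [(ZMod.natCast_eq_zero_iff n p).2 hpn] at this
    linear_combination this
  have ht' : (t : ZMod p) ^ 2 + 60 * ((e : ZMod p) ^ 2 * m) = 0 := by
    have := (ZMod.intCast_zmod_eq_zero_iff_dvd _ p).2
      ((Int.natCast_dvd_natCast.2 hpn).trans ht)
    push_cast at this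
    exact this
  have hgen : h p m = jacobiSym (nst n d m y) p :=
    hh.genus hn hp hpn hp2 hm (tst_sq hd hy) (not_dvd_nst hd hn hy hp hpn)
      (not_dvd_lam hn hp hpn)
  generalize (tst n m y : ZMod p) = τ at *
  by_cases hM : p ∣ e ^ 2 * m
  · rw [if_pos hM]
    have hM' : (e : ZMod p) ^ 2 * m = 0 := by
      exact_mod_cast (ZMod.natCast_eq_zero_iff _ p).2 hM
    have ht0 : (t : ZMod p) = 0 := by
      rw [hM'] at ht'
      simpa using ht'
    have heτ : (e : ZMod p) * τ = 0 := by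
      have : ((e : ZMod p) * τ) ^ 2 = 0 := by
        rw [mul_pow, hτ]; linear_combination 4 * (nst n d m y : ZMod p) * hM'
      simpa using this
    have e1 : h p (e ^ 2 * m) = jacobiSym (nst n d m y) p := by
      rw [hh.mul p hp hpn _ _ (by positivity) hm, sq, hh.mul p hp hpn _ _ he he, ← sq,
        hh.sq hn hp hpn e he, one_mul, hgen]
    rw [e1, jac_eq, jac_eq, ← map_mul]
    push_cast
    generalize (nst n d m y : ZMod p) = N at *
    have hc := quadraticChar_card_sqrts (F := ZMod p) ((ZMod.ringChar_zmod_n p).substr hp2)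
      (-15 * N)
    rw [add_comm, ← hc, sum_boole]
    congr 1
    refine card_nbij' (fun j => j * N) (fun x => x / N) ?_ ?_ ?_ ?_
    · intro j hj
      simp only [coe_filter, mem_univ, true_and, Set.mem_ofPred_eq, Set.coe_toFinset] at hj ⊢
      linear_combination N * hj.1
    · intro x hx
      simp only [coe_filter, mem_univ, true_and, Set.mem_ofPred_eq, Set.coe_toFinset] at hx ⊢
      refine ⟨?_, by rw [ht0]; linear_combination (-(x / N)) * heτ⟩
      field_simp
      linear_combination hx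
    · intro j _; field_simp
    · intro x _; field_simp
  · rw [if_neg hM]
    have hM' : (e : ZMod p) ^ 2 * m ≠ 0 := by
      exact_mod_cast (ZMod.natCast_eq_zero_iff _ p).not.2 hM
    have he0 : (e : ZMod p) ≠ 0 := fun h0 => hM' (by simp [h0])
    have hm0 : (m : ZMod p) ≠ 0 := fun h0 => hM' (by simp [h0])
    have h4 : (4 : ZMod p) ≠ 0 := by
      have : (4 : ZMod p) = 2 * 2 := by norm_num
      rw [this]; exact mul_ne_zero h2 h2
    have hτ0 : τ ≠ 0 := by
      intro h0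
      rw [h0] at hτ
      exact mul_ne_zero (mul_ne_zero h4 hm0) hN (by rw [← hτ]; simp)
    generalize (nst n d m y : ZMod p) = N at *
    rw [sum_eq_single ((t : ZMod p) / (e * τ))]
    · rw [if_pos]
      refine ⟨?_, by field_simp; ring⟩
      have : (t : ZMod p) ^ 2 * N + 15 * (e * τ) ^ 2 = 0 := by
        linear_combination N * ht' + 15 * (e : ZMod p) ^ 2 * hτ
      field_simp
      linear_combination this
    · intro j _ hne
      rw [if_neg]
      intro h0
      apply hne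
      field_simp
      linear_combination (-1 : ZMod p) * h0.2
    · simp

end Pool.Agent.Lib.MP_696deb_nt.Tern
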