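import Mathlib
import Pool.Agent.Lib.MP_696deb_nt.Mass

set_option autoImplicit false

open Finset Matrix

namespace Pool.Agent.Lib.MP_696deb_nt

theorem iso_finite {G H : M3} (hG : IsTQ G) (hH : IsTQ H) : {g : SL3 | actG g G = H}.Finite :=
  finite_iso hG hH

theorem actG_inv {g : SL3} {G H : M3} (h : actG g G = H) : actG g⁻¹ H = G := by
  rw [← h, ← actG_mul, inv_mul_cancel, actG_one]

theorem kk_symm (G H : M3) : {g : SL3 | actG g G = H}.ncard = kk H G :=
  Nat.card_congr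
    { toFun := fun g => ⟨g.1⁻¹, actG_inv g.2⟩
      invFun := fun g => ⟨g.1⁻¹, actG_inv g.2⟩
      left_inv := fun g => by simp
      right_inv := fun g => by simp }

theorem mass {G : M3} (hG : IsTQ G) :
    3 * {g : SL3 | actG g G = G1}.ncard + {g : SL3 | actG g G = G2}.ncard +
      3 * {g : SL3 | actG g G = G3}.ncard = 12 := by
  rw [kk_symm, kk_symm, kk_symm, mass_kk hG]

theorem groupoid {V : Type*} (act : SL3 → V → V) (act_one : ∀ v, act 1 v = v)
    (act_mul : ∀ g h v, act (g * h) v = act g (act h v))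
    (P : M3 → V → Prop) (hP : ∀ g G v, P G v → P (actG g G) (act g v))
    (N : Finset (M3 × V)) (hN : ∀ q ∈ N, IsTQ q.1 ∧ P q.1 q.2) (μ : ℕ) (_hμ0 : 0 < μ)
    (hμ : ∀ G v, IsTQ G → P G v → {g : SL3 | (actG g G, act g v) ∈ N}.ncard = μ)
    (C1 C2 C3 : Finset V) (h1 : ∀ v, v ∈ C1 ↔ P G1 v) (h2 : ∀ v, v ∈ C2 ↔ P G2 v)
    (h3 : ∀ v, v ∈ C3 ↔ P G3 v) :
    μ * (3 * C1.card + C2.card + 3 * C3.card) = 12 * N.card := by
  have := groupoid_w (R := ℤ) act P (fun _ _ => 1) N μ act_one act_mul (fun g G v _ => hP g G v)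
    (fun _ _ _ _ _ => rfl) hN hμ C1 C2 C3 h1 h2 h3
  simp only [sum_const, nsmul_eq_mul, mul_one] at this
  exact_mod_cast this

end Pool.Agent.Lib.MP_696deb_nt
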