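import Pool.Agent.Lib.MP_696deb_nt.TernNormal
import Pool.Agent.Lib.MP_696deb_nt.TernMass

set_option autoImplicit false

open Finset Matrix

namespace Pool.Agent.Lib.MP_696deb_nt.Tern

/-- Counting points of a fibre through a set of normal forms for a free action. -/
theorem groupoid_sum {Γ Y V C : Type*} [Group Γ] (aY : Γ → Y → Y) (aV : Γ → V → V)
    (V_one : ∀ v, aV 1 v = v) (V_mul : ∀ g h v, aV (g * h) v = aV g (aV h v))
    (y0 : Y) (P : Finset V) (S : Finset C) (cY : C → Y) (cV : C → V)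
    (hfin : ∀ c ∈ S, Finite {g : Γ // aY g y0 = cY c})
    (h1 : ∀ v ∈ P, ∃ g, ∃ c ∈ S, aY g y0 = cY c ∧ aV g v = cV c)
    (h2 : ∀ g g' c c' v, c ∈ S → c' ∈ S → aY g y0 = cY c → aV g v = cV c → aY g' y0 = cY c' →
      aV g' v = cV c' → g = g' ∧ c = c')
    (h3 : ∀ g c v, c ∈ S → aY g y0 = cY c → aV g v = cV c → v ∈ P) :
    P.card = ∑ c ∈ S, Nat.card {g : Γ // aY g y0 = cY c} := by
  classical
  let T : C → Finset Γ := fun c =>
    if h : c ∈ S then (show Set.Finite {g : Γ | aY g y0 = cY c} from hfin c h).toFinset else ∅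
  have hT : ∀ c ∈ S, ∀ g, g ∈ T c ↔ aY g y0 = cY c := by
    intro c hc g
    simp [T, hc]
  have hcard : ∀ c ∈ S, Nat.card {g : Γ // aY g y0 = cY c} = (T c).card := fun c hc =>
    Nat.subtype_card _ (hT c hc)
  rw [sum_congr rfl hcard, ← card_sigma]
  have inv : ∀ g v, aV g (aV g⁻¹ v) = v := fun g v => by rw [← V_mul, mul_inv_cancel, V_one]
  have inv' : ∀ g v, aV g⁻¹ (aV g v) = v := fun g v => by rw [← V_mul, inv_mul_cancel, V_one]
  symm
  refine card_nbij (fun q => aV q.2⁻¹ (cV q.1)) ?_ ?_ ?_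
  · rintro ⟨c, g⟩ hq
    simp only [coe_sigma, Set.mem_sigma_iff, mem_coe] at hq ⊢
    exact h3 g c _ hq.1 ((hT c hq.1 g).1 hq.2) (inv _ _)
  · rintro ⟨c, g⟩ hq ⟨c', g'⟩ hq' h
    simp only [coe_sigma, Set.mem_sigma_iff, mem_coe] at hq hq' h
    obtain ⟨rfl, rfl⟩ := h2 g g' c c' (aV g⁻¹ (cV c)) hq.1 hq'.1 ((hT c hq.1 g).1 hq.2) (inv _ _)
      ((hT c' hq'.1 g').1 hq'.2) (by rw [h, inv])
    rfl
  · intro v hv
    obtain ⟨g, c, hc, e1, e2⟩ := h1 v hv
    refine ⟨⟨c, g⟩, ?_, ?_⟩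
    · simp only [coe_sigma, Set.mem_sigma_iff, mem_coe]
      exact ⟨hc, (hT c hc g).2 e1⟩
    · simp only [← e2, inv']

open Classical in
/-- The finite set of parameters of normal forms. -/
noncomputable def canSet (n d M : ℕ) (t : ℤ) : Finset (ℕ × ℕ × ℕ) :=
  (Icc 1 M ×ˢ range M ×ˢ range n).filter (CanOK n d M t)

theorem mem_canSet {n d M : ℕ} {t : ℤ} (hM : 0 < M) {c : ℕ × ℕ × ℕ} :
    c ∈ canSet n d M t ↔ CanOK n d M t c := by
  classical
  rw [canSet, mem_filter]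
  refine ⟨fun h => h.2, fun h => ⟨?_, h⟩⟩
  obtain ⟨h1, h2, h3, -, h5, -, -⟩ := h
  simp only [mem_product, mem_Icc, mem_range]
  have := Nat.le_of_dvd hM h2
  exact ⟨⟨h1, by nlinarith⟩, h3.trans_le (Nat.div_le_self _ _), h5⟩

theorem isHilb_hil (n : ℕ) : IsHilb n fun p a => hil n p a where
  mul p hp _ a b _ _ := by push_cast; exact hil_mul hp _ _
  cop p hp _ a ha := hil_of_not_dvd hp (by exact_mod_cast ha)
  self p hp _ := hil_self hp

theorem card_canSet {n d M : ℕ} {t : ℤ} (hd : 4 * d = n + 1) (hn : Squarefree n)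
    (h30 : n.Coprime 30) (hM : 0 < M) (ht : (n : ℤ) ∣ t ^ 2 + 60 * M) :
    ((canSet n d M t).card : ℤ) = rr n M * epsP n M := by
  classical
  rw [canSet, card_filter]
  push_cast
  rw [sum_product, rr, ← sum_rho hd hn hM, sum_filter, sum_mul]
  refine sum_congr rfl fun e he => ?_
  have he0 : 0 < e := (mem_Icc.1 he).1
  by_cases h2 : e ^ 2 ∣ M
  swap
  · rw [if_neg h2, zero_mul]
    exact sum_eq_zero fun q _ => if_neg fun h => h2 h.2.1
  rw [if_pos h2, sum_product, rho, sum_mul]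
  have hm : e ^ 2 * (M / e ^ 2) = M := Nat.mul_div_cancel' h2
  have hm0 : 0 < M / e ^ 2 := Nat.pos_of_mul_pos_left (hm.symm ▸ hM)
  rw [← sum_subset (range_subset_range.2 (Nat.div_le_self M (e ^ 2)))]
  · refine sum_congr rfl fun y hy => ?_
    by_cases h4 : M / e ^ 2 ∣ y ^ 2 + y + d
    swap
    · rw [if_neg h4, zero_mul]
      exact sum_eq_zero fun q _ => if_neg fun h => h4 h.2.2.2.1
    have := beta_count (isHilb_hil n) hd hn h30 hm0 he0 h4 (t := t) (by rw [hm]; exact ht)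
    rw [hm] at this
    rw [if_pos h4, one_mul, epsP, prod_filter, ← this]
    refine sum_congr rfl fun j hj => if_congr ?_ rfl rfl
    exact ⟨fun h => h.2.2.2.2.2, fun h => ⟨he0, h2, mem_range.1 hy, h4, mem_range.1 hj, h⟩⟩
  · intro y _ hy
    exact sum_eq_zero fun q _ => if_neg fun h => hy (mem_range.2 h.2.2.1)

theorem cnt_eq_sum {G0 : M3} (hG0 : Ev30 G0) (hX : ∀ {k : ℕ} {x : V3}, x ∈ XX G0 k ↔ bil G0 x x = k)
    (hfin : ∀ G, IsTQ G → Finite {g : SL3 // actG g G0 = G}) {n d M n2 : ℕ} {t : ℤ} (hd : 4 * d = n + 1)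
    (hn : Squarefree n) (hM0 : 0 < M) (hM : (n : ℤ) * n2 - t ^ 2 = 60 * M) :
    cnt G0 n n2 t = ∑ c ∈ canSet n d M t, Nat.card {g : SL3 // actG g G0 = canG n d M c} := by
  refine groupoid_sum actG (fun g (q : V3 × V3) => ((g : M3) *ᵥ q.1, (g : M3) *ᵥ q.2))
    (fun v => by simp) (fun g h v => by simp [mulVec_mulVec]) G0 _ _ (canG n d M)
    (fun c => (![1, 0, 0], canW n M t c)) (fun c hc => hfin _ ?_) ?_ ?_ ?_
  · obtain ⟨⟨⟨h1, h2, h3⟩, -⟩, h4⟩ := can_inv hd hM ((mem_canSet hM0).1 hc)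
    exact ⟨h1, h2, h3, h4⟩
  · rintro ⟨x, w⟩ hv
    simp only [mem_filter, mem_product, hX] at hv
    obtain ⟨c, hc, g, e1, e2, e3⟩ := exists_can hd hn hM0 hM (G := G0) (x := x) (w := w)
      ⟨hG0, hv.1.1, hv.1.2, hv.2⟩
    exact ⟨g, c, (mem_canSet hM0).2 hc, e1, Prod.ext e2 e3⟩
  · rintro g g' c c' ⟨x, w⟩ hc hc' e1 e2 e1' e2'
    simp only [Prod.mk.injEq] at e2 e2'
    have key : ∀ v : V3, ((g' * g⁻¹ : SL3) : M3) *ᵥ ((g : M3) *ᵥ v) = (g' : M3) *ᵥ v := by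
      intro v
      have : ((g' * g⁻¹ : SL3) : M3) * (g : M3) = (g' : M3) :=
        congrArg Subtype.val (inv_mul_cancel_right g' g)
      rw [mulVec_mulVec, this]
    obtain ⟨h1, h2⟩ := can_unique hd hn ((mem_canSet hM0).1 hc) ((mem_canSet hM0).1 hc')
      (g' * g⁻¹) (by
        change actG (g' * g⁻¹) _ = _
        rw [← e1, ← actG_mul, inv_mul_cancel_right, e1'])
      (by have := key x; rwa [e2.1, e2'.1] at this)
      (by have := key w; rwa [e2.2, e2'.2] at this)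
    refine ⟨?_, h2⟩
    have : g' * g⁻¹ = 1 := Subtype.ext h1
    exact (mul_inv_eq_one.1 this).symm
  · rintro g c ⟨x, w⟩ hc e1 e2
    simp only [Prod.mk.injEq] at e2
    obtain ⟨⟨-, h1, h2, h3⟩, -⟩ := can_inv hd hM ((mem_canSet hM0).1 hc)
    rw [← e1, ← e2.1] at h1 h3
    rw [← e1] at h2
    rw [← e2.2] at h2 h3
    rw [bil_act] at h1 h2 h3
    simp only [mem_filter, mem_product, hX]
    exact ⟨⟨h1, h2⟩, h3⟩

theorem ev30_G1 : Ev30 G1 := ⟨by decide, by decide, by decide⟩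
theorem ev30_G2 : Ev30 G2 := ⟨by decide, by decide, by decide⟩
theorem ev30_G3 : Ev30 G3 := ⟨by decide, by decide, by decide⟩

theorem card_iso_symm (G H : M3) :
    Nat.card {g : SL3 // actG g G = H} = {g : SL3 | actG g H = G}.ncard := by
  rw [← Nat.card_coe_set_eq]
  refine Nat.card_congr ((Equiv.inv SL3).subtypeEquiv fun g => ?_)
  simp only [Equiv.inv_apply, Set.mem_ofPred_eq]
  constructor
  · rintro rfl
    rw [← actG_mul, inv_mul_cancel, actG_one]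
  · rintro rfl
    rw [← actG_mul, mul_inv_cancel, actG_one]

/-- The count of pairs of vectors with given Gram matrix, from the mass identity. -/
theorem count_of_mass
    (f1 : ∀ G, IsTQ G → Finite {g : SL3 // actG g G1 = G})
    (f2 : ∀ G, IsTQ G → Finite {g : SL3 // actG g G2 = G})
    (f3 : ∀ G, IsTQ G → Finite {g : SL3 // actG g G3 = G})
    (mass : ∀ G, IsTQ G → 3 * {g : SL3 | actG g G = G1}.ncard
      + {g : SL3 | actG g G = G2}.ncard + 3 * {g : SL3 | actG g G = G3}.ncard = 12)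
    {n M n2 : ℕ} {t : ℤ} (hn : Good n) (hM0 : 0 < M) (hM : (n : ℤ) * n2 - t ^ 2 = 60 * M) :
    ((3 * cnt G1 n n2 t + cnt G2 n n2 t + 3 * cnt G3 n n2 t : ℕ) : ℤ)
      = 12 * rr n M * epsP n M := by
  have h4 := hn.mod4
  have hd : 4 * ((n + 1) / 4) = n + 1 := by omega
  have h30 : n.Coprime 30 := by
    have : n.Coprime (2 * 15) := Nat.Coprime.mul_right
      ((Nat.coprime_two_right).2 (Nat.odd_iff.2 (by omega))) hn.cop
    exact this
  rw [cnt_eq_sum ev30_G1 mem_XX1 f1 hd hn.sqf hM0 hM, cnt_eq_sum ev30_G2 mem_XX2 f2 hd hn.sqf hM0 hM,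
    cnt_eq_sum ev30_G3 mem_XX3 f3 hd hn.sqf hM0 hM, mul_sum, mul_sum, ← sum_add_distrib,
    ← sum_add_distrib, mul_assoc, ← card_canSet hd hn.sqf h30 hM0 (t := t)
      ⟨n2, by linear_combination -hM⟩, sum_congr rfl (g := fun _ => 12)]
  · simp [mul_comm]
  · intro c hc
    obtain ⟨⟨⟨h1, h2, h3⟩, -⟩, h4⟩ := can_inv hd hM ((mem_canSet hM0).1 hc)
    rw [card_iso_symm, card_iso_symm, card_iso_symm]
    exact mass _ ⟨h1, h2, h3, h4⟩

end Pool.Agent.Lib.MP_696deb_nt.Tern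

namespace Pool.Agent.Lib.MP_696deb_nt

/-- The count of pairs of vectors with given Gram matrix. -/
theorem count {n n2 M : ℕ} {t : ℤ} (hn : Good n) (hM : 0 < M)
    (h : (n : ℤ) * n2 - t ^ 2 = 60 * M) :
    ((3 * cnt G1 n n2 t + cnt G2 n n2 t + 3 * cnt G3 n n2 t : ℕ) : ℤ) =
      12 * rr n M * epsP n M :=
  Tern.count_of_mass (fun _ hG => iso_finite isTQ_G1 hG) (fun _ hG => iso_finite isTQ_G2 hG)
    (fun _ hG => iso_finite isTQ_G3 hG) (fun _ hG => mass hG) hn hM h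

end Pool.Agent.Lib.MP_696deb_nt
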