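import Pool.Agent.Lib.MP_696deb_nt.GDefs

set_option autoImplicit false

open Finset Matrix NumberTheorySymbols

namespace Pool.Agent.Lib.MP_696deb_nt.Tern

def tw (x : V3) : V3 := ![2 * x 0, 2 * x 1, 2 * x 2]
def ua1 (x : V3) : V3 := ![-2 * x 0, 2 * x 1 + x 2, -2 * x 2]
def ub1 (x : V3) : V3 := ![-2 * x 0, -2 * x 1, x 1 + 2 * x 2]
def u0 (x : V3) : V3 := ![2 * x 0 + 2 * x 1, x 0 - x 1 + x 2, x 0 - x 1 - x 2]
def v0 (x : V3) : V3 := ![x 0 + x 1 + x 2, x 0 - x 1 - x 2, 2 * x 1 - 2 * x 2]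
def v1 (x : V3) : V3 := ![-2 * x 0, x 0 + x 1 + x 2, 2 * x 1 - 2 * x 2]
def v2 (x : V3) : V3 := ![x 0 - x 1 - x 2, -2 * x 0, 2 * x 1 - 2 * x 2]
def ua3 (x : V3) : V3 := ![2 * x 1, -2 * x 0, x 0 + x 1 + 2 * x 2]
def ub3 (x : V3) : V3 := ![-2 * x 0, -x 1 - x 2, -3 * x 1 + x 2]
def uc3 (x : V3) : V3 := ![-2 * x 0, x 2, 4 * x 1]

theorem v3_ext {x y : V3} (h0 : x 0 = y 0) (h1 : x 1 = y 1) (h2 : x 2 = y 2) : x = y := by
  ext i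
  fin_cases i
  exacts [h0, h1, h2]

theorem v3_eq {x y : V3} : x = y ↔ x 0 = y 0 ∧ x 1 = y 1 ∧ x 2 = y 2 :=
  ⟨fun h => by simp [h], fun h => v3_ext h.1 h.2.1 h.2.2⟩

theorem sum_map {G G' : M3} (hX : ∀ {k : ℕ} {x : V3}, x ∈ XX G k ↔ bil G x x = k)
    (hX' : ∀ {k : ℕ} {x : V3}, x ∈ XX G' k ↔ bil G' x x = k) (U : V3 → V3)
    (inj : ∀ x y, U x = U y → x = y) (hU : ∀ x, bil G (U x) (U x) = 4 * bil G' x x)
    (D : V3 → Prop) [DecidablePred D] (hD : ∀ x, D (U x)) (hD' : ∀ w, D w → ∃ x, U x = w)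
    (n : ℕ) (f : V3 → ℤ) :
    ∑ x ∈ XX G' n, f (U x) = ∑ w ∈ XX G (4 * n), (if D w then 1 else 0) * f w := by
  simp only [ite_mul, one_mul, zero_mul]
  rw [← sum_filter]
  refine sum_nbij U ?_ (fun x _ y _ h => inj x y h) ?_ fun _ _ => rfl
  · intro x hx
    rw [mem_filter, hX, hU, hX'.1 hx]
    exact ⟨by push_cast; ring, hD x⟩
  · intro w hw
    rw [mem_coe, mem_filter, hX] at hw
    obtain ⟨x, rfl⟩ := hD' w hw.2
    refine ⟨x, ?_, rfl⟩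
    have := hw.1
    rw [hU] at this
    push_cast at this
    rw [mem_coe, hX']
    omega

theorem dvd_two_iff (k : ℤ) : (2 : ℤ) ∣ k ↔ 4 * (k : ZMod 8) = 0 := by
  have := ZMod.intCast_zmod_eq_zero_iff_dvd (4 * k) 8
  push_cast at this
  rw [this]
  omega

theorem dvd_four_iff (k : ℤ) : (4 : ℤ) ∣ k ↔ 2 * (k : ZMod 8) = 0 := by
  have := ZMod.intCast_zmod_eq_zero_iff_dvd (2 * k) 8
  push_cast at this
  rw [this]
  omega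

theorem jac_two {n : ℕ} (h : n % 4 = 3) :
    ((n : ZMod 8) = 3 ∧ J(2 | n) = -1) ∨ ((n : ZMod 8) = 7 ∧ J(2 | n) = 1) := by
  rw [jacobiSym.at_two (Nat.odd_iff.2 (by omega)), ZMod.χ₈_nat_eq_if_mod_eight,
    ← ZMod.natCast_mod n 8]
  rcases (by omega : n % 8 = 3 ∨ n % 8 = 7) with h8 | h8
  · left; rw [h8, if_neg (by omega), if_neg (by omega)]; exact ⟨rfl, rfl⟩
  · right; rw [h8, if_neg (by omega), if_pos (by omega)]; exact ⟨rfl, rfl⟩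

/-- Evenness of a vector. -/
def Ev (w : V3) : Prop := (2 : ℤ) ∣ w 0 ∧ (2 : ℤ) ∣ w 1 ∧ (2 : ℤ) ∣ w 2

instance : DecidablePred Ev := fun w => by unfold Ev; infer_instance

theorem sum_tw {G : M3} (hX : ∀ {k : ℕ} {x : V3}, x ∈ XX G k ↔ bil G x x = k)
    (hU : ∀ x, bil G (tw x) (tw x) = 4 * bil G x x) (n : ℕ) (f : V3 → ℤ) :
    ∑ x ∈ XX G n, f (tw x) = ∑ w ∈ XX G (4 * n), (if Ev w then 1 else 0) * f w := by
  refine sum_map hX hX tw ?_ hU Ev ?_ ?_ n f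
  · intro x y h
    simp only [v3_eq, tw, Matrix.cons_val] at h ⊢
    omega
  · intro x
    simp [Ev, tw]
  · rintro w ⟨⟨a, ha⟩, ⟨b, hb⟩, ⟨c, hc⟩⟩
    exact ⟨![a, b, c], by simp [v3_eq, tw, ha, hb, hc]⟩

theorem nb1 {n : ℕ} (h4 : n % 4 = 3) (f : V3 → ℤ) :
    ∑ w ∈ XX G1 (4 * n), f w + J(2 | n) * ∑ x ∈ XX G1 n, f (tw x)
      = ∑ x ∈ XX G1 n, f (ua1 x) + ∑ x ∈ XX G1 n, f (ub1 x) + ∑ x ∈ XX G2 n, f (u0 x) := by
  rw [sum_tw mem_XX1 (fun x => by simp [bil_G1, tw]; ring),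
    sum_map mem_XX1 mem_XX1 ua1 ?_ (fun x => by simp [bil_G1, ua1]; ring)
      (fun w => (2 : ℤ) ∣ w 0 ∧ (2 : ℤ) ∣ w 2 ∧ (4 : ℤ) ∣ 2 * w 1 + w 2) ?_ ?_,
    sum_map mem_XX1 mem_XX1 ub1 ?_ (fun x => by simp [bil_G1, ub1]; ring)
      (fun w => (2 : ℤ) ∣ w 0 ∧ (2 : ℤ) ∣ w 1 ∧ (4 : ℤ) ∣ 2 * w 2 + w 1) ?_ ?_,
    sum_map mem_XX1 mem_XX2 u0 ?_ (fun x => by simp [bil_G1, bil_G2, u0]; ring)
      (fun w => (2 : ℤ) ∣ w 0 ∧ (2 : ℤ) ∣ w 1 + w 2 ∧ (4 : ℤ) ∣ w 0 + w 1 + w 2) ?_ ?_,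
    mul_sum, ← sum_add_distrib, ← sum_add_distrib, ← sum_add_distrib]
  · refine sum_congr rfl fun w hw => ?_
    rw [mem_XX1, bil_G1] at hw
    obtain ⟨a, ha⟩ : (2 : ℤ) ∣ w 0 := by
      apply Int.Prime.dvd_pow' (k := 2) Nat.prime_two
      refine ⟨2 * n - 7 * w 0 ^ 2 - 4 * w 1 ^ 2 - 2 * w 1 * w 2 - 4 * w 2 ^ 2, ?_⟩
      push_cast at hw ⊢
      linear_combination hw
    have e : 15 * a ^ 2 + 2 * w 1 ^ 2 + w 1 * w 2 + 2 * w 2 ^ 2 = n := by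
      rw [ha] at hw
      push_cast at hw
      linarith
    have e' := congrArg (Int.cast : ℤ → ZMod 8) e
    push_cast at e'
    rw [← mul_assoc, ← add_mul, ← add_mul, ← one_add_mul]
    congr 1
    simp only [Ev, ha, dvd_mul_right, true_and]
    simp only [dvd_two_iff, dvd_four_iff]
    push_cast
    generalize (a : ZMod 8) = a at *
    generalize (w 1 : ZMod 8) = b at *
    generalize (w 2 : ZMod 8) = c at *
    rcases jac_two h4 with ⟨h1, h2⟩ | ⟨h1, h2⟩ <;> rw [h1] at e' <;> rw [h2] <;>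
      revert a b c <;> decide
  all_goals first
    | (intro x y h; simp only [v3_eq, ua1, ub1, u0, Matrix.cons_val] at h ⊢; omega)
    | (intro x; simp only [ua1, ub1, u0, Matrix.cons_val]; omega)
    | skip
  · rintro w ⟨⟨a, ha⟩, ⟨b, hb⟩, ⟨c, hc⟩⟩
    exact ⟨![c, a - c, b - w 2], by simp only [v3_eq, u0, Matrix.cons_val]; omega⟩
  · rintro w ⟨⟨a, ha⟩, ⟨b, hb⟩, ⟨c, hc⟩⟩
    exact ⟨![-a, -b, c], by simp only [v3_eq, ub1, Matrix.cons_val]; omega⟩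
  · rintro w ⟨⟨a, ha⟩, ⟨b, hb⟩, ⟨c, hc⟩⟩
    exact ⟨![-a, c, -b], by simp only [v3_eq, ua1, Matrix.cons_val]; omega⟩

theorem nb2 {n : ℕ} (h4 : n % 4 = 3) (f : V3 → ℤ) :
    ∑ w ∈ XX G2 (4 * n), f w + J(2 | n) * ∑ x ∈ XX G2 n, f (tw x)
      = ∑ x ∈ XX G1 n, f (v0 x) + ∑ x ∈ XX G1 n, f (v1 x) + ∑ x ∈ XX G1 n, f (v2 x) := by
  rw [sum_tw mem_XX2 (fun x => by simp [bil_G2, tw]; ring),
    sum_map mem_XX2 mem_XX1 v0 ?_ (fun x => by simp [bil_G1, bil_G2, v0]; ring)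
      (fun w => (2 : ℤ) ∣ w 2 ∧ (2 : ℤ) ∣ w 0 + w 1 ∧ (4 : ℤ) ∣ w 0 - w 1 + w 2) ?_ ?_,
    sum_map mem_XX2 mem_XX1 v1 ?_ (fun x => by simp [bil_G1, bil_G2, v1]; ring)
      (fun w => (2 : ℤ) ∣ w 2 ∧ (2 : ℤ) ∣ w 0 ∧ (4 : ℤ) ∣ w 0 + 2 * w 1 + w 2) ?_ ?_,
    sum_map mem_XX2 mem_XX1 v2 ?_ (fun x => by simp [bil_G1, bil_G2, v2]; ring)
      (fun w => (2 : ℤ) ∣ w 2 ∧ (2 : ℤ) ∣ w 1 ∧ (4 : ℤ) ∣ w 2 - 2 * w 0 - w 1) ?_ ?_,
    mul_sum, ← sum_add_distrib, ← sum_add_distrib, ← sum_add_distrib]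
  · refine sum_congr rfl fun w hw => ?_
    rw [mem_XX2, bil_G2] at hw
    obtain ⟨a, ha⟩ : (2 : ℤ) ∣ w 2 := by
      apply Int.Prime.dvd_pow' (k := 2) Nat.prime_two
      refine ⟨2 * n - w 2 ^ 2 - 10 * w 0 ^ 2 - 10 * w 0 * w 1 - 10 * w 1 ^ 2, ?_⟩
      push_cast at hw ⊢
      linear_combination hw
    have e : 5 * w 0 ^ 2 + 5 * w 0 * w 1 + 5 * w 1 ^ 2 + 3 * a ^ 2 = n := by
      rw [ha] at hw
      push_cast at hw
      linarith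
    have e' := congrArg (Int.cast : ℤ → ZMod 8) e
    push_cast at e'
    rw [← mul_assoc, ← add_mul, ← add_mul, ← one_add_mul]
    congr 1
    simp only [Ev, ha, dvd_mul_right, true_and, and_true]
    simp only [dvd_two_iff, dvd_four_iff]
    push_cast
    generalize (a : ZMod 8) = a at *
    generalize (w 0 : ZMod 8) = b at *
    generalize (w 1 : ZMod 8) = c at *
    rcases jac_two h4 with ⟨h1, h2⟩ | ⟨h1, h2⟩ <;> rw [h1] at e' <;> rw [h2] <;>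
      revert a b c <;> decide
  all_goals first
    | (intro x y h; simp only [v3_eq, v0, v1, v2, Matrix.cons_val] at h ⊢; omega)
    | (intro x; simp only [v0, v1, v2, Matrix.cons_val]; omega)
    | skip
  · rintro w ⟨⟨a, ha⟩, ⟨b, hb⟩, ⟨c, hc⟩⟩
    exact ⟨![-b, c, c - a], by simp only [v3_eq, v2, Matrix.cons_val]; omega⟩
  · rintro w ⟨⟨a, ha⟩, ⟨b, hb⟩, ⟨c, hc⟩⟩
    exact ⟨![-b, c, c - a], by simp only [v3_eq, v1, Matrix.cons_val]; omega⟩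
  · rintro w ⟨⟨a, ha⟩, ⟨b, hb⟩, ⟨c, hc⟩⟩
    exact ⟨![b, c, c - a], by simp only [v3_eq, v0, Matrix.cons_val]; omega⟩

theorem nb3 {n : ℕ} (h4 : n % 4 = 3) (f : V3 → ℤ) :
    ∑ w ∈ XX G3 (4 * n), f w + J(2 | n) * ∑ x ∈ XX G3 n, f (tw x)
      = ∑ x ∈ XX G3 n, f (ua3 x) + ∑ x ∈ XX G3 n, f (ub3 x) + ∑ x ∈ XX G3 n, f (uc3 x) := by
  rw [sum_tw mem_XX3 (fun x => by simp [bil_G3, tw]; ring),
    sum_map mem_XX3 mem_XX3 ua3 ?_ (fun x => by simp [bil_G3, ua3]; ring)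
      (fun w => (2 : ℤ) ∣ w 0 ∧ (2 : ℤ) ∣ w 1 ∧ (4 : ℤ) ∣ 2 * w 2 - w 0 + w 1) ?_ ?_,
    sum_map mem_XX3 mem_XX3 ub3 ?_ (fun x => by simp [bil_G3, ub3]; ring)
      (fun w => (2 : ℤ) ∣ w 0 ∧ (4 : ℤ) ∣ w 1 + w 2) ?_ ?_,
    sum_map mem_XX3 mem_XX3 uc3 ?_ (fun x => by simp [bil_G3, uc3]; ring)
      (fun w => (2 : ℤ) ∣ w 0 ∧ (4 : ℤ) ∣ w 2) ?_ ?_,
    mul_sum, ← sum_add_distrib, ← sum_add_distrib, ← sum_add_distrib]
  · refine sum_congr rfl fun w hw => ?_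
    rw [mem_XX3, bil_G3] at hw
    obtain ⟨a, ha⟩ : (2 : ℤ) ∣ w 0 := by
      apply Int.Prime.dvd_pow' (k := 2) Nat.prime_two
      refine ⟨2 * n - 7 * w 0 ^ 2 - 8 * w 1 ^ 2 - 2 * w 1 * w 2 - 2 * w 2 ^ 2, ?_⟩
      push_cast at hw ⊢
      linear_combination hw
    have e : 15 * a ^ 2 + 4 * w 1 ^ 2 + w 1 * w 2 + w 2 ^ 2 = n := by
      rw [ha] at hw
      push_cast at hw
      linarith
    have e' := congrArg (Int.cast : ℤ → ZMod 8) e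
    push_cast at e'
    rw [← mul_assoc, ← add_mul, ← add_mul, ← one_add_mul]
    congr 1
    simp only [Ev, ha, dvd_mul_right, true_and]
    simp only [dvd_two_iff, dvd_four_iff]
    push_cast
    generalize (a : ZMod 8) = a at *
    generalize (w 1 : ZMod 8) = b at *
    generalize (w 2 : ZMod 8) = c at *
    rcases jac_two h4 with ⟨h1, h2⟩ | ⟨h1, h2⟩ <;> rw [h1] at e' <;> rw [h2] <;>
      revert a b c <;> decide
  all_goals first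
    | (intro x y h; simp only [v3_eq, ua3, ub3, uc3, Matrix.cons_val] at h ⊢; omega)
    | (intro x; simp only [ua3, ub3, uc3, Matrix.cons_val]; omega)
    | skip
  · rintro w ⟨⟨a, ha⟩, ⟨c, hc⟩⟩
    exact ⟨![-a, c, w 1], by simp only [v3_eq, uc3, Matrix.cons_val, true_and]; omega⟩
  · rintro w ⟨⟨a, ha⟩, ⟨c, hc⟩⟩
    exact ⟨![-a, -c, c - w 1], by simp only [v3_eq, ub3, Matrix.cons_val]; omega⟩
  · rintro w ⟨⟨a, ha⟩, ⟨b, hb⟩, ⟨c, hc⟩⟩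
    exact ⟨![-b, a, c], by simp only [v3_eq, ua3, Matrix.cons_val]; omega⟩

end Pool.Agent.Lib.MP_696deb_nt.Tern
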