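import Pool.Agent.Lib.MP_696deb_nt.TernRR
import Pool.Agent.Lib.MP_696deb_nt.TernNb

set_option autoImplicit false

open Finset Matrix NumberTheorySymbols

namespace Pool.Agent.Lib.MP_696deb_nt.Tern

theorem bil_comm {G : M3} (hG : Ev30 G) (x y : V3) : bil G x y = bil G y x := by
  obtain ⟨A, B, C, s1, s2, r, rfl⟩ := hG.exists_form
  simp only [bil_form]
  ring

theorem bil_neg_right (G : M3) (x y : V3) : bil G x (-y) = -bil G x y := by
  simp [bil, mulVec_neg]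

theorem bil_neg_left (G : M3) (x y : V3) : bil G (-x) y = -bil G x y := by
  simp [bil]

theorem gram {G : M3} (hG : Ev30 G) (a b c : V3) :
    bil G a a * bil G b b * bil G c c + 2 * bil G a b * bil G b c * bil G a c
      - bil G a a * bil G b c ^ 2 - bil G b b * bil G a c ^ 2 - bil G c c * bil G a b ^ 2
      = (30 * (a ⬝ᵥ crossProduct b c)) ^ 2 := by
  have e : (of ![a, b, c] * G.adjugate * (of ![a, b, c])ᵀ : M3)
      = of fun i j => bil G (![a, b, c] i) (![a, b, c] j) := by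
    ext i j
    rw [mul_assoc]
    rfl
  have h := congrArg det e
  rw [det_mul, det_mul, det_transpose, det_adjugate, hG.2.2, 
    det_fin_three (of fun i j => bil G (![a, b, c] i) (![a, b, c] j))] at h
  simp only [of_apply, Matrix.cons_val] at h
  rw [bil_comm hG b a, bil_comm hG c a, bil_comm hG c b] at h
  rw [triple_product_eq_det]
  simp only [Fintype.card_fin, Nat.add_one_sub_one] at h
  change _ = (30 * (of ![a, b, c]).det) ^ 2
  linear_combination -h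

theorem hilS_norm {n : ℕ} (hn : Good n) {S : Finset ℕ} (hS : S ⊆ n.primeFactors) {u v : ℤ}
    (h : u ^ 2 + n * v ^ 2 ≠ 0) : hilS n S (u ^ 2 + n * v ^ 2) = 1 :=
  prod_eq_one fun _ hp => hil_norm hn.sqf (Nat.prime_of_mem_primeFactors (hS hp))
    (Nat.dvd_of_mem_primeFactors (hS hp)) h

/-- The relative character of two vectors of norm `4 n`. -/
def eta (n : ℕ) (S : Finset ℕ) (G : M3) (a b : V3) : ℤ := hilS n S (2 * (4 * n + bil G a b))

theorem eta_cocycle {n : ℕ} (hn : Good n) {S : Finset ℕ} (hS : S ⊆ n.primeFactors) {G : M3}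
    (hG : Ev30 G) {a b c : V3} (ha : bil G a a = 4 * n) (hb : bil G b b = 4 * n)
    (hc : bil G c c = 4 * n) (h1 : 4 * n + bil G a b ≠ 0) (h2 : 4 * n + bil G b c ≠ 0)
    (h3 : 4 * n + bil G a c ≠ 0) : eta n S G b c = eta n S G a b * eta n S G a c := by
  have hg := gram hG a b c
  rw [ha, hb, hc] at hg
  unfold eta
  generalize bil G a b = x at *
  generalize bil G b c = y at *
  generalize bil G a c = z at *
  have e : 2 * (4 * n + x) * (4 * n + y) * (4 * n + z)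
      = (30 * (a ⬝ᵥ crossProduct b c)) ^ 2 + n * (2 * (4 * n + x + y + z)) ^ 2 := by
    linear_combination hg
  have h4 := hilS_norm hn hS (u := 30 * (a ⬝ᵥ crossProduct b c)) (v := 2 * (4 * n + x + y + z))
    (by rw [← e]; exact mul_ne_zero (mul_ne_zero (mul_ne_zero two_ne_zero h1) h2) h3)
  rw [← e, ← hilS_sq_mul hn hS two_ne_zero,
    show (2 : ℤ) ^ 2 * (2 * (4 * n + x) * (4 * n + y) * (4 * n + z))
      = 2 * (4 * n + x) * (2 * (4 * n + y)) * (2 * (4 * n + z)) by ring,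
    hilS_mul' hS, hilS_mul' hS] at h4
  have h5 := hilS_sq hn hS (mul_ne_zero two_ne_zero h2)
  linear_combination (-hilS n S (2 * (4 * n + y))) * h4
    + hilS n S (2 * (4 * n + x)) * hilS n S (2 * (4 * n + z)) * h5

theorem field_aux {F : Type*} [Field F] (N α β t : F) (h0 : N ≠ 0) (h1 : N * t = α * β)
    (h2 : N * N = α * α) (h3 : N * N = β * β) :
    (N - α = 0 ∨ N + α = 0) ∧ (N - β = 0 ∨ N + β = 0) ∧ (N - t = 0 ↔ α - β = 0) ∧
      (N + t = 0 ↔ α + β = 0) := by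
  have ha : α ≠ 0 := by rintro rfl; simp [h0] at h2
  refine ⟨mul_eq_zero.1 (by linear_combination h2), mul_eq_zero.1 (by linear_combination h3),
    ⟨fun h => mul_left_cancel₀ ha (by linear_combination N * h + h1 - h2),
      fun h => mul_left_cancel₀ h0 (by linear_combination α * h - h1 + h2)⟩,
    ⟨fun h => mul_left_cancel₀ ha (by linear_combination N * h - h1 - h2),
      fun h => mul_left_cancel₀ h0 (by linear_combination α * h + h1 + h2)⟩⟩

theorem or3 {n : ℕ} {α : ℤ} (n3 : n % 3 ≠ 0)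
    (h : (3 : ℤ) ∣ 4 * n - α ∨ (3 : ℤ) ∣ 4 * n + α) :
    (3 : ℤ) ∣ 4 * n - -α ↔ ¬ (3 : ℤ) ∣ 4 * n - α := by omega

theorem or5 {n : ℕ} {α : ℤ} (n5 : n % 5 ≠ 0)
    (h : (5 : ℤ) ∣ 4 * n - α ∨ (5 : ℤ) ∣ 4 * n + α) :
    (5 : ℤ) ∣ 4 * n - -α ↔ ¬ (5 : ℤ) ∣ 4 * n - α := by omega

theorem iff3 {n : ℕ} {α β : ℤ} (_n3 : n % 3 ≠ 0)
    (h : (3 : ℤ) ∣ 4 * n - α ∨ (3 : ℤ) ∣ 4 * n + α)
    (h' : (3 : ℤ) ∣ 4 * n - β ∨ (3 : ℤ) ∣ 4 * n + β) :
    (3 : ℤ) ∣ α - β ↔ ((3 : ℤ) ∣ 4 * n - α ↔ (3 : ℤ) ∣ 4 * n - β) := by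
  rcases h with h | h <;> rcases h' with h' | h' <;> omega

theorem iff5 {n : ℕ} {α β : ℤ} (n5 : n % 5 ≠ 0)
    (h : (5 : ℤ) ∣ 4 * n - α ∨ (5 : ℤ) ∣ 4 * n + α)
    (h' : (5 : ℤ) ∣ 4 * n - β ∨ (5 : ℤ) ∣ 4 * n + β) :
    (5 : ℤ) ∣ α + β ↔ ((5 : ℤ) ∣ 4 * n - α ↔ ¬ (5 : ℤ) ∣ 4 * n - β) := by
  rcases h with h | h <;> rcases h' with h' | h' <;> omega

theorem ne3 {n : ℕ} {α : ℤ} (n3 : n % 3 ≠ 0) (h : (3 : ℤ) ∣ 4 * n - α) : 4 * n + α ≠ 0 := by
  omega

theorem ne3' {n : ℕ} {α : ℤ} (h : ¬ (3 : ℤ) ∣ 4 * n - α) : 4 * n - α ≠ 0 := by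
  omega

theorem Good.mod_ne {n : ℕ} (hn : Good n) : n % 3 ≠ 0 ∧ n % 5 ≠ 0 := by
  constructor
  · intro h0
    have := Nat.eq_one_of_dvd_coprimes hn.cop (Nat.dvd_of_mod_eq_zero h0) (by norm_num)
    omega
  · intro h0
    have := Nat.eq_one_of_dvd_coprimes hn.cop (Nat.dvd_of_mod_eq_zero h0) (by norm_num)
    omega

/-- Orientations modulo `3` and `5`. -/
theorem orient {n : ℕ} (hn : Good n) {G : M3} (hG : Ev30 G) {y a b : V3}
    (hy : bil G y y = 4 * n) (ha : bil G a a = 4 * n) (hb : bil G b b = 4 * n) :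
    (((3 : ℤ) ∣ 4 * n - bil G y a ∨ (3 : ℤ) ∣ 4 * n + bil G y a) ∧
      ((3 : ℤ) ∣ 4 * n - bil G y b ∨ (3 : ℤ) ∣ 4 * n + bil G y b) ∧
      ((3 : ℤ) ∣ 4 * n - bil G a b ↔ (3 : ℤ) ∣ bil G y a - bil G y b)) ∧
    (((5 : ℤ) ∣ 4 * n - bil G y a ∨ (5 : ℤ) ∣ 4 * n + bil G y a) ∧
      ((5 : ℤ) ∣ 4 * n - bil G y b ∨ (5 : ℤ) ∣ 4 * n + bil G y b) ∧
      ((5 : ℤ) ∣ 4 * n - bil G a b ↔ (5 : ℤ) ∣ bil G y a - bil G y b) ∧
      ((5 : ℤ) ∣ 4 * n + bil G a b ↔ (5 : ℤ) ∣ bil G y a + bil G y b)) := by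
  have e1 := binet hG a b y
  have e2 := binet hG a a y
  have e3 := binet hG b b y
  rw [hy] at e1 e2 e3
  rw [ha] at e2
  rw [hb] at e3
  obtain ⟨n3, n5⟩ := Good.mod_ne hn
  generalize bil G y a = α at *
  generalize bil G y b = β at *
  generalize bil G a b = t at *
  generalize crossProduct y a ⬝ᵥ (G *ᵥ crossProduct y b) = k1 at *
  generalize crossProduct y a ⬝ᵥ (G *ᵥ crossProduct y a) = k2 at *
  generalize crossProduct y b ⬝ᵥ (G *ᵥ crossProduct y b) = k3 at *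
  have n3' : ¬ (3 : ℤ) ∣ 4 * n := by omega
  have n5' : ¬ (5 : ℤ) ∣ 4 * n := by omega
  generalize (4 * n : ℤ) = N at *
  constructor
  · have d : ∀ z : ℤ, (3 : ℤ) ∣ z ↔ (z : ZMod 3) = 0 := fun z =>
      (ZMod.intCast_zmod_eq_zero_iff_dvd z 3).symm
    have h30 : (30 : ZMod 3) = 0 := by decide
    simp only [d] at n3' ⊢
    push_cast
    have c1 := congrArg (Int.cast : ℤ → ZMod 3) e1
    have c2 := congrArg (Int.cast : ℤ → ZMod 3) e2
    have c3 := congrArg (Int.cast : ℤ → ZMod 3) e3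
    push_cast at c1 c2 c3
    rw [h30, zero_mul, sub_eq_zero] at c1 c2 c3
    obtain ⟨h1, h2, h3, -⟩ := field_aux _ _ _ _ n3' c1 c2 c3
    exact ⟨h1, h2, h3⟩
  · have d : ∀ z : ℤ, (5 : ℤ) ∣ z ↔ (z : ZMod 5) = 0 := fun z =>
      (ZMod.intCast_zmod_eq_zero_iff_dvd z 5).symm
    have h30 : (30 : ZMod 5) = 0 := by decide
    simp only [d] at n5' ⊢
    push_cast
    have c1 := congrArg (Int.cast : ℤ → ZMod 5) e1
    have c2 := congrArg (Int.cast : ℤ → ZMod 5) e2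
    have c3 := congrArg (Int.cast : ℤ → ZMod 5) e3
    push_cast at c1 c2 c3
    rw [h30, zero_mul, sub_eq_zero] at c1 c2 c3
    have : Fact (Nat.Prime 5) := ⟨Nat.prime_five⟩
    exact field_aux _ _ _ _ n5' c1 c2 c3

/-- The character relative to `y`, restricted to one orientation class. -/
def cc (n : ℕ) (S : Finset ℕ) (G : M3) (y a : V3) (s : ℤ) : ℤ :=
  if (3 : ℤ) ∣ 4 * n - bil G y a ∧ (5 : ℤ) ∣ 4 * n - s * bil G y a then eta n S G y a else 0

/-- The weight of a pair of vectors of norm `4 n`. -/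
def ph (n : ℕ) (S : Finset ℕ) (G : M3) (a b : V3) : ℤ :=
  if (3 : ℤ) ∣ 4 * n - bil G a b ∧ (5 : ℤ) ∣ 4 * n + bil G a b then eta n S G a b else 0

theorem ph_comm {n : ℕ} {S : Finset ℕ} {G : M3} (hG : Ev30 G) (a b : V3) :
    ph n S G a b = ph n S G b a := by
  unfold ph eta
  rw [bil_comm hG]

theorem ph_eq {n : ℕ} (hn : Good n) {S : Finset ℕ} (hS : S ⊆ n.primeFactors) {G : M3}
    (hG : Ev30 G) {y a b : V3} (hy : bil G y y = 4 * n) (ha : bil G a a = 4 * n)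
    (hb : bil G b b = 4 * n) :
    ph n S G a b = cc n S G y a 1 * cc n S G y b (-1) + cc n S G y a (-1) * cc n S G y b 1
      + cc n S G y (-a) 1 * cc n S G y (-b) (-1) + cc n S G y (-a) (-1) * cc n S G y (-b) 1 := by
  obtain ⟨⟨o1, o2, o3⟩, o4, o5, -, o7⟩ := orient hn hG hy ha hb
  obtain ⟨n3, n5⟩ := Good.mod_ne hn
  have c1 : 4 * n + bil G y a ≠ 0 → 4 * n + bil G a b ≠ 0 → 4 * n + bil G y b ≠ 0 →
      eta n S G a b = eta n S G y a * eta n S G y b := eta_cocycle hn hS hG hy ha hb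
  have c2 : 4 * n - bil G y a ≠ 0 → 4 * n + bil G a b ≠ 0 → 4 * n - bil G y b ≠ 0 →
      eta n S G a b = eta n S G y (-a) * eta n S G y (-b) := by
    have := eta_cocycle hn hS hG hy (b := -a) (c := -b)
      (by rw [bil_neg_left, bil_neg_right, neg_neg, ha])
      (by rw [bil_neg_left, bil_neg_right, neg_neg, hb])
    have e : eta n S G (-a) (-b) = eta n S G a b := by
      unfold eta; rw [bil_neg_left, bil_neg_right, neg_neg]
    rw [e, bil_neg_right, bil_neg_right, bil_neg_left, bil_neg_right, neg_neg] at this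
    intro h1 h2 h3
    exact this (by omega) h2 (by omega)
  unfold ph cc
  simp only [bil_neg_right]
  generalize eta n S G a b = E at *
  generalize eta n S G y a = E1 at *
  generalize eta n S G y b = E2 at *
  generalize eta n S G y (-a) = E3 at *
  generalize eta n S G y (-b) = E4 at *
  generalize bil G y a = α at *
  generalize bil G y b = β at *
  generalize bil G a b = t at *
  have i1 := or3 n3 o1
  have i2 := or3 n3 o2
  have i3 := or5 n5 o4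
  have i4 := or5 n5 o5
  have i5 := o3.trans (iff3 n3 o1 o2)
  have i6 := o7.trans (iff5 n5 o4 o5)
  have d1 : (3 : ℤ) ∣ 4 * n - α → (3 : ℤ) ∣ 4 * n - β → E = E1 * E2 := fun h1 h2 =>
    c1 (ne3 n3 h1) (ne3 n3 (i5.2 (iff_of_true h1 h2))) (ne3 n3 h2)
  have d2 : ¬ (3 : ℤ) ∣ 4 * n - α → ¬ (3 : ℤ) ∣ 4 * n - β → E = E3 * E4 := fun h1 h2 =>
    c2 (ne3' h1) (ne3 n3 (i5.2 (iff_of_false h1 h2))) (ne3' h2)
  simp only [one_mul, neg_mul, neg_neg, i1, i2, i3, i4, i5, i6]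
  by_cases hp : (3 : ℤ) ∣ 4 * n - α <;> by_cases hq : (3 : ℤ) ∣ 4 * n - β <;>
    by_cases hr : (5 : ℤ) ∣ 4 * n - α <;> by_cases hs : (5 : ℤ) ∣ 4 * n - β <;>
    simp [hp, hq, hr, hs, d1, d2]

theorem cc_move {n : ℕ} (hn : Good n) {S : Finset ℕ} (hS : S ⊆ n.primeFactors) {G : M3}
    (hG : Ev30 G) {y a b : V3} (hy : bil G y y = 4 * n) (ha : bil G a a = 4 * n)
    (hb : bil G b b = 4 * n) {δ s : ℤ} (hδ : δ = 1 ∨ δ = -1) (hs : s = 1 ∨ s = -1)
    (h3 : (3 : ℤ) ∣ 4 * n - bil G a b) (h5 : (5 : ℤ) ∣ 4 * n - δ * bil G a b) :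
    cc n S G y b (δ * s) = eta n S G a b * cc n S G y a s := by
  obtain ⟨⟨o1, o2, o3⟩, o4, o5, o6, o7⟩ := orient hn hG hy ha hb
  obtain ⟨n3, n5⟩ := Good.mod_ne hn
  have c1 := eta_cocycle hn hS hG ha hy hb
  have e : eta n S G a y = eta n S G y a := by unfold eta; rw [bil_comm hG]
  rw [e, bil_comm hG a y] at c1
  unfold cc
  generalize eta n S G a b = E at *
  generalize eta n S G y a = E1 at *
  generalize eta n S G y b = E2 at *
  generalize bil G y a = α at *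
  generalize bil G y b = β at *
  generalize bil G a b = t at *
  have i1 : (3 : ℤ) ∣ 4 * n - β ↔ (3 : ℤ) ∣ 4 * n - α := ((iff3 n3 o1 o2).1 (o3.1 h3)).symm
  have i2 : (5 : ℤ) ∣ 4 * n - δ * s * β ↔ (5 : ℤ) ∣ 4 * n - s * α := by
    rcases hδ with rfl | rfl
    · have := o6.1 (by simpa using h5)
      clear * - this hs
      rcases hs with rfl | rfl <;> omega
    · have := o7.1 (by simpa using h5)
      clear * - this hs
      rcases hs with rfl | rfl <;> omega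
  simp only [i1, i2]
  split_ifs with h
  · rw [c1 (ne3 n3 h.1) (ne3 n3 (i1.2 h.1)) (ne3 n3 h3), mul_comm]
  · simp

theorem cc_total {n : ℕ} (hn : Good n) {G : M3} (hG : Ev30 G) {y a : V3}
    (hy : bil G y y = 4 * n) (ha : bil G a a = 4 * n) :
    cc n ∅ G y a 1 + cc n ∅ G y a (-1) + cc n ∅ G y (-a) 1 + cc n ∅ G y (-a) (-1) = 1 := by
  obtain ⟨⟨o1, -, -⟩, o4, -⟩ := orient hn hG hy ha ha
  obtain ⟨n3, n5⟩ := Good.mod_ne hn
  unfold cc eta hilS
  simp only [bil_neg_right, prod_empty]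
  generalize bil G y a = α at *
  have i1 := or3 n3 o1
  have i3 := or5 n5 o4
  simp only [one_mul, neg_mul, neg_neg, i1, i3]
  by_cases hp : (3 : ℤ) ∣ 4 * n - α <;> by_cases hr : (5 : ℤ) ∣ 4 * n - α <;> simp [hp, hr]

/-- A symmetric family of vectors of norm `4 n`. -/
structure Fam (n : ℕ) (G : M3) (y : V3) (X : Finset V3) (u : V3 → V3) : Prop where
  neg : ∀ x ∈ X, -x ∈ X
  odd : ∀ x, u (-x) = -u x
  norm : ∀ x ∈ X, bil G (u x) (u x) = 4 * n
  base : ∀ x ∈ X, bil G y y = 4 * n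

/-- Character sum over one orientation class of a family. -/
def PP (n : ℕ) (S : Finset ℕ) (G : M3) (y : V3) (X : Finset V3) (u : V3 → V3) (s : ℤ) : ℤ :=
  ∑ x ∈ X, cc n S G y (u x) s

theorem sum_reindex {X : Finset V3} (g g' : V3 → V3) (hg : ∀ x ∈ X, g x ∈ X)
    (hg' : ∀ x ∈ X, g' x ∈ X) (h1 : ∀ x, g' (g x) = x) (h2 : ∀ x, g (g' x) = x) (f : V3 → ℤ) :
    ∑ x ∈ X, f (g x) = ∑ x ∈ X, f x :=
  sum_nbij' g g' hg hg' (fun x _ => h1 x) (fun x _ => h2 x) fun _ _ => rfl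

theorem Fam.sum_neg {n : ℕ} {G : M3} {y : V3} {X : Finset V3} {u : V3 → V3}
    (h : Fam n G y X u) (S : Finset ℕ) (s : ℤ) :
    ∑ x ∈ X, cc n S G y (-u x) s = PP n S G y X u s := by
  simp only [← h.odd]
  exact sum_reindex Neg.neg Neg.neg h.neg h.neg neg_neg neg_neg fun x => cc n S G y (u x) s

theorem sum_ph {n : ℕ} (hn : Good n) {S : Finset ℕ} (hS : S ⊆ n.primeFactors) {G : M3}
    (hG : Ev30 G) {y : V3} {X X' : Finset V3} {u u' : V3 → V3} (h : Fam n G y X u)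
    (h' : Fam n G y X' u') :
    ∑ x ∈ X, ∑ w ∈ X', ph n S G (u x) (u' w) = 2 * (PP n S G y X u 1 * PP n S G y X' u' (-1)
      + PP n S G y X u (-1) * PP n S G y X' u' 1) := by
  rw [sum_congr rfl fun x hx => sum_congr rfl fun w hw =>
    ph_eq hn hS hG (h.base x hx) (h.norm x hx) (h'.norm w hw)]
  simp only [sum_add_distrib, ← sum_mul_sum, h.sum_neg, h'.sum_neg]
  unfold PP
  ring

theorem Fam.card {n : ℕ} (hn : Good n) {G : M3} (hG : Ev30 G) {y : V3} {X : Finset V3}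
    {u : V3 → V3} (h : Fam n G y X u) :
    (X.card : ℤ) = 2 * (PP n ∅ G y X u 1 + PP n ∅ G y X u (-1)) := by
  rw [card_eq_sum_ones]
  push_cast
  rw [sum_congr rfl fun x hx => (cc_total hn hG (h.base x hx) (h.norm x hx)).symm]
  simp only [sum_add_distrib, h.sum_neg]
  unfold PP
  ring

theorem PP_move {n : ℕ} (hn : Good n) {S : Finset ℕ} (hS : S ⊆ n.primeFactors) {G : M3}
    (hG : Ev30 G) {y : V3} {X : Finset V3} {u u' : V3 → V3} (h : Fam n G y X u)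
    (h' : ∀ x ∈ X, bil G (u' x) (u' x) = 4 * n) {δ s E : ℤ} (hδ : δ = 1 ∨ δ = -1)
    (hs : s = 1 ∨ s = -1) (h3 : ∀ x ∈ X, (3 : ℤ) ∣ 4 * n - bil G (u x) (u' x))
    (h5 : ∀ x ∈ X, (5 : ℤ) ∣ 4 * n - δ * bil G (u x) (u' x))
    (hE : ∀ x ∈ X, eta n S G (u x) (u' x) = E) :
    PP n S G y X u' (δ * s) = E * PP n S G y X u s := by
  unfold PP
  rw [mul_sum]
  refine sum_congr rfl fun x hx => ?_
  rw [cc_move hn hS hG (h.base x hx) (h.norm x hx) (h' x hx) hδ hs (h3 x hx) (h5 x hx), hE x hx]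

theorem eta_of_sq {n : ℕ} (hn : Good n) {S : Finset ℕ} (hS : S ⊆ n.primeFactors) {G : M3}
    {a b : V3} (h3 : (3 : ℤ) ∣ 4 * n - bil G a b) {c l : ℤ}
    (h : 2 * (4 * n + bil G a b) = l ^ 2 * c) : eta n S G a b = hilS n S c := by
  obtain ⟨n3, -⟩ := Good.mod_ne hn
  have hl : l ≠ 0 := by
    rintro rfl
    simp only [ne_eq, OfNat.ofNat_ne_zero, not_false_eq_true, zero_pow, zero_mul] at h
    omega
  rw [eta, h, hilS_sq_mul hn hS hl]

theorem FF_two {n : ℕ} {S : Finset ℕ} {G : M3} {a b : V3} {t : ℤ} (h : bil G a b = 2 * t) :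
    FF n 2 S t = ph n S G a b := by
  unfold FF ph eta
  rw [h]
  push_cast
  refine if_congr (by omega) ?_ rfl
  congr 1
  ring

theorem FF_one {n : ℕ} (hn : Good n) {S : Finset ℕ} (hS : S ⊆ n.primeFactors) (t : ℤ) :
    FF n 1 S t = FF n 2 S (2 * t) := by
  unfold FF
  push_cast
  refine if_congr (by omega) ?_ rfl
  rw [← hilS_sq_mul hn hS two_ne_zero]
  congr 1
  ring

end Pool.Agent.Lib.MP_696deb_nt.Tern
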