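import Pool.Agent.Lib.MP_696deb_nt.Descent

set_option autoImplicit false

namespace Pool.Agent.Lib.MP_696deb_nt

theorem int_sq_mul_squarefree (u : ℤ) :
    ∃ d s : ℤ, u = d * s ^ 2 ∧ Squarefree d := by
  obtain ⟨a, b, hab, ha⟩ := Nat.sq_mul_squarefree u.natAbs
  rcases Int.natAbs_eq u with h | h
  · refine ⟨a, b, ?_, Int.squarefree_natCast.mpr ha⟩
    rw [h, ← hab]; push_cast; ring
  · refine ⟨-a, b, ?_, ?_⟩
    · rw [h, ← hab]; push_cast; ring
    · rw [← Int.squarefree_natAbs]; simpa using ha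

/-- From a rational point of `y^2 = x (x - A) (x - B)` to an integral point of a torsor. -/
theorem exists_torsor {A B : ℤ} {x y : ℚ} (hy : y ≠ 0) (h : y ^ 2 = x * (x - A) * (x - B)) :
    ∃ d s w t : ℤ, Squarefree d ∧ s ≠ 0 ∧ w ≠ 0 ∧ IsCoprime (d * s) w ∧
      x * w ^ 2 = d * s ^ 2 ∧
      d * t ^ 2 = (d * s ^ 2 - A * w ^ 2) * (d * s ^ 2 - B * w ^ 2) := by
  have hx : x ≠ 0 := by
    rintro rfl
    apply hy
    apply pow_eq_zero_iff two_ne_zero |>.mp
    rw [h]; ring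
  set a : ℤ := x.num with ha
  set b : ℤ := (x.den : ℤ) with hb
  set c : ℤ := y.num with hc
  set e : ℤ := (y.den : ℤ) with he
  have hb0 : 0 < b := by rw [hb]; exact_mod_cast x.den_pos
  have he0 : 0 < e := by rw [he]; exact_mod_cast y.den_pos
  have hxa : x * b = a := by rw [ha, hb]; push_cast; exact Rat.mul_den_eq_num x
  have hyc : y * e = c := by rw [hc, he]; push_cast; exact Rat.mul_den_eq_num y
  have hab : IsCoprime a b := by
    rw [Int.isCoprime_iff_gcd_eq_one, ha, hb]; exact x.reduced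
  have hce : IsCoprime c e := by
    rw [Int.isCoprime_iff_gcd_eq_one, hc, he]; exact y.reduced
  have key : c ^ 2 * b ^ 3 = e ^ 2 * (a * (a - A * b) * (a - B * b)) := by
    have : (c : ℚ) ^ 2 * b ^ 3 = e ^ 2 * (a * (a - A * b) * (a - B * b)) := by
      rw [← hxa, ← hyc]
      linear_combination (e : ℚ) ^ 2 * b ^ 3 * h
    exact_mod_cast this
  have hMb : IsCoprime (a * (a - A * b) * (a - B * b)) b := by
    refine (hab.mul_left ?_).mul_left ?_
    · have := hab.add_mul_right_left (-A); rwa [neg_mul, ← sub_eq_add_neg] at this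
    · have := hab.add_mul_right_left (-B); rwa [neg_mul, ← sub_eq_add_neg] at this
  have d1 : b ^ 3 ∣ e ^ 2 := by
    have : b ^ 3 ∣ e ^ 2 * (a * (a - A * b) * (a - B * b)) := ⟨c ^ 2, by rw [← key]; ring⟩
    exact (hMb.symm.pow_left).dvd_of_dvd_mul_right this
  have d2 : e ^ 2 ∣ b ^ 3 := by
    have : e ^ 2 ∣ c ^ 2 * b ^ 3 := ⟨_, key⟩
    exact (hce.symm.pow).dvd_of_dvd_mul_left this
  have hbe : b ^ 3 = e ^ 2 := Int.dvd_antisymm (by positivity) (by positivity) d1 d2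
  have d3 : b ∣ e := by
    rw [← Int.pow_dvd_pow_iff two_ne_zero, ← hbe]; exact pow_dvd_pow b (by norm_num)
  obtain ⟨w, hw⟩ := d3
  have hbw : b = w ^ 2 := by
    apply mul_left_cancel₀ (pow_ne_zero 2 hb0.ne')
    rw [hw] at hbe
    linear_combination hbe
  have hw0 : w ≠ 0 := by rintro rfl; simp at hbw; omega
  have ha0 : a ≠ 0 := by rw [ha]; exact Rat.num_ne_zero.mpr hx
  have key2 : c ^ 2 = a * (a - A * b) * (a - B * b) := by
    apply mul_left_cancel₀ (pow_ne_zero 2 he0.ne')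
    rw [← key, hbe]; ring
  obtain ⟨d, s, hds, hd⟩ := int_sq_mul_squarefree a
  have hs0 : s ≠ 0 := by rintro rfl; simp at hds; exact ha0 hds
  have d4 : s ∣ c := by
    rw [← Int.pow_dvd_pow_iff two_ne_zero, key2, hds]
    exact ⟨d * (d * s ^ 2 - A * b) * (d * s ^ 2 - B * b), by ring⟩
  obtain ⟨c', hc'⟩ := d4
  have key3 : c' ^ 2 = d * ((d * s ^ 2 - A * b) * (d * s ^ 2 - B * b)) := by
    apply mul_left_cancel₀ (pow_ne_zero 2 hs0)
    rw [hc', hds] at key2
    linear_combination key2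
  have d5 : d ∣ c' := (hd.dvd_pow_iff_dvd two_ne_zero).mp ⟨_, key3⟩
  obtain ⟨t, ht⟩ := d5
  refine ⟨d, s, w, t, hd, hs0, hw0, ?_, ?_, ?_⟩
  · rw [hds, hbw] at hab
    have h1 : IsCoprime (d * s ^ 2) w := IsCoprime.of_isCoprime_of_dvd_right hab (dvd_pow_self w two_ne_zero)
    have h2 : IsCoprime d w := h1.of_mul_left_left
    have h3 : IsCoprime s w := IsCoprime.of_isCoprime_of_dvd_left h1.of_mul_left_right
      (dvd_pow_self s two_ne_zero)
    exact h2.mul_left h3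
  · have : ((b : ℤ) : ℚ) = (w : ℚ) ^ 2 := by rw [hbw]; push_cast; ring
    rw [← this, hxa, hds]; push_cast; ring
  · apply mul_left_cancel₀ hd.ne_zero
    rw [← hbw, ← key3, ht]; ring

section LocalConditions

variable {p : ℕ} [hp : Fact p.Prime] {d s w t n a b : ℤ}

theorem not_dvd_of_coprime (hc : IsCoprime (d * s) w) (h : (p : ℤ) ∣ d * s) : (w : ZMod p) ≠ 0 := by
  intro hw
  rw [ZMod.intCast_zmod_eq_zero_iff_dvd] at hw
  have := hc.isUnit_of_dvd' h hw
  exact (Nat.prime_iff_prime_int.mp hp.out).not_isUnit this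

theorem pne : (p : ℤ) ≠ 0 := by exact_mod_cast hp.out.ne_zero

/-- At a prime `p` dividing `n` but not `d`, the class `d` is a square. -/
theorem local_unit {c : ℤ} (hn : Squarefree n) (hpn : (p : ℤ) ∣ n) (hpd : ¬ (p : ℤ) ∣ d)
    (hab : a * b = c ^ 2) (hc0 : (c : ZMod p) ≠ 0) (hc : IsCoprime (d * s) w)
    (h : d * t ^ 2 = (d * s ^ 2 - a * n * w ^ 2) * (d * s ^ 2 - b * n * w ^ 2)) :
    IsSquare (d : ZMod p) := by
  have hd0 : (d : ZMod p) ≠ 0 := by rwa [Ne, ZMod.intCast_zmod_eq_zero_iff_dvd]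
  obtain ⟨n0, rfl⟩ := hpn
  have hn0 : (n0 : ZMod p) ≠ 0 := by
    rw [Ne, ZMod.intCast_zmod_eq_zero_iff_dvd]
    rintro ⟨m, rfl⟩
    exact (Nat.prime_iff_prime_int.mp hp.out).not_isUnit (hn p ⟨m, by ring⟩)
  by_cases hs : (p : ℤ) ∣ s
  · have hw := not_dvd_of_coprime hc (hs.mul_left d)
    obtain ⟨s', rfl⟩ := hs
    have h1 : (p : ℤ) ∣ t := by
      have : (p : ℤ) ∣ d * t ^ 2 :=
        ⟨p * ((d * p * s' ^ 2 - a * n0 * w ^ 2) * (d * p * s' ^ 2 - b * n0 * w ^ 2)), by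
          rw [h]; ring⟩
      rcases (Nat.prime_iff_prime_int.mp hp.out).dvd_or_dvd this with h' | h'
      · exact absurd h' hpd
      · exact (Nat.prime_iff_prime_int.mp hp.out).dvd_of_dvd_pow h'
    obtain ⟨t', rfl⟩ := h1
    have h2 : d * t' ^ 2 = (d * p * s' ^ 2 - a * n0 * w ^ 2) * (d * p * s' ^ 2 - b * n0 * w ^ 2) := by
      apply mul_left_cancel₀ (pow_ne_zero 2 (pne (p := p)))
      linear_combination h
    have h3 : (d : ZMod p) * t' ^ 2 = (c * n0 * w ^ 2) ^ 2 := by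
      have := congrArg (Int.cast : ℤ → ZMod p) h2
      have hab' := congrArg (Int.cast : ℤ → ZMod p) hab
      push_cast at this hab'
      rw [ZMod.natCast_self] at this
      linear_combination this + (n0 * w ^ 2) ^ 2 * hab'
    have ht' : (t' : ZMod p) ≠ 0 := by
      intro h0
      rw [h0] at h3
      exact pow_ne_zero 2 (mul_ne_zero (mul_ne_zero hc0 hn0) (pow_ne_zero 2 hw)) (by
        rw [← h3]; ring)
    refine ⟨c * n0 * w ^ 2 / t', ?_⟩
    field_simp
    linear_combination h3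
  · have hs0 : (s : ZMod p) ≠ 0 := by rwa [Ne, ZMod.intCast_zmod_eq_zero_iff_dvd]
    have := congrArg (Int.cast : ℤ → ZMod p) h
    push_cast at this
    rw [ZMod.natCast_self] at this
    refine ⟨t / s ^ 2, ?_⟩
    field_simp
    apply mul_left_cancel₀ hd0
    linear_combination -this

/-- At a prime `p` dividing `d` and `n`, the complementary class `d'` is a square. -/
theorem local_ram {α β ε d' : ℤ} (hd : Squarefree d) (hn : Squarefree n) (hpd : (p : ℤ) ∣ d)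
    (hdd : d * d' = ε * n) (hε : ε * ε = 1) (ha : a = ε * α ^ 2) (hb : b = ε * β ^ 2)
    (hα : (α : ZMod p) ≠ 0) (hβ : (β : ZMod p) ≠ 0) (hc : IsCoprime (d * s) w)
    (h : d * t ^ 2 = (d * s ^ 2 - a * n * w ^ 2) * (d * s ^ 2 - b * n * w ^ 2)) :
    IsSquare (d' : ZMod p) := by
  have hP := Nat.prime_iff_prime_int.mp hp.out
  have hw := not_dvd_of_coprime hc (hpd.mul_right s)
  obtain ⟨d0, rfl⟩ := hpd
  have hd0 : ¬ (p : ℤ) ∣ d0 := by
    rintro ⟨m, rfl⟩
    exact hP.not_isUnit (hd p ⟨m, by ring⟩)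
  have hd0' : (d0 : ZMod p) ≠ 0 := by rwa [Ne, ZMod.intCast_zmod_eq_zero_iff_dvd]
  have hnn : n = p * (ε * d0 * d') := by linear_combination (-ε) * hdd - n * hε
  have hd' : (d' : ZMod p) ≠ 0 := by
    rw [Ne, ZMod.intCast_zmod_eq_zero_iff_dvd]
    rintro ⟨m, rfl⟩
    exact hP.not_isUnit (hn p ⟨ε * d0 * m, by rw [hnn]; ring⟩)
  have h1 : t ^ 2 = p * d0 * ((s ^ 2 - α ^ 2 * d' * w ^ 2) * (s ^ 2 - β ^ 2 * d' * w ^ 2)) := by
    apply mul_left_cancel₀ hd.ne_zero
    have e1 : a * n = p * d0 * (α ^ 2 * d') := by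
      rw [ha, hnn]; linear_combination (p * d0 * α ^ 2 * d') * hε
    have e2 : b * n = p * d0 * (β ^ 2 * d') := by
      rw [hb, hnn]; linear_combination (p * d0 * β ^ 2 * d') * hε
    rw [h, e1, e2]; ring
  have h2 : (p : ℤ) ∣ t := hP.dvd_of_dvd_pow ⟨_, by rw [h1, mul_assoc]⟩
  obtain ⟨t', rfl⟩ := h2
  have h3 : p * t' ^ 2 = d0 * ((s ^ 2 - α ^ 2 * d' * w ^ 2) * (s ^ 2 - β ^ 2 * d' * w ^ 2)) := by
    apply mul_left_cancel₀ (pne (p := p))
    linear_combination h1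
  have h4 := congrArg (Int.cast : ℤ → ZMod p) h3
  push_cast at h4
  rw [ZMod.natCast_self, zero_mul] at h4
  rcases mul_eq_zero.mp ((mul_eq_zero.mp h4.symm).resolve_left hd0') with h5 | h5
  · refine ⟨s / (α * w), ?_⟩
    field_simp
    linear_combination -h5
  · refine ⟨s / (β * w), ?_⟩
    field_simp
    linear_combination -h5

/-- A prime dividing `d` divides `a b n`. -/
theorem local_support (hpd : (p : ℤ) ∣ d) (hc : IsCoprime (d * s) w)
    (h : d * t ^ 2 = (d * s ^ 2 - a * n * w ^ 2) * (d * s ^ 2 - b * n * w ^ 2)) :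
    (p : ℤ) ∣ n ∨ (p : ℤ) ∣ a ∨ (p : ℤ) ∣ b := by
  have hw := not_dvd_of_coprime hc (hpd.mul_right s)
  have h4 := congrArg (Int.cast : ℤ → ZMod p) h
  push_cast at h4
  rw [(ZMod.intCast_zmod_eq_zero_iff_dvd d p).mpr hpd] at h4
  have h5 : (n : ZMod p) ^ 2 * (a * b) * (w ^ 2) ^ 2 = 0 := by linear_combination -h4
  simp only [← ZMod.intCast_zmod_eq_zero_iff_dvd]
  simpa [hw] using h5

/-- A prime of non-split multiplicative reduction of type `I_4` does not divide `d`. -/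
theorem local_nonsplit {a' : ℤ} (hd : Squarefree d) (ha : a = p ^ 2 * a')
    (ha' : (a' : ZMod p) ≠ 0) (hns : ¬ IsSquare ((-b * n : ℤ) : ZMod p))
    (hc : IsCoprime (d * s) w)
    (h : d * t ^ 2 = (d * s ^ 2 - a * n * w ^ 2) * (d * s ^ 2 - b * n * w ^ 2)) :
    ¬ (p : ℤ) ∣ d := by
  intro hpd
  have hP := Nat.prime_iff_prime_int.mp hp.out
  have hw := not_dvd_of_coprime hc (hpd.mul_right s)
  obtain ⟨d0, rfl⟩ := hpd
  have hd0 : ¬ (p : ℤ) ∣ d0 := by
    rintro ⟨m, rfl⟩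
    exact hP.not_isUnit (hd p ⟨m, by ring⟩)
  have hd0' : (d0 : ZMod p) ≠ 0 := by rwa [Ne, ZMod.intCast_zmod_eq_zero_iff_dvd]
  have hbn : (b : ZMod p) * n ≠ 0 := by
    intro h0; apply hns; push_cast; rw [neg_mul, h0]; simp
  have h1 : d0 * t ^ 2 = (d0 * s ^ 2 - p * a' * n * w ^ 2) * (p * d0 * s ^ 2 - b * n * w ^ 2) := by
    apply mul_left_cancel₀ (pne (p := p))
    rw [ha] at h
    linear_combination h
  have h2 := congrArg (Int.cast : ℤ → ZMod p) h1
  push_cast at h2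
  rw [ZMod.natCast_self] at h2
  by_cases hs : (p : ℤ) ∣ s
  · obtain ⟨s', rfl⟩ := hs
    push_cast at h2
    rw [ZMod.natCast_self] at h2
    have ht : (t : ZMod p) = 0 := by
      have : (d0 : ZMod p) * t ^ 2 = 0 := by linear_combination h2
      simpa [hd0'] using this
    obtain ⟨t', rfl⟩ := (ZMod.intCast_zmod_eq_zero_iff_dvd t p).mp ht
    have h3 : p * (d0 * t' ^ 2) =
        (p * d0 * s' ^ 2 - a' * n * w ^ 2) * (p * d0 * (p * s') ^ 2 - b * n * w ^ 2) := by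
      apply mul_left_cancel₀ (pne (p := p))
      linear_combination h1
    have h4 := congrArg (Int.cast : ℤ → ZMod p) h3
    push_cast at h4
    rw [ZMod.natCast_self] at h4
    have hn0 : (n : ZMod p) ≠ 0 := right_ne_zero_of_mul hbn
    have : (a' : ZMod p) * n * w ^ 2 * (b * n * w ^ 2) = 0 := by linear_combination -h4
    exact mul_ne_zero (mul_ne_zero (mul_ne_zero ha' hn0) (pow_ne_zero 2 hw))
      (mul_ne_zero hbn (pow_ne_zero 2 hw)) this
  · have hs0 : (s : ZMod p) ≠ 0 := by rwa [Ne, ZMod.intCast_zmod_eq_zero_iff_dvd]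
    apply hns
    refine ⟨t / (s * w), ?_⟩
    push_cast
    field_simp
    apply mul_left_cancel₀ hd0'
    linear_combination -h2

end LocalConditions

theorem sq_emod_four (z : ℤ) : (z % 2 = 0 ∧ ∃ k, z ^ 2 = 4 * k) ∨ (z % 2 = 1 ∧ ∃ k, z ^ 2 = 8 * k + 1) := by
  rcases Int.emod_two_eq_zero_or_one z with h | h
  · left
    refine ⟨h, (z / 2) ^ 2, ?_⟩
    have : z = 2 * (z / 2) := by omega
    conv_lhs => rw [this]
    ring
  · right
    refine ⟨h, ?_⟩
    obtain ⟨m, hm⟩ : ∃ m, z = 2 * m + 1 := ⟨z / 2, by omega⟩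
    obtain ⟨k, hk⟩ := Int.even_mul_succ_self m
    exact ⟨k, by rw [hm]; linear_combination 4 * hk⟩

/-- Condition at 2 for the first coordinate. -/
theorem local_two_first {d s w t n : ℤ} (hn : n % 4 = 3) (hd : d % 2 = 1)
    (hc : IsCoprime (d * s) w)
    (h : d * t ^ 2 = (d * s ^ 2 - (-9) * n * w ^ 2) * (d * s ^ 2 - (-25) * n * w ^ 2)) :
    d % 4 = 1 := by
  by_contra hne
  obtain ⟨e, rfl⟩ : ∃ e, d = 4 * e + 3 := ⟨d / 4, by omega⟩
  obtain ⟨m, rfl⟩ : ∃ m, n = 4 * m + 3 := ⟨n / 4, by omega⟩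
  have hsw : ¬ (s % 2 = 0 ∧ w % 2 = 0) := by
    rintro ⟨h1, h2⟩
    have := hc.isUnit_of_dvd' (x := 2) (Dvd.dvd.mul_left (by omega) _) (by omega)
    rw [Int.isUnit_iff] at this; omega
  rcases sq_emod_four s with ⟨hs, S, hS⟩ | ⟨hs, S, hS⟩ <;>
  rcases sq_emod_four w with ⟨hw, W, hW⟩ | ⟨hw, W, hW⟩
  · exact hsw ⟨hs, hw⟩
  · rw [hS, hW] at h
    rcases sq_emod_four t with ⟨_, T, hT⟩ | ⟨_, T, hT⟩ <;> rw [hT] at h <;>
    · have := congrArg (Int.cast : ℤ → ZMod 4) h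
      push_cast at this
      generalize (e : ZMod 4) = e, (m : ZMod 4) = m, (S : ZMod 4) = S, (W : ZMod 4) = W,
        (T : ZMod 4) = T at this
      revert e m S W T
      decide +kernel
  · rw [hS, hW] at h
    rcases sq_emod_four t with ⟨_, T, hT⟩ | ⟨_, T, hT⟩ <;> rw [hT] at h <;>
    · have := congrArg (Int.cast : ℤ → ZMod 4) h
      push_cast at this
      generalize (e : ZMod 4) = e, (m : ZMod 4) = m, (S : ZMod 4) = S, (W : ZMod 4) = W,
        (T : ZMod 4) = T at this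
      revert e m S W T
      decide +kernel
  · rw [hS, hW] at h
    set M : ℤ := (2 * e + 1) * (8 * S + 1) + 4 * S + 9 * (2 * m + 1) * (8 * W + 1) + 36 * W + 5
      with hM
    have h1 : (4 * e + 3) * t ^ 2 = 4 * (M * (M + 8 * ((4 * m + 3) * (8 * W + 1)))) := by
      rw [h, hM]; ring
    have hMo : M % 2 = 1 := by
      have : M = 2 * (e * (8 * S + 1) + 4 * S + 2 * S + 9 * m * (8 * W + 1) + 36 * W + 18 * W + 7)
        + 1 := by rw [hM]; ring
      omega
    clear_value M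
    obtain ⟨M', rfl⟩ : ∃ M', M = 2 * M' + 1 := ⟨M / 2, by omega⟩
    rcases sq_emod_four t with ⟨ht, -⟩ | ⟨_, T, hT⟩
    · obtain ⟨t', rfl⟩ : ∃ t', t = 2 * t' := ⟨t / 2, by omega⟩
      have h2 : (4 * e + 3) * t' ^ 2 =
          (2 * M' + 1) * (2 * M' + 1 + 8 * ((4 * m + 3) * (8 * W + 1))) := by
        apply mul_left_cancel₀ (show (4 : ℤ) ≠ 0 by norm_num)
        linear_combination h1
      rcases sq_emod_four t' with ⟨_, T, hT⟩ | ⟨_, T, hT⟩ <;> rw [hT] at h2 <;>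
      · have := congrArg (Int.cast : ℤ → ZMod 4) h2
        push_cast at this
        generalize (e : ZMod 4) = e, (m : ZMod 4) = m, (M' : ZMod 4) = S, (W : ZMod 4) = W,
          (T : ZMod 4) = T at this
        revert e m S W T
        decide +kernel
    · rw [hT] at h1
      have := congrArg (Int.cast : ℤ → ZMod 2) h1
      push_cast at this
      generalize (e : ZMod 2) = e, (m : ZMod 2) = m, (M' : ZMod 2) = S, (W : ZMod 2) = W,
        (T : ZMod 2) = T at this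
      revert e m S W T
      decide +kernel

/-- Condition at 2 for the third coordinate. -/
theorem local_two_third {d s w t n : ℤ} (hn : n % 4 = 3) (hd : Squarefree d)
    (hc : IsCoprime (d * s) w)
    (h : d * t ^ 2 = (d * s ^ 2 - 25 * n * w ^ 2) * (d * s ^ 2 - 16 * n * w ^ 2)) :
    ¬ (2 : ℤ) ∣ d := by
  rintro ⟨d0, rfl⟩
  have hd0 : d0 % 2 = 1 := by
    by_contra h0
    obtain ⟨m, rfl⟩ : ∃ m, d0 = 2 * m := ⟨d0 / 2, by omega⟩
    have := hd 2 ⟨m, by ring⟩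
    rw [Int.isUnit_iff] at this; omega
  obtain ⟨e, rfl⟩ : ∃ e, d0 = 2 * e + 1 := ⟨d0 / 2, by omega⟩
  obtain ⟨m, rfl⟩ : ∃ m, n = 4 * m + 3 := ⟨n / 4, by omega⟩
  have hw2 : ¬ (w % 2 = 0) := by
    intro h2
    have := hc.isUnit_of_dvd' (x := 2) ⟨(2 * e + 1) * s, by ring⟩ (by omega)
    rw [Int.isUnit_iff] at this; omega
  rcases sq_emod_four w with ⟨hw, W, hW⟩ | ⟨hw, W, hW⟩
  · exact hw2 hw
  have h1 : (2 * e + 1) * t ^ 2 = (2 * (2 * e + 1) * s ^ 2 - 25 * (4 * m + 3) * (8 * W + 1)) *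
      ((2 * e + 1) * s ^ 2 - 8 * (4 * m + 3) * (8 * W + 1)) := by
    apply mul_left_cancel₀ (show (2 : ℤ) ≠ 0 by norm_num)
    rw [hW] at h
    linear_combination h
  rcases sq_emod_four s with ⟨hs, -⟩ | ⟨hs, S, hS⟩
  · obtain ⟨s', rfl⟩ : ∃ s', s = 2 * s' := ⟨s / 2, by omega⟩
    rcases sq_emod_four t with ⟨ht, -⟩ | ⟨_, T, hT⟩
    · obtain ⟨t', rfl⟩ : ∃ t', t = 2 * t' := ⟨t / 2, by omega⟩
      have h2 : (2 * e + 1) * t' ^ 2 =
          (8 * (2 * e + 1) * s' ^ 2 - 25 * (4 * m + 3) * (8 * W + 1)) *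
          ((2 * e + 1) * s' ^ 2 - 2 * (4 * m + 3) * (8 * W + 1)) := by
        apply mul_left_cancel₀ (show (4 : ℤ) ≠ 0 by norm_num)
        linear_combination h1
      rcases sq_emod_four s' with ⟨_, S, hS⟩ | ⟨_, S, hS⟩ <;>
      rcases sq_emod_four t' with ⟨_, T, hT⟩ | ⟨_, T, hT⟩ <;> rw [hS, hT] at h2 <;>
      · have := congrArg (Int.cast : ℤ → ZMod 4) h2
        push_cast at this
        generalize (e : ZMod 4) = e, (m : ZMod 4) = m, (S : ZMod 4) = S, (W : ZMod 4) = W,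
          (T : ZMod 4) = T at this
        revert e m S W T
        decide +kernel
    · rw [hT] at h1
      have := congrArg (Int.cast : ℤ → ZMod 2) h1
      push_cast at this
      generalize (e : ZMod 2) = e, (m : ZMod 2) = m, (s' : ZMod 2) = S, (W : ZMod 2) = W,
        (T : ZMod 2) = T at this
      revert e m S W T
      decide +kernel
  · rw [hS] at h1
    rcases sq_emod_four t with ⟨_, T, hT⟩ | ⟨_, T, hT⟩ <;> rw [hT] at h1 <;>
    · have := congrArg (Int.cast : ℤ → ZMod 4) h1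
      push_cast at this
      generalize (e : ZMod 4) = e, (m : ZMod 4) = m, (S : ZMod 4) = S, (W : ZMod 4) = W,
        (T : ZMod 4) = T at this
      revert e m S W T
      decide +kernel

/-- Condition at the real place for the third coordinate. -/
theorem local_real_third {d s w t n : ℤ} (hn : 0 < n) (hd : d ≠ 0) (hw : w ≠ 0)
    (h : d * t ^ 2 = (d * s ^ 2 - 25 * n * w ^ 2) * (d * s ^ 2 - 16 * n * w ^ 2)) : 0 < d := by
  by_contra hneg
  have hd' : d < 0 := by omega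
  have h1 : 0 < n * w ^ 2 := by positivity
  have h2 : d * s ^ 2 ≤ 0 := mul_nonpos_of_nonpos_of_nonneg hd'.le (sq_nonneg s)
  have h3 : d * t ^ 2 ≤ 0 := mul_nonpos_of_nonpos_of_nonneg hd'.le (sq_nonneg t)
  have h4 : 0 < (d * s ^ 2 - 25 * n * w ^ 2) * (d * s ^ 2 - 16 * n * w ^ 2) :=
    mul_pos_of_neg_of_neg (by nlinarith) (by nlinarith)
  omega

end Pool.Agent.Lib.MP_696deb_nt
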